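import Pool.Agent.SDN.Defs

/-!
SDN B1: parts of walks in their own frames, cells in two frames.
-/

set_option autoImplicit false

namespace HexObs

namespace SDN

open Finset

lemma tf_dropN (t : List Bool) (q k : ℕ) : tf (t.drop q) k = tf t (q + k) := by
  unfold tf
  simp [List.getD_eq_getElem?_getD, List.getElem?_drop]

lemma vx_dropN (v d : Pt) (t : List Bool) (q k : ℕ) :
    vx (vx v d t q) (dx d t q) (t.drop q) k = vx v d t (q + k) := by
  have h := vs_shift v d (tf t) q k
  show vs (vs v d (tf t) q) (ds d (tf t) q) (tf (t.drop q)) k = vs v d (tf t) (q + k)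
  rw [h]
  exact vs_congr k (fun j _ => tf_dropN t q j)

lemma vx_frameN (u m : Pt) (t : List Bool) (i : ℕ) : vx m (mulE u up) t i = m + mulE u (vx oo up t i) := by
  rw [vx_mulE u oo m up t i]
  congr 2
  show vx oo up t i - oo = vx oo up t i
  have : oo = (0 : Pt) := rfl
  rw [this, sub_zero]

lemma up_dirs : up ∈ dirs := by decide

/-- the frame of the direction e -/
lemma frame_dir {e : Pt} (he : e ∈ dirs) : rotTo up e ∈ dirs ∧ e = mulE (rotTo up e) up :=
  ⟨mem_dirs.2 (nrm_rotTo up_dirs he), (rotTo_apply e up_dirs).symm⟩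

/-- the second part of a walk, in its own frame (same frame for all vertices) -/
theorem drop_frame' (t : List Bool) (a : ℕ) :
    ∃ c : Pt, c ∈ dirs ∧ dx up t a = mulE c up ∧
      ∀ i, vx oo up t (a + i) = vx oo up t a + mulE c (vx oo up (t.drop a) i) := by
  obtain ⟨h1, h2⟩ := frame_dir (dx_mem up_dirs t a)
  refine ⟨_, h1, h2, fun i => ?_⟩
  rw [← vx_dropN, ← vx_frameN, ← h2]

/-- the second part of a walk, in its own frame -/
theorem drop_frame {t : List Bool} {a : ℕ} (_ha : a ≤ t.length) (i : ℕ) :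
    ∃ c : Pt, c ∈ dirs ∧ dx up t a = mulE c up ∧ vx oo up t (a + i) = vx oo up t a + mulE c (vx oo up (t.drop a) i) := by
  obtain ⟨c, h1, h2, h3⟩ := drop_frame' t a
  exact ⟨c, h1, h2, h3 i⟩

theorem SA_drop {t : List Bool} (ht : t ∈ SA) (a : ℕ) : t.drop a ∈ SA := by
  obtain ⟨c, -, -, h3⟩ := drop_frame' t a
  refine ⟨fun _ _ _ => Set.mem_univ _, ?_⟩
  intro i k hik hk heq
  rw [List.length_drop] at hk
  refine ht.inj (a + i) (a + k) (by omega) (by omega) ?_
  rw [h3, h3, heq]

theorem SA_take {t : List Bool} (ht : t ∈ SA) (a : ℕ) : t.take a ∈ SA := by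
  refine ⟨fun _ _ _ => Set.mem_univ _, ?_⟩
  intro i k hik hk heq
  have hk' := hk
  rw [List.length_take] at hk'
  refine ht.inj i k hik (by omega) ?_
  have h1 : ∀ j, j ≤ (t.take a).length → vx oo up t j = vx oo up (t.take a) j := by
    intro j hj
    have := vx_append (v0 := oo) (d0 := up) (t := t.take a) (s := t.drop a) (i := j) (by omega)
    rwa [List.take_append_drop] at this
  rw [h1 i (by omega), h1 k hk, heq]

/-- the window of one coordinate -/
lemma win (H : ℤ) (hH : 0 < H) (p h0 h1 x y : ℤ)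
    (hxy : (x = 1 ∧ y = 0) ∨ (x = -1 ∧ y = 0) ∨ (x = 0 ∧ y = 1) ∨ (x = 0 ∧ y = -1) ∨ (x = 1 ∧ y = 1) ∨
      (x = -1 ∧ y = -1)) :
    p / H + x * (h0 / H) + y * (h1 / H) + (if x + y < 0 then -2 else 0) ≤ (p + x * h0 + y * h1) / H ∧
      (p + x * h0 + y * h1) / H ≤ p / H + x * (h0 / H) + y * (h1 / H) + (if x + y < 0 then -2 else 0) + 3 := by
  have a1 := Int.mul_ediv_self_le (x := p) hH.ne'
  have a2 := Int.lt_ediv_add_one_mul_self p hH
  have b1 := Int.mul_ediv_self_le (x := h0) hH.ne'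
  have b2 := Int.lt_ediv_add_one_mul_self h0 hH
  have c1 := Int.mul_ediv_self_le (x := h1) hH.ne'
  have c2 := Int.lt_ediv_add_one_mul_self h1 hH
  rw [Int.le_ediv_iff_mul_le hH, ← Int.lt_add_one_iff (a := (p + x * h0 + y * h1) / H), Int.ediv_lt_iff_lt_mul hH]
  rcases hxy with ⟨rfl, rfl⟩ | ⟨rfl, rfl⟩ | ⟨rfl, rfl⟩ | ⟨rfl, rfl⟩ | ⟨rfl, rfl⟩ | ⟨rfl, rfl⟩ <;>
    constructor <;> norm_num <;> nlinarith

/-- one cell in another frame -/
lemma cell_frame {c : Pt} (hc : c ∈ dirs) (p : Pt) (b : ℕ) :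
    ∃ F : ℤ × ℤ → ℤ × ℤ, ∀ v : Pt, cell b (p + mulE c v) ∈
      Icc (F (cell b v)).1 ((F (cell b v)).1 + 3) ×ˢ Icc (F (cell b v)).2 ((F (cell b v)).2 + 3) := by
  have hH : (0 : ℤ) < 3 * 2 ^ b := by positivity
  have key : ∃ x y x' y' : ℤ,
      ((x = 1 ∧ y = 0) ∨ (x = -1 ∧ y = 0) ∨ (x = 0 ∧ y = 1) ∨ (x = 0 ∧ y = -1) ∨ (x = 1 ∧ y = 1) ∨
        (x = -1 ∧ y = -1)) ∧
      ((x' = 1 ∧ y' = 0) ∨ (x' = -1 ∧ y' = 0) ∨ (x' = 0 ∧ y' = 1) ∨ (x' = 0 ∧ y' = -1) ∨ (x' = 1 ∧ y' = 1) ∨
        (x' = -1 ∧ y' = -1)) ∧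
      ∀ v : Pt, lvl false (p + mulE c v) = lvl false p + x * lvl false v + y * lvl true v ∧
        lvl true (p + mulE c v) = lvl true p + x' * lvl false v + y' * lvl true v := by
    simp only [dirs, mem_insert, mem_singleton] at hc
    rcases hc with rfl | rfl | rfl | rfl | rfl | rfl
    · refine ⟨1, 0, 0, 1, by norm_num, by norm_num, fun v => ?_⟩
      simp only [lvl, hd, ip, up, mulE, Bool.false_eq_true, if_false, if_true, Prod.fst_add, Prod.snd_add]
      constructor <;> ring
    · refine ⟨0, -1, 1, 1, by norm_num, by norm_num, fun v => ?_⟩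
      simp only [lvl, hd, ip, up, mulE, Bool.false_eq_true, if_false, if_true, Prod.fst_add, Prod.snd_add]
      constructor <;> ring
    · refine ⟨-1, -1, 1, 0, by norm_num, by norm_num, fun v => ?_⟩
      simp only [lvl, hd, ip, up, mulE, Bool.false_eq_true, if_false, if_true, Prod.fst_add, Prod.snd_add]
      constructor <;> ring
    · refine ⟨-1, 0, 0, -1, by norm_num, by norm_num, fun v => ?_⟩
      simp only [lvl, hd, ip, up, mulE, Bool.false_eq_true, if_false, if_true, Prod.fst_add, Prod.snd_add]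
      constructor <;> ring
    · refine ⟨0, 1, -1, -1, by norm_num, by norm_num, fun v => ?_⟩
      simp only [lvl, hd, ip, up, mulE, Bool.false_eq_true, if_false, if_true, Prod.fst_add, Prod.snd_add]
      constructor <;> ring
    · refine ⟨1, 1, -1, 0, by norm_num, by norm_num, fun v => ?_⟩
      simp only [lvl, hd, ip, up, mulE, Bool.false_eq_true, if_false, if_true, Prod.fst_add, Prod.snd_add]
      constructor <;> ring
  obtain ⟨x, y, x', y', h1, h2, h3⟩ := key
  refine ⟨fun z => (lvl false p / (3 * 2 ^ b) + x * z.1 + y * z.2 + (if x + y < 0 then -2 else 0),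
    lvl true p / (3 * 2 ^ b) + x' * z.1 + y' * z.2 + (if x' + y' < 0 then -2 else 0)), fun v => ?_⟩
  have e : ∀ dir w, row dir w / 2 ^ b = lvl dir w / (3 * 2 ^ b) := by
    intro dir w
    unfold row
    rw [Int.ediv_ediv_of_nonneg (by norm_num)]
  rw [mem_product, mem_Icc, mem_Icc]
  simp only [cell, e]
  rw [(h3 v).1, (h3 v).2]
  exact ⟨win _ hH _ _ _ _ _ h1, win _ hH _ _ _ _ _ h2⟩

lemma cells_frame1 {c : Pt} (hc : c ∈ dirs) (p : Pt) (b : ℕ) (V : Finset Pt) :
    (V.image fun v => cell b (p + mulE c v)).card ≤ 16 * (V.image fun v => cell b v).card := by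
  obtain ⟨F, hF⟩ := cell_frame hc p b
  have hsub : (V.image fun v => cell b (p + mulE c v)) ⊆ (V.image fun v => cell b v).biUnion fun z =>
      Icc (F z).1 ((F z).1 + 3) ×ˢ Icc (F z).2 ((F z).2 + 3) := by
    intro z hz
    rw [mem_image] at hz
    obtain ⟨v, hv, rfl⟩ := hz
    rw [mem_biUnion]
    exact ⟨cell b v, mem_image_of_mem _ hv, hF v⟩
  refine (card_le_card hsub).trans ?_
  refine (card_biUnion_le_card_mul _ _ 16 ?_).trans (le_of_eq (mul_comm _ _))
  intro z _
  rw [card_product, Int.card_Icc, Int.card_Icc]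
  have h1 : ((F z).1 + 3 + 1 - (F z).1).toNat = 4 := by
    rw [show (F z).1 + 3 + 1 - (F z).1 = 4 by ring]
    rfl
  have h2 : ((F z).2 + 3 + 1 - (F z).2).toNat = 4 := by
    rw [show (F z).2 + 3 + 1 - (F z).2 = 4 by ring]
    rfl
  rw [h1, h2]

/-- cells in two frames -/
theorem cells_frame (c p : Pt) (hc : c ∈ dirs) (b : ℕ) (V : Finset Pt) :
    (V.image fun v => cell b (p + mulE c v)).card ≤ 16 * (V.image fun v => cell b v).card ∧
      (V.image fun v => cell b v).card ≤ 16 * (V.image fun v => cell b (p + mulE c v)).card := by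
  refine ⟨cells_frame1 hc p b V, ?_⟩
  have hn : nrm c = 1 := mem_dirs.1 hc
  have hc' : conjE c ∈ dirs := mem_dirs.2 (by rw [nrm_conjE, hn])
  have hinv : ∀ v : Pt, -(mulE (conjE c) p) + mulE (conjE c) (p + mulE c v) = v := by
    intro v
    rw [mulE_add, mulE_assoc, mulE_comm (conjE c) c, mulE_conjE, hn, mulE_one]
    abel
  have h := cells_frame1 hc' (-(mulE (conjE c) p)) b (V.image fun v => p + mulE c v)
  rw [image_image, image_image] at h
  have e1 : ((fun v => cell b (-(mulE (conjE c) p) + mulE (conjE c) v)) ∘ fun v => p + mulE c v) =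
      fun v => cell b v := by
    funext v
    simp only [Function.comp_apply, hinv]
  rw [e1] at h
  exact h

theorem nb_drop {t : List Bool} (a b : ℕ) : nb b (t.drop a) ≤ 16 * nb b t := by
  obtain ⟨c, hc, -, h3⟩ := drop_frame' t a
  have hpos : 1 ≤ nb b t := by
    unfold nb cells
    rw [Nat.one_le_iff_ne_zero, Ne, card_eq_zero, image_eq_empty, range_eq_empty_iff]
    omega
  rcases Nat.lt_or_ge t.length a with ha | ha
  · have : t.drop a = [] := List.drop_eq_nil_of_le ha.le
    rw [this]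
    have : nb b [] = 1 := by
      unfold nb cells
      simp
    omega
  · have h := (cells_frame c (vx oo up t a) hc b
      ((range ((t.drop a).length + 1)).image fun i => vx oo up (t.drop a) i)).2
    rw [image_image, image_image] at h
    refine h.trans (Nat.mul_le_mul_left _ (card_le_card ?_))
    intro z hz
    rw [mem_image] at hz
    obtain ⟨i, hi, rfl⟩ := hz
    rw [mem_range, List.length_drop] at hi
    simp only [Function.comp_apply]
    rw [← h3]
    exact mem_image_of_mem _ (mem_range.2 (by omega))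

end SDN

end HexObs
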