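import Pool.Agent.SDN.NormX

/-!
SDN, norm part: the operators without tilt, leaves of height between D and N.
-/

set_option autoImplicit false

namespace HexObs

open Finset TS

open scoped ENNReal

open Rec8 (sw mb)

namespace SDN

variable {C δ : ℝ}

/-- sum over the next leaf, no tilt -/
noncomputable def uA (D N : ℕ) (R : List Bool → List Bool → Prop) (Φ : List Bool → ℝ≥0∞) (t : List Bool) : ℝ≥0∞ :=
  sw {g' | g' ∈ BrR D N ∧ RT D R t g'} Φ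

/-- the same, bad part -/
noncomputable def uB (D N k j1 j3 : ℕ) (R : List Bool → List Bool → Prop) (Φ : List Bool → ℝ≥0∞) (t : List Bool) :
    ℝ≥0∞ := sw {g' | g' ∈ BrR D N ∧ RT D R t g'} (fun g' => bet k j1 j3 g' * Φ g')

open Classical in
/-- the same, good part summed over the bridge V -/
noncomputable def uU (D N k j1 j3 : ℕ) (R : List Bool → List Bool → Prop) (Φ : List Bool → ℝ≥0∞) (t : List Bool) :
    ℝ≥0∞ :=
  sB BU fun M => sB IU fun P1 => ∑' h : ℕ, sB IU fun P2 => sB BU fun Q =>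
    if 2 ^ j3 ≤ h ∧ ∃ V ∈ Brd h, M ++ (P1 ++ (V ++ (P2 ++ Q))) ∈ BrR D N ∧
        RT D R t (M ++ (P1 ++ (V ++ (P2 ++ Q)))) then
      mu j1 (hgt M) (hgt P1) * mu k (hgt M + hgt P1 + h) (hgt P2) *
        (wE M * (wE P1 * (gf (Brd h) * (wE P2 * (wE Q * Φ (P2 ++ Q)))))) else 0

theorem BrR_sub_HB {D N : ℕ} {t : List Bool} (h : t ∈ BrR D N) : t ∈ HB D := by
  obtain ⟨n, h1, _, h3⟩ := h
  exact ⟨n, h1, h3⟩

/-- the relation of the leaves gives the relation of the kernel -/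
theorem RT_KRel {R : List Bool → List Bool → Prop} (hR : ∀ g g', R g g' → ∃ c : Bool, Nb g ((!c) :: c :: g'))
    {D i m n p y : ℕ} {I M X P Y : List Bool} (hI : I ∈ Brd i) (hM : M ∈ Brd m) (hX : X ∈ Brd n)
    (hP : P ∈ Brd p) (hY : Y ∈ Brd y) (h2 : X ++ (P ++ Y) ∈ HB D) (h : RT D R (I ++ M) (X ++ (P ++ Y))) :
    ∃ c : Bool, KRel D I P M ((!c) :: c :: X) := by
  obtain ⟨Z, ⟨z, hZ⟩, h1, hr⟩ := h
  exact R_KRel hR hZ hI hM hX hP hY h1 h2 hr

/-- the next leaf behind I ++ M, decomposed at the in-level of the window j ≤ k; W is any set of leaves -/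
theorem next_le {D N j : ℕ} {R : List Bool → List Bool → Prop} {Φ : List Bool → ℝ≥0∞} (hΦ : Hered Φ)
    (hR : ∀ g g', R g g' → ∃ c : Bool, Nb g ((!c) :: c :: g')) (hj : 2 ^ (j + 1) ≤ D) (Θ : ℕ → ℕ → List Bool → ℝ≥0∞)
    (hΘ : ∀ n r P, n ≤ 2 ^ (j + 1) → P ∈ Irr r →
      sw {Z | Z ∈ BU ∧ ∃ Y ∈ Brd n, Y ++ (P ++ Z) ∈ BrR D N} (fun Z => Φ (P ++ Z)) ≤ Θ n r P)
    {i m : ℕ} {I M : List Bool} (hI : I ∈ Brd i) (hM : M ∈ Brd m) :
    uA D N R Φ (I ++ M) ≤ ∑' n : ℕ, ∑' r : ℕ, mu j n r * sw (Brd n) (fun X =>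
      sw {P | P ∈ Irr r ∧ ∃ c : Bool, KRel D I P M ((!c) :: c :: X)} (fun P => Θ n r P)) := by
  classical
  unfold uA
  rw [Rec8.sw_and]
  refine (inR (j := j) (D := D) (N := N) hj _).trans ?_
  refine ENNReal.tsum_le_tsum fun n => ENNReal.tsum_le_tsum fun r => ?_
  by_cases hn : 2 ^ (j + 1) ≤ n
  · rw [mu_eq_zero hn, zero_mul, zero_mul]
  refine mul_le_mul_right (Rec8.sw_mono' fun X hX => ?_) _
  rw [Rec8.sw_and]
  refine Rec8.sw_mono' fun P hP => ?_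
  have hPB : P ∈ Brd r := hP.1
  have hnn : n ≤ 2 ^ (j + 1) := (not_le.mp hn).le
  by_cases hK : ∃ c : Bool, KRel D I P M ((!c) :: c :: X)
  · rw [if_pos hK]
    refine le_trans (Rec8.sw_mono ?_ ?_) (hΘ n r P hnn hP)
    · rintro Z' ⟨ha, hb⟩
      exact ⟨ha, X, hX, hb⟩
    · rintro Z' ⟨ha, hb⟩
      split_ifs
      · exact hΦ X ⟨n, hX⟩ _
      · exact zero_le
  · rw [if_neg hK]
    refine le_trans (Rec8.sw_mono' (Ψ := fun _ => 0) ?_) (le_of_eq (Rec8.sw_zero _))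
    rintro Z' ⟨⟨y, hy⟩, hb⟩
    rw [if_neg]
    intro hRR
    exact hK (RT_KRel hR hI hM hX hPB hy (BrR_sub_HB hb) hRR)

private theorem NO_sum1 (D k b j1 : ℕ) (I : List Bool) (x A : ℝ≥0∞) :
    ∑ a ∈ range (j1 + 2), ∑' r : ℕ, mb k a r * sw (Irr r) (fun P => KT D b I a P *
      (x * (∑ b2 ∈ range (k + 1), mb k b2 r * Sw D k b2 P + A))) =
    x * (∑ a ∈ range (j1 + 2), ∑ b2 ∈ range (k + 1), ∑' r : ℕ, mb k a r * mb k b2 r *
      sw (Irr r) (fun P => KT D b I a P * Sw D k b2 P) +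
      A * ∑ a ∈ range (j1 + 2), pm k a (fun P => KT D b I a P)) := by
  rw [Finset.mul_sum, ← Finset.sum_add_distrib, Finset.mul_sum]
  refine Finset.sum_congr rfl fun a _ => ?_
  have h1 : ∀ r : ℕ, mb k a r * sw (Irr r) (fun P => KT D b I a P *
      (x * (∑ b2 ∈ range (k + 1), mb k b2 r * Sw D k b2 P + A))) =
      x * (∑ b2 ∈ range (k + 1), mb k a r * mb k b2 r * sw (Irr r) (fun P => KT D b I a P * Sw D k b2 P) +
        A * (mb k a r * sw (Irr r) (fun P => KT D b I a P))) := by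
    intro r
    have h2 : sw (Irr r) (fun P => KT D b I a P *
        (x * (∑ b2 ∈ range (k + 1), mb k b2 r * Sw D k b2 P + A))) =
        x * (∑ b2 ∈ range (k + 1), mb k b2 r * sw (Irr r) (fun P => KT D b I a P * Sw D k b2 P) +
          A * sw (Irr r) (fun P => KT D b I a P)) := by
      have h3 : sw (Irr r) (fun P => KT D b I a P *
          (x * (∑ b2 ∈ range (k + 1), mb k b2 r * Sw D k b2 P + A))) =
          sw (Irr r) (fun P => x * (∑ b2 ∈ range (k + 1), mb k b2 r * (KT D b I a P * Sw D k b2 P) +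
            A * KT D b I a P)) := by
        refine Rec8.sw_congr fun P _ => ?_
        have h4 : ∑ b2 ∈ range (k + 1), mb k b2 r * (KT D b I a P * Sw D k b2 P) =
            KT D b I a P * ∑ b2 ∈ range (k + 1), mb k b2 r * Sw D k b2 P := by
          rw [Finset.mul_sum]
          exact Finset.sum_congr rfl fun b2 _ => by ring
        rw [h4]
        ring
      rw [h3, Rec8.sw_mul_left, Rec8.sw_add, Rec8.sw_sum, Rec8.sw_mul_left]
      congr 2
      exact Finset.sum_congr rfl fun b2 _ => Rec8.sw_mul_left _ _ _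
    rw [h2, mul_left_comm, mul_add, Finset.mul_sum]
    congr 2
    · exact Finset.sum_congr rfl fun b2 _ => by ring
    · ring
  rw [tsum_congr h1, ENNReal.tsum_mul_left, ENNReal.tsum_add, ENNReal.tsum_mul_left,
    Summable.tsum_finsetSum (fun _ _ => ENNReal.summable)]
  rfl

/-- one more leaf -/
theorem nA (h : Inp C δ) : ∃ K : ℝ, 1 ≤ K ∧ ∀ (D N k : ℕ) (R : List Bool → List Bool → Prop) (ρ : ℝ)
    (Φ : List Bool → ℝ≥0∞), Hered Φ → (∀ g g', R g g' → ∃ c : Bool, Nb g ((!c) :: c :: g')) → 2 ^ (k + 4) ≤ D →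
    1 ≤ ρ → UU N ≤ ρ * Ub k → xT D k (uA D N R Φ) ≤ ENNReal.ofReal (K * ρ) * xT D k Φ := by
  obtain ⟨K3, hK3, k3h⟩ := k3 h
  obtain ⟨K1, hK1, k1h⟩ := k1 h
  obtain ⟨Kr, hKr, hrest⟩ := restH h
  have hp : (0 : ℝ) ≤ Kr * K1 := by positivity
  refine ⟨16 * (K3 + Kr * K1), by nlinarith, fun D N k R ρ Φ hΦ hR hD hρ hU => ?_⟩
  refine xT_le fun b I hb hI => ?_
  obtain ⟨i, hIi⟩ := hI
  set x := xT D k Φ with hx
  let Θ : ℕ → List Bool → ℝ≥0∞ := fun r P =>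
    x * (∑ b2 ∈ range (k + 1), mb k b2 r * Sw D k b2 P + ENNReal.ofReal (Kr * UU N))
  have s1 : sw (Fld.BrB b) (fun M => uA D N R Φ (I ++ M)) ≤ sw (Fld.BrB b) (fun M => ∑' n : ℕ, ∑' r : ℕ, mu k n r *
      sw (Brd n) (fun X => sw {P | P ∈ Irr r ∧ ∃ c : Bool, KRel D I P M ((!c) :: c :: X)} (fun P => Θ r P))) := by
    refine Rec8.sw_mono' fun M hM => ?_
    obtain ⟨m, -, hMm⟩ := hM
    exact next_le hΦ hR ((Nat.pow_le_pow_right (by norm_num) (by omega)).trans hD) (fun _ r P => Θ r P)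
      (fun n r P hn hP => hrest D N k n r Φ P hΦ hD hn hP) hIi.1 hMm
  have s2 := fold_sum D b k I (mu k) (mb k) (fun a n r => mu_le_mb) (fun n r => mu_eq_zero)
    (fun a r => mb_mono (Nat.le_succ a) r) Θ
  refine s1.trans (s2.trans ?_)
  have s4 := NO_sum1 D k b k I x (ENNReal.ofReal (Kr * UU N))
  have t1 := k3h D k b I hD hb
  have t2 := k1h D k k b I hD le_rfl hb
  have hUb := Ub_pos k
  have hKrU : (0 : ℝ) ≤ Kr * UU N := by
    have : 0 ≤ UU N := (Num2Aux.UU_pos N).le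
    positivity
  have t3 : ENNReal.ofReal (Kr * UU N) * ∑ a ∈ range (k + 2), pm k a (fun P => KT D b I a P) ≤
      ENNReal.ofReal (Kr * K1 * ρ) * Sw D k b I := by
    calc ENNReal.ofReal (Kr * UU N) * ∑ a ∈ range (k + 2), pm k a (fun P => KT D b I a P)
        ≤ ENNReal.ofReal (Kr * UU N) * (ENNReal.ofReal (K1 / Ub k) * Sw D k b I) := by gcongr
      _ = ENNReal.ofReal (Kr * UU N * (K1 / Ub k)) * Sw D k b I := by
          rw [← mul_assoc, ← ENNReal.ofReal_mul hKrU]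
      _ ≤ ENNReal.ofReal (Kr * K1 * ρ) * Sw D k b I := by
          refine mul_le_mul_left (ENNReal.ofReal_le_ofReal ?_) _
          have : Kr * UU N * (K1 / Ub k) = Kr * K1 * UU N / Ub k := by ring
          rw [this, div_le_iff₀ hUb]
          nlinarith [mul_le_mul_of_nonneg_left hU hp]
  calc 16 * ∑ a ∈ range (k + 2), ∑' r : ℕ, mb k a r * sw (Irr r) (fun P => KT D b I a P * Θ r P)
      = 16 * (x * (∑ a ∈ range (k + 2), ∑ b2 ∈ range (k + 1), ∑' r : ℕ, mb k a r * mb k b2 r *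
        sw (Irr r) (fun P => KT D b I a P * Sw D k b2 P) +
      ENNReal.ofReal (Kr * UU N) * ∑ a ∈ range (k + 2), pm k a (fun P => KT D b I a P))) := by
        rw [← s4]
    _ ≤ 16 * (x * (ENNReal.ofReal K3 * Sw D k b I + ENNReal.ofReal (Kr * K1 * ρ) * Sw D k b I)) := by
        gcongr
    _ = ENNReal.ofReal (16 * (K3 + Kr * K1 * ρ)) * x * Sw D k b I := by
        have e16 : ENNReal.ofReal 16 = 16 := by simp
        have e17 : ENNReal.ofReal (16 * (K3 + Kr * K1 * ρ)) =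
            16 * (ENNReal.ofReal K3 + ENNReal.ofReal (Kr * K1 * ρ)) := by
          rw [ENNReal.ofReal_mul (by norm_num : (0 : ℝ) ≤ 16), e16,
            ENNReal.ofReal_add (by linarith) (mul_nonneg hp (by linarith))]
        rw [e17]
        ring
    _ ≤ ENNReal.ofReal (16 * (K3 + Kr * K1) * ρ) * x * Sw D k b I := by
        have e18 : 16 * (K3 + Kr * K1 * ρ) ≤ 16 * (K3 + Kr * K1) * ρ := by
          nlinarith [mul_le_mul_of_nonneg_left hρ (by linarith : (0 : ℝ) ≤ K3)]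
        exact mul_le_mul_left (mul_le_mul_left (ENNReal.ofReal_le_ofReal e18) _) _

open Classical in
private theorem NO_uB (D N k j1 j3 : ℕ) (R : List Bool → List Bool → Prop) (Φ : List Bool → ℝ≥0∞)
    (t : List Bool) : uB D N k j1 j3 R Φ t =
      sw (BrR D N) (fun g' => bet k j1 j3 g' * (if RT D R t g' then Φ g' else 0)) := by
  unfold uB
  rw [Rec8.sw_and]
  refine Rec8.sw_congr fun g' _ => ?_
  split_ifs
  · rfl
  · rw [mul_zero]

open Classical in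
private theorem NO_G {R : List Bool → List Bool → Prop} (hR : ∀ g g', R g g' → ∃ c : Bool, Nb g ((!c) :: c :: g'))
    {D N i m n r : ℕ} {I M X P Y : List Bool} {Φ : List Bool → ℝ≥0∞} (hΦ : Hered Φ) (hI : I ∈ Brd i)
    (hM : M ∈ Brd m) (hX : X ∈ Brd n) (hP : P ∈ Brd r) (hY : Y ∈ BU)
    (h2 : X ++ (P ++ Y) ∈ BrR D N) {s t : List Bool} (hs : s ∈ BU) (hst : X ++ (P ++ Y) = s ++ t) :
    (if RT D R (I ++ M) (X ++ (P ++ Y)) then Φ (X ++ (P ++ Y)) else 0) ≤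
      if ∃ c : Bool, KRel D I P M ((!c) :: c :: X) then Φ t else 0 := by
  by_cases h : RT D R (I ++ M) (X ++ (P ++ Y))
  · obtain ⟨y, hY'⟩ := hY
    rw [if_pos h, if_pos (RT_KRel hR hI hM hX hP hY' (BrR_sub_HB h2) h), hst]
    exact hΦ s hs t
  · rw [if_neg h]
    exact zero_le

private theorem NO_zero {A : Set (List Bool)} {Φ : List Bool → ℝ≥0∞} (h : ∀ t ∈ A, Φ t ≤ 0) : sw A Φ ≤ 0 :=
  le_trans (Rec8.sw_mono' (Ψ := fun _ => 0) h) (Rec8.sw_zero A).le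

theorem NO_gfV (j : ℕ) : ∑ v ∈ range (2 ^ j), gf (Brd v) ≤ ENNReal.ofReal (Ub j) := by
  have h1 : ∀ v, gf (Brd v) = ENNReal.ofReal (uu v) := by
    intro v
    have h2 : BT v ≠ ⊤ := by
      rcases Nat.eq_zero_or_pos v with rfl | h
      · rw [← gf_Brd, Brd_zero]
        simp [gf, wE]
      · exact ne_top_of_le_ne_top ENNReal.one_ne_top (BT_le_one h)
    rw [gf_Brd, uu, ENNReal.ofReal_toReal h2]
  simp only [h1]
  rw [← ENNReal.ofReal_sum_of_nonneg (f := uu) (fun v _ => ENNReal.toReal_nonneg)]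
  refine ENNReal.ofReal_le_ofReal ?_
  unfold Ub UU
  refine Finset.sum_le_sum_of_subset_of_nonneg ?_ (fun v _ _ => ENNReal.toReal_nonneg)
  intro v hv
  rw [Finset.mem_range] at hv ⊢
  omega

/-- the bound for the leaves behind I ++ M -/
private theorem NO_main {K1 K4 : ℝ}
    (hrest : ∀ (D N k n r : ℕ) (Φ : List Bool → ℝ≥0∞) (P : List Bool), Hered Φ →
      2 ^ (k + 4) ≤ D → n ≤ 2 ^ (k + 1) → P ∈ Irr r →
      sw {Z | Z ∈ BU ∧ ∃ Y ∈ Brd n, Y ++ (P ++ Z) ∈ BrR D N} (fun Z => Φ (P ++ Z)) ≤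
        xT D k Φ * (∑ b ∈ range (k + 1), mb k b r * Sw D k b P + ENNReal.ofReal (K1 * UU N)))
    (htail : ∀ (D N k n : ℕ) (R : ℝ) (Φ : List Bool → ℝ≥0∞), Hered Φ →
      2 ^ (k + 4) ≤ D → 1 ≤ R → UU N ≤ R * Ub k →
      ∑' r : ℕ, mu k n r * sw (Irr r) (fun P => sw {Z | Z ∈ BU ∧ ∃ Y ∈ Brd n, Y ++ (P ++ Z) ∈ BrR D N}
        (fun Z => Φ (P ++ Z))) ≤ ENNReal.ofReal (K4 * R) * xT D k Φ)
    {D N k j1 j3 : ℕ} {R : List Bool → List Bool → Prop} {ρ : ℝ} {Φ : List Bool → ℝ≥0∞} (hΦ : Hered Φ)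
    (hR : ∀ g g', R g g' → ∃ c : Bool, Nb g ((!c) :: c :: g')) (hD : 2 ^ (k + 4) ≤ D) (hρ : 1 ≤ ρ)
    (hN : UU N ≤ ρ * Ub k) (hj : j1 + 3 ≤ k) {i m : ℕ} {I M : List Bool} (hI : I ∈ Brd i)
    (hM : M ∈ Brd m) :
    uB D N k j1 j3 R Φ (I ++ M) ≤
      (∑' n : ℕ, ∑' r : ℕ, (mu j1 n r * mu k n r) * sw (Brd n) (fun X =>
        sw {P | P ∈ Irr r ∧ ∃ c : Bool, KRel D I P M ((!c) :: c :: X)} (fun P =>
          xT D k Φ * (∑ b ∈ range (k + 1), mb k b r * Sw D k b P + ENNReal.ofReal (K1 * UU N))))) +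
      ∑' n : ℕ, ∑' r : ℕ, mu j1 n r * sw (Brd n) (fun X =>
        sw {P | P ∈ Irr r ∧ ∃ c : Bool, KRel D I P M ((!c) :: c :: X)} (fun _ =>
          ENNReal.ofReal (Ub j3) * (ENNReal.ofReal (K4 * ρ) * xT D k Φ))) := by
  classical
  have hk2 : 2 ^ (k + 1) ≤ D := le_trans (Nat.pow_le_pow_right (by norm_num) (by omega)) hD
  rw [NO_uB]
  refine le_trans (badR (by omega) hk2 _) ?_
  rw [← ENNReal.tsum_add]
  refine ENNReal.tsum_le_tsum fun n => ?_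
  rw [← ENNReal.tsum_add]
  refine ENNReal.tsum_le_tsum fun r => ?_
  by_cases hn : 2 ^ (j1 + 1) ≤ n
  · rw [mu_eq_zero hn, zero_mul]
    exact zero_le
  have hn' : n ≤ 2 ^ (k + 1) := by
    have : 2 ^ (j1 + 1) ≤ 2 ^ (k + 1) := Nat.pow_le_pow_right (by norm_num) (by omega)
    omega
  rw [mul_assoc, ← mul_add]
  refine mul_le_mul_right ?_ _
  rw [← Rec8.sw_mul_left, ← Rec8.sw_add]
  refine Rec8.sw_mono' fun X hX => ?_
  rw [← Rec8.sw_mul_left, ← Rec8.sw_add, Rec8.sw_and]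
  refine Rec8.sw_mono' fun P hP => ?_
  have hPB : P ∈ Brd r := hP.1
  by_cases hc : ∃ c : Bool, KRel D I P M ((!c) :: c :: X)
  · rw [if_pos hc]
    refine add_le_add ?_ ?_
    · refine mul_le_mul_right ?_ _
      refine le_trans ?_ (hrest D N k n r Φ P hΦ hD hn' hP)
      refine Rec8.sw_mono ?_ ?_
      · rintro Z' ⟨hZ', h2⟩
        exact ⟨hZ', X, hX, h2⟩
      · rintro Z' ⟨hZ', h2⟩
        have := NO_G hR hΦ hI hM hX hPB hZ' h2 (s := X) (t := P ++ Z') ⟨n, hX⟩ rfl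
        rw [if_pos hc] at this
        exact this
    · have h5 : ∀ v ∈ range (2 ^ j3), sw (Brd v) (fun V => ∑' r2 : ℕ, mu k (n + r + v) r2 * sw (Irr r2) (fun P2 =>
          sw {Q | Q ∈ BU ∧ X ++ (P ++ (V ++ (P2 ++ Q))) ∈ BrR D N}
            (fun Q => if RT D R (I ++ M) (X ++ (P ++ (V ++ (P2 ++ Q)))) then
              Φ (X ++ (P ++ (V ++ (P2 ++ Q)))) else 0))) ≤
          gf (Brd v) * (ENNReal.ofReal (K4 * ρ) * xT D k Φ) := by
        intro v _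
        rw [← Rec8.sw_one, ← Rec8.sw_mul_right]
        refine Rec8.sw_mono' fun V hV => ?_
        rw [one_mul]
        refine le_trans ?_ (htail D N k (n + r + v) ρ Φ hΦ hD hρ hN)
        refine ENNReal.tsum_le_tsum fun r2 => ?_
        refine mul_le_mul_right (Rec8.sw_mono' fun P2 hP2 => ?_) _
        have hXPV : X ++ (P ++ V) ∈ Brd (n + r + v) := by
          have := Brd_append hX (Brd_append hPB hV)
          rwa [← add_assoc] at this
        refine Rec8.sw_mono ?_ ?_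
        · rintro Q ⟨hQ, h2⟩
          exact ⟨hQ, X ++ (P ++ V), hXPV, by simpa only [List.append_assoc] using h2⟩
        · rintro Q ⟨hQ, h2⟩
          obtain ⟨q, hQ'⟩ := hQ
          have := NO_G hR hΦ hI hM hX hPB (Y := V ++ (P2 ++ Q)) ⟨v + (r2 + q), Brd_append hV (Brd_append hP2.1 hQ')⟩
            h2 (s := X ++ (P ++ V)) (t := P2 ++ Q) ⟨_, hXPV⟩ (by simp only [List.append_assoc])
          rw [if_pos hc] at this
          exact this
      refine le_trans (Finset.sum_le_sum h5) ?_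
      rw [← Finset.sum_mul]
      exact mul_le_mul_left (NO_gfV j3) _
  · rw [if_neg hc]
    have h6 : ∀ Y ∈ BU, X ++ (P ++ Y) ∈ BrR D N →
        (if RT D R (I ++ M) (X ++ (P ++ Y)) then Φ (X ++ (P ++ Y)) else 0) ≤ 0 := by
      intro Y hY h2
      have := NO_G hR hΦ hI hM hX hPB hY h2 (s := X) (t := P ++ Y) ⟨n, hX⟩ rfl
      rw [if_neg hc] at this
      exact this
    have h7 : sw {Z' | Z' ∈ BU ∧ X ++ (P ++ Z') ∈ BrR D N} (fun Z' =>
        if RT D R (I ++ M) (X ++ (P ++ Z')) then Φ (X ++ (P ++ Z')) else 0) ≤ 0 := by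
      refine NO_zero ?_
      rintro Z' ⟨hZ', h2⟩
      exact h6 Z' hZ' h2
    have h8 : ∀ v ∈ range (2 ^ j3), sw (Brd v) (fun V => ∑' r2 : ℕ, mu k (n + r + v) r2 * sw (Irr r2) (fun P2 =>
          sw {Q | Q ∈ BU ∧ X ++ (P ++ (V ++ (P2 ++ Q))) ∈ BrR D N}
            (fun Q => if RT D R (I ++ M) (X ++ (P ++ (V ++ (P2 ++ Q)))) then
              Φ (X ++ (P ++ (V ++ (P2 ++ Q)))) else 0))) ≤ 0 := by
      intro v _
      refine NO_zero fun V hV => ?_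
      have h9 : ∀ r2 : ℕ, mu k (n + r + v) r2 * sw (Irr r2) (fun P2 =>
          sw {Q | Q ∈ BU ∧ X ++ (P ++ (V ++ (P2 ++ Q))) ∈ BrR D N}
            (fun Q => if RT D R (I ++ M) (X ++ (P ++ (V ++ (P2 ++ Q)))) then
              Φ (X ++ (P ++ (V ++ (P2 ++ Q)))) else 0)) ≤ 0 := by
        intro r2
        have h10 : sw (Irr r2) (fun P2 =>
          sw {Q | Q ∈ BU ∧ X ++ (P ++ (V ++ (P2 ++ Q))) ∈ BrR D N}
            (fun Q => if RT D R (I ++ M) (X ++ (P ++ (V ++ (P2 ++ Q)))) then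
              Φ (X ++ (P ++ (V ++ (P2 ++ Q)))) else 0)) ≤ 0 := by
          refine NO_zero fun P2 hP2 => ?_
          refine NO_zero ?_
          rintro Q ⟨hQ, h2⟩
          obtain ⟨q, hQ'⟩ := hQ
          exact h6 _ ⟨v + (r2 + q), Brd_append hV (Brd_append hP2.1 hQ')⟩ h2
        rw [nonpos_iff_eq_zero] at h10
        rw [h10, mul_zero]
      calc _ ≤ ∑' _ : ℕ, (0 : ℝ≥0∞) := ENNReal.tsum_le_tsum h9
        _ = 0 := tsum_zero
    rw [nonpos_iff_eq_zero] at h7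
    rw [h7, mul_zero, zero_add]
    exact le_trans (Finset.sum_le_sum h8) (by simp)

private theorem NO_sum2 (D b j1 : ℕ) (I : List Bool) (y : ℝ≥0∞) :
    ∑ a ∈ range (j1 + 2), ∑' r : ℕ, mb j1 a r * sw (Irr r) (fun P => KT D b I a P * y) =
      y * ∑ a ∈ range (j1 + 2), pm j1 a (fun P => KT D b I a P) := by
  rw [Finset.mul_sum]
  refine Finset.sum_congr rfl fun a _ => ?_
  unfold pm
  rw [← ENNReal.tsum_mul_left]
  refine tsum_congr fun r => ?_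
  rw [Rec8.sw_mul_right]
  ring

private theorem NO_num {K1 K2 K3 K4 K5 e e2 e3 ρ uN uk u1 u3 : ℝ} (h1 : 1 ≤ K1) (h2 : 1 ≤ K2) (h3 : 1 ≤ K3)
    (h4 : 1 ≤ K4) (h5 : 1 ≤ K5) (he2 : 0 ≤ e2) (he3 : 0 ≤ e3) (h2e : e2 ≤ e) (h3e : e3 ≤ e) (hρ : 1 ≤ ρ)
    (huN : 0 ≤ uN) (huk : 0 < uk) (hu1 : 0 < u1) (hu3 : 0 < u3) (hN : uN ≤ ρ * uk) :
    (16 : ℝ≥0∞) * (ENNReal.ofReal (K3 * e3) + ENNReal.ofReal (K1 * uN) * ENNReal.ofReal (K2 / uk * e2) +
      ENNReal.ofReal u3 * ENNReal.ofReal (K4 * ρ) * ENNReal.ofReal (K5 / u1)) ≤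
    ENNReal.ofReal (16 * (K3 + K1 * K2 + K4 * K5) * ρ * (e + u3 / u1)) := by
  have h16 : (16 : ℝ≥0∞) = ENNReal.ofReal 16 := by norm_num
  have p1 : 0 ≤ K1 * uN := mul_nonneg (by linarith) huN
  have p2 : 0 ≤ K3 * e3 := mul_nonneg (by linarith) he3
  have p3 : 0 ≤ K2 / uk * e2 := mul_nonneg (div_nonneg (by linarith) huk.le) he2
  have p4 : 0 ≤ K4 * ρ := mul_nonneg (by linarith) (by linarith)
  have p5 : 0 ≤ K5 / u1 := div_nonneg (by linarith) hu1.le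
  rw [h16, ← ENNReal.ofReal_mul p1, ← ENNReal.ofReal_mul hu3.le, ← ENNReal.ofReal_mul (mul_nonneg hu3.le p4),
    ← ENNReal.ofReal_add p2 (mul_nonneg p1 p3),
    ← ENNReal.ofReal_add (add_nonneg p2 (mul_nonneg p1 p3)) (mul_nonneg (mul_nonneg hu3.le p4) p5),
    ← ENNReal.ofReal_mul (by norm_num)]
  refine ENNReal.ofReal_le_ofReal ?_
  have he : 0 ≤ e := le_trans he2 h2e
  have q1 : K3 * e3 ≤ K3 * ρ * e := by
    have : K3 * e3 ≤ K3 * e := mul_le_mul_of_nonneg_left h3e (by linarith)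
    have h6 : K3 * e ≤ K3 * ρ * e := by
      have : 0 ≤ K3 * e := mul_nonneg (by linarith) he
      nlinarith
    linarith
  have q2 : K1 * uN * (K2 / uk * e2) ≤ K1 * K2 * ρ * e := by
    have h6 : K1 * uN * (K2 / uk * e2) ≤ K1 * (ρ * uk) * (K2 / uk * e2) :=
      mul_le_mul_of_nonneg_right (mul_le_mul_of_nonneg_left hN (by linarith)) p3
    have h7 : K1 * (ρ * uk) * (K2 / uk * e2) = K1 * K2 * ρ * e2 := by
      field_simp
    have h8 : K1 * K2 * ρ * e2 ≤ K1 * K2 * ρ * e :=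
      mul_le_mul_of_nonneg_left h2e (mul_nonneg (mul_nonneg (by linarith) (by linarith)) (by linarith))
    linarith
  have q3 : u3 * (K4 * ρ) * (K5 / u1) = K4 * K5 * ρ * (u3 / u1) := by
    field_simp
  have hw : 0 ≤ u3 / u1 := div_nonneg hu3.le hu1.le
  have r1 : 0 ≤ K3 * ρ * (u3 / u1) := mul_nonneg (mul_nonneg (by linarith) (by linarith)) hw
  have r2 : 0 ≤ K1 * K2 * ρ * (u3 / u1) :=
    mul_nonneg (mul_nonneg (mul_nonneg (by linarith) (by linarith)) (by linarith)) hw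
  have r3 : 0 ≤ K4 * K5 * ρ * e := mul_nonneg (mul_nonneg (mul_nonneg (by linarith) (by linarith)) (by linarith)) he
  have r4 : (16 : ℝ) * (K3 + K1 * K2 + K4 * K5) * ρ * (e + u3 / u1) =
      16 * (K3 * ρ * e + K1 * K2 * ρ * e + K4 * K5 * ρ * (u3 / u1) + K3 * ρ * (u3 / u1) + K1 * K2 * ρ * (u3 / u1) +
        K4 * K5 * ρ * e) := by ring
  rw [r4, q3]
  linarith

/-- the bad part of one more leaf -/
theorem nB (h : Inp C δ) : ∃ K c : ℝ, 1 ≤ K ∧ 0 < c ∧ ∀ (D N k j1 j3 : ℕ) (R : List Bool → List Bool → Prop)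
    (ρ : ℝ) (Φ : List Bool → ℝ≥0∞), Hered Φ → (∀ g g', R g g' → ∃ c : Bool, Nb g ((!c) :: c :: g')) →
    2 ^ (k + 4) ≤ D → 1 ≤ ρ → UU N ≤ ρ * Ub k → j1 + 3 ≤ k → j3 ≤ j1 → xT D k (uB D N k j1 j3 R Φ) ≤
      ENNReal.ofReal (K * ρ * ((2 : ℝ) ^ (-(c * ((k : ℝ) - j1))) + Ub j3 / Ub j1)) * xT D k Φ := by
  obtain ⟨K1, hK1, hrest⟩ := restH h
  obtain ⟨K4, hK4, htail⟩ := tailH h
  obtain ⟨K2, c2, hK2, hc2, hk2⟩ := k2 h
  obtain ⟨K3, c3, hK3, hc3, hk3⟩ := k3' h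
  obtain ⟨K5, hK5, hk1⟩ := k1 h
  refine ⟨16 * (K3 + K1 * K2 + K4 * K5), min c2 c3, ?_, lt_min hc2 hc3, ?_⟩
  · have p1 : 0 ≤ K1 * K2 := mul_nonneg (by linarith) (by linarith)
    have p2 : 0 ≤ K4 * K5 := mul_nonneg (by linarith) (by linarith)
    linarith
  intro D N k j1 j3 R ρ Φ hΦ hR hD hρ hN hj _
  refine xT_le fun b I hb hI => ?_
  obtain ⟨i, hI'⟩ := hI
  have hPsi : sw (Fld.BrB b) (fun M => uB D N k j1 j3 R Φ (I ++ M)) ≤ _ :=
    Rec8.sw_mono' (A := Fld.BrB b) fun M hM => by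
      obtain ⟨m, _, hM'⟩ := hM
      exact NO_main hrest htail hΦ hR hD hρ hN hj hI'.1 hM'
  refine le_trans hPsi ?_
  rw [Rec8.sw_add]
  have hF1 := fold_sum D b j1 I (fun n r => mu j1 n r * mu k n r) (fun a r => mb k a r)
    (fun a n r ha => by
      have h1 : mu j1 n r ≤ 1 := le_trans (mu_le_min j1 n r) (min_le_left _ _)
      calc mu j1 n r * mu k n r ≤ 1 * mb k a r := mul_le_mul' h1 (mu_le_mb ha)
        _ = mb k a r := one_mul _)
    (fun n r hn => by rw [mu_eq_zero hn, zero_mul])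
    (fun a r => mb_mono (Nat.le_succ a) r)
    (fun r P => xT D k Φ * (∑ b ∈ range (k + 1), mb k b r * Sw D k b P + ENNReal.ofReal (K1 * UU N)))
  have hF2 := fold_sum D b j1 I (fun n r => mu j1 n r) (fun a r => mb j1 a r)
    (fun a n r ha => mu_le_mb ha) (fun n r hn => mu_eq_zero hn) (fun a r => mb_mono (Nat.le_succ a) r)
    (fun _ _ => ENNReal.ofReal (Ub j3) * (ENNReal.ofReal (K4 * ρ) * xT D k Φ))
  refine le_trans (add_le_add hF1 hF2) ?_
  rw [NO_sum1, NO_sum2]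
  have hS1 := hk3 D k j1 b I hD hj hb
  have hS2 := hk2 D k j1 b I hD hj hb
  have hS3 := hk1 D k j1 b I hD (by omega) hb
  have hkj : (0 : ℝ) ≤ (k : ℝ) - j1 := by
    have : (j1 : ℝ) ≤ k := by exact_mod_cast (by omega : j1 ≤ k)
    linarith
  calc 16 * (xT D k Φ * (∑ a ∈ range (j1 + 2), ∑ b2 ∈ range (k + 1), ∑' r : ℕ, mb k a r * mb k b2 r *
        sw (Irr r) (fun P => KT D b I a P * Sw D k b2 P) +
        ENNReal.ofReal (K1 * UU N) * ∑ a ∈ range (j1 + 2), pm k a (fun P => KT D b I a P))) +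
      16 * (ENNReal.ofReal (Ub j3) * (ENNReal.ofReal (K4 * ρ) * xT D k Φ) *
        ∑ a ∈ range (j1 + 2), pm j1 a (fun P => KT D b I a P))
      ≤ 16 * (xT D k Φ * (ENNReal.ofReal (K3 * (2 : ℝ) ^ (-(c3 * ((k : ℝ) - j1)))) * Sw D k b I +
          ENNReal.ofReal (K1 * UU N) *
            (ENNReal.ofReal (K2 / Ub k * (2 : ℝ) ^ (-(c2 * ((k : ℝ) - j1)))) * Sw D k b I))) +
        16 * (ENNReal.ofReal (Ub j3) * (ENNReal.ofReal (K4 * ρ) * xT D k Φ) *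
          (ENNReal.ofReal (K5 / Ub j1) * Sw D k b I)) := by
        gcongr
    _ = (16 * (ENNReal.ofReal (K3 * (2 : ℝ) ^ (-(c3 * ((k : ℝ) - j1)))) + ENNReal.ofReal (K1 * UU N) *
          ENNReal.ofReal (K2 / Ub k * (2 : ℝ) ^ (-(c2 * ((k : ℝ) - j1)))) +
          ENNReal.ofReal (Ub j3) * ENNReal.ofReal (K4 * ρ) * ENNReal.ofReal (K5 / Ub j1))) * xT D k Φ *
            Sw D k b I := by ring
    _ ≤ ENNReal.ofReal (16 * (K3 + K1 * K2 + K4 * K5) * ρ *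
          ((2 : ℝ) ^ (-(min c2 c3 * ((k : ℝ) - j1))) + Ub j3 / Ub j1)) * xT D k Φ * Sw D k b I := by
        gcongr
        refine NO_num hK1 hK2 hK3 hK4 hK5 (by positivity) (by positivity) ?_ ?_ hρ ?_ (Ub_pos _) (Ub_pos _)
          (Ub_pos _) hN
        · refine Real.rpow_le_rpow_of_exponent_le (by norm_num) ?_
          have := mul_le_mul_of_nonneg_right (min_le_left c2 c3) hkj
          linarith
        · refine Real.rpow_le_rpow_of_exponent_le (by norm_num) ?_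
          have := mul_le_mul_of_nonneg_right (min_le_right c2 c3) hkj
          linarith
        · unfold UU
          exact Finset.sum_nonneg fun t _ => ENNReal.toReal_nonneg

theorem NO_gf (v : ℕ) : gf (Brd v) = ENNReal.ofReal (uu v) := by
  rw [gf_Brd]
  unfold uu
  rw [ENNReal.ofReal_toReal]
  intro h
  rcases Nat.eq_zero_or_pos v with h0 | h0
  · have h1 := uu_zero
    unfold uu at h1
    rw [h0] at h
    rw [h, ENNReal.toReal_top] at h1
    exact zero_ne_one h1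
  · exact BT_ne_top h0 h

theorem NO_sumV (k : ℕ) : ∑ v ∈ range (2 ^ (k + 1)), gf (Brd v) ≤ ENNReal.ofReal (2 * Ub k) := by
  rw [Finset.sum_congr rfl fun v _ => NO_gf v,
    ← ENNReal.ofReal_sum_of_nonneg (f := uu) (fun s _ => ENNReal.toReal_nonneg)]
  apply ENNReal.ofReal_le_ofReal
  refine le_trans ?_ (Ub_succ k)
  unfold Ub UU
  apply Finset.sum_le_sum_of_subset_of_nonneg
  · intro s hs
    rw [Finset.mem_range] at hs ⊢
    omega
  · intro s _ _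
    exact ENNReal.toReal_nonneg

/-- the operator uU by heights -/
theorem uU_le (D N k j1 j3 : ℕ) (R : List Bool → List Bool → Prop) (Φ : List Bool → ℝ≥0∞) (t : List Bool) :
    uU D N k j1 j3 R Φ t ≤ ∑' n : ℕ, ∑' r : ℕ, mu j1 n r * sw (Brd n) (fun X => sw (Irr r) (fun P =>
      ∑' v : ℕ, gf (Brd v) * ∑' r2 : ℕ, mu k (n + r + v) r2 * sw (Irr r2) (fun P2 =>
        sw {Q | Q ∈ BU ∧ ∃ V ∈ Brd v, X ++ (P ++ (V ++ (P2 ++ Q))) ∈ BrR D N ∧ RT D R t (X ++ (P ++ (V ++ (P2 ++ Q))))}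
          (fun Q => Φ (P2 ++ Q))))) := by
  classical
  -- the right side as a sum over words
  have hR : (∑' n : ℕ, ∑' r : ℕ, mu j1 n r * sw (Brd n) (fun X => sw (Irr r) (fun P =>
      ∑' v : ℕ, gf (Brd v) * ∑' r2 : ℕ, mu k (n + r + v) r2 * sw (Irr r2) (fun P2 =>
        sw {Q | Q ∈ BU ∧ ∃ V ∈ Brd v, X ++ (P ++ (V ++ (P2 ++ Q))) ∈ BrR D N ∧ RT D R t (X ++ (P ++ (V ++ (P2 ++ Q))))}
          (fun Q => Φ (P2 ++ Q)))))) =
      sB BU fun X => sB IU fun P => ∑' v : ℕ, sB IU fun P2 => sB BU fun Q =>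
        if ∃ V ∈ Brd v, X ++ (P ++ (V ++ (P2 ++ Q))) ∈ BrR D N ∧ RT D R t (X ++ (P ++ (V ++ (P2 ++ Q)))) then
          mu j1 (hgt X) (hgt P) * mu k (hgt X + hgt P + v) (hgt P2) *
            (wE X * (wE P * (gf (Brd v) * (wE P2 * (wE Q * Φ (P2 ++ Q)))))) else 0 := by
    calc _ = ∑' n : ℕ, sw (Brd n) (fun X => ∑' r : ℕ, sw (Irr r) (fun P => mu j1 n r *
          ∑' v : ℕ, gf (Brd v) * ∑' r2 : ℕ, mu k (n + r + v) r2 * sw (Irr r2) (fun P2 =>
            sw {Q | Q ∈ BU ∧ ∃ V ∈ Brd v, X ++ (P ++ (V ++ (P2 ++ Q))) ∈ BrR D N ∧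
              RT D R t (X ++ (P ++ (V ++ (P2 ++ Q))))} (fun Q => Φ (P2 ++ Q))))) := by
          refine tsum_congr fun n => ?_
          unfold sw
          simp only [← ENNReal.tsum_mul_left]
          rw [ENNReal.tsum_comm]
          refine tsum_congr fun X => tsum_congr fun r => tsum_congr fun P => tsum_congr fun v =>
            tsum_congr fun r2 => tsum_congr fun P2 => tsum_congr fun Q => by ring
      _ = sB BU (fun X => wE X * ∑' r : ℕ, sw (Irr r) (fun P => mu j1 (hgt X) r *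
          ∑' v : ℕ, gf (Brd v) * ∑' r2 : ℕ, mu k (hgt X + r + v) r2 * sw (Irr r2) (fun P2 =>
            sw {Q | Q ∈ BU ∧ ∃ V ∈ Brd v, X ++ (P ++ (V ++ (P2 ++ Q))) ∈ BrR D N ∧
              RT D R t (X ++ (P ++ (V ++ (P2 ++ Q))))} (fun Q => Φ (P2 ++ Q))))) :=
          (sB_BU (fun n X => ∑' r : ℕ, sw (Irr r) (fun P => mu j1 n r *
          ∑' v : ℕ, gf (Brd v) * ∑' r2 : ℕ, mu k (n + r + v) r2 * sw (Irr r2) (fun P2 =>
            sw {Q | Q ∈ BU ∧ ∃ V ∈ Brd v, X ++ (P ++ (V ++ (P2 ++ Q))) ∈ BrR D N ∧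
              RT D R t (X ++ (P ++ (V ++ (P2 ++ Q))))} (fun Q => Φ (P2 ++ Q)))))).symm
      _ = _ := by
          refine sB_congr fun X _ => ?_
          rw [← sB_IU (fun r P => mu j1 (hgt X) r *
          ∑' v : ℕ, gf (Brd v) * ∑' r2 : ℕ, mu k (hgt X + r + v) r2 * sw (Irr r2) (fun P2 =>
            sw {Q | Q ∈ BU ∧ ∃ V ∈ Brd v, X ++ (P ++ (V ++ (P2 ++ Q))) ∈ BrR D N ∧
              RT D R t (X ++ (P ++ (V ++ (P2 ++ Q))))} (fun Q => Φ (P2 ++ Q)))), ← sB_mul]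
          refine sB_congr fun P _ => ?_
          simp only [← ENNReal.tsum_mul_left]
          refine tsum_congr fun v => ?_
          have h1 : (∑' r2 : ℕ, wE X * (wE P * (mu j1 (hgt X) (hgt P) * (gf (Brd v) *
              (mu k (hgt X + hgt P + v) r2 * sw (Irr r2) (fun P2 =>
                sw {Q | Q ∈ BU ∧ ∃ V ∈ Brd v, X ++ (P ++ (V ++ (P2 ++ Q))) ∈ BrR D N ∧
                  RT D R t (X ++ (P ++ (V ++ (P2 ++ Q))))} (fun Q => Φ (P2 ++ Q)))))))) =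
              ∑' r2 : ℕ, sw (Irr r2) (fun P2 => wE X * (wE P * (mu j1 (hgt X) (hgt P) * (gf (Brd v) *
              (mu k (hgt X + hgt P + v) r2 *
                sw {Q | Q ∈ BU ∧ ∃ V ∈ Brd v, X ++ (P ++ (V ++ (P2 ++ Q))) ∈ BrR D N ∧
                  RT D R t (X ++ (P ++ (V ++ (P2 ++ Q))))} (fun Q => Φ (P2 ++ Q))))))) := by
            refine tsum_congr fun r2 => ?_
            simp only [← Rec8.sw_mul_left]
          rw [h1, ← sB_IU (fun r2 P2 => wE X * (wE P * (mu j1 (hgt X) (hgt P) * (gf (Brd v) *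
              (mu k (hgt X + hgt P + v) r2 *
                sw {Q | Q ∈ BU ∧ ∃ V ∈ Brd v, X ++ (P ++ (V ++ (P2 ++ Q))) ∈ BrR D N ∧
                  RT D R t (X ++ (P ++ (V ++ (P2 ++ Q))))} (fun Q => Φ (P2 ++ Q)))))))]
          refine sB_congr fun P2 _ => ?_
          rw [Rec8.sw_and BU]
          have h2 : ∀ Ψ : List Bool → ℝ≥0∞, sw BU Ψ = sB BU (fun Q => wE Q * Ψ Q) := fun _ => rfl
          rw [h2]
          simp only [← sB_mul]
          refine sB_congr fun Q _ => ?_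
          split_ifs
          · ring
          · simp
  rw [hR]
  unfold uU
  refine sB_mono (Set.Subset.refl _) fun X _ => sB_mono (Set.Subset.refl _) fun P _ =>
    ENNReal.tsum_le_tsum fun v => sB_mono (Set.Subset.refl _) fun P2 _ =>
      sB_mono (Set.Subset.refl _) fun Q _ => ?_
  by_cases h : 2 ^ j3 ≤ v ∧ ∃ V ∈ Brd v, X ++ (P ++ (V ++ (P2 ++ Q))) ∈ BrR D N ∧
      RT D R t (X ++ (P ++ (V ++ (P2 ++ Q))))
  · rw [if_pos h, if_pos h.2]
  · rw [if_neg h]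
    exact zero_le

/-- the inner sum of uU: everything behind the piece P1 -/
private theorem NO_inner {K : ℝ} (hK : ∀ (D N k n : ℕ) (R : ℝ) (Φ : List Bool → ℝ≥0∞), Hered Φ →
    2 ^ (k + 4) ≤ D → 1 ≤ R → UU N ≤ R * Ub k →
    ∑' r : ℕ, mu k n r * sw (Irr r) (fun P => sw {Z | Z ∈ BU ∧ ∃ Y ∈ Brd n, Y ++ (P ++ Z) ∈ BrR D N}
      (fun Z => Φ (P ++ Z))) ≤ ENNReal.ofReal (K * R) * xT D k Φ)
    {D N k n r : ℕ} {ρ : ℝ} {Φ : List Bool → ℝ≥0∞} (hΦ : Hered Φ) (hD : 2 ^ (k + 4) ≤ D) (hρ : 1 ≤ ρ)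
    (hN : UU N ≤ ρ * Ub k) {X P : List Bool} (hX : X ∈ Brd n) (hP : P ∈ Irr r)
    (A : ℕ → ℕ → List Bool → Set (List Bool))
    (hA : ∀ v r2 P2, A v r2 P2 ⊆ {Q | Q ∈ BU ∧ ∃ V ∈ Brd v, X ++ (P ++ (V ++ (P2 ++ Q))) ∈ BrR D N}) :
    ∑' v : ℕ, gf (Brd v) * ∑' r2 : ℕ, mu k (n + r + v) r2 * sw (Irr r2) (fun P2 =>
      sw (A v r2 P2) (fun Q => Φ (P2 ++ Q))) ≤
      ENNReal.ofReal (2 * Ub k) * (ENNReal.ofReal (K * ρ) * xT D k Φ) := by
  have h1 : ∀ v : ℕ, gf (Brd v) * ∑' r2 : ℕ, mu k (n + r + v) r2 * sw (Irr r2) (fun P2 =>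
      sw (A v r2 P2) (fun Q => Φ (P2 ++ Q))) ≤
      if v < 2 ^ (k + 1) then gf (Brd v) * (ENNReal.ofReal (K * ρ) * xT D k Φ) else 0 := by
    intro v
    split_ifs with hv
    · refine mul_le_mul_right ?_ _
      refine le_trans (ENNReal.tsum_le_tsum fun r2 => mul_le_mul_right (Rec8.sw_mono' fun P2 _ =>
        Rec8.sw_mono ?_ fun Q _ => le_refl _) _) (hK D N k (n + r + v) ρ Φ hΦ hD hρ hN)
      intro Q hQ
      obtain ⟨h2, V, hV, h3⟩ := hA v r2 P2 hQ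
      refine ⟨h2, X ++ (P ++ V), ?_, ?_⟩
      · have h4 := Brd_append hX (Brd_append hP.1 hV)
        rwa [← Nat.add_assoc] at h4
      · simpa only [List.append_assoc] using h3
    · have h2 : ∀ r2 : ℕ, mu k (n + r + v) r2 * sw (Irr r2) (fun P2 =>
          sw (A v r2 P2) (fun Q => Φ (P2 ++ Q))) = 0 := by
        intro r2
        rw [mu_eq_zero (by omega), zero_mul]
      rw [ENNReal.tsum_eq_zero.2 h2, mul_zero]
  refine (ENNReal.tsum_le_tsum h1).trans ?_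
  rw [tsum_eq_sum (s := range (2 ^ (k + 1))) (by
    intro v hv
    rw [Finset.mem_range] at hv
    rw [if_neg hv]), Finset.sum_congr rfl (fun v hv => if_pos (Finset.mem_range.1 hv)), ← Finset.sum_mul]
  exact mul_le_mul_left (NO_sumV k) _

/-- the good part of one more leaf -/
theorem nU (h : Inp C δ) : ∃ K : ℝ, 1 ≤ K ∧ ∀ (D N k j1 j3 : ℕ) (R : List Bool → List Bool → Prop) (ρ : ℝ)
    (Φ : List Bool → ℝ≥0∞), Hered Φ → (∀ g g', R g g' → ∃ c : Bool, Nb g ((!c) :: c :: g')) → 2 ^ (k + 4) ≤ D →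
    1 ≤ ρ → UU N ≤ ρ * Ub k → j1 + 3 ≤ k →
    xT D k (uU D N k j1 j3 R Φ) ≤ ENNReal.ofReal (K * ρ * (Ub k / Ub j1)) * xT D k Φ := by
  obtain ⟨K1, hK1, h1⟩ := k1 h
  obtain ⟨K2, hK2, h2⟩ := tailH h
  refine ⟨32 * K2 * K1, by nlinarith, ?_⟩
  intro D N k j1 j3 R ρ Φ hΦ hR hD hρ hN hj
  set T : ℝ≥0∞ := ENNReal.ofReal (2 * Ub k) * (ENNReal.ofReal (K2 * ρ) * xT D k Φ) with hT
  refine xT_le fun b I hb hI => ?_
  obtain ⟨ri, hI⟩ := hI
  -- the bound of the functional behind M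
  have key : ∀ M ∈ Fld.BrB b, uU D N k j1 j3 R Φ (I ++ M) ≤
      ∑' n : ℕ, ∑' r : ℕ, mu j1 n r * sw (Brd n) (fun X =>
        sw {P | P ∈ Irr r ∧ ∃ c : Bool, KRel D I P M ((!c) :: c :: X)} (fun _ => T)) := by
    intro M hM
    obtain ⟨m, -, hM⟩ := hM
    refine (uU_le D N k j1 j3 R Φ (I ++ M)).trans ?_
    refine ENNReal.tsum_le_tsum fun n => ENNReal.tsum_le_tsum fun r => mul_le_mul_right ?_ _
    refine Rec8.sw_mono' fun X hX => ?_
    classical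
    rw [Rec8.sw_and]
    refine Rec8.sw_mono' fun P hP => ?_
    split_ifs with hc
    · exact NO_inner h2 hΦ hD hρ hN hX hP (fun v r2 P2 => {Q | Q ∈ BU ∧ ∃ V ∈ Brd v,
        X ++ (P ++ (V ++ (P2 ++ Q))) ∈ BrR D N ∧ RT D R (I ++ M) (X ++ (P ++ (V ++ (P2 ++ Q))))})
        (fun v r2 P2 Q hQ => ⟨hQ.1, hQ.2.choose, hQ.2.choose_spec.1, hQ.2.choose_spec.2.1⟩)
    · have hz : ∀ v : ℕ, gf (Brd v) * ∑' r2 : ℕ, mu k (n + r + v) r2 * sw (Irr r2) (fun P2 =>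
          sw {Q | Q ∈ BU ∧ ∃ V ∈ Brd v, X ++ (P ++ (V ++ (P2 ++ Q))) ∈ BrR D N ∧
            RT D R (I ++ M) (X ++ (P ++ (V ++ (P2 ++ Q))))} (fun Q => Φ (P2 ++ Q))) = 0 := by
        intro v
        have hz2 : ∀ r2 : ℕ, mu k (n + r + v) r2 * sw (Irr r2) (fun P2 =>
          sw {Q | Q ∈ BU ∧ ∃ V ∈ Brd v, X ++ (P ++ (V ++ (P2 ++ Q))) ∈ BrR D N ∧
            RT D R (I ++ M) (X ++ (P ++ (V ++ (P2 ++ Q))))} (fun Q => Φ (P2 ++ Q))) = 0 := by
          intro r2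
          have hz3 : ∀ P2 ∈ Irr r2, sw {Q | Q ∈ BU ∧ ∃ V ∈ Brd v, X ++ (P ++ (V ++ (P2 ++ Q))) ∈ BrR D N ∧
              RT D R (I ++ M) (X ++ (P ++ (V ++ (P2 ++ Q))))} (fun Q => Φ (P2 ++ Q)) = 0 := by
            intro P2 hP2
            have he : {Q | Q ∈ BU ∧ ∃ V ∈ Brd v, X ++ (P ++ (V ++ (P2 ++ Q))) ∈ BrR D N ∧
                RT D R (I ++ M) (X ++ (P ++ (V ++ (P2 ++ Q))))} = (∅ : Set (List Bool)) := by
              rw [Set.eq_empty_iff_forall_notMem]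
              rintro Q ⟨⟨q, hQ⟩, V, hV, ⟨h', hh1, -, hh2⟩, hRR⟩
              exact hc (RT_KRel hR hI.1 hM hX hP.1 (Brd_append hV (Brd_append hP2.1 hQ))
                ⟨h', hh1, hh2⟩ hRR)
            rw [he]
            unfold sw
            exact tsum_empty
          rw [Rec8.sw_congr hz3, Rec8.sw_zero, mul_zero]
        rw [ENNReal.tsum_eq_zero.2 hz2, mul_zero]
      exact le_of_eq (ENNReal.tsum_eq_zero.2 hz)
  have s1 : sw (Fld.BrB b) (fun M => uU D N k j1 j3 R Φ (I ++ M)) ≤ 16 * ∑ a ∈ range (j1 + 2), ∑' r : ℕ, mb j1 a r *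
      sw (Irr r) (fun P => KT D b I a P * T) :=
    (Rec8.sw_mono' key).trans (fold_sum D b j1 I (fun n r => mu j1 n r) (fun a r => mb j1 a r)
      (fun a n r => mu_le_mb) (fun n r hn => mu_eq_zero hn) (fun a r => mb_mono (Nat.le_succ a) r)
      (fun _ _ => T))
  rw [NO_sum2] at s1
  have s3 := h1 D k j1 b I hD (by omega) hb
  refine s1.trans ?_
  have hUk := Ub_pos k
  have hUj := Ub_pos j1
  have e1 : ENNReal.ofReal (32 * K2 * K1 * ρ * (Ub k / Ub j1)) =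
      16 * (ENNReal.ofReal (K1 / Ub j1) * (ENNReal.ofReal (2 * Ub k) * ENNReal.ofReal (K2 * ρ))) := by
    have e16 : (16 : ℝ≥0∞) = ENNReal.ofReal 16 := by norm_num
    rw [e16, ← ENNReal.ofReal_mul (by positivity), ← ENNReal.ofReal_mul (by positivity),
      ← ENNReal.ofReal_mul (by norm_num)]
    congr 1
    field_simp
    ring
  rw [e1]
  calc 16 * (T * ∑ a ∈ range (j1 + 2), pm j1 a (fun P => KT D b I a P))
      ≤ 16 * (T * (ENNReal.ofReal (K1 / Ub j1) * Sw D k b I)) :=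
        mul_le_mul_right (mul_le_mul_right s3 _) _
    _ = _ := by
        rw [hT]
        ring

end SDN

end HexObs
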