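import Pool.Agent.SDN.NormT
import Pool.Agent.TightN.Star1

/-!
SDN, module C1: the norm bounds of the tilted operators for the fold relation.
-/

set_option autoImplicit false

namespace HexObs

open Finset TS

open scoped ENNReal

namespace SDN

theorem inp_exists : ∃ C δ : ℝ, Inp C δ := by
  obtain ⟨C, c, hC, hc, hDR⟩ := deep_returns (foldGain_of (fun A => Fld.fold_H6 S5_out A))
  exact inp_of (cuh_of S5_out) (tef_of S5_out hC hc hDR)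

theorem RNb_LFold : RNb LFold := Fold_Nb

theorem x_tot : ∃ K : ℝ, 1 ≤ K ∧ ∀ (k N : ℕ) (Φ : List Bool → ℝ≥0∞), Hered Φ →
    sB (BrR (2 ^ (k + 4)) N) (fun g => wE g * (tl (2 ^ (k + 4)) (hgt g) * Φ g)) ≤
      ENNReal.ofReal (K * Ub (k + 4)) * xT (2 ^ (k + 4)) k Φ := by
  obtain ⟨C, δ, h⟩ := inp_exists
  obtain ⟨K, hK, h1⟩ := y_tot h
  refine ⟨K, hK, fun k N Φ hΦ => (h1 N k Φ hΦ).trans (mul_le_mul_left (ENNReal.ofReal_le_ofReal ?_) _)⟩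
  exact mul_le_mul_of_nonneg_left (Ub_mono (by omega)) (by linarith)

theorem x_tA : ∃ K : ℝ, 1 ≤ K ∧ ∀ (k N : ℕ) (Φ : List Bool → ℝ≥0∞), Hered Φ →
    xT (2 ^ (k + 4)) k (tA (2 ^ (k + 4)) N LFold Φ) ≤ ENNReal.ofReal K * xT (2 ^ (k + 4)) k Φ := by
  obtain ⟨C, δ, h⟩ := inp_exists
  obtain ⟨K, hK, h1⟩ := y_tA h
  exact ⟨K, hK, fun k N Φ hΦ => h1 N k LFold Φ hΦ RNb_LFold⟩

theorem x_tB : ∃ K c : ℝ, 1 ≤ K ∧ 0 < c ∧ ∀ (k j1 j3 N : ℕ) (Φ : List Bool → ℝ≥0∞), j1 + 3 ≤ k → j3 ≤ j1 → Hered Φ →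
    xT (2 ^ (k + 4)) k (tB (2 ^ (k + 4)) N k j1 j3 LFold Φ) ≤
      ENNReal.ofReal (K * ((2 : ℝ) ^ (-(c * ((k : ℝ) - j1))) + Ub j3 / Ub j1)) * xT (2 ^ (k + 4)) k Φ := by
  obtain ⟨C, δ, h⟩ := inp_exists
  obtain ⟨K, c, hK, hc, h1⟩ := y_tB h
  exact ⟨K, c, hK, hc, fun k j1 j3 N Φ h2 h3 hΦ => h1 N k j1 j3 LFold Φ hΦ RNb_LFold h2 h3⟩

theorem x_tU : ∃ K : ℝ, 1 ≤ K ∧ ∀ (k j1 j3 N : ℕ) (Φ : List Bool → ℝ≥0∞), j1 + 3 ≤ k → Hered Φ →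
    xT (2 ^ (k + 4)) k (tU (2 ^ (k + 4)) N k j1 j3 LFold Φ) ≤
      ENNReal.ofReal (K * (Ub k / Ub j1)) * xT (2 ^ (k + 4)) k Φ := by
  obtain ⟨C, δ, h⟩ := inp_exists
  obtain ⟨K, hK, h1⟩ := y_tU h
  exact ⟨K, hK, fun k j1 j3 N Φ h2 hΦ => h1 N k j1 j3 LFold Φ hΦ RNb_LFold h2⟩

end SDN

end HexObs
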