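import Pool.Agent.SDN.Dim1Defs
import Pool.Agent.SDN.NormO
import Pool.Agent.SDN.XT

/-!
SDN, lower bound of the dimension (board/DIM1), B2: one more leaf, measured at two scales.
-/

set_option autoImplicit false

namespace HexObs

namespace SDN

open Finset TS

open scoped ENNReal

open Rec8 (mb)

variable {C δ : ℝ}

namespace T2

lemma mb_le_one (k a r : ℕ) : mb k a r ≤ 1 := by
  unfold mb
  split_ifs
  · exact zero_le
  · exact min_le_left _ _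

/-- the rest of the leaf behind the piece P, out-level at the scale k1 -/
theorem rest2 (h : Inp C δ) : ∃ K : ℝ, 1 ≤ K ∧ ∀ (D1 E N k1 n r : ℕ) (Φ : List Bool → ℝ≥0∞) (P : List Bool),
    Hered Φ → 2 ^ (k1 + 4) ≤ D1 → D1 ≤ E → n + 2 ^ (k1 + 1) ≤ E → P ∈ Irr r →
    Rec8.sw {Z | Z ∈ BU ∧ ∃ Y ∈ Brd n, Y ++ (P ++ Z) ∈ BrR E N} (fun Z => Φ (P ++ Z)) ≤
      xT D1 k1 Φ * ((if E ≤ n + r + 2 ^ (k1 + 1) then ∑ b ∈ range (k1 + 1), Sw D1 k1 b P else 0) +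
        ENNReal.ofReal (K * UU N)) := by
  obtain ⟨K, hK1, hK⟩ := endsH h
  refine ⟨K, hK1, fun D1 E N k1 n r Φ P hΦ hD hDE hn hP => ?_⟩
  refine (outR hn hP (fun Z => Φ (P ++ Z))).trans ?_
  rw [mul_add]
  refine add_le_add ?_ ?_
  · split_ifs with hE
    · have h1 := endH (D := D1) (k := k1) le_rfl r hP Φ
      have h2 : ∑' m : ℕ, mu k1 m r * Rec8.sw {M | M ∈ Brd m ∧ ∃ Y ∈ Brd n, Y ++ (P ++ M) ∈ BrR E N}
          (fun Z => Φ (P ++ Z)) ≤ ∑' m : ℕ, mu k1 m r * Rec8.sw (Brd m) (fun M => Φ (P ++ M)) := by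
        refine ENNReal.tsum_le_tsum fun m => ?_
        gcongr
        exact Rec8.sw_mono (fun t ht => ht.1) (fun t _ => le_rfl)
      refine (h2.trans h1).trans ?_
      rw [Finset.mul_sum]
      refine Finset.sum_le_sum fun b _ => ?_
      calc mb k1 b r * (xT D1 k1 Φ * Sw D1 k1 b P) ≤ 1 * (xT D1 k1 Φ * Sw D1 k1 b P) :=
            mul_le_mul_left (mb_le_one _ _ _) _
        _ = _ := one_mul _
    · rw [mul_zero, nonpos_iff_eq_zero, ENNReal.tsum_eq_zero]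
      intro m
      rcases Nat.lt_or_ge m (2 ^ (k1 + 1)) with hm | hm
      · have e : {M : List Bool | M ∈ Brd m ∧ ∃ Y ∈ Brd n, Y ++ (P ++ M) ∈ BrR E N} = ∅ := by
          rw [Set.eq_empty_iff_forall_notMem]
          rintro M ⟨hM, Y, hY, H, h1, -, h3⟩
          have := Brd_height h3 (Brd_append hY (Brd_append hP.1 hM))
          omega
        rw [e]
        unfold Rec8.sw
        rw [tsum_empty, mul_zero]
      · rw [mu_eq_zero hm, zero_mul]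
  · have hPb : P ∈ Brd r := hP.1
    have h3 : ∀ m r' : ℕ, mu k1 m r' * Rec8.sw {Z | ∃ h, h ≤ N ∧ Z ∈ Brd h} (fun Z => Rec8.sw (Irr r') (fun P' =>
        Rec8.sw {M | M ∈ Brd m ∧ ∃ Y ∈ Brd n, Y ++ (P ++ (Z ++ (P' ++ M))) ∈ BrR E N}
          (fun M => Φ (P ++ (Z ++ (P' ++ M)))))) ≤
        gf {Z | ∃ h, h ≤ N ∧ Z ∈ Brd h} *
          (mu k1 m r' * Rec8.sw (Irr r') (fun P' => Rec8.sw (Brd m) (fun M => Φ (P' ++ M)))) := by
      intro m r'
      rw [mul_left_comm, ← NX_const]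
      gcongr
      refine Rec8.sw_mono' fun Z hZ => ?_
      obtain ⟨h, _, hZ⟩ := hZ
      refine Rec8.sw_mono' fun P' hP' => ?_
      refine Rec8.sw_mono (fun t ht => ht.1) fun M hM => ?_
      rw [← List.append_assoc]
      exact hΦ _ ⟨_, Brd_append hPb hZ⟩ _
    refine (ENNReal.tsum_le_tsum fun m => ENNReal.tsum_le_tsum fun r' => h3 m r').trans ?_
    simp only [ENNReal.tsum_mul_left]
    calc gf {Z | ∃ h, h ≤ N ∧ Z ∈ Brd h} *
          ∑' m : ℕ, ∑' r' : ℕ, mu k1 m r' * Rec8.sw (Irr r') (fun P' => Rec8.sw (Brd m) (fun M => Φ (P' ++ M)))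
        ≤ ENNReal.ofReal (UU N) * (ENNReal.ofReal K * xT D1 k1 Φ) := mul_le_mul' (gf_BU_le N) (hK D1 k1 Φ hD)
      _ = xT D1 k1 Φ * ENNReal.ofReal (K * UU N) := by
        rw [ENNReal.ofReal_mul (by linarith : (0 : ℝ) ≤ K)]
        ring

/-- the next leaf behind I ++ M, decomposed at the in-level of the window j -/
theorem next2 {D0 E N j : ℕ} {Φ : List Bool → ℝ≥0∞} (hΦ : Hered Φ) (hj : 2 ^ (j + 1) ≤ E) (hDE : D0 ≤ E)
    (Θ : ℕ → ℕ → List Bool → ℝ≥0∞) (hΘ : ∀ n r P, n ≤ 2 ^ (j + 1) → P ∈ Irr r →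
      Rec8.sw {Z | Z ∈ BU ∧ ∃ Y ∈ Brd n, Y ++ (P ++ Z) ∈ BrR E N} (fun Z => Φ (P ++ Z)) ≤ Θ n r P)
    {i m : ℕ} {I M : List Bool} (hI : I ∈ Brd i) (hM : M ∈ Brd m) :
    vA D0 (BrR E N) Φ (I ++ M) ≤ ∑' n : ℕ, ∑' r : ℕ, mu j n r * Rec8.sw (Brd n) (fun X =>
      Rec8.sw {P | P ∈ Irr r ∧ ∃ c : Bool, KRel D0 I P M ((!c) :: c :: X)} (fun P => Θ n r P)) := by
  classical
  unfold vA
  rw [Rec8.sw_and]
  refine (inR (j := j) (D := E) (N := N) hj _).trans ?_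
  refine ENNReal.tsum_le_tsum fun n => ENNReal.tsum_le_tsum fun r => ?_
  by_cases hn : 2 ^ (j + 1) ≤ n
  · rw [mu_eq_zero hn, zero_mul, zero_mul]
  refine mul_le_mul_right (Rec8.sw_mono' fun X hX => ?_) _
  rw [Rec8.sw_and]
  refine Rec8.sw_mono' fun P hP => ?_
  have hPB : P ∈ Brd r := hP.1
  have hnn : n ≤ 2 ^ (j + 1) := (not_le.mp hn).le
  by_cases hK : ∃ c : Bool, KRel D0 I P M ((!c) :: c :: X)
  · rw [if_pos hK]
    refine le_trans (Rec8.sw_mono ?_ ?_) (hΘ n r P hnn hP)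
    · rintro Z' ⟨ha, hb⟩
      exact ⟨ha, X, hX, hb⟩
    · rintro Z' ⟨ha, hb⟩
      split_ifs
      · exact hΦ X ⟨n, hX⟩ _
      · exact zero_le
  · rw [if_neg hK]
    refine le_trans (Rec8.sw_mono' (Ψ := fun _ => 0) ?_) (le_of_eq (Rec8.sw_zero _))
    rintro Z' ⟨⟨y, hy⟩, hb⟩
    rw [if_neg]
    intro hRR
    refine hK (RT_KRel RNb_LFold hI hM hX hPB hy ?_ hRR)
    obtain ⟨H, h1, -, h3⟩ := hb
    exact ⟨H, hDE.trans h1, h3⟩

/-- the sum of the terms of the giants and of the free rest -/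
lemma sum2 (D0 k0 b : ℕ) (I : List Bool) (x A : ℝ≥0∞) (e k1 D1 : ℕ) :
    ∑ a ∈ range (k0 + 2), ∑' r : ℕ, mb k0 a r * Rec8.sw (Irr r) (fun P => KT D0 b I a P *
      (x * ((if 2 ^ e < r then ∑ b2 ∈ range (k1 + 1), Sw D1 k1 b2 P else 0) + A))) ≤
    x * (∑ a ∈ range (k0 + 2), ∑ b2 ∈ range (k1 + 1), ∑' r : ℕ, (if 2 ^ e < r then
      Rec8.sw (Irr r) (fun P => KT D0 b I a P * Sw D1 k1 b2 P) else 0) +
      A * ∑ a ∈ range (k0 + 2), pm k0 a (fun P => KT D0 b I a P)) := by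
  rw [Finset.mul_sum, ← Finset.sum_add_distrib, Finset.mul_sum]
  refine Finset.sum_le_sum fun a _ => ?_
  rw [← Summable.tsum_finsetSum (fun _ _ => ENNReal.summable)]
  unfold pm
  rw [← ENNReal.tsum_mul_left, ← ENNReal.tsum_add, ← ENNReal.tsum_mul_left]
  refine ENNReal.tsum_le_tsum fun r => ?_
  have e1 : Rec8.sw (Irr r) (fun P => KT D0 b I a P *
      (x * ((if 2 ^ e < r then ∑ b2 ∈ range (k1 + 1), Sw D1 k1 b2 P else 0) + A))) =
      x * ((if 2 ^ e < r then ∑ b2 ∈ range (k1 + 1), Rec8.sw (Irr r) (fun P => KT D0 b I a P * Sw D1 k1 b2 P) else 0) +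
        A * Rec8.sw (Irr r) (fun P => KT D0 b I a P)) := by
    have e2 : Rec8.sw (Irr r) (fun P => KT D0 b I a P *
        (x * ((if 2 ^ e < r then ∑ b2 ∈ range (k1 + 1), Sw D1 k1 b2 P else 0) + A))) =
        Rec8.sw (Irr r) (fun P => x * ((if 2 ^ e < r then ∑ b2 ∈ range (k1 + 1), KT D0 b I a P * Sw D1 k1 b2 P else 0) +
          A * KT D0 b I a P)) := by
      refine Rec8.sw_congr fun P _ => ?_
      split_ifs
      · rw [← Finset.mul_sum]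
        ring
      · ring
    rw [e2, Rec8.sw_mul_left, Rec8.sw_add, Rec8.sw_mul_left]
    congr 2
    split_ifs
    · exact Rec8.sw_sum _ _ _
    · exact Rec8.sw_zero _
  rw [e1, mul_left_comm]
  refine mul_le_mul_right ?_ x
  rw [mul_add]
  refine add_le_add ?_ ?_
  · split_ifs
    · calc mb k0 a r * ∑ b2 ∈ range (k1 + 1), Rec8.sw (Irr r) (fun P => KT D0 b I a P * Sw D1 k1 b2 P) ≤
            1 * ∑ b2 ∈ range (k1 + 1), Rec8.sw (Irr r) (fun P => KT D0 b I a P * Sw D1 k1 b2 P) :=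
            mul_le_mul_left (mb_le_one _ _ _) _
        _ = _ := one_mul _
    · rw [mul_zero]
      exact zero_le
  · rw [mul_left_comm]

end T2

open T2 in
/-- one more leaf, measured at two scales -/
theorem two_scale_of (hk3 : ∀ {C δ : ℝ}, Inp C δ → ∃ K : ℝ, 1 ≤ K ∧ ∀ (D0 k0 D1 k1 e b : ℕ) (I : List Bool),
    2 ^ (k0 + 4) ≤ D0 → 2 ^ (k1 + 4) ≤ D1 → k0 ≤ e → k1 ≤ e → b ≤ k0 →
    ∑ a ∈ range (k0 + 2), ∑ b2 ∈ range (k1 + 1), ∑' r : ℕ, (if 2 ^ e < r then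
      Rec8.sw (Irr r) (fun P => KT D0 b I a P * Sw D1 k1 b2 P) else 0) ≤
        ENNReal.ofReal (K * (Ub e / Ub k0)) * Sw D0 k0 b I) :
    ∃ K : ℝ, 1 ≤ K ∧ ∀ (D0 k0 D1 k1 E N : ℕ) (Φ : List Bool → ℝ≥0∞), Hered Φ → 2 ^ (k0 + 4) ≤ D0 →
    2 ^ (k1 + 4) ≤ D1 → D0 ≤ E → D1 ≤ E → E ≤ N →
    xT D0 k0 (vA D0 (BrR E N) Φ) ≤ ENNReal.ofReal (K * (UU N / Ub k0)) * xT D1 k1 Φ := by
  obtain ⟨C, δ, h⟩ := inp_exists
  obtain ⟨K3, hK3, k3h⟩ := hk3 h
  obtain ⟨K1, hK1, k1h⟩ := k1 h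
  obtain ⟨Kr, hKr, hrest⟩ := rest2 h
  refine ⟨16 * (K3 + Kr * K1), by nlinarith, fun D0 k0 D1 k1 E N Φ hΦ hD0 hD1 h0E h1E hEN => ?_⟩
  refine xT_le fun b I hb hI => ?_
  obtain ⟨i, hIi⟩ := hI
  obtain ⟨e, he⟩ : ∃ e, e = max k0 k1 := ⟨_, rfl⟩
  have he0 : k0 ≤ e := by rw [he]; exact le_max_left _ _
  have he1 : k1 ≤ e := by rw [he]; exact le_max_right _ _
  have heE : 2 ^ (e + 4) ≤ E := by
    rcases le_total k0 k1 with hc | hc
    · have : e = k1 := by rw [he]; exact max_eq_right hc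
      rw [this]
      omega
    · have : e = k0 := by rw [he]; exact max_eq_left hc
      rw [this]
      omega
  have hp4 : 2 ^ (e + 4) = 8 * 2 ^ (e + 1) := by ring
  have hp1 : 2 ^ (e + 1) = 2 * 2 ^ e := by ring
  have hp0 : 1 ≤ 2 ^ e := Nat.one_le_two_pow
  have hk0e : 2 ^ (k0 + 1) ≤ 2 ^ (e + 1) := Nat.pow_le_pow_right (by norm_num) (by omega)
  have hk1e : 2 ^ (k1 + 1) ≤ 2 ^ (e + 1) := Nat.pow_le_pow_right (by norm_num) (by omega)
  obtain ⟨x, hx⟩ : ∃ x, x = xT D1 k1 Φ := ⟨_, rfl⟩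
  let Θ : ℕ → List Bool → ℝ≥0∞ := fun r P =>
    x * ((if 2 ^ e < r then ∑ b2 ∈ range (k1 + 1), Sw D1 k1 b2 P else 0) + ENNReal.ofReal (Kr * UU N))
  have s1 : Rec8.sw (Fld.BrB b) (fun M => vA D0 (BrR E N) Φ (I ++ M)) ≤ Rec8.sw (Fld.BrB b) (fun M => ∑' n : ℕ,
      ∑' r : ℕ, mu k0 n r * Rec8.sw (Brd n) (fun X =>
        Rec8.sw {P | P ∈ Irr r ∧ ∃ c : Bool, KRel D0 I P M ((!c) :: c :: X)} (fun P => Θ r P))) := by
    refine Rec8.sw_mono' fun M hM => ?_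
    obtain ⟨m, -, hMm⟩ := hM
    refine next2 hΦ (by omega) h0E (fun _ r P => Θ r P) (fun n r P hn hP => ?_) hIi.1 hMm
    refine (hrest D1 E N k1 n r Φ P hΦ hD1 h1E (by omega) hP).trans ?_
    rw [← hx]
    refine mul_le_mul_right (add_le_add ?_ le_rfl) x
    by_cases h1 : E ≤ n + r + 2 ^ (k1 + 1)
    · rw [if_pos h1, if_pos (by omega)]
    · rw [if_neg h1]
      exact zero_le
  have s2 := fold_sum D0 b k0 I (mu k0) (mb k0) (fun a n r => mu_le_mb) (fun n r => mu_eq_zero)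
    (fun a r => mb_mono (Nat.le_succ a) r) Θ
  refine s1.trans (s2.trans ?_)
  have s4 := sum2 D0 k0 b I x (ENNReal.ofReal (Kr * UU N)) e k1 D1
  have t1 := k3h D0 k0 D1 k1 e b I hD0 hD1 he0 he1 hb
  have t2 := k1h D0 k0 k0 b I hD0 le_rfl hb
  have hUk := Ub_pos k0
  have hUe := Ub_pos e
  have hUN : 0 < UU N := Num2Aux.UU_pos N
  have hUeN : Ub e ≤ UU N := Num2Aux.UU_mono (by omega)
  calc 16 * ∑ a ∈ range (k0 + 2), ∑' r : ℕ, mb k0 a r * Rec8.sw (Irr r) (fun P => KT D0 b I a P * Θ r P)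
      ≤ 16 * (x * (ENNReal.ofReal (K3 * (Ub e / Ub k0)) * Sw D0 k0 b I +
          ENNReal.ofReal (Kr * UU N) * (ENNReal.ofReal (K1 / Ub k0) * Sw D0 k0 b I))) := by
        refine mul_le_mul_right (s4.trans ?_) _
        gcongr
    _ = ENNReal.ofReal (16 * (K3 * (Ub e / Ub k0) + Kr * UU N * (K1 / Ub k0))) * x * Sw D0 k0 b I := by
        have e16 : ENNReal.ofReal 16 = 16 := by simp
        rw [ENNReal.ofReal_mul (p := 16) (by norm_num), e16, ENNReal.ofReal_add (by positivity) (by positivity),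
          ENNReal.ofReal_mul (p := Kr * UU N) (by positivity)]
        ring
    _ ≤ ENNReal.ofReal (16 * (K3 + Kr * K1) * (UU N / Ub k0)) * xT D1 k1 Φ * Sw D0 k0 b I := by
        rw [hx]
        refine mul_le_mul_left (mul_le_mul_left (ENNReal.ofReal_le_ofReal ?_) _) _
        have h5 : Ub e / Ub k0 ≤ UU N / Ub k0 := div_le_div_of_nonneg_right hUeN hUk.le
        have h6 : K3 * (Ub e / Ub k0) ≤ K3 * (UU N / Ub k0) := mul_le_mul_of_nonneg_left h5 (by linarith)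
        have h7 : Kr * UU N * (K1 / Ub k0) = Kr * K1 * (UU N / Ub k0) := by ring
        rw [h7]
        nlinarith

end SDN

end HexObs
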