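import Pool.Agent.SDN.Peierls1

/-!
SDN, limit version (board/DIM), M0: odd chains, all leaves of a bridge are used.
-/

set_option autoImplicit false

namespace HexObs

namespace SDN

open Finset TS

open scoped ENNReal

open Classical in
/-- the continuations of 2 j + 1 leaves after g -/
def CO (D N q w : ℕ) (G : Finset (ℤ × ℤ × ℤ)) (n j : ℕ) (X S : ℤ) (g : List Bool) : Set (List (List Bool)) :=
  {gs | gs.length = 2 * j + 1 ∧ List.IsChain LFold (g :: gs) ∧ (∀ u ∈ gs, u ∈ BrR D N) ∧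
    NCB (G ∪ (caps q w X S gs).toFinset) ∧ ((caps q w X S gs).toFinset \ G).card ≤ n}

/-- bound of the tilted weight of the continuations -/
noncomputable def FO (D N k j1 j3 : ℕ) (κ : ℝ≥0∞) : ℕ → ℕ → List Bool → ℝ≥0∞
  | _, 0 => tA D N LFold (fun _ => 1)
  | n, j + 1 => fun t => tB D N k j1 j3 LFold (tA D N LFold (FO D N k j1 j3 κ n j)) t +
      tA D N LFold (tB D N k j1 j3 LFold (FO D N k j1 j3 κ n j)) t +
      κ * tU D N k j1 j3 LFold (tU D N k j1 j3 LFold (FO D N k j1 j3 κ n j)) t +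
      (if n = 0 then 0 else tA D N LFold (tA D N LFold (FO D N k j1 j3 κ (n - 1) j)) t)

/-- the chains of 2 j + 1 leaves, first leaf up, with a non-crossing set of at most n block pairs -/
def C1o (D N q w n j : ℕ) : Set (List (List Bool)) :=
  {gs | gs.length = 2 * j + 1 ∧ List.IsChain LFold gs ∧ (∀ u ∈ gs, u ∈ BrR D N) ∧
    NCB (caps q w 0 0 gs).toFinset ∧ (caps q w 0 0 gs).toFinset.card ≤ n}

namespace Ch

lemma hered_FO (D N k j1 j3 : ℕ) (κ : ℝ≥0∞) : ∀ n j : ℕ, Hered (FO D N k j1 j3 κ n j)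
  | n, 0 => by
    cases n <;> exact hered_tA _ _ _ _
  | n, j + 1 => by
    intro s hs t
    have h1 := hered_tB D N k j1 j3 LFold (tA D N LFold (FO D N k j1 j3 κ n j)) s hs t
    have h2 := hered_tA D N LFold (tB D N k j1 j3 LFold (FO D N k j1 j3 κ n j)) s hs t
    have h3 := hered_tU D N k j1 j3 LFold (tU D N k j1 j3 LFold (FO D N k j1 j3 κ n j)) s hs t
    have h4 := hered_tA D N LFold (tA D N LFold (FO D N k j1 j3 κ (n - 1) j)) s hs t
    show tB D N k j1 j3 LFold (tA D N LFold (FO D N k j1 j3 κ n j)) (s ++ t) +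
      tA D N LFold (tB D N k j1 j3 LFold (FO D N k j1 j3 κ n j)) (s ++ t) +
      κ * tU D N k j1 j3 LFold (tU D N k j1 j3 LFold (FO D N k j1 j3 κ n j)) (s ++ t) +
      (if n = 0 then 0 else tA D N LFold (tA D N LFold (FO D N k j1 j3 κ (n - 1) j)) (s ++ t)) ≤
      tB D N k j1 j3 LFold (tA D N LFold (FO D N k j1 j3 κ n j)) t +
      tA D N LFold (tB D N k j1 j3 LFold (FO D N k j1 j3 κ n j)) t +
      κ * tU D N k j1 j3 LFold (tU D N k j1 j3 LFold (FO D N k j1 j3 κ n j)) t +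
      (if n = 0 then 0 else tA D N LFold (tA D N LFold (FO D N k j1 j3 κ (n - 1) j)) t)
    refine add_le_add (add_le_add (add_le_add h1 h2) (mul_le_mul_right h3 κ)) ?_
    split_ifs
    · exact le_rfl
    · exact h4

/-- the first pair of a chain -/
lemma CO_two {D N q w : ℕ} {G : Finset (ℤ × ℤ × ℤ)} {n j : ℕ} {X S : ℤ} {g g' g'' : List Bool}
    {rest : List (List Bool)} (h : g' :: g'' :: rest ∈ CO D N q w G n (j + 1) X S g) :
    g' ∈ BrR D N ∧ g'' ∈ BrR D N ∧ LFold g g' ∧ LFold g' g'' ∧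
      ((cap q w X S g' g'' ∈ G ∧
        rest ∈ CO D N q w G n j (X + latE g' + tw g' - latE g'' - tw g'') (S + ht g' - ht g'') g'') ∨
      (cap q w X S g' g'' ∉ G ∧ n ≠ 0 ∧ rest ∈ CO D N q w (insert (cap q w X S g' g'') G) (n - 1) j
        (X + latE g' + tw g' - latE g'' - tw g'') (S + ht g' - ht g'') g'')) := by
  classical
  obtain ⟨h1, h2, h3, h4, h5⟩ := h
  rw [List.isChain_cons_cons, List.isChain_cons_cons] at h2
  have hlen : rest.length = 2 * j + 1 := by
    simp only [List.length_cons] at h1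
    omega
  obtain ⟨c, hc⟩ : ∃ c, c = caps q w (X + latE g' + tw g' - latE g'' - tw g'') (S + ht g' - ht g'') rest := ⟨_, rfl⟩
  obtain ⟨e, he⟩ : ∃ e, e = cap q w X S g' g'' := ⟨_, rfl⟩
  have hcaps : caps q w X S (g' :: g'' :: rest) = e :: c := by
    rw [he, hc]
    rfl
  rw [hcaps, List.toFinset_cons] at h4 h5
  have hr : ∀ u ∈ rest, u ∈ BrR D N := fun u hu => h3 u (List.mem_cons_of_mem _ (List.mem_cons_of_mem _ hu))
  refine ⟨h3 g' (List.mem_cons_self), h3 g'' (List.mem_cons_of_mem _ (List.mem_cons_self)), h2.1, h2.2.1, ?_⟩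
  rw [← he]
  by_cases hG : e ∈ G
  · left
    refine ⟨hG, hlen, h2.2.2, hr, ?_, ?_⟩
    · rw [← hc]
      have e1 : G ∪ insert e c.toFinset = G ∪ c.toFinset := by
        ext x
        simp only [Finset.mem_union, Finset.mem_insert]
        constructor
        · rintro (h | rfl | h)
          · exact Or.inl h
          · exact Or.inl hG
          · exact Or.inr h
        · rintro (h | h)
          · exact Or.inl h
          · exact Or.inr (Or.inr h)
      rw [e1] at h4
      exact h4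
    · rw [← hc]
      refine le_trans (Finset.card_le_card ?_) h5
      exact Finset.sdiff_subset_sdiff (Finset.subset_insert _ _) (Finset.Subset.refl _)
  · right
    have e2 : insert e c.toFinset \ G = insert e (c.toFinset \ insert e G) := by
      ext x
      simp only [Finset.mem_sdiff, Finset.mem_insert]
      constructor
      · rintro ⟨rfl | h, h'⟩
        · exact Or.inl rfl
        · by_cases hx : x = e
          · exact Or.inl hx
          · refine Or.inr ⟨h, ?_⟩
            rintro (h'' | h'')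
            · exact hx h''
            · exact h' h''
      · rintro (rfl | ⟨h, h'⟩)
        · exact ⟨Or.inl rfl, hG⟩
        · exact ⟨Or.inr h, fun h'' => h' (Or.inr h'')⟩
    have e3 : (insert e (c.toFinset \ insert e G)).card = (c.toFinset \ insert e G).card + 1 := by
      apply Finset.card_insert_of_notMem
      intro h
      exact (Finset.mem_sdiff.1 h).2 (Finset.mem_insert_self _ _)
    rw [e2, e3] at h5
    refine ⟨hG, by omega, hlen, h2.2.2, hr, ?_, ?_⟩
    · rw [← hc]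
      have e4 : G ∪ insert e c.toFinset = insert e G ∪ c.toFinset := by
        ext x
        simp only [Finset.mem_union, Finset.mem_insert]
        tauto
      rw [e4] at h4
      exact h4
    · rw [← hc]
      omega

lemma CO_ncb {D N q w : ℕ} {G : Finset (ℤ × ℤ × ℤ)} {n j : ℕ} {X S : ℤ} {g : List Bool} {gs : List (List Bool)}
    (h : gs ∈ CO D N q w G n j X S g) : NCB G := by
  classical
  intro x hx y hy
  exact h.2.2.2.1 x (Finset.mem_union_left _ hx) y (Finset.mem_union_left _ hy)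

/-- THE CHAIN SUM: the tilted weight of the continuations is at most FN -/
theorem chain_absO {D N k j1 j3 w : ℕ} {κ : ℝ≥0∞} (hP : PairCap D N k j1 j3 w κ) :
    ∀ (j n : ℕ) (G : Finset (ℤ × ℤ × ℤ)) (X S : ℤ) (g : List Bool), g ∈ HB D →
    ∑' gs : {gs // gs ∈ CO D N (k + 2) w G n j X S g}, wt D gs.1 ≤ FO D N k j1 j3 κ n j g := by
  classical
  intro j
  induction j with
  | zero =>
    intro n G X S g hg
    have e2 : FO D N k j1 j3 κ n 0 g = tA D N LFold (fun _ => 1) g := by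
      cases n <;> rfl
    rw [e2]
    refine (tsum_dec (CO D N (k + 2) w G n 0 X S g) {g' | g' ∈ BrR D N ∧ RT D LFold g g'} (fun _ => {[]}) List.cons
      (wt D) ?_).trans ?_
    · rintro ⟨gs, hgs⟩
      obtain ⟨h1, h2, h3, _⟩ := hgs
      rcases gs with _ | ⟨g', _ | ⟨g'', rest⟩⟩
      · simp at h1
      · rw [List.isChain_cons_cons] at h2
        exact ⟨⟨⟨g', h3 g' (List.mem_cons_self), RT_self hg h2.1⟩, ⟨[], rfl⟩⟩, rfl⟩
      · simp only [List.length_cons] at h1
        omega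
    · unfold tA sB
      refine ENNReal.tsum_le_tsum fun g' => ?_
      have e := tsum_singleton ([] : List (List Bool)) (fun r => wt D (g'.1 :: r))
      rw [e, wt_cons, wt_nil]
      apply le_of_eq
      ring
  | succ j ih =>
    intro n G X S g hg
    by_cases hne : ∃ gs, gs ∈ CO D N (k + 2) w G n (j + 1) X S g
    swap
    · have : IsEmpty {gs : List (List Bool) // gs ∈ CO D N (k + 2) w G n (j + 1) X S g} :=
        ⟨fun r => hne ⟨r.1, r.2⟩⟩
      rw [tsum_empty]
      exact zero_le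
    obtain ⟨gs0, hgs0⟩ := hne
    have hG := CO_ncb hgs0
    obtain ⟨F1, hF1⟩ : ∃ F1, F1 = FO D N k j1 j3 κ n j := ⟨_, rfl⟩
    obtain ⟨F2, hF2⟩ : ∃ F2 : List Bool → ℝ≥0∞, F2 = fun t => if n = 0 then 0 else FO D N k j1 j3 κ (n - 1) j t :=
      ⟨_, rfl⟩
    have hstep := two_step (A := CO D N (k + 2) w G n (j + 1) X S g) (B := {g' | g' ∈ BrR D N ∧ LFold g g'})
      (C := fun g' => {g'' | g'' ∈ BrR D N ∧ LFold g' g''}) (D := D)
      (F := fun g' g'' => (if cap (k + 2) w X S g' g'' ∈ G then F1 g'' else 0) + F2 g'') ?_ ?_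
    · refine hstep.trans ?_
      have h1 : sB {g' | g' ∈ BrR D N ∧ LFold g g'} (fun g' => wE g' * (tl D (hgt g') *
          sB {g'' | g'' ∈ BrR D N ∧ LFold g' g''} (fun g'' => wE g'' * (tl D (hgt g'') *
            ((if cap (k + 2) w X S g' g'' ∈ G then F1 g'' else 0) + F2 g''))))) =
          sB {g' | g' ∈ BrR D N ∧ LFold g g'} (fun g' => wE g' * (tl D (hgt g') *
            sB {g'' | g'' ∈ BrR D N ∧ LFold g' g'' ∧ cap (k + 2) w X S g' g'' ∈ G}
              (fun g'' => wE g'' * (tl D (hgt g'') * F1 g'')))) +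
          sB {g' | g' ∈ BrR D N ∧ LFold g g'} (fun g' => wE g' * (tl D (hgt g') *
            sB {g'' | g'' ∈ BrR D N ∧ LFold g' g''} (fun g'' => wE g'' * (tl D (hgt g'') * F2 g'')))) := by
        rw [← sB_add]
        refine sB_congr fun g' _ => ?_
        rw [← mul_add, ← mul_add]
        congr 2
        have e1 : sB {g'' | g'' ∈ BrR D N ∧ LFold g' g'' ∧ cap (k + 2) w X S g' g'' ∈ G}
            (fun g'' => wE g'' * (tl D (hgt g'') * F1 g'')) =
            sB {g'' | g'' ∈ BrR D N ∧ LFold g' g''}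
              (fun g'' => if cap (k + 2) w X S g' g'' ∈ G then wE g'' * (tl D (hgt g'') * F1 g'') else 0) := by
          rw [sB_ite]
          congr 1
          ext g''
          exact ⟨fun h => ⟨⟨h.1, h.2.1⟩, h.2.2⟩, fun h => ⟨h.1.1, h.1.2, h.2⟩⟩
        rw [e1, ← sB_add]
        refine sB_congr fun g'' _ => ?_
        split_ifs
        · ring
        · ring
      rw [h1]
      have hBsub : {g' | g' ∈ BrR D N ∧ LFold g g'} ⊆ {g' | g' ∈ BrR D N ∧ RT D LFold g g'} :=
        fun g' h => ⟨h.1, RT_self hg h.2⟩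
      have h2 : sB {g' | g' ∈ BrR D N ∧ LFold g g'} (fun g' => wE g' * (tl D (hgt g') *
            sB {g'' | g'' ∈ BrR D N ∧ LFold g' g'' ∧ cap (k + 2) w X S g' g'' ∈ G}
              (fun g'' => wE g'' * (tl D (hgt g'') * F1 g'')))) ≤
          tB D N k j1 j3 LFold (tA D N LFold F1) g + tA D N LFold (tB D N k j1 j3 LFold F1) g +
            κ * tU D N k j1 j3 LFold (tU D N k j1 j3 LFold F1) g := by
        refine le_trans (sB_mono hBsub fun _ _ => le_rfl) (hP G hG F1 ?_ X S g)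
        rw [hF1]
        exact hered_FO D N k j1 j3 κ n j
      have h3 : sB {g' | g' ∈ BrR D N ∧ LFold g g'} (fun g' => wE g' * (tl D (hgt g') *
            sB {g'' | g'' ∈ BrR D N ∧ LFold g' g''} (fun g'' => wE g'' * (tl D (hgt g'') * F2 g'')))) ≤
          if n = 0 then 0 else tA D N LFold (tA D N LFold (FO D N k j1 j3 κ (n - 1) j)) g := by
        rw [hF2]
        split_ifs with hn
        · apply le_of_eq
          simp only [mul_zero, sB_zero]
        · unfold tA
          refine sB_mono hBsub fun g' hg' => ?_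
          refine mul_le_mul_right (mul_le_mul_right ?_ _) _
          refine sB_mono ?_ fun _ _ => le_rfl
          intro g'' h
          exact ⟨h.1, RT_self (BrR_HB hg'.1) h.2⟩
      rw [hF1] at h2
      rw [hF1]
      exact add_le_add h2 h3
    · intro gs hgs
      have hlen := hgs.1
      rcases gs with _ | ⟨g', _ | ⟨g'', rest⟩⟩
      · simp at hlen
      · simp only [List.length_cons, List.length_nil] at hlen
        omega
      · obtain ⟨h1, h2, h3, h4, _⟩ := CO_two hgs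
        exact ⟨g', ⟨h1, h3⟩, g'', ⟨h2, h4⟩, rest, rfl⟩
    · intro g' hg' g'' hg''
      obtain ⟨X', hX'⟩ : ∃ X' : ℤ, X' = X + latE g' + tw g' - latE g'' - tw g'' := ⟨_, rfl⟩
      obtain ⟨S', hS'⟩ : ∃ S' : ℤ, S' = S + ht g' - ht g'' := ⟨_, rfl⟩
      by_cases hc : cap (k + 2) w X S g' g'' ∈ G
      · rw [if_pos hc]
        have hsub : {rest | g' :: g'' :: rest ∈ CO D N (k + 2) w G n (j + 1) X S g} ⊆
            CO D N (k + 2) w G n j X' S' g'' := by
          intro rest hrest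
          obtain ⟨_, _, _, _, h | h⟩ := CO_two hrest
          · rw [hX', hS']
            exact h.2
          · exact absurd hc h.1
        refine (ENNReal.tsum_mono_subtype (fun gs : List (List Bool) => wt D gs) hsub).trans ?_
        refine (ih n G X' S' g'' (BrR_HB hg''.1)).trans ?_
        rw [hF1]
        exact le_self_add
      · rw [if_neg hc, zero_add]
        by_cases hn : n = 0
        · have : IsEmpty {r : List (List Bool) //
              r ∈ {rest | g' :: g'' :: rest ∈ CO D N (k + 2) w G n (j + 1) X S g}} := by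
            refine ⟨fun r => ?_⟩
            obtain ⟨_, _, _, _, h | h⟩ := CO_two r.2
            · exact hc h.1
            · exact h.2.1 hn
          rw [tsum_empty]
          exact zero_le
        · have hsub : {rest | g' :: g'' :: rest ∈ CO D N (k + 2) w G n (j + 1) X S g} ⊆
              CO D N (k + 2) w (insert (cap (k + 2) w X S g' g'') G) (n - 1) j X' S' g'' := by
            intro rest hrest
            obtain ⟨_, _, _, _, h | h⟩ := CO_two hrest
            · exact absurd h.1 hc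
            · rw [hX', hS']
              exact h.2.2
          refine (ENNReal.tsum_mono_subtype (fun gs : List (List Bool) => wt D gs) hsub).trans ?_
          refine (ih (n - 1) _ X' S' g'' (BrR_HB hg''.1)).trans ?_
          rw [hF2]
          simp only
          rw [if_neg hn]

/-- the start: the first pair costs a constant -/
theorem start_genO {D N k j1 j3 w : ℕ} {κ : ℝ≥0∞} (hP : PairCap D N k j1 j3 w κ) {n n' : ℕ} (hn : n - 1 ≤ n') (j : ℕ) :
    ∑' gs : {gs // gs ∈ C1o D N (k + 2) w n (j + 1)}, wt D gs.1 ≤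
      sB (BrR D N) (fun g => wE g * (tl D (hgt g) * tA D N LFold (FO D N k j1 j3 κ n' j) g)) := by
  classical
  have two : ∀ {g' g'' : List Bool} {rest : List (List Bool)}, g' :: g'' :: rest ∈ C1o D N (k + 2) w n (j + 1) →
      g' ∈ BrR D N ∧ g'' ∈ BrR D N ∧ LFold g' g'' ∧
      rest ∈ CO D N (k + 2) w {cap (k + 2) w 0 0 g' g''} n' j (0 + latE g' + tw g' - latE g'' - tw g'')
        (0 + ht g' - ht g'') g'' := by
    intro g' g'' rest h
    obtain ⟨h1, h2, h3, h4, h5⟩ := h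
    rw [List.isChain_cons_cons] at h2
    have hlen : rest.length = 2 * j + 1 := by
      simp only [List.length_cons] at h1
      omega
    obtain ⟨c, hc⟩ : ∃ c, c = caps (k + 2) w (0 + latE g' + tw g' - latE g'' - tw g'') (0 + ht g' - ht g'') rest :=
      ⟨_, rfl⟩
    obtain ⟨e, he⟩ : ∃ e, e = cap (k + 2) w 0 0 g' g'' := ⟨_, rfl⟩
    have hcaps : caps (k + 2) w 0 0 (g' :: g'' :: rest) = e :: c := by
      rw [he, hc]
      rfl
    rw [hcaps, List.toFinset_cons] at h4 h5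
    have hr : ∀ u ∈ rest, u ∈ BrR D N := fun u hu => h3 u (List.mem_cons_of_mem _ (List.mem_cons_of_mem _ hu))
    refine ⟨h3 g' (List.mem_cons_self), h3 g'' (List.mem_cons_of_mem _ (List.mem_cons_self)), h2.1, hlen, h2.2, hr,
      ?_, ?_⟩
    · rw [← hc, ← he]
      have e4 : ({e} : Finset (ℤ × ℤ × ℤ)) ∪ c.toFinset = insert e c.toFinset := by
        ext x
        simp only [Finset.mem_union, Finset.mem_insert, Finset.mem_singleton]
      rw [e4]
      exact h4
    · rw [← hc, ← he]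
      have e2 : insert e c.toFinset = insert e (c.toFinset \ {e}) := by
        ext x
        simp only [Finset.mem_sdiff, Finset.mem_insert, Finset.mem_singleton]
        tauto
      rw [e2, Finset.card_insert_of_notMem (fun h => (Finset.mem_sdiff.1 h).2 (Finset.mem_singleton_self _))] at h5
      omega
  have hstep := two_step (A := C1o D N (k + 2) w n (j + 1)) (B := BrR D N)
    (C := fun g' => {g'' | g'' ∈ BrR D N ∧ LFold g' g''}) (D := D)
    (F := fun _ g'' => FO D N k j1 j3 κ n' j g'') ?_ ?_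
  · refine hstep.trans ?_
    refine sB_mono le_rfl fun g' hg' => ?_
    refine mul_le_mul_right (mul_le_mul_right ?_ _) _
    unfold tA
    refine sB_mono ?_ fun _ _ => le_rfl
    intro g'' h
    exact ⟨h.1, RT_self (BrR_HB hg') h.2⟩
  · intro gs hgs
    have hlen := hgs.1
    rcases gs with _ | ⟨g', _ | ⟨g'', rest⟩⟩
    · simp at hlen
    · simp only [List.length_cons, List.length_nil] at hlen
      omega
    · obtain ⟨h1, h2, h3, _⟩ := two hgs
      exact ⟨g', h1, g'', ⟨h2, h3⟩, rest, rfl⟩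
  · intro g' hg' g'' hg''
    have hsub : {rest | g' :: g'' :: rest ∈ C1o D N (k + 2) w n (j + 1)} ⊆
        CO D N (k + 2) w {cap (k + 2) w 0 0 g' g''} n' j (0 + latE g' + tw g' - latE g'' - tw g'')
        (0 + ht g' - ht g'') g'' := fun rest hrest => (two hrest).2.2.2
    refine (ENNReal.tsum_mono_subtype (fun gs : List (List Bool) => wt D gs) hsub).trans ?_
    exact chain_absO hP j n' _ _ _ g'' (BrR_HB hg''.1)

theorem start_absO {D N k j1 j3 w : ℕ} {κ : ℝ≥0∞} (hP : PairCap D N k j1 j3 w κ) (n j : ℕ) :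
    ∑' gs : {gs // gs ∈ C1o D N (k + 2) w n (j + 1)}, wt D gs.1 ≤
      sB (BrR D N) (fun g => wE g * (tl D (hgt g) * tA D N LFold (FO D N k j1 j3 κ (n - 1) j) g)) :=
  start_genO hP le_rfl j

/-- the norm of FN -/
theorem x_FO {D N k j1 j3 : ℕ} {κ K lam : ℝ≥0∞} (hK : 1 ≤ K) (hlam : lam ≤ 1)
    (hA : ∀ Φ, Hered Φ → xT D k (tA D N LFold Φ) ≤ K * xT D k Φ)
    (hB : ∀ Φ, Hered Φ → xT D k (fun t => tB D N k j1 j3 LFold (tA D N LFold Φ) t +
      tA D N LFold (tB D N k j1 j3 LFold Φ) t + κ * tU D N k j1 j3 LFold (tU D N k j1 j3 LFold Φ) t) ≤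
        lam * xT D k Φ) :
    ∀ j n : ℕ, xT D k (FO D N k j1 j3 κ n j) ≤ xT D k (tA D N LFold (fun _ => 1)) * (2 ^ j * K ^ (2 * n) * lam ^ (j - n)) := by
  intro j
  induction j with
  | zero =>
    intro n
    have e : FO D N k j1 j3 κ n 0 = tA D N LFold (fun _ => 1) := by
      cases n <;> rfl
    rw [e, Nat.zero_sub, pow_zero, pow_zero, one_mul, mul_one]
    calc xT D k (tA D N LFold (fun _ => 1)) = xT D k (tA D N LFold (fun _ => 1)) * 1 := (mul_one _).symm
      _ ≤ xT D k (tA D N LFold (fun _ => 1)) * K ^ (2 * n) := mul_le_mul_right (one_le_pow₀ hK) _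
  | succ j ih =>
    intro n
    obtain ⟨x0, hx0⟩ : ∃ x0, x0 = xT D k (tA D N LFold (fun _ => 1)) := ⟨_, rfl⟩
    have h1 := hB _ (hered_FO D N k j1 j3 κ n j)
    have h2 := ih n
    rw [← hx0] at h2 ⊢
    have hfirst : lam * xT D k (FO D N k j1 j3 κ n j) ≤ x0 * (2 ^ j * K ^ (2 * n) * lam ^ (j + 1 - n)) := by
      calc lam * xT D k (FO D N k j1 j3 κ n j) ≤ lam * (x0 * (2 ^ j * K ^ (2 * n) * lam ^ (j - n))) :=
            mul_le_mul_right h2 _
        _ = x0 * (2 ^ j * K ^ (2 * n) * lam ^ (j - n + 1)) := by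
            rw [pow_succ]
            ring
        _ ≤ x0 * (2 ^ j * K ^ (2 * n) * lam ^ (j + 1 - n)) := by
            refine mul_le_mul_right (mul_le_mul_right ?_ _) _
            exact pow_le_pow_right_of_le_one' hlam (by omega)
    have hsecond : xT D k (fun t => if n = 0 then 0 else tA D N LFold (tA D N LFold (FO D N k j1 j3 κ (n - 1) j)) t) ≤
        x0 * (2 ^ j * K ^ (2 * n) * lam ^ (j + 1 - n)) := by
      by_cases hn : n = 0
      · have e : (fun t => if n = 0 then 0 else tA D N LFold (tA D N LFold (FO D N k j1 j3 κ (n - 1) j)) t) =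
            fun _ => (0 : ℝ≥0∞) := by
          funext t
          rw [if_pos hn]
        rw [e, xT_zero]
        exact zero_le
      · have e : (fun t => if n = 0 then 0 else tA D N LFold (tA D N LFold (FO D N k j1 j3 κ (n - 1) j)) t) =
            tA D N LFold (tA D N LFold (FO D N k j1 j3 κ (n - 1) j)) := by
          funext t
          rw [if_neg hn]
        rw [e]
        have h3 := ih (n - 1)
        rw [← hx0] at h3
        calc xT D k (tA D N LFold (tA D N LFold (FO D N k j1 j3 κ (n - 1) j))) ≤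
              K * xT D k (tA D N LFold (FO D N k j1 j3 κ (n - 1) j)) := hA _ (hered_tA _ _ _ _)
          _ ≤ K * (K * xT D k (FO D N k j1 j3 κ (n - 1) j)) :=
              mul_le_mul_right (hA _ (hered_FO D N k j1 j3 κ (n - 1) j)) _
          _ ≤ K * (K * (x0 * (2 ^ j * K ^ (2 * (n - 1)) * lam ^ (j - (n - 1))))) :=
              mul_le_mul_right (mul_le_mul_right h3 _) _
          _ = x0 * (2 ^ j * K ^ (2 * n) * lam ^ (j + 1 - n)) := by
              obtain ⟨m, rfl⟩ : ∃ m, n = m + 1 := ⟨n - 1, by omega⟩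
              rw [Nat.add_sub_cancel, Nat.add_sub_add_right]
              have e2 : K ^ (2 * (m + 1)) = K ^ (2 * m) * (K * K) := by
                rw [mul_add, pow_add, mul_one, pow_two]
              rw [e2]
              ring
    calc xT D k (FO D N k j1 j3 κ n (j + 1)) ≤
          xT D k (fun t => tB D N k j1 j3 LFold (tA D N LFold (FO D N k j1 j3 κ n j)) t +
            tA D N LFold (tB D N k j1 j3 LFold (FO D N k j1 j3 κ n j)) t +
            κ * tU D N k j1 j3 LFold (tU D N k j1 j3 LFold (FO D N k j1 j3 κ n j)) t) +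
          xT D k (fun t => if n = 0 then 0 else tA D N LFold (tA D N LFold (FO D N k j1 j3 κ (n - 1) j)) t) :=
          xT_add D k _ _
      _ ≤ x0 * (2 ^ j * K ^ (2 * n) * lam ^ (j + 1 - n)) + x0 * (2 ^ j * K ^ (2 * n) * lam ^ (j + 1 - n)) :=
          add_le_add (h1.trans hfirst) hsecond
      _ = x0 * (2 ^ (j + 1) * K ^ (2 * n) * lam ^ (j + 1 - n)) := by
          rw [pow_succ]
          ring

/-- the tilted weight of the chains with at most n block pairs -/
theorem C1o_le {D N k j1 j3 w : ℕ} {κ K K0 lam : ℝ≥0∞} (hP : PairCap D N k j1 j3 w κ) (hK : 1 ≤ K) (hlam : lam ≤ 1)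
    (hA : ∀ Φ, Hered Φ → xT D k (tA D N LFold Φ) ≤ K * xT D k Φ)
    (hB : ∀ Φ, Hered Φ → xT D k (fun t => tB D N k j1 j3 LFold (tA D N LFold Φ) t +
      tA D N LFold (tB D N k j1 j3 LFold Φ) t + κ * tU D N k j1 j3 LFold (tU D N k j1 j3 LFold Φ) t) ≤
        lam * xT D k Φ)
    (hT : ∀ Φ, Hered Φ → sB (BrR D N) (fun g => wE g * (tl D (hgt g) * Φ g)) ≤ K0 * xT D k Φ) (n j : ℕ) :
    ∑' gs : {gs // gs ∈ C1o D N (k + 2) w n (j + 1)}, wt D gs.1 ≤
      K0 * (K * (xT D k (tA D N LFold (fun _ => 1)) * (2 ^ j * K ^ (2 * (n - 1)) * lam ^ (j - (n - 1))))) :=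
  calc ∑' gs : {gs // gs ∈ C1o D N (k + 2) w n (j + 1)}, wt D gs.1 ≤
        sB (BrR D N) (fun g => wE g * (tl D (hgt g) * tA D N LFold (FO D N k j1 j3 κ (n - 1) j) g)) :=
        start_absO hP n j
    _ ≤ K0 * xT D k (tA D N LFold (FO D N k j1 j3 κ (n - 1) j)) := hT _ (hered_tA _ _ _ _)
    _ ≤ K0 * (K * xT D k (FO D N k j1 j3 κ (n - 1) j)) :=
        mul_le_mul_right (hA _ (hered_FO D N k j1 j3 κ (n - 1) j)) _
    _ ≤ _ := mul_le_mul_right (mul_le_mul_right (x_FO hK hlam hA hB j (n - 1)) _) _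

end Ch

open PE Ch in
/-- THE CROWDING ESTIMATE FOR ODD CHAINS: m leaves, at most Λ m doublings, at most m / (2 Q) block pairs -/
theorem crowd_odd {K c Cs : ℝ} (h : Nrm K c) (hCs : 0 < Cs) (hP : ∀ N k j1 j3 w K0 : ℕ, 1 ≤ w → w ≤ 2 ^ k → 1 ≤ K0 →
      j1 + 3 ≤ k → j3 ≤ j1 →
      PairCap (2 ^ (k + 4)) N k j1 j3 w (ENNReal.ofReal (Cs * (K0 * w * 2 ^ k / 4 ^ j3 + 1 / K0)))) (Λ : ℕ) :
    ∃ (k0 w0 Q : ℕ) (C : ℝ), w0 ≤ k0 ∧ 2 ≤ Q ∧ 0 < C ∧ ∀ k N m n : ℕ, k0 ≤ k → 5 ≤ m → ¬ Even m → 2 * Q * n ≤ m →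
      ∑' gs : {gs // gs ∈ C1o (2 ^ (k + 4)) N (k + 2) (2 ^ (k - w0)) n ((m - 1) / 2) ∧
        dbl (2 ^ (k + 4)) gs ≤ Λ * m}, wl gs.1 ≤ ENNReal.ofReal (C * Ub (k + 4) / 4 ^ m) := by
  have hK := h.one_le
  have hK0' : 0 ≤ K := by linarith
  obtain ⟨r, hr⟩ : ∃ r, r = 2 * Λ + 6 := ⟨_, rfl⟩
  obtain ⟨a, a', w0, K0, ha, hK0, hpar⟩ := params1 K c Cs ((1 / 2) ^ (4 * r)) hK h.pos hCs (by positivity)
  obtain ⟨Q0, hQ0⟩ := pow_unbounded_of_one_lt K (by norm_num : (1 : ℝ) < 2)
  obtain ⟨Q, hQ⟩ : ∃ Q, Q = max Q0 2 := ⟨_, rfl⟩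
  have hKQ : K ≤ 2 ^ Q := by
    refine hQ0.le.trans (pow_le_pow_right₀ (by norm_num) ?_)
    rw [hQ]
    exact le_max_left _ _
  have hQ2 : 2 ≤ Q := by
    rw [hQ]
    exact le_max_right _ _
  refine ⟨a + a' + w0, w0, Q, 4 * K ^ 3 * 2 ^ (10 * r), by omega, hQ2, by positivity, fun k N m n hk hm hodd hn => ?_⟩
  obtain ⟨w, hw⟩ : ∃ w, w = 2 ^ (k - w0) := ⟨_, rfl⟩
  have hw1 : 1 ≤ w := by
    rw [hw]
    exact Nat.one_le_two_pow
  have hw2 : w ≤ 2 ^ k := by
    rw [hw]
    exact Nat.pow_le_pow_right (by norm_num) (by omega)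
  rw [← hw]
  have hpar' := hpar k hk
  have hPC := hP N k (k - a) (k - a - a') w K0 hw1 hw2 hK0 (by omega) (by omega)
  obtain ⟨κ, hκ⟩ : ∃ κ : ℝ, κ = Cs * (K0 * w * 2 ^ k / 4 ^ (k - a - a') + 1 / K0) := ⟨_, rfl⟩
  rw [← hκ] at hPC
  rw [← hw, ← hκ] at hpar'
  have hκ0 : 0 ≤ κ := by
    rw [hκ]
    positivity
  obtain ⟨lam, hlam⟩ : ∃ lam : ℝ, lam = (1 / 2) ^ (4 * r) := ⟨_, rfl⟩
  have hlam0 : 0 ≤ lam := by
    rw [hlam]
    positivity
  have hlam1 : lam ≤ 1 := by
    rw [hlam]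
    exact pow_le_one₀ (by norm_num) (by norm_num)
  obtain ⟨j, hj⟩ : ∃ j, j = (m - 4) / 2 := ⟨_, rfl⟩
  have hj' : (m - 1) / 2 = (j + 1) + 1 := by
    have : m % 2 = 1 := Nat.odd_iff.1 (Nat.not_even_iff_odd.1 hodd)
    omega
  have hU := (Ub_pos (k + 4)).le
  have h1 : ∑' gs : {gs // gs ∈ C1o (2 ^ (k + 4)) N (k + 2) w n ((j + 1) + 1)}, wt (2 ^ (k + 4)) gs.1 ≤
      ENNReal.ofReal (K * Ub (k + 4) * (K * (K * 2 * (2 ^ (j + 1) * K ^ (2 * (n - 1)) * lam ^ (j + 1 - (n - 1)))))) := by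
    have hC := C1o_le (K := ENNReal.ofReal K) (K0 := ENNReal.ofReal (K * Ub (k + 4))) (lam := ENNReal.ofReal lam) hPC
      (by rw [← ENNReal.ofReal_one]; exact ENNReal.ofReal_le_ofReal hK)
      (by rw [← ENNReal.ofReal_one]; exact ENNReal.ofReal_le_ofReal hlam1)
      (fun Φ hΦ => h.tA k N Φ hΦ)
      (fun Φ hΦ => two_norm h (by omega : k - a + 3 ≤ k) (by omega : k - a - a' ≤ k - a) hκ0 (by
        rw [hlam]
        exact hpar') Φ hΦ) (fun Φ hΦ => h.tot k N Φ hΦ) n (j + 1)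
    refine hC.trans ?_
    have h2 : xT (2 ^ (k + 4)) k (tA (2 ^ (k + 4)) N LFold (fun _ => 1)) ≤ ENNReal.ofReal (K * 2) := by
      refine (h.tA k N (fun _ => 1) hered_one).trans ?_
      rw [ENNReal.ofReal_mul hK0']
      refine mul_le_mul_right ?_ _
      refine (h.one k).trans (le_of_eq ?_)
      norm_num
    calc ENNReal.ofReal (K * Ub (k + 4)) * (ENNReal.ofReal K * (xT (2 ^ (k + 4)) k
          (tA (2 ^ (k + 4)) N LFold (fun _ => 1)) *
          (2 ^ (j + 1) * ENNReal.ofReal K ^ (2 * (n - 1)) * ENNReal.ofReal lam ^ (j + 1 - (n - 1))))) ≤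
        ENNReal.ofReal (K * Ub (k + 4)) * (ENNReal.ofReal K * (ENNReal.ofReal (K * 2) *
          (2 ^ (j + 1) * ENNReal.ofReal K ^ (2 * (n - 1)) * ENNReal.ofReal lam ^ (j + 1 - (n - 1))))) := by gcongr
      _ = _ := by
        have e2 : (2 : ℝ≥0∞) = ENNReal.ofReal 2 := by norm_num
        rw [e2, ← ENNReal.ofReal_pow (by norm_num), ← ENNReal.ofReal_pow hK0', ← ENNReal.ofReal_pow hlam0,
          ← ENNReal.ofReal_mul (by positivity), ← ENNReal.ofReal_mul (by positivity),
          ← ENNReal.ofReal_mul (by positivity), ← ENNReal.ofReal_mul hK0', ← ENNReal.ofReal_mul (by positivity)]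
  rw [hj']
  refine (untilt (2 ^ (k + 4)) (Λ * m) (C1o (2 ^ (k + 4)) N (k + 2) w n ((j + 1) + 1))).trans ?_
  have e4 : (4 : ℝ≥0∞) ^ (Λ * m) = ENNReal.ofReal (4 ^ (Λ * m)) := by
    rw [ENNReal.ofReal_pow (by norm_num)]
    norm_num
  rw [e4]
  refine (mul_le_mul_right h1 _).trans ?_
  rw [← ENNReal.ofReal_mul (by positivity)]
  apply ENNReal.ofReal_le_ofReal
  have h2 := pow_num Λ (j := j) hK hKQ hn hQ2 hj (by omega)
  rw [← hr, ← hlam] at h2
  have h3 : lam ^ (j + 1 - (n - 1)) ≤ lam ^ (j - (n - 1)) := pow_le_pow_of_le_one hlam0 hlam1 (by omega)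
  calc (4 : ℝ) ^ (Λ * m) * (K * Ub (k + 4) * (K * (K * 2 * (2 ^ (j + 1) * K ^ (2 * (n - 1)) *
        lam ^ (j + 1 - (n - 1)))))) ≤
      (4 : ℝ) ^ (Λ * m) * (K * Ub (k + 4) * (K * (K * 2 * (2 ^ (j + 1) * K ^ (2 * (n - 1)) *
        lam ^ (j - (n - 1)))))) := by gcongr
    _ = 4 * K ^ 3 * Ub (k + 4) * ((4 : ℝ) ^ (Λ * m) * (2 ^ j * K ^ (2 * (n - 1)) * lam ^ (j - (n - 1)))) := by ring
    _ ≤ 4 * K ^ 3 * Ub (k + 4) * (2 ^ (10 * r) / 4 ^ m) := by gcongr
    _ = 4 * K ^ 3 * 2 ^ (10 * r) * Ub (k + 4) / 4 ^ m := by ring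

end SDN

end HexObs
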