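import Pool.Agent.SDN.PairLoc
import Pool.Agent.SDN.ChainA

/-!
SDN, module C3: the pair step with localised block pairs.
-/

set_option autoImplicit false

namespace HexObs

namespace SDN

open Finset TS

open scoped ENNReal

open Rec8 (sw)

namespace PC

/-! ### five-fold sums -/

/-- sums over the decompositions M ++ (P1 ++ (V ++ (P2 ++ Q))), h = height of V -/
noncomputable def T5 (f : List Bool → List Bool → ℕ → List Bool → List Bool → ℝ≥0∞) : ℝ≥0∞ :=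
  sB BU fun M => sB IU fun P1 => ∑' h : ℕ, sB IU fun P2 => sB BU fun Q => f M P1 h P2 Q

lemma T5_mono {f g : List Bool → List Bool → ℕ → List Bool → List Bool → ℝ≥0∞}
    (H : ∀ M ∈ BU, ∀ P1 ∈ IU, ∀ h : ℕ, ∀ P2 ∈ IU, ∀ Q ∈ BU, f M P1 h P2 Q ≤ g M P1 h P2 Q) : T5 f ≤ T5 g :=
  sB_mono le_rfl fun M hM => sB_mono le_rfl fun P1 hP1 => ENNReal.tsum_le_tsum fun h =>
    sB_mono le_rfl fun P2 hP2 => sB_mono le_rfl fun Q hQ => H M hM P1 hP1 h P2 hP2 Q hQ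

lemma T5_mul (c : ℝ≥0∞) (f : List Bool → List Bool → ℕ → List Bool → List Bool → ℝ≥0∞) :
    T5 (fun M P1 h P2 Q => c * f M P1 h P2 Q) = c * T5 f := by
  unfold T5
  rw [← sB_mul]
  refine sB_congr fun M _ => ?_
  rw [← sB_mul]
  refine sB_congr fun P1 _ => ?_
  rw [← ENNReal.tsum_mul_left]
  refine tsum_congr fun h => ?_
  rw [← sB_mul]
  refine sB_congr fun P2 _ => ?_
  rw [← sB_mul]

lemma T5_swap (A : Set (List Bool))
    (f : List Bool → List Bool → List Bool → ℕ → List Bool → List Bool → ℝ≥0∞) :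
    sB A (fun x => T5 (f x)) = T5 (fun M P1 h P2 Q => sB A (fun x => f x M P1 h P2 Q)) := by
  unfold T5
  rw [sB_swap]
  refine sB_congr fun M _ => ?_
  rw [sB_swap]
  refine sB_congr fun P1 _ => ?_
  rw [sB_tsum_swap]
  refine tsum_congr fun h => ?_
  rw [sB_swap]
  refine sB_congr fun P2 _ => ?_
  rw [sB_swap]

open Classical in
/-- the sum with the good part of the partition -/
lemma gam_exp (k j1 j3 : ℕ) (S : Set (List Bool)) (φ : List Bool → ℝ≥0∞) :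
    sB S (fun g => wE g * (gam k j1 j3 g * φ g)) ≤ T5 fun M P1 h P2 Q =>
      mu j1 (hgt M) (hgt P1) * mu k (hgt M + hgt P1 + h) (hgt P2) * (wE M * (wE P1 * (wE P2 * (wE Q *
        sB (Brd h) (fun V => if 2 ^ j3 ≤ h ∧ M ++ (P1 ++ (V ++ (P2 ++ Q))) ∈ S then
          wE V * φ (M ++ (P1 ++ (V ++ (P2 ++ Q)))) else 0))))) := by
  have e1 : ∀ g', wE g' * (gam k j1 j3 g' * φ g') =
      sB BU fun M => sB IU fun P1 => sB BU fun V => sB IU fun P2 => sB BU fun Q =>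
        if M ++ (P1 ++ (V ++ (P2 ++ Q))) = g' then (if 2 ^ j3 ≤ hgt V then
          wE (M ++ (P1 ++ (V ++ (P2 ++ Q)))) * (mu j1 (hgt M) (hgt P1) *
            mu k (hgt M + hgt P1 + hgt V) (hgt P2) * φ (M ++ (P1 ++ (V ++ (P2 ++ Q))))) else 0) else 0 := by
    intro g'
    have : wE g' * (gam k j1 j3 g' * φ g') = (wE g' * φ g') * gam k j1 j3 g' := by ring
    rw [this]
    unfold gam
    rw [← sB_mul]
    refine sB_congr fun M _ => ?_
    rw [← sB_mul]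
    refine sB_congr fun P1 _ => ?_
    rw [← sB_mul]
    refine sB_congr fun V _ => ?_
    rw [← sB_mul]
    refine sB_congr fun P2 _ => ?_
    rw [← sB_mul]
    refine sB_congr fun Q _ => ?_
    by_cases h1 : M ++ (P1 ++ (V ++ (P2 ++ Q))) = g'
    · by_cases h2 : 2 ^ j3 ≤ hgt V
      · rw [if_pos ⟨h1, h2⟩, if_pos h1, if_pos h2, h1]
        ring
      · rw [if_neg (fun h => h2 h.2), if_pos h1, if_neg h2, mul_zero]
    · rw [if_neg (fun h => h1 h.1), if_neg h1, mul_zero]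
  have e2 : sB S (fun g' => wE g' * (gam k j1 j3 g' * φ g')) =
      sB BU fun M => sB IU fun P1 => sB BU fun V => sB IU fun P2 => sB BU fun Q =>
        if M ++ (P1 ++ (V ++ (P2 ++ Q))) ∈ S then (if 2 ^ j3 ≤ hgt V then
          wE (M ++ (P1 ++ (V ++ (P2 ++ Q)))) * (mu j1 (hgt M) (hgt P1) *
            mu k (hgt M + hgt P1 + hgt V) (hgt P2) * φ (M ++ (P1 ++ (V ++ (P2 ++ Q))))) else 0) else 0 := by
    rw [sB_congr fun g' _ => e1 g', sB_swap]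
    refine sB_congr fun M _ => ?_
    rw [sB_swap]
    refine sB_congr fun P1 _ => ?_
    rw [sB_swap]
    refine sB_congr fun V _ => ?_
    rw [sB_swap]
    refine sB_congr fun P2 _ => ?_
    rw [sB_swap]
    refine sB_congr fun Q _ => ?_
    have h := sB_single S (M ++ (P1 ++ (V ++ (P2 ++ Q)))) (fun _ => if 2 ^ j3 ≤ hgt V then
          wE (M ++ (P1 ++ (V ++ (P2 ++ Q)))) * (mu j1 (hgt M) (hgt P1) *
            mu k (hgt M + hgt P1 + hgt V) (hgt P2) * φ (M ++ (P1 ++ (V ++ (P2 ++ Q))))) else 0)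
    convert h using 2
  rw [e2]
  unfold T5
  refine sB_mono le_rfl fun M hM => ?_
  refine sB_mono le_rfl fun P1 hP1 => ?_
  refine (sB_BU_le _).trans (ENNReal.tsum_le_tsum fun h => ?_)
  rw [sB_swap]
  refine sB_mono le_rfl fun P2 hP2 => ?_
  rw [sB_swap]
  refine sB_mono le_rfl fun Q hQ => ?_
  beta_reduce
  obtain ⟨c, hc⟩ : ∃ c : ℝ≥0∞, c = mu j1 (hgt M) (hgt P1) * mu k (hgt M + hgt P1 + h) (hgt P2) := ⟨_, rfl⟩
  rw [← hc]
  have h0 : c * (wE M * (wE P1 * (wE P2 * (wE Q *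
        sB (Brd h) (fun V => if 2 ^ j3 ≤ h ∧ M ++ (P1 ++ (V ++ (P2 ++ Q))) ∈ S then
          wE V * φ (M ++ (P1 ++ (V ++ (P2 ++ Q)))) else 0))))) =
      sB (Brd h) (fun V => (c * (wE M * (wE P1 * (wE P2 * wE Q)))) *
        (if 2 ^ j3 ≤ h ∧ M ++ (P1 ++ (V ++ (P2 ++ Q))) ∈ S then wE V * φ (M ++ (P1 ++ (V ++ (P2 ++ Q)))) else 0)) := by
    rw [sB_mul]
    ring
  rw [h0]
  refine sB_mono le_rfl fun V hV => ?_
  have hhV := hgt_eq hV
  by_cases hSV : M ++ (P1 ++ (V ++ (P2 ++ Q))) ∈ S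
  swap
  · rw [if_neg hSV]
    exact zero_le
  rw [if_pos hSV, hhV]
  by_cases h2 : 2 ^ j3 ≤ h
  · rw [if_pos h2, if_pos ⟨h2, hSV⟩, wE_append, wE_append, wE_append, wE_append, ← hc]
    apply le_of_eq
    ring
  · rw [if_neg h2]
    exact zero_le

/-! ### positions of the caps -/

lemma lst_cat (s u : List Bool) (hu : u ≠ []) : lst (s ++ u) = lst u := by
  unfold lst
  rw [List.getLastD_eq_getLast?, List.getLastD_eq_getLast?, List.getLast?_append_of_ne_nil _ hu]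

lemma ln_le (q : ℕ) (T : ℤ) : ln q T + 2 ^ q ≤ T ∧ T < ln q T + 2 ^ (q + 1) := by
  have h0 : (0 : ℤ) < 2 ^ q := by positivity
  have h1 := Int.emod_add_mul_ediv T (2 ^ q)
  have h2 := Int.emod_nonneg T h0.ne'
  have h3 := Int.emod_lt_of_pos T h0
  unfold ln
  rw [pow_succ]
  constructor <;> nlinarith

lemma ht_HB {D n : ℕ} {g : List Bool} (h : g ∈ HB D) (hn : g ∈ Brd n) : D ≤ n := by
  obtain ⟨m, hm, hg⟩ := h
  have h1 := hgt_eq hg
  have h2 := hgt_eq hn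
  omega

/-- the block pair of the cap as a function of the bridges V, V' -/
lemma cap_pos {k w : ℕ} {X S : ℤ} {M P1 P2 Q M' P1' P2' Q' : List Bool} {h h' : ℕ} (hM : M ∈ BU) (hP1 : P1 ∈ IU)
    (hP2 : P2 ∈ IU) (hQ : Q ∈ BU) (hM' : M' ∈ BU) (hP1' : P1' ∈ IU) (hP2' : P2' ∈ IU) (hQ' : Q' ∈ BU)
    (hlt : hgt M + hgt P1 + h < 2 ^ (k + 1)) (hlt' : hgt M' + hgt P1' + h' < 2 ^ (k + 1)) (hr : 0 < hgt P2) :
    ∃ c x y : ℤ, ∀ V ∈ Brd h, ∀ V' ∈ Brd h', M ++ (P1 ++ (V ++ (P2 ++ Q))) ∈ HB (2 ^ (k + 4)) →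
      M' ++ (P1' ++ (V' ++ (P2' ++ Q'))) ∈ HB (2 ^ (k + 4)) →
      cap (k + 2) w X S (M ++ (P1 ++ (V ++ (P2 ++ Q)))) (M' ++ (P1' ++ (V' ++ (P2' ++ Q')))) =
        (c, (x + 1 * latE V) / w, (y + 1 * latE V + (-1) * latE V') / w) := by
  have bM := BU_hgt hM
  have bP1 := BU_hgt (IU_BU hP1)
  have bP2 := BU_hgt (IU_BU hP2)
  have bQ := BU_hgt hQ
  have bM' := BU_hgt hM'
  have bP1' := BU_hgt (IU_BU hP1')
  have bP2' := BU_hgt (IU_BU hP2')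
  have bQ' := BU_hgt hQ'
  obtain ⟨n, hn⟩ : ∃ n : ℕ, n = hgt M + hgt P1 + h := ⟨_, rfl⟩
  obtain ⟨n', hn'⟩ : ∃ n' : ℕ, n' = hgt M' + hgt P1' + h' := ⟨_, rfl⟩
  have bu : P2 ++ Q ∈ Brd (hgt P2 + hgt Q) := Brd_append bP2 bQ
  have bu' : P2' ++ Q' ∈ Brd (hgt P2' + hgt Q') := Brd_append bP2' bQ'
  have hu0 : P2 ++ Q ≠ [] := by
    intro h0
    have h1 : P2 = [] := (List.append_eq_nil_iff.1 h0).1
    rw [h1] at hr
    have h2 := hgt_eq nil_mem_Brd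
    omega
  obtain ⟨T, hT⟩ : ∃ T : ℤ, T = S + (n + (hgt P2 + hgt Q : ℕ) : ℤ) := ⟨_, rfl⟩
  obtain ⟨c, hc⟩ : ∃ c : ℤ, c = ln (k + 2) T := ⟨_, rfl⟩
  have hln := ln_le (k + 2) T
  rw [← hc] at hln
  have hltz : (n : ℤ) < 2 ^ (k + 1) := by
    rw [hn]
    exact_mod_cast hlt
  have hltz' : (n' : ℤ) < 2 ^ (k + 1) := by
    rw [hn']
    exact_mod_cast hlt'
  have p1 : (2 : ℤ) ^ (k + 2) = 2 * 2 ^ (k + 1) := by ring
  have p2 : (2 : ℤ) ^ (k + 2 + 1) = 4 * 2 ^ (k + 1) := by ring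
  have p3 : (2 : ℤ) ^ (k + 4) = 8 * 2 ^ (k + 1) := by ring
  rw [p1, p2] at hln
  refine ⟨c, X + latE M + latE P1 + lat (P2 ++ Q) (lastLe (P2 ++ Q) (3 * (c - S) - 3 * n)),
    X + latE M + latE P1 + latE (P2 ++ Q) + tw (P2 ++ Q) - latE M' - latE P1' -
      lat (P2' ++ Q') (firstGe (P2' ++ Q') (3 * (T - c) - 1 - 3 * n')), fun V hV V' hV' hg hg' => ?_⟩
  have hs : M ++ (P1 ++ V) ∈ Brd n := by
    rw [hn, add_assoc]
    exact Brd_append bM (Brd_append bP1 hV)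
  have hs' : M' ++ (P1' ++ V') ∈ Brd n' := by
    rw [hn', add_assoc]
    exact Brd_append bM' (Brd_append bP1' hV')
  have he : M ++ (P1 ++ (V ++ (P2 ++ Q))) = (M ++ (P1 ++ V)) ++ (P2 ++ Q) := by
    simp only [List.append_assoc]
  have he' : M' ++ (P1' ++ (V' ++ (P2' ++ Q'))) = (M' ++ (P1' ++ V')) ++ (P2' ++ Q') := by
    simp only [List.append_assoc]
  rw [he] at hg ⊢
  rw [he'] at hg' ⊢
  have hDn := ht_HB hg (Brd_append hs bu)
  have hDn' := ht_HB hg' (Brd_append hs' bu')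
  have hDz : (2 : ℤ) ^ (k + 4) ≤ n + (hgt P2 + hgt Q : ℕ) := by exact_mod_cast hDn
  have hDz' : (2 : ℤ) ^ (k + 4) ≤ n' + (hgt P2' + hgt Q' : ℕ) := by exact_mod_cast hDn'
  rw [p3] at hDz hDz'
  have hht : S + ht (M ++ (P1 ++ V) ++ (P2 ++ Q)) = T := by
    rw [hT, ht_eq (Brd_append hs bu)]
    push_cast
    ring
  have htw : tw (M ++ (P1 ++ V) ++ (P2 ++ Q)) = tw (P2 ++ Q) := by
    unfold tw
    rw [lst_cat _ _ hu0]
  have h1 : lastLe (M ++ (P1 ++ V) ++ (P2 ++ Q)) (3 * (c - S)) =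
      (M ++ (P1 ++ V)).length + lastLe (P2 ++ Q) (3 * (c - S) - 3 * n) := by
    apply lastLe_cat hs
    omega
  have h2 : firstGe (M' ++ (P1' ++ V') ++ (P2' ++ Q')) (3 * (T - c) - 1) =
      (M' ++ (P1' ++ V')).length + firstGe (P2' ++ Q') (3 * (T - c) - 1 - 3 * n') := by
    apply firstGe_cat hs' (by omega)
    refine ⟨(P2' ++ Q').length, ?_⟩
    rw [lev_end bu']
    omega
  unfold cap arc
  rw [hht, ← hc, h1, h2, htw, lat_cat (dx_end hs), lat_cat (dx_end hs'), latE_cat (dx_end hs), latE_cat (dx_end bM),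
    latE_cat (dx_end bP1), latE_cat (dx_end bM'), latE_cat (dx_end bP1')]
  refine Prod.ext rfl (Prod.ext ?_ ?_)
  · show _ / _ = _ / _
    congr 1
    ring
  · show _ / _ = _ / _
    congr 1
    ring

lemma mu_zero (j n : ℕ) : mu j n 0 = 0 := by
  by_contra h
  unfold mu at h
  apply h
  have : (Finset.Ico (2 ^ j) (2 ^ (j + 1))).filter (fun l => n ≤ l ∧ l < n + 0) = ∅ := by
    rw [Finset.filter_eq_empty_iff]
    intro l _
    omega
  rw [this]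
  simp

/-! ### the double sum -/

lemma cat_eq (M P1 V P2 Q : List Bool) : M ++ (P1 ++ (V ++ (P2 ++ Q))) = (M ++ (P1 ++ V)) ++ (P2 ++ Q) := by
  simp only [List.append_assoc]

lemma pre_BU {M P1 V : List Bool} {h : ℕ} (hM : M ∈ BU) (hP1 : P1 ∈ IU) (hV : V ∈ Brd h) : M ++ (P1 ++ V) ∈ BU :=
  ⟨_, Brd_append (BU_hgt hM) (Brd_append (BU_hgt (IU_BU hP1)) hV)⟩

lemma hgt_cat {M P1 V P2 Q : List Bool} {h : ℕ} (hM : M ∈ BU) (hP1 : P1 ∈ IU) (hV : V ∈ Brd h) (hP2 : P2 ∈ IU)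
    (hQ : Q ∈ BU) : hgt (M ++ (P1 ++ (V ++ (P2 ++ Q)))) = hgt M + hgt P1 + h + hgt P2 + hgt Q := by
  rw [hgt_eq (Brd_append (BU_hgt hM) (Brd_append (BU_hgt (IU_BU hP1)) (Brd_append hV
    (Brd_append (BU_hgt (IU_BU hP2)) (BU_hgt hQ)))))]
  ring

open Classical in
/-- the second leaf -/
lemma second_le {N k j1 j3 w h : ℕ} {κ : ℝ≥0∞} {G : Finset (ℤ × ℤ × ℤ)} {X S : ℤ} {Φ : List Bool → ℝ≥0∞}
    (hΦ : Hered Φ) {M P1 P2 Q : List Bool} (hM : M ∈ BU) (hP1 : P1 ∈ IU) (hP2 : P2 ∈ IU) (hQ : Q ∈ BU)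
    (hlt : hgt M + hgt P1 + h < 2 ^ (k + 1)) (hr : 0 < hgt P2)
    (PL : ∀ (c x y : ℤ) (h' : ℕ), 2 ^ j3 ≤ h' → h' < 2 ^ (k + 1) →
      sw (Brd h) (fun V => sw (Brd h') (fun V' =>
        if (c, (x + 1 * latE V) / (w : ℤ), (y + 1 * latE V + (-1) * latE V') / (w : ℤ)) ∈ G then 1 else 0)) ≤
        κ * (gf (Brd h) * gf (Brd h')))
    (B : Set (List Bool)) (hB : ∀ g ∈ B, g ∈ HB (2 ^ (k + 4)))
    {M' P1' P2' Q' : List Bool} {h' : ℕ} (hM' : M' ∈ BU) (hP1' : P1' ∈ IU) (hP2' : P2' ∈ IU) (hQ' : Q' ∈ BU) :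
    sB (Brd h) (fun V => (if M ++ (P1 ++ (V ++ (P2 ++ Q))) ∈ B then wE V else 0) *
      (mu j1 (hgt M') (hgt P1') * mu k (hgt M' + hgt P1' + h') (hgt P2') * (wE M' * (wE P1' * (wE P2' * (wE Q' *
        sB (Brd h') (fun V' => if 2 ^ j3 ≤ h' ∧ M' ++ (P1' ++ (V' ++ (P2' ++ Q'))) ∈
            {g'' | g'' ∈ BrR (2 ^ (k + 4)) N ∧ LFold (M ++ (P1 ++ (V ++ (P2 ++ Q)))) g''} then
          wE V' * (if cap (k + 2) w X S (M ++ (P1 ++ (V ++ (P2 ++ Q)))) (M' ++ (P1' ++ (V' ++ (P2' ++ Q')))) ∈ G then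
            tl (2 ^ (k + 4)) (hgt (M' ++ (P1' ++ (V' ++ (P2' ++ Q'))))) * Φ (M' ++ (P1' ++ (V' ++ (P2' ++ Q'))))
              else 0) else 0))))))) ≤
      (κ * gf (Brd h)) * (if 2 ^ j3 ≤ h' ∧ ∃ V' ∈ Brd h', M' ++ (P1' ++ (V' ++ (P2' ++ Q'))) ∈ BrR (2 ^ (k + 4)) N ∧
        RT (2 ^ (k + 4)) LFold (P2 ++ Q) (M' ++ (P1' ++ (V' ++ (P2' ++ Q')))) then
      mu j1 (hgt M') (hgt P1') * mu k (hgt M' + hgt P1' + h') (hgt P2') *
        (wE M' * (wE P1' * (gf (Brd h') * (wE P2' * (wE Q' *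
          (tl (2 ^ (k + 4)) (hgt M' + hgt P1' + h' + hgt P2' + hgt Q') * Φ (P2' ++ Q'))))))) else 0) := by
  obtain ⟨D, hD⟩ : ∃ D, D = 2 ^ (k + 4) := ⟨_, rfl⟩
  rw [← hD] at hB ⊢
  obtain ⟨c, hc⟩ : ∃ c : ℝ≥0∞, c = mu j1 (hgt M') (hgt P1') * mu k (hgt M' + hgt P1' + h') (hgt P2') := ⟨_, rfl⟩
  rw [← hc]
  by_cases hc0 : c = 0
  · rw [hc0]
    simp only [zero_mul, mul_zero, sB_zero, le_refl, ite_self]
  have hlt' : hgt M' + hgt P1' + h' < 2 ^ (k + 1) := by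
    apply (mu_ne (n := hgt M' + hgt P1' + h') (r := hgt P2') _).1
    intro h0
    rw [h0, mul_zero] at hc
    exact hc0 hc
  by_cases hcond : 2 ^ j3 ≤ h' ∧ ∃ V' ∈ Brd h', M' ++ (P1' ++ (V' ++ (P2' ++ Q'))) ∈ BrR D N ∧
        RT D LFold (P2 ++ Q) (M' ++ (P1' ++ (V' ++ (P2' ++ Q'))))
  swap
  · rw [if_neg hcond, mul_zero]
    apply le_of_eq
    refine Eq.trans (sB_congr (G := fun _ => 0) fun V hV => ?_) (sB_zero (Brd h))
    by_cases hV1 : M ++ (P1 ++ (V ++ (P2 ++ Q))) ∈ B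
    swap
    · rw [if_neg hV1, zero_mul]
    have h0 : sB (Brd h') (fun V' => if 2 ^ j3 ≤ h' ∧ M' ++ (P1' ++ (V' ++ (P2' ++ Q'))) ∈
            {g'' | g'' ∈ BrR D N ∧ LFold (M ++ (P1 ++ (V ++ (P2 ++ Q)))) g''} then
          wE V' * (if cap (k + 2) w X S (M ++ (P1 ++ (V ++ (P2 ++ Q)))) (M' ++ (P1' ++ (V' ++ (P2' ++ Q')))) ∈ G then
            tl D (hgt (M' ++ (P1' ++ (V' ++ (P2' ++ Q'))))) * Φ (M' ++ (P1' ++ (V' ++ (P2' ++ Q'))))
              else 0) else 0) = 0 := by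
      refine Eq.trans (sB_congr (G := fun _ => 0) fun V' hV' => ?_) (sB_zero (Brd h'))
      rw [if_neg]
      rintro ⟨a1, a2, a3⟩
      refine hcond ⟨a1, V', hV', a2, ?_⟩
      rw [cat_eq M P1 V P2 Q] at a3
      refine ⟨M ++ (P1 ++ V), pre_BU hM hP1 hV, ?_, a3⟩
      rw [← cat_eq]
      exact hB _ hV1
    rw [h0]
    simp only [mul_zero]
  rw [if_pos hcond]
  obtain ⟨hj3, _⟩ := hcond
  have hh' : h' < 2 ^ (k + 1) := by omega
  obtain ⟨c0, x, y, hpos⟩ := cap_pos (w := w) (X := X) (S := S) hM hP1 hP2 hQ hM' hP1' hP2' hQ' hlt hlt' hr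
  rw [← hD] at hpos
  obtain ⟨T, hT⟩ : ∃ T, T = hgt M' + hgt P1' + h' + hgt P2' + hgt Q' := ⟨_, rfl⟩
  obtain ⟨d, hd⟩ : ∃ d : ℝ≥0∞, d = c * (wE M' * (wE P1' * (wE P2' * (wE Q' * (tl D T * Φ (P2' ++ Q')))))) := ⟨_, rfl⟩
  calc sB (Brd h) (fun V => (if M ++ (P1 ++ (V ++ (P2 ++ Q))) ∈ B then wE V else 0) *
      (c * (wE M' * (wE P1' * (wE P2' * (wE Q' *
        sB (Brd h') (fun V' => if 2 ^ j3 ≤ h' ∧ M' ++ (P1' ++ (V' ++ (P2' ++ Q'))) ∈
            {g'' | g'' ∈ BrR D N ∧ LFold (M ++ (P1 ++ (V ++ (P2 ++ Q)))) g''} then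
          wE V' * (if cap (k + 2) w X S (M ++ (P1 ++ (V ++ (P2 ++ Q)))) (M' ++ (P1' ++ (V' ++ (P2' ++ Q')))) ∈ G then
            tl D (hgt (M' ++ (P1' ++ (V' ++ (P2' ++ Q'))))) * Φ (M' ++ (P1' ++ (V' ++ (P2' ++ Q'))))
              else 0) else 0))))))) ≤
      sB (Brd h) (fun V => d * (wE V * sw (Brd h') (fun V' =>
        if (c0, (x + 1 * latE V) / (w : ℤ), (y + 1 * latE V + (-1) * latE V') / (w : ℤ)) ∈ G then 1 else 0))) := by
        refine sB_mono le_rfl fun V hV => ?_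
        by_cases hV1 : M ++ (P1 ++ (V ++ (P2 ++ Q))) ∈ B
        swap
        · rw [if_neg hV1, zero_mul]
          exact zero_le
        rw [if_pos hV1]
        have h1 : sB (Brd h') (fun V' => if 2 ^ j3 ≤ h' ∧ M' ++ (P1' ++ (V' ++ (P2' ++ Q'))) ∈
              {g'' | g'' ∈ BrR D N ∧ LFold (M ++ (P1 ++ (V ++ (P2 ++ Q)))) g''} then
            wE V' * (if cap (k + 2) w X S (M ++ (P1 ++ (V ++ (P2 ++ Q)))) (M' ++ (P1' ++ (V' ++ (P2' ++ Q')))) ∈ G then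
              tl D (hgt (M' ++ (P1' ++ (V' ++ (P2' ++ Q'))))) * Φ (M' ++ (P1' ++ (V' ++ (P2' ++ Q'))))
                else 0) else 0) ≤
            (tl D T * Φ (P2' ++ Q')) * sw (Brd h') (fun V' =>
              if (c0, (x + 1 * latE V) / (w : ℤ), (y + 1 * latE V + (-1) * latE V') / (w : ℤ)) ∈ G then 1 else 0) := by
          have e1 : ∀ f : List Bool → ℝ≥0∞, (tl D T * Φ (P2' ++ Q')) * sw (Brd h') f =
              sB (Brd h') (fun V' => (tl D T * Φ (P2' ++ Q')) * (wE V' * f V')) := by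
            intro f
            rw [sB_mul]
            rfl
          rw [e1]
          refine sB_mono le_rfl fun V' hV' => ?_
          by_cases h2 : 2 ^ j3 ≤ h' ∧ M' ++ (P1' ++ (V' ++ (P2' ++ Q'))) ∈
              {g'' | g'' ∈ BrR D N ∧ LFold (M ++ (P1 ++ (V ++ (P2 ++ Q)))) g''}
          swap
          · rw [if_neg h2]
            exact zero_le
          rw [if_pos h2, hpos V hV V' hV' (hB _ hV1) (BrR_HB h2.2.1), hgt_cat hM' hP1' hV' hP2' hQ', ← hT]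
          split_ifs with h3
          · have h4 : Φ (M' ++ (P1' ++ (V' ++ (P2' ++ Q')))) ≤ Φ (P2' ++ Q') := by
              rw [cat_eq]
              exact hΦ _ (pre_BU hM' hP1' hV') _
            calc wE V' * (tl D T * Φ (M' ++ (P1' ++ (V' ++ (P2' ++ Q'))))) ≤
                wE V' * (tl D T * Φ (P2' ++ Q')) := by gcongr
              _ = _ := by ring
          · simp only [mul_zero, le_refl]
        calc wE V * (c * (wE M' * (wE P1' * (wE P2' * (wE Q' * _))))) ≤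
            wE V * (c * (wE M' * (wE P1' * (wE P2' * (wE Q' * ((tl D T * Φ (P2' ++ Q')) * sw (Brd h') (fun V' =>
              if (c0, (x + 1 * latE V) / (w : ℤ), (y + 1 * latE V + (-1) * latE V') / (w : ℤ)) ∈ G then 1 else 0))))))) := by
              gcongr
          _ = _ := by
              rw [hd]
              ring
    _ = d * sw (Brd h) (fun V => sw (Brd h') (fun V' =>
        if (c0, (x + 1 * latE V) / (w : ℤ), (y + 1 * latE V + (-1) * latE V') / (w : ℤ)) ∈ G then 1 else 0)) := by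
        rw [sB_mul]
        rfl
    _ ≤ d * (κ * (gf (Brd h) * gf (Brd h'))) := by
        gcongr
        exact PL c0 x y h' hj3 hh'
    _ = _ := by
        rw [hd, hT]
        ring

open Classical in
/-- the good parts of both leaves -/
lemma main_le {N k j1 j3 w : ℕ} {κ : ℝ≥0∞} {G : Finset (ℤ × ℤ × ℤ)}
    (PL : ∀ (c x y : ℤ) (h h' : ℕ), 2 ^ j3 ≤ h → h < 2 ^ (k + 1) → 2 ^ j3 ≤ h' → h' < 2 ^ (k + 1) →
      sw (Brd h) (fun V => sw (Brd h') (fun V' =>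
        if (c, (x + 1 * latE V) / (w : ℤ), (y + 1 * latE V + (-1) * latE V') / (w : ℤ)) ∈ G then 1 else 0)) ≤
        κ * (gf (Brd h) * gf (Brd h')))
    {Φ : List Bool → ℝ≥0∞} (hΦ : Hered Φ) (X S : ℤ) (t : List Bool) :
    sB {g' | g' ∈ BrR (2 ^ (k + 4)) N ∧ RT (2 ^ (k + 4)) LFold t g'} (fun g' => wE g' * (gam k j1 j3 g' *
      (tl (2 ^ (k + 4)) (hgt g') * sB {g'' | g'' ∈ BrR (2 ^ (k + 4)) N ∧ LFold g' g''} (fun g'' =>
        wE g'' * (gam k j1 j3 g'' * (if cap (k + 2) w X S g' g'' ∈ G then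
          tl (2 ^ (k + 4)) (hgt g'') * Φ g'' else 0)))))) ≤
      κ * tU (2 ^ (k + 4)) N k j1 j3 LFold (tU (2 ^ (k + 4)) N k j1 j3 LFold Φ) t := by
  obtain ⟨D, hD⟩ : ∃ D, D = 2 ^ (k + 4) := ⟨_, rfl⟩
  rw [← hD]
  obtain ⟨Z, hZ⟩ : ∃ Z : List Bool → ℝ≥0∞, Z = fun g' => sB {g'' | g'' ∈ BrR D N ∧ LFold g' g''} (fun g'' =>
        wE g'' * (gam k j1 j3 g'' * (if cap (k + 2) w X S g' g'' ∈ G then tl D (hgt g'') * Φ g'' else 0))) := ⟨_, rfl⟩
  obtain ⟨B, hB⟩ : ∃ B : Set (List Bool), B = {g' | g' ∈ BrR D N ∧ RT D LFold t g'} := ⟨_, rfl⟩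
  have hstart : sB {g' | g' ∈ BrR D N ∧ RT D LFold t g'} (fun g' => wE g' * (gam k j1 j3 g' *
      (tl D (hgt g') * sB {g'' | g'' ∈ BrR D N ∧ LFold g' g''} (fun g'' =>
        wE g'' * (gam k j1 j3 g'' * (if cap (k + 2) w X S g' g'' ∈ G then tl D (hgt g'') * Φ g'' else 0)))))) =
      sB B (fun g' => wE g' * (gam k j1 j3 g' * (tl D (hgt g') * Z g'))) := by
    rw [hB, hZ]
  rw [hstart]
  refine (gam_exp k j1 j3 B (fun g' => tl D (hgt g') * Z g')).trans ?_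
  have e : κ * tU D N k j1 j3 LFold (tU D N k j1 j3 LFold Φ) t = T5 (fun M P1 h P2 Q => κ *
      (if 2 ^ j3 ≤ h ∧ ∃ V ∈ Brd h, M ++ (P1 ++ (V ++ (P2 ++ Q))) ∈ BrR D N ∧
        RT D LFold t (M ++ (P1 ++ (V ++ (P2 ++ Q)))) then
      mu j1 (hgt M) (hgt P1) * mu k (hgt M + hgt P1 + h) (hgt P2) *
        (wE M * (wE P1 * (gf (Brd h) * (wE P2 * (wE Q *
          (tl D (hgt M + hgt P1 + h + hgt P2 + hgt Q) * tU D N k j1 j3 LFold Φ (P2 ++ Q))))))) else 0)) := by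
    rw [T5_mul]
    rfl
  rw [e]
  refine T5_mono fun M hM P1 hP1 h P2 hP2 Q hQ => ?_
  obtain ⟨c, hc⟩ : ∃ c : ℝ≥0∞, c = mu j1 (hgt M) (hgt P1) * mu k (hgt M + hgt P1 + h) (hgt P2) := ⟨_, rfl⟩
  rw [← hc]
  by_cases hc0 : c = 0
  · rw [hc0, zero_mul]
    exact zero_le
  have hm : mu k (hgt M + hgt P1 + h) (hgt P2) ≠ 0 := by
    intro h0
    rw [h0, mul_zero] at hc
    exact hc0 hc
  have hlt := (mu_ne hm).1
  have hr : 0 < hgt P2 := by
    rcases Nat.eq_zero_or_pos (hgt P2) with h0 | h0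
    · rw [h0, mu_zero] at hm
      exact absurd rfl hm
    · exact h0
  by_cases hcond : 2 ^ j3 ≤ h ∧ ∃ V ∈ Brd h, M ++ (P1 ++ (V ++ (P2 ++ Q))) ∈ BrR D N ∧
        RT D LFold t (M ++ (P1 ++ (V ++ (P2 ++ Q))))
  swap
  · rw [if_neg hcond, mul_zero]
    apply le_of_eq
    have h0 : sB (Brd h) (fun V => if 2 ^ j3 ≤ h ∧ M ++ (P1 ++ (V ++ (P2 ++ Q))) ∈ B then
          wE V * (tl D (hgt (M ++ (P1 ++ (V ++ (P2 ++ Q))))) * Z (M ++ (P1 ++ (V ++ (P2 ++ Q))))) else 0) = 0 := by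
      refine Eq.trans (sB_congr (G := fun _ => 0) fun V hV => ?_) (sB_zero (Brd h))
      rw [if_neg]
      rintro ⟨a1, a2⟩
      rw [hB] at a2
      exact hcond ⟨a1, V, hV, a2⟩
    rw [h0]
    simp only [mul_zero]
  rw [if_pos hcond]
  obtain ⟨hj3, _⟩ := hcond
  have hh : h < 2 ^ (k + 1) := by omega
  obtain ⟨T, hT⟩ : ∃ T, T = hgt M + hgt P1 + h + hgt P2 + hgt Q := ⟨_, rfl⟩
  rw [← hT]
  have hBD : ∀ g ∈ B, g ∈ HB (2 ^ (k + 4)) := by
    intro g hg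
    rw [hB] at hg
    rw [← hD]
    exact BrR_HB hg.1
  -- the sum over V
  have hV : sB (Brd h) (fun V => if 2 ^ j3 ≤ h ∧ M ++ (P1 ++ (V ++ (P2 ++ Q))) ∈ B then
          wE V * (tl D (hgt (M ++ (P1 ++ (V ++ (P2 ++ Q))))) * Z (M ++ (P1 ++ (V ++ (P2 ++ Q))))) else 0) ≤
      tl D T * (κ * gf (Brd h) * tU D N k j1 j3 LFold Φ (P2 ++ Q)) := by
    have hZle : ∀ g', Z g' ≤ T5 (fun M' P1' h' P2' Q' =>
      mu j1 (hgt M') (hgt P1') * mu k (hgt M' + hgt P1' + h') (hgt P2') * (wE M' * (wE P1' * (wE P2' * (wE Q' *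
        sB (Brd h') (fun V' => if 2 ^ j3 ≤ h' ∧ M' ++ (P1' ++ (V' ++ (P2' ++ Q'))) ∈
            {g'' | g'' ∈ BrR D N ∧ LFold g' g''} then
          wE V' * (if cap (k + 2) w X S g' (M' ++ (P1' ++ (V' ++ (P2' ++ Q')))) ∈ G then
            tl D (hgt (M' ++ (P1' ++ (V' ++ (P2' ++ Q'))))) * Φ (M' ++ (P1' ++ (V' ++ (P2' ++ Q'))))
              else 0) else 0)))))) := by
      intro g'
      rw [hZ]
      refine le_trans (gam_exp k j1 j3 {g'' | g'' ∈ BrR D N ∧ LFold g' g''}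
        (fun g'' => if cap (k + 2) w X S g' g'' ∈ G then tl D (hgt g'') * Φ g'' else 0)) (le_of_eq ?_)
      congr!
    have e2 : κ * gf (Brd h) * tU D N k j1 j3 LFold Φ (P2 ++ Q) = T5 (fun M' P1' h' P2' Q' => (κ * gf (Brd h)) *
      (if 2 ^ j3 ≤ h' ∧ ∃ V' ∈ Brd h', M' ++ (P1' ++ (V' ++ (P2' ++ Q'))) ∈ BrR D N ∧
        RT D LFold (P2 ++ Q) (M' ++ (P1' ++ (V' ++ (P2' ++ Q')))) then
      mu j1 (hgt M') (hgt P1') * mu k (hgt M' + hgt P1' + h') (hgt P2') *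
        (wE M' * (wE P1' * (gf (Brd h') * (wE P2' * (wE Q' *
          (tl D (hgt M' + hgt P1' + h' + hgt P2' + hgt Q') * Φ (P2' ++ Q'))))))) else 0)) := by
      rw [T5_mul]
      rfl
    have s1 : sB (Brd h) (fun V => if 2 ^ j3 ≤ h ∧ M ++ (P1 ++ (V ++ (P2 ++ Q))) ∈ B then
          wE V * (tl D (hgt (M ++ (P1 ++ (V ++ (P2 ++ Q))))) * Z (M ++ (P1 ++ (V ++ (P2 ++ Q))))) else 0) ≤
        sB (Brd h) (fun V => tl D T * ((if M ++ (P1 ++ (V ++ (P2 ++ Q))) ∈ B then wE V else 0) *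
          T5 (fun M' P1' h' P2' Q' =>
      mu j1 (hgt M') (hgt P1') * mu k (hgt M' + hgt P1' + h') (hgt P2') * (wE M' * (wE P1' * (wE P2' * (wE Q' *
        sB (Brd h') (fun V' => if 2 ^ j3 ≤ h' ∧ M' ++ (P1' ++ (V' ++ (P2' ++ Q'))) ∈
            {g'' | g'' ∈ BrR D N ∧ LFold (M ++ (P1 ++ (V ++ (P2 ++ Q)))) g''} then
          wE V' * (if cap (k + 2) w X S (M ++ (P1 ++ (V ++ (P2 ++ Q)))) (M' ++ (P1' ++ (V' ++ (P2' ++ Q')))) ∈ G then
            tl D (hgt (M' ++ (P1' ++ (V' ++ (P2' ++ Q'))))) * Φ (M' ++ (P1' ++ (V' ++ (P2' ++ Q'))))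
              else 0) else 0)))))))) := by
      refine sB_mono le_rfl fun V hV => ?_
      by_cases h1 : M ++ (P1 ++ (V ++ (P2 ++ Q))) ∈ B
      · rw [if_pos ⟨hj3, h1⟩, if_pos h1, hgt_cat hM hP1 hV hP2 hQ, ← hT]
        calc wE V * (tl D T * Z (M ++ (P1 ++ (V ++ (P2 ++ Q))))) = tl D T * (wE V * Z (M ++ (P1 ++ (V ++ (P2 ++ Q))))) := by
              ring
          _ ≤ _ := by
              refine mul_le_mul_right (mul_le_mul_right ?_ _) _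
              exact hZle _
      · rw [if_neg (fun h2 => h1 h2.2)]
        exact zero_le
    refine s1.trans ?_
    rw [sB_mul]
    refine mul_le_mul_right ?_ _
    rw [e2]
    have s2 : ∀ V, (if M ++ (P1 ++ (V ++ (P2 ++ Q))) ∈ B then wE V else 0) *
          T5 (fun M' P1' h' P2' Q' =>
      mu j1 (hgt M') (hgt P1') * mu k (hgt M' + hgt P1' + h') (hgt P2') * (wE M' * (wE P1' * (wE P2' * (wE Q' *
        sB (Brd h') (fun V' => if 2 ^ j3 ≤ h' ∧ M' ++ (P1' ++ (V' ++ (P2' ++ Q'))) ∈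
            {g'' | g'' ∈ BrR D N ∧ LFold (M ++ (P1 ++ (V ++ (P2 ++ Q)))) g''} then
          wE V' * (if cap (k + 2) w X S (M ++ (P1 ++ (V ++ (P2 ++ Q)))) (M' ++ (P1' ++ (V' ++ (P2' ++ Q')))) ∈ G then
            tl D (hgt (M' ++ (P1' ++ (V' ++ (P2' ++ Q'))))) * Φ (M' ++ (P1' ++ (V' ++ (P2' ++ Q'))))
              else 0) else 0)))))) =
        T5 (fun M' P1' h' P2' Q' => (if M ++ (P1 ++ (V ++ (P2 ++ Q))) ∈ B then wE V else 0) *
      (mu j1 (hgt M') (hgt P1') * mu k (hgt M' + hgt P1' + h') (hgt P2') * (wE M' * (wE P1' * (wE P2' * (wE Q' *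
        sB (Brd h') (fun V' => if 2 ^ j3 ≤ h' ∧ M' ++ (P1' ++ (V' ++ (P2' ++ Q'))) ∈
            {g'' | g'' ∈ BrR D N ∧ LFold (M ++ (P1 ++ (V ++ (P2 ++ Q)))) g''} then
          wE V' * (if cap (k + 2) w X S (M ++ (P1 ++ (V ++ (P2 ++ Q)))) (M' ++ (P1' ++ (V' ++ (P2' ++ Q')))) ∈ G then
            tl D (hgt (M' ++ (P1' ++ (V' ++ (P2' ++ Q'))))) * Φ (M' ++ (P1' ++ (V' ++ (P2' ++ Q'))))
              else 0) else 0))))))) := by
      intro V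
      rw [T5_mul]
    rw [sB_congr fun V _ => s2 V, T5_swap]
    refine T5_mono fun M' hM' P1' hP1' h' P2' hP2' Q' hQ' => ?_
    rw [hD]
    exact second_le hΦ hM hP1 hP2 hQ hlt hr (fun c x y h' a1 a2 => PL c x y h h' hj3 hh a1 a2) B hBD hM' hP1' hP2' hQ'
  calc c * (wE M * (wE P1 * (wE P2 * (wE Q * _)))) ≤
      c * (wE M * (wE P1 * (wE P2 * (wE Q * (tl D T * (κ * gf (Brd h) * tU D N k j1 j3 LFold Φ (P2 ++ Q))))))) := by
        gcongr
    _ = _ := by ring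

open Classical in
/-- splitting of both leaves into the good and the bad part -/
lemma split_le {D N k j1 j3 w : ℕ} {G : Finset (ℤ × ℤ × ℤ)} {Φ : List Bool → ℝ≥0∞} (X S : ℤ) (t : List Bool) :
    sB {g' | g' ∈ BrR D N ∧ RT D LFold t g'} (fun g' => wE g' * (tl D (hgt g') *
      sB {g'' | g'' ∈ BrR D N ∧ LFold g' g'' ∧ cap (k + 2) w X S g' g'' ∈ G}
        (fun g'' => wE g'' * (tl D (hgt g'') * Φ g'')))) ≤
    tB D N k j1 j3 LFold (tA D N LFold Φ) t + tA D N LFold (tB D N k j1 j3 LFold Φ) t +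
      sB {g' | g' ∈ BrR D N ∧ RT D LFold t g'} (fun g' => wE g' * (gam k j1 j3 g' *
      (tl D (hgt g') * sB {g'' | g'' ∈ BrR D N ∧ LFold g' g''} (fun g'' =>
        wE g'' * (gam k j1 j3 g'' * (if cap (k + 2) w X S g' g'' ∈ G then tl D (hgt g'') * Φ g'' else 0)))))) := by
  obtain ⟨g1, hg1⟩ : ∃ g1 : List Bool → ℝ≥0∞, g1 = fun g' => min 1 (gam k j1 j3 g') := ⟨_, rfl⟩
  have hg1a : ∀ g', g1 g' ≤ 1 := fun g' => by rw [hg1]; exact min_le_left _ _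
  have hg1b : ∀ g', g1 g' ≤ gam k j1 j3 g' := fun g' => by rw [hg1]; exact min_le_right _ _
  have hone : ∀ g', 1 ≤ bet k j1 j3 g' + g1 g' := by
    intro g'
    rw [hg1]
    simp only
    unfold bet
    rcases le_total (gam k j1 j3 g') 1 with h | h
    · rw [min_eq_right h, tsub_add_cancel_of_le h]
    · rw [min_eq_left h]
      exact le_add_self
  have hsplit : ∀ (g' : List Bool) (a : ℝ≥0∞), a ≤ bet k j1 j3 g' * a + g1 g' * a := by
    intro g' a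
    rw [← add_mul]
    calc a = 1 * a := (one_mul a).symm
      _ ≤ _ := mul_le_mul_left (hone g') a
  obtain ⟨H, hH⟩ : ∃ H : List Bool → List Bool → ℝ≥0∞, H = fun g' g'' =>
    if cap (k + 2) w X S g' g'' ∈ G then tl D (hgt g'') * Φ g'' else 0 := ⟨_, rfl⟩
  have hHle : ∀ g' g'', H g' g'' ≤ tl D (hgt g'') * Φ g'' := by
    intro g' g''
    rw [hH]
    simp only
    split_ifs
    · exact le_rfl
    · exact zero_le
  obtain ⟨Y, hY⟩ : ∃ Y : List Bool → ℝ≥0∞, Y = fun g' =>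
    sB {g'' | g'' ∈ BrR D N ∧ LFold g' g''} (fun g'' => wE g'' * H g' g'') := ⟨_, rfl⟩
  obtain ⟨Z, hZ⟩ : ∃ Z : List Bool → ℝ≥0∞, Z = fun g' =>
    sB {g'' | g'' ∈ BrR D N ∧ LFold g' g''} (fun g'' => wE g'' * (gam k j1 j3 g'' * H g' g'')) := ⟨_, rfl⟩
  have hYe : ∀ g', sB {g'' | g'' ∈ BrR D N ∧ LFold g' g'' ∧ cap (k + 2) w X S g' g'' ∈ G}
        (fun g'' => wE g'' * (tl D (hgt g'') * Φ g'')) = Y g' := by
    intro g'
    rw [hY, hH]
    simp only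
    have h1 : ∀ g'', wE g'' * (if cap (k + 2) w X S g' g'' ∈ G then tl D (hgt g'') * Φ g'' else 0) =
        if cap (k + 2) w X S g' g'' ∈ G then wE g'' * (tl D (hgt g'') * Φ g'') else 0 := by
      intro g''
      split_ifs
      · rfl
      · rw [mul_zero]
    rw [sB_congr fun g'' _ => h1 g'', sB_ite]
    congr 1
    ext g''
    exact ⟨fun h => ⟨⟨h.1, h.2.1⟩, h.2.2⟩, fun h => ⟨h.1.1, h.1.2, h.2⟩⟩
  have hsub : ∀ g' ∈ HB D, {g'' | g'' ∈ BrR D N ∧ LFold g' g''} ⊆ {g'' | g'' ∈ BrR D N ∧ RT D LFold g' g''} :=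
    fun g' hg' g'' h => ⟨h.1, Ch.RT_self hg' h.2⟩
  have hY1 : ∀ g' ∈ HB D, Y g' ≤ tA D N LFold Φ g' := by
    intro g' hg'
    rw [hY]
    unfold tA
    refine sB_mono (hsub g' hg') fun g'' _ => ?_
    exact mul_le_mul_right (hHle g' g'') _
  have hY2 : ∀ g' ∈ HB D, Y g' ≤ tB D N k j1 j3 LFold Φ g' + Z g' := by
    intro g' hg'
    have h1 : Y g' ≤ sB {g'' | g'' ∈ BrR D N ∧ LFold g' g''} (fun g'' =>
        wE g'' * (bet k j1 j3 g'' * (tl D (hgt g'') * Φ g'')) + wE g'' * (gam k j1 j3 g'' * H g' g'')) := by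
      rw [hY]
      refine sB_mono le_rfl fun g'' _ => ?_
      calc wE g'' * H g' g'' ≤ wE g'' * (bet k j1 j3 g'' * H g' g'' + g1 g'' * H g' g'') := by
            gcongr
            exact hsplit g'' _
        _ = wE g'' * (bet k j1 j3 g'' * H g' g'') + wE g'' * (g1 g'' * H g' g'') := by ring
        _ ≤ _ := by
            gcongr
            · exact hHle g' g''
            · exact hg1b g''
    refine h1.trans ?_
    rw [sB_add]
    refine add_le_add ?_ (le_of_eq (by rw [hZ]))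
    unfold tB
    exact sB_mono (hsub g' hg') fun _ _ => le_rfl
  have hmain : sB {g' | g' ∈ BrR D N ∧ RT D LFold t g'} (fun g' => wE g' * (tl D (hgt g') * Y g')) ≤
      tB D N k j1 j3 LFold (tA D N LFold Φ) t + tA D N LFold (tB D N k j1 j3 LFold Φ) t +
        sB {g' | g' ∈ BrR D N ∧ RT D LFold t g'} (fun g' => wE g' * (gam k j1 j3 g' * (tl D (hgt g') * Z g'))) := by
    have e1 : tB D N k j1 j3 LFold (tA D N LFold Φ) t = sB {g' | g' ∈ BrR D N ∧ RT D LFold t g'}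
      (fun g' => wE g' * (bet k j1 j3 g' * (tl D (hgt g') * tA D N LFold Φ g'))) := rfl
    have e2 : tA D N LFold (tB D N k j1 j3 LFold Φ) t = sB {g' | g' ∈ BrR D N ∧ RT D LFold t g'}
      (fun g' => wE g' * (tl D (hgt g') * tB D N k j1 j3 LFold Φ g')) := rfl
    rw [e1, e2, ← sB_add, ← sB_add]
    refine sB_mono le_rfl fun g' hg' => ?_
    have hg'' := BrR_HB hg'.1
    calc wE g' * (tl D (hgt g') * Y g') ≤
          wE g' * (bet k j1 j3 g' * (tl D (hgt g') * Y g') + g1 g' * (tl D (hgt g') * Y g')) := by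
          gcongr
          exact hsplit g' _
      _ ≤ wE g' * (bet k j1 j3 g' * (tl D (hgt g') * tA D N LFold Φ g') +
          g1 g' * (tl D (hgt g') * (tB D N k j1 j3 LFold Φ g' + Z g'))) := by
          gcongr
          · exact hY1 g' hg''
          · exact hY2 g' hg''
      _ = wE g' * (bet k j1 j3 g' * (tl D (hgt g') * tA D N LFold Φ g')) +
          wE g' * (g1 g' * (tl D (hgt g') * tB D N k j1 j3 LFold Φ g')) +
          wE g' * (g1 g' * (tl D (hgt g') * Z g')) := by ring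
      _ ≤ wE g' * (bet k j1 j3 g' * (tl D (hgt g') * tA D N LFold Φ g')) +
          wE g' * (1 * (tl D (hgt g') * tB D N k j1 j3 LFold Φ g')) +
          wE g' * (gam k j1 j3 g' * (tl D (hgt g') * Z g')) := by
          gcongr
          · exact hg1a g'
          · exact hg1b g'
      _ = _ := by
          rw [one_mul]
  have e3 : ∀ g', wE g' * (tl D (hgt g') *
      sB {g'' | g'' ∈ BrR D N ∧ LFold g' g'' ∧ cap (k + 2) w X S g' g'' ∈ G}
        (fun g'' => wE g'' * (tl D (hgt g'') * Φ g''))) = wE g' * (tl D (hgt g') * Y g') := by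
    intro g'
    rw [hYe]
  rw [sB_congr fun g' _ => e3 g']
  refine hmain.trans (le_of_eq ?_)
  rw [hZ, hH]

end PC

/-- THE PAIR STEP -/
theorem pairCap : ∃ C : ℝ, 0 < C ∧ ∀ (N k j1 j3 w K0 : ℕ), 1 ≤ w → w ≤ 2 ^ k → 1 ≤ K0 →
    Ch.PairCap (2 ^ (k + 4)) N k j1 j3 w (ENNReal.ofReal (C * (K0 * w * 2 ^ k / 4 ^ j3 + 1 / K0))) := by
  classical
  obtain ⟨C, hC, hPL⟩ := pair_loc
  refine ⟨C, hC, fun N k j1 j3 w K0 hw hwk hK G hG Φ hΦ X S t => ?_⟩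
  refine (PC.split_le X S t).trans (add_le_add le_rfl (PC.main_le ?_ hΦ X S t))
  intro c x y h h' h1 h2 h3 h4
  have h5 := hPL k j3 w K0 ((G.filter (fun x => x.1 = c)).image Prod.snd) 1 1 (-1) x y h h' hw hwk hK (hG.slice c)
    (Or.inl rfl) (Or.inl rfl) (Or.inr rfl) h1 h2 h3 h4
  refine le_trans (le_of_eq ?_) h5
  refine Rec8.sw_congr fun V _ => Rec8.sw_congr fun V' _ => ?_
  simp only [mem_slice]

/-- the pair step, exact form of the stub -/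
theorem pair_cap : ∃ C : ℝ, 0 < C ∧ ∀ (N k j1 j3 w K0 : ℕ) (G : Finset (ℤ × ℤ × ℤ)) (X S : ℤ) (F : List Bool → ℝ≥0∞)
    (t : List Bool), 1 ≤ w → w ≤ 2 ^ k → 1 ≤ K0 → j1 + 3 ≤ k → j3 ≤ j1 → NCB G → Hered F →
    sB {g' | g' ∈ BrR (2 ^ (k + 4)) N ∧ RT (2 ^ (k + 4)) LFold t g'} (fun g' => wE g' * (tl (2 ^ (k + 4)) (hgt g') *
      sB {g'' | g'' ∈ BrR (2 ^ (k + 4)) N ∧ LFold g' g'' ∧ cap (k + 2) w X S g' g'' ∈ G} (fun g'' =>
        wE g'' * (tl (2 ^ (k + 4)) (hgt g'') * F g'')))) ≤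
      tB (2 ^ (k + 4)) N k j1 j3 LFold (tA (2 ^ (k + 4)) N LFold F) t +
      tA (2 ^ (k + 4)) N LFold (tB (2 ^ (k + 4)) N k j1 j3 LFold F) t +
      ENNReal.ofReal (C * (K0 * w * 2 ^ k / 4 ^ j3 + 1 / K0)) *
        tU (2 ^ (k + 4)) N k j1 j3 LFold (tU (2 ^ (k + 4)) N k j1 j3 LFold F) t := by
  obtain ⟨C, hC, h⟩ := pairCap
  exact ⟨C, hC, fun N k j1 j3 w K0 G X S F t hw hwk hK _ _ hG hF => h N k j1 j3 w K0 hw hwk hK G hG F hF X S t⟩

end SDN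

end HexObs
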