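import Pool.Agent.SDN.Defs
import Pool.Agent.Tight.NonCross

/-!
SDN B5: the number of the block pairs of a non-crossing set.
-/

set_option autoImplicit false

namespace HexObs

namespace SDN

open Finset

/-- a non-crossing set of pairs of the blocks of W -/
theorem nc_card {G : Finset (ℤ × ℤ)} {W : Finset ℤ} (hG : ∀ x ∈ G, ∀ y ∈ G, ¬ Inter x y)
    (hW : ∀ x ∈ G, x.1 ∈ W ∧ x.2 ∈ W) : G.card ≤ 6 * W.card := by
  classical
  set iso := Finset.orderIsoOfFin W (rfl : W.card = W.card) with hiso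
  set E : Finset (Fin W.card × Fin W.card) := univ.filter fun q => q.1 ≤ q.2 ∧
    (((iso q.1 : ℤ), (iso q.2 : ℤ)) ∈ G ∨ ((iso q.2 : ℤ), (iso q.1 : ℤ)) ∈ G) with hE
  have hmono : ∀ a b : Fin W.card, a < b → (iso a : ℤ) < (iso b : ℤ) := fun a b h => iso.strictMono h
  have hNC : Tight.NC E := by
    constructor
    · intro p hp
      exact (Finset.mem_filter.1 hp).2.1
    · intro p hp q hq hpq
      obtain ⟨h1, h2, h3⟩ := hpq
      obtain ⟨-, p1, p2⟩ := Finset.mem_filter.1 hp
      obtain ⟨-, q1, q2⟩ := Finset.mem_filter.1 hq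
      have a1 := hmono _ _ h1
      have a2 := hmono _ _ h2
      have a3 := hmono _ _ h3
      rcases p2 with p2 | p2 <;> rcases q2 with q2 | q2 <;> refine hG _ p2 _ q2 ?_ <;> unfold Inter <;>
        simp only <;> refine ⟨?_, ?_, ?_⟩ <;> omega
  have hcov : G ⊆ E.image (fun q => ((iso q.1 : ℤ), (iso q.2 : ℤ))) ∪
      E.image (fun q => ((iso q.2 : ℤ), (iso q.1 : ℤ))) := by
    intro p hp
    obtain ⟨w1, w2⟩ := hW p hp
    set a := iso.symm ⟨p.1, w1⟩ with ha
    set b := iso.symm ⟨p.2, w2⟩ with hb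
    have ea : (iso a : ℤ) = p.1 := by rw [ha, OrderIso.apply_symm_apply]
    have eb : (iso b : ℤ) = p.2 := by rw [hb, OrderIso.apply_symm_apply]
    rw [Finset.mem_union, Finset.mem_image, Finset.mem_image]
    rcases le_total a b with hab | hab
    · left
      refine ⟨(a, b), ?_, ?_⟩
      · rw [hE, Finset.mem_filter]
        refine ⟨Finset.mem_univ _, hab, Or.inl ?_⟩
        simp only
        rw [ea, eb]
        exact hp
      · simp only
        rw [ea, eb]
    · right
      refine ⟨(b, a), ?_, ?_⟩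
      · rw [hE, Finset.mem_filter]
        refine ⟨Finset.mem_univ _, hab, Or.inr ?_⟩
        simp only
        rw [ea, eb]
        exact hp
      · simp only
        rw [ea, eb]
  have h1 := Finset.card_le_card hcov
  have h2 := Finset.card_union_le (E.image (fun q => ((iso q.1 : ℤ), (iso q.2 : ℤ))))
    (E.image (fun q => ((iso q.2 : ℤ), (iso q.1 : ℤ))))
  have h3 : (E.image (fun q => ((iso q.1 : ℤ), (iso q.2 : ℤ)))).card ≤ E.card := Finset.card_image_le
  have h4 : (E.image (fun q => ((iso q.2 : ℤ), (iso q.1 : ℤ)))).card ≤ E.card := Finset.card_image_le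
  have h5 := hNC.card_le
  omega

lemma cap_aux {b om : ℕ} {v : Pt} {Y : ℤ} (h : lvl false v = 3 * Y) :
    -(cross up v) / 2 ^ om ∈ Icc ((-Y - 2 ^ (b + 1) * ((cell b v).2 + 1)) / 2 ^ om)
      ((-Y - 2 ^ (b + 1) * (cell b v).2) / 2 ^ om) := by
  have hp : (0 : ℤ) < 2 ^ om := by positivity
  have hb : (0 : ℤ) < 2 ^ b := by positivity
  set r := row true v with hr
  have h1 : (cell b v).2 = r / 2 ^ b := rfl
  have h2 : 2 ^ b * (r / 2 ^ b) ≤ r := Int.mul_ediv_self_le hb.ne'
  have h3 : r < 2 ^ b * (r / 2 ^ b) + 2 ^ b := by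
    have := Int.lt_ediv_add_one_mul_self r hb
    linarith
  have h4 : -(cross up v) = v.1 := by
    simp only [cross, up]
    ring
  have h5 : v.1 + 2 * v.2 = 3 * Y := by
    have : lvl false v = 2 * v.2 + v.1 := by
      simp only [lvl, hd, ip, up, Bool.false_eq_true, if_false]
      ring
    omega
  have h6 : r = (-2 * v.1 - v.2) / 3 := by
    have : lvl true v = -2 * v.1 - v.2 := by
      simp only [lvl, hd, ip, if_true]
      ring
    rw [hr, row, this]
  rw [mem_Icc, h1, h4]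
  have h7 : 2 * r ≤ -(v.1 + Y) ∧ -(v.1 + Y) < 2 * r + 2 := by omega
  have e : (2 : ℤ) ^ (b + 1) = 2 * 2 ^ b := by ring
  constructor
  · apply Int.ediv_le_ediv hp
    rw [e]
    nlinarith
  · apply Int.ediv_le_ediv hp
    rw [e]
    nlinarith

lemma cap_card {b om : ℕ} (hom : om ≤ b) (Y z : ℤ) :
    (Icc ((-Y - 2 ^ (b + 1) * (z + 1)) / 2 ^ om) ((-Y - 2 ^ (b + 1) * z) / 2 ^ om)).card = 2 ^ (b + 1 - om) + 1 := by
  have hp : (0 : ℤ) < 2 ^ om := by positivity
  have e : (2 : ℤ) ^ (b + 1) = 2 ^ om * 2 ^ (b + 1 - om) := by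
    rw [← pow_add]
    congr 1
    omega
  have h1 : (-Y - 2 ^ (b + 1) * z) / 2 ^ om = (-Y - 2 ^ (b + 1) * (z + 1)) / 2 ^ om + 2 ^ (b + 1 - om) := by
    rw [← Int.add_mul_ediv_left _ _ hp.ne']
    congr 1
    rw [e]
    ring
  rw [Int.card_Icc, h1]
  have h2 : (-Y - 2 ^ (b + 1) * (z + 1)) / 2 ^ om + 2 ^ (b + 1 - om) + 1 - (-Y - 2 ^ (b + 1) * (z + 1)) / 2 ^ om =
      ((2 ^ (b + 1 - om) + 1 : ℕ) : ℤ) := by
    push_cast
    ring
  rw [h2, Int.toNat_natCast]

/-- number of the block pairs in terms of the number of visited cells, blocks of length 2 ^ om -/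
theorem caps_card : ∃ C : ℕ, ∀ (k om : ℕ) (q : List Bool) (G : Finset (ℤ × ℤ × ℤ)), om ≤ k → NCB G →
    (∀ x ∈ G, ∃ i j : ℕ, i ≤ q.length ∧ j ≤ q.length ∧ lev q i = 3 * x.1 ∧ lev q j = 3 * x.1 ∧
      (2 : ℤ) ^ (k + 2) ∣ x.1 ∧ x.2 = (lat q i / 2 ^ om, lat q j / 2 ^ om)) →
    G.card ≤ C * 2 ^ (k - om) * nb (k + 5) q := by
  classical
  refine ⟨3120, ?_⟩
  intro k om q G hom hG hx
  set V : Finset (ℤ × ℤ) := ((range (q.length + 1)).filter fun i => 3 ∣ lev q i ∧ (2 : ℤ) ^ (k + 2) ∣ lev q i / 3).image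
    fun i => (lev q i / 3, lat q i / 2 ^ om) with hV
  have hmem : ∀ x : ℤ × ℤ × ℤ, ∀ i : ℕ, i ≤ q.length → lev q i = 3 * x.1 → (2 : ℤ) ^ (k + 2) ∣ x.1 →
      (x.1, lat q i / 2 ^ om) ∈ V := by
    intro x i hi hl hd'
    rw [hV, mem_image]
    have e : lev q i / 3 = x.1 := by omega
    refine ⟨i, ?_, ?_⟩
    · rw [mem_filter, mem_range, e]
      exact ⟨by omega, ⟨x.1, hl⟩, hd'⟩
    · simp only [e]
  have h1 : G.card ≤ 6 * V.card := by
    set T := G.image Prod.fst ∪ V.image Prod.fst with hT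
    have e1 : G.card = ∑ Y ∈ T, (G.filter (fun x => x.1 = Y)).card :=
      card_eq_sum_card_fiberwise (fun x hx' => by
        rw [hT, coe_union]
        exact Or.inl (mem_coe.2 (mem_image_of_mem _ hx')))
    have e2 : V.card = ∑ Y ∈ T, (V.filter (fun x => x.1 = Y)).card :=
      card_eq_sum_card_fiberwise (fun x hx' => by
        rw [hT, coe_union]
        exact Or.inr (mem_coe.2 (mem_image_of_mem _ hx')))
    rw [e1, e2, mul_sum]
    refine sum_le_sum fun Y _ => ?_
    have c1 : (G.filter (fun x => x.1 = Y)).card = ((G.filter (fun x => x.1 = Y)).image Prod.snd).card := by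
      rw [card_image_of_injOn]
      intro x hx1 y hy1 hxy
      have a := (mem_filter.1 (mem_coe.1 hx1)).2
      have b := (mem_filter.1 (mem_coe.1 hy1)).2
      exact Prod.ext (a.trans b.symm) hxy
    have c2 : ((V.filter (fun x => x.1 = Y)).image Prod.snd).card ≤ (V.filter (fun x => x.1 = Y)).card :=
      card_image_le
    have c3 : ((G.filter (fun x => x.1 = Y)).image Prod.snd).card ≤
        6 * ((V.filter (fun x => x.1 = Y)).image Prod.snd).card := by
      apply nc_card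
      · intro x hx1 y hy1
        rw [mem_image] at hx1 hy1
        obtain ⟨x', hx1, rfl⟩ := hx1
        obtain ⟨y', hy1, rfl⟩ := hy1
        rw [mem_filter] at hx1 hy1
        exact hG x' hx1.1 y' hy1.1 (hx1.2.trans hy1.2.symm)
      · intro x hx1
        rw [mem_image] at hx1
        obtain ⟨x', hx1, rfl⟩ := hx1
        rw [mem_filter] at hx1
        obtain ⟨i, j, hi, hj, li, lj, hd', hb⟩ := hx x' hx1.1
        rw [mem_image, mem_image]
        refine ⟨⟨(x'.1, lat q i / 2 ^ om), ?_, ?_⟩, ⟨(x'.1, lat q j / 2 ^ om), ?_, ?_⟩⟩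
        · rw [mem_filter]
          exact ⟨hmem x' i hi li hd', hx1.2⟩
        · simp only [hb]
        · rw [mem_filter]
          exact ⟨hmem x' j hj lj hd', hx1.2⟩
        · simp only [hb]
    omega
  have h2 : V.card ≤ 520 * 2 ^ (k - om) * nb (k + 5) q := by
    have hsub : V ⊆ (cells (k + 5) q).biUnion fun z => (range 8).biUnion fun j =>
        (Icc ((-(2 ^ (k + 5) * z.1 + 2 ^ (k + 2) * (j : ℤ)) - 2 ^ (k + 5 + 1) * (z.2 + 1)) / 2 ^ om)
          ((-(2 ^ (k + 5) * z.1 + 2 ^ (k + 2) * (j : ℤ)) - 2 ^ (k + 5 + 1) * z.2) / 2 ^ om)).image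
            fun ω => ((2 ^ (k + 5) * z.1 + 2 ^ (k + 2) * (j : ℤ), ω) : ℤ × ℤ) := by
      intro x hx1
      rw [hV, mem_image] at hx1
      obtain ⟨i, hi, rfl⟩ := hx1
      rw [mem_filter, mem_range] at hi
      obtain ⟨hi, h3, y, hy⟩ := hi
      have hl : lvl false (vx oo up q i) = 3 * (lev q i / 3) := by
        have : lvl false (vx oo up q i) = lev q i := rfl
        rw [this]
        omega
      rw [mem_biUnion]
      refine ⟨cell (k + 5) (vx oo up q i), mem_image_of_mem _ (mem_range.2 hi), ?_⟩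
      rw [mem_biUnion]
      have hc1 : (cell (k + 5) (vx oo up q i)).1 = y / 8 := by
        show lev q i / 3 / 2 ^ (k + 5) = y / 8
        rw [hy, show (2 : ℤ) ^ (k + 5) = 2 ^ (k + 2) * 8 by ring, Int.mul_ediv_mul_of_pos _ _ (by positivity)]
      have hY : 2 ^ (k + 5) * (cell (k + 5) (vx oo up q i)).1 + 2 ^ (k + 2) * (((y % 8).toNat : ℕ) : ℤ) =
          lev q i / 3 := by
        rw [hc1, hy, Int.toNat_of_nonneg (Int.emod_nonneg _ (by norm_num)),
          show (2 : ℤ) ^ (k + 5) = 2 ^ (k + 2) * 8 by ring]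
        have := Int.mul_ediv_add_emod y 8
        linear_combination (2 ^ (k + 2) : ℤ) * this
      refine ⟨(y % 8).toNat, ?_, ?_⟩
      · rw [mem_range]
        omega
      · rw [mem_image]
        refine ⟨lat q i / 2 ^ om, ?_, ?_⟩
        · rw [hY]
          exact cap_aux hl
        · rw [hY]
    refine (card_le_card hsub).trans ?_
    refine (card_biUnion_le_card_mul _ _ (520 * 2 ^ (k - om)) ?_).trans (le_of_eq (mul_comm _ _))
    intro z _
    have h8 : (range 8).card = 8 := card_range 8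
    refine (card_biUnion_le_card_mul _ _ (65 * 2 ^ (k - om)) ?_).trans (le_of_eq (by rw [h8]; ring))
    intro j _
    refine card_image_le.trans ?_
    rw [cap_card (by omega)]
    have e : 2 ^ (k + 5 + 1 - om) = 64 * 2 ^ (k - om) := by
      rw [show k + 5 + 1 - om = (k - om) + 6 by omega, pow_add]
      ring
    rw [e]
    have := Nat.one_le_two_pow (n := k - om)
    omega
  calc G.card ≤ 6 * V.card := h1
    _ ≤ 6 * (520 * 2 ^ (k - om) * nb (k + 5) q) := by omega
    _ = 3120 * 2 ^ (k - om) * nb (k + 5) q := by ring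

end SDN

end HexObs
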