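import Pool.Agent.SDN.Defs
import Pool.Agent.Tight.LeafArcs
import Pool.Agent.TightS.CombS

/-!
SDN, module B4: the caps of a chain that is a part of a walk do not cross.
-/

set_option autoImplicit false

namespace HexObs

namespace SDN

open Finset TS

open scoped ENNReal

section B4

lemma caps_ln (q : ℕ) (T : ℤ) : ln q T ≤ T - 2 ^ q ∧ T < ln q T + 2 ^ (q + 1) ∧ (2 : ℤ) ^ q ∣ ln q T := by
  unfold ln
  have h0 : (0 : ℤ) < 2 ^ q := by positivity
  have h1 := Int.emod_add_mul_ediv T (2 ^ q)
  have h2 := Int.emod_nonneg T h0.ne'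
  have h3 := Int.emod_lt_of_pos T h0
  have h4 : (2 : ℤ) ^ (q + 1) = 2 * 2 ^ q := by ring
  refine ⟨?_, ?_, Dvd.intro _ rfl⟩
  · rw [mul_sub, mul_one]
    linarith
  · rw [mul_sub, mul_one, h4]
    linarith

/-- the caps of a chain in terms of the vertices of the word -/
theorem caps_idx {k w : ℕ} (t : List Bool) :
    ∀ (n : ℕ) (us : List (List Bool)) (X S : ℤ) (s : ℕ), us.length = 2 * n → (∀ g ∈ us, g ∈ HB (2 ^ (k + 4))) →
    s + (unf us).length ≤ t.length + 1 →
    (∀ j, j ≤ (unf us).length → lat t (s + j) = X + lat (unf us) j ∧ lev t (s + j) = 3 * S + lev (unf us) j) →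
    ∃ idx : List (ℕ × ℕ × ℤ),
      idx.map (fun p => (p.2.2, lat t p.1 / (w : ℤ), lat t p.2.1 / (w : ℤ))) = caps (k + 2) w X S us ∧
      (∀ p ∈ idx, s ≤ p.1 ∧ p.1 < p.2.1 ∧ p.2.1 ≤ t.length ∧ lev t p.1 = 3 * p.2.2 ∧ lev t p.2.1 = 3 * p.2.2 ∧
        (2 : ℤ) ^ (k + 2) ∣ p.2.2 ∧ ∀ x, p.1 < x → x < p.2.1 → 3 * p.2.2 < lev t x) ∧
      idx.Pairwise (fun p q => p.2.1 < q.1) := by
  intro n
  induction n with
  | zero =>
    intro us X S s hn _ _ _
    have : us = [] := List.length_eq_zero_iff.1 (by omega)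
    subst this
    exact ⟨[], rfl, by simp, List.Pairwise.nil⟩
  | succ n ih =>
    intro us X S s hn hB hlen hpos
    match us, hB, hn, hlen, hpos with
    | [], _, hn, _, _ =>
      simp at hn
    | [g], _, hn, _, _ =>
      simp at hn
      omega
    | g :: g' :: gs, hB, hn, hlen, hpos =>
      obtain ⟨h1, hD1, hg⟩ := hB g (by simp)
      obtain ⟨h1', hD1', hg'⟩ := hB g' (by simp)
      have hD : 1 ≤ 2 ^ (k + 4) := Nat.one_le_two_pow
      have hh1 : 1 ≤ h1 := by omega
      have hh1' : 1 ≤ h1' := by omega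
      have hDz : (2 : ℤ) ^ (k + 4) ≤ h1 := by exact_mod_cast hD1
      have hDz' : (2 : ℤ) ^ (k + 4) ≤ h1' := by exact_mod_cast hD1'
      have pw1 : (2 : ℤ) ^ (k + 4) = 4 * 2 ^ (k + 2) := by ring
      have pw2 : (2 : ℤ) ^ (k + 2 + 1) = 2 * 2 ^ (k + 2) := by ring
      have pw0 : (0 : ℤ) < 2 ^ (k + 2) := by positivity
      obtain ⟨n1, n2, n3⟩ := caps_ln (k + 2) (S + h1)
      obtain ⟨c, hc⟩ : ∃ c, c = ln (k + 2) (S + h1) := ⟨_, rfl⟩
      rw [← hc] at n1 n2 n3
      rw [pw2] at n2
      obtain ⟨r1, hr1⟩ : ∃ r, r = unf (g' :: gs) := ⟨_, rfl⟩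
      have e1 : unf (g :: g' :: gs) = g.dropLast ++ (!lst g) :: (!lst g) :: r1 := by rw [hr1]; rfl
      obtain ⟨l1, _, _⟩ := unf_step (r := r1) hg hh1
      obtain ⟨a1, a2⟩ := unf_step_lev (r := r1) hg hh1
      rw [← e1] at l1 a1 a2
      have lg : lev g g.length = 3 * h1 := (mem_Brd.1 hg).2.2.2
      have lg' : lev g' g'.length = 3 * h1' := (mem_Brd.1 hg').2.2.2
      -- the positions in g'
      have hb : g'.length ≤ r1.length ∧ ∀ i, i ≤ g'.length → lev r1 i = lev g' i ∧ lat r1 i = lat g' i := by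
        cases gs with
        | nil =>
          rw [hr1]
          exact ⟨le_rfl, fun i _ => ⟨rfl, rfl⟩⟩
        | cons g'' gs =>
          have e2 : r1 = g'.dropLast ++ (!lst g') :: (!lst g') :: unf (g'' :: gs) := by rw [hr1]; rfl
          obtain ⟨l2, _, _⟩ := unf_step (r := unf (g'' :: gs)) hg' hh1'
          obtain ⟨b1, _⟩ := unf_step_lev (r := unf (g'' :: gs)) hg' hh1'
          rw [← e2] at l2 b1
          exact ⟨by omega, b1⟩
      obtain ⟨hb0, hb1⟩ := hb
      -- the rest
      have hrest : ∃ idx : List (ℕ × ℕ × ℤ),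
          idx.map (fun p => (p.2.2, lat t p.1 / (w : ℤ), lat t p.2.1 / (w : ℤ))) =
            caps (k + 2) w (X + latE g + tw g - latE g' - tw g') (S + ht g - ht g') gs ∧
          (∀ p ∈ idx, s + (g.length + 1 + (g'.length + 1)) ≤ p.1 ∧ p.1 < p.2.1 ∧ p.2.1 ≤ t.length ∧
            lev t p.1 = 3 * p.2.2 ∧ lev t p.2.1 = 3 * p.2.2 ∧ (2 : ℤ) ^ (k + 2) ∣ p.2.2 ∧
            ∀ x, p.1 < x → x < p.2.1 → 3 * p.2.2 < lev t x) ∧
          idx.Pairwise (fun p q => p.2.1 < q.1) := by
        cases gs with
        | nil => exact ⟨[], rfl, by simp, List.Pairwise.nil⟩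
        | cons g'' gs =>
          obtain ⟨r2, hr2⟩ : ∃ r, r = unf (g'' :: gs) := ⟨_, rfl⟩
          have e2 : r1 = g'.dropLast ++ (!lst g') :: (!lst g') :: r2 := by rw [hr1, hr2]; rfl
          obtain ⟨l2, _, _⟩ := unf_step (r := r2) hg' hh1'
          obtain ⟨b1, b2⟩ := unf_step_lev (r := r2) hg' hh1'
          rw [← e2] at l2 b1 b2
          apply ih (g'' :: gs) (X + latE g + tw g - latE g' - tw g') (S + ht g - ht g')
            (s + (g.length + 1 + (g'.length + 1))) (by simp only [List.length_cons] at hn ⊢; omega)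
            (fun u hu => hB u (List.mem_cons_of_mem _ (List.mem_cons_of_mem _ hu)))
            (by rw [← hr2]; omega)
          intro j hj
          rw [← hr2] at hj ⊢
          have p1 := hpos (g.length + 1 + (g'.length + 1 + j)) (by omega)
          have p2 := a2 (g'.length + 1 + j)
          have p3 := b2 j
          rw [show s + (g.length + 1 + (g'.length + 1)) + j = s + (g.length + 1 + (g'.length + 1 + j)) by ring]
          rw [p1.1, p1.2, p2.1, p2.2, p3.1, p3.2, ht_eq hg, ht_eq hg']
          constructor <;> ring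
      obtain ⟨idx, i1, i2, i3⟩ := hrest
      -- the first cap
      obtain ⟨x1, x2, x3⟩ := lastLe_spec (g := g) (m := c - S) (by omega) (by rw [lg]; omega)
      obtain ⟨y1, y2, y3⟩ := firstGe_spec (g := g') (m := S + h1 - c) (by omega) (by rw [lg']; omega)
      set i0 := lastLe g (3 * (c - S)) with hi0
      set j0 := firstGe g' (3 * (S + h1 - c) - 1) with hj0
      have y4 : j0 < g'.length := by
        rcases y1.lt_or_eq with h | h
        · exact h
        · rw [h, lg'] at y2
          omega
      have q1 := hpos i0 (by omega)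
      have q2 := hpos (g.length + 1 + j0) (by omega)
      have q3 := a1 i0 x1.le
      have q4 := a2 j0
      have q5 := hb1 j0 y1
      refine ⟨(s + i0, s + (g.length + 1 + j0), c) :: idx, ?_, ?_, ?_⟩
      · rw [List.map_cons, i1]
        show _ = cap (k + 2) w X S g g' :: caps (k + 2) w (X + latE g + tw g - latE g' - tw g') (S + ht g - ht g') gs
        congr 1
        unfold cap arc
        rw [ht_eq hg, ← hc]
        refine Prod.ext rfl (Prod.ext ?_ ?_)
        · show lat t (s + i0) / (w : ℤ) = (X + lat g i0) / (w : ℤ)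
          rw [q1.1, q3.2]
        · show lat t (s + (g.length + 1 + j0)) / (w : ℤ) = (X + latE g + tw g - lat g' j0) / (w : ℤ)
          rw [q2.1, q4.2, q5.2]
          congr 1
          ring
      · intro p hp
        rcases List.mem_cons.1 hp with rfl | hp
        · refine ⟨by simp, by simp only; omega, by simp only; omega, ?_, ?_, n3, ?_⟩
          · show lev t (s + i0) = 3 * c
            rw [q1.2, q3.1, x2]
            ring
          · show lev t (s + (g.length + 1 + j0)) = 3 * c
            rw [q2.2, q4.1, q5.1, y2]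
            ring
          · intro x hx hx'
            simp only at hx hx'
            show 3 * c < lev t x
            rcases Nat.lt_or_ge (s + g.length) x with hc' | hc'
            · obtain ⟨j, rfl⟩ : ∃ j, x = s + (g.length + 1 + j) := ⟨x - (s + (g.length + 1)), by omega⟩
              have w1 := hpos (g.length + 1 + j) (by omega)
              have w2 := a2 j
              have w3 := hb1 j (by omega)
              have w4 := y3 j (by omega)
              rw [w1.2, w2.1, w3.1]
              omega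
            · obtain ⟨i, rfl⟩ : ∃ i, x = s + i := ⟨x - s, by omega⟩
              have w1 := hpos i (by omega)
              have w2 := a1 i (by omega)
              have w4 := x3 i (by omega) (by omega)
              rw [w1.2, w2.1]
              omega
        · have v := i2 p hp
          exact ⟨by omega, v.2⟩
      · rw [List.pairwise_cons]
        refine ⟨fun p hp => ?_, i3⟩
        have v := (i2 p hp).1
        simp only
        omega

/-- the caps of a chain that is a part of a walk (foot vertex of the first leaf = the origin, first leaf up) do not cross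
and their ends are vertices of the walk on the line -/
theorem caps_nc {k w : ℕ} (hw : 1 ≤ w) {q r : List Bool} {gs : List (List Bool)} (hq : q ∈ SA)
    (hqs : q = (unf gs).dropLast ++ r) (hgs : ∀ g ∈ gs, g ∈ HB (2 ^ (k + 4))) (hev : Even gs.length) :
    NCB (caps (k + 2) w 0 0 gs).toFinset ∧ ∀ x ∈ caps (k + 2) w 0 0 gs, ∃ i j : ℕ, i < j ∧ j ≤ q.length ∧
      lev q i = 3 * x.1 ∧ lev q j = 3 * x.1 ∧ (2 : ℤ) ^ (k + 2) ∣ x.1 ∧ x.2 = (lat q i / w, lat q j / w) := by
  obtain ⟨n, hn⟩ := hev
  have hlen : 0 + (unf gs).length ≤ q.length + 1 := by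
    rw [hqs, List.length_append, List.length_dropLast]
    omega
  have hvx : ∀ j, j ≤ (unf gs).length → vx oo up q j = vx oo up (unf gs) j := by
    intro j hj
    rcases Nat.eq_zero_or_pos (unf gs).length with h0 | h0
    · have : j = 0 := by omega
      rw [this]
      rfl
    · have hne : unf gs ≠ [] := List.length_pos_iff.1 h0
      have h1 := vx_append (v0 := oo) (d0 := up) (t := (unf gs).dropLast) (s := r) (i := j)
        (by rw [List.length_dropLast]; omega)
      have h2 := vx_append (v0 := oo) (d0 := up) (t := (unf gs).dropLast) (s := [(unf gs).getLast hne]) (i := j)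
        (by rw [List.length_dropLast]; omega)
      rw [List.dropLast_append_getLast hne] at h2
      rw [hqs, h1, h2]
  obtain ⟨idx, i1, i2, i3⟩ := caps_idx (k := k) (w := w) q n gs 0 0 0 (by omega) hgs hlen (by
    intro j hj
    unfold lat lev
    rw [zero_add, hvx j hj]
    constructor <;> ring)
  have hw0 : (0 : ℤ) < w := by exact_mod_cast hw
  rw [← i1]
  have hsaw : ∀ i j, i < j → j ≤ q.length → vx oo up q i ≠ vx oo up q j := hq.inj
  constructor
  · -- non-crossing
    have hpair : ∀ p ∈ idx, ∀ p' ∈ idx, p.2.2 = p'.2.2 →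
        ¬ Inter (lat q p.1, lat q p.2.1) (lat q p'.1, lat q p'.2.1) := by
      intro p hp p' hp' he
      obtain ⟨_, p2, p3, p4, p5, _, p6⟩ := i2 p hp
      obtain ⟨_, q2, q3, q4, q5, _, q6⟩ := i2 p' hp'
      have hcmp : p = p' ∨ p.2.1 < p'.1 ∨ p'.2.1 < p.1 := by
        obtain ⟨a, ha, rfl⟩ := List.getElem_of_mem hp
        obtain ⟨b, hb, rfl⟩ := List.getElem_of_mem hp'
        rw [List.pairwise_iff_getElem] at i3
        rcases lt_trichotomy a b with h | h | h
        · exact Or.inr (Or.inl (i3 a b ha hb h))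
        · left
          subst h
          rfl
        · exact Or.inr (Or.inr (i3 b a hb ha h))
      rcases hcmp with h | h | h
      · rw [h]
        rintro ⟨h1, _, _⟩
        exact lt_irrefl _ h1
      · rw [← he] at q4 q5 q6
        exact (arcs_word p2 h q2 q3 hsaw p4 p5 q4 q5 p6 q6).1
      · rw [he] at p4 p5 p6
        exact (arcs_word q2 h p2 p3 hsaw q4 q5 p4 p5 q6 p6).2
    intro x hx y hy hxy
    rw [List.mem_toFinset, List.mem_map] at hx hy
    obtain ⟨p, hp, rfl⟩ := hx
    obtain ⟨p', hp', rfl⟩ := hy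
    simp only at hxy ⊢
    intro hI
    apply hpair p hp p' hp' hxy
    unfold Inter at hI ⊢
    simp only [div_min _ _ _ hw0, div_max _ _ _ hw0] at hI ⊢
    obtain ⟨b1, b2, b3⟩ := hI
    refine ⟨?_, ?_, ?_⟩
    · by_contra hc
      exact absurd (Int.ediv_le_ediv hw0 (not_lt.1 hc)) (not_le.2 b1)
    · by_contra hc
      exact absurd (Int.ediv_le_ediv hw0 (not_lt.1 hc)) (not_le.2 b2)
    · by_contra hc
      exact absurd (Int.ediv_le_ediv hw0 (not_lt.1 hc)) (not_le.2 b3)
  · intro x hx
    rw [List.mem_map] at hx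
    obtain ⟨p, hp, rfl⟩ := hx
    obtain ⟨_, p2, p3, p4, p5, p6, _⟩ := i2 p hp
    exact ⟨p.1, p.2.1, p2, p3, p4, p5, p6, rfl⟩

end B4

end SDN

end HexObs
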