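import Pool.Agent.SDN.Defs

/-!
SDN, module Hyst: existence of the folds with hysteresis (helper88). First time the range reaches R, then follow the
running extremum (last one) until the drawdown reaches R.
-/

set_option autoImplicit false

namespace HexObs

namespace SDN

open Finset

variable {f : ℕ → ℤ} {n : ℕ} {R : ℤ} {m u : ℕ} {e : ℕ → ℕ}

/-- the folds are ordered. -/
lemma Hyst.mono (h : Hyst f n R m u e) {i j : ℕ} (hij : i ≤ j) (hj : j ≤ m) : e i ≤ e j := by
  induction j, hij using Nat.le_induction with
  | base => exact le_refl _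
  | succ j hij ih => exact le_trans (ih (by omega)) (le_of_lt (h.lt j (by omega)))

lemma Crs.last_min (g : ℕ → ℤ) (n : ℕ) : ∃ a, a ≤ n ∧ (∀ i, i ≤ n → g a ≤ g i) ∧ ∀ i, a < i → i ≤ n → g a < g i := by
  induction n with
  | zero => exact ⟨0, le_refl _, fun i hi => by rw [Nat.le_zero.1 hi], fun i h1 h2 => by omega⟩
  | succ n ih =>
    obtain ⟨a, h1, h2, h3⟩ := ih
    by_cases h : g (n + 1) ≤ g a
    · refine ⟨n + 1, le_refl _, fun i hi => ?_, fun i h4 h5 => by omega⟩
      rcases Nat.lt_or_ge i (n + 1) with h4 | h4
      · exact le_trans h (h2 i (by omega))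
      · have h5 : i = n + 1 := by omega
        rw [h5]
    · refine ⟨a, by omega, fun i hi => ?_, fun i h4 h5 => ?_⟩
      · rcases Nat.lt_or_ge i (n + 1) with h4 | h4
        · exact h2 i (by omega)
        · have h5 : i = n + 1 := by omega
          rw [h5]
          omega
      · rcases Nat.lt_or_ge i (n + 1) with h6 | h6
        · exact h3 i h4 (by omega)
        · have h7 : i = n + 1 := by omega
          rw [h7]
          omega

/-- the state of the construction after a fold -/
def Crs.Ready (f : ℕ → ℤ) (n : ℕ) (R : ℤ) : Prop :=
  ∃ m u e, Hyst f n R (m + 1) u e ∧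
    ∀ i, e (m + 1) < i → i ≤ n → Tight.sg (u + m) (f i) < Tight.sg (u + m) (f (e (m + 1)))

lemma Crs.sg_range {k : ℕ} {a b : ℤ} (h1 : a - b < R) (h2 : b - a < R) : Tight.sg k a - Tight.sg k b < R := by
  by_cases h : Even k
  · rw [Tight.sg_even h, Tight.sg_even h]
    omega
  · rw [Tight.sg_odd h, Tight.sg_odd h]
    omega

lemma Crs.range_sg {k : ℕ} {a b : ℤ} (h1 : Tight.sg k a - Tight.sg k b < R) (h2 : Tight.sg k b - Tight.sg k a < R) :
    a - b < R := by
  by_cases h : Even k
  · rw [Tight.sg_even h, Tight.sg_even h] at h2
    omega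
  · rw [Tight.sg_odd h, Tight.sg_odd h] at h1
    omega

/-- the first fold -/
lemma Crs.ready_first (hR : 1 ≤ R) (hA : ∀ i i', i ≤ n → i' ≤ n → f i - f i' < R) {u i₀ : ℕ} (hi₀ : i₀ ≤ n)
    (h : R ≤ Tight.sg u (f (n + 1)) - Tight.sg u (f i₀)) : Crs.Ready f (n + 1) R := by
  obtain ⟨a, ha1, ha2, ha3⟩ := Crs.last_min (fun i => Tight.sg u (f i)) n
  have hA' : ∀ i i', i ≤ n → i' ≤ n → Tight.sg u (f i) - Tight.sg u (f i') < R := fun i i' h1 h2 =>
    Crs.sg_range (hA i i' h1 h2) (hA i' i h2 h1)
  have htop : Tight.sg u (f a) + R ≤ Tight.sg u (f (n + 1)) := by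
    have h1 : Tight.sg u (f a) ≤ Tight.sg u (f i₀) := ha2 i₀ hi₀
    omega
  refine ⟨0, u, fun j => if j = 0 then a else n + 1, ⟨?_, ?_, ?_, ?_, ?_, ?_, ?_, ?_⟩, ?_⟩
  · intro j hj
    have h1 : j = 0 := by omega
    subst h1
    show a < n + 1
    omega
  · exact le_refl _
  · intro j hj i h1 h2
    have h3 : j = 0 := by omega
    subst h3
    have h1' : a < i := h1
    have h2' : i ≤ n + 1 := h2
    show Tight.sg (u + 0) (f a) < Tight.sg (u + 0) (f i)
    rcases Nat.lt_or_ge i (n + 1) with h4 | h4
    · exact ha3 i h1' (by omega)
    · have h5 : i = n + 1 := by omega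
      rw [h5]
      show Tight.sg u (f a) < Tight.sg u (f (n + 1))
      omega
  · intro j hj i h1 h2
    have h3 : j = 0 := by omega
    subst h3
    have h1' : a ≤ i := h1
    have h2' : i ≤ n + 1 := h2
    show Tight.sg u (f i) ≤ Tight.sg u (f (n + 1))
    rcases Nat.lt_or_ge i (n + 1) with h4 | h4
    · have h5 := hA' i a (by omega) ha1
      omega
    · have h5 : i = n + 1 := by omega
      rw [h5]
  · intro j hj
    have h3 : j = 0 := by omega
    subst h3
    show R ≤ Tight.sg u (f (n + 1)) - Tight.sg u (f a)
    omega
  · intro j hj i i' h1 h2 h4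
    have h3 : j = 0 := by omega
    subst h3
    have h4' : i' ≤ n + 1 := h4
    show Tight.sg u (f i) - Tight.sg u (f i') < R
    rcases Nat.lt_or_ge i' (n + 1) with h5 | h5
    · exact hA' i i' (by omega) (by omega)
    · have h6 : i' = n + 1 := by omega
      rw [h6]
      rcases Nat.lt_or_ge i (n + 1) with h7 | h7
      · have h1' : a ≤ i := h1
        have h8 := hA' i a (by omega) ha1
        omega
      · have h8 : i = n + 1 := by omega
        rw [h8]
        omega
  · intro i i' h1 h2
    have h1' : i ≤ a := h1
    have h2' : i' ≤ a := h2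
    exact hA i i' (by omega) (by omega)
  · intro i i' h1 h2 h3 h4
    have h1' : n + 1 ≤ i := h1
    have h3' : n + 1 ≤ i' := h3
    have h5 : i = n + 1 := by omega
    have h6 : i' = n + 1 := by omega
    rw [h5, h6]
    omega
  · intro i h1 h2
    have h1' : n + 1 < i := h1
    omega

/-- the next step -/
lemma Crs.ready_step (hR : 1 ≤ R) (h : Crs.Ready f n R) : Crs.Ready f (n + 1) R := by
  obtain ⟨m, u, e, hy, hl⟩ := h
  have hyr : ∀ i i', e (m + 1) ≤ i → i ≤ n → e (m + 1) ≤ i' → i' ≤ n →
      Tight.sg (u + m) (f i) - Tight.sg (u + m) (f i') < R := fun i i' h1 h2 h3 h4 =>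
    Crs.sg_range (hy.fin i i' h1 h2 h3 h4) (hy.fin i' i h3 h4 h1 h2)
  have hle := hy.le
  have hmono : ∀ j, j ≤ m → e j ≤ e m := fun j hj => hy.mono hj (by omega)
  have hem := hy.lt m (by omega)
  have hle2 : ∀ i, e (m + 1) ≤ i → i ≤ n → Tight.sg (u + m) (f i) ≤ Tight.sg (u + m) (f (e (m + 1))) := by
    intro i h1 h2
    rcases Nat.lt_or_ge (e (m + 1)) i with h3 | h3
    · exact le_of_lt (hl i h3 h2)
    · have h4 : i = e (m + 1) := by omega
      rw [h4]
  have hbig := hy.big m (by omega)
  have hsmall := hy.small m (by omega)
  by_cases h1 : Tight.sg (u + m) (f (e (m + 1))) ≤ Tight.sg (u + m) (f (n + 1))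
  · -- the last piece is prolonged
    have hE : ∀ j, j ≤ m → Function.update e (m + 1) (n + 1) j = e j := fun j hj =>
      Function.update_of_ne (by omega) _ _
    have hE' : Function.update e (m + 1) (n + 1) (m + 1) = n + 1 := Function.update_self _ _ _
    refine ⟨m, u, Function.update e (m + 1) (n + 1), ⟨?_, ?_, ?_, ?_, ?_, ?_, ?_, ?_⟩, ?_⟩
    · intro j hj
      rcases Nat.lt_or_ge j m with h2 | h2
      · rw [hE j (by omega), hE (j + 1) (by omega)]
        exact hy.lt j (by omega)
      · have h3 : j = m := by omega
        rw [h3, hE m (le_refl _), hE']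
        omega
    · rw [hE']
    · intro j hj i h2 h3
      rcases Nat.lt_or_ge j m with h4 | h4
      · rw [hE j (by omega)] at h2 ⊢
        rw [hE (j + 1) (by omega)] at h3
        exact hy.lo j (by omega) i h2 h3
      · have h5 : j = m := by omega
        subst h5
        rw [hE j (le_refl _)] at h2 ⊢
        rw [hE'] at h3
        rcases Nat.lt_or_ge (e (j + 1)) i with h6 | h6
        · rcases Nat.lt_or_ge i (n + 1) with h7 | h7
          · have h8 := hyr (e (j + 1)) i (le_refl _) hle (by omega) (by omega)
            omega
          · have h8 : i = n + 1 := by omega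
            rw [h8]
            omega
        · exact hy.lo j (by omega) i h2 h6
    · intro j hj i h2 h3
      rcases Nat.lt_or_ge j m with h4 | h4
      · rw [hE j (by omega)] at h2
        rw [hE (j + 1) (by omega)] at h3 ⊢
        exact hy.hi j (by omega) i h2 h3
      · have h5 : j = m := by omega
        subst h5
        rw [hE j (le_refl _)] at h2
        rw [hE'] at h3 ⊢
        rcases Nat.lt_or_ge (e (j + 1)) i with h6 | h6
        · rcases Nat.lt_or_ge i (n + 1) with h7 | h7
          · exact le_trans (hle2 i (by omega) (by omega)) h1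
          · have h8 : i = n + 1 := by omega
            rw [h8]
        · exact le_trans (hy.hi j (by omega) i h2 h6) h1
    · intro j hj
      rcases Nat.lt_or_ge j m with h4 | h4
      · rw [hE j (by omega), hE (j + 1) (by omega)]
        exact hy.big j (by omega)
      · have h5 : j = m := by omega
        subst h5
        rw [hE j (le_refl _), hE']
        omega
    · intro j hj i i' h2 h3 h4
      rcases Nat.lt_or_ge j m with h5 | h5
      · rw [hE j (by omega)] at h2
        rw [hE (j + 1) (by omega)] at h4
        exact hy.small j (by omega) i i' h2 h3 h4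
      · have h6 : j = m := by omega
        subst h6
        rw [hE j (le_refl _)] at h2
        rw [hE'] at h4
        have htop : ∀ i, e j ≤ i → i ≤ n → Tight.sg (u + j) (f i) ≤ Tight.sg (u + j) (f (e (j + 1))) := by
          intro i h7 h8
          rcases Nat.lt_or_ge (e (j + 1)) i with h9 | h9
          · exact hle2 i (by omega) h8
          · exact hy.hi j (by omega) i h7 h9
        rcases Nat.lt_or_ge i' (n + 1) with h7 | h7
        · rcases Nat.lt_or_ge (e (j + 1)) i' with h8 | h8
          · have h9 := htop i h2 (by omega)
            have h10 := hyr (e (j + 1)) i' (le_refl _) hle (by omega) (by omega)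
            omega
          · exact hsmall i i' h2 h3 h8
        · have h8 : i' = n + 1 := by omega
          rw [h8]
          rcases Nat.lt_or_ge i (n + 1) with h9 | h9
          · have h10 := htop i h2 (by omega)
            omega
          · have h10 : i = n + 1 := by omega
            rw [h10]
            omega
    · intro i i' h2 h3
      rw [hE 0 (by omega)] at h2 h3
      exact hy.start i i' h2 h3
    · intro i i' h2 h3 h4 h5
      rw [hE'] at h2 h4
      have h6 : i = n + 1 := by omega
      have h7 : i' = n + 1 := by omega
      rw [h6, h7]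
      omega
    · intro i h2 h3
      rw [hE'] at h2
      omega
  · by_cases h2 : Tight.sg (u + m) (f (n + 1)) ≤ Tight.sg (u + m) (f (e (m + 1))) - R
    · -- a new fold
      have hE : ∀ j, j ≤ m + 1 → Function.update e (m + 2) (n + 1) j = e j := fun j hj =>
        Function.update_of_ne (by omega) _ _
      have hE' : Function.update e (m + 2) (n + 1) (m + 2) = n + 1 := Function.update_self _ _ _
      have hs : ∀ x, Tight.sg (u + (m + 1)) x = -Tight.sg (u + m) x := fun x => Tight.sg_succ (u + m) x
      refine ⟨m + 1, u, Function.update e (m + 2) (n + 1), ⟨?_, ?_, ?_, ?_, ?_, ?_, ?_, ?_⟩, ?_⟩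
      · intro j hj
        rcases Nat.lt_or_ge j (m + 1) with h3 | h3
        · rw [hE j (by omega), hE (j + 1) (by omega)]
          exact hy.lt j (by omega)
        · have h4 : j = m + 1 := by omega
          rw [h4, hE (m + 1) (le_refl _), hE']
          omega
      · rw [hE']
      · intro j hj i h3 h4
        rcases Nat.lt_or_ge j (m + 1) with h5 | h5
        · rw [hE j (by omega)] at h3 ⊢
          rw [hE (j + 1) (by omega)] at h4
          exact hy.lo j (by omega) i h3 h4
        · have h6 : j = m + 1 := by omega
          subst h6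
          rw [hE (m + 1) (le_refl _)] at h3 ⊢
          rw [hE'] at h4
          rw [hs, hs]
          rcases Nat.lt_or_ge i (n + 1) with h7 | h7
          · have h8 := hl i h3 (by omega)
            omega
          · have h8 : i = n + 1 := by omega
            rw [h8]
            omega
      · intro j hj i h3 h4
        rcases Nat.lt_or_ge j (m + 1) with h5 | h5
        · rw [hE j (by omega)] at h3
          rw [hE (j + 1) (by omega)] at h4 ⊢
          exact hy.hi j (by omega) i h3 h4
        · have h6 : j = m + 1 := by omega
          subst h6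
          rw [hE (m + 1) (le_refl _)] at h3
          rw [hE'] at h4 ⊢
          rw [hs, hs]
          rcases Nat.lt_or_ge i (n + 1) with h7 | h7
          · have h8 := hyr (e (m + 1)) i (le_refl _) hle h3 (by omega)
            omega
          · have h8 : i = n + 1 := by omega
            rw [h8]
      · intro j hj
        rcases Nat.lt_or_ge j (m + 1) with h5 | h5
        · rw [hE j (by omega), hE (j + 1) (by omega)]
          exact hy.big j (by omega)
        · have h6 : j = m + 1 := by omega
          subst h6
          rw [hE (m + 1) (le_refl _), hE', hs, hs]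
          omega
      · intro j hj i i' h3 h4 h5
        rcases Nat.lt_or_ge j (m + 1) with h6 | h6
        · rw [hE j (by omega)] at h3
          rw [hE (j + 1) (by omega)] at h5
          exact hy.small j (by omega) i i' h3 h4 h5
        · have h7 : j = m + 1 := by omega
          subst h7
          rw [hE (m + 1) (le_refl _)] at h3
          rw [hE'] at h5
          rw [hs, hs]
          rcases Nat.lt_or_ge i' (n + 1) with h7 | h7
          · have h8 := hyr i' i (by omega) (by omega) h3 (by omega)
            omega
          · have h8 : i' = n + 1 := by omega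
            rw [h8]
            rcases Nat.lt_or_ge i (n + 1) with h9 | h9
            · have h10 := hyr (e (m + 1)) i (le_refl _) hle h3 (by omega)
              omega
            · have h10 : i = n + 1 := by omega
              rw [h10]
              omega
      · intro i i' h3 h4
        rw [hE 0 (by omega)] at h3 h4
        exact hy.start i i' h3 h4
      · intro i i' h3 h4 h5 h6
        rw [hE'] at h3 h5
        have h7 : i = n + 1 := by omega
        have h8 : i' = n + 1 := by omega
        rw [h7, h8]
        omega
      · intro i h3 h4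
        rw [hE'] at h3
        omega
    · -- no change
      have hr : ∀ i, e (m + 1) ≤ i → i ≤ n → f i - f (n + 1) < R ∧ f (n + 1) - f i < R := by
        intro i h3 h4
        have h5 := hle2 i h3 h4
        have h6 := hyr (e (m + 1)) i (le_refl _) hle h3 h4
        exact ⟨Crs.range_sg (k := u + m) (by omega) (by omega), Crs.range_sg (k := u + m) (by omega) (by omega)⟩
      refine ⟨m, u, e, ⟨hy.lt, by omega, hy.lo, hy.hi, hy.big, hy.small, hy.start, ?_⟩, ?_⟩
      · intro i i' h3 h4 h5 h6
        rcases Nat.lt_or_ge i (n + 1) with h7 | h7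
        · rcases Nat.lt_or_ge i' (n + 1) with h8 | h8
          · exact hy.fin i i' h3 (by omega) h5 (by omega)
          · have h9 : i' = n + 1 := by omega
            rw [h9]
            exact (hr i h3 (by omega)).1
        · have h9 : i = n + 1 := by omega
          rw [h9]
          rcases Nat.lt_or_ge i' (n + 1) with h8 | h8
          · exact (hr i' h5 (by omega)).2
          · have h10 : i' = n + 1 := by omega
            rw [h10]
            omega
      · intro i h3 h4
        rcases Nat.lt_or_ge i (n + 1) with h7 | h7
        · exact hl i h3 (by omega)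
        · have h9 : i = n + 1 := by omega
          rw [h9]
          omega

/-- EXISTENCE of the folds. -/
theorem hyst_exists (f : ℕ → ℤ) (n : ℕ) {R : ℤ} (hR : 1 ≤ R) : ∃ (m u : ℕ) (e : ℕ → ℕ), Hyst f n R m u e := by
  have key : (∀ i i', i ≤ n → i' ≤ n → f i - f i' < R) ∨ Crs.Ready f n R := by
    induction n with
    | zero =>
      left
      intro i i' h1 h2
      rw [Nat.le_zero.1 h1, Nat.le_zero.1 h2]
      omega
    | succ n ih =>
      rcases ih with hA | hB
      · by_cases h1 : ∃ i, i ≤ n ∧ R ≤ f (n + 1) - f i
        · right
          obtain ⟨i, h2, h3⟩ := h1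
          exact Crs.ready_first hR hA (u := 1) h2 (by rw [Tight.sg_one, Tight.sg_one]; exact h3)
        · by_cases h2 : ∃ i, i ≤ n ∧ R ≤ f i - f (n + 1)
          · right
            obtain ⟨i, h3, h4⟩ := h2
            exact Crs.ready_first hR hA (u := 0) h3 (by rw [Tight.sg_zero, Tight.sg_zero]; omega)
          · left
            intro i i' h3 h4
            rcases Nat.lt_or_ge i (n + 1) with h5 | h5
            · rcases Nat.lt_or_ge i' (n + 1) with h6 | h6
              · exact hA i i' (by omega) (by omega)
              · have h7 : i' = n + 1 := by omega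
                rw [h7]
                by_contra h8
                exact h2 ⟨i, by omega, by omega⟩
            · have h7 : i = n + 1 := by omega
              rw [h7]
              rcases Nat.lt_or_ge i' (n + 1) with h6 | h6
              · by_contra h8
                exact h1 ⟨i', by omega, by omega⟩
              · have h8 : i' = n + 1 := by omega
                rw [h8]
                omega
      · exact Or.inr (Crs.ready_step hR hB)
  rcases key with hA | ⟨m, u, e, hy, -⟩
  · refine ⟨0, 0, fun _ => 0, ⟨fun j hj => by omega, Nat.zero_le _, fun j hj => by omega, fun j hj => by omega,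
      fun j hj => by omega, fun j hj => by omega, ?_, ?_⟩⟩
    · intro i i' h1 h2
      exact hA i i' (le_trans h1 (Nat.zero_le _)) (le_trans h2 (Nat.zero_le _))
    · intro i i' _ h1 _ h2
      exact hA i i' h1 h2
  · exact ⟨m + 1, u, e, hy⟩

/-- every word has folds. -/
theorem lf_exists (dir : Bool) (b : ℕ) (t : List Bool) : ∃ (m u : ℕ) (e : ℕ → ℕ), Lf dir b t m u e := by
  apply hyst_exists
  have h1 : (1 : ℤ) ≤ 2 ^ b := by exact_mod_cast Nat.one_le_two_pow
  unfold RR
  omega

end SDN

end HexObs
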