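import Pool.Agent.SDN.Coarse
import Pool.Agent.SDN.Hyst

/-!
SDN, module CoarseW: the numbers of crossings of the slabs by a word and its leaves (helper88).
-/

set_option autoImplicit false

namespace HexObs

namespace SDN

open Finset

namespace Crs

variable {f : ℕ → ℤ} {n : ℕ} {R : ℤ} {m u : ℕ} {e : ℕ → ℕ}

lemma ip_le_two : ∀ d ∈ dirs, ∀ h ∈ dirs, |ip d h| ≤ 2 := by
  decide

lemma hd_mem (dir : Bool) : hd dir ∈ dirs := by
  revert dir
  decide

lemma lvl_add (dir : Bool) (v d : Pt) : lvl dir (v + d) = lvl dir v + lvl dir d := by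
  unfold lvl ip
  rw [Prod.fst_add, Prod.snd_add]
  ring

/-- the rows of a word: steps of size at most one. -/
lemma stp_rws (dir : Bool) (t : List Bool) : Stp (rws dir t) := by
  refine ⟨?_, fun i => ?_⟩
  · have h1 : rws dir t 0 = row dir oo := rfl
    have h2 : ∀ dir, row dir oo = 0 := by decide
    rw [h1, h2]
  · have h1 : lvl dir (vx oo up t (i + 1)) = lvl dir (vx oo up t i) + lvl dir (dx up t i) := by
      rw [vx_succ, lvl_add]
    have h2 : |lvl dir (dx up t i)| ≤ 2 := ip_le_two _ (dx_mem (by decide) t i) _ (hd_mem dir)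
    unfold rws row
    rw [h1]
    rw [abs_le] at h2 ⊢
    constructor <;> omega

/-- from levels to rows. -/
lemma row_lt {a b r : ℤ} (h : a - b < 3 * r - 2) : a / 3 - b / 3 < r := by omega

lemma row_ge {a b r : ℤ} (h : 3 * r - 2 ≤ a - b) : r - 1 ≤ a / 3 - b / 3 := by omega

/-- the cutting of the time axis: start, the pieces, end. -/
def cut (e : ℕ → ℕ) (n m : ℕ) (i : ℕ) : ℕ := if i = 0 then 0 else if i ≤ m + 1 then e (i - 1) else n

/-- the pieces have no backtracks. -/
lemma hyst_mon (h : Hyst f n (3 * R - 2) m u e) :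
    ∀ j < m + 2, Mon R (fun i => f i / 3) (cut e n m j) (cut e n m (j + 1)) := by
  intro j hj
  rcases Nat.eq_zero_or_pos j with rfl | hj0
  · left
    intro s t _ hst ht
    have e1 : cut e n m (0 + 1) = e 0 := by
      unfold cut
      rw [if_neg (by omega), if_pos (by omega)]
    rw [e1] at ht
    have h1 := row_lt (h.start s t (by omega) ht)
    show f s / 3 - R < f t / 3
    omega
  · rcases Nat.lt_or_ge j (m + 1) with hj1 | hj1
    · obtain ⟨j', rfl⟩ : ∃ j', j = j' + 1 := ⟨j - 1, by omega⟩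
      have e1 : cut e n m (j' + 1) = e j' := by
        unfold cut
        rw [if_neg (by omega), if_pos (by omega)]
        rfl
      have e2 : cut e n m (j' + 1 + 1) = e (j' + 1) := by
        unfold cut
        rw [if_neg (by omega), if_pos (by omega)]
        rfl
      rw [e1, e2]
      by_cases hs : Even (u + j')
      · right
        intro s t h1 h2 h3
        have h4 := h.small j' (by omega) s t h1 h2 h3
        rw [Tight.sg_even hs, Tight.sg_even hs] at h4
        have h5 := row_lt (a := f t) (b := f s) (r := R) (by omega)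
        show f t / 3 < f s / 3 + R
        omega
      · left
        intro s t h1 h2 h3
        have h4 := h.small j' (by omega) s t h1 h2 h3
        rw [Tight.sg_odd hs, Tight.sg_odd hs] at h4
        have h5 := row_lt (a := f s) (b := f t) (r := R) (by omega)
        show f s / 3 - R < f t / 3
        omega
    · have hj2 : j = m + 1 := by omega
      subst hj2
      have e1 : cut e n m (m + 1) = e m := by
        unfold cut
        rw [if_neg (by omega), if_pos (le_refl _)]
        rfl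
      have e2 : cut e n m (m + 1 + 1) = n := by
        unfold cut
        rw [if_neg (by omega), if_neg (by omega)]
      rw [e1, e2]
      left
      intro s t h1 h2 h3
      have h4 := row_lt (h.fin s t h1 (by omega) (by omega) h3)
      show f s / 3 - R < f t / 3
      omega

/-- (D1): two scales; `w` is the sequence of the rows. -/
theorem hyst_XX_step (h : Hyst f n (3 * R - 2) m u e) (hR : 1 ≤ R) (hw : Stp (fun i => f i / 3)) :
    XX R (fun i => f i / 3) n ≤ 2 * XX (2 * R) (fun i => f i / 3) n + 2 * (m + 2) + 1 := by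
  apply XX_step hR hw (e := cut e n m)
  · unfold cut
    rw [if_pos rfl]
  · unfold cut
    rw [if_neg (by omega), if_neg (by omega)]
  · exact hyst_mon h

/-- (D2): the number of the tall pieces. -/
theorem tall_le (h : Hyst f n R m u e) (hw : Stp (fun i => f i / 3)) {r : ℤ} (hr : 1 ≤ r) :
    ((range m).filter (fun j => 3 * (2 * r) - 2 ≤ |f (e (j + 1)) - f (e j)|)).card ≤
      XX r (fun i => f i / 3) n := by
  apply disj_le hr hw _ (fun j => e j) (fun j => e (j + 1)) n
  · intro j hj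
    rw [Finset.mem_filter, Finset.mem_range] at hj
    exact ⟨le_of_lt (h.lt j hj.1), le_trans (h.mono (by omega) (le_refl m)) h.le⟩
  · intro j hj
    rw [Finset.mem_filter, Finset.mem_range] at hj
    show 2 * r - 1 ≤ |f (e (j + 1)) / 3 - f (e j) / 3|
    rcases abs_cases (f (e (j + 1)) - f (e j)) with h1 | h1
    · have h2 := row_ge (a := f (e (j + 1))) (b := f (e j)) (r := 2 * r) (by omega)
      exact le_trans h2 (le_abs_self _)
    · have h2 := row_ge (a := f (e j)) (b := f (e (j + 1))) (r := 2 * r) (by omega)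
      rw [abs_sub_comm]
      exact le_trans h2 (le_abs_self _)
  · intro i hi j hj hij
    rw [Finset.mem_filter, Finset.mem_range] at hi hj
    rcases lt_or_gt_of_ne hij with h1 | h1
    · exact Or.inl (h.mono (by omega) (by omega))
    · exact Or.inr (h.mono (by omega) (by omega))

/-! ### words -/

lemma rws_eq (dir : Bool) (t : List Bool) : rws dir t = fun i => lvl dir (vx oo up t i) / 3 := rfl

lemma one_le_two_pow_int (b : ℕ) : (1 : ℤ) ≤ 2 ^ b := by exact_mod_cast Nat.one_le_two_pow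

/-- (D1) for words: two scales. -/
theorem XX_word_step {dir : Bool} {b : ℕ} {t : List Bool} {m u : ℕ} {e : ℕ → ℕ} (h : Lf dir b t m u e) :
    XX (2 ^ b) (rws dir t) t.length ≤ 2 * XX (2 ^ (b + 1)) (rws dir t) t.length + 2 * (m + 2) + 1 := by
  have h1 : Hyst (fun i => lvl dir (vx oo up t i)) t.length (3 * 2 ^ b - 2) m u e := h
  have h2 := hyst_XX_step h1 (one_le_two_pow_int b) (stp_rws dir t)
  have h3 : (2 : ℤ) * 2 ^ b = 2 ^ (b + 1) := by rw [pow_succ]; ring
  rw [h3] at h2
  exact h2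

/-- (D1) for words: all scales. -/
theorem XX_word {dir : Bool} {L b : ℕ} (hb : b ≤ L + 1) {t : List Bool} (ht : t ∈ WL L) {m u : ℕ → ℕ}
    {e : ℕ → ℕ → ℕ} (h : ∀ i, b ≤ i → i ≤ L → Lf dir i t (m i) (u i) (e i)) :
    XX (2 ^ b) (rws dir t) t.length ≤ 2 * ∑ i ∈ range (L + 1 - b), 2 ^ i * m (b + i) + 5 * 2 ^ (L + 1 - b) := by
  have h1 := XX_sum (r := 2 ^ b) (w := rws dir t) (n := t.length) (L + 1 - b) (fun i => m (b + i) + 2) (by
    intro i hi
    have h2 := XX_word_step (h (b + i) (by omega) (by omega))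
    have h3 : (2 : ℤ) ^ i * 2 ^ b = 2 ^ (b + i) := by rw [← pow_add, add_comm]
    have h4 : (2 : ℤ) ^ (i + 1) * 2 ^ b = 2 ^ (b + i + 1) := by
      rw [← pow_add]
      congr 1
      omega
    rw [h3, h4]
    exact h2)
  have h2 : XX (2 ^ (L + 1 - b) * 2 ^ b) (rws dir t) t.length = 0 := by
    have h3 : (2 : ℤ) ^ (L + 1 - b) * 2 ^ b = 2 ^ (L + 1) := by
      rw [← pow_add]
      congr 1
      omega
    rw [h3]
    apply XX_zero (one_le_two_pow_int _)
    intro i hi
    have h4 := ht.2 i hi dir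
    have h5 : (2 : ℤ) ^ L < 2 ^ (L + 1) := pow_lt_pow_right₀ (by norm_num) (by omega)
    exact lt_of_le_of_lt h4 h5
  rw [h2] at h1
  have h3 : ∑ i ∈ range (L + 1 - b), 2 ^ i * (m (b + i) + 2) =
      ∑ i ∈ range (L + 1 - b), 2 ^ i * m (b + i) + 2 * ∑ i ∈ range (L + 1 - b), 2 ^ i := by
    rw [Finset.mul_sum, ← Finset.sum_add_distrib]
    apply Finset.sum_congr rfl
    intro i _
    ring
  have h4 : ∑ i ∈ range (L + 1 - b), 2 ^ i + 1 = 2 ^ (L + 1 - b) := by
    have h5 := Nat.geomSum_eq (le_refl 2) (L + 1 - b)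
    rw [h5]
    have h6 : 1 ≤ 2 ^ (L + 1 - b) := Nat.one_le_two_pow
    have h7 : (2 : ℕ) - 1 = 1 := rfl
    rw [h7, Nat.div_one]
    omega
  rw [h3] at h1
  omega

/-- number of doublings. -/
lemma sum_log_le (H : ℕ → ℕ) (m c K : ℕ) (hK : ∀ j < m, H j < 2 ^ (c + K + 1)) :
    ∑ j ∈ range m, Nat.log 2 (H j / 2 ^ c) ≤
      ∑ i ∈ range K, ((range m).filter (fun j => 2 ^ (c + i + 1) ≤ H j)).card := by
  have h1 : ∀ i, ((range m).filter (fun j => 2 ^ (c + i + 1) ≤ H j)).card =
      ∑ j ∈ range m, if 2 ^ (c + i + 1) ≤ H j then 1 else 0 := by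
    intro i
    rw [Finset.card_filter]
  simp only [h1]
  rw [Finset.sum_comm]
  apply Finset.sum_le_sum
  intro j hj
  rw [Finset.mem_range] at hj
  rw [← Finset.card_filter]
  have h2 : (range (Nat.log 2 (H j / 2 ^ c))).card ≤
      ((range K).filter (fun i => 2 ^ (c + i + 1) ≤ H j)).card := by
    apply Finset.card_le_card
    intro i hi
    rw [Finset.mem_range] at hi
    rw [Finset.mem_filter, Finset.mem_range]
    have h3 : H j / 2 ^ c ≠ 0 := by
      intro h4
      rw [h4, Nat.log_zero_right] at hi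
      omega
    have h4 : 2 ^ (i + 1) ≤ H j / 2 ^ c := by
      calc 2 ^ (i + 1) ≤ 2 ^ (Nat.log 2 (H j / 2 ^ c)) := Nat.pow_le_pow_right (by omega) (by omega)
        _ ≤ H j / 2 ^ c := Nat.pow_log_le_self 2 h3
    have h5 : 2 ^ (c + i + 1) ≤ H j := by
      have h6 := (Nat.le_div_iff_mul_le (by positivity)).1 h4
      calc 2 ^ (c + i + 1) = 2 ^ (i + 1) * 2 ^ c := by rw [← pow_add]; congr 1; omega
        _ ≤ H j := h6
    refine ⟨?_, h5⟩
    by_contra h6
    have h7 := hK j hj
    have h8 : 2 ^ (c + K + 1) ≤ 2 ^ (c + i + 1) := Nat.pow_le_pow_right (by omega) (by omega)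
    omega
  rw [Finset.card_range] at h2
  exact h2

/-- (D2): the total number of doublings of the heights above `2 ^ c`, of which the first `s` are counted trivially. -/
theorem log_le (h : Hyst f n R m u e) (hw : Stp (fun i => f i / 3)) (H : ℕ → ℕ)
    (hH : ∀ j < m, 3 * (H j : ℤ) - 2 ≤ |f (e (j + 1)) - f (e j)|) (c s K : ℕ) (hsK : s ≤ K)
    (hK : ∀ j < m, H j < 2 ^ (c + K + 1)) :
    ∑ j ∈ range m, Nat.log 2 (H j / 2 ^ c) ≤
      s * m + ∑ i ∈ Finset.Ico s K, XX (2 ^ (c + i)) (fun i => f i / 3) n := by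
  refine le_trans (sum_log_le H m c K hK) ?_
  rw [← Finset.sum_range_add_sum_Ico _ hsK]
  apply Nat.add_le_add
  · calc ∑ i ∈ range s, ((range m).filter (fun j => 2 ^ (c + i + 1) ≤ H j)).card
        ≤ ∑ i ∈ range s, m := Finset.sum_le_sum (fun i _ => by
          refine le_trans (Finset.card_filter_le _ _) ?_
          rw [Finset.card_range])
      _ = s * m := by rw [Finset.sum_const, Finset.card_range, smul_eq_mul]
  · apply Finset.sum_le_sum
    intro i _
    refine le_trans ?_ (tall_le h hw (one_le_two_pow_int (c + i)))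
    apply Finset.card_le_card
    intro j hj
    rw [Finset.mem_filter] at hj ⊢
    refine ⟨hj.1, ?_⟩
    have h1 := hH j (Finset.mem_range.1 hj.1)
    have h2 : (2 : ℤ) * 2 ^ (c + i) = ((2 ^ (c + i + 1) : ℕ) : ℤ) := by
      push_cast
      rw [pow_succ]
      ring
    rw [h2]
    have h3 : ((2 ^ (c + i + 1) : ℕ) : ℤ) ≤ (H j : ℤ) := by exact_mod_cast hj.2
    omega

end Crs

lemma rws_zero (dir : Bool) (t : List Bool) : rws dir t 0 = 0 := (Crs.stp_rws dir t).zero

lemma rws_step (dir : Bool) (t : List Bool) (i : ℕ) : |rws dir t (i + 1) - rws dir t i| ≤ 1 :=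
  (Crs.stp_rws dir t).step i

/-- the crossings of the scale b in terms of the numbers of leaves of the scales b + i -/
theorem XX_le {dir : Bool} {b K : ℕ} {t : List Bool} (m : ℕ → ℕ)
    (h : ∀ i, i < K → ∃ u e, Lf dir (b + i) t (m i) u e) :
    XX (2 ^ b) (rws dir t) t.length ≤ 2 * ∑ i ∈ range K, 2 ^ i * (m i + 2) +
      2 ^ K * (XX (2 ^ (b + K)) (rws dir t) t.length + 1) := by
  have h1 := Crs.XX_sum (r := 2 ^ b) (w := rws dir t) (n := t.length) K (fun i => m i + 2) (by
    intro i hi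
    obtain ⟨u, e, hL⟩ := h i hi
    have h2 := Crs.XX_word_step hL
    have h3 : (2 : ℤ) ^ i * 2 ^ b = 2 ^ (b + i) := by rw [← pow_add, add_comm]
    have h4 : (2 : ℤ) ^ (i + 1) * 2 ^ b = 2 ^ (b + i + 1) := by
      rw [← pow_add]
      congr 1
      omega
    rw [h3, h4]
    exact h2)
  have h3 : (2 : ℤ) ^ K * 2 ^ b = 2 ^ (b + K) := by rw [← pow_add, add_comm]
  rw [h3] at h1
  omega

/-- no crossings at the largest scales -/
theorem XX_top {L b : ℕ} {dir : Bool} {t : List Bool} (ht : t ∈ WL L) (hb : L + 1 ≤ b) :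
    XX (2 ^ b) (rws dir t) t.length = 0 := by
  apply Crs.XX_zero (Crs.one_le_two_pow_int _)
  intro i hi
  have h4 := ht.2 i hi dir
  have h5 : (2 : ℤ) ^ L < 2 ^ b := pow_lt_pow_right₀ (by norm_num) (by omega)
  exact lt_of_le_of_lt h4 h5

/-- the levels of a word in the box -/
lemma Crs.lvl_diff {L : ℕ} {dir : Bool} {t : List Bool} (ht : t ∈ WL L) {i j : ℕ} (hi : i ≤ t.length)
    (hj : j ≤ t.length) : |lvl dir (vx oo up t i) - lvl dir (vx oo up t j)| ≤ 3 * 2 ^ (L + 1) + 2 := by
  have h1 := ht.2 i hi dir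
  have h2 := ht.2 j hj dir
  unfold row at h1 h2
  have h3 : (2 : ℤ) ^ (L + 1) = 2 * 2 ^ L := by rw [pow_succ]; ring
  rw [h3]
  rw [abs_le] at h1 h2 ⊢
  generalize (2 : ℤ) ^ L = X at *
  constructor <;> omega

/-- no leaves at the largest scales -/
theorem lf_top {L b : ℕ} {dir : Bool} {t : List Bool} (ht : t ∈ WL L) (hb : L + 2 ≤ b) {m u : ℕ} {e : ℕ → ℕ}
    (h : Lf dir b t m u e) : m = 0 := by
  by_contra hm
  have h1 := h.big 0 (by omega)
  have h2 : Hyst (fun i => lvl dir (vx oo up t i)) t.length (RR b) m u e := h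
  have h3 : e 0 ≤ t.length := le_trans (h2.mono (Nat.zero_le m) (le_refl m)) h2.le
  have h4 : e (0 + 1) ≤ t.length := le_trans (h2.mono (by omega) (le_refl m)) h2.le
  have h5 := Crs.lvl_diff (dir := dir) ht h4 h3
  have h6 : (2 : ℤ) ^ (L + 2) ≤ 2 ^ b := pow_le_pow_right₀ (by norm_num) hb
  have h7 : (2 : ℤ) ^ (L + 2) = 4 * 2 ^ L := by rw [pow_add]; ring
  have h8 : (2 : ℤ) ^ (L + 1) = 2 * 2 ^ L := by rw [pow_succ]; ring
  have h9 := Crs.one_le_two_pow_int L
  have h10 : RR b ≤ |lvl dir (vx oo up t (e (0 + 1))) - lvl dir (vx oo up t (e 0))| := by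
    refine le_trans h1 ?_
    by_cases hs : Even (u + 0)
    · rw [Tight.sg_even hs, Tight.sg_even hs, abs_sub_comm]
      have h11 := le_abs_self (lvl dir (vx oo up t (e 0)) - lvl dir (vx oo up t (e (0 + 1))))
      omega
    · rw [Tight.sg_odd hs, Tight.sg_odd hs]
      exact le_abs_self _
  unfold RR at h10
  omega

/-- the total number of doublings of the heights of the leaves of the scale b -/
theorem dbl_le {L b : ℕ} {dir : Bool} {t : List Bool} (ht : t ∈ WL L) (hb : 1 ≤ b) {m u : ℕ} {e : ℕ → ℕ}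
    (h : Lf dir b t m u e) :
    ∑ j ∈ range m, Nat.log 2 ((((|lvl dir (vx oo up t (e (j + 1))) - lvl dir (vx oo up t (e j))| - 1) / 3).toNat) / 2 ^ (b - 1)) ≤
      2 * m + ∑ i ∈ range (L + 1), XX (2 ^ (b + 1 + i)) (rws dir t) t.length := by
  have h2 : Hyst (fun i => lvl dir (vx oo up t i)) t.length (RR b) m u e := h
  have hR : 1 ≤ RR b := by
    have h3 := Crs.one_le_two_pow_int b
    unfold RR
    omega
  have hpos : ∀ j < m, 1 ≤ |lvl dir (vx oo up t (e (j + 1))) - lvl dir (vx oo up t (e j))| := by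
    intro j hj
    refine le_trans hR (le_trans (h2.big j hj) ?_)
    by_cases hs : Even (u + j)
    · rw [Tight.sg_even hs, Tight.sg_even hs, abs_sub_comm]
      have h11 := le_abs_self (lvl dir (vx oo up t (e j)) - lvl dir (vx oo up t (e (j + 1))))
      omega
    · rw [Tight.sg_odd hs, Tight.sg_odd hs]
      exact le_abs_self _
  have h3 := Crs.log_le h2 (Crs.stp_rws dir t)
    (fun j => ((|lvl dir (vx oo up t (e (j + 1))) - lvl dir (vx oo up t (e j))| - 1) / 3).toNat)
    (by
      intro j hj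
      have h4 := hpos j hj
      show 3 * ((((|lvl dir (vx oo up t (e (j + 1))) - lvl dir (vx oo up t (e j))| - 1) / 3).toNat : ℕ) : ℤ) - 2 ≤
        |lvl dir (vx oo up t (e (j + 1))) - lvl dir (vx oo up t (e j))|
      omega) (b - 1) 2 (L + 3) (by omega) (by
      intro j hj
      have h5 : e j ≤ t.length := le_trans (h2.mono (by omega) (le_refl m)) h2.le
      have h6 : e (j + 1) ≤ t.length := le_trans (h2.mono (by omega) (le_refl m)) h2.le
      have h7 := Crs.lvl_diff (dir := dir) ht h6 h5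
      have h8 : (2 : ℤ) ^ (L + 2) ≤ ((2 ^ (b - 1 + (L + 3) + 1) : ℕ) : ℤ) := by
        push_cast
        exact pow_le_pow_right₀ (by norm_num) (by omega)
      have h9 : (2 : ℤ) ^ (L + 2) = 2 * 2 ^ (L + 1) := by rw [pow_succ]; ring
      have h10 := Crs.one_le_two_pow_int (L + 1)
      have h11 : (((((|lvl dir (vx oo up t (e (j + 1))) - lvl dir (vx oo up t (e j))| - 1) / 3).toNat : ℕ) : ℤ)) <
          ((2 ^ (b - 1 + (L + 3) + 1) : ℕ) : ℤ) := by
        omega
      exact_mod_cast h11)
  refine le_trans h3 ?_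
  apply Nat.add_le_add_left
  rw [Finset.sum_Ico_eq_sum_range]
  have h4 : L + 3 - 2 = L + 1 := by omega
  rw [h4]
  apply Finset.sum_le_sum
  intro i _
  have h5 : b - 1 + (2 + i) = b + 1 + i := by omega
  rw [h5]
  exact le_refl _

end SDN

end HexObs
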