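import Pool.Agent.SDN.Defs
import Pool.Agent.Tight.Leaves

/-!
SDN, module B2: the words of the interior leaves.
-/

set_option autoImplicit false

namespace HexObs

namespace SDN

open Finset TS

/-! ### 1. Frames and folds in an arbitrary direction -/

lemma tf_drop (t : List Bool) (a k : ℕ) : tf (t.drop a) k = tf t (a + k) := by
  unfold tf
  rw [List.getD_eq_getElem?_getD, List.getD_eq_getElem?_getD, List.getElem?_drop]

lemma vx_drop (t : List Bool) (a i : ℕ) :
    vx oo up t (a + i) = vx (vx oo up t a) (dx up t a) (t.drop a) i := by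
  unfold vx dx
  rw [vs_shift]
  apply vs_congr
  intro k _
  exact (tf_drop t a k).symm

lemma dx_drop (t : List Bool) (a i : ℕ) : dx up t (a + i) = dx (dx up t a) (t.drop a) i := by
  unfold dx
  rw [ds_shift]
  apply ds_congr
  intro k _
  exact (tf_drop t a k).symm

lemma turn_ne_neg (b : Bool) {d : Pt} (hd : d ∈ dirs) : turn b d ≠ -d := by
  revert d
  cases b <;> decide

lemma dirs_neg {d : Pt} (hd : d ∈ dirs) : -d ∈ dirs := by
  rw [mem_dirs] at hd ⊢
  rw [← hd]
  simp only [nrm, Prod.fst_neg, Prod.snd_neg]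
  ring

lemma hd_mem (dir : Bool) : hd dir ∈ dirs := by
  cases dir <;> decide

/-- level in the direction D of the vertex number i -/
def xD (D : Pt) (t : List Bool) (i : ℕ) : ℤ := ip (vx oo up t i) D

lemma xD_succ (D : Pt) (t : List Bool) (i : ℕ) : xD D t (i + 1) = xD D t i + ip (dx up t i) D := by
  unfold xD
  rw [vx_succ, ip_add_left]

/-- a step of the class of D -/
lemma step_pos {D : Pt} (hD : D ∈ dirs) {t : List Bool} {i : ℕ} (h : cl (dx up t i) = cl D) :
    (dx up t i = D ∧ xD D t (i + 1) = xD D t i + 2) ∨ xD D t (i + 1) = xD D t i - 1 := by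
  rcases step_check D hD _ (dx_mem upd t i) h with ⟨h1, h2⟩ | ⟨h1, h2⟩ | ⟨h1, h2⟩
  · exact Or.inl ⟨h1, by rw [xD_succ, h2]⟩
  · exact Or.inr (by rw [xD_succ, h2]; ring)
  · exact Or.inr (by rw [xD_succ, h2]; ring)

lemma step_neg {D : Pt} (hD : D ∈ dirs) {t : List Bool} {i : ℕ} (h : cl (dx up t i) = -cl D) :
    (dx up t i = -D ∧ xD D t (i + 1) = xD D t i - 2) ∨ xD D t (i + 1) = xD D t i + 1 := by
  rcases step_check' D hD _ (dx_mem upd t i) h with ⟨h1, h2⟩ | ⟨h1, h2⟩ | ⟨h1, h2⟩
  · exact Or.inl ⟨h1, by rw [xD_succ, h2]; ring⟩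
  · exact Or.inr (by rw [xD_succ, h2])
  · exact Or.inr (by rw [xD_succ, h2])

lemma cl_step (t : List Bool) (i : ℕ) : cl (dx up t (i + 1)) = -cl (dx up t i) := by
  rw [cl_dx, cl_dx]
  by_cases h : Even i
  · rw [if_neg (by rw [Nat.even_add_one]; simpa using h), if_pos h]
  · rw [if_pos (Nat.even_add_one.2 h), if_neg h, neg_neg]

lemma cl_cases {D : Pt} (hD : D ∈ dirs) (t : List Bool) (i : ℕ) : cl (dx up t i) = cl D ∨ cl (dx up t i) = -cl D :=
  cl_dir_cases D hD _ (dx_mem upd t i)

/-- the steps at a fold that is lowest in the direction D -/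
lemma fold_dx {D : Pt} (hD : D ∈ dirs) {t : List Bool} {e : ℕ} (h0 : xD D t (e + 1) ≤ xD D t e)
    (h1 : xD D t (e + 1) < xD D t (e + 2)) (h2 : xD D t (e + 1) < xD D t (e + 3)) :
    dx up t (e + 2) = D ∧ xD D t (e + 2) = xD D t (e + 1) + 1 := by
  rcases cl_cases hD t (e + 1) with hc | hc
  · exfalso
    rcases step_pos hD hc with ⟨a1, a2⟩ | a2
    · have hc' : cl (dx up t e) = -cl D := by
        have := cl_step t e
        rw [hc] at this
        rw [this, neg_neg]
      rcases step_neg hD hc' with ⟨b1, b2⟩ | b2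
      · have h3 := dx_succ up t e
        rw [a1, b1] at h3
        have h4 := turn_ne_neg (tf t e) (dirs_neg hD)
        rw [neg_neg] at h4
        exact h4 h3.symm
      · omega
    · have : e + 1 + 1 = e + 2 := rfl
      rw [this] at a2
      omega
  · have hc' : cl (dx up t (e + 2)) = cl D := by
      have := cl_step t (e + 1)
      rw [hc, neg_neg] at this
      exact this
    rcases step_neg hD hc with ⟨a1, a2⟩ | a2
    · rw [show e + 1 + 1 = e + 2 from rfl] at a2
      omega
    · rw [show e + 1 + 1 = e + 2 from rfl] at a2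
      rcases step_pos hD hc' with ⟨b1, b2⟩ | b2
      · exact ⟨b1, a2⟩
      · rw [show e + 2 + 1 = e + 3 from rfl] at b2
        omega

/-- level and parity -/
lemma xD_parity {D : Pt} (hD : D ∈ dirs) {t : List Bool} {i f : ℕ} (h : xD D t i = xD D t f) :
    cl (dx up t i) = cl (dx up t f) := by
  have h1 : ((xD D t i : ℤ) : ZMod 3) = ((xD D t f : ℤ) : ZMod 3) := by rw [h]
  unfold xD at h1
  rw [ip_mod, ip_mod, cl_vx, cl_vx] at h1
  rw [cl_dx, cl_dx]
  have hz : cl D ≠ 0 := cl_dir_ne hD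
  have ho : cl oo = 0 := by decide
  have hu : cl up = -1 := by decide
  have key : ∀ x : ZMod 3, x ≠ 0 → (-(0 * x) = -((0 + -1) * x) → False) := by decide
  by_cases ha : Even i
  · by_cases hb : Even f
    · rw [if_pos ha, if_pos hb]
    · exfalso
      rw [if_pos ha, if_neg hb, ho, hu] at h1
      exact key _ hz h1
  · by_cases hb : Even f
    · exfalso
      rw [if_neg ha, if_pos hb, ho, hu] at h1
      exact key _ hz h1.symm
    · rw [if_neg ha, if_neg hb]

/-- after the fold the walk stays strictly above the foot vertex -/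
lemma strict_D {D : Pt} (hD : D ∈ dirs) {t : List Bool} {f e' : ℕ} (hf : dx up t f = D)
    (h : ∀ i, f < i → i ≤ e' → xD D t f - 1 < xD D t i) (hgap : xD D t f < xD D t e') {i : ℕ} (h1 : f < i)
    (h2 : i ≤ e') : xD D t f < xD D t i := by
  by_contra hcon
  have h3 := h i h1 h2
  have h4 : xD D t i = xD D t f := by omega
  have h5 : i < e' := by
    rcases Nat.lt_or_ge i e' with h | h
    · exact h
    · exfalso
      have : i = e' := by omega
      rw [this] at h4
      omega
  have hc := xD_parity hD h4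
  rw [hf] at hc
  have h6 := h (i + 1) (by omega) (by omega)
  rcases step_pos hD hc with ⟨a1, a2⟩ | a2
  · obtain ⟨l, rfl⟩ : ∃ l, i = l + 1 := ⟨i - 1, by omega⟩
    have hc' : cl (dx up t l) = -cl D := by
      have := cl_step t l
      rw [hc] at this
      rw [this, neg_neg]
    rcases step_neg hD hc' with ⟨b1, b2⟩ | b2
    · have h7 := dx_succ up t l
      rw [a1, b1] at h7
      have h8 := turn_ne_neg (tf t l) (dirs_neg hD)
      rw [neg_neg] at h8
      exact h8 h7.symm
    · rcases Nat.lt_or_ge f l with h9 | h9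
      · have := h l h9 (by omega)
        omega
      · have : l = f := by omega
        rw [this] at b2
        rw [this] at h4
        omega
  · omega

lemma xD_step_le {D : Pt} (hD : D ∈ dirs) (t : List Bool) (i : ℕ) : xD D t (i + 1) ≤ xD D t i + 2 := by
  rcases cl_cases hD t i with hc | hc
  · rcases step_pos hD hc with ⟨_, a2⟩ | a2 <;> omega
  · rcases step_neg hD hc with ⟨_, a2⟩ | a2 <;> omega

/-- one leaf between the folds e + 1 < e' of the walk t, which goes up in the direction D; the fold e' is a real one -/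
lemma leaf_core {D : Pt} (hD : D ∈ dirs) {t : List Bool} (ht : t ∈ SA) {e e' : ℕ}
    (he2 : e' + 2 ≤ t.length) (he : e + 1 < e') (h0 : xD D t (e + 1) ≤ xD D t e)
    (h1 : ∀ i, e + 1 < i → i ≤ e' → xD D t (e + 1) < xD D t i ∧ xD D t i ≤ xD D t e')
    (hgap : xD D t (e + 1) + 4 ≤ xD D t e')
    (h2 : xD D t (e' + 1) < xD D t e') (h3 : xD D t (e' + 2) < xD D t e') :
    ∃ (u : Pt) (M : ℕ), u ∈ dirs ∧ mulE u up = D ∧ 1 ≤ M ∧ e + 2 < e' ∧ xD D t e' = xD D t (e + 1) + 1 + 3 * M ∧
      lw t (e + 1) e' ∈ Brd M ∧ (lw t (e + 1) e').length = e' - (e + 2) ∧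
      (∀ i, vx oo up t (e + 2 + i) = vx oo up t (e + 2) + mulE u (vx oo up (t.drop (e + 2)) i)) ∧
      (∀ i, i ≤ (lw t (e + 1) e').length → vx oo up (lw t (e + 1) e') i = vx oo up (t.drop (e + 2)) i) ∧
      t = t.take (e + 2) ++ ((lw t (e + 1) e').dropLast ++ (!lst (lw t (e + 1) e')) :: (!lst (lw t (e + 1) e')) ::
        t.drop (e' + 1)) ∧
      t = t.take (e + 2) ++ ((lw t (e + 1) e').dropLast ++ t.drop (e' - 1)) ∧
      ∀ r : List Bool, (∀ k, k ≤ r.length → e' + 1 + k ≤ t.length ∧
        vx oo up r k = vx oo up (t.drop (e' + 1)) k) → LFold (lw t (e + 1) e') r := by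
  have he3 : e + 3 ≤ e' := by
    by_contra hc
    have : e' = e + 2 := by omega
    have h4 := xD_step_le hD t (e + 1)
    rw [show e + 1 + 1 = e + 2 from rfl, ← this] at h4
    omega
  obtain ⟨hf, hf1⟩ := fold_dx hD h0 (h1 (e + 2) (by omega) (by omega)).1 (h1 (e + 3) (by omega) (by omega)).1
  obtain ⟨u, hu⟩ : ∃ u, u = rotTo up D := ⟨_, rfl⟩
  have hu1 : mulE u up = D := by
    rw [hu]
    exact rotTo_apply D upd
  have hu2 : nrm u = 1 := by
    rw [hu]
    exact nrm_rotTo upd hD
  obtain ⟨q, hq⟩ : ∃ q, q = t.drop (e + 2) := ⟨_, rfl⟩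
  obtain ⟨E, hE⟩ : ∃ E, E = e' - (e + 2) := ⟨_, rfl⟩
  have hql : q.length + (e + 2) = t.length := by
    rw [hq, List.length_drop]
    omega
  have hvt : ∀ i, vx oo up t (e + 2 + i) = vx oo up t (e + 2) + mulE u (vx oo up q i) := by
    intro i
    rw [vx_drop, hf, ← hu1, vx_mulE u oo, ← hq]
    congr 2
    exact sub_zero _
  have hlq : ∀ i, lev q i = xD D t (e + 2 + i) - xD D t (e + 2) := by
    intro i
    have e1 : xD D t (e + 2 + i) = xD D t (e + 2) + ip (mulE u (vx oo up q i)) D := by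
      unfold xD
      rw [hvt, ip_add_left]
    have e2 : ip (mulE u (vx oo up q i)) D = lev q i := by
      rw [← hu1, ip_mulE, hu2, one_mul]
      rfl
    rw [e1, e2]
    ring
  have hinj : ∀ i k, i < k → k ≤ q.length → vx oo up q i ≠ vx oo up q k := by
    intro i k hik hk heq
    refine ht.inj (e + 2 + i) (e + 2 + k) (by omega) (by omega) ?_
    rw [hvt i, hvt k, heq]
  have hstr : ∀ i, e + 2 < i → i ≤ e' → xD D t (e + 2) < xD D t i := by
    intro i i1 i2
    refine strict_D hD hf (fun k k1 k2 => ?_) (by omega) i1 i2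
    have := (h1 k (by omega) k2).1
    omega
  have hidx : ∀ i, e + 2 + (E + i) = e' + i := by
    intro i
    omega
  have hlE : lev q E = xD D t e' - xD D t (e + 2) := by
    have := hidx 0
    rw [hlq, show e + 2 + E = e' by omega]
  obtain ⟨c, M, hM1, hM, hsplit, hB, hlen, hvx, hvq, -, -, hH⟩ := fold_step (q := q) (e := E) (by omega) (by omega)
    hinj
    (by
      intro j j1 j2
      rw [hlE, hlq]
      have e1 := hstr (e + 2 + j) (by omega) (by omega)
      have e2 := (h1 (e + 2 + j) (by omega) (by omega)).2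
      constructor <;> omega)
    (by
      rw [hlE, hlq, hidx]
      omega)
    (by
      rw [hlE, hlq, hidx]
      omega)
  have hc : tf t (e' - 1) = c := by
    have e1 : tf q (E - 1) = c := by
      have hl : (q.take (E - 1)).length = E - 1 := by
        rw [List.length_take]
        omega
      have := tf_append_right (t := q.take (E - 1)) (s := c :: c :: q.drop (E + 1)) 0
      rw [← hsplit, hl, add_zero] at this
      rw [this]
      rfl
    rw [← e1, hq, tf_drop]
    congr 1
    omega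
  have hG : lw t (e + 1) e' = q.take (E - 1) ++ [!c] := by
    unfold lw
    rw [hc, hq, show e' - (e + 1) - 2 = E - 1 by omega]
  have hlG : lst (q.take (E - 1) ++ [!c]) = !c := lst_append _ _
  have htq : t = t.take (e + 2) ++ q := by
    rw [hq]
    exact (List.take_append_drop _ t).symm
  have hdr : q.drop (E + 1) = t.drop (e' + 1) := by
    rw [hq, List.drop_drop]
    congr 1
    omega
  have hdr2 : q.drop (E - 1) = t.drop (e' - 1) := by
    rw [hq, List.drop_drop]
    congr 1
    omega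
  refine ⟨u, M, mem_dirs.2 hu2, hu1, hM1, by omega, by omega, ?_, ?_, ?_, ?_, ?_, ?_, ?_⟩
  · rw [hG]
    exact hB
  · rw [hG, hlen]
    exact hE
  · rw [← hq]
    exact hvt
  · intro i hi
    rw [hG] at hi ⊢
    rw [hlen] at hi
    rw [← hq]
    exact hvx i hi
  · rw [hG, hlG, Bool.not_not, List.dropLast_concat, ← hdr, ← hsplit]
    exact htq
  · rw [hG, List.dropLast_concat, ← hdr2, List.take_append_drop]
    exact htq
  · intro r hr
    rw [hG]
    show Hang _ (lst _) r
    rw [hlG]
    apply hH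
    intro k hk
    obtain ⟨k1, k2⟩ := hr k hk
    refine ⟨by omega, ?_⟩
    rw [k2, ← hvq, hdr]

/-! ### 2. The leaves of a word -/

variable {dir : Bool} {b m u : ℕ} {t : List Bool} {e : ℕ → ℕ}

/-- the direction of the leaf number j -/
def dD (dir : Bool) (k : ℕ) : Pt := if Even k then -hd dir else hd dir

lemma dD_mem (dir : Bool) (k : ℕ) : dD dir k ∈ dirs := by
  unfold dD
  split_ifs
  · exact dirs_neg (hd_mem dir)
  · exact hd_mem dir

lemma xD_dD (dir : Bool) (k : ℕ) (t : List Bool) (i : ℕ) :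
    xD (dD dir k) t i = Tight.sg k (lvl dir (vx oo up t i)) := by
  unfold xD dD Tight.sg lvl
  split_ifs
  · rw [ip_neg_right]
  · rfl

lemma RR_ge (hb : 1 ≤ b) : 4 ≤ RR b := by
  unfold RR
  have : (2 : ℤ) ^ 1 ≤ 2 ^ b := pow_le_pow_right₀ (by norm_num) hb
  omega

/-- everything about one interior leaf -/
lemma leaf_at (ht : t ∈ SA) (hb : 1 ≤ b) (h : Lf dir b t m u e) {j : ℕ} (h1 : 1 ≤ j) (h2 : j + 2 ≤ m) :
    ∃ (c : Pt) (M : ℕ), c ∈ dirs ∧ mulE c up = dD dir (u + j) ∧ 1 ≤ M ∧ e j + 1 < e (j + 1) ∧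
      xD (dD dir (u + j)) t (e (j + 1)) = xD (dD dir (u + j)) t (e j) + 1 + 3 * M ∧
      lw t (e j) (e (j + 1)) ∈ Brd M ∧ (lw t (e j) (e (j + 1))).length = e (j + 1) - (e j + 1) ∧
      (∀ i, vx oo up t (e j + 1 + i) = vx oo up t (e j + 1) + mulE c (vx oo up (t.drop (e j + 1)) i)) ∧
      (∀ i, i ≤ (lw t (e j) (e (j + 1))).length →
        vx oo up (lw t (e j) (e (j + 1))) i = vx oo up (t.drop (e j + 1)) i) ∧
      t = t.take (e j + 1) ++ ((lw t (e j) (e (j + 1))).dropLast ++ (!lst (lw t (e j) (e (j + 1)))) ::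
        (!lst (lw t (e j) (e (j + 1)))) :: t.drop (e (j + 1) + 1)) ∧
      t = t.take (e j + 1) ++ ((lw t (e j) (e (j + 1))).dropLast ++ t.drop (e (j + 1) - 1)) ∧
      ∀ r : List Bool, (∀ k, k ≤ r.length → e (j + 1) + 1 + k ≤ t.length ∧
        vx oo up r k = vx oo up (t.drop (e (j + 1) + 1)) k) → LFold (lw t (e j) (e (j + 1))) r := by
  have hR := RR_ge hb
  obtain ⟨i, rfl⟩ : ∃ i, j = i + 1 := ⟨j - 1, by omega⟩
  have m1 := h.lt i (by omega)
  have m2 := h.lt (i + 1) (by omega)
  have m3 := h.lt (i + 1 + 1) (by omega)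
  have hle : ∀ k, k ≤ m → e k ≤ e m := by
    intro k hk
    obtain ⟨d, rfl⟩ := Nat.exists_eq_add_of_le hk
    clear m1 m2 m3
    have : ∀ d', d' ≤ d → e k ≤ e (k + d') := by
      intro d'
      induction d' with
      | zero => intro _; exact le_rfl
      | succ d' ih =>
        intro hd'
        have := ih (by omega)
        have := h.lt (k + d') (by omega)
        rw [← add_assoc]
        omega
    exact this d le_rfl
  have m4 := hle (i + 1 + 1 + 1) (by omega)
  have m5 := h.le
  obtain ⟨a, ha⟩ : ∃ a, e (i + 1) = a + 1 := ⟨e (i + 1) - 1, by omega⟩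
  set D := dD dir (u + (i + 1)) with hDdef
  have hD : D ∈ dirs := dD_mem _ _
  have hx : ∀ l, xD D t l = Tight.sg (u + (i + 1)) (lvl dir (vx oo up t l)) := fun l => xD_dD _ _ _ _
  have hx1 : ∀ l, xD D t l = -Tight.sg (u + i) (lvl dir (vx oo up t l)) := by
    intro l
    rw [hx, ← add_assoc, Tight.sg_succ]
  have hx2 : ∀ l, Tight.sg (u + (i + 1 + 1)) (lvl dir (vx oo up t l)) = -xD D t l := by
    intro l
    rw [hx, ← add_assoc u (i + 1) 1, Tight.sg_succ]
  have k0 : xD D t (a + 1) ≤ xD D t a := by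
    have := h.hi i (by omega) a (by omega) (by omega)
    rw [hx1, hx1, ← ha]
    omega
  have k1 : ∀ l, a + 1 < l → l ≤ e (i + 1 + 1) → xD D t (a + 1) < xD D t l ∧ xD D t l ≤ xD D t (e (i + 1 + 1)) := by
    intro l l1 l2
    rw [hx, hx, hx, ← ha]
    exact ⟨h.lo (i + 1) (by omega) l (by omega) l2, h.hi (i + 1) (by omega) l (by omega) l2⟩
  have k2 : xD D t (a + 1) + 4 ≤ xD D t (e (i + 1 + 1)) := by
    have := h.big (i + 1) (by omega)
    rw [hx, hx, ← ha]
    omega
  have k3 : ∀ l, e (i + 1 + 1) < l → l ≤ e (i + 1 + 1 + 1) → xD D t l < xD D t (e (i + 1 + 1)) := by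
    intro l l1 l2
    have := h.lo (i + 1 + 1) (by omega) l l1 l2
    simp only [hx2] at this
    omega
  have k4 : e (i + 1 + 1) + 2 ≤ e (i + 1 + 1 + 1) := by
    by_contra hc
    have h3 : e (i + 1 + 1 + 1) = e (i + 1 + 1) + 1 := by omega
    have h4 := h.big (i + 1 + 1) (by omega)
    simp only [hx2, h3] at h4
    have h5 := xD_step_le (dirs_neg hD) t (e (i + 1 + 1))
    have h6 : ∀ l, xD (-D) t l = -xD D t l := by
      intro l
      unfold xD
      rw [ip_neg_right]
    rw [h6, h6] at h5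
    omega
  obtain ⟨c, M, r1, r2, r3, r4, r5, r6, r7, r8, r9, r10, r11, r12⟩ := leaf_core hD ht (e := a)
    (e' := e (i + 1 + 1)) (by omega) (by omega) k0 k1 k2 (k3 _ (by omega) (by omega)) (k3 _ (by omega) (by omega))
  rw [ha]
  exact ⟨c, M, r1, r2, r3, r4, r5, r6, r7, r8, r9, r10, r11, r12⟩

/-- the interior leaves are bridges -/
theorem lw_brd (ht : t ∈ SA) (hb : 1 ≤ b) (h : Lf dir b t m u e) {j : ℕ} (h1 : 1 ≤ j) (h2 : j + 2 ≤ m) :
    ∃ n : ℕ, lw t (e j) (e (j + 1)) ∈ Brd n ∧ 2 ^ b - 1 ≤ n ∧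
      |lvl dir (vx oo up t (e (j + 1))) - lvl dir (vx oo up t (e j))| = 3 * n + 1 := by
  obtain ⟨c, M, -, -, -, -, r5, r6, -⟩ := leaf_at ht hb h h1 h2
  refine ⟨M, r6, ?_, ?_⟩
  · have h3 := h.big j (by omega)
    rw [← xD_dD, ← xD_dD, r5] at h3
    unfold RR at h3
    have h4 : (2 : ℤ) ^ b - 1 ≤ M := by omega
    have h5 : ((2 ^ b : ℕ) : ℤ) = 2 ^ b := by push_cast; rfl
    omega
  · rw [xD_dD, xD_dD] at r5
    unfold Tight.sg at r5
    split_ifs at r5
    · rw [abs_of_nonpos (by omega)]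
      omega
    · rw [abs_of_nonneg (by omega)]
      omega

/-- consecutive interior leaves -/
theorem lw_fold (ht : t ∈ SA) (hb : 1 ≤ b) (h : Lf dir b t m u e) {j : ℕ} (h1 : 1 ≤ j) (h2 : j + 3 ≤ m) :
    LFold (lw t (e j) (e (j + 1))) (lw t (e (j + 1)) (e (j + 2))) := by
  obtain ⟨_, _, _, _, _, _, _, _, _, _, _, _, _, r12⟩ := leaf_at ht hb h h1 (by omega)
  obtain ⟨_, _, _, _, _, s4, _, _, s7, _, s9, _, _, _⟩ := leaf_at ht hb h (j := j + 1) (by omega) (by omega)
  apply r12
  intro k hk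
  refine ⟨?_, s9 k hk⟩
  rw [s7] at hk
  have m1 := h.lt (j + 1) (by omega)
  have m2 := h.lt (j + 1 + 1) (by omega)
  have : e (j + 1 + 1) ≤ t.length := by
    have hle : ∀ d, j + 1 + 1 + d ≤ m → e (j + 1 + 1) ≤ e (j + 1 + 1 + d) := by
      intro d
      induction d with
      | zero => intro _; exact le_rfl
      | succ d ih =>
        intro hd'
        have a1 := ih (by omega)
        have a2 := h.lt (j + 1 + 1 + d) (by omega)
        rw [← add_assoc]
        omega
    have a3 := hle (m - (j + 1 + 1)) (by omega)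
    rw [show j + 1 + 1 + (m - (j + 1 + 1)) = m by omega] at a3
    exact a3.trans h.le
  omega

/-- the frame of an interior leaf -/
theorem lw_frame (ht : t ∈ SA) (hb : 1 ≤ b) (h : Lf dir b t m u e) {j : ℕ} (h1 : 1 ≤ j) (h2 : j + 2 ≤ m) :
    ∃ c : Pt, c ∈ dirs ∧ mulE c up = (if Even (u + j) then - hd dir else hd dir) ∧
      (lw t (e j) (e (j + 1))).length = e (j + 1) - (e j + 1) ∧ e j + 1 < e (j + 1) ∧
      ∀ i, i ≤ (lw t (e j) (e (j + 1))).length → vx oo up t (e j + 1 + i) =
        vx oo up t (e j + 1) + mulE c (vx oo up (lw t (e j) (e (j + 1))) i) := by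
  obtain ⟨c, M, r1, r2, r3, r4, r5, r6, r7, r8, r9, -⟩ := leaf_at ht hb h h1 h2
  refine ⟨c, r1, r2, r7, r4, ?_⟩
  intro i hi
  rw [r9 i hi]
  exact r8 i

lemma lws_one (t : List Bool) (e : ℕ → ℕ) (j : ℕ) : lws t e j 1 = [lw t (e j) (e (j + 1))] := rfl

lemma lws_cons (t : List Bool) (e : ℕ → ℕ) (j n : ℕ) :
    lws t e j (n + 1) = lw t (e j) (e (j + 1)) :: lws t e (j + 1) n := by
  unfold lws
  rw [List.range_succ_eq_map, List.map_cons, List.map_map]
  congr 1
  apply List.map_congr_left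
  intro i _
  simp only [Function.comp, Nat.succ_eq_add_one]
  rw [show j + (i + 1) = j + 1 + i by ring, show j + 1 + i + 1 = j + 1 + i + 1 from rfl]

lemma unf_ne_nil : ∀ gs : List (List Bool), gs ≠ [] → (∀ g ∈ gs, g ≠ []) → unf gs ≠ [] := by
  intro gs
  cases gs with
  | nil => intro h _; exact absurd rfl h
  | cons g gs =>
    cases gs with
    | nil =>
      intro _ h
      exact h g (List.mem_singleton.2 rfl)
    | cons g' gs =>
      intro _ _
      show g.dropLast ++ (!lst g) :: (!lst g) :: unf (g' :: gs) ≠ []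
      simp

/-- the word of a part of the chain of the interior leaves -/
theorem lws_word (ht : t ∈ SA) (hb : 1 ≤ b) (h : Lf dir b t m u e) {j n : ℕ} (h1 : 1 ≤ j) (hn : 1 ≤ n) (h2 : j + n + 1 ≤ m) :
    t = t.take (e j + 1) ++ ((unf (lws t e j n)).dropLast ++ t.drop (e (j + n) - 1)) ∧
      List.IsChain LFold (lws t e j n) ∧ (∀ g ∈ lws t e j n, ∃ k : ℕ, g ∈ Brd k ∧ 2 ^ b - 1 ≤ k) := by
  induction n, hn using Nat.le_induction generalizing j with
  | base =>
    obtain ⟨_, _, _, _, _, _, _, _, _, _, _, _, r11, _⟩ := leaf_at ht hb h h1 (by omega)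
    rw [lws_one]
    refine ⟨r11, List.isChain_singleton _, ?_⟩
    intro g hg
    rw [List.mem_singleton] at hg
    obtain ⟨k, k1, k2, -⟩ := lw_brd ht hb h h1 (by omega)
    exact ⟨k, by rw [hg]; exact k1, k2⟩
  | succ n hn ih =>
    obtain ⟨a1, a2, a3⟩ := ih (j := j + 1) (by omega) (by omega)
    obtain ⟨_, _, _, _, _, r4, _, _, r7, _, _, r10, r11, _⟩ := leaf_at ht hb h h1 (by omega)
    obtain ⟨k, k1, k2, -⟩ := lw_brd ht hb h h1 (by omega)
    obtain ⟨n', rfl⟩ : ∃ n', n = n' + 1 := ⟨n - 1, by omega⟩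
    have hne : ∀ g ∈ lws t e (j + 1) (n' + 1), g ≠ [] := by
      intro g hg hg0
      obtain ⟨k, c1, c2⟩ := a3 g hg
      rw [hg0, mem_Brd] at c1
      have := c1.2.2.2
      rw [show ([] : List Bool).length = 0 from rfl, lev_zero] at this
      have h5 : (2 : ℕ) ^ 1 ≤ 2 ^ b := Nat.pow_le_pow_right (by norm_num) hb
      omega
    have hlt := h.lt (j + 1) (by omega)
    have hdr : t.drop (e (j + 1) + 1) = (unf (lws t e (j + 1) (n' + 1))).dropLast ++
        t.drop (e (j + 1 + (n' + 1)) - 1) := by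
      have hl : (t.take (e (j + 1) + 1)).length = e (j + 1) + 1 := by
        rw [List.length_take]
        have : e (j + 1 + 1) ≤ t.length := by
          have hle : ∀ d, j + 1 + 1 + d ≤ m → e (j + 1 + 1) ≤ e (j + 1 + 1 + d) := by
            intro d
            induction d with
            | zero => intro _; exact le_rfl
            | succ d ih =>
              intro hd'
              have a1 := ih (by omega)
              have a2 := h.lt (j + 1 + 1 + d) (by omega)
              rw [← add_assoc]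
              omega
          have a3 := hle (m - (j + 1 + 1)) (by omega)
          rw [show j + 1 + 1 + (m - (j + 1 + 1)) = m by omega] at a3
          exact a3.trans h.le
        omega
      conv_lhs => rw [a1]
      rw [List.drop_append_of_le_length (by omega), List.drop_of_length_le (by omega), List.nil_append]
    refine ⟨?_, ?_, ?_⟩
    · rw [lws_cons t e j (n' + 1), lws_cons t e (j + 1) n']
      have hu : unf (lw t (e j) (e (j + 1)) :: lw t (e (j + 1)) (e (j + 1 + 1)) :: lws t e (j + 1 + 1) n') =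
          (lw t (e j) (e (j + 1))).dropLast ++ (!lst (lw t (e j) (e (j + 1)))) :: (!lst (lw t (e j) (e (j + 1)))) ::
            unf (lw t (e (j + 1)) (e (j + 1 + 1)) :: lws t e (j + 1 + 1) n') := rfl
      rw [hu, ← lws_cons t e (j + 1) n']
      have hU := unf_ne_nil (lws t e (j + 1) (n' + 1)) (by rw [lws_cons]; simp) hne
      rw [List.dropLast_append_of_ne_nil (by simp), List.dropLast_cons_of_ne_nil (by simp),
        List.dropLast_cons_of_ne_nil hU]
      have e1 : j + (n' + 1 + 1) = j + 1 + (n' + 1) := by ring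
      rw [e1, List.append_assoc, List.cons_append, List.cons_append, ← hdr]
      exact r10
    · rw [lws_cons t e j (n' + 1), lws_cons t e (j + 1) n', List.isChain_cons_cons, ← lws_cons t e (j + 1) n']
      exact ⟨lw_fold ht hb h h1 (by omega), a2⟩
    · intro g hg
      rw [lws_cons, List.mem_cons] at hg
      rcases hg with rfl | hg
      · exact ⟨k, k1, k2⟩
      · exact a3 g hg

end SDN

end HexObs
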