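import Pool.Agent.SDN.Defs
import Pool.Agent.PHW8.Final8b
import Pool.Agent.PHW.Dict

/-!
SDN, module SplitP: polynomial growth of the critical weight of the short words (from PHW_all), length of a word in a box
(helper88).
-/

set_option autoImplicit false

namespace HexObs

namespace SDN

open Finset TS

open scoped ENNReal

lemma SAL_step (Λ : ℕ) : SAL (Λ + 1) ⊆ SAL Λ ∪ SawN (Λ + 1) := by
  intro t ht
  rcases Nat.lt_or_ge Λ t.length with h1 | h1
  · right
    have h2 : t.length ≤ Λ + 1 := ht.2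
    exact ⟨by omega, ht.1⟩
  · left
    exact ⟨ht.1, h1⟩

lemma gf_SAL_le (Λ : ℕ) : gf (SAL Λ) ≤ ∑ n ∈ range (Λ + 1), gf (SawN n) := by
  induction Λ with
  | zero =>
    rw [Finset.sum_range_succ, Finset.sum_range_zero, zero_add]
    apply gf_mono
    intro t ht
    have h1 : t.length ≤ 0 := ht.2
    exact ⟨by omega, ht.1⟩
  | succ Λ ih =>
    rw [Finset.sum_range_succ]
    refine le_trans (gf_mono (SAL_step Λ)) (le_trans (gf_union_le _ _) ?_)
    gcongr

/-- polynomial growth (PHW) -/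
theorem SAL_poly : ∃ C : ℝ, 0 < C ∧ ∀ Λ : ℕ, 1 ≤ Λ → gf (SAL Λ) ≤ ENNReal.ofReal ((Λ : ℝ) ^ C * C) := by
  obtain ⟨C, hC1, hC⟩ := PHW_all
  have hmu : muB = 1 / xc := le_antisymm muB_le le_muB
  have hx := xc_pos
  have h0 : gf (SawN 0) ≤ ENNReal.ofReal 1 := by
    have h1 : SawN 0 ⊆ ((({[]} : Finset (List Bool)) : Set (List Bool))) := by
      intro t ht
      have h2 : t.length = 0 := ht.1
      rw [Finset.mem_coe, Finset.mem_singleton]
      exact List.length_eq_zero_iff.1 h2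
    refine le_trans (gf_mono h1) ?_
    rw [gf_finset, Finset.sum_singleton, List.length_nil, pow_zero]
  have hn : ∀ n : ℕ, 1 ≤ n → gf (SawN n) ≤ ENNReal.ofReal (C * (n : ℝ) ^ C) := by
    intro n hn
    rw [PHWDict.gf_SawN]
    apply ENNReal.ofReal_le_ofReal
    have h1 := hC n hn
    have h2 : (2 : ℝ) * aB n = 3 * cS n := by exact_mod_cast aB_eq hn
    rw [hmu, one_div, inv_pow] at h1
    have h3 : (aB n : ℝ) * xc ^ n ≤ C * (n : ℝ) ^ C := by
      have h4 := mul_le_mul_of_nonneg_right h1 (pow_nonneg hx.le n)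
      rw [mul_assoc, inv_mul_cancel₀ (pow_ne_zero n hx.ne'), mul_one] at h4
      exact h4
    have h5 : (cS n : ℝ) * xc ^ n ≤ (aB n : ℝ) * xc ^ n := by
      apply mul_le_mul_of_nonneg_right _ (pow_nonneg hx.le n)
      have h6 : (0 : ℝ) ≤ cS n := by positivity
      linarith
    linarith
  refine ⟨2 * C + 1, by linarith, fun Λ hΛ => ?_⟩
  have hΛ1 : (1 : ℝ) ≤ Λ := by exact_mod_cast hΛ
  refine le_trans (gf_SAL_le Λ) ?_
  rw [Finset.sum_range_succ']
  have h1 : ∑ n ∈ range Λ, gf (SawN (n + 1)) ≤ ∑ _n ∈ range Λ, ENNReal.ofReal (C * (Λ : ℝ) ^ C) := by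
    apply Finset.sum_le_sum
    intro n hn'
    rw [Finset.mem_range] at hn'
    refine le_trans (hn (n + 1) (by omega)) ?_
    apply ENNReal.ofReal_le_ofReal
    apply mul_le_mul_of_nonneg_left _ (by linarith)
    apply Real.rpow_le_rpow (by positivity) _ (by linarith)
    exact_mod_cast hn'
  refine le_trans (add_le_add h1 h0) ?_
  rw [Finset.sum_const, Finset.card_range, nsmul_eq_mul, ← ENNReal.ofReal_natCast,
    ← ENNReal.ofReal_mul (by positivity), ← ENNReal.ofReal_add (by positivity) (by norm_num)]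
  apply ENNReal.ofReal_le_ofReal
  have h2 : (Λ : ℝ) * (C * (Λ : ℝ) ^ C) = C * (Λ : ℝ) ^ (C + 1) := by
    rw [Real.rpow_add_one (by linarith)]
    ring
  have h3 : (Λ : ℝ) ^ (C + 1) ≤ (Λ : ℝ) ^ (2 * C + 1) := Real.rpow_le_rpow_of_exponent_le hΛ1 (by linarith)
  have h4 : (1 : ℝ) ≤ (Λ : ℝ) ^ (2 * C + 1) := Real.one_le_rpow hΛ1 (by linarith)
  rw [h2]
  nlinarith

lemma lvl_false_eq (v : Pt) : lvl false v = v.1 + 2 * v.2 := by
  have h1 : lvl false v = 2 * (v.1 * 0 + v.2 * 1) + v.1 * 1 + v.2 * 0 := rfl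
  rw [h1]
  ring

lemma lvl_true_eq (v : Pt) : lvl true v = -(2 * v.1 + v.2) := by
  have h1 : lvl true v = 2 * (v.1 * (-1) + v.2 * 0) + v.1 * 0 + v.2 * (-1) := rfl
  rw [h1]
  ring

/-- length of a word in a box -/
theorem WL_length {L : ℕ} {t : List Bool} (ht : t ∈ WL L) : t.length ≤ 100 * 4 ^ L := by
  have hinj : Set.InjOn (fun i => (lvl false (vx oo up t i), lvl true (vx oo up t i)))
      ((range (t.length + 1) : Finset ℕ) : Set ℕ) := by
    intro i hi k hk hik
    rw [Finset.mem_coe, Finset.mem_range] at hi hk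
    have h1 : lvl false (vx oo up t i) = lvl false (vx oo up t k) := congrArg Prod.fst hik
    have h2 : lvl true (vx oo up t i) = lvl true (vx oo up t k) := congrArg Prod.snd hik
    have h3 : vx oo up t i = vx oo up t k := by
      rw [lvl_false_eq, lvl_false_eq] at h1
      rw [lvl_true_eq, lvl_true_eq] at h2
      apply Prod.ext <;> omega
    rcases lt_trichotomy i k with h4 | h4 | h4
    · exact absurd h3 (ht.1.inj i k h4 (by omega))
    · exact h4
    · exact absurd h3.symm (ht.1.inj k i h4 (by omega))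
  have hX : (1 : ℤ) ≤ 2 ^ L := by exact_mod_cast Nat.one_le_two_pow
  have hsub : (range (t.length + 1)).image (fun i => (lvl false (vx oo up t i), lvl true (vx oo up t i))) ⊆
      Finset.Icc (-(3 * 2 ^ L) : ℤ) (3 * 2 ^ L + 2) ×ˢ Finset.Icc (-(3 * 2 ^ L) : ℤ) (3 * 2 ^ L + 2) := by
    intro p hp
    rw [Finset.mem_image] at hp
    obtain ⟨i, hi, rfl⟩ := hp
    rw [Finset.mem_range] at hi
    have h1 := ht.2 i (by omega) false
    have h2 := ht.2 i (by omega) true
    unfold row at h1 h2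
    rw [abs_le] at h1 h2
    rw [Finset.mem_product, Finset.mem_Icc, Finset.mem_Icc]
    generalize (2 : ℤ) ^ L = X at *
    refine ⟨⟨?_, ?_⟩, ?_, ?_⟩ <;> dsimp only <;> omega
  have hcard := Finset.card_le_card hsub
  rw [Finset.card_image_of_injOn hinj, Finset.card_range, Finset.card_product, Int.card_Icc] at hcard
  have h1 : (3 * 2 ^ L + 2 + 1 - -(3 * 2 ^ L) : ℤ).toNat = 6 * 2 ^ L + 3 := by
    have h2 : (3 * 2 ^ L + 2 + 1 - -(3 * 2 ^ L) : ℤ) = ((6 * 2 ^ L + 3 : ℕ) : ℤ) := by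
      push_cast
      ring
    rw [h2, Int.toNat_natCast]
  rw [h1] at hcard
  have h2 : (4 : ℕ) ^ L = 2 ^ L * 2 ^ L := by
    rw [← mul_pow]
    norm_num
  have h3 : 1 ≤ 2 ^ L := Nat.one_le_two_pow
  rw [h2]
  nlinarith

end SDN

end HexObs
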