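import Pool.Agent.SDN.NrmX
import Pool.Agent.SDN.PairCap
import Pool.Agent.SDN.Peierls1M

/-!
SDN, Peierls 1 (crowding), unconditional.
-/

set_option autoImplicit false

namespace HexObs

namespace SDN

open Finset TS

open scoped ENNReal

/-- crowding: m leaves of the scale b, few doublings, few visited cells -/
theorem peierls1 : ∃ (A C : ℝ) (b0 : ℕ), 1 ≤ A ∧ 0 < C ∧ ∀ (L b m : ℕ) (dir : Bool), 1 ≤ L → b0 ≤ b → b ≤ L + 2 → 1 ≤ m →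
    gf {t | t ∈ WL L ∧ ∃ u e, Lf dir b t m u e ∧ A * nb b t ≤ m ∧ dbl (2 ^ (b - 1)) (lws t e 1 (m - 2)) ≤ 12 * m} ≤
      ENNReal.ofReal (((2 : ℝ) ^ L) ^ C * C / 4 ^ m) := by
  obtain ⟨K, c, hN⟩ := nrm_exists
  obtain ⟨Cs, hCs, hP⟩ := pairCap
  exact peierls1_of hN hCs (fun N k j1 j3 w K0 h1 h2 h3 _ _ => hP N k j1 j3 w K0 h1 h2 h3)

end SDN

end HexObs
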