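import Pool.Agent.SDN.Defs

/-!
SDN, file WordNb: the number of the cells visited by a word (helper69).
-/

set_option autoImplicit false

namespace HexObs

namespace SDN

open Finset TS

open scoped ENNReal

namespace WNb

lemma lvl_false (v : Pt) : lvl false v = v.1 + 2 * v.2 := by
  show 2 * (v.1 * (up : Pt).1 + v.2 * (up : Pt).2) + v.1 * (up : Pt).2 + v.2 * (up : Pt).1 = _
  have h1 : (up : Pt).1 = 0 := rfl
  have h2 : (up : Pt).2 = 1 := rfl
  rw [h1, h2]
  ring

lemma lvl_true (v : Pt) : lvl true v = -2 * v.1 - v.2 := by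
  show 2 * (v.1 * (-1) + v.2 * 0) + v.1 * 0 + v.2 * (-1) = _
  ring

lemma ediv_succ (b : ℕ) (r : ℤ) : r / 2 ^ (b + 1) = r / 2 ^ b / 2 := by
  rw [pow_succ, Int.ediv_ediv_of_nonneg (by positivity)]

/-- the parent of a cell -/
def par2 (p : ℤ × ℤ) : ℤ × ℤ := (p.1 / 2, p.2 / 2)

lemma cell_succ (b : ℕ) (v : Pt) : cell (b + 1) v = par2 (cell b v) := by
  unfold cell par2
  rw [ediv_succ, ediv_succ]

lemma cells_succ (b : ℕ) (t : List Bool) : cells (b + 1) t = (cells b t).image par2 := by
  unfold cells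
  rw [Finset.image_image]
  apply Finset.image_congr
  intro i _
  exact cell_succ b _

lemma fiber_four (s : Finset (ℤ × ℤ)) (a : ℤ × ℤ) : (s.filter fun x => par2 x = a).card ≤ 4 := by
  have h : (s.filter fun x => par2 x = a) ⊆ ({2 * a.1, 2 * a.1 + 1} : Finset ℤ) ×ˢ ({2 * a.2, 2 * a.2 + 1} : Finset ℤ) := by
    intro x hx
    have h1 := (Finset.mem_filter.1 hx).2
    have h2 : x.1 / 2 = a.1 := congrArg Prod.fst h1
    have h3 : x.2 / 2 = a.2 := congrArg Prod.snd h1
    rw [Finset.mem_product, Finset.mem_insert, Finset.mem_singleton, Finset.mem_insert, Finset.mem_singleton]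
    constructor <;> omega
  refine (Finset.card_le_card h).trans ?_
  rw [Finset.card_product]
  have h1 : ({2 * a.1, 2 * a.1 + 1} : Finset ℤ).card ≤ 2 := Finset.card_le_two
  have h2 : ({2 * a.2, 2 * a.2 + 1} : Finset ℤ).card ≤ 2 := Finset.card_le_two
  exact (Nat.mul_le_mul h1 h2)

/-- two vertices with the same parity and the same rows coincide -/
lemma eq_of_rows {t : List Bool} {i k : ℕ} (hp : Even i ↔ Even k) (h : cell 0 (vx oo up t i) = cell 0 (vx oo up t k)) :
    vx oo up t i = vx oo up t k := by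
  have h1 : row false (vx oo up t i) / 2 ^ 0 = row false (vx oo up t k) / 2 ^ 0 := congrArg Prod.fst h
  have h2 : row true (vx oo up t i) / 2 ^ 0 = row true (vx oo up t k) / 2 ^ 0 := congrArg Prod.snd h
  rw [pow_zero, Int.ediv_one, Int.ediv_one] at h1 h2
  unfold row at h1 h2
  have m1 := lev_mod t i
  have m2 := lev_mod t k
  have e1 : lev t i = lvl false (vx oo up t i) := rfl
  have e2 : lev t k = lvl false (vx oo up t k) := rfl
  rw [e1, lvl_false] at m1
  rw [e2, lvl_false] at m2
  rw [lvl_false, lvl_false] at h1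
  rw [lvl_true, lvl_true] at h2
  generalize vx oo up t i = v at *
  generalize vx oo up t k = w at *
  obtain ⟨v1, v2⟩ := v
  obtain ⟨w1, w2⟩ := w
  have key : v1 = w1 ∧ v2 = w2 := by
    by_cases hi : Even i
    · have hk := hp.1 hi
      rw [if_pos hi] at m1
      rw [if_pos hk] at m2
      dsimp only at *
      omega
    · have hk : ¬ Even k := fun hk => hi (hp.2 hk)
      rw [if_neg hi] at m1
      rw [if_neg hk] at m2
      dsimp only at *
      omega
  rw [key.1, key.2]

lemma inj_le {t : List Bool} (ht : t ∈ SA) {i k : ℕ} (hi : i ≤ t.length) (hk : k ≤ t.length)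
    (h : vx oo up t i = vx oo up t k) : i = k := by
  rcases lt_trichotomy i k with h2 | h2 | h2
  · exact absurd h (ht.inj i k h2 hk)
  · exact h2
  · exact absurd h.symm (ht.inj k i h2 hi)

lemma fiber_two {t : List Bool} (ht : t ∈ SA) (a : ℤ × ℤ) :
    ((range (t.length + 1)).filter fun i => cell 0 (vx oo up t i) = a).card ≤ 2 := by
  have h : ((range (t.length + 1)).filter fun i => cell 0 (vx oo up t i) = a) =
      (((range (t.length + 1)).filter fun i => cell 0 (vx oo up t i) = a).filter fun i => Even i) ∪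
      (((range (t.length + 1)).filter fun i => cell 0 (vx oo up t i) = a).filter fun i => ¬ Even i) :=
    (Finset.filter_union_filter_not_eq _ _).symm
  rw [h]
  refine (Finset.card_union_le _ _).trans ?_
  have h1 : (((range (t.length + 1)).filter fun i => cell 0 (vx oo up t i) = a).filter fun i => Even i).card ≤ 1 := by
    rw [Finset.card_le_one]
    intro i hi k hk
    rw [Finset.mem_filter, Finset.mem_filter, Finset.mem_range] at hi hk
    exact inj_le ht (by omega) (by omega)
      (eq_of_rows (iff_of_true hi.2 hk.2) (hi.1.2.trans hk.1.2.symm))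
  have h2 : (((range (t.length + 1)).filter fun i => cell 0 (vx oo up t i) = a).filter fun i => ¬ Even i).card ≤ 1 := by
    rw [Finset.card_le_one]
    intro i hi k hk
    rw [Finset.mem_filter, Finset.mem_filter, Finset.mem_range] at hi hk
    exact inj_le ht (by omega) (by omega)
      (eq_of_rows (iff_of_false hi.2 hk.2) (hi.1.2.trans hk.1.2.symm))
  omega

lemma ediv_range {L b : ℕ} {r : ℤ} (hb : L + 1 ≤ b) (hr : |r| ≤ 2 ^ L) : r / 2 ^ b = -1 ∨ r / 2 ^ b = 0 := by
  have h1 : (2 : ℤ) ^ L < 2 ^ b := pow_lt_pow_right₀ (by norm_num) (by omega)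
  have h2 := abs_le.1 hr
  have h0 : (0 : ℤ) < 2 ^ b := by positivity
  rcases lt_or_ge r 0 with h3 | h3
  · left
    rw [Int.ediv_eq_iff_of_pos h0]
    constructor <;> linarith
  · right
    exact Int.ediv_eq_zero_of_lt h3 (by linarith)

end WNb

theorem nb_four (b : ℕ) (t : List Bool) : nb b t ≤ 4 * nb (b + 1) t := by
  unfold nb
  rw [WNb.cells_succ]
  exact Finset.card_le_mul_card_image _ _ (fun a _ => WNb.fiber_four _ a)

theorem nb_pos (b : ℕ) (t : List Bool) : 1 ≤ nb b t := by
  unfold nb
  rw [Nat.succ_le_iff, Finset.card_pos]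
  exact ⟨cell b (vx oo up t 0), Finset.mem_image.2 ⟨0, Finset.mem_range.2 (Nat.succ_pos _), rfl⟩⟩

/-- a cell of side 1 contains at most two vertices -/
theorem nb_zero {t : List Bool} (ht : t ∈ SA) : t.length + 1 ≤ 2 * nb 0 t := by
  have h := Finset.card_le_mul_card_image (f := fun i => cell 0 (vx oo up t i)) (range (t.length + 1)) 2
    (fun a _ => WNb.fiber_two ht a)
  rw [Finset.card_range] at h
  exact h

theorem nb_top {L b : ℕ} {t : List Bool} (ht : t ∈ WL L) (hb : L + 1 ≤ b) : nb b t ≤ 4 := by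
  have h : cells b t ⊆ ({-1, 0} : Finset ℤ) ×ˢ ({-1, 0} : Finset ℤ) := by
    intro x hx
    obtain ⟨i, hi, rfl⟩ := Finset.mem_image.1 hx
    rw [Finset.mem_range] at hi
    rw [Finset.mem_product, Finset.mem_insert, Finset.mem_singleton, Finset.mem_insert, Finset.mem_singleton]
    exact ⟨WNb.ediv_range hb (ht.2 i (by omega) false), WNb.ediv_range hb (ht.2 i (by omega) true)⟩
  refine (Finset.card_le_card h).trans ?_
  rw [Finset.card_product]
  decide

theorem rws_le {L : ℕ} {t : List Bool} (ht : t ∈ WL L) (dir : Bool) {i : ℕ} (hi : i ≤ t.length) :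
    |rws dir t i| ≤ 2 ^ L := ht.2 i hi dir

end SDN

end HexObs
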