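import Pool.Agent.SDN.BrdWhole
import Pool.Agent.SDN.ChainO
import Pool.Agent.SDN.WordNb
import Pool.Agent.PHW7.SecLe0
import Pool.Agent.SDN.Peierls1F

/-!
SDN, limit version (board/DIM), M2: crowding for bridges, all leaves of the bridge are used.
-/

set_option autoImplicit false

namespace HexObs

namespace SDN

open Finset TS

open scoped ENNReal

namespace CB

/-- the word of a chain without its last leaf -/
lemma unf_snoc : ∀ (us : List (List Bool)) (g : List Bool), us ≠ [] → (∀ u ∈ us, u ≠ []) →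
    ∃ r, unf (us ++ [g]) = (unf us).dropLast ++ r
  | [], _, h, _ => absurd rfl h
  | [a], g, _, _ => ⟨(!lst a) :: (!lst a) :: g, rfl⟩
  | a :: a' :: us, g, _, hne => by
    obtain ⟨r, hr⟩ := unf_snoc (a' :: us) g (by simp) (fun u hu => hne u (List.mem_cons_of_mem _ hu))
    refine ⟨r, ?_⟩
    have h1 : unf (a :: a' :: us ++ [g]) = a.dropLast ++ (!lst a) :: (!lst a) :: unf (a' :: us ++ [g]) := rfl
    have h2 : unf (a :: a' :: us) = a.dropLast ++ (!lst a) :: (!lst a) :: unf (a' :: us) := rfl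
    have h3 : unf (a' :: us) ≠ [] := unf_ne_nil _ (by simp) (fun u hu => hne u (List.mem_cons_of_mem _ hu))
    rw [h1, h2, hr, List.dropLast_append_of_ne_nil (by simp), List.dropLast_cons_of_ne_nil (by simp),
      List.dropLast_cons_of_ne_nil h3]
    simp

/-- the last leaf of an odd chain has no cap -/
lemma caps_snoc (q w : ℕ) : ∀ (n : ℕ) (us : List (List Bool)) (X S : ℤ) (g : List Bool), us.length = 2 * n →
    caps q w X S (us ++ [g]) = caps q w X S us := by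
  intro n
  induction n with
  | zero =>
    intro us X S g h
    have : us = [] := List.length_eq_zero_iff.1 (by omega)
    subst this
    rfl
  | succ n ih =>
    intro us X S g h
    match us, h with
    | [], h =>
      simp at h
    | [a], h =>
      simp at h
      omega
    | a :: a' :: us, h =>
      have h1 : us.length = 2 * n := by
        simp only [List.length_cons] at h
        omega
      have e := ih us (X + latE a + tw a - latE a' - tw a') (S + ht a - ht a') g h1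
      show cap q w X S a a' :: caps q w _ _ (us ++ [g]) = cap q w X S a a' :: caps q w _ _ us
      rw [e]

/-- weight of the bridges in a box -/
lemma gf_BL (L : ℕ) : gf (BL L) ≤ ENNReal.ofReal (Ub L) := by
  have h1 : BL L ⊆ ⋃ T ∈ range (2 ^ L + 1), Brd T := by
    rintro t ⟨⟨T, hT⟩, hW⟩
    rw [Set.mem_iUnion₂]
    refine ⟨T, ?_, hT⟩
    rw [Finset.mem_range]
    have h2 := hW.2 t.length le_rfl false
    have h3 : lvl false (vx oo up t t.length) = 3 * T := (mem_Brd.1 hT).2.2.2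
    unfold row at h2
    rw [h3] at h2
    have h4 : (3 * (T : ℤ)) / 3 = T := by omega
    rw [h4, abs_of_nonneg (Int.natCast_nonneg T)] at h2
    have h5 : T ≤ 2 ^ L := by exact_mod_cast h2
    omega
  refine (gf_mono h1).trans ((JumpVaux.gf_biUnion_le _ _).trans (le_of_eq ?_))
  exact (SecAux.ofReal_UU (2 ^ L)).symm

end CB

open SDN.CB in
/-- CROWDING FOR BRIDGES (scale invariant) -/
theorem crowd_brd : ∀ Λ : ℝ, 1 ≤ Λ → ∃ (A C : ℝ) (b0 : ℕ), 1 ≤ A ∧ 0 < C ∧ 1 ≤ b0 ∧ ∀ (L b m : ℕ), b0 ≤ b → b ≤ L + 2 →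
    gf {t | t ∈ BL L ∧ ∃ u e, Lf false b t m u e ∧ A * nb b t ≤ m ∧
      (dbl (2 ^ (b - 1)) (lws t e 1 (m - 2)) : ℝ) ≤ Λ * m} ≤
      ENNReal.ofReal (Ub L * ((2 : ℝ) ^ (C * ((L : ℝ) + 3 - b)) * C / 4 ^ m)) := by
  intro Λ hΛ
  obtain ⟨K, c, hN⟩ := nrm_exists
  obtain ⟨Cs, hCs, hP⟩ := pairCap
  obtain ⟨k0, w0, Q, C0, hwk, hQ2, hC0, hch⟩ := crowd_odd hN hCs (fun N k j1 j3 w K0 h1 h2 h3 _ _ => hP N k j1 j3 w K0 h1 h2 h3)
    (⌈Λ⌉₊ + 2)
  obtain ⟨Cc, hCc⟩ := caps_card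
  obtain ⟨A, hA⟩ : ∃ A : ℕ, A = 5 + Cc * 2 ^ w0 * (2 * Q) := ⟨_, rfl⟩
  obtain ⟨C, hC⟩ : ∃ C : ℝ, C = 2 * C0 + 2 := ⟨_, rfl⟩
  have hCpos : 0 < C := by rw [hC]; linarith
  have hC2 : 2 ≤ C := by rw [hC]; linarith
  refine ⟨A, C, k0 + 5, ?_, hCpos, by omega, fun L b m hb hbL => ?_⟩
  · rw [hA]
    exact_mod_cast (by omega : 1 ≤ 5 + Cc * 2 ^ w0 * (2 * Q))
  obtain ⟨k, rfl⟩ : ∃ k, b = k + 5 := ⟨b - 5, by omega⟩
  have hb1 : k + 5 - 1 = k + 4 := rfl
  rw [hb1]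
  obtain ⟨S, hS⟩ : ∃ S : Set (List Bool), S = {t | t ∈ BL L ∧ ∃ u e, Lf false (k + 5) t m u e ∧
      (A : ℝ) * nb (k + 5) t ≤ m ∧ (dbl (2 ^ (k + 4)) (lws t e 1 (m - 2)) : ℝ) ≤ Λ * m} := ⟨_, rfl⟩
  rw [← hS]
  have hUL := Ub_pos L
  have hexp : (1 : ℝ) ≤ (L : ℝ) + 3 - ((k + 5 : ℕ) : ℝ) := by
    have : ((k + 5 : ℕ) : ℝ) ≤ (L : ℝ) + 2 := by exact_mod_cast hbL
    linarith
  have hpow : (1 : ℝ) ≤ (2 : ℝ) ^ (C * ((L : ℝ) + 3 - ((k + 5 : ℕ) : ℝ))) :=
    Real.one_le_rpow (by norm_num) (by nlinarith)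
  -- the number of leaves is odd and at least 5
  rcases Set.eq_empty_or_nonempty S with hSe | ⟨t0, ht0⟩
  · rw [hSe]
    have : gf (∅ : Set (List Bool)) = 0 := by
      unfold gf
      simp
    rw [this]
    exact zero_le
  have hm5 : ¬ Even m ∧ 5 ≤ m := by
    rw [hS] at ht0
    obtain ⟨h1, u, e, h2, h3, _⟩ := ht0
    have h4 : A * nb (k + 5) t0 ≤ m := by exact_mod_cast h3
    have h5 := nb_pos (k + 5) t0
    have h6 : 5 ≤ A * nb (k + 5) t0 := by
      calc 5 = 5 * 1 := rfl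
        _ ≤ A * nb (k + 5) t0 := Nat.mul_le_mul (by omega) h5
    obtain ⟨_, _, _, _, _, _, h7, _⟩ := brd_whole h1 h2 (by omega)
    exact ⟨h7, by omega⟩
  obtain ⟨hodd, hm⟩ := hm5
  rcases Nat.lt_or_ge m (L + 4 - (k + 5)) with hml | hml
  · -- few leaves: the trivial bound
    have h1 : S ⊆ BL L := by
      rw [hS]
      exact fun t ht => ht.1
    refine (gf_mono h1).trans ((gf_BL L).trans (ENNReal.ofReal_le_ofReal ?_))
    have h2 : (4 : ℝ) ^ m ≤ (2 : ℝ) ^ (C * ((L : ℝ) + 3 - ((k + 5 : ℕ) : ℝ))) := by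
      have h3 : (4 : ℝ) ^ m = (2 : ℝ) ^ (2 * (m : ℝ)) := by
        rw [Real.rpow_mul (by norm_num), Real.rpow_natCast]
        norm_num
      rw [h3]
      apply Real.rpow_le_rpow_of_exponent_le (by norm_num)
      have h4 : (m : ℝ) + (k + 5 : ℕ) ≤ L + 3 := by exact_mod_cast (by omega : m + (k + 5) ≤ L + 3)
      have h5 : (m : ℝ) ≤ (L : ℝ) + 3 - ((k + 5 : ℕ) : ℝ) := by linarith
      calc 2 * (m : ℝ) ≤ 2 * ((L : ℝ) + 3 - ((k + 5 : ℕ) : ℝ)) := by linarith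
        _ ≤ C * ((L : ℝ) + 3 - ((k + 5 : ℕ) : ℝ)) := by gcongr
    have h3 : 1 ≤ (2 : ℝ) ^ (C * ((L : ℝ) + 3 - ((k + 5 : ℕ) : ℝ))) * C / 4 ^ m := by
      rw [le_div_iff₀ (by positivity), one_mul]
      nlinarith
    nlinarith
  · -- many leaves
    obtain ⟨n, hn⟩ : ∃ n, n = m / (2 * Q) := ⟨_, rfl⟩
    have hn1 : 2 * Q * n ≤ m := by
      rw [hn]
      exact Nat.mul_div_le _ _
    obtain ⟨P, hPe⟩ : ∃ P : Set (List (List Bool)), P = {gs | gs ∈ C1o (2 ^ (k + 4)) (2 ^ (L + 1)) (k + 2) (2 ^ (k - w0)) n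
      ((m - 1) / 2) ∧ dbl (2 ^ (k + 4)) gs ≤ (⌈Λ⌉₊ + 2) * m} := ⟨_, rfl⟩
    have hsum : ∑' gs : {gs // gs ∈ P}, wl gs.1 ≤ ENNReal.ofReal (C0 * Ub (k + 4) / 4 ^ m) := by
      rw [hPe]
      exact hch k (2 ^ (L + 1)) m n (by omega) hm hodd hn1
    have hmod : m % 2 = 1 := Nat.odd_iff.1 (Nat.not_even_iff_odd.1 hodd)
    have hw := gf_whole (S := S) (P := P) (by
      intro gs hgs
      rw [hPe] at hgs
      obtain ⟨⟨g1, g2, g3, _⟩, _⟩ := hgs
      refine ⟨?_, fun g hg => ?_⟩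
      · rintro rfl
        simp at g1
      · obtain ⟨x, x1, _, x3⟩ := g3 g hg
        exact ⟨x, Nat.one_le_two_pow.trans x1, x3⟩) (by
      intro t ht
      rw [hS] at ht
      obtain ⟨h1, u, e, h2, h3, h4⟩ := ht
      obtain ⟨gs, g1, g2, g3, g4, g5, _, g7⟩ := brd_whole h1 h2 (by omega)
      refine ⟨gs, ?_, g2⟩
      rw [hPe]
      have hd : dbl (2 ^ (k + 4)) gs ≤ (⌈Λ⌉₊ + 2) * m := by
        have h5 : (dbl (2 ^ (k + 4)) (lws t e 1 (m - 2)) : ℝ) ≤ ⌈Λ⌉₊ * m :=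
          h4.trans (mul_le_mul_of_nonneg_right (Nat.le_ceil Λ) (Nat.cast_nonneg m))
        have h6 : dbl (2 ^ (k + 4)) (lws t e 1 (m - 2)) ≤ ⌈Λ⌉₊ * m := by exact_mod_cast h5
        have h7 : 2 * (L + 4 - (k + 5)) ≤ 2 * m := by omega
        calc dbl (2 ^ (k + 4)) gs ≤ ⌈Λ⌉₊ * m + 2 * m := by omega
          _ = _ := by ring
      refine ⟨?_, hd⟩
      -- the caps
      obtain ⟨us, gl, hus⟩ : ∃ us gl, gs = us ++ [gl] := by
        have hne : gs ≠ [] := by
          rintro rfl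
          simp at g1
          omega
        exact ⟨gs.dropLast, gs.getLast hne, (List.dropLast_append_getLast hne).symm⟩
      have hlen : us.length = 2 * ((m - 1) / 2) := by
        have : us.length + 1 = m := by
          rw [← g1, hus]
          simp
        omega
      have hbr : ∀ g ∈ us, g ∈ HB (2 ^ (k + 4)) := by
        intro g hg
        obtain ⟨x, x1, _, x3⟩ := g4 g (by rw [hus]; simp [hg])
        exact ⟨x, x1, x3⟩
      have hnn : ∀ g ∈ us, g ≠ [] := by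
        intro g hg
        obtain ⟨x, x1, x3⟩ := hbr g hg
        exact Brd_ne_nil x3 (Nat.one_le_two_pow.trans x1)
      obtain ⟨r, hr⟩ := unf_snoc us gl (by
        rintro rfl
        simp at hlen
        omega) hnn
      rw [← hus, g2] at hr
      have htSA : t ∈ SA := h1.2.1
      obtain ⟨c1, c2⟩ := caps_nc (k := k) (w := 2 ^ (k - w0)) Nat.one_le_two_pow htSA hr hbr
        (by rw [hlen]; exact ⟨(m - 1) / 2, by ring⟩)
      have hcaps : caps (k + 2) (2 ^ (k - w0)) 0 0 gs = caps (k + 2) (2 ^ (k - w0)) 0 0 us := by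
        rw [hus]
        exact caps_snoc _ _ _ us 0 0 gl hlen
      have hcard := hCc k (k - w0) t (caps (k + 2) (2 ^ (k - w0)) 0 0 us).toFinset (by omega) c1 (by
        intro x hx
        rw [List.mem_toFinset] at hx
        obtain ⟨i, j, hij, hj, l1, l2, l3, l4⟩ := c2 x hx
        refine ⟨i, j, by omega, hj, l1, l2, l3, ?_⟩
        rw [l4]
        push_cast
        rfl)
      refine ⟨?_, g3, g4, ?_, ?_⟩
      · rw [g1]
        omega
      · rw [hcaps]
        exact c1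
      · rw [hcaps]
        refine hcard.trans ?_
        have h5 : A * nb (k + 5) t ≤ m := by exact_mod_cast h3
        rw [hn, Nat.le_div_iff_mul_le (by omega), show k - (k - w0) = w0 by omega]
        calc Cc * 2 ^ w0 * nb (k + 5) t * (2 * Q) = Cc * 2 ^ w0 * (2 * Q) * nb (k + 5) t := by ring
          _ ≤ A * nb (k + 5) t := by
              rw [hA]
              gcongr
              omega
          _ ≤ m := h5)
    refine hw.trans (hsum.trans (ENNReal.ofReal_le_ofReal ?_))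
    have h3 : Ub (k + 4) ≤ 2 * Ub L := by
      have h4 : Ub (k + 4) ≤ Ub (L + 1) := Ub_mono (by omega)
      have h5 := Ub_succ L
      linarith
    have h4m : (0 : ℝ) < 4 ^ m := by positivity
    rw [div_le_iff₀ h4m]
    have h5 : Ub L * ((2 : ℝ) ^ (C * ((L : ℝ) + 3 - ((k + 5 : ℕ) : ℝ))) * C / 4 ^ m) * 4 ^ m =
        Ub L * ((2 : ℝ) ^ (C * ((L : ℝ) + 3 - ((k + 5 : ℕ) : ℝ))) * C) := by
      field_simp
    rw [h5]
    calc C0 * Ub (k + 4) ≤ C0 * (2 * Ub L) := by gcongr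
      _ = Ub L * (1 * (2 * C0)) := by ring
      _ ≤ Ub L * ((2 : ℝ) ^ (C * ((L : ℝ) + 3 - ((k + 5 : ℕ) : ℝ))) * C) := by
          gcongr
          rw [hC]
          linarith

end SDN

end HexObs
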