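import Pool.Agent.PHW7.Growth2
import Pool.Agent.TightN.SNum
import Pool.Agent.TightS.Params

/-!
SDN, lower bound of the dimension (board/DIM1), D: the numbers.
-/

set_option autoImplicit false

namespace HexObs

namespace SDN

open Finset TS

namespace CN

/-- the total cost of a link is small -/
theorem link_num (K1 K2 : ℝ) (h1 : 1 ≤ K1) (h2 : 1 ≤ K2) : ∃ s : ℕ, 6 ≤ s ∧ ∀ k : ℕ,
    K1 * UU (4 * 2 ^ (k + s)) * (84 * (514 + ∑ i ∈ range (k + 1), 2 ^ (i + 5) * (32 * K2) / Ub i)) ≤ 2 ^ (k + s) := by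
  obtain ⟨C, c, hC, hc, hc1, hgr⟩ := UU_growth2
  obtain ⟨G, hG1, hG⟩ := geo hc
  obtain ⟨Q, hQ⟩ : ∃ Q : ℝ, Q = K1 * 84 * (514 * 8 * C + 4096 * K2 * C * G) := ⟨_, rfl⟩
  have hQ0 : 0 < Q := by
    rw [hQ]
    positivity
  -- the choice of s
  obtain ⟨s0, hs0⟩ : ∃ s0 : ℕ, Q ≤ (2 : ℝ) ^ (c * (s0 : ℝ)) := by
    have hx : 1 < (2 : ℝ) ^ c := Real.one_lt_rpow (by norm_num) hc
    obtain ⟨n, hn⟩ := pow_unbounded_of_one_lt Q hx
    refine ⟨n, hn.le.trans (le_of_eq ?_)⟩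
    rw [Real.rpow_mul (by norm_num), Real.rpow_natCast]
  refine ⟨s0 + 6, by omega, fun k => ?_⟩
  obtain ⟨s, hs⟩ : ∃ s, s = s0 + 6 := ⟨_, rfl⟩
  rw [← hs]
  have hsQ : Q ≤ (2 : ℝ) ^ (c * (s : ℝ)) := by
    refine hs0.trans (Real.rpow_le_rpow_of_exponent_le (by norm_num) ?_)
    apply mul_le_mul_of_nonneg_left _ hc.le
    rw [hs]
    push_cast
    linarith
  obtain ⟨τ, hτ⟩ : ∃ τ : ℕ, τ = 4 * 2 ^ (k + s) := ⟨_, rfl⟩
  rw [← hτ]
  have hτ' : (τ : ℝ) = 2 ^ ((k : ℝ) + s + 2) := by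
    rw [hτ]
    push_cast
    rw [Real.rpow_add (by norm_num), Real.rpow_add (by norm_num), Real.rpow_natCast, Real.rpow_natCast, pow_add]
    norm_num
    ring
  have h2p : ∀ x : ℝ, 0 < (2 : ℝ) ^ x := fun x => Real.rpow_pos_of_pos (by norm_num) x
  -- growth from 2 ^ i
  have g1 : ∀ i : ℕ, i ≤ k → UU τ ≤ C * (2 : ℝ) ^ ((1 - c) * ((k : ℝ) + s + 2 - i)) * Ub i := by
    intro i hi
    have h3 := hgr (2 ^ i) τ Nat.one_le_two_pow (by
      rw [hτ]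
      have : 2 ^ i ≤ 2 ^ (k + s) := Nat.pow_le_pow_right (by norm_num) (by omega)
      omega)
    have h4 : ((τ : ℝ) / ((2 ^ i : ℕ) : ℝ)) = (2 : ℝ) ^ ((k : ℝ) + s + 2 - i) := by
      rw [hτ']
      push_cast
      rw [← Real.rpow_natCast, ← Real.rpow_sub (by norm_num)]
    rw [h4, ← Real.rpow_mul (by norm_num)] at h3
    rw [mul_comm (1 - c)]
    exact h3
  have hP : (2 : ℝ) ^ (k + s) = (2 : ℝ) ^ ((k : ℝ) + s) := by
    rw [← Real.rpow_natCast]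
    push_cast
    rfl
  -- the first term
  have t1 : UU τ * 514 ≤ 2 ^ (k + s) * (514 * 8 * C * (2 : ℝ) ^ (-(c * (s : ℝ)))) := by
    have h3 := g1 0 (Nat.zero_le _)
    have h4 : Ub 0 ≤ 2 := by
      unfold Ub UU
      rw [pow_zero, Finset.sum_range_succ, Finset.sum_range_one, uu_zero]
      have := uu_anti (show 0 ≤ 1 by norm_num)
      rw [uu_zero] at this
      linarith
    have h5 : (2 : ℝ) ^ ((1 - c) * ((k : ℝ) + s + 2 - ((0 : ℕ) : ℝ))) ≤ 4 * (2 ^ (k + s) * (2 : ℝ) ^ (-(c * (s : ℝ)))) := by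
      have e : (4 : ℝ) = 2 ^ (2 : ℝ) := by norm_num
      rw [hP, e, ← Real.rpow_add (by norm_num), ← Real.rpow_add (by norm_num)]
      apply Real.rpow_le_rpow_of_exponent_le (by norm_num)
      push_cast
      have : 0 ≤ c * ((k : ℝ) + 2) := by positivity
      nlinarith
    have h6 : 0 ≤ (2 : ℝ) ^ ((1 - c) * ((k : ℝ) + s + 2 - ((0 : ℕ) : ℝ))) := (h2p _).le
    calc UU τ * 514 ≤ (C * (2 : ℝ) ^ ((1 - c) * ((k : ℝ) + s + 2 - ((0 : ℕ) : ℝ))) * Ub 0) * 514 := by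
          gcongr
      _ ≤ (C * (4 * (2 ^ (k + s) * (2 : ℝ) ^ (-(c * (s : ℝ))))) * 2) * 514 := by
          have := Ub_pos 0
          gcongr
      _ = _ := by ring
  -- the sum
  have t2 : ∀ i ∈ range (k + 1), UU τ * (2 ^ (i + 5) * (32 * K2) / Ub i) ≤
      2 ^ (k + s) * (4096 * K2 * C * (2 : ℝ) ^ (-(c * (s : ℝ)))) * (2 : ℝ) ^ (-(c * ((k - i : ℕ) : ℝ))) := by
    intro i hi
    rw [Finset.mem_range] at hi
    have hU := Ub_pos i
    have h3 := g1 i (by omega)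
    have h4 : UU τ * (2 ^ (i + 5) * (32 * K2) / Ub i) ≤
        C * (2 : ℝ) ^ ((1 - c) * ((k : ℝ) + s + 2 - i)) * (2 ^ (i + 5) * (32 * K2)) := by
      calc UU τ * (2 ^ (i + 5) * (32 * K2) / Ub i) ≤
            (C * (2 : ℝ) ^ ((1 - c) * ((k : ℝ) + s + 2 - i)) * Ub i) * (2 ^ (i + 5) * (32 * K2) / Ub i) := by
              gcongr
        _ = _ := by field_simp
    refine h4.trans ?_
    have h5 : (2 : ℝ) ^ ((1 - c) * ((k : ℝ) + s + 2 - i)) * 2 ^ (i + 5) ≤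
        128 * (2 ^ (k + s) * (2 : ℝ) ^ (-(c * (s : ℝ))) * (2 : ℝ) ^ (-(c * ((k - i : ℕ) : ℝ)))) := by
      have e1 : (2 : ℝ) ^ (i + 5) = (2 : ℝ) ^ ((i : ℝ) + 5) := by
        rw [← Real.rpow_natCast]
        push_cast
        rfl
      have e2 : (128 : ℝ) = 2 ^ (7 : ℝ) := by norm_num
      rw [hP, e1, e2, ← Real.rpow_add (by norm_num), ← Real.rpow_add (by norm_num), ← Real.rpow_add (by norm_num),
        ← Real.rpow_add (by norm_num)]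
      apply Real.rpow_le_rpow_of_exponent_le (by norm_num)
      rw [Nat.cast_sub (by omega : i ≤ k)]
      nlinarith
    calc C * (2 : ℝ) ^ ((1 - c) * ((k : ℝ) + s + 2 - i)) * (2 ^ (i + 5) * (32 * K2)) =
          (32 * K2 * C) * ((2 : ℝ) ^ ((1 - c) * ((k : ℝ) + s + 2 - i)) * 2 ^ (i + 5)) := by ring
      _ ≤ (32 * K2 * C) * (128 * (2 ^ (k + s) * (2 : ℝ) ^ (-(c * (s : ℝ))) * (2 : ℝ) ^ (-(c * ((k - i : ℕ) : ℝ))))) := by
          gcongr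
      _ = _ := by ring
  have t3 : ∑ i ∈ range (k + 1), (2 : ℝ) ^ (-(c * ((k - i : ℕ) : ℝ))) ≤ G := by
    refine le_trans (le_of_eq ?_) (hG (k + 1))
    rw [← Finset.sum_range_reflect]
    refine Finset.sum_congr rfl fun i hi => ?_
    rw [Finset.mem_range] at hi
    have : k - (k + 1 - 1 - i) = i := by omega
    rw [this]
  have t4 : UU τ * ∑ i ∈ range (k + 1), 2 ^ (i + 5) * (32 * K2) / Ub i ≤
      2 ^ (k + s) * (4096 * K2 * C * (2 : ℝ) ^ (-(c * (s : ℝ)))) * G := by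
    rw [Finset.mul_sum]
    refine (Finset.sum_le_sum t2).trans ?_
    rw [← Finset.mul_sum]
    have := h2p (-(c * (s : ℝ)))
    gcongr
  have hfin : Q * (2 : ℝ) ^ (-(c * (s : ℝ))) ≤ 1 := by
    rw [Real.rpow_neg (by norm_num), ← div_eq_mul_inv, div_le_one (h2p _)]
    exact hsQ
  calc K1 * UU τ * (84 * (514 + ∑ i ∈ range (k + 1), 2 ^ (i + 5) * (32 * K2) / Ub i)) =
        K1 * 84 * (UU τ * 514 + UU τ * ∑ i ∈ range (k + 1), 2 ^ (i + 5) * (32 * K2) / Ub i) := by ring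
    _ ≤ K1 * 84 * (2 ^ (k + s) * (514 * 8 * C * (2 : ℝ) ^ (-(c * (s : ℝ)))) +
        2 ^ (k + s) * (4096 * K2 * C * (2 : ℝ) ^ (-(c * (s : ℝ)))) * G) := by gcongr
    _ = 2 ^ (k + s) * (Q * (2 : ℝ) ^ (-(c * (s : ℝ)))) := by
        rw [hQ]
        ring
    _ ≤ 2 ^ (k + s) * 1 := by gcongr
    _ = _ := mul_one _

end CN

end SDN

end HexObs
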