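import Pool.Agent.SDN.TwoK
import Pool.Agent.SDN.TwoScale
import Pool.Agent.SDN.CleanNorm

/-!
SDN, lower bound of the dimension (board/DIM1), D: clean_norm without hypotheses.
-/

set_option autoImplicit false

namespace HexObs

namespace SDN

open Finset TS

open scoped ENNReal

/-- one more leaf, measured at two scales -/
theorem two_scale : ∃ K : ℝ, 1 ≤ K ∧ ∀ (D0 k0 D1 k1 E N : ℕ) (Φ : List Bool → ℝ≥0∞), Hered Φ → 2 ^ (k0 + 4) ≤ D0 →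
    2 ^ (k1 + 4) ≤ D1 → D0 ≤ E → D1 ≤ E → E ≤ N →
    xT D0 k0 (vA D0 (BrR E N) Φ) ≤ ENNReal.ofReal (K * (UU N / Ub k0)) * xT D1 k1 Φ :=
  two_scale_of fun h => k3T h

/-- the long leaves without backtracks have exponentially small weight -/
theorem clean_norm : ∃ (K : ℝ) (s : ℕ), 1 ≤ K ∧ 6 ≤ s ∧ ∀ (k n : ℕ) (Φ : List Bool → ℝ≥0∞), HerD (2 ^ (k + 4)) Φ →
    xT (2 ^ (k + 4)) k (vA (2 ^ (k + 4)) (CK (k + 5) (k + s) n ∩ HB (2 ^ (k + 4))) Φ) ≤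
      ENNReal.ofReal (K / 4 ^ n) * xT (2 ^ (k + 4)) k Φ ∧
    Rec8.sw (CK (k + 5) (k + s) n ∩ HB (2 ^ (k + 4))) Φ ≤ ENNReal.ofReal (K * Ub k / 4 ^ n) * xT (2 ^ (k + 4)) k Φ :=
  clean_norm_of two_scale

end SDN

end HexObs
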