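import Pool.Agent.TightN.SK3

/-!
SDN, norm part: sums over the giants over the in-level of the window j1, at the scale e ≤ k: (g1), (g1o).
-/

set_option autoImplicit false

namespace HexObs

open Finset TS

open scoped ENNReal

open Rec8 (sw mb)

namespace SDN

variable {C δ : ℝ}

private theorem GA_pos (x : ℝ) : 0 < (2 : ℝ) ^ x := Real.rpow_pos_of_pos two_pos x

private theorem GA_le {x y : ℝ} (h : x ≤ y) : (2 : ℝ) ^ x ≤ (2 : ℝ) ^ y :=
  Real.rpow_le_rpow_of_exponent_le one_le_two h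

/-- geometric sum below m -/
private theorem GA_geo {K3 : ℝ} (hK3 : ∀ n : ℕ, ∑ i ∈ range n, (2 : ℝ) ^ (-(δ * (i : ℝ))) ≤ K3)
    {b m : ℕ} (hmb : m ≤ b) (hδ : 0 < δ) :
    ∑ a ∈ range m, (2 : ℝ) ^ (-(δ * ((b - a : ℕ) : ℝ))) ≤ K3 * (2 : ℝ) ^ (-(δ * ((b : ℝ) - m))) := by
  rw [← sum_range_reflect]
  calc ∑ j ∈ range m, (2 : ℝ) ^ (-(δ * ((b - (m - 1 - j) : ℕ) : ℝ)))
      ≤ ∑ j ∈ range m, (2 : ℝ) ^ (-(δ * (j : ℝ))) * (2 : ℝ) ^ (-(δ * ((b : ℝ) - m))) := by
        refine sum_le_sum fun j hj => ?_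
        rw [mem_range] at hj
        rw [← Real.rpow_add two_pos]
        apply GA_le
        have h1 : ((b - (m - 1 - j) : ℕ) : ℝ) = (b : ℝ) - m + 1 + j := by
          have h2 : (b - (m - 1 - j)) + m = b + 1 + j := by omega
          have h3 : (((b - (m - 1 - j)) + m : ℕ) : ℝ) = ((b + 1 + j : ℕ) : ℝ) := by rw [h2]
          push_cast at h3
          linarith
        rw [h1]
        nlinarith
    _ = (∑ j ∈ range m, (2 : ℝ) ^ (-(δ * (j : ℝ)))) * (2 : ℝ) ^ (-(δ * ((b : ℝ) - m))) := by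
        rw [sum_mul]
    _ ≤ K3 * (2 : ℝ) ^ (-(δ * ((b : ℝ) - m))) :=
        mul_le_mul_of_nonneg_right (hK3 m) (GA_pos _).le

private lemma GA_const (e : ℕ) (c : ℝ≥0∞) :
    (∑' r : ℕ, (if 2 ^ (e - 1) < r then sw (Irr r) (fun _ => c) else 0)) =
      (∑' r : ℕ, (if 2 ^ (e - 1) < r then kap' r else 0)) * c := by
  rw [← ENNReal.tsum_mul_right]
  refine tsum_congr fun r => ?_
  split_ifs
  · have h2 := Rec8.sw_mul_right (Irr r) c (fun _ => 1)
    rw [Rec8.sw_one] at h2
    simp only [one_mul] at h2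
    exact h2
  · rw [zero_mul]

/-- (g1) giants over the in-level of the window j1 -/
theorem g1 (h : Inp C δ) : ∃ K c : ℝ, 1 ≤ K ∧ 0 < c ∧ ∀ (D k e j1 b : ℕ) (I : List Bool), 2 ^ (k + 4) ≤ D →
    j1 + 3 ≤ e → e ≤ k → b ≤ k →
    ∑ a ∈ range (j1 + 2), ∑' r : ℕ, (if 2 ^ (e - 1) < r then sw (Irr r) (fun P => KT D b I a P) else 0) ≤
      ENNReal.ofReal (K / Ub e * (2 : ℝ) ^ (-(c * ((e : ℝ) - j1)))) * Sw D k b I := by
  obtain ⟨K1, hK1, h1⟩ := giants
  obtain ⟨K2, hK2, h2⟩ := mass_ge h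
  obtain ⟨K3, hK3, h3⟩ := geo h.pos
  have hδ := h.pos
  have hk0 := kap0_pos
  obtain ⟨c, hc⟩ : ∃ c, c = min (kap0 / 8) δ := ⟨_, rfl⟩
  have hc0 : 0 < c := by rw [hc]; exact lt_min (by linarith) hδ
  have hck : c ≤ kap0 / 8 := by rw [hc]; exact min_le_left _ _
  have hcδ : c ≤ δ := by rw [hc]; exact min_le_right _ _
  have hK' : 1 ≤ K2 * K3 * (2 : ℝ) ^ (2 * c) := by
    have e1 : 1 ≤ (2 : ℝ) ^ (2 * c) := Real.one_le_rpow one_le_two (by linarith)
    nlinarith [mul_le_mul hK2 hK3 zero_le_one (by linarith : (0 : ℝ) ≤ K2)]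
  refine ⟨K1 + K2 * K3 * (2 : ℝ) ^ (2 * c), c, by linarith, hc0, ?_⟩
  intro D k e j1 b I hD hj he hb
  have hUe := Ub_pos e
  have hUb := Ub_pos b
  obtain ⟨E, hE⟩ : ∃ E, E = (2 : ℝ) ^ (-(c * ((e : ℝ) - j1))) := ⟨_, rfl⟩
  have hE0 : 0 < E := by rw [hE]; exact GA_pos _
  rw [← hE]
  have hj' : (j1 : ℝ) + 3 ≤ e := by exact_mod_cast hj
  have he' : (e : ℝ) ≤ k := by exact_mod_cast he
  have hb' : (b : ℝ) ≤ k := by exact_mod_cast hb
  rw [← sum_filter_add_sum_filter_not (range (j1 + 2)) (fun a => b ≤ a)]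
  -- first part
  have p1 : ∑ a ∈ (range (j1 + 2)).filter (fun a => b ≤ a),
      ∑' r : ℕ, (if 2 ^ (e - 1) < r then sw (Irr r) (fun P => KT D b I a P) else 0) ≤
      ENNReal.ofReal (K1 / Ub e * E) *
        ∑ a ∈ Icc b (k + 1), ENNReal.ofReal ((2 : ℝ) ^ (kap0 / 4 * ((k : ℝ) + 1 - a))) *
          EE D b a (rev I) := by
    rw [mul_sum]
    calc ∑ a ∈ (range (j1 + 2)).filter (fun a => b ≤ a),
          ∑' r : ℕ, (if 2 ^ (e - 1) < r then sw (Irr r) (fun P => KT D b I a P) else 0)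
        ≤ ∑ a ∈ (range (j1 + 2)).filter (fun a => b ≤ a), ENNReal.ofReal (K1 / Ub e * E) *
            (ENNReal.ofReal ((2 : ℝ) ^ (kap0 / 4 * ((k : ℝ) + 1 - a))) * EE D b a (rev I)) := by
          refine sum_le_sum fun a ha => ?_
          rw [mem_filter, mem_range] at ha
          have ha' : (a : ℝ) ≤ j1 + 1 := by
            have : a ≤ j1 + 1 := by omega
            exact_mod_cast this
          have s1 : (∑' r : ℕ, (if 2 ^ (e - 1) < r then sw (Irr r) (fun P => KT D b I a P) else 0)) ≤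
              ∑' r : ℕ, (if 2 ^ (e - 1) < r then sw (Irr r) (fun _ => EE D b a (rev I)) else 0) := by
            refine ENNReal.tsum_le_tsum fun r => ?_
            split_ifs
            · exact Rec8.sw_mono' fun P _ => KT_le_left D b I a P
            · exact le_rfl
          refine s1.trans ?_
          rw [GA_const]
          refine (mul_le_mul_left (h1 e) _).trans ?_
          rw [← mul_assoc, ← ENNReal.ofReal_mul (by positivity)]
          gcongr
          rw [mul_assoc]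
          refine le_mul_of_one_le_right (by positivity) ?_
          rw [hE, ← Real.rpow_add two_pos]
          apply Real.one_le_rpow one_le_two
          nlinarith
      _ ≤ ∑ a ∈ Icc b (k + 1), ENNReal.ofReal (K1 / Ub e * E) *
            (ENNReal.ofReal ((2 : ℝ) ^ (kap0 / 4 * ((k : ℝ) + 1 - a))) * EE D b a (rev I)) := by
          apply sum_le_sum_of_subset
          intro a ha
          rw [mem_filter, mem_range] at ha
          rw [mem_Icc]
          omega
  -- second part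
  have p2 : ∑ a ∈ (range (j1 + 2)).filter (fun a => ¬ b ≤ a),
      ∑' r : ℕ, (if 2 ^ (e - 1) < r then sw (Irr r) (fun P => KT D b I a P) else 0) ≤
      ENNReal.ofReal (K2 * K3 * (2 : ℝ) ^ (2 * c) / Ub e * E) *
        ENNReal.ofReal ((2 : ℝ) ^ (kap0 / 4 * ((k : ℝ) - b)) * Ub b) := by
    have hD' : 2 ^ (b + 3) ≤ D := le_trans (Nat.pow_le_pow_right (by norm_num) (by omega)) hD
    have hf : (range (j1 + 2)).filter (fun a => ¬ b ≤ a) = range (min b (j1 + 2)) := by
      ext a
      rw [mem_filter, mem_range, mem_range]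
      omega
    rw [hf]
    obtain ⟨m, hm⟩ : ∃ m, m = min b (j1 + 2) := ⟨_, rfl⟩
    obtain ⟨b', hbe⟩ : ∃ b', b' = min b e := ⟨_, rfl⟩
    rw [← hm]
    have hmb : m ≤ b := by omega
    have hmj : m ≤ j1 + 2 := by omega
    have hmb' : m ≤ b' := by omega
    have hb'e : b' ≤ e := by omega
    have hm3 : (m : ℝ) ≤ j1 + 2 := by exact_mod_cast hmj
    have hm4 : (m : ℝ) ≤ b' := by exact_mod_cast hmb'
    have hbe1 : (b' : ℝ) ≤ e := by exact_mod_cast hb'e
    have hsub : ((e - b : ℕ) : ℝ) = (e : ℝ) - b' := by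
      have : e - b + b' = e := by omega
      have h0 : ((e - b + b' : ℕ) : ℝ) = (e : ℝ) := by rw [this]
      push_cast at h0
      linarith
    have hkb : (e : ℝ) - b' ≤ k - b := by
      rcases le_total b e with h0 | h0
      · have : b' = b := by omega
        rw [this]
        linarith
      · have : b' = e := by omega
        rw [this]
        linarith
    calc ∑ a ∈ range m, ∑' r : ℕ, (if 2 ^ (e - 1) < r then sw (Irr r) (fun P => KT D b I a P) else 0)
        ≤ ∑ a ∈ range m, ENNReal.ofReal (K2 * (Ub b / Ub e *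
            (2 : ℝ) ^ (kap0 / 8 * ((e : ℝ) - b'))) * (2 : ℝ) ^ (-(δ * ((b' - a : ℕ) : ℝ)))) := by
          refine sum_le_sum fun a ha => ?_
          rw [mem_range] at ha
          have hab : a ≤ b := by omega
          have s1 : (∑' r : ℕ, (if 2 ^ (e - 1) < r then sw (Irr r) (fun P => KT D b I a P) else 0)) ≤
              ∑' r : ℕ, (if 2 ^ (e - 1) < r then sw (Irr r) (fun P => EE D a b P) else 0) := by
            refine ENNReal.tsum_le_tsum fun r => ?_
            split_ifs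
            · exact Rec8.sw_mono' fun P _ => KT_le_right D b I a P
            · exact le_rfl
          refine s1.trans ((h2 D b a e hab hD').trans (ENNReal.ofReal_le_ofReal (le_of_eq ?_)))
          rw [TT, hsub, ← hbe]
          ring
      _ = ENNReal.ofReal (∑ a ∈ range m, K2 * (Ub b / Ub e *
            (2 : ℝ) ^ (kap0 / 8 * ((e : ℝ) - b'))) * (2 : ℝ) ^ (-(δ * ((b' - a : ℕ) : ℝ)))) := by
          rw [ENNReal.ofReal_sum_of_nonneg]
          intro a _
          positivity
      _ ≤ ENNReal.ofReal (K2 * K3 * (2 : ℝ) ^ (2 * c) / Ub e * E *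
            ((2 : ℝ) ^ (kap0 / 4 * ((k : ℝ) - b)) * Ub b)) := by
          apply ENNReal.ofReal_le_ofReal
          rw [← mul_sum]
          have g1 := GA_geo (δ := δ) h3 hmb' hδ
          calc K2 * (Ub b / Ub e * (2 : ℝ) ^ (kap0 / 8 * ((e : ℝ) - b'))) *
              ∑ a ∈ range m, (2 : ℝ) ^ (-(δ * ((b' - a : ℕ) : ℝ)))
              ≤ K2 * (Ub b / Ub e * (2 : ℝ) ^ (kap0 / 8 * ((e : ℝ) - b'))) *
                (K3 * (2 : ℝ) ^ (-(δ * ((b' : ℝ) - m)))) := by
                gcongr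
            _ = K2 * K3 * (Ub b / Ub e) * ((2 : ℝ) ^ (kap0 / 8 * ((e : ℝ) - b')) *
                (2 : ℝ) ^ (-(δ * ((b' : ℝ) - m)))) := by ring
            _ ≤ K2 * K3 * (Ub b / Ub e) * ((2 : ℝ) ^ (2 * c) * E *
                (2 : ℝ) ^ (kap0 / 4 * ((k : ℝ) - b))) := by
                have hK23 : 0 ≤ K2 * K3 := by nlinarith
                apply mul_le_mul_of_nonneg_left _ (by positivity)
                rw [hE, ← Real.rpow_add two_pos, ← Real.rpow_add two_pos, ← Real.rpow_add two_pos]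
                apply GA_le
                have q1 : c * ((e : ℝ) - b') ≤ kap0 / 8 * ((e : ℝ) - b') :=
                  mul_le_mul_of_nonneg_right hck (by linarith)
                have q2 : c * ((b' : ℝ) - m) ≤ δ * ((b' : ℝ) - m) :=
                  mul_le_mul_of_nonneg_right hcδ (by linarith)
                have q3 : c * (m : ℝ) ≤ c * (j1 + 2) :=
                  mul_le_mul_of_nonneg_left hm3 hc0.le
                have q4 : kap0 / 4 * ((e : ℝ) - b') ≤ kap0 / 4 * ((k : ℝ) - b) :=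
                  mul_le_mul_of_nonneg_left hkb (by linarith)
                nlinarith
            _ = K2 * K3 * (2 : ℝ) ^ (2 * c) / Ub e * E *
                ((2 : ℝ) ^ (kap0 / 4 * ((k : ℝ) - b)) * Ub b) := by ring
      _ = ENNReal.ofReal (K2 * K3 * (2 : ℝ) ^ (2 * c) / Ub e * E) *
          ENNReal.ofReal ((2 : ℝ) ^ (kap0 / 4 * ((k : ℝ) - b)) * Ub b) := by
          rw [ENNReal.ofReal_mul]
          have hK23 : 0 ≤ K2 * K3 := by nlinarith
          positivity
  have r1 : K1 / Ub e * E ≤ (K1 + K2 * K3 * (2 : ℝ) ^ (2 * c)) / Ub e * E := by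
    gcongr
    linarith
  have r2 : K2 * K3 * (2 : ℝ) ^ (2 * c) / Ub e * E ≤
      (K1 + K2 * K3 * (2 : ℝ) ^ (2 * c)) / Ub e * E := by
    gcongr
    linarith
  calc _ ≤ _ := add_le_add p1 p2
    _ ≤ ENNReal.ofReal ((K1 + K2 * K3 * (2 : ℝ) ^ (2 * c)) / Ub e * E) *
        (∑ a ∈ Icc b (k + 1), ENNReal.ofReal ((2 : ℝ) ^ (kap0 / 4 * ((k : ℝ) + 1 - a))) *
          EE D b a (rev I)) +
        ENNReal.ofReal ((K1 + K2 * K3 * (2 : ℝ) ^ (2 * c)) / Ub e * E) *
        ENNReal.ofReal ((2 : ℝ) ^ (kap0 / 4 * ((k : ℝ) - b)) * Ub b) := by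
        gcongr
    _ = ENNReal.ofReal ((K1 + K2 * K3 * (2 : ℝ) ^ (2 * c)) / Ub e * E) * Sw D k b I := by
        rw [Sw, mul_add]
        exact add_comm _ _

/-- the weight for the two largest blocks -/
private lemma GA_Sw_le (h : Inp C δ) {D k b2 : ℕ} (P : List Bool) (hD : 2 ^ (k + 4) ≤ D) (h1 : k < b2 + 2)
    (h2 : b2 ≤ k) : Sw D k b2 P ≤ ENNReal.ofReal ((2 + 12 * C) * Ub k) := by
  have hC := h.one_le
  have hk0 := kap0_pos
  have hk1 := kap0_lt
  have hUk := Ub_pos k
  have hb2 : (b2 : ℝ) ≤ k := by exact_mod_cast h2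
  have hb3 : (k : ℝ) - b2 ≤ 1 := by
    have : k ≤ b2 + 1 := by omega
    have : (k : ℝ) ≤ b2 + 1 := by exact_mod_cast this
    linarith
  have two : ∀ x : ℝ, x ≤ 1 → (2 : ℝ) ^ x ≤ 2 := fun x hx => by
    calc (2 : ℝ) ^ x ≤ (2 : ℝ) ^ (1 : ℝ) := GA_le hx
      _ = 2 := Real.rpow_one 2
  have e1 : ENNReal.ofReal ((2 : ℝ) ^ (kap0 / 4 * ((k : ℝ) - b2)) * Ub b2) ≤ ENNReal.ofReal (2 * Ub k) := by
    apply ENNReal.ofReal_le_ofReal
    refine mul_le_mul (two _ ?_) (Ub_mono h2) (Ub_pos _).le (by norm_num)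
    nlinarith
  have e2 : ∑ a ∈ Icc b2 (k + 1), ENNReal.ofReal ((2 : ℝ) ^ (kap0 / 4 * ((k : ℝ) + 1 - a))) * EE D b2 a (rev P) ≤
      ENNReal.ofReal (12 * C * Ub k) := by
    calc ∑ a ∈ Icc b2 (k + 1), ENNReal.ofReal ((2 : ℝ) ^ (kap0 / 4 * ((k : ℝ) + 1 - a))) * EE D b2 a (rev P)
        ≤ ∑ a ∈ Icc b2 (k + 1), ENNReal.ofReal (4 * C * Ub k) := by
          refine sum_le_sum fun a ha => ?_
          rw [mem_Icc] at ha
          have ha1 : (k : ℝ) + 1 - a ≤ 2 := by
            have : k + 1 ≤ a + 2 := by omega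
            have : (k : ℝ) + 1 ≤ a + 2 := by exact_mod_cast this
            linarith
          have hDa : 2 ^ (a + 3) ≤ D := le_trans (Nat.pow_le_pow_right (by norm_num) (by omega)) hD
          refine (mul_le_mul_right (h.cu D a b2 ha.1 hDa (rev P)) _).trans ?_
          rw [← ENNReal.ofReal_mul (GA_pos _).le]
          apply ENNReal.ofReal_le_ofReal
          have hUa : Ub a ≤ 2 * Ub k := (Ub_mono ha.2).trans (Ub_succ k)
          have hw : (2 : ℝ) ^ (kap0 / 4 * ((k : ℝ) + 1 - a)) ≤ 2 := two _ (by nlinarith)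
          have hUa0 := Ub_pos a
          calc (2 : ℝ) ^ (kap0 / 4 * ((k : ℝ) + 1 - a)) * (C * Ub a) ≤ 2 * (C * (2 * Ub k)) := by
                gcongr
            _ = 4 * C * Ub k := by ring
      _ = (Icc b2 (k + 1)).card * ENNReal.ofReal (4 * C * Ub k) := by
          rw [sum_const, nsmul_eq_mul]
      _ ≤ 3 * ENNReal.ofReal (4 * C * Ub k) := by
          gcongr
          have : (Icc b2 (k + 1)).card ≤ 3 := by
            rw [Nat.card_Icc]
            omega
          exact_mod_cast this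
      _ = ENNReal.ofReal (12 * C * Ub k) := by
          have : (3 : ℝ≥0∞) = ENNReal.ofReal 3 := by norm_num
          rw [this, ← ENNReal.ofReal_mul (by norm_num)]
          congr 1
          ring
  unfold Sw
  refine (add_le_add e1 e2).trans ?_
  rw [← ENNReal.ofReal_add (by positivity) (by positivity)]
  apply ENNReal.ofReal_le_ofReal
  nlinarith

private lemma GA_Ub_le {e k : ℕ} (h : e ≤ k) : Ub k ≤ (2 : ℝ) ^ (k - e) * Ub e := by
  obtain ⟨n, rfl⟩ := Nat.exists_eq_add_of_le h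
  rw [Nat.add_sub_cancel_left]
  clear h
  induction n with
  | zero => simp
  | succ n ih =>
    have h1 := Ub_succ (e + n)
    calc Ub (e + (n + 1)) ≤ 2 * Ub (e + n) := h1
      _ ≤ 2 * ((2 : ℝ) ^ n * Ub e) := by linarith
      _ = (2 : ℝ) ^ (n + 1) * Ub e := by ring

/-- (g1') giants over the in-level of the window j1, which may be the pieces over the out-level of the window k -/
theorem g1o (h : Inp C δ) : ∃ K c : ℝ, 1 ≤ K ∧ 0 < c ∧ ∀ (D k e j1 b : ℕ) (I : List Bool), 2 ^ (k + 4) ≤ D →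
    j1 + 3 ≤ e → e ≤ k → b ≤ k →
    ∑ a ∈ range (j1 + 2), ∑ b2 ∈ range (k + 1), ∑' r : ℕ, (if 2 ^ (e - 1) < r then mb k b2 r *
      sw (Irr r) (fun P => KT D b I a P * Sw D k b2 P) else 0) ≤
      ENNReal.ofReal (K * (2 : ℝ) ^ (k - e) * (2 : ℝ) ^ (-(c * ((e : ℝ) - j1)))) * Sw D k b I := by
  obtain ⟨K1, c1, hK1, hc1, h1⟩ := g1 h
  obtain ⟨K2, c2, hK2, hc2, h2⟩ := k3' h
  have hC := h.one_le
  refine ⟨(2 * (2 + 12 * C)) * K1 + 2 * K2, min c1 c2, by nlinarith, lt_min hc1 hc2, ?_⟩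
  intro D k e j1 b I hD hj he hb
  have hj' : (j1 : ℝ) + 3 ≤ e := by exact_mod_cast hj
  have he' : (e : ℝ) ≤ k := by exact_mod_cast he
  have hUe := Ub_pos e
  have hUk := Ub_pos k
  have h2ke : (1 : ℝ) ≤ 2 ^ (k - e) := one_le_pow₀ (by norm_num)
  obtain ⟨E, hE⟩ : ∃ E, E = (2 : ℝ) ^ (-(min c1 c2 * ((e : ℝ) - j1))) := ⟨_, rfl⟩
  rw [← hE]
  have hE0 : 0 < E := by rw [hE]; exact GA_pos _
  have hE1 : (2 : ℝ) ^ (-(c1 * ((e : ℝ) - j1))) ≤ E := by
    rw [hE]
    apply GA_le
    have : min c1 c2 * ((e : ℝ) - j1) ≤ c1 * ((e : ℝ) - j1) :=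
      mul_le_mul_of_nonneg_right (min_le_left _ _) (by linarith)
    linarith
  have hE2 : (2 : ℝ) ^ (-(c2 * ((k : ℝ) - j1))) ≤ E := by
    rw [hE]
    apply GA_le
    have q1 : min c1 c2 * ((e : ℝ) - j1) ≤ c2 * ((e : ℝ) - j1) :=
      mul_le_mul_of_nonneg_right (min_le_right _ _) (by linarith)
    have q2 : c2 * ((e : ℝ) - j1) ≤ c2 * ((k : ℝ) - j1) :=
      mul_le_mul_of_nonneg_left (by linarith) hc2.le
    linarith
  obtain ⟨A, hA⟩ : ∃ A : ℝ, A = (2 + 12 * C) * Ub k := ⟨_, rfl⟩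
  have hA0 : 0 ≤ A := by rw [hA]; positivity
  -- pointwise
  have hpt : ∀ a : ℕ, ∑ b2 ∈ range (k + 1), ∑' r : ℕ, (if 2 ^ (e - 1) < r then mb k b2 r *
      sw (Irr r) (fun P => KT D b I a P * Sw D k b2 P) else 0) ≤
      ENNReal.ofReal (2 * A) * (∑' r : ℕ, (if 2 ^ (e - 1) < r then sw (Irr r) (fun P => KT D b I a P) else 0)) +
      2 * ∑ b2 ∈ range (k + 1), ∑' r : ℕ, mb k a r * mb k b2 r *
        sw (Irr r) (fun P => KT D b I a P * Sw D k b2 P) := by
    intro a
    have s1 : ∀ b2 ∈ range (k + 1), (∑' r : ℕ, (if 2 ^ (e - 1) < r then mb k b2 r *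
        sw (Irr r) (fun P => KT D b I a P * Sw D k b2 P) else 0)) ≤
        (if k < b2 + 2 then ENNReal.ofReal A *
          (∑' r : ℕ, (if 2 ^ (e - 1) < r then sw (Irr r) (fun P => KT D b I a P) else 0)) else 0) +
        2 * ∑' r : ℕ, mb k a r * mb k b2 r * sw (Irr r) (fun P => KT D b I a P * Sw D k b2 P) := by
      intro b2 hb2
      rw [mem_range] at hb2
      have s2 : (if k < b2 + 2 then ENNReal.ofReal A *
          (∑' r : ℕ, (if 2 ^ (e - 1) < r then sw (Irr r) (fun P => KT D b I a P) else 0)) else 0) =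
          ∑' r : ℕ, (if k < b2 + 2 then ENNReal.ofReal A *
            (if 2 ^ (e - 1) < r then sw (Irr r) (fun P => KT D b I a P) else 0) else 0) := by
        split_ifs
        · exact ENNReal.tsum_mul_left.symm
        · simp
      rw [s2, ← ENNReal.tsum_mul_left, ← ENNReal.tsum_add]
      refine ENNReal.tsum_le_tsum fun r => ?_
      by_cases hr : 2 ^ (e - 1) < r
      swap
      · rw [if_neg hr]
        exact zero_le
      rw [if_pos hr, if_pos hr]
      by_cases hr2 : 2 ^ (k - 1) < r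
      · refine le_trans ?_ le_add_self
        have hmb : 1 ≤ 2 * mb k a r := by
          unfold mb
          rw [if_neg (fun h0 => absurd h0.2 (by omega))]
          have h5 : (2 : ℝ≥0∞) ^ k ≤ 2 * r := by
            have h6 : 2 ^ k ≤ 2 * r := by
              rcases Nat.eq_zero_or_pos k with h0 | h0
              · rw [h0] at hr2 ⊢
                omega
              · have : 2 ^ k = 2 * 2 ^ (k - 1) := by
                  rw [← pow_succ']
                  congr 1
                  omega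
                omega
            exact_mod_cast h6
          rcases le_total (1 : ℝ≥0∞) ((r : ℝ≥0∞) / 2 ^ k) with h6 | h6
          · rw [min_eq_left h6, mul_one]
            norm_num
          · rw [min_eq_right h6, ← mul_div_assoc]
            rw [ENNReal.le_div_iff_mul_le (Or.inl (by positivity)) (Or.inl (by simp)), one_mul]
            exact h5
        calc mb k b2 r * sw (Irr r) (fun P => KT D b I a P * Sw D k b2 P)
            = 1 * (mb k b2 r * sw (Irr r) (fun P => KT D b I a P * Sw D k b2 P)) := (one_mul _).symm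
          _ ≤ (2 * mb k a r) * (mb k b2 r * sw (Irr r) (fun P => KT D b I a P * Sw D k b2 P)) :=
              mul_le_mul_left hmb _
          _ = _ := by ring
      · refine le_trans ?_ le_self_add
        by_cases hb3 : k < b2 + 2
        · rw [if_pos hb3]
          have h5 : mb k b2 r ≤ 1 := by
            unfold mb
            split_ifs
            · exact zero_le
            · exact min_le_left _ _
          calc mb k b2 r * sw (Irr r) (fun P => KT D b I a P * Sw D k b2 P)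
              ≤ 1 * sw (Irr r) (fun P => KT D b I a P * ENNReal.ofReal A) := by
                refine mul_le_mul' h5 (Rec8.sw_mono' fun P _ => ?_)
                refine mul_le_mul_right ?_ _
                rw [hA]
                exact GA_Sw_le h P hD hb3 (by omega)
            _ = ENNReal.ofReal A * sw (Irr r) (fun P => KT D b I a P) := by
                rw [one_mul, Rec8.sw_mul_right]
                ring
        · rw [if_neg hb3]
          have h5 : mb k b2 r = 0 := by
            unfold mb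
            rw [if_pos ⟨by omega, by omega⟩]
          rw [h5, zero_mul]
    refine (sum_le_sum s1).trans ?_
    rw [sum_add_distrib, ← mul_sum]
    refine add_le_add ?_ le_rfl
    rw [← sum_filter, sum_const, nsmul_eq_mul, ENNReal.ofReal_mul (by norm_num), mul_assoc]
    have h6 : (((range (k + 1)).filter (fun b2 => k < b2 + 2)).card : ℝ≥0∞) ≤ ENNReal.ofReal 2 := by
      have h7 : ((range (k + 1)).filter (fun b2 => k < b2 + 2)).card ≤ 2 := by
        calc ((range (k + 1)).filter (fun b2 => k < b2 + 2)).card ≤ (Icc (k - 1) k).card := by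
              apply Finset.card_le_card
              intro x hx
              rw [Finset.mem_filter, Finset.mem_range] at hx
              rw [Finset.mem_Icc]
              omega
          _ ≤ 2 := by
              rw [Nat.card_Icc]
              omega
      have h8 : ENNReal.ofReal 2 = 2 := by norm_num
      rw [h8]
      exact_mod_cast h7
    exact mul_le_mul_left h6 _
  refine (sum_le_sum fun a _ => hpt a).trans ?_
  rw [sum_add_distrib, ← mul_sum, ← mul_sum]
  have t1 := h1 D k e j1 b I hD hj he hb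
  have t2 := h2 D k j1 b I hD (by omega) hb
  calc _ ≤ ENNReal.ofReal (2 * A) * (ENNReal.ofReal (K1 / Ub e * (2 : ℝ) ^ (-(c1 * ((e : ℝ) - j1)))) * Sw D k b I) +
        2 * (ENNReal.ofReal (K2 * (2 : ℝ) ^ (-(c2 * ((k : ℝ) - j1)))) * Sw D k b I) :=
        add_le_add (mul_le_mul_right t1 _) (mul_le_mul_right t2 _)
    _ = (ENNReal.ofReal (2 * A * (K1 / Ub e * (2 : ℝ) ^ (-(c1 * ((e : ℝ) - j1))))) +
        ENNReal.ofReal (2 * (K2 * (2 : ℝ) ^ (-(c2 * ((k : ℝ) - j1)))))) * Sw D k b I := by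
        rw [ENNReal.ofReal_mul (p := 2 * A) (by positivity),
          ENNReal.ofReal_mul (p := 2) (q := K2 * (2 : ℝ) ^ (-(c2 * ((k : ℝ) - j1)))) (by norm_num)]
        have : ENNReal.ofReal 2 = 2 := by norm_num
        rw [this]
        ring
    _ ≤ _ := by
        refine mul_le_mul_left ?_ _
        rw [← ENNReal.ofReal_add (by positivity) (by positivity)]
        apply ENNReal.ofReal_le_ofReal
        have u1 : 2 * A * (K1 / Ub e * (2 : ℝ) ^ (-(c1 * ((e : ℝ) - j1)))) ≤
            2 * (2 + 12 * C) * K1 * 2 ^ (k - e) * E := by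
          rw [hA]
          have u2 : Ub k / Ub e ≤ 2 ^ (k - e) := by
            rw [div_le_iff₀ hUe]
            exact GA_Ub_le he
          calc 2 * ((2 + 12 * C) * Ub k) * (K1 / Ub e * (2 : ℝ) ^ (-(c1 * ((e : ℝ) - j1)))) =
              2 * (2 + 12 * C) * K1 * (Ub k / Ub e) * (2 : ℝ) ^ (-(c1 * ((e : ℝ) - j1))) := by ring
            _ ≤ 2 * (2 + 12 * C) * K1 * 2 ^ (k - e) * E := by gcongr
        have u3 : 2 * (K2 * (2 : ℝ) ^ (-(c2 * ((k : ℝ) - j1)))) ≤ 2 * K2 * 2 ^ (k - e) * E := by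
          calc 2 * (K2 * (2 : ℝ) ^ (-(c2 * ((k : ℝ) - j1)))) ≤ 2 * (K2 * E) := by gcongr
            _ = 2 * K2 * 1 * E := by ring
            _ ≤ 2 * K2 * 2 ^ (k - e) * E := by gcongr
        calc _ ≤ 2 * (2 + 12 * C) * K1 * 2 ^ (k - e) * E + 2 * K2 * 2 ^ (k - e) * E := add_le_add u1 u3
          _ = _ := by ring

end SDN

end HexObs
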