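import Pool.Agent.TightN.SK3

/-!
SDN, norm part: giants over the out-level of the window j1, at the scale e ≤ k.
-/

set_option autoImplicit false

namespace HexObs

open Finset TS

open scoped ENNReal

open Rec8 (sw mb)

namespace SDN

variable {C δ : ℝ}

namespace GB

lemma pp (x : ℝ) : 0 < (2 : ℝ) ^ x := Real.rpow_pos_of_pos (by norm_num) x

lemma pm' {x y : ℝ} (h : x ≤ y) : (2 : ℝ) ^ x ≤ (2 : ℝ) ^ y := Real.rpow_le_rpow_of_exponent_le (by norm_num) h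

lemma Ub_ratio_up {a e : ℕ} (h : e ≤ a) : Ub a ≤ (2 : ℝ) ^ ((a : ℝ) - e) * Ub e := by
  obtain ⟨n, rfl⟩ : ∃ n, a = e + n := ⟨a - e, by omega⟩
  have e1 : (((e + n : ℕ) : ℝ)) - e = n := by
    push_cast
    ring
  rw [e1, Real.rpow_natCast]
  clear e1 h
  induction n with
  | zero => simp
  | succ n ih =>
    have h1 : Ub (e + (n + 1)) ≤ 2 * Ub (e + n) := Ub_succ (e + n)
    calc Ub (e + (n + 1)) ≤ 2 * Ub (e + n) := h1
      _ ≤ 2 * (2 ^ n * Ub e) := by linarith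
      _ = 2 ^ (n + 1) * Ub e := by ring

lemma Ub_ratio_down {a e : ℕ} (h : a ≤ e) : Ub a / Ub e ≤ 2 * (2 : ℝ) ^ (-(kap0 * ((e : ℝ) - a))) := by
  have h1 := Ub_growth h
  have h2 := Ub_pos e
  have h3 := pp (kap0 * ((e : ℝ) - a))
  rw [Real.rpow_neg (by norm_num), div_le_iff₀ h2]
  calc Ub a = Ub a * (2 : ℝ) ^ (kap0 * ((e : ℝ) - a)) * ((2 : ℝ) ^ (kap0 * ((e : ℝ) - a)))⁻¹ := by
        field_simp
    _ ≤ 2 * Ub e * ((2 : ℝ) ^ (kap0 * ((e : ℝ) - a)))⁻¹ := by gcongr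
    _ = _ := by ring

/-- geometric sums -/
lemma geoR {c : ℝ} (h : 0 < c) : ∃ K : ℝ, 1 ≤ K ∧ ∀ m n e : ℕ, n ≤ e →
    ∑ a ∈ Ico m (n + 1), (2 : ℝ) ^ (-(c * ((e : ℝ) - a))) ≤ K * (2 : ℝ) ^ (-(c * ((e : ℝ) - n))) := by
  obtain ⟨K, hK, hg⟩ := geo h
  refine ⟨K, hK, fun m n e hn => ?_⟩
  have h1 : ∑ a ∈ Ico m (n + 1), (2 : ℝ) ^ (-(c * ((e : ℝ) - a))) ≤
      ∑ a ∈ range (n + 1), (2 : ℝ) ^ (-(c * ((e : ℝ) - a))) := by
    refine Finset.sum_le_sum_of_subset_of_nonneg ?_ fun i _ _ => (pp _).le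
    intro i hi
    rw [mem_Ico] at hi
    rw [mem_range]
    exact hi.2
  refine h1.trans ?_
  rw [← Finset.sum_range_reflect]
  have h2 : ∀ i ∈ range (n + 1), (2 : ℝ) ^ (-(c * ((e : ℝ) - ((n + 1 - 1 - i : ℕ) : ℝ)))) =
      (2 : ℝ) ^ (-(c * (i : ℝ))) * (2 : ℝ) ^ (-(c * ((e : ℝ) - n))) := by
    intro i hi
    rw [mem_range] at hi
    rw [← Real.rpow_add (by norm_num), Nat.add_sub_cancel, Nat.cast_sub (by omega)]
    congr 1
    ring
  rw [Finset.sum_congr rfl h2, ← Finset.sum_mul]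
  exact mul_le_mul_of_nonneg_right (hg (n + 1)) (pp _).le

/-- one scale of the part in front of the giant -/
lemma step (h : Inp C δ) : ∃ K : ℝ, 1 ≤ K ∧ ∀ D k e b : ℕ, 2 ^ (k + 4) ≤ D →
    (∑' r : ℕ, (if 2 ^ (e - 1) < r then sw (Irr r) (fun P => Sw D k b P) else 0)) ≤
      ENNReal.ofReal (K * ((2 : ℝ) ^ (kap0 / 4 * ((k : ℝ) - b)) * (Ub b / Ub e) +
        ∑ a ∈ Icc b (k + 1), (2 : ℝ) ^ (kap0 / 4 * ((k : ℝ) + 1 - a)) * TT (kap0 / 8) δ e a b)) := by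
  obtain ⟨K1, hK1, hm⟩ := mass_ge h
  obtain ⟨K2, hK2, hg⟩ := giants
  refine ⟨K1 + K2, by linarith, fun D k e b hD => ?_⟩
  classical
  have e1 : ∀ r : ℕ, (if 2 ^ (e - 1) < r then sw (Irr r) (fun P => Sw D k b P) else 0) =
      ENNReal.ofReal ((2 : ℝ) ^ (kap0 / 4 * ((k : ℝ) - b)) * Ub b) * (if 2 ^ (e - 1) < r then kap' r else 0) +
      ∑ a ∈ Icc b (k + 1), ENNReal.ofReal ((2 : ℝ) ^ (kap0 / 4 * ((k : ℝ) + 1 - a))) *
        (if 2 ^ (e - 1) < r then sw (Irr r) (fun P => EE D b a P) else 0) := by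
    intro r
    by_cases hr : 2 ^ (e - 1) < r
    · simp only [if_pos hr]
      unfold Sw
      rw [Rec8.sw_add, Rec8.sw_sum]
      congr 1
      · have := Rec8.sw_mul_left (Irr r) (ENNReal.ofReal ((2 : ℝ) ^ (kap0 / 4 * ((k : ℝ) - b)) * Ub b)) (fun _ => 1)
        rw [Rec8.sw_one] at this
        simp only [mul_one] at this
        exact this
      · refine Finset.sum_congr rfl fun a _ => ?_
        rw [Rec8.sw_mul_left]
        congr 1
        exact sw_Irr_rev r (fun P => EE D b a P)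
    · simp only [if_neg hr, mul_zero, Finset.sum_const_zero, add_zero]
  rw [tsum_congr e1, ENNReal.tsum_add, ENNReal.tsum_mul_left, Summable.tsum_finsetSum (fun _ _ => ENNReal.summable)]
  have hUb := Ub_pos b
  have hUe := Ub_pos e
  have p1 : ENNReal.ofReal ((2 : ℝ) ^ (kap0 / 4 * ((k : ℝ) - b)) * Ub b) *
      (∑' r : ℕ, (if 2 ^ (e - 1) < r then kap' r else 0)) ≤
      ENNReal.ofReal (K2 * ((2 : ℝ) ^ (kap0 / 4 * ((k : ℝ) - b)) * (Ub b / Ub e))) := by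
    refine (mul_le_mul_right (hg e) _).trans (le_of_eq ?_)
    rw [← ENNReal.ofReal_mul (by positivity)]
    congr 1
    ring
  have p2 : ∑ a ∈ Icc b (k + 1), (∑' r : ℕ, ENNReal.ofReal ((2 : ℝ) ^ (kap0 / 4 * ((k : ℝ) + 1 - a))) *
      (if 2 ^ (e - 1) < r then sw (Irr r) (fun P => EE D b a P) else 0)) ≤
      ENNReal.ofReal (∑ a ∈ Icc b (k + 1), K1 * ((2 : ℝ) ^ (kap0 / 4 * ((k : ℝ) + 1 - a)) * TT (kap0 / 8) δ e a b)) := by
    rw [ENNReal.ofReal_sum_of_nonneg (fun a _ => by have := TT_nonneg (kap0 / 8) δ e a b; positivity)]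
    refine Finset.sum_le_sum fun a ha => ?_
    rw [mem_Icc] at ha
    rw [ENNReal.tsum_mul_left]
    have h3 := hm D a b e ha.1 ((Nat.pow_le_pow_right (by norm_num) (by omega)).trans hD)
    refine (mul_le_mul_right h3 _).trans (le_of_eq ?_)
    rw [← ENNReal.ofReal_mul (by positivity)]
    congr 1
    ring
  refine (add_le_add p1 p2).trans ?_
  have hnn : 0 ≤ ∑ a ∈ Icc b (k + 1), (2 : ℝ) ^ (kap0 / 4 * ((k : ℝ) + 1 - a)) * TT (kap0 / 8) δ e a b :=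
    Finset.sum_nonneg fun a _ => by have := TT_nonneg (kap0 / 8) δ e a b; positivity
  have hnn2 : 0 ≤ (2 : ℝ) ^ (kap0 / 4 * ((k : ℝ) - b)) * (Ub b / Ub e) := by positivity
  rw [← Finset.mul_sum, ← ENNReal.ofReal_add (by positivity) (by positivity)]
  apply ENNReal.ofReal_le_ofReal
  nlinarith

/-- one pair of scales -/
lemma term (hδ : 0 < δ) {c : ℝ} (hc : c = min (kap0 / 4) (δ / 2)) {k e a b j1 : ℕ} (hab : b ≤ a) (hak : a ≤ k + 1)
    (hb : b ≤ j1) (hj : j1 + 3 ≤ e) (hek : e ≤ k) :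
    (2 : ℝ) ^ (kap0 / 4 * ((k : ℝ) + 1 - a)) * TT (kap0 / 8) δ e a b ≤
      4 * (2 : ℝ) ^ (k - e) * (2 : ℝ) ^ (-(c * ((e : ℝ) - b))) *
        (if a ≤ e then (2 : ℝ) ^ (-(c * ((e : ℝ) - a))) else (2 : ℝ) ^ (-(c * (((k + 1 : ℕ) : ℝ) - a)))) := by
  have hκ := kap0_pos
  have hκ1 := kap0_lt
  have hc1 : c ≤ kap0 / 4 := by
    rw [hc]
    exact min_le_left _ _
  have hc2 : c ≤ δ / 2 := by
    rw [hc]
    exact min_le_right _ _
  have hbr : (b : ℝ) ≤ a := by exact_mod_cast hab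
  have hbe : (b : ℝ) + 3 ≤ e := by exact_mod_cast (by omega : b + 3 ≤ e)
  have her : (e : ℝ) ≤ k := by exact_mod_cast hek
  have hkr : (a : ℝ) ≤ k + 1 := by exact_mod_cast hak
  have h2 : (2 : ℝ) ^ (k - e) = (2 : ℝ) ^ ((k : ℝ) - e) := by
    rw [← Real.rpow_natCast, Nat.cast_sub hek]
  rw [h2]
  unfold TT
  by_cases hae : a ≤ e
  · rw [if_pos hae, Nat.min_eq_left hae, Nat.cast_sub hae, Nat.cast_sub hab]
    have har : (a : ℝ) ≤ e := by exact_mod_cast hae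
    have h3 := Ub_ratio_down hae
    calc (2 : ℝ) ^ (kap0 / 4 * ((k : ℝ) + 1 - a)) * (Ub a / Ub e * (2 : ℝ) ^ (kap0 / 8 * ((e : ℝ) - a)) *
          (2 : ℝ) ^ (-(δ * ((a : ℝ) - b))))
        ≤ (2 : ℝ) ^ (kap0 / 4 * ((k : ℝ) + 1 - a)) * (2 * (2 : ℝ) ^ (-(kap0 * ((e : ℝ) - a))) *
          (2 : ℝ) ^ (kap0 / 8 * ((e : ℝ) - a)) * (2 : ℝ) ^ (-(δ * ((a : ℝ) - b)))) := by gcongr
      _ = 2 * (2 : ℝ) ^ (kap0 / 4 * ((k : ℝ) + 1 - a) + (-(kap0 * ((e : ℝ) - a)) + kap0 / 8 * ((e : ℝ) - a) +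
          -(δ * ((a : ℝ) - b)))) := by
          rw [Real.rpow_add (by norm_num), Real.rpow_add (by norm_num), Real.rpow_add (by norm_num)]
          ring
      _ ≤ 2 * (2 : ℝ) ^ (1 + ((k : ℝ) - e) + (-(c * ((e : ℝ) - b)) + -(c * ((e : ℝ) - a)))) := by
          refine mul_le_mul_of_nonneg_left (pm' ?_) (by norm_num)
          have a1 : c * ((e : ℝ) - a) ≤ kap0 / 4 * ((e : ℝ) - a) := mul_le_mul_of_nonneg_right hc1 (by linarith)
          have a2 : c * ((a : ℝ) - b) ≤ δ / 2 * ((a : ℝ) - b) := mul_le_mul_of_nonneg_right hc2 (by linarith)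
          have a3 : 0 ≤ (δ / 2) * ((a : ℝ) - b) := mul_nonneg (by linarith) (by linarith)
          have a4 : 0 ≤ kap0 * ((e : ℝ) - a) := mul_nonneg hκ.le (by linarith)
          have a5 : kap0 / 4 * ((k : ℝ) + 1 - e) ≤ 1 * ((k : ℝ) + 1 - e) :=
            mul_le_mul_of_nonneg_right (by linarith) (by linarith)
          nlinarith
      _ = 4 * (2 : ℝ) ^ ((k : ℝ) - e) * (2 : ℝ) ^ (-(c * ((e : ℝ) - b))) * (2 : ℝ) ^ (-(c * ((e : ℝ) - a))) := by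
          rw [Real.rpow_add (by norm_num), Real.rpow_add (by norm_num), Real.rpow_add (by norm_num), Real.rpow_one]
          ring
  · rw [if_neg hae]
    rw [not_le] at hae
    rw [Nat.min_eq_right hae.le, Nat.sub_eq_zero_of_le hae.le, Nat.cast_sub (by omega : b ≤ e), Nat.cast_zero, mul_zero,
      Real.rpow_zero, mul_one]
    have har : (e : ℝ) ≤ a := by exact_mod_cast hae.le
    have h3 : Ub a / Ub e ≤ (2 : ℝ) ^ ((a : ℝ) - e) := by
      rw [div_le_iff₀ (Ub_pos e)]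
      exact Ub_ratio_up hae.le
    calc (2 : ℝ) ^ (kap0 / 4 * ((k : ℝ) + 1 - a)) * (Ub a / Ub e * (2 : ℝ) ^ (-(δ * ((e : ℝ) - b))))
        ≤ (2 : ℝ) ^ (kap0 / 4 * ((k : ℝ) + 1 - a)) * ((2 : ℝ) ^ ((a : ℝ) - e) * (2 : ℝ) ^ (-(δ * ((e : ℝ) - b)))) := by
          gcongr
      _ = (2 : ℝ) ^ (kap0 / 4 * ((k : ℝ) + 1 - a) + (((a : ℝ) - e) + -(δ * ((e : ℝ) - b)))) := by
          rw [Real.rpow_add (by norm_num), Real.rpow_add (by norm_num)]
      _ ≤ (2 : ℝ) ^ (2 + ((k : ℝ) - e) + (-(c * ((e : ℝ) - b)) + -(c * (((k + 1 : ℕ) : ℝ) - a)))) := by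
          refine pm' ?_
          have a2 : c * ((e : ℝ) - b) ≤ δ * ((e : ℝ) - b) := mul_le_mul_of_nonneg_right (by linarith) (by linarith)
          have a3 : c * ((k : ℝ) + 1 - a) ≤ kap0 / 4 * ((k : ℝ) + 1 - a) := mul_le_mul_of_nonneg_right hc1 (by linarith)
          have a4 : kap0 * ((k : ℝ) + 1 - a) ≤ 1 * ((k : ℝ) + 1 - a) := mul_le_mul_of_nonneg_right (by linarith) (by linarith)
          push_cast
          nlinarith
      _ = 4 * (2 : ℝ) ^ ((k : ℝ) - e) * (2 : ℝ) ^ (-(c * ((e : ℝ) - b))) *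
          (2 : ℝ) ^ (-(c * (((k + 1 : ℕ) : ℝ) - a))) := by
          rw [Real.rpow_add (by norm_num), Real.rpow_add (by norm_num), Real.rpow_add (by norm_num)]
          norm_num
          ring

end GB

/-- (g2) giants over the out-level of the window j1 -/
theorem g2o (h : Inp C δ) : ∃ K c : ℝ, 1 ≤ K ∧ 0 < c ∧ ∀ (D k e j1 : ℕ), 2 ^ (k + 4) ≤ D →
    j1 + 3 ≤ e → e ≤ k →
    ∑ b ∈ range (j1 + 1), ∑' r : ℕ, (if 2 ^ (e - 1) < r then sw (Irr r) (fun P => Sw D k b P) else 0) ≤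
      ENNReal.ofReal (K * (2 : ℝ) ^ (k - e) * (2 : ℝ) ^ (-(c * ((e : ℝ) - j1)))) := by
  obtain ⟨K1, hK1, hst⟩ := GB.step h
  have hκ := kap0_pos
  have hκ1 := kap0_lt
  have hδ := h.pos
  obtain ⟨c, hc⟩ : ∃ c, c = min (kap0 / 4) (δ / 2) := ⟨_, rfl⟩
  have hc0 : 0 < c := by
    rw [hc]
    exact lt_min (by linarith) (by linarith)
  have hc1 : c ≤ kap0 / 4 := by
    rw [hc]
    exact min_le_left _ _
  obtain ⟨K2, hK2, hgeo⟩ := GB.geoR hc0
  refine ⟨K1 * (2 + 8 * K2) * K2, c, ?_, hc0, ?_⟩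
  · have h1 : (1 : ℝ) ≤ 2 + 8 * K2 := by linarith
    have h2 : (1 : ℝ) ≤ K1 * (2 + 8 * K2) := one_le_mul_of_one_le_of_one_le hK1 h1
    exact one_le_mul_of_one_le_of_one_le h2 hK2
  intro D k e j1 hD hj hek
  have hK10 : 0 < K1 := by linarith
  have hK20 : 0 < K2 := by linarith
  have h2 : (2 : ℝ) ^ (k - e) = (2 : ℝ) ^ ((k : ℝ) - e) := by
    rw [← Real.rpow_natCast, Nat.cast_sub hek]
  have her : (e : ℝ) ≤ k := by exact_mod_cast hek
  have hb1 : ∀ b ∈ range (j1 + 1),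
      (∑' r : ℕ, (if 2 ^ (e - 1) < r then sw (Irr r) (fun P => Sw D k b P) else 0)) ≤
      ENNReal.ofReal (K1 * (2 + 8 * K2) * (2 : ℝ) ^ (k - e) * (2 : ℝ) ^ (-(c * ((e : ℝ) - b)))) := by
    intro b hb
    have hb' : b ≤ j1 := by
      rw [mem_range] at hb
      omega
    have hbe : (b : ℝ) + 3 ≤ e := by exact_mod_cast (by omega : b + 3 ≤ e)
    refine (hst D k e b hD).trans (ENNReal.ofReal_le_ofReal ?_)
    have q1 : (2 : ℝ) ^ (kap0 / 4 * ((k : ℝ) - b)) * (Ub b / Ub e) ≤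
        2 * (2 : ℝ) ^ (k - e) * (2 : ℝ) ^ (-(c * ((e : ℝ) - b))) := by
      have h3 := GB.Ub_ratio_down (a := b) (e := e) (by omega)
      calc (2 : ℝ) ^ (kap0 / 4 * ((k : ℝ) - b)) * (Ub b / Ub e) ≤
            (2 : ℝ) ^ (kap0 / 4 * ((k : ℝ) - b)) * (2 * (2 : ℝ) ^ (-(kap0 * ((e : ℝ) - b)))) :=
            mul_le_mul_of_nonneg_left h3 (GB.pp _).le
        _ = 2 * (2 : ℝ) ^ (kap0 / 4 * ((k : ℝ) - b) + -(kap0 * ((e : ℝ) - b))) := by
            rw [Real.rpow_add (by norm_num)]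
            ring
        _ ≤ 2 * (2 : ℝ) ^ (((k : ℝ) - e) + -(c * ((e : ℝ) - b))) := by
            refine mul_le_mul_of_nonneg_left (GB.pm' ?_) (by norm_num)
            have a1 : c * ((e : ℝ) - b) ≤ kap0 / 4 * ((e : ℝ) - b) := mul_le_mul_of_nonneg_right hc1 (by linarith)
            have a2 : kap0 / 4 * ((k : ℝ) - e) ≤ 1 * ((k : ℝ) - e) := mul_le_mul_of_nonneg_right (by linarith) (by linarith)
            have a3 : 0 ≤ kap0 * ((e : ℝ) - b) := mul_nonneg hκ.le (by linarith)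
            nlinarith
        _ = _ := by
            rw [Real.rpow_add (by norm_num), h2]
            ring
    have q2 : ∑ a ∈ Icc b (k + 1), (2 : ℝ) ^ (kap0 / 4 * ((k : ℝ) + 1 - a)) * TT (kap0 / 8) δ e a b ≤
        8 * K2 * (2 : ℝ) ^ (k - e) * (2 : ℝ) ^ (-(c * ((e : ℝ) - b))) := by
      have q3 : ∑ a ∈ Icc b (k + 1), (2 : ℝ) ^ (kap0 / 4 * ((k : ℝ) + 1 - a)) * TT (kap0 / 8) δ e a b ≤
          ∑ a ∈ Icc b (k + 1), 4 * (2 : ℝ) ^ (k - e) * (2 : ℝ) ^ (-(c * ((e : ℝ) - b))) *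
            ((if a ≤ e then (2 : ℝ) ^ (-(c * ((e : ℝ) - a))) else (2 : ℝ) ^ (-(c * (((k + 1 : ℕ) : ℝ) - a))))) := by
        refine Finset.sum_le_sum fun a ha => ?_
        rw [mem_Icc] at ha
        exact GB.term hδ hc ha.1 ha.2 hb' hj hek
      refine q3.trans ?_
      rw [← Finset.mul_sum]
      have q4 : ∑ a ∈ Icc b (k + 1), ((if a ≤ e then (2 : ℝ) ^ (-(c * ((e : ℝ) - a))) else
          (2 : ℝ) ^ (-(c * (((k + 1 : ℕ) : ℝ) - a))))) ≤ 2 * K2 := by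
        rw [Finset.sum_ite]
        have q5 : ∑ a ∈ (Icc b (k + 1)).filter (fun a => a ≤ e), (2 : ℝ) ^ (-(c * ((e : ℝ) - a))) ≤ K2 := by
          refine (Finset.sum_le_sum_of_subset_of_nonneg (t := Ico b (e + 1)) ?_ fun _ _ _ => (GB.pp _).le).trans ?_
          · intro a ha
            rw [mem_filter, mem_Icc] at ha
            rw [mem_Ico]
            omega
          · refine (hgeo b e e le_rfl).trans (le_of_eq ?_)
            rw [sub_self, mul_zero, neg_zero, Real.rpow_zero, mul_one]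
        have q6 : ∑ a ∈ (Icc b (k + 1)).filter (fun a => ¬ a ≤ e), (2 : ℝ) ^ (-(c * (((k + 1 : ℕ) : ℝ) - a))) ≤ K2 := by
          refine (Finset.sum_le_sum_of_subset_of_nonneg (t := Ico b (k + 1 + 1)) ?_ fun _ _ _ => (GB.pp _).le).trans ?_
          · intro a ha
            rw [mem_filter, mem_Icc] at ha
            rw [mem_Ico]
            omega
          · refine (hgeo b (k + 1) (k + 1) le_rfl).trans (le_of_eq ?_)
            rw [sub_self, mul_zero, neg_zero, Real.rpow_zero, mul_one]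
        linarith
      have q7 : 0 ≤ 4 * (2 : ℝ) ^ (k - e) * (2 : ℝ) ^ (-(c * ((e : ℝ) - b))) := by positivity
      calc _ ≤ 4 * (2 : ℝ) ^ (k - e) * (2 : ℝ) ^ (-(c * ((e : ℝ) - b))) * (2 * K2) := mul_le_mul_of_nonneg_left q4 q7
        _ = _ := by ring
    calc K1 * (_ + _) ≤ K1 * (2 * (2 : ℝ) ^ (k - e) * (2 : ℝ) ^ (-(c * ((e : ℝ) - b))) +
          8 * K2 * (2 : ℝ) ^ (k - e) * (2 : ℝ) ^ (-(c * ((e : ℝ) - b)))) :=
          mul_le_mul_of_nonneg_left (add_le_add q1 q2) hK10.le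
      _ = _ := by ring
  refine (Finset.sum_le_sum hb1).trans ?_
  rw [← ENNReal.ofReal_sum_of_nonneg (fun b _ => by positivity)]
  apply ENNReal.ofReal_le_ofReal
  rw [← Finset.mul_sum]
  have q8 : ∑ b ∈ range (j1 + 1), (2 : ℝ) ^ (-(c * ((e : ℝ) - b))) ≤ K2 * (2 : ℝ) ^ (-(c * ((e : ℝ) - j1))) := by
    have := hgeo 0 j1 e (by omega)
    rwa [← Finset.range_eq_Ico] at this
  calc _ ≤ K1 * (2 + 8 * K2) * (2 : ℝ) ^ (k - e) * (K2 * (2 : ℝ) ^ (-(c * ((e : ℝ) - j1)))) :=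
        mul_le_mul_of_nonneg_left q8 (by positivity)
    _ = _ := by ring

end SDN

end HexObs
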