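import Pool.Agent.TightN.SK3

/-!
SDN, norm part: all pieces over the out-level of the window j1.
-/

set_option autoImplicit false

namespace HexObs

open Finset TS

open scoped ENNReal

open Rec8 (sw mb)

namespace SDN

variable {C δ : ℝ}

private theorem G3_pm_add (j a : ℕ) (Φ Ψ : List Bool → ℝ≥0∞) :
    pm j a (fun P => Φ P + Ψ P) = pm j a Φ + pm j a Ψ := by
  unfold pm
  rw [← ENNReal.tsum_add]
  refine tsum_congr fun r => ?_
  rw [Rec8.sw_add, mul_add]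

private theorem G3_pm_mul (j a : ℕ) (c : ℝ≥0∞) (Φ : List Bool → ℝ≥0∞) :
    pm j a (fun P => c * Φ P) = c * pm j a Φ := by
  unfold pm
  rw [← ENNReal.tsum_mul_left]
  refine tsum_congr fun r => ?_
  rw [Rec8.sw_mul_left]
  ring

private theorem G3_pm_sum (j a : ℕ) (S : Finset ℕ) (Φ : ℕ → List Bool → ℝ≥0∞) :
    pm j a (fun P => ∑ i ∈ S, Φ i P) = ∑ i ∈ S, pm j a (Φ i) := by
  classical
  induction S using Finset.induction_on with
  | empty =>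
    simp only [Finset.sum_empty]
    unfold pm
    simp [Rec8.sw_zero]
  | insert x s hx ih =>
    simp only [Finset.sum_insert hx]
    rw [G3_pm_add, ih]

private theorem G3_two (x : ℝ) : 0 < (2 : ℝ) ^ x := Real.rpow_pos_of_pos (by norm_num) x

private theorem G3_le {x y : ℝ} (h : x ≤ y) : (2 : ℝ) ^ x ≤ (2 : ℝ) ^ y :=
  Real.rpow_le_rpow_of_exponent_le (by norm_num) h

/-- the block values grow at most by the factor 2 -/
private theorem G3_Ub {j a : ℕ} (h : j ≤ a) : Ub a / Ub j ≤ (2 : ℝ) ^ (a - j) := by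
  rw [div_le_iff₀ (Ub_pos j)]
  obtain ⟨i, rfl⟩ := Nat.exists_eq_add_of_le h
  induction i with
  | zero => simp
  | succ i ih =>
    have h1 := Ub_succ (j + i)
    have h2 := ih (by omega)
    rw [Nat.add_sub_cancel_left] at h2 ⊢
    rw [show j + (i + 1) = j + i + 1 by ring, pow_succ]
    calc Ub (j + i + 1) ≤ 2 * Ub (j + i) := h1
      _ ≤ 2 * (2 ^ i * Ub j) := by linarith
      _ = _ := by ring

/-- the weights of the window k against those of the window j1 -/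
private theorem G3_Sw {D k j1 b : ℕ} (hj : j1 ≤ k) (P : List Bool) :
    Sw D k b P ≤ ENNReal.ofReal ((2 : ℝ) ^ (kap0 / 4 * ((k : ℝ) - j1))) * Sw D j1 b P +
      ∑ a ∈ Icc (j1 + 2) (k + 1), ENNReal.ofReal ((2 : ℝ) ^ (kap0 / 4 * ((k : ℝ) + 1 - a))) * EE D b a (rev P) := by
  unfold Sw
  rw [mul_add, add_assoc]
  apply add_le_add
  · rw [← ENNReal.ofReal_mul (G3_two _).le]
    apply ENNReal.ofReal_le_ofReal
    rw [← mul_assoc, ← Real.rpow_add (by norm_num)]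
    apply le_of_eq
    congr 2
    ring
  · rw [Finset.mul_sum]
    have h1 : ∀ a ∈ Icc b (k + 1), ENNReal.ofReal ((2 : ℝ) ^ (kap0 / 4 * ((k : ℝ) + 1 - a))) * EE D b a (rev P) ≤
        (if a ≤ j1 + 1 then ENNReal.ofReal ((2 : ℝ) ^ (kap0 / 4 * ((k : ℝ) - j1))) *
          (ENNReal.ofReal ((2 : ℝ) ^ (kap0 / 4 * ((j1 : ℝ) + 1 - a))) * EE D b a (rev P)) else 0) +
        (if j1 + 2 ≤ a then ENNReal.ofReal ((2 : ℝ) ^ (kap0 / 4 * ((k : ℝ) + 1 - a))) * EE D b a (rev P) else 0) := by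
      intro a ha
      by_cases h2 : a ≤ j1 + 1
      · rw [if_pos h2, if_neg (by omega), add_zero, ← mul_assoc, ← ENNReal.ofReal_mul (G3_two _).le,
          ← Real.rpow_add (by norm_num)]
        apply le_of_eq
        congr 3
        ring
      · rw [if_neg h2, if_pos (by omega), zero_add]
    refine le_trans (Finset.sum_le_sum h1) ?_
    rw [Finset.sum_add_distrib]
    apply add_le_add
    · rw [← Finset.sum_filter]
      apply Finset.sum_le_sum_of_subset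
      intro a ha
      rw [Finset.mem_filter, Finset.mem_Icc] at ha
      rw [Finset.mem_Icc]
      omega
    · rw [← Finset.sum_filter]
      apply Finset.sum_le_sum_of_subset
      intro a ha
      rw [Finset.mem_filter, Finset.mem_Icc] at ha
      rw [Finset.mem_Icc]
      omega

/-- the bound of a term above the window -/
private theorem G3_TT (hδ : 0 < δ) {j1 a b : ℕ} (hb : b ≤ j1) (ha : j1 + 2 ≤ a) :
    TT (kap0 / 8) δ j1 a b + (if j1 ≤ b + 1 then Ub a / Ub j1 else 0) ≤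
      (2 : ℝ) ^ (a - j1) * ((1 + (2 : ℝ) ^ δ) * (2 : ℝ) ^ (-(δ * ((j1 - b : ℕ) : ℝ)))) := by
  have hr := G3_Ub (show j1 ≤ a by omega)
  have hr0 : 0 ≤ Ub a / Ub j1 := div_nonneg (Ub_pos a).le (Ub_pos j1).le
  have p1 := G3_two δ
  have p2 := G3_two (-(δ * ((j1 - b : ℕ) : ℝ)))
  have h1 : TT (kap0 / 8) δ j1 a b ≤ (2 : ℝ) ^ (a - j1) * (2 : ℝ) ^ (-(δ * ((j1 - b : ℕ) : ℝ))) := by
    unfold TT
    rw [show j1 - a = 0 by omega, show min a j1 = j1 by omega]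
    simp only [Nat.cast_zero, mul_zero, Real.rpow_zero, mul_one]
    exact mul_le_mul_of_nonneg_right hr p2.le
  have h2 : (if j1 ≤ b + 1 then Ub a / Ub j1 else 0) ≤
      (2 : ℝ) ^ (a - j1) * ((2 : ℝ) ^ δ * (2 : ℝ) ^ (-(δ * ((j1 - b : ℕ) : ℝ)))) := by
    split_ifs with h3
    · have h4 : 1 ≤ (2 : ℝ) ^ δ * (2 : ℝ) ^ (-(δ * ((j1 - b : ℕ) : ℝ))) := by
        rw [← Real.rpow_add (by norm_num)]
        have h5 : ((j1 - b : ℕ) : ℝ) ≤ 1 := by exact_mod_cast (by omega : j1 - b ≤ 1)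
        have : (0 : ℝ) ≤ δ + -(δ * ((j1 - b : ℕ) : ℝ)) := by nlinarith
        have := G3_le this
        rwa [Real.rpow_zero] at this
      calc Ub a / Ub j1 ≤ (2 : ℝ) ^ (a - j1) * 1 := by rw [mul_one]; exact hr
        _ ≤ _ := mul_le_mul_of_nonneg_left h4 (by positivity)
    · positivity
  calc _ ≤ (2 : ℝ) ^ (a - j1) * (2 : ℝ) ^ (-(δ * ((j1 - b : ℕ) : ℝ))) +
      (2 : ℝ) ^ (a - j1) * ((2 : ℝ) ^ δ * (2 : ℝ) ^ (-(δ * ((j1 - b : ℕ) : ℝ)))) := add_le_add h1 h2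
    _ = _ := by ring

/-- (g3) all pieces over the out-level of the window j1 -/
theorem g3 (h : Inp C δ) : ∃ K : ℝ, 1 ≤ K ∧ ∀ (D k j1 : ℕ), 2 ^ (k + 4) ≤ D → j1 ≤ k →
    ∑ b ∈ range (j1 + 1), pm j1 b (fun P => Sw D k b P) ≤ ENNReal.ofReal (K * (2 : ℝ) ^ (k - j1)) := by
  obtain ⟨K1, hK1, h1⟩ := n2 h
  obtain ⟨K2, hK2, h2⟩ := pm_EE h
  obtain ⟨K3, hK3, h3⟩ := geo h.pos
  have hκ := kap0_pos
  have hκ1 : kap0 ≤ 1 := le_trans kap0_lt.le (by norm_num)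
  obtain ⟨K4, hK4, h4⟩ := geo (c := 1 - kap0 / 4) (by linarith)
  have p1 := G3_two δ
  refine ⟨K1 + 2 * (K2 * (1 + (2 : ℝ) ^ δ) * K3 * K4), ?_, fun D k j1 hD hj => ?_⟩
  · have : 0 ≤ 2 * (K2 * (1 + (2 : ℝ) ^ δ) * K3 * K4) := by positivity
    linarith
  have hDj : 2 ^ (j1 + 4) ≤ D := le_trans (Nat.pow_le_pow_right (by norm_num) (by omega)) hD
  have hcast : ((k - j1 : ℕ) : ℝ) = (k : ℝ) - j1 := by push_cast [hj]; ring
  have hpow : (2 : ℝ) ^ (kap0 / 4 * ((k : ℝ) - j1)) ≤ (2 : ℝ) ^ (k - j1) := by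
    rw [← Real.rpow_natCast, hcast]
    apply G3_le
    have : (j1 : ℝ) ≤ k := by exact_mod_cast hj
    nlinarith
  have e1 : ∑ b ∈ range (j1 + 1), pm j1 b (fun P => Sw D k b P) ≤
      ENNReal.ofReal ((2 : ℝ) ^ (k - j1)) * ∑ b ∈ range (j1 + 1), pm j1 b (fun P => Sw D j1 b P) +
      ∑ b ∈ range (j1 + 1), ∑ a ∈ Icc (j1 + 2) (k + 1),
        ENNReal.ofReal ((2 : ℝ) ^ (kap0 / 4 * ((k : ℝ) + 1 - a)) * (K2 * ((2 : ℝ) ^ (a - j1) *
          ((1 + (2 : ℝ) ^ δ) * (2 : ℝ) ^ (-(δ * ((j1 - b : ℕ) : ℝ))))))) := by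
    rw [Finset.mul_sum, ← Finset.sum_add_distrib]
    refine Finset.sum_le_sum fun b hb => ?_
    rw [Finset.mem_range] at hb
    refine le_trans (pm_mono fun P => G3_Sw hj P) ?_
    rw [G3_pm_add, G3_pm_sum, G3_pm_mul]
    apply add_le_add
    · exact mul_le_mul' (ENNReal.ofReal_le_ofReal hpow) le_rfl
    · refine Finset.sum_le_sum fun a ha => ?_
      rw [Finset.mem_Icc] at ha
      rw [G3_pm_mul, pm_rev j1 b (fun I => EE D b a I)]
      have hDa : 2 ^ (a + 3) ≤ D := le_trans (Nat.pow_le_pow_right (by norm_num) (by omega)) hD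
      refine le_trans (mul_le_mul_right (h2 D a b j1 b (by omega) hDa) _) ?_
      rw [← ENNReal.ofReal_mul (G3_two _).le]
      apply ENNReal.ofReal_le_ofReal
      exact mul_le_mul_of_nonneg_left (mul_le_mul_of_nonneg_left (G3_TT h.pos (by omega) ha.1) (by linarith))
        (G3_two _).le
  refine le_trans e1 ?_
  have e2 : ENNReal.ofReal ((2 : ℝ) ^ (k - j1)) * ∑ b ∈ range (j1 + 1), pm j1 b (fun P => Sw D j1 b P) ≤
      ENNReal.ofReal (K1 * (2 : ℝ) ^ (k - j1)) := by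
    refine le_trans (mul_le_mul' le_rfl (h1 D j1 hDj)) ?_
    rw [← ENNReal.ofReal_mul (by positivity)]
    apply ENNReal.ofReal_le_ofReal
    linarith
  have hsum : ∑ b ∈ range (j1 + 1), ∑ a ∈ Icc (j1 + 2) (k + 1),
      ((2 : ℝ) ^ (kap0 / 4 * ((k : ℝ) + 1 - a)) * (K2 * ((2 : ℝ) ^ (a - j1) *
          ((1 + (2 : ℝ) ^ δ) * (2 : ℝ) ^ (-(δ * ((j1 - b : ℕ) : ℝ))))))) ≤
      2 * (K2 * (1 + (2 : ℝ) ^ δ) * K3 * K4) * (2 : ℝ) ^ (k - j1) := by
    have f1 : ∀ a ∈ Icc (j1 + 2) (k + 1), (2 : ℝ) ^ (kap0 / 4 * ((k : ℝ) + 1 - a)) * (2 : ℝ) ^ (a - j1) =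
        2 * (2 : ℝ) ^ (k - j1) * (2 : ℝ) ^ (-((1 - kap0 / 4) * ((k + 1 - a : ℕ) : ℝ))) := by
      intro a ha
      rw [Finset.mem_Icc] at ha
      have g1 : ((k + 1 - a : ℕ) : ℝ) = (k : ℝ) + 1 - a := by
        rw [Nat.cast_sub ha.2]; push_cast; ring
      have g2 : ((a - j1 : ℕ) : ℝ) = (a : ℝ) - j1 := by
        rw [Nat.cast_sub (by omega)]
      rw [g1, ← Real.rpow_natCast, ← Real.rpow_natCast, g2, hcast, ← Real.rpow_add (by norm_num)]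
      nth_rewrite 2 [show (2 : ℝ) = (2 : ℝ) ^ (1 : ℝ) by simp]
      rw [← Real.rpow_add (by norm_num), ← Real.rpow_add (by norm_num)]
      congr 1
      ring
    have f2 : ∑ a ∈ Icc (j1 + 2) (k + 1), (2 : ℝ) ^ (-((1 - kap0 / 4) * ((k + 1 - a : ℕ) : ℝ))) ≤ K4 := by
      have f3 : ∑ a ∈ range (k + 2), (2 : ℝ) ^ (-((1 - kap0 / 4) * ((k + 1 - a : ℕ) : ℝ))) ≤ K4 := by
        have := Finset.sum_range_reflect (fun i : ℕ => (2 : ℝ) ^ (-((1 - kap0 / 4) * (i : ℝ)))) (k + 2)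
        simp only [show k + 2 - 1 = k + 1 by omega] at this
        rw [this]
        exact h4 (k + 2)
      refine le_trans (Finset.sum_le_sum_of_subset_of_nonneg ?_ fun a _ _ => (G3_two _).le) f3
      intro a ha
      rw [Finset.mem_Icc] at ha
      rw [Finset.mem_range]
      omega
    have f4 : ∑ b ∈ range (j1 + 1), (2 : ℝ) ^ (-(δ * ((j1 - b : ℕ) : ℝ))) ≤ K3 := by
      have := Finset.sum_range_reflect (fun i : ℕ => (2 : ℝ) ^ (-(δ * (i : ℝ)))) (j1 + 1)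
      simp only [Nat.add_sub_cancel] at this
      rw [this]
      exact h3 (j1 + 1)
    calc _ = ∑ b ∈ range (j1 + 1), ∑ a ∈ Icc (j1 + 2) (k + 1), (K2 * (1 + (2 : ℝ) ^ δ) * 2 * (2 : ℝ) ^ (k - j1)) *
          ((2 : ℝ) ^ (-(δ * ((j1 - b : ℕ) : ℝ))) * (2 : ℝ) ^ (-((1 - kap0 / 4) * ((k + 1 - a : ℕ) : ℝ)))) := by
          refine Finset.sum_congr rfl fun b _ => Finset.sum_congr rfl fun a ha => ?_
          have := f1 a ha
          calc _ = ((2 : ℝ) ^ (kap0 / 4 * ((k : ℝ) + 1 - a)) * (2 : ℝ) ^ (a - j1)) * (K2 *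
              ((1 + (2 : ℝ) ^ δ) * (2 : ℝ) ^ (-(δ * ((j1 - b : ℕ) : ℝ))))) := by ring
            _ = _ := by rw [this]; ring
      _ = (K2 * (1 + (2 : ℝ) ^ δ) * 2 * (2 : ℝ) ^ (k - j1)) *
          ((∑ b ∈ range (j1 + 1), (2 : ℝ) ^ (-(δ * ((j1 - b : ℕ) : ℝ)))) *
            ∑ a ∈ Icc (j1 + 2) (k + 1), (2 : ℝ) ^ (-((1 - kap0 / 4) * ((k + 1 - a : ℕ) : ℝ)))) := by
          rw [Finset.sum_mul_sum, Finset.mul_sum]
          refine Finset.sum_congr rfl fun b _ => ?_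
          rw [Finset.mul_sum]
      _ ≤ (K2 * (1 + (2 : ℝ) ^ δ) * 2 * (2 : ℝ) ^ (k - j1)) * (K3 * K4) := by
          apply mul_le_mul_of_nonneg_left _ (by positivity)
          exact mul_le_mul f4 f2 (Finset.sum_nonneg fun a _ => (G3_two _).le) (by linarith)
      _ = _ := by ring
  have e3 : ∑ b ∈ range (j1 + 1), ∑ a ∈ Icc (j1 + 2) (k + 1),
        ENNReal.ofReal ((2 : ℝ) ^ (kap0 / 4 * ((k : ℝ) + 1 - a)) * (K2 * ((2 : ℝ) ^ (a - j1) *
          ((1 + (2 : ℝ) ^ δ) * (2 : ℝ) ^ (-(δ * ((j1 - b : ℕ) : ℝ))))))) ≤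
      ENNReal.ofReal (2 * (K2 * (1 + (2 : ℝ) ^ δ) * K3 * K4) * (2 : ℝ) ^ (k - j1)) := by
    have f0 : ∀ a b : ℕ, 0 ≤ (2 : ℝ) ^ (kap0 / 4 * ((k : ℝ) + 1 - a)) * (K2 * ((2 : ℝ) ^ (a - j1) *
          ((1 + (2 : ℝ) ^ δ) * (2 : ℝ) ^ (-(δ * ((j1 - b : ℕ) : ℝ)))))) := by
      intro a b
      have := G3_two (kap0 / 4 * ((k : ℝ) + 1 - a))
      have := G3_two (-(δ * ((j1 - b : ℕ) : ℝ)))
      positivity
    have f5 : ∑ b ∈ range (j1 + 1), ∑ a ∈ Icc (j1 + 2) (k + 1),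
        ENNReal.ofReal ((2 : ℝ) ^ (kap0 / 4 * ((k : ℝ) + 1 - a)) * (K2 * ((2 : ℝ) ^ (a - j1) *
          ((1 + (2 : ℝ) ^ δ) * (2 : ℝ) ^ (-(δ * ((j1 - b : ℕ) : ℝ))))))) =
        ENNReal.ofReal (∑ b ∈ range (j1 + 1), ∑ a ∈ Icc (j1 + 2) (k + 1),
        ((2 : ℝ) ^ (kap0 / 4 * ((k : ℝ) + 1 - a)) * (K2 * ((2 : ℝ) ^ (a - j1) *
          ((1 + (2 : ℝ) ^ δ) * (2 : ℝ) ^ (-(δ * ((j1 - b : ℕ) : ℝ)))))))) := by
      rw [ENNReal.ofReal_sum_of_nonneg (fun b _ => Finset.sum_nonneg fun a _ => f0 a b)]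
      refine Finset.sum_congr rfl fun b _ => ?_
      rw [ENNReal.ofReal_sum_of_nonneg (fun a _ => f0 a b)]
    rw [f5]
    exact ENNReal.ofReal_le_ofReal hsum
  refine le_trans (add_le_add e2 e3) ?_
  rw [← ENNReal.ofReal_add (by positivity) (by positivity)]
  apply ENNReal.ofReal_le_ofReal
  linarith

end SDN

end HexObs
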