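import Pool.Agent.TightN.SK3

/-!
SDN, norm part: the giant over the in-level of the window k that is the piece over the out-level of the window j1.
-/

set_option autoImplicit false

namespace HexObs

open Finset TS

open scoped ENNReal

open Rec8 (sw mb)

namespace SDN

variable {C δ : ℝ}

private theorem GD_pos (x : ℝ) : 0 < (2 : ℝ) ^ x := Real.rpow_pos_of_pos two_pos x

private theorem GD_one_le {x : ℝ} (h : 0 ≤ x) : 1 ≤ (2 : ℝ) ^ x := Real.one_le_rpow one_le_two h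

private theorem GD_mono {x y : ℝ} (h : x ≤ y) : (2 : ℝ) ^ x ≤ (2 : ℝ) ^ y :=
  Real.rpow_le_rpow_of_exponent_le one_le_two h

/-- the pieces higher than 2^(k-1) lie in the blocks l ≥ k - 1 -/
private theorem GD_blocks (Φ : List Bool → ℝ≥0∞) (k : ℕ) :
    (∑' r : ℕ, (if 2 ^ (k - 1) < r then Rec8.sw (Irr r) Φ else 0)) ≤
      ∑' l : ℕ, (if k - 1 ≤ l then Rec8.sw (IrrB l) Φ else 0) := by
  classical
  have e1 : ∀ r : ℕ, (if 2 ^ (k - 1) < r then Rec8.sw (Irr r) Φ else 0) =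
      ∑' t : List Bool, (if 2 ^ (k - 1) < r ∧ t ∈ Irr r then wE t * Φ t else 0) := by
    intro r
    by_cases hr : 2 ^ (k - 1) < r
    · rw [if_pos hr, Rec8.sw_ind]
      refine tsum_congr fun t => ?_
      simp only [hr, true_and]
    · rw [if_neg hr]
      simp [hr]
  have e2 : ∀ l : ℕ, (if k - 1 ≤ l then Rec8.sw (IrrB l) Φ else 0) =
      ∑' t : List Bool, (if k - 1 ≤ l ∧ t ∈ IrrB l then wE t * Φ t else 0) := by
    intro l
    by_cases hl : k - 1 ≤ l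
    · rw [if_pos hl, Rec8.sw_ind]
      refine tsum_congr fun t => ?_
      simp only [hl, true_and]
    · rw [if_neg hl]
      simp [hl]
  simp only [e1, e2]
  rw [ENNReal.tsum_comm]
  refine le_trans ?_ (le_of_eq ENNReal.tsum_comm)
  refine ENNReal.tsum_le_tsum fun t => ?_
  by_cases hex : ∃ r, 2 ^ (k - 1) < r ∧ t ∈ Irr r
  · obtain ⟨r0, hr0, ht0⟩ := hex
    have h1 : (∑' r : ℕ, (if 2 ^ (k - 1) < r ∧ t ∈ Irr r then wE t * Φ t else 0)) = wE t * Φ t := by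
      rw [tsum_eq_single r0]
      · rw [if_pos ⟨hr0, ht0⟩]
      · intro r hr
        rw [if_neg]
        rintro ⟨_, h⟩
        exact hr (Brd_height h.1 ht0.1)
    rw [h1]
    have hr00 : r0 ≠ 0 := by
      have : 0 < 2 ^ (k - 1) := by positivity
      omega
    have hl : k - 1 ≤ Nat.log 2 r0 := Nat.le_log_of_pow_le (by norm_num) hr0.le
    have hB : t ∈ IrrB (Nat.log 2 r0) :=
      ⟨r0, ⟨Nat.lt_pow_succ_log_self (by norm_num) r0, Or.inl (Nat.pow_log_le_self 2 hr00)⟩, ht0⟩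
    refine le_trans (le_of_eq ?_) (ENNReal.le_tsum (Nat.log 2 r0))
    rw [if_pos ⟨hl, hB⟩]
  · have h1 : (∑' r : ℕ, (if 2 ^ (k - 1) < r ∧ t ∈ Irr r then wE t * Φ t else 0)) = 0 := by
      rw [ENNReal.tsum_eq_zero]
      intro r
      rw [if_neg]
      exact fun hc => hex ⟨r, hc⟩
    rw [h1]
    exact zero_le

/-- the giants: sum over the blocks with the Cauchy-Schwarz inequality -/
private theorem GD_giant (h : Inp C δ) : ∃ K : ℝ, 1 ≤ K ∧ ∀ D k a b a2 b2 : ℕ, b ≤ a → b2 ≤ a2 →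
    2 ^ (a + 3) ≤ D → 2 ^ (a2 + 3) ≤ D →
    (∑' r : ℕ, (if 2 ^ (k - 1) < r then Rec8.sw (Irr r) (fun I => EE D b a I * EE D b2 a2 (rev I)) else 0)) ≤
      ENNReal.ofReal (K * (Real.sqrt (TT (kap0 / 8) δ k a b * TT (kap0 / 8) δ k a2 b2) *
        Real.sqrt (Ub a * Ub a2))) := by
  obtain ⟨K, hK, h1⟩ := two_gains h
  have hk := kap0_pos
  obtain ⟨L, hL, h2⟩ := TT_sum (θ := kap0 / 8) (δ := δ) (by linarith) (by linarith) h.pos.le
  refine ⟨K * L, one_le_mul_of_one_le_of_one_le hK hL, fun D k a b a2 b2 hba hba2 hD hD2 => ?_⟩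
  refine (GD_blocks _ k).trans ?_
  refine ENNReal.tsum_le_of_sum_range_le fun n => ?_
  have h3 : ∑ l ∈ range n, (if k - 1 ≤ l then
      Rec8.sw (IrrB l) (fun I => EE D b a I * EE D b2 a2 (rev I)) else 0) =
      ∑ l ∈ Ico (k - 1) n, Rec8.sw (IrrB l) (fun I => EE D b a I * EE D b2 a2 (rev I)) := by
    rw [← Finset.sum_filter]
    refine Finset.sum_congr ?_ fun _ _ => rfl
    ext l
    simp only [Finset.mem_filter, Finset.mem_range, Finset.mem_Ico]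
    omega
  rw [h3]
  have hx : ∀ l, 0 ≤ TT (kap0 / 8) δ l a b := fun l => TT_nonneg _ _ _ _ _
  have hy : ∀ l, 0 ≤ TT (kap0 / 8) δ l a2 b2 := fun l => TT_nonneg _ _ _ _ _
  calc ∑ l ∈ Ico (k - 1) n, Rec8.sw (IrrB l) (fun I => EE D b a I * EE D b2 a2 (rev I))
      ≤ ∑ l ∈ Ico (k - 1) n, ENNReal.ofReal (K * (Real.sqrt (TT (kap0 / 8) δ l a b *
          TT (kap0 / 8) δ l a2 b2) * Real.sqrt (Ub a * Ub a2))) :=
        Finset.sum_le_sum fun l _ => h1 D a b a2 b2 l hba hba2 hD hD2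
    _ = ENNReal.ofReal (∑ l ∈ Ico (k - 1) n, (K * (Real.sqrt (TT (kap0 / 8) δ l a b *
          TT (kap0 / 8) δ l a2 b2) * Real.sqrt (Ub a * Ub a2)))) := by
        rw [ENNReal.ofReal_sum_of_nonneg]
        intro l _
        positivity
    _ ≤ _ := by
        apply ENNReal.ofReal_le_ofReal
        have h4 : ∑ l ∈ Ico (k - 1) n, (K * (Real.sqrt (TT (kap0 / 8) δ l a b *
          TT (kap0 / 8) δ l a2 b2) * Real.sqrt (Ub a * Ub a2))) =
            K * ((∑ l ∈ Ico (k - 1) n, Real.sqrt (TT (kap0 / 8) δ l a b) *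
              Real.sqrt (TT (kap0 / 8) δ l a2 b2)) * Real.sqrt (Ub a * Ub a2)) := by
          rw [Finset.sum_mul, Finset.mul_sum]
          refine Finset.sum_congr rfl fun l _ => ?_
          rw [Real.sqrt_mul (hx l)]
        have h5 := Real.sum_sqrt_mul_sqrt_le (Ico (k - 1) n) hx hy
        have h6 : Real.sqrt (∑ l ∈ Ico (k - 1) n, TT (kap0 / 8) δ l a b) ≤
            Real.sqrt (L * TT (kap0 / 8) δ k a b) := Real.sqrt_le_sqrt (h2 k a b n)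
        have h7 : Real.sqrt (∑ l ∈ Ico (k - 1) n, TT (kap0 / 8) δ l a2 b2) ≤
            Real.sqrt (L * TT (kap0 / 8) δ k a2 b2) := Real.sqrt_le_sqrt (h2 k a2 b2 n)
        have h8 : Real.sqrt (L * TT (kap0 / 8) δ k a b) * Real.sqrt (L * TT (kap0 / 8) δ k a2 b2) =
            L * Real.sqrt (TT (kap0 / 8) δ k a b * TT (kap0 / 8) δ k a2 b2) := by
          have hL0 : 0 ≤ L := by linarith
          rw [Real.sqrt_mul hL0, Real.sqrt_mul hL0, Real.sqrt_mul (hx k)]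
          have := Real.mul_self_sqrt hL0
          calc Real.sqrt L * Real.sqrt (TT (kap0 / 8) δ k a b) * (Real.sqrt L * Real.sqrt (TT (kap0 / 8) δ k a2 b2))
              = (Real.sqrt L * Real.sqrt L) * (Real.sqrt (TT (kap0 / 8) δ k a b) *
                Real.sqrt (TT (kap0 / 8) δ k a2 b2)) := by ring
            _ = _ := by rw [this]
        rw [h4]
        have h9 : (∑ l ∈ Ico (k - 1) n, Real.sqrt (TT (kap0 / 8) δ l a b) *
              Real.sqrt (TT (kap0 / 8) δ l a2 b2)) ≤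
              L * Real.sqrt (TT (kap0 / 8) δ k a b * TT (kap0 / 8) δ k a2 b2) :=
          h5.trans ((mul_le_mul h6 h7 (Real.sqrt_nonneg _) (Real.sqrt_nonneg _)).trans (le_of_eq h8))
        calc K * ((∑ l ∈ Ico (k - 1) n, Real.sqrt (TT (kap0 / 8) δ l a b) *
              Real.sqrt (TT (kap0 / 8) δ l a2 b2)) * Real.sqrt (Ub a * Ub a2))
            ≤ K * ((L * Real.sqrt (TT (kap0 / 8) δ k a b * TT (kap0 / 8) δ k a2 b2)) *
                Real.sqrt (Ub a * Ub a2)) := by gcongr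
          _ = _ := by ring

/-- the value of the geometric mean -/
private theorem GD_sqrt (δ : ℝ) (k a b a2 b2 : ℕ) :
    Real.sqrt (TT (kap0 / 8) δ k a b * TT (kap0 / 8) δ k a2 b2) * Real.sqrt (Ub a * Ub a2) =
      Ub a * (Ub a2 / Ub k) * ((2 : ℝ) ^ (kap0 / 16 * ((k - a : ℕ) : ℝ)) * (2 : ℝ) ^ (kap0 / 16 * ((k - a2 : ℕ) : ℝ))) *
        ((2 : ℝ) ^ (-(δ / 2 * ((min a k - b : ℕ) : ℝ))) * (2 : ℝ) ^ (-(δ / 2 * ((min a2 k - b2 : ℕ) : ℝ)))) := by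
  have hk := Ub_pos k
  have ha := Ub_pos a
  have ha2 := Ub_pos a2
  have e1 : ∀ x : ℝ, (2 : ℝ) ^ (kap0 / 8 * x) = (2 : ℝ) ^ (kap0 / 16 * x) * (2 : ℝ) ^ (kap0 / 16 * x) := by
    intro x
    rw [← Real.rpow_add two_pos]
    congr 1
    ring
  have e2 : ∀ x : ℝ, (2 : ℝ) ^ (-(δ * x)) = (2 : ℝ) ^ (-(δ / 2 * x)) * (2 : ℝ) ^ (-(δ / 2 * x)) := by
    intro x
    rw [← Real.rpow_add two_pos]
    congr 1
    ring
  rw [← Real.sqrt_mul (mul_nonneg (TT_nonneg _ _ _ _ _) (TT_nonneg _ _ _ _ _))]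
  rw [Real.sqrt_eq_iff_mul_self_eq_of_pos]
  · unfold TT
    rw [e1, e1, e2, e2]
    field_simp
  · have := GD_pos (kap0 / 16 * ((k - a : ℕ) : ℝ))
    have := GD_pos (kap0 / 16 * ((k - a2 : ℕ) : ℝ))
    have := GD_pos (-(δ / 2 * ((min a k - b : ℕ) : ℝ)))
    have := GD_pos (-(δ / 2 * ((min a2 k - b2 : ℕ) : ℝ)))
    positivity

/-- the constant of one giant, for strands with a ≤ k -/
private theorem GD_giant' (h : Inp C δ) : ∃ K : ℝ, 1 ≤ K ∧ ∀ D k a b a2 b2 : ℕ, a ≤ b → b ≤ k → b2 ≤ a2 →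
    a2 ≤ k + 1 → 2 ^ (k + 4) ≤ D →
    (∑' r : ℕ, (if 2 ^ (k - 1) < r then Rec8.sw (Irr r) (fun I => EE D a b I * EE D b2 a2 (rev I)) else 0)) ≤
      ENNReal.ofReal (K * (Ub b * (2 : ℝ) ^ (kap0 / 8 * ((k : ℝ) - b)) * (2 : ℝ) ^ (-(δ / 2 * ((b : ℝ) - a)))) *
        ((Ub a2 / Ub k) * (2 : ℝ) ^ (kap0 / 16 * ((k - a2 : ℕ) : ℝ)) *
          (2 : ℝ) ^ (-(δ / 2 * ((min a2 k - b2 : ℕ) : ℝ))))) := by
  obtain ⟨K, hK, h1⟩ := GD_giant h
  refine ⟨K, hK, fun D k a b a2 b2 hab hbk hb2 ha2 hD => ?_⟩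
  have hD1 : 2 ^ (b + 3) ≤ D := (Nat.pow_le_pow_right (by norm_num) (by omega)).trans hD
  have hD2 : 2 ^ (a2 + 3) ≤ D := (Nat.pow_le_pow_right (by norm_num) (by omega)).trans hD
  refine (h1 D k b a a2 b2 hab hb2 hD1 hD2).trans ?_
  apply ENNReal.ofReal_le_ofReal
  rw [GD_sqrt]
  have hUb := Ub_pos b
  have hUk := Ub_pos k
  have hUa := Ub_pos a2
  have hk0 := kap0_pos
  have e1 : ((k - b : ℕ) : ℝ) = (k : ℝ) - b := Nat.cast_sub hbk
  have e2 : ((min b k - a : ℕ) : ℝ) = (b : ℝ) - a := by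
    rw [min_eq_left hbk, Nat.cast_sub hab]
  have e3 : (2 : ℝ) ^ (kap0 / 16 * ((k : ℝ) - b)) ≤ (2 : ℝ) ^ (kap0 / 8 * ((k : ℝ) - b)) := by
    apply GD_mono
    have : (b : ℝ) ≤ k := by exact_mod_cast hbk
    nlinarith
  rw [e1, e2]
  have p1 := GD_pos (kap0 / 16 * ((k - a2 : ℕ) : ℝ))
  have p2 := GD_pos (-(δ / 2 * ((b : ℝ) - a)))
  have p3 := GD_pos (-(δ / 2 * ((min a2 k - b2 : ℕ) : ℝ)))
  calc K * (Ub b * (Ub a2 / Ub k) * ((2 : ℝ) ^ (kap0 / 16 * ((k : ℝ) - b)) *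
        (2 : ℝ) ^ (kap0 / 16 * ((k - a2 : ℕ) : ℝ))) * ((2 : ℝ) ^ (-(δ / 2 * ((b : ℝ) - a))) *
          (2 : ℝ) ^ (-(δ / 2 * ((min a2 k - b2 : ℕ) : ℝ)))))
      = K * (Ub b * (2 : ℝ) ^ (kap0 / 16 * ((k : ℝ) - b)) * (2 : ℝ) ^ (-(δ / 2 * ((b : ℝ) - a)))) *
        ((Ub a2 / Ub k) * (2 : ℝ) ^ (kap0 / 16 * ((k - a2 : ℕ) : ℝ)) *
          (2 : ℝ) ^ (-(δ / 2 * ((min a2 k - b2 : ℕ) : ℝ)))) := by ring
    _ ≤ _ := by gcongr

/-- geometric sum below n -/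
private theorem GD_geo {c : ℝ} (h : 0 < c) : ∃ K : ℝ, 1 ≤ K ∧ ∀ n : ℕ,
    ∑ a ∈ range (n + 1), (2 : ℝ) ^ (-(c * ((n : ℝ) - a))) ≤ K := by
  obtain ⟨K, hK, h1⟩ := k3_geo (δ := 2 * c) (by linarith)
  refine ⟨K, hK, fun n => ?_⟩
  have e : 2 * c / 2 = c := by ring
  have h2 := h1 n
  rw [e] at h2
  exact h2

/-- the sum over the ends of the second gain, lower ends b2 ≤ j1 -/
private theorem GD_S2 (hδ : 0 < δ) : ∃ K c : ℝ, 1 ≤ K ∧ 0 < c ∧ c ≤ kap0 / 4 ∧ ∀ k j1 : ℕ, j1 ≤ k →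
    ∑ b2 ∈ range (j1 + 1), ∑ a2 ∈ Icc b2 (k + 1), (2 : ℝ) ^ (kap0 / 4 * ((k : ℝ) + 1 - a2)) * (Ub a2 / Ub k) *
      (2 : ℝ) ^ (kap0 / 16 * ((k - a2 : ℕ) : ℝ)) * (2 : ℝ) ^ (-(δ / 2 * ((min a2 k - b2 : ℕ) : ℝ))) ≤
      K * (2 : ℝ) ^ (-(c * ((k : ℝ) - j1))) := by
  have hk0 := kap0_pos
  obtain ⟨c, hc⟩ : ∃ c, c = min (kap0 / 4) (δ / 4) := ⟨_, rfl⟩
  have hc0 : 0 < c := by rw [hc]; exact lt_min (by linarith) (by linarith)
  have hc1 : c ≤ kap0 / 4 := by rw [hc]; exact min_le_left _ _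
  have hc2 : c ≤ δ / 4 := by rw [hc]; exact min_le_right _ _
  obtain ⟨K0, hK0, hgeo⟩ := GD_geo hc0
  obtain ⟨A, hA⟩ : ∃ A : ℝ, A = 2 * (2 : ℝ) ^ (kap0 / 4) * (2 : ℝ) ^ c := ⟨_, rfl⟩
  have q1 : 1 ≤ (2 : ℝ) ^ (kap0 / 4) := GD_one_le (by linarith)
  have q2 : 1 ≤ (2 : ℝ) ^ c := GD_one_le hc0.le
  have hA1 : 1 ≤ A := by
    rw [hA]
    nlinarith
  refine ⟨A * (K0 * K0), c, one_le_mul_of_one_le_of_one_le hA1 (one_le_mul_of_one_le_of_one_le hK0 hK0), hc0, hc1,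
    fun k j1 hj => ?_⟩
  have hUk := Ub_pos k
  have hj' : (j1 : ℝ) ≤ k := by exact_mod_cast hj
  have hpt : ∀ b2 ∈ range (j1 + 1), ∀ a2 ∈ Icc b2 (k + 1),
      (2 : ℝ) ^ (kap0 / 4 * ((k : ℝ) + 1 - a2)) * (Ub a2 / Ub k) *
      (2 : ℝ) ^ (kap0 / 16 * ((k - a2 : ℕ) : ℝ)) * (2 : ℝ) ^ (-(δ / 2 * ((min a2 k - b2 : ℕ) : ℝ))) ≤
      A * (2 : ℝ) ^ (-(c * ((k : ℝ) - j1))) *
        ((2 : ℝ) ^ (-(c * ((j1 : ℝ) - b2))) * (2 : ℝ) ^ (-(c * (((k + 1 : ℕ) : ℝ) - a2)))) := by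
    intro b2 hb2 a2 ha2
    rw [Finset.mem_range] at hb2
    rw [Finset.mem_Icc] at ha2
    have hUa := Ub_pos a2
    have hb2' : (b2 : ℝ) ≤ j1 := by exact_mod_cast (show b2 ≤ j1 by omega)
    have hba : (b2 : ℝ) ≤ a2 := by exact_mod_cast ha2.1
    have hr : A * (2 : ℝ) ^ (-(c * ((k : ℝ) - j1))) *
        ((2 : ℝ) ^ (-(c * ((j1 : ℝ) - b2))) * (2 : ℝ) ^ (-(c * (((k + 1 : ℕ) : ℝ) - a2)))) =
        2 * (2 : ℝ) ^ (kap0 / 4 + c - c * ((k : ℝ) - j1) - c * ((j1 : ℝ) - b2) - c * ((k : ℝ) + 1 - a2)) := by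
      rw [hA]
      push_cast
      have e1 : kap0 / 4 + c - c * ((k : ℝ) - j1) - c * ((j1 : ℝ) - b2) - c * ((k : ℝ) + 1 - a2) =
          kap0 / 4 + (c + (-(c * ((k : ℝ) - j1)) + (-(c * ((j1 : ℝ) - b2)) + -(c * ((k : ℝ) + 1 - a2))))) := by ring
      rw [e1, Real.rpow_add two_pos, Real.rpow_add two_pos, Real.rpow_add two_pos, Real.rpow_add two_pos]
      ring
    rw [hr]
    rcases Nat.lt_or_ge k a2 with hka | hka
    · have e2 : a2 = k + 1 := by omega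
      have h1 : Ub a2 / Ub k ≤ 2 := by
        rw [e2, div_le_iff₀ hUk]
        exact Ub_succ k
      have e3 : ((k - a2 : ℕ) : ℝ) = 0 := by
        rw [Nat.sub_eq_zero_of_le hka.le]
        norm_num
      have e4 : ((min a2 k - b2 : ℕ) : ℝ) = (k : ℝ) - b2 := by
        rw [min_eq_right hka.le, Nat.cast_sub (by omega)]
      have e5 : (a2 : ℝ) = (k : ℝ) + 1 := by exact_mod_cast e2
      rw [e3, e4]
      have e6 : kap0 / 4 * ((k : ℝ) + 1 - a2) = 0 := by rw [e5]; ring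
      rw [e6, mul_zero, Real.rpow_zero, one_mul, mul_one]
      have p3 := GD_pos (-(δ / 2 * ((k : ℝ) - b2)))
      calc Ub a2 / Ub k * (2 : ℝ) ^ (-(δ / 2 * ((k : ℝ) - b2))) ≤ 2 * (2 : ℝ) ^ (-(δ / 2 * ((k : ℝ) - b2))) := by
            gcongr
        _ ≤ _ := by
            refine mul_le_mul_of_nonneg_left (GD_mono ?_) (by norm_num)
            rw [e5]
            nlinarith
    · have e3 : ((k - a2 : ℕ) : ℝ) = (k : ℝ) - a2 := Nat.cast_sub hka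
      have e4 : ((min a2 k - b2 : ℕ) : ℝ) = (a2 : ℝ) - b2 := by
        rw [min_eq_left hka, Nat.cast_sub ha2.1]
      have hka' : (a2 : ℝ) ≤ k := by exact_mod_cast hka
      have h1 : Ub a2 / Ub k ≤ 2 * (2 : ℝ) ^ (-(kap0 * ((k : ℝ) - a2))) := by
        rw [div_le_iff₀ hUk, Real.rpow_neg two_pos.le]
        have h2 := Ub_growth hka
        have h3 := GD_pos (kap0 * ((k : ℝ) - a2))
        have h4 : 2 * ((2 : ℝ) ^ (kap0 * ((k : ℝ) - a2)))⁻¹ * Ub k =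
            (2 * Ub k) / (2 : ℝ) ^ (kap0 * ((k : ℝ) - a2)) := by
          field_simp
        rw [h4, le_div_iff₀ h3]
        exact h2
      rw [e3, e4]
      have p1 := GD_pos (kap0 / 4 * ((k : ℝ) + 1 - a2))
      have p2 := GD_pos (kap0 / 16 * ((k : ℝ) - a2))
      have p3 := GD_pos (-(δ / 2 * ((a2 : ℝ) - b2)))
      calc (2 : ℝ) ^ (kap0 / 4 * ((k : ℝ) + 1 - a2)) * (Ub a2 / Ub k) *
            (2 : ℝ) ^ (kap0 / 16 * ((k : ℝ) - a2)) * (2 : ℝ) ^ (-(δ / 2 * ((a2 : ℝ) - b2)))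
          ≤ (2 : ℝ) ^ (kap0 / 4 * ((k : ℝ) + 1 - a2)) * (2 * (2 : ℝ) ^ (-(kap0 * ((k : ℝ) - a2)))) *
            (2 : ℝ) ^ (kap0 / 16 * ((k : ℝ) - a2)) * (2 : ℝ) ^ (-(δ / 2 * ((a2 : ℝ) - b2))) := by gcongr
        _ = 2 * (2 : ℝ) ^ (kap0 / 4 * ((k : ℝ) + 1 - a2) + (-(kap0 * ((k : ℝ) - a2)) +
              (kap0 / 16 * ((k : ℝ) - a2) + -(δ / 2 * ((a2 : ℝ) - b2))))) := by
            rw [Real.rpow_add two_pos, Real.rpow_add two_pos, Real.rpow_add two_pos]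
            ring
        _ ≤ _ := by
            refine mul_le_mul_of_nonneg_left (GD_mono ?_) (by norm_num)
            have f1 : 0 ≤ (k : ℝ) - a2 := by linarith
            have f2 : 0 ≤ (a2 : ℝ) - b2 := by linarith
            nlinarith [mul_nonneg f1 hk0.le, mul_le_mul_of_nonneg_right hc1 f1, mul_le_mul_of_nonneg_right hc2 f2]
  have hgeo2 : ∀ b2 : ℕ, ∑ a2 ∈ Icc b2 (k + 1), (2 : ℝ) ^ (-(c * (((k + 1 : ℕ) : ℝ) - a2))) ≤ K0 := by
    intro b2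
    refine le_trans ?_ (hgeo (k + 1))
    refine Finset.sum_le_sum_of_subset_of_nonneg ?_ fun _ _ _ => (GD_pos _).le
    intro a ha
    rw [Finset.mem_Icc] at ha
    rw [Finset.mem_range]
    omega
  calc _ ≤ ∑ b2 ∈ range (j1 + 1), ∑ a2 ∈ Icc b2 (k + 1), A * (2 : ℝ) ^ (-(c * ((k : ℝ) - j1))) *
        ((2 : ℝ) ^ (-(c * ((j1 : ℝ) - b2))) * (2 : ℝ) ^ (-(c * (((k + 1 : ℕ) : ℝ) - a2)))) :=
        Finset.sum_le_sum fun b2 hb2 => Finset.sum_le_sum fun a2 ha2 => hpt b2 hb2 a2 ha2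
    _ = A * (2 : ℝ) ^ (-(c * ((k : ℝ) - j1))) * ∑ b2 ∈ range (j1 + 1), (2 : ℝ) ^ (-(c * ((j1 : ℝ) - b2))) *
        ∑ a2 ∈ Icc b2 (k + 1), (2 : ℝ) ^ (-(c * (((k + 1 : ℕ) : ℝ) - a2))) := by
        rw [Finset.mul_sum]
        refine Finset.sum_congr rfl fun b2 _ => ?_
        rw [← Finset.mul_sum, ← Finset.mul_sum]
    _ ≤ A * (2 : ℝ) ^ (-(c * ((k : ℝ) - j1))) * ∑ b2 ∈ range (j1 + 1), (2 : ℝ) ^ (-(c * ((j1 : ℝ) - b2))) * K0 := by
        have hA0 : 0 ≤ A := by linarith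
        have p := GD_pos (-(c * ((k : ℝ) - j1)))
        refine mul_le_mul_of_nonneg_left (Finset.sum_le_sum fun b2 _ => ?_) (by positivity)
        exact mul_le_mul_of_nonneg_left (hgeo2 b2) (GD_pos _).le
    _ = A * (2 : ℝ) ^ (-(c * ((k : ℝ) - j1))) * ((∑ b2 ∈ range (j1 + 1), (2 : ℝ) ^ (-(c * ((j1 : ℝ) - b2)))) * K0) := by
        rw [Finset.sum_mul]
    _ ≤ A * (2 : ℝ) ^ (-(c * ((k : ℝ) - j1))) * (K0 * K0) := by
        have hA0 : 0 ≤ A := by linarith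
        have p := GD_pos (-(c * ((k : ℝ) - j1)))
        refine mul_le_mul_of_nonneg_left (mul_le_mul_of_nonneg_right (hgeo j1) (by linarith)) (by positivity)
    _ = _ := by ring

/-- the sum of the first parts of the weights, b2 ≤ j1 -/
private theorem GD_S1 : ∃ K : ℝ, 1 ≤ K ∧ ∀ k j1 : ℕ, j1 ≤ k →
    ∑ b2 ∈ range (j1 + 1), (2 : ℝ) ^ (kap0 / 4 * ((k : ℝ) - b2)) * Ub b2 ≤
      K * Ub k * (2 : ℝ) ^ (-(kap0 / 4 * ((k : ℝ) - j1))) := by
  have hk0 := kap0_pos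
  obtain ⟨K, hK, h1⟩ := geo_Ub (η := kap0 / 4) (by linarith)
  refine ⟨2 * K, by linarith, fun k j1 hj => ?_⟩
  have hUk := Ub_pos k
  have hUj := Ub_pos j1
  have hj' : (j1 : ℝ) ≤ k := by exact_mod_cast hj
  have p1 := GD_pos (kap0 / 4 * ((k : ℝ) - j1))
  calc ∑ b2 ∈ range (j1 + 1), (2 : ℝ) ^ (kap0 / 4 * ((k : ℝ) - b2)) * Ub b2
      = (2 : ℝ) ^ (kap0 / 4 * ((k : ℝ) - j1)) *
        ∑ b2 ∈ range (j1 + 1), (2 : ℝ) ^ (kap0 / 4 * ((j1 : ℝ) - b2)) * Ub b2 := by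
        rw [Finset.mul_sum]
        refine Finset.sum_congr rfl fun b2 _ => ?_
        rw [← mul_assoc, ← Real.rpow_add two_pos]
        congr 2
        ring
    _ ≤ (2 : ℝ) ^ (kap0 / 4 * ((k : ℝ) - j1)) * (K * Ub j1) := mul_le_mul_of_nonneg_left (h1 j1) p1.le
    _ ≤ (2 : ℝ) ^ (kap0 / 4 * ((k : ℝ) - j1)) * (K * (2 * Ub k * (2 : ℝ) ^ (-(kap0 * ((k : ℝ) - j1))))) := by
        have h2 : Ub j1 ≤ 2 * Ub k * (2 : ℝ) ^ (-(kap0 * ((k : ℝ) - j1))) := by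
          have h3 := Ub_growth hj
          have h4 := GD_pos (kap0 * ((k : ℝ) - j1))
          rw [Real.rpow_neg two_pos.le, ← div_eq_mul_inv, le_div_iff₀ h4]
          exact h3
        gcongr
    _ = 2 * K * Ub k * (2 : ℝ) ^ (kap0 / 4 * ((k : ℝ) - j1) + -(kap0 * ((k : ℝ) - j1))) := by
        rw [Real.rpow_add two_pos]
        ring
    _ ≤ _ := by
        refine mul_le_mul_of_nonneg_left (GD_mono ?_) (by positivity)
        nlinarith [mul_nonneg hk0.le (by linarith : (0 : ℝ) ≤ (k : ℝ) - j1)]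

/-- one value a ≤ b -/
private theorem GD_lo (h : Inp C δ) : ∃ K c : ℝ, 1 ≤ K ∧ 0 < c ∧ ∀ (D k j1 b a : ℕ) (I : List Bool),
    2 ^ (k + 4) ≤ D → j1 ≤ k → a ≤ b → b ≤ k →
    ∑ b2 ∈ range (j1 + 1), ∑' r : ℕ, (if 2 ^ (k - 1) < r then
      sw (Irr r) (fun P => KT D b I a P * Sw D k b2 P) else 0) ≤
      ENNReal.ofReal (K * (2 : ℝ) ^ (-(c * ((k : ℝ) - j1))) * (Ub b * (2 : ℝ) ^ (kap0 / 8 * ((k : ℝ) - b)) *
        (2 : ℝ) ^ (-(δ / 2 * ((b : ℝ) - a))))) := by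
  have hk0 := kap0_pos
  have hδ := h.pos
  obtain ⟨K1, hK1, h1⟩ := mass_ge h
  obtain ⟨K2, hK2, h2⟩ := GD_S1
  obtain ⟨K3, hK3, h3⟩ := GD_giant' h
  obtain ⟨K5, c, hK5, hc, hck, h5⟩ := GD_S2 hδ
  refine ⟨K1 * K2 + K3 * K5, c, by nlinarith, hc, fun D k j1 b a I hD hj hab hbk => ?_⟩
  have hD1 : 2 ^ (b + 3) ≤ D := (Nat.pow_le_pow_right (by norm_num) (by omega)).trans hD
  have hUb := Ub_pos b
  have hUk := Ub_pos k
  have hbk' : (b : ℝ) ≤ k := by exact_mod_cast hbk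
  have hab' : (a : ℝ) ≤ b := by exact_mod_cast hab
  have hj' : (j1 : ℝ) ≤ k := by exact_mod_cast hj
  have pc := GD_pos (-(c * ((k : ℝ) - j1)))
  have p6 := GD_pos (kap0 / 8 * ((k : ℝ) - b))
  have p7 := GD_pos (-(δ / 2 * ((b : ℝ) - a)))
  have hpt : ∀ b2 ∈ range (j1 + 1), (∑' r : ℕ, (if 2 ^ (k - 1) < r then
      sw (Irr r) (fun P => KT D b I a P * Sw D k b2 P) else 0)) ≤
      ENNReal.ofReal ((2 : ℝ) ^ (kap0 / 4 * ((k : ℝ) - b2)) * Ub b2) *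
        (∑' r : ℕ, (if 2 ^ (k - 1) < r then sw (Irr r) (fun P => EE D a b P) else 0)) +
      ∑ a2 ∈ Icc b2 (k + 1), ENNReal.ofReal ((2 : ℝ) ^ (kap0 / 4 * ((k : ℝ) + 1 - a2))) *
        (∑' r : ℕ, (if 2 ^ (k - 1) < r then
          sw (Irr r) (fun P => EE D a b P * EE D b2 a2 (rev P)) else 0)) := by
    intro b2 _
    have e1 : ∀ r : ℕ, sw (Irr r) (fun P => KT D b I a P * Sw D k b2 P) ≤
        ENNReal.ofReal ((2 : ℝ) ^ (kap0 / 4 * ((k : ℝ) - b2)) * Ub b2) * sw (Irr r) (fun P => EE D a b P) +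
        ∑ a2 ∈ Icc b2 (k + 1), ENNReal.ofReal ((2 : ℝ) ^ (kap0 / 4 * ((k : ℝ) + 1 - a2))) *
          sw (Irr r) (fun P => EE D a b P * EE D b2 a2 (rev P)) := by
      intro r
      rw [← Rec8.sw_mul_left]
      simp only [← Rec8.sw_mul_left]
      rw [← Rec8.sw_sum, ← Rec8.sw_add]
      refine Rec8.sw_mono' fun P _ => ?_
      calc KT D b I a P * Sw D k b2 P ≤ EE D a b P * Sw D k b2 P := mul_le_mul' (KT_le_right D b I a P) le_rfl
        _ = _ := by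
          unfold Sw
          rw [mul_add, Finset.mul_sum]
          congr 1
          · ring
          · refine Finset.sum_congr rfl fun a2 _ => ?_
            ring
    calc (∑' r : ℕ, (if 2 ^ (k - 1) < r then sw (Irr r) (fun P => KT D b I a P * Sw D k b2 P) else 0))
        ≤ ∑' r : ℕ, (ENNReal.ofReal ((2 : ℝ) ^ (kap0 / 4 * ((k : ℝ) - b2)) * Ub b2) *
            (if 2 ^ (k - 1) < r then sw (Irr r) (fun P => EE D a b P) else 0) +
          ∑ a2 ∈ Icc b2 (k + 1), ENNReal.ofReal ((2 : ℝ) ^ (kap0 / 4 * ((k : ℝ) + 1 - a2))) *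
            (if 2 ^ (k - 1) < r then
              sw (Irr r) (fun P => EE D a b P * EE D b2 a2 (rev P)) else 0)) := by
          refine ENNReal.tsum_le_tsum fun r => ?_
          by_cases hr : 2 ^ (k - 1) < r
          · simp only [if_pos hr]
            exact e1 r
          · simp only [if_neg hr]
            exact zero_le
      _ = _ := by
          rw [ENNReal.tsum_add, ENNReal.tsum_mul_left]
          congr 1
          rw [Summable.tsum_finsetSum (fun _ _ => ENNReal.summable)]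
          refine Finset.sum_congr rfl fun a2 _ => ?_
          rw [ENNReal.tsum_mul_left]
  refine (Finset.sum_le_sum hpt).trans ?_
  rw [Finset.sum_add_distrib, ← Finset.sum_mul]
  -- first part
  have hA : (∑ b2 ∈ range (j1 + 1), ENNReal.ofReal ((2 : ℝ) ^ (kap0 / 4 * ((k : ℝ) - b2)) * Ub b2)) *
      (∑' r : ℕ, (if 2 ^ (k - 1) < r then sw (Irr r) (fun P => EE D a b P) else 0)) ≤
      ENNReal.ofReal (K1 * K2 * (2 : ℝ) ^ (-(c * ((k : ℝ) - j1))) * (Ub b * (2 : ℝ) ^ (kap0 / 8 * ((k : ℝ) - b)) *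
        (2 : ℝ) ^ (-(δ / 2 * ((b : ℝ) - a))))) := by
    have e1 : (∑ b2 ∈ range (j1 + 1), ENNReal.ofReal ((2 : ℝ) ^ (kap0 / 4 * ((k : ℝ) - b2)) * Ub b2)) ≤
        ENNReal.ofReal (K2 * Ub k * (2 : ℝ) ^ (-(kap0 / 4 * ((k : ℝ) - j1)))) := by
      rw [← ENNReal.ofReal_sum_of_nonneg (fun b2 _ => mul_nonneg (GD_pos _).le (Ub_pos b2).le)]
      exact ENNReal.ofReal_le_ofReal (h2 k j1 hj)
    have e2 := h1 D b a k hab hD1
    refine (mul_le_mul' e1 e2).trans ?_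
    have p8 := GD_pos (-(kap0 / 4 * ((k : ℝ) - j1)))
    rw [← ENNReal.ofReal_mul (by positivity)]
    apply ENNReal.ofReal_le_ofReal
    have e3 : TT (kap0 / 8) δ k b a ≤ Ub b / Ub k * (2 : ℝ) ^ (kap0 / 8 * ((k : ℝ) - b)) *
        (2 : ℝ) ^ (-(δ / 2 * ((b : ℝ) - a))) := by
      unfold TT
      rw [Nat.cast_sub hbk, min_eq_left hbk, Nat.cast_sub hab]
      have e4 : (2 : ℝ) ^ (-(δ * ((b : ℝ) - a))) ≤ (2 : ℝ) ^ (-(δ / 2 * ((b : ℝ) - a))) := by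
        apply GD_mono
        nlinarith
      gcongr
    have e5 : (2 : ℝ) ^ (-(kap0 / 4 * ((k : ℝ) - j1))) ≤ (2 : ℝ) ^ (-(c * ((k : ℝ) - j1))) := by
      apply GD_mono
      nlinarith [mul_le_mul_of_nonneg_right hck (by linarith : (0 : ℝ) ≤ (k : ℝ) - j1)]
    have e6 := TT_nonneg (kap0 / 8) δ k b a
    calc K2 * Ub k * (2 : ℝ) ^ (-(kap0 / 4 * ((k : ℝ) - j1))) * (K1 * TT (kap0 / 8) δ k b a)
        ≤ K2 * Ub k * (2 : ℝ) ^ (-(c * ((k : ℝ) - j1))) * (K1 * (Ub b / Ub k * (2 : ℝ) ^ (kap0 / 8 * ((k : ℝ) - b)) *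
        (2 : ℝ) ^ (-(δ / 2 * ((b : ℝ) - a))))) := by gcongr
      _ = _ := by
        field_simp
  -- second part
  have hB : ∑ b2 ∈ range (j1 + 1), ∑ a2 ∈ Icc b2 (k + 1),
      ENNReal.ofReal ((2 : ℝ) ^ (kap0 / 4 * ((k : ℝ) + 1 - a2))) *
        (∑' r : ℕ, (if 2 ^ (k - 1) < r then
          sw (Irr r) (fun P => EE D a b P * EE D b2 a2 (rev P)) else 0)) ≤
      ENNReal.ofReal (K3 * (Ub b * (2 : ℝ) ^ (kap0 / 8 * ((k : ℝ) - b)) * (2 : ℝ) ^ (-(δ / 2 * ((b : ℝ) - a)))) *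
        (K5 * (2 : ℝ) ^ (-(c * ((k : ℝ) - j1))))) := by
    calc ∑ b2 ∈ range (j1 + 1), ∑ a2 ∈ Icc b2 (k + 1),
          ENNReal.ofReal ((2 : ℝ) ^ (kap0 / 4 * ((k : ℝ) + 1 - a2))) *
          (∑' r : ℕ, (if 2 ^ (k - 1) < r then
            sw (Irr r) (fun P => EE D a b P * EE D b2 a2 (rev P)) else 0))
        ≤ ∑ b2 ∈ range (j1 + 1), ∑ a2 ∈ Icc b2 (k + 1),
          ENNReal.ofReal (K3 * (Ub b * (2 : ℝ) ^ (kap0 / 8 * ((k : ℝ) - b)) *
            (2 : ℝ) ^ (-(δ / 2 * ((b : ℝ) - a)))) *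
            ((2 : ℝ) ^ (kap0 / 4 * ((k : ℝ) + 1 - a2)) * (Ub a2 / Ub k) *
            (2 : ℝ) ^ (kap0 / 16 * ((k - a2 : ℕ) : ℝ)) * (2 : ℝ) ^ (-(δ / 2 * ((min a2 k - b2 : ℕ) : ℝ))))) := by
          refine Finset.sum_le_sum fun b2 hb2 => Finset.sum_le_sum fun a2 ha2 => ?_
          rw [Finset.mem_range] at hb2
          rw [Finset.mem_Icc] at ha2
          have g1 := h3 D k a b a2 b2 hab hbk ha2.1 ha2.2 hD
          have p4 := GD_pos (kap0 / 4 * ((k : ℝ) + 1 - a2))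
          refine (mul_le_mul' le_rfl g1).trans ?_
          rw [← ENNReal.ofReal_mul p4.le]
          apply ENNReal.ofReal_le_ofReal
          exact le_of_eq (by ring)
      _ = ENNReal.ofReal (K3 * (Ub b * (2 : ℝ) ^ (kap0 / 8 * ((k : ℝ) - b)) *
            (2 : ℝ) ^ (-(δ / 2 * ((b : ℝ) - a)))) *
            ∑ b2 ∈ range (j1 + 1), ∑ a2 ∈ Icc b2 (k + 1), ((2 : ℝ) ^ (kap0 / 4 * ((k : ℝ) + 1 - a2)) * (Ub a2 / Ub k) *
            (2 : ℝ) ^ (kap0 / 16 * ((k - a2 : ℕ) : ℝ)) * (2 : ℝ) ^ (-(δ / 2 * ((min a2 k - b2 : ℕ) : ℝ))))) := by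
          have hnn : ∀ b2 a2 : ℕ, 0 ≤ K3 * (Ub b * (2 : ℝ) ^ (kap0 / 8 * ((k : ℝ) - b)) *
            (2 : ℝ) ^ (-(δ / 2 * ((b : ℝ) - a)))) *
            ((2 : ℝ) ^ (kap0 / 4 * ((k : ℝ) + 1 - a2)) * (Ub a2 / Ub k) *
            (2 : ℝ) ^ (kap0 / 16 * ((k - a2 : ℕ) : ℝ)) *
              (2 : ℝ) ^ (-(δ / 2 * ((min a2 k - b2 : ℕ) : ℝ)))) := by
            intro b2 a2
            have hUa := Ub_pos a2
            have p1 := GD_pos (kap0 / 16 * ((k - a2 : ℕ) : ℝ))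
            have p3 := GD_pos (-(δ / 2 * ((min a2 k - b2 : ℕ) : ℝ)))
            have p4 := GD_pos (kap0 / 4 * ((k : ℝ) + 1 - a2))
            positivity
          rw [Finset.mul_sum, ENNReal.ofReal_sum_of_nonneg]
          · refine Finset.sum_congr rfl fun b2 _ => ?_
            rw [Finset.mul_sum, ENNReal.ofReal_sum_of_nonneg]
            exact fun a2 _ => hnn b2 a2
          · intro b2 _
            rw [Finset.mul_sum]
            exact Finset.sum_nonneg fun a2 _ => hnn b2 a2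
      _ ≤ _ := by
          apply ENNReal.ofReal_le_ofReal
          exact mul_le_mul_of_nonneg_left (h5 k j1 hj) (by positivity)
  refine (add_le_add hA hB).trans ?_
  rw [← ENNReal.ofReal_add (by positivity) (by positivity)]
  apply ENNReal.ofReal_le_ofReal
  exact le_of_eq (by ring)

/-- (g4) from (g2o) -/
theorem g4_of (h : Inp C δ) (hg2 : ∃ K c : ℝ, 1 ≤ K ∧ 0 < c ∧ ∀ (D k e j1 : ℕ), 2 ^ (k + 4) ≤ D →
    j1 + 3 ≤ e → e ≤ k →
    ∑ b ∈ range (j1 + 1), ∑' r : ℕ, (if 2 ^ (e - 1) < r then sw (Irr r) (fun P => Sw D k b P) else 0) ≤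
      ENNReal.ofReal (K * (2 : ℝ) ^ (k - e) * (2 : ℝ) ^ (-(c * ((e : ℝ) - j1))))) :
    ∃ K c : ℝ, 1 ≤ K ∧ 0 < c ∧ ∀ (D k j1 b : ℕ) (I : List Bool), 2 ^ (k + 4) ≤ D →
    j1 + 3 ≤ k → b ≤ k →
    ∑ a ∈ range (k + 2), ∑ b2 ∈ range (j1 + 1), ∑' r : ℕ, (if 2 ^ (k - 1) < r then
      sw (Irr r) (fun P => KT D b I a P * Sw D k b2 P) else 0) ≤
      ENNReal.ofReal (K * (2 : ℝ) ^ (-(c * ((k : ℝ) - j1)))) * Sw D k b I := by
  have hk0 := kap0_pos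
  obtain ⟨K1, c1, hK1, hc1, h1⟩ := hg2
  obtain ⟨K2, c2, hK2, hc2, h2⟩ := GD_lo h
  obtain ⟨K3, hK3, h3⟩ := k3_geo h.pos
  obtain ⟨c, hc⟩ : ∃ c, c = min c1 c2 := ⟨_, rfl⟩
  have hc0 : 0 < c := by rw [hc]; exact lt_min hc1 hc2
  have hcc1 : c ≤ c1 := by rw [hc]; exact min_le_left _ _
  have hcc2 : c ≤ c2 := by rw [hc]; exact min_le_right _ _
  refine ⟨K2 * K3 + K1, c, by nlinarith, hc0, fun D k j1 b I hD hj hbk => ?_⟩
  have hUb := Ub_pos b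
  have hbk' : (b : ℝ) ≤ k := by exact_mod_cast hbk
  have hj' : (j1 : ℝ) ≤ k := by exact_mod_cast (show j1 ≤ k by omega)
  have p6 := GD_pos (kap0 / 8 * ((k : ℝ) - b))
  have pc := GD_pos (-(c * ((k : ℝ) - j1)))
  have pc1 := GD_pos (-(c1 * ((k : ℝ) - j1)))
  have pc2 := GD_pos (-(c2 * ((k : ℝ) - j1)))
  have m1 : (2 : ℝ) ^ (-(c1 * ((k : ℝ) - j1))) ≤ (2 : ℝ) ^ (-(c * ((k : ℝ) - j1))) := by
    apply GD_mono
    nlinarith [mul_le_mul_of_nonneg_right hcc1 (by linarith : (0 : ℝ) ≤ (k : ℝ) - j1)]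
  have m2 : (2 : ℝ) ^ (-(c2 * ((k : ℝ) - j1))) ≤ (2 : ℝ) ^ (-(c * ((k : ℝ) - j1))) := by
    apply GD_mono
    nlinarith [mul_le_mul_of_nonneg_right hcc2 (by linarith : (0 : ℝ) ≤ (k : ℝ) - j1)]
  have hsplit : range (k + 2) = range (b + 1) ∪ Icc (b + 1) (k + 1) := by
    ext a
    simp only [Finset.mem_union, Finset.mem_range, Finset.mem_Icc]
    omega
  have hdisj : Disjoint (range (b + 1)) (Icc (b + 1) (k + 1)) := by
    rw [Finset.disjoint_left]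
    intro a ha ha'
    rw [Finset.mem_range] at ha
    rw [Finset.mem_Icc] at ha'
    omega
  rw [hsplit, Finset.sum_union hdisj]
  have e1 : ∑ a ∈ range (b + 1), ∑ b2 ∈ range (j1 + 1), (∑' r : ℕ, (if 2 ^ (k - 1) < r then
      sw (Irr r) (fun P => KT D b I a P * Sw D k b2 P) else 0)) ≤
      ENNReal.ofReal (K2 * K3 * (2 : ℝ) ^ (-(c * ((k : ℝ) - j1)))) *
        ENNReal.ofReal ((2 : ℝ) ^ (kap0 / 4 * ((k : ℝ) - b)) * Ub b) := by
    calc ∑ a ∈ range (b + 1), ∑ b2 ∈ range (j1 + 1), (∑' r : ℕ, (if 2 ^ (k - 1) < r then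
          sw (Irr r) (fun P => KT D b I a P * Sw D k b2 P) else 0))
        ≤ ∑ a ∈ range (b + 1), ENNReal.ofReal (K2 * (2 : ℝ) ^ (-(c2 * ((k : ℝ) - j1))) *
          (Ub b * (2 : ℝ) ^ (kap0 / 8 * ((k : ℝ) - b)) * (2 : ℝ) ^ (-(δ / 2 * ((b : ℝ) - a))))) := by
          refine Finset.sum_le_sum fun a ha => ?_
          rw [Finset.mem_range] at ha
          exact h2 D k j1 b a I hD (by omega) (by omega) hbk
      _ = ENNReal.ofReal (∑ a ∈ range (b + 1), (K2 * (2 : ℝ) ^ (-(c2 * ((k : ℝ) - j1))) *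
          (Ub b * (2 : ℝ) ^ (kap0 / 8 * ((k : ℝ) - b)) * (2 : ℝ) ^ (-(δ / 2 * ((b : ℝ) - a)))))) := by
          rw [ENNReal.ofReal_sum_of_nonneg]
          intro a _
          have := GD_pos (-(δ / 2 * ((b : ℝ) - a)))
          positivity
      _ ≤ _ := by
          rw [← ENNReal.ofReal_mul (by positivity)]
          apply ENNReal.ofReal_le_ofReal
          rw [← Finset.mul_sum, ← Finset.mul_sum]
          have g1 := h3 b
          have g3 : (2 : ℝ) ^ (kap0 / 8 * ((k : ℝ) - b)) ≤ (2 : ℝ) ^ (kap0 / 4 * ((k : ℝ) - b)) := by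
            apply GD_mono
            nlinarith
          calc K2 * (2 : ℝ) ^ (-(c2 * ((k : ℝ) - j1))) * (Ub b * (2 : ℝ) ^ (kap0 / 8 * ((k : ℝ) - b)) *
                ∑ a ∈ range (b + 1), (2 : ℝ) ^ (-(δ / 2 * ((b : ℝ) - a))))
              ≤ K2 * (2 : ℝ) ^ (-(c * ((k : ℝ) - j1))) * (Ub b * (2 : ℝ) ^ (kap0 / 4 * ((k : ℝ) - b)) * K3) := by
                gcongr
            _ = _ := by ring
  have e2 : ∑ a ∈ Icc (b + 1) (k + 1), ∑ b2 ∈ range (j1 + 1), (∑' r : ℕ, (if 2 ^ (k - 1) < r then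
      sw (Irr r) (fun P => KT D b I a P * Sw D k b2 P) else 0)) ≤
      ENNReal.ofReal (K1 * (2 : ℝ) ^ (-(c * ((k : ℝ) - j1)))) *
        ∑ a ∈ Icc b (k + 1), ENNReal.ofReal ((2 : ℝ) ^ (kap0 / 4 * ((k : ℝ) + 1 - a))) * EE D b a (rev I) := by
    have hg : ∑ b2 ∈ range (j1 + 1), (∑' r : ℕ, (if 2 ^ (k - 1) < r then sw (Irr r) (fun P => Sw D k b2 P) else 0)) ≤
        ENNReal.ofReal (K1 * (2 : ℝ) ^ (-(c * ((k : ℝ) - j1)))) := by
      refine (h1 D k k j1 hD hj le_rfl).trans (ENNReal.ofReal_le_ofReal ?_)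
      rw [Nat.sub_self, pow_zero, mul_one]
      gcongr
    calc ∑ a ∈ Icc (b + 1) (k + 1), ∑ b2 ∈ range (j1 + 1), (∑' r : ℕ, (if 2 ^ (k - 1) < r then
          sw (Irr r) (fun P => KT D b I a P * Sw D k b2 P) else 0))
        ≤ ∑ a ∈ Icc (b + 1) (k + 1), ENNReal.ofReal (K1 * (2 : ℝ) ^ (-(c * ((k : ℝ) - j1)))) *
          (ENNReal.ofReal ((2 : ℝ) ^ (kap0 / 4 * ((k : ℝ) + 1 - a))) * EE D b a (rev I)) := by
          refine Finset.sum_le_sum fun a ha => ?_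
          rw [Finset.mem_Icc] at ha
          have hone : (1 : ℝ≥0∞) ≤ ENNReal.ofReal ((2 : ℝ) ^ (kap0 / 4 * ((k : ℝ) + 1 - a))) := by
            rw [ENNReal.one_le_ofReal]
            apply GD_one_le
            have : (a : ℝ) ≤ (k : ℝ) + 1 := by exact_mod_cast ha.2
            have : 0 ≤ kap0 / 4 := by linarith
            apply mul_nonneg this
            linarith
          calc ∑ b2 ∈ range (j1 + 1), (∑' r : ℕ, (if 2 ^ (k - 1) < r then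
                sw (Irr r) (fun P => KT D b I a P * Sw D k b2 P) else 0))
              ≤ ∑ b2 ∈ range (j1 + 1), EE D b a (rev I) *
                (∑' r : ℕ, (if 2 ^ (k - 1) < r then sw (Irr r) (fun P => Sw D k b2 P) else 0)) := by
                refine Finset.sum_le_sum fun b2 _ => ?_
                rw [← ENNReal.tsum_mul_left]
                refine ENNReal.tsum_le_tsum fun r => ?_
                by_cases hr : 2 ^ (k - 1) < r
                · simp only [if_pos hr]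
                  rw [← Rec8.sw_mul_left]
                  exact Rec8.sw_mono' fun P _ => mul_le_mul' (KT_le_left D b I a P) le_rfl
                · simp only [if_neg hr]
                  exact zero_le
            _ = EE D b a (rev I) * ∑ b2 ∈ range (j1 + 1),
                (∑' r : ℕ, (if 2 ^ (k - 1) < r then sw (Irr r) (fun P => Sw D k b2 P) else 0)) := by
                rw [Finset.mul_sum]
            _ ≤ EE D b a (rev I) * ENNReal.ofReal (K1 * (2 : ℝ) ^ (-(c * ((k : ℝ) - j1)))) := mul_le_mul' le_rfl hg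
            _ = ENNReal.ofReal (K1 * (2 : ℝ) ^ (-(c * ((k : ℝ) - j1)))) * (1 * EE D b a (rev I)) := by
                rw [one_mul, mul_comm]
            _ ≤ _ := mul_le_mul' le_rfl (mul_le_mul' hone le_rfl)
      _ = ENNReal.ofReal (K1 * (2 : ℝ) ^ (-(c * ((k : ℝ) - j1)))) * ∑ a ∈ Icc (b + 1) (k + 1),
          (ENNReal.ofReal ((2 : ℝ) ^ (kap0 / 4 * ((k : ℝ) + 1 - a))) * EE D b a (rev I)) := by
          rw [Finset.mul_sum]
      _ ≤ _ := by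
          refine mul_le_mul' le_rfl ?_
          apply Finset.sum_le_sum_of_subset
          apply Finset.Icc_subset_Icc_left
          omega
  refine (add_le_add e1 e2).trans ?_
  have hK0 : 0 ≤ K2 * K3 := by positivity
  have e9 : ENNReal.ofReal ((K2 * K3 + K1) * (2 : ℝ) ^ (-(c * ((k : ℝ) - j1)))) =
      ENNReal.ofReal (K2 * K3 * (2 : ℝ) ^ (-(c * ((k : ℝ) - j1)))) +
        ENNReal.ofReal (K1 * (2 : ℝ) ^ (-(c * ((k : ℝ) - j1)))) := by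
    rw [← ENNReal.ofReal_add (by positivity) (by positivity)]
    congr 1
    ring
  unfold Sw
  rw [e9, add_mul]
  refine add_le_add ?_ ?_
  · exact mul_le_mul' le_rfl le_self_add
  · exact mul_le_mul' le_rfl le_add_self

end SDN

end HexObs
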