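import Pool.Agent.SDN.FillB
import Pool.Agent.SDN.GiantA
import Pool.Agent.SDN.GiantB
import Pool.Agent.SDN.GiantC
import Pool.Agent.SDN.GiantD

/-!
SDN, the filling step: the norm of tF.
-/

set_option autoImplicit false

namespace HexObs

open Finset TS

open scoped ENNReal

open Rec8 (sw mb)

namespace SDN

variable {C δ : ℝ}

namespace Fl

/-- algebra of the sums over the pieces -/
theorem sum_gen (D k b n0 m0 : ℕ) (I : List Bool) (w v : ℕ → ℕ → ℝ≥0∞) (x A : ℝ≥0∞) :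
    ∑ a ∈ range n0, ∑' r : ℕ, w a r * sw (Irr r) (fun P => KT D b I a P *
      (x * (∑ b2 ∈ range m0, v b2 r * Sw D k b2 P + A))) =
    x * (∑ a ∈ range n0, ∑ b2 ∈ range m0, ∑' r : ℕ, w a r * v b2 r *
      sw (Irr r) (fun P => KT D b I a P * Sw D k b2 P) +
      A * ∑ a ∈ range n0, ∑' r : ℕ, w a r * sw (Irr r) (fun P => KT D b I a P)) := by
  rw [Finset.mul_sum, ← Finset.sum_add_distrib, Finset.mul_sum]
  refine Finset.sum_congr rfl fun a _ => ?_
  have h1 : ∀ r : ℕ, w a r * sw (Irr r) (fun P => KT D b I a P *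
      (x * (∑ b2 ∈ range m0, v b2 r * Sw D k b2 P + A))) =
      x * (∑ b2 ∈ range m0, w a r * v b2 r * sw (Irr r) (fun P => KT D b I a P * Sw D k b2 P) +
        A * (w a r * sw (Irr r) (fun P => KT D b I a P))) := by
    intro r
    have h2 : sw (Irr r) (fun P => KT D b I a P *
        (x * (∑ b2 ∈ range m0, v b2 r * Sw D k b2 P + A))) =
        x * (∑ b2 ∈ range m0, v b2 r * sw (Irr r) (fun P => KT D b I a P * Sw D k b2 P) +
          A * sw (Irr r) (fun P => KT D b I a P)) := by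
      have h3 : sw (Irr r) (fun P => KT D b I a P *
          (x * (∑ b2 ∈ range m0, v b2 r * Sw D k b2 P + A))) =
          sw (Irr r) (fun P => x * (∑ b2 ∈ range m0, v b2 r * (KT D b I a P * Sw D k b2 P) +
            A * KT D b I a P)) := by
        refine Rec8.sw_congr fun P _ => ?_
        have h4 : ∑ b2 ∈ range m0, v b2 r * (KT D b I a P * Sw D k b2 P) =
            KT D b I a P * ∑ b2 ∈ range m0, v b2 r * Sw D k b2 P := by
          rw [Finset.mul_sum]
          exact Finset.sum_congr rfl fun b2 _ => by ring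
        rw [h4]
        ring
      rw [h3, Rec8.sw_mul_left, Rec8.sw_add, Rec8.sw_sum, Rec8.sw_mul_left]
      congr 2
      exact Finset.sum_congr rfl fun b2 _ => Rec8.sw_mul_left _ _ _
    rw [h2, mul_left_comm, mul_add, Finset.mul_sum]
    congr 2
    · exact Finset.sum_congr rfl fun b2 _ => by ring
    · ring
  rw [tsum_congr h1, ENNReal.tsum_mul_left, ENNReal.tsum_add, ENNReal.tsum_mul_left,
    Summable.tsum_finsetSum (fun _ _ => ENNReal.summable)]

theorem ck_sum (D k j b : ℕ) (I : List Bool) : sw (Fld.BrB b) (fun M => ck D j I M) ≤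
    16 * ∑ a ∈ range (j + 2), pm j a (fun P => KT D b I a P) := by
  have h1 := fold_sum D b j I (mu j) (mb j) (fun a n r => mu_le_mb) (fun n r => mu_eq_zero)
    (fun a r => mb_mono (Nat.le_succ a) r) (fun _ _ => 1)
  refine le_trans (le_of_eq ?_) (h1.trans (le_of_eq ?_))
  · refine Rec8.sw_congr fun M _ => ?_
    unfold ck
    refine tsum_congr fun n => tsum_congr fun r => ?_
    congr 1
    refine Rec8.sw_congr fun X _ => ?_
    rw [Rec8.sw_one]
  · simp only [mul_one]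
    rfl

/-- short bridges behind a piece, by blocks -/
theorem QQ_le {D k j1 r : ℕ} (hj : j1 ≤ k) {P : List Bool} (hP : P ∈ Irr r) (Φ : List Bool → ℝ≥0∞) :
    sw (QQ j1) (fun Q => Φ (P ++ Q)) ≤ ∑ b2 ∈ range (j1 + 1), xT D k Φ * Sw D k b2 P := by
  classical
  have h1 : sw (QQ j1) (fun Q => Φ (P ++ Q)) ≤ ∑ b2 ∈ range (j1 + 1), sw (Fld.BrB b2) (fun Q => Φ (P ++ Q)) := by
    have e1 : ∀ b2, sw (Fld.BrB b2) (fun Q => Φ (P ++ Q)) =
        ∑' t : List Bool, (if t ∈ Fld.BrB b2 then wE t * Φ (P ++ t) else 0) := fun b2 => Rec8.sw_ind _ _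
    simp only [e1]
    rw [← Summable.tsum_finsetSum (fun _ _ => ENNReal.summable), Rec8.sw_ind]
    refine ENNReal.tsum_le_tsum fun t => ?_
    by_cases ht : t ∈ QQ j1
    · rw [if_pos ht]
      obtain ⟨m, hm, htm⟩ := ht
      obtain ⟨a, ha, hb⟩ : ∃ a ∈ range (j1 + 1), Fld.Bl a m := by
        by_cases h0 : m = 0
        · subst h0
          exact ⟨0, by rw [mem_range]; omega, by norm_num, Or.inr rfl⟩
        · refine ⟨Nat.log 2 m, ?_, Nat.lt_pow_succ_log_self (by norm_num) m, Or.inl (Nat.pow_log_le_self 2 h0)⟩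
          rw [mem_range]
          exact Nat.log_lt_of_lt_pow h0 hm
      refine le_trans (le_of_eq ?_) (Finset.single_le_sum (fun _ _ => zero_le) ha)
      rw [if_pos (show t ∈ Fld.BrB a from ⟨m, hb, htm⟩)]
    · rw [if_neg ht]
      exact zero_le
  refine h1.trans (Finset.sum_le_sum fun b2 hb2 => ?_)
  exact xT_use (by rw [mem_range] at hb2; omega) ⟨r, hP⟩ Φ

theorem tF_sw (D N : ℕ) (W : Set (List Bool)) (R : List Bool → List Bool → Prop) (Φ : List Bool → ℝ≥0∞)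
    (t : List Bool) : tF D N W R Φ t = sw (At D N W R t) Φ := rfl

theorem Ub_ratio {e k : ℕ} (h : e ≤ k) : Ub k ≤ 2 ^ (k - e) * Ub e := by
  have h1 := Ub_add e (k - e)
  rw [Nat.add_sub_cancel' h] at h1
  exact h1

end Fl

/-- the norm of the sum over the leaves of W -/
theorem x_fillE (h : Inp C δ) : ∃ K c : ℝ, 1 ≤ K ∧ 0 < c ∧ ∀ (D N k e j1 : ℕ) (W : Set (List Bool))
    (R : List Bool → List Bool → Prop) (ρ ε : ℝ) (Φ : List Bool → ℝ≥0∞), Hered Φ → RNb R → 2 ^ (k + 4) ≤ D →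
    j1 + 3 ≤ e → e ≤ k → 1 ≤ ρ → UU N ≤ ρ * Ub k → 0 ≤ ε → EZ D N e W (ε * Ub k) →
    xT D k (tF D N W R Φ) ≤ ENNReal.ofReal (K * ρ * ((2 : ℝ) ^ (k - e) * (2 : ℝ) ^ (-(c * ((e : ℝ) - j1))) +
      4 ^ (k - j1) * ε)) * xT D k Φ := by
  classical
  obtain ⟨K1, c1, hK1, hc1, hg1⟩ := g1 h
  obtain ⟨K2, c2, hK2, hc2, hg2⟩ := g2o h
  obtain ⟨K3, hK3, hg3⟩ := g3 h
  obtain ⟨K4, c4, hK4, hc4, hg1o⟩ := g1o h
  obtain ⟨K5, c5, hK5, hc5, hg4⟩ := (g4_of h (g2o h))
  obtain ⟨K6, hK6, hk1⟩ := k1 h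
  obtain ⟨K7, hK7, hrest⟩ := restH h
  obtain ⟨c, hc⟩ : ∃ c, c = min (min c1 c2) (min c4 c5) := ⟨_, rfl⟩
  have hc0 : 0 < c := by
    rw [hc]
    exact lt_min (lt_min hc1 hc2) (lt_min hc4 hc5)
  have hcc1 : c ≤ c1 := by rw [hc]; exact (min_le_left _ _).trans (min_le_left _ _)
  have hcc2 : c ≤ c2 := by rw [hc]; exact (min_le_left _ _).trans (min_le_right _ _)
  have hcc4 : c ≤ c4 := by rw [hc]; exact (min_le_right _ _).trans (min_le_left _ _)
  have hcc5 : c ≤ c5 := by rw [hc]; exact (min_le_right _ _).trans (min_le_right _ _)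
  refine ⟨16 * (K4 + K7 * K1 + K5 + K2 * K6 + K6 * K3), c, ?_, hc0, ?_⟩
  · nlinarith [mul_nonneg (by linarith : (0 : ℝ) ≤ K7) (by linarith : (0 : ℝ) ≤ K1),
      mul_nonneg (by linarith : (0 : ℝ) ≤ K2) (by linarith : (0 : ℝ) ≤ K6),
      mul_nonneg (by linarith : (0 : ℝ) ≤ K6) (by linarith : (0 : ℝ) ≤ K3)]
  intro D N k e j1 W R ρ ε Φ hΦ hR hD he hek hρ hN hε hW
  obtain ⟨x, hx⟩ : ∃ x, x = xT D k Φ := ⟨_, rfl⟩
  rw [← hx]
  refine xT_le fun b I hb hI => ?_
  obtain ⟨i, hIi⟩ := hI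
  obtain ⟨S, hS⟩ : ∃ S, S = Sw D k b I := ⟨_, rfl⟩
  rw [← hS]
  obtain ⟨U, hU⟩ : ∃ U, U = UU N := ⟨_, rfl⟩
  have hU0 : 0 ≤ U := by
    rw [hU]
    exact (Num2Aux.UU_pos N).le
  have hUk := Ub_pos k
  have hUe := Ub_pos e
  have hUj := Ub_pos j1
  obtain ⟨Θ, hΘd⟩ : ∃ Θ : ℕ → List Bool → ℝ≥0∞, Θ = fun r P =>
    x * (∑ b2 ∈ range (k + 1), mb k b2 r * Sw D k b2 P + ENNReal.ofReal (K7 * U)) := ⟨_, rfl⟩
  have hΘ : ∀ n r P, n ≤ 2 ^ (k + 1) → P ∈ Irr r →
      sw {Z | Z ∈ BU ∧ ∃ Y ∈ Brd n, Y ++ (P ++ Z) ∈ BrR D N} (fun Z => Φ (P ++ Z)) ≤ Θ r P := by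
    intro n r P hn hP
    rw [hΘd, hx, hU]
    exact hrest D N k n r Φ P hΦ hD hn hP
  obtain ⟨θ, hθd⟩ : ∃ θ : List Bool → ℝ≥0∞, θ = fun P => ∑ b2 ∈ range (j1 + 1), x * Sw D k b2 P := ⟨_, rfl⟩
  have hθ : ∀ r P, P ∈ Irr r → sw (Fl.QQ j1) (fun Q => Φ (P ++ Q)) ≤ θ P := by
    intro r P hP
    rw [hθd, hx]
    exact Fl.QQ_le (by omega) hP Φ
  -- the numbers
  obtain ⟨β, hβ⟩ : ∃ β : ℝ, β = (2 : ℝ) ^ (k - e) * (2 : ℝ) ^ (-(c * ((e : ℝ) - j1))) := ⟨_, rfl⟩
  have hej : (0 : ℝ) ≤ (e : ℝ) - j1 := by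
    have : (j1 : ℝ) ≤ e := by exact_mod_cast (by omega : j1 ≤ e)
    linarith
  have hβ0 : 0 ≤ β := by
    rw [hβ]
    positivity
  have hpw : ∀ c', c ≤ c' → (2 : ℝ) ^ (-(c' * ((e : ℝ) - j1))) ≤ (2 : ℝ) ^ (-(c * ((e : ℝ) - j1))) := by
    intro c' hc'
    refine Real.rpow_le_rpow_of_exponent_le (by norm_num) ?_
    have := mul_le_mul_of_nonneg_right hc' hej
    linarith
  -- B2
  obtain ⟨B2, hB2⟩ : ∃ B2, B2 = ∑' r : ℕ, (if 2 ^ (e - 1) < r then sw (Irr r) (fun P =>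
          sw (Fl.QQ j1) (fun Q => Φ (P ++ Q))) else 0) := ⟨_, rfl⟩
  have hB2le : B2 ≤ x * ENNReal.ofReal (K2 * β) := by
    have h1 : B2 ≤ x * ∑ b ∈ range (j1 + 1), ∑' r : ℕ, (if 2 ^ (e - 1) < r then
        sw (Irr r) (fun P => Sw D k b P) else 0) := by
      rw [hB2, ← Summable.tsum_finsetSum (fun _ _ => ENNReal.summable), ← ENNReal.tsum_mul_left]
      refine ENNReal.tsum_le_tsum fun r => ?_
      by_cases hr : 2 ^ (e - 1) < r
      · simp only [if_pos hr]
        refine (Rec8.sw_mono' fun P hP => hθ r P hP).trans (le_of_eq ?_)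
        rw [hθd, Rec8.sw_sum, Finset.mul_sum]
        exact Finset.sum_congr rfl fun b2 _ => Rec8.sw_mul_left _ _ _
      · simp only [if_neg hr]
        exact zero_le
    refine h1.trans (mul_le_mul_right ((hg2 D k e j1 hD he hek).trans (ENNReal.ofReal_le_ofReal ?_)) _)
    rw [hβ, mul_assoc]
    refine mul_le_mul_of_nonneg_left ?_ (by linarith)
    exact mul_le_mul_of_nonneg_left (hpw c2 hcc2) (by positivity)
  -- E
  obtain ⟨E, hE⟩ : ∃ E, E = ∑' m : ℕ, ∑' r : ℕ, mu j1 m r * sw (Irr r) (fun P => sw (Brd m) (fun Q =>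
        Φ (P ++ Q))) := ⟨_, rfl⟩
  have hEle : E ≤ x * ENNReal.ofReal (K3 * 2 ^ (k - j1)) := by
    rw [hE, hx]
    exact (endsH_gen (D := D) (k := k) (j := j1) (by omega) Φ).trans (mul_le_mul_right (hg3 D k j1 hD (by omega)) _)
  -- the sum over M
  have hmain : sw (Fld.BrB b) (fun M => tF D N W R Φ (I ++ M)) ≤
      sw (Fld.BrB b) (fun M => ((∑' n : ℕ, ∑' r : ℕ, (if 2 ^ (e - 1) < r ∧ n < 2 ^ (j1 + 1) then 1 else 0) *
          sw (Brd n) (fun X => sw (Fl.KP1 D I M X r) (fun P => Θ r P))) +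
        (∑' n : ℕ, ∑' r : ℕ, (if 2 ^ (k - 1) < r then mu k n r else 0) *
          sw (Brd n) (fun X => sw (Fl.KP1 D I M X r) θ)) +
        ENNReal.ofReal U * Fl.ck D k I M * B2) +
      Fl.ck D j1 I M * (ENNReal.ofReal (ε * Ub k) * E)) := by
    refine Rec8.sw_mono' fun M hM => ?_
    obtain ⟨m0, -, hM0⟩ := hM
    rw [Fl.tF_sw, hU, hB2, hE]
    exact Fl.leaf_bound he hek hD hR hIi.1 hM0 hΦ hW Θ hΘ θ hθ
  refine hmain.trans ?_
  rw [Rec8.sw_add, Rec8.sw_add, Rec8.sw_add]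
  -- first term
  have ht1 : sw (Fld.BrB b) (fun M => ∑' n : ℕ, ∑' r : ℕ, (if 2 ^ (e - 1) < r ∧ n < 2 ^ (j1 + 1) then 1 else 0) *
          sw (Brd n) (fun X => sw (Fl.KP1 D I M X r) (fun P => Θ r P))) ≤
      ENNReal.ofReal (16 * (K4 + K7 * K1) * ρ * β) * x * S := by
    have h1 := fold_sum D b j1 I (fun n r => if 2 ^ (e - 1) < r ∧ n < 2 ^ (j1 + 1) then 1 else 0)
      (fun a r => if 2 ^ (e - 1) < r then 1 else 0)
      (fun a n r _ => by
        by_cases hh : 2 ^ (e - 1) < r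
        · rw [if_pos hh]
          split_ifs
          · exact le_rfl
          · exact zero_le
        · rw [if_neg hh, if_neg (fun h => hh h.1)])
      (fun n r hn => if_neg (fun h => by omega)) (fun a r => le_rfl) Θ
    refine h1.trans ?_
    rw [hΘd]
    rw [Fl.sum_gen D k b (j1 + 2) (k + 1) I (fun _ r => if 2 ^ (e - 1) < r then 1 else 0) (mb k) x
      (ENNReal.ofReal (K7 * U))]
    have h2 : ∑ a ∈ range (j1 + 2), ∑ b2 ∈ range (k + 1), ∑' r : ℕ, (if 2 ^ (e - 1) < r then 1 else 0) * mb k b2 r *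
        sw (Irr r) (fun P => KT D b I a P * Sw D k b2 P) ≤ ENNReal.ofReal (K4 * β) * S := by
      refine le_trans (le_of_eq ?_) ((hg1o D k e j1 b I hD he hek hb).trans ?_)
      · refine Finset.sum_congr rfl fun a _ => Finset.sum_congr rfl fun b2 _ => tsum_congr fun r => ?_
        split_ifs <;> simp
      · rw [hS]
        refine mul_le_mul_left (ENNReal.ofReal_le_ofReal ?_) _
        rw [hβ, mul_assoc]
        refine mul_le_mul_of_nonneg_left ?_ (by linarith)
        exact mul_le_mul_of_nonneg_left (hpw c4 hcc4) (by positivity)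
    have h3 : ∑ a ∈ range (j1 + 2), ∑' r : ℕ, (if 2 ^ (e - 1) < r then 1 else 0) *
        sw (Irr r) (fun P => KT D b I a P) ≤ ENNReal.ofReal (K1 / Ub e * (2 : ℝ) ^ (-(c * ((e : ℝ) - j1)))) * S := by
      refine le_trans (le_of_eq ?_) ((hg1 D k e j1 b I hD he hek hb).trans ?_)
      · refine Finset.sum_congr rfl fun a _ => tsum_congr fun r => ?_
        split_ifs <;> simp
      · rw [hS]
        refine mul_le_mul_left (ENNReal.ofReal_le_ofReal ?_) _
        exact mul_le_mul_of_nonneg_left (hpw c1 hcc1) (by positivity)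
    calc 16 * (x * (∑ a ∈ range (j1 + 2), ∑ b2 ∈ range (k + 1), ∑' r : ℕ, (if 2 ^ (e - 1) < r then 1 else 0) *
          mb k b2 r * sw (Irr r) (fun P => KT D b I a P * Sw D k b2 P) + ENNReal.ofReal (K7 * U) *
          ∑ a ∈ range (j1 + 2), ∑' r : ℕ, (if 2 ^ (e - 1) < r then 1 else 0) * sw (Irr r) (fun P => KT D b I a P)))
        ≤ 16 * (x * (ENNReal.ofReal (K4 * β) * S + ENNReal.ofReal (K7 * U) *
          (ENNReal.ofReal (K1 / Ub e * (2 : ℝ) ^ (-(c * ((e : ℝ) - j1)))) * S))) := by gcongr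
      _ = (16 * (ENNReal.ofReal (K4 * β) + ENNReal.ofReal (K7 * U) *
          ENNReal.ofReal (K1 / Ub e * (2 : ℝ) ^ (-(c * ((e : ℝ) - j1)))))) * x * S := by ring
      _ ≤ _ := by
        gcongr
        have e16 : (16 : ℝ≥0∞) = ENNReal.ofReal 16 := by norm_num
        have p1 : (0 : ℝ) ≤ K7 * U := by positivity
        have p2 : (0 : ℝ) ≤ K1 / Ub e * (2 : ℝ) ^ (-(c * ((e : ℝ) - j1))) := by positivity
        have p3 : (0 : ℝ) ≤ K4 * β := by positivity
        rw [e16, ← ENNReal.ofReal_mul p1, ← ENNReal.ofReal_add p3 (mul_nonneg p1 p2),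
          ← ENNReal.ofReal_mul (by norm_num)]
        apply ENNReal.ofReal_le_ofReal
        have q1 : K7 * U * (K1 / Ub e * (2 : ℝ) ^ (-(c * ((e : ℝ) - j1)))) ≤ K7 * K1 * ρ * β := by
          have q2 : U ≤ ρ * (2 ^ (k - e) * Ub e) := by
            rw [hU]
            refine hN.trans (mul_le_mul_of_nonneg_left (Fl.Ub_ratio hek) (by linarith))
          have q3 : U / Ub e ≤ ρ * 2 ^ (k - e) := by
            rw [div_le_iff₀ hUe]
            linarith
          calc K7 * U * (K1 / Ub e * (2 : ℝ) ^ (-(c * ((e : ℝ) - j1)))) =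
              K7 * K1 * (U / Ub e) * (2 : ℝ) ^ (-(c * ((e : ℝ) - j1))) := by ring
            _ ≤ K7 * K1 * (ρ * 2 ^ (k - e)) * (2 : ℝ) ^ (-(c * ((e : ℝ) - j1))) := by gcongr
            _ = _ := by rw [hβ]; ring
        have q4 : K4 * β ≤ K4 * ρ * β := by
          have : 0 ≤ K4 * β := p3
          nlinarith
        nlinarith
  -- second term
  have ht2 : sw (Fld.BrB b) (fun M => ∑' n : ℕ, ∑' r : ℕ, (if 2 ^ (k - 1) < r then mu k n r else 0) *
          sw (Brd n) (fun X => sw (Fl.KP1 D I M X r) θ)) ≤ ENNReal.ofReal (16 * K5 * ρ * β) * x * S := by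
    have h1 := fold_sum D b k I (fun n r => if 2 ^ (k - 1) < r then mu k n r else 0)
      (fun a r => if 2 ^ (k - 1) < r then 1 else 0)
      (fun a n r _ => by
        split_ifs
        · exact (mu_le_min k n r).trans (min_le_left _ _)
        · exact le_rfl)
      (fun n r hn => by
        split_ifs
        · exact mu_eq_zero hn
        · rfl) (fun a r => le_rfl) (fun _ => θ)
    refine h1.trans ?_
    have h2 : ∑ a ∈ range (k + 2), ∑' r : ℕ, (if 2 ^ (k - 1) < r then 1 else 0) * sw (Irr r) (fun P =>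
        KT D b I a P * θ P) ≤ x * (ENNReal.ofReal (K5 * (2 : ℝ) ^ (-(c5 * ((k : ℝ) - j1)))) * S) := by
      rw [hS]
      refine le_trans (le_of_eq ?_) (mul_le_mul_right (hg4 D k j1 b I hD (by omega) hb) x)
      rw [Finset.mul_sum]
      refine Finset.sum_congr rfl fun a _ => ?_
      rw [← Summable.tsum_finsetSum (fun _ _ => ENNReal.summable), ← ENNReal.tsum_mul_left]
      refine tsum_congr fun r => ?_
      by_cases hr : 2 ^ (k - 1) < r
      · simp only [if_pos hr, one_mul]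
        rw [hθd, Finset.mul_sum]
        have e1 : ∀ P, KT D b I a P * ∑ b2 ∈ range (j1 + 1), x * Sw D k b2 P =
            ∑ b2 ∈ range (j1 + 1), x * (KT D b I a P * Sw D k b2 P) := by
          intro P
          rw [Finset.mul_sum]
          exact Finset.sum_congr rfl fun b2 _ => by ring
        rw [Rec8.sw_congr (fun P _ => e1 P), Rec8.sw_sum]
        exact Finset.sum_congr rfl fun b2 _ => Rec8.sw_mul_left _ _ _
      · simp [if_neg hr]
    calc 16 * ∑ a ∈ range (k + 2), ∑' r : ℕ, (if 2 ^ (k - 1) < r then 1 else 0) * sw (Irr r) (fun P =>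
          KT D b I a P * θ P)
        ≤ 16 * (x * (ENNReal.ofReal (K5 * (2 : ℝ) ^ (-(c5 * ((k : ℝ) - j1)))) * S)) := mul_le_mul_right h2 _
      _ = (16 * ENNReal.ofReal (K5 * (2 : ℝ) ^ (-(c5 * ((k : ℝ) - j1))))) * x * S := by ring
      _ ≤ _ := by
        gcongr
        have e16 : (16 : ℝ≥0∞) = ENNReal.ofReal 16 := by norm_num
        rw [e16, ← ENNReal.ofReal_mul (by norm_num)]
        apply ENNReal.ofReal_le_ofReal
        have q1 : (2 : ℝ) ^ (-(c5 * ((k : ℝ) - j1))) ≤ β := by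
          rw [hβ]
          have q2 : (1 : ℝ) ≤ 2 ^ (k - e) := one_le_pow₀ (by norm_num)
          have q3 : (2 : ℝ) ^ (-(c5 * ((k : ℝ) - j1))) ≤ (2 : ℝ) ^ (-(c * ((e : ℝ) - j1))) := by
            refine Real.rpow_le_rpow_of_exponent_le (by norm_num) ?_
            have h5 : (e : ℝ) ≤ k := by exact_mod_cast hek
            have h6 : c * ((e : ℝ) - j1) ≤ c5 * ((k : ℝ) - j1) :=
              mul_le_mul hcc5 (by linarith) hej (by linarith)
            linarith
          have q4 : (0 : ℝ) ≤ (2 : ℝ) ^ (-(c * ((e : ℝ) - j1))) := by positivity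
          nlinarith
        have q5 : K5 * (2 : ℝ) ^ (-(c5 * ((k : ℝ) - j1))) ≤ K5 * β := mul_le_mul_of_nonneg_left q1 (by linarith)
        have q6 : K5 * β ≤ K5 * ρ * β := by
          have : 0 ≤ K5 * β := by positivity
          nlinarith
        linarith
  -- third term
  have ht3 : sw (Fld.BrB b) (fun M => ENNReal.ofReal U * Fl.ck D k I M * B2) ≤
      ENNReal.ofReal (16 * (K2 * K6) * ρ * β) * x * S := by
    rw [Rec8.sw_mul_right, Rec8.sw_mul_left]
    have h1 := Fl.ck_sum D k k b I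
    have h2 := hk1 D k k b I hD le_rfl hb
    rw [← hS] at h2
    calc ENNReal.ofReal U * sw (Fld.BrB b) (fun M => Fl.ck D k I M) * B2
        ≤ ENNReal.ofReal U * (16 * (ENNReal.ofReal (K6 / Ub k) * S)) * (x * ENNReal.ofReal (K2 * β)) := by
          gcongr
          exact h1.trans (mul_le_mul_right h2 _)
      _ = (16 * (ENNReal.ofReal U * ENNReal.ofReal (K6 / Ub k) * ENNReal.ofReal (K2 * β))) * x * S := by ring
      _ ≤ _ := by
        gcongr
        have e16 : (16 : ℝ≥0∞) = ENNReal.ofReal 16 := by norm_num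
        rw [e16, ← ENNReal.ofReal_mul hU0, ← ENNReal.ofReal_mul (by positivity), ← ENNReal.ofReal_mul (by norm_num)]
        apply ENNReal.ofReal_le_ofReal
        have q1 : U / Ub k ≤ ρ := by
          rw [div_le_iff₀ hUk, hU]
          exact hN
        calc 16 * (U * (K6 / Ub k) * (K2 * β)) = 16 * (K2 * K6) * (U / Ub k) * β := by ring
          _ ≤ _ := by gcongr
  -- fourth term
  have ht4 : sw (Fld.BrB b) (fun M => Fl.ck D j1 I M * (ENNReal.ofReal (ε * Ub k) * E)) ≤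
      ENNReal.ofReal (16 * (K6 * K3) * ρ * (4 ^ (k - j1) * ε)) * x * S := by
    rw [Rec8.sw_mul_right]
    have h1 := Fl.ck_sum D k j1 b I
    have h2 := hk1 D k j1 b I hD (by omega) hb
    rw [← hS] at h2
    calc sw (Fld.BrB b) (fun M => Fl.ck D j1 I M) * (ENNReal.ofReal (ε * Ub k) * E)
        ≤ (16 * (ENNReal.ofReal (K6 / Ub j1) * S)) * (ENNReal.ofReal (ε * Ub k) *
          (x * ENNReal.ofReal (K3 * 2 ^ (k - j1)))) := by
          gcongr
          exact h1.trans (mul_le_mul_right h2 _)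
      _ = (16 * (ENNReal.ofReal (K6 / Ub j1) * ENNReal.ofReal (ε * Ub k) *
          ENNReal.ofReal (K3 * 2 ^ (k - j1)))) * x * S := by ring
      _ ≤ _ := by
        gcongr
        have e16 : (16 : ℝ≥0∞) = ENNReal.ofReal 16 := by norm_num
        rw [e16, ← ENNReal.ofReal_mul (by positivity), ← ENNReal.ofReal_mul (by positivity),
          ← ENNReal.ofReal_mul (by norm_num)]
        apply ENNReal.ofReal_le_ofReal
        have q1 : Ub k / Ub j1 ≤ 2 ^ (k - j1) := by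
          rw [div_le_iff₀ hUj]
          exact Fl.Ub_ratio (by omega)
        have q2 : (4 : ℝ) ^ (k - j1) = 2 ^ (k - j1) * 2 ^ (k - j1) := by
          rw [← mul_pow]
          norm_num
        calc 16 * (K6 / Ub j1 * (ε * Ub k) * (K3 * 2 ^ (k - j1))) =
            16 * (K6 * K3) * 1 * ((Ub k / Ub j1) * 2 ^ (k - j1) * ε) := by ring
          _ ≤ 16 * (K6 * K3) * ρ * ((2 ^ (k - j1)) * 2 ^ (k - j1) * ε) := by gcongr
          _ = _ := by rw [q2]
  calc _ ≤ ENNReal.ofReal (16 * (K4 + K7 * K1) * ρ * β) * x * S + ENNReal.ofReal (16 * K5 * ρ * β) * x * S +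
        ENNReal.ofReal (16 * (K2 * K6) * ρ * β) * x * S +
        ENNReal.ofReal (16 * (K6 * K3) * ρ * (4 ^ (k - j1) * ε)) * x * S :=
        add_le_add (add_le_add (add_le_add ht1 ht2) ht3) ht4
    _ = (ENNReal.ofReal (16 * (K4 + K7 * K1) * ρ * β) + ENNReal.ofReal (16 * K5 * ρ * β) +
        ENNReal.ofReal (16 * (K2 * K6) * ρ * β) + ENNReal.ofReal (16 * (K6 * K3) * ρ * (4 ^ (k - j1) * ε))) * x * S := by
        ring
    _ ≤ _ := by
        rw [← hβ]
        gcongr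
        have p1 : 0 ≤ 16 * (K4 + K7 * K1) * ρ * β := by positivity
        have p2 : 0 ≤ 16 * K5 * ρ * β := by positivity
        have p3 : 0 ≤ 16 * (K2 * K6) * ρ * β := by positivity
        have p4 : 0 ≤ 16 * (K6 * K3) * ρ * (4 ^ (k - j1) * ε) := by positivity
        rw [← ENNReal.ofReal_add p1 p2, ← ENNReal.ofReal_add (add_nonneg p1 p2) p3,
          ← ENNReal.ofReal_add (add_nonneg (add_nonneg p1 p2) p3) p4]
        apply ENNReal.ofReal_le_ofReal
        have r1 : 0 ≤ ρ * β := by positivity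
        have r2 : 0 ≤ ρ * (4 ^ (k - j1) * ε) := by positivity
        have r3 : 0 ≤ K7 * K1 := by positivity
        have r4 : 0 ≤ K2 * K6 := by positivity
        have r5 : 0 ≤ K6 * K3 := by positivity
        have s1 : 0 ≤ K6 * K3 * (ρ * β) := mul_nonneg r5 r1
        have s2 : 0 ≤ (K4 + K7 * K1 + K5 + K2 * K6) * (ρ * (4 ^ (k - j1) * ε)) := by positivity
        nlinarith

end SDN

end HexObs
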