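import Pool.Agent.SDN.Cells
import Pool.Agent.TightS.SBasic

/-!
SDN: a leaf g = M ++ (P1 ++ (Z ++ (P2 ++ Q))) with low ends that fills a proportion κ of a column: the bridge Z visits
many own-grid cells in its bulk rows.
-/

set_option autoImplicit false

namespace HexObs

namespace SDN

open Finset TS

open scoped ENNReal

private lemma row_false_lev (t : List Bool) (i : ℕ) : row false (vx oo up t i) = lev t i / 3 := rfl

/-- translation by an even vertex of the level 3 n -/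
private lemma row_add {p v : Pt} {n : ℤ} (hp : ip p up = 3 * n) :
    row false (p + v) = n + row false v ∧ row true (p + v) = (p.2 - 2 * n) + row true v := by
  have h1 : p.1 + 2 * p.2 = 3 * n := by
    rw [← hp]
    unfold ip up
    ring
  rw [row_false, row_false, row_true, row_true]
  simp only [Prod.fst_add, Prod.snd_add]
  constructor <;> omega

/-- the four cells that meet a translated cell -/
private lemma cell_shift {S r a c : ℤ} (hS : 0 < S) (h1 : S * a ≤ r) (h2 : r < S * a + S) :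
    (c + r) / S = (S * a + c) / S ∨ (c + r) / S = (S * a + c) / S + 1 := by
  have h3 : (S * a + c) / S ≤ (c + r) / S := Int.ediv_le_ediv hS (by omega)
  have h4 : (c + r) / S ≤ (S * a + c + S) / S := Int.ediv_le_ediv hS (by omega)
  rw [Int.add_ediv_of_dvd_right (dvd_refl S), Int.ediv_self hS.ne'] at h4
  omega

/-- cells between two rows in a column -/
private noncomputable def rect (s : ℕ) (α β z w : ℤ) : Finset (ℤ × ℤ) :=
  (Icc (α / 2 ^ s) (β / 2 ^ s)) ×ˢ (Icc (z / 2 ^ s) ((z + w) / 2 ^ s))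

private lemma ediv_card {S α β : ℤ} (hS : 0 < S) (q : ℤ) (hq : β ≤ α + S * q) : β / S + 1 - α / S ≤ q + 2 := by
  have h1 : β / S ≤ (α + S * q) / S := Int.ediv_le_ediv hS hq
  rw [Int.add_mul_ediv_left _ _ hS.ne'] at h1
  omega

private lemma rect_card {s b : ℕ} (hsb : s ≤ b) {α β z : ℤ} {q : ℕ} (hq : β ≤ α + 2 ^ s * q) :
    (rect s α β z (2 ^ (b + 1))).card ≤ (q + 2) * (2 * 2 ^ (b - s) + 1) := by
  have hS : (0 : ℤ) < 2 ^ s := by positivity
  unfold rect
  rw [card_product, Int.card_Icc, Int.card_Icc]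
  apply Nat.mul_le_mul
  · have := ediv_card hS q hq
    omega
  · have e : (2 : ℤ) ^ (b + 1) = 2 ^ s * (2 * 2 ^ (b - s)) := by
      have : b + 1 = s + (1 + (b - s)) := by omega
      rw [this, pow_add, pow_add, pow_one]
    have h1 : (z + 2 ^ (b + 1)) / 2 ^ s = z / 2 ^ s + 2 * 2 ^ (b - s) := by
      rw [e, Int.add_mul_ediv_left _ _ hS.ne']
    rw [h1]
    have h2 : ((2 * 2 ^ (b - s) + 1 : ℕ) : ℤ) = 2 * 2 ^ (b - s) + 1 := by push_cast; rfl
    omega

open Classical in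
/-- the cells of the leaf in a column -/
private lemma wcells_le {s b f n1 h n2 : ℕ} {A Z B : List Bool} (hA : A ∈ Brd n1) (hZ : Z ∈ Brd h) (hB : B ∈ Brd n2)
    (hsf : s ≤ f) (hfb : f ≤ b) (h1 : n1 ≤ 2 ^ f) (h2 : n2 ≤ 2 ^ f) {η : ℝ} (hη : η * h ≤ 2 ^ f) (z : ℤ) :
    (wcells s b z (A ++ (Z ++ B))).card ≤ (5 * 2 ^ (f - s) + 4) * (2 * 2 ^ (b - s) + 1) + 4 * nbk η h s Z := by
  have hS : (0 : ℤ) < 2 ^ s := by positivity
  have hSf : (2 : ℤ) ^ s ≤ 2 ^ f := pow_le_pow_right₀ (by norm_num) hsf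
  obtain ⟨a1, a2, a3, a4⟩ := mem_Brd.1 hA
  obtain ⟨z1, z2, z3, z4⟩ := mem_Brd.1 hZ
  obtain ⟨b1, b2, b3, b4⟩ := mem_Brd.1 hB
  have h1' : (n1 : ℤ) ≤ 2 ^ f := by exact_mod_cast h1
  have h2' : (n2 : ℤ) ≤ 2 ^ f := by exact_mod_cast h2
  obtain ⟨p, hp⟩ : ∃ p, p = vx oo up A A.length := ⟨_, rfl⟩
  have hpl : ip p up = 3 * (n1 : ℤ) := by rw [hp]; exact a4
  obtain ⟨r0, hr0⟩ : ∃ r0 : ℤ, r0 = p.2 - 2 * n1 := ⟨_, rfl⟩
  -- the sets
  obtain ⟨Bk, hBk⟩ : ∃ Bk : Finset (ℤ × ℤ), Bk = (cells s Z).filter fun p => η * h ≤ 2 ^ s * (p.1 : ℝ) ∧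
      2 ^ s * (p.1 : ℝ) ≤ (1 - η) * h := ⟨_, rfl⟩
  obtain ⟨Im, hIm⟩ : ∃ Im : Finset (ℤ × ℤ), Im = (Bk ×ˢ ((univ : Finset Bool) ×ˢ (univ : Finset Bool))).image
      (fun x => ((2 ^ s * x.1.1 + (n1 : ℤ)) / 2 ^ s + (if x.2.1 then 1 else 0),
        (2 ^ s * x.1.2 + r0) / 2 ^ s + (if x.2.2 then 1 else 0))) := ⟨_, rfl⟩
  have hIc : Im.card ≤ 4 * nbk η h s Z := by
    rw [hIm]
    refine card_image_le.trans ?_
    rw [card_product, card_product, hBk]
    unfold nbk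
    simp only [card_univ, Fintype.card_bool]
    omega
  have hR1 : (rect s 0 (3 * 2 ^ f) z (2 ^ (b + 1))).card ≤ (3 * 2 ^ (f - s) + 2) * (2 * 2 ^ (b - s) + 1) := by
    apply rect_card (by omega)
    have e : (2 : ℤ) ^ f = 2 ^ s * 2 ^ (f - s) := by
      rw [← pow_add]
      congr 1
      omega
    rw [e]
    push_cast
    linarith
  have hR2 : (rect s ((n1 : ℤ) + h - 2 ^ f) ((n1 : ℤ) + h + 2 ^ f) z (2 ^ (b + 1))).card ≤
      (2 * 2 ^ (f - s) + 2) * (2 * 2 ^ (b - s) + 1) := by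
    apply rect_card (by omega)
    have e : (2 : ℤ) ^ f = 2 ^ s * 2 ^ (f - s) := by
      rw [← pow_add]
      congr 1
      omega
    rw [e]
    push_cast
    linarith
  have hsub : wcells s b z (A ++ (Z ++ B)) ⊆ rect s 0 (3 * 2 ^ f) z (2 ^ (b + 1)) ∪
      (rect s ((n1 : ℤ) + h - 2 ^ f) ((n1 : ℤ) + h + 2 ^ f) z (2 ^ (b + 1)) ∪ Im) := by
    intro q hq
    unfold wcells at hq
    rw [mem_image] at hq
    obtain ⟨i, hi, rfl⟩ := hq
    rw [mem_filter, mem_range, List.length_append, List.length_append] at hi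
    obtain ⟨hi, hi1, hi2⟩ := hi
    have hrect : ∀ α β : ℤ, α ≤ row false (vx oo up (A ++ (Z ++ B)) i) → row false (vx oo up (A ++ (Z ++ B)) i) ≤ β →
        cell s (vx oo up (A ++ (Z ++ B)) i) ∈ rect s α β z (2 ^ (b + 1)) := by
      intro α β g1 g2
      unfold rect cell
      rw [mem_product, mem_Icc, mem_Icc]
      exact ⟨⟨Int.ediv_le_ediv hS g1, Int.ediv_le_ediv hS g2⟩, Int.ediv_le_ediv hS hi1, Int.ediv_le_ediv hS (by omega)⟩
    have hf0 : (0 : ℤ) ≤ 2 ^ f := by positivity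
    rcases Nat.lt_or_ge A.length i with hA' | hA'
    · obtain ⟨j, rfl⟩ : ∃ j, i = A.length + j := ⟨i - A.length, by omega⟩
      have hj : 1 ≤ j := by omega
      rcases Nat.lt_or_ge Z.length j with hZ' | hZ'
      · -- in B
        obtain ⟨l, rfl⟩ : ∃ l, j = Z.length + l := ⟨j - Z.length, by omega⟩
        have hl := b1 l (by omega) (by omega)
        have e : lev (A ++ (Z ++ B)) (A.length + (Z.length + l)) = 3 * n1 + (3 * h + lev B l) := by
          rw [lev_cat a3, a4, lev_cat z3, z4]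
        refine mem_union_right _ (mem_union_left _ (hrect _ _ ?_ ?_))
        · rw [row_false_lev, e]
          omega
        · rw [row_false_lev, e]
          omega
      · -- in Z
        have hzj := z1 j hj hZ'
        have evx : vx oo up (A ++ (Z ++ B)) (A.length + j) = p + vx oo up Z j := by
          rw [vx_cat a3, vx_append (by omega), hp]
        obtain ⟨e1, e2⟩ := row_add (v := vx oo up Z j) hpl
        rw [← hr0] at e2
        have hzr : row false (vx oo up Z j) = lev Z j / 3 := rfl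
        obtain ⟨w, hw⟩ : ∃ w, cell s (vx oo up Z j) = w := ⟨_, rfl⟩
        obtain ⟨c1, c2, c3, c4⟩ := cell_bd hw
        have hwc : w ∈ cells s Z := by
          unfold cells
          rw [mem_image]
          exact ⟨j, by rw [mem_range]; omega, hw⟩
        by_cases hb1 : η * h ≤ 2 ^ s * (w.1 : ℝ)
        · by_cases hb2 : 2 ^ s * (w.1 : ℝ) ≤ (1 - η) * h
          · -- bulk
            refine mem_union_right _ (mem_union_right _ ?_)
            rw [hIm, mem_image]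
            have hwb : w ∈ Bk := by
              rw [hBk, mem_filter]
              exact ⟨hwc, hb1, hb2⟩
            have d1 := cell_shift (c := (n1 : ℤ)) hS c1 c2
            have d2 := cell_shift (c := r0) hS c3 c4
            refine ⟨(w, decide ((n1 + row false (vx oo up Z j)) / 2 ^ s = (2 ^ s * w.1 + n1) / 2 ^ s + 1),
              decide ((r0 + row true (vx oo up Z j)) / 2 ^ s = (2 ^ s * w.2 + r0) / 2 ^ s + 1)), ?_, ?_⟩
            · rw [mem_product]
              exact ⟨hwb, mem_univ _⟩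
            · rw [evx]
              unfold cell
              rw [e1, e2]
              simp only [decide_eq_true_eq]
              apply Prod.ext
              · show _ + _ = _
                rcases d1 with d1 | d1
                · rw [if_neg (by omega), add_zero, d1]
                · rw [if_pos d1, d1]
              · show _ + _ = _
                rcases d2 with d2 | d2
                · rw [if_neg (by omega), add_zero, d2]
                · rw [if_pos d2, d2]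
          · -- top rows
            push Not at hb2
            have g1 : (h : ℝ) - 2 ^ f < 2 ^ s * (w.1 : ℝ) := by nlinarith
            have g2 : (h : ℤ) - 2 ^ f < 2 ^ s * w.1 := by exact_mod_cast g1
            refine mem_union_right _ (mem_union_left _ (hrect _ _ ?_ ?_))
            · rw [evx, e1]
              omega
            · rw [evx, e1, hzr]
              omega
        · -- bottom rows
          push Not at hb1
          have g1 : 2 ^ s * (w.1 : ℝ) < 2 ^ f := by linarith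
          have g2 : 2 ^ s * w.1 < 2 ^ f := by exact_mod_cast g1
          refine mem_union_left _ (hrect _ _ ?_ ?_)
          · rw [evx, e1, hzr]
            omega
          · rw [evx, e1]
            omega
    · -- in A
      refine mem_union_left _ (hrect _ _ ?_ ?_)
      · rw [row_false_lev, lev_append (by omega)]
        rcases Nat.eq_zero_or_pos i with h0 | h0
        · rw [h0, lev_zero]
          omega
        · have := a1 i h0 hA'
          omega
      · rw [row_false_lev, lev_append (by omega)]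
        rcases Nat.eq_zero_or_pos i with h0 | h0
        · rw [h0, lev_zero]
          omega
        · have := a1 i h0 hA'
          omega
  refine (card_le_card hsub).trans ((card_union_le _ _).trans ?_)
  have h3 := card_union_le (rect s ((n1 : ℤ) + h - 2 ^ f) ((n1 : ℤ) + h + 2 ^ f) z (2 ^ (b + 1))) Im
  have e5 : (5 * 2 ^ (f - s) + 4) * (2 * 2 ^ (b - s) + 1) = (3 * 2 ^ (f - s) + 2) * (2 * 2 ^ (b - s) + 1) +
      (2 * 2 ^ (f - s) + 2) * (2 * 2 ^ (b - s) + 1) := by ring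
  omega

/-- THE FILLING LEAVES: the structure around the middle bridge is fixed; the bound e0 of the ends depends only on κ -/
theorem fil_EZ' : ∀ (κ : ℝ) (i0 : ℕ), 0 < κ → ∃ e0 : ℕ, ∀ ε : ℝ, 0 < ε → ∃ μ : ℕ, ∀ b s e : ℕ, s + μ ≤ b → e + e0 ≤ b →
    ∀ M ∈ BU, ∀ P1 ∈ IU, ∀ P2 ∈ IU, ∀ Q ∈ BU, hgt M + hgt P1 ≤ 2 ^ e → hgt P2 + hgt Q ≤ 2 ^ e →
    ∑' h : ℕ, gf {Z | Z ∈ Brd h ∧ M ++ (P1 ++ (Z ++ (P2 ++ Q))) ∈ Fil b i0 s κ ∧
      M ++ (P1 ++ (Z ++ (P2 ++ Q))) ∈ BrR (2 ^ (b - 1)) (2 ^ (b + i0))} ≤ ENNReal.ofReal (ε * Ub b) := by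
  classical
  intro κ i0 hκ
  obtain ⟨c0, hc0⟩ := pow_unbounded_of_one_lt (54 / κ) (one_lt_two : (1 : ℝ) < 2)
  obtain ⟨η, hη⟩ : ∃ η : ℝ, η = 1 / 2 ^ (c0 + i0) := ⟨_, rfl⟩
  have hη0 : 0 < η := by rw [hη]; positivity
  refine ⟨c0 + 3, fun ε hε => ?_⟩
  obtain ⟨μ, hμ⟩ := fill_free η (κ / 8) ε i0 2 hη0 (by positivity) hε
  refine ⟨μ + c0, ?_⟩
  intro b s e hbs hbe M hM P1 hP1 P2 hP2 Q hQ h1 h2
  obtain ⟨m, hM⟩ := hM
  obtain ⟨r1, hP1⟩ := hP1
  obtain ⟨r2, hP2⟩ := hP2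
  obtain ⟨q, hQ⟩ := hQ
  rw [hgt_eq hM, hgt_eq hP1.1] at h1
  rw [hgt_eq hP2.1, hgt_eq hQ] at h2
  have hA : M ++ P1 ∈ Brd (m + r1) := Brd_append hM hP1.1
  have hB : P2 ++ Q ∈ Brd (r2 + q) := Brd_append hP2.1 hQ
  have he2 : 2 * 2 ^ e ≤ 2 ^ (b - 2) := by
    rw [← pow_succ']
    exact Nat.pow_le_pow_right (by norm_num) (by omega)
  have hef : 2 ^ e ≤ 2 ^ (b - c0) := Nat.pow_le_pow_right (by norm_num) (by omega)
  have hb1 : 2 ^ (b - 1) = 2 * 2 ^ (b - 2) := by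
    rw [← pow_succ']
    congr 1
    omega
  refine le_trans ?_ (hμ b s (by omega) (by omega))
  -- the terms
  have key : ∀ h : ℕ, gf {Z | Z ∈ Brd h ∧ M ++ (P1 ++ (Z ++ (P2 ++ Q))) ∈ Fil b i0 s κ ∧
      M ++ (P1 ++ (Z ++ (P2 ++ Q))) ∈ BrR (2 ^ (b - 1)) (2 ^ (b + i0))} ≤
      if h ∈ Icc (2 ^ (b - 2)) (2 ^ (b + i0)) then gf {Z | Z ∈ Brd h ∧ κ / 8 * 4 ^ (b - s) ≤ (nbk η h s Z : ℝ)} else 0 := by
    intro h
    have hpt : ∀ Z, Z ∈ Brd h → M ++ (P1 ++ (Z ++ (P2 ++ Q))) ∈ Fil b i0 s κ →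
        M ++ (P1 ++ (Z ++ (P2 ++ Q))) ∈ BrR (2 ^ (b - 1)) (2 ^ (b + i0)) →
        h ∈ Icc (2 ^ (b - 2)) (2 ^ (b + i0)) ∧ κ / 8 * 4 ^ (b - s) ≤ (nbk η h s Z : ℝ) := by
      intro Z hZ hF hR
      have hg : M ++ (P1 ++ (Z ++ (P2 ++ Q))) ∈ Brd (m + r1 + (h + (r2 + q))) := by
        rw [← List.append_assoc M]
        exact Brd_append hA (Brd_append hZ hB)
      obtain ⟨H, H1, H2, H3⟩ := hR
      have hH : H = m + r1 + (h + (r2 + q)) := by
        rw [← hgt_eq H3, hgt_eq hg]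
      have hh : h ∈ Icc (2 ^ (b - 2)) (2 ^ (b + i0)) := by
        rw [mem_Icc]
        omega
      refine ⟨hh, ?_⟩
      obtain ⟨-, z, hz⟩ := hF
      rw [mem_Icc] at hh
      have hηh : η * h ≤ 2 ^ (b - c0) := by
        have h3 : (h : ℝ) ≤ 2 ^ (b + i0) := by exact_mod_cast hh.2
        have h4 : (2 : ℝ) ^ (b + i0) = 2 ^ (c0 + i0) * 2 ^ (b - c0) := by
          rw [← pow_add]
          congr 1
          omega
        rw [hη, one_div, inv_mul_le_iff₀ (by positivity), ← h4]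
        exact h3
      have hw := wcells_le (s := s) (b := b) (f := b - c0) hA hZ hB (by omega) (by omega) (by omega) (by omega) hηh z
      rw [← List.append_assoc M] at hz
      have hw' : ((wcells s b z ((M ++ P1) ++ (Z ++ (P2 ++ Q)))).card : ℝ) ≤
          (5 * 2 ^ (b - c0 - s) + 4) * (2 * 2 ^ (b - s) + 1) + 4 * nbk η h s Z := by
        exact_mod_cast hw
      obtain ⟨X, hX⟩ : ∃ X : ℝ, X = 2 ^ (b - s) := ⟨_, rfl⟩
      obtain ⟨Y, hY⟩ : ∃ Y : ℝ, Y = 2 ^ (b - c0 - s) := ⟨_, rfl⟩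
      have hXY : X = 2 ^ c0 * Y := by
        rw [hX, hY, ← pow_add]
        congr 1
        omega
      have hY1 : 1 ≤ Y := by
        rw [hY]
        exact one_le_pow₀ (by norm_num)
      have hX1 : 1 ≤ X := by
        rw [hX]
        exact one_le_pow₀ (by norm_num)
      have h4X : (4 : ℝ) ^ (b - s) = X ^ 2 := by
        rw [hX, ← pow_mul, mul_comm, pow_mul]
        norm_num
      rw [h4X] at hz ⊢
      rw [← hX, ← hY] at hw'
      have hfin : (5 * Y + 4) * (2 * X + 1) ≤ κ / 2 * X ^ 2 := by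
        have g1 : (5 * Y + 4) * (2 * X + 1) ≤ 27 * (Y * X) := by nlinarith
        have g2 : 54 * Y ≤ κ * X := by
          rw [hXY]
          have : 54 / κ * κ = 54 := by field_simp
          have g3 : 54 ≤ κ * 2 ^ c0 := by
            calc (54 : ℝ) = 54 / κ * κ := this.symm
              _ ≤ 2 ^ c0 * κ := mul_le_mul_of_nonneg_right hc0.le hκ.le
              _ = _ := mul_comm _ _
          nlinarith
        nlinarith
      linarith
    split_ifs with hh
    · exact gf_mono fun Z hZ => ⟨hZ.1, (hpt Z hZ.1 hZ.2.1 hZ.2.2).2⟩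
    · have : {Z | Z ∈ Brd h ∧ M ++ (P1 ++ (Z ++ (P2 ++ Q))) ∈ Fil b i0 s κ ∧
          M ++ (P1 ++ (Z ++ (P2 ++ Q))) ∈ BrR (2 ^ (b - 1)) (2 ^ (b + i0))} = ∅ := by
        rw [Set.eq_empty_iff_forall_notMem]
        rintro Z ⟨g1, g2, g3⟩
        exact hh (hpt Z g1 g2 g3).1
      rw [this]
      unfold gf
      simp
  calc _ ≤ ∑' h : ℕ, (if h ∈ Icc (2 ^ (b - 2)) (2 ^ (b + i0)) then
        gf {Z | Z ∈ Brd h ∧ κ / 8 * 4 ^ (b - s) ≤ (nbk η h s Z : ℝ)} else 0) := ENNReal.tsum_le_tsum key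
    _ = ∑ h ∈ Icc (2 ^ (b - 2)) (2 ^ (b + i0)), (if h ∈ Icc (2 ^ (b - 2)) (2 ^ (b + i0)) then
        gf {Z | Z ∈ Brd h ∧ κ / 8 * 4 ^ (b - s) ≤ (nbk η h s Z : ℝ)} else 0) :=
        tsum_eq_sum fun h hh => if_neg hh
    _ = _ := sum_congr rfl fun h hh => if_pos hh

/-- THE FILLING LEAVES: the structure around the middle bridge is fixed -/
theorem fil_EZ : ∀ (κ ε : ℝ) (i0 : ℕ), 0 < κ → 0 < ε → ∃ μ e0 : ℕ, ∀ b s e : ℕ, s + μ ≤ b → e + e0 ≤ b →
    ∀ M ∈ BU, ∀ P1 ∈ IU, ∀ P2 ∈ IU, ∀ Q ∈ BU, hgt M + hgt P1 ≤ 2 ^ e → hgt P2 + hgt Q ≤ 2 ^ e →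
    ∑' h : ℕ, gf {Z | Z ∈ Brd h ∧ M ++ (P1 ++ (Z ++ (P2 ++ Q))) ∈ Fil b i0 s κ ∧
      M ++ (P1 ++ (Z ++ (P2 ++ Q))) ∈ BrR (2 ^ (b - 1)) (2 ^ (b + i0))} ≤ ENNReal.ofReal (ε * Ub b) := by
  intro κ ε i0 hκ hε
  obtain ⟨e0, h⟩ := fil_EZ' κ i0 hκ
  obtain ⟨μ, h⟩ := h ε hε
  exact ⟨μ, e0, h⟩

end SDN

end HexObs
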