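import Pool.Agent.SDN.FillN
import Pool.Agent.SDN.CellsE
import Pool.Agent.SDN.Chain2
import Pool.Agent.SDN.XT

/-!
SDN, D2: the filling step x_fill (glue by helper22): the norm bound x_fillE and the free bridge inside a filling leaf.
-/

set_option autoImplicit false

namespace HexObs

namespace SDN

open Finset TS

open scoped ENNReal

private lemma EZ_mono' {D N e : ℕ} {W : Set (List Bool)} {ε ε' : ℝ} (h : EZ D N e W ε) (hε : ε ≤ ε') : EZ D N e W ε' :=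
  fun M hM P1 hP1 P2 hP2 Q hQ h1 h2 => (h M hM P1 hP1 P2 hP2 Q hQ h1 h2).trans (ENNReal.ofReal_le_ofReal hε)

private lemma UU_up (k i : ℕ) : UU (2 ^ (k + i)) ≤ 2 ^ i * Ub k := by
  induction i with
  | zero =>
    rw [pow_zero, one_mul]
    exact le_rfl
  | succ i ih =>
    rw [← add_assoc, pow_succ, mul_comm (2 ^ (k + i)) 2, pow_succ]
    calc UU (2 * 2 ^ (k + i)) ≤ 2 * UU (2 ^ (k + i)) := UU_double _
      _ ≤ 2 * (2 ^ i * Ub k) := by linarith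
      _ = _ := by ring

/-- THE FILLING STEP from its parts -/
private theorem x_fill_glue
    (hx : ∃ K c : ℝ, 1 ≤ K ∧ 0 < c ∧ ∀ (k e j1 N : ℕ) (W : Set (List Bool)) (ρ ε : ℝ) (Φ : List Bool → ℝ≥0∞),
      Hered Φ → j1 + 3 ≤ e → e ≤ k → 1 ≤ ρ → UU N ≤ ρ * Ub k → 0 ≤ ε → EZ (2 ^ (k + 4)) N e W (ε * Ub k) →
      xT (2 ^ (k + 4)) k (tF (2 ^ (k + 4)) N W LFold Φ) ≤
        ENNReal.ofReal (K * ρ * (2 ^ (k - e) * (2 : ℝ) ^ (-(c * ((e : ℝ) - j1))) + 4 ^ (k - j1) * ε)) *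
          xT (2 ^ (k + 4)) k Φ)
    (κ : ℝ) (i0 : ℕ)
    (hE : ∃ e0 : ℕ, ∀ ε : ℝ, 0 < ε → ∃ μ : ℕ, ∀ b s e : ℕ, s + μ ≤ b → e + e0 ≤ b →
      EZ (2 ^ (b - 1)) (2 ^ (b + i0)) e (Fil b i0 s κ) (ε * Ub b))
    (δ : ℝ) (hδ : 0 < δ) : ∃ μ k0 : ℕ, 1 ≤ μ ∧ ∀ (k N : ℕ) (Φ : List Bool → ℝ≥0∞), k0 ≤ k →
    Hered Φ → xT (2 ^ (k + 4)) k (tF (2 ^ (k + 4)) N (Fil (k + 5) i0 (k + 5 - μ) κ) LFold Φ) ≤
      ENNReal.ofReal δ * xT (2 ^ (k + 4)) k Φ := by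
  obtain ⟨K, c, hK, hc, hx⟩ := hx
  obtain ⟨e0, hE⟩ := hE
  obtain ⟨ρ, hρ⟩ : ∃ ρ : ℝ, ρ = 2 ^ (i0 + 5) := ⟨_, rfl⟩
  have hρ1 : 1 ≤ ρ := by
    rw [hρ]
    exact one_le_pow₀ (by norm_num)
  have hKρ : 0 < K * ρ := by positivity
  -- the gap between the windows
  obtain ⟨J, hJ3, hJ⟩ : ∃ J : ℕ, 3 ≤ J ∧ K * ρ * (2 ^ e0 * (2 : ℝ) ^ (-(c * J))) ≤ δ / 2 := by
    have ht : Filter.Tendsto (fun J : ℕ => K * ρ * (2 ^ e0 * ((2 : ℝ) ^ (-c)) ^ J)) Filter.atTop (nhds (K * ρ * (2 ^ e0 * 0))) := by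
      refine Filter.Tendsto.const_mul _ (Filter.Tendsto.const_mul _ ?_)
      refine tendsto_pow_atTop_nhds_zero_of_lt_one (by positivity) ?_
      exact Real.rpow_lt_one_of_one_lt_of_neg (by norm_num) (by linarith)
    rw [mul_zero, mul_zero] at ht
    have hev := (ht.eventually (gt_mem_nhds (show (0 : ℝ) < δ / 2 by positivity))).and (Filter.eventually_ge_atTop 3)
    obtain ⟨J, h1, h2⟩ := hev.exists
    refine ⟨J, h2, ?_⟩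
    have e1 : (2 : ℝ) ^ (-(c * J)) = ((2 : ℝ) ^ (-c)) ^ J := by
      rw [← Real.rpow_natCast, ← Real.rpow_mul (by norm_num)]
      congr 1
      ring
    rw [e1]
    exact h1.le
  obtain ⟨ε, hε, hε2⟩ : ∃ ε : ℝ, 0 < ε ∧ K * ρ * (4 ^ (e0 + J) * (32 * ε)) ≤ δ / 2 := by
    refine ⟨δ / 2 / (K * ρ * (4 ^ (e0 + J) * 32)), by positivity, ?_⟩
    apply le_of_eq
    field_simp
  obtain ⟨μ, hμ⟩ := hE ε hε
  refine ⟨μ + 1, e0 + J + μ + 1, by omega, fun k N Φ hk hΦ => ?_⟩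
  have hsub : ∀ t, tF (2 ^ (k + 4)) N (Fil (k + 5) i0 (k + 5 - (μ + 1)) κ) LFold Φ t ≤
      tF (2 ^ (k + 4)) (2 ^ (k + 5 + i0)) (Fil (k + 5) i0 (k + 5 - (μ + 1)) κ) LFold Φ t := by
    intro t
    refine sB_mono ?_ fun _ _ => le_rfl
    rintro g ⟨⟨n, h1, h2, h3⟩, h4, h5⟩
    refine ⟨⟨n, h1, ?_, h3⟩, h4, h5⟩
    have h6 := h4.1
    rw [hgt_eq h3] at h6
    exact h6
  have hN : UU (2 ^ (k + 5 + i0)) ≤ ρ * Ub k := by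
    have := UU_up k (5 + i0)
    rw [hρ, add_comm i0 5]
    rw [← add_assoc] at this
    exact this
  have hEZ : EZ (2 ^ (k + 4)) (2 ^ (k + 5 + i0)) (k - e0) (Fil (k + 5) i0 (k + 5 - (μ + 1)) κ) ((32 * ε) * Ub k) := by
    have h1 := hμ (k + 5) (k + 5 - (μ + 1)) (k - e0) (by omega) (by omega)
    rw [show k + 5 - 1 = k + 4 by omega] at h1
    refine EZ_mono' h1 ?_
    have h2 : Ub (k + 5) ≤ 2 ^ 5 * Ub k := UU_up k 5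
    nlinarith
  have hmain := hx k (k - e0) (k - e0 - J) (2 ^ (k + 5 + i0)) (Fil (k + 5) i0 (k + 5 - (μ + 1)) κ) ρ (32 * ε) Φ hΦ
    (by omega) (by omega) hρ1 hN (by positivity) hEZ
  have hxm : xT (2 ^ (k + 4)) k (tF (2 ^ (k + 4)) N (Fil (k + 5) i0 (k + 5 - (μ + 1)) κ) LFold Φ) ≤
      xT (2 ^ (k + 4)) k (tF (2 ^ (k + 4)) (2 ^ (k + 5 + i0)) (Fil (k + 5) i0 (k + 5 - (μ + 1)) κ) LFold Φ) := by
    unfold xT
    refine iSup_mono fun b => iSup_mono fun I => ?_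
    refine ENNReal.div_le_div_right ?_ _
    exact Rec8.sw_mono' fun M _ => hsub _
  refine hxm.trans (hmain.trans (mul_le_mul_left (ENNReal.ofReal_le_ofReal ?_) _))
  have ek : k - (k - e0) = e0 := by omega
  have ej : k - (k - e0 - J) = e0 + J := by omega
  have ec : ((k - e0 : ℕ) : ℝ) - ((k - e0 - J : ℕ) : ℝ) = J := by
    rw [Nat.cast_sub (show J ≤ k - e0 by omega)]
    ring
  rw [ek, ej, ec]
  calc K * ρ * (2 ^ e0 * (2 : ℝ) ^ (-(c * (J : ℝ))) + 4 ^ (e0 + J) * (32 * ε)) =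
        K * ρ * (2 ^ e0 * (2 : ℝ) ^ (-(c * (J : ℝ)))) + K * ρ * (4 ^ (e0 + J) * (32 * ε)) := by ring
    _ ≤ δ := by linarith


/-- THE FILLING STEP: a leaf that fills a proportion κ of a column of a box is expensive -/
theorem x_fill : ∀ (κ δ : ℝ) (i0 : ℕ), 0 < κ → 0 < δ → ∃ μ k0 : ℕ, 1 ≤ μ ∧ ∀ (k N : ℕ) (Φ : List Bool → ℝ≥0∞), k0 ≤ k →
    Hered Φ → xT (2 ^ (k + 4)) k (tF (2 ^ (k + 4)) N (Fil (k + 5) i0 (k + 5 - μ) κ) LFold Φ) ≤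
      ENNReal.ofReal δ * xT (2 ^ (k + 4)) k Φ := by
  intro κ δ i0 hκ hδ
  obtain ⟨C, δ0, h⟩ := inp_exists
  obtain ⟨K, c, hK, hc, hx⟩ := x_fillE h
  refine x_fill_glue ⟨K, c, hK, hc, fun k e j1 N W ρ ε Φ hΦ h1 h2 h3 h4 h5 h6 =>
    hx (2 ^ (k + 4)) N k e j1 W LFold ρ ε Φ hΦ RNb_LFold le_rfl h1 h2 h3 h4 h5 h6⟩ κ i0 ?_ δ hδ
  obtain ⟨e0, he⟩ := fil_EZ' κ i0 hκ
  refine ⟨e0, fun ε hε => ?_⟩
  obtain ⟨μ, hμ⟩ := he ε hε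
  exact ⟨μ, fun b s e h1 h2 => hμ b s e h1 h2⟩

end SDN

end HexObs
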