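import Pool.Agent.SDN.TubeGeoA
import Pool.Agent.SDN.Frames

/-!
SDN, limit version, module M5b: the cells of the embedded walk, and tube_geo.
-/

set_option autoImplicit false

namespace HexObs

namespace SDN

open Finset TS

lemma lvl_true (v : Pt) : lvl true v = -(2 * v.1 + v.2) := by
  unfold lvl hd ip
  simp only [if_true]
  ring

lemma lvl_false' (v : Pt) : lvl false v = v.1 + 2 * v.2 := by
  unfold lvl hd ip up
  simp
  ring

lemma lvl_true_vx (t : List Bool) (i : ℕ) : lvl true (vx oo up t i) = -lev2 t i := by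
  rw [lvl_true, TD.lev2_eq']

lemma lvl_false_vx (t : List Bool) (i : ℕ) : lvl false (vx oo up t i) = lev t i := rfl

lemma lvl_add (dir : Bool) (p v : Pt) : lvl dir (p + v) = lvl dir p + lvl dir v := by
  unfold lvl
  rw [ip_add_left]

/-- rows at distance at most 2 ^ c are in neighbouring cells -/
lemma div_near {H a b : ℤ} (hH : 0 < H) (h : |a - b| ≤ H) : |a / H - b / H| ≤ 1 := by
  have a1 := Int.lt_ediv_add_one_mul_self a hH
  have a2 := Int.ediv_mul_le a hH.ne'
  have b1 := Int.lt_ediv_add_one_mul_self b hH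
  have b2 := Int.ediv_mul_le b hH.ne'
  rw [abs_le] at h ⊢
  constructor
  · by_contra hc
    have : (a / H + 2) ≤ b / H := by omega
    have := mul_le_mul_of_nonneg_right this hH.le
    nlinarith
  · by_contra hc
    have : (b / H + 2) ≤ a / H := by omega
    have := mul_le_mul_of_nonneg_right this hH.le
    nlinarith

variable {K S : ℕ}

/-- bounds inside one block -/
lemma gg_near {M : ℕ} (hM : M = K * S) {x : List Bool} (hx : x ∈ GG K S) :
    ∃ j : ℕ, x ∈ Brd j ∧ 0 ≤ lev x x.length ∧ 0 ≤ lev2 x x.length ∧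
      ∀ i, i ≤ x.length → |lev x i| ≤ 3 * M ∧ |lev2 x i| ≤ 3 * M := by
  obtain ⟨j, j1, j2, j3, j4, j5⟩ := hx
  rw [← hM] at j2 j4
  have hB := mem_Brd.1 j3.1
  have hjM : (j : ℤ) ≤ M := by exact_mod_cast j2
  have c1 : ∀ i, i ≤ x.length → 0 ≤ lev x i ∧ lev x i ≤ 3 * j := by
    intro i hi
    rcases Nat.eq_zero_or_pos i with h0 | h0
    · rw [h0, lev_zero]
      constructor <;> omega
    · have := hB.1 i h0 hi
      constructor <;> omega
  refine ⟨j, j3.1, (c1 _ le_rfl).1, ?_, ?_⟩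
  · have a1 := lev2_eq x x.length
    have a2 := (c1 _ le_rfl).1
    have a3 : 0 ≤ lat x x.length := j5
    omega
  · intro i hi
    have a1 := lev2_eq x i
    have a2 := c1 i hi
    have a3 := abs_le.1 (j4 i hi)
    rw [abs_le, abs_le]
    constructor <;> constructor <;> omega

/-- the cells of a chain of good words started at p -/
lemma vv_cells {c M : ℕ} (hM : M = K * S) (hc : M + 1 ≤ 2 ^ c) {q : ℕ} {v : List Bool} (hv : v ∈ VV K S q) (p : Pt) :
    ∃ F : Finset (ℤ × ℤ), cell c p ∈ F ∧ (∀ f ∈ F, (cell c p).1 ≤ f.1 ∧ f.2 ≤ (cell c p).2) ∧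
      ((F.card : ℤ) ≤ ((cell c (p + vx oo up v v.length)).1 - (cell c (p + vx oo up v v.length)).2) -
        ((cell c p).1 - (cell c p).2) + 1) ∧
      ∀ i, i ≤ v.length → ∃ f ∈ F, |(cell c (p + vx oo up v i)).1 - f.1| ≤ 1 ∧ |(cell c (p + vx oo up v i)).2 - f.2| ≤ 1 := by
  have hH : (0 : ℤ) < 2 ^ c := by positivity
  have hc' : (M : ℤ) + 1 ≤ 2 ^ c := by exact_mod_cast hc
  induction q generalizing v p with
  | zero =>
    have hv0 : v = [] := hv
    subst hv0
    have e0 : vx oo up ([] : List Bool) 0 = 0 := rfl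
    refine ⟨{cell c p}, by simp, ?_, ?_, ?_⟩
    · intro f hf
      rw [Finset.mem_singleton] at hf
      rw [hf]
      exact ⟨le_rfl, le_rfl⟩
    · rw [List.length_nil, e0, add_zero]
      simp
    · intro i hi
      have : i = 0 := by simpa using hi
      rw [this, e0, add_zero]
      exact ⟨cell c p, by simp, by simp, by simp⟩
  | succ q ih =>
    obtain ⟨x, hx, y, hy, rfl⟩ := hv
    obtain ⟨j, hxB, x1, x2, x3⟩ := gg_near hM hx
    have hxd := (mem_Brd.1 hxB).2.2.1
    obtain ⟨p', hp'⟩ : ∃ p', p' = p + vx oo up x x.length := ⟨_, rfl⟩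
    obtain ⟨F, f1, f2, f3, f4⟩ := ih hy p'
    -- monotonicity
    have r1 : row false p ≤ row false p' := by
      unfold row
      rw [hp', lvl_add, lvl_false_vx]
      omega
    have r2 : row true p' ≤ row true p := by
      unfold row
      rw [hp', lvl_add, lvl_true_vx]
      omega
    have m1 : (cell c p).1 ≤ (cell c p').1 := Int.ediv_le_ediv hH r1
    have m2 : (cell c p').2 ≤ (cell c p).2 := Int.ediv_le_ediv hH r2
    have hend : p + vx oo up (x ++ y) (x ++ y).length = p' + vx oo up y y.length := by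
      rw [List.length_append, vx_cat hxd, hp', add_assoc]
    refine ⟨insert (cell c p) F, Finset.mem_insert_self _ _, ?_, ?_, ?_⟩
    · intro f hf
      rw [Finset.mem_insert] at hf
      rcases hf with rfl | hf
      · exact ⟨le_rfl, le_rfl⟩
      · have := f2 f hf
        exact ⟨m1.trans this.1, this.2.trans m2⟩
    · rw [hend]
      by_cases heq : cell c p = cell c p'
      · rw [heq, Finset.insert_eq_of_mem f1]
        exact f3
      · have h1 := Finset.card_insert_le (cell c p) F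
        have h1' : ((insert (cell c p) F).card : ℤ) ≤ F.card + 1 := by exact_mod_cast h1
        have h2 : (cell c p).1 ≠ (cell c p').1 ∨ (cell c p).2 ≠ (cell c p').2 := by
          by_contra hcon
          push Not at hcon
          exact heq (Prod.ext hcon.1 hcon.2)
        omega
    · intro i hi
      rw [List.length_append] at hi
      by_cases hix : i ≤ x.length
      · refine ⟨cell c p, Finset.mem_insert_self _ _, ?_, ?_⟩
        · apply div_near hH
          unfold row
          rw [vx_append (by omega), lvl_add, lvl_false_vx]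
          have := abs_le.1 (x3 i hix).1
          rw [abs_le]
          constructor <;> omega
        · apply div_near hH
          unfold row
          rw [vx_append (by omega), lvl_add, lvl_true_vx]
          have := abs_le.1 (x3 i hix).2
          rw [abs_le]
          constructor <;> omega
      · obtain ⟨k, rfl⟩ : ∃ k, i = x.length + k := ⟨i - x.length, by omega⟩
        obtain ⟨f, g1, g2, g3⟩ := f4 k (by omega)
        refine ⟨f, Finset.mem_insert_of_mem g1, ?_⟩
        have e1 : p + vx oo up (x ++ y) (x.length + k) = p' + vx oo up y k := by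
          rw [vx_cat hxd, hp', add_assoc]
        rw [e1]
        exact ⟨g2, g3⟩

lemma near_card (F : Finset (ℤ × ℤ)) (G : Finset (ℤ × ℤ)) (h : ∀ g ∈ G, ∃ f ∈ F, |g.1 - f.1| ≤ 1 ∧ |g.2 - f.2| ≤ 1) :
    G.card ≤ 9 * F.card := by
  classical
  obtain ⟨D, hD⟩ : ∃ D : Finset (ℤ × ℤ), D = (Finset.Icc (-1 : ℤ) 1) ×ˢ (Finset.Icc (-1 : ℤ) 1) := ⟨_, rfl⟩
  have hDc : D.card = 9 := by
    rw [hD]
    decide
  have h1 : G ⊆ (F ×ˢ D).image fun x => (x.1.1 + x.2.1, x.1.2 + x.2.2) := by
    intro g hg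
    obtain ⟨f, f1, f2, f3⟩ := h g hg
    rw [abs_le] at f2 f3
    rw [Finset.mem_image]
    refine ⟨(f, (g.1 - f.1, g.2 - f.2)), ?_, ?_⟩
    · rw [Finset.mem_product, hD, Finset.mem_product, Finset.mem_Icc, Finset.mem_Icc]
      exact ⟨f1, ⟨f2.1, f2.2⟩, ⟨f3.1, f3.2⟩⟩
    · simp
  calc G.card ≤ ((F ×ˢ D).image fun x => (x.1.1 + x.2.1, x.1.2 + x.2.2)).card := Finset.card_le_card h1
    _ ≤ (F ×ˢ D).card := Finset.card_image_le
    _ = 9 * F.card := by rw [Finset.card_product, hDc, mul_comm]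

/-- number of cells of the tube -/
lemma vv_nb {c M : ℕ} (hM : M = K * S) (hc : M + 1 ≤ 2 ^ c) {q : ℕ} {v : List Bool} (hv : v ∈ VV K S q) :
    (nb c v : ℝ) ≤ 9 * (2 * ((q * M : ℕ) : ℝ) / 2 ^ c + 3) := by
  obtain ⟨F, f1, f2, f3, f4⟩ := vv_cells hM hc hv 0
  have h1 : nb c v ≤ 9 * F.card := by
    apply near_card
    intro g hg
    unfold cells at hg
    rw [Finset.mem_image] at hg
    obtain ⟨i, hi, rfl⟩ := hg
    rw [Finset.mem_range] at hi
    have := f4 i (by omega)
    rwa [zero_add] at this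
  obtain ⟨h, g1, g2, g3, g4, g5, -⟩ := vv_props hv
  rw [← hM] at g2 g5
  have hH : (0 : ℤ) < 2 ^ c := by positivity
  have e0 : cell c (0 : Pt) = (0, 0) := by
    unfold cell row
    rw [lvl_false', lvl_true]
    simp
  rw [zero_add, e0] at f3
  have e1 : (cell c (vx oo up v v.length)).1 ≤ ((q * M : ℕ) : ℤ) / 2 ^ c := by
    apply Int.ediv_le_ediv hH
    unfold row
    rw [lvl_false_vx, (mem_Brd.1 g3).2.2.2]
    have : (h : ℤ) ≤ ((q * M : ℕ) : ℤ) := by exact_mod_cast g2
    omega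
  have e2 : -(((q * M : ℕ) : ℤ) / 2 ^ c) - 2 ≤ (cell c (vx oo up v v.length)).2 := by
    have r1 : -((q * M : ℕ) : ℤ) - 1 ≤ row true (vx oo up v v.length) := by
      unfold row
      rw [lvl_true_vx]
      have a1 := lev2_eq v v.length
      rw [(mem_Brd.1 g3).2.2.2] at a1
      have a2 : lat v v.length = latE v := rfl
      rw [a2] at a1
      have : (h : ℤ) ≤ ((q * M : ℕ) : ℤ) := by exact_mod_cast g2
      omega
    show _ ≤ row true (vx oo up v v.length) / 2 ^ c
    obtain ⟨r, hr⟩ : ∃ r, r = row true (vx oo up v v.length) := ⟨_, rfl⟩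
    obtain ⟨B, hB⟩ : ∃ B : ℤ, B = ((q * M : ℕ) : ℤ) := ⟨_, rfl⟩
    obtain ⟨H, hHH⟩ : ∃ H : ℤ, H = 2 ^ c := ⟨_, rfl⟩
    rw [← hr, ← hB] at r1
    rw [← hr, ← hB, ← hHH]
    have hH' : 0 < H := by
      rw [hHH]
      exact hH
    have b1 := Int.lt_ediv_add_one_mul_self B hH'
    have b2 := Int.lt_ediv_add_one_mul_self r hH'
    by_contra hcon
    have h3 : r / H + 1 ≤ -(B / H) - 2 := by omega
    have h4 := mul_le_mul_of_nonneg_right h3 hH'.le
    nlinarith
  have h2 : (F.card : ℤ) ≤ 2 * (((q * M : ℕ) : ℤ) / 2 ^ c) + 3 := by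
    simp only at f3
    omega
  have h3 : (((((q * M : ℕ) : ℤ) / 2 ^ c : ℤ)) : ℝ) ≤ ((q * M : ℕ) : ℝ) / 2 ^ c := by
    rw [le_div_iff₀ (by positivity)]
    have := Int.ediv_mul_le ((q * M : ℕ) : ℤ) hH.ne'
    exact_mod_cast this
  have h4 : (F.card : ℝ) ≤ 2 * (((((q * M : ℕ) : ℤ) / 2 ^ c : ℤ)) : ℝ) + 3 := by exact_mod_cast h2
  have h5 : (nb c v : ℝ) ≤ 9 * F.card := by exact_mod_cast h1
  calc (nb c v : ℝ) ≤ 9 * F.card := h5
    _ ≤ 9 * (2 * (((q * M : ℕ) : ℝ) / 2 ^ c) + 3) := by linarith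
    _ = _ := by ring

/-- cells of a part of a walk in its own frame -/
lemma nb_part {w x : List Bool} {a n k0 : ℕ} {p u : Pt} (hu : u ∈ dirs)
    (h : ∀ i, i ≤ n → vx oo up w (a + i) = p + mulE u (vx oo up x (k0 + i))) (c : ℕ) :
    ((range (n + 1)).image fun i => cell c (vx oo up w (a + i))).card ≤
      16 * ((range (n + 1)).image fun i => cell c (vx oo up x (k0 + i))).card ∧
    ((range (n + 1)).image fun i => cell c (vx oo up x (k0 + i))).card ≤
      16 * ((range (n + 1)).image fun i => cell c (vx oo up w (a + i))).card := by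
  obtain ⟨V, hV⟩ : ∃ V : Finset Pt, V = (range (n + 1)).image fun i => vx oo up x (k0 + i) := ⟨_, rfl⟩
  have h1 := cells_frame u p hu c V
  have e1 : (V.image fun v => cell c v) = (range (n + 1)).image fun i => cell c (vx oo up x (k0 + i)) := by
    rw [hV, Finset.image_image]
    rfl
  have e2 : (V.image fun v => cell c (p + mulE u v)) = (range (n + 1)).image fun i => cell c (vx oo up w (a + i)) := by
    rw [hV, Finset.image_image]
    apply Finset.image_congr
    intro i hi
    rw [Finset.mem_coe, Finset.mem_range] at hi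
    show cell c (p + mulE u (vx oo up x (k0 + i))) = cell c (vx oo up w (a + i))
    rw [h i (by omega)]
  rw [e1, e2] at h1
  exact h1

lemma rotL_mulE (p : Pt) : rotL p = mulE (0, 1) p := by
  unfold rotL mulE
  ext <;> simp

/-- a bounded walk has at most 9 cells -/
lemma nine {c : ℕ} {n : ℕ} {f : ℕ → Pt} (h : ∀ i, i ≤ n → |row false (f i)| ≤ 2 ^ c ∧ |row true (f i)| ≤ 2 ^ c) :
    ((range (n + 1)).image fun i => cell c (f i)).card ≤ 9 := by
  have hH : (0 : ℤ) < 2 ^ c := by positivity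
  have h1 := near_card {((0 : ℤ), (0 : ℤ))} ((range (n + 1)).image fun i => cell c (f i)) (by
    intro g hg
    rw [Finset.mem_image] at hg
    obtain ⟨i, hi, rfl⟩ := hg
    rw [Finset.mem_range] at hi
    obtain ⟨h1, h2⟩ := h i (by omega)
    refine ⟨(0, 0), by simp, ?_, ?_⟩
    · have := div_near (a := row false (f i)) (b := 0) hH (by rw [sub_zero]; exact h1)
      rw [Int.zero_ediv] at this
      exact this
    · have := div_near (a := row true (f i)) (b := 0) hH (by rw [sub_zero]; exact h2)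
      rw [Int.zero_ediv] at this
      exact this)
  simpa using h1

/-- module M5b -/
theorem tube_geo_b : ∀ K : ℕ, 1 ≤ K → ∃ c1 : ℕ, ∀ c0 : ℕ, c1 ≤ c0 → ∃ C1 : ℕ, ∀ C0 : ℕ, C1 ≤ C0 →
    ∀ (L b q : ℕ) (z1 v1 t v2 z2 : List Bool), c0 ≤ b → b ≤ L + 2 →
    q = C0 * 2 ^ (L + 3 - b) → z1 ∈ TD.T1 ((4 * K + 4) * 2 ^ (b - c0)) (2 ^ (b - c0)) → v1 ∈ VV K (2 ^ (b - c0)) q →
    t ∈ BL L → rev v2 ∈ VV K (2 ^ (b - c0)) q → rev z2 ∈ TD.T1 ((4 * K + 4) * 2 ^ (b - c0)) (2 ^ (b - c0)) →
    ∀ c, b ≤ c → (nb c (z1 ++ ((v1 ++ (t ++ v2)) ++ z2)) : ℝ) ≤ 16 * nb c t + C0 * ((2 : ℝ) ^ L / 2 ^ c + 1) ∧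
        nb c t ≤ 16 * nb c (z1 ++ ((v1 ++ (t ++ v2)) ++ z2)) := by
  intro K hK
  refine ⟨K + 18, fun c0 hc0 => ⟨6000, ?_⟩⟩
  intro C0 hC0 L b q z1 v1 t v2 z2 hcb hbL hq hz1 hv1 ht hv2 hz2 c hbc
  -- the constants
  obtain ⟨Z, hZ⟩ : ∃ Z : ℕ, Z = 2 ^ c0 := ⟨_, rfl⟩
  obtain ⟨S, hS⟩ : ∃ S : ℕ, S = 2 ^ (b - c0) := ⟨_, rfl⟩
  obtain ⟨N, hN⟩ : ∃ N : ℕ, N = 2 ^ L := ⟨_, rfl⟩
  have hS1 : 1 ≤ S := by
    rw [hS]
    exact Nat.one_le_two_pow
  have hZK : 2 ^ 17 * (K + 1) ≤ Z := by
    rw [hZ]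
    calc 2 ^ 17 * (K + 1) ≤ 2 ^ 17 * 2 ^ (K + 1) := Nat.mul_le_mul_left _ Nat.lt_two_pow_self.le
      _ = 2 ^ (K + 18) := by ring
      _ ≤ 2 ^ c0 := Nat.pow_le_pow_right (by norm_num) hc0
  have hb2 : 2 ^ b = Z * S := by
    rw [hZ, hS, ← pow_add]
    congr 1
    omega
  have hc2 : Z * S ≤ 2 ^ c := by
    rw [← hb2]
    exact Nat.pow_le_pow_right (by norm_num) hbc
  have hqS : q * S * Z = 8 * C0 * N := by
    rw [hq, hS, hZ, hN]
    have e1 : 2 ^ (L + 3 - b) * 2 ^ (b - c0) * 2 ^ c0 = 2 ^ (L + 3) := by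
      rw [← pow_add, ← pow_add]
      congr 1
      omega
    calc C0 * 2 ^ (L + 3 - b) * 2 ^ (b - c0) * 2 ^ c0 = C0 * (2 ^ (L + 3 - b) * 2 ^ (b - c0) * 2 ^ c0) := by ring
      _ = C0 * 2 ^ (L + 3) := by rw [e1]
      _ = 8 * C0 * 2 ^ L := by ring
  obtain ⟨M, hM⟩ : ∃ M : ℕ, M = K * S := ⟨_, rfl⟩
  obtain ⟨R, hR⟩ : ∃ R : ℕ, R = (4 * K + 4) * S := ⟨_, rfl⟩
  have hRM : R = 4 * M + 4 * S := by
    rw [hR, hM]
    ring
  have hZM : 64 * M + 64 * S ≤ 2 ^ c := by
    calc 64 * M + 64 * S = 64 * (K + 1) * S := by rw [hM]; ring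
      _ ≤ Z * S := Nat.mul_le_mul_right S (by omega)
      _ ≤ 2 ^ c := hc2
  rw [← hS] at hz1 hv1 hv2 hz2
  rw [← hR] at hz1 hz2
  -- the triangle words
  obtain ⟨r2, z2', q0, q1, q2, q3, q4⟩ := hz2.1
  have hzz : z2' = z2 := by rw [← rev_rev z2, q4, rev_rev]
  rw [hzz] at q3
  obtain ⟨r1, z1', p0, p1, p2, p3, rfl⟩ := hz1.1
  have h1 := TD.tri_props p0 p3
  have h2 := TD.tri_props q0 q3
  obtain ⟨g1, hg0, hg1, hg2, -⟩ := vv_props hv1
  obtain ⟨g2, hg3, hg4, hg5, -⟩ := vv_props hv2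
  obtain ⟨n, hn1, hn2, hn3, hn4⟩ := bl_bounds ht
  have htd := (mem_Brd.1 hn2).2.2.1
  have hv1d := (mem_Brd.1 hg2).2.2.1
  have hv2B : v2 ∈ Brd g2 := by
    have := Brd_rev hg5
    rwa [rev_rev] at this
  have hv2d := (mem_Brd.1 hv2B).2.2.1
  obtain ⟨w, hw⟩ : ∃ w, w = rev z1' ++ ((v1 ++ (t ++ v2)) ++ z2) := ⟨_, rfl⟩
  rw [← hw]
  have hwl : w.length = z1'.length + (v1.length + (t.length + v2.length) + z2.length) := by
    rw [hw]
    simp only [List.length_append, rev_length]
  -- the frames of the parts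
  have u01 : ((0, 1) : Pt) ∈ dirs := by decide
  have Pv : ∃ p : Pt, ∀ j, vx oo up w (z1'.length + j) = p + mulE (0, 1) (vx oo up ((v1 ++ (t ++ v2)) ++ z2) j) := by
    refine ⟨mulE (0, 1) (vx oo up z1' (z1'.length + 1) - up), fun j => ?_⟩
    rw [hw, TD.vx_snd h1 j, rotL_mulE, mulE_add]
  obtain ⟨p, hp⟩ := Pv
  have vB : ∀ j, j ≤ v1.length → vx oo up ((v1 ++ (t ++ v2)) ++ z2) j = vx oo up v1 j := by
    intro j hj
    rw [List.append_assoc, vx_append (by omega)]
  have vC : ∀ j, j ≤ t.length → vx oo up ((v1 ++ (t ++ v2)) ++ z2) (v1.length + j) =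
      vx oo up v1 v1.length + vx oo up t j := by
    intro j hj
    rw [List.append_assoc, vx_cat hv1d, List.append_assoc, vx_append (by omega)]
  have vD : ∀ j, j ≤ v2.length → vx oo up ((v1 ++ (t ++ v2)) ++ z2) (v1.length + (t.length + j)) =
      vx oo up v1 v1.length + (vx oo up t t.length + vx oo up v2 j) := by
    intro j hj
    rw [List.append_assoc, vx_cat hv1d, List.append_assoc, vx_cat htd, vx_append (by omega)]
  have vE : ∀ j, vx oo up ((v1 ++ (t ++ v2)) ++ z2) (v1.length + (t.length + (v2.length + j))) =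
      vx oo up v1 v1.length + (vx oo up t t.length + (vx oo up v2 v2.length + vx oo up z2 j)) := by
    intro j
    rw [List.append_assoc, vx_cat hv1d, List.append_assoc, vx_cat htd, vx_cat hv2d]
  -- the parts
  obtain ⟨cA, hcA⟩ : ∃ F, F = (range (z1'.length + 1)).image fun i => cell c (vx oo up w i) := ⟨_, rfl⟩
  obtain ⟨cB, hcB⟩ : ∃ F, F = (range (v1.length + 1)).image fun i => cell c (vx oo up w (z1'.length + i)) := ⟨_, rfl⟩
  obtain ⟨cC, hcC⟩ : ∃ F, F = (range (t.length + 1)).image fun i => cell c (vx oo up w (z1'.length + v1.length + i)) :=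
    ⟨_, rfl⟩
  obtain ⟨cD, hcD⟩ : ∃ F, F = (range (v2.length + 1)).image fun i =>
    cell c (vx oo up w (z1'.length + v1.length + t.length + i)) := ⟨_, rfl⟩
  obtain ⟨cE, hcE⟩ : ∃ F, F = (range (z2.length + 1)).image fun i =>
    cell c (vx oo up w (z1'.length + v1.length + t.length + v2.length + i)) := ⟨_, rfl⟩
  have hunion : nb c w ≤ cA.card + cB.card + cC.card + cD.card + cE.card := by
    have hsub : cells c w ⊆ cA ∪ cB ∪ cC ∪ cD ∪ cE := by
      intro g hg
      unfold cells at hg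
      rw [Finset.mem_image] at hg
      obtain ⟨i, hi, rfl⟩ := hg
      rw [Finset.mem_range, hwl] at hi
      simp only [Finset.mem_union, hcA, hcB, hcC, hcD, hcE, Finset.mem_image, Finset.mem_range]
      by_cases k1 : i ≤ z1'.length
      · exact Or.inl (Or.inl (Or.inl (Or.inl ⟨i, by omega, rfl⟩)))
      · by_cases k2 : i ≤ z1'.length + v1.length
        · refine Or.inl (Or.inl (Or.inl (Or.inr ⟨i - z1'.length, by omega, ?_⟩)))
          rw [show z1'.length + (i - z1'.length) = i by omega]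
        · by_cases k3 : i ≤ z1'.length + v1.length + t.length
          · refine Or.inl (Or.inl (Or.inr ⟨i - (z1'.length + v1.length), by omega, ?_⟩))
            rw [show z1'.length + v1.length + (i - (z1'.length + v1.length)) = i by omega]
          · by_cases k4 : i ≤ z1'.length + v1.length + t.length + v2.length
            · refine Or.inl (Or.inr ⟨i - (z1'.length + v1.length + t.length), by omega, ?_⟩)
              rw [show z1'.length + v1.length + t.length + (i - (z1'.length + v1.length + t.length)) = i by omega]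
            · refine Or.inr ⟨i - (z1'.length + v1.length + t.length + v2.length), by omega, ?_⟩
              rw [show z1'.length + v1.length + t.length + v2.length +
                (i - (z1'.length + v1.length + t.length + v2.length)) = i by omega]
    have b1 := Finset.card_union_le (cA ∪ cB ∪ cC ∪ cD) cE
    have b2 := Finset.card_union_le (cA ∪ cB ∪ cC) cD
    have b3 := Finset.card_union_le (cA ∪ cB) cC
    have b4 := Finset.card_union_le cA cB
    have b5 := Finset.card_le_card hsub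
    unfold nb
    omega
  -- part C
  have hC := nb_part (w := w) (x := t) (a := z1'.length + v1.length) (n := t.length) (k0 := 0)
    (p := p + mulE (0, 1) (vx oo up v1 v1.length)) u01 (by
      intro i hi
      rw [add_assoc, hp, vC i hi, mulE_add, zero_add, add_assoc]) c
  have eC : ((range (t.length + 1)).image fun i => cell c (vx oo up t (0 + i))) = cells c t := by
    unfold cells
    simp only [zero_add]
  rw [eC, ← hcC] at hC
  -- part B
  have hB := (nb_part (w := w) (x := v1) (a := z1'.length) (n := v1.length) (k0 := 0) (p := p) u01 (by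
      intro i hi
      rw [hp, vB i hi, zero_add]) c).1
  have eB : ((range (v1.length + 1)).image fun i => cell c (vx oo up v1 (0 + i))) = cells c v1 := by
    unfold cells
    simp only [zero_add]
  rw [eB, ← hcB] at hB
  -- part D
  obtain ⟨V, hV⟩ : ∃ V, V = rev v2 := ⟨_, rfl⟩
  have hv2r : v2 = rev V := by rw [hV, rev_rev]
  rw [← hV] at hv2 hg5
  have hVl : V.length = v2.length := by rw [hV, rev_length]
  have hVd := (mem_Brd.1 hg5).2.2.1
  have hD : cD.card ≤ 16 * (nb c V + 1) := by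
    obtain ⟨W, hW⟩ : ∃ W : Finset Pt, W = (range (v2.length + 1)).image fun i => vx oo up V (v2.length + 1 - i) :=
      ⟨_, rfl⟩
    have e0 : ∀ i, i ≤ v2.length → vx oo up w (z1'.length + v1.length + t.length + i) =
        (p + mulE (0, 1) (vx oo up v1 v1.length + (vx oo up t t.length + vx oo up V (V.length + 1)))) +
          mulE (0, -1) (vx oo up V (v2.length + 1 - i)) := by
      intro i hi
      have e1 : z1'.length + v1.length + t.length + i = z1'.length + (v1.length + (t.length + i)) := by ring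
      rw [e1, hp, vD i hi]
      have e2 : vx oo up v2 i = vx oo up V (V.length + 1) - vx oo up V (v2.length + 1 - i) := by
        conv_lhs => rw [hv2r]
        rw [vx_rot hVd (by omega), ← hVl]
        rfl
      rw [e2]
      have e3 : mulE (0, -1) (vx oo up V (v2.length + 1 - i)) = -mulE (0, 1) (vx oo up V (v2.length + 1 - i)) := by
        unfold mulE
        refine Prod.ext ?_ ?_
        · simp
        · simp only [Prod.neg_mk]
          ring
      rw [e3, mulE_add, mulE_add, mulE_add, mulE_add, mulE_sub]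
      abel
    have u0 : ((0, -1) : Pt) ∈ dirs := by decide
    have hcf := (cells_frame (0, -1)
      (p + mulE (0, 1) (vx oo up v1 v1.length + (vx oo up t t.length + vx oo up V (V.length + 1)))) u0 c W).1
    have e4 : (W.image fun v => cell c ((p + mulE (0, 1) (vx oo up v1 v1.length + (vx oo up t t.length +
        vx oo up V (V.length + 1)))) + mulE (0, -1) v)) = cD := by
      rw [hW, hcD, Finset.image_image]
      apply Finset.image_congr
      intro i hi
      rw [Finset.mem_coe, Finset.mem_range] at hi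
      show cell c _ = cell c _
      rw [e0 i (by omega)]
    rw [e4] at hcf
    refine hcf.trans (Nat.mul_le_mul_left 16 ?_)
    have hsub : (W.image fun v => cell c v) ⊆ insert (cell c (vx oo up V (v2.length + 1))) (cells c V) := by
      intro g hg
      rw [hW, Finset.image_image, Finset.mem_image] at hg
      obtain ⟨i, hi, rfl⟩ := hg
      rw [Finset.mem_range] at hi
      rw [Finset.mem_insert]
      rcases Nat.eq_zero_or_pos i with h0 | h0
      · left
        rw [h0]
        rfl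
      · right
        unfold cells
        rw [Finset.mem_image]
        exact ⟨v2.length + 1 - i, Finset.mem_range.2 (by omega), rfl⟩
    exact (Finset.card_le_card hsub).trans (Finset.card_insert_le _ _)
  -- part A
  have hA : cA.card ≤ 9 := by
    rw [hcA]
    apply nine
    intro i hi
    have c2 : (64 * (M : ℤ) + 64 * S) ≤ 2 ^ c := by exact_mod_cast hZM
    have c3 : (r1 : ℤ) < R + S := by exact_mod_cast p2
    have c4 : (R : ℤ) = 4 * M + 4 * S := by exact_mod_cast hRM
    have hv : vx oo up w i = rotL (vx oo up z1' (z1'.length + 1) - vx oo up z1' (z1'.length + 1 - i)) := by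
      rw [hw, TD.vx_fst h1 hi]
    have e1 : lev w i = 3 * r1 - lev2 z1' (z1'.length + 1 - i) := by
      rw [hw, TD.lev_fst h1 hi]
    have hb0 : ∀ k, k ≤ z1'.length + 1 → 0 ≤ lev z1' k ∧ lev z1' k ≤ 6 * r1 + 1 ∧ lev2 z1' k ≤ 3 * r1 ∧
        -(3 * (r1 : ℤ)) ≤ lev2 z1' k := by
      intro k hk
      rcases Nat.eq_zero_or_pos k with h0 | h0
      · rw [h0, lev_zero]
        have : lev2 z1' 0 = 0 := by
          rw [TD.lev2_eq']
          rfl
        rw [this]
        refine ⟨le_rfl, ?_, ?_, ?_⟩ <;> omega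
      · by_cases h' : k ≤ z1'.length
        · have a1 := h1.rt k h0 h'
          have a2 := h1.lt k h0 h'
          have a3 := h1.pos k h0 h'
          have a4 := h1.top k h0 h'
          refine ⟨?_, ?_, ?_, ?_⟩ <;> omega
        · have hk2 : k = z1'.length + 1 := by omega
          subst hk2
          have a1 := h1.tip1
          have a2 := h1.tip2
          have a3 := h1.tip3
          refine ⟨?_, ?_, ?_, ?_⟩ <;> omega
    have b1 := hb0 (z1'.length + 1) le_rfl
    have b2 := hb0 (z1'.length + 1 - i) (by omega)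
    have e2 : lev2 w i = (lev2 z1' (z1'.length + 1) - lev z1' (z1'.length + 1)) -
        (lev2 z1' (z1'.length + 1 - i) - lev z1' (z1'.length + 1 - i)) := by
      rw [TD.lev2_eq' w i, hv, TD.lev2_eq', TD.lev2_eq', TD.lev_eq', TD.lev_eq']
      unfold rotL
      simp only [Prod.fst_sub, Prod.snd_sub]
      ring
    unfold row
    rw [lvl_false_vx, lvl_true_vx, e1, e2, abs_le, abs_le]
    constructor <;> constructor <;> omega
  -- part E
  have hE : cE.card ≤ 144 := by
    have h3 := (nb_part (w := w) (x := z2) (a := z1'.length + v1.length + t.length + v2.length) (n := z2.length) (k0 := 0)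
      (p := p + mulE (0, 1) (vx oo up v1 v1.length + (vx oo up t t.length + vx oo up v2 v2.length))) u01 (by
        intro i hi
        have e1 : z1'.length + v1.length + t.length + v2.length + i =
          z1'.length + (v1.length + (t.length + (v2.length + i))) := by ring
        rw [e1, hp, vE i, zero_add, mulE_add, mulE_add, mulE_add, mulE_add, mulE_add]
        abel) c).1
    rw [← hcE] at h3
    have h4 : ((range (z2.length + 1)).image fun i => cell c (vx oo up z2 (0 + i))).card ≤ 9 := by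
      apply nine
      intro i hi
      rw [zero_add]
      have c2 : (64 * (M : ℤ) + 64 * S) ≤ 2 ^ c := by exact_mod_cast hZM
      have c3 : (r2 : ℤ) < R + S := by exact_mod_cast q2
      have c4 : (R : ℤ) = 4 * M + 4 * S := by exact_mod_cast hRM
      unfold row
      rw [lvl_false_vx, lvl_true_vx]
      rcases Nat.eq_zero_or_pos i with h0 | h0
      · rw [h0, lev_zero]
        have : lev2 z2 0 = 0 := by
          rw [TD.lev2_eq']
          rfl
        rw [this, abs_le, abs_le]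
        constructor <;> constructor <;> omega
      · have a1 := h2.rt i h0 hi
        have a2 := h2.lt i h0 hi
        have a3 := h2.pos i h0 hi
        have a4 := h2.top i h0 hi
        rw [abs_le, abs_le]
        constructor <;> constructor <;> omega
    omega
  -- the tubes
  have hMc : M + 1 ≤ 2 ^ c := by omega
  have t1 := vv_nb hM hMc hv1
  have t2 := vv_nb hM hMc hv2
  refine ⟨?_, ?_⟩
  · have hqM : ((q * M : ℕ) : ℝ) * Z = 8 * K * C0 * N := by
      have : q * M * Z = 8 * K * C0 * N := by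
        rw [hM]
        calc q * (K * S) * Z = K * (q * S * Z) := by ring
          _ = _ := by rw [hqS]; ring
      exact_mod_cast this
    have hZK' : (2 : ℝ) ^ 17 * K ≤ Z := by
      have : 2 ^ 17 * K ≤ Z := by omega
      exact_mod_cast this
    have hK' : (1 : ℝ) ≤ K := by exact_mod_cast hK
    have hZ0 : (0 : ℝ) < Z := by linarith
    have hqM2 : (2 : ℝ) ^ 17 * ((q * M : ℕ) : ℝ) ≤ 8 * (C0 * N) := by
      have h0 : (0 : ℝ) ≤ (C0 : ℝ) * N := by positivity
      have h3 : (2 : ℝ) ^ 17 * ((q * M : ℕ) : ℝ) * Z ≤ 8 * (C0 * N) * Z := by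
        have e1 : (2 : ℝ) ^ 17 * ((q * M : ℕ) : ℝ) * Z = 8 * ((2 : ℝ) ^ 17 * K) * ((C0 : ℝ) * N) := by
          rw [mul_assoc, hqM]
          ring
        have e2 : 8 * ((2 : ℝ) ^ 17 * K) * ((C0 : ℝ) * N) ≤ 8 * (Z : ℝ) * ((C0 : ℝ) * N) :=
          mul_le_mul_of_nonneg_right (by linarith) h0
        rw [e1]
        refine e2.trans (le_of_eq ?_)
        ring
      exact le_of_mul_le_mul_right h3 hZ0
    have hN' : ((2 : ℝ) ^ L) = N := by
      rw [hN]
      push_cast
      rfl
    rw [hN']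
    obtain ⟨H, hH⟩ : ∃ H : ℝ, H = 2 ^ c := ⟨_, rfl⟩
    rw [← hH] at t1 t2 ⊢
    have hH0 : 0 < H := by
      rw [hH]
      positivity
    obtain ⟨X, hX⟩ : ∃ X : ℝ, X = ((q * M : ℕ) : ℝ) / H := ⟨_, rfl⟩
    obtain ⟨Y, hY⟩ : ∃ Y : ℝ, Y = (N : ℝ) / H := ⟨_, rfl⟩
    have hXY : (2 : ℝ) ^ 17 * X ≤ 8 * (C0 * Y) := by
      rw [hX, hY]
      have : (2 : ℝ) ^ 17 * (((q * M : ℕ) : ℝ) / H) = (2 ^ 17 * ((q * M : ℕ) : ℝ)) / H := by ring
      rw [this, div_le_iff₀ hH0]
      have e : 8 * (C0 * ((N : ℝ) / H)) * H = 8 * (C0 * N) := by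
        field_simp
      rw [e]
      exact hqM2
    rw [mul_div_assoc, ← hX] at t1 t2
    rw [← hY]
    have hun : (nb c w : ℝ) ≤ cA.card + cB.card + cC.card + cD.card + cE.card := by exact_mod_cast hunion
    have hA' : (cA.card : ℝ) ≤ 9 := by exact_mod_cast hA
    have hB' : (cB.card : ℝ) ≤ 16 * nb c v1 := by exact_mod_cast hB
    have hC' : (cC.card : ℝ) ≤ 16 * nb c t := by exact_mod_cast hC.1
    have hD' : (cD.card : ℝ) ≤ 16 * (nb c V + 1) := by exact_mod_cast hD
    have hE' : (cE.card : ℝ) ≤ 144 := by exact_mod_cast hE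
    have hC0' : (6000 : ℝ) ≤ C0 := by exact_mod_cast hC0
    have hX0 : 0 ≤ X := by
      rw [hX]
      positivity
    norm_num at hXY
    nlinarith
  · have h3 : cC.card ≤ nb c w := by
      apply Finset.card_le_card
      rw [hcC]
      intro g hg
      rw [Finset.mem_image] at hg
      obtain ⟨i, hi, rfl⟩ := hg
      rw [Finset.mem_range] at hi
      unfold cells
      rw [Finset.mem_image]
      exact ⟨z1'.length + v1.length + i, Finset.mem_range.2 (by rw [hwl]; omega), rfl⟩
    have h4 : nb c t ≤ 16 * cC.card := hC.2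
    omega

/-- geometry of the embedded walk -/
theorem tube_geo : ∀ K : ℕ, 1 ≤ K → ∃ Q c0 C0 : ℕ, 1 ≤ Q ∧ ∀ (L b q : ℕ) (z1 v1 t v2 z2 : List Bool), c0 ≤ b → b ≤ L + 2 →
    q = C0 * 2 ^ (L + 3 - b) → z1 ∈ TD.T1 (Q * 2 ^ (b - c0)) (2 ^ (b - c0)) → v1 ∈ VV K (2 ^ (b - c0)) q → t ∈ BL L →
    rev v2 ∈ VV K (2 ^ (b - c0)) q → rev z2 ∈ TD.T1 (Q * 2 ^ (b - c0)) (2 ^ (b - c0)) →
    z1 ++ ((v1 ++ (t ++ v2)) ++ z2) ∈ BL (L + C0) ∧
      Emb b t (z1 ++ ((v1 ++ (t ++ v2)) ++ z2)) (z1.length + v1.length) ∧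
      ∀ c, b ≤ c → (nb c (z1 ++ ((v1 ++ (t ++ v2)) ++ z2)) : ℝ) ≤ 16 * nb c t + C0 * ((2 : ℝ) ^ L / 2 ^ c + 1) ∧
        nb c t ≤ 16 * nb c (z1 ++ ((v1 ++ (t ++ v2)) ++ z2)) := by
  intro K hK
  obtain ⟨ca, ha⟩ := tube_geo_a K hK
  obtain ⟨cb, hb⟩ := tube_geo_b K hK
  obtain ⟨Ca, ha⟩ := ha (max ca cb) (le_max_left _ _)
  obtain ⟨Cb, hb⟩ := hb (max ca cb) (le_max_right _ _)
  refine ⟨4 * K + 4, max ca cb, max Ca Cb, by omega, ?_⟩
  intro L b q z1 v1 t v2 z2 h1 h2 h3 h4 h5 h6 h7 h8
  obtain ⟨k1, k2⟩ := ha (max Ca Cb) (le_max_left _ _) L b q z1 v1 t v2 z2 h1 h2 h3 h4 h5 h6 h7 h8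
  exact ⟨k1, k2, hb (max Ca Cb) (le_max_right _ _) L b q z1 v1 t v2 z2 h1 h2 h3 h4 h5 h6 h7 h8⟩

end SDN

end HexObs
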