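import Pool.Agent.SDN.CrowdTrue
import Pool.Agent.SDN.TubeGeo

/-!
SDN, limit version: the embedding of the bridges (M6), and the crowding estimate in the direction true from crowd_brd.
-/

set_option autoImplicit false

namespace HexObs

namespace SDN

open Finset TS

open scoped ENNReal

theorem tube_emb : ∃ (C0 : ℕ) (C : ℝ), 1 ≤ C0 ∧ 0 < C ∧ ∀ (L b : ℕ) (G : Set (List Bool)), C0 ≤ b → b ≤ L + 2 →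
    (∀ t ∈ G, t ∈ BL L) → ∃ G' : Set (List Bool), gf G ≤ ENNReal.ofReal (Real.exp (C * (2 : ℝ) ^ ((L : ℝ) + 3 - b))) * gf G' ∧
      ∀ w ∈ G', w ∈ BL (L + C0) ∧ ∃ t ∈ G, ∃ a : ℕ, Emb b t w a ∧
        ∀ c, b ≤ c → (nb c w : ℝ) ≤ 16 * nb c t + C0 * ((2 : ℝ) ^ L / 2 ^ c + 1) ∧ nb c t ≤ 16 * nb c w :=
  tube_emb_of tube_geo

/-- M7, direction true, from crowd_brd -/
theorem crowd_true_brd (hcrowd : ∀ Λ : ℝ, 1 ≤ Λ → ∃ (A C : ℝ) (b0 : ℕ), 1 ≤ A ∧ 0 < C ∧ 1 ≤ b0 ∧ ∀ (L b m : ℕ), b0 ≤ b →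
    b ≤ L + 2 → gf {t | t ∈ BL L ∧ ∃ u e, Lf false b t m u e ∧ A * nb b t ≤ m ∧
      (dbl (2 ^ (b - 1)) (lws t e 1 (m - 2)) : ℝ) ≤ Λ * m} ≤
      ENNReal.ofReal (Ub L * ((2 : ℝ) ^ (C * ((L : ℝ) + 3 - b)) * C / 4 ^ m))) :
    ∃ (A C : ℝ) (b0 : ℕ), 1 ≤ A ∧ 0 < C ∧ 1 ≤ b0 ∧ ∀ (L b1 : ℕ) (Y : ℝ), b0 ≤ b1 → b1 ≤ L → 1 ≤ Y →
    gf {t | t ∈ BL L ∧ ∃ b m u e, b1 ≤ b ∧ b ≤ L + 2 ∧ Lf true b t m u e ∧ A * DD L Y b t < m} ≤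
      ENNReal.ofReal (Ub L * (C * (2 : ℝ) ^ (-Y))) :=
  crowd_true_of hcrowd tube_emb

end SDN

end HexObs
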