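import Pool.Agent.SDN.DimDefs
import Pool.Agent.SDN.Defs

/-!
SDN, limit version, lower bound of the dimension (board/DIM1): definitions.
-/

set_option autoImplicit false

namespace HexObs

namespace SDN

open Finset TS

open scoped ENNReal

open Rec8 (sw)

/-- words without backtracks of the scale b in the direction 1 -/
def CL (b : ℕ) : Set (List Bool) := {g | ∀ i i', i ≤ i' → i' ≤ g.length → lev g i - lev g i' < RR b}

/-- bridges without backtracks of the scale b, height in [n 2 ^ K, (n + 1) 2 ^ K) -/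
def CK (b K n : ℕ) : Set (List Bool) := {g | g ∈ CL b ∧ ∃ h, n * 2 ^ K ≤ h ∧ h < (n + 1) * 2 ^ K ∧ g ∈ Brd h}

/-- sum over the next leaf in the set W; in the fold relation both heights are at least D -/
noncomputable def vA (D : ℕ) (W : Set (List Bool)) (Φ : List Bool → ℝ≥0∞) (t : List Bool) : ℝ≥0∞ :=
  sw {g' | g' ∈ W ∧ RT D LFold t g'} Φ

/-- functionals of the end of a leaf of height at least D: they do not decrease when a bridge is removed at the front, or
any word, if the rest is a bridge of height at least D -/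
structure HerD (D : ℕ) (Φ : List Bool → ℝ≥0∞) : Prop where
  her : Hered Φ
  suf : ∀ s t, t ∈ HB D → s ++ t ∈ HB D → Φ (s ++ t) ≤ Φ t

/-- total variation of the folds -/
def tv (f : ℕ → ℤ) (m : ℕ) (e : ℕ → ℕ) : ℤ := ∑ j ∈ range m, |f (e (j + 1)) - f (e j)|

/-- weighted number of the visited cells, base 3 / 2 -/
noncomputable def D3 (L : ℕ) (Y : ℝ) (b : ℕ) (t : List Bool) : ℝ :=
  ∑ i ∈ range (L + 3 - b), (3 / 2 : ℝ) ^ i * nb (b + i) t + Y * (3 / 2 : ℝ) ^ (L + 3 - b)

end SDN

end HexObs
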