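import Pool.Agent.SDN.BridgeChain
import Pool.Agent.SDN.Dim1Defs

/-!
SDN, limit version, lower bound of the dimension, module C: a bridge without backtracks has a cut or a short zig-zag at
every row.
-/

set_option autoImplicit false

namespace HexObs

namespace SDN

open Finset TS

namespace ZZ

lemma exists_last {P : ℕ → Prop} (n : ℕ) (h : P 0) : ∃ i, i ≤ n ∧ P i ∧ ∀ k, i < k → k ≤ n → ¬ P k := by
  induction n with
  | zero => exact ⟨0, le_rfl, h, fun k h1 h2 => absurd h1 (by omega)⟩
  | succ n ih =>
    by_cases hn : P (n + 1)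
    · exact ⟨n + 1, le_rfl, hn, fun k h1 h2 => absurd h1 (by omega)⟩
    · obtain ⟨i, i1, i2, i3⟩ := ih
      refine ⟨i, by omega, i2, fun k h1 h2 => ?_⟩
      rcases Nat.lt_or_ge n k with h3 | h3
      · rw [show k = n + 1 by omega]
        exact hn
      · exact i3 k h1 h3

lemma exists_last_max (f : ℕ → ℤ) {a n : ℕ} (han : a ≤ n) : ∃ p, a ≤ p ∧ p ≤ n ∧ (∀ k, a ≤ k → k ≤ n → f k ≤ f p) ∧
    ∀ k, p < k → k ≤ n → f k < f p := by
  obtain ⟨d, rfl⟩ := Nat.exists_eq_add_of_le han
  clear han
  induction d with
  | zero =>
    refine ⟨a, le_rfl, le_rfl, fun k h1 h2 => ?_, fun k h1 h2 => absurd h1 (by omega)⟩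
    rw [show k = a by omega]
  | succ d ih =>
    obtain ⟨p, p1, p2, p3, p4⟩ := ih
    rcases le_or_gt (f p) (f (a + (d + 1))) with h | h
    · refine ⟨a + (d + 1), by omega, le_rfl, fun k h1 h2 => ?_, fun k h1 h2 => absurd h1 (by omega)⟩
      rcases Nat.lt_or_ge (a + d) k with h3 | h3
      · rw [show k = a + (d + 1) by omega]
      · exact (p3 k h1 h3).trans h
    · refine ⟨p, p1, by omega, fun k h1 h2 => ?_, fun k h1 h2 => ?_⟩
      · rcases Nat.lt_or_ge (a + d) k with h3 | h3
        · rw [show k = a + (d + 1) by omega]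
          exact h.le
        · exact p3 k h1 h3
      · rcases Nat.lt_or_ge (a + d) k with h3 | h3
        · rw [show k = a + (d + 1) by omega]
          exact h
        · exact p4 k h1 h3

variable {t : List Bool} {T : ℕ}

/-- the last leaf behind a bottom fold a + 1 -/
lemma last_leaf' (ht : t ∈ Brd T) {a : ℕ} (hlen : a + 3 ≤ t.length) (hi : lev t (a + 1) ≤ lev t a)
    (lo : ∀ i, a + 1 < i → i ≤ t.length → lev t (a + 1) < lev t i) :
    ∃ k : ℕ, t.drop (a + 2) ∈ Brd k ∧ lev t (a + 1) + 1 + 3 * k = 3 * T ∧ dx up t (a + 2) = up ∧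
      ∀ i, lev (t.drop (a + 2)) i = lev t (a + 2 + i) - lev t (a + 2) := by
  obtain ⟨t1, t2, t3, t4⟩ := mem_Brd.1 ht
  obtain ⟨hf, hf1⟩ := fold_dx (D := up) upd (t := t) (e := a) (by unfold xD; unfold lev at hi; omega)
    (lo (a + 2) (by omega) (by omega)) (lo (a + 3) (by omega) (by omega))
  have hf1' : lev t (a + 2) = lev t (a + 1) + 1 := hf1
  have hv : ∀ i, vx oo up t (a + 2 + i) = vx oo up t (a + 2) + vx oo up (t.drop (a + 2)) i := by
    intro i
    rw [vx_drop, hf]
    exact vx_shift _ _ _
  have hl : ∀ i, lev (t.drop (a + 2)) i = lev t (a + 2 + i) - lev t (a + 2) := by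
    intro i
    have : lev t (a + 2 + i) = lev t (a + 2) + lev (t.drop (a + 2)) i := by
      unfold lev
      rw [hv, ip_add_left]
    rw [this]
    ring
  have hql : (t.drop (a + 2)).length + (a + 2) = t.length := by
    rw [List.length_drop]
    omega
  have hmod := lev_mod t (a + 1)
  have hend : lev (t.drop (a + 2)) (t.drop (a + 2)).length = 3 * T - lev t (a + 2) := by
    rw [hl, show a + 2 + (t.drop (a + 2)).length = t.length by omega, t4]
  have hlt : lev t (a + 2) < lev t t.length ∨ a + 2 = t.length := by
    rcases Nat.lt_or_ge (a + 2) t.length with h | h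
    · left
      have hz : (3 : ℤ) ∣ lev t (a + 2) := by
        rw [hf1']
        have hodd : ¬ Even (a + 1) := by
          intro hev
          have hc : cl (dx up t (a + 2)) = cl up := by rw [hf]
          rw [cl_dx, if_neg (by rw [show a + 2 = a + 1 + 1 from rfl, Nat.even_add_one]; simpa using hev)] at hc
          revert hc
          decide
        rw [if_neg hodd] at hmod
        omega
      have h5 := (lev_range ht (i := a + 2) (by omega)).2.1
      have h6 := lo t.length (by omega) le_rfl
      have h7 : lev t (a + 2) ≠ lev t t.length := by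
        intro heq
        have h8 := lo (a + 3) (by omega) (by omega)
        have h9 := (lev_range ht (i := a + 3) (by omega)).2.1
        have h10 : lev t (a + 3) = lev t (a + 2) + 2 := by
          have h11 := lev_succ t (a + 2)
          rw [hf] at h11
          have h12 : ip up up = 2 := by decide
          rw [h12] at h11
          exact h11
        rw [t4] at heq
        omega
      omega
    · omega
  obtain ⟨k, hk⟩ : ∃ k : ℕ, 3 * (T : ℤ) - lev t (a + 2) = 3 * k := by
    have hz : (3 : ℤ) ∣ lev t (a + 2) := by
      rw [hf1']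
      have hodd : ¬ Even (a + 1) := by
        intro hev
        have hc : cl (dx up t (a + 2)) = cl up := by rw [hf]
        rw [cl_dx, if_neg (by rw [show a + 2 = a + 1 + 1 from rfl, Nat.even_add_one]; simpa using hev)] at hc
        revert hc
        decide
      rw [if_neg hodd] at hmod
      omega
    obtain ⟨z, hz⟩ := hz
    have := (lev_range ht (i := a + 2) (by omega)).2.1
    refine ⟨(T - z).toNat, ?_⟩
    omega
  refine ⟨k, ?_, by omega, hf, hl⟩
  rw [mem_Brd]
  refine ⟨?_, ?_, ?_, ?_⟩
  · intro i i1 i2
    rw [hl]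
    have h5 := strict_D (D := up) upd (t := t) (f := a + 2) (e' := t.length) hf
      (fun i j1 j2 => by
        have := lo i (by omega) j2
        show lev t (a + 2) - 1 < lev t i
        omega)
      (by
        rcases hlt with h | h
        · exact h
        · omega) (i := a + 2 + i) (by omega) (by omega)
    have h6 : lev t (a + 2) < lev t (a + 2 + i) := h5
    have h7 := (lev_range ht (i := a + 2 + i) (by omega)).2.1
    constructor <;> omega
  · intro i l il hl' heq
    apply t2 (a + 2 + i) (a + 2 + l) (by omega) (by omega)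
    rw [hv, hv, heq]
  · have h5 := dx_drop t (a + 2) (t.drop (a + 2)).length
    rw [hf, show a + 2 + (t.drop (a + 2)).length = t.length by omega, t3] at h5
    exact h5.symm
  · rw [hend, hk]

/-- the vertex before a rise over the level of a foot -/
lemma pre_foot {i : ℕ} (h : dx up t (i + 1) = up) : lev t (i + 1) = lev t i + 1 := by
  have hc : cl (dx up t i) = -cl up := by
    have := cl_step t i
    rw [h] at this
    rw [this, neg_neg]
  rcases step_neg (D := up) upd hc with ⟨a1, a2⟩ | a2
  · exfalso
    have h3 := dx_succ up t i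
    rw [a1, h] at h3
    revert h3
    cases tf t i <;> decide
  · exact a2

end ZZ

open ZZ

/-- a bridge without backtracks of the scale b has a cut at the row a, or a short zig-zag over the row a -/
theorem cut_or_zig {b h a : ℕ} {g : List Bool} (hb : 1 ≤ b) (hg : g ∈ Brd h) (hc : g ∈ CL b) (ha : 1 ≤ a) (hah : a < h) :
    (∃ t1 ∈ Brd a, ∃ t2 ∈ Brd (h - a), t2 ∈ CL b ∧ g = t1 ++ t2) ∨
    ∃ (u d w : ℕ) (G1 D G3 : List Bool), G1 ∈ Brd u ∧ D ∈ Brd d ∧ G3 ∈ Brd w ∧ G3 ∈ CL b ∧ unf [G1, D, G3] = g ∧
      LFold G1 D ∧ LFold D G3 ∧ a ≤ u ∧ u ≤ a + d ∧ 1 ≤ d ∧ d < 2 ^ b ∧ h + d = u + w := by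
  have hR := RR_ge hb
  obtain ⟨t1, t2, t3, t4⟩ := mem_Brd.1 hg
  have hSA : g ∈ SA := ⟨fun _ _ _ => Set.mem_univ _, t2⟩
  have ha' : (1 : ℤ) ≤ a := by exact_mod_cast ha
  have hah' : (a : ℤ) < h := by exact_mod_cast hah
  obtain ⟨i, i1, i2, i3⟩ := exists_last (P := fun i => lev g i ≤ 3 * a) g.length (by
    show lev g 0 ≤ 3 * a
    rw [lev_zero]
    omega)
  have i4 : i < g.length := by
    rcases Nat.lt_or_ge i g.length with h' | h'
    · exact h'
    · exfalso
      have : i = g.length := by omega
      rw [this, t4] at i2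
      omega
  have i5 : ∀ k, i < k → k ≤ g.length → 3 * (a : ℤ) < lev g k := fun k k1 k2 => not_le.1 (i3 k k1 k2)
  -- the vertex i is a foot
  have hmod := lev_mod g i
  have hmod' := lev_mod g (i + 1)
  have hfoot : lev g i = 3 * a ∧ dx up g i = up := by
    have h1 := i5 (i + 1) (by omega) (by omega)
    rcases cl_cases (D := up) upd g i with h2 | h2
    · rcases step_pos (D := up) upd h2 with ⟨a1, a2⟩ | a2
      · have a2' : lev g (i + 1) = lev g i + 2 := a2
        refine ⟨?_, a1⟩
        by_cases hev : Even i
        · rw [if_pos hev] at hmod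
          omega
        · rw [if_neg hev] at hmod
          rw [if_pos (Nat.even_add_one.2 hev)] at hmod'
          omega
      · have a2' : lev g (i + 1) = lev g i - 1 := a2
        omega
    · rcases step_neg (D := up) upd h2 with ⟨a1, a2⟩ | a2
      · have a2' : lev g (i + 1) = lev g i - 2 := a2
        omega
      · have a2' : lev g (i + 1) = lev g i + 1 := a2
        exfalso
        by_cases hev : Even i
        · rw [if_pos hev] at hmod
          rw [if_neg (by rw [Nat.even_add_one]; simpa using hev)] at hmod'
          omega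
        · rw [if_neg hev] at hmod
          rw [if_pos (Nat.even_add_one.2 hev)] at hmod'
          omega
  obtain ⟨f1, f2⟩ := hfoot
  have i6 : 1 ≤ i := by
    by_contra hcon
    have : i = 0 := by omega
    rw [this, lev_zero] at f1
    omega
  obtain ⟨i', rfl⟩ : ∃ i', i = i' + 1 := ⟨i - 1, by omega⟩
  have f3 := pre_foot f2
  obtain ⟨p, -, p2, p3, p4⟩ := exists_last_max (lev g) (Nat.zero_le (i' + 1))
  rcases Nat.lt_or_ge p (i' + 1) with hp | hp
  swap
  · -- a cut
    left
    have hpi : p = i' + 1 := by omega
    rw [hpi] at p3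
    have hcut : Cut g a := (cut_iff hg).2 ⟨i' + 1, by omega, f1, f2, fun k hk => by rw [← f1]; exact p3 k (Nat.zero_le _) hk, i5⟩
    obtain ⟨s, u, b', s1, u1, hsu⟩ := hcut
    have hs3 := (mem_Brd.1 s1).2.2.1
    have hs4 := (mem_Brd.1 s1).2.2.2
    have hb' : b' = h - a := by
      have := Brd_append s1 u1
      rw [← hsu] at this
      have := Brd_height this hg
      omega
    rw [hb'] at u1
    refine ⟨s, s1, u, u1, ?_, hsu⟩
    intro j j' j1 j2
    have h1 := hc (s.length + j) (s.length + j') (by omega) (by rw [hsu, List.length_append]; omega)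
    rw [hsu, lev_cat hs3, lev_cat hs3] at h1
    omega
  · -- a zig-zag
    right
    have p5 : 3 * (a : ℤ) < lev g p := by
      have := p4 (i' + 1) hp le_rfl
      omega
    have p6 : p < i' := by
      rcases Nat.lt_or_ge p i' with h' | h'
      · exact h'
      · exfalso
        have : p = i' := by omega
        rw [this] at p5
        omega
    have p7 : 1 ≤ p := by
      by_contra hcon
      have : p = 0 := by omega
      rw [this, lev_zero] at p5
      omega
    obtain ⟨e, rfl⟩ : ∃ e, p = e + 1 := ⟨p - 1, by omega⟩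
    -- the bottom fold
    obtain ⟨q, q1, q2, q3, q4⟩ := exists_last_max (fun k => -lev g k) (a := e + 1) (n := g.length) (by omega)
    have q5 : lev g q < 3 * a := by
      have := q3 i' (by omega) (by omega)
      omega
    have q6 : q < i' + 1 := by
      by_contra hcon
      rcases Nat.lt_or_ge (i' + 1) q with h' | h'
      · have := i5 q h' q2
        omega
      · have : q = i' + 1 := by omega
        rw [this] at q5
        omega
    have q7 : e + 1 < q := by
      rcases Nat.lt_or_ge (e + 1) q with h' | h'
      · exact h'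
      · exfalso
        have : q = e + 1 := by omega
        rw [this] at q5
        omega
    -- the first leaf
    obtain ⟨c, M, hM1, hM, hsplit, hB, hlen, hvx, hvq, -, -, hH⟩ := fold_step (q := g) (e := e + 1) (by omega) (by omega)
      t2 (fun j j1 j2 => ⟨(lev_range hg (by omega)).2.2 j1, p3 j (Nat.zero_le _) (by omega)⟩)
      (p4 (e + 1 + 1) (by omega) (by omega)) (p4 (e + 1 + 2) (by omega) (by omega))
    have hlG : lst (g.take (e + 1 - 1) ++ [!c]) = !c := lst_append _ _
    -- the second leaf
    have hx : ∀ l, xD (-up) g l = -lev g l := by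
      intro l
      unfold xD lev
      rw [ip_neg_right]
    have q8 : lev g (q + 1) > lev g q := by
      have := q4 (q + 1) (by omega) (by omega)
      omega
    have q9 : lev g (q + 2) > lev g q := by
      have := q4 (q + 2) (by omega) (by omega)
      omega
    have hgap : lev g q + 4 ≤ lev g (e + 1) := by
      rw [hM] at p5 ⊢
      omega
    obtain ⟨c', d, r1, r2, r3, r4, r5, r6, r7, r8, r9, r10, r11, r12⟩ := leaf_core (D := -up) (dirs_neg upd) hSA (e := e)
      (e' := q) (by omega) (by omega)
      (by
        rw [hx, hx]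
        have := p3 e (Nat.zero_le _) (by omega)
        omega)
      (fun k k1 k2 => by
        rw [hx, hx, hx]
        have h1 := p4 k k1 (by omega)
        have h2 := q3 k (by omega) (by omega)
        constructor <;> omega)
      (by
        rw [hx, hx]
        omega)
      (by
        rw [hx, hx]
        omega)
      (by
        rw [hx, hx]
        omega)
    obtain ⟨D, hD⟩ : ∃ D, D = lw g (e + 1) q := ⟨_, rfl⟩
    rw [← hD] at r6 r7 r9 r10 r11 r12
    rw [hx, hx] at r5
    -- the third leaf
    obtain ⟨a', rfl⟩ : ∃ a', q = a' + 1 := ⟨q - 1, by omega⟩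
    obtain ⟨w, w1, w2, w3, w4⟩ := last_leaf' hg (a := a') (by omega)
      (by
        have := q3 a' (by omega) (by omega)
        omega)
      (fun k k1 k2 => by
        have := q4 k k1 k2
        omega)
    refine ⟨M, d, w, g.take (e + 1 - 1) ++ [!c], D, g.drop (a' + 2), hB, r6, w1, ?_, ?_, ?_, ?_, ?_, ?_, r3, ?_, ?_⟩
    · intro j j' j1 j2
      rw [w4, w4]
      rw [List.length_drop] at j2
      have h1 := hc (a' + 2 + j) (a' + 2 + j') (by omega) (by omega)
      omega
    · have hsp : g.drop (e + 1 + 1) = D.dropLast ++ (!lst D) :: (!lst D) :: g.drop (a' + 1 + 1) := by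
        have hl : (g.take (e + 2)).length = e + 2 := by
          rw [List.length_take]
          omega
        conv_lhs => rw [r10]
        rw [List.drop_append_of_le_length (by omega), List.drop_of_length_le (by omega), List.nil_append]
      show (g.take (e + 1 - 1) ++ [!c]).dropLast ++ (!lst (g.take (e + 1 - 1) ++ [!c])) ::
        (!lst (g.take (e + 1 - 1) ++ [!c])) :: (D.dropLast ++ (!lst D) :: (!lst D) :: g.drop (a' + 2)) = g
      rw [hlG, Bool.not_not, List.dropLast_concat, ← hsp, ← hsplit]
    · show Hang _ (lst _) D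
      rw [hlG]
      apply hH
      intro k hk
      refine ⟨by omega, ?_⟩
      rw [r9 k hk, ← hvq]
    · exact r12 _ fun k hk => by
        rw [List.length_drop] at hk
        exact ⟨by omega, rfl⟩
    · have : (a : ℤ) ≤ M := by omega
      exact_mod_cast this
    · have : (M : ℤ) ≤ a + d := by omega
      exact_mod_cast this
    · have h1 := hc (e + 1) (a' + 1) (by omega) (by omega)
      have h6 : ((2 ^ b : ℕ) : ℤ) = 2 ^ b := by push_cast; rfl
      unfold RR at h1
      omega
    · omega

/-- the fold relation for a prefix -/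
theorem LFold_pre {g s t : List Bool} (h : LFold g (s ++ t)) : LFold g s := PrefC_Hang g (lst g) s t h

/-- the fold relation for the first leaf of a folded word -/
theorem LFold_fst {g G1 D G3 : List Bool} (h1 : G1 ≠ []) (h : LFold g (unf [G1, D, G3])) : LFold g G1 := by
  have h2 : LFold g ((G1.dropLast ++ [!lst G1]) ++ ((!lst G1) :: unf [D, G3])) := by
    rw [List.append_assoc, List.singleton_append]
    exact h
  have h3 : Hang g (lst g) (G1.dropLast ++ [lst G1]) := LastC_Hang g (lst g) _ _ _ (LFold_pre h2)
  have h4 : G1.dropLast ++ [lst G1] = G1 := by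
    have h5 : lst G1 = G1.getLast h1 := by
      unfold lst
      rw [List.getLastD_eq_getLast?, List.getLast?_eq_some_getLast h1]
      rfl
    rw [h5]
    exact List.dropLast_append_getLast h1
  rw [h4] at h3
  exact h3

/-- the fold relation for a suffix of the first leaf -/
theorem LFold_suf {D : ℕ} {s t g' : List Bool} (ht : t ∈ HB D) (hst : s ++ t ∈ HB D) (hD : 1 ≤ D)
    (h : LFold (s ++ t) g') : LFold t g' := by
  have hne : t ≠ [] := by
    rintro rfl
    obtain ⟨n, hn, hB⟩ := ht
    have := Brd_height hB nil_mem_Brd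
    omega
  have hl : lst (s ++ t) = lst t := by
    unfold lst
    rw [List.getLastD_eq_getLast?, List.getLastD_eq_getLast?, List.getLast?_append_of_ne_nil _ hne]
  unfold LFold at h ⊢
  rw [hl] at h
  unfold Hang at h ⊢
  rw [rev_append] at h
  split_ifs at h ⊢ with hb
  · exact HangA.Dj_pref_right h
  · exact HangA.Dj_pref_left h

end SDN

end HexObs
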