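import Pool.Agent.SDN.CleanFin
import Pool.Agent.SDN.ZigZag

/-!
SDN, limit version, lower bound of the dimension (board/DIM1), module E: chains of leaves without backtracks, exponential
moment of the heights.
-/

set_option autoImplicit false

namespace HexObs

namespace SDN

open Finset TS

open scoped ENNReal

namespace CCh

/-- the leaves without backtracks -/
def Sg (k : ℕ) : Set (List Bool) := CL (k + 5) ∩ HB (2 ^ (k + 4))

/-- the sum over the next n leaves, with the exponential moment -/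
noncomputable def FF (k s : ℕ) : ℕ → List Bool → ℝ≥0∞
  | 0 => fun _ => 1
  | n + 1 => fun t => ∑' j : ℕ, 2 ^ j * vA (2 ^ (k + 4)) (CK (k + 5) (k + s) j ∩ HB (2 ^ (k + 4))) (FF k s n) t

/-- weight of one leaf -/
noncomputable def w1 (k s : ℕ) (g : List Bool) : ℝ≥0∞ := wE g * 2 ^ (hgt g / 2 ^ (k + s))

/-- weight of a chain -/
noncomputable def wv (k s : ℕ) (gs : List (List Bool)) : ℝ≥0∞ := (gs.map (w1 k s)).prod

lemma vA_suf {D : ℕ} (hD : 1 ≤ D) (W : Set (List Bool)) (Φ : List Bool → ℝ≥0∞) {s t : List Bool} (ht : t ∈ HB D) :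
    vA D W Φ (s ++ t) ≤ vA D W Φ t := by
  unfold vA
  refine Rec8.sw_mono ?_ fun _ _ => le_rfl
  rintro g' ⟨h0, Z, hZ, h1, h2⟩
  refine ⟨h0, RT_of ht ?_⟩
  rw [← List.append_assoc] at h1 h2
  exact LFold_suf ht h1 hD h2

lemma FF_her (k s n : ℕ) : HerD (2 ^ (k + 4)) (FF k s n) := by
  cases n with
  | zero => exact ⟨fun _ _ _ => le_rfl, fun _ _ _ _ => le_rfl⟩
  | succ n =>
    constructor
    · intro a ha t
      exact ENNReal.tsum_le_tsum fun j => mul_le_mul_right (CN.hered_vA _ _ _ a ha t) _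
    · intro a t ht _
      exact ENNReal.tsum_le_tsum fun j => mul_le_mul_right (vA_suf (Nat.one_le_two_pow) _ _ ht) _

lemma geo (c : ℝ) (hc : 0 ≤ c) : ∑' j : ℕ, (2 : ℝ≥0∞) ^ j * ENNReal.ofReal (c / 4 ^ j) = ENNReal.ofReal (2 * c) := by
  have h1 : ∀ j : ℕ, (2 : ℝ≥0∞) ^ j * ENNReal.ofReal (c / 4 ^ j) = ENNReal.ofReal (c * (1 / 2) ^ j) := by
    intro j
    have e1 : (2 : ℝ≥0∞) ^ j = ENNReal.ofReal (2 ^ j) := by
      rw [ENNReal.ofReal_pow (by norm_num)]
      congr 1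
      norm_num
    rw [e1, ← ENNReal.ofReal_mul (by positivity)]
    congr 1
    have e2 : (4 : ℝ) ^ j = 2 ^ j * 2 ^ j := by
      rw [← mul_pow]
      norm_num
    rw [e2, one_div, inv_pow]
    field_simp
  rw [tsum_congr h1, ← ENNReal.ofReal_tsum_of_nonneg (fun j => by positivity)
    ((summable_geometric_of_lt_one (by norm_num) (by norm_num)).mul_left c), tsum_mul_left, tsum_geometric_two]
  congr 1
  ring

lemma xT_FF {K : ℝ} {k s : ℕ} (hK : 1 ≤ K) (h : ∀ (n : ℕ) (Φ : List Bool → ℝ≥0∞), HerD (2 ^ (k + 4)) Φ →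
    xT (2 ^ (k + 4)) k (vA (2 ^ (k + 4)) (CK (k + 5) (k + s) n ∩ HB (2 ^ (k + 4))) Φ) ≤
      ENNReal.ofReal (K / 4 ^ n) * xT (2 ^ (k + 4)) k Φ) (n : ℕ) :
    xT (2 ^ (k + 4)) k (FF k s n) ≤ ENNReal.ofReal (2 * (2 * K) ^ n) := by
  induction n with
  | zero =>
    refine (xT_one _ _).trans ?_
    rw [pow_zero, mul_one]
    norm_num
  | succ n ih =>
    have h1 : xT (2 ^ (k + 4)) k (FF k s (n + 1)) ≤ ∑' j : ℕ, (2 : ℝ≥0∞) ^ j * ENNReal.ofReal (K / 4 ^ j) *
        xT (2 ^ (k + 4)) k (FF k s n) := by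
      refine (xT_tsum _ _ _).trans (ENNReal.tsum_le_tsum fun j => ?_)
      refine (xT_smul _ _ _ _).trans ?_
      rw [mul_assoc]
      exact mul_le_mul_right (h j _ (FF_her k s n)) _
    refine h1.trans ?_
    rw [ENNReal.tsum_mul_right, geo K (by linarith)]
    refine (mul_le_mul_right ih _).trans ?_
    rw [← ENNReal.ofReal_mul (by linarith)]
    apply ENNReal.ofReal_le_ofReal
    rw [pow_succ]
    linarith

/-- the sum over the leaves without backtracks, by the heights -/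
lemma sum_leaf (k s : ℕ) (R : List Bool → Prop) (Φ : List Bool → ℝ≥0∞) (F : ℕ → ℝ≥0∞)
    (hF : ∀ j, Rec8.sw {g | g ∈ CK (k + 5) (k + s) j ∩ HB (2 ^ (k + 4)) ∧ R g} Φ ≤ F j) :
    Rec8.sw {g | g ∈ Sg k ∧ R g} (fun g => 2 ^ (hgt g / 2 ^ (k + s)) * Φ g) ≤ ∑' j : ℕ, 2 ^ j * F j := by
  classical
  have h1 : ∑' j : ℕ, (2 : ℝ≥0∞) ^ j * Rec8.sw {g | g ∈ CK (k + 5) (k + s) j ∩ HB (2 ^ (k + 4)) ∧ R g} Φ ≤
      ∑' j : ℕ, 2 ^ j * F j := ENNReal.tsum_le_tsum fun j => mul_le_mul_right (hF j) _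
  refine le_trans ?_ h1
  have h2 : ∀ j : ℕ, (2 : ℝ≥0∞) ^ j * Rec8.sw {g | g ∈ CK (k + 5) (k + s) j ∩ HB (2 ^ (k + 4)) ∧ R g} Φ =
      ∑' g : List Bool, (if g ∈ CK (k + 5) (k + s) j ∩ HB (2 ^ (k + 4)) ∧ R g then 2 ^ j * (wE g * Φ g) else 0) := by
    intro j
    rw [Rec8.sw_ind, ← ENNReal.tsum_mul_left]
    refine tsum_congr fun g => ?_
    by_cases hg : g ∈ CK (k + 5) (k + s) j ∩ HB (2 ^ (k + 4)) ∧ R g
    · rw [if_pos hg, if_pos (show g ∈ {g | g ∈ CK (k + 5) (k + s) j ∩ HB (2 ^ (k + 4)) ∧ R g} from hg)]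
    · rw [if_neg hg, if_neg (show ¬ g ∈ {g | g ∈ CK (k + 5) (k + s) j ∩ HB (2 ^ (k + 4)) ∧ R g} from hg), mul_zero]
  rw [tsum_congr h2, ENNReal.tsum_comm, Rec8.sw_ind]
  refine ENNReal.tsum_le_tsum fun g => ?_
  by_cases hg : g ∈ {g | g ∈ Sg k ∧ R g}
  · rw [if_pos hg]
    obtain ⟨⟨hc, h, hh, hB⟩, hR⟩ := hg
    have hgt1 : hgt g = h := hgt_eq hB
    have hmem : g ∈ CK (k + 5) (k + s) (hgt g / 2 ^ (k + s)) ∩ HB (2 ^ (k + 4)) ∧ R g := by
      refine ⟨⟨⟨hc, h, ?_, ?_, hB⟩, h, hh, hB⟩, hR⟩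
      · rw [hgt1]
        exact Nat.div_mul_le_self h _
      · rw [hgt1]
        rw [mul_comm]
        exact Nat.lt_mul_div_succ h (by positivity)
    refine le_trans ?_ (ENNReal.le_tsum (hgt g / 2 ^ (k + s)))
    rw [if_pos hmem]
    exact le_of_eq (by ring)
  · rw [if_neg hg]
    exact zero_le

open Classical in
/-- chains behind the leaf g -/
noncomputable def Tc (k s n : ℕ) (g : List Bool) : ℝ≥0∞ :=
  ∑' gs : List (List Bool), if gs.length = n ∧ (g :: gs).IsChain LFold ∧ ∀ u ∈ gs, u ∈ Sg k then wv k s gs else 0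

lemma tsum_list (f : List (List Bool) → ℝ≥0∞) (hf : f [] = 0) :
    ∑' gs : List (List Bool), f gs ≤ ∑' g : List Bool, ∑' gs : List (List Bool), f (g :: gs) := by
  rw [← ENNReal.tsum_prod]
  let φ : {gs : List (List Bool) // gs ≠ []} → List Bool × List (List Bool) := fun gs => (gs.1.head gs.2, gs.1.tail)
  have hφ : Function.Injective φ := by
    rintro ⟨a, ha⟩ ⟨b, hb⟩ h
    have h1 : a.head ha = b.head hb := congrArg Prod.fst h
    have h2 : a.tail = b.tail := congrArg Prod.snd h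
    apply Subtype.ext
    show a = b
    rw [← List.cons_head_tail ha, ← List.cons_head_tail hb, h1, h2]
  have h1 : ∑' gs : List (List Bool), f gs = ∑' gs : {gs : List (List Bool) // gs ≠ []}, f gs.1 := by
    symm
    apply tsum_subtype_eq_of_support_subset (s := {gs | gs ≠ []})
    intro gs hgs h0
    apply hgs
    rw [h0, hf]
  have h2 : ∀ gs : {gs : List (List Bool) // gs ≠ []}, f gs.1 = (fun p : List Bool × List (List Bool) => f (p.1 :: p.2)) (φ gs) := by
    intro gs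
    show f gs.1 = f (gs.1.head gs.2 :: gs.1.tail)
    rw [List.cons_head_tail]
  rw [h1, tsum_congr h2]
  exact ENNReal.tsum_comp_le_tsum_of_injective hφ _

lemma Tc_zero (k s : ℕ) (g : List Bool) : Tc k s 0 g ≤ 1 := by
  classical
  unfold Tc
  rw [tsum_eq_single []]
  · split_ifs
    · simp [wv]
    · exact zero_le_one
  · intro gs hgs
    rw [if_neg]
    rintro ⟨h, -⟩
    exact hgs (List.length_eq_zero_iff.1 h)

lemma Tc_le (k s n : ℕ) : ∀ g ∈ HB (2 ^ (k + 4)), Tc k s n g ≤ FF k s n g := by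
  classical
  induction n with
  | zero =>
    intro g _
    exact Tc_zero k s g
  | succ n ih =>
    intro g hg
    have h1 : Tc k s (n + 1) g ≤ Rec8.sw {g' | g' ∈ Sg k ∧ RT (2 ^ (k + 4)) LFold g g'}
        (fun g' => 2 ^ (hgt g' / 2 ^ (k + s)) * FF k s n g') := by
      unfold Tc
      refine (tsum_list _ ?_).trans ?_
      · rw [if_neg]
        rintro ⟨h, -⟩
        simp at h
      · rw [Rec8.sw_ind]
        refine ENNReal.tsum_le_tsum fun g' => ?_
        by_cases h2 : g' ∈ Sg k ∧ LFold g g'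
        · have h3 : g' ∈ {g' | g' ∈ Sg k ∧ RT (2 ^ (k + 4)) LFold g g'} := ⟨h2.1, RT_of hg h2.2⟩
          rw [if_pos h3]
          have h4 : wE g' * (2 ^ (hgt g' / 2 ^ (k + s)) * FF k s n g') = w1 k s g' * FF k s n g' := by
            unfold w1
            ring
          rw [h4]
          refine le_trans ?_ (mul_le_mul_right (ih g' h2.1.2) _)
          unfold Tc
          rw [← ENNReal.tsum_mul_left]
          refine ENNReal.tsum_le_tsum fun gs => ?_
          by_cases h5 : (g' :: gs).length = n + 1 ∧ (g :: g' :: gs).IsChain LFold ∧ ∀ u ∈ g' :: gs, u ∈ Sg k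
          · rw [if_pos h5, if_pos]
            · unfold wv
              rw [List.map_cons, List.prod_cons]
            · refine ⟨?_, ?_, ?_⟩
              · have := h5.1
                rw [List.length_cons] at this
                omega
              · exact (List.isChain_cons_cons.1 h5.2.1).2
              · exact fun u hu => h5.2.2 u (List.mem_cons_of_mem _ hu)
          · rw [if_neg h5]
            exact zero_le
        · have h3 : ∀ gs : List (List Bool), (if (g' :: gs).length = n + 1 ∧ (g :: g' :: gs).IsChain LFold ∧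
              ∀ u ∈ g' :: gs, u ∈ Sg k then wv k s (g' :: gs) else 0) = 0 := by
            intro gs
            rw [if_neg]
            rintro ⟨-, h4, h5⟩
            exact h2 ⟨h5 g' List.mem_cons_self, (List.isChain_cons_cons.1 h4).1⟩
          rw [tsum_congr h3, tsum_zero]
          exact zero_le
    refine h1.trans ?_
    have h2 := sum_leaf k s (fun g' => RT (2 ^ (k + 4)) LFold g g') (FF k s n)
      (fun j => vA (2 ^ (k + 4)) (CK (k + 5) (k + s) j ∩ HB (2 ^ (k + 4))) (FF k s n) g) (fun j => le_rfl)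
    exact h2

/-- all chains -/
lemma all_chains {K : ℝ} {k s : ℕ} (hK : 1 ≤ K) (h : ∀ (n : ℕ) (Φ : List Bool → ℝ≥0∞), HerD (2 ^ (k + 4)) Φ →
    xT (2 ^ (k + 4)) k (vA (2 ^ (k + 4)) (CK (k + 5) (k + s) n ∩ HB (2 ^ (k + 4))) Φ) ≤
      ENNReal.ofReal (K / 4 ^ n) * xT (2 ^ (k + 4)) k Φ ∧
    Rec8.sw (CK (k + 5) (k + s) n ∩ HB (2 ^ (k + 4))) Φ ≤ ENNReal.ofReal (K * Ub k / 4 ^ n) * xT (2 ^ (k + 4)) k Φ) (n : ℕ) :
    Rec8.sw (Sg k) (fun g => 2 ^ (hgt g / 2 ^ (k + s)) * Tc k s n g) ≤ ENNReal.ofReal ((4 * K) ^ (n + 1) * Ub k) := by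
  have hUk : 0 ≤ Ub k := by
    unfold Ub UU uu
    exact Finset.sum_nonneg fun _ _ => ENNReal.toReal_nonneg
  have h1 : Rec8.sw (Sg k) (fun g => 2 ^ (hgt g / 2 ^ (k + s)) * Tc k s n g) ≤
      Rec8.sw {g | g ∈ Sg k ∧ True} (fun g => 2 ^ (hgt g / 2 ^ (k + s)) * FF k s n g) :=
    Rec8.sw_mono (fun g hg => ⟨hg, trivial⟩) fun g hg => mul_le_mul_right (Tc_le k s n g hg.2) _
  refine h1.trans ?_
  have h2 := sum_leaf k s (fun _ => True) (FF k s n)
      (fun j => ENNReal.ofReal (K * Ub k / 4 ^ j) * xT (2 ^ (k + 4)) k (FF k s n)) (fun j =>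
        (Rec8.sw_mono (fun g hg => hg.1) fun _ _ => le_rfl).trans (h j _ (FF_her k s n)).2)
  refine h2.trans ?_
  have h3 : ∀ j : ℕ, (2 : ℝ≥0∞) ^ j * (ENNReal.ofReal (K * Ub k / 4 ^ j) * xT (2 ^ (k + 4)) k (FF k s n)) =
      (2 : ℝ≥0∞) ^ j * ENNReal.ofReal (K * Ub k / 4 ^ j) * xT (2 ^ (k + 4)) k (FF k s n) := fun j => (mul_assoc _ _ _).symm
  rw [tsum_congr h3, ENNReal.tsum_mul_right, geo (K * Ub k) (by positivity)]
  refine (mul_le_mul_right (xT_FF hK (fun n Φ hΦ => (h n Φ hΦ).1) n) _).trans ?_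
  rw [← ENNReal.ofReal_mul (by positivity)]
  apply ENNReal.ofReal_le_ofReal
  have h4 : (2 * K) ^ n ≤ (4 * K) ^ n := pow_le_pow_left₀ (by positivity) (by linarith) n
  have h5 : 0 ≤ K * Ub k := by positivity
  calc 2 * (K * Ub k) * (2 * (2 * K) ^ n) = 4 * (K * Ub k) * (2 * K) ^ n := by ring
    _ ≤ 4 * (K * Ub k) * (4 * K) ^ n := mul_le_mul_of_nonneg_left h4 (by positivity)
    _ = (4 * K) ^ (n + 1) * Ub k := by ring

end CCh

open CCh in
theorem clean_chain : ∃ (K : ℝ) (s : ℕ), 1 ≤ K ∧ ∀ k m V : ℕ, 1 ≤ m →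
    ∑' gs : {gs : List (List Bool) // gs.length = m ∧ gs.IsChain LFold ∧ (∀ g ∈ gs, g ∈ CL (k + 5) ∧ g ∈ HB (2 ^ (k + 4))) ∧
      V ≤ (gs.map fun g => hgt g / 2 ^ (k + s)).sum}, wl gs.1 ≤ ENNReal.ofReal (K ^ m * Ub k / 2 ^ V) := by
  classical
  obtain ⟨K, s, hK, -, hcn⟩ := clean_norm
  refine ⟨4 * K, s, by linarith, ?_⟩
  intro k m V hm
  obtain ⟨n, rfl⟩ : ∃ n, m = n + 1 := ⟨m - 1, by omega⟩
  have hall := all_chains hK (fun n Φ hΦ => hcn k n Φ hΦ) n
  -- the weight of a chain with the exponential moment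
  have hwv : ∀ gs : List (List Bool), wv k s gs = wl gs * 2 ^ ((gs.map fun g => hgt g / 2 ^ (k + s)).sum) := by
    intro gs
    induction gs with
    | nil => simp [wv, wl]
    | cons g gs ih =>
      unfold wv wl at ih ⊢
      rw [List.map_cons, List.prod_cons, List.map_cons, List.prod_cons, List.map_cons, List.sum_cons, ih,
        pow_add _ (hgt g / 2 ^ (k + s))]
      unfold w1
      rw [mul_mul_mul_comm]
  have h2V : (2 : ℝ≥0∞) ^ V ≠ 0 := by positivity
  have h2V' : (2 : ℝ≥0∞) ^ V ≠ ∞ := ENNReal.pow_ne_top (by norm_num)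
  have h1 : 2 ^ V * ∑' gs : {gs : List (List Bool) // gs.length = n + 1 ∧ gs.IsChain LFold ∧
      (∀ g ∈ gs, g ∈ CL (k + 5) ∧ g ∈ HB (2 ^ (k + 4))) ∧ V ≤ (gs.map fun g => hgt g / 2 ^ (k + s)).sum}, wl gs.1 ≤
      ENNReal.ofReal ((4 * K) ^ (n + 1) * Ub k) := by
    refine le_trans ?_ hall
    rw [← ENNReal.tsum_mul_left]
    have h3 : ∑' gs : {gs : List (List Bool) // gs.length = n + 1 ∧ gs.IsChain LFold ∧
        (∀ g ∈ gs, g ∈ CL (k + 5) ∧ g ∈ HB (2 ^ (k + 4))) ∧ V ≤ (gs.map fun g => hgt g / 2 ^ (k + s)).sum},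
        2 ^ V * wl gs.1 ≤ ∑' gs : List (List Bool), (if gs.length = n + 1 ∧ gs.IsChain LFold ∧ ∀ u ∈ gs, u ∈ Sg k then
          wv k s gs else 0) := by
      have h4 : ∀ gs : {gs : List (List Bool) // gs.length = n + 1 ∧ gs.IsChain LFold ∧
          (∀ g ∈ gs, g ∈ CL (k + 5) ∧ g ∈ HB (2 ^ (k + 4))) ∧ V ≤ (gs.map fun g => hgt g / 2 ^ (k + s)).sum},
          2 ^ V * wl gs.1 ≤ (fun gs : List (List Bool) => if gs.length = n + 1 ∧ gs.IsChain LFold ∧ ∀ u ∈ gs, u ∈ Sg k then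
            wv k s gs else 0) gs.1 := by
        rintro ⟨gs, g1, g2, g3, g4⟩
        show 2 ^ V * wl gs ≤ if gs.length = n + 1 ∧ gs.IsChain LFold ∧ ∀ u ∈ gs, u ∈ Sg k then wv k s gs else 0
        rw [if_pos ⟨g1, g2, fun u hu => g3 u hu⟩, hwv, mul_comm]
        exact mul_le_mul_right (pow_le_pow_right₀ (by norm_num) g4) _
      refine (ENNReal.tsum_le_tsum h4).trans ?_
      exact ENNReal.tsum_comp_le_tsum_of_injective Subtype.val_injective _
    refine h3.trans ?_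
    refine (tsum_list _ ?_).trans ?_
    · rw [if_neg]
      rintro ⟨h, -⟩
      simp at h
    · rw [Rec8.sw_ind]
      refine ENNReal.tsum_le_tsum fun g => ?_
      by_cases hg : g ∈ Sg k
      · rw [if_pos hg]
        have h4 : wE g * (2 ^ (hgt g / 2 ^ (k + s)) * Tc k s n g) = w1 k s g * Tc k s n g := by
          unfold w1
          ring
        rw [h4]
        unfold Tc
        rw [← ENNReal.tsum_mul_left]
        refine ENNReal.tsum_le_tsum fun gs => ?_
        by_cases h5 : (g :: gs).length = n + 1 ∧ (g :: gs).IsChain LFold ∧ ∀ u ∈ g :: gs, u ∈ Sg k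
        · rw [if_pos h5, if_pos]
          · unfold wv
            rw [List.map_cons, List.prod_cons]
          · refine ⟨?_, h5.2.1, fun u hu => h5.2.2 u (List.mem_cons_of_mem _ hu)⟩
            have := h5.1
            rw [List.length_cons] at this
            omega
        · rw [if_neg h5]
          exact zero_le
      · rw [if_neg hg]
        have h5 : ∀ gs : List (List Bool), (if (g :: gs).length = n + 1 ∧ (g :: gs).IsChain LFold ∧
            ∀ u ∈ g :: gs, u ∈ Sg k then wv k s (g :: gs) else 0) = 0 := by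
          intro gs
          rw [if_neg]
          rintro ⟨-, -, h6⟩
          exact hg (h6 g List.mem_cons_self)
        rw [tsum_congr h5, tsum_zero]
  have h6 : ENNReal.ofReal ((4 * K) ^ (n + 1) * Ub k / 2 ^ V) = ENNReal.ofReal ((4 * K) ^ (n + 1) * Ub k) / 2 ^ V := by
    rw [ENNReal.ofReal_div_of_pos (by positivity)]
    congr 1
    rw [ENNReal.ofReal_pow (by norm_num)]
    congr 1
    norm_num
  rw [h6, ENNReal.le_div_iff_mul_le (Or.inl h2V) (Or.inl h2V'), mul_comm]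
  exact h1

end SDN

end HexObs
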