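import Pool.Agent.TightN.SOp
import Pool.Agent.SDN.Defs

/-!
SDN, norm part: hereditary functionals of the end of a leaf, the norm xT, the tail of a leaf.
-/

set_option autoImplicit false

namespace HexObs

open Finset TS

open scoped ENNReal

open Rec8 (sw mb)

namespace SDN

variable {C δ : ℝ}

theorem RT_of {D : ℕ} {R : List Bool → List Bool → Prop} {t g' : List Bool} (h1 : t ∈ HB D) (h2 : R t g') : RT D R t g' := by
  refine ⟨[], ⟨0, ?_⟩, h1, h2⟩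
  rw [Brd_zero]
  exact Set.mem_singleton _

theorem RT_her {D : ℕ} {R : List Bool → List Bool → Prop} {s t g' : List Bool} (hs : s ∈ BU) (h : RT D R (s ++ t) g') :
    RT D R t g' := by
  obtain ⟨Z, ⟨z, hZ⟩, h1, h2⟩ := h
  obtain ⟨n, hn⟩ := hs
  refine ⟨Z ++ s, ⟨z + n, Brd_append hZ hn⟩, ?_, ?_⟩
  · rw [List.append_assoc]
    exact h1
  · rw [List.append_assoc]
    exact h2

theorem xT_use {D k b : ℕ} (hb : b ≤ k) {I : List Bool} (hI : ∃ r, I ∈ Irr r) (Φ : List Bool → ℝ≥0∞) :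
    sw (Fld.BrB b) (fun M => Φ (I ++ M)) ≤ xT D k Φ * Sw D k b I := by
  have h1 : sw (Fld.BrB b) (fun M => Φ (I ++ M)) / Sw D k b I ≤ xT D k Φ :=
    le_iSup₂ (f := fun (b : Fin (k + 1)) (I : {I : List Bool // ∃ r, I ∈ Irr r}) =>
      sw (Fld.BrB b) (fun M => Φ (I.1 ++ M)) / Sw D k b I.1) ⟨b, by omega⟩ ⟨I, hI⟩
  calc sw (Fld.BrB b) (fun M => Φ (I ++ M)) = sw (Fld.BrB b) (fun M => Φ (I ++ M)) / Sw D k b I * Sw D k b I :=
        (ENNReal.div_mul_cancel (Sw_pos D k b I) (Sw_ne_top D k b I)).symm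
    _ ≤ xT D k Φ * Sw D k b I := mul_le_mul_left h1 _

theorem xT_le {D k : ℕ} {Φ : List Bool → ℝ≥0∞} {x : ℝ≥0∞}
    (h : ∀ b I, b ≤ k → (∃ r, I ∈ Irr r) → sw (Fld.BrB b) (fun M => Φ (I ++ M)) ≤ x * Sw D k b I) : xT D k Φ ≤ x := by
  refine iSup₂_le fun b I => ?_
  have hb : (b : ℕ) ≤ k := by
    have := b.2
    omega
  exact ENNReal.div_le_of_le_mul (h b I.1 hb I.2)

theorem xT_mono {D k : ℕ} {Φ Ψ : List Bool → ℝ≥0∞} (h : ∀ g, Φ g ≤ Ψ g) : xT D k Φ ≤ xT D k Ψ :=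
  xT_le fun _ _ hb hI => (Rec8.sw_mono' fun _ _ => h _).trans (xT_use hb hI Ψ)

theorem xT_add (D k : ℕ) (Φ Ψ : List Bool → ℝ≥0∞) : xT D k (fun g => Φ g + Ψ g) ≤ xT D k Φ + xT D k Ψ := by
  refine xT_le fun b I hb hI => ?_
  rw [add_mul, Rec8.sw_add]
  exact add_le_add (xT_use hb hI Φ) (xT_use hb hI Ψ)

theorem xT_smul (D k : ℕ) (c : ℝ≥0∞) (Φ : List Bool → ℝ≥0∞) : xT D k (fun g => c * Φ g) ≤ c * xT D k Φ := by
  refine xT_le fun b I hb hI => ?_
  rw [mul_assoc, Rec8.sw_mul_left]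
  exact mul_le_mul_right (xT_use hb hI Φ) c

theorem NX_sw_tsum {ι : Type*} (A : Set (List Bool)) (Φ : ι → List Bool → ℝ≥0∞) :
    sw A (fun t => ∑' i, Φ i t) = ∑' i, sw A (Φ i) := by
  unfold Rec8.sw
  simp only [← ENNReal.tsum_mul_left]
  rw [ENNReal.tsum_comm]

theorem xT_tsum {ι : Type*} (D k : ℕ) (Φ : ι → List Bool → ℝ≥0∞) :
    xT D k (fun g => ∑' i, Φ i g) ≤ ∑' i, xT D k (Φ i) := by
  refine xT_le fun b I hb hI => ?_
  rw [NX_sw_tsum, ← ENNReal.tsum_mul_right]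
  exact ENNReal.tsum_le_tsum fun i => xT_use hb hI (Φ i)

theorem xT_one (D k : ℕ) : xT D k (fun _ => 1) ≤ 2 := by
  refine xT_le fun b I hb hI => ?_
  rw [Rec8.sw_one]
  refine (gf_BrB b).trans ?_
  have h2 : ENNReal.ofReal (Ub b) ≤ Sw D k b I := by
    unfold Sw
    refine le_trans (ENNReal.ofReal_le_ofReal ?_) (le_add_right le_rfl)
    have h3 : (1 : ℝ) ≤ (2 : ℝ) ^ (kap0 / 4 * ((k : ℝ) - b)) := by
      refine Real.one_le_rpow (by norm_num) (mul_nonneg ?_ ?_)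
      · have := kap0_pos
        positivity
      · have : (b : ℝ) ≤ k := by exact_mod_cast hb
        linarith
    have h4 := (Ub_pos b).le
    nlinarith
  rw [ENNReal.ofReal_mul (by norm_num), ENNReal.ofReal_ofNat]
  exact mul_le_mul_right h2 2

/-- sum over the end of the leaf behind an out-piece, window j ≤ k -/
theorem endH {D k j : ℕ} (hj : j ≤ k) (r : ℕ) {P : List Bool} (hP : P ∈ Irr r) (Φ : List Bool → ℝ≥0∞) :
    ∑' m : ℕ, mu j m r * sw (Brd m) (fun M => Φ (P ++ M)) ≤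
      ∑ b ∈ range (j + 1), mb j b r * (xT D k Φ * Sw D k b P) := by
  refine (mu_blk j r _).trans (Finset.sum_le_sum fun b hb => mul_le_mul_right ?_ _)
  exact xT_use (by rw [Finset.mem_range] at hb; omega) ⟨r, hP⟩ Φ

theorem endsH_gen {D k j : ℕ} (hj : j ≤ k) (Φ : List Bool → ℝ≥0∞) :
    ∑' m : ℕ, ∑' r : ℕ, mu j m r * sw (Irr r) (fun P => sw (Brd m) (fun M => Φ (P ++ M))) ≤
      xT D k Φ * ∑ b ∈ range (j + 1), pm j b (fun P => Sw D k b P) := by
  calc ∑' m : ℕ, ∑' r : ℕ, mu j m r * sw (Irr r) (fun P => sw (Brd m) (fun M => Φ (P ++ M)))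
      = ∑' r : ℕ, sw (Irr r) (fun P => ∑' m : ℕ, mu j m r * sw (Brd m) (fun M => Φ (P ++ M))) := by
        rw [ENNReal.tsum_comm]
        refine tsum_congr fun r => ?_
        rw [NX_sw_tsum]
        exact tsum_congr fun m => (Rec8.sw_mul_left _ _ _).symm
    _ ≤ ∑' r : ℕ, sw (Irr r) (fun P => ∑ b ∈ range (j + 1), mb j b r * (xT D k Φ * Sw D k b P)) :=
        ENNReal.tsum_le_tsum fun r => Rec8.sw_mono' fun P hP => endH hj r hP Φ
    _ = ∑ b ∈ range (j + 1), ∑' r : ℕ, mb j b r * (xT D k Φ * sw (Irr r) (fun P => Sw D k b P)) := by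
        rw [← Summable.tsum_finsetSum fun b _ => ENNReal.summable]
        refine tsum_congr fun r => ?_
        rw [Rec8.sw_sum]
        refine Finset.sum_congr rfl fun b _ => ?_
        rw [Rec8.sw_mul_left, Rec8.sw_mul_left]
    _ = xT D k Φ * ∑ b ∈ range (j + 1), pm j b (fun P => Sw D k b P) := by
        rw [Finset.mul_sum]
        refine Finset.sum_congr rfl fun b _ => ?_
        unfold pm
        rw [← ENNReal.tsum_mul_left]
        exact tsum_congr fun r => by ring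

/-- sum over the last piece and the end -/
theorem endsH (h : Inp C δ) : ∃ K : ℝ, 1 ≤ K ∧ ∀ (D k : ℕ) (Φ : List Bool → ℝ≥0∞), 2 ^ (k + 4) ≤ D →
    ∑' m : ℕ, ∑' r : ℕ, mu k m r * sw (Irr r) (fun P => sw (Brd m) (fun M => Φ (P ++ M))) ≤
      ENNReal.ofReal K * xT D k Φ := by
  obtain ⟨K, hK, hn2⟩ := n2 h
  refine ⟨K, hK, fun D k Φ hD => (endsH_gen (D := D) (le_refl k) Φ).trans ?_⟩
  rw [mul_comm]
  exact mul_le_mul_left (hn2 D k hD) _

/-- total weight -/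
theorem totH (h : Inp C δ) : ∃ K : ℝ, 1 ≤ K ∧ ∀ (D N k : ℕ) (Φ : List Bool → ℝ≥0∞), Hered Φ → 2 ^ (k + 4) ≤ D →
    sw (BrR D N) Φ ≤ ENNReal.ofReal (K * UU N) * xT D k Φ := by
  obtain ⟨K, hK, he⟩ := endsH h
  refine ⟨K, hK, fun D N k Φ hΦ hD => ?_⟩
  have hD2 : 2 ^ (k + 1) ≤ D := (Nat.pow_le_pow_right (by norm_num) (by omega)).trans hD
  have hpt : ∀ m r : ℕ, sw {Z | ∃ h, h ≤ N ∧ Z ∈ Brd h} (fun Z => sw (Irr r) (fun P =>
      sw {M | M ∈ Brd m ∧ Z ++ (P ++ M) ∈ BrR D N} (fun M => Φ (Z ++ (P ++ M))))) ≤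
      ENNReal.ofReal (UU N) * sw (Irr r) (fun P => sw (Brd m) (fun M => Φ (P ++ M))) := by
    intro m r
    calc sw {Z | ∃ h, h ≤ N ∧ Z ∈ Brd h} (fun Z => sw (Irr r) (fun P =>
        sw {M | M ∈ Brd m ∧ Z ++ (P ++ M) ∈ BrR D N} (fun M => Φ (Z ++ (P ++ M)))))
        ≤ sw {Z | ∃ h, h ≤ N ∧ Z ∈ Brd h} (fun _ => 1 * sw (Irr r) (fun P =>
          sw (Brd m) (fun M => Φ (P ++ M)))) := by
          refine Rec8.sw_mono' fun Z hZ => ?_
          rw [one_mul]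
          refine Rec8.sw_mono' fun P _ => ?_
          refine Rec8.sw_mono (fun M hM => hM.1) fun M hM => ?_
          obtain ⟨h0, -, hZh⟩ := hZ
          exact hΦ Z ⟨h0, hZh⟩ _
      _ = gf {Z | ∃ h, h ≤ N ∧ Z ∈ Brd h} * sw (Irr r) (fun P => sw (Brd m) (fun M => Φ (P ++ M))) := by
          rw [Rec8.sw_mul_right, Rec8.sw_one]
      _ ≤ _ := mul_le_mul_left (gf_BU_le N) _
  calc sw (BrR D N) Φ ≤ _ := endR hD2 Φ
    _ ≤ ∑' m : ℕ, ∑' r : ℕ, mu k m r * (ENNReal.ofReal (UU N) *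
        sw (Irr r) (fun P => sw (Brd m) (fun M => Φ (P ++ M)))) :=
        ENNReal.tsum_le_tsum fun m => ENNReal.tsum_le_tsum fun r => mul_le_mul_right (hpt m r) _
    _ = ENNReal.ofReal (UU N) * ∑' m : ℕ, ∑' r : ℕ, mu k m r *
        sw (Irr r) (fun P => sw (Brd m) (fun M => Φ (P ++ M))) := by
        rw [← ENNReal.tsum_mul_left]
        refine tsum_congr fun m => ?_
        rw [← ENNReal.tsum_mul_left]
        exact tsum_congr fun r => by ring
    _ ≤ ENNReal.ofReal (UU N) * (ENNReal.ofReal K * xT D k Φ) := mul_le_mul_right (he D k Φ hD) _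
    _ = ENNReal.ofReal (K * UU N) * xT D k Φ := by
        rw [ENNReal.ofReal_mul (by linarith)]
        ring

theorem NX_const (A : Set (List Bool)) (c : ℝ≥0∞) : sw A (fun _ => c) = gf A * c := by
  have h := Rec8.sw_mul_right A c (fun _ => 1)
  simp only [one_mul] at h
  rw [h, Rec8.sw_one]

/-- the rest of the leaf behind the piece P over the in-level (a part of height n before P) -/
theorem restH (h : Inp C δ) : ∃ K : ℝ, 1 ≤ K ∧ ∀ (D N k n r : ℕ) (Φ : List Bool → ℝ≥0∞) (P : List Bool),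
    Hered Φ → 2 ^ (k + 4) ≤ D → n ≤ 2 ^ (k + 1) → P ∈ Irr r →
    sw {Z | Z ∈ BU ∧ ∃ Y ∈ Brd n, Y ++ (P ++ Z) ∈ BrR D N} (fun Z => Φ (P ++ Z)) ≤
      xT D k Φ * (∑ b ∈ range (k + 1), mb k b r * Sw D k b P + ENNReal.ofReal (K * UU N)) := by
  obtain ⟨K, hK1, hK⟩ := endsH h
  refine ⟨K, hK1, fun D N k n r Φ P hΦ hD hn hP => ?_⟩
  have e1 : (2 : ℕ) ^ (k + 1) * 8 = 2 ^ (k + 4) := by ring
  have hD2 : n + 2 ^ (k + 1) ≤ D := by omega
  refine (outR hD2 hP (fun Z => Φ (P ++ Z))).trans ?_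
  rw [mul_add]
  refine add_le_add ?_ ?_
  · have h1 := endH (D := D) (k := k) le_rfl r hP Φ
    have h2 : ∑' m : ℕ, mu k m r * sw {M | M ∈ Brd m ∧ ∃ Y ∈ Brd n, Y ++ (P ++ M) ∈ BrR D N}
        (fun Z => Φ (P ++ Z)) ≤ ∑' m : ℕ, mu k m r * sw (Brd m) (fun M => Φ (P ++ M)) := by
      refine ENNReal.tsum_le_tsum fun m => ?_
      gcongr
      exact Rec8.sw_mono (fun t ht => ht.1) (fun t _ => le_rfl)
    refine (h2.trans h1).trans (le_of_eq ?_)
    rw [Finset.mul_sum]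
    exact Finset.sum_congr rfl fun b _ => mul_left_comm _ _ _
  · have hPb : P ∈ Brd r := hP.1
    have h3 : ∀ m r' : ℕ, mu k m r' * sw {Z | ∃ h, h ≤ N ∧ Z ∈ Brd h} (fun Z => sw (Irr r') (fun P' =>
        sw {M | M ∈ Brd m ∧ ∃ Y ∈ Brd n, Y ++ (P ++ (Z ++ (P' ++ M))) ∈ BrR D N}
          (fun M => Φ (P ++ (Z ++ (P' ++ M)))))) ≤
        gf {Z | ∃ h, h ≤ N ∧ Z ∈ Brd h} *
          (mu k m r' * sw (Irr r') (fun P' => sw (Brd m) (fun M => Φ (P' ++ M)))) := by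
      intro m r'
      rw [mul_left_comm, ← NX_const]
      gcongr
      refine Rec8.sw_mono' fun Z hZ => ?_
      obtain ⟨h, _, hZ⟩ := hZ
      refine Rec8.sw_mono' fun P' hP' => ?_
      refine Rec8.sw_mono (fun t ht => ht.1) fun M hM => ?_
      rw [← List.append_assoc]
      exact hΦ _ ⟨_, Brd_append hPb hZ⟩ _
    refine (ENNReal.tsum_le_tsum fun m => ENNReal.tsum_le_tsum fun r' => h3 m r').trans ?_
    simp only [ENNReal.tsum_mul_left]
    calc gf {Z | ∃ h, h ≤ N ∧ Z ∈ Brd h} *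
          ∑' m : ℕ, ∑' r' : ℕ, mu k m r' * sw (Irr r') (fun P' => sw (Brd m) (fun M => Φ (P' ++ M)))
        ≤ ENNReal.ofReal (UU N) * (ENNReal.ofReal K * xT D k Φ) := mul_le_mul' (gf_BU_le N) (hK D k Φ hD)
      _ = xT D k Φ * ENNReal.ofReal (K * UU N) := by
        rw [ENNReal.ofReal_mul (by linarith : (0 : ℝ) ≤ K)]
        ring

/-- tail of a leaf from the piece over a level of [2^k, 2^(k+1)) on, starting anywhere -/
theorem tailH (h : Inp C δ) : ∃ K : ℝ, 1 ≤ K ∧ ∀ (D N k n : ℕ) (R : ℝ) (Φ : List Bool → ℝ≥0∞),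
    Hered Φ → 2 ^ (k + 4) ≤ D → 1 ≤ R → UU N ≤ R * Ub k →
    ∑' r : ℕ, mu k n r * sw (Irr r) (fun P => sw {Z | Z ∈ BU ∧ ∃ Y ∈ Brd n, Y ++ (P ++ Z) ∈ BrR D N}
      (fun Z => Φ (P ++ Z))) ≤ ENNReal.ofReal (K * R) * xT D k Φ := by
  obtain ⟨K1, hK1, hrest⟩ := restH h
  obtain ⟨K2, hK2, hn2⟩ := n2 h
  obtain ⟨K3, hK3, havg⟩ := avg_mass
  refine ⟨K2 + K1 * K3, by nlinarith, fun D N k n R Φ hΦ hD hR hU => ?_⟩
  rcases le_or_gt (2 ^ (k + 1)) n with hn | hn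
  · have h0 : ∀ r : ℕ, mu k n r = 0 := fun r => mu_eq_zero hn
    simp only [h0, zero_mul, tsum_zero]
    exact zero_le
  · have hUb : 0 < Ub k := Ub_pos k
    have h1 : ∀ r : ℕ, mu k n r * sw (Irr r) (fun P => sw {Z | Z ∈ BU ∧ ∃ Y ∈ Brd n, Y ++ (P ++ Z) ∈ BrR D N}
        (fun Z => Φ (P ++ Z))) ≤
        xT D k Φ * (∑ b ∈ range (k + 1), mb k b r * sw (Irr r) (fun P => Sw D k b P)) +
          xT D k Φ * (ENNReal.ofReal (K1 * UU N) * (min 1 ((r : ℝ≥0∞) / 2 ^ k) * kap' r)) := by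
      intro r
      have h2 : sw (Irr r) (fun P => sw {Z | Z ∈ BU ∧ ∃ Y ∈ Brd n, Y ++ (P ++ Z) ∈ BrR D N}
          (fun Z => Φ (P ++ Z))) ≤
          xT D k Φ * (∑ b ∈ range (k + 1), mb k b r * sw (Irr r) (fun P => Sw D k b P)) +
            xT D k Φ * (ENNReal.ofReal (K1 * UU N) * kap' r) := by
        refine (Rec8.sw_mono' (Ψ := fun P => xT D k Φ * (∑ b ∈ range (k + 1), mb k b r * Sw D k b P +
          ENNReal.ofReal (K1 * UU N))) fun P hP => hrest D N k n r Φ P hΦ hD hn.le hP).trans (le_of_eq ?_)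
        rw [Rec8.sw_mul_left, Rec8.sw_add, mul_add, Rec8.sw_sum, NX_const]
        congr 2
        · exact Finset.sum_congr rfl fun b _ => Rec8.sw_mul_left _ _ _
        · unfold kap'
          ring
      have hmu : mu k n r ≤ min 1 ((r : ℝ≥0∞) / 2 ^ k) := mu_le_min k n r
      have hmu1 : mu k n r ≤ 1 := hmu.trans (min_le_left _ _)
      calc mu k n r * sw (Irr r) (fun P => sw {Z | Z ∈ BU ∧ ∃ Y ∈ Brd n, Y ++ (P ++ Z) ∈ BrR D N}
            (fun Z => Φ (P ++ Z)))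
          ≤ mu k n r * (xT D k Φ * (∑ b ∈ range (k + 1), mb k b r * sw (Irr r) (fun P => Sw D k b P)) +
            xT D k Φ * (ENNReal.ofReal (K1 * UU N) * kap' r)) := by gcongr
        _ = mu k n r * (xT D k Φ * (∑ b ∈ range (k + 1), mb k b r * sw (Irr r) (fun P => Sw D k b P))) +
            xT D k Φ * (ENNReal.ofReal (K1 * UU N) * (mu k n r * kap' r)) := by ring
        _ ≤ 1 * (xT D k Φ * (∑ b ∈ range (k + 1), mb k b r * sw (Irr r) (fun P => Sw D k b P))) +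
            xT D k Φ * (ENNReal.ofReal (K1 * UU N) * (min 1 ((r : ℝ≥0∞) / 2 ^ k) * kap' r)) := by gcongr
        _ = _ := by rw [one_mul]
    refine (ENNReal.tsum_le_tsum h1).trans ?_
    rw [ENNReal.tsum_add, ENNReal.tsum_mul_left, ENNReal.tsum_mul_left, ENNReal.tsum_mul_left]
    have h4 : ∑' r : ℕ, ∑ b ∈ range (k + 1), mb k b r * sw (Irr r) (fun P => Sw D k b P) ≤
        ENNReal.ofReal K2 := by
      rw [Summable.tsum_finsetSum (fun b _ => ENNReal.summable)]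
      exact hn2 D k hD
    calc xT D k Φ * ∑' r : ℕ, ∑ b ∈ range (k + 1), mb k b r * sw (Irr r) (fun P => Sw D k b P) +
          xT D k Φ * (ENNReal.ofReal (K1 * UU N) * ∑' r : ℕ, min 1 ((r : ℝ≥0∞) / 2 ^ k) * kap' r)
        ≤ xT D k Φ * ENNReal.ofReal K2 +
          xT D k Φ * (ENNReal.ofReal (K1 * UU N) * ENNReal.ofReal (K3 / Ub k)) := by
          gcongr
          exact havg k
      _ ≤ xT D k Φ * ENNReal.ofReal (K2 * R) + xT D k Φ * ENNReal.ofReal (K1 * K3 * R) := by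
          gcongr
          · nlinarith
          · rw [← ENNReal.ofReal_mul' (by positivity)]
            refine ENNReal.ofReal_le_ofReal ?_
            have h5 : K1 * UU N * (K3 / Ub k) = K1 * K3 * (UU N / Ub k) := by ring
            rw [h5]
            have h6 : UU N / Ub k ≤ R := (div_le_iff₀ hUb).2 hU
            exact mul_le_mul_of_nonneg_left h6 (by positivity)
      _ = ENNReal.ofReal ((K2 + K1 * K3) * R) * xT D k Φ := by
          rw [← mul_add, ← ENNReal.ofReal_add (by positivity) (by positivity), mul_comm, add_mul]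

end SDN

end HexObs
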