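import Pool.Agent.TightN.SK3
import Pool.Agent.SDN.Dim1Defs

/-!
SDN, limit version, lower bound of the dimension (board/DIM1), module B1: the giants of two scales.
-/

set_option autoImplicit false

namespace HexObs

namespace SDN

open Finset TS

open scoped ENNReal

open Rec8 (sw mb)

variable {C δ : ℝ}

namespace TK

lemma rev_sum (l : ℕ) (F : List Bool → ℝ≥0∞) : sw (IrrB l) (fun t => F (rev t)) = sw (IrrB l) F := by
  have hA : ∀ t ∈ IrrB l, rev t ∈ IrrB l := by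
    rintro t ⟨r, hr, ht⟩
    exact ⟨r, hr, Irr_rev ht⟩
  unfold Rec8.sw
  have e : ∀ t : {t : List Bool // t ∈ IrrB l}, wE t.1 * F (rev t.1) =
      (fun s : {t : List Bool // t ∈ IrrB l} => wE s.1 * F s.1) ⟨rev t.1, hA t.1 t.2⟩ := by
    intro t
    show _ = wE (rev t.1) * F (rev t.1)
    rw [wE_rev]
  rw [tsum_congr e]
  have hinv : Function.Involutive (fun t : {t : List Bool // t ∈ IrrB l} =>
      (⟨rev t.1, hA t.1 t.2⟩ : {t : List Bool // t ∈ IrrB l})) := by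
    intro t
    apply Subtype.ext
    exact rev_rev t.1
  exact (Equiv.ofBijective _ hinv.bijective).tsum_eq (fun s : {t : List Bool // t ∈ IrrB l} => wE s.1 * F s.1)

lemma geo_mean {S : ℝ≥0∞} {p q : ℝ} (hp : 0 ≤ p) (hq : 0 ≤ q) (h1 : S ≤ ENNReal.ofReal p)
    (h2 : S ≤ ENNReal.ofReal q) : S ≤ ENNReal.ofReal (Real.sqrt (p * q)) := by
  rcases le_total p q with h | h
  · refine h1.trans (ENNReal.ofReal_le_ofReal (Real.le_sqrt_of_sq_le ?_))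
    rw [sq]
    exact mul_le_mul_of_nonneg_left h hp
  · refine h2.trans (ENNReal.ofReal_le_ofReal (Real.le_sqrt_of_sq_le ?_))
    rw [sq]
    exact mul_le_mul_of_nonneg_right h hq

/-- two gains of one giant, two scales -/
lemma gains2 (h : Inp C δ) : ∃ K : ℝ, 1 ≤ K ∧ ∀ D D1 a b a2 b2 l : ℕ, b ≤ a → b2 ≤ a2 → 2 ^ (a + 3) ≤ D →
    2 ^ (a2 + 3) ≤ D1 → sw (IrrB l) (fun I => EE D b a I * EE D1 b2 a2 (rev I)) ≤
      ENNReal.ofReal (K * (Real.sqrt (TT (kap0 / 8) δ l a b * TT (kap0 / 8) δ l a2 b2) *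
        Real.sqrt (Ub a * Ub a2))) := by
  have hC := h.one_le
  refine ⟨C * C, one_le_mul_of_one_le_of_one_le hC hC, ?_⟩
  intro D D1 a b a2 b2 l hba hba2 hD hD2
  have hT1 := TT_nonneg (kap0 / 8) δ l a b
  have hT2 := TT_nonneg (kap0 / 8) δ l a2 b2
  have hU1 := (Ub_pos a).le
  have hU2 := (Ub_pos a2).le
  have hC0 : 0 ≤ C := zero_le_one.trans hC
  have h1 : sw (IrrB l) (fun I => EE D b a I * EE D1 b2 a2 (rev I)) ≤
      ENNReal.ofReal (C * TT (kap0 / 8) δ l a b * (C * Ub a2)) := by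
    rw [ENNReal.ofReal_mul (mul_nonneg hC0 hT1)]
    refine le_trans (Rec8.sw_mono' fun I _ => mul_le_mul_right (h.cu D1 a2 b2 hba2 hD2 (rev I)) (EE D b a I)) ?_
    rw [Rec8.sw_mul_right]
    exact mul_le_mul_left (h.tef D a b l hba hD) _
  have h2 : sw (IrrB l) (fun I => EE D b a I * EE D1 b2 a2 (rev I)) ≤
      ENNReal.ofReal (C * Ub a * (C * TT (kap0 / 8) δ l a2 b2)) := by
    rw [ENNReal.ofReal_mul (mul_nonneg hC0 hU1)]
    refine le_trans (Rec8.sw_mono' fun I _ => mul_le_mul_left (h.cu D a b hba hD I) (EE D1 b2 a2 (rev I))) ?_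
    rw [Rec8.sw_mul_left]
    refine mul_le_mul_right ?_ _
    rw [rev_sum l (fun I => EE D1 b2 a2 I)]
    exact h.tef D1 a2 b2 l hba2 hD2
  refine (geo_mean (mul_nonneg (mul_nonneg hC0 hT1) (mul_nonneg hC0 hU2))
    (mul_nonneg (mul_nonneg hC0 hU1) (mul_nonneg hC0 hT2)) h1 h2).trans (le_of_eq ?_)
  congr 1
  rw [← Real.sqrt_mul (mul_nonneg hT1 hT2)]
  have e : C * TT (kap0 / 8) δ l a b * (C * Ub a2) * (C * Ub a * (C * TT (kap0 / 8) δ l a2 b2)) =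
      (C * C) ^ 2 * (TT (kap0 / 8) δ l a b * TT (kap0 / 8) δ l a2 b2 * (Ub a * Ub a2)) := by ring
  rw [e, Real.sqrt_mul (sq_nonneg _), Real.sqrt_sq (mul_nonneg hC0 hC0)]

lemma p_one {x : ℝ} (h : 0 ≤ x) : 1 ≤ (2 : ℝ) ^ x := Real.one_le_rpow one_le_two h

lemma p_pos (x : ℝ) : 0 < (2 : ℝ) ^ x := Real.rpow_pos_of_pos two_pos x

lemma p_mono {x y : ℝ} (h : x ≤ y) : (2 : ℝ) ^ x ≤ (2 : ℝ) ^ y :=
  Real.rpow_le_rpow_of_exponent_le one_le_two h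

/-- the pieces higher than 2^e lie in the blocks l ≥ e -/
lemma blocks (Φ : List Bool → ℝ≥0∞) (e : ℕ) :
    (∑' r : ℕ, (if 2 ^ e < r then sw (Irr r) Φ else 0)) ≤
      ∑' l : ℕ, (if e ≤ l then sw (IrrB l) Φ else 0) := by
  classical
  have e1 : ∀ r : ℕ, (if 2 ^ e < r then sw (Irr r) Φ else 0) =
      ∑' t : List Bool, (if 2 ^ e < r ∧ t ∈ Irr r then wE t * Φ t else 0) := by
    intro r
    by_cases hr : 2 ^ e < r
    · rw [if_pos hr, Rec8.sw_ind]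
      refine tsum_congr fun t => ?_
      simp only [hr, true_and]
    · rw [if_neg hr]
      simp [hr]
  have e2 : ∀ l : ℕ, (if e ≤ l then sw (IrrB l) Φ else 0) =
      ∑' t : List Bool, (if e ≤ l ∧ t ∈ IrrB l then wE t * Φ t else 0) := by
    intro l
    by_cases hl : e ≤ l
    · rw [if_pos hl, Rec8.sw_ind]
      refine tsum_congr fun t => ?_
      simp only [hl, true_and]
    · rw [if_neg hl]
      simp [hl]
  simp only [e1, e2]
  rw [ENNReal.tsum_comm]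
  refine le_trans ?_ (le_of_eq ENNReal.tsum_comm)
  refine ENNReal.tsum_le_tsum fun t => ?_
  by_cases hex : ∃ r, 2 ^ e < r ∧ t ∈ Irr r
  · obtain ⟨r0, hr0, ht0⟩ := hex
    have h1 : (∑' r : ℕ, (if 2 ^ e < r ∧ t ∈ Irr r then wE t * Φ t else 0)) = wE t * Φ t := by
      rw [tsum_eq_single r0]
      · rw [if_pos ⟨hr0, ht0⟩]
      · intro r hr
        rw [if_neg]
        rintro ⟨_, h⟩
        exact hr (Brd_height h.1 ht0.1)
    rw [h1]
    have hr00 : r0 ≠ 0 := by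
      have : 0 < 2 ^ e := by positivity
      omega
    have hl : e ≤ Nat.log 2 r0 := Nat.le_log_of_pow_le (by norm_num) hr0.le
    have hB : t ∈ IrrB (Nat.log 2 r0) :=
      ⟨r0, ⟨Nat.lt_pow_succ_log_self (by norm_num) r0, Or.inl (Nat.pow_log_le_self 2 hr00)⟩, ht0⟩
    refine le_trans (le_of_eq ?_) (ENNReal.le_tsum (Nat.log 2 r0))
    rw [if_pos ⟨hl, hB⟩]
  · have h1 : (∑' r : ℕ, (if 2 ^ e < r ∧ t ∈ Irr r then wE t * Φ t else 0)) = 0 := by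
      rw [ENNReal.tsum_eq_zero]
      intro r
      rw [if_neg]
      exact fun hc => hex ⟨r, hc⟩
    rw [h1]
    exact zero_le

/-- sum over the blocks -/
lemma blocks_le {Φ : List Bool → ℝ≥0∞} {e : ℕ} {c : ℕ → ℝ} {X : ℝ} (hc : ∀ l, 0 ≤ c l)
    (h1 : ∀ l, sw (IrrB l) Φ ≤ ENNReal.ofReal (c l)) (h2 : ∀ n, ∑ l ∈ Ico e n, c l ≤ X) :
    (∑' r : ℕ, (if 2 ^ e < r then sw (Irr r) Φ else 0)) ≤ ENNReal.ofReal X := by
  refine (blocks Φ e).trans ?_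
  refine ENNReal.tsum_le_of_sum_range_le fun n => ?_
  have h3 : ∑ l ∈ range n, (if e ≤ l then sw (IrrB l) Φ else 0) = ∑ l ∈ Ico e n, sw (IrrB l) Φ := by
    rw [← Finset.sum_filter]
    refine Finset.sum_congr ?_ fun _ _ => rfl
    ext l
    simp only [Finset.mem_filter, Finset.mem_range, Finset.mem_Ico]
    omega
  rw [h3]
  calc ∑ l ∈ Ico e n, sw (IrrB l) Φ ≤ ∑ l ∈ Ico e n, ENNReal.ofReal (c l) := Finset.sum_le_sum fun l _ => h1 l
    _ = ENNReal.ofReal (∑ l ∈ Ico e n, c l) := (ENNReal.ofReal_sum_of_nonneg fun l _ => hc l).symm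
    _ ≤ _ := ENNReal.ofReal_le_ofReal (h2 n)

lemma TT_sum' (h : 0 < δ) : ∃ L : ℝ, 1 ≤ L ∧ ∀ e a b n : ℕ, ∑ l ∈ Ico e n, TT (kap0 / 8) δ l a b ≤
    L * TT (kap0 / 8) δ e a b := by
  have hk := kap0_pos
  obtain ⟨L, hL, h2⟩ := TT_sum (θ := kap0 / 8) (δ := δ) (by linarith) (by linarith) h.le
  refine ⟨L, hL, fun e a b n => le_trans ?_ (h2 e a b n)⟩
  refine Finset.sum_le_sum_of_subset_of_nonneg (Finset.Ico_subset_Ico_left (Nat.sub_le e 1)) fun l _ _ => ?_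
  exact TT_nonneg _ _ _ _ _

/-- one gain -/
lemma giant1 (h : Inp C δ) : ∃ K : ℝ, 1 ≤ K ∧ ∀ D e a b : ℕ, b ≤ a → 2 ^ (a + 3) ≤ D →
    (∑' r : ℕ, (if 2 ^ e < r then sw (Irr r) (fun I => EE D b a I) else 0)) ≤
      ENNReal.ofReal (K * TT (kap0 / 8) δ e a b) ∧
    (∑' r : ℕ, (if 2 ^ e < r then sw (Irr r) (fun I => EE D b a (rev I)) else 0)) ≤
      ENNReal.ofReal (K * TT (kap0 / 8) δ e a b) := by
  obtain ⟨L, hL, h2⟩ := TT_sum' h.pos
  have hC := h.one_le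
  have hC0 : 0 ≤ C := by linarith
  refine ⟨C * L, one_le_mul_of_one_le_of_one_le hC hL, fun D e a b hba hD => ⟨?_, ?_⟩⟩
  · refine blocks_le (c := fun l => C * TT (kap0 / 8) δ l a b) (fun l => mul_nonneg hC0 (TT_nonneg _ _ _ _ _))
      (fun l => h.tef D a b l hba hD) fun n => ?_
    rw [← Finset.mul_sum, mul_assoc]
    exact mul_le_mul_of_nonneg_left (h2 e a b n) hC0
  · refine blocks_le (c := fun l => C * TT (kap0 / 8) δ l a b) (fun l => mul_nonneg hC0 (TT_nonneg _ _ _ _ _))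
      (fun l => ?_) fun n => ?_
    · rw [rev_sum l (fun I => EE D b a I)]
      exact h.tef D a b l hba hD
    · rw [← Finset.mul_sum, mul_assoc]
      exact mul_le_mul_of_nonneg_left (h2 e a b n) hC0

/-- two gains: Cauchy-Schwarz over the blocks -/
lemma giant2 (h : Inp C δ) : ∃ K : ℝ, 1 ≤ K ∧ ∀ D D1 e a b a2 b2 : ℕ, b ≤ a → b2 ≤ a2 →
    2 ^ (a + 3) ≤ D → 2 ^ (a2 + 3) ≤ D1 →
    (∑' r : ℕ, (if 2 ^ e < r then sw (Irr r) (fun I => EE D b a I * EE D1 b2 a2 (rev I)) else 0)) ≤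
      ENNReal.ofReal (K * (Real.sqrt (TT (kap0 / 8) δ e a b * TT (kap0 / 8) δ e a2 b2) *
        Real.sqrt (Ub a * Ub a2))) := by
  obtain ⟨K, hK, h1⟩ := gains2 h
  obtain ⟨L, hL, h2⟩ := TT_sum' h.pos
  refine ⟨K * L, one_le_mul_of_one_le_of_one_le hK hL, fun D D1 e a b a2 b2 hba hba2 hD hD2 => ?_⟩
  have hx : ∀ l, 0 ≤ TT (kap0 / 8) δ l a b := fun l => TT_nonneg _ _ _ _ _
  have hy : ∀ l, 0 ≤ TT (kap0 / 8) δ l a2 b2 := fun l => TT_nonneg _ _ _ _ _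
  refine blocks_le (c := fun l => K * (Real.sqrt (TT (kap0 / 8) δ l a b * TT (kap0 / 8) δ l a2 b2) *
        Real.sqrt (Ub a * Ub a2))) (fun l => by positivity) (fun l => h1 D D1 a b a2 b2 l hba hba2 hD hD2) fun n => ?_
  have h4 : ∑ l ∈ Ico e n, (K * (Real.sqrt (TT (kap0 / 8) δ l a b *
    TT (kap0 / 8) δ l a2 b2) * Real.sqrt (Ub a * Ub a2))) =
      K * ((∑ l ∈ Ico e n, Real.sqrt (TT (kap0 / 8) δ l a b) *
        Real.sqrt (TT (kap0 / 8) δ l a2 b2)) * Real.sqrt (Ub a * Ub a2)) := by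
    rw [Finset.sum_mul, Finset.mul_sum]
    refine Finset.sum_congr rfl fun l _ => ?_
    rw [Real.sqrt_mul (hx l)]
  have h5 := Real.sum_sqrt_mul_sqrt_le (Ico e n) hx hy
  have h6 : Real.sqrt (∑ l ∈ Ico e n, TT (kap0 / 8) δ l a b) ≤
      Real.sqrt (L * TT (kap0 / 8) δ e a b) := Real.sqrt_le_sqrt (h2 e a b n)
  have h7 : Real.sqrt (∑ l ∈ Ico e n, TT (kap0 / 8) δ l a2 b2) ≤
      Real.sqrt (L * TT (kap0 / 8) δ e a2 b2) := Real.sqrt_le_sqrt (h2 e a2 b2 n)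
  have h8 : Real.sqrt (L * TT (kap0 / 8) δ e a b) * Real.sqrt (L * TT (kap0 / 8) δ e a2 b2) =
      L * Real.sqrt (TT (kap0 / 8) δ e a b * TT (kap0 / 8) δ e a2 b2) := by
    have hL0 : 0 ≤ L := by linarith
    rw [Real.sqrt_mul hL0, Real.sqrt_mul hL0, Real.sqrt_mul (hx e)]
    have := Real.mul_self_sqrt hL0
    calc Real.sqrt L * Real.sqrt (TT (kap0 / 8) δ e a b) * (Real.sqrt L * Real.sqrt (TT (kap0 / 8) δ e a2 b2))
        = (Real.sqrt L * Real.sqrt L) * (Real.sqrt (TT (kap0 / 8) δ e a b) *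
          Real.sqrt (TT (kap0 / 8) δ e a2 b2)) := by ring
      _ = _ := by rw [this]
  rw [h4]
  have h9 : (∑ l ∈ Ico e n, Real.sqrt (TT (kap0 / 8) δ l a b) *
        Real.sqrt (TT (kap0 / 8) δ l a2 b2)) ≤
        L * Real.sqrt (TT (kap0 / 8) δ e a b * TT (kap0 / 8) δ e a2 b2) :=
    h5.trans ((mul_le_mul h6 h7 (Real.sqrt_nonneg _) (Real.sqrt_nonneg _)).trans (le_of_eq h8))
  calc K * ((∑ l ∈ Ico e n, Real.sqrt (TT (kap0 / 8) δ l a b) *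
        Real.sqrt (TT (kap0 / 8) δ l a2 b2)) * Real.sqrt (Ub a * Ub a2))
      ≤ K * ((L * Real.sqrt (TT (kap0 / 8) δ e a b * TT (kap0 / 8) δ e a2 b2)) *
          Real.sqrt (Ub a * Ub a2)) := by gcongr
    _ = _ := by ring

/-- the value of the geometric mean -/
lemma sqrt_val (δ : ℝ) (k a b a2 b2 : ℕ) :
    Real.sqrt (TT (kap0 / 8) δ k a b * TT (kap0 / 8) δ k a2 b2) * Real.sqrt (Ub a * Ub a2) =
      Ub a * (Ub a2 / Ub k) * ((2 : ℝ) ^ (kap0 / 16 * ((k - a : ℕ) : ℝ)) * (2 : ℝ) ^ (kap0 / 16 * ((k - a2 : ℕ) : ℝ))) *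
        ((2 : ℝ) ^ (-(δ / 2 * ((min a k - b : ℕ) : ℝ))) * (2 : ℝ) ^ (-(δ / 2 * ((min a2 k - b2 : ℕ) : ℝ)))) := by
  have hk := Ub_pos k
  have ha := Ub_pos a
  have ha2 := Ub_pos a2
  have e1 : ∀ x : ℝ, (2 : ℝ) ^ (kap0 / 8 * x) = (2 : ℝ) ^ (kap0 / 16 * x) * (2 : ℝ) ^ (kap0 / 16 * x) := by
    intro x
    rw [← Real.rpow_add two_pos]
    congr 1
    ring
  have e2 : ∀ x : ℝ, (2 : ℝ) ^ (-(δ * x)) = (2 : ℝ) ^ (-(δ / 2 * x)) * (2 : ℝ) ^ (-(δ / 2 * x)) := by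
    intro x
    rw [← Real.rpow_add two_pos]
    congr 1
    ring
  rw [← Real.sqrt_mul (mul_nonneg (TT_nonneg _ _ _ _ _) (TT_nonneg _ _ _ _ _))]
  rw [Real.sqrt_eq_iff_mul_self_eq_of_pos]
  · unfold TT
    rw [e1, e1, e2, e2]
    field_simp
  · have := p_pos (kap0 / 16 * ((k - a : ℕ) : ℝ))
    have := p_pos (kap0 / 16 * ((k - a2 : ℕ) : ℝ))
    have := p_pos (-(δ / 2 * ((min a k - b : ℕ) : ℝ)))
    have := p_pos (-(δ / 2 * ((min a2 k - b2 : ℕ) : ℝ)))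
    positivity

/-- geometric sum below b -/
lemma geo_low {c : ℝ} (h : 0 < c) : ∃ K : ℝ, 1 ≤ K ∧ ∀ b : ℕ,
    ∑ a ∈ range (b + 1), (2 : ℝ) ^ (-(c * ((b - a : ℕ) : ℝ))) ≤ K := by
  obtain ⟨K, hK, h1⟩ := geo h
  refine ⟨K, hK, fun b => ?_⟩
  have h2 := Finset.sum_range_reflect (fun i : ℕ => (2 : ℝ) ^ (-(c * (i : ℝ)))) (b + 1)
  simp only [Nat.add_sub_cancel] at h2
  rw [h2]
  exact h1 (b + 1)

/-- ratio of the renewal function at two scales -/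
lemma ratio {k e : ℕ} (h : k ≤ e) : (2 : ℝ) ^ (kap0 / 8 * ((e : ℝ) - k)) * (Ub k / Ub e) ≤ 2 := by
  have hk := kap0_pos
  have hke : (k : ℝ) ≤ e := by exact_mod_cast h
  have h1 := Ub_growth h
  have h2 : (2 : ℝ) ^ (kap0 / 8 * ((e : ℝ) - k)) ≤ (2 : ℝ) ^ (kap0 * ((e : ℝ) - k)) := by
    apply p_mono
    nlinarith
  have hU := Ub_pos k
  have hUe := Ub_pos e
  rw [← mul_div_assoc, div_le_iff₀ hUe]
  calc (2 : ℝ) ^ (kap0 / 8 * ((e : ℝ) - k)) * Ub k ≤ (2 : ℝ) ^ (kap0 * ((e : ℝ) - k)) * Ub k := by gcongr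
    _ ≤ 2 * Ub e := by linarith

/-- the sum over the ends of the second gain -/
lemma S2T (hδ : 0 < δ) : ∃ K : ℝ, 1 ≤ K ∧ ∀ k e : ℕ, k ≤ e →
    ∑ b2 ∈ range (k + 1), ∑ a2 ∈ Icc b2 (k + 1), (2 : ℝ) ^ (kap0 / 4 * ((k : ℝ) + 1 - a2)) * (Ub a2 / Ub e) *
      (2 : ℝ) ^ (kap0 / 8 * ((e - a2 : ℕ) : ℝ)) * (2 : ℝ) ^ (-(δ / 2 * ((min a2 e - b2 : ℕ) : ℝ))) ≤ K := by
  have hk := kap0_pos
  obtain ⟨K1, hK1, h1⟩ := geo_Ub (η := kap0 / 4 + kap0 / 8) (by linarith)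
  obtain ⟨K2, hK2, h2⟩ := geo_low (c := δ / 2) (by linarith)
  refine ⟨4 * K1 * K2, by nlinarith, fun k e hke => ?_⟩
  have hke' : (k : ℝ) ≤ e := by exact_mod_cast hke
  have hUk := Ub_pos k
  have hUe := Ub_pos e
  rw [Finset.sum_comm' (s' := fun a2 => range (min a2 k + 1)) (t' := range (k + 2)) (by
    intro x y
    simp only [Finset.mem_range, Finset.mem_Icc]
    omega)]
  calc ∑ a2 ∈ range (k + 2), ∑ b2 ∈ range (min a2 k + 1), (2 : ℝ) ^ (kap0 / 4 * ((k : ℝ) + 1 - a2)) * (Ub a2 / Ub e) *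
      (2 : ℝ) ^ (kap0 / 8 * ((e - a2 : ℕ) : ℝ)) * (2 : ℝ) ^ (-(δ / 2 * ((min a2 e - b2 : ℕ) : ℝ)))
      = ∑ a2 ∈ range (k + 2), (2 : ℝ) ^ (kap0 / 4 * ((k : ℝ) + 1 - a2)) * (Ub a2 / Ub e) *
      (2 : ℝ) ^ (kap0 / 8 * ((e - a2 : ℕ) : ℝ)) * ∑ b2 ∈ range (min a2 k + 1),
        (2 : ℝ) ^ (-(δ / 2 * ((min a2 e - b2 : ℕ) : ℝ))) := by
        refine Finset.sum_congr rfl fun a2 _ => ?_
        rw [Finset.mul_sum]
    _ ≤ ∑ a2 ∈ range (k + 2), ((2 : ℝ) ^ ((kap0 / 4 + kap0 / 8) * (((k + 1 : ℕ) : ℝ) - a2)) * Ub a2) *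
          ((2 : ℝ) ^ (kap0 / 8 * ((e : ℝ) - k)) * (K2 / Ub e)) := by
        refine Finset.sum_le_sum fun a2 ha2 => ?_
        rw [Finset.mem_range] at ha2
        have e1 : (2 : ℝ) ^ (kap0 / 4 * ((k : ℝ) + 1 - a2)) * (2 : ℝ) ^ (kap0 / 8 * ((e - a2 : ℕ) : ℝ)) ≤
            (2 : ℝ) ^ ((kap0 / 4 + kap0 / 8) * (((k + 1 : ℕ) : ℝ) - a2)) * (2 : ℝ) ^ (kap0 / 8 * ((e : ℝ) - k)) := by
          rw [← Real.rpow_add two_pos, ← Real.rpow_add two_pos]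
          apply p_mono
          have h3 : ((e - a2 : ℕ) : ℝ) ≤ ((k : ℝ) + 1 - a2) + ((e : ℝ) - k) := by
            rcases Nat.lt_or_ge e a2 with h4 | h4
            · rw [Nat.sub_eq_zero_of_le h4.le]
              have : (a2 : ℝ) ≤ (k : ℝ) + 1 := by exact_mod_cast (show a2 ≤ k + 1 by omega)
              push_cast
              linarith
            · rw [Nat.cast_sub h4]
              linarith
          push_cast
          nlinarith
        have hUa := Ub_pos a2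
        have e2 : ∑ b2 ∈ range (min a2 k + 1), (2 : ℝ) ^ (-(δ / 2 * ((min a2 e - b2 : ℕ) : ℝ))) ≤ K2 := by
          refine le_trans (Finset.sum_le_sum fun b2 hb2 => ?_) (h2 (min a2 k))
          apply p_mono
          have h3 : ((min a2 k - b2 : ℕ) : ℝ) ≤ ((min a2 e - b2 : ℕ) : ℝ) := by
            exact_mod_cast (show min a2 k - b2 ≤ min a2 e - b2 by omega)
          nlinarith
        have e3 : 0 ≤ ∑ b2 ∈ range (min a2 k + 1), (2 : ℝ) ^ (-(δ / 2 * ((min a2 e - b2 : ℕ) : ℝ))) :=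
          Finset.sum_nonneg fun b2 _ => (p_pos _).le
        calc (2 : ℝ) ^ (kap0 / 4 * ((k : ℝ) + 1 - a2)) * (Ub a2 / Ub e) *
              (2 : ℝ) ^ (kap0 / 8 * ((e - a2 : ℕ) : ℝ)) * ∑ b2 ∈ range (min a2 k + 1),
                (2 : ℝ) ^ (-(δ / 2 * ((min a2 e - b2 : ℕ) : ℝ)))
            = ((2 : ℝ) ^ (kap0 / 4 * ((k : ℝ) + 1 - a2)) * (2 : ℝ) ^ (kap0 / 8 * ((e - a2 : ℕ) : ℝ))) *
                (Ub a2 / Ub e) * ∑ b2 ∈ range (min a2 k + 1),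
                (2 : ℝ) ^ (-(δ / 2 * ((min a2 e - b2 : ℕ) : ℝ))) := by ring
          _ ≤ ((2 : ℝ) ^ ((kap0 / 4 + kap0 / 8) * (((k + 1 : ℕ) : ℝ) - a2)) * (2 : ℝ) ^ (kap0 / 8 * ((e : ℝ) - k))) *
                (Ub a2 / Ub e) * K2 := by gcongr
          _ = _ := by ring
    _ = (∑ a2 ∈ range (k + 1 + 1), ((2 : ℝ) ^ ((kap0 / 4 + kap0 / 8) * (((k + 1 : ℕ) : ℝ) - a2)) * Ub a2)) *
          ((2 : ℝ) ^ (kap0 / 8 * ((e : ℝ) - k)) * (K2 / Ub e)) := by rw [Finset.sum_mul]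
    _ ≤ (K1 * Ub (k + 1)) * ((2 : ℝ) ^ (kap0 / 8 * ((e : ℝ) - k)) * (K2 / Ub e)) := by
        gcongr
        exact h1 (k + 1)
    _ ≤ (K1 * (2 * Ub k)) * ((2 : ℝ) ^ (kap0 / 8 * ((e : ℝ) - k)) * (K2 / Ub e)) := by
        gcongr
        exact Ub_succ k
    _ = 2 * K1 * K2 * ((2 : ℝ) ^ (kap0 / 8 * ((e : ℝ) - k)) * (Ub k / Ub e)) := by ring
    _ ≤ 2 * K1 * K2 * 2 := by
        gcongr
        exact ratio hke
    _ = 4 * K1 * K2 := by ring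

/-- expansion of the far weight -/
lemma exp_Sw (D1 k1 b2 e : ℕ) (F : List Bool → ℝ≥0∞) :
    (∑' r : ℕ, (if 2 ^ e < r then sw (Irr r) (fun P => F P * Sw D1 k1 b2 P) else 0)) =
      ENNReal.ofReal ((2 : ℝ) ^ (kap0 / 4 * ((k1 : ℝ) - b2)) * Ub b2) *
        (∑' r : ℕ, (if 2 ^ e < r then sw (Irr r) F else 0)) +
      ∑ a2 ∈ Icc b2 (k1 + 1), ENNReal.ofReal ((2 : ℝ) ^ (kap0 / 4 * ((k1 : ℝ) + 1 - a2))) *
        (∑' r : ℕ, (if 2 ^ e < r then sw (Irr r) (fun P => F P * EE D1 b2 a2 (rev P)) else 0)) := by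
  have e1 : ∀ r : ℕ, (if 2 ^ e < r then sw (Irr r) (fun P => F P * Sw D1 k1 b2 P) else 0) =
      ENNReal.ofReal ((2 : ℝ) ^ (kap0 / 4 * ((k1 : ℝ) - b2)) * Ub b2) * (if 2 ^ e < r then sw (Irr r) F else 0) +
      ∑ a2 ∈ Icc b2 (k1 + 1), ENNReal.ofReal ((2 : ℝ) ^ (kap0 / 4 * ((k1 : ℝ) + 1 - a2))) *
        (if 2 ^ e < r then sw (Irr r) (fun P => F P * EE D1 b2 a2 (rev P)) else 0) := by
    intro r
    by_cases hr : 2 ^ e < r
    · simp only [if_pos hr]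
      rw [← Rec8.sw_mul_left]
      simp only [← Rec8.sw_mul_left]
      rw [← Rec8.sw_sum, ← Rec8.sw_add]
      refine Rec8.sw_congr fun P _ => ?_
      unfold Sw
      rw [mul_add, Finset.mul_sum]
      congr 1
      · ring
      · refine Finset.sum_congr rfl fun a2 _ => ?_
        ring
    · simp [hr]
  rw [tsum_congr e1, ENNReal.tsum_add, ENNReal.tsum_mul_left, Summable.tsum_finsetSum (fun _ _ => ENNReal.summable)]
  congr 1
  exact Finset.sum_congr rfl fun a2 _ => ENNReal.tsum_mul_left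

/-- the first part of the far weight -/
lemma far1 : ∃ K : ℝ, 1 ≤ K ∧ ∀ k1 : ℕ,
    ∑ b2 ∈ range (k1 + 1), ENNReal.ofReal ((2 : ℝ) ^ (kap0 / 4 * ((k1 : ℝ) - b2)) * Ub b2) ≤
      ENNReal.ofReal (K * Ub k1) := by
  have hk := kap0_pos
  obtain ⟨K, hK, h⟩ := geo_Ub (η := kap0 / 4) (by linarith)
  refine ⟨K, hK, fun k1 => ?_⟩
  rw [← ENNReal.ofReal_sum_of_nonneg (fun b2 _ => mul_nonneg (p_pos _).le (Ub_pos b2).le)]
  exact ENNReal.ofReal_le_ofReal (h k1)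

/-- the giants of the far scale -/
lemma far (h : Inp C δ) : ∃ K : ℝ, 1 ≤ K ∧ ∀ D1 k1 e : ℕ, 2 ^ (k1 + 4) ≤ D1 → k1 ≤ e →
    ∑ b2 ∈ range (k1 + 1), (∑' r : ℕ, (if 2 ^ e < r then sw (Irr r) (fun P => (fun _ => 1) P * Sw D1 k1 b2 P) else 0)) ≤
      ENNReal.ofReal K := by
  have hk := kap0_pos
  have hδ := h.pos
  obtain ⟨K1, hK1, h1⟩ := far1
  obtain ⟨K2, hK2, h2⟩ := giants
  obtain ⟨K3, hK3, h3⟩ := giant1 h
  obtain ⟨K4, hK4, h4⟩ := S2T h.pos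
  refine ⟨K1 * K2 + K3 * K4, by nlinarith [mul_nonneg (by linarith : (0:ℝ) ≤ K3) (by linarith : (0:ℝ) ≤ K4)],
    fun D1 k1 e hD hke => ?_⟩
  have hUe := Ub_pos e
  have hUk := Ub_pos k1
  simp only [exp_Sw]
  rw [Finset.sum_add_distrib, ← Finset.sum_mul, ENNReal.ofReal_add (by positivity) (by positivity)]
  refine add_le_add ?_ ?_
  · have e1 : (∑' r : ℕ, (if 2 ^ e < r then sw (Irr r) (fun _ => 1) else 0)) ≤ ENNReal.ofReal (K2 / Ub e) := by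
      have h5 := h2 (e + 1)
      rw [Nat.add_sub_cancel] at h5
      have e2 : (∑' r : ℕ, (if 2 ^ e < r then sw (Irr r) (fun _ => 1) else 0)) =
          ∑' r : ℕ, (if 2 ^ e < r then kap' r else 0) := by
        refine tsum_congr fun r => ?_
        rw [Rec8.sw_one]
        rfl
      rw [e2]
      refine h5.trans (ENNReal.ofReal_le_ofReal ?_)
      have h6 : Ub e ≤ Ub (e + 1) := Ub_mono (Nat.le_succ e)
      gcongr
    refine (mul_le_mul' (h1 k1) e1).trans ?_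
    rw [← ENNReal.ofReal_mul (by positivity)]
    apply ENNReal.ofReal_le_ofReal
    have h6 : Ub k1 / Ub e ≤ 1 := (div_le_one hUe).2 (Ub_mono hke)
    calc K1 * Ub k1 * (K2 / Ub e) = K1 * K2 * (Ub k1 / Ub e) := by ring
      _ ≤ K1 * K2 * 1 := by gcongr
      _ = K1 * K2 := mul_one _
  · calc ∑ b2 ∈ range (k1 + 1), ∑ a2 ∈ Icc b2 (k1 + 1), ENNReal.ofReal ((2 : ℝ) ^ (kap0 / 4 * ((k1 : ℝ) + 1 - a2))) *
          (∑' r : ℕ, (if 2 ^ e < r then sw (Irr r) (fun P => (fun _ => (1 : ℝ≥0∞)) P * EE D1 b2 a2 (rev P)) else 0))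
        ≤ ∑ b2 ∈ range (k1 + 1), ∑ a2 ∈ Icc b2 (k1 + 1), ENNReal.ofReal (K3 * ((2 : ℝ) ^ (kap0 / 4 * ((k1 : ℝ) + 1 - a2)) *
          (Ub a2 / Ub e) * (2 : ℝ) ^ (kap0 / 8 * ((e - a2 : ℕ) : ℝ)) *
            (2 : ℝ) ^ (-(δ / 2 * ((min a2 e - b2 : ℕ) : ℝ))))) := by
          refine Finset.sum_le_sum fun b2 hb2 => Finset.sum_le_sum fun a2 ha2 => ?_
          rw [Finset.mem_range] at hb2
          rw [Finset.mem_Icc] at ha2
          have hD2 : 2 ^ (a2 + 3) ≤ D1 := (Nat.pow_le_pow_right (by norm_num) (by omega)).trans hD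
          have h5 := (h3 D1 e a2 b2 ha2.1 hD2).2
          have e2 : (fun P => (fun _ => (1 : ℝ≥0∞)) P * EE D1 b2 a2 (rev P)) = fun P => EE D1 b2 a2 (rev P) := by
            funext P
            simp
          rw [e2]
          refine (mul_le_mul' le_rfl h5).trans ?_
          rw [← ENNReal.ofReal_mul (p_pos _).le]
          apply ENNReal.ofReal_le_ofReal
          unfold TT
          have hUa := Ub_pos a2
          have e3 : (2 : ℝ) ^ (-(δ * ((min a2 e - b2 : ℕ) : ℝ))) ≤ (2 : ℝ) ^ (-(δ / 2 * ((min a2 e - b2 : ℕ) : ℝ))) := by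
            apply p_mono
            have : (0 : ℝ) ≤ ((min a2 e - b2 : ℕ) : ℝ) := Nat.cast_nonneg _
            nlinarith
          have q1 := p_pos (kap0 / 4 * ((k1 : ℝ) + 1 - a2))
          have q2 := p_pos (kap0 / 8 * ((e - a2 : ℕ) : ℝ))
          calc (2 : ℝ) ^ (kap0 / 4 * ((k1 : ℝ) + 1 - a2)) * (K3 * (Ub a2 / Ub e *
                (2 : ℝ) ^ (kap0 / 8 * ((e - a2 : ℕ) : ℝ)) * (2 : ℝ) ^ (-(δ * ((min a2 e - b2 : ℕ) : ℝ))))) ≤
              (2 : ℝ) ^ (kap0 / 4 * ((k1 : ℝ) + 1 - a2)) * (K3 * (Ub a2 / Ub e *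
                (2 : ℝ) ^ (kap0 / 8 * ((e - a2 : ℕ) : ℝ)) * (2 : ℝ) ^ (-(δ / 2 * ((min a2 e - b2 : ℕ) : ℝ))))) := by
                gcongr
            _ = _ := by ring
      _ = ENNReal.ofReal (K3 * ∑ b2 ∈ range (k1 + 1), ∑ a2 ∈ Icc b2 (k1 + 1), ((2 : ℝ) ^ (kap0 / 4 * ((k1 : ℝ) + 1 - a2)) *
          (Ub a2 / Ub e) * (2 : ℝ) ^ (kap0 / 8 * ((e - a2 : ℕ) : ℝ)) *
            (2 : ℝ) ^ (-(δ / 2 * ((min a2 e - b2 : ℕ) : ℝ))))) := by
          have hnn : ∀ b2 a2 : ℕ, 0 ≤ K3 * ((2 : ℝ) ^ (kap0 / 4 * ((k1 : ℝ) + 1 - a2)) *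
            (Ub a2 / Ub e) * (2 : ℝ) ^ (kap0 / 8 * ((e - a2 : ℕ) : ℝ)) *
            (2 : ℝ) ^ (-(δ / 2 * ((min a2 e - b2 : ℕ) : ℝ)))) := by
            intro b2 a2
            have hUa := Ub_pos a2
            positivity
          rw [Finset.mul_sum, ENNReal.ofReal_sum_of_nonneg]
          · refine Finset.sum_congr rfl fun b2 _ => ?_
            rw [Finset.mul_sum, ENNReal.ofReal_sum_of_nonneg]
            exact fun a2 _ => hnn b2 a2
          · intro b2 _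
            rw [Finset.mul_sum]
            exact Finset.sum_nonneg fun a2 _ => hnn b2 a2
      _ ≤ _ := by
          apply ENNReal.ofReal_le_ofReal
          gcongr
          exact h4 k1 e hke

/-- one value a ≤ b: the giant P is used at both ends -/
lemma lo (h : Inp C δ) : ∃ K : ℝ, 1 ≤ K ∧ ∀ D0 k0 D1 k1 e b a : ℕ, 2 ^ (k0 + 4) ≤ D0 → 2 ^ (k1 + 4) ≤ D1 → k0 ≤ e →
    k1 ≤ e → b ≤ k0 → a ≤ b →
    ∑ b2 ∈ range (k1 + 1), (∑' r : ℕ, (if 2 ^ e < r then sw (Irr r) (fun P => EE D0 a b P * Sw D1 k1 b2 P) else 0)) ≤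
      ENNReal.ofReal (K * (Ub b * (2 : ℝ) ^ (kap0 / 8 * ((e : ℝ) - b)) * (2 : ℝ) ^ (-(δ / 2 * ((b - a : ℕ) : ℝ))))) := by
  have hk := kap0_pos
  have hδ := h.pos
  obtain ⟨K1, hK1, h1⟩ := far1
  obtain ⟨K3, hK3, h3⟩ := giant1 h
  obtain ⟨K2, hK2, h2⟩ := giant2 h
  obtain ⟨K4, hK4, h4⟩ := S2T h.pos
  refine ⟨K1 * K3 + K2 * K4, by nlinarith [mul_nonneg (by linarith : (0:ℝ) ≤ K2) (by linarith : (0:ℝ) ≤ K4)],
    fun D0 k0 D1 k1 e b a hD0 hD1 hk0 hk1 hb ha => ?_⟩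
  have hUe := Ub_pos e
  have hUk := Ub_pos k1
  have hUb := Ub_pos b
  have hbe : b ≤ e := hb.trans hk0
  have hbe' : (b : ℝ) ≤ e := by exact_mod_cast hbe
  have hDb : 2 ^ (b + 3) ≤ D0 := (Nat.pow_le_pow_right (by norm_num) (by omega)).trans hD0
  have hP := p_pos (kap0 / 8 * ((e : ℝ) - b))
  have hQ := p_pos (-(δ / 2 * ((b - a : ℕ) : ℝ)))
  simp only [exp_Sw]
  rw [Finset.sum_add_distrib, ← Finset.sum_mul, add_mul, ENNReal.ofReal_add (by positivity) (by positivity)]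
  refine add_le_add ?_ ?_
  · refine (mul_le_mul' (h1 k1) (h3 D0 e b a ha hDb).1).trans ?_
    rw [← ENNReal.ofReal_mul (by positivity)]
    apply ENNReal.ofReal_le_ofReal
    unfold TT
    rw [min_eq_left hbe, Nat.cast_sub hbe]
    have h6 : Ub k1 / Ub e ≤ 1 := (div_le_one hUe).2 (Ub_mono hk1)
    have e3 : (2 : ℝ) ^ (-(δ * ((b - a : ℕ) : ℝ))) ≤ (2 : ℝ) ^ (-(δ / 2 * ((b - a : ℕ) : ℝ))) := by
      apply p_mono
      have : (0 : ℝ) ≤ ((b - a : ℕ) : ℝ) := Nat.cast_nonneg _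
      nlinarith
    calc K1 * Ub k1 * (K3 * (Ub b / Ub e * (2 : ℝ) ^ (kap0 / 8 * ((e : ℝ) - b)) *
          (2 : ℝ) ^ (-(δ * ((b - a : ℕ) : ℝ))))) ≤
        K1 * Ub k1 * (K3 * (Ub b / Ub e * (2 : ℝ) ^ (kap0 / 8 * ((e : ℝ) - b)) *
          (2 : ℝ) ^ (-(δ / 2 * ((b - a : ℕ) : ℝ))))) := by gcongr
      _ = (K1 * K3 * (Ub b * (2 : ℝ) ^ (kap0 / 8 * ((e : ℝ) - b)) * (2 : ℝ) ^ (-(δ / 2 * ((b - a : ℕ) : ℝ))))) *
          (Ub k1 / Ub e) := by ring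
      _ ≤ (K1 * K3 * (Ub b * (2 : ℝ) ^ (kap0 / 8 * ((e : ℝ) - b)) * (2 : ℝ) ^ (-(δ / 2 * ((b - a : ℕ) : ℝ))))) * 1 := by
          gcongr
      _ = _ := mul_one _
  · obtain ⟨W, hW⟩ : ∃ W, W = Ub b * (2 : ℝ) ^ (kap0 / 8 * ((e : ℝ) - b)) * (2 : ℝ) ^ (-(δ / 2 * ((b - a : ℕ) : ℝ))) :=
      ⟨_, rfl⟩
    have hW0 : 0 < W := by
      rw [hW]
      positivity
    rw [← hW]
    calc ∑ b2 ∈ range (k1 + 1), ∑ a2 ∈ Icc b2 (k1 + 1), ENNReal.ofReal ((2 : ℝ) ^ (kap0 / 4 * ((k1 : ℝ) + 1 - a2))) *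
          (∑' r : ℕ, (if 2 ^ e < r then sw (Irr r) (fun P => EE D0 a b P * EE D1 b2 a2 (rev P)) else 0))
        ≤ ∑ b2 ∈ range (k1 + 1), ∑ a2 ∈ Icc b2 (k1 + 1), ENNReal.ofReal (K2 * W *
          ((2 : ℝ) ^ (kap0 / 4 * ((k1 : ℝ) + 1 - a2)) *
          (Ub a2 / Ub e) * (2 : ℝ) ^ (kap0 / 8 * ((e - a2 : ℕ) : ℝ)) *
            (2 : ℝ) ^ (-(δ / 2 * ((min a2 e - b2 : ℕ) : ℝ))))) := by
          refine Finset.sum_le_sum fun b2 hb2 => Finset.sum_le_sum fun a2 ha2 => ?_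
          rw [Finset.mem_range] at hb2
          rw [Finset.mem_Icc] at ha2
          have hD2 : 2 ^ (a2 + 3) ≤ D1 := (Nat.pow_le_pow_right (by norm_num) (by omega)).trans hD1
          have h5 := h2 D0 D1 e b a a2 b2 ha ha2.1 hDb hD2
          refine (mul_le_mul' le_rfl h5).trans ?_
          rw [← ENNReal.ofReal_mul (p_pos _).le]
          apply ENNReal.ofReal_le_ofReal
          rw [sqrt_val, min_eq_left hbe, Nat.cast_sub hbe]
          have hUa := Ub_pos a2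
          have q1 := p_pos (kap0 / 4 * ((k1 : ℝ) + 1 - a2))
          have q2 := p_pos (kap0 / 8 * ((e - a2 : ℕ) : ℝ))
          have q3 := p_pos (-(δ / 2 * ((min a2 e - b2 : ℕ) : ℝ)))
          have r1 : (2 : ℝ) ^ (kap0 / 16 * ((e : ℝ) - b)) ≤ (2 : ℝ) ^ (kap0 / 8 * ((e : ℝ) - b)) := by
            apply p_mono
            nlinarith
          have r2 : (2 : ℝ) ^ (kap0 / 16 * ((e - a2 : ℕ) : ℝ)) ≤ (2 : ℝ) ^ (kap0 / 8 * ((e - a2 : ℕ) : ℝ)) := by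
            apply p_mono
            have : (0 : ℝ) ≤ ((e - a2 : ℕ) : ℝ) := Nat.cast_nonneg _
            nlinarith
          rw [hW]
          calc (2 : ℝ) ^ (kap0 / 4 * ((k1 : ℝ) + 1 - a2)) * (K2 * (Ub b * (Ub a2 / Ub e) *
                ((2 : ℝ) ^ (kap0 / 16 * ((e : ℝ) - b)) * (2 : ℝ) ^ (kap0 / 16 * ((e - a2 : ℕ) : ℝ))) *
                ((2 : ℝ) ^ (-(δ / 2 * ((b - a : ℕ) : ℝ))) * (2 : ℝ) ^ (-(δ / 2 * ((min a2 e - b2 : ℕ) : ℝ)))))) ≤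
              (2 : ℝ) ^ (kap0 / 4 * ((k1 : ℝ) + 1 - a2)) * (K2 * (Ub b * (Ub a2 / Ub e) *
                ((2 : ℝ) ^ (kap0 / 8 * ((e : ℝ) - b)) * (2 : ℝ) ^ (kap0 / 8 * ((e - a2 : ℕ) : ℝ))) *
                ((2 : ℝ) ^ (-(δ / 2 * ((b - a : ℕ) : ℝ))) * (2 : ℝ) ^ (-(δ / 2 * ((min a2 e - b2 : ℕ) : ℝ)))))) := by
                gcongr
            _ = _ := by ring
      _ = ENNReal.ofReal (K2 * W * ∑ b2 ∈ range (k1 + 1), ∑ a2 ∈ Icc b2 (k1 + 1),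
          ((2 : ℝ) ^ (kap0 / 4 * ((k1 : ℝ) + 1 - a2)) *
          (Ub a2 / Ub e) * (2 : ℝ) ^ (kap0 / 8 * ((e - a2 : ℕ) : ℝ)) *
            (2 : ℝ) ^ (-(δ / 2 * ((min a2 e - b2 : ℕ) : ℝ))))) := by
          have hnn : ∀ b2 a2 : ℕ, 0 ≤ K2 * W * ((2 : ℝ) ^ (kap0 / 4 * ((k1 : ℝ) + 1 - a2)) *
            (Ub a2 / Ub e) * (2 : ℝ) ^ (kap0 / 8 * ((e - a2 : ℕ) : ℝ)) *
            (2 : ℝ) ^ (-(δ / 2 * ((min a2 e - b2 : ℕ) : ℝ)))) := by
            intro b2 a2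
            have hUa := Ub_pos a2
            positivity
          rw [Finset.mul_sum, ENNReal.ofReal_sum_of_nonneg]
          · refine Finset.sum_congr rfl fun b2 _ => ?_
            rw [Finset.mul_sum, ENNReal.ofReal_sum_of_nonneg]
            exact fun a2 _ => hnn b2 a2
          · intro b2 _
            rw [Finset.mul_sum]
            exact Finset.sum_nonneg fun a2 _ => hnn b2 a2
      _ ≤ ENNReal.ofReal (K2 * W * K4) := by
          apply ENNReal.ofReal_le_ofReal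
          gcongr
          exact h4 k1 e hk1
      _ = _ := by
          congr 1
          ring

end TK

open TK in
/-- B1: the giants of two scales -/
theorem k3T {C δ : ℝ} (h : Inp C δ) : ∃ K : ℝ, 1 ≤ K ∧ ∀ (D0 k0 D1 k1 e b : ℕ) (I : List Bool), 2 ^ (k0 + 4) ≤ D0 →
    2 ^ (k1 + 4) ≤ D1 → k0 ≤ e → k1 ≤ e → b ≤ k0 →
    ∑ a ∈ range (k0 + 2), ∑ b2 ∈ range (k1 + 1), ∑' r : ℕ, (if 2 ^ e < r then
      sw (Irr r) (fun P => KT D0 b I a P * Sw D1 k1 b2 P) else 0) ≤ ENNReal.ofReal (K * (Ub e / Ub k0)) * Sw D0 k0 b I := by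
  have hk := kap0_pos
  have hδ := h.pos
  obtain ⟨K1, hK1, h1⟩ := far h
  obtain ⟨K2, hK2, h2⟩ := lo h
  obtain ⟨K3, hK3, h3⟩ := geo_low (c := δ / 2) (by linarith)
  refine ⟨2 * K2 * K3 + K1, by nlinarith, fun D0 k0 D1 k1 e b I hD0 hD1 hk0 hk1 hb => ?_⟩
  have hUe := Ub_pos e
  have hUk := Ub_pos k0
  have hUb := Ub_pos b
  have hbk' : (b : ℝ) ≤ k0 := by exact_mod_cast hb
  have hke' : (k0 : ℝ) ≤ e := by exact_mod_cast hk0
  have hR : 1 ≤ Ub e / Ub k0 := (one_le_div hUk).2 (Ub_mono hk0)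
  have hsplit : range (k0 + 2) = range (b + 1) ∪ Icc (b + 1) (k0 + 1) := by
    ext a
    simp only [Finset.mem_union, Finset.mem_range, Finset.mem_Icc]
    omega
  have hdisj : Disjoint (range (b + 1)) (Icc (b + 1) (k0 + 1)) := by
    rw [Finset.disjoint_left]
    intro a ha ha'
    rw [Finset.mem_range] at ha
    rw [Finset.mem_Icc] at ha'
    omega
  rw [hsplit, Finset.sum_union hdisj]
  have e1 : ∑ a ∈ range (b + 1), ∑ b2 ∈ range (k1 + 1), ∑' r : ℕ, (if 2 ^ e < r then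
      sw (Irr r) (fun P => KT D0 b I a P * Sw D1 k1 b2 P) else 0) ≤
      ENNReal.ofReal (2 * K2 * K3 * (Ub e / Ub k0)) * ENNReal.ofReal ((2 : ℝ) ^ (kap0 / 4 * ((k0 : ℝ) - b)) * Ub b) := by
    calc ∑ a ∈ range (b + 1), ∑ b2 ∈ range (k1 + 1), ∑' r : ℕ, (if 2 ^ e < r then
          sw (Irr r) (fun P => KT D0 b I a P * Sw D1 k1 b2 P) else 0)
        ≤ ∑ a ∈ range (b + 1), ENNReal.ofReal (K2 * (Ub b * (2 : ℝ) ^ (kap0 / 8 * ((e : ℝ) - b)) *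
            (2 : ℝ) ^ (-(δ / 2 * ((b - a : ℕ) : ℝ))))) := by
          refine Finset.sum_le_sum fun a ha => ?_
          rw [Finset.mem_range] at ha
          refine le_trans (Finset.sum_le_sum fun b2 _ => ENNReal.tsum_le_tsum fun r => ?_)
            (h2 D0 k0 D1 k1 e b a hD0 hD1 hk0 hk1 hb (by omega))
          split_ifs
          · exact Rec8.sw_mono' fun P _ => mul_le_mul' (KT_le_right D0 b I a P) le_rfl
          · exact le_rfl
      _ = ENNReal.ofReal (∑ a ∈ range (b + 1), K2 * (Ub b * (2 : ℝ) ^ (kap0 / 8 * ((e : ℝ) - b)) *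
            (2 : ℝ) ^ (-(δ / 2 * ((b - a : ℕ) : ℝ))))) := by
          rw [ENNReal.ofReal_sum_of_nonneg]
          intro a _
          positivity
      _ ≤ _ := by
          rw [← ENNReal.ofReal_mul (by positivity)]
          apply ENNReal.ofReal_le_ofReal
          have g1 := h3 b
          have g2 : (2 : ℝ) ^ (kap0 / 8 * ((e : ℝ) - b)) ≤
              2 * (Ub e / Ub k0) * (2 : ℝ) ^ (kap0 / 4 * ((k0 : ℝ) - b)) := by
            have g3 : (2 : ℝ) ^ (kap0 / 8 * ((e : ℝ) - b)) =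
                (2 : ℝ) ^ (kap0 / 8 * ((e : ℝ) - k0)) * (2 : ℝ) ^ (kap0 / 8 * ((k0 : ℝ) - b)) := by
              rw [← Real.rpow_add two_pos]
              congr 1
              ring
            have g4 : (2 : ℝ) ^ (kap0 / 8 * ((e : ℝ) - k0)) ≤ 2 * (Ub e / Ub k0) := by
              have g5 := ratio hk0
              have g6 : (2 : ℝ) ^ (kap0 / 8 * ((e : ℝ) - k0)) =
                  ((2 : ℝ) ^ (kap0 / 8 * ((e : ℝ) - k0)) * (Ub k0 / Ub e)) * (Ub e / Ub k0) := by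
                field_simp
              rw [g6]
              exact mul_le_mul_of_nonneg_right g5 (by positivity)
            have g7 : (2 : ℝ) ^ (kap0 / 8 * ((k0 : ℝ) - b)) ≤ (2 : ℝ) ^ (kap0 / 4 * ((k0 : ℝ) - b)) := by
              apply p_mono
              nlinarith
            rw [g3]
            exact mul_le_mul g4 g7 (p_pos _).le (by positivity)
          have g8 : ∑ a ∈ range (b + 1), K2 * (Ub b * (2 : ℝ) ^ (kap0 / 8 * ((e : ℝ) - b)) *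
            (2 : ℝ) ^ (-(δ / 2 * ((b - a : ℕ) : ℝ)))) = K2 * (Ub b * (2 : ℝ) ^ (kap0 / 8 * ((e : ℝ) - b)) *
            ∑ a ∈ range (b + 1), (2 : ℝ) ^ (-(δ / 2 * ((b - a : ℕ) : ℝ)))) := by
            rw [Finset.mul_sum, Finset.mul_sum]
          rw [g8]
          calc K2 * (Ub b * (2 : ℝ) ^ (kap0 / 8 * ((e : ℝ) - b)) *
                ∑ a ∈ range (b + 1), (2 : ℝ) ^ (-(δ / 2 * ((b - a : ℕ) : ℝ)))) ≤
              K2 * (Ub b * (2 * (Ub e / Ub k0) * (2 : ℝ) ^ (kap0 / 4 * ((k0 : ℝ) - b))) * K3) := by gcongr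
            _ = _ := by ring
  have e2 : ∑ a ∈ Icc (b + 1) (k0 + 1), ∑ b2 ∈ range (k1 + 1), ∑' r : ℕ, (if 2 ^ e < r then
      sw (Irr r) (fun P => KT D0 b I a P * Sw D1 k1 b2 P) else 0) ≤
      ENNReal.ofReal (K1 * (Ub e / Ub k0)) *
        ∑ a ∈ Icc b (k0 + 1), ENNReal.ofReal ((2 : ℝ) ^ (kap0 / 4 * ((k0 : ℝ) + 1 - a))) * EE D0 b a (rev I) := by
    calc ∑ a ∈ Icc (b + 1) (k0 + 1), ∑ b2 ∈ range (k1 + 1), ∑' r : ℕ, (if 2 ^ e < r then
          sw (Irr r) (fun P => KT D0 b I a P * Sw D1 k1 b2 P) else 0)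
        ≤ ∑ a ∈ Icc (b + 1) (k0 + 1), ENNReal.ofReal K1 *
          (ENNReal.ofReal ((2 : ℝ) ^ (kap0 / 4 * ((k0 : ℝ) + 1 - a))) * EE D0 b a (rev I)) := by
          refine Finset.sum_le_sum fun a ha => ?_
          rw [Finset.mem_Icc] at ha
          have f1 : ∑ b2 ∈ range (k1 + 1), ∑' r : ℕ, (if 2 ^ e < r then
              sw (Irr r) (fun P => KT D0 b I a P * Sw D1 k1 b2 P) else 0) ≤
              EE D0 b a (rev I) * ∑ b2 ∈ range (k1 + 1), (∑' r : ℕ, (if 2 ^ e < r then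
                sw (Irr r) (fun P => (fun _ => 1) P * Sw D1 k1 b2 P) else 0)) := by
            rw [Finset.mul_sum]
            refine Finset.sum_le_sum fun b2 _ => ?_
            rw [← ENNReal.tsum_mul_left]
            refine ENNReal.tsum_le_tsum fun r => ?_
            split_ifs
            · rw [← Rec8.sw_mul_left]
              refine Rec8.sw_mono' fun P _ => ?_
              rw [one_mul]
              exact mul_le_mul' (KT_le_left D0 b I a P) le_rfl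
            · rw [mul_zero]
          refine f1.trans ((mul_le_mul' le_rfl (h1 D1 k1 e hD1 hk1)).trans ?_)
          rw [mul_comm]
          refine mul_le_mul' le_rfl ?_
          have : (1 : ℝ≥0∞) ≤ ENNReal.ofReal ((2 : ℝ) ^ (kap0 / 4 * ((k0 : ℝ) + 1 - a))) := by
            rw [ENNReal.one_le_ofReal]
            apply p_one
            have : (a : ℝ) ≤ (k0 : ℝ) + 1 := by exact_mod_cast ha.2
            have : 0 ≤ kap0 / 4 := by linarith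
            apply mul_nonneg this
            linarith
          calc EE D0 b a (rev I) = 1 * EE D0 b a (rev I) := (one_mul _).symm
            _ ≤ _ := mul_le_mul' this le_rfl
      _ = ENNReal.ofReal K1 * ∑ a ∈ Icc (b + 1) (k0 + 1),
          (ENNReal.ofReal ((2 : ℝ) ^ (kap0 / 4 * ((k0 : ℝ) + 1 - a))) * EE D0 b a (rev I)) := by
          rw [Finset.mul_sum]
      _ ≤ _ := by
          refine mul_le_mul' (ENNReal.ofReal_le_ofReal (le_mul_of_one_le_right (by linarith) hR)) ?_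
          apply Finset.sum_le_sum_of_subset
          apply Finset.Icc_subset_Icc_left
          omega
  refine (add_le_add e1 e2).trans ?_
  unfold Sw
  rw [add_mul (2 * K2 * K3), ENNReal.ofReal_add (by positivity) (by positivity), add_mul]
  refine add_le_add ?_ ?_
  · exact mul_le_mul' le_rfl le_self_add
  · exact mul_le_mul' le_rfl le_add_self

end SDN

end HexObs
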