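import Pool.Agent.SDN.DimDefs
import Pool.Agent.TightD.Main

/-!
SDN, limit version, module M4: mass and decoding of the tube words.
-/

set_option autoImplicit false

namespace HexObs

namespace SDN

open Finset TS

open scoped ENNReal

open Rec8 (sw)

lemma GG_BU {K S : ℕ} {g : List Bool} (h : g ∈ GG K S) : g ∈ BU := by
  obtain ⟨j, _, _, h3, _⟩ := h
  exact ⟨j, h3.1⟩

lemma VV_BU {K S : ℕ} : ∀ {q : ℕ} {v : List Bool}, v ∈ VV K S q → v ∈ BU
  | 0, v, h => by
    have : v = [] := h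
    rw [this]
    exact ⟨0, nil_mem_Brd⟩
  | q + 1, v, h => by
    obtain ⟨x, hx, y, hy, rfl⟩ := h
    exact TD.BU_append (GG_BU hx) (VV_BU hy)

lemma BU_rev {t : List Bool} (h : t ∈ BU) : rev t ∈ BU := by
  obtain ⟨n, hn⟩ := h
  exact ⟨n, Brd_rev hn⟩

lemma rev_BU {t : List Bool} (h : rev t ∈ BU) : t ∈ BU := by
  rw [← rev_rev t]
  exact BU_rev h

/-- first cut words in front of bridges are a prefix code -/
lemma fc_fst {S j j' : ℕ} {x x' y y' : List Bool} (hx : x ∈ FC S j) (hx' : x' ∈ FC S j') (hy : y ∈ BU) (hy' : y' ∈ BU)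
    (h : x ++ y = x' ++ y') : x = x' := by
  have key : ∀ {j j' : ℕ} {x x' y y' d : List Bool}, x ∈ FC S j → x' ∈ FC S j' → y ∈ BU → x' = x ++ d → y = d ++ y' →
      d = [] := by
    intro j j' x x' y y' d hx hx' hy e1 e2
    obtain ⟨m, hm⟩ := hy
    have hx2 := hx'.1
    rw [e1] at hx2
    have h6 := (Brd_cancel hx.1 hx2 (by
      intro i i1 i2
      rw [lev_cat (mem_Brd.1 hx.1).2.2.1, (mem_Brd.1 hx.1).2.2.2]
      have := ((mem_Brd.1 hm).1 i i1 (by rw [e2, List.length_append]; omega)).1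
      rw [e2, lev_append (by omega)] at this
      omega)).2
    obtain ⟨c, hc⟩ : ∃ c, c = j' - j := ⟨_, rfl⟩
    rw [← hc] at h6
    have h8 : j' = j + c := by
      have h9 := Brd_append hx.1 h6
      rw [← e1] at h9
      exact Brd_height hx'.1 h9
    by_contra hne
    have hc0 : 1 ≤ c := by
      by_contra h0
      have : c = 0 := by omega
      rw [this, Brd_zero] at h6
      exact hne h6
    exact hx'.2.2 j hx.2.1 (by omega) ⟨x, d, c, hx.1, h6, e1⟩
  rcases List.append_eq_append_iff.1 h with ⟨d, e1, e2⟩ | ⟨d, e1, e2⟩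
  · have := key hx hx' hy e1 e2
    subst this
    simp only [List.append_nil] at e1
    exact e1.symm
  · have := key hx' hx hy' e1 e2
    subst this
    simp only [List.append_nil] at e1
    exact e1

/-- the first tube is determined -/
lemma vv_fst {K S : ℕ} : ∀ {q : ℕ} {v v' y y' : List Bool}, v ∈ VV K S q → v' ∈ VV K S q → y ∈ BU → y' ∈ BU →
    v ++ y = v' ++ y' → v = v'
  | 0, v, v', y, y', hv, hv', _, _, _ => by
    have h1 : v = [] := hv
    have h2 : v' = [] := hv'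
    rw [h1, h2]
  | q + 1, v, v', y, y', hv, hv', hy, hy', h => by
    obtain ⟨x, hx, u, hu, rfl⟩ := hv
    obtain ⟨x', hx', u', hu', rfl⟩ := hv'
    rw [List.append_assoc, List.append_assoc] at h
    have hx1 := hx
    have hx1' := hx'
    obtain ⟨j, _, _, a3, _⟩ := hx
    obtain ⟨j', _, _, b3, _⟩ := hx'
    have e1 := fc_fst a3 b3 (TD.BU_append (VV_BU hu) hy) (TD.BU_append (VV_BU hu') hy') h
    subst e1
    have e2 := List.append_cancel_left h
    rw [vv_fst hu hu' hy hy' e2]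

lemma GG_CB {K S : ℕ} {g : List Bool} (h : g ∈ GG K S) : rev g ∈ TD.CB K S := by
  obtain ⟨j, h1, h2, h3, h4, h5⟩ := h
  exact ⟨j, g, h1, h2, h3, h4, h5, rfl⟩

/-- the part in front of the second tube is determined -/
lemma vv_snd {K S : ℕ} : ∀ {q : ℕ} {v v' t t' : List Bool}, v ∈ VV K S q → v' ∈ VV K S q → t ∈ BU → t' ∈ BU →
    t ++ rev v = t' ++ rev v' → t = t'
  | 0, v, v', t, t', hv, hv', _, _, h => by
    have h1 : v = [] := hv
    have h2 : v' = [] := hv'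
    rw [h1, h2] at h
    exact List.append_cancel_right h
  | q + 1, v, v', t, t', hv, hv', ht, ht', h => by
    obtain ⟨x, hx, u, hu, rfl⟩ := hv
    obtain ⟨x', hx', u', hu', rfl⟩ := hv'
    rw [TD.rev_append', TD.rev_append', ← List.append_assoc, ← List.append_assoc] at h
    obtain ⟨a, ha⟩ := TD.BU_append ht (BU_rev (VV_BU hu))
    obtain ⟨b, hb⟩ := TD.BU_append ht' (BU_rev (VV_BU hu'))
    exact vv_snd hu hu' ht ht' (TD.code_mid ha hb (GG_CB hx) (GG_CB hx') h)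

theorem VV_mass : ∃ K : ℕ, 1 ≤ K ∧ ∀ S q : ℕ, 1 ≤ S → ENNReal.ofReal ((1 / 4) ^ q) ≤ gf (VV K S q) := by
  obtain ⟨K, hK, hB⟩ := TD.bMass
  refine ⟨K, hK, fun S q hS => ?_⟩
  have h1 : ENNReal.ofReal (1 / 4) ≤ gf (GG K S) := by
    refine (hB S hS).trans ((TD.gf_CB K S).trans ?_)
    rw [← TD.gf_rev_eq (GG K S)]
    apply gf_mono
    rintro B ⟨j, b, h1, h2, h3, h4, h5, rfl⟩
    show rev (rev b) ∈ GG K S
    rw [rev_rev]
    exact ⟨j, h1, h2, h3, h4, h5⟩
  induction q with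
  | zero =>
    have e : gf (VV K S 0) = 1 := by
      show gf ({[]} : Set (List Bool)) = 1
      unfold gf
      rw [tsum_singleton (f := wE)]
      unfold wE
      simp
    rw [e, pow_zero, ENNReal.ofReal_one]
  | succ q ih =>
    have h2 : gf (GG K S) * gf (VV K S q) ≤ gf (VV K S (q + 1)) := by
      apply mul_le_gf
      · intro x hx y hy
        exact ⟨x, hx, y, hy, rfl⟩
      · intro x hx y hy x' hx' y' hy' h
        obtain ⟨j, _, _, a3, _⟩ := hx
        obtain ⟨j', _, _, b3, _⟩ := hx'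
        exact fc_fst a3 b3 (VV_BU hy) (VV_BU hy') h
    refine le_trans ?_ h2
    rw [pow_succ', ENNReal.ofReal_mul (by norm_num)]
    exact mul_le_mul' h1 ih

/-- the code words in front of and behind a set of bridges -/
theorem tube_code {K S q R n : ℕ} {G : Set (List Bool)} (_hS : 1 ≤ S) (hG : ∀ t ∈ G, t ∈ BU) :
    gf (TD.T1 R n) * (gf (VV K S q) * (gf G * gf (VV K S q)) * gf (TD.T1 R n)) ≤
      gf {w | ∃ z1 ∈ TD.T1 R n, ∃ v1 ∈ VV K S q, ∃ t ∈ G, ∃ v2, rev v2 ∈ VV K S q ∧ ∃ z2, rev z2 ∈ TD.T1 R n ∧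
        w = z1 ++ ((v1 ++ (t ++ v2)) ++ z2)} := by
  obtain ⟨A, hA⟩ : ∃ A : Set (List Bool), A = {x | ∃ t ∈ G, ∃ v2, rev v2 ∈ VV K S q ∧ x = t ++ v2} := ⟨_, rfl⟩
  obtain ⟨V, hV⟩ : ∃ V : Set (List Bool), V = {x | ∃ v1 ∈ VV K S q, ∃ y ∈ A, x = v1 ++ y} := ⟨_, rfl⟩
  obtain ⟨X, hX⟩ : ∃ X : Set (List Bool), X = {x | ∃ v ∈ V, ∃ z, rev z ∈ TD.T1 R n ∧ x = v ++ z} := ⟨_, rfl⟩
  have hAB : ∀ y ∈ A, y ∈ BU := by
    intro y hy
    rw [hA] at hy
    obtain ⟨t, ht, v2, hv2, rfl⟩ := hy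
    exact TD.BU_append (hG t ht) (rev_BU (VV_BU hv2))
  have hVB : ∀ v ∈ V, v ∈ BU := by
    intro v hv
    rw [hV] at hv
    obtain ⟨v1, hv1, y, hy, rfl⟩ := hv
    exact TD.BU_append (VV_BU hv1) (hAB y hy)
  have hXU : ∀ x ∈ X, TD.Upw x := by
    intro x hx
    rw [hX] at hx
    obtain ⟨v, hv, z, hz, rfl⟩ := hx
    obtain ⟨t, ht⟩ := hVB v hv
    obtain ⟨r, z', _, hz', hu⟩ := TD.US_TriP hz.1
    have : z' = z := by rw [← rev_rev z, hu, rev_rev]
    rw [this] at hz'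
    exact TD.upw_cat ht (TD.upw_tri hz')
  have m1 : gf G * gf (VV K S q) ≤ gf A := by
    rw [← TD.gf_rev_eq (VV K S q)]
    apply mul_le_gf
    · intro t ht v2 hv2
      rw [hA]
      exact ⟨t, ht, v2, hv2, rfl⟩
    · intro t ht v hv t' ht' v' hv' h
      refine vv_snd (v := rev v) (v' := rev v') hv hv' (hG t ht) (hG t' ht') ?_
      rw [rev_rev, rev_rev]
      exact h
  have m2 : gf (VV K S q) * gf A ≤ gf V := by
    apply mul_le_gf
    · intro v hv y hy
      rw [hV]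
      exact ⟨v, hv, y, hy, rfl⟩
    · intro v hv y hy v' hv' y' hy' h
      exact vv_fst hv hv' (hAB y hy) (hAB y' hy') h
  have m3 : gf V * gf (TD.T1 R n) ≤ gf X := by
    rw [← TD.gf_rev_eq (TD.T1 R n)]
    apply mul_le_gf
    · intro v hv z hz
      rw [hX]
      exact ⟨v, hv, z, hz, rfl⟩
    · intro v hv z hz v' hv' z' hz' h
      obtain ⟨t, ht⟩ := hVB v hv
      obtain ⟨t', ht'⟩ := hVB v' hv'
      exact (TD.code_snd hz hz' ht ht' h).1
  calc gf (TD.T1 R n) * (gf (VV K S q) * (gf G * gf (VV K S q)) * gf (TD.T1 R n)) ≤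
        gf (TD.T1 R n) * (gf (VV K S q) * gf A * gf (TD.T1 R n)) := by gcongr
    _ ≤ gf (TD.T1 R n) * (gf V * gf (TD.T1 R n)) := by gcongr
    _ ≤ gf (TD.T1 R n) * gf X := by gcongr
    _ ≤ _ := by
        apply mul_le_gf
        · intro u hu x hx
          rw [hX] at hx
          obtain ⟨v, hv, z, hz, rfl⟩ := hx
          rw [hV] at hv
          obtain ⟨v1, hv1, y, hy, rfl⟩ := hv
          rw [hA] at hy
          obtain ⟨t, ht, v2, hv2, rfl⟩ := hy
          exact ⟨u, hu, v1, hv1, t, ht, v2, hv2, z, hz, rfl⟩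
        · intro u hu x hx u' hu' x' hx' h
          exact (TD.code_fst hu hu' (hXU x hx) (hXU x' hx') h).1

end SDN

end HexObs
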