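import Pool.Agent.SDN.NormO
import Pool.Agent.TightS.Recur

/-!
SDN, norm part: the tilted operators.
-/

set_option autoImplicit false

namespace HexObs

open Finset TS

open scoped ENNReal

open Rec8 (sw mb)

namespace SDN

variable {C δ : ℝ}

private theorem NT_block {D h : ℕ} (hD : 1 ≤ D) (hh : D ≤ h) : h ≤ 2 ^ (Nat.log 2 (h / D) + 1) * D := by
  have h1 : 1 ≤ h / D := (Nat.one_le_div_iff (by omega)).2 hh
  have h2 : h / D < 2 ^ (Nat.log 2 (h / D) + 1) := Nat.lt_pow_succ_log_self (by norm_num) _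
  have h3 : h < (h / D + 1) * D := by
    have h4 := Nat.div_add_mod h D
    have h5 := Nat.mod_lt h (show D > 0 by omega)
    have h6 : (h / D + 1) * D = D * (h / D) + D := by ring
    omega
  exact (h3.le.trans (Nat.mul_le_mul_right _ h2))

/-- the tilt by blocks of heights -/
theorem tl_blocks {D : ℕ} (hD : 1 ≤ D) {N : ℕ} (S : Set (List Bool)) (Φ : List Bool → ℝ≥0∞) :
    sw {g | g ∈ BrR D N ∧ g ∈ S} (fun g => tl D (hgt g) * Φ g) ≤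
      ∑' i : ℕ, (1 / 4) ^ i * sw {g | g ∈ BrR D (2 ^ (i + 1) * D) ∧ g ∈ S} Φ := by
  classical
  have e1 : ∀ i : ℕ, (1 / 4 : ℝ≥0∞) ^ i * sw {g | g ∈ BrR D (2 ^ (i + 1) * D) ∧ g ∈ S} Φ =
      ∑' g : List Bool, (if g ∈ BrR D (2 ^ (i + 1) * D) ∧ g ∈ S then (1 / 4 : ℝ≥0∞) ^ i * (wE g * Φ g) else 0) := by
    intro i
    rw [Rec8.sw_ind, ← ENNReal.tsum_mul_left]
    refine tsum_congr fun g => ?_
    by_cases h : g ∈ BrR D (2 ^ (i + 1) * D) ∧ g ∈ S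
    · rw [if_pos h, if_pos (show g ∈ {g | g ∈ BrR D (2 ^ (i + 1) * D) ∧ g ∈ S} from h)]
    · rw [if_neg h, if_neg (show ¬ g ∈ {g | g ∈ BrR D (2 ^ (i + 1) * D) ∧ g ∈ S} from h), mul_zero]
  simp only [e1]
  rw [Rec8.sw_ind, ENNReal.tsum_comm]
  refine ENNReal.tsum_le_tsum fun g => ?_
  by_cases hg : g ∈ BrR D N ∧ g ∈ S
  · rw [if_pos (show g ∈ {g | g ∈ BrR D N ∧ g ∈ S} from hg)]
    refine le_trans (le_of_eq ?_) (ENNReal.le_tsum (Nat.log 2 (hgt g / D)))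
    obtain ⟨⟨h, h1, h2, h3⟩, h4⟩ := hg
    have h5 := hgt_eq h3
    rw [if_pos ⟨⟨h, h1, by rw [h5]; exact NT_block hD h1, h3⟩, h4⟩]
    unfold tl
    ring
  · rw [if_neg (show ¬ g ∈ {g | g ∈ BrR D N ∧ g ∈ S} from hg)]
    exact zero_le

theorem Ub_add (k n : ℕ) : Ub (k + n) ≤ 2 ^ n * Ub k := by
  induction n with
  | zero => simp
  | succ n ih =>
    have h1 := Ub_succ (k + n)
    have h2 : Ub (k + (n + 1)) ≤ 2 * Ub (k + n) := h1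
    calc Ub (k + (n + 1)) ≤ 2 * Ub (k + n) := h2
      _ ≤ 2 * (2 ^ n * Ub k) := by linarith
      _ = _ := by ring

theorem UU_block (k i : ℕ) : UU (2 ^ (i + 1) * 2 ^ (k + 4)) ≤ 2 ^ (i + 5) * Ub k := by
  have h1 : (2 : ℕ) ^ (i + 1) * 2 ^ (k + 4) = 2 ^ (k + (i + 5)) := by
    rw [← pow_add]
    congr 1
    ring
  rw [h1]
  exact Ub_add k (i + 5)

/-- summation over the blocks -/
theorem NT_sum {c : ℝ} (hc : 0 ≤ c) (x : ℝ≥0∞) :
    ∑' i : ℕ, (1 / 4 : ℝ≥0∞) ^ i * (ENNReal.ofReal (c * 2 ^ (i + 5)) * x) = ENNReal.ofReal (64 * c) * x := by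
  have h1 : ∀ i : ℕ, (1 / 4 : ℝ≥0∞) ^ i * (ENNReal.ofReal (c * 2 ^ (i + 5)) * x) =
      (ENNReal.ofReal (32 * c) * x) * (ENNReal.ofReal (1 / 2)) ^ i := by
    intro i
    have h2 : (1 / 4 : ℝ≥0∞) = ENNReal.ofReal (1 / 4) := by
      rw [ENNReal.ofReal_div_of_pos (by norm_num)]
      norm_num
    rw [h2, ← ENNReal.ofReal_pow (by norm_num), ← ENNReal.ofReal_pow (by norm_num), ← mul_assoc,
      ← ENNReal.ofReal_mul (by positivity), mul_right_comm, ← ENNReal.ofReal_mul (by positivity)]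
    congr 2
    have h3 : (1 / 4 : ℝ) ^ i = (1 / 2) ^ i * (1 / 2) ^ i := by
      rw [← mul_pow]
      norm_num
    have h4 : (2 : ℝ) ^ (i + 5) = 32 * 2 ^ i := by ring
    have h5 : (1 / 2 : ℝ) ^ i * 2 ^ i = 1 := by
      rw [← mul_pow]
      norm_num
    calc (1 / 4 : ℝ) ^ i * (c * 2 ^ (i + 5)) = 32 * c * (1 / 2) ^ i * ((1 / 2) ^ i * 2 ^ i) := by
          rw [h3, h4]
          ring
      _ = 32 * c * (1 / 2) ^ i := by rw [h5, mul_one]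
  rw [tsum_congr h1, ENNReal.tsum_mul_left, ENNReal.tsum_geometric]
  have h6 : (1 - ENNReal.ofReal (1 / 2))⁻¹ = ENNReal.ofReal 2 := by
    rw [← ENNReal.ofReal_one, ← ENNReal.ofReal_sub _ (by norm_num), ← ENNReal.ofReal_inv_of_pos (by norm_num)]
    norm_num
  rw [h6, mul_right_comm, ← ENNReal.ofReal_mul (by positivity)]
  congr 2
  ring

/-- all leaves in the relation R are neighbours -/
def RNb (R : List Bool → List Bool → Prop) : Prop := ∀ g g', R g g' → ∃ c : Bool, Nb g ((!c) :: c :: g')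

theorem tA_hered (D N : ℕ) (R : List Bool → List Bool → Prop) (Φ : List Bool → ℝ≥0∞) : Hered (tA D N R Φ) := by
  intro s hs t
  unfold tA
  exact sB_mono (fun g' hg' => ⟨hg'.1, RT_her hs hg'.2⟩) fun _ _ => le_rfl

theorem tB_hered (D N k j1 j3 : ℕ) (R : List Bool → List Bool → Prop) (Φ : List Bool → ℝ≥0∞) :
    Hered (tB D N k j1 j3 R Φ) := by
  intro s hs t
  unfold tB
  exact sB_mono (fun g' hg' => ⟨hg'.1, RT_her hs hg'.2⟩) fun _ _ => le_rfl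

theorem tF_hered (D N : ℕ) (W : Set (List Bool)) (R : List Bool → List Bool → Prop) (Φ : List Bool → ℝ≥0∞) :
    Hered (tF D N W R Φ) := by
  intro s hs t
  unfold tF
  exact sB_mono (fun g' hg' => ⟨hg'.1, hg'.2.1, RT_her hs hg'.2.2⟩) fun _ _ => le_rfl

theorem tU_hered (D N k j1 j3 : ℕ) (R : List Bool → List Bool → Prop) (Φ : List Bool → ℝ≥0∞) :
    Hered (tU D N k j1 j3 R Φ) := by
  intro s hs t
  unfold tU
  refine sB_mono le_rfl fun M _ => sB_mono le_rfl fun P1 _ => ENNReal.tsum_le_tsum fun h =>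
    sB_mono le_rfl fun P2 _ => sB_mono le_rfl fun Q _ => ?_
  by_cases h1 : 2 ^ j3 ≤ h ∧ ∃ V ∈ Brd h, M ++ (P1 ++ (V ++ (P2 ++ Q))) ∈ BrR D N ∧
      RT D R (s ++ t) (M ++ (P1 ++ (V ++ (P2 ++ Q))))
  · have h2 : 2 ^ j3 ≤ h ∧ ∃ V ∈ Brd h, M ++ (P1 ++ (V ++ (P2 ++ Q))) ∈ BrR D N ∧
      RT D R t (M ++ (P1 ++ (V ++ (P2 ++ Q)))) := by
      obtain ⟨h3, V, hV, h4, h5⟩ := h1
      exact ⟨h3, V, hV, h4, RT_her hs h5⟩
    rw [if_pos h1, if_pos h2]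
  · rw [if_neg h1]
    exact zero_le

theorem her_one : Hered (fun _ => 1) := fun _ _ _ => le_rfl

theorem her_add {Φ Ψ : List Bool → ℝ≥0∞} (h1 : Hered Φ) (h2 : Hered Ψ) : Hered (fun t => Φ t + Ψ t) :=
  fun s hs t => add_le_add (h1 s hs t) (h2 s hs t)

theorem her_smul {Φ : List Bool → ℝ≥0∞} (c : ℝ≥0∞) (h1 : Hered Φ) : Hered (fun t => c * Φ t) :=
  fun s hs t => mul_le_mul_right (h1 s hs t) c

theorem tA_le (D N : ℕ) (hD : 1 ≤ D) (R : List Bool → List Bool → Prop) (Φ : List Bool → ℝ≥0∞) (t : List Bool) :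
    tA D N R Φ t ≤ ∑' i : ℕ, (1 / 4) ^ i * uA D (2 ^ (i + 1) * D) R Φ t :=
  tl_blocks hD {g' | RT D R t g'} Φ

theorem tB_le (D N k j1 j3 : ℕ) (hD : 1 ≤ D) (R : List Bool → List Bool → Prop) (Φ : List Bool → ℝ≥0∞)
    (t : List Bool) : tB D N k j1 j3 R Φ t ≤ ∑' i : ℕ, (1 / 4) ^ i * uB D (2 ^ (i + 1) * D) k j1 j3 R Φ t := by
  refine le_trans (le_of_eq ?_) (tl_blocks (N := N) hD {g' | RT D R t g'} (fun g' => bet k j1 j3 g' * Φ g'))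
  unfold tB
  have e1 : ∀ (A : Set (List Bool)) (Ψ : List Bool → ℝ≥0∞), sw A Ψ = sB A (fun t => wE t * Ψ t) := fun _ _ => rfl
  rw [e1]
  refine sB_congr fun g' _ => ?_
  ring

theorem tU_le (D N k j1 j3 : ℕ) (hD : 1 ≤ D) (R : List Bool → List Bool → Prop) (Φ : List Bool → ℝ≥0∞)
    (t : List Bool) : tU D N k j1 j3 R Φ t ≤ ∑' i : ℕ, (1 / 4) ^ i * uU D (2 ^ (i + 1) * D) k j1 j3 R Φ t := by
  classical
  unfold tU uU
  simp only [← ENNReal.tsum_mul_left, ← sB_mul]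
  rw [← sB_tsum_swap]
  refine sB_mono le_rfl fun M hM => ?_
  rw [← sB_tsum_swap]
  refine sB_mono le_rfl fun P1 hP1 => ?_
  rw [ENNReal.tsum_comm]
  refine ENNReal.tsum_le_tsum fun h => ?_
  rw [← sB_tsum_swap]
  refine sB_mono le_rfl fun P2 hP2 => ?_
  rw [← sB_tsum_swap]
  refine sB_mono le_rfl fun Q hQ => ?_
  obtain ⟨H, hH⟩ : ∃ H, H = hgt M + hgt P1 + h + hgt P2 + hgt Q := ⟨_, rfl⟩
  by_cases h1 : 2 ^ j3 ≤ h ∧ ∃ V ∈ Brd h, M ++ (P1 ++ (V ++ (P2 ++ Q))) ∈ BrR D N ∧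
      RT D R t (M ++ (P1 ++ (V ++ (P2 ++ Q))))
  · rw [if_pos h1]
    refine le_trans ?_ (ENNReal.le_tsum (Nat.log 2 (H / D)))
    have h2 : 2 ^ j3 ≤ h ∧ ∃ V ∈ Brd h, M ++ (P1 ++ (V ++ (P2 ++ Q))) ∈ BrR D (2 ^ (Nat.log 2 (H / D) + 1) * D) ∧
        RT D R t (M ++ (P1 ++ (V ++ (P2 ++ Q)))) := by
      obtain ⟨h3, V, hV, ⟨h', h4, h5, h6⟩, h7⟩ := h1
      refine ⟨h3, V, hV, ⟨h', h4, ?_, h6⟩, h7⟩
      have hM' := BU_hgt hM
      have hP' := BU_hgt (IU_BU hP1)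
      have hP2' := BU_hgt (IU_BU hP2)
      have hQ' := BU_hgt hQ
      have h8 := Brd_append hM' (Brd_append hP' (Brd_append hV (Brd_append hP2' hQ')))
      have h9 := Brd_height h6 h8
      have h10 : h' = H := by omega
      rw [h10] at h4 ⊢
      exact NT_block hD h4
    rw [if_pos h2]
    unfold tl
    rw [← hH]
    exact le_of_eq (by ring)
  · rw [if_neg h1]
    exact zero_le

/-- one more leaf, tilted -/
theorem y_tA (h : Inp C δ) : ∃ K : ℝ, 1 ≤ K ∧ ∀ (N k : ℕ) (R : List Bool → List Bool → Prop)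
    (Φ : List Bool → ℝ≥0∞), Hered Φ → RNb R →
    xT (2 ^ (k + 4)) k (tA (2 ^ (k + 4)) N R Φ) ≤ ENNReal.ofReal K * xT (2 ^ (k + 4)) k Φ := by
  obtain ⟨K, hK, hA⟩ := nA h
  refine ⟨64 * K, by linarith, fun N k R Φ hΦ hR => ?_⟩
  refine (xT_mono fun t => tA_le _ N Nat.one_le_two_pow R Φ t).trans ((xT_tsum _ _ _).trans ?_)
  rw [← NT_sum (by linarith) (xT (2 ^ (k + 4)) k Φ)]
  refine ENNReal.tsum_le_tsum fun i => ?_
  refine (xT_smul _ _ _ _).trans (mul_le_mul_right ?_ _)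
  exact hA _ _ k R (2 ^ (i + 5)) Φ hΦ hR le_rfl (one_le_pow₀ (by norm_num)) (UU_block k i)

/-- the bad part, tilted -/
theorem y_tB (h : Inp C δ) : ∃ K c : ℝ, 1 ≤ K ∧ 0 < c ∧ ∀ (N k j1 j3 : ℕ) (R : List Bool → List Bool → Prop)
    (Φ : List Bool → ℝ≥0∞), Hered Φ → RNb R → j1 + 3 ≤ k → j3 ≤ j1 →
    xT (2 ^ (k + 4)) k (tB (2 ^ (k + 4)) N k j1 j3 R Φ) ≤
      ENNReal.ofReal (K * ((2 : ℝ) ^ (-(c * ((k : ℝ) - j1))) + Ub j3 / Ub j1)) * xT (2 ^ (k + 4)) k Φ := by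
  obtain ⟨K, c, hK, hc, hB⟩ := nB h
  refine ⟨64 * K, c, by linarith, hc, fun N k j1 j3 R Φ hΦ hR h1 h2 => ?_⟩
  have h3 : 0 ≤ (2 : ℝ) ^ (-(c * ((k : ℝ) - j1))) + Ub j3 / Ub j1 := by
    have := Ub_pos j3
    have := Ub_pos j1
    positivity
  refine (xT_mono fun t => tB_le _ N k j1 j3 Nat.one_le_two_pow R Φ t).trans ((xT_tsum _ _ _).trans ?_)
  rw [mul_assoc, ← NT_sum (by positivity) (xT (2 ^ (k + 4)) k Φ)]
  refine ENNReal.tsum_le_tsum fun i => ?_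
  refine (xT_smul _ _ _ _).trans (mul_le_mul_right ?_ _)
  have h4 := hB _ _ k j1 j3 R (2 ^ (i + 5)) Φ hΦ hR le_rfl (one_le_pow₀ (by norm_num)) (UU_block k i) h1 h2
  refine h4.trans (le_of_eq ?_)
  congr 2
  ring

/-- the good part, tilted -/
theorem y_tU (h : Inp C δ) : ∃ K : ℝ, 1 ≤ K ∧ ∀ (N k j1 j3 : ℕ) (R : List Bool → List Bool → Prop)
    (Φ : List Bool → ℝ≥0∞), Hered Φ → RNb R → j1 + 3 ≤ k →
    xT (2 ^ (k + 4)) k (tU (2 ^ (k + 4)) N k j1 j3 R Φ) ≤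
      ENNReal.ofReal (K * (Ub k / Ub j1)) * xT (2 ^ (k + 4)) k Φ := by
  obtain ⟨K, hK, hU⟩ := nU h
  refine ⟨64 * K, by linarith, fun N k j1 j3 R Φ hΦ hR h1 => ?_⟩
  have h3 : 0 ≤ Ub k / Ub j1 := by
    have := Ub_pos k
    have := Ub_pos j1
    positivity
  refine (xT_mono fun t => tU_le _ N k j1 j3 Nat.one_le_two_pow R Φ t).trans ((xT_tsum _ _ _).trans ?_)
  rw [mul_assoc, ← NT_sum (by positivity) (xT (2 ^ (k + 4)) k Φ)]
  refine ENNReal.tsum_le_tsum fun i => ?_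
  refine (xT_smul _ _ _ _).trans (mul_le_mul_right ?_ _)
  have h4 := hU _ _ k j1 j3 R (2 ^ (i + 5)) Φ hΦ hR le_rfl (one_le_pow₀ (by norm_num)) (UU_block k i) h1
  refine h4.trans (le_of_eq ?_)
  congr 2
  ring

/-- total weight, tilted -/
theorem y_tot (h : Inp C δ) : ∃ K : ℝ, 1 ≤ K ∧ ∀ (N k : ℕ) (Φ : List Bool → ℝ≥0∞), Hered Φ →
    sB (BrR (2 ^ (k + 4)) N) (fun g => wE g * (tl (2 ^ (k + 4)) (hgt g) * Φ g)) ≤
      ENNReal.ofReal (K * Ub k) * xT (2 ^ (k + 4)) k Φ := by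
  obtain ⟨K, hK, hT⟩ := totH h
  refine ⟨64 * K, by linarith, fun N k Φ hΦ => ?_⟩
  have hU := Ub_pos k
  have h1 := tl_blocks (D := 2 ^ (k + 4)) (N := N) Nat.one_le_two_pow Set.univ Φ
  have h2 : sB (BrR (2 ^ (k + 4)) N) (fun g => wE g * (tl (2 ^ (k + 4)) (hgt g) * Φ g)) =
      sw {g | g ∈ BrR (2 ^ (k + 4)) N ∧ g ∈ Set.univ} (fun g => tl (2 ^ (k + 4)) (hgt g) * Φ g) := by
    have : {g | g ∈ BrR (2 ^ (k + 4)) N ∧ g ∈ Set.univ} = BrR (2 ^ (k + 4)) N := by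
      ext g
      simp
    rw [this]
    rfl
  rw [h2]
  refine h1.trans ?_
  rw [mul_assoc, ← NT_sum (by positivity) (xT (2 ^ (k + 4)) k Φ)]
  refine ENNReal.tsum_le_tsum fun i => mul_le_mul_right ?_ _
  have h3 : sw {g | g ∈ BrR (2 ^ (k + 4)) (2 ^ (i + 1) * 2 ^ (k + 4)) ∧ g ∈ Set.univ} Φ =
      sw (BrR (2 ^ (k + 4)) (2 ^ (i + 1) * 2 ^ (k + 4))) Φ := by
    congr 1
    ext g
    simp
  rw [h3]
  refine (hT _ _ k Φ hΦ le_rfl).trans (mul_le_mul_left (ENNReal.ofReal_le_ofReal ?_) _)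
  have h4 := UU_block k i
  have h5 : K * UU (2 ^ (i + 1) * 2 ^ (k + 4)) ≤ K * (2 ^ (i + 5) * Ub k) :=
    mul_le_mul_of_nonneg_left h4 (by linarith)
  calc K * UU (2 ^ (i + 1) * 2 ^ (k + 4)) ≤ K * (2 ^ (i + 5) * Ub k) := h5
    _ = _ := by ring

end SDN

end HexObs
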