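import Pool.Agent.SDN.Defs
import Pool.Agent.PHW.Dict
import Pool.Agent.Saw39.MaxMoment

/-!
SDN, module W9: the dictionary with the encoding of the final statement, walks in a ball and words in a box.
-/

set_option autoImplicit false

namespace HexObs

namespace SDN

open Finset TS

open scoped ENNReal

namespace EncBall

/-- a unit times a point has the same norm; levels are bounded by the norm -/
lemma lvl_sq (dir : Bool) (v : Pt) : lvl dir v ^ 2 ≤ 4 * nrm v := by
  cases dir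
  · simp only [lvl, hd, ip, nrm, up, Bool.false_eq_true, if_false]
    nlinarith [sq_nonneg v.1]
  · simp only [lvl, hd, ip, nrm, if_true]
    nlinarith [sq_nonneg v.2]

lemma row_sq (dir : Bool) (v : Pt) : row dir v ^ 2 ≤ 4 * nrm v := by
  refine le_trans ?_ (lvl_sq dir v)
  unfold row
  have h0 := Int.emod_nonneg (lvl dir v) (by norm_num : (3 : ℤ) ≠ 0)
  have h1 := Int.emod_lt_of_pos (lvl dir v) (by norm_num : (0 : ℤ) < 3)
  have h2 := Int.emod_add_mul_ediv (lvl dir v) 3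
  generalize lvl dir v / 3 = q at *
  generalize lvl dir v % 3 = r at *
  rw [← h2]
  rcases le_or_gt 0 q with hq | hq
  · nlinarith
  · rcases eq_or_lt_of_le (show q ≤ -1 by omega) with h | h
    · subst h
      nlinarith
    · nlinarith

/-- the vertices of a word, rotated -/
lemma nrm_vx {d : Pt} (hd : d ∈ dirs) (t : List Bool) (i : ℕ) : nrm (vx oo up t i) = nrm (vx oo d t i) := by
  have hup : up ∈ dirs := by decide
  have h1 := rotTo_apply up hd
  have h2 : vx oo (mulE (rotTo d up) d) t i = oo + mulE (rotTo d up) (vx oo d t i - oo) := vx_mulE _ oo oo d t i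
  rw [h1] at h2
  have h3 : (oo : Pt) = 0 := rfl
  rw [h3, sub_zero, zero_add] at h2
  rw [h3, h2, nrm_mulE, nrm_rotTo hd hup, one_mul]

/-- the squared norm of a vertex of a walk -/
lemma nrm_le {n : ℕ} {l : List Pt} (hl : l ∈ SawNu.WS SawNu.hexL n) {q : Pt} {i : ℕ} (hi : i ≤ n)
    (h : SawNu.ps l i = HexMu.psi q) : (2 : ℝ) * (nrm q : ℝ) ≤ 3 * SawNu.S4 SawNu.hexRot l := by
  have hl' := SawNu.mem_WS.mp hl
  have h1 := SawNu.hexRot.ps_snd hl'.2.1 i
  have h2 := SawNu.sq_level_le l (i := i) (by omega)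
  have h3 := SawNu.sq_level_le (l.map SawNu.hexRot.f) (i := i) (by simp; omega)
  rw [h] at h1 h2
  simp only [HexMu.psi, SawNu.hexRot] at h1 h2
  have h4 : (SawNu.ps (l.map SawNu.hexRot.f) i).2 = q.1 := by
    have : (SawNu.ps (l.map SawNu.rotT) i).2 = q.1 := by linarith
    exact this
  rw [h4] at h3
  rw [SawNu.S4, nrm]
  push_cast
  nlinarith [sq_nonneg ((q.1 : ℝ) - q.2)]

end EncBall

open EncBall

theorem enc_ball : ∃ K : ℕ, 1 ≤ K ∧ ∀ n L : ℕ, 1 ≤ n →
    ((SawNu.WS SawNu.hexL n).filter (fun l => K * SawNu.S4 SawNu.hexRot l ≤ (4 : ℝ) ^ L)).card ≤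
      3 * {t | t ∈ WL L ∧ t.length = n}.ncard := by
  refine ⟨12, by norm_num, fun n L hn => ?_⟩
  have hS3 : ((SawNu.hexL.S false : Finset (ℤ × ℤ)) : Set (ℤ × ℤ)).ncard = 3 := by
    rw [Set.ncard_coe_finset]
    simp only [SawNu.hexL, cond_false]
    decide
  set T : Set (List Bool) := {t | t ∈ WL L ∧ t.length = n} with hT
  have hTf : T.Finite := (List.finite_length_eq Bool n).subset (fun _ ht => ht.2)
  have hc3 : 3 * T.ncard = (((SawNu.hexL.S false : Finset (ℤ × ℤ)) : Set (ℤ × ℤ)) ×ˢ T).ncard := by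
    rw [Set.ncard_prod, hS3]
  rw [hc3, ← Set.ncard_coe_finset]
  have hfin : (((SawNu.hexL.S false : Finset (ℤ × ℤ)) : Set (ℤ × ℤ)) ×ˢ T).Finite :=
    (Finset.finite_toSet _).prod hTf
  refine le_trans (Set.ncard_le_ncard ?_ (hfin.image
    (fun p : (ℤ × ℤ) × List Bool => (HexMu.stepsOf (HexMu.phi p.1) p.2.dropLast).map HexMu.psi)))
    (Set.ncard_image_le hfin)
  intro l hl
  rw [Finset.mem_coe, Finset.mem_filter] at hl
  obtain ⟨hW, hS⟩ := hl
  obtain ⟨h1, h2, h3⟩ := SawNu.mem_WS.mp hW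
  rcases l with _ | ⟨s, l⟩
  · simp at h1
    omega
  rw [List.length_cons] at h1
  have hs := h2.1
  have hup : up ∈ dirs := by decide
  have hl2 : (HexMu.tword (s :: l)).length + 1 = n := by
    rw [HexMu.tword_length]
    exact h1
  set t' := HexMu.tword (s :: l) with ht'
  have hlen : (t' ++ [true]).length = n := by
    rw [List.length_append, List.length_singleton]
    exact hl2
  have hvx : ∀ i, i ≤ n → vx oo up (t' ++ [true]) i = vx oo up t' i := fun i hi => vx_append (by omega)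
  refine ⟨(s, t' ++ [true]), ⟨hs, ⟨⟨⟨fun _ _ _ => trivial, ?_⟩, ?_⟩, hlen⟩⟩, ?_⟩
  · intro i k hik hk he
    rw [hlen] at hk
    rw [hvx i (by omega), hvx k hk] at he
    have h4 := HexMu.vx_tword_inj h2 h3 oo hik (by omega)
    exact h4 (PHWDict.dist_rot hup (HexMu.phi_dirs hs) oo oo he)
  · intro i hi dir
    rw [hlen] at hi
    rw [hvx i hi]
    have e1 : SawNu.ps (s :: l) i = HexMu.psi (vx oo (HexMu.phi s) t' i) := by
      have := HexMu.vx_tword h2 h3 oo i (by omega)
      rw [← this]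
      have h0 : (oo : Pt) = 0 := rfl
      rw [h0, sub_zero]
    have e2 := nrm_le hW hi e1
    rw [← nrm_vx (HexMu.phi_dirs hs)] at e2
    have e3 := row_sq dir (vx oo up t' i)
    have e4 : ((row dir (vx oo up t' i) : ℤ) : ℝ) ^ 2 ≤ 4 * ((nrm (vx oo up t' i) : ℤ) : ℝ) := by exact_mod_cast e3
    have e5 : ((row dir (vx oo up t' i) : ℤ) : ℝ) ^ 2 ≤ ((2 : ℝ) ^ L) ^ 2 := by
      have h0 : (0 : ℝ) ≤ SawNu.S4 SawNu.hexRot (s :: l) := by
        rw [SawNu.S4]
        positivity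
      have h5 : ((2 : ℝ) ^ L) ^ 2 = 4 ^ L := by
        rw [← pow_mul, mul_comm, pow_mul]
        norm_num
      rw [h5]
      push_cast at hS
      linarith
    have e6 : ((row dir (vx oo up t' i)) : ℤ) ^ 2 ≤ ((2 : ℤ) ^ L) ^ 2 := by exact_mod_cast e5
    exact abs_le_of_sq_le_sq e6 (by positivity)
  · simp only
    rw [List.dropLast_concat, ht', HexMu.tword, PHWDict.stepsOf_tw_eq (HexMu.ch_of_SA h2 h3)]
    rw [List.map_cons, HexMu.psi_phi hs]
    congr 1
    have key : ∀ (b : Bool) (l : List (ℤ × ℤ)), SawNu.TW SawNu.hexL.S b l →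
        (l.map HexMu.phi).map HexMu.psi = l := by
      intro b l
      induction l generalizing b with
      | nil => intro _; rfl
      | cons s l ih =>
        rintro ⟨k1, k2⟩
        rw [List.map_cons, List.map_cons, HexMu.psi_phi k1, ih _ k2]
    exact key _ l h2.2

/-- c_n ≥ mu^n -/
theorem card_ge (n : ℕ) : 1 ≤ ((SawNu.WS SawNu.hexL n).card : ℝ) * xc ^ n := by
  have hx := xc_pos
  rcases Nat.eq_zero_or_pos n with rfl | hn
  · rw [pow_zero, mul_one]
    have h1 : ([] : List Pt) ∈ SawNu.WS SawNu.hexL 0 := by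
      rw [SawNu.mem_WS]
      refine ⟨rfl, trivial, ?_⟩
      intro i j hij hj
      simp at hj
      omega
    have h2 : 1 ≤ (SawNu.WS SawNu.hexL 0).card := Finset.card_pos.mpr ⟨_, h1⟩
    exact_mod_cast h2
  · have h1 : muB ≤ (aB n : ℝ) ^ ((1 : ℝ) / n) := by
      unfold muB
      have hb : BddBelow (Set.range fun m : {m : ℕ // 1 ≤ m} => ((aB m.1 : ℝ) ^ ((1 : ℝ) / (m.1 : ℝ)))) := by
        refine ⟨0, ?_⟩
        rintro _ ⟨m, rfl⟩
        positivity
      exact ciInf_le hb ⟨n, hn⟩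
    have h2 : 1 / xc ≤ (aB n : ℝ) ^ ((1 : ℝ) / n) := le_muB.trans h1
    have hn' : (0 : ℝ) < n := by exact_mod_cast hn
    have h3 : (1 / xc) ^ n ≤ (aB n : ℝ) := by
      have h4 : (1 / xc) ^ n ≤ ((aB n : ℝ) ^ ((1 : ℝ) / n)) ^ n := pow_le_pow_left₀ (by positivity) h2 n
      rwa [← Real.rpow_natCast ((aB n : ℝ) ^ ((1 : ℝ) / n)), ← Real.rpow_mul (Nat.cast_nonneg _),
        one_div_mul_cancel hn'.ne', Real.rpow_one] at h4
    rw [PHWDict.aB_WS, div_pow, one_pow, div_le_iff₀ (pow_pos hx n)] at h3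
    exact h3

end SDN

end HexObs
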