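import Pool.Agent.SDN.CoarseW
import Pool.Agent.TightS.SBasic
import Pool.Agent.SDN.LeafW

/-!
SDN, W5: the numbers of crossings and of doublings in terms of the weighted numbers of visited cells.
-/

set_option autoImplicit false

namespace HexObs

namespace SDN

open Finset TS

open scoped ENNReal

namespace CD

lemma DD_low {L b : ℕ} {Y : ℝ} (t : List Bool) : Y * (5 / 2 : ℝ) ^ (L + 3 - b) ≤ DD L Y b t := by
  unfold DD
  have h1 : 0 ≤ ∑ i ∈ range (L + 3 - b), (5 / 2 : ℝ) ^ i * nb (b + i) t :=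
    Finset.sum_nonneg fun i _ => mul_nonneg (by positivity) (Nat.cast_nonneg _)
  linarith

lemma DD_nonneg {L b : ℕ} {Y : ℝ} (hY : 0 ≤ Y) (t : List Bool) : 0 ≤ DD L Y b t :=
  le_trans (by positivity) (DD_low t)

lemma geo45 (K : ℕ) : ∑ i ∈ range K, (4 / 5 : ℝ) ^ i ≤ 5 := by
  rw [geom_sum_eq (by norm_num)]
  have h1 : (0 : ℝ) ≤ (4 / 5 : ℝ) ^ K := by positivity
  rw [div_le_iff_of_neg (by norm_num)]
  linarith

lemma geo25 (K : ℕ) : ∑ i ∈ range K, (2 / 5 : ℝ) ^ i ≤ 5 / 3 := by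
  rw [geom_sum_eq (by norm_num)]
  have h1 : (0 : ℝ) ≤ (2 / 5 : ℝ) ^ K := by positivity
  rw [div_le_iff_of_neg (by norm_num)]
  linarith

lemma sum_list (n : ℕ) (f : ℕ → ℕ) : ((List.range n).map f).sum = ∑ i ∈ range n, f i := by
  induction n with
  | zero => rfl
  | succ n ih => rw [List.range_succ, List.map_append, List.sum_append, ih, Finset.sum_range_succ]; simp

lemma geo2 (K : ℕ) : ∑ i ∈ range K, (2 : ℝ) ^ i = 2 ^ K - 1 := by
  rw [geom_sum_eq (by norm_num)]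
  norm_num

end CD

theorem DD_shift {L b k : ℕ} {Y : ℝ} {t : List Bool} (h : b + k ≤ L + 3) :
    DD L Y (b + k) t ≤ (2 / 5 : ℝ) ^ k * DD L Y b t := by
  unfold DD
  have e1 : L + 3 - b = k + (L + 3 - (b + k)) := by omega
  rw [e1, Finset.sum_range_add]
  generalize L + 3 - (b + k) = n
  have h25 : (2 / 5 : ℝ) ^ k * (5 / 2) ^ k = 1 := by
    rw [← mul_pow]
    norm_num
  have h1 : (2 / 5 : ℝ) ^ k * ∑ i ∈ range n, (5 / 2 : ℝ) ^ (k + i) * (nb (b + (k + i)) t : ℝ) =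
      ∑ i ∈ range n, (5 / 2 : ℝ) ^ i * (nb (b + k + i) t : ℝ) := by
    rw [Finset.mul_sum]
    refine Finset.sum_congr rfl fun i _ => ?_
    rw [pow_add, add_assoc b k i]
    calc (2 / 5 : ℝ) ^ k * ((5 / 2) ^ k * (5 / 2) ^ i * (nb (b + (k + i)) t : ℝ))
        = ((2 / 5 : ℝ) ^ k * (5 / 2) ^ k) * ((5 / 2) ^ i * (nb (b + (k + i)) t : ℝ)) := by ring
      _ = _ := by rw [h25, one_mul]
  have h2 : (2 / 5 : ℝ) ^ k * (Y * (5 / 2) ^ (k + n)) = Y * (5 / 2) ^ n := by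
    rw [pow_add]
    calc (2 / 5 : ℝ) ^ k * (Y * ((5 / 2) ^ k * (5 / 2) ^ n))
        = ((2 / 5 : ℝ) ^ k * (5 / 2) ^ k) * (Y * (5 / 2) ^ n) := by ring
      _ = _ := by rw [h25, one_mul]
  have h3 : 0 ≤ (2 / 5 : ℝ) ^ k * ∑ i ∈ range k, (5 / 2 : ℝ) ^ i * (nb (b + i) t : ℝ) :=
    mul_nonneg (by positivity) (Finset.sum_nonneg fun i _ => mul_nonneg (by positivity) (Nat.cast_nonneg _))
  rw [mul_add, mul_add, h1, h2]
  linarith

theorem XX_DD {dir : Bool} {L b : ℕ} {t : List Bool} {A Y : ℝ} (ht : t ∈ WL L) (hA : 1 ≤ A) (hY : 1 ≤ Y)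
    (h : ∀ c, b ≤ c → c ≤ L + 2 → ∃ m u e, Lf dir c t m u e ∧ (m : ℝ) ≤ A * DD L Y c t) (j : ℕ) :
    (XX (2 ^ (b + j)) (rws dir t) t.length : ℝ) ≤ 15 * A * (2 / 5) ^ j * DD L Y b t := by
  have hD0 : 0 ≤ DD L Y b t := CD.DD_nonneg (by linarith) t
  rcases le_or_gt (L + 1) (b + j) with hbj | hbj
  · rw [XX_top ht hbj]
    push_cast
    positivity
  · -- the scales b + j, ..., L
    obtain ⟨K, hK⟩ : ∃ K, L + 1 = b + j + K := ⟨L + 1 - (b + j), by omega⟩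
    have hm : ∀ i, ∃ m : ℕ, i < K → (∃ u e, Lf dir (b + j + i) t m u e) ∧ (m : ℝ) ≤ A * DD L Y (b + j + i) t := by
      intro i
      by_cases hi : i < K
      · obtain ⟨m, u, e, h1, h2⟩ := h (b + j + i) (by omega) (by omega)
        exact ⟨m, fun _ => ⟨⟨u, e, h1⟩, h2⟩⟩
      · exact ⟨0, fun hc => absurd hc hi⟩
    choose m hm using hm
    have h1 := XX_le (dir := dir) (b := b + j) (K := K) (t := t) m fun i hi => (hm i hi).1
    rw [← hK, XX_top ht (le_refl (L + 1)), zero_add, mul_one] at h1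
    have h2 : (XX (2 ^ (b + j)) (rws dir t) t.length : ℝ) ≤
        2 * ∑ i ∈ range K, (2 : ℝ) ^ i * ((m i : ℝ) + 2) + 2 ^ K := by exact_mod_cast h1
    have h3 : ∀ i ∈ range K, (2 : ℝ) ^ i * ((m i : ℝ) + 2) ≤
        (A * (2 / 5) ^ j * DD L Y b t) * (4 / 5) ^ i + 2 * 2 ^ i := by
      intro i hi
      rw [Finset.mem_range] at hi
      have h4 := (hm i hi).2
      have h5 : DD L Y (b + j + i) t ≤ (2 / 5 : ℝ) ^ (j + i) * DD L Y b t := by
        rw [add_assoc b j i]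
        exact DD_shift (by omega)
      have h6 : (m i : ℝ) ≤ A * ((2 / 5 : ℝ) ^ (j + i) * DD L Y b t) :=
        h4.trans (mul_le_mul_of_nonneg_left h5 (by linarith))
      have h7 : (2 : ℝ) ^ i * (m i : ℝ) ≤ 2 ^ i * (A * ((2 / 5 : ℝ) ^ (j + i) * DD L Y b t)) :=
        mul_le_mul_of_nonneg_left h6 (by positivity)
      have h8 : (2 : ℝ) ^ i * (A * ((2 / 5 : ℝ) ^ (j + i) * DD L Y b t)) =
          (A * (2 / 5) ^ j * DD L Y b t) * (4 / 5) ^ i := by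
        have h9 : (4 / 5 : ℝ) ^ i = 2 ^ i * (2 / 5) ^ i := by
          rw [← mul_pow]
          norm_num
        rw [h9, pow_add]
        ring
      rw [h8] at h7
      linarith
    have h4 := Finset.sum_le_sum h3
    rw [Finset.sum_add_distrib, ← Finset.mul_sum, ← Finset.mul_sum, CD.geo2] at h4
    have h5 : (A * (2 / 5) ^ j * DD L Y b t) * ∑ i ∈ range K, (4 / 5 : ℝ) ^ i ≤
        (A * (2 / 5) ^ j * DD L Y b t) * 5 :=
      mul_le_mul_of_nonneg_left (CD.geo45 K) (by positivity)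
    have h6 : (2 : ℝ) ^ K ≤ A * (2 / 5) ^ j * DD L Y b t := by
      have h7 : Y * (5 / 2 : ℝ) ^ (L + 3 - b) ≤ DD L Y b t := CD.DD_low t
      have e1 : L + 3 - b = j + (K + 2) := by omega
      rw [e1, pow_add] at h7
      have h8 : (2 / 5 : ℝ) ^ j * (5 / 2) ^ j = 1 := by
        rw [← mul_pow]
        norm_num
      have h9 : (2 : ℝ) ^ K ≤ (5 / 2) ^ (K + 2) :=
        (pow_le_pow_left₀ (by norm_num) (by norm_num) K).trans (pow_le_pow_right₀ (by norm_num) (by omega))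
      calc (2 : ℝ) ^ K ≤ (5 / 2) ^ (K + 2) := h9
        _ ≤ Y * (5 / 2) ^ (K + 2) := le_mul_of_one_le_left (by positivity) hY
        _ = (2 / 5 : ℝ) ^ j * (Y * ((5 / 2) ^ j * (5 / 2) ^ (K + 2))) := by
          calc Y * (5 / 2 : ℝ) ^ (K + 2) = ((2 / 5 : ℝ) ^ j * (5 / 2) ^ j) * (Y * (5 / 2) ^ (K + 2)) := by
                rw [h8, one_mul]
            _ = _ := by ring
        _ ≤ (2 / 5 : ℝ) ^ j * DD L Y b t := mul_le_mul_of_nonneg_left h7 (by positivity)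
        _ ≤ A * ((2 / 5 : ℝ) ^ j * DD L Y b t) := le_mul_of_one_le_left (by positivity) hA
        _ = A * (2 / 5) ^ j * DD L Y b t := by ring
    have h7 : 15 * A * (2 / 5) ^ j * DD L Y b t = 15 * (A * (2 / 5) ^ j * DD L Y b t) := by ring
    rw [h7]
    nlinarith [h2, h4, h5, h6]

theorem dbl_lws {dir : Bool} {b m u : ℕ} {t : List Bool} {e : ℕ → ℕ} (ht : t ∈ SA) (hb : 1 ≤ b)
    (h : Lf dir b t m u e) : dbl (2 ^ (b - 1)) (lws t e 1 (m - 2)) ≤
      ∑ j ∈ range m, Nat.log 2 ((((|lvl dir (vx oo up t (e (j + 1))) - lvl dir (vx oo up t (e j))| - 1) / 3).toNat) /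
        2 ^ (b - 1)) := by
  unfold dbl lws
  rw [List.map_map, CD.sum_list]
  have h1 : ∀ i ∈ range (m - 2), ((fun g => Nat.log 2 (hgt g / 2 ^ (b - 1))) ∘
      fun i => lw t (e (1 + i)) (e (1 + i + 1))) i = (fun j => Nat.log 2
        ((((|lvl dir (vx oo up t (e (j + 1))) - lvl dir (vx oo up t (e j))| - 1) / 3).toNat) / 2 ^ (b - 1))) (i + 1) := by
    intro i hi
    rw [Finset.mem_range] at hi
    obtain ⟨n, hn, _, hn'⟩ := lw_brd ht hb h (j := 1 + i) (by omega) (by omega)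
    show Nat.log 2 (hgt (lw t (e (1 + i)) (e (1 + i + 1))) / 2 ^ (b - 1)) = Nat.log 2
        ((((|lvl dir (vx oo up t (e (i + 1 + 1))) - lvl dir (vx oo up t (e (i + 1)))| - 1) / 3).toNat) / 2 ^ (b - 1))
    rw [hgt_eq hn, add_comm i 1, hn']
    have h2 : ((3 * (n : ℤ) + 1 - 1) / 3).toNat = n := by omega
    rw [h2]
  rw [Finset.sum_congr rfl h1]
  rcases Nat.eq_zero_or_pos m with rfl | hm
  · simp
  · obtain ⟨m', rfl⟩ : ∃ m', m = m' + 1 := ⟨m - 1, by omega⟩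
    rw [Finset.sum_range_succ' _ m']
    refine le_trans (Finset.sum_le_sum_of_subset (Finset.range_subset_range.2 (by omega))) (Nat.le_add_right _ _)

/-- number of doublings under the bounds of the larger scales -/
theorem dbl_DD {dir : Bool} {L b m u : ℕ} {t : List Bool} {e : ℕ → ℕ} {A Y : ℝ} (ht : t ∈ WL L) (hA : 1 ≤ A)
    (hY : 1 ≤ Y) (hb : 1 ≤ b) (hbL : b ≤ L + 1) (hL : Lf dir b t m u e)
    (h : ∀ c, b + 1 ≤ c → c ≤ L + 2 → ∃ m u e, Lf dir c t m u e ∧ (m : ℝ) ≤ A * DD L Y c t) :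
    (dbl (2 ^ (b - 1)) (lws t e 1 (m - 2)) : ℝ) ≤ 2 * m + 10 * A * DD L Y b t := by
  have h1 := (dbl_lws ht.1 hb hL).trans (dbl_le ht hb hL)
  have h2 : (dbl (2 ^ (b - 1)) (lws t e 1 (m - 2)) : ℝ) ≤
      2 * m + ∑ i ∈ range (L + 1), (XX (2 ^ (b + 1 + i)) (rws dir t) t.length : ℝ) := by exact_mod_cast h1
  have h3 : ∑ i ∈ range (L + 1), (XX (2 ^ (b + 1 + i)) (rws dir t) t.length : ℝ) ≤
      ∑ i ∈ range (L + 1), (15 * A * DD L Y (b + 1) t) * (2 / 5) ^ i := by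
    refine Finset.sum_le_sum fun i _ => ?_
    have := XX_DD ht hA hY h i
    linarith
  rw [← Finset.mul_sum] at h3
  have h4 : DD L Y (b + 1) t ≤ (2 / 5 : ℝ) ^ 1 * DD L Y b t := DD_shift (by omega)
  have h5 : 0 ≤ DD L Y (b + 1) t := CD.DD_nonneg (by linarith) t
  have h6 : (15 * A * DD L Y (b + 1) t) * ∑ i ∈ range (L + 1), (2 / 5 : ℝ) ^ i ≤ (15 * A * DD L Y (b + 1) t) * (5 / 3) :=
    mul_le_mul_of_nonneg_left (CD.geo25 _) (by positivity)
  have h7 : 15 * A * DD L Y (b + 1) t * (5 / 3) ≤ 10 * A * DD L Y b t := by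
    have : A * DD L Y (b + 1) t ≤ A * ((2 / 5 : ℝ) ^ 1 * DD L Y b t) := mul_le_mul_of_nonneg_left h4 (by linarith)
    nlinarith
  linarith

end SDN

end HexObs
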