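import Pool.Agent.SDN.GeoDefs

/-!
SDN, deterministic part, G7: crossing numbers. If a path with steps at most 1 has oscillation at least 2 r over the
disjoint time intervals of a family K, the last visited multiple of r changes in each of them.
-/

set_option autoImplicit false

namespace HexObs

namespace SDG

open Finset Classical

/-- last visited multiple of r (in units of r) -/
def cw (r : ℤ) (w : ℕ → ℤ) : ℕ → ℤ
  | 0 => 0
  | n + 1 => if r ∣ w (n + 1) then w (n + 1) / r else cw r w n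

def XX (r : ℤ) (w : ℕ → ℤ) (n : ℕ) : ℕ := ((range n).filter fun i => cw r w (i + 1) ≠ cw r w i).card

namespace G7

theorem ivt_up (f : ℕ → ℤ) (hs : ∀ i, |f (i + 1) - f i| ≤ 1) (a : ℕ) (z : ℤ) (h1 : f a ≤ z) :
    ∀ k, z ≤ f (a + k) → ∃ i, a ≤ i ∧ i ≤ a + k ∧ f i = z := by
  intro k
  induction k with
  | zero =>
    intro h2
    exact ⟨a, le_rfl, le_rfl, le_antisymm h1 h2⟩
  | succ k ih =>
    intro h2
    by_cases h : z ≤ f (a + k)
    · obtain ⟨i, hi, hi', e⟩ := ih h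
      exact ⟨i, hi, by omega, e⟩
    · refine ⟨a + (k + 1), by omega, le_rfl, ?_⟩
      have h3 := abs_le.1 (hs (a + k))
      have h4 : a + k + 1 = a + (k + 1) := by omega
      rw [h4] at h3
      omega

theorem ivt (f : ℕ → ℤ) (hs : ∀ i, |f (i + 1) - f i| ≤ 1) (u v s t : ℕ) (hs1 : u ≤ s) (hs2 : s ≤ v)
    (ht1 : u ≤ t) (ht2 : t ≤ v) (z : ℤ) (h1 : f s ≤ z) (h2 : z ≤ f t) :
    ∃ i, u ≤ i ∧ i ≤ v ∧ f i = z := by
  rcases le_total s t with h | h
  · obtain ⟨k, rfl⟩ := Nat.exists_eq_add_of_le h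
    obtain ⟨i, hi, hi', e⟩ := ivt_up f hs s z h1 k h2
    exact ⟨i, by omega, by omega, e⟩
  · obtain ⟨k, rfl⟩ := Nat.exists_eq_add_of_le h
    have hs' : ∀ i, |(fun i => - f i) (i + 1) - (fun i => - f i) i| ≤ 1 := by
      intro i
      show |- f (i + 1) - - f i| ≤ 1
      have h3 := abs_le.1 (hs i)
      rw [abs_le]
      omega
    obtain ⟨i, hi, hi', e⟩ := ivt_up (fun i => - f i) hs' t (-z) (by
      show - f t ≤ - z
      omega) k (by
      show - z ≤ - f (t + k)
      omega)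
    have e' : - f i = - z := e
    exact ⟨i, by omega, by omega, by omega⟩

theorem cw_eq {w : ℕ → ℤ} {r : ℤ} (h0 : w 0 = 0) (t : ℕ) (h : r ∣ w t) : cw r w t = w t / r := by
  cases t with
  | zero =>
    rw [h0, Int.zero_ediv]
    rfl
  | succ t =>
    show (if r ∣ w (t + 1) then w (t + 1) / r else cw r w t) = _
    rw [if_pos h]

theorem const {w : ℕ → ℤ} {r : ℤ} {u v : ℕ} (h : ∀ i, u ≤ i → i < v → cw r w (i + 1) = cw r w i) :
    ∀ t, u ≤ t → t ≤ v → cw r w t = cw r w u := by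
  intro t ht
  induction t, ht using Nat.le_induction with
  | base => exact fun _ => rfl
  | succ t ht ih =>
    intro hv
    rw [h t ht (by omega)]
    exact ih (by omega)

theorem change {w : ℕ → ℤ} {r : ℤ} (hr : 0 < r) (h0 : w 0 = 0) (hs : ∀ i, |w (i + 1) - w i| ≤ 1)
    {u v : ℕ} (h : Osc w u v (2 * r)) : ∃ i, u ≤ i ∧ i < v ∧ cw r w (i + 1) ≠ cw r w i := by
  by_contra hcon
  push Not at hcon
  have hc := const (w := w) (r := r) (u := u) (v := v) hcon
  obtain ⟨s, t, hs1, hs2, ht1, ht2, hst⟩ := h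
  -- the first multiple of r from w s on
  have e1 := Int.mul_ediv_add_emod (w s + r - 1) r
  have e2 := Int.emod_nonneg (w s + r - 1) hr.ne'
  have e3 := Int.emod_lt_of_pos (w s + r - 1) hr
  obtain ⟨y, hy⟩ : ∃ y, y = (w s + r - 1) / r := ⟨_, rfl⟩
  rw [← hy] at e1
  have e4 : r * (y + 1) = r * y + r := by ring
  obtain ⟨i, hi, hi', ei⟩ := ivt w hs u v s t hs1 hs2 ht1 ht2 (r * y) (by omega) (by omega)
  obtain ⟨j, hj, hj', ej⟩ := ivt w hs u v s t hs1 hs2 ht1 ht2 (r * (y + 1)) (by omega) (by omega)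
  have c1 : cw r w i = y := by
    rw [cw_eq h0 i (by rw [ei]; exact dvd_mul_right _ _), ei, Int.mul_ediv_cancel_left _ hr.ne']
  have c2 : cw r w j = y + 1 := by
    rw [cw_eq h0 j (by rw [ej]; exact dvd_mul_right _ _), ej, Int.mul_ediv_cancel_left _ hr.ne']
  rw [hc i hi hi'] at c1
  rw [hc j hj hj'] at c2
  omega

end G7

theorem nint_XX (w : ℕ → ℤ) (n : ℕ) (r : ℤ) (hr : 0 < r) (h0 : w 0 = 0) (hs : ∀ i, |w (i + 1) - w i| ≤ 1) :
    NInt w n (2 * r) (XX r w n) := by
  intro K hK hd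
  have hex : ∀ p : ℕ × ℕ, ∃ i, p ∈ K → p.1 ≤ i ∧ i < p.2 ∧ cw r w (i + 1) ≠ cw r w i := by
    intro p
    by_cases hp : p ∈ K
    · obtain ⟨i, hi⟩ := G7.change hr h0 hs (hK p hp).2
      exact ⟨i, fun _ => hi⟩
    · exact ⟨0, fun h => absurd h hp⟩
  choose g hg using hex
  have hle : K.card ≤ XX r w n := by
    refine card_le_card_of_injOn g ?_ ?_
    · intro p hp
      obtain ⟨h1, h2, h3⟩ := hg p hp
      have h4 := (hK p hp).1
      rw [coe_filter]
      exact ⟨mem_range.2 (by omega), h3⟩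
    · intro p hp q hq hpq
      by_contra hne
      obtain ⟨h1, h2, -⟩ := hg p hp
      obtain ⟨h3, h4, -⟩ := hg q hq
      have hpq' : g p = g q := hpq
      rcases hd p hp q hq hne with h | h <;> omega
  exact_mod_cast hle

end SDG

end HexObs
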