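import Pool.Agent.SDN.GeoDefs

/-!
SDN, G1: elementary facts on boxes.
-/

set_option autoImplicit false

namespace HexObs

namespace SDG

open Finset Classical

/-- floors of two values with small difference -/
lemma Geo1.floor_le {x y s : ℤ} (hs : 0 < s) (a : ℕ) (h : y < x + a * s) : y / s ≤ x / s + a := by
  have h1 : (x + a * s) / s = x / s + a := Int.add_mul_ediv_right x a (by omega)
  rw [← h1]
  exact Int.ediv_le_ediv hs h.le

/-- a time interval with small oscillations visits few boxes -/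
theorem bx_card (f1 f2 : ℕ → ℤ) (s : ℤ) (hs : 0 < s) (u v : ℕ) (a1 a2 : ℕ) (h1 : ¬ Osc f1 u v (a1 * s))
    (h2 : ¬ Osc f2 u v (a2 * s)) : (Bx f1 f2 s u v).card ≤ (a1 + 1) * (a2 + 1) := by
  rcases Nat.lt_or_ge v u with huv | huv
  · have h0 : Bx f1 f2 s u v = ∅ := by
      unfold Bx
      rw [Finset.Icc_eq_empty (by omega), Finset.image_empty]
    rw [h0, Finset.card_empty]
    exact Nat.zero_le _
  · have hne : (Icc u v).Nonempty := ⟨u, by rw [mem_Icc]; omega⟩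
    obtain ⟨t1, ht1, hm1⟩ := exists_min_image (Icc u v) (fun t => f1 t / s) hne
    obtain ⟨t2, ht2, hm2⟩ := exists_min_image (Icc u v) (fun t => f2 t / s) hne
    have key : ∀ (f : ℕ → ℤ) (a : ℕ), ¬ Osc f u v (a * s) → ∀ t0 ∈ Icc u v, ∀ t ∈ Icc u v,
        f t / s ≤ f t0 / s + a := by
      intro f a h t0 ht0 t ht
      rw [mem_Icc] at ht0 ht
      apply Geo1.floor_le hs
      by_contra hcon
      exact h ⟨t0, t, ht0.1, ht0.2, ht.1, ht.2, by linarith⟩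
    have hsub : Bx f1 f2 s u v ⊆ Icc (f1 t1 / s) (f1 t1 / s + a1) ×ˢ Icc (f2 t2 / s) (f2 t2 / s + a2) := by
      intro p hp
      unfold Bx at hp
      rw [mem_image] at hp
      obtain ⟨t, ht, rfl⟩ := hp
      rw [mem_product, mem_Icc, mem_Icc]
      exact ⟨⟨hm1 t ht, key f1 a1 h1 t1 ht1 t ht⟩, ⟨hm2 t ht, key f2 a2 h2 t2 ht2 t ht⟩⟩
    refine (card_le_card hsub).trans ?_
    rw [card_product, Int.card_Icc, Int.card_Icc]
    apply le_of_eq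
    congr 1 <;> omega

lemma Geo1.div_pow (x : ℤ) {b μ : ℕ} (h : μ ≤ b) : x / 2 ^ (b - μ) / 2 ^ μ = x / 2 ^ b := by
  have h1 : (2 : ℤ) ^ b = 2 ^ (b - μ) * 2 ^ μ := by
    rw [← pow_add]
    congr 1
    omega
  rw [h1, Int.ediv_ediv_of_nonneg (by positivity)]

/-- the boxes of side 2 ^ (b - μ) are sorted by their parents -/
theorem bx_par (f1 f2 : ℕ → ℤ) (b μ : ℕ) (h : μ ≤ b) (u v : ℕ) :
    (Bx f1 f2 (2 ^ (b - μ)) u v).image (par μ) = Bx f1 f2 (2 ^ b) u v := by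
  unfold Bx
  rw [image_image]
  apply image_congr
  intro t _
  show par μ (bx f1 f2 (2 ^ (b - μ)) t) = bx f1 f2 (2 ^ b) t
  unfold par bx
  simp only
  rw [Geo1.div_pow _ h, Geo1.div_pow _ h]

/-- a box has 4 ^ μ children -/
theorem bx_child (f1 f2 : ℕ → ℤ) (b μ : ℕ) (u v : ℕ) (Q : ℤ × ℤ) :
    ((Bx f1 f2 (2 ^ (b - μ)) u v).filter (fun p => par μ p = Q)).card ≤ 4 ^ μ := by
  have hpos : (0 : ℤ) < 2 ^ μ := by positivity
  have key : ∀ x q : ℤ, x / 2 ^ μ = q → 2 ^ μ * q ≤ x ∧ x < 2 ^ μ * q + 2 ^ μ := by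
    intro x q hx
    rw [← hx]
    have h1 := Int.emod_add_mul_ediv x (2 ^ μ)
    have h2 := Int.emod_nonneg x hpos.ne'
    have h3 := Int.emod_lt_of_pos x hpos
    constructor <;> linarith
  have hsub : (Bx f1 f2 (2 ^ (b - μ)) u v).filter (fun p => par μ p = Q) ⊆
      Ico (2 ^ μ * Q.1) (2 ^ μ * Q.1 + 2 ^ μ) ×ˢ Ico (2 ^ μ * Q.2) (2 ^ μ * Q.2 + 2 ^ μ) := by
    intro p hp
    rw [mem_filter] at hp
    have h1 := congrArg Prod.fst hp.2
    have h2 := congrArg Prod.snd hp.2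
    rw [mem_product, mem_Ico, mem_Ico]
    exact ⟨key _ _ h1, key _ _ h2⟩
  refine (card_le_card hsub).trans ?_
  rw [card_product, Int.card_Ico, Int.card_Ico]
  have e : ∀ x : ℤ, (x + 2 ^ μ - x).toNat = 2 ^ μ := by
    intro x
    have h1 : x + 2 ^ μ - x = ((2 ^ μ : ℕ) : ℤ) := by
      push_cast
      ring
    rw [h1, Int.toNat_natCast]
  rw [e, e, ← mul_pow]
  norm_num

/-- the boxes outside S have at most 4 ^ μ / 4 visited children -/
theorem bx_fill (f1 f2 : ℕ → ℤ) (n b μ : ℕ) (h : μ ≤ b) (S : Finset (ℤ × ℤ))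
    (hS : ∀ Q ∈ Bx f1 f2 (2 ^ b) 0 n, Q ∉ S →
      4 * ((Bx f1 f2 (2 ^ (b - μ)) 0 n).filter (fun p => par μ p = Q)).card ≤ 4 ^ μ) :
    4 * (Bx f1 f2 (2 ^ (b - μ)) 0 n).card ≤ 4 ^ μ * (4 * S.card + (Bx f1 f2 (2 ^ b) 0 n).card) := by
  have hmaps : ∀ p ∈ Bx f1 f2 (2 ^ (b - μ)) 0 n, par μ p ∈ Bx f1 f2 (2 ^ b) 0 n := by
    intro p hp
    rw [← bx_par f1 f2 b μ h 0 n]
    exact mem_image_of_mem _ hp
  rw [card_eq_sum_card_fiberwise (s := Bx f1 f2 (2 ^ (b - μ)) 0 n) (t := Bx f1 f2 (2 ^ b) 0 n) (f := par μ)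
    (fun p hp => hmaps p hp), mul_sum]
  have h1 : ∀ Q ∈ Bx f1 f2 (2 ^ b) 0 n, 4 * ((Bx f1 f2 (2 ^ (b - μ)) 0 n).filter (fun p => par μ p = Q)).card ≤
      4 ^ μ + (if Q ∈ S then 4 * 4 ^ μ else 0) := by
    intro Q hQ
    by_cases hQS : Q ∈ S
    · rw [if_pos hQS]
      have h2 := bx_child f1 f2 b μ 0 n Q
      omega
    · rw [if_neg hQS, add_zero]
      exact hS Q hQ hQS
  refine (sum_le_sum h1).trans ?_
  rw [sum_add_distrib, sum_const, smul_eq_mul, ← sum_filter, sum_const, smul_eq_mul]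
  have h2 : ((Bx f1 f2 (2 ^ b) 0 n).filter (fun Q => Q ∈ S)).card ≤ S.card := by
    apply card_le_card
    intro Q hQ
    exact (mem_filter.1 hQ).2
  calc (Bx f1 f2 (2 ^ b) 0 n).card * 4 ^ μ + ((Bx f1 f2 (2 ^ b) 0 n).filter (fun Q => Q ∈ S)).card * (4 * 4 ^ μ)
      ≤ (Bx f1 f2 (2 ^ b) 0 n).card * 4 ^ μ + S.card * (4 * 4 ^ μ) := by gcongr
    _ = 4 ^ μ * (4 * S.card + (Bx f1 f2 (2 ^ b) 0 n).card) := by ring

end SDG

end HexObs
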