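import Pool.Agent.SDN.Frames
import Pool.Agent.SDN.LeafW
import Pool.Agent.SDN.GeoDefs
import Pool.Agent.SDN.Geo1
import Pool.Agent.TightS.SBasic

/-!
SDN W3: a leaf that fills a box fills a column in its own frame.
-/

set_option autoImplicit false

namespace HexObs

namespace SDN

open Finset TS

open scoped ENNReal

namespace WordFil

lemma unit_cases {c : Pt} (hc : c ∈ dirs) {P : Prop} [Decidable P]
    (h : mulE c up = if P then - hd false else hd false) : c = (1, 0) ∨ c = (-1, 0) := by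
  have h1 : ∀ c ∈ dirs, (mulE c up = - hd false ∨ mulE c up = hd false) → (c = (1, 0) ∨ c = (-1, 0)) := by decide
  refine h1 c hc ?_
  by_cases hP : P
  · rw [if_pos hP] at h
    exact Or.inl h
  · rw [if_neg hP] at h
    exact Or.inr h

/-- the level of a vertex in the frame of the leaf -/
lemma lvl_unit {c : Pt} (hc : c = (1, 0) ∨ c = (-1, 0)) (p v : Pt) :
    lvl true (p + mulE c v) = lvl true p + lvl true v ∨ lvl true (p + mulE c v) = lvl true p - lvl true v := by
  rcases hc with rfl | rfl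
  · left
    unfold lvl hd ip mulE
    simp only [if_true, Prod.fst_add, Prod.snd_add]
    ring
  · right
    unfold lvl hd ip mulE
    simp only [if_true, Prod.fst_add, Prod.snd_add]
    ring

/-- the same sign for all vertices -/
lemma lvl_unit' {c : Pt} (hc : c = (1, 0) ∨ c = (-1, 0)) (p : Pt) :
    (∀ v, lvl true (p + mulE c v) = lvl true p + lvl true v) ∨
      ∀ v, lvl true (p + mulE c v) = lvl true p - lvl true v := by
  rcases hc with rfl | rfl
  · left
    intro v
    unfold lvl hd ip mulE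
    simp only [if_true, Prod.fst_add, Prod.snd_add]
    ring
  · right
    intro v
    unfold lvl hd ip mulE
    simp only [if_true, Prod.fst_add, Prod.snd_add]
    ring

/-- a window of rows in the frame of the leaf -/
lemma window {c : Pt} (hc : c = (1, 0) ∨ c = (-1, 0)) (p : Pt) (b : ℕ) (q : ℤ) :
    ∃ z : ℤ, ∀ v : Pt, row true (p + mulE c v) / 2 ^ b = q → z ≤ row true v ∧ row true v < z + 2 ^ (b + 1) := by
  have hB : (0 : ℤ) < 2 ^ b := by positivity
  have hB2 : (2 : ℤ) ^ (b + 1) = 2 * 2 ^ b := by ring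
  rw [hB2]
  have key : ∀ x : ℤ, x / 3 / 2 ^ b = q → 3 * (2 ^ b * q) ≤ x ∧ x < 3 * (2 ^ b * q) + 3 * 2 ^ b := by
    intro x hx
    have h1 := Int.mul_ediv_self_le (x := x / 3) hB.ne'
    have h2 := Int.lt_ediv_add_one_mul_self (x / 3) hB
    rw [hx] at h1 h2
    have h3 : (q + 1) * 2 ^ b = 2 ^ b * q + 2 ^ b := by ring
    rw [h3] at h2
    omega
  rcases lvl_unit' hc p with h | h
  · refine ⟨(3 * (2 ^ b * q) - lvl true p) / 3, fun v hv => ?_⟩
    have h1 := key (lvl true (p + mulE c v)) hv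
    rw [h v] at h1
    show (3 * (2 ^ b * q) - lvl true p) / 3 ≤ lvl true v / 3 ∧
      lvl true v / 3 < (3 * (2 ^ b * q) - lvl true p) / 3 + 2 * 2 ^ b
    omega
  · refine ⟨(lvl true p - 3 * (2 ^ b * q) - 3 * 2 ^ b + 1) / 3, fun v hv => ?_⟩
    have h1 := key (lvl true (p + mulE c v)) hv
    rw [h v] at h1
    show (lvl true p - 3 * (2 ^ b * q) - 3 * 2 ^ b + 1) / 3 ≤ lvl true v / 3 ∧
      lvl true v / 3 < (lvl true p - 3 * (2 ^ b * q) - 3 * 2 ^ b + 1) / 3 + 2 * 2 ^ b
    omega

/-- the height in rows and in levels -/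
lemma height_le {x y : ℤ} {n : ℕ} {P : ℕ} (h1 : |x - y| = 3 * (n : ℤ) + 1) (h2 : |x / 3 - y / 3| < (P : ℤ)) : n ≤ P := by
  have h3 := abs_lt.1 h2
  rcases (abs_eq (by positivity)).1 h1 with h | h
  · omega
  · omega

/-- many children in one box give many cells in a column of the own frame -/
lemma many {t g : List Bool} {b μ : ℕ} (hμ : μ ≤ b) {c : Pt} (hc : c ∈ dirs) (hc' : c = (1, 0) ∨ c = (-1, 0))
    {a a' : ℕ} (hlen : g.length = a' - (a + 1)) (hlt : a + 1 < a')
    (hfr : ∀ i, i ≤ g.length → vx oo up t (a + 1 + i) = vx oo up t (a + 1) + mulE c (vx oo up g i)) (Q : ℤ × ℤ) :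
    ∃ z : ℤ, ((SDG.Bx (rws false t) (rws true t) (2 ^ (b - μ)) a a').filter (fun p => SDG.par μ p = Q)).card ≤
      16 * (wcells (b - μ) b z g).card + 1 := by
  obtain ⟨z, hz⟩ := window hc' (vx oo up t (a + 1)) b Q.2
  refine ⟨z, ?_⟩
  set I := (range (g.length + 1)).filter (fun i =>
    row true (vx oo up t (a + 1) + mulE c (vx oo up g i)) / 2 ^ b = Q.2) with hI
  set V := I.image (fun i => vx oo up g i) with hV
  have hsub1 : ((SDG.Bx (rws false t) (rws true t) (2 ^ (b - μ)) a a').filter (fun p => SDG.par μ p = Q)) ⊆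
      insert (SDG.bx (rws false t) (rws true t) (2 ^ (b - μ)) a)
        (V.image fun v => cell (b - μ) (vx oo up t (a + 1) + mulE c v)) := by
    intro q hq
    rw [mem_filter] at hq
    obtain ⟨hq1, hq2⟩ := hq
    unfold SDG.Bx at hq1
    rw [mem_image] at hq1
    obtain ⟨τ, hτ, rfl⟩ := hq1
    rw [mem_Icc] at hτ
    rcases Nat.lt_or_ge a τ with h | h
    · rw [mem_insert]
      right
      have e1 : a + 1 + (τ - (a + 1)) = τ := by omega
      have e2 : τ - (a + 1) ≤ g.length := by omega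
      have e3 := hfr (τ - (a + 1)) e2
      rw [e1] at e3
      rw [mem_image]
      refine ⟨vx oo up g (τ - (a + 1)), ?_, ?_⟩
      · rw [hV, mem_image]
        refine ⟨τ - (a + 1), ?_, rfl⟩
        rw [hI, mem_filter, mem_range]
        refine ⟨by omega, ?_⟩
        rw [← e3]
        have h5 := congrArg Prod.snd hq2
        have h6 : row true (vx oo up t τ) / 2 ^ (b - μ) / 2 ^ μ = Q.2 := h5
        rw [SDG.Geo1.div_pow _ hμ] at h6
        exact h6
      · rw [← e3]
        rfl
    · have e1 : τ = a := by omega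
      rw [e1]
      exact mem_insert_self _ _
  have hsub2 : (V.image fun v => cell (b - μ) v) ⊆ wcells (b - μ) b z g := by
    intro q hq
    rw [mem_image] at hq
    obtain ⟨v, hv, rfl⟩ := hq
    rw [hV, mem_image] at hv
    obtain ⟨i, hi, rfl⟩ := hv
    rw [hI, mem_filter] at hi
    unfold wcells
    rw [mem_image]
    refine ⟨i, ?_, rfl⟩
    rw [mem_filter]
    exact ⟨hi.1, hz _ hi.2⟩
  have h1 := (card_le_card hsub1).trans (card_insert_le _ _)
  have h2 := (cells_frame c (vx oo up t (a + 1)) hc (b - μ) V).1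
  have h3 := card_le_card hsub2
  omega

end WordFil

open WordFil

theorem shfill_fil (A' i0 : ℕ) (hA' : 1 ≤ A') : ∃ κ : ℝ, 0 < κ ∧ ∀ (b μ m u : ℕ) (t : List Bool) (e : ℕ → ℕ), t ∈ SA →
    1 ≤ b → μ ≤ b → Lf false b t m u e → ∀ j, 1 ≤ j → j + 2 ≤ m →
    SDG.ShFill (rws false t) (rws true t) b μ i0 A' e j → lw t (e j) (e (j + 1)) ∈ Fil b i0 (b - μ) κ := by
  have hA : (1 : ℝ) ≤ A' := by exact_mod_cast hA'
  refine ⟨1 / (256 * A'), by positivity, ?_⟩
  intro b μ m u t e ht hb hμ hLf j hj1 hj2 hsf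
  obtain ⟨hh, Q, hQ⟩ := hsf
  obtain ⟨n, hn1, hn2, hn3⟩ := lw_brd ht hb hLf hj1 hj2
  obtain ⟨c, hc, hcu, hlen, hlt, hfr⟩ := lw_frame ht hb hLf hj1 hj2
  have hc' := unit_cases hc hcu
  refine ⟨?_, ?_⟩
  · rw [hgt_eq hn1]
    refine height_le hn3 ?_
    push_cast
    exact hh
  · have hbs : b - (b - μ) = μ := by omega
    rw [hbs]
    obtain ⟨z, hz⟩ := many hμ hc hc' hlen hlt hfr Q
    set c0 := ((SDG.Bx (rws false t) (rws true t) (2 ^ (b - μ)) (e j) (e (j + 1))).filter
      (fun p => SDG.par μ p = Q)).card with hc0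
    have hQ' : (4 : ℝ) ^ μ ≤ 4 * A' * c0 := by exact_mod_cast hQ
    have hscale : 1 / (256 * (A' : ℝ)) * 4 ^ μ ≤ (c0 : ℝ) / 64 := by
      rw [div_mul_eq_mul_div, one_mul, div_le_div_iff₀ (by positivity) (by norm_num)]
      nlinarith
    rcases Nat.lt_or_ge c0 2 with h | h
    · refine ⟨row true (vx oo up (lw t (e j) (e (j + 1))) 0), ?_⟩
      have h1 : 1 ≤ (wcells (b - μ) b (row true (vx oo up (lw t (e j) (e (j + 1))) 0))
          (lw t (e j) (e (j + 1)))).card := by
        apply Nat.succ_le_of_lt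
        rw [card_pos]
        unfold wcells
        refine ⟨cell (b - μ) (vx oo up (lw t (e j) (e (j + 1))) 0), ?_⟩
        rw [mem_image]
        refine ⟨0, ?_, rfl⟩
        rw [mem_filter, mem_range]
        refine ⟨Nat.succ_pos _, le_refl _, ?_⟩
        have : (0 : ℤ) < 2 ^ (b + 1) := by positivity
        omega
      have h2 : (1 : ℝ) ≤ ((wcells (b - μ) b (row true (vx oo up (lw t (e j) (e (j + 1))) 0))
          (lw t (e j) (e (j + 1)))).card : ℝ) := by exact_mod_cast h1
      have h3 : (c0 : ℝ) ≤ 2 := by exact_mod_cast h.le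
      linarith
    · refine ⟨z, ?_⟩
      have h1 : c0 ≤ 32 * (wcells (b - μ) b z (lw t (e j) (e (j + 1)))).card := by omega
      have h2 : (c0 : ℝ) ≤ 32 * ((wcells (b - μ) b z (lw t (e j) (e (j + 1)))).card : ℝ) := by exact_mod_cast h1
      linarith

end SDN

end HexObs
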