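import Pool.Agent.SDN.Defs
import Pool.Agent.SDN.GeoDefs

/-!
SDN, W1: the folds of a word in rows, the visited cells.
-/

set_option autoImplicit false

namespace HexObs

namespace SDN

open Finset TS

/-- sign of the leaf number j -/
def sgl (u j : ℕ) : ℤ := if Even (u + j) then -1 else 1

namespace WRL

theorem sgl_mul (u j : ℕ) (x : ℤ) : sgl u j * x = Tight.sg (u + j) x := by
  unfold sgl Tight.sg
  split_ifs
  · rw [neg_one_mul]
  · rw [one_mul]

theorem mono {u j : ℕ} {x y : ℤ} (h : Tight.sg (u + j) x ≤ Tight.sg (u + j) y) :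
    sgl u j * (x / 3) ≤ sgl u j * (y / 3) := by
  unfold Tight.sg at h
  unfold sgl
  split_ifs at h ⊢ <;> omega

theorem diff {x y K : ℤ} (h : x - y < 3 * K - 2) : x / 3 - y / 3 < K := by omega

theorem diff_sg {u j : ℕ} {x y K : ℤ} (h : Tight.sg (u + j) x - Tight.sg (u + j) y < 3 * K - 2) :
    sgl u j * (x / 3) - sgl u j * (y / 3) < K := by
  unfold Tight.sg at h
  unfold sgl
  split_ifs at h ⊢ <;> omega

end WRL

/-- the folds of a word, in rows -/
theorem rl_of_lf {dir : Bool} {b m u : ℕ} {t : List Bool} {e : ℕ → ℕ} (h : Lf dir b t m u e) :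
    SDG.RL (rws dir t) t.length (2 ^ b) m (sgl u) e where
  sgn j := by
    unfold sgl
    split_ifs
    · exact Or.inr rfl
    · exact Or.inl rfl
  lt := h.lt
  le := h.le
  lo j hj i h1 h2 := by
    rcases eq_or_lt_of_le h1 with h3 | h3
    · rw [h3]
    · exact WRL.mono (h.lo j hj i h3 h2).le
  hi j hj i h1 h2 := WRL.mono (h.hi j hj i h1 h2)
  small j hj i i' h1 h2 h3 := WRL.diff_sg (h.small j hj i i' h1 h2 h3)
  start i i' h1 h2 := WRL.diff (h.start i i' h1 h2)
  fin i i' h1 h2 h3 h4 := WRL.diff (h.fin i i' h1 h2 h3 h4)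

theorem nb_eq (b : ℕ) (t : List Bool) :
    nb b t = (SDG.Bx (rws false t) (rws true t) (2 ^ b) 0 t.length).card := by
  unfold nb cells SDG.Bx
  rw [Nat.range_succ_eq_Icc_zero]
  rfl

end SDN

end HexObs
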