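import Pool.Agent.SDN.Geo5
import Pool.Agent.SDN.Geo7
import Pool.Agent.SDN.CoarseW
import Pool.Agent.SDN.WordRL
import Pool.Agent.SDN.WordNb
import Pool.Agent.SDN.WordFil

/-!
SDN, W4: filling leaves.
-/

set_option autoImplicit false

namespace HexObs

namespace SDN

open Finset TS

open scoped ENNReal

namespace FillDet

lemma cw_eq (r : ℤ) (w : ℕ → ℤ) (i : ℕ) : SDG.cw r w i = cw r w i := by
  induction i with
  | zero => rfl
  | succ n ih =>
    show (if r ∣ w (n + 1) then w (n + 1) / r else SDG.cw r w n) = if r ∣ w (n + 1) then w (n + 1) / r else cw r w n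
    rw [ih]

lemma XX_eq (r : ℤ) (w : ℕ → ℤ) (n : ℕ) : SDG.XX r w n = XX r w n := by
  unfold SDG.XX XX
  simp only [cw_eq]

lemma nint_mono {f : ℕ → ℤ} {n : ℕ} {d : ℤ} {N N' : ℝ} (h : SDG.NInt f n d N) (hN : N ≤ N') : SDG.NInt f n d N' :=
  fun K h1 h2 => (h K h1 h2).trans hN

/-- dropping the first and the last leaf -/
lemma card_drop (m : ℕ) (P Q : ℕ → Prop) [DecidablePred P] [DecidablePred Q]
    (h : ∀ j, 1 ≤ j → j + 2 ≤ m → P j → Q (j - 1)) :
    ((range m).filter P).card ≤ ((range (m - 2)).filter Q).card + 2 := by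
  have h1 : (range m).filter P ⊆ {0, m - 1} ∪ ((range (m - 2)).filter Q).image (fun i => 1 + i) := by
    intro j hj
    rw [Finset.mem_filter, Finset.mem_range] at hj
    rw [Finset.mem_union, Finset.mem_insert, Finset.mem_singleton, Finset.mem_image]
    rcases Nat.eq_zero_or_pos j with h2 | h2
    · exact Or.inl (Or.inl h2)
    · rcases Nat.lt_or_ge (j + 1) m with h3 | h3
      · refine Or.inr ⟨j - 1, ?_, by omega⟩
        rw [Finset.mem_filter, Finset.mem_range]
        exact ⟨by omega, h j h2 (by omega) hj.2⟩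
      · exact Or.inl (Or.inr (by omega))
  calc ((range m).filter P).card ≤ _ := Finset.card_le_card h1
    _ ≤ _ := Finset.card_union_le _ _
    _ ≤ 2 + ((range (m - 2)).filter Q).card := Nat.add_le_add Finset.card_le_two Finset.card_image_le
    _ = _ := Nat.add_comm _ _

lemma filter_lws (t : List Bool) (e : ℕ → ℕ) (k : ℕ) (W : List Bool → Prop) [DecidablePred W] :
    ((lws t e 1 k).filter (fun g => decide (W g))).length =
      ((range k).filter fun i => W (lw t (e (1 + i)) (e (1 + i + 1)))).card := by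
  unfold lws
  rw [List.filter_map, List.length_map]
  show _ = ((Finset.range k).filter _).card
  rw [Finset.card_def, Finset.filter_val]
  show _ = Multiset.card (Multiset.filter _ (List.range k : Multiset ℕ))
  rw [Multiset.filter_coe, Multiset.coe_card]
  rfl

end FillDet

open FillDet

open Classical in
/-- FILLING LEAVES: if the crossings are controlled at the scale b and more than half of the subcells are visited, then
many leaves fill -/
theorem fill_det : ∀ B : ℝ, 1 ≤ B → ∃ (i0 : ℕ) (κ c E : ℝ), 0 < κ ∧ 0 < c ∧ 0 < E ∧ ∀ (L b μ : ℕ) (t : List Bool),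
    t ∈ WL L → 1 ≤ μ → μ ≤ b → b ≤ L → E * 2 ^ (L - b) ≤ nb b t →
    (∀ (dir : Bool) (j : ℕ), (XX (2 ^ (b + j)) (rws dir t) t.length : ℝ) ≤ B * (2 / 5) ^ j * nb b t) →
    ∀ (m u : ℕ) (e : ℕ → ℕ), Lf false b t m u e → (m : ℝ) ≤ B * nb b t → 4 ^ μ * nb b t < 2 * nb (b - μ) t →
    c * nb b t ≤ (((lws t e 1 (m - 2)).filter (fun g => decide (g ∈ Fil b i0 (b - μ) κ))).length : ℝ) := by
  intro B hB
  obtain ⟨i0, C3, A', hC3, hA', hmain⟩ := SDG.short_main B B (5 / 2) hB hB (by norm_num)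
  obtain ⟨κ, hκ, hfil⟩ := shfill_fil A' i0 hA'
  have hC : (1 : ℝ) ≤ C3 := by exact_mod_cast hC3
  refine ⟨i0, κ, 1 / (16 * C3), 1024 + 64 * C3, hκ, by positivity, by positivity, ?_⟩
  intro L b μ t ht hμ hμb hbL hE hX m u e hLf hm hnb
  have hp : (1 : ℝ) ≤ 2 ^ (L - b) := one_le_pow₀ (by norm_num)
  have hN1 : (1024 : ℝ) * 2 ^ (L - b) ≤ nb b t := by nlinarith
  have hN2 : (64 : ℝ) * C3 ≤ nb b t := by nlinarith
  have hnint : ∀ (dir : Bool) (j : ℕ), SDG.NInt (rws dir t) t.length (2 ^ (b + j + 1))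
      (B * (5 / 2 : ℝ)⁻¹ ^ j * (SDG.Bx (rws false t) (rws true t) (2 ^ b) 0 t.length).card) := by
    intro dir j
    have h1 := SDG.nint_XX (rws dir t) t.length (2 ^ (b + j)) (by positivity) (rws_zero dir t) (rws_step dir t)
    have e1 : (2 : ℤ) * 2 ^ (b + j) = 2 ^ (b + j + 1) := by rw [pow_succ, mul_comm]
    rw [e1, XX_eq] at h1
    apply nint_mono h1
    rw [← nb_eq]
    have h2 := hX dir j
    have e2 : (5 / 2 : ℝ)⁻¹ = 2 / 5 := by norm_num
    rw [e2]
    exact h2
  have key := hmain (rws false t) (rws true t) t.length b μ m (sgl u) e (2 ^ L) hμb (rl_of_lf hLf)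
    (by
      rw [← nb_eq]
      have : (0 : ℝ) ≤ nb b t := Nat.cast_nonneg _
      nlinarith)
    (hnint false) (hnint true) (fun i hi => rws_le ht true hi)
    (by
      rw [← nb_eq]
      have e3 : (2 : ℤ) ^ L / 2 ^ b = 2 ^ (L - b) := by
        have : (2 : ℤ) ^ L = 2 ^ (L - b) * 2 ^ b := by rw [← pow_add, Nat.sub_add_cancel hbL]
        rw [this, Int.mul_ediv_cancel _ (by positivity)]
      rw [e3]
      have h3 : (1024 : ℤ) * 2 ^ (L - b) ≤ nb b t := by exact_mod_cast hN1
      have h4 : (1 : ℤ) ≤ 2 ^ (L - b) := one_le_pow₀ (by norm_num)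
      linarith)
  rw [← nb_eq, ← nb_eq] at key
  have hF := card_drop m (SDG.ShFill (rws false t) (rws true t) b μ i0 A' e)
    (fun i => lw t (e (1 + i)) (e (1 + i + 1)) ∈ Fil b i0 (b - μ) κ) (by
      intro j h1 h2 h3
      have h4 := hfil b μ m u t e ht.1 (by omega) hμb hLf j h1 h2 h3
      have e4 : 1 + (j - 1) = j := by omega
      simp only [e4]
      exact h4)
  have e5 := filter_lws t e (m - 2) (fun g => g ∈ Fil b i0 (b - μ) κ)
  rw [e5]
  have hF' : (((range m).filter (SDG.ShFill (rws false t) (rws true t) b μ i0 A' e)).card : ℝ) ≤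
      (((range (m - 2)).filter fun i => lw t (e (1 + i)) (e (1 + i + 1)) ∈ Fil b i0 (b - μ) κ).card : ℝ) + 2 := by
    exact_mod_cast hF
  generalize (((range m).filter (SDG.ShFill (rws false t) (rws true t) b μ i0 A' e)).card : ℝ) = F at hF' key
  generalize (((range (m - 2)).filter fun i => lw t (e (1 + i)) (e (1 + i + 1)) ∈ Fil b i0 (b - μ) κ).card : ℝ) = F2
    at hF' ⊢
  have hnb' : (4 : ℝ) ^ μ * nb b t < 2 * nb (b - μ) t := by exact_mod_cast hnb
  have h4 : (0 : ℝ) < 4 ^ μ := by positivity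
  have h5 : (nb b t : ℝ) < 8 * C3 * F := by
    have h6 : (4 : ℝ) ^ μ * nb b t < 4 ^ μ * (3 / 4 * nb b t + 2 * C3 * F) := by nlinarith
    have h7 := lt_of_mul_lt_mul_left h6 h4.le
    linarith
  rw [div_mul_eq_mul_div, one_mul, div_le_iff₀ (by positivity)]
  nlinarith

end SDN

end HexObs
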