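import Mathlib

/-!
SDN, deterministic part, module G6: numbers.
-/

set_option autoImplicit false

namespace HexObs

namespace SDG

open Finset Classical

section G6

private lemma g6_mono (top : ℕ) (ν : ℕ → ℝ) (hm : ∀ b, b < top → ν b ≤ ν (b + 1)) (b k : ℕ) (h : b + k ≤ top) :
    ν b ≤ ν (b + k) := by
  induction k with
  | zero => exact le_rfl
  | succ k ih => exact (ih (by omega)).trans (hm (b + k) (by omega))

/-- a nondecreasing positive sequence that doubles over the μ steps before every dense scale grows exponentially -/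
theorem dense_growth (μ : ℕ) (hμ : 1 ≤ μ) (lo hi top : ℕ) (h1 : hi ≤ top) (ν : ℕ → ℝ) (h0 : 0 < ν 0)
    (hm : ∀ b, b < top → ν b ≤ ν (b + 1))
    (hd : ∀ b, lo + μ ≤ b → b ≤ hi → (∀ i, b + i ≤ top → ν (b + i) ≤ (2 : ℝ) ^ ((i : ℝ) / 8) * ν b) →
      2 * ν (b - μ) ≤ ν b) :
    (2 : ℝ) ^ (((hi : ℝ) - lo - μ) / (8 * (μ + 1))) * ν 0 ≤ ν top := by
  have hmono := g6_mono top ν hm
  have hpos : ∀ b, b ≤ top → 0 < ν b := by
    intro b hb
    have h2 := hmono 0 b (by omega)
    rw [Nat.zero_add] at h2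
    exact lt_of_lt_of_le h0 h2
  have hden : (0 : ℝ) < 8 * (μ + 1) := by positivity
  have key : ∀ k b : ℕ, top - b ≤ k → lo ≤ b → b ≤ top →
      (2 : ℝ) ^ (((hi : ℝ) - b - μ) / (8 * (μ + 1))) * ν b ≤ ν top := by
    intro k
    induction k with
    | zero =>
      intro b hk _ hb
      have hb' : b = top := by omega
      subst hb'
      have h2 : (2 : ℝ) ^ (((hi : ℝ) - b - μ) / (8 * (μ + 1))) ≤ 1 := by
        apply Real.rpow_le_one_of_one_le_of_nonpos (by norm_num)
        apply div_nonpos_of_nonpos_of_nonneg _ hden.le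
        have h3 : (hi : ℝ) ≤ b := by exact_mod_cast h1
        have h4 : (0 : ℝ) ≤ μ := Nat.cast_nonneg μ
        linarith
      have h3 := (hpos b le_rfl).le
      nlinarith
    | succ k ih =>
      intro b hk hlo hb
      rcases Nat.lt_or_ge hi (b + μ) with h2 | h2
      · have h3 : (2 : ℝ) ^ (((hi : ℝ) - b - μ) / (8 * (μ + 1))) ≤ 1 := by
          apply Real.rpow_le_one_of_one_le_of_nonpos (by norm_num)
          apply div_nonpos_of_nonpos_of_nonneg _ hden.le
          have h3 : (hi : ℝ) ≤ b + μ := by exact_mod_cast h2.le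
          linarith
        have h4 := hmono b (top - b) (by omega)
        rw [Nat.add_sub_cancel' hb] at h4
        have h5 := (hpos b hb).le
        nlinarith
      · by_cases hdn : ∀ i, b + μ + i ≤ top → ν (b + μ + i) ≤ (2 : ℝ) ^ ((i : ℝ) / 8) * ν (b + μ)
        · have h3 := hd (b + μ) (by omega) h2 hdn
          rw [Nat.add_sub_cancel] at h3
          have h4 := ih (b + μ) (by omega) (by omega) (by omega)
          push_cast at h4
          have e1 : ((hi : ℝ) - b - μ) / (8 * (μ + 1)) =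
              ((hi : ℝ) - (b + μ) - μ) / (8 * (μ + 1)) + μ / (8 * (μ + 1)) := by
            rw [← add_div]
            congr 1
            ring
          have h5 : (2 : ℝ) ^ ((μ : ℝ) / (8 * (μ + 1))) ≤ 2 := by
            have h6 : (2 : ℝ) ^ ((μ : ℝ) / (8 * (μ + 1))) ≤ 2 ^ (1 : ℝ) := by
              apply Real.rpow_le_rpow_of_exponent_le (by norm_num)
              rw [div_le_one hden]
              have h4 : (0 : ℝ) ≤ μ := Nat.cast_nonneg μ
              linarith
            rwa [Real.rpow_one] at h6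
          rw [e1, Real.rpow_add (by norm_num)]
          set P := (2 : ℝ) ^ (((hi : ℝ) - (b + μ) - μ) / (8 * (μ + 1))) with hP
          set R := (2 : ℝ) ^ ((μ : ℝ) / (8 * (μ + 1))) with hR
          have hP0 : 0 < P := by rw [hP]; positivity
          have hR0 : 0 < R := by rw [hR]; positivity
          have h7 := (hpos b hb).le
          calc P * R * ν b ≤ P * 2 * ν b := by
                apply mul_le_mul_of_nonneg_right _ h7
                exact mul_le_mul_of_nonneg_left h5 hP0.le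
            _ = P * (2 * ν b) := by ring
            _ ≤ P * ν (b + μ) := mul_le_mul_of_nonneg_left h3 hP0.le
            _ ≤ ν top := h4
        · push Not at hdn
          obtain ⟨i, hi1, hi2⟩ := hdn
          have hi0 : 1 ≤ i := by
            rcases Nat.eq_zero_or_pos i with h | h
            · rw [h] at hi2
              simp at hi2
            · exact h
          have h4 := ih (b + μ + i) (by omega) (by omega) hi1
          push_cast at h4
          have h6 : ν b ≤ ν (b + μ) := hmono b μ (by omega)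
          have e1 : ((hi : ℝ) - b - μ) / (8 * (μ + 1)) =
              ((hi : ℝ) - (b + μ + i) - μ) / (8 * (μ + 1)) + (μ + i) / (8 * (μ + 1)) := by
            rw [← add_div]
            congr 1
            ring
          have h5 : (2 : ℝ) ^ (((μ : ℝ) + i) / (8 * (μ + 1))) ≤ (2 : ℝ) ^ ((i : ℝ) / 8) := by
            apply Real.rpow_le_rpow_of_exponent_le (by norm_num)
            rw [div_le_div_iff₀ hden (by norm_num)]
            have h8 : (1 : ℝ) ≤ i := by exact_mod_cast hi0
            have h9 : (0 : ℝ) ≤ μ := Nat.cast_nonneg μ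
            nlinarith
          rw [e1, Real.rpow_add (by norm_num)]
          set P := (2 : ℝ) ^ (((hi : ℝ) - (b + μ + i) - μ) / (8 * (μ + 1))) with hP
          set R := (2 : ℝ) ^ (((μ : ℝ) + i) / (8 * (μ + 1))) with hR
          have hP0 : 0 < P := by rw [hP]; positivity
          have hR0 : 0 < R := by rw [hR]; positivity
          have h7 := (hpos b hb).le
          have h8 := (hpos (b + μ) (by omega)).le
          calc P * R * ν b ≤ P * (2 : ℝ) ^ ((i : ℝ) / 8) * ν (b + μ) := by
                apply mul_le_mul _ h6 h7 (by positivity)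
                exact mul_le_mul_of_nonneg_left h5 hP0.le
            _ = P * ((2 : ℝ) ^ ((i : ℝ) / 8) * ν (b + μ)) := by ring
            _ ≤ P * ν (b + μ + i) := mul_le_mul_of_nonneg_left hi2.le hP0.le
            _ ≤ ν top := h4
  rcases Nat.lt_or_ge hi (lo + μ) with h2 | h2
  · have h3 : (2 : ℝ) ^ (((hi : ℝ) - lo - μ) / (8 * (μ + 1))) ≤ 1 := by
      apply Real.rpow_le_one_of_one_le_of_nonpos (by norm_num)
      apply div_nonpos_of_nonpos_of_nonneg _ hden.le
      have h3 : (hi : ℝ) ≤ lo + μ := by exact_mod_cast h2.le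
      linarith
    have h4 := hmono 0 top (by omega)
    rw [Nat.zero_add] at h4
    nlinarith
  · have h3 := key top lo (by omega) le_rfl (by omega)
    have h4 := hmono 0 lo (by omega)
    rw [Nat.zero_add] at h4
    refine le_trans ?_ h3
    exact mul_le_mul_of_nonneg_left h4 (by positivity)

/-- at a dense scale D b ≤ 4 nb b -/
theorem dense_D (top b : ℕ) (hb : b ≤ top) (nb : ℕ → ℝ) (Y : ℝ) (h0 : 0 ≤ nb b)
    (hd : ∀ i, b + i ≤ top → (4 : ℝ) ^ (b + i) * nb (b + i) ≤ (2 : ℝ) ^ ((i : ℝ) / 8) * (4 ^ b * nb b))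
    (hY : 2 * (Y * (5 / 2 : ℝ) ^ (top + 1 - b)) ≤ nb b) :
    ∑ i ∈ range (top + 1 - b), (5 / 2 : ℝ) ^ i * nb (b + i) + Y * (5 / 2 : ℝ) ^ (top + 1 - b) ≤ 4 * nb b := by
  have h2 : (2 : ℝ) ^ ((1 : ℝ) / 8) ≤ 11 / 10 := by
    have h3 : (2 : ℝ) ^ ((1 : ℝ) / 8) ≤ ((11 / 10 : ℝ) ^ (8 : ℝ)) ^ ((1 : ℝ) / 8) := by
      apply Real.rpow_le_rpow (by norm_num) _ (by norm_num)
      have h4 : ((11 / 10 : ℝ)) ^ (8 : ℝ) = (11 / 10 : ℝ) ^ (8 : ℕ) := by
        rw [← Real.rpow_natCast]
        norm_num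
      rw [h4]
      norm_num
    rw [← Real.rpow_mul (by norm_num)] at h3
    norm_num at h3
    exact h3
  have h3 : ∀ i : ℕ, (2 : ℝ) ^ ((i : ℝ) / 8) ≤ (11 / 10) ^ i := by
    intro i
    have e : (i : ℝ) / 8 = (1 / 8) * (i : ℝ) := by ring
    rw [e, Real.rpow_mul (by norm_num), Real.rpow_natCast]
    exact pow_le_pow_left₀ (by positivity) h2 i
  have h4 : ∀ i ∈ range (top + 1 - b), (5 / 2 : ℝ) ^ i * nb (b + i) ≤ (11 / 16) ^ i * nb b := by
    intro i hi
    rw [mem_range] at hi
    have h5 := hd i (by omega)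
    have h6 : (4 : ℝ) ^ i * nb (b + i) ≤ (11 / 10) ^ i * nb b := by
      have h7 : (2 : ℝ) ^ ((i : ℝ) / 8) * (4 ^ b * nb b) ≤ (11 / 10) ^ i * (4 ^ b * nb b) :=
        mul_le_mul_of_nonneg_right (h3 i) (by positivity)
      have h8 := h5.trans h7
      rw [pow_add] at h8
      have h9 : (0 : ℝ) < 4 ^ b := by positivity
      have e1 : (4 : ℝ) ^ b * 4 ^ i * nb (b + i) = 4 ^ b * (4 ^ i * nb (b + i)) := by ring
      have e2 : (11 / 10 : ℝ) ^ i * (4 ^ b * nb b) = 4 ^ b * ((11 / 10) ^ i * nb b) := by ring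
      rw [e1, e2] at h8
      exact le_of_mul_le_mul_left h8 h9
    have e1 : (5 / 2 : ℝ) ^ i = (5 / 8) ^ i * 4 ^ i := by
      rw [← mul_pow]
      norm_num
    have e2 : (11 / 16 : ℝ) ^ i = (5 / 8) ^ i * (11 / 10) ^ i := by
      rw [← mul_pow]
      norm_num
    rw [e1, e2, mul_assoc, mul_assoc]
    exact mul_le_mul_of_nonneg_left h6 (by positivity)
  have h5 : ∑ i ∈ range (top + 1 - b), (5 / 2 : ℝ) ^ i * nb (b + i) ≤ 16 / 5 * nb b := by
    refine (sum_le_sum h4).trans ?_
    rw [← sum_mul]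
    apply mul_le_mul_of_nonneg_right _ h0
    rw [geom_sum_eq (by norm_num)]
    have h6 : (0 : ℝ) ≤ (11 / 16) ^ (top + 1 - b) := by positivity
    rw [div_le_iff_of_neg (by norm_num)]
    linarith
  linarith

/-- from the recursion X c ≤ 2 X (c+1) + 2 m c and m c ≤ A D c for all scales c ≥ b -/
theorem cross_D (top b : ℕ) (hb : b ≤ top) (nb X m D : ℕ → ℝ) (Y A : ℝ) (hA : 0 ≤ A) (hY : 0 ≤ Y) (h0 : ∀ i, 0 ≤ nb i)
    (hD : ∀ c, b ≤ c → c ≤ top → D c = ∑ i ∈ range (top + 1 - c), (5 / 2 : ℝ) ^ i * nb (c + i) +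
      Y * (5 / 2 : ℝ) ^ (top + 1 - c))
    (hm : ∀ c, b ≤ c → c ≤ top → m c ≤ A * D c) (hX : ∀ c, b ≤ c → c ≤ top → X c ≤ 2 * X (c + 1) + 2 * m c)
    (htop : ∀ c, top < c → X c ≤ 0) (hDb : D b ≤ 4 * nb b) (j : ℕ) :
    X (b + j) ≤ 40 * A * (2 / 5 : ℝ) ^ j * nb b := by
  have hD0 : 0 ≤ D b := by
    rw [hD b le_rfl hb]
    apply add_nonneg
    · exact sum_nonneg (fun i _ => mul_nonneg (by positivity) (h0 _))
    · positivity
  have hstep : ∀ c, b ≤ c → c + 1 ≤ top → D (c + 1) ≤ 2 / 5 * D c := by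
    intro c h1 h2
    rw [hD c h1 (by omega), hD (c + 1) (by omega) h2]
    have e1 : top + 1 - c = (top + 1 - (c + 1)) + 1 := by omega
    rw [e1, sum_range_succ', pow_succ]
    have e2 : ∑ i ∈ range (top + 1 - (c + 1)), (5 / 2 : ℝ) ^ (i + 1) * nb (c + (i + 1)) =
        5 / 2 * ∑ i ∈ range (top + 1 - (c + 1)), (5 / 2 : ℝ) ^ i * nb (c + 1 + i) := by
      rw [mul_sum]
      apply sum_congr rfl
      intro i _
      rw [show c + (i + 1) = c + 1 + i by ring, pow_succ]
      ring
    rw [e2]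
    have h3 := h0 (c + 0)
    have h4 : (5 / 2 : ℝ) ^ 0 * nb (c + 0) = nb (c + 0) := by rw [pow_zero, one_mul]
    rw [h4]
    linarith
  have hk : ∀ k, b + k ≤ top → D (b + k) ≤ (2 / 5) ^ k * D b := by
    intro k
    induction k with
    | zero =>
      intro _
      simp
    | succ k ih =>
      intro h1
      have h2 := hstep (b + k) (by omega) (by omega)
      have h3 := ih (by omega)
      rw [pow_succ]
      calc D (b + (k + 1)) = D (b + k + 1) := rfl
        _ ≤ 2 / 5 * D (b + k) := h2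
        _ ≤ 2 / 5 * ((2 / 5) ^ k * D b) := mul_le_mul_of_nonneg_left h3 (by norm_num)
        _ = (2 / 5) ^ k * (2 / 5) * D b := by ring
  have hmain : ∀ s j : ℕ, top + 1 - (b + j) ≤ s → X (b + j) ≤ 10 * A * (2 / 5) ^ j * D b := by
    intro s
    induction s with
    | zero =>
      intro j hj
      exact (htop _ (by omega)).trans (by positivity)
    | succ s ih =>
      intro j hj
      rcases Nat.lt_or_ge top (b + j) with h1 | h1
      · exact (htop _ h1).trans (by positivity)
      · have h2 := hX (b + j) (by omega) h1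
        have h3 := ih (j + 1) (by omega)
        have h4 := hm (b + j) (by omega) h1
        have h5 := mul_le_mul_of_nonneg_left (hk j h1) hA
        rw [pow_succ] at h3
        have e : X (b + j + 1) = X (b + (j + 1)) := rfl
        rw [e] at h2
        calc X (b + j) ≤ 2 * X (b + (j + 1)) + 2 * m (b + j) := h2
          _ ≤ 2 * (10 * A * ((2 / 5) ^ j * (2 / 5)) * D b) + 2 * (A * ((2 / 5) ^ j * D b)) := by linarith
          _ = 10 * A * (2 / 5) ^ j * D b := by ring
  refine (hmain _ j le_rfl).trans ?_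
  calc 10 * A * (2 / 5) ^ j * D b ≤ 10 * A * (2 / 5) ^ j * (4 * nb b) :=
        mul_le_mul_of_nonneg_left hDb (by positivity)
    _ = 40 * A * (2 / 5 : ℝ) ^ j * nb b := by ring

end G6

end SDG

end HexObs
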