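import Pool.Agent.SDN.Hyst
import Pool.Agent.SDN.WordNb
import Pool.Agent.SDN.CrossDD
import Pool.Agent.SDN.FillDet
import Pool.Agent.SDN.Geo6

/-!
SDN, module W7: the dense scale of the final contradiction.
-/

set_option autoImplicit false

namespace HexObs

namespace SDN

open Finset TS

open scoped ENNReal

namespace DE

lemma nb_pow (t : List Bool) (b : ℕ) : (nb 0 t : ℝ) ≤ 4 ^ b * nb b t := by
  induction b with
  | zero => simp
  | succ b ih =>
    have h' : (nb b t : ℝ) ≤ 4 * nb (b + 1) t := by exact_mod_cast nb_four b t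
    calc (nb 0 t : ℝ) ≤ 4 ^ b * nb b t := ih
      _ ≤ 4 ^ b * (4 * nb (b + 1) t) := by gcongr
      _ = 4 ^ (b + 1) * nb (b + 1) t := by ring

lemma nb_zero_low {L : ℕ} {t : List Bool} {e0 : ℝ} (ht : t ∈ WL L)
    (hl : (2 : ℝ) ^ ((2 - e0) * L) ≤ t.length) : (2 : ℝ) ^ ((2 - e0) * L - 1) ≤ nb 0 t := by
  have h' : (t.length : ℝ) + 1 ≤ 2 * nb 0 t := by exact_mod_cast nb_zero ht.1
  rw [Real.rpow_sub (by norm_num), Real.rpow_one]
  linarith

lemma four_pow (b : ℕ) : (4 : ℝ) ^ b = 2 ^ (2 * (b : ℝ)) := by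
  rw [Real.rpow_mul (by norm_num)]
  norm_num

lemma nb_low {L b : ℕ} {t : List Bool} {e0 : ℝ} (ht : t ∈ WL L)
    (hl : (2 : ℝ) ^ ((2 - e0) * L) ≤ t.length) :
    (2 : ℝ) ^ (2 * ((L : ℝ) - b) - e0 * L - 1) ≤ nb b t := by
  have h1 := nb_zero_low ht hl
  have h2 := nb_pow t b
  have h3 : (2 : ℝ) ^ (2 * ((L : ℝ) - b) - e0 * L - 1) * 4 ^ b = 2 ^ ((2 - e0) * L - 1) := by
    rw [four_pow, ← Real.rpow_add (by norm_num)]
    congr 1
    ring
  have h4 : (0 : ℝ) < 4 ^ b := by positivity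
  refine le_of_mul_le_mul_right ?_ h4
  rw [h3]
  linarith

lemma five_half (k : ℕ) : (5 / 2 : ℝ) ^ k ≤ 2 ^ (4 / 3 * (k : ℝ)) := by
  have h1 : (5 / 2 : ℝ) ≤ 2 ^ (4 / 3 : ℝ) := by
    have h3 : ((5 / 2 : ℝ)) ^ (3 : ℕ) ≤ ((2 : ℝ) ^ (4 / 3 : ℝ)) ^ (3 : ℕ) := by
      rw [← Real.rpow_natCast, ← Real.rpow_natCast, ← Real.rpow_mul (by norm_num)]
      norm_num
    exact le_of_pow_le_pow_left₀ (by norm_num) (by positivity) h3
  rw [Real.rpow_mul (by norm_num), Real.rpow_natCast]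
  exact pow_le_pow_left₀ (by norm_num) h1 k

end DE

open DE

open Classical in
theorem dense_event : ∀ A : ℝ, 1 ≤ A → ∃ (B c κ : ℝ) (i0 : ℕ), 1 ≤ B ∧ 0 < c ∧ 0 < κ ∧ ∀ b0 μ : ℕ, 1 ≤ μ → 1 ≤ b0 →
    ∃ (e0 : ℝ) (L0 : ℕ), 0 < e0 ∧ e0 < 1 ∧ ∀ (L : ℕ) (t : List Bool), L0 ≤ L → t ∈ WL L →
    (2 : ℝ) ^ ((2 - e0) * L) ≤ t.length →
    (∀ (dir : Bool) (b m u : ℕ) (e : ℕ → ℕ), b0 ≤ b → b ≤ L + 2 → Lf dir b t m u e →
      (m : ℝ) ≤ A * DD L ((2 : ℝ) ^ (e0 * L)) b t) →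
    ∃ (b m u : ℕ) (e : ℕ → ℕ), b0 + μ ≤ b ∧ b ≤ L ∧ Lf false b t m u e ∧ (m : ℝ) ≤ B * nb b t ∧
      (dbl (2 ^ (b - 1)) (lws t e 1 (m - 2)) : ℝ) ≤ B * nb b t ∧
      c * nb b t ≤ (((lws t e 1 (m - 2)).filter (fun g => decide (g ∈ Fil b i0 (b - μ) κ))).length : ℝ) ∧
      (2 : ℝ) ^ ((L : ℝ) / 20) ≤ nb b t := by
  intro A hA
  obtain ⟨i0, κ, c, E, hκ, hc, hE, hfill⟩ := fill_det (60 * A) (by linarith)
  refine ⟨60 * A, c, κ, i0, by linarith, hc, hκ, ?_⟩
  intro b0 μ hμ hb0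
  obtain ⟨n, hn⟩ : ∃ n : ℕ, E ≤ n := exists_nat_ge E
  have hEn : E ≤ (2 : ℝ) ^ (n : ℝ) := by
    rw [Real.rpow_natCast]
    refine hn.trans ?_
    have := Nat.lt_two_pow_self (n := n)
    exact_mod_cast this.le
  have hμ0 : (0 : ℝ) < (μ : ℝ) + 1 := by positivity
  set e0 : ℝ := min (1 / 40) (1 / (20 * ((μ : ℝ) + 1))) with he0
  have he0pos : 0 < e0 := by
    rw [he0]
    exact lt_min (by norm_num) (by positivity)
  have he01 : e0 ≤ 1 / 40 := min_le_left _ _
  have he02 : e0 * (20 * ((μ : ℝ) + 1)) ≤ 1 := by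
    have h := min_le_right (1 / 40 : ℝ) (1 / (20 * ((μ : ℝ) + 1)))
    rw [← he0, le_div_iff₀ (by positivity)] at h
    exact h
  refine ⟨e0, 400 + 14 * (n + 1) + 2 * (b0 + 57 * (μ + 1) + 2), he0pos, by linarith, ?_⟩
  intro L t hL ht hlen hm
  by_contra hcon
  push Not at hcon
  have hLr : (400 : ℝ) + 14 * (n + 1) + 2 * (b0 + 57 * (μ + 1) + 2) ≤ L := by exact_mod_cast hL
  have hnr : (0 : ℝ) ≤ n := Nat.cast_nonneg n
  have hb0r : (0 : ℝ) ≤ b0 := Nat.cast_nonneg b0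
  have hμr : (1 : ℝ) ≤ μ := by exact_mod_cast hμ
  have hL400 : (400 : ℝ) ≤ L := by nlinarith
  have he0L : e0 * L ≤ L / 40 := by
    have := mul_le_mul_of_nonneg_right he01 (by linarith : (0 : ℝ) ≤ L)
    linarith
  have he0L0 : 0 ≤ e0 * L := by positivity
  have hY : (1 : ℝ) ≤ (2 : ℝ) ^ (e0 * L) := Real.one_le_rpow (by norm_num) he0L0
  set hi : ℕ := 9 * L / 10 with hhi
  have hhi1 : (hi : ℝ) ≤ 9 * L / 10 := by
    have h : 10 * hi ≤ 9 * L := by omega
    have h' : (10 : ℝ) * hi ≤ 9 * L := by exact_mod_cast h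
    linarith
  have hhi2 : (9 * L / 10 : ℝ) - 1 ≤ hi := by
    have h : 9 * L ≤ 10 * hi + 10 := by omega
    have h' : (9 : ℝ) * L ≤ 10 * hi + 10 := by exact_mod_cast h
    linarith
  have hν0 : (2 : ℝ) ^ ((2 - e0) * L - 1) ≤ nb 0 t := nb_zero_low ht hlen
  have hν0pos : (0 : ℝ) < nb 0 t := by
    have := nb_pos 0 t
    exact_mod_cast this
  -- growth
  have hgrow := SDG.dense_growth μ hμ b0 hi (L + 2) (by omega) (fun b => (4 : ℝ) ^ b * nb b t) (by simpa using hν0pos)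
    (fun b _ => by
      have h' : (nb b t : ℝ) ≤ 4 * nb (b + 1) t := by exact_mod_cast nb_four b t
      calc (4 : ℝ) ^ b * nb b t ≤ 4 ^ b * (4 * nb (b + 1) t) := by gcongr
        _ = 4 ^ (b + 1) * nb (b + 1) t := by ring)
    (by
      intro b hb1 hb2 hdense
      -- the numbers
      have hbr : (b : ℝ) ≤ 9 * L / 10 := le_trans (by exact_mod_cast hb2) hhi1
      have hbL : b ≤ L := by
        have : hi ≤ L := by omega
        omega
      have hb0b : b0 ≤ b := by omega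
      have hb1b : 1 ≤ b := by omega
      have hnbl := nb_low (b := b) ht hlen
      have hnbpos : (0 : ℝ) < nb b t := by
        have := nb_pos b t
        exact_mod_cast this
      have hD : DD L ((2 : ℝ) ^ (e0 * L)) b t ≤ 4 * nb b t := by
        have h := SDG.dense_D (L + 2) b (by omega) (fun i => (nb i t : ℝ)) ((2 : ℝ) ^ (e0 * L)) hnbpos.le
          (fun i hi' => by
            have := hdense i hi'
            simpa using this) ?_
        · exact h
        · refine le_trans ?_ hnbl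
          have h5 := five_half (L + 2 + 1 - b)
          have hc1 : ((L + 2 + 1 - b : ℕ) : ℝ) = (L : ℝ) - b + 3 := by
            rw [Nat.cast_sub (by omega)]
            push_cast
            ring
          rw [hc1] at h5
          calc 2 * ((2 : ℝ) ^ (e0 * L) * (5 / 2 : ℝ) ^ (L + 2 + 1 - b))
              ≤ 2 * ((2 : ℝ) ^ (e0 * L) * 2 ^ (4 / 3 * ((L : ℝ) - b + 3))) := by gcongr
            _ = 2 ^ (1 + (e0 * L + 4 / 3 * ((L : ℝ) - b + 3))) := by
                rw [Real.rpow_add (by norm_num) 1, Real.rpow_one, Real.rpow_add (by norm_num)]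
            _ ≤ (2 : ℝ) ^ (2 * ((L : ℝ) - b) - e0 * L - 1) := by
                apply Real.rpow_le_rpow_of_exponent_le (by norm_num)
                nlinarith
      -- leaves of all larger scales
      have hleaf : ∀ (dir : Bool) (c : ℕ), b ≤ c → c ≤ L + 2 → ∃ m u e, Lf dir c t m u e ∧
          (m : ℝ) ≤ A * DD L ((2 : ℝ) ^ (e0 * L)) c t := by
        intro dir c hc1 hc2
        obtain ⟨m, u, e, h⟩ := lf_exists dir c t
        exact ⟨m, u, e, h, hm dir c m u e (by omega) hc2 h⟩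
      have hXX : ∀ (dir : Bool) (j : ℕ), (XX (2 ^ (b + j)) (rws dir t) t.length : ℝ) ≤
          60 * A * (2 / 5) ^ j * nb b t := by
        intro dir j
        have h := XX_DD ht hA hY (hleaf dir) j
        have h25 : (0 : ℝ) ≤ 15 * A * (2 / 5) ^ j := by positivity
        calc (XX (2 ^ (b + j)) (rws dir t) t.length : ℝ) ≤ 15 * A * (2 / 5) ^ j * DD L ((2 : ℝ) ^ (e0 * L)) b t := h
          _ ≤ 15 * A * (2 / 5) ^ j * (4 * nb b t) := mul_le_mul_of_nonneg_left hD h25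
          _ = 60 * A * (2 / 5) ^ j * nb b t := by ring
      obtain ⟨m, u, e, hLf⟩ := lf_exists false b t
      have hmb : (m : ℝ) ≤ 4 * A * nb b t := by
        have h := hm false b m u e hb0b (by omega) hLf
        have h2 : A * DD L ((2 : ℝ) ^ (e0 * L)) b t ≤ A * (4 * nb b t) :=
          mul_le_mul_of_nonneg_left hD (by linarith)
        linarith
      have hAnb : 0 ≤ A * nb b t := by positivity
      have hmB : (m : ℝ) ≤ 60 * A * nb b t := by nlinarith
      have hdbl : (dbl (2 ^ (b - 1)) (lws t e 1 (m - 2)) : ℝ) ≤ 60 * A * nb b t := by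
        have h := dbl_DD ht hA hY hb1b (by omega) hLf (fun c hc1 hc2 => hleaf false c (by omega) hc2)
        have h2 : 10 * A * DD L ((2 : ℝ) ^ (e0 * L)) b t ≤ 10 * A * (4 * nb b t) :=
          mul_le_mul_of_nonneg_left hD (by linarith)
        nlinarith
      have hbig : (2 : ℝ) ^ ((L : ℝ) / 20) ≤ nb b t := by
        refine le_trans ?_ hnbl
        apply Real.rpow_le_rpow_of_exponent_le (by norm_num)
        linarith
      by_contra hlt
      simp only [not_le] at hlt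
      -- 4 ^ μ nb b < 2 nb (b - μ)
      have hsub : (4 : ℝ) ^ b = 4 ^ (b - μ) * 4 ^ μ := by
        rw [← pow_add]
        congr 1
        omega
      have hlt' : (4 : ℝ) ^ μ * nb b t < 2 * nb (b - μ) t := by
        have h4 : (0 : ℝ) < 4 ^ (b - μ) := by positivity
        rw [hsub] at hlt
        by_contra hge
        push Not at hge
        have := mul_le_mul_of_nonneg_left hge h4.le
        linarith
      have hlt'' : 4 ^ μ * nb b t < 2 * nb (b - μ) t := by exact_mod_cast hlt'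
      have hEb : E * 2 ^ (L - b) ≤ nb b t := by
        refine le_trans ?_ hnbl
        have hc2 : (2 : ℝ) ^ (L - b) = 2 ^ ((L : ℝ) - b) := by
          rw [← Nat.cast_sub hbL, Real.rpow_natCast]
        rw [hc2]
        calc E * (2 : ℝ) ^ ((L : ℝ) - b) ≤ 2 ^ (n : ℝ) * 2 ^ ((L : ℝ) - b) := by gcongr
          _ = 2 ^ ((n : ℝ) + ((L : ℝ) - b)) := by rw [Real.rpow_add (by norm_num)]
          _ ≤ (2 : ℝ) ^ (2 * ((L : ℝ) - b) - e0 * L - 1) := by
              apply Real.rpow_le_rpow_of_exponent_le (by norm_num)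
              nlinarith
      have hμb : μ ≤ b := by omega
      have hb0μ : b0 + μ ≤ b := hb1
      have hres := hfill L b μ t ht hμ hμb hbL hEb hXX m u e hLf hmB hlt''
      have hc' := hcon b m u e hb0μ hbL hLf hmB hdbl hres
      exact absurd hbig (not_le.mpr hc'))
  -- the contradiction
  have htop : (nb (L + 2) t : ℝ) ≤ 4 := by
    have := nb_top (b := L + 2) ht (by omega)
    exact_mod_cast this
  simp only [pow_zero, one_mul] at hgrow
  have h1 : (2 : ℝ) ^ (((hi : ℝ) - b0 - μ) / (8 * (μ + 1))) * 2 ^ ((2 - e0) * L - 1) ≤ 2 ^ (2 * (L : ℝ) + 6) := by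
    calc (2 : ℝ) ^ (((hi : ℝ) - b0 - μ) / (8 * (μ + 1))) * 2 ^ ((2 - e0) * L - 1)
        ≤ (2 : ℝ) ^ (((hi : ℝ) - b0 - μ) / (8 * (μ + 1))) * nb 0 t := by gcongr
      _ ≤ 4 ^ (L + 2) * nb (L + 2) t := hgrow
      _ ≤ 4 ^ (L + 2) * 4 := by gcongr
      _ = 2 ^ (2 * (L : ℝ) + 6) := by
          rw [← pow_succ, four_pow]
          congr 1
          push_cast
          ring
  rw [← Real.rpow_add (by norm_num), Real.rpow_le_rpow_left_iff (by norm_num)] at h1
  have h2 : ((hi : ℝ) - b0 - μ) / (8 * (μ + 1)) ≤ e0 * L + 7 := by linarith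
  rw [div_le_iff₀ (by positivity)] at h2
  have h3 : e0 * L * (8 * ((μ : ℝ) + 1)) ≤ 2 / 5 * L := by
    have := mul_le_mul_of_nonneg_right he02 (by linarith : (0 : ℝ) ≤ 2 / 5 * L)
    nlinarith
  nlinarith

end SDN

end HexObs
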