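import Pool.Agent.SDN.Defs
import Pool.Agent.Tight.LeafArcs

/-!
SDN part B3: the weight of the words that contain a chain, and the untilting of the weight.
-/

set_option autoImplicit false

namespace HexObs

namespace SDN

open Finset TS

open scoped ENNReal

open Rec8 (sw)

lemma unf_ne {gs : List (List Bool)} (hgs : gs ≠ []) (h : ∀ g ∈ gs, g ≠ []) : 1 ≤ (unf gs).length := by
  have h1 := unf_length h hgs
  obtain ⟨g, gs', rfl⟩ := List.exists_cons_of_ne_nil hgs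
  have h2 : 1 ≤ g.length := List.length_pos_iff.2 (h g (by simp))
  simp only [List.map_cons, List.sum_cons, List.length_cons] at h1
  omega

lemma xc_bounds : 1 ≤ 2 * xc ∧ xc ≤ 1 := by
  have h0 : xc = 1 / (2 * Real.cos (Real.pi / 8)) := rfl
  have h1 : 0 < Real.cos (Real.pi / 8) := cos_pos
  have h2 : Real.cos (Real.pi / 8) ≤ 1 := Real.cos_le_one _
  have h3 : 1 / 2 ≤ Real.cos (Real.pi / 8) := by
    rw [← Real.cos_pi_div_three]
    exact Real.cos_le_cos_of_nonneg_of_le_pi (by positivity) (by linarith [Real.pi_pos]) (by linarith [Real.pi_pos])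
  constructor
  · rw [h0, mul_one_div, le_div_iff₀ (by linarith)]
    linarith
  · rw [h0, div_le_one (by linarith)]
    linarith

/-- weight of the middle word -/
lemma wE_mid {gs : List (List Bool)} (hgs : gs ≠ []) (h : ∀ g ∈ gs, g ≠ []) :
    wE (unf gs).dropLast ≤ 2 * wl gs := by
  have h1 := unf_length h hgs
  have h0 := unf_ne hgs h
  have hn : 1 ≤ gs.length := List.length_pos_iff.2 hgs
  have hlen : (unf gs).dropLast.length + 1 = (gs.map List.length).sum + (gs.length - 1) := by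
    rw [List.length_dropLast]
    omega
  obtain ⟨x1, x2⟩ := xc_bounds
  have hx1 : ENNReal.ofReal xc ≤ 1 := by
    rw [← ENNReal.ofReal_one]
    exact ENNReal.ofReal_le_ofReal x2
  have hx2 : 1 ≤ 2 * ENNReal.ofReal xc := by
    have e : (2 : ℝ≥0∞) * ENNReal.ofReal xc = ENNReal.ofReal (2 * xc) := by
      rw [ENNReal.ofReal_mul (by norm_num)]
      norm_num
    rw [e, ← ENNReal.ofReal_one]
    exact ENNReal.ofReal_le_ofReal x1
  unfold wl
  rw [wE_prod, wE_eq_pow]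
  calc ENNReal.ofReal xc ^ (unf gs).dropLast.length
      = 1 * ENNReal.ofReal xc ^ (unf gs).dropLast.length := by rw [one_mul]
    _ ≤ (2 * ENNReal.ofReal xc) * ENNReal.ofReal xc ^ (unf gs).dropLast.length := by gcongr
    _ = 2 * ENNReal.ofReal xc ^ ((unf gs).dropLast.length + 1) := by rw [pow_succ]; ring
    _ = 2 * (ENNReal.ofReal xc ^ (gs.map List.length).sum * ENNReal.ofReal xc ^ (gs.length - 1)) := by
        rw [hlen, pow_add]
    _ ≤ 2 * (ENNReal.ofReal xc ^ (gs.map List.length).sum * 1) := by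
        gcongr
        exact pow_le_one₀ zero_le hx1
    _ = 2 * ENNReal.ofReal xc ^ (gs.map List.length).sum := by rw [mul_one]

/-- weight of the words that contain a chain of P -/
theorem sum_split (S : Set (List Bool)) (Λ : ℕ) (P : Set (List (List Bool)))
    (hP : ∀ gs ∈ P, gs ≠ [] ∧ ∀ g ∈ gs, ∃ n : ℕ, 1 ≤ n ∧ g ∈ Brd n)
    (hS : ∀ t ∈ S, ∃ s ∈ SAL Λ, ∃ gs ∈ P, ∃ r ∈ SAL Λ, t = s ++ ((unf gs).dropLast ++ r)) :
    gf S ≤ 2 * gf (SAL Λ) ^ 2 * ∑' gs : {gs // gs ∈ P}, wl gs.1 := by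
  classical
  choose! f hf g hg r hr hfg using hS
  have hne : ∀ gs ∈ P, ∀ u ∈ gs, u ≠ [] := by
    intro gs h u hu
    obtain ⟨n, h1, h2⟩ := (hP gs h).2 u hu
    exact Brd_ne_nil h2 h1
  let ψ : S → (SAL Λ) × ({gs // gs ∈ P}) × (SAL Λ) := fun t => (⟨f t, hf t t.2⟩, ⟨g t, hg t t.2⟩, ⟨r t, hr t t.2⟩)
  have hψ : Function.Injective ψ := by
    intro a b hab
    have h1 : f a = f b := congrArg (fun p => (p.1 : List Bool)) hab
    have h2 : g a = g b := congrArg (fun p => (p.2.1 : List (List Bool))) hab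
    have h3 : r a = r b := congrArg (fun p => (p.2.2 : List Bool)) hab
    apply Subtype.ext
    rw [hfg a a.2, hfg b b.2, h1, h2, h3]
  have e : 2 * gf (SAL Λ) ^ 2 * ∑' gs : {gs // gs ∈ P}, wl gs.1 =
      ∑' p : (SAL Λ) × ({gs // gs ∈ P}) × (SAL Λ), wE p.1 * (2 * wl p.2.1.1 * wE p.2.2) := by
    rw [ENNReal.tsum_prod (f := fun (a : SAL Λ) (b : ({gs // gs ∈ P}) × (SAL Λ)) => wE a * (2 * wl b.1.1 * wE b.2))]
    simp_rw [ENNReal.tsum_mul_left]
    rw [ENNReal.tsum_mul_right,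
      ENNReal.tsum_prod (f := fun (a : {gs // gs ∈ P}) (b : SAL Λ) => 2 * wl a.1 * wE b)]
    simp_rw [ENNReal.tsum_mul_left, ENNReal.tsum_mul_right]
    rw [ENNReal.tsum_mul_left]
    unfold gf
    ring
  rw [e]
  unfold gf
  calc ∑' t : S, wE t ≤ ∑' t : S, wE (ψ t).1 * (2 * wl (ψ t).2.1.1 * wE (ψ t).2.2) := by
        refine ENNReal.tsum_le_tsum fun t => ?_
        show wE (t : List Bool) ≤ wE (f t) * (2 * wl (g t) * wE (r t))
        conv_lhs => rw [hfg t t.2]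
        rw [wE_append, wE_append]
        gcongr
        exact wE_mid (hP _ (hg t t.2)).1 (hne _ (hg t t.2))
    _ ≤ ∑' p : (SAL Λ) × ({gs // gs ∈ P}) × (SAL Λ), wE p.1 * (2 * wl p.2.1.1 * wE p.2.2) :=
        ENNReal.tsum_comp_le_tsum_of_injective hψ
          (fun p : (SAL Λ) × ({gs // gs ∈ P}) × (SAL Λ) => wE p.1 * (2 * wl p.2.1.1 * wE p.2.2))

lemma wl_eq_wt (D : ℕ) (gs : List (List Bool)) : wl gs = 4 ^ dbl D gs * wt D gs := by
  induction gs with
  | nil => simp [wl, wt, dbl]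
  | cons g gs ih =>
    unfold wl wt dbl at ih ⊢
    simp only [List.map_cons, List.prod_cons, List.sum_cons]
    rw [ih, pow_add]
    unfold tl
    have h : (4 : ℝ≥0∞) ^ Nat.log 2 (hgt g / D) * (1 / 4) ^ Nat.log 2 (hgt g / D) = 1 := by
      rw [← mul_pow, one_div, ENNReal.mul_inv_cancel (by norm_num) (by norm_num), one_pow]
    calc wE g * (4 ^ (gs.map fun g => Nat.log 2 (hgt g / D)).sum * (gs.map fun g => wE g * (1 / 4) ^ Nat.log 2 (hgt g / D)).prod)
        = ((4 : ℝ≥0∞) ^ Nat.log 2 (hgt g / D) * (1 / 4) ^ Nat.log 2 (hgt g / D)) *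
          (wE g * (4 ^ (gs.map fun g => Nat.log 2 (hgt g / D)).sum *
            (gs.map fun g => wE g * (1 / 4) ^ Nat.log 2 (hgt g / D)).prod)) := by rw [h, one_mul]
      _ = _ := by ring

/-- from the weight to the tilted weight -/
theorem untilt (D Λ : ℕ) (P : Set (List (List Bool))) :
    ∑' gs : {gs // gs ∈ P ∧ dbl D gs ≤ Λ}, wl gs.1 ≤ 4 ^ Λ * ∑' gs : {gs // gs ∈ P}, wt D gs.1 := by
  calc ∑' gs : {gs // gs ∈ P ∧ dbl D gs ≤ Λ}, wl gs.1
      ≤ ∑' gs : {gs // gs ∈ P ∧ dbl D gs ≤ Λ}, 4 ^ Λ * wt D gs.1 := by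
        refine ENNReal.tsum_le_tsum fun gs => ?_
        rw [wl_eq_wt D gs.1]
        gcongr
        · norm_num
        · exact gs.2.2
    _ = 4 ^ Λ * ∑' gs : {gs // gs ∈ P ∧ dbl D gs ≤ Λ}, wt D gs.1 := ENNReal.tsum_mul_left
    _ ≤ 4 ^ Λ * ∑' gs : {gs // gs ∈ P}, wt D gs.1 := by
        gcongr
        exact ENNReal.tsum_comp_le_tsum_of_injective
          (f := fun gs : {gs // gs ∈ P ∧ dbl D gs ≤ Λ} => (⟨gs.1, gs.2.1⟩ : {gs // gs ∈ P}))
          (fun a b hab => Subtype.ext (congrArg (fun p => p.1) hab)) (fun gs : {gs // gs ∈ P} => wt D gs.1)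

end SDN

end HexObs
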