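import Pool.Agent.SDN.XFill
import Pool.Agent.SDN.XT
import Pool.Agent.SDN.Chain2
import Pool.Agent.SDN.SplitP
import Pool.Agent.SDN.Split
import Pool.Agent.SDN.LeafW
import Pool.Agent.SDN.Frames
import Pool.Agent.PHW.CuLog
import Pool.Agent.PHW.Num2

/-!
SDN, module E2: the second Peierls statement (filling).
-/

set_option autoImplicit false

namespace HexObs

namespace SDN

open Finset TS

open scoped ENNReal

open Rec8 (sw)

namespace P2_aux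

lemma lw_len (t : List Bool) (a b : ℕ) : (lw t a b).length ≤ t.length + 1 := by
  unfold lw
  rw [List.length_append, List.length_take, List.length_drop, List.length_singleton]
  omega

lemma lev_le (t : List Bool) (i : ℕ) : lev t i ≤ 2 * i := by
  induction i with
  | zero =>
    rw [lev_zero]
    norm_num
  | succ i ih =>
    rw [lev_succ]
    have h1 : ∀ d ∈ dirs, ip d up ≤ 2 := by decide
    have h2 := h1 _ (dx_mem upd t i)
    push_cast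
    linarith

lemma brd_len {n : ℕ} {u : List Bool} (h : u ∈ Brd n) : n ≤ u.length := by
  have h1 := (mem_Brd.1 h).2.2.2
  have h2 := lev_le u u.length
  omega

/-- real numbers: the choice of δ -/
lemma choice {A c K : ℝ} (hA : 1 ≤ A) (hc : 0 < c) (hK : 1 ≤ K) : ∃ δ : ℝ, 0 < δ ∧ δ ≤ 1 ∧
    ∀ (N n l s : ℕ), (n : ℝ) ≤ A * N → (l : ℝ) ≤ A * N → c * N ≤ s →
      (4 : ℝ) ^ l * ((2 * K) ^ n * δ ^ (s - 1)) ≤ 1 / 2 ^ N / δ := by
  have h8 : (1 : ℝ) ≤ 8 * K := by linarith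
  have h80 : (0 : ℝ) < 8 * K := by linarith
  obtain ⟨z, hz⟩ : ∃ z : ℝ, z = (2 * (8 * K) ^ A)⁻¹ := ⟨_, rfl⟩
  have hpos : (0 : ℝ) < (8 * K) ^ A := Real.rpow_pos_of_pos h80 A
  have hone : (1 : ℝ) ≤ (8 * K) ^ A := Real.one_le_rpow h8 (by linarith)
  have hz0 : 0 < z := by
    rw [hz]
    positivity
  have hz1 : z ≤ 1 := by
    rw [hz]
    apply inv_le_one_of_one_le₀
    linarith
  refine ⟨z ^ (1 / c), Real.rpow_pos_of_pos hz0 _, Real.rpow_le_one hz0.le hz1 (by positivity), ?_⟩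
  obtain ⟨δ, hδ⟩ : ∃ δ : ℝ, δ = z ^ (1 / c) := ⟨_, rfl⟩
  rw [← hδ]
  have hδ0 : 0 < δ := by
    rw [hδ]
    exact Real.rpow_pos_of_pos hz0 _
  have hδ1 : δ ≤ 1 := by
    rw [hδ]
    exact Real.rpow_le_one hz0.le hz1 (by positivity)
  have hδc : δ ^ c = z := by
    rw [hδ, ← Real.rpow_mul hz0.le, one_div, inv_mul_cancel₀ hc.ne', Real.rpow_one]
  intro N n l s hn hl hs
  rcases Nat.eq_zero_or_pos s with hs0 | hs1
  · rw [hs0, Nat.cast_zero] at hs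
    have hN : N = 0 := by
      by_contra h
      have h1 : (0 : ℝ) < N := by exact_mod_cast Nat.pos_of_ne_zero h
      nlinarith [mul_pos hc h1]
    rw [hN, Nat.cast_zero, mul_zero] at hn hl
    have hn0 : n = 0 := by exact_mod_cast le_antisymm hn (Nat.cast_nonneg n)
    have hl0 : l = 0 := by exact_mod_cast le_antisymm hl (Nat.cast_nonneg l)
    rw [hs0, hn0, hl0, hN, Nat.zero_sub, pow_zero, pow_zero, pow_zero, pow_zero, mul_one, mul_one, one_div_one]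
    rw [le_div_iff₀ hδ0]
    linarith
  have e1 : (4 : ℝ) ^ l ≤ (4 : ℝ) ^ (A * N) := by
    rw [← Real.rpow_natCast]
    exact Real.rpow_le_rpow_of_exponent_le (by norm_num) hl
  have e2 : (2 * K) ^ n ≤ (2 * K) ^ (A * (N : ℝ)) := by
    rw [← Real.rpow_natCast]
    exact Real.rpow_le_rpow_of_exponent_le (by linarith) hn
  have e3 : δ ^ (s - 1) ≤ δ ^ (c * (N : ℝ)) / δ := by
    rw [le_div_iff₀ hδ0, ← pow_succ, Nat.sub_add_cancel hs1, ← Real.rpow_natCast]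
    exact Real.rpow_le_rpow_of_exponent_ge hδ0 hδ1 hs
  have e4 : (4 : ℝ) ^ (A * N) * ((2 * K) ^ (A * (N : ℝ)) * (δ ^ (c * (N : ℝ)))) = 1 / 2 ^ N := by
    rw [← mul_assoc, ← Real.mul_rpow (by norm_num) (by linarith), Real.rpow_mul (by linarith), Real.rpow_mul hδ0.le,
      hδc, ← Real.mul_rpow (Real.rpow_nonneg (by linarith) _) hz0.le, Real.rpow_natCast, hz]
    have e5 : (4 : ℝ) * (2 * K) = 8 * K := by ring
    rw [e5, mul_inv, mul_left_comm, mul_inv_cancel₀ hpos.ne', mul_one, inv_pow, one_div]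
  calc (4 : ℝ) ^ l * ((2 * K) ^ n * δ ^ (s - 1)) ≤ (4 : ℝ) ^ (A * N) * ((2 * K) ^ (A * (N : ℝ)) * (δ ^ (c * (N : ℝ)) / δ)) := by
        apply mul_le_mul e1 _ (by positivity) (Real.rpow_nonneg (by norm_num) _)
        apply mul_le_mul e2 e3 (by positivity) (Real.rpow_nonneg (by linarith) _)
    _ = (4 : ℝ) ^ (A * N) * ((2 * K) ^ (A * (N : ℝ)) * (δ ^ (c * (N : ℝ)))) / δ := by ring
    _ = 1 / 2 ^ N / δ := by rw [e4]

end P2_aux

open Classical in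
/-- FILLING, chain form: the weight of the chains of n ≤ A N leaves with at most A N doublings and at least c N filling
leaves -/
theorem fill_chain : ∀ (A c κ : ℝ) (i0 : ℕ), 1 ≤ A → 0 < c → 0 < κ → ∃ (C : ℝ) (μ k0 : ℕ), 0 < C ∧ 1 ≤ μ ∧
    ∀ (k H n N : ℕ), k0 ≤ k → (n : ℝ) ≤ A * N →
    ∑' gs : {gs // gs ∈ {gs : List (List Bool) | gs.length = n ∧ List.IsChain LFold gs ∧
      (∀ u ∈ gs, u ∈ BrR (2 ^ (k + 4)) H) ∧ (dbl (2 ^ (k + 4)) gs : ℝ) ≤ A * N ∧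
      c * N ≤ ((gs.filter (fun g => decide (g ∈ Fil (k + 5) i0 (k + 5 - μ) κ))).length : ℝ)}}, wl gs.1 ≤
      ENNReal.ofReal (C * Ub (k + 4) / 2 ^ N) := by
  intro A c κ i0 hA hc hκ
  obtain ⟨K, hK, hxA⟩ := x_tA
  obtain ⟨K1, hK1, hxT⟩ := x_tot
  obtain ⟨δ, hδ0, hδ1, hnum⟩ := P2_aux.choice hA hc hK
  obtain ⟨μ, k0, hμ, hfill⟩ := x_fill κ δ i0 hκ hδ0
  refine ⟨2 * K1 / δ, μ, k0, by positivity, hμ, ?_⟩
  intro k H n N hk hnN
  obtain ⟨s, hs⟩ : ∃ s, s = ⌈c * (N : ℝ)⌉₊ := ⟨_, rfl⟩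
  have hsN : c * N ≤ s := by
    rw [hs]
    exact Nat.le_ceil _
  obtain ⟨l, hl⟩ : ∃ l, l = ⌊A * (N : ℝ)⌋₊ := ⟨_, rfl⟩
  have hlN : (l : ℝ) ≤ A * N := by
    rw [hl]
    exact Nat.floor_le (by positivity)
  obtain ⟨W, hW⟩ : ∃ W, W = Fil (k + 5) i0 (k + 5 - μ) κ := ⟨_, rfl⟩
  obtain ⟨P, hP⟩ : ∃ P : Set (List (List Bool)), P = C2 (2 ^ (k + 4)) H n s W := ⟨_, rfl⟩
  have h1 : ∑' gs : {gs // gs ∈ {gs : List (List Bool) | gs.length = n ∧ List.IsChain LFold gs ∧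
      (∀ u ∈ gs, u ∈ BrR (2 ^ (k + 4)) H) ∧ (dbl (2 ^ (k + 4)) gs : ℝ) ≤ A * N ∧
      c * N ≤ ((gs.filter (fun g => decide (g ∈ Fil (k + 5) i0 (k + 5 - μ) κ))).length : ℝ)}}, wl gs.1 ≤
      ∑' gs : {gs // gs ∈ {gs | gs ∈ P ∧ dbl (2 ^ (k + 4)) gs ≤ l}}, wl gs.1 := by
    refine ENNReal.tsum_mono_subtype (fun gs : List (List Bool) => wl gs) ?_
    rintro gs ⟨g1, g2, g3, g4, g5⟩
    refine ⟨?_, ?_⟩
    · rw [hP]
      refine ⟨g1, g2, g3, ?_⟩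
      rw [hs, Nat.ceil_le, hW]
      exact g5
    · rw [hl]
      exact Nat.le_floor g4
  have h2 : ∑' gs : {gs // gs ∈ {gs | gs ∈ P ∧ dbl (2 ^ (k + 4)) gs ≤ l}}, wl gs.1 ≤
      4 ^ l * ∑' gs : {gs // gs ∈ P}, wt (2 ^ (k + 4)) gs.1 := untilt (2 ^ (k + 4)) l P
  have h3 : ∑' gs : {gs // gs ∈ P}, wt (2 ^ (k + 4)) gs.1 ≤
      ENNReal.ofReal (2 * (K1 * Ub (k + 4)) * (2 * K) ^ n * δ ^ (s - 1)) := by
    rw [hP, hW]
    exact chain_fill hK hK1 hδ0.le hδ1 (fun Φ hΦ => hxT k H Φ hΦ) (fun Φ hΦ => hxA k H Φ hΦ)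
      (fun Φ hΦ => hfill k H Φ hk hΦ) n s
  have hUb0 : 0 ≤ Ub (k + 4) := (Num2Aux.UU_pos _).le
  have e0 : ENNReal.ofReal (4 ^ l) = 4 ^ l := by
    rw [ENNReal.ofReal_pow (by norm_num), ENNReal.ofReal_ofNat]
  refine h1.trans (h2.trans ?_)
  calc 4 ^ l * ∑' gs : {gs // gs ∈ P}, wt (2 ^ (k + 4)) gs.1 ≤
        4 ^ l * ENNReal.ofReal (2 * (K1 * Ub (k + 4)) * (2 * K) ^ n * δ ^ (s - 1)) := by gcongr
    _ = ENNReal.ofReal (4 ^ l * (2 * (K1 * Ub (k + 4)) * (2 * K) ^ n * δ ^ (s - 1))) := by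
        rw [ENNReal.ofReal_mul (p := (4 : ℝ) ^ l) (by positivity), e0]
    _ ≤ ENNReal.ofReal (2 * K1 / δ * Ub (k + 4) / 2 ^ N) := by
        apply ENNReal.ofReal_le_ofReal
        have h5 := hnum N n l s hnN hlN hsN
        calc (4 : ℝ) ^ l * (2 * (K1 * Ub (k + 4)) * (2 * K) ^ n * δ ^ (s - 1))
            = 2 * (K1 * Ub (k + 4)) * (4 ^ l * ((2 * K) ^ n * δ ^ (s - 1))) := by ring
          _ ≤ 2 * (K1 * Ub (k + 4)) * (1 / 2 ^ N / δ) := by gcongr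
          _ = 2 * K1 / δ * Ub (k + 4) / 2 ^ N := by
              field_simp

open Classical in
/-- filling: at most A N leaves, at most A N doublings, at least c N filling leaves -/
theorem peierls2' : ∀ (A c κ : ℝ) (i0 : ℕ), 1 ≤ A → 0 < c → 0 < κ → ∃ (C : ℝ) (μ b0 : ℕ), 0 < C ∧ 1 ≤ μ ∧ μ ≤ b0 ∧
    ∀ (L b m N : ℕ), 1 ≤ L → b0 ≤ b → b ≤ L + 2 → (m : ℝ) ≤ A * N →
    gf {t | t ∈ WL L ∧ ∃ u e, Lf false b t m u e ∧ (dbl (2 ^ (b - 1)) (lws t e 1 (m - 2)) : ℝ) ≤ A * N ∧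
      c * N ≤ (((lws t e 1 (m - 2)).filter (fun g => decide (g ∈ Fil b i0 (b - μ) κ))).length : ℝ)} ≤
      ENNReal.ofReal (((2 : ℝ) ^ L) ^ C * C / 2 ^ N) := by
  intro A c κ i0 hA hc hκ
  obtain ⟨C4, μ, k0, hC4, hμ, hch⟩ := fill_chain A c κ i0 hA hc hκ
  obtain ⟨C0, hC0, hpoly⟩ := SAL_poly
  obtain ⟨Q, hQ⟩ : ∃ Q : ℝ, Q = C0 * 100 ^ C0 := ⟨_, rfl⟩
  have hQ0 : 0 < Q := by
    rw [hQ]
    positivity
  obtain ⟨C, hC⟩ : ∃ C : ℝ, C = (4 * C0 + 1) + (Q + 8 * Q ^ 2 * C4) := ⟨_, rfl⟩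
  have hC1 : 4 * C0 + 1 ≤ C := by
    rw [hC]
    have : 0 ≤ Q + 8 * Q ^ 2 * C4 := by positivity
    linarith
  have hC2 : Q ≤ C := by
    rw [hC]
    have : 0 ≤ 8 * Q ^ 2 * C4 := by positivity
    linarith
  have hC3 : 8 * Q ^ 2 * C4 ≤ C := by
    rw [hC]
    linarith
  have hCpos : 0 < C := lt_of_lt_of_le hQ0 hC2
  refine ⟨C, μ, max (k0 + 5) (μ + 5), hCpos, hμ, by omega, ?_⟩
  intro L b m N hL hb0 hbL hm
  obtain ⟨Λ, hΛ⟩ : ∃ Λ : ℕ, Λ = 100 * 4 ^ L := ⟨_, rfl⟩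
  have hΛ1 : 1 ≤ Λ := by
    rw [hΛ]
    have : 1 ≤ 4 ^ L := Nat.one_le_pow _ _ (by norm_num)
    omega
  have h2L : (1 : ℝ) ≤ 2 ^ L := one_le_pow₀ (by norm_num)
  have hSAL : gf (SAL Λ) ≤ ENNReal.ofReal (Q * ((2 : ℝ) ^ L) ^ (2 * C0)) := by
    refine (hpoly Λ hΛ1).trans (ENNReal.ofReal_le_ofReal (le_of_eq ?_))
    rw [hΛ, hQ]
    push_cast
    rw [Real.mul_rpow (by norm_num) (by positivity)]
    have e1 : ((4 : ℝ) ^ L) = ((2 : ℝ) ^ L) ^ (2 : ℝ) := by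
      have h : ((2 : ℝ) ^ L) ^ (2 : ℝ) = ((2 : ℝ) ^ L) ^ (2 : ℕ) := by
        exact_mod_cast Real.rpow_natCast ((2 : ℝ) ^ L) 2
      rw [h, ← pow_mul, mul_comm, pow_mul]
      norm_num
    rw [e1, ← Real.rpow_mul (by positivity)]
    ring
  have hWL : ∀ t ∈ WL L, t ∈ SAL Λ := fun t ht => ⟨ht.1, by
    rw [hΛ]
    exact WL_length ht⟩
  obtain ⟨S, hS⟩ : ∃ S : Set (List Bool), S = {t | t ∈ WL L ∧ ∃ u e, Lf false b t m u e ∧
      (dbl (2 ^ (b - 1)) (lws t e 1 (m - 2)) : ℝ) ≤ A * N ∧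
      c * N ≤ (((lws t e 1 (m - 2)).filter (fun g => decide (g ∈ Fil b i0 (b - μ) κ))).length : ℝ)} := ⟨_, rfl⟩
  rw [← hS]
  rcases Nat.eq_zero_or_pos N with hN | hN
  · -- N = 0
    have h1 : S ⊆ SAL Λ := by
      rw [hS]
      rintro t ⟨ht, -⟩
      exact hWL t ht
    refine (gf_mono h1).trans (hSAL.trans (ENNReal.ofReal_le_ofReal ?_))
    rw [hN, pow_zero, div_one, mul_comm]
    apply mul_le_mul _ hC2 hQ0.le (by positivity)
    exact Real.rpow_le_rpow_of_exponent_le h2L (by linarith)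
  have hNr : (0 : ℝ) < N := by exact_mod_cast hN
  by_cases hm3 : m < 3
  · -- no interior leaf
    have h1 : S = ∅ := by
      rw [hS, Set.eq_empty_iff_forall_notMem]
      rintro t ⟨-, u, e, -, -, h⟩
      have e1 : m - 2 = 0 := by omega
      rw [e1] at h
      have e2 : lws t e 1 0 = [] := rfl
      rw [e2, List.filter_nil, List.length_nil, Nat.cast_zero] at h
      nlinarith [mul_pos hc hNr]
    rw [h1]
    unfold gf
    rw [tsum_empty]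
    exact zero_le
  obtain ⟨k, rfl⟩ : ∃ k, b = k + 5 := ⟨b - 5, by omega⟩
  have hk0 : k0 ≤ k := by omega
  have hD : k + 5 - 1 = k + 4 := by omega
  rw [hD] at hS
  obtain ⟨n, hn⟩ : ∃ n, n = m - 2 := ⟨_, rfl⟩
  have hn1 : 1 ≤ n := by omega
  rw [← hn] at hS
  have hnN : (n : ℝ) ≤ A * N := by
    refine le_trans ?_ hm
    have : n ≤ m := by omega
    exact_mod_cast this
  obtain ⟨P, hP⟩ : ∃ P : Set (List (List Bool)), P = {gs : List (List Bool) | gs.length = n ∧ List.IsChain LFold gs ∧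
      (∀ u ∈ gs, u ∈ BrR (2 ^ (k + 4)) (Λ + 1)) ∧ (dbl (2 ^ (k + 4)) gs : ℝ) ≤ A * N ∧
      c * N ≤ ((gs.filter (fun g => decide (g ∈ Fil (k + 5) i0 (k + 5 - μ) κ))).length : ℝ)} := ⟨_, rfl⟩
  have h1 : gf S ≤ 2 * gf (SAL Λ) ^ 2 * ∑' gs : {gs // gs ∈ P}, wl gs.1 := by
    apply sum_split
    · intro gs hgs
      rw [hP] at hgs
      obtain ⟨g1, -, g3, -⟩ := hgs
      refine ⟨?_, fun g hg => ?_⟩
      · rintro rfl
        rw [List.length_nil] at g1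
        omega
      · obtain ⟨h, hh, -, hh'⟩ := g3 g hg
        exact ⟨h, le_trans Nat.one_le_two_pow hh, hh'⟩
    · intro t ht
      rw [hS] at ht
      obtain ⟨htW, u, e, hLf, hdbl, hfil⟩ := ht
      have htS : t ∈ SA := htW.1
      have htL : t.length ≤ Λ := (hWL t htW).2
      obtain ⟨w1, w2, w3⟩ := lws_word htS (by omega) hLf (j := 1) (n := n) le_rfl hn1 (by omega)
      refine ⟨t.take (e 1 + 1), ⟨SA_take htS _, ?_⟩, lws t e 1 n, ?_, t.drop (e (1 + n) - 1),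
        ⟨SA_drop htS _, ?_⟩, w1⟩
      · rw [List.length_take]
        omega
      · rw [hP]
        refine ⟨by rw [lws, List.length_map, List.length_range], w2, fun g hg => ?_, hdbl, hfil⟩
        obtain ⟨h, hh, hh2⟩ := w3 g hg
        refine ⟨h, ?_, ?_, hh⟩
        · refine le_trans ?_ hh2
          have e1 : 2 ^ (k + 5) = 2 * 2 ^ (k + 4) := by ring
          have e2 : 1 ≤ 2 ^ (k + 4) := Nat.one_le_two_pow
          omega
        · have e3 := P2_aux.brd_len hh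
          obtain ⟨i, -, rfl⟩ := List.mem_map.1 hg
          have e4 := P2_aux.lw_len t (e (1 + i)) (e (1 + i + 1))
          omega
      · rw [List.length_drop]
        omega
  have h3 : ∑' gs : {gs // gs ∈ P}, wl gs.1 ≤ ENNReal.ofReal (C4 * Ub (k + 4) / 2 ^ N) := by
    rw [hP]
    exact hch k (Λ + 1) n N hk0 hnN
  have hUb0 : 0 ≤ Ub (k + 4) := (Num2Aux.UU_pos _).le
  have hUb : Ub (k + 4) ≤ 4 * 2 ^ L := by
    have e1 : Ub (k + 4) ≤ ((2 ^ (k + 4) : ℕ) : ℝ) + 1 := CuLogAux.UU_le_succ (2 ^ (k + 4))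
    have e2 : ((2 ^ (k + 4) : ℕ) : ℝ) + 1 ≤ 2 ^ (k + 5) := by
      push_cast
      have : (1 : ℝ) ≤ 2 ^ (k + 4) := one_le_pow₀ (by norm_num)
      have e3 : (2 : ℝ) ^ (k + 5) = 2 * 2 ^ (k + 4) := by ring
      linarith
    have e4 : (2 : ℝ) ^ (k + 5) ≤ 2 ^ (L + 2) := pow_le_pow_right₀ (by norm_num) hbL
    have e5 : (2 : ℝ) ^ (L + 2) = 4 * 2 ^ L := by ring
    linarith
  obtain ⟨q, hq⟩ : ∃ q : ℝ, q = Q * ((2 : ℝ) ^ L) ^ (2 * C0) := ⟨_, rfl⟩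
  have hq0 : 0 ≤ q := by
    rw [hq]
    positivity
  rw [← hq] at hSAL
  have h4 : gf S ≤ ENNReal.ofReal (2 * q ^ 2 * (C4 * Ub (k + 4) / 2 ^ N)) := by
    rw [ENNReal.ofReal_mul (by positivity), ENNReal.ofReal_mul (by norm_num), ENNReal.ofReal_pow hq0,
      ENNReal.ofReal_ofNat]
    refine h1.trans ?_
    gcongr
  refine h4.trans (ENNReal.ofReal_le_ofReal ?_)
  have hX : ((2 : ℝ) ^ L) ^ (4 * C0 + 1) = (((2 : ℝ) ^ L) ^ (2 * C0)) ^ 2 * 2 ^ L := by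
    rw [Real.rpow_add (by positivity), Real.rpow_one, ← Real.rpow_natCast (((2 : ℝ) ^ L) ^ (2 * C0)) 2,
      ← Real.rpow_mul (by positivity)]
    congr 2
    push_cast
    ring
  calc 2 * q ^ 2 * (C4 * Ub (k + 4) / 2 ^ N) ≤ 2 * q ^ 2 * (C4 * (4 * 2 ^ L) / 2 ^ N) := by
        gcongr
    _ = (((2 : ℝ) ^ L) ^ (2 * C0)) ^ 2 * 2 ^ L * (8 * Q ^ 2 * C4) / 2 ^ N := by
        rw [hq]
        ring
    _ = ((2 : ℝ) ^ L) ^ (4 * C0 + 1) * (8 * Q ^ 2 * C4) / 2 ^ N := by rw [hX]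
    _ ≤ ((2 : ℝ) ^ L) ^ C * C / 2 ^ N := by
        apply div_le_div_of_nonneg_right _ (by positivity)
        apply mul_le_mul _ hC3 (by positivity) (by positivity)
        exact Real.rpow_le_rpow_of_exponent_le h2L hC1

open Classical in
/-- the second Peierls statement (same as peierls2') -/
theorem peierls2 : ∀ (A c κ : ℝ) (i0 : ℕ), 1 ≤ A → 0 < c → 0 < κ → ∃ (C : ℝ) (μ b0 : ℕ), 0 < C ∧ 1 ≤ μ ∧ μ ≤ b0 ∧
    ∀ (L b m N : ℕ), 1 ≤ L → b0 ≤ b → b ≤ L + 2 → (m : ℝ) ≤ A * N →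
    gf {t | t ∈ WL L ∧ ∃ u e, Lf false b t m u e ∧ (dbl (2 ^ (b - 1)) (lws t e 1 (m - 2)) : ℝ) ≤ A * N ∧
      c * N ≤ (((lws t e 1 (m - 2)).filter (fun g => decide (g ∈ Fil b i0 (b - μ) κ))).length : ℝ)} ≤
      ENNReal.ofReal (((2 : ℝ) ^ L) ^ C * C / 2 ^ N) := peierls2'

end SDN

end HexObs
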