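import Pool.Agent.SDN.Crowd
import Pool.Agent.SDN.DenseEvent
import Pool.Agent.SDN.Peierls2

/-!
SDN, W8: the dense walks in a box have small weight (from crowd_bound, dense_event, peierls2).
-/

set_option autoImplicit false

namespace HexObs

namespace SDN

open Finset TS

open scoped ENNReal

namespace MainA

/-- final comparison -/
lemma asymp (C s : ℝ) (hC : 0 < C) (hs : 0 < s) : ∃ L0 : ℕ, ∀ L : ℕ, L0 ≤ L →
    ((2 : ℝ) ^ L) ^ C * C * (2 : ℝ) ^ (-(2 : ℝ) ^ (s * L)) ≤ Real.exp (-(2 : ℝ) ^ (s / 2 * L)) := by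
  have hl2 : 0 < Real.log 2 := Real.log_pos (by norm_num)
  set a : ℝ := Real.log 2 * (s / 2) with ha
  have ha0 : 0 < a := by positivity
  set q : ℝ := C * Real.log 2 + |Real.log C| with hq
  have hq0 : 0 < q := by positivity
  refine ⟨⌈2 * q / a ^ 2⌉₊ + ⌈2 / (a * Real.log 2)⌉₊ + 1, fun L hL => ?_⟩
  have hL1 : (1 : ℝ) ≤ L := by
    have : 1 ≤ L := by omega
    exact_mod_cast this
  have hLa : 2 * q / a ^ 2 ≤ L := by
    have h1 : (⌈2 * q / a ^ 2⌉₊ : ℝ) ≤ L := by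
      have : ⌈2 * q / a ^ 2⌉₊ ≤ L := by omega
      exact_mod_cast this
    exact le_trans (Nat.le_ceil _) h1
  have hLb : 2 / (a * Real.log 2) ≤ L := by
    have h1 : (⌈2 / (a * Real.log 2)⌉₊ : ℝ) ≤ L := by
      have : ⌈2 / (a * Real.log 2)⌉₊ ≤ L := by omega
      exact_mod_cast this
    exact le_trans (Nat.le_ceil _) h1
  set x : ℝ := (2 : ℝ) ^ (s / 2 * L) with hx
  have hxe : x = Real.exp (a * L) := by
    rw [hx, Real.rpow_def_of_pos (by norm_num)]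
    congr 1
    rw [ha]; ring
  have hx2 : (2 : ℝ) ^ (s * L) = x ^ 2 := by
    rw [hx, ← Real.rpow_natCast, ← Real.rpow_mul (by norm_num)]
    congr 1
    push_cast
    ring
  have haL : 0 ≤ a * L := by positivity
  have hexp := Real.quadratic_le_exp_of_nonneg haL
  rw [← hxe] at hexp
  have h1 : q * L ≤ x := by
    have h2 : 2 * q ≤ L * a ^ 2 := by
      rwa [div_le_iff₀ (by positivity)] at hLa
    nlinarith [mul_le_mul_of_nonneg_right h2 (by linarith : (0 : ℝ) ≤ L)]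
  have h2 : 2 ≤ Real.log 2 * x := by
    have h3 : 2 ≤ L * (a * Real.log 2) := by
      rwa [div_le_iff₀ (by positivity)] at hLb
    have h4 : a * L ≤ x := by nlinarith [sq_nonneg (a * L)]
    nlinarith [mul_le_mul_of_nonneg_left h4 hl2.le]
  have h3 : Real.log C ≤ |Real.log C| * L := by
    have := le_abs_self (Real.log C)
    nlinarith [abs_nonneg (Real.log C)]
  have hxpos : 0 < x := by positivity
  have e1 : ((2 : ℝ) ^ L) ^ C * C * (2 : ℝ) ^ (-(2 : ℝ) ^ (s * L)) =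
      Real.exp (C * Real.log 2 * L + Real.log C - Real.log 2 * x ^ 2) := by
    rw [hx2, Real.rpow_def_of_pos (by positivity : (0 : ℝ) < 2 ^ L), Real.rpow_def_of_pos (by norm_num : (0 : ℝ) < 2),
      Real.log_pow]
    nth_rewrite 2 [← Real.exp_log hC]
    rw [← Real.exp_add, ← Real.exp_add]
    congr 1
    ring
  rw [e1]
  apply Real.exp_le_exp.2
  nlinarith [mul_le_mul_of_nonneg_right h2 hxpos.le]

lemma nb_le (b : ℕ) (t : List Bool) : nb b t ≤ t.length + 1 := by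
  refine le_trans Finset.card_image_le ?_
  simp

/-- one bad event -/
def BadC (A : ℝ) (b0 L : ℕ) (Y : ℝ) (dir : Bool) : Set (List Bool) :=
  {t | t ∈ WL L ∧ ∃ b m u e, b0 ≤ b ∧ b ≤ L + 2 ∧ Lf dir b t m u e ∧ A * DD L Y b t < m}

open Classical in
/-- one filling event -/
def Fe (B c κ : ℝ) (i0 μ L b N m : ℕ) : Set (List Bool) :=
  {t | t ∈ WL L ∧ ∃ u e, Lf false b t m u e ∧ (dbl (2 ^ (b - 1)) (lws t e 1 (m - 2)) : ℝ) ≤ B * N ∧
      c * N ≤ (((lws t e 1 (m - 2)).filter (fun g => decide (g ∈ Fil b i0 (b - μ) κ))).length : ℝ)}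

lemma gf_bU {ι : Type} (I : Finset ι) (P : ι → Set (List Bool)) : gf (⋃ i ∈ I, P i) ≤ ∑ i ∈ I, gf (P i) :=
  ENNReal.tsum_biUnion_le wE I P

end MainA

open MainA

theorem main_A : ∃ (e0 c : ℝ) (L0 : ℕ), 0 < e0 ∧ e0 < 1 ∧ 0 < c ∧ ∀ L : ℕ, L0 ≤ L →
    gf {t | t ∈ WL L ∧ (2 : ℝ) ^ ((2 - e0) * L) ≤ t.length} ≤ ENNReal.ofReal (Real.exp (-(2 : ℝ) ^ (c * L))) := by
  classical
  obtain ⟨A, C1, b1, hA, hC1, hb1, hcr⟩ := crowd_bound
  obtain ⟨B, c, κ, i0, hB, hc, hκ, hde⟩ := dense_event A hA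
  obtain ⟨C2, μ, b2, hC2, hμ, hμb, hpe⟩ := peierls2' B c κ i0 hB hc hκ
  obtain ⟨e0, L1, he0, he1, hde'⟩ := hde (max b1 b2) μ hμ (le_max_of_le_left hb1)
  set s : ℝ := min e0 (1 / 20) with hs
  have hs0 : 0 < s := lt_min he0 (by norm_num)
  set K : ℝ := 102 * (101 * ⌈B⌉₊ + 1) with hK
  have hK0 : 0 < K := by positivity
  set C : ℝ := C1 + C2 + 5 + 2 * C1 + K * C2 with hC
  have hC0 : 0 < C := by positivity
  obtain ⟨L2, hL2⟩ := asymp C s hC0 hs0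
  refine ⟨e0, s / 2, L1 + L2 + 1, he0, he1, by positivity, fun L hL => ?_⟩
  have hL1 : 1 ≤ L := by omega
  set Y : ℝ := (2 : ℝ) ^ (e0 * L) with hY
  have hY1 : 1 ≤ Y := Real.one_le_rpow (by norm_num) (by positivity)
  set N0 : ℝ := (2 : ℝ) ^ ((L : ℝ) / 20) with hN0
  set M : ℕ := 100 * 4 ^ L + 1 with hM
  set J : Finset (ℕ × ℕ × ℕ) := ((range (L + 1)) ×ˢ ((range (M + 1)) ×ˢ (range (⌈B⌉₊ * M + 1)))).filter
    (fun x => b2 ≤ x.1 ∧ x.1 ≤ L + 2 ∧ N0 ≤ x.2.1 ∧ (x.2.2 : ℝ) ≤ B * x.2.1) with hJ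
  have hsub : {t | t ∈ WL L ∧ (2 : ℝ) ^ ((2 - e0) * L) ≤ t.length} ⊆
      BadC A b1 L Y false ∪ (BadC A b1 L Y true ∪ ⋃ x ∈ J, Fe B c κ i0 μ L x.1 x.2.1 x.2.2) := by
    rintro t ⟨ht, hlen⟩
    by_cases h0 : t ∈ BadC A b1 L Y false
    · exact Or.inl h0
    by_cases h1 : t ∈ BadC A b1 L Y true
    · exact Or.inr (Or.inl h1)
    refine Or.inr (Or.inr ?_)
    have hall : ∀ (dir : Bool) (b m u : ℕ) (e : ℕ → ℕ), max b1 b2 ≤ b → b ≤ L + 2 → Lf dir b t m u e →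
        (m : ℝ) ≤ A * DD L Y b t := by
      intro dir b m u e hb hbL hLf
      by_contra hcon
      rw [not_le] at hcon
      cases dir
      · exact h0 ⟨ht, b, m, u, e, le_trans (le_max_left _ _) hb, hbL, hLf, hcon⟩
      · exact h1 ⟨ht, b, m, u, e, le_trans (le_max_left _ _) hb, hbL, hLf, hcon⟩
    obtain ⟨b, m, u, e, hb, hbL, hLf, hmB, hdbl, hfil, hN⟩ := hde' L t (by omega) ht hlen hall
    have hb2 : b2 ≤ b := by
      have := le_max_right b1 b2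
      omega
    have hnM : nb b t ≤ M := by
      have h2 := nb_le b t
      have h3 := WL_length ht
      omega
    have hmM : m ≤ ⌈B⌉₊ * M := by
      have h2 : (m : ℝ) ≤ (⌈B⌉₊ : ℝ) * M := by
        have h4 : (nb b t : ℝ) ≤ M := by exact_mod_cast hnM
        have h5 : B ≤ ⌈B⌉₊ := Nat.le_ceil B
        have h6 : (0 : ℝ) ≤ nb b t := Nat.cast_nonneg _
        calc (m : ℝ) ≤ B * nb b t := hmB
          _ ≤ (⌈B⌉₊ : ℝ) * M := mul_le_mul h5 h4 h6 (by positivity)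
      exact_mod_cast h2
    have hmem : (b, nb b t, m) ∈ J := by
      rw [hJ, Finset.mem_filter, Finset.mem_product, Finset.mem_product, Finset.mem_range, Finset.mem_range,
        Finset.mem_range]
      exact ⟨⟨by dsimp; omega, by dsimp; omega, by dsimp; omega⟩, hb2, by dsimp; omega, hN, hmB⟩
    exact Set.mem_iUnion₂.2 ⟨(b, nb b t, m), hmem, ht, u, e, hLf, hdbl, hfil⟩
  have hP1 : (0 : ℝ) < 2 ^ L := by positivity
  have hP2 : (1 : ℝ) ≤ 2 ^ L := one_le_pow₀ (by norm_num)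
  have hbadb : ∀ dir, gf (BadC A b1 L Y dir) ≤ ENNReal.ofReal (((2 : ℝ) ^ L) ^ C1 * C1 * (2 : ℝ) ^ (-Y)) :=
    fun dir => hcr L Y dir hL1 hY1
  have hF : gf (⋃ x ∈ J, Fe B c κ i0 μ L x.1 x.2.1 x.2.2) ≤
      ENNReal.ofReal (((L : ℝ) + 1) * ((M + 1) * (⌈B⌉₊ * M + 1)) * (((2 : ℝ) ^ L) ^ C2 * C2 * (2 : ℝ) ^ (-N0))) := by
    refine le_trans (gf_bU J _) ?_
    have hone : ∀ x ∈ J, gf (Fe B c κ i0 μ L x.1 x.2.1 x.2.2) ≤
        ENNReal.ofReal (((2 : ℝ) ^ L) ^ C2 * C2 * (2 : ℝ) ^ (-N0)) := by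
      intro x hx
      rw [hJ, Finset.mem_filter] at hx
      obtain ⟨-, h1, h2, h3, h4⟩ := hx
      refine le_trans (hpe L x.1 x.2.2 x.2.1 hL1 h1 h2 h4) (ENNReal.ofReal_le_ofReal ?_)
      rw [div_eq_mul_inv, ← Real.rpow_natCast 2 x.2.1, ← Real.rpow_neg (by norm_num)]
      refine mul_le_mul_of_nonneg_left (Real.rpow_le_rpow_of_exponent_le (by norm_num) (by linarith)) (by positivity)
    refine le_trans (Finset.sum_le_sum hone) ?_
    have hcard : J.card ≤ (L + 1) * ((M + 1) * (⌈B⌉₊ * M + 1)) := by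
      refine le_trans (Finset.card_filter_le _ _) ?_
      rw [Finset.card_product, Finset.card_product, Finset.card_range, Finset.card_range, Finset.card_range]
    have hcard' : (J.card : ℝ) ≤ ((L : ℝ) + 1) * ((M + 1) * (⌈B⌉₊ * M + 1)) := by exact_mod_cast hcard
    rw [Finset.sum_const, nsmul_eq_mul, ← ENNReal.ofReal_natCast, ← ENNReal.ofReal_mul (by positivity)]
    exact ENNReal.ofReal_le_ofReal (mul_le_mul_of_nonneg_right hcard' (by positivity))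
  have hYs : (2 : ℝ) ^ (-Y) ≤ (2 : ℝ) ^ (-(2 : ℝ) ^ (s * L)) := by
    refine Real.rpow_le_rpow_of_exponent_le (by norm_num) (neg_le_neg ?_)
    refine Real.rpow_le_rpow_of_exponent_le (by norm_num) ?_
    exact mul_le_mul_of_nonneg_right (min_le_left _ _) (Nat.cast_nonneg _)
  have hNs : (2 : ℝ) ^ (-N0) ≤ (2 : ℝ) ^ (-(2 : ℝ) ^ (s * L)) := by
    refine Real.rpow_le_rpow_of_exponent_le (by norm_num) (neg_le_neg ?_)
    refine Real.rpow_le_rpow_of_exponent_le (by norm_num) ?_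
    have h1 : s * L ≤ 1 / 20 * L := mul_le_mul_of_nonneg_right (min_le_right _ _) (Nat.cast_nonneg _)
    linarith
  set Z : ℝ := (2 : ℝ) ^ (-(2 : ℝ) ^ (s * L)) with hZ
  have hZ0 : 0 < Z := by positivity
  have hcnt : ((L : ℝ) + 1) * ((M + 1) * (⌈B⌉₊ * M + 1)) ≤ K * ((2 : ℝ) ^ L) ^ (5 : ℝ) := by
    have h1 : (L : ℝ) + 1 ≤ 2 ^ L := by
      have : L + 1 ≤ 2 ^ L := Nat.lt_two_pow_self
      exact_mod_cast this
    have h4 : (4 : ℝ) ^ L = (2 ^ L) ^ 2 := by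
      rw [← pow_mul, mul_comm, pow_mul]; norm_num
    have h41 : (1 : ℝ) ≤ 4 ^ L := one_le_pow₀ (by norm_num)
    have h2 : (M : ℝ) + 1 ≤ 102 * 4 ^ L := by
      rw [hM]; push_cast; linarith
    have h3 : (⌈B⌉₊ : ℝ) * M + 1 ≤ (101 * ⌈B⌉₊ + 1) * 4 ^ L := by
      have h5 : (M : ℝ) ≤ 101 * 4 ^ L := by rw [hM]; push_cast; linarith
      have h6 : (0 : ℝ) ≤ (⌈B⌉₊ : ℝ) := Nat.cast_nonneg _
      nlinarith [mul_le_mul_of_nonneg_left h5 h6]
    have h5 : ((2 : ℝ) ^ L) ^ (5 : ℝ) = 2 ^ L * (4 ^ L * 4 ^ L) := by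
      rw [h4, show (5 : ℝ) = ((5 : ℕ) : ℝ) by norm_num, Real.rpow_natCast]
      ring
    rw [h5]
    have h6 : ((M : ℝ) + 1) * (⌈B⌉₊ * M + 1) ≤ (102 * 4 ^ L) * ((101 * ⌈B⌉₊ + 1) * 4 ^ L) :=
      mul_le_mul h2 h3 (by positivity) (by positivity)
    calc ((L : ℝ) + 1) * ((M + 1) * (⌈B⌉₊ * M + 1)) ≤ 2 ^ L * ((102 * 4 ^ L) * ((101 * ⌈B⌉₊ + 1) * 4 ^ L)) :=
          mul_le_mul h1 h6 (by positivity) (by positivity)
      _ = K * (2 ^ L * (4 ^ L * 4 ^ L)) := by rw [hK]; ring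
  refine le_trans (gf_mono hsub) ?_
  refine le_trans (gf_union_le _ _) ?_
  refine le_trans (add_le_add (hbadb false) (le_trans (gf_union_le _ _) (add_le_add (hbadb true) hF))) ?_
  rw [← ENNReal.ofReal_add (by positivity) (by positivity), ← ENNReal.ofReal_add (by positivity) (by positivity)]
  refine ENNReal.ofReal_le_ofReal (le_trans ?_ (hL2 L (by omega)))
  have hC1C : ((2 : ℝ) ^ L) ^ C1 ≤ ((2 : ℝ) ^ L) ^ C := by
    refine Real.rpow_le_rpow_of_exponent_le hP2 ?_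
    rw [hC]
    nlinarith [mul_pos hK0 hC2]
  have hC2C : ((2 : ℝ) ^ L) ^ (5 : ℝ) * ((2 : ℝ) ^ L) ^ C2 ≤ ((2 : ℝ) ^ L) ^ C := by
    rw [← Real.rpow_add hP1]
    refine Real.rpow_le_rpow_of_exponent_le hP2 ?_
    rw [hC]
    nlinarith [mul_pos hK0 hC2]
  set P : ℝ := ((2 : ℝ) ^ L) ^ C with hP
  have hPpos : 0 < P := by positivity
  have t1 : ((2 : ℝ) ^ L) ^ C1 * C1 * (2 : ℝ) ^ (-Y) ≤ P * C1 * Z :=
    mul_le_mul (mul_le_mul_of_nonneg_right hC1C hC1.le) hYs (by positivity) (by positivity)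
  have t2 : ((L : ℝ) + 1) * ((M + 1) * (⌈B⌉₊ * M + 1)) * (((2 : ℝ) ^ L) ^ C2 * C2 * (2 : ℝ) ^ (-N0)) ≤
      P * (K * C2) * Z := by
    calc ((L : ℝ) + 1) * ((M + 1) * (⌈B⌉₊ * M + 1)) * (((2 : ℝ) ^ L) ^ C2 * C2 * (2 : ℝ) ^ (-N0)) ≤
          (K * ((2 : ℝ) ^ L) ^ (5 : ℝ)) * (((2 : ℝ) ^ L) ^ C2 * C2 * Z) := by
          refine mul_le_mul hcnt (mul_le_mul_of_nonneg_left hNs (by positivity)) (by positivity) (by positivity)
      _ = (((2 : ℝ) ^ L) ^ (5 : ℝ) * ((2 : ℝ) ^ L) ^ C2) * (K * C2) * Z := by ring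
      _ ≤ P * (K * C2) * Z := by
          refine mul_le_mul_of_nonneg_right (mul_le_mul_of_nonneg_right hC2C (by positivity)) hZ0.le
  calc ((2 : ℝ) ^ L) ^ C1 * C1 * (2 : ℝ) ^ (-Y) + (((2 : ℝ) ^ L) ^ C1 * C1 * (2 : ℝ) ^ (-Y) +
        ((L : ℝ) + 1) * ((M + 1) * (⌈B⌉₊ * M + 1)) * (((2 : ℝ) ^ L) ^ C2 * C2 * (2 : ℝ) ^ (-N0))) ≤
        P * C1 * Z + (P * C1 * Z + P * (K * C2) * Z) := by linarith
    _ = P * (2 * C1 + K * C2) * Z := by ring
    _ ≤ P * C * Z := by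
        refine mul_le_mul_of_nonneg_right (mul_le_mul_of_nonneg_left ?_ hPpos.le) hZ0.le
        rw [hC]; linarith

end SDN

end HexObs
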