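import Pool.Agent.SDN.Defs

/-!
SDN, limit version, module DM1: the number of folds is at least the number of alternating displacements.
-/

set_option autoImplicit false

namespace HexObs

namespace SDN

section AltLe

variable {f : ℕ → ℤ} {n : ℕ} {R : ℤ} {m u : ℕ} {e : ℕ → ℕ}

lemma sg_par {k l : ℕ} (h : Even k ↔ Even l) (x : ℤ) : Tight.sg k x = Tight.sg l x := by
  unfold Tight.sg
  by_cases hk : Even k
  · rw [if_pos hk, if_pos (h.1 hk)]
  · rw [if_neg hk, if_neg (fun hl => hk (h.2 hl))]

lemma sg_opp {k l : ℕ} (h : ¬ (Even k ↔ Even l)) (x : ℤ) : Tight.sg k x = -Tight.sg l x := by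
  unfold Tight.sg
  by_cases hk : Even k
  · have hl : ¬ Even l := fun hl => h ⟨fun _ => hl, fun _ => hk⟩
    rw [if_pos hk, if_neg hl]
  · have hl : Even l := by
      by_contra hl
      exact h ⟨fun h1 => absurd h1 hk, fun h1 => absurd h1 hl⟩
    rw [if_neg hk, if_pos hl, neg_neg]

lemma sg_add_sub (k : ℕ) (c x y : ℤ) : Tight.sg k (c + x) - Tight.sg k (c + y) = Tight.sg k x - Tight.sg k y := by
  unfold Tight.sg
  split_ifs <;> ring

lemma sg_sub_sub (k : ℕ) (c x y : ℤ) :
    Tight.sg (k + 1) (c - x) - Tight.sg (k + 1) (c - y) = Tight.sg k x - Tight.sg k y := by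
  rw [Tight.sg_succ, Tight.sg_succ]
  unfold Tight.sg
  split_ifs <;> ring

lemma Hyst.monoA (h : Hyst f n R m u e) {j k : ℕ} (hjk : j ≤ k) (hk : k ≤ m) : e j ≤ e k := by
  obtain ⟨d, rfl⟩ := Nat.exists_eq_add_of_le hjk
  have : ∀ d', d' ≤ d → e j ≤ e (j + d') := by
    intro d'
    induction d' with
    | zero => intro _; exact le_rfl
    | succ d' ih =>
      intro hd'
      have a1 := ih (by omega)
      have a2 := h.lt (j + d') (by omega)
      rw [← add_assoc]
      omega
  exact this d le_rfl

lemma Hyst.start_sg (h : Hyst f n R m u e) (w : ℕ) {x y : ℕ} (hx : x ≤ e 0) (hy : y ≤ e 0) :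
    Tight.sg w (f y) - Tight.sg w (f x) < R := by
  have h1 := h.start x y hx hy
  have h2 := h.start y x hy hx
  unfold Tight.sg
  split_ifs <;> omega

lemma Hyst.fin_sg (h : Hyst f n R m u e) (w : ℕ) {x y : ℕ} (hx : e m ≤ x) (hx' : x ≤ n) (hy : e m ≤ y) (hy' : y ≤ n) :
    Tight.sg w (f y) - Tight.sg w (f x) < R := by
  have h1 := h.fin x y hx hx' hy hy'
  have h2 := h.fin y x hy hy' hx hx'
  unfold Tight.sg
  split_ifs <;> omega

/-- a displacement of at least R meets a piece of its direction -/
lemma Hyst.meet (h : Hyst f n R m u e) (hm : 1 ≤ m) {w x y : ℕ} (hxy : x < y) (hy : y ≤ n)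
    (hd : R ≤ Tight.sg w (f y) - Tight.sg w (f x)) :
    ∃ j, j < m ∧ (Even (u + j) ↔ Even w) ∧ e j < y ∧ x < e (j + 1) := by
  classical
  have h0 : e 0 < y := by
    by_contra hc
    have := h.start_sg w (x := x) (y := y) (by omega) (by omega)
    omega
  obtain ⟨j, hj1, hj2, hj3⟩ : ∃ j, j ≤ m ∧ e j < y ∧ ∀ l, j < l → l ≤ m → y ≤ e l := by
    refine ⟨Nat.findGreatest (fun j => e j < y) m, Nat.findGreatest_le m, ?_, ?_⟩
    · exact Nat.findGreatest_spec (P := fun j => e j < y) (Nat.zero_le m) h0
    · intro l hl hlm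
      have := Nat.findGreatest_is_greatest (P := fun j => e j < y) hl hlm
      omega
  have adj : ∀ j, ¬ (Even (u + (j + 1)) ↔ Even w) → (Even (u + j) ↔ Even w) := by
    intro j hne
    rw [← add_assoc, Nat.even_add_one] at hne
    tauto
  rcases Nat.lt_or_ge j m with hjm | hjm
  · have hy1 := hj3 (j + 1) (by omega) (by omega)
    by_cases hs : (Even (u + j) ↔ Even w)
    · exact ⟨j, hjm, hs, hj2, by omega⟩
    · have hsg : ∀ z, Tight.sg w z = -Tight.sg (u + j) z := fun z => by rw [sg_opp hs z, neg_neg]
      rw [hsg, hsg] at hd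
      have hx : x < e j := by
        by_contra hc
        have := h.small j hjm x y (by omega) (by omega) hy1
        omega
      rcases Nat.eq_zero_or_pos j with hj0 | hj0
      · exfalso
        subst hj0
        have a1 := h.lo 0 hm y hj2 hy1
        have a2 := h.start_sg (u + 0) (x := e 0) (y := x) le_rfl (by omega)
        omega
      · obtain ⟨j', rfl⟩ : ∃ j', j = j' + 1 := ⟨j - 1, by omega⟩
        have a1 := h.lt j' (by omega)
        exact ⟨j', by omega, adj j' hs, by omega, hx⟩
  · have hj : j = m := by omega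
    subst hj
    obtain ⟨l, rfl⟩ : ∃ l, j = l + 1 := ⟨j - 1, by omega⟩
    have hx : x < e (l + 1) := by
      by_contra hc
      have := h.fin_sg w (x := x) (y := y) (by omega) (by omega) hj2.le hy
      omega
    have a0 := h.lt l (by omega)
    by_cases hs : (Even (u + l) ↔ Even w)
    · exact ⟨l, by omega, hs, by omega, hx⟩
    · have hsg : ∀ z, Tight.sg w z = -Tight.sg (u + l) z := fun z => by rw [sg_opp hs z, neg_neg]
      rw [hsg, hsg] at hd
      have b1 := h.fin_sg (u + l) (x := y) (y := e (l + 1)) hj2.le hy le_rfl h.le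
      have hx' : x < e l := by
        by_contra hc
        have := h.hi l (by omega) x (by omega) hx.le
        omega
      rcases Nat.eq_zero_or_pos l with hl0 | hl0
      · exfalso
        subst hl0
        have a1 := h.big 0 (by omega)
        have a2 := h.start_sg (u + 0) (x := e 0) (y := x) le_rfl (by omega)
        rw [zero_add] at a1 b1
        omega
      · obtain ⟨l', rfl⟩ : ∃ l', l = l' + 1 := ⟨l - 1, by omega⟩
        have a1 := h.lt l' (by omega)
        exact ⟨l', by omega, adj l' hs, by omega, hx'⟩

/-- ALTERNATING DISPLACEMENTS -/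
theorem alt_le (h : Hyst f n R m u e) {k v : ℕ} {i : ℕ → ℕ} (hi : ∀ a, a < k → i a < i (a + 1)) (hn : i k ≤ n)
    (hd : ∀ a, a < k → R ≤ Tight.sg (v + a) (f (i (a + 1))) - Tight.sg (v + a) (f (i a))) : k ≤ max m 1 := by
  have hik : ∀ a, a ≤ k → i a ≤ n := by
    intro a ha
    obtain ⟨d, rfl⟩ := Nat.exists_eq_add_of_le ha
    have : ∀ d', d' ≤ d → i a ≤ i (a + d') := by
      intro d'
      induction d' with
      | zero => intro _; exact le_rfl
      | succ d' ih =>
        intro hd'
        have a1 := ih (by omega)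
        have a2 := hi (a + d') (by omega)
        rw [← add_assoc]
        omega
    exact (this d le_rfl).trans hn
  rcases Nat.eq_zero_or_pos m with hm | hm
  · subst hm
    have key : ∀ a, a < k → i a < e 0 ∧ e 0 < i (a + 1) := by
      intro a ha
      have h1 := hi a ha
      have h2 := hd a ha
      have h3 := hik (a + 1) (by omega)
      constructor
      · by_contra hc
        have := h.fin_sg (v + a) (x := i a) (y := i (a + 1)) (by omega) (by omega) (by omega) h3
        omega
      · by_contra hc
        have := h.start_sg (v + a) (x := i a) (y := i (a + 1)) (by omega) (by omega)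
        omega
    by_contra hc
    have h1 := (key 0 (by omega)).2
    have h2 := (key 1 (by omega)).1
    rw [zero_add] at h1
    omega
  · have hJ : ∀ a, a < k → ∃ j, j < m ∧ (Even (u + j) ↔ Even (v + a)) ∧ e j < i (a + 1) ∧ i a < e (j + 1) :=
      fun a ha => h.meet hm (hi a ha) (hik _ (by omega)) (hd a ha)
    have key : ∀ a, a < k → ∀ j, j < m → (Even (u + j) ↔ Even (v + a)) → i a < e (j + 1) → a ≤ j := by
      intro a
      induction a with
      | zero => intro _ j _ _ _; exact Nat.zero_le _
      | succ a ih =>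
        intro ha j hj hpar hlt
        obtain ⟨l, l1, l2, l3, l4⟩ := hJ a (by omega)
        have h1 := ih (by omega) l l1 l2 l4
        have h2 : l ≤ j := by
          by_contra hc
          have := h.monoA (j := j + 1) (k := l) (by omega) (by omega)
          omega
        have h3 : l ≠ j := by
          rintro rfl
          rw [← add_assoc, Nat.even_add_one] at hpar
          tauto
        omega
    rcases Nat.eq_zero_or_pos k with hk | hk
    · omega
    · obtain ⟨j, j1, j2, j3, j4⟩ := hJ (k - 1) (by omega)
      have := key (k - 1) (by omega) j j1 j2 j4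
      omega

variable {g : ℕ → ℤ} {n' mg ug : ℕ} {eg : ℕ → ℕ}

/-- a part of the path has at most as many pieces -/
theorem hyst_sub (hf : Hyst f n R m u e) (hg : Hyst g n' R mg ug eg) {a : ℕ} (han : a + n ≤ n') {c : ℤ}
    (hrel : (∀ i, i ≤ n → g (a + i) = c + f i) ∨ (∀ i, i ≤ n → g (a + i) = c - f i)) : m ≤ max mg 1 := by
  have hen : ∀ j, j ≤ m → e j ≤ n := fun j hj => (hf.monoA hj le_rfl).trans hf.le
  rcases hrel with hr | hr
  · refine alt_le hg (k := m) (v := u) (i := fun j => a + e j) (fun j hj => ?_) ?_ ?_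
    · have := hf.lt j hj
      show a + e j < a + e (j + 1)
      omega
    · have := hf.le
      show a + e m ≤ n'
      omega
    · intro j hj
      show R ≤ Tight.sg (u + j) (g (a + e (j + 1))) - Tight.sg (u + j) (g (a + e j))
      rw [hr _ (hen _ (by omega)), hr _ (hen _ (by omega)), sg_add_sub]
      exact hf.big j hj
  · refine alt_le hg (k := m) (v := u + 1) (i := fun j => a + e j) (fun j hj => ?_) ?_ ?_
    · have := hf.lt j hj
      show a + e j < a + e (j + 1)
      omega
    · have := hf.le
      show a + e m ≤ n'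
      omega
    · intro j hj
      show R ≤ Tight.sg (u + 1 + j) (g (a + e (j + 1))) - Tight.sg (u + 1 + j) (g (a + e j))
      rw [hr _ (hen _ (by omega)), hr _ (hen _ (by omega)), show u + 1 + j = u + j + 1 by ring, sg_sub_sub]
      exact hf.big j hj

/-- a longer path has at most four pieces more, if its two ends have no displacement down -/
theorem hyst_ext (hf : Hyst f n R m u e) (hg : Hyst g n' R mg ug eg) {a : ℕ} (han : a + n ≤ n') {c : ℤ}
    (hrel : (∀ i, i ≤ n → g (a + i) = c + f i) ∨ (∀ i, i ≤ n → g (a + i) = c - f i))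
    (h1 : ∀ i i', i ≤ i' → i' ≤ a → g i - g i' < R)
    (h2 : ∀ i i', a + n ≤ i → i ≤ i' → i' ≤ n' → g i - g i' < R) : mg ≤ max m 1 + 4 := by
  by_contra hcon
  obtain ⟨k, rfl⟩ : ∃ k, mg = k + 4 := ⟨mg - 4, by omega⟩
  -- two consecutive pieces contain a displacement down
  have down : ∀ j, j + 1 < k + 4 → ∃ i i', eg j ≤ i ∧ i ≤ i' ∧ i' ≤ eg (j + 2) ∧ R ≤ g i - g i' := by
    intro j hj
    have a1 := hg.lt j (by omega)
    have a2 := hg.lt (j + 1) (by omega)
    rw [show j + 1 + 1 = j + 2 from rfl] at a2
    by_cases hev : Even (ug + j)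
    · have := hg.big j (by omega)
      rw [Tight.sg_even hev, Tight.sg_even hev] at this
      exact ⟨eg j, eg (j + 1), le_rfl, a1.le, a2.le, by omega⟩
    · have hev' : Even (ug + (j + 1)) := by
        rw [← add_assoc, Nat.even_add_one]
        exact hev
      have := hg.big (j + 1) (by omega)
      rw [Tight.sg_even hev', Tight.sg_even hev'] at this
      exact ⟨eg (j + 1), eg (j + 2), a1.le, a2.le, le_rfl, by
        rw [show j + 1 + 1 = j + 2 from rfl] at this
        omega⟩
  have hb : a < eg 2 := by
    by_contra hc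
    obtain ⟨i, i', i1, i2, i3, i4⟩ := down 0 (by omega)
    rw [zero_add] at i3
    have := h1 i i' i2 (by omega)
    omega
  have ht : eg (k + 2) < a + n := by
    by_contra hc
    obtain ⟨i, i', i1, i2, i3, i4⟩ := down (k + 2) (by omega)
    have := h2 i i' (by omega) i2 (i3.trans hg.le)
    omega
  have hm2 : ∀ j, j ≤ k → a < eg (2 + j) ∧ eg (2 + j) < a + n := by
    intro j hj
    have a1 := hg.monoA (j := 2) (k := 2 + j) (by omega) (by omega)
    have a2 := hg.monoA (j := 2 + j) (k := k + 2) (by omega) (by omega)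
    omega
  have key : k ≤ max m 1 := by
    have hidx : ∀ j, j ≤ k → a + (eg (2 + j) - a) = eg (2 + j) := fun j hj => by
      have := (hm2 j hj).1
      omega
    rcases hrel with hr | hr
    · refine alt_le hf (k := k) (v := ug + 2) (i := fun j => eg (2 + j) - a) (fun j hj => ?_) ?_ ?_
      · have b1 := hg.lt (2 + j) (by omega)
        have b2 := (hm2 j (by omega)).1
        show eg (2 + j) - a < eg (2 + (j + 1)) - a
        rw [← add_assoc]
        omega
      · have := hm2 k le_rfl
        show eg (2 + k) - a ≤ n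
        omega
      · intro j hj
        show R ≤ Tight.sg (ug + 2 + j) (f (eg (2 + (j + 1)) - a)) - Tight.sg (ug + 2 + j) (f (eg (2 + j) - a))
        have c1 := hr (eg (2 + j) - a) (by have := hm2 j (by omega); omega)
        have c2 := hr (eg (2 + (j + 1)) - a) (by have := hm2 (j + 1) (by omega); omega)
        rw [hidx j (by omega)] at c1
        rw [hidx (j + 1) (by omega)] at c2
        rw [← sg_add_sub _ c, ← c1, ← c2, add_assoc ug 2 j]
        exact hg.big (2 + j) (by omega)
    · refine alt_le hf (k := k) (v := ug + 3) (i := fun j => eg (2 + j) - a) (fun j hj => ?_) ?_ ?_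
      · have b1 := hg.lt (2 + j) (by omega)
        have b2 := (hm2 j (by omega)).1
        show eg (2 + j) - a < eg (2 + (j + 1)) - a
        rw [← add_assoc]
        omega
      · have := hm2 k le_rfl
        show eg (2 + k) - a ≤ n
        omega
      · intro j hj
        show R ≤ Tight.sg (ug + 3 + j) (f (eg (2 + (j + 1)) - a)) - Tight.sg (ug + 3 + j) (f (eg (2 + j) - a))
        have c1 := hr (eg (2 + j) - a) (by have := hm2 j (by omega); omega)
        have c2 := hr (eg (2 + (j + 1)) - a) (by have := hm2 (j + 1) (by omega); omega)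
        rw [hidx j (by omega)] at c1
        rw [hidx (j + 1) (by omega)] at c2
        have e1 : ∀ x, Tight.sg (ug + 3 + j) x = Tight.sg (ug + (2 + j) + 1) x := fun x => by
          rw [show ug + 3 + j = ug + (2 + j) + 1 by ring]
        have e3 : ∀ x y : ℤ, Tight.sg (ug + (2 + j) + 1) x - Tight.sg (ug + (2 + j) + 1) y =
            Tight.sg (ug + (2 + j)) (c - x) - Tight.sg (ug + (2 + j)) (c - y) := by
          intro x y
          rw [Tight.sg_succ, Tight.sg_succ]
          unfold Tight.sg
          split_ifs <;> ring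
        rw [e1, e1, e3, ← c1, ← c2]
        exact hg.big (2 + j) (by omega)
  omega

end AltLe

end SDN

end HexObs
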