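import Pool.Agent.SDN.Peierls1F
import Pool.Agent.SDN.CrossDD
import Pool.Agent.SDN.CoarseW

/-!
SDN, W6: the crowding bound (Peierls 1 summed over the scales).
-/

set_option autoImplicit false

namespace HexObs

namespace SDN

open Finset TS

open scoped ENNReal

namespace Crw

lemma gf_iUnion_le {ι : Type*} (F : ι → Set (List Bool)) : gf (⋃ i, F i) ≤ ∑' i, gf (F i) :=
  ENNReal.tsum_iUnion_le_tsum wE F

/-- the first term and the last term of DD -/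
lemma DD_ge_nb {L : ℕ} {Y : ℝ} (hY : 0 ≤ Y) {b : ℕ} (hb : b ≤ L + 2) (t : List Bool) : (nb b t : ℝ) ≤ DD L Y b t := by
  unfold DD
  have h1 : ((5 / 2 : ℝ) ^ 0 * nb (b + 0) t : ℝ) ≤ ∑ i ∈ range (L + 3 - b), (5 / 2 : ℝ) ^ i * nb (b + i) t :=
    Finset.single_le_sum (f := fun i => (5 / 2 : ℝ) ^ i * (nb (b + i) t : ℝ)) (fun i _ => by positivity)
      (Finset.mem_range.2 (by omega))
  have h2 : 0 ≤ Y * (5 / 2 : ℝ) ^ (L + 3 - b) := by positivity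
  simp only [pow_zero, one_mul, add_zero] at h1
  linarith

lemma DD_ge_Y {L : ℕ} {Y : ℝ} (hY : 0 ≤ Y) (b : ℕ) (t : List Bool) : Y ≤ DD L Y b t := by
  unfold DD
  have h1 : 0 ≤ ∑ i ∈ range (L + 3 - b), (5 / 2 : ℝ) ^ i * (nb (b + i) t : ℝ) :=
    Finset.sum_nonneg fun i _ => by positivity
  have h2 : (1 : ℝ) ≤ (5 / 2 : ℝ) ^ (L + 3 - b) := one_le_pow₀ (by norm_num)
  nlinarith

/-- the weight of the bad words of the scale b with m leaves -/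
lemma term_le {K Y : ℝ} (hK : 0 ≤ K) {m : ℕ} (h : Y < m) :
    ENNReal.ofReal (K / 4 ^ m) ≤ ENNReal.ofReal (K * (2 : ℝ) ^ (-Y)) * (1 / 2) ^ m := by
  have e1 : ((1 / 2 : ℝ≥0∞)) ^ m = ENNReal.ofReal ((1 / 2 : ℝ) ^ m) := by
    rw [ENNReal.ofReal_pow (by norm_num), ENNReal.ofReal_div_of_pos (by norm_num), ENNReal.ofReal_one,
      ENNReal.ofReal_ofNat]
  rw [e1, ← ENNReal.ofReal_mul (by positivity)]
  apply ENNReal.ofReal_le_ofReal
  have h1 : (2 : ℝ) ^ (-(m : ℝ)) ≤ (2 : ℝ) ^ (-Y) := Real.rpow_le_rpow_of_exponent_le (by norm_num) (by linarith)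
  have h2 : (2 : ℝ) ^ (-(m : ℝ)) = (1 / 2 : ℝ) ^ m := by
    rw [Real.rpow_neg (by norm_num), Real.rpow_natCast]
    simp
  have h3 : K / 4 ^ m = K * (1 / 2 : ℝ) ^ m * (1 / 2 : ℝ) ^ m := by
    rw [mul_assoc, ← mul_pow, div_eq_mul_inv, ← inv_pow]
    norm_num
  rw [h3]
  rw [h2] at h1
  gcongr

end Crw

open Crw in
/-- CROWDING: at all scales b ≥ b0 the number of leaves is at most A DD, with an exponentially small exception -/
theorem crowd_bound : ∃ (A C : ℝ) (b0 : ℕ), 1 ≤ A ∧ 0 < C ∧ 1 ≤ b0 ∧ ∀ (L : ℕ) (Y : ℝ) (dir : Bool), 1 ≤ L → 1 ≤ Y →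
    gf {t | t ∈ WL L ∧ ∃ b m u e, b0 ≤ b ∧ b ≤ L + 2 ∧ Lf dir b t m u e ∧ A * DD L Y b t < m} ≤
      ENNReal.ofReal (((2 : ℝ) ^ L) ^ C * C * (2 : ℝ) ^ (-Y)) := by
  obtain ⟨A, C, b1, hA, hC, hP⟩ := peierls1
  refine ⟨A, 8 * (C + 1), b1 + 1, hA, by positivity, by omega, ?_⟩
  intro L Y dir hL hY
  have hA0 : 0 ≤ A := by linarith
  have hY0 : 0 ≤ Y := by linarith
  set K : ℝ := ((2 : ℝ) ^ L) ^ C * C with hKdef
  have hK0 : 0 ≤ K := by positivity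
  -- the sets of the scale b with m leaves
  let Q : ℕ → ℕ → Set (List Bool) := fun b m => {t | (b1 + 1 ≤ b ∧ b ≤ L + 2 ∧ Y < m) ∧ t ∈ WL L ∧ ∃ u e,
    Lf dir b t m u e ∧ A * nb b t ≤ m ∧ dbl (2 ^ (b - 1)) (lws t e 1 (m - 2)) ≤ 12 * m}
  have hQ : ∀ b m, gf (Q b m) ≤ ENNReal.ofReal (K * (2 : ℝ) ^ (-Y)) * (1 / 2) ^ m := by
    intro b m
    by_cases h : b1 + 1 ≤ b ∧ b ≤ L + 2 ∧ Y < m
    · have hm : 1 ≤ m := by
        have : (0 : ℝ) < m := by linarith [h.2.2]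
        exact_mod_cast this
      refine le_trans (gf_mono (fun t ht => ht.2)) ?_
      exact (hP L b m dir hL (by omega) h.2.1 hm).trans (term_le hK0 h.2.2)
    · have : Q b m = ∅ := by
        ext t
        exact ⟨fun ht => (h ht.1).elim, fun ht => ht.elim⟩
      rw [this]
      simp [gf]
  have hsub : {t | t ∈ WL L ∧ ∃ b m u e, b1 + 1 ≤ b ∧ b ≤ L + 2 ∧ Lf dir b t m u e ∧ A * DD L Y b t < m} ⊆
      ⋃ b : Fin (L + 3), ⋃ m : ℕ, Q b m := by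
    rintro t ⟨ht, hex⟩
    classical
    -- the largest bad scale
    let bad : ℕ → Prop := fun b => ∃ m u e, b1 + 1 ≤ b ∧ b ≤ L + 2 ∧ Lf dir b t m u e ∧ A * DD L Y b t < m
    obtain ⟨b', hb'⟩ : ∃ b, bad b := by
      obtain ⟨b, m, u, e, h⟩ := hex
      exact ⟨b, m, u, e, h⟩
    have hle : b' ≤ L + 2 := by
      obtain ⟨_, _, _, h⟩ := hb'
      exact h.2.1
    have hg := Nat.findGreatest_spec (P := bad) hle hb'
    set b := Nat.findGreatest bad (L + 2) with hbdef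
    obtain ⟨m, u, e, h1, h2, h3, h4⟩ := hg
    have hgt' : ∀ c, b + 1 ≤ c → c ≤ L + 2 → ∃ m u e, Lf dir c t m u e ∧ (m : ℝ) ≤ A * DD L Y c t := by
      intro c hc1 hc2
      obtain ⟨m', u', e', h'⟩ := lf_exists dir c t
      refine ⟨m', u', e', h', ?_⟩
      by_contra hlt
      have hbc : bad c := ⟨m', u', e', by omega, hc2, h', lt_of_not_ge hlt⟩
      have := Nat.le_findGreatest (P := bad) hc2 hbc
      omega
    have hD0 : Y ≤ DD L Y b t := DD_ge_Y hY0 b t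
    have hDn : (nb b t : ℝ) ≤ DD L Y b t := DD_ge_nb hY0 h2 t
    have hbL : b ≤ L + 1 := by
      by_contra hcon
      have hm0 := lf_top ht (show L + 2 ≤ b by omega) h3
      subst hm0
      have : 0 ≤ A * DD L Y b t := mul_nonneg hA0 (by linarith)
      simp only [Nat.cast_zero] at h4
      linarith
    have hd := dbl_DD ht hA hY (by omega) hbL h3 hgt'
    rw [Set.mem_iUnion]
    refine ⟨⟨b, by omega⟩, ?_⟩
    rw [Set.mem_iUnion]
    refine ⟨m, ⟨h1, h2, ?_⟩, ht, u, e, h3, ?_, ?_⟩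
    · have : DD L Y b t ≤ A * DD L Y b t := by nlinarith
      linarith
    · have : A * nb b t ≤ A * DD L Y b t := mul_le_mul_of_nonneg_left hDn hA0
      linarith
    · have : (dbl (2 ^ (b - 1)) (lws t e 1 (m - 2)) : ℝ) ≤ 12 * m := by
        have : 10 * A * DD L Y b t ≤ 10 * m := by nlinarith
        linarith
      exact_mod_cast this
  refine (gf_mono hsub).trans ?_
  have hS : ∀ b : Fin (L + 3), gf (⋃ m : ℕ, Q b m) ≤ ENNReal.ofReal (K * (2 : ℝ) ^ (-Y)) * 2 := by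
    intro b
    refine (gf_iUnion_le _).trans ((ENNReal.tsum_le_tsum fun m => hQ b m).trans ?_)
    rw [ENNReal.tsum_mul_left]
    have : ∑' m : ℕ, (1 / 2 : ℝ≥0∞) ^ m = 2 := by
      rw [ENNReal.tsum_geometric]
      rw [one_div, ENNReal.one_sub_inv_two, inv_inv]
    rw [this]
  refine (gf_iUnion_le _).trans ((ENNReal.tsum_le_tsum hS).trans ?_)
  rw [tsum_fintype, Finset.sum_const, Finset.card_univ, Fintype.card_fin, nsmul_eq_mul]
  have e2 : ((L + 3 : ℕ) : ℝ≥0∞) * (ENNReal.ofReal (K * (2 : ℝ) ^ (-Y)) * 2) =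
      ENNReal.ofReal ((L + 3 : ℕ) * (K * (2 : ℝ) ^ (-Y) * 2)) := by
    rw [ENNReal.ofReal_mul (Nat.cast_nonneg (L + 3)), ENNReal.ofReal_mul (q := 2) (by positivity),
      ENNReal.ofReal_natCast, ENNReal.ofReal_ofNat]
  rw [e2]
  apply ENNReal.ofReal_le_ofReal
  have hL3 : ((L + 3 : ℕ) : ℝ) ≤ 4 * (2 : ℝ) ^ L := by
    have : ∀ n : ℕ, n + 3 ≤ 4 * 2 ^ n := by
      intro n
      induction n with
      | zero => norm_num
      | succ n ih => rw [pow_succ]; omega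
    exact_mod_cast this L
  have h2L : (1 : ℝ) ≤ (2 : ℝ) ^ L := one_le_pow₀ (by norm_num)
  have h5 : ((2 : ℝ) ^ L) ^ C * (2 : ℝ) ^ L ≤ ((2 : ℝ) ^ L) ^ (8 * (C + 1)) := by
    calc ((2 : ℝ) ^ L) ^ C * (2 : ℝ) ^ L = ((2 : ℝ) ^ L) ^ (C + 1) := by
          rw [Real.rpow_add (by positivity), Real.rpow_one]
      _ ≤ _ := Real.rpow_le_rpow_of_exponent_le h2L (by linarith)
  have hY2 : 0 ≤ (2 : ℝ) ^ (-Y) := by positivity
  calc ((L + 3 : ℕ) : ℝ) * (K * (2 : ℝ) ^ (-Y) * 2) ≤ (4 * (2 : ℝ) ^ L) * (K * (2 : ℝ) ^ (-Y) * 2) :=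
        mul_le_mul_of_nonneg_right hL3 (by positivity)
    _ = (((2 : ℝ) ^ L) ^ C * (2 : ℝ) ^ L) * (8 * C) * (2 : ℝ) ^ (-Y) := by rw [hKdef]; ring
    _ ≤ ((2 : ℝ) ^ L) ^ (8 * (C + 1)) * (8 * (C + 1)) * (2 : ℝ) ^ (-Y) := by
        apply mul_le_mul_of_nonneg_right _ hY2
        exact mul_le_mul h5 (by linarith) (by positivity) (by positivity)

end SDN

end HexObs
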