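import Pool.Agent.SDN.BridgeChain
import Pool.Agent.SDN.Dim1Defs
import Pool.Agent.TightS.SBasic

/-!
SDN, board/DIM1, module G: the chain of all leaves of a bridge, with the heights and the backtracks of the leaves.
-/

set_option autoImplicit false

namespace HexObs

namespace SDN

open Finset TS

variable {T b m u : ℕ} {t : List Bool} {e : ℕ → ℕ}

/-- the last leaf of a bridge -/
lemma last_leaf2 (ht : t ∈ Brd T) (hb : 1 ≤ b) (h : Lf false b t (m + 1) u e) (hm : 1 ≤ m) :
    ∃ k : ℕ, t.drop (e m + 1) ∈ Brd k ∧ 2 ^ b - 1 ≤ k ∧ t.drop (e m + 1) ∈ CL b ∧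
      3 * (T : ℤ) = lev t (e m) + 3 * k + 1 := by
  have hR := RR_ge hb
  obtain ⟨hu, hm2, h'⟩ := bridge_lf ht hb h (by omega)
  obtain ⟨t1, t2, t3, t4⟩ := mem_Brd.1 ht
  have vm : ee (m + 1) t.length e (m + 1) = t.length := by
    unfold ee
    rw [if_neg (by omega), if_pos rfl]
  have vj : ∀ j, 1 ≤ j → j ≤ m → ee (m + 1) t.length e j = e j := by
    intro j j1 j2
    unfold ee
    rw [if_neg (by omega), if_neg (by omega)]
  have hum : ¬ Even (u + m) := by
    have hm3 : Even m := by
      rw [Nat.even_add_one, not_not] at hm2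
      exact hm2
    rw [Nat.even_add]
    tauto
  have lo := h'.lo m (by omega)
  have big := h'.big m (by omega)
  have lt := h'.lt m (by omega)
  rw [vm, vj m hm le_rfl] at lo big lt
  simp only [Tight.sg_odd hum, lvl_false] at lo big
  have m1 := h.lt (m - 1) (by omega)
  rw [show m - 1 + 1 = m by omega] at m1
  obtain ⟨a, ha⟩ : ∃ a, e m = a + 1 := ⟨e m - 1, by omega⟩
  have hi := h.hi (m - 1) (by omega) a (by omega) (by rw [show m - 1 + 1 = m by omega]; omega)
  have hum1 : Even (u + (m - 1)) := by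
    by_contra hc
    apply hc
    obtain ⟨m'', rfl⟩ : ∃ m'', m = m'' + 1 := ⟨m - 1, by omega⟩
    rw [show m'' + 1 - 1 = m'' by omega]
    rw [← add_assoc, Nat.even_add_one, not_not] at hum
    exact hum
  rw [show m - 1 + 1 = m by omega, Tight.sg_even hum1, Tight.sg_even hum1, lvl_false, lvl_false, ha] at hi
  rw [ha] at lo big lt
  have hlen : a + 3 ≤ t.length := by
    by_contra hc
    have e1 := lt
    have h3 : ∀ i, lev t (i + 1) ≤ lev t i + 2 := by
      intro i
      exact xD_step_le (D := up) upd t i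
    have h4 := h3 (a + 1)
    have e2 : t.length = a + 1 + 1 := by omega
    rw [← e2] at h4
    omega
  obtain ⟨hf, hf1⟩ := fold_dx (D := up) upd (t := t) (e := a) (by unfold xD; unfold lev at hi; omega)
    (lo (a + 2) (by omega) (by omega)) (lo (a + 3) (by omega) (by omega))
  have hf1' : lev t (a + 2) = lev t (a + 1) + 1 := hf1
  have hv : ∀ i, vx oo up t (a + 2 + i) = vx oo up t (a + 2) + vx oo up (t.drop (a + 2)) i := by
    intro i
    rw [vx_drop, hf]
    exact vx_shift _ _ _
  have hl : ∀ i, lev (t.drop (a + 2)) i = lev t (a + 2 + i) - lev t (a + 2) := by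
    intro i
    have : lev t (a + 2 + i) = lev t (a + 2) + lev (t.drop (a + 2)) i := by
      unfold lev
      rw [hv, ip_add_left]
    rw [this]
    ring
  have hql : (t.drop (a + 2)).length + (a + 2) = t.length := by
    rw [List.length_drop]
    omega
  have hmod := lev_mod t (a + 1)
  have hend : lev (t.drop (a + 2)) (t.drop (a + 2)).length = 3 * T - lev t (a + 2) := by
    rw [hl, show a + 2 + (t.drop (a + 2)).length = t.length by omega, t4]
  obtain ⟨k, hk⟩ : ∃ k : ℕ, 3 * (T : ℤ) - lev t (a + 2) = 3 * k := by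
    have hz : (3 : ℤ) ∣ lev t (a + 2) := by
      rw [hf1']
      have hodd : ¬ Even (a + 1) := by
        intro hev
        have hc : cl (dx up t (a + 2)) = cl up := by rw [hf]
        rw [cl_dx, if_neg (by rw [show a + 2 = a + 1 + 1 from rfl, Nat.even_add_one]; simpa using hev)] at hc
        revert hc
        decide
      rw [if_neg hodd] at hmod
      omega
    obtain ⟨z, hz⟩ := hz
    refine ⟨(T - z).toNat, ?_⟩
    omega
  have small := h'.small m (by omega)
  rw [vm, vj m hm le_rfl, ha] at small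
  simp only [Tight.sg_odd hum, lvl_false] at small
  refine ⟨k, ?_, ?_, ?_, ?_⟩
  · rw [ha]
    show t.drop (a + 2) ∈ Brd k
    rw [mem_Brd]
    refine ⟨?_, ?_, ?_, ?_⟩
    · intro i i1 i2
      rw [hl]
      have h5 := strict_D (D := up) upd (t := t) (f := a + 2) (e' := t.length) hf
        (fun i j1 j2 => by
          have := lo i (by omega) j2
          show lev t (a + 2) - 1 < lev t i
          omega)
        (by
          show lev t (a + 2) < lev t t.length
          omega) (i := a + 2 + i) (by omega) (by omega)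
      have h6 : lev t (a + 2) < lev t (a + 2 + i) := h5
      have h7 := (lev_range ht (i := a + 2 + i) (by omega)).2.1
      constructor <;> omega
    · intro i l il hl' heq
      apply t2 (a + 2 + i) (a + 2 + l) (by omega) (by omega)
      rw [hv, hv, heq]
    · have h5 := dx_drop t (a + 2) (t.drop (a + 2)).length
      rw [hf, show a + 2 + (t.drop (a + 2)).length = t.length by omega, t3] at h5
      exact h5.symm
    · rw [hend, hk]
  · have h5 : (2 : ℤ) ^ b - 1 ≤ k := by
      unfold RR at big
      omega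
    have h6 : ((2 ^ b : ℕ) : ℤ) = 2 ^ b := by push_cast; rfl
    omega
  · rw [ha]
    intro i i' i1 i2
    have i2' : i' ≤ (t.drop (a + 2)).length := i2
    have e1 : lev (t.drop (a + 1 + 1)) i = lev t (a + 2 + i) - lev t (a + 2) := hl i
    have e2 : lev (t.drop (a + 1 + 1)) i' = lev t (a + 2 + i') - lev t (a + 2) := hl i'
    rw [e1, e2]
    have h8 := small (a + 2 + i) (a + 2 + i') (by omega) (by omega) (by omega)
    omega
  · rw [ha]
    omega

/-- the interior leaves: no backtracks, heights, levels -/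
lemma int_leaf (ht : t ∈ SA) (hb : 1 ≤ b) (h : Lf false b t m u e) {j : ℕ} (h1 : 1 ≤ j) (h2 : j + 2 ≤ m) :
    ∃ k : ℕ, lw t (e j) (e (j + 1)) ∈ Brd k ∧ 2 ^ b - 1 ≤ k ∧ lw t (e j) (e (j + 1)) ∈ CL b ∧
      Tight.sg (u + j) (lev t (e (j + 1))) = Tight.sg (u + j) (lev t (e j)) + 1 + 3 * k := by
  obtain ⟨c, M, r1, r2, r3, r4, r5, r6, r7, r8, r9, -⟩ := leaf_at ht hb h h1 h2
  obtain ⟨k, k1, k2, -⟩ := lw_brd ht hb h h1 h2
  have hkM : k = M := by rw [← hgt_eq k1, hgt_eq r6]
  subst hkM
  have hlev : ∀ i, i ≤ (lw t (e j) (e (j + 1))).length →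
      lev (lw t (e j) (e (j + 1))) i = xD (dD false (u + j)) t (e j + 1 + i) - xD (dD false (u + j)) t (e j + 1) := by
    intro i hi
    have e1 : xD (dD false (u + j)) t (e j + 1 + i) = xD (dD false (u + j)) t (e j + 1) +
        ip (mulE c (vx oo up (t.drop (e j + 1)) i)) (dD false (u + j)) := by
      unfold xD
      rw [r8, ip_add_left]
    have e2 : ip (mulE c (vx oo up (t.drop (e j + 1)) i)) (dD false (u + j)) =
        lev (lw t (e j) (e (j + 1))) i := by
      rw [← r2, ip_mulE, mem_dirs.1 r1, one_mul, ← r9 i hi]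
      rfl
    rw [e1, e2]
    ring
  refine ⟨k, k1, k2, ?_, ?_⟩
  · intro i i' i1 i2
    rw [hlev i (by omega), hlev i' i2]
    have h8 := h.small j (by omega) (e j + 1 + i) (e j + 1 + i') (by omega) (by omega) (by omega)
    rw [← xD_dD, ← xD_dD] at h8
    omega
  · rw [xD_dD, xD_dD] at r5
    exact r5

lemma sum_lws (f : List Bool → ℕ) (t : List Bool) (e : ℕ → ℕ) (j n : ℕ) :
    ((lws t e j n).map f).sum = ∑ i ∈ range n, f (lw t (e (j + i)) (e (j + i + 1))) := by
  unfold lws
  induction n with
  | zero => simp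
  | succ n ih =>
    rw [List.range_succ, List.map_append, List.map_append, List.sum_append, ih, sum_range_succ]
    simp

/-- the chain of all leaves of a bridge, with the heights and the backtracks of the leaves -/
theorem bridge_cl (ht : t ∈ Brd T) (hb : 1 ≤ b) (h : Lf false b t m u e)
    (hm : 1 ≤ m) :
    ∃ gs : List (List Bool), gs.length = m ∧ unf gs = t ∧ gs.IsChain LFold ∧
      (∀ g ∈ gs, g ∈ CL b ∧ ∃ k : ℕ, g ∈ Brd k ∧ 2 ^ b - 1 ≤ k) ∧
      tv (lev t) m e ≤ 4 * ((gs.map hgt).sum : ℕ) ∧ T ≤ (gs.map hgt).sum := by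
  have hR := RR_ge hb
  obtain ⟨hu, hm2, h'⟩ := bridge_lf ht hb h hm
  obtain ⟨t1, t2, t3, t4⟩ := mem_Brd.1 ht
  have htSA : t ∈ SA := ⟨fun _ _ _ => Set.mem_univ _, t2⟩
  rcases Nat.lt_or_ge 1 m with h1 | h1
  swap
  · have : m = 1 := by omega
    subst this
    have h3 := h.big 0 (by omega)
    rw [add_zero, Tight.sg_odd hu, Tight.sg_odd hu, lvl_false, lvl_false, zero_add] at h3
    have h4 := (lev_range ht (e_len h (k := 1) (by omega))).2.1
    have h5 := (lev_range ht (e_len h (k := 0) (by omega))).1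
    have hT : ([t].map hgt).sum = T := by simp [hgt_eq ht]
    refine ⟨[t], rfl, rfl, List.isChain_singleton _, ?_, ?_, ?_⟩
    · intro g hg
      rw [List.mem_singleton] at hg
      subst hg
      refine ⟨?_, T, ht, ?_⟩
      · intro i i' i1 i2
        have h7 := h'.small 0 (by omega) i i' (Nat.zero_le _) i1 (by
          have : ee 1 g.length e 1 = g.length := by
            unfold ee
            rw [if_neg (by omega), if_pos rfl]
          rw [zero_add, this]
          exact i2)
        rw [add_zero, Tight.sg_odd hu, Tight.sg_odd hu, lvl_false, lvl_false] at h7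
        exact h7
      · have h6 : ((2 ^ b : ℕ) : ℤ) = 2 ^ b := by push_cast; rfl
        unfold RR at h3
        omega
    · rw [hT]
      unfold tv
      rw [sum_range_one, zero_add, abs_of_nonneg (by omega)]
      push_cast
      omega
    · rw [hT]
  obtain ⟨n, rfl⟩ : ∃ n, m = n + 3 := by
    refine ⟨m - 3, ?_⟩
    have : m ≠ 2 := by
      rintro rfl
      exact hm2 (by decide)
    omega
  -- the last leaf
  obtain ⟨kl, kl1, kl2, kl3, kl4⟩ := last_leaf2 ht hb h (by omega)
  obtain ⟨gl, hgl⟩ : ∃ gl, gl = t.drop (e (n + 2) + 1) := ⟨_, rfl⟩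
  rw [← hgl] at kl1 kl3
  -- the tail
  have tail : ∀ d j, 1 ≤ j → j + d = n + 2 → unf (lws t e j d ++ [gl]) = t.drop (e j + 1) ∧
      (lws t e j d ++ [gl]).IsChain LFold ∧ (∀ g ∈ lws t e j d ++ [gl], g ∈ CL b ∧ ∃ k : ℕ, g ∈ Brd k ∧ 2 ^ b - 1 ≤ k) ∧
      ∃ g0 gs0, lws t e j d ++ [gl] = g0 :: gs0 ∧ (∀ k, k ≤ g0.length → e j + 1 + k ≤ t.length ∧
        vx oo up g0 k = vx oo up (t.drop (e j + 1)) k) := by
    intro d
    induction d with
    | zero =>
      intro j j1 j2
      have hj : j = n + 2 := by omega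
      subst hj
      refine ⟨hgl, List.isChain_singleton _, ?_, gl, [], rfl, ?_⟩
      · intro g hg
        have : g = gl := by simpa [lws] using hg
        rw [this]
        exact ⟨kl3, kl, kl1, kl2⟩
      · intro k hk
        rw [hgl, List.length_drop] at hk
        have h8 := h'.lt (n + 2) (by omega)
        have v1 : ee (n + 3) t.length e (n + 2 + 1) = t.length := by
          unfold ee
          rw [if_neg (by omega), if_pos (by omega)]
        have v2 : ee (n + 3) t.length e (n + 2) = e (n + 2) := by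
          unfold ee
          rw [if_neg (by omega), if_neg (by omega)]
        rw [v1, v2] at h8
        refine ⟨by omega, by rw [hgl]⟩
    | succ d ih =>
      intro j j1 j2
      obtain ⟨i1, i2, i3, g0, gs0, i4, i5⟩ := ih (j + 1) (by omega) (by omega)
      obtain ⟨_, _, _, _, _, r4, _, _, r7, _, r9, r10, _, r12⟩ := leaf_at htSA hb h j1 (by omega)
      obtain ⟨k, k1, k2, k3, -⟩ := int_leaf htSA hb h j1 (by omega)
      rw [lws_cons, List.cons_append, i4]
      have hej : e j + 1 ≤ t.length := by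
        have := e_len h (k := j + 1) (by omega)
        omega
      have hsp : t.drop (e j + 1) = (lw t (e j) (e (j + 1))).dropLast ++ (!lst (lw t (e j) (e (j + 1)))) ::
          (!lst (lw t (e j) (e (j + 1)))) :: t.drop (e (j + 1) + 1) := by
        have hl : (t.take (e j + 1)).length = e j + 1 := by
          rw [List.length_take]
          omega
        conv_lhs => rw [r10]
        rw [List.drop_append_of_le_length (by omega), List.drop_of_length_le (by omega), List.nil_append]
      refine ⟨?_, ?_, ?_, _, _, rfl, ?_⟩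
      · show (lw t (e j) (e (j + 1))).dropLast ++ (!lst (lw t (e j) (e (j + 1)))) ::
          (!lst (lw t (e j) (e (j + 1)))) :: unf (g0 :: gs0) = _
        rw [← i4, i1, hsp]
      · rw [List.isChain_cons_cons]
        refine ⟨r12 g0 i5, ?_⟩
        rw [← i4]
        exact i2
      · intro g hg
        rw [List.mem_cons] at hg
        rcases hg with rfl | hg
        · exact ⟨k3, k, k1, k2⟩
        · rw [← i4] at hg
          exact i3 g hg
      · intro k hk
        have := e_len h (k := j + 1) (by omega)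
        refine ⟨by omega, r9 k hk⟩
  obtain ⟨i1, i2, i3, g0, gs0, i4, i5⟩ := tail (n + 1) 1 le_rfl (by omega)
  -- the first leaf
  have v1 : ee (n + 3) t.length e 1 = e 1 := by
    unfold ee
    rw [if_neg (by omega), if_neg (by omega)]
  have v2 : ee (n + 3) t.length e 2 = e 2 := by
    unfold ee
    rw [if_neg (by omega), if_neg (by omega)]
  have v0 : ee (n + 3) t.length e 0 = 0 := rfl
  have hu1 : Even (u + 1) := Nat.even_add_one.2 hu
  have a1 := h'.lt 0 (by omega)
  have a2 := h'.hi 0 (by omega)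
  have a3 := h'.big 0 (by omega)
  have a4 := h'.lo 1 (by omega)
  have a5 := h'.big 1 (by omega)
  have a6 := h'.lt 1 (by omega)
  rw [zero_add, v0, v1] at a1 a2 a3
  rw [show (1 + 1 : ℕ) = 2 from rfl, v1, v2] at a4 a5 a6
  simp only [add_zero, Tight.sg_odd hu, lvl_false, lev_zero] at a2 a3
  simp only [Tight.sg_even hu1, lvl_false] at a4 a5
  have a7 : e 2 ≤ t.length := e_len h (by omega)
  have a8 : e 1 + 2 ≤ e 2 := by
    by_contra hc
    have h3 : ∀ i, lev t i ≤ lev t (i + 1) + 2 := fun i => lev_step_le t i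
    have h4 := h3 (e 1)
    have e2 : e 2 = e 1 + 1 := by omega
    rw [← e2] at h4
    omega
  obtain ⟨c, M, hM1, hM, hsplit, hB, hlen, hvx, hvq, -, -, hH⟩ := fold_step (q := t) (e := e 1) (by omega) (by omega)
    t2 (fun j j1 j2 => ⟨(lev_range ht (by omega)).2.2 j1, a2 j (by omega) j2⟩)
    (by have := a4 (e 1 + 1) (by omega) (by omega); omega) (by have := a4 (e 1 + 2) (by omega) (by omega); omega)
  have hlG : lst (t.take (e 1 - 1) ++ [!c]) = !c := lst_append _ _
  -- the sum of the heights
  have hsum : (((t.take (e 1 - 1) ++ [!c]) :: (lws t e 1 (n + 1) ++ [gl])).map hgt).sum =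
      M + (∑ i ∈ range (n + 1), hgt (lw t (e (1 + i)) (e (1 + i + 1)))) + kl := by
    rw [List.map_cons, List.sum_cons, List.map_append, List.sum_append, sum_lws, hgt_eq hB]
    simp only [List.map_cons, List.map_nil, List.sum_cons, List.sum_nil, hgt_eq kl1]
    ring
  have hint : ∀ i, i < n + 1 → ∃ k : ℕ, hgt (lw t (e (1 + i)) (e (1 + i + 1))) = k ∧ 1 ≤ k ∧
      Tight.sg (u + (1 + i)) (lev t (e (1 + i + 1))) = Tight.sg (u + (1 + i)) (lev t (e (1 + i))) + 1 + 3 * k := by
    intro i hi
    obtain ⟨k, k1, k2, -, k4⟩ := int_leaf htSA hb h (j := 1 + i) (by omega) (by omega)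
    refine ⟨k, hgt_eq k1, ?_, k4⟩
    have h5 : (2 : ℕ) ^ 1 ≤ 2 ^ b := Nat.pow_le_pow_right (by norm_num) hb
    omega
  have hdecl : ∀ d, d ≤ n + 1 → (Even d → lev t (e (1 + d)) ≤
      3 * (M + (∑ i ∈ range d, (hgt (lw t (e (1 + i)) (e (1 + i + 1))) : ℤ)))) ∧ (¬ Even d → lev t (e (1 + d)) ≤
      3 * (M + (∑ i ∈ range d, (hgt (lw t (e (1 + i)) (e (1 + i + 1))) : ℤ))) - 1) := by
    intro d
    induction d with
    | zero =>
      intro _
      refine ⟨fun _ => ?_, fun h0 => absurd (by decide) h0⟩
      rw [sum_range_zero, add_zero, add_zero, hM]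
    | succ d ih =>
      intro hd
      obtain ⟨j1, j2⟩ := ih (by omega)
      obtain ⟨k, k1, k2, k3⟩ := hint d (by omega)
      rw [sum_range_succ, k1, ← add_assoc 1 d 1]
      by_cases hev : Even d
      · have hud : Even (u + (1 + d)) := by
          rw [← add_assoc]
          exact (Nat.even_add.2 (iff_of_true hu1 hev))
        rw [Tight.sg_even hud, Tight.sg_even hud] at k3
        have := j1 hev
        refine ⟨fun h0 => absurd h0 (by rw [Nat.even_add_one, not_not]; exact hev), fun _ => ?_⟩
        omega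
      · have hud : ¬ Even (u + (1 + d)) := by
          rw [← add_assoc, Nat.even_add]
          intro h0
          exact hev (h0.1 hu1)
        rw [Tight.sg_odd hud, Tight.sg_odd hud] at k3
        have := j2 hev
        refine ⟨fun _ => ?_, fun h0 => absurd (Nat.even_add_one.2 hev) h0⟩
        omega
  have hle0 : e 0 ≤ e 1 := e_le h (by omega) (by omega)
  have hl0 := (lev_range ht (e_len h (k := 0) (by omega))).1
  have hl01 : lev t (e 0) ≤ lev t (e 1) := a2 (e 0) (Nat.zero_le _) hle0
  have hl2 := (lev_range ht (e_len h (k := n + 3) le_rfl)).2.1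
  have hl3 : lev t (e (n + 2)) ≤ lev t (e (n + 3)) := by
    have h9 := h.big (n + 2) (by omega)
    have hud : ¬ Even (u + (n + 2)) := by
      intro h0
      rw [Nat.even_add] at h0
      have h1' : ¬ Even (n + 2) := fun hh => hu (h0.2 hh)
      exact hm2 (Nat.even_add_one.2 h1')
    rw [Tight.sg_odd hud, Tight.sg_odd hud, lvl_false, lvl_false] at h9
    rw [show n + 3 = n + 2 + 1 from rfl]
    omega
  have hkl1 : 1 ≤ kl := by
    have h5 : (2 : ℕ) ^ 1 ≤ 2 ^ b := Nat.pow_le_pow_right (by norm_num) hb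
    omega
  refine ⟨(t.take (e 1 - 1) ++ [!c]) :: (lws t e 1 (n + 1) ++ [gl]), ?_, ?_, ?_, ?_, ?_, ?_⟩
  · rw [List.length_cons, List.length_append]
    simp [lws]
  · rw [i4]
    show (t.take (e 1 - 1) ++ [!c]).dropLast ++ (!lst (t.take (e 1 - 1) ++ [!c])) ::
      (!lst (t.take (e 1 - 1) ++ [!c])) :: unf (g0 :: gs0) = t
    rw [hlG, Bool.not_not, List.dropLast_concat, ← i4, i1, ← hsplit]
  · rw [i4, List.isChain_cons_cons]
    refine ⟨?_, by rw [← i4]; exact i2⟩
    show Hang _ (lst _) g0
    rw [hlG]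
    apply hH
    intro k hk
    obtain ⟨j1, j2⟩ := i5 k hk
    refine ⟨j1, ?_⟩
    rw [j2, ← hvq]
  · intro g hg
    rw [List.mem_cons] at hg
    rcases hg with rfl | hg
    · refine ⟨?_, M, hB, ?_⟩
      · intro i i' j1 j2
        rw [hlen] at j2
        have w1 : lev (t.take (e 1 - 1) ++ [!c]) i = lev t i := by
          unfold lev
          rw [hvx i (by omega)]
        have w2 : lev (t.take (e 1 - 1) ++ [!c]) i' = lev t i' := by
          unfold lev
          rw [hvx i' j2]
        rw [w1, w2]
        have h7 := h'.small 0 (by omega) i i' (by rw [v0]; omega) j1 (by rw [zero_add, v1]; exact j2)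
        rw [add_zero, Tight.sg_odd hu, Tight.sg_odd hu, lvl_false, lvl_false] at h7
        exact h7
      have h6 : ((2 ^ b : ℕ) : ℤ) = 2 ^ b := by push_cast; rfl
      unfold RR at a3
      omega
    · exact i3 g hg
  · rw [hsum]
    unfold tv
    rw [sum_range_succ, sum_range_succ']
    have hA : ∑ i ∈ range (n + 1), |lev t (e (i + 1 + 1)) - lev t (e (i + 1))| ≤
        4 * ∑ i ∈ range (n + 1), (hgt (lw t (e (1 + i)) (e (1 + i + 1))) : ℤ) := by
      rw [mul_sum]
      apply sum_le_sum
      intro i hi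
      obtain ⟨k, k1, k2, k3⟩ := hint i (mem_range.1 hi)
      rw [k1, show i + 1 + 1 = 1 + i + 1 by ring, show i + 1 = 1 + i by ring]
      unfold Tight.sg at k3
      split_ifs at k3
      · rw [abs_of_nonpos (by omega)]
        omega
      · rw [abs_of_nonneg (by omega)]
        omega
    rw [zero_add, abs_of_nonneg (by omega : 0 ≤ lev t (e 1) - lev t (e 0)),
      abs_of_nonneg (by rw [show n + 2 + 1 = n + 3 from rfl]; omega : 0 ≤ lev t (e (n + 2 + 1)) - lev t (e (n + 2)))]
    push_cast
    rw [show n + 2 + 1 = n + 3 from rfl]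
    omega
  · rw [hsum]
    have hn : ¬ Even (n + 1) := by
      have h8 : Even (n + 2) := by
        by_contra h0
        exact hm2 (Nat.even_add_one.2 h0)
      intro h0
      rw [show n + 2 = n + 1 + 1 from rfl, Nat.even_add_one] at h8
      exact h8 h0
    have h9 := (hdecl (n + 1) le_rfl).2 hn
    rw [show 1 + (n + 1) = n + 2 by ring] at h9
    have h10 : ((∑ i ∈ range (n + 1), hgt (lw t (e (1 + i)) (e (1 + i + 1))) : ℕ) : ℤ) =
        ∑ i ∈ range (n + 1), (hgt (lw t (e (1 + i)) (e (1 + i + 1))) : ℤ) := by push_cast; rfl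
    omega

end SDN

end HexObs
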