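import Pool.Agent.SDN.LeafW

/-!
SDN: the chain of all leaves of a bridge (the ends are trivial).
-/

set_option autoImplicit false

namespace HexObs

namespace SDN

open Finset TS

variable {T b m u : ℕ} {t : List Bool} {e : ℕ → ℕ}

/-- the folds with the ends moved to the ends of the bridge -/
def ee (m n : ℕ) (e : ℕ → ℕ) (j : ℕ) : ℕ := if j = 0 then 0 else if j = m then n else e j

lemma lvl_false (t : List Bool) (i : ℕ) : lvl false (vx oo up t i) = lev t i := rfl

lemma e_le (h : Lf false b t m u e) {j k : ℕ} (hjk : j ≤ k) (hk : k ≤ m) : e j ≤ e k := by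
  obtain ⟨d, rfl⟩ := Nat.exists_eq_add_of_le hjk
  have : ∀ d', d' ≤ d → e j ≤ e (j + d') := by
    intro d'
    induction d' with
    | zero => intro _; exact le_rfl
    | succ d' ih =>
      intro hd'
      have a1 := ih (by omega)
      have a2 := h.lt (j + d') (by omega)
      rw [← add_assoc]
      omega
  exact this d le_rfl

lemma e_len (h : Lf false b t m u e) {k : ℕ} (hk : k ≤ m) : e k ≤ t.length := (e_le h hk le_rfl).trans h.le

lemma lev_range (ht : t ∈ Brd T) {i : ℕ} (hi : i ≤ t.length) : 0 ≤ lev t i ∧ lev t i ≤ 3 * T ∧ (1 ≤ i → 0 < lev t i) := by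
  obtain ⟨h1, h2, h3, h4⟩ := mem_Brd.1 ht
  rcases Nat.eq_zero_or_pos i with h | h
  · rw [h, lev_zero]
    refine ⟨le_rfl, by omega, by omega⟩
  · have := h1 i h hi
    exact ⟨this.1.le, this.2, fun _ => this.1⟩

/-- the leaves of a bridge: the first and the last one go up, and the ends can be moved to the ends of the bridge -/
theorem bridge_lf (ht : t ∈ Brd T) (hb : 1 ≤ b) (h : Lf false b t m u e) (hm : 1 ≤ m) :
    ¬ Even u ∧ ¬ Even m ∧ Lf false b t m u (ee m t.length e) := by
  have hR := RR_ge hb
  have hlast : lev t t.length = 3 * T := (mem_Brd.1 ht).2.2.2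
  have l0 := h.lt 0 (by omega)
  rw [zero_add] at l0
  have hle1 : e 1 ≤ t.length := e_len h (by omega)
  have hstart : ∀ i i', i ≤ e 0 → i' ≤ e 0 → lev t i - lev t i' < RR b := h.start
  have hfin : ∀ i i', e m ≤ i → i ≤ t.length → e m ≤ i' → i' ≤ t.length → lev t i - lev t i' < RR b := h.fin
  have hu : ¬ Even u := by
    intro hu
    have h1 := h.big 0 (by omega)
    rw [zero_add, add_zero, Tight.sg_even hu, Tight.sg_even hu, lvl_false, lvl_false] at h1
    have h2 := (lev_range ht hle1).1
    have h3 := hstart (e 0) 0 le_rfl (by omega)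
    rw [lev_zero] at h3
    omega
  obtain ⟨m', rfl⟩ : ∃ m', m = m' + 1 := ⟨m - 1, by omega⟩
  have hum : ¬ Even (u + m') := by
    intro hum
    have h1 := h.big m' (by omega)
    rw [Tight.sg_even hum, Tight.sg_even hum, lvl_false, lvl_false] at h1
    have h2 := (lev_range ht (e_len h (k := m') (by omega))).2.1
    have h3 := hfin t.length (e (m' + 1)) h.le le_rfl le_rfl h.le
    rw [hlast] at h3
    omega
  have hm2 : ¬ Even (m' + 1) := by
    rw [Nat.even_add_one, not_not]
    rw [Nat.even_add, not_iff] at hum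
    exact hum.1 hu
  refine ⟨hu, hm2, ?_⟩
  -- the values of the new folds
  have v0 : ee (m' + 1) t.length e 0 = 0 := rfl
  have vm : ee (m' + 1) t.length e (m' + 1) = t.length := by
    unfold ee
    rw [if_neg (by omega), if_pos rfl]
  have vj : ∀ j, 1 ≤ j → j ≤ m' → ee (m' + 1) t.length e j = e j := by
    intro j j1 j2
    unfold ee
    rw [if_neg (by omega), if_neg (by omega)]
  have lm := h.lt m' (by omega)
  have hem : e (m' + 1) ≤ t.length := h.le
  -- the first leaf
  have A : ∀ i, 0 < i → i ≤ e 1 → 0 < lev t i ∧ lev t i ≤ lev t (e 1) := by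
    intro i i1 i2
    refine ⟨(lev_range ht (by omega)).2.2 i1, ?_⟩
    rcases Nat.lt_or_ge i (e 0) with h5 | h5
    · have h6 := hstart i (e 0) h5.le le_rfl
      have h7 := h.big 0 (by omega)
      rw [zero_add, add_zero, Tight.sg_odd hu, Tight.sg_odd hu, lvl_false, lvl_false] at h7
      omega
    · have h7 := h.hi 0 (by omega) i h5 i2
      rw [zero_add, add_zero, Tight.sg_odd hu, Tight.sg_odd hu, lvl_false, lvl_false] at h7
      exact h7
  have A' : ∀ i i', i ≤ i' → i' ≤ e 1 → lev t i - lev t i' < RR b := by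
    intro i i' i1 i2
    rcases Nat.lt_or_ge (e 0) i' with h5 | h5
    · have h7 := h.lo 0 (by omega) i' h5 i2
      rw [add_zero, Tight.sg_odd hu, Tight.sg_odd hu, lvl_false, lvl_false] at h7
      rcases Nat.lt_or_ge i (e 0) with h6 | h6
      · have := hstart i (e 0) h6.le le_rfl
        omega
      · have := h.small 0 (by omega) i i' h6 i1 i2
        rw [add_zero, Tight.sg_odd hu, Tight.sg_odd hu, lvl_false, lvl_false] at this
        exact this
    · exact hstart i i' (by omega) h5
  -- the last leaf
  have Z : ∀ i, e m' < i → i ≤ t.length → lev t (e m') < lev t i := by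
    intro i i1 i2
    rcases Nat.lt_or_ge (e (m' + 1)) i with h5 | h5
    · have h6 := hfin (e (m' + 1)) i le_rfl h.le h5.le i2
      have h7 := h.big m' (by omega)
      rw [Tight.sg_odd hum, Tight.sg_odd hum, lvl_false, lvl_false] at h7
      omega
    · have h7 := h.lo m' (by omega) i i1 h5
      rw [Tight.sg_odd hum, Tight.sg_odd hum, lvl_false, lvl_false] at h7
      exact h7
  have Z' : ∀ i i', e m' ≤ i → i ≤ i' → i' ≤ t.length → lev t i - lev t i' < RR b := by
    intro i i' i0 i1 i2
    rcases Nat.lt_or_ge i (e (m' + 1)) with h5 | h5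
    · rcases Nat.lt_or_ge (e (m' + 1)) i' with h6 | h6
      · have h7 := h.hi m' (by omega) i i0 h5.le
        rw [Tight.sg_odd hum, Tight.sg_odd hum, lvl_false, lvl_false] at h7
        have := hfin (e (m' + 1)) i' le_rfl h.le h6.le i2
        omega
      · have := h.small m' (by omega) i i' i0 i1 h6
        rw [Tight.sg_odd hum, Tight.sg_odd hum, lvl_false, lvl_false] at this
        exact this
    · exact hfin i i' h5 (by omega) (by omega) i2
  have hE1 : m' = 0 ∨ ee (m' + 1) t.length e 1 = e 1 := by
    rcases Nat.eq_zero_or_pos m' with h5 | h5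
    · exact Or.inl h5
    · exact Or.inr (vj 1 le_rfl h5)
  constructor
  · -- lt
    intro j hj
    rcases Nat.eq_zero_or_pos j with h5 | h5
    · subst h5
      rw [v0, zero_add]
      rcases hE1 with h6 | h6
      · subst h6
        rw [zero_add] at vm
        show 0 < ee (0 + 1) t.length e 1
        rw [zero_add, vm]
        omega
      · rw [h6]
        omega
    · rw [vj j h5 (by omega)]
      rcases Nat.lt_or_ge (j + 1) (m' + 1) with h6 | h6
      · rw [vj (j + 1) (by omega) (by omega)]
        exact h.lt j hj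
      · have h7 : j = m' := by omega
        rw [h7, vm]
        omega
  · rw [vm]
  · -- lo
    intro j hj i i1 i2
    rcases Nat.eq_zero_or_pos j with h5 | h5
    · subst h5
      rw [v0] at i1 ⊢
      rw [add_zero, Tight.sg_odd hu, Tight.sg_odd hu, lvl_false, lvl_false, lev_zero]
      refine (lev_range ht ?_).2.2 i1
      rcases hE1 with h6 | h6
      · subst h6
        rw [vm] at i2
        exact i2
      · rw [zero_add, h6] at i2
        omega
    · rcases Nat.lt_or_ge (j + 1) (m' + 1) with h6 | h6
      · rw [vj j h5 (by omega)] at i1 ⊢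
        rw [vj (j + 1) (by omega) (by omega)] at i2
        exact h.lo j hj i i1 i2
      · have h7 : j = m' := by omega
        subst h7
        rw [vj j h5 (by omega)] at i1 ⊢
        rw [vm] at i2
        rw [Tight.sg_odd hum, Tight.sg_odd hum, lvl_false, lvl_false]
        exact Z i i1 i2
  · -- hi
    intro j hj i i1 i2
    rcases Nat.eq_zero_or_pos j with h5 | h5
    · subst h5
      rw [add_zero, Tight.sg_odd hu, Tight.sg_odd hu, lvl_false, lvl_false]
      rcases hE1 with h6 | h6
      · subst h6
        rw [vm] at i2 ⊢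
        rw [hlast]
        exact (lev_range ht i2).2.1
      · rw [zero_add, h6] at i2 ⊢
        rcases Nat.eq_zero_or_pos i with h7 | h7
        · rw [h7, lev_zero]
          exact (lev_range ht hle1).1
        · exact (A i h7 i2).2
    · rcases Nat.lt_or_ge (j + 1) (m' + 1) with h6 | h6
      · rw [vj j h5 (by omega)] at i1
        rw [vj (j + 1) (by omega) (by omega)] at i2 ⊢
        exact h.hi j hj i i1 i2
      · have h7 : j = m' := by omega
        subst h7
        rw [vm] at i2 ⊢
        rw [Tight.sg_odd hum, Tight.sg_odd hum, lvl_false, lvl_false, hlast]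
        exact (lev_range ht i2).2.1
  · -- big
    intro j hj
    rcases Nat.eq_zero_or_pos j with h5 | h5
    · subst h5
      have h8 := h.big 0 (by omega)
      rw [zero_add, add_zero, Tight.sg_odd hu, Tight.sg_odd hu, lvl_false, lvl_false] at h8
      have h9 := (lev_range ht (e_len h (k := 0) (by omega))).1
      rw [v0, add_zero, Tight.sg_odd hu, Tight.sg_odd hu, lvl_false, lvl_false, lev_zero]
      rcases hE1 with h6 | h6
      · subst h6
        rw [vm, hlast]
        have := (lev_range ht hle1).2.1
        omega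
      · rw [zero_add, h6]
        omega
    · rcases Nat.lt_or_ge (j + 1) (m' + 1) with h6 | h6
      · rw [vj j h5 (by omega), vj (j + 1) (by omega) (by omega)]
        exact h.big j hj
      · have h7 : j = m' := by omega
        subst h7
        have h8 := h.big j (by omega)
        rw [Tight.sg_odd hum, Tight.sg_odd hum, lvl_false, lvl_false] at h8
        rw [vj j h5 (by omega), vm, Tight.sg_odd hum, Tight.sg_odd hum, lvl_false, lvl_false, hlast]
        have := (lev_range ht hem).2.1
        omega
  · -- small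
    intro j hj i i' i0 i1 i2
    rcases Nat.eq_zero_or_pos j with h5 | h5
    · subst h5
      rw [add_zero, Tight.sg_odd hu, Tight.sg_odd hu, lvl_false, lvl_false]
      rcases hE1 with h6 | h6
      · subst h6
        rw [vm] at i2
        rcases Nat.lt_or_ge (e 0) i with h7 | h7
        · exact Z' i i' h7.le i1 i2
        · rcases Nat.lt_or_ge (e 0) i' with h8 | h8
          · have h9 := Z i' h8 i2
            have := hstart i (e 0) h7 le_rfl
            omega
          · exact hstart i i' h7 h8
      · rw [zero_add, h6] at i2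
        exact A' i i' i1 i2
    · rcases Nat.lt_or_ge (j + 1) (m' + 1) with h6 | h6
      · rw [vj j h5 (by omega)] at i0
        rw [vj (j + 1) (by omega) (by omega)] at i2
        exact h.small j hj i i' i0 i1 i2
      · have h7 : j = m' := by omega
        subst h7
        rw [vj j h5 (by omega)] at i0
        rw [vm] at i2
        rw [Tight.sg_odd hum, Tight.sg_odd hum, lvl_false, lvl_false]
        exact Z' i i' i0 i1 i2
  · -- start
    intro i i' i1 i2
    rw [v0] at i1 i2
    have e1 : i = 0 := by omega
    have e2 : i' = 0 := by omega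
    rw [e1, e2, sub_self]
    omega
  · -- fin
    intro i i' i1 i2 i3 i4
    rw [vm] at i1 i3
    have e1 : i = t.length := by omega
    have e2 : i' = t.length := by omega
    rw [e1, e2, sub_self]
    omega

/-- the last leaf of a bridge -/
lemma last_leaf (ht : t ∈ Brd T) (hb : 1 ≤ b) (h : Lf false b t (m + 1) u e) (hm : 1 ≤ m) :
    ∃ k : ℕ, t.drop (e m + 1) ∈ Brd k ∧ 2 ^ b - 1 ≤ k := by
  have hR := RR_ge hb
  obtain ⟨hu, hm2, h'⟩ := bridge_lf ht hb h (by omega)
  obtain ⟨t1, t2, t3, t4⟩ := mem_Brd.1 ht
  have vm : ee (m + 1) t.length e (m + 1) = t.length := by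
    unfold ee
    rw [if_neg (by omega), if_pos rfl]
  have vj : ∀ j, 1 ≤ j → j ≤ m → ee (m + 1) t.length e j = e j := by
    intro j j1 j2
    unfold ee
    rw [if_neg (by omega), if_neg (by omega)]
  have hum : ¬ Even (u + m) := by
    have hm3 : Even m := by
      rw [Nat.even_add_one, not_not] at hm2
      exact hm2
    rw [Nat.even_add]
    tauto
  have lo := h'.lo m (by omega)
  have big := h'.big m (by omega)
  have lt := h'.lt m (by omega)
  rw [vm, vj m hm le_rfl] at lo big lt
  simp only [Tight.sg_odd hum, lvl_false] at lo big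
  have m1 := h.lt (m - 1) (by omega)
  rw [show m - 1 + 1 = m by omega] at m1
  obtain ⟨a, ha⟩ : ∃ a, e m = a + 1 := ⟨e m - 1, by omega⟩
  have hi := h.hi (m - 1) (by omega) a (by omega) (by rw [show m - 1 + 1 = m by omega]; omega)
  have hum1 : Even (u + (m - 1)) := by
    by_contra hc
    apply hc
    obtain ⟨m'', rfl⟩ : ∃ m'', m = m'' + 1 := ⟨m - 1, by omega⟩
    rw [show m'' + 1 - 1 = m'' by omega]
    rw [← add_assoc, Nat.even_add_one, not_not] at hum
    exact hum
  rw [show m - 1 + 1 = m by omega, Tight.sg_even hum1, Tight.sg_even hum1, lvl_false, lvl_false, ha] at hi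
  rw [ha] at lo big lt
  have hlen : a + 3 ≤ t.length := by
    by_contra hc
    have e1 := lt
    have h3 : ∀ i, lev t (i + 1) ≤ lev t i + 2 := by
      intro i
      exact xD_step_le (D := up) upd t i
    have h4 := h3 (a + 1)
    have e2 : t.length = a + 1 + 1 := by omega
    rw [← e2] at h4
    omega
  obtain ⟨hf, hf1⟩ := fold_dx (D := up) upd (t := t) (e := a) (by unfold xD; unfold lev at hi; omega)
    (lo (a + 2) (by omega) (by omega)) (lo (a + 3) (by omega) (by omega))
  have hf1' : lev t (a + 2) = lev t (a + 1) + 1 := hf1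
  have hv : ∀ i, vx oo up t (a + 2 + i) = vx oo up t (a + 2) + vx oo up (t.drop (a + 2)) i := by
    intro i
    rw [vx_drop, hf]
    exact vx_shift _ _ _
  have hl : ∀ i, lev (t.drop (a + 2)) i = lev t (a + 2 + i) - lev t (a + 2) := by
    intro i
    have : lev t (a + 2 + i) = lev t (a + 2) + lev (t.drop (a + 2)) i := by
      unfold lev
      rw [hv, ip_add_left]
    rw [this]
    ring
  have hql : (t.drop (a + 2)).length + (a + 2) = t.length := by
    rw [List.length_drop]
    omega
  have hmod := lev_mod t (a + 1)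
  have hend : lev (t.drop (a + 2)) (t.drop (a + 2)).length = 3 * T - lev t (a + 2) := by
    rw [hl, show a + 2 + (t.drop (a + 2)).length = t.length by omega, t4]
  obtain ⟨k, hk⟩ : ∃ k : ℕ, 3 * (T : ℤ) - lev t (a + 2) = 3 * k := by
    have hz : (3 : ℤ) ∣ lev t (a + 2) := by
      rw [hf1']
      have hodd : ¬ Even (a + 1) := by
        intro hev
        have hc : cl (dx up t (a + 2)) = cl up := by rw [hf]
        rw [cl_dx, if_neg (by rw [show a + 2 = a + 1 + 1 from rfl, Nat.even_add_one]; simpa using hev)] at hc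
        revert hc
        decide
      rw [if_neg hodd] at hmod
      omega
    obtain ⟨z, hz⟩ := hz
    refine ⟨(T - z).toNat, ?_⟩
    omega
  refine ⟨k, ?_, ?_⟩
  · rw [ha]
    show t.drop (a + 2) ∈ Brd k
    rw [mem_Brd]
    refine ⟨?_, ?_, ?_, ?_⟩
    · intro i i1 i2
      rw [hl]
      have h5 := strict_D (D := up) upd (t := t) (f := a + 2) (e' := t.length) hf
        (fun i j1 j2 => by
          have := lo i (by omega) j2
          show lev t (a + 2) - 1 < lev t i
          omega)
        (by
          show lev t (a + 2) < lev t t.length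
          omega) (i := a + 2 + i) (by omega) (by omega)
      have h6 : lev t (a + 2) < lev t (a + 2 + i) := h5
      have h7 := (lev_range ht (i := a + 2 + i) (by omega)).2.1
      constructor <;> omega
    · intro i l il hl' heq
      apply t2 (a + 2 + i) (a + 2 + l) (by omega) (by omega)
      rw [hv, hv, heq]
    · have h5 := dx_drop t (a + 2) (t.drop (a + 2)).length
      rw [hf, show a + 2 + (t.drop (a + 2)).length = t.length by omega, t3] at h5
      exact h5.symm
    · rw [hend, hk]
  · have h5 : (2 : ℤ) ^ b - 1 ≤ k := by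
      unfold RR at big
      omega
    have h6 : ((2 ^ b : ℕ) : ℤ) = 2 ^ b := by push_cast; rfl
    omega

/-- THE CHAIN OF A BRIDGE: a bridge with at least one leaf is the word of the chain of its leaves; the interior leaves
are the words of lws -/
theorem bridge_chain (ht : t ∈ Brd T) (hb : 1 ≤ b) (h : Lf false b t m u e) (hm : 1 ≤ m) :
    ∃ gs : List (List Bool), gs.length = m ∧ unf gs = t ∧ gs.IsChain LFold ∧
      (∀ g ∈ gs, ∃ k : ℕ, g ∈ Brd k ∧ 2 ^ b - 1 ≤ k) ∧ (gs.drop 1).take (m - 2) = lws t e 1 (m - 2) := by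
  have hR := RR_ge hb
  obtain ⟨hu, hm2, h'⟩ := bridge_lf ht hb h hm
  obtain ⟨t1, t2, t3, t4⟩ := mem_Brd.1 ht
  have htSA : t ∈ SA := ⟨fun _ _ _ => Set.mem_univ _, t2⟩
  rcases Nat.lt_or_ge 1 m with h1 | h1
  swap
  · have : m = 1 := by omega
    subst this
    refine ⟨[t], rfl, rfl, List.isChain_singleton _, ?_, rfl⟩
    intro g hg
    rw [List.mem_singleton] at hg
    subst hg
    refine ⟨T, ht, ?_⟩
    have h3 := h.big 0 (by omega)
    rw [add_zero, Tight.sg_odd hu, Tight.sg_odd hu, lvl_false, lvl_false] at h3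
    have h4 := (lev_range ht (e_len h (k := 0 + 1) (by omega))).2.1
    have h5 := (lev_range ht (e_len h (k := 0) (by omega))).1
    have h6 : ((2 ^ b : ℕ) : ℤ) = 2 ^ b := by push_cast; rfl
    unfold RR at h3
    omega
  obtain ⟨n, rfl⟩ : ∃ n, m = n + 3 := by
    refine ⟨m - 3, ?_⟩
    have : m ≠ 2 := by
      rintro rfl
      exact hm2 (by decide)
    omega
  -- the last leaf
  obtain ⟨kl, kl1, kl2⟩ := last_leaf ht hb h (by omega)
  obtain ⟨gl, hgl⟩ : ∃ gl, gl = t.drop (e (n + 2) + 1) := ⟨_, rfl⟩
  rw [← hgl] at kl1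
  -- the tail
  have tail : ∀ d j, 1 ≤ j → j + d = n + 2 → unf (lws t e j d ++ [gl]) = t.drop (e j + 1) ∧
      (lws t e j d ++ [gl]).IsChain LFold ∧ (∀ g ∈ lws t e j d ++ [gl], ∃ k : ℕ, g ∈ Brd k ∧ 2 ^ b - 1 ≤ k) ∧
      ∃ g0 gs0, lws t e j d ++ [gl] = g0 :: gs0 ∧ (∀ k, k ≤ g0.length → e j + 1 + k ≤ t.length ∧
        vx oo up g0 k = vx oo up (t.drop (e j + 1)) k) := by
    intro d
    induction d with
    | zero =>
      intro j j1 j2
      have hj : j = n + 2 := by omega
      subst hj
      refine ⟨hgl, List.isChain_singleton _, ?_, gl, [], rfl, ?_⟩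
      · intro g hg
        have : g = gl := by simpa [lws] using hg
        rw [this]
        exact ⟨kl, kl1, kl2⟩
      · intro k hk
        rw [hgl, List.length_drop] at hk
        have h8 := h'.lt (n + 2) (by omega)
        have v1 : ee (n + 3) t.length e (n + 2 + 1) = t.length := by
          unfold ee
          rw [if_neg (by omega), if_pos (by omega)]
        have v2 : ee (n + 3) t.length e (n + 2) = e (n + 2) := by
          unfold ee
          rw [if_neg (by omega), if_neg (by omega)]
        rw [v1, v2] at h8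
        refine ⟨by omega, by rw [hgl]⟩
    | succ d ih =>
      intro j j1 j2
      obtain ⟨i1, i2, i3, g0, gs0, i4, i5⟩ := ih (j + 1) (by omega) (by omega)
      obtain ⟨_, _, _, _, _, r4, _, _, r7, _, r9, r10, _, r12⟩ := leaf_at htSA hb h j1 (by omega)
      obtain ⟨k, k1, k2, -⟩ := lw_brd htSA hb h j1 (by omega)
      rw [lws_cons, List.cons_append, i4]
      have hej : e j + 1 ≤ t.length := by
        have := e_len h (k := j + 1) (by omega)
        omega
      have hsp : t.drop (e j + 1) = (lw t (e j) (e (j + 1))).dropLast ++ (!lst (lw t (e j) (e (j + 1)))) ::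
          (!lst (lw t (e j) (e (j + 1)))) :: t.drop (e (j + 1) + 1) := by
        have hl : (t.take (e j + 1)).length = e j + 1 := by
          rw [List.length_take]
          omega
        conv_lhs => rw [r10]
        rw [List.drop_append_of_le_length (by omega), List.drop_of_length_le (by omega), List.nil_append]
      refine ⟨?_, ?_, ?_, _, _, rfl, ?_⟩
      · show (lw t (e j) (e (j + 1))).dropLast ++ (!lst (lw t (e j) (e (j + 1)))) ::
          (!lst (lw t (e j) (e (j + 1)))) :: unf (g0 :: gs0) = _
        rw [← i4, i1, hsp]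
      · rw [List.isChain_cons_cons]
        refine ⟨r12 g0 i5, ?_⟩
        rw [← i4]
        exact i2
      · intro g hg
        rw [List.mem_cons] at hg
        rcases hg with rfl | hg
        · exact ⟨k, k1, k2⟩
        · rw [← i4] at hg
          exact i3 g hg
      · intro k hk
        have := e_len h (k := j + 1) (by omega)
        refine ⟨by omega, r9 k hk⟩
  obtain ⟨i1, i2, i3, g0, gs0, i4, i5⟩ := tail (n + 1) 1 le_rfl (by omega)
  -- the first leaf
  have v1 : ee (n + 3) t.length e 1 = e 1 := by
    unfold ee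
    rw [if_neg (by omega), if_neg (by omega)]
  have v2 : ee (n + 3) t.length e 2 = e 2 := by
    unfold ee
    rw [if_neg (by omega), if_neg (by omega)]
  have v0 : ee (n + 3) t.length e 0 = 0 := rfl
  have hu1 : Even (u + 1) := Nat.even_add_one.2 hu
  have a1 := h'.lt 0 (by omega)
  have a2 := h'.hi 0 (by omega)
  have a3 := h'.big 0 (by omega)
  have a4 := h'.lo 1 (by omega)
  have a5 := h'.big 1 (by omega)
  have a6 := h'.lt 1 (by omega)
  rw [zero_add, v0, v1] at a1 a2 a3
  rw [show (1 + 1 : ℕ) = 2 from rfl, v1, v2] at a4 a5 a6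
  simp only [add_zero, Tight.sg_odd hu, lvl_false, lev_zero] at a2 a3
  simp only [Tight.sg_even hu1, lvl_false] at a4 a5
  have a7 : e 2 ≤ t.length := e_len h (by omega)
  have a8 : e 1 + 2 ≤ e 2 := by
    by_contra hc
    have h3 : ∀ i, lev t i ≤ lev t (i + 1) + 2 := fun i => lev_step_le t i
    have h4 := h3 (e 1)
    have e2 : e 2 = e 1 + 1 := by omega
    rw [← e2] at h4
    omega
  obtain ⟨c, M, hM1, hM, hsplit, hB, hlen, hvx, hvq, -, -, hH⟩ := fold_step (q := t) (e := e 1) (by omega) (by omega)
    t2 (fun j j1 j2 => ⟨(lev_range ht (by omega)).2.2 j1, a2 j (by omega) j2⟩)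
    (by have := a4 (e 1 + 1) (by omega) (by omega); omega) (by have := a4 (e 1 + 2) (by omega) (by omega); omega)
  have hlG : lst (t.take (e 1 - 1) ++ [!c]) = !c := lst_append _ _
  refine ⟨(t.take (e 1 - 1) ++ [!c]) :: (lws t e 1 (n + 1) ++ [gl]), ?_, ?_, ?_, ?_, ?_⟩
  · rw [List.length_cons, List.length_append]
    simp [lws]
  · rw [i4]
    show (t.take (e 1 - 1) ++ [!c]).dropLast ++ (!lst (t.take (e 1 - 1) ++ [!c])) ::
      (!lst (t.take (e 1 - 1) ++ [!c])) :: unf (g0 :: gs0) = t
    rw [hlG, Bool.not_not, List.dropLast_concat, ← i4, i1, ← hsplit]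
  · rw [i4, List.isChain_cons_cons]
    refine ⟨?_, by rw [← i4]; exact i2⟩
    show Hang _ (lst _) g0
    rw [hlG]
    apply hH
    intro k hk
    obtain ⟨j1, j2⟩ := i5 k hk
    refine ⟨j1, ?_⟩
    rw [j2, ← hvq]
  · intro g hg
    rw [List.mem_cons] at hg
    rcases hg with rfl | hg
    · refine ⟨M, hB, ?_⟩
      have h6 : ((2 ^ b : ℕ) : ℤ) = 2 ^ b := by push_cast; rfl
      unfold RR at a3
      omega
    · exact i3 g hg
  · rw [List.drop_one, List.tail_cons]
    have hl : (lws t e 1 (n + 1)).length = n + 3 - 2 := by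
      simp [lws]
    rw [List.take_append_of_le_length (by omega), List.take_of_length_le (by omega)]
    rfl

end SDN

end HexObs
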