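import Pool.Agent.SDN.DimLaw
import Pool.Agent.SDN.BridgeChain
import Pool.Agent.SDN.Dim1Defs

/-!
SDN, limit version, lower bound of the dimension (board/DIM1), module F: a short bridge behind a bridge.
-/

set_option autoImplicit false

namespace HexObs

namespace SDN

open Finset TS

open scoped ENNReal

namespace LfA

/-- the folds with the last one moved to the end -/
def mv (m n : ℕ) (e : ℕ → ℕ) (j : ℕ) : ℕ := if j = m then n else e j

lemma lw_append {t z : List Bool} {a b : ℕ} (hab : a < b) (hb : b ≤ t.length) : lw (t ++ z) a b = lw t a b := by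
  unfold lw
  have h1 : ((t ++ z).drop (a + 1)).take (b - a - 2) = (t.drop (a + 1)).take (b - a - 2) := by
    rw [List.drop_append_of_le_length (by omega), List.take_append_of_le_length]
    rw [List.length_drop]
    omega
  rw [h1, tf_append_left (by omega)]

end LfA

open LfA in
/-- a short bridge behind a bridge does not change the number of the leaves -/
theorem lf_append {b T j m u : ℕ} {t z : List Bool} {e : ℕ → ℕ} (ht : t ∈ Brd T) (hz : z ∈ Brd j) (hj : j < 2 ^ b)
    (hb : 1 ≤ b) (hm : 1 ≤ m) (h : Lf false b t m u e) :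
    ∃ e' : ℕ → ℕ, Lf false b (t ++ z) m u e' ∧ lws (t ++ z) e' 1 (m - 2) = lws t e 1 (m - 2) ∧
      tv (lev t) m e ≤ tv (lev (t ++ z)) m e' := by
  have hR := RR_ge hb
  obtain ⟨hu, hm2, -⟩ := bridge_lf ht hb h hm
  obtain ⟨m', rfl⟩ : ∃ m', m = m' + 1 := ⟨m - 1, by omega⟩
  have hum : ¬ Even (u + m') := by
    have hm3 : Even m' := by
      rw [Nat.even_add_one, not_not] at hm2
      exact hm2
    rw [Nat.even_add]
    tauto
  have hd : dx up t t.length = up := (mem_Brd.1 ht).2.2.1
  have hlast : lev t t.length = 3 * T := (mem_Brd.1 ht).2.2.2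
  have htz : t ++ z ∈ Brd (T + j) := Brd_append ht hz
  have hlast' : lev (t ++ z) (t ++ z).length = 3 * (T + j : ℕ) := (mem_Brd.1 htz).2.2.2
  have hlen : (t ++ z).length = t.length + z.length := List.length_append
  -- levels
  have L1 : ∀ i, i ≤ t.length → lev (t ++ z) i = lev t i := by
    intro i hi
    unfold lev
    rw [vx_append (by omega)]
  have L2 : ∀ k, k ≤ z.length → 3 * (T : ℤ) ≤ lev (t ++ z) (t.length + k) ∧
      lev (t ++ z) (t.length + k) ≤ 3 * T + 3 * j := by
    intro k hk
    rw [lev_cat hd, hlast]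
    have := lev_range hz hk
    constructor <;> omega
  have hjR : 3 * (j : ℤ) < RR b := by
    unfold RR
    have : ((j : ℤ)) < 2 ^ b := by exact_mod_cast hj
    omega
  have lt := h.lt m' (by omega)
  have hle : e (m' + 1) ≤ t.length := h.le
  have lo := h.lo m' (by omega)
  have hi' := h.hi m' (by omega)
  have big := h.big m' (by omega)
  have small := h.small m' (by omega)
  have hfin : ∀ i i', e (m' + 1) ≤ i → i ≤ t.length → e (m' + 1) ≤ i' → i' ≤ t.length → lev t i - lev t i' < RR b := h.fin
  simp only [Tight.sg_odd hum, lvl_false] at lo hi' big small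
  have hmax : ∀ i, i ≤ t.length → lev t i ≤ 3 * T := fun i hi => (lev_range ht hi).2.1
  have vm : mv (m' + 1) (t ++ z).length e (m' + 1) = (t ++ z).length := if_pos rfl
  have vj : ∀ j, j ≤ m' → mv (m' + 1) (t ++ z).length e j = e j := fun j hj => if_neg (by omega)
  refine ⟨mv (m' + 1) (t ++ z).length e, ⟨?_, ?_, ?_, ?_, ?_, ?_, ?_, ?_⟩, ?_, ?_⟩
  · intro k hk
    rcases Nat.lt_or_ge k m' with h1 | h1
    · rw [vj k (by omega), vj (k + 1) (by omega)]
      exact h.lt k (by omega)
    · have : k = m' := by omega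
      subst this
      rw [vj k le_rfl, vm]
      omega
  · rw [vm]
  · intro k hk i i1 i2
    rcases Nat.lt_or_ge k m' with h1 | h1
    · rw [vj k (by omega)] at i1 ⊢
      rw [vj (k + 1) (by omega)] at i2
      have h2 : e (k + 1) ≤ t.length := e_len h (by omega)
      have h3 := h.lo k (by omega) i i1 i2
      simp only [lvl_false] at h3 ⊢
      rw [L1 _ (by omega), L1 _ (by omega)]
      exact h3
    · have : k = m' := by omega
      subst this
      rw [vj k le_rfl] at i1 ⊢
      rw [vm] at i2
      simp only [Tight.sg_odd hum, lvl_false]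
      rw [L1 _ (by omega : e k ≤ t.length)]
      rcases Nat.lt_or_ge t.length i with h2 | h2
      · obtain ⟨q, rfl⟩ : ∃ q, i = t.length + q := ⟨i - t.length, by omega⟩
        have h3 := L2 q (by omega)
        have h4 := hmax (e (k + 1)) hle
        omega
      · rw [L1 i h2]
        rcases Nat.lt_or_ge (e (k + 1)) i with h3 | h3
        · have h4 := hfin (e (k + 1)) i le_rfl hle h3.le h2
          omega
        · exact lo i i1 h3
  · intro k hk i i1 i2
    rcases Nat.lt_or_ge k m' with h1 | h1
    · rw [vj k (by omega)] at i1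
      rw [vj (k + 1) (by omega)] at i2 ⊢
      have h2 : e (k + 1) ≤ t.length := e_len h (by omega)
      have h3 := h.hi k (by omega) i i1 i2
      simp only [lvl_false] at h3 ⊢
      rw [L1 _ (by omega), L1 _ (by omega)]
      exact h3
    · have : k = m' := by omega
      subst this
      rw [vm] at i2 ⊢
      simp only [Tight.sg_odd hum, lvl_false]
      rw [hlast']
      exact (lev_range htz i2).2.1
  · intro k hk
    rcases Nat.lt_or_ge k m' with h1 | h1
    · rw [vj k (by omega), vj (k + 1) (by omega)]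
      have h2 : e (k + 1) ≤ t.length := e_len h (by omega)
      have h3 := h.lt k (by omega)
      have h4 := h.big k (by omega)
      simp only [lvl_false] at h4 ⊢
      rw [L1 _ (by omega), L1 _ (by omega)]
      exact h4
    · have : k = m' := by omega
      subst this
      rw [vj k le_rfl, vm]
      simp only [Tight.sg_odd hum, lvl_false]
      rw [hlast', L1 _ (by omega : e k ≤ t.length)]
      have h4 := hmax (e (k + 1)) hle
      push_cast
      omega
  · intro k hk i i' i1 i2 i3
    rcases Nat.lt_or_ge k m' with h1 | h1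
    · rw [vj k (by omega)] at i1
      rw [vj (k + 1) (by omega)] at i3
      have h2 : e (k + 1) ≤ t.length := e_len h (by omega)
      have h3 := h.small k (by omega) i i' i1 i2 i3
      simp only [lvl_false] at h3 ⊢
      rw [L1 _ (by omega), L1 _ (by omega)]
      exact h3
    · have : k = m' := by omega
      subst this
      rw [vj k le_rfl] at i1
      rw [vm] at i3
      simp only [Tight.sg_odd hum, lvl_false]
      rcases Nat.lt_or_ge t.length i' with h2 | h2
      · obtain ⟨q, rfl⟩ : ∃ q, i' = t.length + q := ⟨i' - t.length, by omega⟩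
        have h3 := L2 q (by omega)
        rcases Nat.lt_or_ge t.length i with h4 | h4
        · obtain ⟨p, rfl⟩ : ∃ p, i = t.length + p := ⟨i - t.length, by omega⟩
          have h5 := L2 p (by omega)
          omega
        · rw [L1 i h4]
          have h5 := hmax i h4
          omega
      · rw [L1 i' h2, L1 i (by omega)]
        rcases Nat.lt_or_ge (e (k + 1)) i' with h3 | h3
        · rcases Nat.lt_or_ge (e (k + 1)) i with h4 | h4
          · exact hfin i i' h4.le (by omega) h3.le h2
          · have h5 := hi' i i1 h4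
            have h6 := hfin (e (k + 1)) i' le_rfl hle h3.le h2
            omega
        · exact small i i' i1 i2 h3
  · intro i i' i1 i2
    rw [vj 0 (by omega)] at i1 i2
    have h2 : e 0 ≤ t.length := e_len h (by omega)
    have h3 := h.start i i' i1 i2
    simp only [lvl_false] at h3 ⊢
    rw [L1 _ (by omega), L1 _ (by omega)]
    exact h3
  · intro i i' i1 i2 i3 i4
    rw [vm] at i1 i3
    have e1 : i = (t ++ z).length := by omega
    have e2 : i' = (t ++ z).length := by omega
    rw [e1, e2, sub_self]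
    omega
  · unfold lws
    apply List.map_congr_left
    intro i hi
    rw [List.mem_range] at hi
    rw [vj (1 + i) (by omega), vj (1 + i + 1) (by omega)]
    exact lw_append (h.lt (1 + i) (by omega)) (e_len h (by omega))
  · unfold tv
    rw [Finset.sum_range_succ, Finset.sum_range_succ]
    have h1 : ∑ k ∈ range m', |lev t (e (k + 1)) - lev t (e k)| =
        ∑ k ∈ range m', |lev (t ++ z) (mv (m' + 1) (t ++ z).length e (k + 1)) -
          lev (t ++ z) (mv (m' + 1) (t ++ z).length e k)| := by
      apply Finset.sum_congr rfl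
      intro k hk
      rw [Finset.mem_range] at hk
      have h2 : e (k + 1) ≤ t.length := e_len h (by omega)
      have h3 := h.lt k (by omega)
      rw [vj k (by omega), vj (k + 1) (by omega), L1 _ h2, L1 _ (by omega)]
    rw [h1, vj m' le_rfl, vm, hlast', L1 _ (by omega : e m' ≤ t.length)]
    have h4 := hmax (e (m' + 1)) hle
    have h5 : |lev t (e (m' + 1)) - lev t (e m')| = lev t (e (m' + 1)) - lev t (e m') := abs_of_nonneg (by omega)
    have h6 : ((3 * (T + j : ℕ) : ℤ)) - lev t (e m') ≤ |((3 * (T + j : ℕ) : ℤ)) - lev t (e m')| := le_abs_self _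
    rw [h5]
    push_cast at h6 ⊢
    omega

/-- the cells of an appended short bridge -/
theorem nb_append_le {b T : ℕ} {t z : List Bool} (hb : 1 ≤ b) (ht : t ∈ Brd T) (hz : z ∈ BL (b - 1)) :
    nb b (t ++ z) ≤ nb b t + 16 := by
  classical
  have hd := (mem_Brd.1 ht).2.2.1
  have hH : (0 : ℤ) < 2 ^ b := by positivity
  have hpow : (2 : ℤ) ^ (b - 1) ≤ 2 ^ b := pow_le_pow_right₀ (by norm_num) (by omega)
  obtain ⟨G, hG⟩ : ∃ G : Finset (ℤ × ℤ), G = (range (z.length + 1)).image fun k => cell b (vx oo up (t ++ z) (t.length + k)) :=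
    ⟨_, rfl⟩
  have h1 : cells b (t ++ z) ⊆ cells b t ∪ G := by
    intro g hg
    unfold cells at hg
    rw [Finset.mem_image] at hg
    obtain ⟨i, hi, rfl⟩ := hg
    rw [Finset.mem_range, List.length_append] at hi
    rw [Finset.mem_union]
    rcases Nat.lt_or_ge i (t.length + 1) with h2 | h2
    · left
      unfold cells
      rw [Finset.mem_image]
      exact ⟨i, Finset.mem_range.2 h2, by rw [vx_append (by omega)]⟩
    · right
      rw [hG, Finset.mem_image]
      exact ⟨i - t.length, Finset.mem_range.2 (by omega), by rw [show t.length + (i - t.length) = i by omega]⟩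
  have h2 : G.card ≤ 9 * ({cell b (vx oo up t t.length)} : Finset (ℤ × ℤ)).card := by
    apply near_card
    intro g hg
    rw [hG, Finset.mem_image] at hg
    obtain ⟨k, hk, rfl⟩ := hg
    rw [Finset.mem_range] at hk
    refine ⟨_, Finset.mem_singleton_self _, ?_⟩
    have key : ∀ dir, |row dir (vx oo up (t ++ z) (t.length + k)) / 2 ^ b - row dir (vx oo up t t.length) / 2 ^ b| ≤ 1 := by
      intro dir
      apply div_near hH
      have a1 := hz.2.2 k (by omega) dir
      have a3 := DL.lvl_dvd ht dir
      rw [vx_cat hd]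
      unfold row at a1 ⊢
      rw [lvl_add]
      obtain ⟨q, hq⟩ := a3
      rw [hq]
      rw [abs_le] at a1 ⊢
      obtain ⟨N, hN⟩ : ∃ N : ℤ, N = 2 ^ b := ⟨_, rfl⟩
      obtain ⟨N', hN'⟩ : ∃ N' : ℤ, N' = 2 ^ (b - 1) := ⟨_, rfl⟩
      rw [← hN, ← hN'] at hpow
      rw [← hN'] at a1
      rw [← hN]
      constructor <;> omega
    exact ⟨key false, key true⟩
  rw [Finset.card_singleton, mul_one] at h2
  calc nb b (t ++ z) ≤ (cells b t ∪ G).card := Finset.card_le_card h1
    _ ≤ (cells b t).card + G.card := Finset.card_union_le _ _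
    _ ≤ nb b t + 16 := by
      unfold nb
      omega

/-- from the first cut words to all bridges -/
theorem fcw_append : ∃ (c : ℝ) (b0 : ℕ), 0 < c ∧ ∀ (b T : ℕ) (S S' : Set (List Bool)), b0 ≤ b → S ⊆ FCW T →
    (∀ t ∈ S, ∀ z ∈ BL (b - 1), t ++ z ∈ S') → ENNReal.ofReal (c * Ub b) * gf S ≤ gf S' := by
  obtain ⟨m0, hm0⟩ := DL.BL_low
  refine ⟨1 / 2 ^ (m0 + 2), m0 + 1, by positivity, ?_⟩
  intro b T S S' hb hS happ
  have h1 : gf S * gf (BL (b - 1)) ≤ gf S' := by
    apply mul_le_gf happ
    intro t htS z hz t' htS' z' hz' heq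
    obtain ⟨j, h1⟩ := hS htS
    obtain ⟨j', h1'⟩ := hS htS'
    obtain ⟨⟨h, hz1⟩, _⟩ := hz
    obtain ⟨⟨h', hz1'⟩, _⟩ := hz'
    exact (FC_unique h1 h1' hz1 hz1' heq).1
  have h2 := hm0 (b - 1) (by omega)
  have h3 := DL.Ub_succ' (b - 1)
  rw [Nat.sub_add_cancel (by omega)] at h3
  have h4 : ENNReal.ofReal (1 / 2 ^ (m0 + 2) * Ub b) ≤ gf (BL (b - 1)) := by
    refine le_trans (ENNReal.ofReal_le_ofReal ?_) h2
    rw [pow_succ (2 : ℝ) (m0 + 1)]
    have h5 : (0 : ℝ) < 2 ^ (m0 + 1) := by positivity
    rw [one_div, mul_inv, div_eq_mul_inv]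
    have h6 : (0 : ℝ) ≤ (2 ^ (m0 + 1))⁻¹ := by positivity
    nlinarith
  calc ENNReal.ofReal (1 / 2 ^ (m0 + 2) * Ub b) * gf S ≤ gf (BL (b - 1)) * gf S := by gcongr
    _ = gf S * gf (BL (b - 1)) := mul_comm _ _
    _ ≤ gf S' := h1

end SDN

end HexObs
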