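import Pool.Agent.SDN.DimLaw
import Pool.Agent.SDN.CrossDD
import Pool.Agent.SDN.LfAppend
import Pool.Agent.SDN.Dim1Defs

/-!
SDN, limit version, lower bound of the dimension (board/DIM1), module K: the crowding estimate of one scale. The total
variation of the leaves bounds the number of the doublings.
-/

set_option autoImplicit false

namespace HexObs

namespace SDN

open Finset TS

open scoped ENNReal

namespace CLaw

lemma tv_nonneg (f : ℕ → ℤ) (m : ℕ) (e : ℕ → ℕ) : 0 ≤ tv f m e :=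
  Finset.sum_nonneg fun _ _ => abs_nonneg _

/-- the number of doublings is at most the total variation in units of 2 ^ b -/
lemma dbl_tv {b m u : ℕ} {t : List Bool} {e : ℕ → ℕ} (ht : t ∈ SA) (hb : 1 ≤ b) (h : Lf false b t m u e) :
    (dbl (2 ^ (b - 1)) (lws t e 1 (m - 2)) : ℝ) * 2 ^ b ≤ (tv (lev t) m e : ℝ) := by
  have h1 := dbl_lws ht hb h
  have h2 : (dbl (2 ^ (b - 1)) (lws t e 1 (m - 2)) : ℝ) ≤ ∑ j ∈ range m, (|lev t (e (j + 1)) - lev t (e j)| : ℝ) /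
      2 ^ b := by
    refine le_trans (Nat.cast_le.2 h1) ?_
    rw [Nat.cast_sum]
    refine Finset.sum_le_sum fun j _ => ?_
    rw [lvl_false_vx, lvl_false_vx]
    obtain ⟨x, hx⟩ : ∃ x : ℤ, x = |lev t (e (j + 1)) - lev t (e j)| := ⟨_, rfl⟩
    have hx0 : 0 ≤ x := by
      rw [hx]
      exact abs_nonneg _
    have hcast : ((|lev t (e (j + 1)) - lev t (e j)| : ℤ) : ℝ) = |(lev t (e (j + 1)) : ℝ) - lev t (e j)| := by
      push_cast
      rfl
    rw [← hcast, ← hx]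
    have h3 : Nat.log 2 (((x - 1) / 3).toNat / 2 ^ (b - 1)) ≤ ((x - 1) / 3).toNat / 2 ^ (b - 1) := Nat.log_le_self 2 _
    have h4 : ((Nat.log 2 (((x - 1) / 3).toNat / 2 ^ (b - 1)) : ℕ) : ℝ) ≤
        ((((x - 1) / 3).toNat / 2 ^ (b - 1) : ℕ) : ℝ) := by exact_mod_cast h3
    refine h4.trans (Nat.cast_div_le.trans ?_)
    rw [Nat.cast_pow, Nat.cast_ofNat]
    have h5 : (((x - 1) / 3).toNat : ℤ) * 2 ≤ x := by
      rcases le_or_gt 0 ((x - 1) / 3) with h | h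
      · rw [Int.toNat_of_nonneg h]
        omega
      · rw [Int.toNat_of_nonpos h.le]
        simpa using hx0
    have h6 : (((x - 1) / 3).toNat : ℝ) * 2 ≤ x := by exact_mod_cast h5
    obtain ⟨b', rfl⟩ : ∃ b', b = b' + 1 := ⟨b - 1, by omega⟩
    rw [Nat.add_sub_cancel, div_le_div_iff₀ (by positivity) (by positivity), pow_succ]
    nlinarith [pow_pos (show (0 : ℝ) < 2 by norm_num) b']
  rw [← Finset.sum_div] at h2
  have h3 : (0 : ℝ) < 2 ^ b := by positivity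
  rw [le_div_iff₀ h3] at h2
  refine h2.trans (le_of_eq ?_)
  unfold tv
  push_cast
  rfl

/-- the box of radius 2 ^ b in the box of radius 2 ^ L -/
lemma BL_mono {b L : ℕ} (h : b ≤ L) : BL b ⊆ BL L := by
  rintro t ⟨h1, h2, h3⟩
  refine ⟨h1, h2, fun i hi dir => (h3 i hi dir).trans ?_⟩
  exact pow_le_pow_right₀ (by norm_num) h

/-- the height of a bridge in the box -/
lemma BL_height {b j : ℕ} {z : List Bool} (hz : z ∈ BL b) (hj : z ∈ Brd j) : j ≤ 2 ^ b := by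
  have h1 := hz.2.2 z.length le_rfl false
  unfold row at h1
  rw [lvl_false_vx, (mem_Brd.1 hj).2.2.2] at h1
  have h2 : 3 * (j : ℤ) / 3 = j := by omega
  rw [h2, abs_of_nonneg (by positivity)] at h1
  exact_mod_cast h1

lemma one_le_nb (b : ℕ) (t : List Bool) : 1 ≤ nb b t := by
  unfold nb cells
  rw [Nat.one_le_iff_ne_zero, Ne, Finset.card_eq_zero]
  intro h
  rw [Finset.image_eq_empty, Finset.range_eq_empty_iff] at h
  omega

/-- the term with m leaves: constants -/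
lemma const_le {c C : ℝ} (hc : 0 < c) (hC : 0 < C) : ∃ C1 : ℝ, 0 < C1 ∧ ∀ (L b m : ℕ) (Y : ℝ), b ≤ L → Y ≤ m →
    Ub (L + 1) * ((2 : ℝ) ^ (C * (((L + 1 : ℕ) : ℝ) + 3 - b)) * C / 4 ^ m) ≤
      (C1 * (2 : ℝ) ^ (C1 * ((L : ℝ) - b)) * (2 : ℝ) ^ (-Y) * (1 / 2) ^ m) * (c * Ub b) := by
  refine ⟨2 * C / c * (2 : ℝ) ^ (4 * C) + C + 1, by positivity, ?_⟩
  intro L b m Y hb hY
  obtain ⟨C1, hC1⟩ : ∃ C1 : ℝ, C1 = 2 * C / c * (2 : ℝ) ^ (4 * C) + C + 1 := ⟨_, rfl⟩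
  rw [← hC1]
  obtain ⟨n, rfl⟩ : ∃ n, L = b + n := ⟨L - b, by omega⟩
  have hU := DL.Ub_pos b
  have hU1 : Ub (b + n + 1) ≤ 2 ^ (n + 1) * Ub b := by
    rw [add_assoc]
    exact DL.Ub_add b (n + 1)
  have e1 : C * (((b + n + 1 : ℕ) : ℝ) + 3 - b) = 4 * C + C * n := by
    push_cast
    ring
  have e2 : ((b + n : ℕ) : ℝ) - b = n := by
    push_cast
    ring
  rw [e1, e2]
  have h1 : (2 : ℝ) ^ (-(m : ℝ)) ≤ (2 : ℝ) ^ (-Y) := Real.rpow_le_rpow_of_exponent_le (by norm_num) (by linarith)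
  have h2 : (2 : ℝ) ^ (-(m : ℝ)) = (1 / 2 : ℝ) ^ m := by
    rw [Real.rpow_neg (by norm_num), Real.rpow_natCast]
    simp
  rw [h2] at h1
  have h3 : (1 : ℝ) / 4 ^ m = (1 / 2) ^ m * (1 / 2) ^ m := by
    rw [← mul_pow, one_div, ← inv_pow]
    norm_num
  have hp : 0 < 2 * C / c * (2 : ℝ) ^ (4 * C) := by positivity
  have h4 : (2 : ℝ) ^ (n : ℝ) * (2 : ℝ) ^ (C * n) ≤ (2 : ℝ) ^ (C1 * n) := by
    rw [← Real.rpow_add (by norm_num)]
    apply Real.rpow_le_rpow_of_exponent_le (by norm_num)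
    have : (1 + C) * (n : ℝ) ≤ C1 * n := mul_le_mul_of_nonneg_right (by linarith) (Nat.cast_nonneg n)
    linarith
  rw [Real.rpow_natCast] at h4
  calc Ub (b + n + 1) * ((2 : ℝ) ^ (4 * C + C * n) * C / 4 ^ m)
      ≤ (2 ^ (n + 1) * Ub b) * ((2 : ℝ) ^ (4 * C + C * n) * C / 4 ^ m) :=
        mul_le_mul_of_nonneg_right hU1 (by positivity)
    _ = (2 * C * (2 : ℝ) ^ (4 * C)) * ((2 : ℝ) ^ n * (2 : ℝ) ^ (C * n)) * ((1 / 2) ^ m * (1 / 2) ^ m) * Ub b := by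
        rw [← h3, Real.rpow_add (by norm_num), pow_succ]
        ring
    _ ≤ (C1 * c) * (2 : ℝ) ^ (C1 * n) * ((2 : ℝ) ^ (-Y) * (1 / 2) ^ m) * Ub b := by
        have h5 : 2 * C * (2 : ℝ) ^ (4 * C) ≤ C1 * c := by
          have h6 : 2 * C * (2 : ℝ) ^ (4 * C) = (2 * C / c * (2 : ℝ) ^ (4 * C)) * c := by
            field_simp
          rw [h6]
          exact mul_le_mul_of_nonneg_right (by linarith) hc.le
        have hC1' : 0 < C1 := by linarith
        gcongr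
    _ = _ := by ring

end CLaw

open CLaw in
/-- module K: the crowding estimate of the scale b for the first cut words, on the event that the total variation of the
leaves is at most Λ 2 ^ b m -/
theorem crowd_law_of
    (hcrowd : ∀ Λ : ℝ, 1 ≤ Λ → ∃ (A C : ℝ) (b0 : ℕ), 1 ≤ A ∧ 0 < C ∧ 1 ≤ b0 ∧ ∀ (L b m : ℕ), b0 ≤ b →
      b ≤ L + 2 → gf {t | t ∈ BL L ∧ ∃ u e, Lf false b t m u e ∧ A * nb b t ≤ m ∧
        (dbl (2 ^ (b - 1)) (lws t e 1 (m - 2)) : ℝ) ≤ Λ * m} ≤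
        ENNReal.ofReal (Ub L * ((2 : ℝ) ^ (C * ((L : ℝ) + 3 - b)) * C / 4 ^ m))) :
    ∀ Λ : ℝ, 1 ≤ Λ → ∃ (A C : ℝ) (b0 : ℕ), 1 ≤ A ∧ 0 < C ∧ 1 ≤ b0 ∧ ∀ (L b T : ℕ) (Y : ℝ), b0 ≤ b → b ≤ L → 1 ≤ T →
      gf {t | t ∈ FCW T ∧ t ∈ WL L ∧ ∃ m u e, Lf false b t m u e ∧ A * nb b t < m ∧
        (tv (lev t) m e : ℝ) < Λ * (2 ^ b * m) ∧ Y ≤ m} ≤
        ENNReal.ofReal (C * (2 : ℝ) ^ (C * ((L : ℝ) - b)) * (2 : ℝ) ^ (-Y)) := by
  intro Λ hΛ
  obtain ⟨A, C, b1, hA, hC, hb1, hP⟩ := hcrowd Λ hΛ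
  obtain ⟨c, b2, hc, hF⟩ := fcw_append
  obtain ⟨C1, hC1, hconst⟩ := const_le hc hC
  refine ⟨17 * A, 2 * C1, b1 + b2, by linarith, by positivity, by omega, ?_⟩
  intro L b T Y hb hbL hT
  have hb' : 1 ≤ b := by omega
  have hY2 : 0 < (2 : ℝ) ^ (-Y) := by positivity
  -- the part with m leaves
  let S : ℕ → Set (List Bool) := fun m => {t | t ∈ FCW T ∧ t ∈ WL L ∧ ∃ u e, Lf false b t m u e ∧ 17 * A * nb b t < m ∧
    (tv (lev t) m e : ℝ) < Λ * (2 ^ b * m) ∧ Y ≤ m}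
  have hS : ∀ m, gf (S m) ≤ ENNReal.ofReal (C1 * (2 : ℝ) ^ (C1 * ((L : ℝ) - b)) * (2 : ℝ) ^ (-Y)) * (1 / 2) ^ m := by
    intro m
    by_cases hY : Y ≤ m
    · have hsub : ∀ t ∈ S m, ∀ z ∈ BL (b - 1), t ++ z ∈ {t | t ∈ BL (L + 1) ∧ ∃ u e, Lf false b t m u e ∧
          A * nb b t ≤ m ∧ (dbl (2 ^ (b - 1)) (lws t e 1 (m - 2)) : ℝ) ≤ Λ * m} := by
        rintro t ⟨⟨j, htj⟩, htL, u, e, h1, h2, h3, _⟩ z hz
        have hm : 1 ≤ m := by
          rcases Nat.eq_zero_or_pos m with h0 | h0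
          · exfalso
            rw [h0, Nat.cast_zero] at h2
            have : 0 ≤ 17 * A * nb b t := by positivity
            linarith
          · exact h0
        obtain ⟨jz, hjz⟩ := hz.1
        have hjb : jz < 2 ^ b := by
          have h5 := BL_height hz hjz
          have h6 : 2 ^ (b - 1) < 2 ^ b := Nat.pow_lt_pow_right (by norm_num) (by omega)
          omega
        obtain ⟨e', h5, h6, _⟩ := lf_append htj.1 hjz hjb hb' hm h1
        refine ⟨DL.append_BL htj.1 htL (BL_mono (by omega) hz), u, e', h5, ?_, ?_⟩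
        · have h7 := nb_append_le hb' htj.1 hz
          have h8 := one_le_nb b t
          have h9 : (nb b (t ++ z) : ℝ) ≤ 17 * nb b t := by
            have : nb b (t ++ z) ≤ 17 * nb b t := by omega
            exact_mod_cast this
          calc A * nb b (t ++ z) ≤ A * (17 * nb b t) := mul_le_mul_of_nonneg_left h9 (by linarith)
            _ = 17 * A * nb b t := by ring
            _ ≤ m := h2.le
        · rw [h6]
          have h7 := dbl_tv htL.1 hb' h1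
          have h8 : (0 : ℝ) < 2 ^ b := by positivity
          have h9 : (dbl (2 ^ (b - 1)) (lws t e 1 (m - 2)) : ℝ) * 2 ^ b ≤ Λ * m * 2 ^ b := by
            calc _ ≤ (tv (lev t) m e : ℝ) := h7
              _ ≤ Λ * (2 ^ b * m) := h3.le
              _ = Λ * m * 2 ^ b := by ring
          exact le_of_mul_le_mul_right h9 h8
      have h1 := hF b T (S m) _ (by omega) (fun t ht => ht.1) hsub
      have h2 := h1.trans (hP (L + 1) b m (by omega) (by omega))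
      have h3 := h2.trans (ENNReal.ofReal_le_ofReal (hconst L b m Y hbL hY))
      have hU := DL.Ub_pos b
      have hcU : 0 < c * Ub b := mul_pos hc hU
      rw [mul_comm, ENNReal.ofReal_mul (q := c * Ub b) (by positivity)] at h3
      have h4 := (ENNReal.mul_le_mul_iff_left (ENNReal.ofReal_pos.2 hcU).ne' ENNReal.ofReal_ne_top).1 h3
      refine h4.trans (le_of_eq ?_)
      rw [ENNReal.ofReal_mul (by positivity), ENNReal.ofReal_pow (by norm_num),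
        ENNReal.ofReal_div_of_pos (by norm_num), ENNReal.ofReal_one, ENNReal.ofReal_ofNat]
    · have h1 : S m = ∅ := by
        ext t
        refine ⟨?_, fun ht => ht.elim⟩
        rintro ⟨_, _, u, e, _, _, _, h⟩
        exact (hY h).elim
      rw [h1]
      simp [gf]
  have hsub : {t | t ∈ FCW T ∧ t ∈ WL L ∧ ∃ m u e, Lf false b t m u e ∧ 17 * A * nb b t < m ∧
      (tv (lev t) m e : ℝ) < Λ * (2 ^ b * m) ∧ Y ≤ m} ⊆ ⋃ m : ℕ, S m := by
    rintro t ⟨h1, h2, m, u, e, h3⟩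
    rw [Set.mem_iUnion]
    exact ⟨m, h1, h2, u, e, h3⟩
  refine (gf_mono hsub).trans ((ENNReal.tsum_iUnion_le_tsum wE S).trans ((ENNReal.tsum_le_tsum hS).trans ?_))
  rw [ENNReal.tsum_mul_left]
  have h2 : ∑' m : ℕ, (1 / 2 : ℝ≥0∞) ^ m = ENNReal.ofReal 2 := by
    rw [ENNReal.tsum_geometric, one_div, ENNReal.one_sub_inv_two, inv_inv, ENNReal.ofReal_ofNat]
  rw [h2, ← ENNReal.ofReal_mul (by positivity)]
  apply ENNReal.ofReal_le_ofReal
  have h3 : (2 : ℝ) ^ (C1 * ((L : ℝ) - b)) ≤ (2 : ℝ) ^ (2 * C1 * ((L : ℝ) - b)) := by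
    apply Real.rpow_le_rpow_of_exponent_le (by norm_num)
    have : (0 : ℝ) ≤ (L : ℝ) - b := by
      have : (b : ℝ) ≤ L := by exact_mod_cast hbL
      linarith
    nlinarith [mul_nonneg hC1.le this]
  calc C1 * (2 : ℝ) ^ (C1 * ((L : ℝ) - b)) * (2 : ℝ) ^ (-Y) * 2 =
      (2 * C1) * (2 : ℝ) ^ (C1 * ((L : ℝ) - b)) * (2 : ℝ) ^ (-Y) := by ring
    _ ≤ (2 * C1) * (2 : ℝ) ^ (2 * C1 * ((L : ℝ) - b)) * (2 : ℝ) ^ (-Y) := by gcongr

end SDN

end HexObs
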