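import Pool.Agent.SDN.LfAppend
import Pool.Agent.SDN.BridgeCl
import Pool.Agent.SDN.Split
import Pool.Agent.SDN.CrowdLaw

/-!
SDN, limit version, lower bound of the dimension (board/DIM1), module H: the total variation of the leaves of the scale b
is at most A 2 ^ b m, with an exponentially small exception.
-/

set_option autoImplicit false

namespace HexObs

namespace SDN

open Finset TS

open scoped ENNReal

namespace TvL

/-- the weight of a word is at most the weight of its chain -/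
lemma wE_unf_le {gs : List (List Bool)} (hgs : gs ≠ []) (h : ∀ g ∈ gs, g ≠ []) : wE (unf gs) ≤ wl gs := by
  have h1 := unf_length h hgs
  have hn : 1 ≤ gs.length := List.length_pos_iff.2 hgs
  have hlen : (unf gs).length = (gs.map List.length).sum + (gs.length - 1) := by omega
  obtain ⟨x1, x2⟩ := xc_bounds
  have hx1 : ENNReal.ofReal xc ≤ 1 := by
    rw [← ENNReal.ofReal_one]
    exact ENNReal.ofReal_le_ofReal x2
  unfold wl
  rw [wE_prod, wE_eq_pow, hlen, pow_add]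
  calc ENNReal.ofReal xc ^ (gs.map List.length).sum * ENNReal.ofReal xc ^ (gs.length - 1)
      ≤ ENNReal.ofReal xc ^ (gs.map List.length).sum * 1 := by
        gcongr
        exact pow_le_one₀ zero_le hx1
    _ = _ := by rw [mul_one]

lemma sum_div_ge (gs : List (List Bool)) {D : ℕ} (hD : 1 ≤ D) :
    (gs.map hgt).sum ≤ D * ((gs.map fun g => hgt g / D).sum + gs.length) := by
  induction gs with
  | nil => simp
  | cons g gs ih =>
    simp only [List.map_cons, List.sum_cons, List.length_cons]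
    have h1 : hgt g < D * (hgt g / D) + D := by
      have := Nat.div_add_mod (hgt g) D
      have h2 := Nat.mod_lt (hgt g) (show 0 < D by omega)
      omega
    calc hgt g + (gs.map hgt).sum ≤ (D * (hgt g / D) + D) + D * ((gs.map fun g => hgt g / D).sum + gs.length) := by
          omega
      _ = D * (hgt g / D + (gs.map fun g => hgt g / D).sum + (gs.length + 1)) := by ring

lemma ub_mono {a b : ℕ} (h : a ≤ b) : Ub a ≤ Ub b := by
  unfold Ub UU
  apply Finset.sum_le_sum_of_subset_of_nonneg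
  · intro i hi
    rw [Finset.mem_range] at hi ⊢
    have : 2 ^ a ≤ 2 ^ b := Nat.pow_le_pow_right (by norm_num) h
    omega
  · intro i _ _
    exact TH7.uu_nonneg i

end TvL

open TvL in
/-- module H -/
theorem tv_law_of
    (hcc : ∃ (K : ℝ) (s : ℕ), 1 ≤ K ∧ ∀ k m V : ℕ, 1 ≤ m →
      ∑' gs : {gs : List (List Bool) // gs.length = m ∧ gs.IsChain LFold ∧ (∀ g ∈ gs, g ∈ CL (k + 5) ∧
        g ∈ HB (2 ^ (k + 4))) ∧ V ≤ (gs.map fun g => hgt g / 2 ^ (k + s)).sum}, wl gs.1 ≤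
      ENNReal.ofReal (K ^ m * Ub k / 2 ^ V)) :
    ∃ (A C c : ℝ) (b0 : ℕ), 1 ≤ A ∧ 0 < C ∧ 0 < c ∧ 1 ≤ b0 ∧ ∀ b T : ℕ, b0 ≤ b → 1 ≤ T →
    gf {t | t ∈ FCW T ∧ ∃ m u e, 1 ≤ m ∧ Lf false b t m u e ∧ A * (2 ^ b * m) ≤ (tv (lev t) m e : ℝ)} ≤
      ENNReal.ofReal (C * (2 : ℝ) ^ (-(c * (T / 2 ^ b)))) := by
  obtain ⟨K, s, hK, hcc⟩ := hcc
  obtain ⟨cF, bF, hcF, hF⟩ := fcw_append
  obtain ⟨κ, hκ⟩ : ∃ κ : ℕ, K ≤ 2 ^ κ := by
    obtain ⟨n, hn⟩ := exists_nat_ge K
    refine ⟨n, hn.trans ?_⟩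
    exact_mod_cast (Nat.lt_two_pow_self (n := n)).le
  refine ⟨2 ^ s * (κ + 2), 4 / cF, 16 / 2 ^ s, bF + 6, ?_, by positivity, by positivity, by omega, ?_⟩
  · have h1 : (1 : ℝ) ≤ 2 ^ s := one_le_pow₀ (by norm_num)
    have h2 : (0 : ℝ) ≤ κ := Nat.cast_nonneg κ
    nlinarith
  intro b T hb hT
  obtain ⟨k, rfl⟩ : ∃ k, b = k + 5 := ⟨b - 5, by omega⟩
  obtain ⟨D, hD⟩ : ∃ D : ℕ, D = 2 ^ (k + s) := ⟨_, rfl⟩
  have hD1 : 1 ≤ D := by
    rw [hD]
    exact Nat.one_le_two_pow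
  -- the set of the longer bridges with m leaves
  let S' : ℕ → Set (List Bool) := fun m => {w | 1 ≤ m ∧ ∃ T' : ℕ, T ≤ T' ∧ w ∈ Brd T' ∧ ∃ u e,
    Lf false (k + 5) w m u e ∧ (2 : ℝ) ^ s * (κ + 2) * (2 ^ (k + 5) * m) ≤ (tv (lev w) m e : ℝ)}
  let V : ℕ → ℕ := fun m => T / (2 * D) + (κ + 1) * m
  let P : ℕ → Type := fun m => {gs : List (List Bool) // gs.length = m ∧ gs.IsChain LFold ∧ (∀ g ∈ gs, g ∈ CL (k + 5) ∧
    g ∈ HB (2 ^ (k + 4))) ∧ V m ≤ (gs.map fun g => hgt g / 2 ^ (k + s)).sum}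
  have hex : ∀ (m : ℕ) (w : S' m), ∃ gs : P m, unf gs.1 = w.1 := by
    rintro m ⟨w, hm, T', hT', hw, u, e, hLf, htv⟩
    obtain ⟨gs, h1, h2, h3, h4, h5, h6⟩ := bridge_cl hw (by omega) hLf hm
    refine ⟨⟨gs, h1, h3, ?_, ?_⟩, h2⟩
    · intro g hg
      obtain ⟨h7, n, h8, h9⟩ := h4 g hg
      refine ⟨h7, n, ?_, h8⟩
      have e1 : 2 ^ (k + 5) = 2 * 2 ^ (k + 4) := by ring
      have e2 : 1 ≤ 2 ^ (k + 4) := Nat.one_le_two_pow
      omega
    · have h7 := sum_div_ge gs hD1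
      rw [← hD]
      obtain ⟨H, hH⟩ : ∃ H : ℕ, H = (gs.map hgt).sum := ⟨_, rfl⟩
      obtain ⟨Q, hQ⟩ : ∃ Q : ℕ, Q = (gs.map fun g => hgt g / D).sum := ⟨_, rfl⟩
      rw [← hH] at h5 h6 h7
      rw [← hQ] at h7 ⊢
      rw [h1] at h7
      show T / (2 * D) + (κ + 1) * m ≤ Q
      -- 2 H ≥ T + 2 D (κ + 2) m
      have h8 : 2 * D * (κ + 2) * m ≤ H := by
        have h9 : (tv (lev w) m e : ℝ) ≤ 4 * H := by exact_mod_cast h5
        have h10 : (2 : ℝ) ^ s * (κ + 2) * (2 ^ (k + 5) * m) = 4 * (8 * D * (κ + 2) * m) := by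
          rw [hD]
          push_cast
          ring
        rw [h10] at htv
        have h11 : (8 * D * (κ + 2) * m : ℝ) ≤ H := by linarith
        have h12 : 8 * D * (κ + 2) * m ≤ H := by exact_mod_cast h11
        have h13 : 2 * D * (κ + 2) * m ≤ 8 * D * (κ + 2) * m := by
          gcongr
          norm_num
        omega
      have h9 : 2 * (D * (Q + m)) ≥ T + 2 * D * (κ + 2) * m := by omega
      have h10 : T ≤ 2 * D * (Q - (κ + 1) * m) := by
        have e1 : 2 * D * (κ + 2) * m = 2 * D * ((κ + 1) * m) + 2 * D * m := by ring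
        have e2 : 2 * (D * (Q + m)) = 2 * D * Q + 2 * D * m := by ring
        rw [Nat.mul_sub]
        omega
      have h11 : T / (2 * D) ≤ Q - (κ + 1) * m := by
        rw [Nat.div_le_iff_le_mul_add_pred (by omega)]
        omega
      have h12 : (κ + 1) * m ≤ Q := by
        by_contra hcon
        push Not at hcon
        have e0 : Q - (κ + 1) * m = 0 := by omega
        rw [e0, mul_zero] at h10
        omega
      omega
  choose ψ hψ using hex
  have hψi : ∀ m, Function.Injective (ψ m) := by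
    intro m w w' h
    apply Subtype.ext
    rw [← hψ m w, ← hψ m w', h]
  have hS' : ∀ m, gf (S' m) ≤ ENNReal.ofReal (Ub (k + 5) * ((2 : ℝ) * (2 : ℝ) ^ (-(16 / 2 ^ s * ((T : ℝ) / 2 ^ (k + 5)))))) *
      (1 / 2) ^ m := by
    intro m
    rcases Nat.eq_zero_or_pos m with h0 | hm
    · have : S' m = ∅ := by
        ext w
        refine ⟨?_, fun h => h.elim⟩
        rintro ⟨h, _⟩
        omega
      rw [this]
      simp [gf]
    have h1 : gf (S' m) ≤ ∑' w : S' m, wl (ψ m w).1 := by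
      unfold gf
      refine ENNReal.tsum_le_tsum fun w => ?_
      rw [← hψ m w]
      have h2 := (ψ m w).2
      apply wE_unf_le
      · intro h3
        have h4 := h2.1
        rw [h3] at h4
        simp at h4
        omega
      · intro g hg hnil
        obtain ⟨n, h5, h6⟩ := (h2.2.2.1 g hg).2
        rw [hnil] at h6
        have h7 := (mem_Brd.1 h6).2.2.2
        rw [List.length_nil, lev_zero] at h7
        have : 1 ≤ 2 ^ (k + 4) := Nat.one_le_two_pow
        omega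
    have h2 : ∑' w : S' m, wl (ψ m w).1 ≤ ∑' gs : P m, wl gs.1 :=
      ENNReal.tsum_comp_le_tsum_of_injective (hψi m) (fun gs : P m => wl gs.1)
    have h3 := hcc k m (V m) hm
    refine (h1.trans h2).trans (h3.trans ?_)
    have e1 : ((1 / 2 : ℝ≥0∞)) ^ m = ENNReal.ofReal ((1 / 2 : ℝ) ^ m) := by
      rw [ENNReal.ofReal_pow (by norm_num), ENNReal.ofReal_div_of_pos (by norm_num), ENNReal.ofReal_one,
        ENNReal.ofReal_ofNat]
    have hUk := DL.Ub_pos k
    have hU5 := DL.Ub_pos (k + 5)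
    rw [e1, ← ENNReal.ofReal_mul (by positivity)]
    apply ENNReal.ofReal_le_ofReal
    -- K ^ m * Ub k / 2 ^ V ≤ ...
    have h4 : K ^ m ≤ (2 : ℝ) ^ (κ * m) := by
      rw [pow_mul]
      exact pow_le_pow_left₀ (by linarith) hκ m
    have h5 : (2 : ℝ) ^ V m = (2 : ℝ) ^ (T / (2 * D)) * ((2 : ℝ) ^ (κ * m) * 2 ^ m) := by
      show (2 : ℝ) ^ (T / (2 * D) + (κ + 1) * m) = _
      rw [← pow_add, ← pow_add]
      congr 1
      ring
    have h6 : (1 : ℝ) / 2 ^ (T / (2 * D)) ≤ 2 * (2 : ℝ) ^ (-(16 / 2 ^ s * ((T : ℝ) / 2 ^ (k + 5)))) := by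
      have e2 : 16 / 2 ^ s * ((T : ℝ) / 2 ^ (k + 5)) = (T : ℝ) / (2 * D) := by
        rw [hD]
        push_cast
        rw [pow_add, pow_add]
        field_simp
        ring
      rw [e2]
      have h7 : (T : ℝ) / (2 * D) ≤ ((T / (2 * D) : ℕ) : ℝ) + 1 := by
        have h8 : T < 2 * D * (T / (2 * D) + 1) := Nat.lt_mul_div_succ T (by omega)
        have h9 : (T : ℝ) ≤ 2 * D * (((T / (2 * D) : ℕ) : ℝ) + 1) := by exact_mod_cast h8.le
        have hDp : (0 : ℝ) < 2 * D := by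
          have : (1 : ℝ) ≤ D := by exact_mod_cast hD1
          linarith
        rw [div_le_iff₀ hDp]
        linarith
      have h8 : (2 : ℝ) ^ (-(((T / (2 * D) : ℕ) : ℝ) + 1)) ≤ (2 : ℝ) ^ (-((T : ℝ) / (2 * D))) :=
        Real.rpow_le_rpow_of_exponent_le (by norm_num) (by linarith)
      have h9 : (2 : ℝ) ^ (-(((T / (2 * D) : ℕ) : ℝ) + 1)) = 1 / 2 ^ (T / (2 * D)) / 2 := by
        rw [neg_add, Real.rpow_add (by norm_num), Real.rpow_neg (by norm_num), Real.rpow_natCast,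
          Real.rpow_neg_one]
        ring
      rw [h9] at h8
      linarith
    have h7 := ub_mono (show k ≤ k + 5 by omega)
    rw [h5]
    have hp1 : (0 : ℝ) < 2 ^ (κ * m) := by positivity
    have hp2 : (0 : ℝ) < 2 ^ (T / (2 * D)) := by positivity
    calc K ^ m * Ub k / ((2 : ℝ) ^ (T / (2 * D)) * ((2 : ℝ) ^ (κ * m) * 2 ^ m))
        ≤ (2 : ℝ) ^ (κ * m) * Ub (k + 5) / ((2 : ℝ) ^ (T / (2 * D)) * ((2 : ℝ) ^ (κ * m) * 2 ^ m)) := by gcongr
      _ = Ub (k + 5) * (1 / 2 ^ (T / (2 * D))) * (1 / 2) ^ m := by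
          rw [one_div_pow]
          field_simp
      _ ≤ Ub (k + 5) * (2 * (2 : ℝ) ^ (-(16 / 2 ^ s * ((T : ℝ) / 2 ^ (k + 5))))) * (1 / 2) ^ m := by gcongr
  -- the union over m
  have hU := DL.Ub_pos (k + 5)
  obtain ⟨E, hE⟩ : ∃ E : ℝ, E = (2 : ℝ) ^ (-(16 / 2 ^ s * ((T : ℝ) / 2 ^ (k + 5)))) := ⟨_, rfl⟩
  have hE0 : 0 < E := by
    rw [hE]
    positivity
  rw [← hE] at hS'
  have hU' : gf (⋃ m, S' m) ≤ ENNReal.ofReal (Ub (k + 5) * (4 * E)) := by
    refine (ENNReal.tsum_iUnion_le_tsum wE S').trans ((ENNReal.tsum_le_tsum hS').trans ?_)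
    rw [ENNReal.tsum_mul_left]
    have h2 : ∑' m : ℕ, (1 / 2 : ℝ≥0∞) ^ m = ENNReal.ofReal 2 := by
      rw [ENNReal.tsum_geometric, one_div, ENNReal.one_sub_inv_two, inv_inv, ENNReal.ofReal_ofNat]
    rw [h2, ← ENNReal.ofReal_mul (by positivity)]
    apply ENNReal.ofReal_le_ofReal
    apply le_of_eq
    ring
  have hmain := hF (k + 5) T {t | t ∈ FCW T ∧ ∃ m u e, 1 ≤ m ∧ Lf false (k + 5) t m u e ∧
    (2 : ℝ) ^ s * (κ + 2) * (2 ^ (k + 5) * m) ≤ (tv (lev t) m e : ℝ)} (⋃ m, S' m) (by omega) (fun t ht => ht.1) (by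
      rintro t ⟨⟨j, hj⟩, m, u, e, hm, hLf, htv⟩ z hz
      obtain ⟨jz, hjz⟩ := hz.1
      have hjb : jz < 2 ^ (k + 5) := by
        have h5 := CLaw.BL_height hz hjz
        have h6 : 2 ^ (k + 5 - 1) < 2 ^ (k + 5) := Nat.pow_lt_pow_right (by norm_num) (by omega)
        omega
      obtain ⟨e', h5, _, h7⟩ := lf_append hj.1 hjz hjb (by omega) hm hLf
      rw [Set.mem_iUnion]
      refine ⟨m, hm, j + jz, ?_, Brd_append hj.1 hjz, u, e', h5, ?_⟩
      · have := hj.2.1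
        omega
      · have h8 : (tv (lev t) m e : ℝ) ≤ tv (lev (t ++ z)) m e' := by exact_mod_cast h7
        linarith)
  have h3 := hmain.trans hU'
  have hcU : 0 < cF * Ub (k + 5) := mul_pos hcF hU
  have h4 : Ub (k + 5) * (4 * E) = (4 / cF * E) * (cF * Ub (k + 5)) := by
    field_simp
  rw [h4, ENNReal.ofReal_mul (q := cF * Ub (k + 5)) (by positivity), mul_comm] at h3
  have h5 := (ENNReal.mul_le_mul_iff_left (ENNReal.ofReal_pos.2 hcU).ne' ENNReal.ofReal_ne_top).1 h3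
  rw [hE] at h5
  exact h5

end SDN

end HexObs
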