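import Pool.Agent.SDN.TubeGeo
import Pool.Agent.Tight.Prob
import Pool.Agent.Tight.LatT

/-!
SDN, limit version, module M9: from the bridges in a box to the first cut words of TIGHT: append a free bridge in the
box.
-/

set_option autoImplicit false

namespace HexObs

namespace SDN

namespace DL

open Finset TS

open scoped ENNReal

/-- a bridge of height at most T in the lateral box M T is in the box of radius 2 ^ L if (M + 2) T ≤ 2 ^ L -/
lemma mem_BL_of {L M T i : ℕ} {u : List Bool} (hi : i ≤ T) (hT : 1 ≤ T) (hL : (M + 2) * T ≤ 2 ^ L) (hu : u ∈ Brd i)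
    (hb : InBox u (M * T)) : u ∈ BL L := by
  have hB := mem_Brd.1 hu
  refine ⟨⟨i, hu⟩, ⟨fun _ _ _ => Set.mem_univ _, hB.2.1⟩, ?_⟩
  intro k hk dir
  have hT' : (1 : ℤ) ≤ T := by exact_mod_cast hT
  have hi' : (i : ℤ) ≤ T := by exact_mod_cast hi
  have c1 : 0 ≤ lev u k ∧ lev u k ≤ 3 * i := by
    rcases Nat.eq_zero_or_pos k with h0 | h0
    · rw [h0, lev_zero]
      constructor <;> omega
    · have := hB.1 k h0 hk
      constructor <;> omega
  have c2 := hb k hk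
  obtain ⟨P, hP⟩ : ∃ P : ℤ, P = ((M * T : ℕ) : ℤ) := ⟨_, rfl⟩
  rw [← hP, abs_le] at c2
  have hL' : P + 2 * T ≤ 2 ^ L := by
    rw [hP]
    have : M * T + 2 * T ≤ 2 ^ L := by
      calc M * T + 2 * T = (M + 2) * T := by ring
        _ ≤ 2 ^ L := hL
    exact_mod_cast this
  obtain ⟨N, hN⟩ : ∃ N : ℤ, N = 2 ^ L := ⟨_, rfl⟩
  rw [← hN] at hL' ⊢
  have c3 := lev2_eq u k
  have hP0 : 0 ≤ P := by
    rw [hP]
    positivity
  rw [abs_le]
  cases dir
  · unfold row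
    rw [lvl_false_vx]
    constructor <;> omega
  · unfold row
    rw [lvl_true_vx]
    constructor <;> omega

/-- the bridges of height at most T in a wide box have mass at least UU T / 2 -/
lemma low_mass : ∃ M : ℕ, 1 ≤ M ∧ ∀ T : ℕ,
    ENNReal.ofReal (UU T / 2) ≤ ∑ i ∈ range (T + 1), gf (Brd i ∩ {u | InBox u (M * T)}) := by
  obtain ⟨D, c, hc, hD⟩ := latTail
  obtain ⟨M, hM1, hM2⟩ := TH7.exists_small |D| c (1 / 2) hc (by norm_num)
  refine ⟨M, hM1, ?_⟩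
  intro T
  have h1 : ∀ i ∈ range (T + 1), ENNReal.ofReal (uu i / 2) ≤ gf (Brd i ∩ {u | InBox u (M * T)}) := by
    intro i hi
    rw [Finset.mem_range] at hi
    have h2 : gf (Brd i) ≤ gf (Brd i ∩ {u | InBox u (M * T)}) + gf {g | g ∈ Brd i ∧ ¬ InBox g (M * T)} := by
      refine le_trans (gf_mono ?_) (gf_union_le _ _)
      intro g hg
      by_cases h3 : InBox g (M * T)
      · exact Or.inl ⟨hg, h3⟩
      · exact Or.inr ⟨hg, h3⟩
    have h4 := TH7.tail hD i M (M * T) (Nat.mul_le_mul_left M (by omega))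
    have h5 : ENNReal.ofReal (|D| * Real.exp (-(c * M)) * uu i) ≤ ENNReal.ofReal (uu i / 2) := by
      apply ENNReal.ofReal_le_ofReal
      have := mul_le_mul_of_nonneg_right hM2 (TH7.uu_nonneg i)
      linarith
    rw [TH7.gf_Brd_uu] at h2
    have h6 : ENNReal.ofReal (uu i) = ENNReal.ofReal (uu i / 2) + ENNReal.ofReal (uu i / 2) := by
      have h0 := TH7.uu_nonneg i
      rw [← ENNReal.ofReal_add (by linarith) (by linarith)]
      congr 1
      ring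
    have h7 : ENNReal.ofReal (uu i / 2) + ENNReal.ofReal (uu i / 2) ≤
        gf (Brd i ∩ {u | InBox u (M * T)}) + ENNReal.ofReal (uu i / 2) := by
      rw [← h6]
      exact h2.trans (by gcongr; exact h4.trans h5)
    exact (ENNReal.add_le_add_iff_right ENNReal.ofReal_ne_top).1 h7
  have h2 : UU T / 2 = ∑ i ∈ range (T + 1), uu i / 2 := by
    unfold UU
    rw [Finset.sum_div]
  rw [h2, ENNReal.ofReal_sum_of_nonneg (fun i _ => by have := TH7.uu_nonneg i; linarith)]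
  exact Finset.sum_le_sum h1

lemma Ub_succ' (b : ℕ) : Ub (b + 1) ≤ 2 * Ub b := by
  have h := TH7.UU_mul_le 1 (2 ^ b)
  unfold Ub
  have e : (1 + 1) * 2 ^ b = 2 ^ (b + 1) := by ring
  rw [e] at h
  push_cast at h
  linarith

lemma Ub_add (b m : ℕ) : Ub (b + m) ≤ 2 ^ m * Ub b := by
  induction m with
  | zero => simp
  | succ m ih =>
    have h := Ub_succ' (b + m)
    calc Ub (b + (m + 1)) = Ub (b + m + 1) := by rw [add_assoc]
      _ ≤ 2 * Ub (b + m) := h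
      _ ≤ 2 * (2 ^ m * Ub b) := by linarith
      _ = 2 ^ (m + 1) * Ub b := by ring

lemma Ub_pos (b : ℕ) : 0 < Ub b := by
  have h1 : uu 0 ≤ UU (2 ^ b) := by
    unfold UU
    exact Finset.single_le_sum (f := fun t => uu t) (fun t _ => TH7.uu_nonneg t)
      (Finset.mem_range.2 (Nat.succ_pos _))
  rw [uu_zero] at h1
  unfold Ub
  linarith

/-- the mass of the bridges in the box -/
lemma BL_low : ∃ m0 : ℕ, ∀ L : ℕ, m0 ≤ L → ENNReal.ofReal (Ub L / 2 ^ (m0 + 1)) ≤ gf (BL L) := by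
  obtain ⟨M, hM1, hM⟩ := low_mass
  refine ⟨M + 2, ?_⟩
  intro L hL
  obtain ⟨n, rfl⟩ : ∃ n, L = n + (M + 2) := ⟨L - (M + 2), by omega⟩
  have hT : 1 ≤ 2 ^ n := Nat.one_le_two_pow
  have hbox : (M + 2) * 2 ^ n ≤ 2 ^ (n + (M + 2)) := by
    calc (M + 2) * 2 ^ n ≤ 2 ^ (M + 2) * 2 ^ n := Nat.mul_le_mul_right _ Nat.lt_two_pow_self.le
      _ = 2 ^ (n + (M + 2)) := by ring
  have h1 : ∑ i ∈ range (2 ^ n + 1), gf (Brd i ∩ {u | InBox u (M * 2 ^ n)}) ≤ gf (BL (n + (M + 2))) := by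
    rw [← gf_biUnion]
    · apply gf_mono
      intro u hu
      simp only [Set.mem_iUnion] at hu
      obtain ⟨i, hi, h1, h2⟩ := hu
      rw [Finset.mem_range] at hi
      exact mem_BL_of (by omega) hT hbox h1 h2
    · intro i _ j _ hij
      rw [Set.disjoint_left]
      rintro u ⟨h1, _⟩ ⟨h2, _⟩
      exact hij (Brd_height h1 h2)
  refine le_trans (ENNReal.ofReal_le_ofReal ?_) ((hM (2 ^ n)).trans h1)
  have h2 := Ub_add n (M + 2)
  rw [div_le_iff₀ (by positivity)]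
  unfold Ub at h2 ⊢
  calc UU (2 ^ (n + (M + 2))) ≤ 2 ^ (M + 2) * UU (2 ^ n) := h2
    _ = UU (2 ^ n) / 2 * 2 ^ (M + 2 + 1) := by ring

lemma lvl_dvd {j : ℕ} {t : List Bool} (ht : t ∈ Brd j) (dir : Bool) : (3 : ℤ) ∣ lvl dir (vx oo up t t.length) := by
  have hB := mem_Brd.1 ht
  cases dir
  · rw [lvl_false_vx, hB.2.2.2]
    exact dvd_mul_right _ _
  · rw [lvl_true_vx]
    have := lev2_eq t t.length
    rw [hB.2.2.2] at this
    omega

/-- appending a bridge in the box -/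
lemma append_BL {L j : ℕ} {t z : List Bool} (ht : t ∈ Brd j) (htL : t ∈ WL L) (hz : z ∈ BL L) : t ++ z ∈ BL (L + 1) := by
  obtain ⟨⟨h, hz1⟩, hz2, hz3⟩ := hz
  have hd := (mem_Brd.1 ht).2.2.1
  have hB := Brd_append ht hz1
  refine ⟨⟨_, hB⟩, ⟨fun _ _ _ => Set.mem_univ _, (mem_Brd.1 hB).2.1⟩, ?_⟩
  intro i hi dir
  have e : (2 : ℤ) ^ (L + 1) = 2 * 2 ^ L := by ring
  rw [e]
  have h0 : (0 : ℤ) ≤ 2 ^ L := by positivity
  rcases Nat.lt_or_ge i (t.length + 1) with hlt | hge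
  · rw [vx_append (by omega)]
    have := htL.2 i (by omega) dir
    exact this.trans (by linarith)
  · obtain ⟨k, rfl⟩ : ∃ k, i = t.length + k := ⟨i - t.length, by omega⟩
    rw [List.length_append] at hi
    rw [vx_cat hd]
    have a1 := htL.2 t.length le_rfl dir
    have a2 := hz3 k (by omega) dir
    have a3 := lvl_dvd ht dir
    unfold row at a1 a2 ⊢
    rw [lvl_add]
    obtain ⟨q, hq⟩ := a3
    rw [hq] at a1 ⊢
    rw [abs_le] at a1 a2 ⊢
    obtain ⟨N, hN⟩ : ∃ N : ℤ, N = 2 ^ L := ⟨_, rfl⟩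
    rw [← hN] at a1 a2 ⊢
    constructor <;> omega

lemma nb_append (b : ℕ) (t z : List Bool) : nb b t ≤ nb b (t ++ z) := by
  apply Finset.card_le_card
  intro g hg
  unfold cells at hg ⊢
  rw [Finset.mem_image] at hg ⊢
  obtain ⟨i, hi, rfl⟩ := hg
  rw [Finset.mem_range] at hi
  refine ⟨i, Finset.mem_range.2 (by rw [List.length_append]; omega), ?_⟩
  rw [vx_append (by omega)]

end DL

open Finset TS DL

open scoped ENNReal

/-- module M9 -/
theorem dim_law_of (hdim : ∃ (e0 c : ℝ) (b0 l0 : ℕ), 0 < e0 ∧ e0 < 1 ∧ 0 < c ∧ ∀ L b1 : ℕ, b0 ≤ b1 → b1 + l0 ≤ L →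
    gf {t | t ∈ BL L ∧ (2 : ℝ) ^ ((2 - e0) * ((L : ℝ) - b1)) ≤ nb b1 t} ≤
      ENNReal.ofReal (Ub L * Real.exp (-(2 : ℝ) ^ (c * ((L : ℝ) - b1))))) :
    ∃ (e0 c : ℝ) (b0 l0 : ℕ), 0 < e0 ∧ e0 < 1 ∧ 0 < c ∧ ∀ L b1 T : ℕ, b0 ≤ b1 → b1 + l0 ≤ L → 1 ≤ T →
    gf {t | t ∈ FCW T ∧ t ∈ WL L ∧ (2 : ℝ) ^ ((2 - e0) * ((L : ℝ) - b1)) ≤ nb b1 t} ≤
      ENNReal.ofReal (Real.exp (-(2 : ℝ) ^ (c * ((L : ℝ) - b1)))) := by
  obtain ⟨e0, c, b0, l0, he0, he1, hc, hmain⟩ := hdim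
  obtain ⟨m0, hm0⟩ := BL_low
  have hx1 : 1 < (2 : ℝ) ^ c := Real.one_lt_rpow (by norm_num) hc
  obtain ⟨x, hx⟩ : ∃ x : ℝ, x = (2 : ℝ) ^ c := ⟨_, rfl⟩
  rw [← hx] at hx1
  have hxx : 0 < (x - 1) ^ 2 := by
    have : 0 < x - 1 := by linarith
    positivity
  obtain ⟨n1, hn1⟩ := exists_nat_ge (((m0 : ℝ) + 2) / (x - 1) ^ 2)
  obtain ⟨n2, hn2⟩ := exists_nat_ge (4 / e0)
  rw [div_le_iff₀ hxx] at hn1
  rw [div_le_iff₀ he0] at hn2
  refine ⟨e0 / 2, c, b0, l0 + m0 + n1 + n2, by linarith, by linarith, hc, ?_⟩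
  intro L b1 T hb hL hT
  obtain ⟨n, rfl⟩ : ∃ n, L = b1 + n := ⟨L - b1, by omega⟩
  have hn : l0 + m0 + n1 + n2 ≤ n := by omega
  have hn' : ((b1 + n : ℕ) : ℝ) - b1 = n := by
    push_cast
    ring
  have hn'' : ((b1 + n + 1 : ℕ) : ℝ) - b1 = n + 1 := by
    push_cast
    ring
  rw [hn']
  -- the product bound
  have key : gf {t | t ∈ FCW T ∧ t ∈ WL (b1 + n) ∧ (2 : ℝ) ^ ((2 - e0 / 2) * (n : ℝ)) ≤ nb b1 t} * gf (BL (b1 + n)) ≤
      gf {t | t ∈ BL (b1 + n + 1) ∧ (2 : ℝ) ^ ((2 - e0) * (((b1 + n + 1 : ℕ) : ℝ) - b1)) ≤ nb b1 t} := by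
    apply mul_le_gf
    · rintro t ⟨⟨j, h1⟩, h2, h3⟩ z hz
      refine ⟨append_BL h1.1 h2 hz, ?_⟩
      rw [hn'']
      have h4 : (nb b1 t : ℝ) ≤ nb b1 (t ++ z) := by exact_mod_cast nb_append b1 t z
      refine le_trans ?_ (h3.trans h4)
      apply Real.rpow_le_rpow_of_exponent_le (by norm_num)
      have h5 : (n2 : ℝ) ≤ n := by
        have : n2 ≤ n := by omega
        exact_mod_cast this
      have h6 : (4 : ℝ) ≤ n * e0 := hn2.trans (mul_le_mul_of_nonneg_right h5 he0.le)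
      nlinarith
    · rintro t ⟨⟨j, h1⟩, h2, h3⟩ z ⟨⟨h, hz⟩, _⟩ t' ⟨⟨j', h1'⟩, h2', h3'⟩ z' ⟨⟨h', hz'⟩, _⟩ heq
      exact (FC_unique h1 h1' hz hz' heq).1
  have h1 := hmain (b1 + n + 1) b1 hb (by omega)
  rw [hn''] at h1
  rw [hn''] at key
  have h2 := key.trans h1
  have h3 := hm0 (b1 + n) (by omega)
  have hU := Ub_pos (b1 + n)
  have h4 : gf {t | t ∈ FCW T ∧ t ∈ WL (b1 + n) ∧ (2 : ℝ) ^ ((2 - e0 / 2) * (n : ℝ)) ≤ nb b1 t} *
      ENNReal.ofReal (Ub (b1 + n) / 2 ^ (m0 + 1)) ≤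
      ENNReal.ofReal (Real.exp (-(2 : ℝ) ^ (c * (n : ℝ)))) * ENNReal.ofReal (Ub (b1 + n) / 2 ^ (m0 + 1)) := by
    refine (mul_le_mul_right h3 _).trans (h2.trans ?_)
    rw [← ENNReal.ofReal_mul (Real.exp_pos _).le]
    apply ENNReal.ofReal_le_ofReal
    have e1 : (2 : ℝ) ^ (c * (n : ℝ)) = x ^ n := by
      rw [hx, Real.rpow_mul (by norm_num), Real.rpow_natCast]
    have e2 : (2 : ℝ) ^ (c * ((n : ℝ) + 1)) = x ^ (n + 1) := by
      rw [hx, Real.rpow_mul (by norm_num), ← Real.rpow_natCast]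
      congr 1
      push_cast
      rfl
    rw [e1, e2]
    have h5 : (n1 : ℝ) ≤ n := by
      have : n1 ≤ n := by omega
      exact_mod_cast this
    have h6 : 1 + (n : ℝ) * (x - 1) ≤ x ^ n := by
      have := one_add_mul_le_pow (a := x - 1) (by linarith) n
      have e : 1 + (x - 1) = x := by ring
      rw [e] at this
      exact this
    have h7 : (m0 : ℝ) + 2 ≤ x ^ (n + 1) - x ^ n := by
      have h8 : (n1 : ℝ) * (x - 1) ^ 2 ≤ n * (x - 1) ^ 2 := mul_le_mul_of_nonneg_right h5 hxx.le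
      have h9 : (1 + (n : ℝ) * (x - 1)) * (x - 1) ≤ x ^ n * (x - 1) :=
        mul_le_mul_of_nonneg_right h6 (by linarith)
      have e : x ^ (n + 1) - x ^ n = x ^ n * (x - 1) := by ring
      rw [e]
      nlinarith
    have h10 : (2 : ℝ) ^ (m0 + 2) ≤ Real.exp (x ^ (n + 1) - x ^ n) := by
      have h11 : (2 : ℝ) ^ (m0 + 2) ≤ Real.exp ((m0 : ℝ) + 2) := by
        have : (2 : ℝ) ≤ Real.exp 1 := by
          have := Real.add_one_le_exp (1 : ℝ)
          linarith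
        calc (2 : ℝ) ^ (m0 + 2) ≤ Real.exp 1 ^ (m0 + 2) := pow_le_pow_left₀ (by norm_num) this _
          _ = Real.exp ((m0 : ℝ) + 2) := by
            rw [← Real.exp_nat_mul]
            congr 1
            push_cast
            ring
      exact h11.trans (Real.exp_le_exp.2 h7)
    have h12 := Ub_succ' (b1 + n)
    have h13 : (2 : ℝ) ^ (m0 + 2) * Real.exp (-x ^ (n + 1)) ≤ Real.exp (-x ^ n) := by
      calc (2 : ℝ) ^ (m0 + 2) * Real.exp (-x ^ (n + 1)) ≤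
          Real.exp (x ^ (n + 1) - x ^ n) * Real.exp (-x ^ (n + 1)) :=
            mul_le_mul_of_nonneg_right h10 (Real.exp_pos _).le
        _ = Real.exp (-x ^ n) := by
          rw [← Real.exp_add]
          congr 1
          ring
    have hE := Real.exp_pos (-x ^ (n + 1))
    have h14 : Ub (b1 + n + 1) * Real.exp (-x ^ (n + 1)) ≤ 2 * Ub (b1 + n) * Real.exp (-x ^ (n + 1)) :=
      mul_le_mul_of_nonneg_right h12 hE.le
    refine h14.trans ?_
    have h15 : 2 * Ub (b1 + n) * Real.exp (-x ^ (n + 1)) =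
        Ub (b1 + n) / 2 ^ (m0 + 1) * ((2 : ℝ) ^ (m0 + 2) * Real.exp (-x ^ (n + 1))) := by
      field_simp
      ring
    rw [h15, mul_comm (Real.exp (-x ^ n))]
    exact mul_le_mul_of_nonneg_left h13 (by positivity)
  have h5 : 0 < Ub (b1 + n) / 2 ^ (m0 + 1) := by positivity
  exact (ENNReal.mul_le_mul_iff_left (ENNReal.ofReal_pos.2 h5).ne' ENNReal.ofReal_ne_top).1 h4

end SDN

end HexObs
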