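import Pool.Agent.SDN.NormT

/-!
SDN, the filling step: decompositions of one leaf.
-/

set_option autoImplicit false

namespace HexObs

open Finset TS

open scoped ENNReal

open Rec8 (sw mb)

namespace SDN

variable {C δ : ℝ}

/-- the free middle part of a leaf of W has a small weight -/
def EZ (D N e : ℕ) (W : Set (List Bool)) (ε : ℝ) : Prop := ∀ M ∈ BU, ∀ P1 ∈ IU, ∀ P2 ∈ IU, ∀ Q ∈ BU,
  hgt M + hgt P1 ≤ 2 ^ e → hgt P2 + hgt Q ≤ 2 ^ e →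
  ∑' h : ℕ, gf {Z | Z ∈ Brd h ∧ M ++ (P1 ++ (Z ++ (P2 ++ Q))) ∈ W ∧ M ++ (P1 ++ (Z ++ (P2 ++ Q))) ∈ BrR D N} ≤
    ENNReal.ofReal ε

namespace Fl

/-- the next leaves after the end t -/
def At (D N : ℕ) (W : Set (List Bool)) (R : List Bool → List Bool → Prop) (t : List Bool) : Set (List Bool) :=
  {g' | g' ∈ BrR D N ∧ g' ∈ W ∧ RT D R t g'}

/-- short bridges -/
def QQ (j : ℕ) : Set (List Bool) := {Q | ∃ m, m < 2 ^ (j + 1) ∧ Q ∈ Brd m}

/-- kernel of one fold -/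
noncomputable def ck (D j : ℕ) (I M : List Bool) : ℝ≥0∞ := ∑' n : ℕ, ∑' r : ℕ, mu j n r * sw (Brd n) (fun X =>
  gf {P | P ∈ Irr r ∧ ∃ c : Bool, KRel D I P M ((!c) :: c :: X)})

/-- covering by decompositions into three words a ++ (b ++ c), summed in the order a, b, c -/
theorem cov {ι : Type} (A : Set (List Bool)) (p : ι → Prop) [DecidablePred p] (B C : ι → Set (List Bool))
    (Q : ι → List Bool → List Bool → Set (List Bool)) (G : List Bool → ℝ≥0∞)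
    (hcov : ∀ t ∈ A, ∃ i, p i ∧ ∃ a ∈ B i, ∃ b ∈ C i, ∃ c ∈ Q i a b, t = a ++ (b ++ c)) :
    sw A G ≤ ∑' i : ι, if p i then
      sw (B i) (fun a => sw (C i) (fun b => sw (Q i a b) (fun c => G (a ++ (b ++ c))))) else 0 := by
  classical
  have hR : (∑' i : ι, if p i then
      sw (B i) (fun a => sw (C i) (fun b => sw (Q i a b) (fun c => G (a ++ (b ++ c))))) else 0) =
      ∑' x : ι × (List Bool × (List Bool × List Bool)),
        (if p x.1 ∧ x.2.1 ∈ B x.1 ∧ x.2.2.1 ∈ C x.1 ∧ x.2.2.2 ∈ Q x.1 x.2.1 x.2.2.1 then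
          wE x.2.1 * (wE x.2.2.1 * (wE x.2.2.2 * G (x.2.1 ++ (x.2.2.1 ++ x.2.2.2)))) else 0) := by
    rw [ENNReal.tsum_prod']
    refine tsum_congr fun i => ?_
    by_cases hp : p i
    · rw [if_pos hp, ENNReal.tsum_prod', Rec8.sw_ind]
      refine tsum_congr fun a => ?_
      rw [ENNReal.tsum_prod']
      by_cases ha : a ∈ B i
      · rw [if_pos ha, Rec8.sw_ind, ← ENNReal.tsum_mul_left]
        refine tsum_congr fun b => ?_
        by_cases hb : b ∈ C i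
        · rw [if_pos hb, Rec8.sw_ind, ← ENNReal.tsum_mul_left, ← ENNReal.tsum_mul_left]
          refine tsum_congr fun c => ?_
          by_cases hc : c ∈ Q i a b
          · simp [hp, ha, hb, hc]
          · simp [hc]
        · simp [hb]
      · simp [ha]
    · simp [hp]
  rw [hR]
  refine Rec8.sw_cover A G _ (fun x => x.2.1 ++ (x.2.2.1 ++ x.2.2.2)) ?_
  intro t ht
  obtain ⟨i, hp, a, ha, b, hb, c, hc, rfl⟩ := hcov t ht
  refine ⟨(i, (a, (b, c))), rfl, ?_⟩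
  simp only [hp, ha, hb, hc, and_self, if_true]
  rw [wE_append, wE_append]
  exact le_of_eq (by ring)

/-- the same, summed in the order b, c, a -/
theorem cov' {ι : Type} (A : Set (List Bool)) (p : ι → Prop) [DecidablePred p] (B C : ι → Set (List Bool))
    (Q : ι → List Bool → List Bool → Set (List Bool)) (G : List Bool → ℝ≥0∞)
    (hcov : ∀ t ∈ A, ∃ i, p i ∧ ∃ b ∈ B i, ∃ c ∈ C i, ∃ a ∈ Q i b c, t = a ++ (b ++ c)) :
    sw A G ≤ ∑' i : ι, if p i then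
      sw (B i) (fun b => sw (C i) (fun c => sw (Q i b c) (fun a => G (a ++ (b ++ c))))) else 0 := by
  classical
  have hR : (∑' i : ι, if p i then
      sw (B i) (fun b => sw (C i) (fun c => sw (Q i b c) (fun a => G (a ++ (b ++ c))))) else 0) =
      ∑' x : ι × (List Bool × (List Bool × List Bool)),
        (if p x.1 ∧ x.2.1 ∈ B x.1 ∧ x.2.2.1 ∈ C x.1 ∧ x.2.2.2 ∈ Q x.1 x.2.1 x.2.2.1 then
          wE x.2.1 * (wE x.2.2.1 * (wE x.2.2.2 * G (x.2.2.2 ++ (x.2.1 ++ x.2.2.1)))) else 0) := by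
    rw [ENNReal.tsum_prod']
    refine tsum_congr fun i => ?_
    by_cases hp : p i
    · rw [if_pos hp, ENNReal.tsum_prod', Rec8.sw_ind]
      refine tsum_congr fun a => ?_
      rw [ENNReal.tsum_prod']
      by_cases ha : a ∈ B i
      · rw [if_pos ha, Rec8.sw_ind, ← ENNReal.tsum_mul_left]
        refine tsum_congr fun b => ?_
        by_cases hb : b ∈ C i
        · rw [if_pos hb, Rec8.sw_ind, ← ENNReal.tsum_mul_left, ← ENNReal.tsum_mul_left]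
          refine tsum_congr fun c => ?_
          by_cases hc : c ∈ Q i a b
          · simp [hp, ha, hb, hc]
          · simp [hc]
        · simp [hb]
      · simp [ha]
    · simp [hp]
  rw [hR]
  refine Rec8.sw_cover A G _ (fun x => x.2.2.2 ++ (x.2.1 ++ x.2.2.1)) ?_
  intro t ht
  obtain ⟨i, hp, b, hb, c, hc, a, ha, rfl⟩ := hcov t ht
  refine ⟨(i, (b, (c, a))), rfl, ?_⟩
  simp only [hp, ha, hb, hc, and_self, if_true]
  rw [wE_append, wE_append]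
  exact le_of_eq (by ring)

theorem ind_zero {l n r : ℕ} (h : ¬ (n ≤ l ∧ l < n + r)) : TN5b_ind l n r = 0 := if_neg h

/-- in-level of the window k of a leaf whose end P ++ Q is given: P is the piece over the in-level, or it lies
behind it -/
theorem in_dec {D N k j1 : ℕ} (hj : j1 ≤ k) (hD : 2 ^ (k + 4) ≤ D) {W : Set (List Bool)}
    {R : List Bool → List Bool → Prop} {t : List Bool} {r : ℕ} {P Q : List Bool} (hP : P ∈ Irr r) (hQ : Q ∈ QQ j1) :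
    gf {Z | Z ∈ BU ∧ Z ++ (P ++ Q) ∈ At D N W R t} ≤
      (∑' n : ℕ, mu k n r * gf {X | X ∈ Brd n ∧ X ++ (P ++ Q) ∈ At D N W R t}) +
      ∑' n : ℕ, ∑' r' : ℕ, mu k n r' * sw (Brd n) (fun X => sw (Irr r') (fun P' =>
        gf {Z | Z ∈ BU ∧ X ++ (P' ++ (Z ++ (P ++ Q))) ∈ At D N W R t})) := by
  classical
  have key := TN5b_avg k (gf {Z | Z ∈ BU ∧ Z ++ (P ++ Q) ∈ At D N W R t})
    (fun n : ℕ => n) (fun _ => r) (fun n => gf {X | X ∈ Brd n ∧ X ++ (P ++ Q) ∈ At D N W R t})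
    (fun y : ℕ × ℕ => y.1) (fun y => y.2) (fun y => sw (Brd y.1) (fun X => sw (Irr y.2) (fun P' =>
        gf {Z | Z ∈ BU ∧ X ++ (P' ++ (Z ++ (P ++ Q))) ∈ At D N W R t}))) ?_
  · rw [ENNReal.tsum_prod'] at key
    exact key
  intro l hl
  rw [Finset.mem_Ico] at hl
  obtain ⟨m, hm, hQm⟩ := hQ
  have hpk : (2 : ℕ) ^ (k + 4) = 8 * 2 ^ (k + 1) := by ring
  have hpj : (2 : ℕ) ^ (j1 + 1) ≤ 2 ^ (k + 1) := Nat.pow_le_pow_right (by norm_num) (by omega)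
  have hsub : {Z | Z ∈ BU ∧ Z ++ (P ++ Q) ∈ At D N W R t} ⊆
      {Z | ∃ z, (z ≤ l ∧ l < z + r) ∧ Z ∈ Brd z ∧ Z ++ (P ++ Q) ∈ At D N W R t} ∪
      {Z | ∃ z, l < z ∧ Z ∈ Brd z ∧ Z ++ (P ++ Q) ∈ At D N W R t} := by
    rintro Z ⟨⟨z, hz⟩, hA⟩
    obtain ⟨⟨h, h1, h2, h3⟩, -⟩ := id hA
    have h4 := Brd_height h3 (Brd_append hz (Brd_append hP.1 hQm))
    by_cases hzl : z ≤ l
    · exact Or.inl ⟨z, ⟨hzl, by omega⟩, hz, hA⟩
    · exact Or.inr ⟨z, by omega, hz, hA⟩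
  have hone : ∀ A : Set (List Bool), gf A = sw A (fun _ => 1) := fun A => (Rec8.sw_one A).symm
  rw [hone]
  refine le_trans (TN5b_sw_union hsub _) (add_le_add ?_ ?_)
  · refine le_trans (Rec8.sw_cover _ _ (fun x : ℕ × List Bool =>
      TN5b_ind l x.1 r *
        (if x.2 ∈ {X | X ∈ Brd x.1 ∧ X ++ (P ++ Q) ∈ At D N W R t} then wE x.2 * 1 else 0))
      (fun x => x.2) ?_) (le_of_eq ?_)
    · rintro Z ⟨z, hz1, hz2⟩
      refine ⟨(z, Z), rfl, ?_⟩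
      have hz3 : Z ∈ {X | X ∈ Brd z ∧ X ++ (P ++ Q) ∈ At D N W R t} := hz2
      simp only
      rw [TN5b_ind_one hz1, if_pos hz3, one_mul]
    · rw [ENNReal.tsum_prod']
      refine tsum_congr fun n => ?_
      simp only
      rw [ENNReal.tsum_mul_left, hone, Rec8.sw_ind]
      congr 1
      exact tsum_congr fun i => by split_ifs <;> rfl
  · refine le_trans (cov _ (fun y : ℕ × ℕ => y.1 ≤ l ∧ l < y.1 + y.2) (fun y => Brd y.1) (fun y => Irr y.2)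
      (fun y X P' => {Z | Z ∈ BU ∧ X ++ (P' ++ (Z ++ (P ++ Q))) ∈ At D N W R t}) _ ?_) (le_of_eq ?_)
    · rintro Z ⟨z, hz1, hz2, hz3⟩
      obtain ⟨n, r', a, p, u, h3, h4, h5, ha, hp, hu, rfl⟩ := jump_dec hz1 hz2
      refine ⟨(n, r'), ⟨h3, h4⟩, a, ha, p, hp, u, ⟨⟨_, hu⟩, ?_⟩, List.append_assoc _ _ _⟩
      simpa only [List.append_assoc] using hz3
    · refine tsum_congr fun y => ?_
      by_cases hy : y.1 ≤ l ∧ l < y.1 + y.2
      · rw [if_pos hy, TN5b_ind_one hy, one_mul]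
        simp only [Rec8.sw_one]
      · rw [if_neg hy, ind_zero hy, zero_mul]

/-- the giant at the out-level l2: all pieces higher than 2 ^ (e - 1) -/
theorem out_giant {D N e j1 : ℕ} (he : j1 + 3 ≤ e) {W : Set (List Bool)}
    {R : List Bool → List Bool → Prop} {t : List Bool} {Φ : List Bool → ℝ≥0∞} (hΦ : Hered Φ) {l2 : ℕ}
    (hl2 : l2 < 2 ^ (j1 + 1)) :
    sw {g' | g' ∈ At D N W R t ∧ ∃ m r, (m ≤ l2 ∧ l2 < m + r ∧ 2 ^ e < m + r) ∧ ∃ Z ∈ BU, ∃ P ∈ Irr r, ∃ Q ∈ Brd m,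
      g' = Z ++ (P ++ Q)} Φ ≤
      ∑' r : ℕ, if 2 ^ (e - 1) < r then sw (Irr r) (fun P => sw (QQ j1) (fun Q =>
        gf {Z | Z ∈ BU ∧ Z ++ (P ++ Q) ∈ At D N W R t} * Φ (P ++ Q))) else 0 := by
  classical
  refine (cov' _ (fun r : ℕ => 2 ^ (e - 1) < r) (fun r => Irr r) (fun _ => QQ j1)
    (fun r P Q => {Z | Z ∈ BU ∧ Z ++ (P ++ Q) ∈ At D N W R t}) Φ ?_).trans ?_
  · rintro g' ⟨hA, m, r, ⟨h1, h2, h3⟩, Z, hZ, P, hP, Q, hQ, rfl⟩
    have h4 : (2 : ℕ) ^ e = 2 * 2 ^ (e - 1) := by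
      rw [← pow_succ']
      congr 1
      omega
    have h5 : (2 : ℕ) ^ (j1 + 1) ≤ 2 ^ (e - 1) := Nat.pow_le_pow_right (by norm_num) (by omega)
    exact ⟨r, by omega, P, hP, Q, ⟨m, by omega, hQ⟩, Z, ⟨hZ, hA⟩, rfl⟩
  · refine ENNReal.tsum_le_tsum fun r => ?_
    split_ifs
    · refine Rec8.sw_mono' fun P hP => Rec8.sw_mono' fun Q hQ => ?_
      rw [← Rec8.sw_one, ← Rec8.sw_mul_right]
      refine Rec8.sw_mono' fun Z hZ => ?_
      rw [one_mul]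
      exact hΦ Z hZ.1 _
    · exact le_rfl

/-- a leaf without giant at the out-level l2, decomposed at the in-level of the window j1 -/
theorem no_giant {D N k e j1 : ℕ} (he : j1 + 3 ≤ e) (hek : e ≤ k) (hD : 2 ^ (k + 4) ≤ D) {W : Set (List Bool)}
    {R : List Bool → List Bool → Prop} {t : List Bool} {Φ : List Bool → ℝ≥0∞} (hΦ : Hered Φ) {ε : ℝ}
    (hW : EZ D N e W ε) {l2 : ℕ} (hl2 : l2 < 2 ^ (j1 + 1)) {n r : ℕ} (hnr : n + r ≤ 2 ^ e) {X P : List Bool}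
    (hX : X ∈ Brd n) (hP : P ∈ Irr r) :
    sw {Z | Z ∈ BU ∧ X ++ (P ++ Z) ∈ At D N W R t ∧ ¬ ∃ m r, (m ≤ l2 ∧ l2 < m + r ∧ 2 ^ e < m + r) ∧
      ∃ Z' ∈ BU, ∃ P' ∈ Irr r, ∃ Q ∈ Brd m, X ++ (P ++ Z) = Z' ++ (P' ++ Q)} (fun Z => Φ (X ++ (P ++ Z))) ≤
      ENNReal.ofReal ε * ∑' y : ℕ × ℕ, TN5b_ind l2 y.1 y.2 * sw (Irr y.2) (fun P2 => sw (Brd y.1) (fun Q =>
        Φ (P2 ++ Q))) := by
  classical
  have hpk : (2 : ℕ) ^ (k + 4) = 16 * 2 ^ k := by ring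
  have hpe : (2 : ℕ) ^ e ≤ 2 ^ k := Nat.pow_le_pow_right (by norm_num) hek
  have hpj : (2 : ℕ) ^ (j1 + 1) ≤ 2 ^ k := Nat.pow_le_pow_right (by norm_num) (by omega)
  refine (cov' _ (fun y : ℕ × ℕ => (y.1 ≤ l2 ∧ l2 < y.1 + y.2) ∧ y.1 + y.2 ≤ 2 ^ e) (fun y => Irr y.2)
    (fun y => Brd y.1) (fun y P2 Q => {Z | Z ∈ BU ∧ X ++ (P ++ (Z ++ (P2 ++ Q))) ∈ At D N W R t}) _ ?_).trans ?_
  · rintro Z' ⟨⟨z, hz⟩, hA, hno⟩
    obtain ⟨⟨h, h1, h2, h3⟩, -⟩ := id hA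
    have h4 := Brd_height h3 (Brd_append hX (Brd_append hP.1 hz))
    have hzl : l2 < z := by omega
    obtain ⟨n', r', a, p, u, k3, k4, k5, ha, hp, hu, hZ'⟩ := jump_dec (s := z - l2 - 1) (by omega) hz
    rw [List.append_assoc] at hZ'
    subst hZ'
    refine ⟨(z - n' - r', r'), ⟨⟨by simp only; omega, by simp only; omega⟩, ?_⟩, p, hp, u, hu, a,
      ⟨⟨n', ha⟩, hA⟩, rfl⟩
    by_contra hcon
    simp only [not_le] at hcon
    refine hno ⟨z - n' - r', r', ⟨by omega, by omega, hcon⟩, X ++ (P ++ a), ⟨n + (r + n'),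
      Brd_append hX (Brd_append hP.1 ha)⟩, p, hp, u, hu, ?_⟩
    simp only [List.append_assoc]
  · rw [← ENNReal.tsum_mul_left]
    refine ENNReal.tsum_le_tsum fun y => ?_
    by_cases hy : (y.1 ≤ l2 ∧ l2 < y.1 + y.2) ∧ y.1 + y.2 ≤ 2 ^ e
    · rw [if_pos hy, TN5b_ind_one hy.1, one_mul, ← Rec8.sw_mul_left]
      refine Rec8.sw_mono' fun P2 hP2 => ?_
      rw [← Rec8.sw_mul_left]
      refine Rec8.sw_mono' fun Q hQ => ?_
      have e1 := hW X ⟨n, hX⟩ P ⟨r, hP⟩ P2 ⟨y.2, hP2⟩ Q ⟨y.1, hQ⟩ (by rw [hgt_eq hX, hgt_eq hP.1]; exact hnr)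
        (by rw [hgt_eq hP2.1, hgt_eq hQ]; omega)
      calc sw {Z | Z ∈ BU ∧ X ++ (P ++ (Z ++ (P2 ++ Q))) ∈ At D N W R t}
            (fun Z => Φ (X ++ (P ++ (Z ++ (P2 ++ Q)))))
          ≤ sw {Z | Z ∈ BU ∧ X ++ (P ++ (Z ++ (P2 ++ Q))) ∈ At D N W R t} (fun _ => 1 * Φ (P2 ++ Q)) := by
            refine Rec8.sw_mono' fun Z hZ => ?_
            rw [one_mul]
            obtain ⟨⟨z, hz⟩, -⟩ := hZ
            have e2 : X ++ (P ++ (Z ++ (P2 ++ Q))) = (X ++ (P ++ Z)) ++ (P2 ++ Q) := by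
              simp only [List.append_assoc]
            rw [e2]
            exact hΦ _ ⟨_, Brd_append hX (Brd_append hP.1 hz)⟩ _
        _ = gf {Z | Z ∈ BU ∧ X ++ (P ++ (Z ++ (P2 ++ Q))) ∈ At D N W R t} * Φ (P2 ++ Q) := by
            rw [Rec8.sw_mul_right, Rec8.sw_one]
        _ ≤ ENNReal.ofReal ε * Φ (P2 ++ Q) := by
            refine mul_le_mul_left (le_trans ?_ e1) _
            have e3 : {Z | Z ∈ BU ∧ X ++ (P ++ (Z ++ (P2 ++ Q))) ∈ At D N W R t} ⊆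
                ⋃ h, {Z | Z ∈ Brd h ∧ X ++ (P ++ (Z ++ (P2 ++ Q))) ∈ W ∧ X ++ (P ++ (Z ++ (P2 ++ Q))) ∈ BrR D N} := by
              rintro Z ⟨⟨z, hz⟩, hA⟩
              rw [Set.mem_iUnion]
              exact ⟨z, hz, hA.2.1, hA.1⟩
            exact (gf_mono e3).trans (ENNReal.tsum_iUnion_le_tsum wE _)
    · rw [if_neg hy]
      exact zero_le

end Fl

end SDN

end HexObs
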