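import Pool.Agent.Saw39.MaxMoment

/-!
SDN: from the statements on the words of the hexagonal lattice (superdiff, ball_exp) to the encoding of the frozen
statement.
-/

set_option autoImplicit false

open scoped Classical

namespace HexObs

namespace SDN

namespace ResC

open SawNu

/-- levels are bounded by distances -/
lemma lev_sq (l : List SawNu.Pt) (i : ℕ) : (((ps l i).2 : ℤ) : ℝ) ^ 2 ≤ 2 * ‖phiTri (ps l i)‖ ^ 2 := by
  have := phiTri_low (ps l i)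
  linarith

lemma rot_sq {p q : SawNu.Pt} (h : 2 * q.2 = p.1 - p.2) : ((q.2 : ℤ) : ℝ) ^ 2 ≤ 4 * ‖phiTri p‖ ^ 2 := by
  have hq : (q.2 : ℝ) = ((p.1 : ℝ) - p.2) / 2 := by
    have : (2 : ℝ) * q.2 = p.1 - p.2 := by exact_mod_cast h
    linarith
  have h3 : Real.sqrt 3 * Real.sqrt 3 = 3 := Real.mul_self_sqrt (by norm_num)
  rw [← Complex.normSq_eq_norm_sq, Complex.normSq_apply]
  simp only [phiTri, AddMonoidHom.coe_mk, ZeroHom.coe_mk]
  have e : (p.2 : ℝ) * (Real.sqrt 3 / 2) * ((p.2 : ℝ) * (Real.sqrt 3 / 2)) =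
      (p.2 : ℝ) ^ 2 * (Real.sqrt 3 * Real.sqrt 3) / 4 := by ring
  rw [e, h3, hq]
  nlinarith [sq_nonneg ((p.1 : ℝ) + p.2), sq_nonneg (p.1 : ℝ), sq_nonneg (p.2 : ℝ)]

lemma S4_le {n : ℕ} {l : List SawNu.Pt} (hl : l ∈ WS hexL n) {ρ : ℝ}
    (h : ∀ i ≤ n, ‖phiTri (ps l i)‖ ≤ ρ) : S4 hexRot l ≤ 16 * ρ ^ 2 := by
  have hl' := mem_WS.mp hl
  have hsq : ∀ i ≤ n, ‖phiTri (ps l i)‖ ^ 2 ≤ ρ ^ 2 := fun i hi => pow_le_pow_left₀ (norm_nonneg _) (h i hi) 2
  have hr : ∀ i, 2 * (ps (l.map hexRot.f) i).2 = (ps l i).1 - (ps l i).2 := by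
    intro i
    have := hexRot.ps_snd hl'.2.1 i
    simp only [hexRot] at this ⊢
    linarith
  have h1 : ((mx l : ℤ) : ℝ) ^ 2 ≤ 4 * ρ ^ 2 := by
    have ht : tip l ≤ n := by have := tip_le l; omega
    have h2 := lev_sq l (tip l)
    have h3 := hsq _ ht
    rw [mx]
    nlinarith [sq_nonneg ρ]
  have h2 : ((mx (l.map rhoH) : ℤ) : ℝ) ^ 2 ≤ 4 * ρ ^ 2 := by
    have ht : tip (l.map rhoH) ≤ n := by
      have := tip_le (l.map rhoH)
      rw [List.length_map] at this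
      omega
    have h2 := lev_sq l (tip (l.map rhoH))
    have h3 := hsq _ ht
    rw [mx, ps_map, rhoH_snd]
    push_cast
    nlinarith [sq_nonneg ρ]
  have h3 : ((mx (l.map hexRot.f) : ℤ) : ℝ) ^ 2 ≤ 4 * ρ ^ 2 := by
    have ht : tip (l.map hexRot.f) ≤ n := by
      have := tip_le (l.map hexRot.f)
      rw [List.length_map] at this
      omega
    have h2 := rot_sq (hr (tip (l.map hexRot.f)))
    have h3 := hsq _ ht
    rw [mx]
    nlinarith [sq_nonneg ρ]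
  have h4 : ((mx ((l.map hexRot.f).map rhoH) : ℤ) : ℝ) ^ 2 ≤ 4 * ρ ^ 2 := by
    have ht : tip ((l.map hexRot.f).map rhoH) ≤ n := by
      have := tip_le ((l.map hexRot.f).map rhoH)
      rw [List.length_map, List.length_map] at this
      omega
    have h2 := rot_sq (hr (tip ((l.map hexRot.f).map rhoH)))
    have h3 := hsq _ ht
    rw [mx, ps_map, rhoH_snd]
    push_cast
    nlinarith [sq_nonneg ρ]
  rw [S4]
  linarith

end ResC

open ResC SawNu in
theorem result_of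
    (hS : ∃ c : ℝ, 0 < c ∧ ∀ n : ℕ, 1 ≤ n →
      c * (n : ℝ) ^ (1 + c) ≤ (∑ l ∈ SawNu.WS SawNu.hexL n, ‖SawNu.phiTri l.sum‖ ^ 2) /
        ((SawNu.WS SawNu.hexL n).card : ℝ))
    (hB : ∃ c : ℝ, 0 < c ∧ ∀ n : ℕ, 1 ≤ n →
      (((SawNu.WS SawNu.hexL n).filter (fun l => SawNu.S4 SawNu.hexRot l ≤ c * (n : ℝ) ^ (1 + c))).card : ℝ) ≤
        c⁻¹ * Real.exp (-(n : ℝ) ^ c) * ((SawNu.WS SawNu.hexL n).card : ℝ)) :
    ∃ c : ℝ, 0 < c ∧ ∀ f : ℕ → Fin 3 → ℂ,
      (∀ i a, f i a = (-1 : ℂ) ^ i * Complex.exp (2 * (Real.pi : ℂ) * Complex.I * ((a : ℕ) : ℂ) / 3)) →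
      ∀ n : ℕ, 1 ≤ n → ∀ W : Finset (Fin n → Fin 3),
        W = Finset.univ.filter (fun s : Fin n → Fin 3 => ∀ j₁ j₂ : Fin (n + 1),
          (∑ i ∈ Finset.univ.filter (fun i : Fin n => (i : ℕ) < (j₁ : ℕ)), f (i : ℕ) (s i)) =
          (∑ i ∈ Finset.univ.filter (fun i : Fin n => (i : ℕ) < (j₂ : ℕ)), f (i : ℕ) (s i)) →
          j₁ = j₂) →
        c * (n : ℝ) ^ (1 + c) ≤ (∑ s ∈ W, ‖∑ i : Fin n, f (i : ℕ) (s i)‖ ^ 2) / (W.card : ℝ) ∧
        ((W.filter (fun s => ∀ j : Fin (n + 1),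
          ‖∑ i ∈ Finset.univ.filter (fun i : Fin n => (i : ℕ) < (j : ℕ)), f (i : ℕ) (s i)‖ ≤
            c * (n : ℝ) ^ (1 / 2 + c))).card : ℝ) ≤ c⁻¹ * Real.exp (-(n : ℝ) ^ c) * (W.card : ℝ) := by
  obtain ⟨c1, hc1, h1⟩ := hS
  obtain ⟨c2, hc2, h2⟩ := hB
  obtain ⟨c, hc, hcc1, hcc2, hcc3⟩ : ∃ c : ℝ, 0 < c ∧ c ≤ c1 ∧ c ≤ c2 / 16 ∧ c ≤ 1 := by
    refine ⟨min (min c1 (c2 / 16)) 1, by positivity, ?_, ?_, ?_⟩
    · exact (min_le_left _ _).trans (min_le_left _ _)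
    · exact (min_le_left _ _).trans (min_le_right _ _)
    · exact min_le_right _ _
  refine ⟨c, hc, fun f hf' n hn W hW => ?_⟩
  have hf : ∀ i a, f i a = encHex.φ (encHex.st i.bodd a) := fun i a => by rw [hf', hex_enc]
  have hW' : W = Finset.univ.filter (fun s : Fin n → Fin 3 => SAC f n s) := by
    rw [hW]
    ext s
    rw [Finset.mem_filter, Finset.mem_filter]
    exact Iff.rfl
  have hnR : (1 : ℝ) ≤ n := by exact_mod_cast hn
  have hcard : (W.card : ℝ) = ((WS hexL n).card : ℝ) := by rw [hW', encHex.bridge_card hf n]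
  have hsum : ∑ s ∈ W, ‖∑ i : Fin n, f (i : ℕ) (s i)‖ ^ 2 = ∑ l ∈ WS hexL n, ‖phiTri l.sum‖ ^ 2 := by
    rw [hW', encHex.bridge hf n (fun z => ‖z‖ ^ 2)]
    rfl
  constructor
  · rw [hsum, hcard]
    refine le_trans ?_ (h1 n hn)
    apply mul_le_mul hcc1 _ (by positivity) hc1.le
    exact Real.rpow_le_rpow_of_exponent_le hnR (by linarith)
  · have hle : (W.filter (fun s => ∀ j : Fin (n + 1),
          ‖∑ i ∈ Finset.univ.filter (fun i : Fin n => (i : ℕ) < (j : ℕ)), f (i : ℕ) (s i)‖ ≤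
            c * (n : ℝ) ^ (1 / 2 + c))).card ≤
        ((WS hexL n).filter (fun l => S4 hexRot l ≤ c2 * (n : ℝ) ^ (1 + c2))).card := by
      apply Finset.card_le_card_of_injOn encHex.word
      · intro s hs
        rw [Finset.mem_coe, Finset.mem_filter, hW', Finset.mem_filter] at hs
        rw [Finset.mem_coe, Finset.mem_filter]
        have hmem : encHex.word s ∈ WS hexL n := by
          rw [mem_WS]
          exact ⟨encHex.word_length s, encHex.word_tw s, (encHex.word_sa s hf).mp hs.1.2⟩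
        refine ⟨hmem, ?_⟩
        have h3 := S4_le hmem (ρ := c * (n : ℝ) ^ (1 / 2 + c)) (by
          intro i hi
          have := hs.2 ⟨i, by omega⟩
          rw [← encHex.word_ps s hf] at this
          exact this)
        refine h3.trans ?_
        have h4 : (c * (n : ℝ) ^ (1 / 2 + c)) ^ 2 = c ^ 2 * (n : ℝ) ^ (1 + 2 * c) := by
          rw [mul_pow, ← Real.rpow_natCast ((n : ℝ) ^ (1 / 2 + c)) 2, ← Real.rpow_mul (by positivity)]
          congr 2
          push_cast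
          ring
        rw [h4]
        have h5 : (n : ℝ) ^ (1 + 2 * c) ≤ (n : ℝ) ^ (1 + c2) :=
          Real.rpow_le_rpow_of_exponent_le hnR (by linarith)
        have h6 : 16 * c ^ 2 ≤ c2 := by nlinarith
        calc 16 * (c ^ 2 * (n : ℝ) ^ (1 + 2 * c)) = (16 * c ^ 2) * (n : ℝ) ^ (1 + 2 * c) := by ring
          _ ≤ c2 * (n : ℝ) ^ (1 + c2) := mul_le_mul h6 h5 (by positivity) hc2.le
      · intro s _ s' _ h
        exact encHex.word_inj h
    have hle' : ((W.filter (fun s => ∀ j : Fin (n + 1),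
          ‖∑ i ∈ Finset.univ.filter (fun i : Fin n => (i : ℕ) < (j : ℕ)), f (i : ℕ) (s i)‖ ≤
            c * (n : ℝ) ^ (1 / 2 + c))).card : ℝ) ≤
        (((WS hexL n).filter (fun l => S4 hexRot l ≤ c2 * (n : ℝ) ^ (1 + c2))).card : ℝ) := by exact_mod_cast hle
    refine hle'.trans ((h2 n hn).trans ?_)
    rw [hcard]
    apply mul_le_mul_of_nonneg_right _ (Nat.cast_nonneg _)
    apply mul_le_mul _ _ (Real.exp_pos _).le (by positivity)
    · exact inv_anti₀ hc (by linarith)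
    · apply Real.exp_le_exp.mpr
      apply neg_le_neg
      exact Real.rpow_le_rpow_of_exponent_le hnR (by linarith)

end SDN

end HexObs
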