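import Pool.Agent.SDN.Dim1Defs
import Pool.Agent.SDN.Hyst
import Pool.Agent.SDN.AltLe
import Pool.Agent.PHW.Base

/-!
SDN, limit version, lower bound of the dimension (board/DIM1), module I: the truncated variation grows when the
hysteresis decreases, and the number of the folds is large.
-/

set_option autoImplicit false

namespace HexObs

namespace SDN

open Finset TS

section TvGrow

variable {f : ℕ → ℤ} {n : ℕ} {R : ℤ} {m u : ℕ} {e : ℕ → ℕ}

/-- truncated variation of the first K pieces -/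
def tT (f : ℕ → ℤ) (R : ℤ) (u : ℕ) (e : ℕ → ℕ) (K : ℕ) : ℤ :=
  ∑ j ∈ range K, (Tight.sg (u + j) (f (e (j + 1))) - Tight.sg (u + j) (f (e j)) - R)

/-- potential of the time y in the piece number K, next move in the direction w -/
def tP (f : ℕ → ℤ) (R : ℤ) (u : ℕ) (e : ℕ → ℕ) (K w y : ℕ) : ℤ :=
  tT f R u e K + (Tight.sg (u + K) (f y) - Tight.sg (u + K) (f (e K))) - (if Even (u + K) ↔ Even w then 0 else R)

/-- y belongs to the piece number K; the piece number m is the last fold -/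
def InP (e : ℕ → ℕ) (m K y : ℕ) : Prop := e K ≤ y ∧ ((K < m ∧ y ≤ e (K + 1)) ∨ (K = m ∧ y = e m))

lemma tT_succ (K : ℕ) : tT f R u e (K + 1) =
    tT f R u e K + (Tight.sg (u + K) (f (e (K + 1))) - Tight.sg (u + K) (f (e K)) - R) := by
  unfold tT
  rw [sum_range_succ]

lemma tT_mono (h : Hyst f n R m u e) {j k : ℕ} (hjk : j ≤ k) (hk : k ≤ m) : tT f R u e j ≤ tT f R u e k := by
  obtain ⟨d, rfl⟩ := Nat.exists_eq_add_of_le hjk
  have : ∀ d', d' ≤ d → tT f R u e j ≤ tT f R u e (j + d') := by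
    intro d'
    induction d' with
    | zero => intro _; exact le_rfl
    | succ d' ih =>
      intro hd'
      have a1 := ih (by omega)
      have a2 := h.big (j + d') (by omega)
      rw [← add_assoc, tT_succ]
      omega
  exact this d le_rfl

lemma tT_zero : tT f R u e 0 = 0 := by
  unfold tT
  rw [range_zero, sum_empty]

lemma tT_nonneg (h : Hyst f n R m u e) {k : ℕ} (hk : k ≤ m) : 0 ≤ tT f R u e k := by
  have := tT_mono h (Nat.zero_le k) hk
  rwa [tT_zero] at this

lemma tT_tv (h : Hyst f n R m u e) (h0 : 0 ≤ R) : tT f R u e m = tv f m e - m * R := by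
  unfold tT tv
  rw [sum_sub_distrib, sum_const, card_range, nsmul_eq_mul]
  congr 1
  apply sum_congr rfl
  intro j hj
  have h1 := h.big j (mem_range.1 hj)
  unfold Tight.sg at h1 ⊢
  split_ifs at h1 ⊢ with hp
  · rw [abs_of_nonpos (by omega)]
    ring
  · rw [abs_of_nonneg (by omega)]

lemma start_pos (h : Hyst f n R m u e) : 0 < R := by
  have := h.start 0 0 (Nat.zero_le _) (Nat.zero_le _)
  omega

/-- up to the fold number K -/
lemma tP_fold (h : Hyst f n R m u e) (w : ℕ) {J x : ℕ} (hJ : J < m) (h1 : e J ≤ x) (h2 : x ≤ e (J + 1)) (d : ℕ) :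
    J + 1 + d ≤ m → Tight.sg w (f (e (J + 1 + d))) - Tight.sg w (f x) - R ≤
      tP f R u e (J + 1 + d) (w + 1) (e (J + 1 + d)) - tP f R u e J w x := by
  have hR := start_pos h
  induction d with
  | zero =>
    intro _
    have hhi := h.hi J hJ x h1 h2
    unfold tP
    rw [add_zero, tT_succ]
    unfold Tight.sg at hhi ⊢
    simp only [← add_assoc, Nat.even_add_one]
    by_cases hp : Even (u + J) <;> by_cases hw : Even w <;>
      simp only [hp, hw, not_true_eq_false, not_false_eq_true, if_true, if_false, iff_true,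
        iff_false] at hhi ⊢ <;> omega
  | succ d ih =>
    intro hd
    have a1 := ih (by omega)
    have hbig := h.big (J + 1 + d) (by omega)
    unfold tP at a1 ⊢
    rw [← add_assoc (J + 1) d 1, tT_succ]
    unfold Tight.sg at a1 hbig ⊢
    simp only [← add_assoc, Nat.even_add_one] at a1 hbig ⊢
    generalize hT : tT f R u e (J + 1 + d) = T1 at *
    by_cases hp : Even (u + J + 1 + d) <;> by_cases hq : Even (u + J) <;> by_cases hw : Even w <;>
      simp only [hp, hq, hw, not_true_eq_false, not_false_eq_true, if_true, if_false, iff_true,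
        iff_false] at a1 hbig ⊢ <;> omega

/-- sign facts: two parities -/
lemma sg_cases (k w : ℕ) (x y : ℤ) : ((Even k ↔ Even w) ∧ Tight.sg w x - Tight.sg w y = Tight.sg k x - Tight.sg k y) ∨
    (¬ (Even k ↔ Even w) ∧ Tight.sg w x - Tight.sg w y = -(Tight.sg k x - Tight.sg k y)) := by
  by_cases h : Even k ↔ Even w
  · left
    refine ⟨h, ?_⟩
    rw [sg_par h, sg_par h]
  · right
    refine ⟨h, ?_⟩
    rw [sg_opp h, sg_opp h]
    ring

lemma piece_nonneg (h : Hyst f n R m u e) {J y : ℕ} (hJ : J < m) (h1 : e J ≤ y) (h2 : y ≤ e (J + 1)) :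
    0 ≤ Tight.sg (u + J) (f y) - Tight.sg (u + J) (f (e J)) := by
  rcases Nat.eq_or_lt_of_le h1 with h3 | h3
  · rw [← h3]
    omega
  · have := h.lo J hJ y h3 h2
    omega

lemma tP_move (h : Hyst f n R m u e) (w : ℕ) {J J' x y : ℕ} (hx : InP e m J x) (hy : InP e m J' y) (hJJ : J ≤ J')
    (hxy : x ≤ y) :
    Tight.sg w (f y) - Tight.sg w (f x) - R ≤ tP f R u e J' (w + 1) y - tP f R u e J w x := by
  have hR := start_pos h
  obtain ⟨hx1, hx2⟩ := hx
  obtain ⟨hy1, hy2⟩ := hy
  rcases Nat.eq_or_lt_of_le hJJ with hEq | hLt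
  · subst hEq
    unfold tP
    have hsm : Tight.sg (u + J) (f x) - Tight.sg (u + J) (f y) < R := by
      rcases hx2 with ⟨a1, a2⟩ | ⟨a1, a2⟩
      · rcases hy2 with ⟨b1, b2⟩ | ⟨b1, b2⟩
        · exact h.small J a1 x y hx1 hxy b2
        · omega
      · rcases hy2 with ⟨b1, b2⟩ | ⟨b1, b2⟩
        · omega
        · rw [a2, b2]
          omega
    rcases sg_cases (u + J) w (f y) (f x) with ⟨c1, c2⟩ | ⟨c1, c2⟩
    · rw [c2, if_pos c1, if_neg (by rw [Nat.even_add_one]; tauto)]
      omega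
    · rw [c2, if_neg c1, if_pos (by rw [Nat.even_add_one]; tauto)]
      omega
  · have hJm : J < m := by
      rcases hy2 with ⟨b1, b2⟩ | ⟨b1, b2⟩ <;> omega
    have hx3 : x ≤ e (J + 1) := by
      rcases hx2 with ⟨a1, a2⟩ | ⟨a1, a2⟩
      · exact a2
      · omega
    obtain ⟨d, rfl⟩ : ∃ d, J' = J + 1 + d := ⟨J' - (J + 1), by omega⟩
    have hJ'm : J + 1 + d ≤ m := by
      rcases hy2 with ⟨b1, b2⟩ | ⟨b1, b2⟩ <;> omega
    have a1 := tP_fold h w hJm hx1 hx3 d hJ'm
    rcases hy2 with ⟨b1, b2⟩ | ⟨b1, b2⟩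
    · have a2 := piece_nonneg h b1 hy1 b2
      have a3 : tP f R u e (J + 1 + d) (w + 1) y = tP f R u e (J + 1 + d) (w + 1) (e (J + 1 + d)) +
          (Tight.sg (u + (J + 1 + d)) (f y) - Tight.sg (u + (J + 1 + d)) (f (e (J + 1 + d)))) := by
        unfold tP
        ring
      rcases sg_cases (u + (J + 1 + d)) w (f y) (f (e (J + 1 + d))) with ⟨c1, c2⟩ | ⟨c1, c2⟩ <;> omega
    · rw [b2, ← b1]
      exact a1

/-- from the first fold -/
lemma tP_start (h : Hyst f n R m u e) (w : ℕ) {J y : ℕ} (hy : InP e m J y) :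
    Tight.sg w (f y) - Tight.sg w (f (e 0)) ≤ R + tP f R u e J (w + 1) y := by
  have hR := start_pos h
  rcases Nat.eq_zero_or_pos J with h0 | h0
  · subst h0
    obtain ⟨hy1, hy2⟩ := hy
    have hq : 0 ≤ Tight.sg (u + 0) (f y) - Tight.sg (u + 0) (f (e 0)) := by
      rcases hy2 with ⟨b1, b2⟩ | ⟨b1, b2⟩
      · exact piece_nonneg h b1 hy1 b2
      · rw [b2, ← b1]
        omega
    unfold tP
    rw [tT_zero]
    rcases sg_cases (u + 0) w (f y) (f (e 0)) with ⟨c1, c2⟩ | ⟨c1, c2⟩
    · rw [c2, if_neg (by rw [Nat.even_add_one]; tauto)]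
      omega
    · rw [c2, if_pos (by rw [Nat.even_add_one]; tauto)]
      omega
  · have hJm : J ≤ m := by
      rcases hy.2 with ⟨b1, b2⟩ | ⟨b1, b2⟩ <;> omega
    have hm : 0 < m := by omega
    have hl0 := h.lt 0 hm
    have hbig := h.big 0 hm
    have he1y : e 1 ≤ y := (h.mono h0 hJm).trans hy.1
    have he0y : e 0 ≤ y := (h.mono (Nat.zero_le J) hJm).trans hy.1
    rw [zero_add] at hl0 hbig
    rcases sg_cases (u + 0) w (f (e 1)) (f (e 0)) with ⟨c1, c2⟩ | ⟨c1, c2⟩
    · have hI : InP e m 0 (e 0) := ⟨le_rfl, Or.inl ⟨hm, by rw [zero_add]; exact hl0.le⟩⟩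
      have a1 := tP_move h w hI hy (Nat.zero_le J) he0y
      have a2 : tP f R u e 0 w (e 0) = 0 := by
        unfold tP
        rw [tT_zero, if_pos c1]
        ring
      omega
    · have hI : InP e m 1 (e 1) := by
        refine ⟨le_rfl, ?_⟩
        rcases Nat.lt_or_ge 1 m with h2 | h2
        · exact Or.inl ⟨h2, (h.lt 1 h2).le⟩
        · have : m = 1 := by omega
          right
          exact ⟨this.symm, by rw [this]⟩
      have a1 := tP_move h w hI hy h0 he1y
      have a2 : tP f R u e 1 w (e 1) = Tight.sg (u + 0) (f (e 1)) - Tight.sg (u + 0) (f (e 0)) - R := by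
        unfold tP
        have e1 := tT_succ (f := f) (R := R) (u := u) (e := e) 0
        rw [zero_add] at e1
        rw [e1, tT_zero, if_pos (by rw [Nat.even_add_one]; rw [add_zero] at c1; tauto)]
        ring
      omega

lemma tP_le (h : Hyst f n R m u e) (w : ℕ) {J y : ℕ} (hy : InP e m J y) : tP f R u e J w y ≤ tT f R u e m + R := by
  have hR := start_pos h
  obtain ⟨hy1, hy2⟩ := hy
  have hif : (0 : ℤ) ≤ if (Even (u + J) ↔ Even w) then 0 else R := by
    split_ifs
    · exact le_rfl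
    · exact hR.le
  unfold tP
  rcases hy2 with ⟨b1, b2⟩ | ⟨b1, b2⟩
  · have a1 := h.hi J b1 y hy1 b2
    have a2 := tT_mono h (show J + 1 ≤ m by omega) le_rfl
    rw [tT_succ] at a2
    omega
  · rw [b2, ← b1]
    omega

lemma tP_end_le (w : ℕ) (hR : 0 ≤ R) : tP f R u e m w (e m) ≤ tT f R u e m := by
  have hif : (0 : ℤ) ≤ if (Even (u + m) ↔ Even w) then 0 else R := by
    split_ifs
    · exact le_rfl
    · exact hR
  unfold tP
  omega

/-- ALTERNATING DISPLACEMENTS: truncated variation of any sequence of times -/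
theorem alt_tv (h : Hyst f n R m u e) (v : ℕ) (i : ℕ → ℕ) (k : ℕ) (hi : ∀ a, a < k → i a ≤ i (a + 1)) (hn : i k ≤ n) :
    ∑ a ∈ range k, (Tight.sg (v + a) (f (i (a + 1))) - Tight.sg (v + a) (f (i a)) - R) ≤ tT f R u e m + 2 * R := by
  have hR := start_pos h
  have hik : ∀ a, a ≤ k → i a ≤ n := by
    intro a ha
    obtain ⟨d, rfl⟩ := Nat.exists_eq_add_of_le ha
    have : ∀ d', d' ≤ d → i a ≤ i (a + d') := by
      intro d'
      induction d' with
      | zero => intro _; exact le_rfl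
      | succ d' ih =>
        intro hd'
        have a1 := ih (by omega)
        have a2 := hi (a + d') (by omega)
        rw [← add_assoc]
        omega
    exact (this d le_rfl).trans hn
  -- position of a time
  have pos : ∀ J0 x y, InP e m J0 x → x ≤ y → y ≤ e m → ∃ J, J0 ≤ J ∧ InP e m J y := by
    intro J0 x y hx hxy hym
    have hJ0 : J0 ≤ m := by
      rcases hx.2 with ⟨b1, b2⟩ | ⟨b1, b2⟩ <;> omega
    have hJe : e J0 ≤ y := hx.1.trans hxy
    refine ⟨Nat.findGreatest (fun j => e j ≤ y) m, Nat.le_findGreatest hJ0 hJe, ?_, ?_⟩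
    · exact Nat.findGreatest_spec (P := fun j => e j ≤ y) hJ0 hJe
    · have hle := Nat.findGreatest_le (P := fun j => e j ≤ y) m
      rcases Nat.eq_or_lt_of_le hle with h1 | h1
      · right
        refine ⟨h1, ?_⟩
        have := Nat.findGreatest_spec (P := fun j => e j ≤ y) hJ0 hJe
        rw [h1] at this
        exact le_antisymm hym this
      · left
        refine ⟨h1, ?_⟩
        have := Nat.findGreatest_is_greatest (P := fun j => e j ≤ y) (Nat.lt_add_one _) (Nat.succ_le_of_lt h1)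
        exact (not_le.1 this).le
  have pos0 : ∀ y, e 0 ≤ y → y ≤ e m → ∃ J, InP e m J y := by
    intro y hy hym
    have hI : InP e m 0 (e 0) := by
      refine ⟨le_rfl, ?_⟩
      rcases Nat.eq_zero_or_pos m with h2 | h2
      · right
        exact ⟨h2.symm, by rw [h2]⟩
      · left
        exact ⟨h2, (h.lt 0 h2).le⟩
    obtain ⟨J, -, hJ⟩ := pos 0 (e 0) y hI hy hym
    exact ⟨J, hJ⟩
  have hIm : InP e m m (e m) := ⟨le_rfl, Or.inr ⟨rfl, rfl⟩⟩
  have hTm := tT_nonneg h le_rfl
  have inv : ∀ k', k' ≤ k →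
      (i k' ≤ e 0 ∧ ∑ a ∈ range k', (Tight.sg (v + a) (f (i (a + 1))) - Tight.sg (v + a) (f (i a)) - R) ≤ 0) ∨
      (∃ J, InP e m J (i k') ∧ ∑ a ∈ range k', (Tight.sg (v + a) (f (i (a + 1))) - Tight.sg (v + a) (f (i a)) - R) ≤
        R + tP f R u e J (v + k') (i k')) ∨
      (e m ≤ i k' ∧ ∑ a ∈ range k', (Tight.sg (v + a) (f (i (a + 1))) - Tight.sg (v + a) (f (i a)) - R) ≤
        tT f R u e m + 2 * R) := by
    intro k'
    induction k' with
    | zero =>
      intro _
      rw [range_zero, sum_empty, add_zero]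
      rcases Nat.lt_or_ge (e 0) (i 0) with h1 | h1
      · rcases Nat.lt_or_ge (i 0) (e m) with h2 | h2
        · right; left
          obtain ⟨J, hJ⟩ := pos0 (i 0) h1.le h2.le
          refine ⟨J, hJ, ?_⟩
          have hJm : J ≤ m := by
            rcases hJ.2 with ⟨b1, b2⟩ | ⟨b1, b2⟩ <;> omega
          have a1 := tT_nonneg h hJm
          have a2 : 0 ≤ Tight.sg (u + J) (f (i 0)) - Tight.sg (u + J) (f (e J)) := by
            rcases hJ.2 with ⟨b1, b2⟩ | ⟨b1, b2⟩
            · exact piece_nonneg h b1 hJ.1 b2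
            · rw [b2, ← b1]
              omega
          have hif : (if (Even (u + J) ↔ Even v) then (0 : ℤ) else R) ≤ R := by
            split_ifs
            · exact hR.le
            · exact le_rfl
          unfold tP
          omega
        · right; right
          exact ⟨h2, by omega⟩
      · left
        exact ⟨h1, le_rfl⟩
    | succ k' ih =>
      intro hk
      have hlt : k' < k := by omega
      have hxy := hi k' hlt
      have hyn := hik (k' + 1) hk
      rw [sum_range_succ]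
      generalize hS : ∑ a ∈ range k', (Tight.sg (v + a) (f (i (a + 1))) - Tight.sg (v + a) (f (i a)) - R) = S at ih ⊢
      generalize hx : i k' = x at *
      generalize hy : i (k' + 1) = y at *
      rw [← add_assoc]
      generalize hw : v + k' = w at *
      rcases ih (by omega) with ⟨c1, c2⟩ | ⟨J, cJ, c2⟩ | ⟨c1, c2⟩
      · -- from the start zone
        have hxs := h.start_sg w (x := x) (y := e 0) c1 le_rfl
        rcases Nat.lt_or_ge (e 0) y with h1 | h1
        · rcases Nat.lt_or_ge y (e m) with h2 | h2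
          · right; left
            obtain ⟨J, hJ⟩ := pos0 y h1.le h2.le
            refine ⟨J, hJ, ?_⟩
            have a1 := tP_start h w hJ
            omega
          · right; right
            refine ⟨h2, ?_⟩
            have a1 := tP_start h w hIm
            have a2 := tP_end_le (f := f) (u := u) (m := m) (e := e) (w + 1) hR.le
            have a3 := h.fin_sg w (x := e m) (y := y) le_rfl h.le h2 hyn
            omega
        · left
          refine ⟨h1, ?_⟩
          have a1 := h.start_sg w (x := x) (y := y) c1 h1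
          omega
      · -- from a piece
        rcases Nat.lt_or_ge y (e m) with h2 | h2
        · right; left
          obtain ⟨J', hJJ, hJ'⟩ := pos J x y cJ hxy h2.le
          refine ⟨J', hJ', ?_⟩
          have a1 := tP_move h w cJ hJ' hJJ hxy
          omega
        · right; right
          refine ⟨h2, ?_⟩
          have hJm : J ≤ m := by
            rcases cJ.2 with ⟨b1, b2⟩ | ⟨b1, b2⟩ <;> omega
          have hxm : x ≤ e m := by
            rcases cJ.2 with ⟨b1, b2⟩ | ⟨b1, b2⟩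
            · exact b2.trans (h.mono (by omega) le_rfl)
            · exact b2.le
          have a1 := tP_move h w cJ hIm hJm hxm
          have a2 := tP_end_le (f := f) (u := u) (m := m) (e := e) (w + 1) hR.le
          have a3 := h.fin_sg w (x := e m) (y := y) le_rfl h.le h2 hyn
          omega
      · -- from the end zone
        right; right
        refine ⟨by omega, ?_⟩
        have a3 := h.fin_sg w (x := x) (y := y) c1 (hxy.trans hyn) (by omega) hyn
        omega
  rcases inv k le_rfl with ⟨c1, c2⟩ | ⟨J, cJ, c2⟩ | ⟨c1, c2⟩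
  · omega
  · have := tP_le h (v + k) cJ
    omega
  · exact c2

/-- the folds of the smaller hysteresis give the largest truncated variation -/
theorem tv_opt {f : ℕ → ℤ} {n m1 u1 m2 u2 : ℕ} {R1 R2 : ℤ} {e1 e2 : ℕ → ℕ} (h0 : 0 ≤ R1) (hR : R1 ≤ R2)
    (h1 : Hyst f n R1 m1 u1 e1) (h2 : Hyst f n R2 m2 u2 e2) : tv f m2 e2 - m2 * R1 ≤ tv f m1 e1 - m1 * R1 + 2 * R1 := by
  have a1 := alt_tv h1 u2 e2 m2 (fun a ha => (h2.lt a ha).le) h2.le
  rw [tT_tv h1 h0] at a1
  refine le_trans (le_of_eq ?_) a1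
  unfold tv
  rw [sum_sub_distrib, sum_const, card_range, nsmul_eq_mul]
  congr 1
  apply sum_congr rfl
  intro j hj
  have h3 := h2.big j (mem_range.1 hj)
  unfold Tight.sg at h3 ⊢
  split_ifs at h3 ⊢ with hp
  · rw [abs_of_nonpos (by omega)]
    ring
  · rw [abs_of_nonneg (by omega)]

theorem tv_top {f : ℕ → ℤ} {n m u : ℕ} {R : ℤ} {e : ℕ → ℕ} (h0 : 0 ≤ R) (h : Hyst f n R m u e) {i i' : ℕ} (hi : i ≤ i')
    (hn : i' ≤ n) : |f i' - f i| - R ≤ tv f m e - m * R + 2 * R := by
  have key : ∀ v : ℕ, Tight.sg v (f i') - Tight.sg v (f i) - R ≤ tv f m e - m * R + 2 * R := by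
    intro v
    have a1 := alt_tv h v (fun a => if a = 0 then i else i') 1 (by
      intro a ha
      have : a = 0 := by omega
      subst this
      simpa using hi) (by simpa using hn)
    rw [tT_tv h h0, sum_range_one] at a1
    simpa using a1
  have k0 := key 0
  have k1 := key 1
  rw [Tight.sg_zero, Tight.sg_zero] at k0
  rw [Tight.sg_one, Tight.sg_one] at k1
  rcases abs_cases (f i' - f i) with h2 | h2 <;> omega

/-- one scale down: the truncated variation grows by a factor -/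
lemma tv_grow_step {A : ℝ} (hA : 1 ≤ A) {T b : ℕ} {t : List Bool} {m1 u1 m2 u2 : ℕ} {e1 e2 : ℕ → ℕ}
    (h1 : Lf false b t m1 u1 e1) (h2 : Lf false (b + 1) t m2 u2 e2) (hT : 100 * A * 2 ^ (b + 1) ≤ T)
    (htv : (tv (lev t) m2 e2 : ℝ) < A * (2 ^ (b + 1) * m2))
    (hv : (T : ℝ) ≤ tv (lev t) m2 e2 - m2 * (RR (b + 1) : ℤ)) :
    (1 + 1 / A) * ((tv (lev t) m2 e2 : ℝ) - m2 * (RR (b + 1) : ℤ)) ≤ (tv (lev t) m1 e1 : ℝ) - m1 * (RR b : ℤ) := by
  have hA0 : 0 < A := by linarith
  have hRb : (0 : ℤ) ≤ RR b := by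
    unfold RR
    have : (1 : ℤ) ≤ 2 ^ b := one_le_pow₀ (by norm_num)
    omega
  have hRR : RR (b + 1) = RR b + 3 * 2 ^ b := by
    unfold RR
    rw [pow_succ]
    ring
  have hle : RR b ≤ RR (b + 1) := by
    have : (0 : ℤ) ≤ 2 ^ b := by positivity
    omega
  have h3 := tv_opt hRb hle h1 h2
  have e1' : (fun i => lvl false (vx oo up t i)) = lev t := rfl
  rw [e1'] at h3
  have h4 : ((tv (lev t) m2 e2 : ℝ) - m2 * (RR b : ℤ)) ≤ (tv (lev t) m1 e1 : ℝ) - m1 * (RR b : ℤ) + 2 * (RR b : ℤ) := by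
    exact_mod_cast h3
  have hRc : ((RR (b + 1) : ℤ) : ℝ) = (RR b : ℤ) + 3 * 2 ^ b := by
    rw [hRR]
    push_cast
    ring
  have hRb2 : ((RR b : ℤ) : ℝ) ≤ 3 * 2 ^ b := by
    unfold RR
    push_cast
    linarith
  have hp : (0 : ℝ) < 2 ^ b := by positivity
  have hp1 : (2 : ℝ) ^ (b + 1) = 2 * 2 ^ b := by rw [pow_succ]; ring
  set v : ℝ := (tv (lev t) m2 e2 : ℝ) - m2 * (RR (b + 1) : ℤ) with hvdef
  have hm2 : (0 : ℝ) ≤ m2 := Nat.cast_nonneg _
  have hRb0 : (0 : ℝ) ≤ ((RR b : ℤ) : ℝ) := by exact_mod_cast hRb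
  have hvtv : v ≤ (tv (lev t) m2 e2 : ℝ) := by
    rw [hvdef, hRc]
    have : 0 ≤ (m2 : ℝ) * (((RR b : ℤ) : ℝ) + 3 * 2 ^ b) := by positivity
    linarith
  -- 3 * 2 ^ b * m2 is at least (3 / 2) v / A
  have h5 : v < A * (2 * 2 ^ b * m2) := by
    rw [hp1] at htv
    linarith
  have h6 : v / A ≤ 2 * 2 ^ b * m2 := by
    rw [div_le_iff₀ hA0]
    nlinarith
  have h7 : 100 * (2 : ℝ) ^ (b + 1) ≤ v / A := by
    rw [le_div_iff₀ hA0]
    nlinarith
  have h8 : (tv (lev t) m2 e2 : ℝ) - m2 * (RR b : ℤ) = v + 3 * 2 ^ b * m2 := by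
    rw [hvdef, hRc]
    ring
  have h9 : (1 + 1 / A) * v = v + v / A := by
    field_simp
  rw [h9]
  rw [hp1] at h7
  nlinarith

theorem leaves_low : ∀ A : ℝ, 1 ≤ A → ∃ c η : ℝ, 0 < c ∧ 0 < η ∧ ∀ (T b1 b2 : ℕ) (t : List Bool), t ∈ Brd T → 1 ≤ b1 →
    b1 ≤ b2 → 100 * A * 2 ^ b2 ≤ T →
    (∀ b m u e, b1 ≤ b → b ≤ b2 → 1 ≤ m → Lf false b t m u e → (tv (lev t) m e : ℝ) < A * (2 ^ b * m)) →
    ∀ m u e, Lf false b1 t m u e → c * (T / 2 ^ b2) * (2 : ℝ) ^ ((1 + η) * ((b2 : ℝ) - b1)) ≤ m := by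
  intro A hA
  have hA0 : 0 < A := by linarith
  have hq : 1 < 1 + 1 / A := by
    have : 0 < 1 / A := by positivity
    linarith
  refine ⟨1 / A, Real.logb 2 (1 + 1 / A), by positivity, Real.logb_pos (by norm_num) hq, ?_⟩
  intro T b1 b2 t ht hb1 hb12 hT hall
  have hlast : lev t t.length = 3 * T := (mem_Brd.1 ht).2.2.2
  have hT2 : 100 * A * 2 ^ b2 ≤ T := hT
  -- lower bound of the truncated variation at the scale b
  have hlow : ∀ b m u e, b ≤ b2 → Lf false b t m u e → (T : ℝ) ≤ (tv (lev t) m e : ℝ) - m * (RR b : ℤ) := by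
    intro b m u e hb h
    have hRb : (0 : ℤ) ≤ RR b := by
      unfold RR
      have : (1 : ℤ) ≤ 2 ^ b := one_le_pow₀ (by norm_num)
      omega
    have h3 : |lev t t.length - lev t 0| - RR b ≤ tv (lev t) m e - m * RR b + 2 * RR b :=
      tv_top hRb h (Nat.zero_le t.length) le_rfl
    rw [hlast, lev_zero] at h3
    have h4 : |(3 * (T : ℤ)) - 0| = 3 * T := by
      rw [sub_zero, abs_of_nonneg (by positivity)]
    rw [h4] at h3
    have h5 : (3 * (T : ℝ)) - (RR b : ℤ) ≤ (tv (lev t) m e : ℝ) - m * (RR b : ℤ) + 2 * (RR b : ℤ) := by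
      exact_mod_cast h3
    have hRb2 : ((RR b : ℤ) : ℝ) ≤ 3 * 2 ^ b := by
      unfold RR
      push_cast
      linarith
    have h6 : (2 : ℝ) ^ b ≤ 2 ^ b2 := pow_le_pow_right₀ (by norm_num) hb
    have h7 : 100 * (2 : ℝ) ^ b2 ≤ T := by
      have : (1 : ℝ) * 2 ^ b2 ≤ A * 2 ^ b2 := mul_le_mul_of_nonneg_right hA (by positivity)
      nlinarith
    have h8 : (0 : ℝ) < 2 ^ b2 := by positivity
    linarith
  -- growth
  have hgrow : ∀ d, b1 + d ≤ b2 → ∀ m u e, Lf false (b2 - d) t m u e →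
      (1 + 1 / A) ^ d * (T : ℝ) ≤ (tv (lev t) m e : ℝ) - m * (RR (b2 - d) : ℤ) := by
    intro d
    induction d with
    | zero =>
      intro _ m u e h
      rw [pow_zero, one_mul]
      exact hlow (b2 - 0) m u e (by omega) h
    | succ d ih =>
      intro hd m u e h
      obtain ⟨b, hb⟩ : ∃ b, b2 - (d + 1) = b := ⟨_, rfl⟩
      have hbd : b2 - d = b + 1 := by omega
      rw [hb] at h ⊢
      obtain ⟨m2, u2, e2, h2⟩ := lf_exists false (b + 1) t
      have a1 := ih (by omega) m2 u2 e2 (by rw [hbd]; exact h2)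
      rw [hbd] at a1
      have a2 := hlow (b + 1) m2 u2 e2 (by omega) h2
      have hm2 : 1 ≤ m2 := by
        by_contra hc
        have h0 : m2 = 0 := by omega
        subst h0
        unfold tv at a2
        rw [range_zero, sum_empty] at a2
        have hp : (0 : ℝ) < 100 * A * 2 ^ b2 := by positivity
        push_cast at a2
        linarith
      have a3 := hall (b + 1) m2 u2 e2 (by omega) (by omega) hm2 h2
      have hTb : 100 * A * (2 : ℝ) ^ (b + 1) ≤ T := by
        refine le_trans ?_ hT2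
        have : (2 : ℝ) ^ (b + 1) ≤ 2 ^ b2 := pow_le_pow_right₀ (by norm_num) (by omega)
        nlinarith
      have a4 := tv_grow_step hA h h2 hTb a3 a2
      refine le_trans ?_ a4
      rw [pow_succ]
      have : (1 + 1 / A) ^ d * (1 + 1 / A) * (T : ℝ) = (1 + 1 / A) * ((1 + 1 / A) ^ d * T) := by ring
      rw [this]
      exact mul_le_mul_of_nonneg_left a1 (by linarith)
  intro m u e h
  obtain ⟨d, rfl⟩ : ∃ d, b2 = b1 + d := ⟨b2 - b1, by omega⟩
  have a1 := hgrow d le_rfl m u e (by rw [show b1 + d - d = b1 by omega]; exact h)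
  rw [show b1 + d - d = b1 by omega] at a1
  have hTpos : (0 : ℝ) < T := lt_of_lt_of_le (by positivity) hT2
  have hqd : (0 : ℝ) < (1 + 1 / A) ^ d := by positivity
  have hRb : (0 : ℤ) ≤ RR b1 := by
    unfold RR
    have : (1 : ℤ) ≤ 2 ^ b1 := one_le_pow₀ (by norm_num)
    omega
  have hRb0 : (0 : ℝ) ≤ ((RR b1 : ℤ) : ℝ) := by exact_mod_cast hRb
  have hm1 : 1 ≤ m := by
    by_contra hc
    have h0 : m = 0 := by omega
    subst h0
    unfold tv at a1
    rw [range_zero, sum_empty] at a1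
    push_cast at a1
    have : 0 < (1 + 1 / A) ^ d * (T : ℝ) := by positivity
    linarith
  have a2 := hall b1 m u e le_rfl (by omega) hm1 h
  have a3 : (1 + 1 / A) ^ d * (T : ℝ) ≤ A * (2 ^ b1 * m) := by
    have : 0 ≤ (m : ℝ) * ((RR b1 : ℤ) : ℝ) := by positivity
    linarith
  have a4 : (2 : ℝ) ^ ((1 + Real.logb 2 (1 + 1 / A)) * (((b1 + d : ℕ) : ℝ) - b1)) = 2 ^ d * (1 + 1 / A) ^ d := by
    have e1 : (((b1 + d : ℕ) : ℝ) - b1) = d := by push_cast; ring
    rw [e1, Real.rpow_mul_natCast (by norm_num), Real.rpow_add (by norm_num), Real.rpow_one,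
      Real.rpow_logb (by norm_num) (by norm_num) (by linarith), mul_pow]
  rw [a4, pow_add]
  have hp1 : (0 : ℝ) < 2 ^ b1 := by positivity
  have hp2 : (0 : ℝ) < 2 ^ d := by positivity
  have e5 : 1 / A * ((T : ℝ) / (2 ^ b1 * 2 ^ d)) * (2 ^ d * (1 + 1 / A) ^ d) =
      ((1 + 1 / A) ^ d * (T : ℝ)) / (A * 2 ^ b1) := by
    field_simp
  rw [e5, div_le_iff₀ (by positivity)]
  linarith

end TvGrow

end SDN

end HexObs
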