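import Pool.Agent.SDN.CrowdLaw
import Pool.Agent.SDN.TvGrow

/-!
SDN, limit version, lower bound of the dimension (board/DIM1), module M: the law of the number of the visited cells, from
the bound of the total variation, the growth of the number of leaves and the crowding estimate of one scale.
-/

set_option autoImplicit false

namespace HexObs

namespace SDN

open Finset TS

open scoped ENNReal

namespace D1L

/-- 2 ^ y is at least y / 2 -/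
lemma half_le_rpow {y : ℝ} (hy : 0 ≤ y) : y / 2 ≤ (2 : ℝ) ^ y := by
  have h1 : (2 : ℝ) ^ y = Real.exp (Real.log 2 * y) := by
    rw [Real.rpow_def_of_pos (by norm_num)]
  have h2 := Real.add_one_le_exp (Real.log 2 * y)
  have h3 : (1 / 2 : ℝ) ≤ Real.log 2 := by
    have := Real.log_two_gt_d9
    linarith
  rw [h1]
  nlinarith

/-- the sum of the exceptional probabilities -/
lemma num_a {c' C1 C2 : ℝ} (hc : 0 < c') (h1 : 0 < C1) (h2 : 0 < C2) : ∃ X : ℝ, 1 ≤ X ∧ ∀ x : ℝ, X ≤ x → ∀ n k : ℕ,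
    (n : ℝ) ≤ 8 * x → k ≤ n →
    ((k : ℝ) + 1) * (C1 * (2 : ℝ) ^ (-(c' * x ^ 2))) + C2 * (2 : ℝ) ^ (C2 * (n : ℝ)) * (2 : ℝ) ^ (-(x ^ 4)) ≤
      Real.exp (-x) := by
  have hl : (1 / 2 : ℝ) ≤ Real.log 2 := by
    have := Real.log_two_gt_d9
    linarith
  have hl' : Real.log 2 ≤ 1 := by
    have := Real.log_two_lt_d9
    linarith
  have hl0 : 0 < Real.log 2 := by linarith
  refine ⟨2 * (10 + 2 * C1) / c' + (2 * (2 + 2 * C2 + 8 * C2)) + 1, ?_, ?_⟩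
  · have : 0 ≤ 2 * (10 + 2 * C1) / c' := by positivity
    linarith
  intro x hx n k hn hk
  have hp1 : 0 ≤ 2 * (10 + 2 * C1) / c' := by positivity
  have hx1 : 1 ≤ x := by linarith
  have hx2 : 2 * (10 + 2 * C1) / c' ≤ x := by linarith
  have hx3 : 2 * (2 + 2 * C2 + 8 * C2) ≤ x := by linarith
  rw [div_le_iff₀ hc] at hx2
  have hkn : (k : ℝ) ≤ n := by exact_mod_cast hk
  have hn0 : (0 : ℝ) ≤ n := Nat.cast_nonneg n
  -- first term
  have t1 : ((k : ℝ) + 1) * (C1 * (2 : ℝ) ^ (-(c' * x ^ 2))) ≤ Real.exp (-x) / 2 := by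
    have e1 : (2 : ℝ) ^ (-(c' * x ^ 2)) = Real.exp (Real.log 2 * (-(c' * x ^ 2))) := by
      rw [Real.rpow_def_of_pos (by norm_num)]
    have e2 : ((k : ℝ) + 1) ≤ Real.exp (8 * x) := by
      have := Real.add_one_le_exp (8 * x)
      linarith
    have e3 : 2 * C1 ≤ Real.exp (2 * C1) := by
      have := Real.add_one_le_exp (2 * C1)
      linarith
    have e4 : ((k : ℝ) + 1) * (C1 * (2 : ℝ) ^ (-(c' * x ^ 2))) ≤
        Real.exp (8 * x) * (Real.exp (2 * C1) / 2 * Real.exp (Real.log 2 * (-(c' * x ^ 2)))) := by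
      rw [e1]
      have : C1 ≤ Real.exp (2 * C1) / 2 := by linarith
      gcongr
    refine e4.trans ?_
    have e5 : Real.exp (8 * x) * (Real.exp (2 * C1) / 2 * Real.exp (Real.log 2 * (-(c' * x ^ 2)))) =
        Real.exp (8 * x + 2 * C1 + Real.log 2 * (-(c' * x ^ 2))) / 2 := by
      rw [Real.exp_add, Real.exp_add]
      ring
    rw [e5]
    apply div_le_div_of_nonneg_right _ (by norm_num)
    apply Real.exp_le_exp.2
    have e6 : (10 + 2 * C1) * x ≤ Real.log 2 * (c' * x ^ 2) := by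
      have e7 : 2 * (10 + 2 * C1) * x ≤ (x * c') * x := mul_le_mul_of_nonneg_right hx2 (by linarith)
      have e8 : (1 / 2 : ℝ) * (c' * x ^ 2) ≤ Real.log 2 * (c' * x ^ 2) :=
        mul_le_mul_of_nonneg_right hl (by positivity)
      nlinarith
    have e9 : 2 * C1 ≤ 2 * C1 * x := le_mul_of_one_le_right (by positivity) hx1
    nlinarith
  -- second term
  have t2 : C2 * (2 : ℝ) ^ (C2 * (n : ℝ)) * (2 : ℝ) ^ (-(x ^ 4)) ≤ Real.exp (-x) / 2 := by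
    have e1 : (2 : ℝ) ^ (-(x ^ 4)) = Real.exp (Real.log 2 * (-(x ^ 4))) := by
      rw [Real.rpow_def_of_pos (by norm_num)]
    have e2 : (2 : ℝ) ^ (C2 * (n : ℝ)) ≤ Real.exp (8 * C2 * x) := by
      rw [Real.rpow_def_of_pos (by norm_num)]
      apply Real.exp_le_exp.2
      have f1 : C2 * (n : ℝ) ≤ C2 * (8 * x) := mul_le_mul_of_nonneg_left hn h2.le
      have f2 : Real.log 2 * (C2 * (n : ℝ)) ≤ 1 * (C2 * (n : ℝ)) := mul_le_mul_of_nonneg_right hl' (by positivity)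
      linarith
    have e3 : C2 ≤ Real.exp (2 * C2) / 2 := by
      have := Real.add_one_le_exp (2 * C2)
      linarith
    have e4 : C2 * (2 : ℝ) ^ (C2 * (n : ℝ)) * (2 : ℝ) ^ (-(x ^ 4)) ≤
        Real.exp (2 * C2) / 2 * Real.exp (8 * C2 * x) * Real.exp (Real.log 2 * (-(x ^ 4))) := by
      rw [e1]
      gcongr
    refine e4.trans ?_
    have e5 : Real.exp (2 * C2) / 2 * Real.exp (8 * C2 * x) * Real.exp (Real.log 2 * (-(x ^ 4))) =
        Real.exp (2 * C2 + 8 * C2 * x + Real.log 2 * (-(x ^ 4))) / 2 := by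
      rw [Real.exp_add, Real.exp_add]
      ring
    rw [e5]
    apply div_le_div_of_nonneg_right _ (by norm_num)
    apply Real.exp_le_exp.2
    have g1 : x ^ 2 ≤ x ^ 4 := pow_le_pow_right₀ hx1 (by norm_num)
    have g2 : (1 / 2 : ℝ) * x ^ 4 ≤ Real.log 2 * x ^ 4 := mul_le_mul_of_nonneg_right hl (by positivity)
    have g3 : 2 * (2 + 2 * C2 + 8 * C2) * x ≤ x * x := mul_le_mul_of_nonneg_right hx3 (by linarith)
    have g4 : 2 * C2 ≤ 2 * C2 * x := le_mul_of_one_le_right (by positivity) hx1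
    nlinarith
  linarith

/-- all numerical conditions hold for large n -/
lemma num {cH CH CK AK cI η A : ℝ} (hcH : 0 < cH) (hCH : 0 < CH) (hCK : 0 < CK) (hAK : 1 ≤ AK) (hcI : 0 < cI)
    (hη : 0 < η) (B : ℕ) : ∃ l0 : ℕ, ∀ n : ℕ, l0 ≤ n →
    100 * A * 2 ^ B ≤ (2 : ℝ) ^ (n - n / 2) ∧
    AK * (2 : ℝ) ^ ((1 + η / 4) * (n : ℝ)) ≤ cI * ((2 : ℝ) ^ (n - n / 2) / 2 ^ B) * (2 : ℝ) ^ ((1 + η) * ((n / 2 : ℕ) : ℝ)) ∧
    (((n / 2 : ℕ) : ℝ) + 1) * (CH * (2 : ℝ) ^ (-(cH * ((2 : ℝ) ^ (n - n / 2) / 2 ^ B)))) +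
      CK * (2 : ℝ) ^ (CK * (n : ℝ)) *
        (2 : ℝ) ^ (-(cI * ((2 : ℝ) ^ (n - n / 2) / 2 ^ B) * (2 : ℝ) ^ ((1 + η) * ((n / 2 : ℕ) : ℝ)))) ≤
      Real.exp (-(2 : ℝ) ^ (1 / 4 * (n : ℝ))) := by
  have hB : (0 : ℝ) < 2 ^ B := by positivity
  obtain ⟨X, hX1, hX⟩ := num_a (c' := cH / 2 ^ B) (C1 := CH) (C2 := CK) (by positivity) hCH hCK
  obtain ⟨n1, hn1⟩ := exists_nat_ge (8 * (X + |100 * A * 2 ^ B|))
  obtain ⟨n2, hn2⟩ := exists_nat_ge ((Real.logb 2 (AK * 2 ^ B / cI) + η / 2) / (η / 4))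
  refine ⟨n1 + n2, fun n hn => ?_⟩
  have hn1' : (n1 : ℝ) ≤ n := by
    have : n1 ≤ n := by omega
    exact_mod_cast this
  have hn2' : (n2 : ℝ) ≤ n := by
    have : n2 ≤ n := by omega
    exact_mod_cast this
  have hn0 : (0 : ℝ) ≤ n := Nat.cast_nonneg n
  obtain ⟨x, hx⟩ : ∃ x : ℝ, x = (2 : ℝ) ^ (1 / 4 * (n : ℝ)) := ⟨_, rfl⟩
  have hx8 : (n : ℝ) ≤ 8 * x := by
    have := half_le_rpow (y := 1 / 4 * (n : ℝ)) (by positivity)
    rw [← hx] at this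
    linarith
  have habs := abs_nonneg (100 * A * 2 ^ B)
  have hxX : X ≤ x := by linarith
  have hx1 : 1 ≤ x := by linarith
  have hxA : 100 * A * 2 ^ B ≤ x := by
    have := le_abs_self (100 * A * 2 ^ B)
    linarith
  -- x ^ 2 ≤ 2 ^ (n - n / 2)
  have hk1 : ((n / 2 : ℕ) : ℝ) ≤ (n : ℝ) / 2 := by
    have := Nat.cast_div_le (m := n) (n := 2) (α := ℝ)
    exact_mod_cast this
  have hk2 : (n : ℝ) / 2 - 1 / 2 ≤ ((n / 2 : ℕ) : ℝ) := by
    have h : n ≤ 2 * (n / 2) + 1 := by omega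
    have : (n : ℝ) ≤ 2 * ((n / 2 : ℕ) : ℝ) + 1 := by exact_mod_cast h
    linarith
  have hsub : ((n - n / 2 : ℕ) : ℝ) = (n : ℝ) - ((n / 2 : ℕ) : ℝ) := by
    rw [Nat.cast_sub (Nat.div_le_self n 2)]
  have hx2 : x ^ 2 ≤ (2 : ℝ) ^ (n - n / 2) := by
    rw [hx, ← Real.rpow_natCast, ← Real.rpow_mul (by norm_num), ← Real.rpow_natCast]
    apply Real.rpow_le_rpow_of_exponent_le (by norm_num)
    rw [hsub]
    push_cast
    linarith
  have hx4 : x ^ 4 = (2 : ℝ) ^ (n : ℝ) := by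
    rw [hx, ← Real.rpow_natCast, ← Real.rpow_mul (by norm_num)]
    congr 1
    push_cast
    ring
  have hc2 : AK * (2 : ℝ) ^ ((1 + η / 4) * (n : ℝ)) ≤
      cI * ((2 : ℝ) ^ (n - n / 2) / 2 ^ B) * (2 : ℝ) ^ ((1 + η) * ((n / 2 : ℕ) : ℝ)) := by
    have h1 : Real.logb 2 (AK * 2 ^ B / cI) + η / 2 ≤ n * (η / 4) := by
      rw [div_le_iff₀ (by positivity)] at hn2
      refine hn2.trans (mul_le_mul_of_nonneg_right hn2' (by positivity))
    have h2 : AK * 2 ^ B / cI ≤ (2 : ℝ) ^ (η * (n : ℝ) / 4 - η / 2) := by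
      have h3 : 0 < AK * 2 ^ B / cI := by positivity
      have h4 : AK * 2 ^ B / cI = (2 : ℝ) ^ (Real.logb 2 (AK * 2 ^ B / cI)) := by
        rw [Real.rpow_logb (by norm_num) (by norm_num) h3]
      rw [h4]
      apply Real.rpow_le_rpow_of_exponent_le (by norm_num)
      linarith
    have h5 : AK ≤ (cI / 2 ^ B) * (2 : ℝ) ^ (η * (n : ℝ) / 4 - η / 2) := by
      rw [div_le_iff₀ hcI] at h2
      rw [div_mul_eq_mul_div, le_div_iff₀ hB]
      linarith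
    have h6 : (2 : ℝ) ^ (n - n / 2) * (2 : ℝ) ^ ((1 + η) * ((n / 2 : ℕ) : ℝ)) =
        (2 : ℝ) ^ ((n : ℝ) + η * ((n / 2 : ℕ) : ℝ)) := by
      rw [← Real.rpow_natCast, ← Real.rpow_add (by norm_num), hsub]
      congr 1
      ring
    have h7 : (2 : ℝ) ^ (η * (n : ℝ) / 4 - η / 2) * (2 : ℝ) ^ ((1 + η / 4) * (n : ℝ)) ≤
        (2 : ℝ) ^ ((n : ℝ) + η * ((n / 2 : ℕ) : ℝ)) := by
      rw [← Real.rpow_add (by norm_num)]
      apply Real.rpow_le_rpow_of_exponent_le (by norm_num)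
      have := mul_le_mul_of_nonneg_left hk2 hη.le
      linarith
    calc AK * (2 : ℝ) ^ ((1 + η / 4) * (n : ℝ)) ≤
        (cI / 2 ^ B) * (2 : ℝ) ^ (η * (n : ℝ) / 4 - η / 2) * (2 : ℝ) ^ ((1 + η / 4) * (n : ℝ)) :=
          mul_le_mul_of_nonneg_right h5 (by positivity)
      _ = (cI / 2 ^ B) * ((2 : ℝ) ^ (η * (n : ℝ) / 4 - η / 2) * (2 : ℝ) ^ ((1 + η / 4) * (n : ℝ))) := by ring
      _ ≤ (cI / 2 ^ B) * (2 : ℝ) ^ ((n : ℝ) + η * ((n / 2 : ℕ) : ℝ)) :=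
          mul_le_mul_of_nonneg_left h7 (by positivity)
      _ = _ := by
          rw [← h6]
          ring
  refine ⟨?_, hc2, ?_⟩
  · exact hxA.trans ((le_self_pow₀ hx1 (by norm_num)).trans hx2)
  · rw [← hx]
    have h1 := hX x hxX n (n / 2) hx8 (Nat.div_le_self n 2)
    refine le_trans (add_le_add ?_ ?_) h1
    · apply mul_le_mul_of_nonneg_left _ (by positivity)
      apply mul_le_mul_of_nonneg_left _ hCH.le
      apply Real.rpow_le_rpow_of_exponent_le (by norm_num)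
      have h2 : cH / 2 ^ B * x ^ 2 ≤ cH / 2 ^ B * (2 : ℝ) ^ (n - n / 2) :=
        mul_le_mul_of_nonneg_left hx2 (by positivity)
      have h3 : cH / 2 ^ B * (2 : ℝ) ^ (n - n / 2) = cH * ((2 : ℝ) ^ (n - n / 2) / 2 ^ B) := by ring
      linarith
    · apply mul_le_mul_of_nonneg_left _ (by positivity)
      apply Real.rpow_le_rpow_of_exponent_le (by norm_num)
      apply neg_le_neg
      refine le_trans ?_ hc2
      rw [hx4]
      have h2 : (2 : ℝ) ^ (n : ℝ) ≤ (2 : ℝ) ^ ((1 + η / 4) * (n : ℝ)) := by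
        apply Real.rpow_le_rpow_of_exponent_le (by norm_num)
        have : 0 ≤ η / 4 * (n : ℝ) := by positivity
        linarith
      refine h2.trans (le_mul_of_one_le_left (by positivity) hAK)

end D1L

open D1L in
/-- module M -/
theorem dim1_law_of
    (htv : ∃ (A C c : ℝ) (b0 : ℕ), 1 ≤ A ∧ 0 < C ∧ 0 < c ∧ 1 ≤ b0 ∧ ∀ b T : ℕ, b0 ≤ b → 1 ≤ T →
      gf {t | t ∈ FCW T ∧ ∃ m u e, 1 ≤ m ∧ Lf false b t m u e ∧ A * (2 ^ b * m) ≤ (tv (lev t) m e : ℝ)} ≤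
      ENNReal.ofReal (C * (2 : ℝ) ^ (-(c * (T / 2 ^ b)))))
    (hcrowd : ∀ Λ : ℝ, 1 ≤ Λ → ∃ (A C : ℝ) (b0 : ℕ), 1 ≤ A ∧ 0 < C ∧ 1 ≤ b0 ∧ ∀ (L b m : ℕ), b0 ≤ b →
      b ≤ L + 2 → gf {t | t ∈ BL L ∧ ∃ u e, Lf false b t m u e ∧ A * nb b t ≤ m ∧
        (dbl (2 ^ (b - 1)) (lws t e 1 (m - 2)) : ℝ) ≤ Λ * m} ≤
        ENNReal.ofReal (Ub L * ((2 : ℝ) ^ (C * ((L : ℝ) + 3 - b)) * C / 4 ^ m))) :
    ∃ e1 : ℝ, 0 < e1 ∧ ∀ B : ℕ, ∃ (c : ℝ) (b0 l0 : ℕ), 0 < c ∧ ∀ L b1 T : ℕ, b0 ≤ b1 → b1 + l0 ≤ L →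
    2 ^ L ≤ 2 ^ B * T →
    gf {t | t ∈ FCW T ∧ t ∈ WL L ∧ nb b1 t < (2 : ℝ) ^ ((1 + e1) * ((L : ℝ) - b1))} ≤
      ENNReal.ofReal (Real.exp (-(2 : ℝ) ^ (c * ((L : ℝ) - b1)))) := by
  obtain ⟨A, CH, cH, bH, hA, hCH, hcH, hbH, hH⟩ := htv
  obtain ⟨cI, η, hcI, hη, hI⟩ := leaves_low A hA
  obtain ⟨AK, CK, bK, hAK, hCK, hbK, hK⟩ := crowd_law_of hcrowd A hA
  refine ⟨η / 4, by positivity, fun B => ?_⟩
  obtain ⟨l0, hl0⟩ := num (A := A) hcH hCH hCK hAK hcI hη B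
  refine ⟨1 / 4, bH + bK, l0, by norm_num, ?_⟩
  intro L b1 T hb hL hLT
  obtain ⟨n, rfl⟩ : ∃ n, L = b1 + n := ⟨L - b1, by omega⟩
  have e0 : ((b1 + n : ℕ) : ℝ) - b1 = n := by
    push_cast
    ring
  rw [e0]
  obtain ⟨hn1, hn2, hn3⟩ := hl0 n (by omega)
  have hT : 1 ≤ T := by
    rcases Nat.eq_zero_or_pos T with h | h
    · rw [h, mul_zero] at hLT
      have : 0 < 2 ^ (b1 + n) := by positivity
      omega
    · exact h
  set k := n / 2 with hk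
  obtain ⟨z, hz⟩ : ∃ z : ℝ, z = (2 : ℝ) ^ (n - k) / 2 ^ B := ⟨_, rfl⟩
  rw [← hz] at hn2 hn3
  have hz0 : 0 < z := by
    rw [hz]
    positivity
  -- T / 2 ^ b is at least z for b ≤ b1 + k
  have hTz : ∀ b, b ≤ b1 + k → z ≤ (T : ℝ) / 2 ^ b := by
    intro b hb'
    rw [hz, div_le_div_iff₀ (by positivity) (by positivity)]
    have h1 : (2 : ℝ) ^ (n - k) * 2 ^ b ≤ (2 : ℝ) ^ (b1 + n) := by
      rw [← pow_add]
      exact pow_le_pow_right₀ (by norm_num) (by omega)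
    have h2 : (2 : ℝ) ^ (b1 + n) ≤ 2 ^ B * T := by exact_mod_cast hLT
    linarith
  -- exceptional sets
  let S1 : ℕ → Set (List Bool) := fun b => {t | t ∈ FCW T ∧ ∃ m u e, 1 ≤ m ∧ Lf false b t m u e ∧
    A * (2 ^ b * m) ≤ (tv (lev t) m e : ℝ)}
  obtain ⟨Y, hY⟩ : ∃ Y : ℝ, Y = cI * z * (2 : ℝ) ^ ((1 + η) * (k : ℝ)) := ⟨_, rfl⟩
  rw [← hY] at hn2 hn3
  let S2 : Set (List Bool) := {t | t ∈ FCW T ∧ t ∈ WL (b1 + n) ∧ ∃ m u e, Lf false b1 t m u e ∧ AK * nb b1 t < m ∧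
    (tv (lev t) m e : ℝ) < A * (2 ^ b1 * m) ∧ Y ≤ m}
  have hsub : {t | t ∈ FCW T ∧ t ∈ WL (b1 + n) ∧ nb b1 t < (2 : ℝ) ^ ((1 + η / 4) * (n : ℝ))} ⊆
      (⋃ i : Fin (k + 1), S1 (b1 + i)) ∪ S2 := by
    rintro t ⟨h1, h2, h3⟩
    by_cases h4 : ∃ i : Fin (k + 1), t ∈ S1 (b1 + i)
    · left
      rw [Set.mem_iUnion]
      exact h4
    · right
      push Not at h4
      obtain ⟨j, hj⟩ := h1
      have hjT : T ≤ j := hj.2.1
      have hgood : ∀ b m u e, b1 ≤ b → b ≤ b1 + k → 1 ≤ m → Lf false b t m u e →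
          (tv (lev t) m e : ℝ) < A * (2 ^ b * m) := by
        intro b m u e hb1 hb2 hm hLf
        by_contra hcon
        push Not at hcon
        apply h4 ⟨b - b1, by omega⟩
        have : b1 + (b - b1) = b := by omega
        show t ∈ S1 (b1 + (b - b1))
        rw [this]
        exact ⟨⟨j, hj⟩, m, u, e, hm, hLf, hcon⟩
      obtain ⟨m, u, e, hLf⟩ := lf_exists false b1 t
      have hm := hI j b1 (b1 + k) t hj.1 (by omega) (by omega) (by
        have h5 := hTz (b1 + k) le_rfl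
        have h6 : 100 * A ≤ z := by
          rw [hz, le_div_iff₀ (by positivity)]
          exact hn1
        have h7 : 100 * A ≤ (T : ℝ) / 2 ^ (b1 + k) := h6.trans h5
        rw [le_div_iff₀ (by positivity)] at h7
        have h8 : (T : ℝ) ≤ j := by exact_mod_cast hjT
        linarith) hgood m u e hLf
      have hYm : Y ≤ m := by
        refine le_trans ?_ hm
        rw [hY]
        have e1 : ((b1 + k : ℕ) : ℝ) - b1 = k := by
          push_cast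
          ring
        rw [e1]
        have h5 : z ≤ (j : ℝ) / 2 ^ (b1 + k) := by
          refine (hTz (b1 + k) le_rfl).trans ?_
          have h8 : (T : ℝ) ≤ j := by exact_mod_cast hjT
          gcongr
        gcongr
      have hY0 : 0 < Y := by
        rw [hY]
        positivity
      have hm1 : 1 ≤ m := by
        rcases Nat.eq_zero_or_pos m with h0 | h0
        · exfalso
          rw [h0, Nat.cast_zero] at hYm
          linarith
        · exact h0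
      refine ⟨⟨j, hj⟩, h2, m, u, e, hLf, ?_, hgood b1 m u e le_rfl (by omega) hm1 hLf, hYm⟩
      calc AK * nb b1 t < AK * (2 : ℝ) ^ ((1 + η / 4) * (n : ℝ)) := mul_lt_mul_of_pos_left h3 (by linarith)
        _ ≤ Y := hn2
        _ ≤ m := hYm
  refine (gf_mono hsub).trans ((gf_union_le _ _).trans ?_)
  have h1 : gf (⋃ i : Fin (k + 1), S1 (b1 + i)) ≤ ENNReal.ofReal (((k : ℝ) + 1) * (CH * (2 : ℝ) ^ (-(cH * z)))) := by
    refine (ENNReal.tsum_iUnion_le_tsum wE _).trans ?_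
    have h2 : ∀ i : Fin (k + 1), gf (S1 (b1 + i)) ≤ ENNReal.ofReal (CH * (2 : ℝ) ^ (-(cH * z))) := by
      intro i
      have hi := i.2
      refine (hH (b1 + i) T (by omega) hT).trans (ENNReal.ofReal_le_ofReal ?_)
      apply mul_le_mul_of_nonneg_left _ hCH.le
      apply Real.rpow_le_rpow_of_exponent_le (by norm_num)
      have := mul_le_mul_of_nonneg_left (hTz (b1 + i) (by omega)) hcH.le
      linarith
    refine (ENNReal.tsum_le_tsum h2).trans (le_of_eq ?_)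
    have e1 : ENNReal.ofReal (((k : ℝ) + 1) * (CH * (2 : ℝ) ^ (-(cH * z)))) =
        ENNReal.ofReal ((k : ℝ) + 1) * ENNReal.ofReal (CH * (2 : ℝ) ^ (-(cH * z))) :=
      ENNReal.ofReal_mul (by positivity)
    have e2 : ENNReal.ofReal ((k : ℝ) + 1) = ((k + 1 : ℕ) : ℝ≥0∞) := by
      rw [← ENNReal.ofReal_natCast]
      congr 1
      push_cast
      ring
    rw [tsum_fintype, Finset.sum_const, Finset.card_univ, Fintype.card_fin, nsmul_eq_mul, e1, e2]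
  have h2 : gf S2 ≤ ENNReal.ofReal (CK * (2 : ℝ) ^ (CK * (n : ℝ)) * (2 : ℝ) ^ (-Y)) := by
    have := hK (b1 + n) b1 T Y (by omega) (by omega) hT
    rw [e0] at this
    exact this
  refine (add_le_add h1 h2).trans ?_
  rw [← ENNReal.ofReal_add (by positivity) (by positivity)]
  exact ENNReal.ofReal_le_ofReal hn3

end SDN

end HexObs
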