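import Pool.Agent.SDN.Dim1Defs
import Pool.Agent.Tight.Touch2
import Pool.Agent.Tight.LeafArcs

/-!
SDN, limit version, lower bound of the dimension (board/DIM1), module N: covering numbers of the limit curves from below.
-/

set_option autoImplicit false

namespace HexObs

open Finset MeasureTheory Filter Topology

open scoped ENNReal

namespace SDN

namespace DL1

/-- the curves in the ball of radius A covered by at most k balls of radius δ -/
def CS (δ A : ℝ) (k : ℕ) : Set C(unitInterval, ℂ) :=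
  {f | ‖f‖ < A ∧ ∃ F : Finset ℂ, F.card ≤ k ∧ Set.range f ⊆ ⋃ z ∈ F, Metric.ball z δ}

lemma open_CS (δ A : ℝ) (k : ℕ) : IsOpen (CS δ A k) := by
  have h : CS δ A k = {f : C(unitInterval, ℂ) | ‖f‖ < A} ∩ ⋃ F : {F : Finset ℂ // F.card ≤ k},
      {f : C(unitInterval, ℂ) | Set.MapsTo f Set.univ (⋃ z ∈ F.1, Metric.ball z δ)} := by
    ext f
    simp only [CS, Set.mem_ofPred_eq, Set.mem_inter_iff, Set.mem_iUnion, Subtype.exists, exists_prop]
    refine and_congr_right fun _ => exists_congr fun F => and_congr_right fun _ => ?_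
    constructor
    · intro h u _
      exact h (Set.mem_range_self u)
    · rintro h z ⟨u, rfl⟩
      exact h (Set.mem_univ u)
  rw [h]
  apply IsOpen.inter
  · exact isOpen_lt continuous_norm continuous_const
  · apply isOpen_iUnion
    intro F
    exact ContinuousMap.isOpen_setOf_mapsTo isCompact_univ (isOpen_biUnion fun z _ => Metric.isOpen_ball)

lemma row_false (t : List Bool) (i : ℕ) : row false (vx oo up t i) = lev t i / 3 := rfl

lemma row_true (t : List Bool) (i : ℕ) : row true (vx oo up t i) = (-(2 * (vx oo up t i).1 + (vx oo up t i).2)) / 3 := by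
  show ip (vx oo up t i) (-1, 0) / 3 = _
  congr 1
  unfold ip
  ring

lemma lev_eq1 (t : List Bool) (i : ℕ) : lev t i = (vx oo up t i).1 + 2 * (vx oo up t i).2 := by
  unfold lev ip up
  ring

lemma lat_eq1 (t : List Bool) (i : ℕ) : lat t i = (vx oo up t i).1 := by
  unfold lat cross up
  ring

lemma div_le_n {H a b n : ℤ} (hH : 0 < H) (h : a ≤ b + n * H) : a / H ≤ b / H + n := by
  calc a / H ≤ (b + n * H) / H := Int.ediv_le_ediv hH h
    _ = b / H + n := Int.add_mul_ediv_right _ _ hH.ne'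

lemma div_near_n {H a b n : ℤ} (hH : 0 < H) (h : |a - b| ≤ n * H) : |a / H - b / H| ≤ n := by
  rw [abs_le] at h ⊢
  have h1 := div_le_n (n := n) hH (show a ≤ b + n * H by linarith [h.2])
  have h2 := div_le_n (n := n) hH (show b ≤ a + n * H by linarith [h.1])
  constructor <;> linarith

/-- close vertices are in close cells -/
lemma near_cell {b : ℕ} {t : List Bool} {i i' : ℕ} (h1 : |lev t i - lev t i'| ≤ 4 * 2 ^ b)
    (h2 : |lat t i - lat t i'| ≤ 3 * 2 ^ b) :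
    |(cell b (vx oo up t i)).1 - (cell b (vx oo up t i')).1| ≤ 4 ∧
      |(cell b (vx oo up t i)).2 - (cell b (vx oo up t i')).2| ≤ 4 := by
  have hp : (1 : ℤ) ≤ 2 ^ b := one_le_pow₀ (by norm_num)
  have hH : (0 : ℤ) < 2 ^ b := by positivity
  have h3 := lev_eq1 t i
  have h4 := lev_eq1 t i'
  have h5 := lat_eq1 t i
  have h6 := lat_eq1 t i'
  constructor
  · show |row false (vx oo up t i) / 2 ^ b - row false (vx oo up t i') / 2 ^ b| ≤ 4
    apply div_near_n hH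
    rw [row_false, row_false]
    obtain ⟨P, hP⟩ : ∃ P : ℤ, P = 2 ^ b := ⟨_, rfl⟩
    rw [← hP] at h1 h2 hp ⊢
    rw [abs_le] at h1 ⊢
    constructor <;> omega
  · show |row true (vx oo up t i) / 2 ^ b - row true (vx oo up t i') / 2 ^ b| ≤ 4
    apply div_near_n hH
    rw [row_true, row_true]
    rw [h3, h4] at h1
    rw [h5, h6] at h2
    obtain ⟨P, hP⟩ : ∃ P : ℤ, P = 2 ^ b := ⟨_, rfl⟩
    rw [← hP] at h1 h2 hp ⊢
    obtain ⟨x, hx⟩ : ∃ x, x = (vx oo up t i).1 := ⟨_, rfl⟩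
    obtain ⟨y, hy⟩ : ∃ y, y = (vx oo up t i).2 := ⟨_, rfl⟩
    obtain ⟨x', hx'⟩ : ∃ x', x' = (vx oo up t i').1 := ⟨_, rfl⟩
    obtain ⟨y', hy'⟩ : ∃ y', y' = (vx oo up t i').2 := ⟨_, rfl⟩
    rw [← hx, ← hy, ← hx', ← hy'] at h1 ⊢
    rw [← hx, ← hx'] at h2
    rw [abs_le] at h1 h2 ⊢
    constructor <;> omega

/-- the curve passes through the vertices -/
lemma node {T : ℕ} (t : List Bool) {i : ℕ} (hi : i ≤ t.length) : ∃ u : unitInterval, curve T t u = zp t i / T := by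
  rcases Nat.lt_or_ge i t.length with h | h
  · have hn : (0 : ℝ) < t.length := by
      have : 0 < t.length := by omega
      exact_mod_cast this
    have hi0 : (0 : ℝ) ≤ i := Nat.cast_nonneg i
    have hi1 : (i : ℝ) ≤ t.length := by exact_mod_cast hi
    refine ⟨⟨i / t.length, by positivity, by rw [div_le_one hn]; exact hi1⟩, ?_⟩
    have e : (i : ℝ) / t.length * t.length = i := by field_simp
    have h1 := Tight.poly_apply (z := fun i => zp t i / T) h (s := ⟨i / t.length, by positivity, by rw [div_le_one hn]; exact hi1⟩)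
      (by show (i : ℝ) ≤ (i : ℝ) / t.length * t.length; rw [e])
      (by show (i : ℝ) / t.length * t.length ≤ i + 1; rw [e]; linarith)
    unfold curve
    rw [h1]
    have e2 : (((⟨i / t.length, by positivity, by rw [div_le_one hn]; exact hi1⟩ : unitInterval) : ℝ) * t.length - i : ℝ) = 0 := by
      show (i : ℝ) / t.length * t.length - i = 0
      rw [e, sub_self]
    rw [e2]
    simp
  · have : i = t.length := by omega
    subst this
    exact ⟨1, by unfold curve; rw [Tight.poly_one]⟩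

lemma sqrt3 : 0 < Real.sqrt 3 ∧ 17 / 10 ≤ Real.sqrt 3 := by
  refine ⟨Real.sqrt_pos.2 (by norm_num), ?_⟩
  apply Real.le_sqrt_of_sq_le
  norm_num

/-- the words of the curves in the ball of radius A -/
lemma in_box {T : ℕ} (hT : 1 ≤ T) {A : ℝ} {L j : ℕ} (hA : 4 * A * T + 4 ≤ 2 ^ L)
    {f : C(unitInterval, ℂ)} {t : List Bool} (ht : t ∈ FC T j) {r : unitInterval ≃ₜ unitInterval}
    (hf : ∀ u, f u = curve T t (r u)) (hn : ‖f‖ < A) : t ∈ WL L := by
  have hT0 : (0 : ℝ) < T := by exact_mod_cast hT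
  have hBrd := mem_Brd.1 ht.1
  have hs3 := sqrt3
  refine ⟨⟨fun _ _ _ => Set.mem_univ _, hBrd.2.1⟩, ?_⟩
  intro i hi dir
  obtain ⟨u, hu⟩ := node (T := T) t hi
  have h1 : ‖zp t i / (T : ℂ)‖ < A := by
    rw [← hu, ← r.apply_symm_apply u, ← hf]
    exact lt_of_le_of_lt (f.norm_coe_le_norm _) hn
  have h2 : |(zp t i / (T : ℂ)).im| < A := lt_of_le_of_lt (Complex.abs_im_le_norm _) h1
  have h3 : |(zp t i / (T : ℂ)).re| < A := lt_of_le_of_lt (Complex.abs_re_le_norm _) h1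
  rw [Touch.im_div, div_div, abs_div, abs_of_pos (show (0 : ℝ) < 2 * T by positivity), div_lt_iff₀ (by positivity)] at h2
  rw [Touch.re_div, abs_div, abs_of_pos hT0, div_lt_iff₀ hT0, abs_mul, abs_of_pos (show (0 : ℝ) < Real.sqrt 3 / 2 by
    linarith [hs3.1])] at h3
  have h4 : |(lat t i : ℝ)| ≤ 2 * A * T := by
    have h5 : 0 ≤ |(lat t i : ℝ)| := abs_nonneg _
    nlinarith [hs3.2]
  have h2' : |(lev t i : ℝ)| ≤ 2 * A * T := by linarith
  obtain ⟨P, hP⟩ : ∃ P : ℤ, P = 2 ^ L := ⟨_, rfl⟩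
  have hPR : (P : ℝ) = 2 ^ L := by rw [hP]; push_cast; ring
  have h5 : 2 * |lev t i| + 4 ≤ P := by
    have : (2 * |(lev t i : ℝ)| + 4 : ℝ) ≤ P := by rw [hPR]; linarith
    exact_mod_cast this
  have h6 : 2 * |lat t i| + 4 ≤ P := by
    have : (2 * |(lat t i : ℝ)| + 4 : ℝ) ≤ P := by rw [hPR]; linarith
    exact_mod_cast this
  rw [← hP]
  have h7 : -|lev t i| ≤ lev t i ∧ lev t i ≤ |lev t i| := ⟨neg_abs_le _, le_abs_self _⟩
  have h8 : -|lat t i| ≤ lat t i ∧ lat t i ≤ |lat t i| := ⟨neg_abs_le _, le_abs_self _⟩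
  rw [lev_eq1] at h5 h7
  rw [lat_eq1] at h6 h8
  generalize |(vx oo up t i).1 + 2 * (vx oo up t i).2| = a at h5 h7
  generalize |(vx oo up t i).1| = c at h6 h8
  rw [abs_le]
  cases dir
  · rw [row_false, lev_eq1]
    constructor <;> omega
  · rw [row_true]
    constructor <;> omega

/-- the number of the cells of a word whose curve is covered by few balls -/
lemma few_cells {T : ℕ} (hT : 1 ≤ T) {δ : ℝ} {k b1 : ℕ} (hδ : δ * T ≤ 2 ^ b1) {f : C(unitInterval, ℂ)} {t : List Bool}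
    {r : unitInterval ≃ₜ unitInterval} (hf : ∀ u, f u = curve T t (r u)) {F : Finset ℂ} (hF : F.card ≤ k)
    (hc : Set.range f ⊆ ⋃ z ∈ F, Metric.ball z δ) : nb b1 t ≤ 81 * k := by
  classical
  have hT0 : (0 : ℝ) < T := by exact_mod_cast hT
  have hs3 := sqrt3
  have h1 : ∀ i, ∃ z, i ≤ t.length → z ∈ F ∧ dist (zp t i / T) z < δ := by
    intro i
    by_cases hi : i ≤ t.length
    · obtain ⟨u, hu⟩ := node (T := T) t hi
      have h2 : f (r.symm u) ∈ ⋃ z ∈ F, Metric.ball z δ := hc (Set.mem_range_self _)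
      rw [hf, r.apply_symm_apply, hu] at h2
      simp only [Set.mem_iUnion, Metric.mem_ball, exists_prop] at h2
      obtain ⟨z, hz1, hz2⟩ := h2
      exact ⟨z, fun _ => ⟨hz1, hz2⟩⟩
    · exact ⟨0, fun h => absurd h hi⟩
  choose g hg using h1
  have h2 : ∀ c, ∃ i, c ∈ cells b1 t → i ≤ t.length ∧ cell b1 (vx oo up t i) = c := by
    intro c
    by_cases hc : c ∈ cells b1 t
    · have hc' := hc
      unfold cells at hc'
      rw [Finset.mem_image] at hc'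
      obtain ⟨i, hi, hi2⟩ := hc'
      rw [Finset.mem_range] at hi
      exact ⟨i, fun _ => ⟨by omega, hi2⟩⟩
    · exact ⟨0, fun h => absurd h hc⟩
  choose idx hidx using h2
  have h3 := Finset.card_le_mul_card_image (f := fun c => g (idx c)) (cells b1 t) 81 (by
    intro a ha
    rw [Finset.mem_image] at ha
    obtain ⟨c0, hc0, rfl⟩ := ha
    have h4 : ((cells b1 t).filter fun c => g (idx c) = g (idx c0)) ⊆
        (Finset.Icc (c0.1 - 4) (c0.1 + 4)) ×ˢ (Finset.Icc (c0.2 - 4) (c0.2 + 4)) := by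
      intro c hc
      rw [Finset.mem_filter] at hc
      obtain ⟨hc1, hc2⟩ := hc
      obtain ⟨i1, i2⟩ := hidx c hc1
      obtain ⟨j1, j2⟩ := hidx c0 hc0
      have d1 := (hg (idx c) i1).2
      have d2 := (hg (idx c0) j1).2
      rw [hc2] at d1
      have d3 : ‖zp t (idx c) / (T : ℂ) - zp t (idx c0) / T‖ < 2 * δ := by
        rw [← dist_eq_norm]
        have := dist_triangle_right (zp t (idx c) / (T : ℂ)) (zp t (idx c0) / T) (g (idx c0))
        linarith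
      have d4 := lt_of_le_of_lt (Complex.abs_im_le_norm _) d3
      have d5 := lt_of_le_of_lt (Complex.abs_re_le_norm _) d3
      rw [Complex.sub_im, Touch.im_div, Touch.im_div] at d4
      rw [Complex.sub_re, Touch.re_div, Touch.re_div] at d5
      have e1 : (lev t (idx c) : ℝ) / 2 / T - (lev t (idx c0) : ℝ) / 2 / T =
          ((lev t (idx c) : ℝ) - lev t (idx c0)) / (2 * T) := by
        field_simp
      have e2 : Real.sqrt 3 / 2 * (lat t (idx c) : ℝ) / T - Real.sqrt 3 / 2 * (lat t (idx c0) : ℝ) / T =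
          (Real.sqrt 3 / 2) * ((lat t (idx c) : ℝ) - lat t (idx c0)) / T := by ring
      rw [e1, abs_div, abs_of_pos (show (0 : ℝ) < 2 * T by positivity), div_lt_iff₀ (by positivity)] at d4
      rw [e2, abs_div, abs_mul, abs_of_pos hT0, abs_of_pos (show (0 : ℝ) < Real.sqrt 3 / 2 by linarith [hs3.1]),
        div_lt_iff₀ hT0] at d5
      have f1 : |(lev t (idx c) : ℝ) - lev t (idx c0)| ≤ 4 * 2 ^ b1 := by linarith
      have f2 : |(lat t (idx c) : ℝ) - lat t (idx c0)| ≤ 3 * 2 ^ b1 := by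
        have f3 : 0 ≤ |(lat t (idx c) : ℝ) - lat t (idx c0)| := abs_nonneg _
        have f4 : (17 / 20 : ℝ) * |(lat t (idx c) : ℝ) - lat t (idx c0)| ≤
            Real.sqrt 3 / 2 * |(lat t (idx c) : ℝ) - lat t (idx c0)| := by
          apply mul_le_mul_of_nonneg_right _ f3
          linarith [hs3.2]
        have f5 : (0 : ℝ) < 2 ^ b1 := by positivity
        linarith
      have k1 : |lev t (idx c) - lev t (idx c0)| ≤ 4 * 2 ^ b1 := by exact_mod_cast f1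
      have k2 : |lat t (idx c) - lat t (idx c0)| ≤ 3 * 2 ^ b1 := by exact_mod_cast f2
      obtain ⟨m1, m2⟩ := near_cell k1 k2
      rw [i2, j2, abs_le] at m1 m2
      rw [Finset.mem_product, Finset.mem_Icc, Finset.mem_Icc]
      refine ⟨⟨by omega, by omega⟩, by omega, by omega⟩
    refine (Finset.card_le_card h4).trans ?_
    rw [Finset.card_product, Int.card_Icc, Int.card_Icc]
    have e1 : (c0.1 + 4 + 1 - (c0.1 - 4)).toNat = 9 := by
      rw [show c0.1 + 4 + 1 - (c0.1 - 4) = 9 by ring]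
      rfl
    have e2 : (c0.2 + 4 + 1 - (c0.2 - 4)).toNat = 9 := by
      rw [show c0.2 + 4 + 1 - (c0.2 - 4) = 9 by ring]
      rfl
    rw [e1, e2])
  have h4 : ((cells b1 t).image fun c => g (idx c)) ⊆ F := by
    intro a ha
    rw [Finset.mem_image] at ha
    obtain ⟨c, hc, rfl⟩ := ha
    exact (hg _ (hidx c hc).1).1
  have h5 := Finset.card_le_card h4
  unfold nb
  calc (cells b1 t).card ≤ 81 * _ := h3
    _ ≤ 81 * k := Nat.mul_le_mul_left 81 (h5.trans hF)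

/-- the bound for the law of the walk in the boxes of size 2 ^ B T -/
def Law1 (e1 : ℝ) (B : ℕ) (c : ℝ) (b0 l0 : ℕ) : Prop := ∀ L b1 T : ℕ, b0 ≤ b1 → b1 + l0 ≤ L → 2 ^ L ≤ 2 ^ B * T →
    gf {t | t ∈ FCW T ∧ t ∈ WL L ∧ nb b1 t < (2 : ℝ) ^ ((1 + e1) * ((L : ℝ) - b1))} ≤
      ENNReal.ofReal (Real.exp (-(2 : ℝ) ^ (c * ((L : ℝ) - b1))))

/-- number of the balls -/
noncomputable def kk (e1 : ℝ) (n a : ℕ) : ℕ := ⌊(2 : ℝ) ^ ((1 + e1) * ((n : ℝ) + a + 3)) / 100⌋₊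

section

variable {X : ℕ → List Bool → C(unitInterval, ℂ)} {μ : ℕ → ProbabilityMeasure C(unitInterval, ℂ)}
  {φ : ℕ → ℕ} {ν : ProbabilityMeasure C(unitInterval, ℂ)}

/-- the finite estimate -/
lemma cs_fin {e1 c : ℝ} {a b0 l0 : ℕ} (hB : Law1 e1 (a + 4) c b0 l0)
    (hX : ∀ T t, ∃ r : unitInterval ≃ₜ unitInterval, Monotone r ∧ ∀ u, X T t u = curve T t (r u))
    (hμ : ∀ T, (μ T : Measure C(unitInterval, ℂ)) = ((lawK T).map (X T)).toMeasure) {n : ℕ} (hn : l0 ≤ n) :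
    ∀ᶠ T : ℕ in atTop, (μ T : Measure C(unitInterval, ℂ)) (CS ((1 / 2) ^ n) (2 ^ a) (kk e1 n a)) ≤
      ENNReal.ofReal (Real.exp (-(2 : ℝ) ^ (c * ((n : ℝ) + a + 3)))) := by
  filter_upwards [eventually_ge_atTop (2 ^ (n + b0))] with T hT
  have hT1 : 1 ≤ T := le_trans Nat.one_le_two_pow hT
  obtain ⟨l, hl⟩ : ∃ l, l = Nat.log 2 T := ⟨_, rfl⟩
  have h1 : 2 ^ l ≤ T := by
    rw [hl]
    exact Nat.pow_log_le_self 2 (by omega)
  have h2 : T < 2 ^ (l + 1) := by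
    rw [hl]
    exact Nat.lt_pow_succ_log_self (by norm_num) T
  have h3 : n + b0 ≤ l := by
    by_contra hc
    have h4 : 2 ^ (l + 1) ≤ 2 ^ (n + b0) := Nat.pow_le_pow_right (by norm_num) (by omega)
    omega
  have h2R : (T : ℝ) < 2 ^ (l + 1) := by exact_mod_cast h2
  rw [hμ, Touch.law _ _ (open_CS _ _ _).measurableSet]
  have h4 := hB (l + a + 4) (l - n + 1) T (by omega) (by omega) (by
    calc 2 ^ (l + a + 4) = 2 ^ (a + 4) * 2 ^ l := by ring
      _ ≤ 2 ^ (a + 4) * T := Nat.mul_le_mul_left _ h1)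
  have e : (((l + a + 4 : ℕ) : ℝ) - ((l - n + 1 : ℕ) : ℝ)) = (n : ℝ) + a + 3 := by
    rw [Nat.cast_add (l - n) 1, Nat.cast_sub (by omega)]
    push_cast
    ring
  rw [e] at h4
  refine le_trans (gf_mono ?_) h4
  rintro t ⟨⟨j, hj⟩, ht⟩
  obtain ⟨r, hr1, hr2⟩ := hX T t
  obtain ⟨hn1, F, hF1, hF2⟩ := ht
  have g1 : t ∈ WL (l + a + 4) := in_box hT1 (A := 2 ^ a) (by
    have h5 : (4 : ℝ) * 2 ^ a * T ≤ 4 * 2 ^ a * 2 ^ (l + 1) := by
      apply mul_le_mul_of_nonneg_left h2R.le (by positivity)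
    have h6 : (4 : ℝ) * 2 ^ a * 2 ^ (l + 1) = 2 ^ (l + a + 3) := by ring
    have h7 : (4 : ℝ) ≤ 2 ^ (l + a + 3) := by
      calc (4 : ℝ) = 2 ^ 2 := by norm_num
        _ ≤ 2 ^ (l + a + 3) := pow_le_pow_right₀ (by norm_num) (by omega)
    have h8 : (2 : ℝ) ^ (l + a + 4) = 2 * 2 ^ (l + a + 3) := by ring
    rw [h8]
    linarith) hj hr2 hn1
  have g2 := few_cells (b1 := l - n + 1) hT1 (by
    rw [one_div, inv_pow, ← div_eq_inv_mul, div_le_iff₀ (by positivity), ← pow_add]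
    rw [show l - n + 1 + n = l + 1 by omega]
    exact h2R.le) hr2 hF1 hF2
  refine ⟨⟨j, hj⟩, g1, ?_⟩
  have h9 : (nb (l - n + 1) t : ℝ) ≤ 81 * (kk e1 n a : ℕ) := by exact_mod_cast g2
  have h10 : ((kk e1 n a : ℕ) : ℝ) ≤ (2 : ℝ) ^ ((1 + e1) * ((n : ℝ) + a + 3)) / 100 := Nat.floor_le (by positivity)
  have h11 : (0 : ℝ) < (2 : ℝ) ^ ((1 + e1) * ((n : ℝ) + a + 3)) := by positivity
  linarith

/-- the estimate in the limit -/
lemma cs_lim {e1 c : ℝ} {a b0 l0 : ℕ} (hB : Law1 e1 (a + 4) c b0 l0)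
    (hX : ∀ T t, ∃ r : unitInterval ≃ₜ unitInterval, Monotone r ∧ ∀ u, X T t u = curve T t (r u))
    (hμ : ∀ T, (μ T : Measure C(unitInterval, ℂ)) = ((lawK T).map (X T)).toMeasure)
    (hφ : Tendsto φ atTop atTop) (hν : Tendsto (fun k => μ (φ k)) atTop (𝓝 ν)) {n : ℕ} (hn : l0 ≤ n) :
    (ν : Measure C(unitInterval, ℂ)) (CS ((1 / 2) ^ n) (2 ^ a) (kk e1 n a)) ≤
      ENNReal.ofReal (Real.exp (-(2 : ℝ) ^ (c * ((n : ℝ) + a + 3)))) := by
  refine (ProbabilityMeasure.le_liminf_measure_open_of_tendsto hν (open_CS _ _ _)).trans ?_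
  apply liminf_le_of_frequently_le'
  apply Eventually.frequently
  exact hφ.eventually (cs_fin hB hX hμ hn)

end

lemma sum_exp {c : ℝ} (hc : 0 < c) (l0 a : ℕ) :
    ∑' n : ℕ, ENNReal.ofReal (Real.exp (-(2 : ℝ) ^ (c * (((n + l0 : ℕ) : ℝ) + a + 3)))) ≠ ∞ := by
  have h1 : ∀ n : ℕ, Real.exp (-(2 : ℝ) ^ (c * (((n + l0 : ℕ) : ℝ) + a + 3))) ≤ ((2 : ℝ) ^ (-c)) ^ n := by
    intro n
    have h2 : (2 : ℝ) ^ (c * n) ≤ (2 : ℝ) ^ (c * (((n + l0 : ℕ) : ℝ) + a + 3)) := by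
      apply Real.rpow_le_rpow_of_exponent_le (by norm_num)
      apply mul_le_mul_of_nonneg_left _ hc.le
      push_cast
      have : (0 : ℝ) ≤ l0 := Nat.cast_nonneg _
      have : (0 : ℝ) ≤ a := Nat.cast_nonneg _
      linarith
    have h3 : (0 : ℝ) < (2 : ℝ) ^ (c * n) := by positivity
    calc Real.exp (-(2 : ℝ) ^ (c * (((n + l0 : ℕ) : ℝ) + a + 3))) ≤ Real.exp (-(2 : ℝ) ^ (c * n)) :=
          Real.exp_le_exp.2 (by linarith)
      _ = (Real.exp ((2 : ℝ) ^ (c * n)))⁻¹ := Real.exp_neg _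
      _ ≤ ((2 : ℝ) ^ (c * n))⁻¹ := by
          apply inv_anti₀ h3
          linarith [Real.add_one_le_exp ((2 : ℝ) ^ (c * n))]
      _ = _ := by
          rw [← Real.rpow_neg (by norm_num), ← neg_mul, Real.rpow_mul (by norm_num), Real.rpow_natCast]
  have h2 : (2 : ℝ) ^ (-c) < 1 := Real.rpow_lt_one_of_one_lt_of_neg (by norm_num) (by linarith)
  have h3 : Summable (fun n : ℕ => ((2 : ℝ) ^ (-c)) ^ n) := summable_geometric_of_lt_one (by positivity) h2
  have h4 : ∑' n : ℕ, ENNReal.ofReal (Real.exp (-(2 : ℝ) ^ (c * (((n + l0 : ℕ) : ℝ) + a + 3)))) ≤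
      ∑' n : ℕ, ENNReal.ofReal (((2 : ℝ) ^ (-c)) ^ n) :=
    ENNReal.tsum_le_tsum fun n => ENNReal.ofReal_le_ofReal (h1 n)
  rw [← ENNReal.ofReal_tsum_of_nonneg (fun n => by positivity) h3] at h4
  exact ne_top_of_le_ne_top ENNReal.ofReal_ne_top h4

end DL1

/-- the limit curves have lower Minkowski dimension at least d > 1: covering numbers -/
theorem dim1_lim_of (hlaw : ∃ e1 : ℝ, 0 < e1 ∧ ∀ B : ℕ, ∃ (c : ℝ) (b0 l0 : ℕ), 0 < c ∧ ∀ L b1 T : ℕ, b0 ≤ b1 →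
    b1 + l0 ≤ L → 2 ^ L ≤ 2 ^ B * T →
    gf {t | t ∈ FCW T ∧ t ∈ WL L ∧ nb b1 t < (2 : ℝ) ^ ((1 + e1) * ((L : ℝ) - b1))} ≤
      ENNReal.ofReal (Real.exp (-(2 : ℝ) ^ (c * ((L : ℝ) - b1))))) :
    ∃ d : ℝ, 1 < d ∧ ∀ (X : ℕ → List Bool → C(unitInterval, ℂ))
    (μ : ℕ → ProbabilityMeasure C(unitInterval, ℂ)) (φ : ℕ → ℕ) (ν : ProbabilityMeasure C(unitInterval, ℂ)),
    (∀ T t, ∃ r : unitInterval ≃ₜ unitInterval, Monotone r ∧ ∀ u, X T t u = curve T t (r u)) →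
    (∀ T, (μ T : Measure C(unitInterval, ℂ)) = ((lawK T).map (X T)).toMeasure) →
    Tendsto φ atTop atTop → Tendsto (fun k => μ (φ k)) atTop (𝓝 ν) →
    ∀ᵐ (f : C(unitInterval, ℂ)) ∂(ν : Measure C(unitInterval, ℂ)), ∃ n0 : ℕ, ∀ n : ℕ, n0 ≤ n → ∀ F : Finset ℂ,
      Set.range f ⊆ ⋃ z ∈ F, Metric.closedBall z ((1 / 2) ^ n) → (2 : ℝ) ^ (d * n) ≤ F.card := by
  obtain ⟨e1, he1, hlaw⟩ := hlaw
  refine ⟨1 + e1 / 2, by linarith, fun X μ φ ν hX hμ hφ hν => ?_⟩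
  choose c b0 l0 hc hB using hlaw
  have h1 : ∀ a : ℕ, ∀ᵐ (f : C(unitInterval, ℂ)) ∂(ν : Measure C(unitInterval, ℂ)), ∀ᶠ n : ℕ in atTop,
      f ∉ DL1.CS ((1 / 2) ^ (n + l0 (a + 4))) (2 ^ a) (DL1.kk e1 (n + l0 (a + 4)) a) := by
    intro a
    apply ae_eventually_notMem
    refine ne_top_of_le_ne_top (DL1.sum_exp (hc (a + 4)) (l0 (a + 4)) a) ?_
    refine ENNReal.tsum_le_tsum fun n => ?_
    exact DL1.cs_lim (e1 := e1) (c := c (a + 4)) (b0 := b0 (a + 4)) (l0 := l0 (a + 4)) (hB (a + 4)) hX hμ hφ hν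
      (by omega)
  filter_upwards [ae_all_iff.2 h1] with f hf
  obtain ⟨a, ha⟩ : ∃ a : ℕ, ‖f‖ < 2 ^ a := by
    obtain ⟨a, ha⟩ := exists_nat_gt ‖f‖
    exact ⟨a, ha.trans (by exact_mod_cast Nat.lt_two_pow_self)⟩
  obtain ⟨m0, hm0⟩ := eventually_atTop.1 (hf a)
  obtain ⟨m1, hm1⟩ := exists_nat_ge (7 / (e1 / 2))
  rw [div_le_iff₀ (by positivity)] at hm1
  refine ⟨m0 + l0 (a + 4) + 1 + m1, fun n hn F hF => ?_⟩
  obtain ⟨m, rfl⟩ : ∃ m, n = m + l0 (a + 4) + 1 := ⟨n - l0 (a + 4) - 1, by omega⟩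
  have h2 := hm0 m (by omega)
  obtain ⟨l, hl⟩ : ∃ l, l = l0 (a + 4) := ⟨_, rfl⟩
  rw [← hl] at h2 hn hF ⊢
  by_contra hcon
  rw [not_le] at hcon
  refine h2 ⟨ha, F, ?_, ?_⟩
  · unfold DL1.kk
    apply Nat.le_floor
    have h3 : (2 : ℝ) ^ ((1 + e1 / 2) * ((m + l + 1 : ℕ) : ℝ)) ≤ (2 : ℝ) ^ ((1 + e1) * (((m + l : ℕ) : ℝ) + a + 3)) / 100 := by
      rw [le_div_iff₀ (by norm_num)]
      have h4 : (100 : ℝ) ≤ 2 ^ (7 : ℝ) := by norm_num
      calc (2 : ℝ) ^ ((1 + e1 / 2) * ((m + l + 1 : ℕ) : ℝ)) * 100 ≤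
          (2 : ℝ) ^ ((1 + e1 / 2) * ((m + l + 1 : ℕ) : ℝ)) * 2 ^ (7 : ℝ) := mul_le_mul_of_nonneg_left h4 (by positivity)
        _ = (2 : ℝ) ^ ((1 + e1 / 2) * ((m + l + 1 : ℕ) : ℝ) + 7) := (Real.rpow_add (by norm_num) _ _).symm
        _ ≤ _ := by
          apply Real.rpow_le_rpow_of_exponent_le (by norm_num)
          have h5 : (m1 : ℝ) ≤ (m + l + 1 : ℕ) := by
            have : m1 ≤ m + l + 1 := by omega
            exact_mod_cast this
          push_cast at h5 ⊢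
          have h6 : (7 : ℝ) ≤ ((m : ℝ) + l + 1) * (e1 / 2) := hm1.trans (mul_le_mul_of_nonneg_right h5 (by positivity))
          have h7 : (0 : ℝ) ≤ a := Nat.cast_nonneg a
          nlinarith
    exact hcon.le.trans h3
  · intro z hz
    have h3 := hF hz
    simp only [Set.mem_iUnion] at h3 ⊢
    obtain ⟨y, hy, hyz⟩ := h3
    refine ⟨y, hy, Metric.closedBall_subset_ball ?_ hyz⟩
    exact pow_lt_pow_right_of_lt_one₀ (by norm_num) (by norm_num) (by omega)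

end SDN

end HexObs
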