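import Pool.Agent.SDN.CrowdBrd
import Pool.Agent.SDN.CleanChain
import Pool.Agent.SDN.TvLaw
import Pool.Agent.SDN.Dim1Law
import Pool.Agent.SDN.Dim1Lim

/-!
SDN, lower bound of the dimension (board/DIM1): the number of the visited cells and the covering numbers of the limits.
-/

set_option autoImplicit false

namespace HexObs

open Finset MeasureTheory Filter Topology

open scoped ENNReal

namespace SDN

theorem dim1_law : ∃ e1 : ℝ, 0 < e1 ∧ ∀ B : ℕ, ∃ (c : ℝ) (b0 l0 : ℕ), 0 < c ∧ ∀ L b1 T : ℕ, b0 ≤ b1 → b1 + l0 ≤ L →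
    2 ^ L ≤ 2 ^ B * T →
    gf {t | t ∈ FCW T ∧ t ∈ WL L ∧ nb b1 t < (2 : ℝ) ^ ((1 + e1) * ((L : ℝ) - b1))} ≤
      ENNReal.ofReal (Real.exp (-(2 : ℝ) ^ (c * ((L : ℝ) - b1)))) :=
  dim1_law_of (tv_law_of clean_chain) crowd_brd

/-- the limit curves have lower Minkowski dimension at least d > 1: covering numbers -/
theorem dim1_lim : ∃ d : ℝ, 1 < d ∧ ∀ (X : ℕ → List Bool → C(unitInterval, ℂ))
    (μ : ℕ → ProbabilityMeasure C(unitInterval, ℂ)) (φ : ℕ → ℕ) (ν : ProbabilityMeasure C(unitInterval, ℂ)),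
    (∀ T t, ∃ r : unitInterval ≃ₜ unitInterval, Monotone r ∧ ∀ u, X T t u = curve T t (r u)) →
    (∀ T, (μ T : Measure C(unitInterval, ℂ)) = ((lawK T).map (X T)).toMeasure) →
    Tendsto φ atTop atTop → Tendsto (fun k => μ (φ k)) atTop (𝓝 ν) →
    ∀ᵐ (f : C(unitInterval, ℂ)) ∂(ν : Measure C(unitInterval, ℂ)), ∃ n0 : ℕ, ∀ n : ℕ, n0 ≤ n → ∀ F : Finset ℂ,
      Set.range f ⊆ ⋃ z ∈ F, Metric.closedBall z ((1 / 2) ^ n) → (2 : ℝ) ^ (d * n) ≤ F.card :=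
  dim1_lim_of dim1_law

end SDN

end HexObs
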