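import Pool.Agent.SDN.Defs
import Pool.Agent.Tight.Defs

/-!
SDN, limit version (board/DIM): definitions.
-/

set_option autoImplicit false

namespace HexObs

namespace SDN

open Finset TS

open scoped ENNReal

/-- bridges in the box of radius 2 ^ L -/
def BL (L : ℕ) : Set (List Bool) := {t | t ∈ BU ∧ t ∈ WL L}

/-- the walk w contains the walk t (times a, ..., a + |t|), the direction false of w is the opposite of the direction
true of t; no backtracks of size RR b of w before and after t -/
structure Emb (b : ℕ) (t w : List Bool) (a : ℕ) : Prop where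
  le : a + t.length ≤ w.length
  rel : ∃ c : ℤ, ∀ i, i ≤ t.length → lvl false (vx oo up w (a + i)) = c - lvl true (vx oo up t i)
  pre : ∀ i i', i ≤ i' → i' ≤ a → lvl false (vx oo up w i) - lvl false (vx oo up w i') < RR b
  post : ∀ i i', a + t.length ≤ i → i ≤ i' → i' ≤ w.length →
    lvl false (vx oo up w i) - lvl false (vx oo up w i') < RR b

/-- good first cut words: height in [S, K S], box K S, they go to the right -/
def GG (K S : ℕ) : Set (List Bool) := {g | ∃ j, S ≤ j ∧ j ≤ K * S ∧ g ∈ FC S j ∧ InBox g (K * S) ∧ 0 ≤ latE g}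

/-- q good words -/
def VV (K S : ℕ) : ℕ → Set (List Bool)
  | 0 => {[]}
  | q + 1 => {v | ∃ x ∈ GG K S, ∃ y ∈ VV K S q, v = x ++ y}

end SDN

end HexObs
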