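import Pool.Agent.SDN.Crowd
import Pool.Agent.SDN.DimDefs

/-!
SDN, limit version (board/DIM), M7: the crowding bound for bridges, direction false.
-/

set_option autoImplicit false

namespace HexObs

namespace SDN

open Finset TS

open scoped ENNReal

namespace CrwB

lemma le_pow52 (k : ℕ) : (k : ℝ) ≤ (5 / 2 : ℝ) ^ k := by
  have h := one_add_mul_le_pow (a := (3 / 2 : ℝ)) (by norm_num) k
  have h2 : (1 : ℝ) + 3 / 2 = 5 / 2 := by norm_num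
  rw [h2] at h
  have h3 : (0 : ℝ) ≤ k := Nat.cast_nonneg k
  linarith

/-- the term of the scale L + 3 - k with m leaves -/
lemma term_le {U C A Y : ℝ} (hU : 0 ≤ U) (hC : 0 < C) (hA : C + 2 ≤ A) (hY : 1 ≤ Y) {k m : ℕ}
    (h : A * (Y * (5 / 2 : ℝ) ^ k) < m) :
    ENNReal.ofReal (U * ((2 : ℝ) ^ (C * (k : ℝ)) * C / 4 ^ m)) ≤
      ENNReal.ofReal (U * (C * (2 : ℝ) ^ (-Y))) * (1 / 2) ^ k * (1 / 2) ^ m := by
  have e1 : ∀ n : ℕ, ((1 / 2 : ℝ≥0∞)) ^ n = ENNReal.ofReal ((1 / 2 : ℝ) ^ n) := by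
    intro n
    rw [ENNReal.ofReal_pow (by norm_num), ENNReal.ofReal_div_of_pos (by norm_num), ENNReal.ofReal_one,
      ENNReal.ofReal_ofNat]
  rw [e1, e1, ← ENNReal.ofReal_mul (by positivity), ← ENNReal.ofReal_mul (by positivity)]
  apply ENNReal.ofReal_le_ofReal
  have hk : (k : ℝ) ≤ (5 / 2 : ℝ) ^ k := le_pow52 k
  have h52 : (1 : ℝ) ≤ (5 / 2 : ℝ) ^ k := one_le_pow₀ (by norm_num)
  have hk0 : (0 : ℝ) ≤ k := Nat.cast_nonneg k
  -- exponents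
  have hE : C * (k : ℝ) + -(m : ℝ) ≤ -Y + -(k : ℝ) := by
    have h1 : (C + 2) * (Y * (5 / 2 : ℝ) ^ k) ≤ A * (Y * (5 / 2 : ℝ) ^ k) :=
      mul_le_mul_of_nonneg_right hA (by positivity)
    have h2 : Y ≤ Y * (5 / 2 : ℝ) ^ k := le_mul_of_one_le_right (by linarith) h52
    have h3 : (k : ℝ) ≤ Y * (5 / 2 : ℝ) ^ k := hk.trans (le_mul_of_one_le_left (by positivity) hY)
    have h4 : C * (k : ℝ) ≤ C * (Y * (5 / 2 : ℝ) ^ k) := mul_le_mul_of_nonneg_left h3 hC.le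
    linarith
  have h5 : (2 : ℝ) ^ (C * (k : ℝ)) * (2 : ℝ) ^ (-(m : ℝ)) ≤ (2 : ℝ) ^ (-Y) * (2 : ℝ) ^ (-(k : ℝ)) := by
    rw [← Real.rpow_add (by norm_num), ← Real.rpow_add (by norm_num)]
    exact Real.rpow_le_rpow_of_exponent_le (by norm_num) hE
  have h6 : ∀ n : ℕ, (2 : ℝ) ^ (-(n : ℝ)) = (1 / 2 : ℝ) ^ n := by
    intro n
    rw [Real.rpow_neg (by norm_num), Real.rpow_natCast]
    simp
  rw [h6, h6] at h5
  have h7 : U * ((2 : ℝ) ^ (C * (k : ℝ)) * C / 4 ^ m) =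
      (U * C) * ((2 : ℝ) ^ (C * (k : ℝ)) * (1 / 2 : ℝ) ^ m) * (1 / 2 : ℝ) ^ m := by
    have : (4 : ℝ) ^ m = 2 ^ m * 2 ^ m := by
      rw [← mul_pow]
      norm_num
    rw [this, one_div, inv_pow]
    field_simp
  rw [h7]
  calc (U * C) * ((2 : ℝ) ^ (C * (k : ℝ)) * (1 / 2 : ℝ) ^ m) * (1 / 2 : ℝ) ^ m ≤
      (U * C) * ((2 : ℝ) ^ (-Y) * (1 / 2 : ℝ) ^ k) * (1 / 2 : ℝ) ^ m := by
        gcongr
    _ = U * (C * (2 : ℝ) ^ (-Y)) * (1 / 2) ^ k * (1 / 2) ^ m := by ring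

lemma tsum_half : ∑' m : ℕ, (1 / 2 : ℝ≥0∞) ^ m = 2 := by
  rw [ENNReal.tsum_geometric, one_div, ENNReal.one_sub_inv_two, inv_inv]

end CrwB

open Crw CrwB in
/-- CROWDING for bridges, direction false: sum over the scales b ≥ b1 -/
theorem crowd_false_of (hcrowd : ∀ Λ : ℝ, 1 ≤ Λ → ∃ (A C : ℝ) (b0 : ℕ), 1 ≤ A ∧ 0 < C ∧ 1 ≤ b0 ∧ ∀ (L b m : ℕ), b0 ≤ b →
    b ≤ L + 2 → gf {t | t ∈ BL L ∧ ∃ u e, Lf false b t m u e ∧ A * nb b t ≤ m ∧
      (dbl (2 ^ (b - 1)) (lws t e 1 (m - 2)) : ℝ) ≤ Λ * m} ≤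
      ENNReal.ofReal (Ub L * ((2 : ℝ) ^ (C * ((L : ℝ) + 3 - b)) * C / 4 ^ m))) :
    ∃ (A C : ℝ) (b0 : ℕ), 1 ≤ A ∧ 0 < C ∧ 1 ≤ b0 ∧ ∀ (L b1 : ℕ) (Y : ℝ), b0 ≤ b1 →
    b1 ≤ L → 1 ≤ Y →
    gf {t | t ∈ BL L ∧ ∃ b m u e, b1 ≤ b ∧ b ≤ L + 2 ∧ Lf false b t m u e ∧ A * DD L Y b t < m} ≤
      ENNReal.ofReal (Ub L * (C * (2 : ℝ) ^ (-Y))) := by
  obtain ⟨A0, C, b0, hA0, hC, hb0, hP⟩ := hcrowd 12 (by norm_num)
  refine ⟨max A0 (C + 2), 4 * C, b0, hA0.trans (le_max_left _ _), by positivity, hb0, ?_⟩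
  intro L b1 Y hb1 hL hY
  set A := max A0 (C + 2) with hAdef
  have hA : 1 ≤ A := hA0.trans (le_max_left _ _)
  have hA0' : 0 ≤ A := by linarith
  have hY0 : 0 ≤ Y := by linarith
  have hU : 0 ≤ Ub L := by
    unfold Ub UU
    exact Finset.sum_nonneg fun _ _ => ENNReal.toReal_nonneg
  -- the sets of the scale b = L + 3 - k with m leaves
  let Q : ℕ → ℕ → Set (List Bool) := fun k m => {t | ∃ b, b + k = L + 3 ∧ (b0 ≤ b ∧ b ≤ L + 2 ∧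
    A * (Y * (5 / 2 : ℝ) ^ k) < m) ∧ t ∈ BL L ∧ ∃ u e,
    Lf false b t m u e ∧ A0 * nb b t ≤ m ∧ (dbl (2 ^ (b - 1)) (lws t e 1 (m - 2)) : ℝ) ≤ 12 * m}
  have hQ : ∀ k m, gf (Q k m) ≤ ENNReal.ofReal (Ub L * (C * (2 : ℝ) ^ (-Y))) * (1 / 2) ^ k * (1 / 2) ^ m := by
    intro k m
    by_cases h : b0 ≤ L + 3 - k ∧ k ≤ L + 3 ∧ L + 3 - k ≤ L + 2 ∧ A * (Y * (5 / 2 : ℝ) ^ k) < m
    · have hsub : Q k m ⊆ {t | t ∈ BL L ∧ ∃ u e, Lf false (L + 3 - k) t m u e ∧ A0 * nb (L + 3 - k) t ≤ m ∧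
          (dbl (2 ^ (L + 3 - k - 1)) (lws t e 1 (m - 2)) : ℝ) ≤ 12 * m} := by
        rintro t ⟨b, hb, _, ht⟩
        have : b = L + 3 - k := by omega
        subst this
        exact ht
      refine (gf_mono hsub).trans ((hP L (L + 3 - k) m h.1 h.2.2.1).trans ?_)
      have e1 : ((L : ℝ) + 3 - ((L + 3 - k : ℕ) : ℝ)) = (k : ℝ) := by
        rw [Nat.cast_sub h.2.1]
        push_cast
        ring
      rw [e1]
      exact CrwB.term_le hU hC (le_max_right _ _) hY h.2.2.2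
    · have : Q k m = ∅ := by
        ext t
        refine ⟨?_, fun ht => ht.elim⟩
        rintro ⟨b, hb, h1, _⟩
        exact h ⟨by omega, by omega, by omega, h1.2.2⟩
      rw [this]
      simp [gf]
  have hsub : {t | t ∈ BL L ∧ ∃ b m u e, b1 ≤ b ∧ b ≤ L + 2 ∧ Lf false b t m u e ∧ A * DD L Y b t < m} ⊆
      ⋃ k : ℕ, ⋃ m : ℕ, Q k m := by
    rintro t ⟨ht, hex⟩
    classical
    have htW : t ∈ WL L := ht.2
    -- the largest bad scale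
    let bad : ℕ → Prop := fun b => ∃ m u e, b1 ≤ b ∧ b ≤ L + 2 ∧ Lf false b t m u e ∧ A * DD L Y b t < m
    obtain ⟨b', hb'⟩ : ∃ b, bad b := by
      obtain ⟨b, m, u, e, h⟩ := hex
      exact ⟨b, m, u, e, h⟩
    have hle : b' ≤ L + 2 := by
      obtain ⟨_, _, _, h⟩ := hb'
      exact h.2.1
    have hg := Nat.findGreatest_spec (P := bad) hle hb'
    set b := Nat.findGreatest bad (L + 2) with hbdef
    obtain ⟨m, u, e, h1, h2, h3, h4⟩ := hg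
    have hgt' : ∀ c, b + 1 ≤ c → c ≤ L + 2 → ∃ m u e, Lf false c t m u e ∧ (m : ℝ) ≤ A * DD L Y c t := by
      intro c hc1 hc2
      obtain ⟨m', u', e', h'⟩ := lf_exists false c t
      refine ⟨m', u', e', h', ?_⟩
      by_contra hlt
      have hbc : bad c := ⟨m', u', e', by omega, hc2, h', lt_of_not_ge hlt⟩
      have := Nat.le_findGreatest (P := bad) hc2 hbc
      omega
    have hD0 : Y ≤ DD L Y b t := DD_ge_Y hY0 b t
    have hDn : (nb b t : ℝ) ≤ DD L Y b t := DD_ge_nb hY0 h2 t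
    have hbL : b ≤ L + 1 := by
      by_contra hcon
      have hm0 := lf_top htW (show L + 2 ≤ b by omega) h3
      subst hm0
      have : 0 ≤ A * DD L Y b t := mul_nonneg hA0' (by linarith)
      simp only [Nat.cast_zero] at h4
      linarith
    have hd := dbl_DD htW hA hY (by omega) hbL h3 hgt'
    rw [Set.mem_iUnion]
    refine ⟨L + 3 - b, ?_⟩
    rw [Set.mem_iUnion]
    refine ⟨m, b, by omega, ⟨by omega, h2, ?_⟩, ht, u, e, h3, ?_, ?_⟩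
    · have : A * (Y * (5 / 2 : ℝ) ^ (L + 3 - b)) ≤ A * DD L Y b t := mul_le_mul_of_nonneg_left (CD.DD_low t) hA0'
      linarith
    · have h5 : A0 * nb b t ≤ A * nb b t := mul_le_mul_of_nonneg_right (le_max_left _ _) (Nat.cast_nonneg _)
      have h6 : A * nb b t ≤ A * DD L Y b t := mul_le_mul_of_nonneg_left hDn hA0'
      linarith
    · have : 10 * A * DD L Y b t ≤ 10 * m := by nlinarith
      linarith
  refine (gf_mono hsub).trans ?_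
  have hS : ∀ k : ℕ, gf (⋃ m : ℕ, Q k m) ≤ ENNReal.ofReal (Ub L * (C * (2 : ℝ) ^ (-Y))) * (1 / 2) ^ k * 2 := by
    intro k
    refine (gf_iUnion_le _).trans ((ENNReal.tsum_le_tsum fun m => hQ k m).trans ?_)
    rw [ENNReal.tsum_mul_left, tsum_half]
  refine (gf_iUnion_le _).trans ((ENNReal.tsum_le_tsum hS).trans ?_)
  rw [ENNReal.tsum_mul_right, ENNReal.tsum_mul_left, tsum_half]
  have e2 : ENNReal.ofReal (Ub L * (C * (2 : ℝ) ^ (-Y))) * 2 * 2 =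
      ENNReal.ofReal (Ub L * (4 * C * (2 : ℝ) ^ (-Y))) := by
    have h4 : (2 : ℝ≥0∞) = ENNReal.ofReal 2 := by rw [ENNReal.ofReal_ofNat]
    rw [h4, ← ENNReal.ofReal_mul (by positivity), ← ENNReal.ofReal_mul (by positivity)]
    congr 1
    ring
  rw [e2]

end SDN

end HexObs
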