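import Pool.Agent.SDN.TubeFin
import Pool.Agent.SDN.CrowdB

/-!
SDN, limit version, module M7: the crowding estimate for bridges in both directions, from crowd_brd.
-/

set_option autoImplicit false

namespace HexObs

namespace SDN

open Finset TS

open scoped ENNReal

/-- M7 from crowd_brd -/
theorem crowd_bound_brd_of (hcrowd : ∀ Λ : ℝ, 1 ≤ Λ → ∃ (A C : ℝ) (b0 : ℕ), 1 ≤ A ∧ 0 < C ∧ 1 ≤ b0 ∧ ∀ (L b m : ℕ), b0 ≤ b →
    b ≤ L + 2 → gf {t | t ∈ BL L ∧ ∃ u e, Lf false b t m u e ∧ A * nb b t ≤ m ∧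
      (dbl (2 ^ (b - 1)) (lws t e 1 (m - 2)) : ℝ) ≤ Λ * m} ≤
      ENNReal.ofReal (Ub L * ((2 : ℝ) ^ (C * ((L : ℝ) + 3 - b)) * C / 4 ^ m))) :
    ∃ (A C : ℝ) (b0 : ℕ), 1 ≤ A ∧ 0 < C ∧ 1 ≤ b0 ∧ ∀ (L b1 : ℕ) (Y : ℝ) (dir : Bool), b0 ≤ b1 →
    b1 ≤ L → 1 ≤ Y →
    gf {t | t ∈ BL L ∧ ∃ b m u e, b1 ≤ b ∧ b ≤ L + 2 ∧ Lf dir b t m u e ∧ A * DD L Y b t < m} ≤
      ENNReal.ofReal (Ub L * (C * (2 : ℝ) ^ (-Y))) := by
  obtain ⟨A1, C1, b01, hA1, hC1, hb1, h1⟩ := crowd_false_of hcrowd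
  obtain ⟨A2, C2, b02, hA2, hC2, hb2, h2⟩ := crowd_true_brd hcrowd
  refine ⟨max A1 A2, max C1 C2, max b01 b02, hA1.trans (le_max_left _ _), lt_of_lt_of_le hC1 (le_max_left _ _),
    hb1.trans (le_max_left _ _), ?_⟩
  intro L b1 Y dir hb hL hY
  have hU := (Ub_pos L).le
  have hD : ∀ (b : ℕ) (t : List Bool), 0 ≤ DD L Y b t := fun b t => CD.DD_nonneg (by linarith) t
  cases dir with
  | false =>
    refine (gf_mono ?_).trans ((h1 L b1 Y ((le_max_left _ _).trans hb) hL hY).trans (ENNReal.ofReal_le_ofReal ?_))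
    · rintro t ⟨ht, b, m, u, e, e1, e2, e3, e4⟩
      refine ⟨ht, b, m, u, e, e1, e2, e3, lt_of_le_of_lt ?_ e4⟩
      exact mul_le_mul_of_nonneg_right (le_max_left _ _) (hD b t)
    · gcongr
      exact le_max_left _ _
  | true =>
    refine (gf_mono ?_).trans ((h2 L b1 Y ((le_max_right _ _).trans hb) hL hY).trans (ENNReal.ofReal_le_ofReal ?_))
    · rintro t ⟨ht, b, m, u, e, e1, e2, e3, e4⟩
      refine ⟨ht, b, m, u, e, e1, e2, e3, lt_of_le_of_lt ?_ e4⟩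
      exact mul_le_mul_of_nonneg_right (le_max_right _ _) (hD b t)
    · gcongr
      exact le_max_right _ _

end SDN

end HexObs
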