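import Pool.Agent.SDN.DimDefs
import Pool.Agent.Tight.Touch2
import Pool.Agent.Tight.LeafArcs

/-!
SDN, limit version (board/DIM), module M10: covering numbers of the limit curves.
-/

set_option autoImplicit false

namespace HexObs

open Finset MeasureTheory Filter Topology

open scoped ENNReal

namespace SDN

namespace DLM

/-- the open square of side 2 δ around the grid point number p -/
def Sq (δ : ℝ) (p : ℤ × ℤ) : Set ℂ := {z | |z.re - p.1 * δ| < δ ∧ |z.im - p.2 * δ| < δ}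

lemma open_Sq (δ : ℝ) (p : ℤ × ℤ) : IsOpen (Sq δ p) := by
  apply IsOpen.inter
  · exact isOpen_lt (Complex.continuous_re.sub continuous_const).abs continuous_const
  · exact isOpen_lt (Complex.continuous_im.sub continuous_const).abs continuous_const

lemma cover_Sq {δ : ℝ} (hδ : 0 < δ) (z : ℂ) : ∃ p : ℤ × ℤ, z ∈ Sq δ p := by
  refine ⟨(round (z.re / δ), round (z.im / δ)), ?_, ?_⟩
  · have h1 := abs_sub_round (z.re / δ)
    have h2 : z.re - (round (z.re / δ) : ℤ) * δ = (z.re / δ - round (z.re / δ)) * δ := by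
      field_simp
    rw [h2, abs_mul, abs_of_pos hδ]
    nlinarith
  · have h1 := abs_sub_round (z.im / δ)
    have h2 : z.im - (round (z.im / δ) : ℤ) * δ = (z.im / δ - round (z.im / δ)) * δ := by
      field_simp
    rw [h2, abs_mul, abs_of_pos hδ]
    nlinarith

lemma Sq_ball {δ : ℝ} {p : ℤ × ℤ} {z : ℂ} (hz : z ∈ Sq δ p) :
    dist z ⟨p.1 * δ, p.2 * δ⟩ ≤ 2 * δ := by
  rw [Complex.dist_eq]
  refine (Complex.norm_le_abs_re_add_abs_im _).trans ?_
  rw [Complex.sub_re, Complex.sub_im]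
  linarith [hz.1, hz.2]

/-- the curves in the ball of radius A that meet at least k squares -/
def GS (δ A : ℝ) (k : ℕ) : Set C(unitInterval, ℂ) :=
  {f | ‖f‖ < A ∧ ∃ S : Finset (ℤ × ℤ), k ≤ S.card ∧ ∀ p ∈ S, ∃ u, f u ∈ Sq δ p}

lemma open_GS (δ A : ℝ) (k : ℕ) : IsOpen (GS δ A k) := by
  have h : GS δ A k = {f : C(unitInterval, ℂ) | ‖f‖ < A} ∩ ⋃ S : {S : Finset (ℤ × ℤ) // k ≤ S.card},
      ⋂ p ∈ S.1, ⋃ u : unitInterval, {f : C(unitInterval, ℂ) | f u ∈ Sq δ p} := by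
    ext f
    simp only [GS, Set.mem_ofPred_eq, Set.mem_inter_iff, Set.mem_iUnion, Set.mem_iInter, Subtype.exists, exists_prop]
  rw [h]
  apply IsOpen.inter
  · exact isOpen_lt continuous_norm continuous_const
  · apply isOpen_iUnion
    intro S
    apply isOpen_biInter_finset
    intro p _
    apply isOpen_iUnion
    intro u
    exact (open_Sq δ p).preimage (continuous_eval_const u)

lemma row_false (t : List Bool) (i : ℕ) : row false (vx oo up t i) = lev t i / 3 := rfl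

lemma row_true (t : List Bool) (i : ℕ) : row true (vx oo up t i) = (-(2 * (vx oo up t i).1 + (vx oo up t i).2)) / 3 := by
  show ip (vx oo up t i) (-1, 0) / 3 = _
  congr 1
  unfold ip
  ring

lemma lev_eq1 (t : List Bool) (i : ℕ) : lev t i = (vx oo up t i).1 + 2 * (vx oo up t i).2 := by
  unfold lev ip up
  ring

lemma lat_eq1 (t : List Bool) (i : ℕ) : lat t i = (vx oo up t i).1 := by
  unfold lat cross up
  ring

/-- vertices in the same cell are close -/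
lemma same_cell {b : ℕ} {t : List Bool} {i i' : ℕ} (h : cell b (vx oo up t i) = cell b (vx oo up t i')) :
    |lev t i - lev t i'| ≤ 6 * 2 ^ b ∧ |lat t i - lat t i'| ≤ 6 * 2 ^ b := by
  have h1 : row false (vx oo up t i) / 2 ^ b = row false (vx oo up t i') / 2 ^ b := congrArg Prod.fst h
  have h2 : row true (vx oo up t i) / 2 ^ b = row true (vx oo up t i') / 2 ^ b := congrArg Prod.snd h
  rw [row_false, row_false] at h1
  rw [row_true, row_true] at h2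
  rw [lat_eq1, lat_eq1]
  rw [lev_eq1] at h1
  rw [lev_eq1] at h1
  rw [lev_eq1, lev_eq1]
  have hp : (1 : ℤ) ≤ 2 ^ b := one_le_pow₀ (by norm_num)
  obtain ⟨P, hP⟩ : ∃ P : ℤ, P = 2 ^ b := ⟨_, rfl⟩
  rw [← hP] at h1 h2 hp ⊢
  obtain ⟨x, hx⟩ : ∃ x, x = (vx oo up t i).1 := ⟨_, rfl⟩
  obtain ⟨y, hy⟩ : ∃ y, y = (vx oo up t i).2 := ⟨_, rfl⟩
  obtain ⟨x', hx'⟩ : ∃ x', x' = (vx oo up t i').1 := ⟨_, rfl⟩
  obtain ⟨y', hy'⟩ : ∃ y', y' = (vx oo up t i').2 := ⟨_, rfl⟩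
  rw [← hx, ← hy, ← hx', ← hy'] at h1 h2
  rw [← hx, ← hy, ← hx', ← hy']
  have hP0 : 0 < P := by omega
  have a1 := Int.mul_ediv_add_emod ((x + 2 * y) / 3) P
  have a2 := Int.emod_lt_of_pos ((x + 2 * y) / 3) hP0
  have a3 := Int.emod_nonneg ((x + 2 * y) / 3) hP0.ne'
  have b1 := Int.mul_ediv_add_emod ((x' + 2 * y') / 3) P
  have b2 := Int.emod_lt_of_pos ((x' + 2 * y') / 3) hP0
  have b3 := Int.emod_nonneg ((x' + 2 * y') / 3) hP0.ne'
  have c1 := Int.mul_ediv_add_emod ((-(2 * x + y)) / 3) P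
  have c2 := Int.emod_lt_of_pos ((-(2 * x + y)) / 3) hP0
  have c3 := Int.emod_nonneg ((-(2 * x + y)) / 3) hP0.ne'
  have d1 := Int.mul_ediv_add_emod ((-(2 * x' + y')) / 3) P
  have d2 := Int.emod_lt_of_pos ((-(2 * x' + y')) / 3) hP0
  have d3 := Int.emod_nonneg ((-(2 * x' + y')) / 3) hP0.ne'
  rw [h1] at a1
  rw [h2] at c1
  rw [abs_le, abs_le]
  refine ⟨⟨?_, ?_⟩, ?_, ?_⟩ <;> omega

/-- the curve passes through the vertices -/
lemma node {T : ℕ} (t : List Bool) {i : ℕ} (hi : i ≤ t.length) : ∃ u : unitInterval, curve T t u = zp t i / T := by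
  rcases Nat.lt_or_ge i t.length with h | h
  · have hn : (0 : ℝ) < t.length := by
      have : 0 < t.length := by omega
      exact_mod_cast this
    have hi0 : (0 : ℝ) ≤ i := Nat.cast_nonneg i
    have hi1 : (i : ℝ) ≤ t.length := by exact_mod_cast hi
    refine ⟨⟨i / t.length, by positivity, by rw [div_le_one hn]; exact hi1⟩, ?_⟩
    have e : (i : ℝ) / t.length * t.length = i := by field_simp
    have h1 := Tight.poly_apply (z := fun i => zp t i / T) h (s := ⟨i / t.length, by positivity, by rw [div_le_one hn]; exact hi1⟩)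
      (by show (i : ℝ) ≤ (i : ℝ) / t.length * t.length; rw [e])
      (by show (i : ℝ) / t.length * t.length ≤ i + 1; rw [e]; linarith)
    unfold curve
    rw [h1]
    have e2 : (((⟨i / t.length, by positivity, by rw [div_le_one hn]; exact hi1⟩ : unitInterval) : ℝ) * t.length - i : ℝ) = 0 := by
      show (i : ℝ) / t.length * t.length - i = 0
      rw [e, sub_self]
    rw [e2]
    simp
  · have : i = t.length := by omega
    subst this
    exact ⟨1, by unfold curve; rw [Tight.poly_one]⟩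

lemma re_step (t : List Bool) {T : ℕ} (hT : 1 ≤ T) (i : ℕ) :
    |(zp t i / (T : ℂ)).re - (zp t (i + 1) / (T : ℂ)).re| ≤ 1 / T := by
  have hT' : (0 : ℝ) < T := by exact_mod_cast hT
  have h1 : dist (zp t i / T) (zp t (i + 1) / T) = 1 / T := by
    rw [dist_eq_norm, ← sub_div, norm_div, ← dist_eq_norm, zp_step, Complex.norm_natCast]
  rw [← h1, Complex.dist_eq, ← Complex.sub_re]
  exact Complex.abs_re_le_norm _

lemma sqrt3 : 0 < Real.sqrt 3 ∧ 17 / 10 ≤ Real.sqrt 3 := by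
  refine ⟨Real.sqrt_pos.2 (by norm_num), ?_⟩
  apply Real.le_sqrt_of_sq_le
  norm_num

/-- a vertex close to a point of the curve -/
lemma near {T : ℕ} (hT : 1 ≤ T) {t : List Bool} (hn : 1 ≤ t.length) (u : unitInterval) : ∃ i, i ≤ t.length ∧
    |(curve T t u).re - (zp t i / (T : ℂ)).re| ≤ 1 / T ∧ |(curve T t u).im - (zp t i / (T : ℂ)).im| ≤ 1 / T := by
  obtain ⟨i, x, hi, hx0, hx1, -, him, hre⟩ := Touch.pts (T := T) hn u
  have h1 := re_step t hT i
  have h2 := Touch.im_step t hT i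
  refine ⟨i, hi.le, ?_, ?_⟩
  · rw [hre]
    have e : (1 - x) * (zp t i / (T : ℂ)).re + x * (zp t (i + 1) / (T : ℂ)).re - (zp t i / (T : ℂ)).re =
        -(x * ((zp t i / (T : ℂ)).re - (zp t (i + 1) / (T : ℂ)).re)) := by ring
    rw [e, abs_neg, abs_mul, abs_of_nonneg hx0]
    calc x * |(zp t i / (T : ℂ)).re - (zp t (i + 1) / (T : ℂ)).re| ≤ 1 * (1 / T) :=
          mul_le_mul hx1 h1 (abs_nonneg _) (by norm_num)
      _ = _ := one_mul _
  · rw [him]
    have e : (1 - x) * (zp t i / (T : ℂ)).im + x * (zp t (i + 1) / (T : ℂ)).im - (zp t i / (T : ℂ)).im =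
        -(x * ((zp t i / (T : ℂ)).im - (zp t (i + 1) / (T : ℂ)).im)) := by ring
    rw [e, abs_neg, abs_mul, abs_of_nonneg hx0]
    calc x * |(zp t i / (T : ℂ)).im - (zp t (i + 1) / (T : ℂ)).im| ≤ 1 * (1 / T) :=
          mul_le_mul hx1 h2 (abs_nonneg _) (by norm_num)
      _ = _ := one_mul _

/-- the words of the curves that meet many squares -/
lemma gs_word {T : ℕ} (hT : 1 ≤ T) {A δ : ℝ} {k L b1 j : ℕ} (hδ : (2 : ℝ) ^ b1 ≤ δ * T) (hA : 4 * A * T + 4 ≤ 2 ^ L)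
    {f : C(unitInterval, ℂ)} {t : List Bool} (ht : t ∈ FC T j) {r : unitInterval ≃ₜ unitInterval}
    (hf : ∀ u, f u = curve T t (r u)) (h : f ∈ GS δ A k) : t ∈ WL L ∧ k ≤ 625 * nb b1 t := by
  classical
  obtain ⟨hn, S, hS, hS2⟩ := h
  have hT0 : (0 : ℝ) < T := by exact_mod_cast hT
  have hb1 : (1 : ℝ) ≤ 2 ^ b1 := one_le_pow₀ (by norm_num)
  have hδT : 1 ≤ δ * T := hb1.trans hδ
  have hδ0 : 0 < δ := by
    by_contra hc
    have : δ * T ≤ 0 := mul_nonpos_of_nonpos_of_nonneg (not_lt.1 hc) hT0.le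
    linarith
  have hlen := Touch.len_pos hT ht
  have hBrd := mem_Brd.1 ht.1
  have hs3 := sqrt3
  constructor
  · -- the box
    refine ⟨⟨fun _ _ _ => Set.mem_univ _, hBrd.2.1⟩, ?_⟩
    intro i hi dir
    obtain ⟨u, hu⟩ := node (T := T) t hi
    have h1 : ‖zp t i / (T : ℂ)‖ < A := by
      rw [← hu, ← r.apply_symm_apply u, ← hf]
      exact lt_of_le_of_lt (f.norm_coe_le_norm _) hn
    have h2 : |(zp t i / (T : ℂ)).im| < A := lt_of_le_of_lt (Complex.abs_im_le_norm _) h1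
    have h3 : |(zp t i / (T : ℂ)).re| < A := lt_of_le_of_lt (Complex.abs_re_le_norm _) h1
    rw [Touch.im_div, div_div, abs_div, abs_of_pos (show (0 : ℝ) < 2 * T by positivity), div_lt_iff₀ (by positivity)] at h2
    rw [Touch.re_div, abs_div, abs_of_pos hT0, div_lt_iff₀ hT0, abs_mul, abs_of_pos (show (0 : ℝ) < Real.sqrt 3 / 2 by
      linarith [hs3.1])] at h3
    have h4 : |(lat t i : ℝ)| ≤ 2 * A * T := by
      have h5 : 0 ≤ |(lat t i : ℝ)| := abs_nonneg _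
      nlinarith [hs3.2]
    have h2' : |(lev t i : ℝ)| ≤ 2 * A * T := by linarith
    obtain ⟨P, hP⟩ : ∃ P : ℤ, P = 2 ^ L := ⟨_, rfl⟩
    have hPR : (P : ℝ) = 2 ^ L := by rw [hP]; push_cast; ring
    have h5 : 2 * |lev t i| + 4 ≤ P := by
      have : (2 * |(lev t i : ℝ)| + 4 : ℝ) ≤ P := by rw [hPR]; linarith
      exact_mod_cast this
    have h6 : 2 * |lat t i| + 4 ≤ P := by
      have : (2 * |(lat t i : ℝ)| + 4 : ℝ) ≤ P := by rw [hPR]; linarith
      exact_mod_cast this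
    rw [← hP]
    have h7 : -|lev t i| ≤ lev t i ∧ lev t i ≤ |lev t i| := ⟨neg_abs_le _, le_abs_self _⟩
    have h8 : -|lat t i| ≤ lat t i ∧ lat t i ≤ |lat t i| := ⟨neg_abs_le _, le_abs_self _⟩
    rw [lev_eq1] at h5 h7
    rw [lat_eq1] at h6 h8
    generalize |(vx oo up t i).1 + 2 * (vx oo up t i).2| = a at h5 h7
    generalize |(vx oo up t i).1| = c at h6 h8
    rw [abs_le]
    cases dir
    · rw [row_false, lev_eq1]
      constructor <;> omega
    · rw [row_true]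
      constructor <;> omega
  · -- the number of the cells
    have h1 : ∀ p ∈ S, ∃ i, i ≤ t.length ∧ |(zp t i / (T : ℂ)).re - p.1 * δ| < 2 * δ ∧
        |(zp t i / (T : ℂ)).im - p.2 * δ| < 2 * δ := by
      intro p hp
      obtain ⟨u, hu⟩ := hS2 p hp
      rw [hf] at hu
      obtain ⟨i, hi, h2, h3⟩ := near hT hlen (r u)
      have h4 : 1 / (T : ℝ) ≤ δ := by
        rw [div_le_iff₀ hT0]
        exact hδT
      obtain ⟨h5, h6⟩ := hu
      rw [abs_le] at h2 h3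
      rw [abs_lt] at h5 h6
      refine ⟨i, hi, ?_, ?_⟩
      · rw [abs_lt]
        constructor <;> linarith [h2.1, h2.2, h5.1, h5.2]
      · rw [abs_lt]
        constructor <;> linarith [h3.1, h3.2, h6.1, h6.2]
    choose! g hg1 hg2 hg3 using h1
    have h2 := Finset.card_le_mul_card_image (f := fun p => cell b1 (vx oo up t (g p))) S 625 (by
      intro a ha
      rw [Finset.mem_image] at ha
      obtain ⟨p0, hp0, rfl⟩ := ha
      have h3 : (S.filter fun p => cell b1 (vx oo up t (g p)) = cell b1 (vx oo up t (g p0))) ⊆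
          (Finset.Icc (p0.1 - 12) (p0.1 + 12)) ×ˢ (Finset.Icc (p0.2 - 12) (p0.2 + 12)) := by
        intro p hp
        rw [Finset.mem_filter] at hp
        obtain ⟨hp, hc⟩ := hp
        obtain ⟨c1, c2⟩ := same_cell hc
        have c1' : |(lev t (g p) : ℝ) - lev t (g p0)| ≤ 6 * (δ * T) := by
          have : |(lev t (g p) : ℝ) - lev t (g p0)| ≤ 6 * 2 ^ b1 := by exact_mod_cast c1
          linarith
        have c2' : |(lat t (g p) : ℝ) - lat t (g p0)| ≤ 6 * (δ * T) := by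
          have : |(lat t (g p) : ℝ) - lat t (g p0)| ≤ 6 * 2 ^ b1 := by exact_mod_cast c2
          linarith
        have d1 := hg2 p hp
        have d2 := hg3 p hp
        have d3 := hg2 p0 hp0
        have d4 := hg3 p0 hp0
        rw [Touch.re_div] at d1 d3
        rw [Touch.im_div] at d2 d4
        have e1 : |Real.sqrt 3 / 2 * (lat t (g p) : ℝ) / T - Real.sqrt 3 / 2 * (lat t (g p0) : ℝ) / T| ≤ 6 * δ := by
          have e2 : Real.sqrt 3 / 2 * (lat t (g p) : ℝ) / T - Real.sqrt 3 / 2 * (lat t (g p0) : ℝ) / T =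
              (Real.sqrt 3 / 2) * ((lat t (g p) : ℝ) - lat t (g p0)) / T := by ring
          have e3 : Real.sqrt 3 / 2 ≤ 1 := by
            have : Real.sqrt 3 ≤ 2 := by
              rw [Real.sqrt_le_left (by norm_num)]
              norm_num
            linarith
          rw [e2, abs_div, abs_mul, abs_of_pos hT0, abs_of_pos (show (0 : ℝ) < Real.sqrt 3 / 2 by linarith [hs3.1]),
            div_le_iff₀ hT0]
          calc Real.sqrt 3 / 2 * |(lat t (g p) : ℝ) - lat t (g p0)| ≤ 1 * (6 * (δ * T)) :=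
                mul_le_mul e3 c2' (abs_nonneg _) (by norm_num)
            _ = 6 * δ * T := by ring
        have e2 : |(lev t (g p) : ℝ) / 2 / T - (lev t (g p0) : ℝ) / 2 / T| ≤ 6 * δ := by
          have e3 : (lev t (g p) : ℝ) / 2 / T - (lev t (g p0) : ℝ) / 2 / T = ((lev t (g p) : ℝ) - lev t (g p0)) / (2 * T) := by
            field_simp
          rw [e3, abs_div, abs_of_pos (show (0 : ℝ) < 2 * T by positivity), div_le_iff₀ (by positivity)]
          have : 0 < δ * T := by positivity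
          calc |(lev t (g p) : ℝ) - lev t (g p0)| ≤ 6 * (δ * T) := c1'
            _ ≤ 6 * δ * (2 * T) := by nlinarith
        rw [abs_lt] at d1 d2 d3 d4
        rw [abs_le] at e1 e2
        have f1 : ((p.1 : ℝ) - p0.1) * δ < 13 * δ := by linarith [d1.1, d3.2, e1.2]
        have f2 : ((p0.1 : ℝ) - p.1) * δ < 13 * δ := by linarith [d1.2, d3.1, e1.1]
        have f3 : ((p.2 : ℝ) - p0.2) * δ < 13 * δ := by linarith [d2.1, d4.2, e2.2]
        have f4 : ((p0.2 : ℝ) - p.2) * δ < 13 * δ := by linarith [d2.2, d4.1, e2.1]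
        have k1 : (p.1 : ℝ) - p0.1 < 13 := lt_of_mul_lt_mul_right f1 hδ0.le
        have k2 : (p0.1 : ℝ) - p.1 < 13 := lt_of_mul_lt_mul_right f2 hδ0.le
        have k3 : (p.2 : ℝ) - p0.2 < 13 := lt_of_mul_lt_mul_right f3 hδ0.le
        have k4 : (p0.2 : ℝ) - p.2 < 13 := lt_of_mul_lt_mul_right f4 hδ0.le
        have l1 : p.1 - p0.1 < 13 := by exact_mod_cast k1
        have l2 : p0.1 - p.1 < 13 := by exact_mod_cast k2
        have l3 : p.2 - p0.2 < 13 := by exact_mod_cast k3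
        have l4 : p0.2 - p.2 < 13 := by exact_mod_cast k4
        rw [Finset.mem_product, Finset.mem_Icc, Finset.mem_Icc]
        refine ⟨⟨by omega, by omega⟩, by omega, by omega⟩
      refine (Finset.card_le_card h3).trans ?_
      rw [Finset.card_product, Int.card_Icc, Int.card_Icc]
      have e1 : (p0.1 + 12 + 1 - (p0.1 - 12)).toNat = 25 := by
        rw [show p0.1 + 12 + 1 - (p0.1 - 12) = 25 by ring]
        rfl
      have e2 : (p0.2 + 12 + 1 - (p0.2 - 12)).toNat = 25 := by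
        rw [show p0.2 + 12 + 1 - (p0.2 - 12) = 25 by ring]
        rfl
      rw [e1, e2])
    have h3 : (S.image fun p => cell b1 (vx oo up t (g p))) ⊆ cells b1 t := by
      intro a ha
      rw [Finset.mem_image] at ha
      obtain ⟨p, hp, rfl⟩ := ha
      unfold cells
      rw [Finset.mem_image]
      exact ⟨g p, Finset.mem_range.2 (by have := hg1 p hp; omega), rfl⟩
    have h4 := Finset.card_le_card h3
    unfold nb
    omega

/-- the squares met by a curve outside of GS -/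
lemma not_GS {δ A : ℝ} {k : ℕ} {f : C(unitInterval, ℂ)} (hA : ‖f‖ < A) (h : f ∉ GS δ A k) (hδ : 0 < δ) :
    ∃ F : Finset ℂ, F.card ≤ k ∧ Set.range f ⊆ ⋃ z ∈ F, Metric.closedBall z (2 * δ) := by
  classical
  have h1 : ∀ S : Finset (ℤ × ℤ), (∀ p ∈ S, ∃ u, f u ∈ Sq δ p) → S.card < k := by
    intro S hS
    by_contra hc
    exact h ⟨hA, S, not_lt.1 hc, hS⟩
  have h2 : {p : ℤ × ℤ | ∃ u, f u ∈ Sq δ p}.Finite := by
    by_contra hc
    obtain ⟨S, hS1, hS2⟩ := Set.Infinite.exists_subset_card_eq hc k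
    have h3 := h1 S (fun p hp => hS1 hp)
    omega
  have h3 := h1 h2.toFinset (fun p hp => by
    rw [Set.Finite.mem_toFinset] at hp
    exact hp)
  refine ⟨h2.toFinset.image fun p => ⟨p.1 * δ, p.2 * δ⟩, (Finset.card_image_le.trans h3.le), ?_⟩
  rintro z ⟨u, rfl⟩
  obtain ⟨p, hp⟩ := cover_Sq hδ (f u)
  simp only [Set.mem_iUnion]
  refine ⟨⟨p.1 * δ, p.2 * δ⟩, Finset.mem_image.2 ⟨p, ?_, rfl⟩, Sq_ball hp⟩
  rw [Set.Finite.mem_toFinset]
  exact ⟨u, hp⟩

/-- finite covers exist -/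
lemma fin_cover (f : C(unitInterval, ℂ)) {δ : ℝ} (hδ : 0 < δ) :
    ∃ F : Finset ℂ, Set.range f ⊆ ⋃ z ∈ F, Metric.closedBall z δ := by
  classical
  have h1 : TotallyBounded (Set.range f) := (isCompact_range f.continuous).totallyBounded
  obtain ⟨t, ht, hc⟩ := Metric.totallyBounded_iff.1 h1 δ hδ
  refine ⟨ht.toFinset, hc.trans ?_⟩
  intro z hz
  simp only [Set.mem_iUnion] at hz ⊢
  obtain ⟨y, hy, hyz⟩ := hz
  exact ⟨y, by rw [Set.Finite.mem_toFinset]; exact hy, Metric.ball_subset_closedBall hyz⟩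

/-- the bound for the law of the walk -/
def LawB (e0 c : ℝ) (b0 l0 : ℕ) : Prop := ∀ L b1 T : ℕ, b0 ≤ b1 → b1 + l0 ≤ L → 1 ≤ T →
    gf {t | t ∈ FCW T ∧ t ∈ WL L ∧ (2 : ℝ) ^ ((2 - e0) * ((L : ℝ) - b1)) ≤ nb b1 t} ≤
      ENNReal.ofReal (Real.exp (-(2 : ℝ) ^ (c * ((L : ℝ) - b1))))

/-- number of squares -/
noncomputable def kk (e0 : ℝ) (n a : ℕ) : ℕ := 625 * ⌈(2 : ℝ) ^ ((2 - e0) * ((n : ℝ) + a + 4))⌉₊

lemma kk_pos (e0 : ℝ) (n a : ℕ) : 1 ≤ kk e0 n a := by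
  unfold kk
  have : 0 < ⌈(2 : ℝ) ^ ((2 - e0) * ((n : ℝ) + a + 4))⌉₊ := Nat.ceil_pos.2 (by positivity)
  omega

section

variable {X : ℕ → List Bool → C(unitInterval, ℂ)} {μ : ℕ → ProbabilityMeasure C(unitInterval, ℂ)}
  {φ : ℕ → ℕ} {ν : ProbabilityMeasure C(unitInterval, ℂ)}

/-- the finite estimate -/
lemma gs_fin {e0 c : ℝ} {b0 l0 : ℕ} (hB : LawB e0 c b0 l0)
    (hX : ∀ T t, ∃ r : unitInterval ≃ₜ unitInterval, Monotone r ∧ ∀ u, X T t u = curve T t (r u))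
    (hμ : ∀ T, (μ T : Measure C(unitInterval, ℂ)) = ((lawK T).map (X T)).toMeasure) {n a : ℕ} (hn : l0 ≤ n) :
    ∀ᶠ T : ℕ in atTop, (μ T : Measure C(unitInterval, ℂ)) (GS ((1 / 2) ^ n) (2 ^ a) (kk e0 n a)) ≤
      ENNReal.ofReal (Real.exp (-(2 : ℝ) ^ (c * ((n : ℝ) + a + 4)))) := by
  filter_upwards [eventually_ge_atTop (2 ^ (n + b0))] with T hT
  have hT1 : 1 ≤ T := le_trans Nat.one_le_two_pow hT
  obtain ⟨l, hl⟩ : ∃ l, l = Nat.log 2 T := ⟨_, rfl⟩
  have h1 : 2 ^ l ≤ T := by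
    rw [hl]
    exact Nat.pow_log_le_self 2 (by omega)
  have h2 : T < 2 ^ (l + 1) := by
    rw [hl]
    exact Nat.lt_pow_succ_log_self (by norm_num) T
  have h3 : n + b0 ≤ l := by
    by_contra hc
    have h4 : 2 ^ (l + 1) ≤ 2 ^ (n + b0) := Nat.pow_le_pow_right (by norm_num) (by omega)
    omega
  have h1R : (2 : ℝ) ^ l ≤ T := by exact_mod_cast h1
  have h2R : (T : ℝ) < 2 ^ (l + 1) := by exact_mod_cast h2
  rw [hμ, Touch.law _ _ (open_GS _ _ _).measurableSet]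
  have h4 := hB (l + a + 4) (l - n) T (by omega) (by omega) hT1
  have e1 : (((l + a + 4 : ℕ) : ℝ) - ((l - n : ℕ) : ℝ)) = (n : ℝ) + a + 4 := by
    rw [Nat.cast_sub (by omega)]
    push_cast
    ring
  rw [e1] at h4
  refine le_trans (gf_mono ?_) h4
  rintro t ⟨⟨j, hj⟩, ht⟩
  obtain ⟨r, hr1, hr2⟩ := hX T t
  obtain ⟨g1, g2⟩ := gs_word (b1 := l - n) (L := l + a + 4) hT1 (δ := (1 / 2) ^ n) (A := 2 ^ a) (by
    rw [one_div, inv_pow, ← div_eq_inv_mul, le_div_iff₀ (by positivity), ← pow_add]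
    rw [show l - n + n = l by omega]
    exact h1R) (by
    have h5 : (4 : ℝ) * 2 ^ a * T ≤ 4 * 2 ^ a * 2 ^ (l + 1) := by
      apply mul_le_mul_of_nonneg_left h2R.le (by positivity)
    have h6 : (4 : ℝ) * 2 ^ a * 2 ^ (l + 1) = 2 ^ (l + a + 3) := by ring
    have h7 : (4 : ℝ) ≤ 2 ^ (l + a + 3) := by
      calc (4 : ℝ) = 2 ^ 2 := by norm_num
        _ ≤ 2 ^ (l + a + 3) := pow_le_pow_right₀ (by norm_num) (by omega)
    have h8 : (2 : ℝ) ^ (l + a + 4) = 2 * 2 ^ (l + a + 3) := by ring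
    rw [h8]
    linarith) hj hr2 ht
  refine ⟨⟨j, hj⟩, g1, ?_⟩
  unfold kk at g2
  have h9 : ⌈(2 : ℝ) ^ ((2 - e0) * ((n : ℝ) + a + 4))⌉₊ ≤ nb (l - n) t := by omega
  exact (Nat.le_ceil _).trans (by exact_mod_cast h9)

/-- the estimate in the limit -/
lemma gs_lim {e0 c : ℝ} {b0 l0 : ℕ} (hB : LawB e0 c b0 l0)
    (hX : ∀ T t, ∃ r : unitInterval ≃ₜ unitInterval, Monotone r ∧ ∀ u, X T t u = curve T t (r u))
    (hμ : ∀ T, (μ T : Measure C(unitInterval, ℂ)) = ((lawK T).map (X T)).toMeasure)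
    (hφ : Tendsto φ atTop atTop) (hν : Tendsto (fun k => μ (φ k)) atTop (𝓝 ν)) {n a : ℕ} (hn : l0 ≤ n) :
    (ν : Measure C(unitInterval, ℂ)) (GS ((1 / 2) ^ n) (2 ^ a) (kk e0 n a)) ≤
      ENNReal.ofReal (Real.exp (-(2 : ℝ) ^ (c * ((n : ℝ) + a + 4)))) := by
  refine (ProbabilityMeasure.le_liminf_measure_open_of_tendsto hν (open_GS _ _ _)).trans ?_
  apply liminf_le_of_frequently_le'
  apply Eventually.frequently
  exact hφ.eventually (gs_fin hB hX hμ hn)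

end

lemma sum_exp {c : ℝ} (hc : 0 < c) (l0 a : ℕ) :
    ∑' n : ℕ, ENNReal.ofReal (Real.exp (-(2 : ℝ) ^ (c * (((n + l0 : ℕ) : ℝ) + a + 4)))) ≠ ∞ := by
  have h1 : ∀ n : ℕ, Real.exp (-(2 : ℝ) ^ (c * (((n + l0 : ℕ) : ℝ) + a + 4))) ≤ ((2 : ℝ) ^ (-c)) ^ n := by
    intro n
    have h2 : (2 : ℝ) ^ (c * n) ≤ (2 : ℝ) ^ (c * (((n + l0 : ℕ) : ℝ) + a + 4)) := by
      apply Real.rpow_le_rpow_of_exponent_le (by norm_num)
      apply mul_le_mul_of_nonneg_left _ hc.le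
      push_cast
      have : (0 : ℝ) ≤ l0 := Nat.cast_nonneg _
      have : (0 : ℝ) ≤ a := Nat.cast_nonneg _
      linarith
    have h3 : (0 : ℝ) < (2 : ℝ) ^ (c * n) := by positivity
    calc Real.exp (-(2 : ℝ) ^ (c * (((n + l0 : ℕ) : ℝ) + a + 4))) ≤ Real.exp (-(2 : ℝ) ^ (c * n)) :=
          Real.exp_le_exp.2 (by linarith)
      _ = (Real.exp ((2 : ℝ) ^ (c * n)))⁻¹ := Real.exp_neg _
      _ ≤ ((2 : ℝ) ^ (c * n))⁻¹ := by
          apply inv_anti₀ h3
          linarith [Real.add_one_le_exp ((2 : ℝ) ^ (c * n))]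
      _ = _ := by
          rw [← Real.rpow_neg (by norm_num), ← neg_mul, Real.rpow_mul (by norm_num), Real.rpow_natCast]
  have h2 : (2 : ℝ) ^ (-c) < 1 := Real.rpow_lt_one_of_one_lt_of_neg (by norm_num) (by linarith)
  have h3 : Summable (fun n : ℕ => ((2 : ℝ) ^ (-c)) ^ n) := summable_geometric_of_lt_one (by positivity) h2
  have h4 : ∑' n : ℕ, ENNReal.ofReal (Real.exp (-(2 : ℝ) ^ (c * (((n + l0 : ℕ) : ℝ) + a + 4)))) ≤
      ∑' n : ℕ, ENNReal.ofReal (((2 : ℝ) ^ (-c)) ^ n) :=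
    ENNReal.tsum_le_tsum fun n => ENNReal.ofReal_le_ofReal (h1 n)
  rw [← ENNReal.ofReal_tsum_of_nonneg (fun n => by positivity) h3] at h4
  exact ne_top_of_le_ne_top ENNReal.ofReal_ne_top h4

end DLM

/-- the limit curves have upper Minkowski dimension at most d < 2: covering numbers -/
theorem dim_lim_of (hlaw : ∃ (e0 c : ℝ) (b0 l0 : ℕ), 0 < e0 ∧ e0 < 1 ∧ 0 < c ∧ ∀ L b1 T : ℕ, b0 ≤ b1 → b1 + l0 ≤ L →
    1 ≤ T → gf {t | t ∈ FCW T ∧ t ∈ WL L ∧ (2 : ℝ) ^ ((2 - e0) * ((L : ℝ) - b1)) ≤ nb b1 t} ≤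
      ENNReal.ofReal (Real.exp (-(2 : ℝ) ^ (c * ((L : ℝ) - b1))))) : ∃ d : ℝ, d < 2 ∧ ∀ (X : ℕ → List Bool → C(unitInterval, ℂ))
    (μ : ℕ → ProbabilityMeasure C(unitInterval, ℂ)) (φ : ℕ → ℕ) (ν : ProbabilityMeasure C(unitInterval, ℂ)),
    (∀ T t, ∃ r : unitInterval ≃ₜ unitInterval, Monotone r ∧ ∀ u, X T t u = curve T t (r u)) →
    (∀ T, (μ T : Measure C(unitInterval, ℂ)) = ((lawK T).map (X T)).toMeasure) →
    Tendsto φ atTop atTop → Tendsto (fun k => μ (φ k)) atTop (𝓝 ν) →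
    ∀ᵐ (f : C(unitInterval, ℂ)) ∂(ν : Measure C(unitInterval, ℂ)), ∃ M : ℝ, ∀ n : ℕ, ∃ F : Finset ℂ,
      (F.card : ℝ) ≤ M * 2 ^ (d * n) ∧ Set.range f ⊆ ⋃ z ∈ F, Metric.closedBall z ((1 / 2) ^ n) := by
  obtain ⟨e0, c, b0, l0, he0, he1, hc, hB⟩ := hlaw
  refine ⟨2 - e0, by linarith, fun X μ φ ν hX hμ hφ hν => ?_⟩
  have h1 : ∀ a : ℕ, ∀ᵐ (f : C(unitInterval, ℂ)) ∂(ν : Measure C(unitInterval, ℂ)), ∀ᶠ n : ℕ in atTop,
      f ∉ DLM.GS ((1 / 2) ^ (n + l0)) (2 ^ a) (DLM.kk e0 (n + l0) a) := by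
    intro a
    apply ae_eventually_notMem
    refine ne_top_of_le_ne_top (DLM.sum_exp hc l0 a) ?_
    refine ENNReal.tsum_le_tsum fun n => ?_
    exact DLM.gs_lim (e0 := e0) (c := c) (b0 := b0) (l0 := l0) hB hX hμ hφ hν (by omega)
  filter_upwards [ae_all_iff.2 h1] with f hf
  obtain ⟨a, ha⟩ : ∃ a : ℕ, ‖f‖ < 2 ^ a := by
    obtain ⟨a, ha⟩ := exists_nat_gt ‖f‖
    exact ⟨a, ha.trans (by exact_mod_cast Nat.lt_two_pow_self)⟩
  obtain ⟨n0, hn0⟩ := eventually_atTop.1 (hf a)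
  -- the covers
  choose G hG using fun n : ℕ => DLM.fin_cover f (δ := (1 / 2) ^ n) (by positivity)
  obtain ⟨M1, hM1⟩ : ∃ M1 : ℝ, M1 = 1250 * (2 : ℝ) ^ ((2 - e0) * ((a : ℝ) + 5)) := ⟨_, rfl⟩
  obtain ⟨M2, hM2⟩ : ∃ M2 : ℝ, M2 = ∑ n ∈ range (n0 + l0), ((G n).card : ℝ) := ⟨_, rfl⟩
  have hM10 : 0 ≤ M1 := by
    rw [hM1]
    positivity
  have hM20 : 0 ≤ M2 := by
    rw [hM2]
    exact Finset.sum_nonneg fun _ _ => Nat.cast_nonneg _
  refine ⟨M1 + M2, fun n => ?_⟩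
  have hpow : (1 : ℝ) ≤ 2 ^ ((2 - e0) * n) := by
    apply Real.one_le_rpow (by norm_num)
    have : (0 : ℝ) ≤ n := Nat.cast_nonneg n
    nlinarith
  by_cases hn : n < n0 + l0
  · refine ⟨G n, ?_, hG n⟩
    have h2 : ((G n).card : ℝ) ≤ M2 := by
      rw [hM2]
      exact Finset.single_le_sum (f := fun n => ((G n).card : ℝ)) (fun _ _ => Nat.cast_nonneg _) (Finset.mem_range.2 hn)
    nlinarith
  · obtain ⟨m, rfl⟩ : ∃ m, n = m + l0 := ⟨n - l0, by omega⟩
    have h2 := hn0 (m + 1) (by omega)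
    obtain ⟨F, hF1, hF2⟩ := DLM.not_GS ha h2 (by positivity)
    have e1 : (2 : ℝ) * (1 / 2) ^ (m + 1 + l0) = (1 / 2) ^ (m + l0) := by
      rw [show m + 1 + l0 = (m + l0) + 1 by ring, pow_succ]
      ring
    rw [e1] at hF2
    refine ⟨F, ?_, hF2⟩
    have h3 : (F.card : ℝ) ≤ DLM.kk e0 (m + 1 + l0) a := by exact_mod_cast hF1
    have e2 : (2 : ℝ) ^ ((2 - e0) * (((m + 1 + l0 : ℕ) : ℝ) + a + 4)) =
        2 ^ ((2 - e0) * ((a : ℝ) + 5)) * 2 ^ ((2 - e0) * ((m + l0 : ℕ) : ℝ)) := by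
      rw [← Real.rpow_add (by norm_num)]
      congr 1
      push_cast
      ring
    have h4 : (1 : ℝ) ≤ (2 : ℝ) ^ ((2 - e0) * (((m + 1 + l0 : ℕ) : ℝ) + a + 4)) := by
      apply Real.one_le_rpow (by norm_num)
      have : (0 : ℝ) ≤ ((m + 1 + l0 : ℕ) : ℝ) + a + 4 := by positivity
      nlinarith
    have h5 : (DLM.kk e0 (m + 1 + l0) a : ℝ) ≤ 1250 * (2 : ℝ) ^ ((2 - e0) * (((m + 1 + l0 : ℕ) : ℝ) + a + 4)) := by
      unfold DLM.kk
      push_cast
      have h6 := Nat.ceil_lt_add_one (a := (2 : ℝ) ^ ((2 - e0) * (((m + 1 + l0 : ℕ) : ℝ) + a + 4))) (by positivity)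
      push_cast at h6 h4
      linarith
    rw [e2] at h5
    calc (F.card : ℝ) ≤ 1250 * (2 ^ ((2 - e0) * ((a : ℝ) + 5)) * 2 ^ ((2 - e0) * ((m + l0 : ℕ) : ℝ))) := h3.trans h5
      _ = M1 * 2 ^ ((2 - e0) * ((m + l0 : ℕ) : ℝ)) := by
          rw [hM1]
          ring
      _ ≤ (M1 + M2) * 2 ^ ((2 - e0) * ((m + l0 : ℕ) : ℝ)) := by
          apply mul_le_mul_of_nonneg_right _ (by positivity)
          linarith

end SDN

end HexObs
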