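import Pool.Agent.SDN.Hyst
import Pool.Agent.SDN.WordNb
import Pool.Agent.SDN.CrossDD
import Pool.Agent.SDN.FillDet
import Pool.Agent.SDN.Geo6

/-!
SDN: the event at a dense scale, with a lower scale b1 as parameter (for the scaling limits).
-/

set_option autoImplicit false

namespace HexObs

namespace SDN

open Finset TS

open scoped ENNReal

namespace W7B

/-- the powers of 5/2 in powers of 2 -/
lemma pow52 (n : ℕ) : (5 / 2 : ℝ) ^ n ≤ (2 : ℝ) ^ ((4 / 3 : ℝ) * n) := by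
  have h1 : (5 / 2 : ℝ) ≤ (2 : ℝ) ^ (4 / 3 : ℝ) := by
    have h2 : ((5 / 2 : ℝ) ^ (3 : ℕ)) ^ (1 / 3 : ℝ) ≤ ((2 : ℝ) ^ (4 : ℕ)) ^ (1 / 3 : ℝ) :=
      Real.rpow_le_rpow (by norm_num) (by norm_num) (by norm_num)
    have h3 : ((5 / 2 : ℝ) ^ (3 : ℕ)) ^ (1 / 3 : ℝ) = 5 / 2 := by
      rw [← Real.rpow_natCast, ← Real.rpow_mul (by norm_num)]
      norm_num
    have h4 : ((2 : ℝ) ^ (4 : ℕ)) ^ (1 / 3 : ℝ) = (2 : ℝ) ^ (4 / 3 : ℝ) := by
      rw [← Real.rpow_natCast, ← Real.rpow_mul (by norm_num)]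
      norm_num
    rw [h3, h4] at h2
    exact h2
  calc (5 / 2 : ℝ) ^ n ≤ ((2 : ℝ) ^ (4 / 3 : ℝ)) ^ n := pow_le_pow_left₀ (by norm_num) h1 n
    _ = (2 : ℝ) ^ ((4 / 3 : ℝ) * n) := by rw [Real.rpow_mul_natCast (by norm_num)]

lemma four_pow (n : ℕ) : (4 : ℝ) ^ n = (2 : ℝ) ^ ((2 : ℝ) * n) := by
  rw [Real.rpow_mul (by norm_num), Real.rpow_natCast]
  norm_num

/-- the number of visited cells at the scale b1 + i -/
lemma nb_low {b1 : ℕ} {t : List Bool} {z : ℝ} (hl : (2 : ℝ) ^ z ≤ nb b1 t) (i : ℕ) :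
    (2 : ℝ) ^ z ≤ (4 : ℝ) ^ i * nb (b1 + i) t := by
  induction i with
  | zero => simpa using hl
  | succ i ih =>
    have h3 : (nb (b1 + i) t : ℝ) ≤ 4 * nb (b1 + (i + 1)) t := by exact_mod_cast nb_four (b1 + i) t
    calc (2 : ℝ) ^ z ≤ (4 : ℝ) ^ i * nb (b1 + i) t := ih
      _ ≤ (4 : ℝ) ^ i * (4 * nb (b1 + (i + 1)) t) := by gcongr
      _ = (4 : ℝ) ^ (i + 1) * nb (b1 + (i + 1)) t := by ring

lemma nb_low' {b1 : ℕ} {t : List Bool} {z : ℝ} (hl : (2 : ℝ) ^ z ≤ nb b1 t) (i : ℕ) :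
    (2 : ℝ) ^ (z - 2 * i) ≤ nb (b1 + i) t := by
  have h := nb_low hl i
  rw [Real.rpow_sub (by norm_num), div_le_iff₀ (by positivity), ← four_pow i]
  linarith [mul_comm ((nb (b1 + i) t : ℝ)) ((4 : ℝ) ^ i)]

end W7B

open Classical in
theorem dense_event_b1 : ∀ A : ℝ, 1 ≤ A → ∃ (B c kap : ℝ) (i0 : ℕ), 1 ≤ B ∧ 0 < c ∧ 0 < kap ∧ ∀ mu : ℕ, 1 ≤ mu →
    ∃ (e0 : ℝ) (l0 : ℕ), 0 < e0 ∧ e0 < 1 ∧ ∀ (L b1 : ℕ) (t : List Bool), 1 ≤ b1 → b1 + l0 ≤ L → t ∈ WL L →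
    (2 : ℝ) ^ ((2 - e0) * ((L : ℝ) - b1)) ≤ nb b1 t →
    (∀ (dir : Bool) (b m u : ℕ) (e : ℕ → ℕ), b1 ≤ b → b ≤ L + 2 → Lf dir b t m u e →
      (m : ℝ) ≤ A * DD L ((2 : ℝ) ^ (e0 * ((L : ℝ) - b1))) b t) →
    ∃ (b m u : ℕ) (e : ℕ → ℕ), b1 + mu ≤ b ∧ b ≤ L ∧ Lf false b t m u e ∧ (m : ℝ) ≤ B * nb b t ∧
      (dbl (2 ^ (b - 1)) (lws t e 1 (m - 2)) : ℝ) ≤ B * nb b t ∧
      c * nb b t ≤ (((lws t e 1 (m - 2)).filter (fun g => decide (g ∈ Fil b i0 (b - mu) kap))).length : ℝ) ∧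
      (2 : ℝ) ^ (((L : ℝ) - b1) / 20) ≤ nb b t := by
  intro A hA
  obtain ⟨i0, κ, c, E, hκ, hc, hE, hfd⟩ := fill_det (60 * A) (by linarith)
  refine ⟨60 * A, c, κ, i0, by linarith, hc, hκ, ?_⟩
  intro μ hμ
  obtain ⟨nE, hnE⟩ := pow_unbounded_of_one_lt E (one_lt_two)
  set e0 : ℝ := min (1 / 40) (1 / (20 * ((μ : ℝ) + 1))) with he0
  have he1 : 0 < e0 := lt_min (by norm_num) (by positivity)
  have he2 : e0 ≤ 1 / 40 := min_le_left _ _
  have he3 : e0 ≤ 1 / (20 * ((μ : ℝ) + 1)) := min_le_right _ _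
  refine ⟨e0, 400 + 20 * nE + 200 * (μ + 1), he1, by linarith, ?_⟩
  intro L b1 t hb1 hL ht hl hcrowd
  obtain ⟨l, rfl⟩ : ∃ l, L = b1 + l := ⟨L - b1, by omega⟩
  have ecast : (((b1 + l : ℕ) : ℝ) - b1) = l := by
    push_cast
    ring
  rw [ecast] at hl hcrowd ⊢
  have hlN : 400 + 20 * nE + 200 * (μ + 1) ≤ l := by omega
  have hLr : (400 : ℝ) + 20 * nE + 200 * (μ + 1) ≤ l := by exact_mod_cast hlN
  have hnE0 : (0 : ℝ) ≤ nE := Nat.cast_nonneg _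
  have hμ0 : (0 : ℝ) ≤ μ := Nat.cast_nonneg _
  have he4 : e0 * l ≤ l / 40 := by
    have : (0 : ℝ) ≤ l := Nat.cast_nonneg _
    nlinarith
  by_contra H
  set Y : ℝ := (2 : ℝ) ^ (e0 * l) with hY
  have hY1 : 1 ≤ Y := Real.one_le_rpow (by norm_num) (by positivity)
  set hi : ℕ := 9 * l / 10 with hhi
  have hhi1 : 10 * hi ≤ 9 * l := Nat.mul_div_le _ _
  have hhi2 : 9 * l < 10 * (hi + 1) := by omega
  set ν : ℕ → ℝ := fun i => (4 : ℝ) ^ i * nb (b1 + i) t with hν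
  have key := SDG.dense_growth μ hμ 0 hi (l + 2) (by omega) ν ?_ ?_ ?_
  · -- the contradiction
    have h2 : (2 : ℝ) ^ ((2 - e0) * l) ≤ ν 0 := W7B.nb_low hl 0
    have h3 : ν (l + 2) ≤ (2 : ℝ) ^ ((2 : ℝ) * l + 6) := by
      have h4 : (nb (b1 + (l + 2)) t : ℝ) ≤ 4 := by exact_mod_cast nb_top ht (by omega)
      calc ν (l + 2) = (4 : ℝ) ^ (l + 2) * nb (b1 + (l + 2)) t := rfl
        _ ≤ (4 : ℝ) ^ (l + 2) * 4 := by gcongr
        _ = (4 : ℝ) ^ (l + 3) := by ring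
        _ = (2 : ℝ) ^ ((2 : ℝ) * l + 6) := by
          rw [W7B.four_pow]
          push_cast
          ring_nf
    have h5 : (2 : ℝ) ^ (((hi : ℝ) - (0 : ℕ) - μ) / (8 * (μ + 1)) + ((2 - e0) * l)) ≤ (2 : ℝ) ^ ((2 : ℝ) * l + 6) := by
      rw [Real.rpow_add (by norm_num)]
      calc (2 : ℝ) ^ (((hi : ℝ) - (0 : ℕ) - μ) / (8 * (μ + 1))) * (2 : ℝ) ^ ((2 - e0) * l)
          ≤ (2 : ℝ) ^ (((hi : ℝ) - (0 : ℕ) - μ) / (8 * (μ + 1))) * ν 0 := by gcongr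
        _ ≤ ν (l + 2) := key
        _ ≤ _ := h3
    have h6 := (Real.rpow_le_rpow_left_iff (by norm_num : (1 : ℝ) < 2)).mp h5
    have h7 : ((hi : ℝ) - (0 : ℕ) - μ) / (8 * (μ + 1)) ≤ e0 * l + 6 := by linarith
    rw [div_le_iff₀ (by positivity)] at h7
    have h8 : e0 * (20 * ((μ : ℝ) + 1)) ≤ 1 := by
      rwa [le_div_iff₀ (by positivity)] at he3
    have h9 : 9 * (l : ℝ) < 10 * (hi + 1) := by exact_mod_cast hhi2
    have h10 : e0 * (20 * ((μ : ℝ) + 1)) * l ≤ 1 * l := by gcongr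
    push_cast at h7
    nlinarith
  · -- positivity
    have h1 : (1 : ℝ) ≤ nb b1 t := by exact_mod_cast nb_pos b1 t
    simp only [hν, pow_zero, one_mul, add_zero]
    linarith
  · -- monotonicity
    intro i _
    have h3 : (nb (b1 + i) t : ℝ) ≤ 4 * nb (b1 + (i + 1)) t := by exact_mod_cast nb_four (b1 + i) t
    calc ν i = (4 : ℝ) ^ i * nb (b1 + i) t := rfl
      _ ≤ (4 : ℝ) ^ i * (4 * nb (b1 + (i + 1)) t) := by gcongr
      _ = (4 : ℝ) ^ (i + 1) * nb (b1 + (i + 1)) t := by ring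
  · -- the dense scales
    intro i hi1 hi2 hd
    by_contra hcon
    push Not at hcon
    have hil : i ≤ l := by omega
    have hμi : μ ≤ i := by omega
    have hlow := W7B.nb_low' hl i
    have hbr : 10 * (i : ℝ) ≤ 9 * l := by
      have : 10 * i ≤ 9 * l := by omega
      exact_mod_cast this
    have hcast : ((l + 3 - i : ℕ) : ℝ) = l + 3 - i := by
      rw [Nat.cast_sub (by omega)]
      push_cast
      ring
    -- the condition on Y
    have hYc : 2 * (Y * (5 / 2 : ℝ) ^ (l + 2 + 1 - i)) ≤ nb (b1 + i) t := by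
      refine le_trans ?_ hlow
      have h1 : (5 / 2 : ℝ) ^ (l + 2 + 1 - i) ≤ (2 : ℝ) ^ ((4 / 3 : ℝ) * (l + 3 - i)) := by
        have := W7B.pow52 (l + 3 - i)
        rwa [hcast] at this
      calc 2 * (Y * (5 / 2 : ℝ) ^ (l + 2 + 1 - i)) ≤ 2 * (Y * (2 : ℝ) ^ ((4 / 3 : ℝ) * (l + 3 - i))) := by gcongr
        _ = (2 : ℝ) ^ (1 + (e0 * l + (4 / 3 : ℝ) * (l + 3 - i))) := by
          rw [Real.rpow_add (by norm_num), Real.rpow_add (by norm_num), Real.rpow_one]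
        _ ≤ _ := by
          apply Real.rpow_le_rpow_of_exponent_le (by norm_num)
          nlinarith
    have hDD : DD (b1 + l) Y (b1 + i) t ≤ 4 * nb (b1 + i) t := by
      have h1 := SDG.dense_D (l + 2) i (by omega) (fun j => (nb (b1 + j) t : ℝ)) Y (Nat.cast_nonneg _) hd hYc
      unfold DD
      have e1 : b1 + l + 3 - (b1 + i) = l + 2 + 1 - i := by omega
      rw [e1]
      simpa only [add_assoc] using h1
    -- the leaves
    have hlf : ∀ (dir : Bool) (c : ℕ), b1 + i ≤ c → c ≤ b1 + l + 2 → ∃ m u e, Lf dir c t m u e ∧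
        (m : ℝ) ≤ A * DD (b1 + l) Y c t := by
      intro dir c hc1 hc2
      obtain ⟨m, u, e, hme⟩ := lf_exists dir c t
      exact ⟨m, u, e, hme, hcrowd dir c m u e (by omega) hc2 hme⟩
    have hnbpos : (0 : ℝ) ≤ nb (b1 + i) t := Nat.cast_nonneg _
    have hXX : ∀ (dir : Bool) (j : ℕ), (XX (2 ^ (b1 + i + j)) (rws dir t) t.length : ℝ) ≤
        60 * A * (2 / 5) ^ j * nb (b1 + i) t := by
      intro dir j
      refine (XX_DD ht hA hY1 (hlf dir) j).trans ?_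
      have h1 : (0 : ℝ) ≤ 15 * A * (2 / 5) ^ j := by positivity
      nlinarith [mul_le_mul_of_nonneg_left hDD h1]
    obtain ⟨m, u, e, hme, hm⟩ := hlf false (b1 + i) le_rfl (by omega)
    have hm1 : (m : ℝ) ≤ 4 * A * nb (b1 + i) t := by nlinarith
    have hdbl : (dbl (2 ^ (b1 + i - 1)) (lws t e 1 (m - 2)) : ℝ) ≤ 60 * A * nb (b1 + i) t := by
      have h1 := dbl_DD ht hA hY1 (by omega) (by omega) hme (fun c hc1 hc2 => hlf false c (by omega) hc2)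
      have h2 : 10 * A * DD (b1 + l) Y (b1 + i) t ≤ 10 * A * (4 * nb (b1 + i) t) := by gcongr
      nlinarith
    have e2 : b1 + l - (b1 + i) = l - i := by omega
    have hEn : E * 2 ^ (b1 + l - (b1 + i)) ≤ nb (b1 + i) t := by
      refine le_trans ?_ hlow
      rw [e2]
      have h1 : ((l - i : ℕ) : ℝ) = l - i := by rw [Nat.cast_sub hil]
      calc E * 2 ^ (l - i) ≤ (2 : ℝ) ^ nE * 2 ^ (l - i) := by gcongr
        _ = (2 : ℝ) ^ ((nE : ℝ) + (l - i)) := by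
          rw [Real.rpow_add (by norm_num), ← h1, Real.rpow_natCast, Real.rpow_natCast]
        _ ≤ _ := by
          apply Real.rpow_le_rpow_of_exponent_le (by norm_num)
          nlinarith
    have hbig : (2 : ℝ) ^ ((l : ℝ) / 20) ≤ nb (b1 + i) t := by
      refine le_trans ?_ hlow
      apply Real.rpow_le_rpow_of_exponent_le (by norm_num)
      nlinarith
    have e3 : b1 + i - μ = b1 + (i - μ) := by omega
    have hsub : 4 ^ μ * nb (b1 + i) t < 2 * nb (b1 + i - μ) t := by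
      rw [e3]
      have h1 : ν i < 2 * ν (i - μ) := hcon
      have h2 : (4 : ℝ) ^ i = 4 ^ (i - μ) * 4 ^ μ := by
        rw [← pow_add]
        congr 1
        omega
      have h3 : (4 : ℝ) ^ (i - μ) * (4 ^ μ * nb (b1 + i) t) < 4 ^ (i - μ) * (2 * nb (b1 + (i - μ)) t) := by
        calc (4 : ℝ) ^ (i - μ) * (4 ^ μ * nb (b1 + i) t) = ν i := by simp only [hν, h2]; ring
          _ < 2 * ν (i - μ) := h1
          _ = _ := by simp only [hν]; ring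
      have h4 : (4 : ℝ) ^ μ * nb (b1 + i) t < 2 * nb (b1 + (i - μ)) t := lt_of_mul_lt_mul_left h3 (by positivity)
      exact_mod_cast h4
    exact H ⟨b1 + i, m, u, e, by omega, by omega, hme, hm1.trans (by nlinarith), hdbl,
      hfd (b1 + l) (b1 + i) μ t ht hμ (by omega) (by omega) hEn hXX m u e hme (hm1.trans (by nlinarith)) hsub, hbig⟩

end SDN

end HexObs
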