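import Pool.Agent.SDN.DimDefs
import Pool.Agent.SDN.DenseB

/-!
SDN, limit version, M8: dense bridges in a box have small weight (the statements of crowd_bound_brd and fill_brd
are hypotheses of dim_main_of).
-/

set_option autoImplicit false

namespace HexObs

namespace SDN

open Finset TS

open scoped ENNReal

namespace DimMain

/-- final comparison -/
lemma asymp (C s : ℝ) (hC : 0 < C) (hs : 0 < s) : ∃ L0 : ℕ, ∀ L : ℕ, L0 ≤ L →
    ((2 : ℝ) ^ L) ^ C * C * (2 : ℝ) ^ (-(2 : ℝ) ^ (s * L)) ≤ Real.exp (-(2 : ℝ) ^ (s / 2 * L)) := by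
  have hl2 : 0 < Real.log 2 := Real.log_pos (by norm_num)
  set a : ℝ := Real.log 2 * (s / 2) with ha
  have ha0 : 0 < a := by positivity
  set q : ℝ := C * Real.log 2 + |Real.log C| with hq
  have hq0 : 0 < q := by positivity
  refine ⟨⌈2 * q / a ^ 2⌉₊ + ⌈2 / (a * Real.log 2)⌉₊ + 1, fun L hL => ?_⟩
  have hL1 : (1 : ℝ) ≤ L := by
    have : 1 ≤ L := by omega
    exact_mod_cast this
  have hLa : 2 * q / a ^ 2 ≤ L := by
    have h1 : (⌈2 * q / a ^ 2⌉₊ : ℝ) ≤ L := by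
      have : ⌈2 * q / a ^ 2⌉₊ ≤ L := by omega
      exact_mod_cast this
    exact le_trans (Nat.le_ceil _) h1
  have hLb : 2 / (a * Real.log 2) ≤ L := by
    have h1 : (⌈2 / (a * Real.log 2)⌉₊ : ℝ) ≤ L := by
      have : ⌈2 / (a * Real.log 2)⌉₊ ≤ L := by omega
      exact_mod_cast this
    exact le_trans (Nat.le_ceil _) h1
  set x : ℝ := (2 : ℝ) ^ (s / 2 * L) with hx
  have hxe : x = Real.exp (a * L) := by
    rw [hx, Real.rpow_def_of_pos (by norm_num)]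
    congr 1
    rw [ha]; ring
  have hx2 : (2 : ℝ) ^ (s * L) = x ^ 2 := by
    rw [hx, ← Real.rpow_natCast, ← Real.rpow_mul (by norm_num)]
    congr 1
    push_cast
    ring
  have haL : 0 ≤ a * L := by positivity
  have hexp := Real.quadratic_le_exp_of_nonneg haL
  rw [← hxe] at hexp
  have h1 : q * L ≤ x := by
    have h2 : 2 * q ≤ L * a ^ 2 := by
      rwa [div_le_iff₀ (by positivity)] at hLa
    nlinarith [mul_le_mul_of_nonneg_right h2 (by linarith : (0 : ℝ) ≤ L)]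
  have h2 : 2 ≤ Real.log 2 * x := by
    have h3 : 2 ≤ L * (a * Real.log 2) := by
      rwa [div_le_iff₀ (by positivity)] at hLb
    have h4 : a * L ≤ x := by nlinarith [sq_nonneg (a * L)]
    nlinarith [mul_le_mul_of_nonneg_left h4 hl2.le]
  have h3 : Real.log C ≤ |Real.log C| * L := by
    have := le_abs_self (Real.log C)
    nlinarith [abs_nonneg (Real.log C)]
  have hxpos : 0 < x := by positivity
  have e1 : ((2 : ℝ) ^ L) ^ C * C * (2 : ℝ) ^ (-(2 : ℝ) ^ (s * L)) =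
      Real.exp (C * Real.log 2 * L + Real.log C - Real.log 2 * x ^ 2) := by
    rw [hx2, Real.rpow_def_of_pos (by positivity : (0 : ℝ) < 2 ^ L), Real.rpow_def_of_pos (by norm_num : (0 : ℝ) < 2),
      Real.log_pow]
    nth_rewrite 2 [← Real.exp_log hC]
    rw [← Real.exp_add, ← Real.exp_add]
    congr 1
    ring
  rw [e1]
  apply Real.exp_le_exp.2
  nlinarith [mul_le_mul_of_nonneg_right h2 hxpos.le]

/-- number of the visited cells -/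
lemma nb_box {L : ℕ} {t : List Bool} (ht : t ∈ WL L) : ∀ k b : ℕ, b + k = L + 1 → nb b t ≤ 4 ^ (k + 1) := by
  intro k
  induction k with
  | zero =>
    intro b hb
    have := nb_top ht (show L + 1 ≤ b by omega)
    simpa using this
  | succ k ih =>
    intro b hb
    have h1 := ih (b + 1) (by omega)
    have h2 := nb_four b t
    calc nb b t ≤ 4 * nb (b + 1) t := h2
      _ ≤ 4 * 4 ^ (k + 1) := by omega
      _ = 4 ^ (k + 1 + 1) := by ring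

/-- one bad event -/
def Bad (A : ℝ) (b1 L : ℕ) (Y : ℝ) (dir : Bool) : Set (List Bool) :=
  {t | t ∈ BL L ∧ ∃ b m u e, b1 ≤ b ∧ b ≤ L + 2 ∧ Lf dir b t m u e ∧ A * DD L Y b t < m}

open Classical in
/-- one filling event -/
def Fe (B c κ : ℝ) (i0 μ L b N m : ℕ) : Set (List Bool) :=
  {t | t ∈ BL L ∧ ∃ u e, Lf false b t m u e ∧ (dbl (2 ^ (b - 1)) (lws t e 1 (m - 2)) : ℝ) ≤ B * N ∧
      c * N ≤ (((lws t e 1 (m - 2)).filter (fun g => decide (g ∈ Fil b i0 (b - μ) κ))).length : ℝ)}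

lemma gf_bU {ι : Type} (I : Finset ι) (P : ι → Set (List Bool)) : gf (⋃ i ∈ I, P i) ≤ ∑ i ∈ I, gf (P i) :=
  ENNReal.tsum_biUnion_le wE I P

lemma Ub_nn (L : ℕ) : 0 ≤ Ub L := by
  unfold Ub UU uu
  exact Finset.sum_nonneg fun _ _ => ENNReal.toReal_nonneg

end DimMain

open DimMain

open Classical in
theorem dim_main_of (hcrowd : ∃ (A C : ℝ) (b0 : ℕ), 1 ≤ A ∧ 0 < C ∧ 1 ≤ b0 ∧
      ∀ (L b1 : ℕ) (Y : ℝ) (dir : Bool), b0 ≤ b1 → b1 ≤ L → 1 ≤ Y →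
      gf {t | t ∈ BL L ∧ ∃ b m u e, b1 ≤ b ∧ b ≤ L + 2 ∧ Lf dir b t m u e ∧ A * DD L Y b t < m} ≤
        ENNReal.ofReal (Ub L * (C * (2 : ℝ) ^ (-Y))))
    (hfill : ∀ (A c κ : ℝ) (i0 : ℕ), 1 ≤ A → 0 < c → 0 < κ → ∃ (C : ℝ) (μ b0 : ℕ), 0 < C ∧ 1 ≤ μ ∧ μ ≤ b0 ∧
      ∀ (L b m N : ℕ), b0 ≤ b → b ≤ L + 2 → (m : ℝ) ≤ A * N →
      gf {t | t ∈ BL L ∧ ∃ u e, Lf false b t m u e ∧ (dbl (2 ^ (b - 1)) (lws t e 1 (m - 2)) : ℝ) ≤ A * N ∧
        c * N ≤ (((lws t e 1 (m - 2)).filter (fun g => decide (g ∈ Fil b i0 (b - μ) κ))).length : ℝ)} ≤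
        ENNReal.ofReal (Ub L * ((2 : ℝ) ^ (C * ((L : ℝ) + 3 - b)) * C / 2 ^ N))) :
    ∃ (e0 c : ℝ) (b0 l0 : ℕ), 0 < e0 ∧ e0 < 1 ∧ 0 < c ∧ ∀ L b1 : ℕ, b0 ≤ b1 → b1 + l0 ≤ L →
    gf {t | t ∈ BL L ∧ (2 : ℝ) ^ ((2 - e0) * ((L : ℝ) - b1)) ≤ nb b1 t} ≤
      ENNReal.ofReal (Ub L * Real.exp (-(2 : ℝ) ^ (c * ((L : ℝ) - b1)))) := by
  obtain ⟨A, C1, b0, hA, hC1, hb0, hcr⟩ := hcrowd
  obtain ⟨B, c, κ, i0, hB, hc, hκ, hde⟩ := dense_event_b1 A hA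
  obtain ⟨C2, μ, b2, hC2, hμ, hμb, hpe⟩ := hfill B c κ i0 hB hc hκ
  obtain ⟨e0, l1, he0, he1, hde'⟩ := hde μ hμ
  set s : ℝ := min e0 (1 / 20) with hs
  have hs0 : 0 < s := lt_min he0 (by norm_num)
  set K : ℝ := 17 * (16 * ⌈B⌉₊ + 1) with hK
  have hK0 : 0 < K := by positivity
  set D2 : ℝ := (2 : ℝ) ^ (3 * C2) * C2 with hD2
  have hD20 : 0 < D2 := by positivity
  set C : ℝ := C1 + C2 + 5 + 2 * C1 + K * D2 with hC
  have hC0 : 0 < C := by positivity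
  obtain ⟨L2, hL2⟩ := asymp C s hC0 hs0
  refine ⟨e0, s / 2, max b0 b2, l1 + L2 + 1, he0, he1, by positivity, fun L b1 hb1 hL => ?_⟩
  have hb10 : b0 ≤ b1 := le_trans (le_max_left _ _) hb1
  have hb12 : b2 ≤ b1 := le_trans (le_max_right _ _) hb1
  obtain ⟨l, rfl⟩ : ∃ l, L = b1 + l := ⟨L - b1, by omega⟩
  have ecast : (((b1 + l : ℕ) : ℝ) - b1) = l := by
    push_cast
    ring
  rw [ecast]
  set L : ℕ := b1 + l with hLdef
  set Y : ℝ := (2 : ℝ) ^ (e0 * l) with hY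
  have hY1 : 1 ≤ Y := Real.one_le_rpow (by norm_num) (by positivity)
  set N0 : ℝ := (2 : ℝ) ^ ((l : ℝ) / 20) with hN0
  set M : ℕ := 4 ^ (l + 2) with hM
  set J : Finset (ℕ × ℕ × ℕ) := (((range (l + 1)).image (fun i => b1 + i)) ×ˢ ((range (M + 1)) ×ˢ (range (⌈B⌉₊ * M + 1)))).filter
    (fun x => b2 ≤ x.1 ∧ x.1 ≤ L + 2 ∧ b1 ≤ x.1 ∧ N0 ≤ x.2.1 ∧ (x.2.2 : ℝ) ≤ B * x.2.1) with hJ
  have hsub : {t | t ∈ BL L ∧ (2 : ℝ) ^ ((2 - e0) * l) ≤ nb b1 t} ⊆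
      Bad A b1 L Y false ∪ (Bad A b1 L Y true ∪ ⋃ x ∈ J, Fe B c κ i0 μ L x.1 x.2.1 x.2.2) := by
    rintro t ⟨ht, hlen⟩
    by_cases h0 : t ∈ Bad A b1 L Y false
    · exact Or.inl h0
    by_cases h1 : t ∈ Bad A b1 L Y true
    · exact Or.inr (Or.inl h1)
    refine Or.inr (Or.inr ?_)
    have hall : ∀ (dir : Bool) (b m u : ℕ) (e : ℕ → ℕ), b1 ≤ b → b ≤ L + 2 → Lf dir b t m u e →
        (m : ℝ) ≤ A * DD L ((2 : ℝ) ^ (e0 * ((L : ℝ) - b1))) b t := by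
      intro dir b m u e hb hbL hLf
      rw [ecast]
      by_contra hcon
      rw [not_le] at hcon
      cases dir
      · exact h0 ⟨ht, b, m, u, e, hb, hbL, hLf, hcon⟩
      · exact h1 ⟨ht, b, m, u, e, hb, hbL, hLf, hcon⟩
    have hlen' : (2 : ℝ) ^ ((2 - e0) * ((L : ℝ) - b1)) ≤ nb b1 t := by
      rw [ecast]
      exact hlen
    obtain ⟨b, m, u, e, hb, hbL, hLf, hmB, hdbl, hfil, hN⟩ := hde' L b1 t (by omega) (by omega) ht.2 hlen' hall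
    rw [ecast] at hN
    have hnM : nb b t ≤ M := by
      have h2 := nb_box ht.2 (L + 1 - b) b (by omega)
      refine h2.trans ?_
      rw [hM]
      exact Nat.pow_le_pow_right (by norm_num) (by omega)
    have hmM : m ≤ ⌈B⌉₊ * M := by
      have h2 : (m : ℝ) ≤ (⌈B⌉₊ : ℝ) * M := by
        have h4 : (nb b t : ℝ) ≤ M := by exact_mod_cast hnM
        have h5 : B ≤ ⌈B⌉₊ := Nat.le_ceil B
        have h6 : (0 : ℝ) ≤ nb b t := Nat.cast_nonneg _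
        calc (m : ℝ) ≤ B * nb b t := hmB
          _ ≤ (⌈B⌉₊ : ℝ) * M := mul_le_mul h5 h4 h6 (by positivity)
      exact_mod_cast h2
    have hmem : (b, nb b t, m) ∈ J := by
      rw [hJ, Finset.mem_filter, Finset.mem_product, Finset.mem_product, Finset.mem_image, Finset.mem_range,
        Finset.mem_range]
      refine ⟨⟨⟨b - b1, Finset.mem_range.2 (by omega), by dsimp; omega⟩, by dsimp; omega, by dsimp; omega⟩, by dsimp; omega,
        by dsimp; omega, by dsimp; omega, hN, hmB⟩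
    exact Set.mem_iUnion₂.2 ⟨(b, nb b t, m), hmem, ht, u, e, hLf, hdbl, hfil⟩
  have hU := Ub_nn L
  have hP1 : (0 : ℝ) < 2 ^ l := by positivity
  have hP2 : (1 : ℝ) ≤ 2 ^ l := one_le_pow₀ (by norm_num)
  have hbadb : ∀ dir, gf (Bad A b1 L Y dir) ≤ ENNReal.ofReal (Ub L * (C1 * (2 : ℝ) ^ (-Y))) :=
    fun dir => hcr L b1 Y dir hb10 (by omega) hY1
  have hF : gf (⋃ x ∈ J, Fe B c κ i0 μ L x.1 x.2.1 x.2.2) ≤
      ENNReal.ofReal (((l : ℝ) + 1) * ((M + 1) * (⌈B⌉₊ * M + 1)) * (Ub L * (((2 : ℝ) ^ l) ^ C2 * D2 * (2 : ℝ) ^ (-N0)))) := by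
    refine le_trans (gf_bU J _) ?_
    have hone : ∀ x ∈ J, gf (Fe B c κ i0 μ L x.1 x.2.1 x.2.2) ≤
        ENNReal.ofReal (Ub L * (((2 : ℝ) ^ l) ^ C2 * D2 * (2 : ℝ) ^ (-N0))) := by
      intro x hx
      rw [hJ, Finset.mem_filter] at hx
      obtain ⟨-, h1, h2, h5, h3, h4⟩ := hx
      refine le_trans (hpe L x.1 x.2.2 x.2.1 h1 h2 h4) (ENNReal.ofReal_le_ofReal ?_)
      refine mul_le_mul_of_nonneg_left ?_ hU
      have e1 : (2 : ℝ) ^ (C2 * ((L : ℝ) + 3 - x.1)) ≤ ((2 : ℝ) ^ l) ^ C2 * (2 : ℝ) ^ (3 * C2) := by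
        rw [← Real.rpow_natCast 2 l, ← Real.rpow_mul (by norm_num), ← Real.rpow_add (by norm_num)]
        refine Real.rpow_le_rpow_of_exponent_le (by norm_num) ?_
        have h6 : (b1 : ℝ) ≤ x.1 := by exact_mod_cast h5
        have h7 : (L : ℝ) = b1 + l := by
          rw [hLdef]
          push_cast
          ring
        rw [h7]
        nlinarith
      rw [div_eq_mul_inv, ← Real.rpow_natCast 2 x.2.1, ← Real.rpow_neg (by norm_num)]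
      have e2 : (2 : ℝ) ^ (-(x.2.1 : ℝ)) ≤ (2 : ℝ) ^ (-N0) :=
        Real.rpow_le_rpow_of_exponent_le (by norm_num) (by linarith)
      calc (2 : ℝ) ^ (C2 * ((L : ℝ) + 3 - x.1)) * C2 * (2 : ℝ) ^ (-(x.2.1 : ℝ)) ≤
            (((2 : ℝ) ^ l) ^ C2 * (2 : ℝ) ^ (3 * C2)) * C2 * (2 : ℝ) ^ (-N0) := by gcongr
        _ = ((2 : ℝ) ^ l) ^ C2 * D2 * (2 : ℝ) ^ (-N0) := by rw [hD2]; ring
    refine le_trans (Finset.sum_le_sum hone) ?_
    have hcard : J.card ≤ (l + 1) * ((M + 1) * (⌈B⌉₊ * M + 1)) := by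
      refine le_trans (Finset.card_filter_le _ _) ?_
      rw [Finset.card_product, Finset.card_product, Finset.card_range, Finset.card_range]
      refine Nat.mul_le_mul_right _ (le_trans Finset.card_image_le ?_)
      rw [Finset.card_range]
    have hcard' : (J.card : ℝ) ≤ ((l : ℝ) + 1) * ((M + 1) * (⌈B⌉₊ * M + 1)) := by exact_mod_cast hcard
    rw [Finset.sum_const, nsmul_eq_mul, ← ENNReal.ofReal_natCast, ← ENNReal.ofReal_mul (by positivity)]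
    exact ENNReal.ofReal_le_ofReal (mul_le_mul_of_nonneg_right hcard' (by positivity))
  have hYs : (2 : ℝ) ^ (-Y) ≤ (2 : ℝ) ^ (-(2 : ℝ) ^ (s * l)) := by
    refine Real.rpow_le_rpow_of_exponent_le (by norm_num) (neg_le_neg ?_)
    refine Real.rpow_le_rpow_of_exponent_le (by norm_num) ?_
    exact mul_le_mul_of_nonneg_right (min_le_left _ _) (Nat.cast_nonneg _)
  have hNs : (2 : ℝ) ^ (-N0) ≤ (2 : ℝ) ^ (-(2 : ℝ) ^ (s * l)) := by
    refine Real.rpow_le_rpow_of_exponent_le (by norm_num) (neg_le_neg ?_)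
    refine Real.rpow_le_rpow_of_exponent_le (by norm_num) ?_
    have h1 : s * l ≤ 1 / 20 * l := mul_le_mul_of_nonneg_right (min_le_right _ _) (Nat.cast_nonneg _)
    linarith
  set Z : ℝ := (2 : ℝ) ^ (-(2 : ℝ) ^ (s * l)) with hZ
  have hZ0 : 0 < Z := by positivity
  have hcnt : ((l : ℝ) + 1) * ((M + 1) * (⌈B⌉₊ * M + 1)) ≤ K * ((2 : ℝ) ^ l) ^ (5 : ℝ) := by
    have h1 : (l : ℝ) + 1 ≤ 2 ^ l := by
      have : l + 1 ≤ 2 ^ l := Nat.lt_two_pow_self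
      exact_mod_cast this
    have h4 : (4 : ℝ) ^ l = (2 ^ l) ^ 2 := by
      rw [← pow_mul, mul_comm, pow_mul]; norm_num
    have h41 : (1 : ℝ) ≤ 4 ^ l := one_le_pow₀ (by norm_num)
    have hM' : (M : ℝ) = 16 * 4 ^ l := by rw [hM]; push_cast; ring
    have h2 : (M : ℝ) + 1 ≤ 17 * 4 ^ l := by
      rw [hM']; linarith
    have h3 : (⌈B⌉₊ : ℝ) * M + 1 ≤ (16 * ⌈B⌉₊ + 1) * 4 ^ l := by
      have h6 : (0 : ℝ) ≤ (⌈B⌉₊ : ℝ) := Nat.cast_nonneg _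
      rw [hM']
      nlinarith
    have h5 : ((2 : ℝ) ^ l) ^ (5 : ℝ) = 2 ^ l * (4 ^ l * 4 ^ l) := by
      rw [h4, show (5 : ℝ) = ((5 : ℕ) : ℝ) by norm_num, Real.rpow_natCast]
      ring
    rw [h5]
    have h6 : ((M : ℝ) + 1) * (⌈B⌉₊ * M + 1) ≤ (17 * 4 ^ l) * ((16 * ⌈B⌉₊ + 1) * 4 ^ l) :=
      mul_le_mul h2 h3 (by positivity) (by positivity)
    calc ((l : ℝ) + 1) * ((M + 1) * (⌈B⌉₊ * M + 1)) ≤ 2 ^ l * ((17 * 4 ^ l) * ((16 * ⌈B⌉₊ + 1) * 4 ^ l)) :=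
          mul_le_mul h1 h6 (by positivity) (by positivity)
      _ = K * (2 ^ l * (4 ^ l * 4 ^ l)) := by rw [hK]; ring
  refine le_trans (gf_mono hsub) ?_
  refine le_trans (gf_union_le _ _) ?_
  refine le_trans (add_le_add (hbadb false) (le_trans (gf_union_le _ _) (add_le_add (hbadb true) hF))) ?_
  rw [← ENNReal.ofReal_add (by positivity) (by positivity), ← ENNReal.ofReal_add (by positivity) (by positivity)]
  refine ENNReal.ofReal_le_ofReal ?_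
  have hfin := mul_le_mul_of_nonneg_left (hL2 l (by omega)) hU
  refine le_trans ?_ hfin
  have hC2C : ((2 : ℝ) ^ l) ^ (5 : ℝ) * ((2 : ℝ) ^ l) ^ C2 ≤ ((2 : ℝ) ^ l) ^ C := by
    rw [← Real.rpow_add hP1]
    refine Real.rpow_le_rpow_of_exponent_le hP2 ?_
    rw [hC]
    nlinarith [mul_pos hK0 hD20]
  have h1C : (1 : ℝ) ≤ ((2 : ℝ) ^ l) ^ C := Real.one_le_rpow hP2 hC0.le
  set P : ℝ := ((2 : ℝ) ^ l) ^ C with hP
  have hPpos : 0 < P := by positivity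
  have t1 : C1 * (2 : ℝ) ^ (-Y) ≤ P * C1 * Z := by
    calc C1 * (2 : ℝ) ^ (-Y) ≤ C1 * Z := mul_le_mul_of_nonneg_left hYs hC1.le
      _ = 1 * (C1 * Z) := (one_mul _).symm
      _ ≤ P * (C1 * Z) := mul_le_mul_of_nonneg_right h1C (by positivity)
      _ = P * C1 * Z := by ring
  have t2 : ((l : ℝ) + 1) * ((M + 1) * (⌈B⌉₊ * M + 1)) * (((2 : ℝ) ^ l) ^ C2 * D2 * (2 : ℝ) ^ (-N0)) ≤
      P * (K * D2) * Z := by
    calc ((l : ℝ) + 1) * ((M + 1) * (⌈B⌉₊ * M + 1)) * (((2 : ℝ) ^ l) ^ C2 * D2 * (2 : ℝ) ^ (-N0)) ≤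
          (K * ((2 : ℝ) ^ l) ^ (5 : ℝ)) * (((2 : ℝ) ^ l) ^ C2 * D2 * Z) := by
          refine mul_le_mul hcnt (mul_le_mul_of_nonneg_left hNs (by positivity)) (by positivity) (by positivity)
      _ = (((2 : ℝ) ^ l) ^ (5 : ℝ) * ((2 : ℝ) ^ l) ^ C2) * (K * D2) * Z := by ring
      _ ≤ P * (K * D2) * Z := by
          refine mul_le_mul_of_nonneg_right (mul_le_mul_of_nonneg_right hC2C (by positivity)) hZ0.le
  calc Ub L * (C1 * (2 : ℝ) ^ (-Y)) + (Ub L * (C1 * (2 : ℝ) ^ (-Y)) +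
        ((l : ℝ) + 1) * ((M + 1) * (⌈B⌉₊ * M + 1)) * (Ub L * (((2 : ℝ) ^ l) ^ C2 * D2 * (2 : ℝ) ^ (-N0)))) =
        Ub L * (C1 * (2 : ℝ) ^ (-Y) + (C1 * (2 : ℝ) ^ (-Y) +
        ((l : ℝ) + 1) * ((M + 1) * (⌈B⌉₊ * M + 1)) * (((2 : ℝ) ^ l) ^ C2 * D2 * (2 : ℝ) ^ (-N0)))) := by ring
    _ ≤ Ub L * (P * C1 * Z + (P * C1 * Z + P * (K * D2) * Z)) := by
        refine mul_le_mul_of_nonneg_left ?_ hU
        linarith
    _ = Ub L * (P * (2 * C1 + K * D2) * Z) := by ring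
    _ ≤ Ub L * (P * C * Z) := by
        refine mul_le_mul_of_nonneg_left ?_ hU
        refine mul_le_mul_of_nonneg_right (mul_le_mul_of_nonneg_left ?_ hPpos.le) hZ0.le
        rw [hC]; linarith

end SDN

end HexObs
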