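import Pool.Agent.SDN.BridgeChain
import Pool.Agent.SDN.DimDefs
import Pool.Agent.SDN.Split

/-!
SDN, limit version (board/DIM): the chain of all leaves of a bridge of the box.
-/

set_option autoImplicit false

namespace HexObs

namespace SDN

open Finset TS

open scoped ENNReal

namespace BW

/-- a leaf of height h of a chain spans the height h in the word of the chain -/
lemma span_leaf : ∀ us : List (List Bool), (∀ g ∈ us, ∃ h : ℕ, 1 ≤ h ∧ g ∈ Brd h) → ∀ g ∈ us, ∀ h : ℕ, g ∈ Brd h →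
    ∃ i j, i ≤ (unf us).length ∧ j ≤ (unf us).length ∧ lev (unf us) i - lev (unf us) j = 3 * h := by
  intro us
  induction us with
  | nil =>
    intro _ g hg
    simp at hg
  | cons g0 us ih =>
    intro hus g hg h hgh
    match us, ih, hus, hg with
    | [], _, _, hg =>
      rw [List.mem_singleton] at hg
      subst hg
      refine ⟨g.length, 0, le_rfl, Nat.zero_le _, ?_⟩
      show lev g g.length - lev g 0 = 3 * h
      rw [lev_zero, sub_zero]
      exact (mem_Brd.1 hgh).2.2.2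
    | g' :: gs, ih, hus, hg =>
      obtain ⟨h0, h01, hg0⟩ := hus g0 (by simp)
      obtain ⟨e1, e2, e3⟩ := unf_step (r := unf (g' :: gs)) hg0 h01
      obtain ⟨l1, l2⟩ := unf_step_lev (r := unf (g' :: gs)) hg0 h01
      have hunf : unf (g0 :: g' :: gs) = g0.dropLast ++ (!lst g0) :: (!lst g0) :: unf (g' :: gs) := rfl
      rw [hunf]
      rw [List.mem_cons] at hg
      rcases hg with hg | hg
      · subst hg
        refine ⟨g.length, 0, by omega, Nat.zero_le _, ?_⟩
        rw [(l1 _ le_rfl).1, (l1 0 (Nat.zero_le _)).1, lev_zero, sub_zero]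
        exact (mem_Brd.1 hgh).2.2.2
      · obtain ⟨i, j, hi, hj, hij⟩ := ih (fun g hg => hus g (List.mem_cons_of_mem _ hg)) g hg h hgh
        refine ⟨g0.length + 1 + j, g0.length + 1 + i, by omega, by omega, ?_⟩
        rw [(l2 j).1, (l2 i).1]
        linarith

/-- heights in a bridge of the box 2 ^ L -/
lemma height_le {L T : ℕ} {t : List Bool} (ht : t ∈ WL L) (hT : t ∈ Brd T) : T ≤ 2 ^ L := by
  have h1 := ht.2 t.length le_rfl false
  have h2 : row false (vx oo up t t.length) = T := by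
    unfold row
    rw [lvl_false, (mem_Brd.1 hT).2.2.2]
    omega
  rw [h2] at h1
  have h3 : ((2 ^ L : ℕ) : ℤ) = 2 ^ L := by
    push_cast
    rfl
  have h4 : (T : ℤ) ≤ ((2 ^ L : ℕ) : ℤ) := by
    rw [h3]
    exact (le_abs_self _).trans h1
  exact_mod_cast h4

lemma log_le {L k h : ℕ} (hh : h ≤ 2 ^ L) : Nat.log 2 (h / 2 ^ (k + 4)) ≤ L + 4 - (k + 5) := by
  rcases Nat.eq_zero_or_pos (h / 2 ^ (k + 4)) with h0 | h0
  · rw [h0, Nat.log_zero_right]
    exact Nat.zero_le _
  · have hkL : k + 4 ≤ L := by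
      by_contra hc
      have h1 : 2 ^ L < 2 ^ (k + 4) := Nat.pow_lt_pow_right (by norm_num) (by omega)
      have h2 : h / 2 ^ (k + 4) = 0 := Nat.div_eq_of_lt (by omega)
      omega
    have h1 : h / 2 ^ (k + 4) ≤ 2 ^ (L - (k + 4)) := by
      have e : 2 ^ L = 2 ^ (L - (k + 4)) * 2 ^ (k + 4) := by
        rw [← pow_add]
        congr 1
        omega
      rw [e] at hh
      exact Nat.div_le_of_le_mul (by rw [mul_comm]; exact hh)
    calc Nat.log 2 (h / 2 ^ (k + 4)) ≤ Nat.log 2 (2 ^ (L - (k + 4))) := Nat.log_mono_right h1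
      _ = L - (k + 4) := Nat.log_pow (by norm_num) _
      _ ≤ L + 4 - (k + 5) := by omega

lemma list_split {α : Type*} (gs : List α) (h : 3 ≤ gs.length) : ∃ a c, gs = a :: ((gs.drop 1).take (gs.length - 2) ++ [c]) := by
  match gs, h with
  | a :: rest, h =>
    have hne : rest ≠ [] := by
      rintro rfl
      simp at h
    refine ⟨a, rest.getLast hne, ?_⟩
    rw [List.drop_one, List.tail_cons, List.length_cons]
    have e : rest.length + 1 - 2 = rest.length - 1 := by omega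
    rw [e, ← List.dropLast_eq_take, List.dropLast_append_getLast]

end BW

open BW in
/-- the chain of all leaves of a bridge of the box, heights between 2 ^ (k + 4) and 2 ^ (L + 1) -/
theorem brd_whole {L k m u : ℕ} {t : List Bool} {e : ℕ → ℕ} (ht : t ∈ BL L) (h : Lf false (k + 5) t m u e) (hm : 1 ≤ m) :
    ∃ gs : List (List Bool), gs.length = m ∧ unf gs = t ∧ gs.IsChain LFold ∧
      (∀ g ∈ gs, g ∈ BrR (2 ^ (k + 4)) (2 ^ (L + 1))) ∧ (gs.drop 1).take (m - 2) = lws t e 1 (m - 2) ∧ ¬ Even m ∧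
      dbl (2 ^ (k + 4)) gs ≤ dbl (2 ^ (k + 4)) (lws t e 1 (m - 2)) + 2 * (L + 4 - (k + 5)) := by
  obtain ⟨⟨T, hT⟩, hW⟩ := ht
  obtain ⟨gs, g1, g2, g3, g4, g5⟩ := bridge_chain hT (by omega) h hm
  have hTL := height_le hW hT
  have hge : ∀ x : ℕ, 2 ^ (k + 5) - 1 ≤ x → 2 ^ (k + 4) ≤ x := by
    intro x hx
    have e1 : 2 ^ (k + 5) = 2 * 2 ^ (k + 4) := by rw [pow_succ]; ring
    have e2 : 1 ≤ 2 ^ (k + 4) := Nat.one_le_two_pow
    omega
  have hh : ∀ g ∈ gs, ∃ x : ℕ, 2 ^ (k + 4) ≤ x ∧ x ≤ 2 ^ L ∧ g ∈ Brd x := by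
    intro g hg
    obtain ⟨x, x1, x2⟩ := g4 g hg
    obtain ⟨i, j, hi, hj, hij⟩ := span_leaf gs (fun g hg => by
      obtain ⟨y, y1, y2⟩ := g4 g hg
      exact ⟨y, le_trans Nat.one_le_two_pow (hge y y2), y1⟩) g hg x x1
    rw [g2] at hi hj hij
    have a1 := (lev_range hT hi).2.1
    have a2 := (lev_range hT hj).1
    refine ⟨x, hge x x2, ?_, x1⟩
    have a3 : x ≤ T := by omega
    omega
  have hlog : ∀ g ∈ gs, Nat.log 2 (hgt g / 2 ^ (k + 4)) ≤ L + 4 - (k + 5) := by
    intro g hg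
    obtain ⟨x, x1, x2, x3⟩ := hh g hg
    have e1 : hgt g = x := by
      unfold hgt
      rw [(mem_Brd.1 x3).2.2.2]
      omega
    rw [e1]
    exact log_le x2
  refine ⟨gs, g1, g2, g3, ?_, g5, (bridge_lf hT (by omega) h hm).2.1, ?_⟩
  · intro g hg
    obtain ⟨x, x1, x2, x3⟩ := hh g hg
    refine ⟨x, x1, ?_, x3⟩
    have : 2 ^ (L + 1) = 2 * 2 ^ L := by rw [pow_succ]; ring
    omega
  · rcases Nat.lt_or_ge m 3 with hm3 | hm3
    · have hm1 : m = 1 := by
        have := (bridge_lf hT (by omega) h hm).2.1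
        have h2 : m ≠ 2 := by
          rintro rfl
          exact this (by decide)
        omega
      subst hm1
      obtain ⟨g, rfl⟩ := List.length_eq_one_iff.1 g1
      have h5 := hlog g (by simp)
      have e1 : dbl (2 ^ (k + 4)) [g] = Nat.log 2 (hgt g / 2 ^ (k + 4)) := by
        unfold dbl
        simp
      rw [e1]
      omega
    · obtain ⟨a, c, hac⟩ := list_split gs (by omega)
      rw [g1, g5] at hac
      have e1 : dbl (2 ^ (k + 4)) gs = Nat.log 2 (hgt a / 2 ^ (k + 4)) + (dbl (2 ^ (k + 4)) (lws t e 1 (m - 2)) +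
          Nat.log 2 (hgt c / 2 ^ (k + 4))) := by
        rw [hac]
        unfold dbl
        simp
      have h5 := hlog a (by rw [hac]; simp)
      have h6 := hlog c (by rw [hac]; simp)
      rw [e1]
      omega

/-- the weight of the words of the chains of P -/
theorem gf_whole {S : Set (List Bool)} {P : Set (List (List Bool))}
    (hP : ∀ gs ∈ P, gs ≠ [] ∧ ∀ g ∈ gs, ∃ n : ℕ, 1 ≤ n ∧ g ∈ Brd n) (hS : ∀ t ∈ S, ∃ gs ∈ P, unf gs = t) :
    gf S ≤ ∑' gs : {gs // gs ∈ P}, wl gs.1 := by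
  classical
  choose! f hf hft using hS
  have hx1 : ENNReal.ofReal xc ≤ 1 := by
    rw [← ENNReal.ofReal_one]
    exact ENNReal.ofReal_le_ofReal xc_bounds.2
  have hw : ∀ t ∈ S, wE t ≤ wl (f t) := by
    intro t ht
    obtain ⟨p1, p2⟩ := hP _ (hf t ht)
    have hl := unf_length (fun g hg => by
      obtain ⟨n, n1, n2⟩ := p2 g hg
      exact Brd_ne_nil n2 n1) p1
    rw [hft t ht] at hl
    have h1 : 1 ≤ (f t).length := List.length_pos_iff.2 p1
    unfold wl
    rw [wE_prod, wE_eq_pow]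
    exact pow_le_pow_of_le_one zero_le hx1 (by omega)
  unfold gf
  calc ∑' t : S, wE t.1 ≤ ∑' t : S, wl (f t.1) := ENNReal.tsum_le_tsum fun t => hw t.1 t.2
    _ ≤ ∑' gs : {gs // gs ∈ P}, wl gs.1 :=
        ENNReal.tsum_comp_le_tsum_of_injective (f := fun t : S => (⟨f t.1, hf t.1 t.2⟩ : {gs // gs ∈ P}))
          (fun a b hab => by
            apply Subtype.ext
            have h1 : f a.1 = f b.1 := congrArg (fun p => p.1) hab
            rw [← hft a.1 a.2, ← hft b.1 b.2, h1]) (fun gs : {gs // gs ∈ P} => wl gs.1)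

end SDN

end HexObs
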