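import Pool.Agent.SDN.Peierls2
import Pool.Agent.SDN.BrdWhole
import Pool.Agent.TightN.SNum
import Pool.Agent.TightD.Code

/-!
SDN, limit version (board/DIM), M3: filling, for the bridges of the box.
-/

set_option autoImplicit false

namespace HexObs

namespace SDN

open Finset TS

open scoped ENNReal

open Rec8 (sw)

namespace BW

lemma gf_BL (L : ℕ) : gf (BL L) ≤ ENNReal.ofReal (Ub L) := by
  refine le_trans (gf_mono ?_) (TD.gf_bd (2 ^ L))
  rintro t ⟨⟨T, hT⟩, hW⟩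
  exact ⟨T, height_le hW hT, hT⟩

lemma Ub_low {L k : ℕ} (h : k + 5 ≤ L + 2) : Ub (k + 4) ≤ 2 * Ub L :=
  (Ub_mono (show k + 4 ≤ L + 1 by omega)).trans (Ub_succ L)

end BW

open Classical BW in
/-- filling, for the bridges of the box: at most A N leaves, at most A N doublings, at least c N filling leaves -/
theorem fill_brd : ∀ (A c κ : ℝ) (i0 : ℕ), 1 ≤ A → 0 < c → 0 < κ → ∃ (C : ℝ) (μ b0 : ℕ), 0 < C ∧ 1 ≤ μ ∧ μ ≤ b0 ∧
    ∀ (L b m N : ℕ), b0 ≤ b → b ≤ L + 2 → (m : ℝ) ≤ A * N →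
    gf {t | t ∈ BL L ∧ ∃ u e, Lf false b t m u e ∧ (dbl (2 ^ (b - 1)) (lws t e 1 (m - 2)) : ℝ) ≤ A * N ∧
      c * N ≤ (((lws t e 1 (m - 2)).filter (fun g => decide (g ∈ Fil b i0 (b - μ) κ))).length : ℝ)} ≤
      ENNReal.ofReal (Ub L * ((2 : ℝ) ^ (C * ((L : ℝ) + 3 - b)) * C / 2 ^ N)) := by
  intro A c κ i0 hA hc hκ
  obtain ⟨C4, μ, k0, hC4, hμ, hch⟩ := fill_chain (A + 2) c κ i0 (by linarith) hc hκ
  obtain ⟨C, hC⟩ : ∃ C : ℝ, C = 2 * C4 + 1 := ⟨_, rfl⟩
  have hC1 : 1 ≤ C := by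
    rw [hC]
    linarith
  have hC2 : 2 * C4 ≤ C := by
    rw [hC]
    linarith
  refine ⟨C, μ, max (k0 + 5) (μ + 5), by linarith, hμ, by omega, ?_⟩
  intro L b m N hb0 hbL hm
  obtain ⟨k, rfl⟩ : ∃ k, b = k + 5 := ⟨b - 5, by omega⟩
  have hk0 : k0 ≤ k := by omega
  have hD : k + 5 - 1 = k + 4 := by omega
  rw [hD]
  obtain ⟨S, hS⟩ : ∃ S : Set (List Bool), S = {t | t ∈ BL L ∧ ∃ u e, Lf false (k + 5) t m u e ∧
      (dbl (2 ^ (k + 4)) (lws t e 1 (m - 2)) : ℝ) ≤ A * N ∧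
      c * N ≤ (((lws t e 1 (m - 2)).filter (fun g => decide (g ∈ Fil (k + 5) i0 (k + 5 - μ) κ))).length : ℝ)} := ⟨_, rfl⟩
  rw [← hS]
  have hUL : 0 < Ub L := Ub_pos L
  have hcast : ((L : ℝ) + 3 - ((k + 5 : ℕ) : ℝ)) = ((L + 3 - (k + 5) : ℕ) : ℝ) := by
    rw [Nat.cast_sub (by omega)]
    push_cast
    ring
  rw [hcast]
  obtain ⟨d, hd⟩ : ∃ d, d = L + 3 - (k + 5) := ⟨_, rfl⟩
  rw [← hd]
  have hpow : ((2 : ℝ) ^ d) ≤ (2 : ℝ) ^ (C * (d : ℝ)) := by
    rw [← Real.rpow_natCast]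
    apply Real.rpow_le_rpow_of_exponent_le (by norm_num)
    nlinarith [Nat.cast_nonneg (α := ℝ) d]
  have hpow1 : 1 ≤ (2 : ℝ) ^ (C * (d : ℝ)) := le_trans (one_le_pow₀ (by norm_num)) hpow
  rcases Nat.lt_or_ge d N with hN | hN
  swap
  · -- few
    have h1 : S ⊆ BL L := by
      rw [hS]
      exact fun t ht => ht.1
    refine (gf_mono h1).trans ((gf_BL L).trans (ENNReal.ofReal_le_ofReal ?_))
    have h2 : (1 : ℝ) ≤ (2 : ℝ) ^ (C * (d : ℝ)) * C / 2 ^ N := by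
      rw [le_div_iff₀ (by positivity), one_mul]
      have h3 : (2 : ℝ) ^ N ≤ 2 ^ d := pow_le_pow_right₀ (by norm_num) hN
      nlinarith
    calc Ub L = Ub L * 1 := (mul_one _).symm
      _ ≤ _ := by gcongr
  · have hNr : (0 : ℝ) < N := by
      have : 0 < N := by omega
      exact_mod_cast this
    rcases Nat.eq_zero_or_pos m with hm0 | hm0
    · have h1 : S = ∅ := by
        rw [hS, Set.eq_empty_iff_forall_notMem]
        rintro t ⟨-, u, e, -, -, h⟩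
        rw [hm0] at h
        have e2 : lws t e 1 (0 - 2) = [] := rfl
        rw [e2, List.filter_nil, List.length_nil, Nat.cast_zero] at h
        nlinarith [mul_pos hc hNr]
      rw [h1]
      unfold gf
      rw [tsum_empty]
      exact zero_le
    obtain ⟨P, hP⟩ : ∃ P : Set (List (List Bool)), P = {gs : List (List Bool) | gs.length = m ∧ List.IsChain LFold gs ∧
        (∀ u ∈ gs, u ∈ BrR (2 ^ (k + 4)) (2 ^ (L + 1))) ∧ (dbl (2 ^ (k + 4)) gs : ℝ) ≤ (A + 2) * N ∧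
        c * N ≤ ((gs.filter (fun g => decide (g ∈ Fil (k + 5) i0 (k + 5 - μ) κ))).length : ℝ)} := ⟨_, rfl⟩
    have h1 : gf S ≤ ∑' gs : {gs // gs ∈ P}, wl gs.1 := by
      apply gf_whole
      · intro gs hgs
        rw [hP] at hgs
        obtain ⟨g1, -, g3, -⟩ := hgs
        refine ⟨?_, fun g hg => ?_⟩
        · rintro rfl
          rw [List.length_nil] at g1
          omega
        · obtain ⟨x, x1, -, x3⟩ := g3 g hg
          exact ⟨x, le_trans Nat.one_le_two_pow x1, x3⟩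
      · intro t ht
        rw [hS] at ht
        obtain ⟨htB, u, e, hLf, hdbl, hfil⟩ := ht
        obtain ⟨gs, g1, g2, g3, g4, g5, -, g7⟩ := brd_whole htB hLf hm0
        refine ⟨gs, ?_, g2⟩
        rw [hP]
        refine ⟨g1, g3, g4, ?_, ?_⟩
        · have a1 : (dbl (2 ^ (k + 4)) gs : ℝ) ≤ dbl (2 ^ (k + 4)) (lws t e 1 (m - 2)) + 2 * (L + 4 - (k + 5) : ℕ) := by
            exact_mod_cast g7
          have a2 : ((L + 4 - (k + 5) : ℕ) : ℝ) ≤ N := by
            have : L + 4 - (k + 5) ≤ N := by omega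
            exact_mod_cast this
          linarith
        · refine hfil.trans ?_
          rw [← g5]
          have hsub : ((gs.drop 1).take (m - 2)).Sublist gs := (List.take_sublist _ _).trans (List.drop_sublist _ _)
          have h5 := (hsub.filter (fun g => decide (g ∈ Fil (k + 5) i0 (k + 5 - μ) κ))).length_le
          exact_mod_cast h5
    have h3 : ∑' gs : {gs // gs ∈ P}, wl gs.1 ≤ ENNReal.ofReal (C4 * Ub (k + 4) / 2 ^ N) := by
      rw [hP]
      exact hch k (2 ^ (L + 1)) m N hk0 (by nlinarith)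
    refine h1.trans (h3.trans (ENNReal.ofReal_le_ofReal ?_))
    have hU := Ub_low hbL
    calc C4 * Ub (k + 4) / 2 ^ N ≤ C4 * (2 * Ub L) / 2 ^ N := by gcongr
      _ = Ub L * (1 * (2 * C4) / 2 ^ N) := by ring
      _ ≤ _ := by gcongr

end SDN

end HexObs
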