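import Pool.Agent.SDN.CrowdBrd
import Pool.Agent.SDN.CrowdAll
import Pool.Agent.SDN.FillBrd
import Pool.Agent.SDN.DimMain
import Pool.Agent.SDN.DimLaw
import Pool.Agent.SDN.DimLim

/-!
SDN, limit version (board/DIM): the bound for the number of the visited cells, law of the first cut words.
-/

set_option autoImplicit false

namespace HexObs

namespace SDN

open Finset MeasureTheory Filter Topology TS

open scoped ENNReal

theorem dim_law : ∃ (e0 c : ℝ) (b0 l0 : ℕ), 0 < e0 ∧ e0 < 1 ∧ 0 < c ∧ ∀ L b1 T : ℕ, b0 ≤ b1 → b1 + l0 ≤ L → 1 ≤ T →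
    gf {t | t ∈ FCW T ∧ t ∈ WL L ∧ (2 : ℝ) ^ ((2 - e0) * ((L : ℝ) - b1)) ≤ nb b1 t} ≤
      ENNReal.ofReal (Real.exp (-(2 : ℝ) ^ (c * ((L : ℝ) - b1)))) :=
  dim_law_of (dim_main_of (crowd_bound_brd_of crowd_brd) fill_brd)

/-- the limit curves have upper Minkowski dimension at most d < 2: covering numbers -/
theorem dim_lim : ∃ d : ℝ, d < 2 ∧ ∀ (X : ℕ → List Bool → C(unitInterval, ℂ))
    (μ : ℕ → ProbabilityMeasure C(unitInterval, ℂ)) (φ : ℕ → ℕ) (ν : ProbabilityMeasure C(unitInterval, ℂ)),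
    (∀ T t, ∃ r : unitInterval ≃ₜ unitInterval, Monotone r ∧ ∀ u, X T t u = curve T t (r u)) →
    (∀ T, (μ T : Measure C(unitInterval, ℂ)) = ((lawK T).map (X T)).toMeasure) →
    Tendsto φ atTop atTop → Tendsto (fun k => μ (φ k)) atTop (𝓝 ν) →
    ∀ᵐ (f : C(unitInterval, ℂ)) ∂(ν : Measure C(unitInterval, ℂ)), ∃ M : ℝ, ∀ n : ℕ, ∃ F : Finset ℂ,
      (F.card : ℝ) ≤ M * 2 ^ (d * n) ∧ Set.range f ⊆ ⋃ z ∈ F, Metric.closedBall z ((1 / 2) ^ n) :=
  dim_lim_of dim_law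

end SDN

end HexObs
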