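import Pool.Agent.SDN.Defs
import Pool.Agent.HexLoop.Hit
import Pool.Agent.TightN.SNum

/-!
SDN: expected number of the cells of side 2 ^ s visited by a bridge in the bulk rows, from the hitting estimate hit_le
of LOOP.
-/

set_option autoImplicit false

namespace HexObs

namespace SDN

open Finset TS

open scoped ENNReal

open Classical in
/-- own-grid cells of side 2 ^ s of Z in the bulk rows -/
noncomputable def nbk (η : ℝ) (h s : ℕ) (Z : List Bool) : ℕ :=
  ((cells s Z).filter fun p => η * h ≤ 2 ^ s * (p.1 : ℝ) ∧ 2 ^ s * (p.1 : ℝ) ≤ (1 - η) * h).card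

/-- visited cells of the row a of cells -/
def rcells (s : ℕ) (a : ℤ) (Z : List Bool) : Finset (ℤ × ℤ) := (cells s Z).filter (fun p => p.1 = a)

/-- the center of the row a of cells -/
def ctr (s : ℕ) (a : ℤ) : Pt := (-(2 ^ s * a), 2 * (2 ^ s * a))

/-- the bridges of height h that, from the foot k, meet the box around the center -/
def HitS (h s : ℕ) (a : ℤ) (k : ℤ) : Set (List Bool) :=
  {t | t ∈ Brd h ∧ ∃ i, 1 ≤ i ∧ i ≤ t.length ∧ LP.Bx (ctr s a) (3 * 2 ^ s) (vx (LP.ft k).1 up t i)}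

lemma cl_ctr (s : ℕ) (a : ℤ) : cl (ctr s a) = 0 := by
  unfold cl ctr
  have h3 : (3 : ZMod 3) = 0 := by decide
  push_cast
  linear_combination (-(2 ^ s * a) : ZMod 3) * h3

lemma lv_ctr (s : ℕ) (a : ℤ) : LP.lv (ctr s a) = 3 * (2 ^ s * a) := by
  unfold LP.lv ctr
  ring

lemma ftk (k : ℤ) : (LP.ft k).1 = (2 * k, -k) := by
  show k • hz up = _
  have : hz up = (2, -1) := by decide
  rw [this]
  simp only [Prod.smul_mk, smul_eq_mul, mul_neg, mul_one]
  rw [mul_comm]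

lemma row_false (v : Pt) : row false v = (v.1 + 2 * v.2) / 3 := by
  have e : lvl false v = v.1 + 2 * v.2 := by
    show ip v up = _
    unfold ip up
    ring
  unfold row
  rw [e]

lemma row_true (v : Pt) : row true v = (-2 * v.1 - v.2) / 3 := by
  have e : lvl true v = -2 * v.1 - v.2 := by
    show ip v (-1, 0) = _
    unfold ip
    ring
  unfold row
  rw [e]

/-- bounds for the rows from the cell -/
lemma cell_bd {s : ℕ} {v : Pt} {p : ℤ × ℤ} (h : cell s v = p) :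
    2 ^ s * p.1 ≤ row false v ∧ row false v < 2 ^ s * p.1 + 2 ^ s ∧
      2 ^ s * p.2 ≤ row true v ∧ row true v < 2 ^ s * p.2 + 2 ^ s := by
  have h2 : (0 : ℤ) < 2 ^ s := by positivity
  subst h
  unfold cell
  refine ⟨Int.mul_ediv_self_le h2.ne', ?_, Int.mul_ediv_self_le h2.ne', ?_⟩
  · have := Int.lt_mul_ediv_self_add (x := row false v) h2
    linarith
  · have := Int.lt_mul_ediv_self_add (x := row true v) h2
    linarith

/-- a visited cell gives 2 ^ s feet from which the word meets the box -/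
lemma hit_of_cell {s : ℕ} {a : ℤ} (ha : 0 < a) {t : List Bool} {p : ℤ × ℤ} (hp : p ∈ rcells s a t) {k : ℤ}
    (h1 : 2 ^ s * p.2 ≤ k) (h2 : k < 2 ^ s * p.2 + 2 ^ s) :
    ∃ i, 1 ≤ i ∧ i ≤ t.length ∧ LP.Bx (ctr s a) (3 * 2 ^ s) (vx (LP.ft k).1 up t i) := by
  unfold rcells cells at hp
  rw [mem_filter, mem_image] at hp
  obtain ⟨⟨i, hi, hc⟩, hpa⟩ := hp
  rw [mem_range] at hi
  obtain ⟨b1, b2, b3, b4⟩ := cell_bd hc
  have h2s : (0 : ℤ) < 2 ^ s := by positivity
  refine ⟨i, ?_, by omega, ?_⟩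
  · rcases Nat.eq_zero_or_pos i with h0 | h0
    · exfalso
      rw [h0] at b1
      have e0 : row false (vx oo up t 0) = 0 := by
        show row false oo = 0
        decide
      rw [e0, hpa] at b1
      have : 0 < 2 ^ s * a := mul_pos h2s ha
      omega
    · exact h0
  · rw [LP.hit_vx, ftk]
    rw [row_false] at b1 b2
    rw [row_true] at b3 b4
    rw [hpa] at b1 b2
    obtain ⟨v, hv⟩ : ∃ v, v = vx oo up t i := ⟨_, rfl⟩
    rw [← hv] at b1 b2 b3 b4 ⊢
    obtain ⟨x, y⟩ := v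
    obtain ⟨S, hS⟩ : ∃ S : ℤ, S = 2 ^ s := ⟨_, rfl⟩
    obtain ⟨A, hA⟩ : ∃ A : ℤ, A = 2 ^ s * a := ⟨_, rfl⟩
    obtain ⟨B, hB⟩ : ∃ B : ℤ, B = 2 ^ s * p.2 := ⟨_, rfl⟩
    unfold LP.Bx ctr
    simp only [Prod.mk_add_mk, Prod.fst_sub, Prod.snd_sub]
    push_cast
    rw [← hA] at b1 b2
    rw [← hS] at b2
    rw [← hB] at b3 b4 h2 h1
    rw [← hS] at b4 h2
    rw [← hA, ← hS, abs_le, abs_le]
    simp only at b1 b2 b3 b4
    refine ⟨⟨?_, ?_⟩, ?_, ?_⟩ <;> omega

open Classical in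
/-- counting of the feet -/
lemma count_feet {s : ℕ} {a : ℤ} (ha : 0 < a) (h : ℕ) (t : List Bool) (ht : t ∈ Brd h) :
    ((2 ^ s * (rcells s a t).card : ℕ) : ℝ≥0∞) ≤ ∑' k : ℤ, (if t ∈ HitS h s a k then 1 else 0 : ℝ≥0∞) := by
  obtain ⟨K, hK⟩ : ∃ K : Finset ℤ, K = ((rcells s a t) ×ˢ range (2 ^ s)).image (fun q => 2 ^ s * q.1.2 + (q.2 : ℤ)) := ⟨_, rfl⟩
  have h2s : (0 : ℤ) < 2 ^ s := by positivity
  have hcard : K.card = 2 ^ s * (rcells s a t).card := by
    rw [hK, card_image_of_injOn, card_product, card_range, mul_comm]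
    rintro ⟨p, j⟩ hp ⟨q, l⟩ hq hpq
    rw [Finset.mem_coe, mem_product, mem_range] at hp hq
    simp only at hp hq hpq
    have ep : p.1 = a := by
      have := hp.1
      unfold rcells at this
      exact (mem_filter.1 this).2
    have eq' : q.1 = a := by
      have := hq.1
      unfold rcells at this
      exact (mem_filter.1 this).2
    have hj : (j : ℤ) < 2 ^ s := by exact_mod_cast hp.2
    have hl : (l : ℤ) < 2 ^ s := by exact_mod_cast hq.2
    have h3 : p.2 = q.2 := by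
      have e1 : (2 ^ s * p.2 + (j : ℤ)) / 2 ^ s = p.2 := by
        rw [add_comm, Int.add_mul_ediv_left _ _ h2s.ne', Int.ediv_eq_zero_of_lt (by omega) hj, zero_add]
      have e2 : (2 ^ s * q.2 + (l : ℤ)) / 2 ^ s = q.2 := by
        rw [add_comm, Int.add_mul_ediv_left _ _ h2s.ne', Int.ediv_eq_zero_of_lt (by omega) hl, zero_add]
      rw [← e1, ← e2, hpq]
    have h4 : j = l := by
      rw [h3] at hpq
      have : (j : ℤ) = l := by linarith
      exact_mod_cast this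
    rw [Prod.mk.injEq, Prod.ext_iff]
    exact ⟨⟨ep.trans eq'.symm, h3⟩, h4⟩
  rw [← hcard]
  calc (K.card : ℝ≥0∞) = ∑ k ∈ K, (if t ∈ HitS h s a k then 1 else 0 : ℝ≥0∞) := by
        rw [Finset.card_eq_sum_ones, Nat.cast_sum]
        apply sum_congr rfl
        intro k hk
        rw [hK, mem_image] at hk
        obtain ⟨⟨p, j⟩, hp, rfl⟩ := hk
        rw [mem_product, mem_range] at hp
        rw [if_pos, Nat.cast_one]
        refine ⟨ht, hit_of_cell ha hp.1 ?_ ?_⟩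
        · simp only
          omega
        · simp only
          have hj : (j : ℤ) < 2 ^ s := by exact_mod_cast hp.2
          omega
    _ ≤ _ := ENNReal.sum_le_tsum K

/-- all feet together -/
lemma tsum_ft {P : ℤ → Set (List Bool)} {c : ℝ}
    (h : ∀ X : Finset (ℤ × List Bool), (∀ x ∈ X, x.2 ∈ P x.1) → ∑ x ∈ X, xc ^ x.2.length ≤ c) :
    ∑' k : ℤ, gf (P k) ≤ ENNReal.ofReal c := by
  have h1 : ∑' k : ℤ, gf (P k) = ∑' x : (Σ k : ℤ, P k), wE (x.2 : List Bool) := by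
    rw [ENNReal.tsum_sigma']
    rfl
  rw [h1, ENNReal.tsum_eq_iSup_sum]
  apply iSup_le
  intro s
  have h2 : ∑ x ∈ s, wE (x.2 : List Bool) =
      ∑ y ∈ s.map ⟨fun x : (Σ k : ℤ, P k) => ((x.1, (x.2 : List Bool)) : ℤ × List Bool), by
        rintro ⟨k, t, ht⟩ ⟨k', t', ht'⟩ hkk
        simp only [Prod.mk.injEq] at hkk
        obtain ⟨rfl, rfl⟩ := hkk
        rfl⟩, wE y.2 := by
    rw [Finset.sum_map]
    rfl
  rw [h2]
  unfold wE
  rw [← ENNReal.ofReal_sum_of_nonneg (fun y _ => (pow_pos xc_pos _).le)]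
  apply ENNReal.ofReal_le_ofReal
  apply h
  intro y hy
  rw [Finset.mem_map] at hy
  obtain ⟨x, -, rfl⟩ := hy
  exact x.2.2

/-- one row of cells -/
theorem row_le : ∀ η : ℝ, 0 < η → ∃ (C : ℝ) (M : ℕ), 0 < C ∧ 1 ≤ M ∧ ∀ (h s : ℕ) (a : ℤ), M * 2 ^ s < h → 0 < a →
    η * h ≤ 2 ^ s * (a : ℝ) → 2 ^ s * (a : ℝ) ≤ (1 - η) * h →
    Rec8.sw (Brd h) (fun Z => ((rcells s a Z).card : ℝ≥0∞)) ≤
      ENNReal.ofReal (C * (h / 2 ^ s) / Real.log (h / (M * 2 ^ s)) * uu h) := by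
  classical
  intro η hη
  obtain ⟨C, M, hC, hM, hhit⟩ := LP.hit_le η hη
  refine ⟨C, 3 * M, hC, by omega, ?_⟩
  intro h s a hMh ha h1 h2
  have h2s : (0 : ℝ) < 2 ^ s := by positivity
  have hM0 : (0 : ℝ) < M := by exact_mod_cast hM
  have hMh' : ((3 * M : ℕ) : ℝ) * 2 ^ s < h := by exact_mod_cast hMh
  have hlog : 0 < Real.log (h / (((3 * M : ℕ) : ℝ) * 2 ^ s)) := by
    apply Real.log_pos
    rw [lt_div_iff₀ (by push_cast; positivity)]
    linarith
  have e1 : ((3 * M : ℕ) : ℝ) * 2 ^ s = M * ((3 * 2 ^ s : ℕ) : ℝ) := by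
    push_cast
    ring
  have key : ∑' k : ℤ, gf (HitS h s a k) ≤ ENNReal.ofReal (C * h * uu h / Real.log (h / (((3 * M : ℕ) : ℝ) * 2 ^ s))) := by
    apply tsum_ft
    intro X hX
    rw [le_div_iff₀ hlog, e1]
    have hpos : 1 ≤ 3 * 2 ^ s := by
      have : 1 ≤ 2 ^ s := Nat.one_le_two_pow
      omega
    apply hhit h (3 * 2 ^ s) (ctr s a) hpos ?_ (cl_ctr s a) ?_ ?_ X ?_
    · have : M * (3 * 2 ^ s) = 3 * M * 2 ^ s := by ring
      omega
    · rw [lv_ctr]
      push_cast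
      nlinarith
    · rw [lv_ctr]
      push_cast
      nlinarith
    · intro x hx
      exact hX x hx
  have h3 : ENNReal.ofReal (2 ^ s) * Rec8.sw (Brd h) (fun Z => ((rcells s a Z).card : ℝ≥0∞)) ≤
      ∑' k : ℤ, gf (HitS h s a k) := by
    calc ENNReal.ofReal (2 ^ s) * Rec8.sw (Brd h) (fun Z => ((rcells s a Z).card : ℝ≥0∞))
        = Rec8.sw (Brd h) (fun Z => ENNReal.ofReal (2 ^ s) * ((rcells s a Z).card : ℝ≥0∞)) :=
          (Rec8.sw_mul_left _ _ _).symm
      _ ≤ Rec8.sw (Brd h) (fun Z => ∑' k : ℤ, (if Z ∈ HitS h s a k then 1 else 0 : ℝ≥0∞)) := by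
          refine Rec8.sw_mono' fun Z hZ => ?_
          refine le_trans (le_of_eq ?_) (count_feet (s := s) ha h Z hZ)
          push_cast
          congr 1
          rw [ENNReal.ofReal_pow (by norm_num)]
          norm_num
      _ = ∑' k : ℤ, Rec8.sw (Brd h) (fun Z => (if Z ∈ HitS h s a k then 1 else 0 : ℝ≥0∞)) := by
          unfold Rec8.sw
          rw [ENNReal.tsum_comm]
          apply tsum_congr
          intro Z
          rw [ENNReal.tsum_mul_left]
      _ = ∑' k : ℤ, gf (HitS h s a k) := by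
          apply tsum_congr
          intro k
          have := Rec8.sw_and (Brd h) (fun Z => Z ∈ HitS h s a k) (fun _ => 1)
          rw [Rec8.sw_one] at this
          have e2 : {t | t ∈ Brd h ∧ t ∈ HitS h s a k} = HitS h s a k := by
            ext t
            exact ⟨fun h5 => h5.2, fun h5 => ⟨h5.1, h5⟩⟩
          rw [e2] at this
          rw [this]
  have h4 : Rec8.sw (Brd h) (fun Z => ((rcells s a Z).card : ℝ≥0∞)) ≤
      (ENNReal.ofReal (2 ^ s))⁻¹ * ENNReal.ofReal (C * h * uu h / Real.log (h / (((3 * M : ℕ) : ℝ) * 2 ^ s))) := by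
    rw [mul_comm, ← div_eq_mul_inv, ENNReal.le_div_iff_mul_le (Or.inl (by simpa using h2s)) (Or.inl ENNReal.ofReal_ne_top),
      mul_comm]
    exact h3.trans key
  refine h4.trans (le_of_eq ?_)
  rw [← ENNReal.ofReal_inv_of_pos h2s, ← ENNReal.ofReal_mul (by positivity)]
  congr 1
  field_simp

private lemma gf_Brd_ofReal (T : ℕ) : gf (Brd T) = ENNReal.ofReal (uu T) := by
  rw [gf_Brd]
  unfold uu
  rw [ENNReal.ofReal_toReal]
  rcases Nat.eq_zero_or_pos T with h | h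
  · rw [h, ← gf_Brd, Brd_zero]
    have : gf ({[]} : Set (List Bool)) = 1 := by
      unfold gf
      rw [tsum_singleton (f := wE)]
      unfold wE
      simp
    rw [this]
    exact ENNReal.one_ne_top
  · exact BT_ne_top h

/-- all bulk rows -/
theorem cells_bulk : ∀ η : ℝ, 0 < η → ∃ (C : ℝ) (M : ℕ), 0 < C ∧ 1 ≤ M ∧ ∀ h s : ℕ, M * 2 ^ s < h →
    Rec8.sw (Brd h) (fun Z => (nbk η h s Z : ℝ≥0∞)) ≤
      ENNReal.ofReal (C * ((h : ℝ) / 2 ^ s) ^ 2 / Real.log (h / (M * 2 ^ s))) * gf (Brd h) := by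
  classical
  intro η hη
  obtain ⟨C, M, hC, hM, hrow⟩ := row_le η hη
  refine ⟨C, M, hC, hM, ?_⟩
  intro h s hMh
  have h2s : (0 : ℝ) < 2 ^ s := by positivity
  have hh : 1 ≤ h := by omega
  have hh0 : (0 : ℝ) < h := by exact_mod_cast hh
  have hM0 : (0 : ℝ) < M := by exact_mod_cast hM
  have hMh' : (M : ℝ) * 2 ^ s < h := by exact_mod_cast hMh
  have hlog : 0 < Real.log (h / ((M : ℝ) * 2 ^ s)) := by
    apply Real.log_pos
    rw [lt_div_iff₀ (by positivity)]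
    linarith
  obtain ⟨A, hA⟩ : ∃ A : Finset ℕ, A = (Icc 1 (h / 2 ^ s)).filter
      (fun a : ℕ => η * h ≤ 2 ^ s * ((a : ℤ) : ℝ) ∧ 2 ^ s * ((a : ℤ) : ℝ) ≤ (1 - η) * h) := ⟨_, rfl⟩
  have hsub : ∀ Z : List Bool, (nbk η h s Z : ℝ≥0∞) ≤ ∑ a ∈ A, ((rcells s (a : ℤ) Z).card : ℝ≥0∞) := by
    intro Z
    have h1 : ((cells s Z).filter fun p => η * h ≤ 2 ^ s * (p.1 : ℝ) ∧ 2 ^ s * (p.1 : ℝ) ≤ (1 - η) * h) ⊆
        A.biUnion (fun a => rcells s (a : ℤ) Z) := by
      intro p hp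
      rw [mem_filter] at hp
      obtain ⟨hp1, hp2, hp3⟩ := hp
      have hpos : 0 < p.1 := by
        have h3 : (0 : ℝ) < 2 ^ s * (p.1 : ℝ) := lt_of_lt_of_le (by positivity) hp2
        have h4 : (0 : ℝ) < p.1 := by
          by_contra hc
          push Not at hc
          have : 2 ^ s * (p.1 : ℝ) ≤ 0 := mul_nonpos_of_nonneg_of_nonpos h2s.le hc
          linarith
        exact_mod_cast h4
      obtain ⟨a, ha⟩ : ∃ a : ℕ, (a : ℤ) = p.1 := ⟨p.1.toNat, by omega⟩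
      have ha1 : 1 ≤ a := by omega
      have ha2 : a ≤ h / 2 ^ s := by
        rw [Nat.le_div_iff_mul_le (by positivity)]
        have h5 : 2 ^ s * (p.1 : ℝ) ≤ h := by
          refine hp3.trans ?_
          nlinarith
        rw [← ha] at h5
        have h6 : ((a * 2 ^ s : ℕ) : ℝ) ≤ (h : ℝ) := by
          push_cast at h5 ⊢
          linarith
        exact_mod_cast h6
      rw [mem_biUnion]
      refine ⟨a, ?_, ?_⟩
      · rw [hA, mem_filter, mem_Icc, ha]
        exact ⟨⟨ha1, ha2⟩, hp2, hp3⟩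
      · unfold rcells
        rw [mem_filter]
        exact ⟨hp1, ha.symm⟩
    have h2 := (card_le_card h1).trans card_biUnion_le
    unfold nbk
    calc _ ≤ ((∑ a ∈ A, (rcells s (a : ℤ) Z).card : ℕ) : ℝ≥0∞) := by exact_mod_cast h2
      _ = _ := by push_cast; rfl
  have hcard : (A.card : ℝ) ≤ h / 2 ^ s := by
    have h1 : A.card ≤ h / 2 ^ s := by
      rw [hA]
      refine (card_filter_le _ _).trans ?_
      rw [Nat.card_Icc, Nat.add_sub_cancel]
    have h2 : ((h / 2 ^ s : ℕ) : ℝ) ≤ (h : ℝ) / ((2 ^ s : ℕ) : ℝ) := Nat.cast_div_le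
    push_cast at h2
    refine le_trans ?_ h2
    exact_mod_cast h1
  calc Rec8.sw (Brd h) (fun Z => (nbk η h s Z : ℝ≥0∞))
      ≤ Rec8.sw (Brd h) (fun Z => ∑ a ∈ A, ((rcells s (a : ℤ) Z).card : ℝ≥0∞)) := Rec8.sw_mono' fun Z _ => hsub Z
    _ = ∑ a ∈ A, Rec8.sw (Brd h) (fun Z => ((rcells s (a : ℤ) Z).card : ℝ≥0∞)) := Rec8.sw_sum _ _ _
    _ ≤ ∑ a ∈ A, ENNReal.ofReal (C * (h / 2 ^ s) / Real.log (h / (M * 2 ^ s)) * uu h) := by
        apply sum_le_sum
        intro a ha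
        rw [hA, mem_filter, mem_Icc] at ha
        exact hrow h s (a : ℤ) hMh (by omega) ha.2.1 ha.2.2
    _ = ENNReal.ofReal (A.card * (C * (h / 2 ^ s) / Real.log (h / (M * 2 ^ s)) * uu h)) := by
        rw [sum_const, nsmul_eq_mul, ← ENNReal.ofReal_natCast, ← ENNReal.ofReal_mul (Nat.cast_nonneg _)]
    _ ≤ ENNReal.ofReal (C * ((h : ℝ) / 2 ^ s) ^ 2 / Real.log (h / (M * 2 ^ s)) * uu h) := by
        apply ENNReal.ofReal_le_ofReal
        have hu : 0 ≤ uu h := ENNReal.toReal_nonneg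
        calc A.card * (C * (h / 2 ^ s) / Real.log (h / (M * 2 ^ s)) * uu h)
            ≤ (h / 2 ^ s) * (C * (h / 2 ^ s) / Real.log (h / (M * 2 ^ s)) * uu h) :=
              mul_le_mul_of_nonneg_right hcard (by positivity)
          _ = _ := by ring
    _ = _ := by
        rw [ENNReal.ofReal_mul (by positivity), gf_Brd_ofReal]

/-- THE FILLING BRIDGES, all heights -/
theorem fill_free : ∀ (η κ ε : ℝ) (i0 d : ℕ), 0 < η → 0 < κ → 0 < ε → ∃ μ : ℕ, ∀ b s : ℕ, s + μ ≤ b → d ≤ b →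
    ∑ h ∈ Icc (2 ^ (b - d)) (2 ^ (b + i0)), gf {Z | Z ∈ Brd h ∧ κ * 4 ^ (b - s) ≤ (nbk η h s Z : ℝ)} ≤
      ENNReal.ofReal (ε * Ub b) := by
  classical
  intro η κ ε i0 d hη hκ hε
  obtain ⟨C, M, hC, hM, hb⟩ := cells_bulk η hη
  have hM0 : (0 : ℝ) < M := by exact_mod_cast hM
  obtain ⟨Λ, hΛ⟩ : ∃ Λ : ℝ, Λ = C * 4 ^ i0 * 2 ^ i0 / (κ * ε) := ⟨_, rfl⟩
  have hΛ0 : 0 < Λ := by rw [hΛ]; positivity
  obtain ⟨n, hn⟩ := pow_unbounded_of_one_lt (M * Real.exp Λ) (one_lt_two : (1 : ℝ) < 2)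
  refine ⟨d + n, ?_⟩
  intro b s hbs hdb
  have hn1 : Λ ≤ Real.log (2 ^ n / M) := by
    rw [Real.le_log_iff_exp_le (by positivity), le_div_iff₀ hM0, mul_comm]
    exact hn.le
  -- one height
  have key : ∀ h ∈ Icc (2 ^ (b - d)) (2 ^ (b + i0)),
      gf {Z | Z ∈ Brd h ∧ κ * 4 ^ (b - s) ≤ (nbk η h s Z : ℝ)} ≤ ENNReal.ofReal (ε / 2 ^ i0) * gf (Brd h) := by
    intro h hh
    rw [mem_Icc] at hh
    have h2s : (0 : ℝ) < 2 ^ s := by positivity
    have e1 : 2 ^ (b - d) = 2 ^ (b - d - s - n) * (2 ^ n * 2 ^ s) := by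
      rw [← pow_add, ← pow_add]
      congr 1
      omega
    have hlow : 2 ^ n * 2 ^ s ≤ h := by
      refine le_trans ?_ hh.1
      rw [e1]
      exact Nat.le_mul_of_pos_left _ (by positivity)
    have hlow' : (2 : ℝ) ^ n * 2 ^ s ≤ h := by exact_mod_cast hlow
    have hMn : (M : ℝ) < 2 ^ n := by
      refine lt_of_le_of_lt ?_ hn
      have : 1 ≤ Real.exp Λ := Real.one_le_exp hΛ0.le
      nlinarith
    have hMh : M * 2 ^ s < h := by
      have : (M : ℝ) * 2 ^ s < h := lt_of_lt_of_le (mul_lt_mul_of_pos_right hMn h2s) hlow'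
      exact_mod_cast this
    have hlog : Λ ≤ Real.log (h / (M * 2 ^ s)) := by
      refine hn1.trans (Real.log_le_log (by positivity) ?_)
      rw [div_le_div_iff₀ hM0 (by positivity)]
      calc (2 : ℝ) ^ n * (M * 2 ^ s) = (2 ^ n * 2 ^ s) * M := by ring
        _ ≤ h * M := mul_le_mul_of_nonneg_right hlow' hM0.le
    have hlog0 : 0 < Real.log (h / (M * 2 ^ s)) := lt_of_lt_of_le hΛ0 hlog
    have hq : ((h : ℝ) / 2 ^ s) ^ 2 ≤ 4 ^ i0 * 4 ^ (b - s) := by
      have h1 : (h : ℝ) / 2 ^ s ≤ 2 ^ i0 * 2 ^ (b - s) := by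
        rw [div_le_iff₀ h2s]
        have h2 : (h : ℝ) ≤ 2 ^ (b + i0) := by exact_mod_cast hh.2
        refine h2.trans (le_of_eq ?_)
        rw [mul_assoc, ← pow_add, ← pow_add]
        congr 1
        omega
      calc ((h : ℝ) / 2 ^ s) ^ 2 ≤ (2 ^ i0 * 2 ^ (b - s)) ^ 2 := by
            apply pow_le_pow_left₀ (by positivity) h1
        _ = _ := by
            rw [mul_pow, ← pow_mul, ← pow_mul, mul_comm i0 2, mul_comm (b - s) 2, pow_mul, pow_mul]
            norm_num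
    have hmark : ENNReal.ofReal (κ * 4 ^ (b - s)) * gf {Z | Z ∈ Brd h ∧ κ * 4 ^ (b - s) ≤ (nbk η h s Z : ℝ)} ≤
        Rec8.sw (Brd h) (fun Z => (nbk η h s Z : ℝ≥0∞)) := by
      rw [← Rec8.sw_one, Rec8.sw_and, ← Rec8.sw_mul_left]
      refine Rec8.sw_mono' fun Z _ => ?_
      split_ifs with h1
      · rw [mul_one, ← ENNReal.ofReal_natCast]
        exact ENNReal.ofReal_le_ofReal h1
      · rw [mul_zero]
        exact zero_le
    have hpos : 0 < κ * 4 ^ (b - s) := by positivity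
    have h3 : gf {Z | Z ∈ Brd h ∧ κ * 4 ^ (b - s) ≤ (nbk η h s Z : ℝ)} ≤
        (ENNReal.ofReal (κ * 4 ^ (b - s)))⁻¹ *
          (ENNReal.ofReal (C * ((h : ℝ) / 2 ^ s) ^ 2 / Real.log (h / (M * 2 ^ s))) * gf (Brd h)) := by
      rw [mul_comm (ENNReal.ofReal (κ * 4 ^ (b - s)))⁻¹, ← div_eq_mul_inv,
        ENNReal.le_div_iff_mul_le (Or.inl (by simpa using hpos)) (Or.inl ENNReal.ofReal_ne_top), mul_comm]
      exact hmark.trans (hb h s hMh)
    refine h3.trans ?_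
    rw [← mul_assoc, ← ENNReal.ofReal_inv_of_pos hpos, ← ENNReal.ofReal_mul (by positivity)]
    refine mul_le_mul_left (ENNReal.ofReal_le_ofReal ?_) _
    calc (κ * 4 ^ (b - s))⁻¹ * (C * ((h : ℝ) / 2 ^ s) ^ 2 / Real.log (h / (M * 2 ^ s)))
        ≤ (κ * 4 ^ (b - s))⁻¹ * (C * (4 ^ i0 * 4 ^ (b - s)) / Λ) := by gcongr
      _ = ε / 2 ^ i0 := by
          rw [hΛ]
          field_simp
  calc ∑ h ∈ Icc (2 ^ (b - d)) (2 ^ (b + i0)), gf {Z | Z ∈ Brd h ∧ κ * 4 ^ (b - s) ≤ (nbk η h s Z : ℝ)}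
      ≤ ∑ h ∈ Icc (2 ^ (b - d)) (2 ^ (b + i0)), ENNReal.ofReal (ε / 2 ^ i0) * gf (Brd h) := sum_le_sum key
    _ = ENNReal.ofReal (ε / 2 ^ i0) * ∑ h ∈ Icc (2 ^ (b - d)) (2 ^ (b + i0)), gf (Brd h) := (mul_sum _ _ _).symm
    _ ≤ ENNReal.ofReal (ε / 2 ^ i0) * ENNReal.ofReal (2 ^ i0 * Ub b) := by
        refine mul_le_mul_right ?_ _
        calc ∑ h ∈ Icc (2 ^ (b - d)) (2 ^ (b + i0)), gf (Brd h) ≤ ∑ h ∈ range (2 ^ (b + i0) + 1), gf (Brd h) := by
              apply sum_le_sum_of_subset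
              intro h hh
              rw [mem_Icc] at hh
              rw [mem_range]
              omega
          _ = ∑ h ∈ range (2 ^ (b + i0) + 1), ENNReal.ofReal (uu h) := sum_congr rfl fun h _ => gf_Brd_ofReal h
          _ = ENNReal.ofReal (UU (2 ^ (b + i0))) := by
              unfold UU
              exact (ENNReal.ofReal_sum_of_nonneg (f := uu) (fun h _ => ENNReal.toReal_nonneg)).symm
          _ ≤ _ := by
              apply ENNReal.ofReal_le_ofReal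
              have hU : ∀ i : ℕ, UU (2 ^ (b + i)) ≤ 2 ^ i * Ub b := by
                intro i
                induction i with
                | zero =>
                  rw [pow_zero, one_mul]
                  exact le_rfl
                | succ i ih =>
                  have h1 := Ub_succ (b + i)
                  unfold Ub at h1
                  unfold Ub at ih ⊢
                  calc UU (2 ^ (b + (i + 1))) ≤ 2 * UU (2 ^ (b + i)) := h1
                    _ ≤ 2 * (2 ^ i * UU (2 ^ b)) := by linarith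
                    _ = _ := by ring
              exact hU i0
    _ = ENNReal.ofReal (ε * Ub b) := by
        have hU := (Ub_pos b).le
        rw [← ENNReal.ofReal_mul (by positivity)]
        congr 1
        field_simp

end SDN

end HexObs
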