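import Pool.Agent.SDN.ChainA
import Pool.Agent.SDN.PairCap

/-!
SDN, C4: the chain sum with old and new block pairs.
-/

set_option autoImplicit false

namespace HexObs

namespace SDN

open Finset TS

open scoped ENNReal

theorem chain_new : ∃ C : ℝ, 0 < C ∧ ∀ (N k j1 j3 w K0 : ℕ), 1 ≤ w → w ≤ 2 ^ k → 1 ≤ K0 → j1 + 3 ≤ k → j3 ≤ j1 →
    ∀ (n j : ℕ) (G : Finset (ℤ × ℤ × ℤ)) (X S : ℤ) (g : List Bool), g ∈ HB (2 ^ (k + 4)) → NCB G →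
    ∑' gs : {gs // gs ∈ CN (2 ^ (k + 4)) N (k + 2) w G n j X S g}, wt (2 ^ (k + 4)) gs.1 ≤
      FN (2 ^ (k + 4)) N k j1 j3 (ENNReal.ofReal (C * (K0 * w * 2 ^ k / 4 ^ j3 + 1 / K0))) n j g := by
  obtain ⟨C, hC, h⟩ := pair_cap
  refine ⟨C, hC, fun N k j1 j3 w K0 hw hwk hK0 hj1 hj3 n j G X S g hg _ => ?_⟩
  exact Ch.chain_abs (fun G hG Φ hΦ X S t => h N k j1 j3 w K0 G X S Φ t hw hwk hK0 hj1 hj3 hG hΦ) j n G X S g hg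

theorem chain_start : ∃ C : ℝ, 0 < C ∧ ∀ (N k j1 j3 w K0 : ℕ), 1 ≤ w → w ≤ 2 ^ k → 1 ≤ K0 → j1 + 3 ≤ k → j3 ≤ j1 →
    ∀ (n j : ℕ), ∑' gs : {gs // gs ∈ C1 (2 ^ (k + 4)) N (k + 2) w n (j + 1)}, wt (2 ^ (k + 4)) gs.1 ≤
      sB (BrR (2 ^ (k + 4)) N) (fun g => wE g * (tl (2 ^ (k + 4)) (hgt g) * tA (2 ^ (k + 4)) N LFold
        (FN (2 ^ (k + 4)) N k j1 j3 (ENNReal.ofReal (C * (K0 * w * 2 ^ k / 4 ^ j3 + 1 / K0))) n j) g)) := by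
  obtain ⟨C, hC, h⟩ := pair_cap
  refine ⟨C, hC, fun N k j1 j3 w K0 hw hwk hK0 hj1 hj3 n j => ?_⟩
  exact Ch.start_abs' (fun G hG Φ hΦ X S t => h N k j1 j3 w K0 G X S Φ t hw hwk hK0 hj1 hj3 hG hΦ) n j

end SDN

end HexObs
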