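import Pool.Agent.SDN.Dim1Defs
import Pool.Agent.SDN.NormX
import Pool.Agent.SDN.ZigZag
import Pool.Agent.PHW.ViaE
import Pool.Agent.SDN.Split

/-!
SDN, lower bound of the dimension (board/DIM1), D: the long leaves without backtracks, part 1: a leaf without backtracks is
cut at a level, or has a short zig-zag over it; average over the levels of a window.
-/

set_option autoImplicit false

namespace HexObs

namespace SDN

open Finset TS

open scoped ENNReal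

open Rec8 (sw)

namespace CN

/-- short bridges -/
def SBr (b : ℕ) : Set (List Bool) := {y | ∃ d, 1 ≤ d ∧ d < 2 ^ b ∧ y ∈ Brd d}

/-- leaves of the block n without backtracks -/
def WW (k s n : ℕ) : Set (List Bool) := CK (k + 5) (k + s) n ∩ HB (2 ^ (k + 4))

/-- the three blocks below n -/
def W3 (k s n : ℕ) : Set (List Bool) := {g | ∃ i, n ≤ i + 3 ∧ i < n ∧ g ∈ WW k s i}

open Classical in
lemma sw2 (A : Set (List Bool)) (B : List Bool → Set (List Bool)) (F : List Bool → List Bool → ℝ≥0∞) :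
    sw A (fun x => sw (B x) (F x)) =
      ∑' p : List Bool × List Bool, (if p.1 ∈ A ∧ p.2 ∈ B p.1 then wE p.1 * (wE p.2 * F p.1 p.2) else 0) := by
  rw [ENNReal.tsum_prod', Rec8.sw_ind]
  refine tsum_congr fun x => ?_
  by_cases hx : x ∈ A
  · rw [if_pos hx, Rec8.sw_ind, ← ENNReal.tsum_mul_left]
    refine tsum_congr fun y => ?_
    by_cases hy : y ∈ B x
    · simp [hx, hy]
    · simp [hy]
  · simp [hx]

open Classical in
lemma sw3 (A : Set (List Bool)) (B : List Bool → Set (List Bool)) (C : List Bool → Set (List Bool))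
    (c : List Bool → List Bool → ℝ≥0∞) (F : List Bool → ℝ≥0∞) :
    sw A (fun x => sw (B x) (fun y => c x y * sw (C y) F)) =
      ∑' p : List Bool × (List Bool × List Bool), (if p.1 ∈ A ∧ p.2.1 ∈ B p.1 ∧ p.2.2 ∈ C p.2.1 then
        wE p.1 * (wE p.2.1 * (c p.1 p.2.1 * (wE p.2.2 * F p.2.2))) else 0) := by
  rw [sw2, ENNReal.tsum_prod', ENNReal.tsum_prod']
  refine tsum_congr fun x => ?_
  rw [ENNReal.tsum_prod']
  refine tsum_congr fun y => ?_
  by_cases h : x ∈ A ∧ y ∈ B x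
  · rw [if_pos h, Rec8.sw_ind, ← ENNReal.tsum_mul_left, ← ENNReal.tsum_mul_left, ← ENNReal.tsum_mul_left]
    refine tsum_congr fun z => ?_
    by_cases hz : z ∈ C y
    · simp [h.1, h.2, hz]
    · simp [hz]
  · rw [if_neg h]
    symm
    rw [ENNReal.tsum_eq_zero]
    intro z
    rw [if_neg]
    rintro ⟨h1, h2, h3⟩
    exact h ⟨h1, h2⟩

lemma wE_unf3 {G1 D G3 : List Bool} (h1 : G1 ≠ []) (h2 : D ≠ []) (h3 : G3 ≠ []) :
    wE (unf [G1, D, G3]) ≤ wE G1 * (wE D * wE G3) := by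
  have hl := unf_length (us := [G1, D, G3]) (by
    intro g hg
    simp only [List.mem_cons, List.not_mem_nil, or_false] at hg
    rcases hg with rfl | rfl | rfl
    · exact h1
    · exact h2
    · exact h3) (by simp)
  have hx1 : ENNReal.ofReal xc ≤ 1 := by
    rw [← ENNReal.ofReal_one]
    exact ENNReal.ofReal_le_ofReal xc_bounds.2
  rw [wE_eq_pow, wE_eq_pow, wE_eq_pow, wE_eq_pow, ← pow_add, ← pow_add]
  apply pow_le_pow_of_le_one zero_le hx1
  simp only [List.map_cons, List.map_nil, List.sum_cons, List.sum_nil, List.length_cons, List.length_nil] at hl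
  omega

open Classical in
/-- one level: the leaf is cut at the row a, or there is a short zig-zag over it -/
theorem step_a {k s n a : ℕ} {Φ : List Bool → ℝ≥0∞} (hΦ : HerD (2 ^ (k + 4)) Φ) (hs : 6 ≤ s) (hn : 4 ≤ n)
    (ha1 : 2 * 2 ^ (k + s) ≤ a) (ha2 : a < 3 * 2 ^ (k + s)) (Q : List Bool → Prop) (hQ1 : ∀ x y, Q (x ++ y) → Q x)
    (hQ2 : ∀ x y z, x ≠ [] → Q (unf [x, y, z]) → Q x) :
    sw {g | g ∈ WW k s n ∧ Q g} Φ ≤
      sw {x | x ∈ BrR (2 * 2 ^ (k + s)) (4 * 2 ^ (k + s)) ∧ Q x} (fun x => (if hgt x = a then 1 else 0) *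
        sw (W3 k s n) Φ) +
      sw {x | x ∈ BrR (2 * 2 ^ (k + s)) (4 * 2 ^ (k + s)) ∧ Q x} (fun x => sw {y | y ∈ SBr (k + 5) ∧ LFold x y}
        (fun y => (if a ≤ hgt x ∧ hgt x ≤ a + hgt y then 1 else 0) * sw {z | z ∈ W3 k s n ∧ LFold y z} Φ)) := by
  obtain ⟨R, hR⟩ : ∃ R, R = 2 ^ (k + s) := ⟨_, rfl⟩
  have hR1 : 2 * 2 ^ (k + 5) ≤ R := by
    rw [hR, ← pow_succ']
    exact Nat.pow_le_pow_right (by norm_num) (by omega)
  have hp5 : 2 ^ (k + 5) = 2 * 2 ^ (k + 4) := by rw [← pow_succ']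
  have hp4 : 1 ≤ 2 ^ (k + 4) := Nat.one_le_two_pow
  rw [← hR] at ha1 ha2 ⊢
  -- membership in the blocks
  have hblk : ∀ (w : ℕ) (z : List Bool), z ∈ Brd w → z ∈ CL (k + 5) → (n - 3) * R ≤ w → w < n * R →
      z ∈ W3 k s n ∧ z ∈ HB (2 ^ (k + 4)) := by
    intro w z hz hc h1 h2
    have hRpos : 0 < R := by omega
    have h3 : n - 3 ≤ w / R := (Nat.le_div_iff_mul_le hRpos).2 h1
    have h4 : w / R < n := (Nat.div_lt_iff_lt_mul hRpos).2 h2
    have h5 : w / R * R ≤ w := Nat.div_mul_le_self w R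
    have h6 : w < (w / R + 1) * R := by
      have g1 := Nat.div_add_mod w R
      have g2 := Nat.mod_lt w hRpos
      have g3 : (w / R + 1) * R = R * (w / R) + R := by ring
      omega
    have h7 : R ≤ w := by
      have : 1 * R ≤ (n - 3) * R := Nat.mul_le_mul_right _ (by omega)
      omega
    have h8 : z ∈ HB (2 ^ (k + 4)) := ⟨w, by omega, hz⟩
    refine ⟨⟨w / R, by omega, h4, ⟨hc, w, ?_, ?_, hz⟩, h8⟩, h8⟩
    · rw [← hR]
      exact h5
    · rw [← hR]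
      exact h6
  -- the two cases
  refine (TN5b_sw_union (B := {g | (g ∈ WW k s n ∧ Q g) ∧ ∃ t1 ∈ Brd a, ∃ t2 ∈ W3 k s n, t2 ∈ HB (2 ^ (k + 4)) ∧
      g = t1 ++ t2})
    (C := {g | (g ∈ WW k s n ∧ Q g) ∧ ∃ G1 D G3, G1 ∈ BrR (2 * R) (4 * R) ∧ D ∈ SBr (k + 5) ∧ G3 ∈ W3 k s n ∧
      G3 ∈ HB (2 ^ (k + 4)) ∧ unf [G1, D, G3] = g ∧ LFold G1 D ∧ LFold D G3 ∧ a ≤ hgt G1 ∧ hgt G1 ≤ a + hgt D}) ?_
    Φ).trans ?_
  · rintro g ⟨⟨⟨hgc, h, h1, h2, hgh⟩, hgD⟩, hgQ⟩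
    rw [← hR] at h1 h2
    have hah : a < h := by
      have : 4 * R ≤ n * R := Nat.mul_le_mul_right _ hn
      omega
    have e3 : (n - 3) * R + 3 * R = n * R := by
      rw [← add_mul]
      congr 1
      omega
    have e4 : (n + 1) * R = n * R + R := by ring
    rcases cut_or_zig (b := k + 5) (by omega) hgh hgc (by omega : 1 ≤ a) hah with
      ⟨t1, ht1, t2, ht2, ht2c, rfl⟩ | ⟨u, d, w, G1, D, G3, hG1, hD, hG3, hG3c, hunf, f1, f2, i1, i2, i3, i4, i5⟩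
    · left
      obtain ⟨b1, b2⟩ := hblk (h - a) t2 ht2 ht2c (by omega) (by omega)
      exact ⟨⟨⟨⟨hgc, h, by rw [← hR]; exact h1, by rw [← hR]; exact h2, hgh⟩, hgD⟩, hgQ⟩, t1, ht1, t2, b1, b2, rfl⟩
    · right
      obtain ⟨b1, b2⟩ := hblk w G3 hG3 hG3c (by omega) (by omega)
      refine ⟨⟨⟨⟨hgc, h, by rw [← hR]; exact h1, by rw [← hR]; exact h2, hgh⟩, hgD⟩, hgQ⟩, G1, D, G3,
        ⟨u, by omega, by omega, hG1⟩, ⟨d, i3, i4, hD⟩, b1, b2, hunf, f1, f2, ?_, ?_⟩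
      · rw [hgt_eq hG1]
        exact i1
      · rw [hgt_eq hG1, hgt_eq hD]
        exact i2
  · refine add_le_add ?_ ?_
    · -- cut
      have e1 : sw {x | x ∈ BrR (2 * R) (4 * R) ∧ Q x} (fun x => (if hgt x = a then 1 else 0) * sw (W3 k s n) Φ) =
          sw {x | x ∈ BrR (2 * R) (4 * R) ∧ Q x} (fun x => sw (W3 k s n) (fun y => (if hgt x = a then 1 else 0) * Φ y)) :=
        Rec8.sw_congr fun x _ => (Rec8.sw_mul_left _ _ _).symm
      rw [e1, sw2]
      refine Rec8.sw_cover _ _ _ (fun p : List Bool × List Bool => p.1 ++ p.2) ?_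
      rintro g ⟨⟨hgW, hgQ⟩, t1, ht1, t2, ht2, ht2D, rfl⟩
      refine ⟨(t1, t2), rfl, ?_⟩
      rw [if_pos (⟨⟨⟨a, ha1, by omega, ht1⟩, hQ1 _ _ hgQ⟩, ht2⟩ : _ ∧ _), wE_append]
      show wE t1 * wE t2 * Φ (t1 ++ t2) ≤ wE t1 * (wE t2 * ((if hgt t1 = a then 1 else 0) * Φ t2))
      rw [if_pos (hgt_eq ht1), one_mul, mul_assoc]
      gcongr
      exact hΦ.her t1 ⟨a, ht1⟩ t2
    · -- zig-zag
      rw [sw3]
      refine Rec8.sw_cover _ _ _ (fun p : List Bool × (List Bool × List Bool) => unf [p.1, p.2.1, p.2.2]) ?_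
      rintro g ⟨⟨hgW, hgQ⟩, G1, D, G3, hG1, hD, hG3, hG3D, hunf, f1, f2, i1, i2⟩
      refine ⟨(G1, (D, G3)), hunf, ?_⟩
      have n1 : G1 ≠ [] := by
        obtain ⟨u, u1, u2, u3⟩ := hG1
        exact Brd_ne_nil u3 (by omega)
      have n2 : D ≠ [] := by
        obtain ⟨u, u1, u2, u3⟩ := hD
        exact Brd_ne_nil u3 u1
      have n3 : G3 ≠ [] := by
        obtain ⟨u, u1, u3⟩ := hG3D
        exact Brd_ne_nil u3 (by omega)
      have hQG : Q G1 := hQ2 G1 D G3 n1 (by rw [hunf]; exact hgQ)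
      rw [if_pos (⟨⟨hG1, hQG⟩, ⟨hD, f1⟩, hG3, f2⟩ : _ ∧ _ ∧ _)]
      show wE g * Φ g ≤ wE G1 * (wE D * ((if a ≤ hgt G1 ∧ hgt G1 ≤ a + hgt D then 1 else 0) * (wE G3 * Φ G3)))
      rw [if_pos ⟨i1, i2⟩, one_mul]
      have h1 : wE g ≤ wE G1 * (wE D * wE G3) := by
        rw [← hunf]
        exact wE_unf3 n1 n2 n3
      have h2 : Φ g ≤ Φ G3 := by
        obtain ⟨s', hs'⟩ : ∃ s', g = s' ++ G3 := by
          refine ⟨G1.dropLast ++ (!lst G1) :: (!lst G1) :: (D.dropLast ++ [(!lst D), (!lst D)]), ?_⟩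
          rw [← hunf]
          show G1.dropLast ++ (!lst G1) :: (!lst G1) :: (D.dropLast ++ (!lst D) :: (!lst D) :: G3) = _
          simp [List.append_assoc]
        rw [hs']
        refine hΦ.suf s' G3 hG3D ?_
        rw [← hs']
        exact hgW.2
      calc wE g * Φ g ≤ (wE G1 * (wE D * wE G3)) * Φ G3 := by gcongr
        _ = _ := by ring

end CN

end SDN

end HexObs
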