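import Pool.Agent.SDN.CleanA

/-!
SDN, lower bound of the dimension (board/DIM1), D: the long leaves without backtracks, part 2: average over the levels.
-/

set_option autoImplicit false

namespace HexObs

namespace SDN

open Finset TS

open scoped ENNReal

open Rec8 (sw)

namespace CN

/-- the zig-zags of the height 2 ^ j -/
noncomputable def ZZ (j : ℕ) (W : Set (List Bool)) (Φ : List Bool → ℝ≥0∞) : List Bool → ℝ≥0∞ :=
  vA (2 ^ j) (BrR (2 ^ j) (2 ^ (j + 1))) (vA (2 ^ j) W Φ)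

lemma card_win (a1 a2 u d : ℕ) : ((Ico a1 a2).filter (fun a => a ≤ u ∧ u ≤ a + d)).card ≤ d + 1 := by
  calc ((Ico a1 a2).filter (fun a => a ≤ u ∧ u ≤ a + d)).card ≤ (Icc (u - d) u).card := by
        apply Finset.card_le_card
        intro a ha
        rw [Finset.mem_filter] at ha
        rw [Finset.mem_Icc]
        omega
    _ ≤ d + 1 := by
        rw [Nat.card_Icc]
        omega

lemma gf_small : gf {y : List Bool | ∃ d, d < 16 ∧ y ∈ Brd d} ≤ 16 := by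
  have h : {y : List Bool | ∃ d, d < 16 ∧ y ∈ Brd d} ⊆ ⋃ d : Fin 16, Brd (d : ℕ) := by
    rintro y ⟨d, hd, hy⟩
    rw [Set.mem_iUnion]
    exact ⟨⟨d, hd⟩, hy⟩
  refine (gf_mono h).trans ?_
  have h2 : gf (⋃ d : Fin 16, Brd (d : ℕ)) ≤ ∑' d : Fin 16, gf (Brd (d : ℕ)) :=
    ENNReal.tsum_iUnion_le_tsum (fun t => wE t) fun d : Fin 16 => Brd (d : ℕ)
  refine h2.trans ?_
  rw [tsum_fintype]
  calc ∑ d : Fin 16, gf (Brd (d : ℕ)) ≤ ∑ _d : Fin 16, (1 : ℝ≥0∞) := by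
        refine Finset.sum_le_sum fun d _ => ?_
        rw [gf_Brd]
        exact ViaEaux.BT_le_one0 _
    _ = 16 := by simp

open Classical in
/-- the sum over the short leaf of the zig-zag, by blocks of its height -/
theorem dyadic {k : ℕ} {W : Set (List Bool)} {Φ : List Bool → ℝ≥0∞} {x : List Bool} (hx : x ∈ HB (2 ^ (k + 5))) :
    sw {y | y ∈ SBr (k + 5) ∧ LFold x y} (fun y => ((hgt y : ℝ≥0∞) + 1) * sw {z | z ∈ W ∧ LFold y z} Φ) ≤
      256 * sw W Φ + ∑ j ∈ Ico 4 (k + 5), 2 ^ (j + 1) * ZZ j W Φ x := by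
  have e1 : (256 : ℝ≥0∞) * sw W Φ = 16 * (16 * sw W Φ) := by
    rw [← mul_assoc]
    norm_num
  have h1 : sw {y : List Bool | ∃ d, d < 16 ∧ y ∈ Brd d} (fun _ => 16 * sw W Φ) ≤ 256 * sw W Φ := by
    rw [NX_const, e1]
    exact mul_le_mul_left gf_small _
  refine le_trans ?_ (add_le_add h1 le_rfl)
  have e2 : ∀ j ∈ Ico 4 (k + 5), (2 : ℝ≥0∞) ^ (j + 1) * ZZ j W Φ x = ∑' y : List Bool,
      (if y ∈ BrR (2 ^ j) (2 ^ (j + 1)) ∧ RT (2 ^ j) LFold x y then wE y * (2 ^ (j + 1) * vA (2 ^ j) W Φ y) else 0) := by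
    intro j _
    unfold ZZ
    rw [vA, Rec8.sw_ind, ← ENNReal.tsum_mul_left]
    refine tsum_congr fun y => ?_
    simp only [Set.mem_ofPred_eq]
    split_ifs
    · ring
    · rw [mul_zero]
  rw [Finset.sum_congr rfl e2, ← Summable.tsum_finsetSum (fun _ _ => ENNReal.summable), Rec8.sw_ind, Rec8.sw_ind,
    ← ENNReal.tsum_add]
  refine ENNReal.tsum_le_tsum fun y => ?_
  by_cases hy : y ∈ {y | y ∈ SBr (k + 5) ∧ LFold x y}
  swap
  · rw [if_neg hy]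
    exact zero_le
  rw [if_pos hy]
  obtain ⟨⟨d, d1, d2, hd⟩, hf⟩ := hy
  have hgd : hgt y = d := hgt_eq hd
  rw [hgd]
  rcases Nat.lt_or_ge d 16 with h16 | h16
  · refine le_trans ?_ (le_self_add)
    rw [if_pos (show y ∈ {y : List Bool | ∃ d, d < 16 ∧ y ∈ Brd d} from ⟨d, h16, hd⟩)]
    gcongr
    · have : ((d : ℝ≥0∞) + 1) = ((d + 1 : ℕ) : ℝ≥0∞) := by push_cast; rfl
      rw [this]
      have h3 : ((d + 1 : ℕ) : ℝ≥0∞) ≤ ((16 : ℕ) : ℝ≥0∞) := by exact_mod_cast (by omega : d + 1 ≤ 16)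
      exact h3.trans (le_of_eq (by norm_num))
    · exact Rec8.sw_mono (fun z hz => hz.1) fun _ _ => le_rfl
  · refine le_trans ?_ (le_add_self)
    obtain ⟨j, hj⟩ : ∃ j, j = Nat.log 2 d := ⟨_, rfl⟩
    have hd0 : d ≠ 0 := by omega
    have hj1 : 2 ^ j ≤ d := by
      rw [hj]
      exact Nat.pow_log_le_self 2 hd0
    have hj2 : d < 2 ^ (j + 1) := by
      rw [hj]
      exact Nat.lt_pow_succ_log_self (by norm_num) d
    have hj3 : 4 ≤ j := by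
      rw [hj]
      exact Nat.le_log_of_pow_le (by norm_num) (by omega)
    have hj4 : j < k + 5 := by
      by_contra hc
      have : 2 ^ (k + 5) ≤ 2 ^ j := Nat.pow_le_pow_right (by norm_num) (by omega)
      omega
    have hj5 : j ∈ Ico 4 (k + 5) := by
      rw [Finset.mem_Ico]
      exact ⟨hj3, hj4⟩
    have hjk : 2 ^ j ≤ 2 ^ (k + 5) := Nat.pow_le_pow_right (by norm_num) (by omega)
    have hxj : x ∈ HB (2 ^ j) := by
      obtain ⟨u, u1, u2⟩ := hx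
      exact ⟨u, by omega, u2⟩
    have hyj : y ∈ HB (2 ^ j) := ⟨d, hj1, hd⟩
    refine le_trans ?_ (Finset.single_le_sum (f := fun j => (if y ∈ BrR (2 ^ j) (2 ^ (j + 1)) ∧ RT (2 ^ j) LFold x y then
      wE y * (2 ^ (j + 1) * vA (2 ^ j) W Φ y) else 0)) (fun _ _ => zero_le) hj5)
    rw [if_pos ⟨⟨d, hj1, hj2.le, hd⟩, RT_of hxj hf⟩]
    gcongr
    · have h3 : ((d + 1 : ℕ) : ℝ≥0∞) ≤ ((2 ^ (j + 1) : ℕ) : ℝ≥0∞) := by exact_mod_cast (by omega : d + 1 ≤ 2 ^ (j + 1))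
      push_cast at h3
      exact h3
    · unfold vA
      exact Rec8.sw_mono (fun z hz => ⟨hz.1, RT_of hyj hz.2⟩) fun _ _ => le_rfl

open Classical in
/-- average over the levels of the window [2 R, 3 R) -/
theorem step_avg {k s n : ℕ} {Φ : List Bool → ℝ≥0∞} (hΦ : HerD (2 ^ (k + 4)) Φ) (hs : 6 ≤ s) (hn : 4 ≤ n)
    (Q : List Bool → Prop) (hQ1 : ∀ x y, Q (x ++ y) → Q x) (hQ2 : ∀ x y z, x ≠ [] → Q (unf [x, y, z]) → Q x) :
    2 ^ (k + s) * sw {g | g ∈ WW k s n ∧ Q g} Φ ≤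
      sw {x | x ∈ BrR (2 * 2 ^ (k + s)) (4 * 2 ^ (k + s)) ∧ Q x} (fun _ => 257 * sw (W3 k s n) Φ) +
      ∑ j ∈ Ico 4 (k + 5), 2 ^ (j + 1) *
        sw {x | x ∈ BrR (2 * 2 ^ (k + s)) (4 * 2 ^ (k + s)) ∧ Q x} (ZZ j (W3 k s n) Φ) := by
  obtain ⟨R, hR⟩ : ∃ R, R = 2 ^ (k + s) := ⟨_, rfl⟩
  have hR1 : 2 * 2 ^ (k + 5) ≤ R := by
    rw [hR, ← pow_succ']
    exact Nat.pow_le_pow_right (by norm_num) (by omega)
  obtain ⟨A, hA⟩ : ∃ A : Set (List Bool), A = {x | x ∈ BrR (2 * R) (4 * R) ∧ Q x} := ⟨_, rfl⟩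
  have h1 : ∀ a ∈ Ico (2 * R) (3 * R), sw {g | g ∈ WW k s n ∧ Q g} Φ ≤
      sw A (fun x => (if hgt x = a then 1 else 0) * sw (W3 k s n) Φ) +
      sw A (fun x => sw {y | y ∈ SBr (k + 5) ∧ LFold x y}
        (fun y => (if a ≤ hgt x ∧ hgt x ≤ a + hgt y then 1 else 0) * sw {z | z ∈ W3 k s n ∧ LFold y z} Φ)) := by
    intro a ha
    rw [Finset.mem_Ico, hR] at ha
    rw [hA, hR]
    exact step_a hΦ hs hn ha.1 ha.2 Q hQ1 hQ2
  have h2 := Finset.sum_le_sum h1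
  rw [Finset.sum_const, nsmul_eq_mul, Nat.card_Ico, Finset.sum_add_distrib, ← Rec8.sw_sum, ← Rec8.sw_sum] at h2
  have e1 : ((3 * R - 2 * R : ℕ) : ℝ≥0∞) = 2 ^ (k + s) := by
    have : 3 * R - 2 * R = 2 ^ (k + s) := by omega
    rw [this]
    push_cast
    rfl
  rw [e1] at h2
  rw [← hR, ← hA]
  refine h2.trans ?_
  have h3 : sw A (fun x => ∑ a ∈ Ico (2 * R) (3 * R), (if hgt x = a then 1 else 0) * sw (W3 k s n) Φ) ≤
      sw A (fun _ => sw (W3 k s n) Φ) := by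
    refine Rec8.sw_mono' fun x _ => ?_
    rw [← Finset.sum_mul]
    have h4 : ∑ a ∈ Ico (2 * R) (3 * R), (if hgt x = a then (1 : ℝ≥0∞) else 0) ≤ 1 := by
      rw [Finset.sum_ite_eq]
      split_ifs
      · exact le_rfl
      · exact zero_le
    calc (∑ a ∈ Ico (2 * R) (3 * R), (if hgt x = a then (1 : ℝ≥0∞) else 0)) * sw (W3 k s n) Φ ≤
          1 * sw (W3 k s n) Φ := mul_le_mul_left h4 _
      _ = _ := one_mul _
  have h5 : sw A (fun x => ∑ a ∈ Ico (2 * R) (3 * R), sw {y | y ∈ SBr (k + 5) ∧ LFold x y}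
        (fun y => (if a ≤ hgt x ∧ hgt x ≤ a + hgt y then 1 else 0) * sw {z | z ∈ W3 k s n ∧ LFold y z} Φ)) ≤
      sw A (fun x => 256 * sw (W3 k s n) Φ + ∑ j ∈ Ico 4 (k + 5), 2 ^ (j + 1) * ZZ j (W3 k s n) Φ x) := by
    refine Rec8.sw_mono' fun x hx => ?_
    rw [← Rec8.sw_sum]
    have hxH : x ∈ HB (2 ^ (k + 5)) := by
      rw [hA] at hx
      obtain ⟨⟨u, u1, u2, u3⟩, -⟩ := hx
      exact ⟨u, by omega, u3⟩
    refine le_trans (Rec8.sw_mono' fun y _ => ?_) (dyadic hxH)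
    rw [← Finset.sum_mul]
    gcongr
    rw [← Finset.sum_filter, Finset.sum_const, nsmul_eq_mul, mul_one]
    have := card_win (2 * R) (3 * R) (hgt x) (hgt y)
    have h6 : (((Ico (2 * R) (3 * R)).filter (fun a => a ≤ hgt x ∧ hgt x ≤ a + hgt y)).card : ℝ≥0∞) ≤
        ((hgt y + 1 : ℕ) : ℝ≥0∞) := by exact_mod_cast this
    push_cast at h6
    exact h6
  refine (add_le_add h3 h5).trans (le_of_eq ?_)
  rw [Rec8.sw_add, Rec8.sw_sum, ← add_assoc]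
  congr 1
  · rw [← Rec8.sw_add]
    refine Rec8.sw_congr fun x _ => ?_
    have : (257 : ℝ≥0∞) = 1 + 256 := by norm_num
    rw [this, add_mul, one_mul]
  · exact Finset.sum_congr rfl fun j _ => Rec8.sw_mul_left _ _ _

end CN

end SDN

end HexObs
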