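import Pool.Agent.SDN.Defs

/-!
SDN, module Coarse: integer sequences with steps of size at most one, their coarse grained versions and the numbers of
crossings of slabs (helper88).

`cw r w n` is the last multiple of `r` visited up to time `n`, in units of `r`; `XX r w n` is the number of the changes
of `cw` up to time `n`, i.e. the total number of crossings of the slabs `[y r, (y + 1) r]`.
`disj_le`: time-disjoint intervals with displacement at least `2 r - 1` are at most `XX r w n`.
`XX_step`: `XX r ≤ 2 XX (2 r) + 2 M + 1` if `[0, n]` is cut into `M` pieces none of which has both an upward and a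
downward move of size `r`. `XX_sum`: the iterated form.
-/

set_option autoImplicit false

namespace HexObs

namespace SDN

open Finset

namespace Crs

/-- the walk starts in 0 and has steps of size at most one. -/
structure Stp (w : ℕ → ℤ) : Prop where
  zero : w 0 = 0
  step : ∀ i, |w (i + 1) - w i| ≤ 1

/-- the number of turns at odd sites. -/
def TT (r : ℤ) (w : ℕ → ℤ) (n : ℕ) : ℕ :=
  ((range n).filter (fun i => cw r w (i + 1) ≠ cw r w i ∧ Odd (cw r w i) ∧
    cw (2 * r) w (i + 1) = cw (2 * r) w i)).card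

variable {r : ℤ} {w : ℕ → ℤ}

lemma cw_succ_of_dvd {n : ℕ} (h : r ∣ w (n + 1)) : cw r w (n + 1) = w (n + 1) / r := by
  rw [cw, if_pos h]

lemma cw_succ_of_not {n : ℕ} (h : ¬ r ∣ w (n + 1)) : cw r w (n + 1) = cw r w n := by
  rw [cw, if_neg h]

lemma mul_cw_of_dvd {n : ℕ} (h : r ∣ w (n + 1)) : w (n + 1) = r * cw r w (n + 1) := by
  rw [cw_succ_of_dvd h, Int.mul_ediv_cancel' h]

/-- the walk is near the last visited multiple. -/
lemma near (hr : 1 ≤ r) (h : Stp w) (n : ℕ) : |w n - r * cw r w n| < r := by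
  induction n with
  | zero =>
    have h0 : cw r w 0 = 0 := rfl
    rw [h.zero, h0, mul_zero, sub_zero, abs_zero]
    omega
  | succ n ih =>
    by_cases hd : r ∣ w (n + 1)
    · rw [← mul_cw_of_dvd hd, sub_self, abs_zero]
      omega
    · rw [cw_succ_of_not hd]
      have h1 := h.step n
      rw [abs_lt] at ih ⊢
      rw [abs_le] at h1
      have h2 : w (n + 1) ≠ r * cw r w n + r := by
        intro h3
        apply hd
        rw [h3]
        exact ⟨cw r w n + 1, by ring⟩
      have h3 : w (n + 1) ≠ r * cw r w n - r := by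
        intro h3
        apply hd
        rw [h3]
        exact ⟨cw r w n - 1, by ring⟩
      constructor <;> omega

lemma cw_step (hr : 1 ≤ r) (h : Stp w) (n : ℕ) : |cw r w (n + 1) - cw r w n| ≤ 1 := by
  by_cases hd : r ∣ w (n + 1)
  · have h1 := near hr h n
    have h2 := h.step n
    have h3 := mul_cw_of_dvd hd
    rw [h3] at h2
    rw [abs_lt] at h1
    rw [abs_le] at h2 ⊢
    constructor
    · by_contra h4
      have h5 : cw r w (n + 1) ≤ cw r w n - 2 := by omega
      have h6 : r * cw r w (n + 1) ≤ r * (cw r w n - 2) := mul_le_mul_of_nonneg_left h5 (by omega)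
      have h7 : r * (cw r w n - 2) = r * cw r w n - 2 * r := by ring
      omega
    · by_contra h4
      have h5 : cw r w n + 2 ≤ cw r w (n + 1) := by omega
      have h6 : r * (cw r w n + 2) ≤ r * cw r w (n + 1) := mul_le_mul_of_nonneg_left h5 (by omega)
      have h7 : r * (cw r w n + 2) = r * cw r w n + 2 * r := by ring
      omega
  · rw [cw_succ_of_not hd, sub_self, abs_zero]
    omega

/-- the last visited multiple was visited after every other visited multiple. -/
lemma visit {n₀ n : ℕ} (hn : n₀ ≤ n) (h0 : w n₀ = r * cw r w n₀) :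
    ∃ u, n₀ ≤ u ∧ u ≤ n ∧ w u = r * cw r w n := by
  induction n, hn using Nat.le_induction with
  | base => exact ⟨n₀, le_refl _, le_refl _, h0⟩
  | succ n hn ih =>
    by_cases hd : r ∣ w (n + 1)
    · exact ⟨n + 1, by omega, le_refl _, mul_cw_of_dvd hd⟩
    · obtain ⟨u, h1, h2, h3⟩ := ih
      refine ⟨u, h1, by omega, ?_⟩
      rw [cw_succ_of_not hd]
      exact h3

lemma change {s t : ℕ} (hst : s ≤ t) (h : cw r w t ≠ cw r w s) :
    ∃ i, s ≤ i ∧ i < t ∧ cw r w (i + 1) ≠ cw r w i := by
  by_contra hc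
  apply h
  have key : ∀ j, s ≤ j → j ≤ t → cw r w j = cw r w s := by
    intro j hj
    induction j, hj using Nat.le_induction with
    | base => intro _; rfl
    | succ j hj ih =>
      intro hjt
      rw [← ih (by omega)]
      by_contra h1
      exact hc ⟨j, hj, by omega, h1⟩
  exact key t hst (le_refl _)

/-- an interval with displacement at least `2 r` contains a change. -/
lemma change_of_disp (hr : 1 ≤ r) (h : Stp w) {s t : ℕ} (hst : s ≤ t) (hd : 2 * r - 1 ≤ |w t - w s|) :
    ∃ i, s ≤ i ∧ i < t ∧ cw r w (i + 1) ≠ cw r w i := by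
  apply change hst
  intro heq
  have h1 := near hr h s
  have h2 := near hr h t
  rw [heq] at h2
  rw [abs_lt] at h1 h2
  rcases abs_cases (w t - w s) with h3 | h3 <;> omega

/-- TIME-DISJOINT INTERVALS WITH DISPLACEMENT AT LEAST `2 r - 1` (any index type). -/
theorem disj_le (hr : 1 ≤ r) (h : Stp w) {ι : Type*} (I : Finset ι) (s t : ι → ℕ) (n : ℕ)
    (h1 : ∀ i ∈ I, s i ≤ t i ∧ t i ≤ n) (h2 : ∀ i ∈ I, 2 * r - 1 ≤ |w (t i) - w (s i)|)
    (h3 : ∀ i ∈ I, ∀ j ∈ I, i ≠ j → t i ≤ s j ∨ t j ≤ s i) : I.card ≤ XX r w n := by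
  classical
  have hex : ∀ i ∈ I, ∃ a, s i ≤ a ∧ a < t i ∧ cw r w (a + 1) ≠ cw r w a := fun i hi =>
    change_of_disp hr h (h1 i hi).1 (h2 i hi)
  have hex' : ∀ i : ι, ∃ a : ℕ, i ∈ I → s i ≤ a ∧ a < t i ∧ cw r w (a + 1) ≠ cw r w a := by
    intro i
    by_cases hi : i ∈ I
    · obtain ⟨a, ha⟩ := hex i hi
      exact ⟨a, fun _ => ha⟩
    · exact ⟨0, fun hi' => absurd hi' hi⟩
  choose f hf using hex'
  unfold XX
  apply Finset.card_le_card_of_injOn f
  · intro i hi
    have hi' : i ∈ I := hi
    obtain ⟨ha, hb, hc⟩ := hf i hi'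
    rw [Finset.mem_coe, Finset.mem_filter, Finset.mem_range]
    exact ⟨lt_of_lt_of_le hb (h1 i hi').2, hc⟩
  · intro i hi j hj hij
    by_contra hne
    have hi' : i ∈ I := hi
    have hj' : j ∈ I := hj
    obtain ⟨ha, hb, -⟩ := hf i hi'
    obtain ⟨ha', hb', -⟩ := hf j hj'
    rw [hij] at ha hb
    rcases h3 i hi' j hj' hne with h4 | h4 <;> omega

/-- ordered version. -/
theorem disj_le' (hr : 1 ≤ r) (h : Stp w) (k : ℕ) (s t : ℕ → ℕ) (n : ℕ)
    (h1 : ∀ i < k, s i ≤ t i ∧ t i ≤ n) (h2 : ∀ i < k, 2 * r - 1 ≤ |w (t i) - w (s i)|)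
    (h3 : ∀ i j, i < j → j < k → t i ≤ s j) : k ≤ XX r w n := by
  have h4 := disj_le hr h (range k) s t n (fun i hi => h1 i (Finset.mem_range.1 hi))
    (fun i hi => h2 i (Finset.mem_range.1 hi)) (by
      intro i hi j hj hij
      rw [Finset.mem_range] at hi hj
      rcases lt_or_gt_of_ne hij with h5 | h5
      · exact Or.inl (h3 i j h5 hj)
      · exact Or.inr (h3 j i h5 hi))
  rw [Finset.card_range] at h4
  exact h4

/-! the two scales `r` and `2 r`. -/

/-- the two coarse grained walks. -/
lemma two_scales (hr : 1 ≤ r) (h : Stp w) (n : ℕ) :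
    (Even (cw r w n) ∧ cw r w n = 2 * cw (2 * r) w n) ∨
      (Odd (cw r w n) ∧ (cw r w n = 2 * cw (2 * r) w n + 1 ∨ cw r w n = 2 * cw (2 * r) w n - 1)) := by
  induction n with
  | zero =>
    left
    have h0 : cw r w 0 = 0 := rfl
    have h1 : cw (2 * r) w 0 = 0 := rfl
    rw [h0, h1]
    exact ⟨⟨0, rfl⟩, rfl⟩
  | succ n ih =>
    by_cases hd : (2 * r) ∣ w (n + 1)
    · have hd' : r ∣ w (n + 1) := Dvd.dvd.trans ⟨2, by ring⟩ hd
      left
      have h1 := mul_cw_of_dvd hd
      have h2 := mul_cw_of_dvd hd'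
      have h3 : r * cw r w (n + 1) = r * (2 * cw (2 * r) w (n + 1)) := by
        rw [← h2, h1]
        ring
      have h4 : cw r w (n + 1) = 2 * cw (2 * r) w (n + 1) :=
        mul_left_cancel₀ (show r ≠ 0 by omega) h3
      exact ⟨⟨cw (2 * r) w (n + 1), by rw [h4]; ring⟩, h4⟩
    · rw [cw_succ_of_not hd]
      by_cases hd' : r ∣ w (n + 1)
      · right
        have hodd : Odd (cw r w (n + 1)) := by
          rw [← Int.not_even_iff_odd]
          rintro ⟨m, hm⟩
          apply hd
          refine ⟨m, ?_⟩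
          rw [mul_cw_of_dvd hd', hm]
          ring
        refine ⟨hodd, ?_⟩
        have h1 := cw_step hr h n
        rw [abs_le] at h1
        obtain ⟨m, hm⟩ := hodd
        rcases ih with ⟨-, h2⟩ | ⟨-, h2 | h2⟩ <;> omega
      · rw [cw_succ_of_not hd']
        exact ih

/-- THE EXACT RELATION between the numbers of crossings of two scales. -/
theorem XX_eq (hr : 1 ≤ r) (h : Stp w) (n : ℕ) :
    XX r w n = 2 * XX (2 * r) w n + 2 * TT r w n + (if Odd (cw r w n) then 1 else 0) := by
  induction n with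
  | zero =>
    have h0 : ¬ Odd (cw r w 0) := by
      have h1 : cw r w 0 = 0 := rfl
      rw [h1]
      decide
    rw [if_neg h0]
    rfl
  | succ n ih =>
    have e1 : XX r w (n + 1) = XX r w n + (if cw r w (n + 1) ≠ cw r w n then 1 else 0) := by
      unfold XX
      rw [Finset.range_add_one, Finset.filter_insert]
      split_ifs with h1
      · rw [Finset.card_insert_of_notMem]
        intro h2
        rw [Finset.mem_filter, Finset.mem_range] at h2
        omega
      · rfl
    have e2 : XX (2 * r) w (n + 1) = XX (2 * r) w n + (if cw (2 * r) w (n + 1) ≠ cw (2 * r) w n then 1 else 0) := by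
      unfold XX
      rw [Finset.range_add_one, Finset.filter_insert]
      split_ifs with h1
      · rw [Finset.card_insert_of_notMem]
        intro h2
        rw [Finset.mem_filter, Finset.mem_range] at h2
        omega
      · rfl
    have e3 : TT r w (n + 1) = TT r w n + (if cw r w (n + 1) ≠ cw r w n ∧ Odd (cw r w n) ∧
        cw (2 * r) w (n + 1) = cw (2 * r) w n then 1 else 0) := by
      unfold TT
      rw [Finset.range_add_one, Finset.filter_insert]
      split_ifs with h1
      · rw [Finset.card_insert_of_notMem]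
        intro h2
        rw [Finset.mem_filter, Finset.mem_range] at h2
        omega
      · rfl
    rw [e1, e2, e3, ih]
    have hs := cw_step hr h n
    rw [abs_le] at hs
    have ha := two_scales hr h n
    have hb := two_scales hr h (n + 1)
    by_cases hc : cw r w (n + 1) = cw r w n
    · have hc' : cw (2 * r) w (n + 1) = cw (2 * r) w n := by
        by_cases hd : (2 * r) ∣ w (n + 1)
        · have hd' : r ∣ w (n + 1) := Dvd.dvd.trans ⟨2, by ring⟩ hd
          have h1 := mul_cw_of_dvd hd
          have h2 := mul_cw_of_dvd hd'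
          have h3 : r * cw r w (n + 1) = r * (2 * cw (2 * r) w (n + 1)) := by
            rw [← h2, h1]
            ring
          have h4 : cw r w (n + 1) = 2 * cw (2 * r) w (n + 1) :=
            mul_left_cancel₀ (show r ≠ 0 by omega) h3
          rcases ha with ⟨-, h5⟩ | ⟨-, h5 | h5⟩ <;> omega
        · exact cw_succ_of_not hd
      simp only [hc, hc', ne_eq, not_true_eq_false, false_and, if_false, add_zero]
    · rcases ha with ⟨ha1, ha2⟩ | ⟨ha1, ha2⟩
      · -- even to odd
        have hb1 : Odd (cw r w (n + 1)) := by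
          obtain ⟨m, hm⟩ := ha1
          rcases (show cw r w (n + 1) = cw r w n + 1 ∨ cw r w (n + 1) = cw r w n - 1 by omega) with h5 | h5
          · exact ⟨m, by omega⟩
          · exact ⟨m - 1, by omega⟩
        have hc' : cw (2 * r) w (n + 1) = cw (2 * r) w n := by
          apply cw_succ_of_not
          intro hd
          have hd' : r ∣ w (n + 1) := Dvd.dvd.trans ⟨2, by ring⟩ hd
          have h1 := mul_cw_of_dvd hd
          have h2 := mul_cw_of_dvd hd'
          have h3 : r * cw r w (n + 1) = r * (2 * cw (2 * r) w (n + 1)) := by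
            rw [← h2, h1]
            ring
          have h4 : cw r w (n + 1) = 2 * cw (2 * r) w (n + 1) :=
            mul_left_cancel₀ (show r ≠ 0 by omega) h3
          obtain ⟨m, hm⟩ := hb1
          omega
        have ha3 : ¬ Odd (cw r w n) := by
          rw [Int.not_odd_iff_even]
          exact ha1
        simp only [hc, hc', ha3, hb1, ne_eq, not_true_eq_false, not_false_eq_true, true_and, false_and, if_false,
          if_true, add_zero]
      · -- odd to even
        have hb1 : ¬ Odd (cw r w (n + 1)) := by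
          rw [Int.not_odd_iff_even]
          obtain ⟨m, hm⟩ := ha1
          rcases (show cw r w (n + 1) = cw r w n + 1 ∨ cw r w (n + 1) = cw r w n - 1 by omega) with h5 | h5
          · exact ⟨m + 1, by omega⟩
          · exact ⟨m, by omega⟩
        by_cases hc' : cw (2 * r) w (n + 1) = cw (2 * r) w n
        · simp only [hc, hc', ha1, hb1, ne_eq, not_true_eq_false, not_false_eq_true, true_and, if_false,
            if_true, add_zero]
          omega
        · simp only [hc, hc', ha1, hb1, ne_eq, not_false_eq_true, and_false, if_false,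
            if_true, add_zero]
          omega

/-- a piece of the time axis without both an upward and a downward move of size `r`. -/
def Mon (r : ℤ) (w : ℕ → ℤ) (a b : ℕ) : Prop :=
  (∀ s t, a ≤ s → s ≤ t → t ≤ b → w s - r < w t) ∨ (∀ s t, a ≤ s → s ≤ t → t ≤ b → w t < w s + r)

/-- two turns are never completed in the same piece. -/
lemma turn_piece (hr : 1 ≤ r) (h : Stp w) {a b i₁ i₂ : ℕ} (hm : Mon r w a b) (ha : a ≤ i₁) (h12 : i₁ < i₂)
    (hb : i₂ + 1 ≤ b)
    (h1 : cw r w (i₁ + 1) ≠ cw r w i₁ ∧ Odd (cw r w i₁) ∧ cw (2 * r) w (i₁ + 1) = cw (2 * r) w i₁)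
    (h2 : cw r w (i₂ + 1) ≠ cw r w i₂ ∧ Odd (cw r w i₂) ∧ cw (2 * r) w (i₂ + 1) = cw (2 * r) w i₂) : False := by
  -- after a completed turn the walk is in an even site
  have key : ∀ i, cw r w (i + 1) ≠ cw r w i → Odd (cw r w i) →
      w (i + 1) = 2 * r * cw (2 * r) w (i + 1) := by
    intro i hi ho
    have hd : r ∣ w (i + 1) := by
      by_contra hd
      exact hi (cw_succ_of_not hd)
    have hs := cw_step hr h i
    rw [abs_le] at hs
    have hev : Even (cw r w (i + 1)) := by
      obtain ⟨m, hm⟩ := ho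
      rcases (show cw r w (i + 1) = cw r w i + 1 ∨ cw r w (i + 1) = cw r w i - 1 by omega) with h5 | h5
      · exact ⟨m + 1, by omega⟩
      · exact ⟨m, by omega⟩
    rcases two_scales hr h (i + 1) with ⟨-, h5⟩ | ⟨h5, -⟩
    · rw [mul_cw_of_dvd hd, h5]
      ring
    · exact absurd hev (by rw [Int.not_even_iff_odd]; exact h5)
  have k1 := key i₁ h1.1 h1.2.1
  have k2 := key i₂ h2.1 h2.2.1
  rw [h2.2.2] at k2
  obtain ⟨v, hv1, hv2, hv3⟩ := visit (r := 2 * r) (show i₁ + 1 ≤ i₂ by omega) k1
  have hvr : w v = r * cw r w v := by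
    obtain ⟨v', rfl⟩ : ∃ v', v = v' + 1 := ⟨v - 1, by omega⟩
    apply mul_cw_of_dvd
    rw [hv3]
    exact ⟨2 * cw (2 * r) w i₂, by ring⟩
  obtain ⟨u, hu1, hu2, hu3⟩ := visit hv2 hvr
  have h5 : w u = w v + r ∨ w u = w v - r := by
    rcases two_scales hr h i₂ with ⟨h6, -⟩ | ⟨-, h6 | h6⟩
    · exact absurd h2.2.1 (by rw [Int.not_odd_iff_even]; exact h6)
    · left
      rw [hu3, hv3, h6]
      ring
    · right
      rw [hu3, hv3, h6]
      ring
  have h6 : w (i₂ + 1) = w v := by rw [k2, hv3]
  rcases hm with hm | hm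
  · rcases h5 with h5 | h5
    · have h7 := hm u (i₂ + 1) (by omega) (by omega) hb
      omega
    · have h7 := hm v u (by omega) hu1 (by omega)
      omega
  · rcases h5 with h5 | h5
    · have h7 := hm v u (by omega) hu1 (by omega)
      omega
    · have h7 := hm u (i₂ + 1) (by omega) (by omega) hb
      omega

/-- the number of turns is at most the number of pieces. -/
theorem TT_le (hr : 1 ≤ r) (h : Stp w) {n M : ℕ} {e : ℕ → ℕ} (h0 : e 0 = 0) (hM : n ≤ e M)
    (hm : ∀ j < M, Mon r w (e j) (e (j + 1))) : TT r w n ≤ M := by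
  classical
  have hex : ∀ i, ∃ j, i < n → j < M ∧ e j ≤ i ∧ i < e (j + 1) := by
    intro i
    by_cases hi : i < n
    · have h1 : ∃ j, i < e j := ⟨M, lt_of_lt_of_le hi hM⟩
      have h2 := Nat.find_spec h1
      have h3 : Nat.find h1 ≠ 0 := by
        intro h4
        rw [h4, h0] at h2
        omega
      have h4 : ¬ i < e (Nat.find h1 - 1) := Nat.find_min h1 (by omega)
      refine ⟨Nat.find h1 - 1, fun _ => ⟨?_, by omega, ?_⟩⟩
      · have h5 : Nat.find h1 ≤ M := Nat.find_min' h1 (lt_of_lt_of_le hi hM)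
        omega
      · have h5 : Nat.find h1 - 1 + 1 = Nat.find h1 := by omega
        rw [h5]
        exact h2
    · exact ⟨0, fun h1 => absurd h1 hi⟩
  choose f hf using hex
  have hcard : TT r w n ≤ (range M).card := by
    unfold TT
    apply Finset.card_le_card_of_injOn f
    · intro i hi
      rw [Finset.mem_coe, Finset.mem_filter, Finset.mem_range] at hi
      rw [Finset.mem_coe, Finset.mem_range]
      exact (hf i hi.1).1
    · intro i hi j hj hij
      rw [Finset.mem_coe, Finset.mem_filter, Finset.mem_range] at hi hj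
      obtain ⟨a1, a2, a3⟩ := hf i hi.1
      obtain ⟨b1, b2, b3⟩ := hf j hj.1
      rw [hij] at a2 a3
      by_contra hne
      rcases lt_or_gt_of_ne hne with h5 | h5
      · exact turn_piece hr h (hm _ b1) a2 h5 b3 hi.2 hj.2
      · exact turn_piece hr h (hm _ b1) b2 h5 a3 hj.2 hi.2
  rw [Finset.card_range] at hcard
  exact hcard

/-- (D1): two scales. -/
theorem XX_step (hr : 1 ≤ r) (h : Stp w) {n M : ℕ} {e : ℕ → ℕ} (h0 : e 0 = 0) (hM : n ≤ e M)
    (hm : ∀ j < M, Mon r w (e j) (e (j + 1))) : XX r w n ≤ 2 * XX (2 * r) w n + 2 * M + 1 := by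
  have h1 := XX_eq hr h n
  have h2 := TT_le hr h h0 hM hm
  have h3 : (if Odd (cw r w n) then 1 else 0) ≤ 1 := by split_ifs <;> omega
  omega

/-- (D1), iterated: `M i` pieces at the scale `2 ^ i * r`. -/
theorem XX_sum {n : ℕ} (K : ℕ) (M : ℕ → ℕ)
    (hM : ∀ i < K, XX (2 ^ i * r) w n ≤ 2 * XX (2 ^ (i + 1) * r) w n + 2 * M i + 1) :
    XX r w n + 1 ≤ 2 ^ K * (XX (2 ^ K * r) w n + 1) + 2 * ∑ i ∈ range K, 2 ^ i * M i := by
  induction K with
  | zero => simp
  | succ K ih =>
    have h1 := ih (fun i hi => hM i (by omega))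
    have h2 := hM K (by omega)
    rw [Finset.sum_range_succ]
    have h3 : 2 ^ K * (XX (2 ^ K * r) w n + 1) ≤
        2 ^ K * (2 * XX (2 ^ (K + 1) * r) w n + 2 * M K + 1 + 1) := Nat.mul_le_mul_left _ (by omega)
    have h4 : 2 ^ K * (2 * XX (2 ^ (K + 1) * r) w n + 2 * M K + 1 + 1) =
        2 ^ (K + 1) * (XX (2 ^ (K + 1) * r) w n + 1) + 2 * (2 ^ K * M K) := by
      rw [pow_succ]
      ring
    omega

/-- no crossings above the size of the walk. -/
theorem XX_zero (hr : 1 ≤ r) {n : ℕ} (hw : ∀ i ≤ n, |w i| < r) : XX r w n = 0 := by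
  have key : ∀ i ≤ n, cw r w i = 0 := by
    intro i
    induction i with
    | zero => intro _; rfl
    | succ i ih =>
      intro hi
      by_cases hd : r ∣ w (i + 1)
      · have h1 := mul_cw_of_dvd hd
        have h2 := hw (i + 1) hi
        rw [h1, abs_mul, abs_of_nonneg (show 0 ≤ r by omega)] at h2
        by_contra h3
        have h4 : 1 ≤ |cw r w (i + 1)| := Int.one_le_abs h3
        have h5 : r * 1 ≤ r * |cw r w (i + 1)| := mul_le_mul_of_nonneg_left h4 (by omega)
        omega
      · rw [cw_succ_of_not hd]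
        exact ih (by omega)
  unfold XX
  rw [Finset.card_eq_zero, Finset.filter_eq_empty_iff]
  intro i hi
  rw [Finset.mem_range] at hi
  rw [key i (by omega), key (i + 1) (by omega)]
  simp

lemma XX_mono {n n' : ℕ} (h : n ≤ n') : XX r w n ≤ XX r w n' := by
  unfold XX
  apply Finset.card_le_card
  intro i hi
  rw [Finset.mem_filter, Finset.mem_range] at hi ⊢
  exact ⟨by omega, hi.2⟩

end Crs

/-- time-disjoint moves of at least 2 r -/
theorem XX_moves {r : ℤ} (hr : 1 ≤ r) {w : ℕ → ℤ} (hw0 : w 0 = 0) (hw : ∀ i, |w (i + 1) - w i| ≤ 1) {n K : ℕ}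
    (s t : ℕ → ℕ) (h1 : ∀ i, i < K → s i < t i ∧ t i ≤ n) (h2 : ∀ i, i + 1 < K → t i ≤ s (i + 1))
    (h3 : ∀ i, i < K → 2 * r ≤ |w (t i) - w (s i)|) : K ≤ XX r w n := by
  have hst : Crs.Stp w := ⟨hw0, hw⟩
  apply Crs.disj_le' hr hst K s t n
  · intro i hi
    exact ⟨le_of_lt (h1 i hi).1, (h1 i hi).2⟩
  · intro i hi
    have h4 := h3 i hi
    omega
  · intro i j hij
    induction j, hij using Nat.le_induction with
    | base => exact fun hj => h2 i hj
    | succ j hij ih =>
      intro hj
      have h4 := ih (by omega)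
      have h5 := (h1 j (by omega)).1
      have h6 := h2 j hj
      omega

/-- halving the scale; E cuts [0, n] into M pieces, each without up moves of at least r or without down moves of at
least r -/
theorem XX_rec {r : ℤ} (hr : 1 ≤ r) {w : ℕ → ℤ} (hw0 : w 0 = 0) (hw : ∀ i, |w (i + 1) - w i| ≤ 1) {n M : ℕ}
    (E : ℕ → ℕ) (h0 : E 0 = 0) (hM : E M = n) (h1 : ∀ j, j < M → E j ≤ E (j + 1))
    (h2 : ∀ j, j < M → (∀ i i', E j ≤ i → i ≤ i' → i' ≤ E (j + 1) → w i - w i' < r) ∨
      (∀ i i', E j ≤ i → i ≤ i' → i' ≤ E (j + 1) → w i' - w i < r)) :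
    XX r w n ≤ 2 * XX (2 * r) w n + 2 * M + 1 := by
  have hst : Crs.Stp w := ⟨hw0, hw⟩
  apply Crs.XX_step hr hst (e := E) h0 (le_of_eq hM.symm)
  intro j hj
  rcases h2 j hj with h3 | h3
  · left
    intro s t h4 h5 h6
    have h7 := h3 s t h4 h5 h6
    omega
  · right
    intro s t h4 h5 h6
    have h7 := h3 s t h4 h5 h6
    omega

end SDN

end HexObs
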