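import Pool.Agent.SDN.TubeMass

/-!
SDN, limit version, module M6: the embedding of the bridges of a box into bridges.
-/

set_option autoImplicit false

namespace HexObs

namespace SDN

open Finset TS

open scoped ENNReal

open Rec8 (sw)

lemma WL_mono {L L' : ℕ} (h : L ≤ L') {t : List Bool} (ht : t ∈ WL L) : t ∈ WL L' := by
  refine ⟨ht.1, fun i hi dir => (ht.2 i hi dir).trans ?_⟩
  exact_mod_cast Nat.pow_le_pow_right (by norm_num) h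

lemma BL_mono {L L' : ℕ} (h : L ≤ L') {t : List Bool} (ht : t ∈ BL L) : t ∈ BL L' := ⟨ht.1, WL_mono h ht.2⟩

/-- M6 from the geometry of the embedded walk (tube_geo) -/
theorem tube_emb_of (hgeo : ∀ K : ℕ, 1 ≤ K → ∃ Q c0 C0 : ℕ, 1 ≤ Q ∧ ∀ (L b q : ℕ) (z1 v1 t v2 z2 : List Bool),
    c0 ≤ b → b ≤ L + 2 → q = C0 * 2 ^ (L + 3 - b) → z1 ∈ TD.T1 (Q * 2 ^ (b - c0)) (2 ^ (b - c0)) →
    v1 ∈ VV K (2 ^ (b - c0)) q → t ∈ BL L → rev v2 ∈ VV K (2 ^ (b - c0)) q →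
    rev z2 ∈ TD.T1 (Q * 2 ^ (b - c0)) (2 ^ (b - c0)) →
    z1 ++ ((v1 ++ (t ++ v2)) ++ z2) ∈ BL (L + C0) ∧
      Emb b t (z1 ++ ((v1 ++ (t ++ v2)) ++ z2)) (z1.length + v1.length) ∧
      ∀ c, b ≤ c → (nb c (z1 ++ ((v1 ++ (t ++ v2)) ++ z2)) : ℝ) ≤ 16 * nb c t + C0 * ((2 : ℝ) ^ L / 2 ^ c + 1) ∧
        nb c t ≤ 16 * nb c (z1 ++ ((v1 ++ (t ++ v2)) ++ z2))) :
    ∃ (C0 : ℕ) (C : ℝ), 1 ≤ C0 ∧ 0 < C ∧ ∀ (L b : ℕ) (G : Set (List Bool)), C0 ≤ b → b ≤ L + 2 →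
    (∀ t ∈ G, t ∈ BL L) → ∃ G' : Set (List Bool), gf G ≤ ENNReal.ofReal (Real.exp (C * (2 : ℝ) ^ ((L : ℝ) + 3 - b))) * gf G' ∧
      ∀ w ∈ G', w ∈ BL (L + C0) ∧ ∃ t ∈ G, ∃ a : ℕ, Emb b t w a ∧
        ∀ c, b ≤ c → (nb c w : ℝ) ≤ 16 * nb c t + C0 * ((2 : ℝ) ^ L / 2 ^ c + 1) ∧ nb c t ≤ 16 * nb c w := by
  obtain ⟨K, hK, hV⟩ := VV_mass
  obtain ⟨Q, c0, C0, hQ, hg⟩ := hgeo K hK
  obtain ⟨c, hc, hT⟩ := TD.T1_mass Q hQ
  refine ⟨max 1 (max c0 C0), 2 * |Real.log c| + 2 * C0 * Real.log 4 + 1, le_max_left _ _, ?_, ?_⟩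
  · have h4 : 0 ≤ Real.log 4 := Real.log_nonneg (by norm_num)
    positivity
  intro L b G hCb hbL hG
  have hc0b : c0 ≤ b := le_trans (le_trans (le_max_left _ _) (le_max_right _ _)) hCb
  have hC0m : C0 ≤ max 1 (max c0 C0) := le_trans (le_max_right _ _) (le_max_right _ _)
  obtain ⟨S, hS⟩ : ∃ S : ℕ, S = 2 ^ (b - c0) := ⟨_, rfl⟩
  have hS1 : 1 ≤ S := by
    rw [hS]
    exact Nat.one_le_two_pow
  obtain ⟨q, hq⟩ : ∃ q : ℕ, q = C0 * 2 ^ (L + 3 - b) := ⟨_, rfl⟩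
  have hcode := tube_code (K := K) (S := S) (q := q) (R := Q * S) (n := S) (G := G) hS1 (fun t ht => (hG t ht).1)
  refine ⟨{w | ∃ z1 ∈ TD.T1 (Q * S) S, ∃ v1 ∈ VV K S q, ∃ t ∈ G, ∃ v2, rev v2 ∈ VV K S q ∧
      ∃ z2, rev z2 ∈ TD.T1 (Q * S) S ∧ w = z1 ++ ((v1 ++ (t ++ v2)) ++ z2)}, ?_, ?_⟩
  · -- masses
    have h1 := hT S hS1
    have h2 := hV S q hS1
    have h3 : ENNReal.ofReal c * (ENNReal.ofReal ((1 / 4) ^ q) * (gf G * ENNReal.ofReal ((1 / 4) ^ q)) *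
        ENNReal.ofReal c) ≤ gf {w | ∃ z1 ∈ TD.T1 (Q * S) S, ∃ v1 ∈ VV K S q, ∃ t ∈ G, ∃ v2, rev v2 ∈ VV K S q ∧
      ∃ z2, rev z2 ∈ TD.T1 (Q * S) S ∧ w = z1 ++ ((v1 ++ (t ++ v2)) ++ z2)} := by
      refine le_trans ?_ hcode
      gcongr
    have hcq : (0 : ℝ) < c ^ 2 * (1 / 4) ^ (2 * q) := by positivity
    have h4 : ENNReal.ofReal (c ^ 2 * (1 / 4) ^ (2 * q)) * gf G ≤ gf {w | ∃ z1 ∈ TD.T1 (Q * S) S, ∃ v1 ∈ VV K S q,
        ∃ t ∈ G, ∃ v2, rev v2 ∈ VV K S q ∧ ∃ z2, rev z2 ∈ TD.T1 (Q * S) S ∧ w = z1 ++ ((v1 ++ (t ++ v2)) ++ z2)} := by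
      refine le_trans (le_of_eq ?_) h3
      have e1 : c ^ 2 * (1 / 4) ^ (2 * q) = c * ((1 / 4) ^ q * ((1 / 4) ^ q * c)) := by
        rw [two_mul q, pow_add]
        ring
      rw [e1, ENNReal.ofReal_mul hc.le, ENNReal.ofReal_mul (by positivity), ENNReal.ofReal_mul (by positivity)]
      ring
    have h5 : gf G = ENNReal.ofReal ((c ^ 2 * (1 / 4) ^ (2 * q))⁻¹) *
        (ENNReal.ofReal (c ^ 2 * (1 / 4) ^ (2 * q)) * gf G) := by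
      rw [← mul_assoc, ← ENNReal.ofReal_mul (by positivity), inv_mul_cancel₀ hcq.ne', ENNReal.ofReal_one, one_mul]
    rw [h5]
    refine mul_le_mul' (ENNReal.ofReal_le_ofReal ?_) h4
    have hlog : Real.log ((c ^ 2 * (1 / 4) ^ (2 * q))⁻¹) = -2 * Real.log c + 2 * q * Real.log 4 := by
      rw [Real.log_inv, Real.log_mul (by positivity) (by positivity), Real.log_pow, Real.log_pow, Real.log_div (by norm_num)
        (by norm_num), Real.log_one]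
      push_cast
      ring
    have hpos : (0 : ℝ) < (c ^ 2 * (1 / 4) ^ (2 * q))⁻¹ := inv_pos.2 hcq
    rw [← Real.exp_log hpos, hlog]
    apply Real.exp_le_exp.2
    have hX : (2 : ℝ) ^ ((L : ℝ) + 3 - b) = ((2 ^ (L + 3 - b) : ℕ) : ℝ) := by
      have e2 : (L : ℝ) + 3 - b = ((L + 3 - b : ℕ) : ℝ) := by
        rw [Nat.cast_sub (by omega)]
        push_cast
        ring
      rw [e2, Real.rpow_natCast]
      push_cast
      rfl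
    rw [hX, hq]
    have hX1 : (1 : ℝ) ≤ ((2 ^ (L + 3 - b) : ℕ) : ℝ) := by exact_mod_cast Nat.one_le_two_pow
    obtain ⟨X, hXd⟩ : ∃ X : ℝ, X = ((2 ^ (L + 3 - b) : ℕ) : ℝ) := ⟨_, rfl⟩
    rw [← hXd] at hX1
    have hqX : ((C0 * 2 ^ (L + 3 - b) : ℕ) : ℝ) = C0 * X := by
      rw [hXd]
      push_cast
      ring
    rw [hqX, ← hXd]
    have habs : -2 * Real.log c ≤ 2 * |Real.log c| * X := by
      have h6 : -Real.log c ≤ |Real.log c| := neg_le_abs _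
      have h7 : 0 ≤ |Real.log c| := abs_nonneg _
      nlinarith
    have h8 : 0 ≤ X := by linarith
    nlinarith
  · rintro w ⟨z1, hz1, v1, hv1, t, ht, v2, hv2, z2, hz2, rfl⟩
    have hg' := hg L b q z1 v1 t v2 z2 hc0b hbL hq (by rw [← hS]; exact hz1) (by rw [← hS]; exact hv1) (hG t ht)
      (by rw [← hS]; exact hv2) (by rw [← hS]; exact hz2)
    refine ⟨BL_mono (by omega) hg'.1, t, ht, z1.length + v1.length, hg'.2.1, fun c' hc' => ?_⟩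
    refine ⟨(hg'.2.2 c' hc').1.trans ?_, (hg'.2.2 c' hc').2⟩
    have h9 : (C0 : ℝ) ≤ ((max 1 (max c0 C0) : ℕ) : ℝ) := by exact_mod_cast hC0m
    gcongr

end SDN

end HexObs
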