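import Pool.Agent.SDN.AltLe
import Pool.Agent.SDN.Hyst
import Pool.Agent.SDN.CrossDD
import Pool.Agent.SDN.WordNb
import Pool.Agent.SDN.NormT
import Pool.Agent.SDN.TubeEmb

/-!
SDN, limit version, module M7 (direction true): the crowding estimate in the direction true, from the crowding
estimate in the direction false (crowd_brd) and the embedding of the bridges (tube_emb).
-/

set_option autoImplicit false

namespace HexObs

namespace SDN

open Finset TS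

open scoped ENNReal

namespace CT

lemma RR_mono {b c : ℕ} (h : b ≤ c) : RR b ≤ RR c := by
  unfold RR
  have h1 : (2 : ℤ) ^ b ≤ 2 ^ c := by exact_mod_cast Nat.pow_le_pow_right (by norm_num) h
  omega

lemma emb_ge {b c m u m' u' a : ℕ} {t w : List Bool} {e e' : ℕ → ℕ} (hE : Emb b t w a)
    (h : Lf true c t m u e) (h' : Lf false c w m' u' e') : m ≤ max m' 1 := by
  obtain ⟨cc, hc⟩ := hE.rel
  exact hyst_sub h h' hE.le (Or.inr hc)

lemma emb_le {b c m u m' u' a : ℕ} {t w : List Bool} {e e' : ℕ → ℕ} (hbc : b ≤ c) (hE : Emb b t w a)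
    (h : Lf true c t m u e) (h' : Lf false c w m' u' e') : m' ≤ max m 1 + 4 := by
  obtain ⟨cc, hc⟩ := hE.rel
  exact hyst_ext h h' hE.le (Or.inr hc) (fun i i' h1 h2 => lt_of_lt_of_le (hE.pre i i' h1 h2) (RR_mono hbc))
    (fun i i' h1 h2 h3 => lt_of_lt_of_le (hE.post i i' h1 h2 h3) (RR_mono hbc))

/-- the weighted number of cells of t in terms of those of w -/
lemma DD_tw {L C0 c : ℕ} {Y : ℝ} {t w : List Bool} (hY : 0 ≤ Y) (h : ∀ i, nb (c + i) t ≤ 16 * nb (c + i) w) :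
    DD L Y c t ≤ 16 * DD (L + C0) Y c w := by
  unfold DD
  have h1 : ∑ i ∈ range (L + 3 - c), (5 / 2 : ℝ) ^ i * nb (c + i) t ≤
      16 * ∑ i ∈ range (L + C0 + 3 - c), (5 / 2 : ℝ) ^ i * nb (c + i) w := by
    rw [Finset.mul_sum]
    refine (Finset.sum_le_sum (g := fun i => 16 * ((5 / 2 : ℝ) ^ i * nb (c + i) w)) fun i _ => ?_).trans ?_
    · have h2 : (nb (c + i) t : ℝ) ≤ 16 * nb (c + i) w := by exact_mod_cast h i
      have h3 : (0 : ℝ) < (5 / 2 : ℝ) ^ i := by positivity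
      nlinarith
    · refine Finset.sum_le_sum_of_subset_of_nonneg (Finset.range_subset_range.2 (by omega)) fun i _ _ => ?_
      positivity
  have h4 : Y * (5 / 2 : ℝ) ^ (L + 3 - c) ≤ Y * (5 / 2 : ℝ) ^ (L + C0 + 3 - c) :=
    mul_le_mul_of_nonneg_left (pow_le_pow_right₀ (by norm_num) (by omega)) hY
  have h5 : 0 ≤ Y * (5 / 2 : ℝ) ^ (L + C0 + 3 - c) := by positivity
  linarith

lemma geo54 (n : ℕ) : ∑ i ∈ range n, (5 / 4 : ℝ) ^ i ≤ 4 * (5 / 4) ^ n := by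
  rw [geom_sum_eq (by norm_num)]
  have h1 : (0 : ℝ) < (5 / 4 : ℝ) ^ n := by positivity
  rw [div_le_iff₀ (by norm_num)]
  linarith

lemma geo52 (n : ℕ) : ∑ i ∈ range n, (5 / 2 : ℝ) ^ i ≤ (5 / 2) ^ n := by
  rw [geom_sum_eq (by norm_num)]
  have h1 : (0 : ℝ) < (5 / 2 : ℝ) ^ n := by positivity
  rw [div_le_iff₀ (by norm_num)]
  linarith

/-- the weighted number of cells of w in terms of those of t -/
lemma DD_wt {L C0 b : ℕ} {Y : ℝ} {t w : List Bool} (hY : 1 ≤ Y) (ht : t ∈ WL L) (hb : b ≤ L + 2)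
    (h : ∀ i, (nb (b + i) w : ℝ) ≤ 16 * nb (b + i) t + C0 * ((2 : ℝ) ^ L / 2 ^ (b + i) + 1)) :
    DD (L + C0) Y b w ≤ (16 + (65 + 5 * C0) * (5 / 2) ^ C0) * DD L Y b t := by
  obtain ⟨n, hn⟩ : ∃ n, n = L + 3 - b := ⟨_, rfl⟩
  have hn' : L + C0 + 3 - b = n + C0 := by omega
  unfold DD
  rw [hn', ← hn]
  have h0 : (0 : ℝ) ≤ (C0 : ℝ) := Nat.cast_nonneg _
  -- the terms
  have h1 : ∀ i ∈ range (n + C0), (5 / 2 : ℝ) ^ i * nb (b + i) w ≤
      (if i < n then 16 * ((5 / 2 : ℝ) ^ i * nb (b + i) t) else 0) + (64 + C0) * (5 / 2) ^ i +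
        C0 * 2 ^ (n + C0) * (5 / 4) ^ i := by
    intro i _
    have h2 := h i
    have h3 : (2 : ℝ) ^ L / 2 ^ (b + i) ≤ 2 ^ (n + C0) / 2 ^ i := by
      rw [div_le_div_iff₀ (by positivity) (by positivity), ← pow_add, ← pow_add]
      exact pow_le_pow_right₀ (by norm_num) (by omega)
    have h4 : (5 / 2 : ℝ) ^ i * (2 ^ (n + C0) / 2 ^ i) = 2 ^ (n + C0) * (5 / 4) ^ i := by
      have : (5 / 2 : ℝ) ^ i = (5 / 4) ^ i * 2 ^ i := by
        rw [← mul_pow]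
        norm_num
      rw [this]
      field_simp
    have h5 : (0 : ℝ) < (5 / 2 : ℝ) ^ i := by positivity
    have h6 : (nb (b + i) w : ℝ) ≤ 16 * nb (b + i) t + C0 * (2 ^ (n + C0) / 2 ^ i + 1) := by
      refine h2.trans ?_
      gcongr
    have h7 : (5 / 2 : ℝ) ^ i * nb (b + i) w ≤ 16 * ((5 / 2 : ℝ) ^ i * nb (b + i) t) +
        C0 * (5 / 2) ^ i + C0 * 2 ^ (n + C0) * (5 / 4) ^ i := by
      calc (5 / 2 : ℝ) ^ i * nb (b + i) w ≤ (5 / 2 : ℝ) ^ i * (16 * nb (b + i) t + C0 * (2 ^ (n + C0) / 2 ^ i + 1)) :=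
            mul_le_mul_of_nonneg_left h6 h5.le
        _ = 16 * ((5 / 2 : ℝ) ^ i * nb (b + i) t) + C0 * ((5 / 2 : ℝ) ^ i * (2 ^ (n + C0) / 2 ^ i)) +
              C0 * (5 / 2) ^ i := by ring
        _ = _ := by
            rw [h4]
            ring
    by_cases hi : i < n
    · rw [if_pos hi]
      have h8 : 0 ≤ (64 : ℝ) * (5 / 2) ^ i := by positivity
      linarith
    · rw [if_neg hi]
      have h9 : (nb (b + i) t : ℝ) ≤ 4 := by exact_mod_cast nb_top ht (by omega)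
      have h10 : (5 / 2 : ℝ) ^ i * nb (b + i) t ≤ (5 / 2 : ℝ) ^ i * 4 := mul_le_mul_of_nonneg_left h9 h5.le
      linarith
  have h2 := Finset.sum_le_sum h1
  rw [Finset.sum_add_distrib, Finset.sum_add_distrib, ← Finset.mul_sum, ← Finset.mul_sum] at h2
  have h3 : ∑ i ∈ range (n + C0), (if i < n then 16 * ((5 / 2 : ℝ) ^ i * nb (b + i) t) else 0) =
      16 * ∑ i ∈ range n, (5 / 2 : ℝ) ^ i * nb (b + i) t := by
    rw [Finset.sum_range_add, Finset.mul_sum]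
    have e1 : ∑ i ∈ range C0, (if n + i < n then 16 * ((5 / 2 : ℝ) ^ (n + i) * nb (b + (n + i)) t) else 0) = 0 :=
      Finset.sum_eq_zero fun i _ => if_neg (by omega)
    rw [e1, add_zero]
    exact Finset.sum_congr rfl fun i hi => if_pos (Finset.mem_range.1 hi)
  rw [h3] at h2
  have h4 : (64 + (C0 : ℝ)) * ∑ i ∈ range (n + C0), (5 / 2 : ℝ) ^ i ≤ (64 + C0) * (5 / 2) ^ (n + C0) :=
    mul_le_mul_of_nonneg_left (geo52 _) (by positivity)
  have h5 : (C0 : ℝ) * 2 ^ (n + C0) * ∑ i ∈ range (n + C0), (5 / 4 : ℝ) ^ i ≤ 4 * C0 * (5 / 2) ^ (n + C0) := by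
    have h6 : (C0 : ℝ) * 2 ^ (n + C0) * ∑ i ∈ range (n + C0), (5 / 4 : ℝ) ^ i ≤
        C0 * 2 ^ (n + C0) * (4 * (5 / 4) ^ (n + C0)) := mul_le_mul_of_nonneg_left (geo54 _) (by positivity)
    have h7 : (2 : ℝ) ^ (n + C0) * (5 / 4) ^ (n + C0) = (5 / 2) ^ (n + C0) := by
      rw [← mul_pow]
      norm_num
    calc _ ≤ _ := h6
      _ = 4 * C0 * (2 ^ (n + C0) * (5 / 4) ^ (n + C0)) := by ring
      _ = _ := by rw [h7]
  have h8 : (5 / 2 : ℝ) ^ (n + C0) = (5 / 2) ^ C0 * (5 / 2) ^ n := by rw [pow_add]; ring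
  have h9 : (0 : ℝ) ≤ ∑ i ∈ range n, (5 / 2 : ℝ) ^ i * nb (b + i) t :=
    Finset.sum_nonneg fun i _ => mul_nonneg (by positivity) (Nat.cast_nonneg _)
  rw [h8] at h4 h5 ⊢
  obtain ⟨P, hP⟩ : ∃ P, P = (5 / 2 : ℝ) ^ C0 := ⟨_, rfl⟩
  obtain ⟨q, hq⟩ : ∃ q, q = (5 / 2 : ℝ) ^ n := ⟨_, rfl⟩
  rw [← hP, ← hq] at h4 h5 ⊢
  have hP0 : 0 < P := by
    rw [hP]
    positivity
  have hq0 : 0 < q := by
    rw [hq]
    positivity
  have hPq : 0 < P * q := mul_pos hP0 hq0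
  have h10 : (64 + (C0 : ℝ)) * (P * q) + 4 * C0 * (P * q) + Y * (P * q) ≤ (65 + 5 * C0) * P * (Y * q) := by
    have h11 : P * q ≤ P * (Y * q) := by
      rw [mul_comm Y q, ← mul_assoc]
      exact le_mul_of_one_le_right hPq.le hY
    have h12 : Y * (P * q) = P * (Y * q) := by ring
    rw [h12]
    have h13 : (64 + (C0 : ℝ)) * (P * q) ≤ (64 + C0) * (P * (Y * q)) := mul_le_mul_of_nonneg_left h11 (by positivity)
    have h14 : 4 * (C0 : ℝ) * (P * q) ≤ 4 * C0 * (P * (Y * q)) := mul_le_mul_of_nonneg_left h11 (by positivity)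
    linarith
  have h15 : 0 ≤ (65 + 5 * (C0 : ℝ)) * P * ∑ i ∈ range n, (5 / 2 : ℝ) ^ i * nb (b + i) t := by positivity
  have h16 : 0 ≤ Y * q := by positivity
  linarith

/-- the numbers of one scale -/
lemma scale_num {A C1 C2 Y : ℝ} {s C0 n0 : ℕ} (hC1 : 0 < C1) (hC2 : 0 < C2) (hY : 1 ≤ Y) (hA : C1 + C2 + 2 ≤ A)
    (hn0 : A * (Y * (5 / 2) ^ s) ≤ n0) :
    Real.exp (C2 * (2 : ℝ) ^ (s : ℝ)) * ((2 : ℝ) ^ (C1 * ((s : ℝ) + C0)) * C1 * (2 * (1 / 4) ^ n0)) ≤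
      2 * C1 * (2 : ℝ) ^ (C1 * C0) * (2 : ℝ) ^ (-Y) * (1 / 2) ^ s := by
  have hl0 : 0 < Real.log 2 := Real.log_pos (by norm_num)
  have hl1 : Real.log 2 ≤ 1 := by
    have := Real.log_two_lt_d9
    linarith
  have hl4 : 1 ≤ Real.log 4 := by
    have h1 : Real.log 4 = 2 * Real.log 2 := by
      rw [show (4 : ℝ) = 2 ^ 2 by norm_num, Real.log_pow]
      norm_num
    have := Real.log_two_gt_d9
    linarith
  have e1 : (1 / 4 : ℝ) ^ n0 = Real.exp (-(n0 * Real.log 4)) := by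
    rw [Real.exp_neg, mul_comm, Real.exp_mul, Real.exp_log (by norm_num), Real.rpow_natCast, one_div, inv_pow]
  have e2 : (1 / 2 : ℝ) ^ s = Real.exp (-(s * Real.log 2)) := by
    rw [Real.exp_neg, mul_comm, Real.exp_mul, Real.exp_log (by norm_num), Real.rpow_natCast, one_div, inv_pow]
  have e3 : (2 : ℝ) ^ (C1 * ((s : ℝ) + C0)) = (2 : ℝ) ^ (C1 * C0) * Real.exp (Real.log 2 * (C1 * s)) := by
    rw [mul_add, add_comm, Real.rpow_add (by norm_num), Real.rpow_def_of_pos (by norm_num) (C1 * (s : ℝ))]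
  have e4 : (2 : ℝ) ^ (-Y) = Real.exp (Real.log 2 * (-Y)) := Real.rpow_def_of_pos (by norm_num) _
  have e5 : (2 : ℝ) ^ (s : ℝ) = 2 ^ s := Real.rpow_natCast _ _
  rw [e1, e2, e3, e4, e5]
  have key : Real.exp (C2 * 2 ^ s) * Real.exp (Real.log 2 * (C1 * s)) * Real.exp (-(n0 * Real.log 4)) ≤
      Real.exp (Real.log 2 * (-Y)) * Real.exp (-(s * Real.log 2)) := by
    rw [← Real.exp_add, ← Real.exp_add, ← Real.exp_add]
    apply Real.exp_le_exp.2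
    have h1 : (2 : ℝ) ^ s ≤ (5 / 2) ^ s := pow_le_pow_left₀ (by norm_num) (by norm_num) s
    have h2 : (s : ℝ) ≤ 2 ^ s := by exact_mod_cast s.lt_two_pow_self.le
    have h3 : (1 : ℝ) ≤ 2 ^ s := one_le_pow₀ (by norm_num)
    have h4 : (n0 : ℝ) ≤ n0 * Real.log 4 := le_mul_of_one_le_right (Nat.cast_nonneg _) hl4
    obtain ⟨X, hX⟩ : ∃ X, X = (5 / 2 : ℝ) ^ s := ⟨_, rfl⟩
    rw [← hX] at h1 hn0
    have hX1 : 1 ≤ X := h3.trans h1
    have hsX : (s : ℝ) ≤ X := h2.trans h1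
    have hs0 : (0 : ℝ) ≤ (s : ℝ) := Nat.cast_nonneg _
    have hYX : X ≤ Y * X := le_mul_of_one_le_left (by linarith) hY
    have hYX' : Y ≤ Y * X := le_mul_of_one_le_right (by linarith) hX1
    have h5 : C2 * 2 ^ s ≤ C2 * (Y * X) := mul_le_mul_of_nonneg_left (h1.trans hYX) hC2.le
    have h6 : Real.log 2 * (C1 * s) ≤ C1 * (Y * X) := by
      calc Real.log 2 * (C1 * s) ≤ 1 * (C1 * s) := mul_le_mul_of_nonneg_right hl1 (by positivity)
        _ = C1 * s := one_mul _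
        _ ≤ C1 * (Y * X) := mul_le_mul_of_nonneg_left (hsX.trans hYX) hC1.le
    have h7 : Real.log 2 * Y ≤ Y * X := by
      calc Real.log 2 * Y ≤ 1 * Y := mul_le_mul_of_nonneg_right hl1 (by linarith)
        _ ≤ Y * X := by linarith
    have h8 : s * Real.log 2 ≤ Y * X := by
      calc (s : ℝ) * Real.log 2 ≤ s * 1 := mul_le_mul_of_nonneg_left hl1 hs0
        _ ≤ Y * X := by linarith
    have h9 : (C1 + C2 + 2) * (Y * X) ≤ A * (Y * X) := mul_le_mul_of_nonneg_right hA (by linarith)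
    nlinarith
  have hc : 0 ≤ (2 : ℝ) ^ (C1 * (C0 : ℝ)) := by positivity
  calc Real.exp (C2 * 2 ^ s) * ((2 : ℝ) ^ (C1 * (C0 : ℝ)) * Real.exp (Real.log 2 * (C1 * s)) * C1 *
        (2 * Real.exp (-(n0 * Real.log 4)))) =
      2 * C1 * (2 : ℝ) ^ (C1 * (C0 : ℝ)) * (Real.exp (C2 * 2 ^ s) * Real.exp (Real.log 2 * (C1 * s)) *
        Real.exp (-(n0 * Real.log 4))) := by ring
    _ ≤ 2 * C1 * (2 : ℝ) ^ (C1 * (C0 : ℝ)) * (Real.exp (Real.log 2 * (-Y)) * Real.exp (-(s * Real.log 2))) :=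
        mul_le_mul_of_nonneg_left key (by positivity)
    _ = _ := by ring

/-- sum over the number of leaves -/
lemma sum_four (n0 : ℕ) : ∑' k : ℕ, ENNReal.ofReal ((1 / 4) ^ (n0 + k)) ≤ ENNReal.ofReal (2 * (1 / 4) ^ n0) := by
  have h4 : ∀ k : ℕ, ENNReal.ofReal ((1 / 4 : ℝ) ^ (n0 + k)) = ENNReal.ofReal ((1 / 4) ^ n0) * ENNReal.ofReal ((1 / 4) ^ k) := by
    intro k
    rw [pow_add, ENNReal.ofReal_mul (by positivity)]
  rw [tsum_congr h4, ENNReal.tsum_mul_left, mul_comm (2 : ℝ), ENNReal.ofReal_mul (by positivity)]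
  refine mul_le_mul_right ?_ _
  have h5 : ∑' k : ℕ, ENNReal.ofReal ((1 / 4 : ℝ) ^ k) = ENNReal.ofReal (∑' k : ℕ, (1 / 4 : ℝ) ^ k) :=
    (ENNReal.ofReal_tsum_of_nonneg (f := fun k : ℕ => (1 / 4 : ℝ) ^ k) (fun k => pow_nonneg (by norm_num) k)
      (summable_geometric_of_lt_one (by norm_num) (by norm_num))).symm
  rw [h5, tsum_geometric_of_lt_one (by norm_num) (by norm_num)]
  exact ENNReal.ofReal_le_ofReal (by norm_num)

lemma sum_half : ∑' s : ℕ, ENNReal.ofReal ((1 / 2 : ℝ) ^ s) = ENNReal.ofReal 2 := by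
  have h5 : ∑' k : ℕ, ENNReal.ofReal ((1 / 2 : ℝ) ^ k) = ENNReal.ofReal (∑' k : ℕ, (1 / 2 : ℝ) ^ k) :=
    (ENNReal.ofReal_tsum_of_nonneg (f := fun k : ℕ => (1 / 2 : ℝ) ^ k) (fun k => pow_nonneg (by norm_num) k)
      (summable_geometric_of_lt_one (by norm_num) (by norm_num))).symm
  rw [h5, tsum_geometric_of_lt_one (by norm_num) (by norm_num)]
  norm_num

lemma gf_iU {ι : Type*} (C : ι → Set (List Bool)) : gf (⋃ i, C i) ≤ ∑' i, gf (C i) := by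
  unfold gf
  exact ENNReal.tsum_iUnion_le_tsum _ _

end CT

open CT in
/-- M7, direction true -/
theorem crowd_true_of (hcrowd : ∀ Λ : ℝ, 1 ≤ Λ → ∃ (A C : ℝ) (b0 : ℕ), 1 ≤ A ∧ 0 < C ∧ 1 ≤ b0 ∧ ∀ (L b m : ℕ), b0 ≤ b →
    b ≤ L + 2 → gf {t | t ∈ BL L ∧ ∃ u e, Lf false b t m u e ∧ A * nb b t ≤ m ∧
      (dbl (2 ^ (b - 1)) (lws t e 1 (m - 2)) : ℝ) ≤ Λ * m} ≤
      ENNReal.ofReal (Ub L * ((2 : ℝ) ^ (C * ((L : ℝ) + 3 - b)) * C / 4 ^ m)))
    (hemb : ∃ (C0 : ℕ) (C : ℝ), 1 ≤ C0 ∧ 0 < C ∧ ∀ (L b : ℕ) (G : Set (List Bool)), C0 ≤ b → b ≤ L + 2 →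
    (∀ t ∈ G, t ∈ BL L) → ∃ G' : Set (List Bool), gf G ≤ ENNReal.ofReal (Real.exp (C * (2 : ℝ) ^ ((L : ℝ) + 3 - b))) * gf G' ∧
      ∀ w ∈ G', w ∈ BL (L + C0) ∧ ∃ t ∈ G, ∃ a : ℕ, Emb b t w a ∧
        ∀ c, b ≤ c → (nb c w : ℝ) ≤ 16 * nb c t + C0 * ((2 : ℝ) ^ L / 2 ^ c + 1) ∧ nb c t ≤ 16 * nb c w) :
    ∃ (A C : ℝ) (b0 : ℕ), 1 ≤ A ∧ 0 < C ∧ 1 ≤ b0 ∧ ∀ (L b1 : ℕ) (Y : ℝ), b0 ≤ b1 → b1 ≤ L → 1 ≤ Y →
    gf {t | t ∈ BL L ∧ ∃ b m u e, b1 ≤ b ∧ b ≤ L + 2 ∧ Lf true b t m u e ∧ A * DD L Y b t < m} ≤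
      ENNReal.ofReal (Ub L * (C * (2 : ℝ) ^ (-Y))) := by
  obtain ⟨C0, C2, hC0, hC2, hemb⟩ := hemb
  obtain ⟨C5, hC5⟩ : ∃ C5 : ℝ, C5 = 16 + (65 + 5 * C0) * (5 / 2) ^ C0 := ⟨_, rfl⟩
  have hC5p : 1 ≤ C5 := by
    rw [hC5]
    have : 0 ≤ (65 + 5 * (C0 : ℝ)) * (5 / 2) ^ C0 := by positivity
    linarith
  obtain ⟨A1, C1, b0, hA1, hC1, hb0, hcr⟩ := hcrowd (2 + 800 * C5) (by linarith)
  obtain ⟨A, hA⟩ : ∃ A, A = A1 * C5 + C1 + C2 + 2 := ⟨_, rfl⟩
  have hA1C : 1 ≤ A1 * C5 := by nlinarith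
  have hAp : 1 ≤ A := by linarith
  refine ⟨A, 2 ^ C0 * (2 * C1 * (2 : ℝ) ^ (C1 * (C0 : ℝ))) * 2, max b0 C0, hAp, by positivity, by omega, ?_⟩
  intro L b1 Y hb1 hb1L hY
  -- the sets of the scales b = L + 3 - s
  let G : ℕ → Set (List Bool) := fun s => {t | t ∈ BL L ∧ (b1 ≤ L + 3 - s ∧ L + 3 - s ≤ L + 1 ∧ s ≤ L + 3) ∧
    (∃ m u e, Lf true (L + 3 - s) t m u e ∧ A * DD L Y (L + 3 - s) t < m) ∧
    ∀ c, L + 3 - s + 1 ≤ c → c ≤ L + 2 → ∃ m u e, Lf true c t m u e ∧ (m : ℝ) ≤ A * DD L Y c t}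
  have hG : {t | t ∈ BL L ∧ ∃ b m u e, b1 ≤ b ∧ b ≤ L + 2 ∧ Lf true b t m u e ∧ A * DD L Y b t < m} ⊆ ⋃ s, G s := by
    rintro t ⟨ht, hex⟩
    classical
    -- the largest violated scale
    let P : ℕ → Prop := fun b => b1 ≤ b ∧ ∃ m u e, Lf true b t m u e ∧ A * DD L Y b t < m
    have hP : ∃ b, b ≤ L + 2 ∧ P b := by
      obtain ⟨b, m, u, e, h1, h2, h3, h4⟩ := hex
      exact ⟨b, h2, h1, m, u, e, h3, h4⟩
    obtain ⟨b, hb, hPb⟩ := hP
    have hgP : P (Nat.findGreatest P (L + 2)) := Nat.findGreatest_spec hb hPb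
    have hgl : Nat.findGreatest P (L + 2) ≤ L + 2 := Nat.findGreatest_le _
    obtain ⟨g, hg⟩ : ∃ g, g = Nat.findGreatest P (L + 2) := ⟨_, rfl⟩
    rw [← hg] at hgP hgl
    have hmax : ∀ c, g + 1 ≤ c → c ≤ L + 2 → ∃ m u e, Lf true c t m u e ∧ (m : ℝ) ≤ A * DD L Y c t := by
      intro c hc1 hc2
      obtain ⟨m, u, e, h1⟩ := lf_exists true c t
      refine ⟨m, u, e, h1, ?_⟩
      by_contra hcon
      have h2 : P c := ⟨by have := hgP.1; omega, m, u, e, h1, not_le.1 hcon⟩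
      have h3 := Nat.le_findGreatest hc2 h2
      omega
    obtain ⟨hg1, m, u, e, h1, h2⟩ := hgP
    have hgL : g ≤ L + 1 := by
      by_contra hcon
      have h3 : m = 0 := lf_top ht.2 (by omega) h1
      have h4 : 0 ≤ DD L Y g t := CD.DD_nonneg (by linarith) t
      rw [h3] at h2
      have h5 : 0 ≤ A * DD L Y g t := by positivity
      push_cast at h2
      linarith
    refine Set.mem_iUnion.2 ⟨L + 3 - g, ht, ?_⟩
    have e1 : L + 3 - (L + 3 - g) = g := by omega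
    rw [e1]
    exact ⟨⟨hg1, hgL, by omega⟩, ⟨m, u, e, h1, h2⟩, hmax⟩
  refine (gf_mono hG).trans ((gf_iU _).trans ?_)
  -- one scale
  have key : ∀ s, gf (G s) ≤ ENNReal.ofReal (Ub L * (2 ^ C0 * (2 * C1 * (2 : ℝ) ^ (C1 * (C0 : ℝ))) * (2 : ℝ) ^ (-Y))) *
      ENNReal.ofReal ((1 / 2) ^ s) := by
    intro s
    have hUL := Ub_pos L
    by_cases hs : b1 ≤ L + 3 - s ∧ L + 3 - s ≤ L + 1 ∧ s ≤ L + 3
    swap
    · have : G s = ∅ := by
        ext t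
        simp only [G, Set.mem_ofPred_eq, Set.mem_empty_iff_false, iff_false]
        exact fun h => hs h.2.1
      rw [this]
      unfold gf
      simp
    obtain ⟨hs1, hs2, hs3⟩ := hs
    obtain ⟨b, hb⟩ : ∃ b, b = L + 3 - s := ⟨_, rfl⟩
    have hsb : s = L + 3 - b := by omega
    have hb0b : b0 ≤ b := le_trans (le_max_left _ _) (hb1.trans (by omega))
    have hC0b : C0 ≤ b := le_trans (le_max_right _ _) (hb1.trans (by omega))
    obtain ⟨G', hG1, hG2⟩ := hemb L b (G s) hC0b (by omega) (fun t ht => ht.1)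
    obtain ⟨n0, hn0⟩ : ∃ n0 : ℕ, n0 = ⌈A * (Y * (5 / 2 : ℝ) ^ s)⌉₊ := ⟨_, rfl⟩
    have hn0' : A * (Y * (5 / 2 : ℝ) ^ s) ≤ n0 := by
      rw [hn0]
      exact Nat.le_ceil _
    -- the images
    have hsub : G' ⊆ ⋃ k : ℕ, {w | w ∈ BL (L + C0) ∧ ∃ u e, Lf false b w (n0 + k) u e ∧
      A1 * nb b w ≤ ((n0 + k : ℕ) : ℝ) ∧
      (dbl (2 ^ (b - 1)) (lws w e 1 (n0 + k - 2)) : ℝ) ≤ (2 + 800 * C5) * ((n0 + k : ℕ) : ℝ)} := by
      intro w hw
      obtain ⟨hw1, t, ht, a, hE, hnb⟩ := hG2 w hw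
      obtain ⟨ht0, _, ⟨m, u, e, hm1, hm2⟩, hmax⟩ := ht
      rw [← hb] at hm1 hm2 hmax
      obtain ⟨m', u', e', hm'⟩ := lf_exists false b w
      have hDt : Y * (5 / 2 : ℝ) ^ (L + 3 - b) ≤ DD L Y b t := CD.DD_low t
      rw [← hsb] at hDt
      have hD1 : 1 ≤ DD L Y b t := by
        have h1 : (1 : ℝ) ≤ (5 / 2 : ℝ) ^ s := one_le_pow₀ (by norm_num)
        nlinarith
      have hmm : m ≤ m' := by
        have h1 := CT.emb_ge hE hm1 hm'
        have h2 : (1 : ℝ) < m := by nlinarith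
        have h3 : 1 < m := by exact_mod_cast h2
        omega
      have hmm' : (m : ℝ) ≤ m' := by exact_mod_cast hmm
      have hAD : A * DD L Y b t ≤ m' := by linarith
      have hDD : DD (L + C0) Y b w ≤ C5 * DD L Y b t := by
        rw [hC5]
        exact DD_wt hY ht0.2 (by omega) fun i => (hnb (b + i) (by omega)).1
      have hnbw : (nb b w : ℝ) ≤ DD (L + C0) Y b w := by
        unfold DD
        have h1 : 0 < L + C0 + 3 - b := by omega
        have h2 : (5 / 2 : ℝ) ^ 0 * nb (b + 0) w ≤ ∑ i ∈ range (L + C0 + 3 - b), (5 / 2 : ℝ) ^ i * nb (b + i) w :=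
          Finset.single_le_sum (f := fun i => (5 / 2 : ℝ) ^ i * (nb (b + i) w : ℝ)) (fun i _ => by positivity)
            (Finset.mem_range.2 h1)
        have h3 : 0 ≤ Y * (5 / 2 : ℝ) ^ (L + C0 + 3 - b) := by positivity
        rw [pow_zero, one_mul, add_zero] at h2
        linarith
      have hnm : n0 ≤ m' := by
        rw [hn0]
        apply Nat.ceil_le.2
        refine le_trans ?_ hAD
        gcongr
      refine Set.mem_iUnion.2 ⟨m' - n0, ?_⟩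
      rw [Nat.add_sub_cancel' hnm]
      refine ⟨hw1, u', e', hm', ?_, ?_⟩
      · calc A1 * nb b w ≤ A1 * (C5 * DD L Y b t) := by
              gcongr
              linarith
          _ = A1 * C5 * DD L Y b t := by ring
          _ ≤ A * DD L Y b t := by
              gcongr
              linarith
          _ ≤ m' := hAD
      · -- doublings
        have hcc : ∀ c, b + 1 ≤ c → c ≤ L + C0 + 2 → ∃ m u e, Lf false c w m u e ∧
            (m : ℝ) ≤ 16 * (A + 4) * DD (L + C0) Y c w := by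
          intro c hc1 hc2
          obtain ⟨mc, uc, ec, hmc⟩ := lf_exists false c w
          refine ⟨mc, uc, ec, hmc, ?_⟩
          have hDlow : Y * (5 / 2 : ℝ) ^ (L + C0 + 3 - c) ≤ DD (L + C0) Y c w := CD.DD_low w
          have h1 : (1 : ℝ) ≤ (5 / 2 : ℝ) ^ (L + C0 + 3 - c) := one_le_pow₀ (by norm_num)
          have hDc : 1 ≤ DD (L + C0) Y c w := by nlinarith
          by_cases hcL : c ≤ L + 2
          · obtain ⟨mt, ut, et, hmt1, hmt2⟩ := hmax c hc1 hcL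
            have h2 := CT.emb_le (b := b) (by omega) hE hmt1 hmc
            have h3 : DD L Y c t ≤ 16 * DD (L + C0) Y c w :=
              DD_tw (by linarith) fun i => (hnb (c + i) (by omega)).2
            have h4 : (mc : ℝ) ≤ max (mt : ℝ) 1 + 4 := by exact_mod_cast h2
            have h5 : A * DD L Y c t ≤ A * (16 * DD (L + C0) Y c w) := by gcongr
            rcases le_total (mt : ℝ) 1 with h6 | h6
            · rw [max_eq_right h6] at h4
              nlinarith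
            · rw [max_eq_left h6] at h4
              nlinarith
          · obtain ⟨mt, ut, et, hmt⟩ := lf_exists true c t
            have h2 := CT.emb_le (b := b) (by omega) hE hmt hmc
            have h3 : mt = 0 := lf_top ht0.2 (by omega) hmt
            have h4 : mc ≤ 5 := by omega
            have h5 : (mc : ℝ) ≤ 5 := by exact_mod_cast h4
            nlinarith
        have h1 := dbl_DD (A := 16 * (A + 4)) hw1.2 (by linarith) hY (by omega) (by omega) hm' hcc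
        have h2 : 10 * (16 * (A + 4)) * DD (L + C0) Y b w ≤ 10 * (16 * (A + 4)) * (C5 * DD L Y b t) := by gcongr
        have h3 : 10 * (16 * (A + 4)) * (C5 * DD L Y b t) ≤ 800 * C5 * (A * DD L Y b t) := by
          have h4 : 10 * (16 * (A + 4)) ≤ 800 * A := by linarith
          calc 10 * (16 * (A + 4)) * (C5 * DD L Y b t) ≤ 800 * A * (C5 * DD L Y b t) := by gcongr
            _ = _ := by ring
        have h4 : 800 * C5 * (A * DD L Y b t) ≤ 800 * C5 * m' := by gcongr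
        linarith
    have hUL' : Ub (L + C0) ≤ 2 ^ C0 * Ub L := Ub_add L C0
    have hsum : gf G' ≤ ENNReal.ofReal (2 ^ C0 * Ub L * ((2 : ℝ) ^ (C1 * ((s : ℝ) + C0)) * C1)) *
        ENNReal.ofReal (2 * (1 / 4) ^ n0) := by
      refine (gf_mono hsub).trans ((gf_iU _).trans ?_)
      refine le_trans ?_ (mul_le_mul_right (sum_four n0) _)
      rw [← ENNReal.tsum_mul_left]
      refine ENNReal.tsum_le_tsum fun k => ?_
      rw [← ENNReal.ofReal_mul (by positivity)]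
      refine (hcr (L + C0) b (n0 + k) hb0b (by omega)).trans (ENNReal.ofReal_le_ofReal ?_)
      have e1 : (((L + C0 : ℕ) : ℝ) + 3 - b) = (s : ℝ) + C0 := by
        rw [hsb, Nat.cast_sub (by omega)]
        push_cast
        ring
      rw [e1]
      have e2 : (1 / 4 : ℝ) ^ (n0 + k) = 1 / 4 ^ (n0 + k) := by rw [one_div, one_div, inv_pow]
      rw [e2]
      calc Ub (L + C0) * ((2 : ℝ) ^ (C1 * ((s : ℝ) + C0)) * C1 / 4 ^ (n0 + k)) ≤
            (2 ^ C0 * Ub L) * ((2 : ℝ) ^ (C1 * ((s : ℝ) + C0)) * C1 / 4 ^ (n0 + k)) := by gcongr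
        _ = _ := by ring
    refine hG1.trans ((mul_le_mul_right hsum _).trans ?_)
    rw [← ENNReal.ofReal_mul (by positivity), ← ENNReal.ofReal_mul (by positivity), ← ENNReal.ofReal_mul (by positivity)]
    apply ENNReal.ofReal_le_ofReal
    have e1 : ((L : ℝ) + 3 - b) = (s : ℝ) := by
      rw [hsb, Nat.cast_sub (by omega)]
      push_cast
      ring
    rw [e1]
    have h1 := scale_num (C0 := C0) hC1 hC2 hY (by linarith : C1 + C2 + 2 ≤ A) hn0'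
    calc Real.exp (C2 * (2 : ℝ) ^ (s : ℝ)) * (2 ^ C0 * Ub L * ((2 : ℝ) ^ (C1 * ((s : ℝ) + C0)) * C1) *
          (2 * (1 / 4) ^ n0)) =
        2 ^ C0 * Ub L * (Real.exp (C2 * (2 : ℝ) ^ (s : ℝ)) * ((2 : ℝ) ^ (C1 * ((s : ℝ) + C0)) * C1 *
          (2 * (1 / 4) ^ n0))) := by ring
      _ ≤ 2 ^ C0 * Ub L * (2 * C1 * (2 : ℝ) ^ (C1 * (C0 : ℝ)) * (2 : ℝ) ^ (-Y) * (1 / 2) ^ s) := by gcongr
      _ = _ := by ring
  refine (ENNReal.tsum_le_tsum key).trans ?_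
  rw [ENNReal.tsum_mul_left, sum_half, ← ENNReal.ofReal_mul (by have := Ub_pos L; positivity)]
  apply ENNReal.ofReal_le_ofReal
  apply le_of_eq
  ring

end SDN

end HexObs
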