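import Pool.Agent.SDN.FillA

/-!
SDN, the filling step: the bound for the next leaf behind I ++ M.
-/

set_option autoImplicit false

namespace HexObs

open Finset TS

open scoped ENNReal

open Rec8 (sw mb)

namespace SDN

namespace Fl

/-- the relation of the kernel, as a set of pieces -/
def KP1 (D : ℕ) (I M X : List Bool) (r : ℕ) : Set (List Bool) := {P | P ∈ Irr r ∧ ∃ c : Bool, KRel D I P M ((!c) :: c :: X)}

theorem At_K {D N : ℕ} {W : Set (List Bool)} {R : List Bool → List Bool → Prop} (hR : RNb R) {i m n r : ℕ}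
    {I M X P Y : List Bool} (hI : I ∈ Brd i) (hM : M ∈ Brd m) (hX : X ∈ Brd n) (hP : P ∈ Irr r) (hY : Y ∈ BU)
    (h : X ++ (P ++ Y) ∈ At D N W R (I ++ M)) : P ∈ KP1 D I M X r := by
  obtain ⟨y, hy⟩ := hY
  exact ⟨hP, RT_KRel hR hI hM hX hP.1 hy (BrR_sub_HB h.1) h.2.2⟩

theorem QQ_BU {j : ℕ} {Q : List Bool} (h : Q ∈ QQ j) : Q ∈ BU := by
  obtain ⟨m, -, h⟩ := h
  exact ⟨m, h⟩

/-- in-part of out_dec: P is the piece over the in-level and over the out-level -/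
theorem o1_le {D N k e j1 : ℕ} (hj : j1 + 3 ≤ k) (hD : 2 ^ (k + 4) ≤ D) {W : Set (List Bool)}
    {R : List Bool → List Bool → Prop} (hR : RNb R) {i m0 : ℕ} {I M : List Bool} (hI : I ∈ Brd i) (hM : M ∈ Brd m0)
    (Φ : List Bool → ℝ≥0∞) (θ : List Bool → ℝ≥0∞)
    (hθ : ∀ r P, P ∈ Irr r → sw (QQ j1) (fun Q => Φ (P ++ Q)) ≤ θ P) :
    (∑' r : ℕ, if 2 ^ (e - 1) < r then sw (Irr r) (fun P => sw (QQ j1) (fun Q =>
      (∑' n : ℕ, mu k n r * gf {X | X ∈ Brd n ∧ X ++ (P ++ Q) ∈ At D N W R (I ++ M)}) * Φ (P ++ Q))) else 0) ≤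
      ∑' n : ℕ, ∑' r : ℕ, (if 2 ^ (k - 1) < r then mu k n r else 0) * sw (Brd n) (fun X => sw (KP1 D I M X r) θ) := by
  classical
  have hpk : (2 : ℕ) ^ (k + 4) = 8 * 2 ^ (k + 1) := by ring
  have hpj : (2 : ℕ) ^ (j1 + 1) ≤ 2 ^ (k + 1) := Nat.pow_le_pow_right (by norm_num) (by omega)
  have hp1 : (2 : ℕ) ^ (k - 1) ≤ 2 ^ (k + 1) := Nat.pow_le_pow_right (by norm_num) (by omega)
  have hstep : ∀ r P, P ∈ Irr r → sw (QQ j1) (fun Q =>
      (∑' n : ℕ, mu k n r * gf {X | X ∈ Brd n ∧ X ++ (P ++ Q) ∈ At D N W R (I ++ M)}) * Φ (P ++ Q)) ≤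
      ∑' n : ℕ, (if 2 ^ (k - 1) < r then mu k n r else 0) * sw (Brd n) (fun X => (if P ∈ KP1 D I M X r then θ P else 0)) := by
    intro r P hP
    have h1 : ∀ n : ℕ, ∀ Q ∈ QQ j1, mu k n r * gf {X | X ∈ Brd n ∧ X ++ (P ++ Q) ∈ At D N W R (I ++ M)} ≤
        (if 2 ^ (k - 1) < r then mu k n r else 0) * sw (Brd n) (fun X => (if P ∈ KP1 D I M X r then 1 else 0)) := by
      intro n Q hQ
      by_cases hn : 2 ^ (k + 1) ≤ n
      · rw [mu_eq_zero hn, zero_mul]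
        exact zero_le
      by_cases hr : 2 ^ (k - 1) < r
      · rw [if_pos hr]
        refine mul_le_mul_right ?_ _
        rw [← Rec8.sw_one, Rec8.sw_and]
        refine Rec8.sw_mono' fun X hX => ?_
        by_cases hA : X ++ (P ++ Q) ∈ At D N W R (I ++ M)
        · rw [if_pos hA, if_pos (At_K hR hI hM hX hP (QQ_BU hQ) hA)]
        · rw [if_neg hA]
          exact zero_le
      · rw [if_neg hr, zero_mul]
        have h2 : {X | X ∈ Brd n ∧ X ++ (P ++ Q) ∈ At D N W R (I ++ M)} = ∅ := by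
          rw [Set.eq_empty_iff_forall_notMem]
          rintro X ⟨hX, ⟨h, h1, h2, h3⟩, -⟩
          obtain ⟨m, hm, hQm⟩ := hQ
          have h4 := Brd_height h3 (Brd_append hX (Brd_append hP.1 hQm))
          omega
        rw [h2]
        unfold gf
        rw [tsum_empty, mul_zero]
    calc sw (QQ j1) (fun Q => (∑' n : ℕ, mu k n r * gf {X | X ∈ Brd n ∧ X ++ (P ++ Q) ∈ At D N W R (I ++ M)}) *
          Φ (P ++ Q))
        ≤ sw (QQ j1) (fun Q => (∑' n : ℕ, (if 2 ^ (k - 1) < r then mu k n r else 0) * sw (Brd n) (fun X =>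
          (if P ∈ KP1 D I M X r then 1 else 0))) * Φ (P ++ Q)) :=
          Rec8.sw_mono' fun Q hQ => mul_le_mul_left (ENNReal.tsum_le_tsum fun n => h1 n Q hQ) _
      _ = (∑' n : ℕ, (if 2 ^ (k - 1) < r then mu k n r else 0) * sw (Brd n) (fun X =>
          (if P ∈ KP1 D I M X r then 1 else 0))) * sw (QQ j1) (fun Q => Φ (P ++ Q)) := Rec8.sw_mul_left _ _ _
      _ ≤ (∑' n : ℕ, (if 2 ^ (k - 1) < r then mu k n r else 0) * sw (Brd n) (fun X =>
          (if P ∈ KP1 D I M X r then 1 else 0))) * θ P := mul_le_mul_right (hθ r P hP) _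
      _ = _ := by
          rw [← ENNReal.tsum_mul_right]
          refine tsum_congr fun n => ?_
          rw [mul_assoc, ← Rec8.sw_mul_right]
          congr 1
          refine Rec8.sw_congr fun X _ => ?_
          split_ifs <;> simp
  calc (∑' r : ℕ, if 2 ^ (e - 1) < r then sw (Irr r) (fun P => sw (QQ j1) (fun Q =>
      (∑' n : ℕ, mu k n r * gf {X | X ∈ Brd n ∧ X ++ (P ++ Q) ∈ At D N W R (I ++ M)}) * Φ (P ++ Q))) else 0)
      ≤ ∑' r : ℕ, sw (Irr r) (fun P => ∑' n : ℕ, (if 2 ^ (k - 1) < r then mu k n r else 0) *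
          sw (Brd n) (fun X => (if P ∈ KP1 D I M X r then θ P else 0))) := by
        refine ENNReal.tsum_le_tsum fun r => ?_
        by_cases hr : 2 ^ (e - 1) < r
        · rw [if_pos hr]
          exact Rec8.sw_mono' fun P hP => hstep r P hP
        · rw [if_neg hr]
          exact zero_le
    _ = ∑' r : ℕ, ∑' n : ℕ, (if 2 ^ (k - 1) < r then mu k n r else 0) * sw (Brd n) (fun X => sw (KP1 D I M X r) θ) := by
        refine tsum_congr fun r => ?_
        rw [NX_sw_tsum]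
        refine tsum_congr fun n => ?_
        rw [Rec8.sw_mul_left, Rec8.sw_comm]
        congr 1
        refine Rec8.sw_congr fun X _ => ?_
        have h3 : KP1 D I M X r = {P | P ∈ Irr r ∧ P ∈ KP1 D I M X r} := by
          ext P
          exact ⟨fun h => ⟨h.1, h⟩, fun h => h.2⟩
        conv_rhs => rw [h3]
        rw [Rec8.sw_and]
    _ = _ := ENNReal.tsum_comm

/-- the in-level lies in front of the out-giant -/
theorem o2_le {D N k e j1 : ℕ} {W : Set (List Bool)}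
    {R : List Bool → List Bool → Prop} (hR : RNb R) {i m0 : ℕ} {I M : List Bool} (hI : I ∈ Brd i) (hM : M ∈ Brd m0)
    (Φ : List Bool → ℝ≥0∞) :
    (∑' r : ℕ, if 2 ^ (e - 1) < r then sw (Irr r) (fun P => sw (QQ j1) (fun Q =>
      (∑' n : ℕ, ∑' r' : ℕ, mu k n r' * sw (Brd n) (fun X => sw (Irr r') (fun P' =>
        gf {Z | Z ∈ BU ∧ X ++ (P' ++ (Z ++ (P ++ Q))) ∈ At D N W R (I ++ M)}))) * Φ (P ++ Q))) else 0) ≤
      ENNReal.ofReal (UU N) * ck D k I M * ∑' r : ℕ, if 2 ^ (e - 1) < r then sw (Irr r) (fun P =>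
        sw (QQ j1) (fun Q => Φ (P ++ Q))) else 0 := by
  classical
  rw [← ENNReal.tsum_mul_left]
  refine ENNReal.tsum_le_tsum fun r => ?_
  split_ifs
  · rw [← Rec8.sw_mul_left]
    refine Rec8.sw_mono' fun P hP => ?_
    rw [← Rec8.sw_mul_left]
    refine Rec8.sw_mono' fun Q hQ => mul_le_mul_left ?_ _
    unfold ck
    rw [← ENNReal.tsum_mul_left]
    refine ENNReal.tsum_le_tsum fun n => ?_
    rw [← ENNReal.tsum_mul_left]
    refine ENNReal.tsum_le_tsum fun r' => ?_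
    rw [mul_left_comm]
    refine mul_le_mul_right ?_ _
    rw [← Rec8.sw_mul_left]
    refine Rec8.sw_mono' fun X hX => ?_
    have h1 : gf {P' | P' ∈ Irr r' ∧ ∃ c : Bool, KRel D I P' M ((!c) :: c :: X)} =
        sw (Irr r') (fun P' => if P' ∈ KP1 D I M X r' then 1 else 0) := by
      rw [← Rec8.sw_one]
      have h2 : {P' | P' ∈ Irr r' ∧ ∃ c : Bool, KRel D I P' M ((!c) :: c :: X)} =
          {P' | P' ∈ Irr r' ∧ P' ∈ KP1 D I M X r'} := by
        ext P'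
        exact ⟨fun h => ⟨h.1, h⟩, fun h => h.2⟩
      rw [h2, Rec8.sw_and]
    rw [h1, ← Rec8.sw_mul_left]
    refine Rec8.sw_mono' fun P' hP' => ?_
    by_cases hK : P' ∈ KP1 D I M X r'
    · rw [if_pos hK, mul_one]
      refine (gf_mono ?_).trans (gf_BU_le N)
      rintro Z ⟨⟨z, hz⟩, ⟨⟨h, h1, h2, h3⟩, -⟩⟩
      obtain ⟨m, -, hQm⟩ := hQ
      have h4 := Brd_height h3 (Brd_append hX (Brd_append hP'.1 (Brd_append hz (Brd_append hP.1 hQm))))
      exact ⟨z, by omega, hz⟩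
    · rw [if_neg hK, mul_zero]
      have h2 : {Z | Z ∈ BU ∧ X ++ (P' ++ (Z ++ (P ++ Q))) ∈ At D N W R (I ++ M)} = ∅ := by
        rw [Set.eq_empty_iff_forall_notMem]
        rintro Z ⟨⟨z, hz⟩, hA⟩
        obtain ⟨m, -, hQm⟩ := hQ
        exact hK (At_K hR hI hM hX hP' ⟨_, Brd_append hz (Brd_append hP.1 hQm)⟩ hA)
      rw [h2]
      unfold gf
      rw [tsum_empty]
  · exact zero_le

/-- the giants over the in-level of the window j1 -/
theorem in_giant {D N k e j1 : ℕ} (he : j1 + 3 ≤ e) (hek : e ≤ k) {W : Set (List Bool)}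
    {R : List Bool → List Bool → Prop} (hR : RNb R) {i m0 : ℕ} {I M : List Bool} (hI : I ∈ Brd i) (hM : M ∈ Brd m0)
    {Φ : List Bool → ℝ≥0∞} (hΦ : Hered Φ) (Θ : ℕ → List Bool → ℝ≥0∞)
    (hΘ : ∀ n r P, n ≤ 2 ^ (k + 1) → P ∈ Irr r →
      sw {Z | Z ∈ BU ∧ ∃ Y ∈ Brd n, Y ++ (P ++ Z) ∈ BrR D N} (fun Z => Φ (P ++ Z)) ≤ Θ r P) (n r : ℕ)
    (hnr : 2 ^ e < n + r) :
    mu j1 n r * sw (Brd n) (fun X => sw (Irr r) (fun P =>
      sw {Z | Z ∈ BU ∧ X ++ (P ++ Z) ∈ At D N W R (I ++ M)} (fun Z => Φ (X ++ (P ++ Z))))) ≤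
      (if 2 ^ (e - 1) < r ∧ n < 2 ^ (j1 + 1) then 1 else 0) * sw (Brd n) (fun X => sw (KP1 D I M X r) (fun P => Θ r P)) := by
  classical
  by_cases hn : 2 ^ (j1 + 1) ≤ n
  · rw [mu_eq_zero hn, zero_mul]
    exact zero_le
  have h4 : (2 : ℕ) ^ e = 2 * 2 ^ (e - 1) := by
    rw [← pow_succ']
    congr 1
    omega
  have h5 : (2 : ℕ) ^ (j1 + 1) ≤ 2 ^ (e - 1) := Nat.pow_le_pow_right (by norm_num) (by omega)
  have h6 : (2 : ℕ) ^ (j1 + 1) ≤ 2 ^ (k + 1) := Nat.pow_le_pow_right (by norm_num) (by omega)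
  rw [if_pos ⟨by omega, by omega⟩]
  refine mul_le_mul' ((mu_le_min j1 n r).trans (min_le_left _ _)) (Rec8.sw_mono' fun X hX => ?_)
  have h3 : KP1 D I M X r = {P | P ∈ Irr r ∧ P ∈ KP1 D I M X r} := by
    ext P
    exact ⟨fun h => ⟨h.1, h⟩, fun h => h.2⟩
  conv_rhs => rw [h3]
  rw [Rec8.sw_and]
  refine Rec8.sw_mono' fun P hP => ?_
  by_cases hK : P ∈ KP1 D I M X r
  · rw [if_pos hK]
    refine le_trans (Rec8.sw_mono ?_ ?_) (hΘ n r P (by omega) hP)
    · rintro Z ⟨hZ, hA⟩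
      exact ⟨hZ, X, hX, hA.1⟩
    · rintro Z _
      exact hΦ X ⟨n, hX⟩ _
  · rw [if_neg hK]
    have h2 : {Z | Z ∈ BU ∧ X ++ (P ++ Z) ∈ At D N W R (I ++ M)} = (∅ : Set (List Bool)) := by
      rw [Set.eq_empty_iff_forall_notMem]
      rintro Z ⟨hZ, hA⟩
      exact hK (At_K hR hI hM hX hP hZ hA)
    rw [h2]
    unfold sw
    rw [tsum_empty]

/-- the bound for the leaves of W behind I ++ M -/
theorem leaf_bound {D N k e j1 : ℕ} (he : j1 + 3 ≤ e) (hek : e ≤ k) (hD : 2 ^ (k + 4) ≤ D) {W : Set (List Bool)}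
    {R : List Bool → List Bool → Prop} (hR : RNb R) {i m0 : ℕ} {I M : List Bool} (hI : I ∈ Brd i) (hM : M ∈ Brd m0)
    {Φ : List Bool → ℝ≥0∞} (hΦ : Hered Φ) {ε : ℝ} (hW : EZ D N e W ε) (Θ : ℕ → List Bool → ℝ≥0∞)
    (hΘ : ∀ n r P, n ≤ 2 ^ (k + 1) → P ∈ Irr r →
      sw {Z | Z ∈ BU ∧ ∃ Y ∈ Brd n, Y ++ (P ++ Z) ∈ BrR D N} (fun Z => Φ (P ++ Z)) ≤ Θ r P)
    (θ : List Bool → ℝ≥0∞) (hθ : ∀ r P, P ∈ Irr r → sw (QQ j1) (fun Q => Φ (P ++ Q)) ≤ θ P) :
    sw (At D N W R (I ++ M)) Φ ≤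
      ((∑' n : ℕ, ∑' r : ℕ, (if 2 ^ (e - 1) < r ∧ n < 2 ^ (j1 + 1) then 1 else 0) *
          sw (Brd n) (fun X => sw (KP1 D I M X r) (fun P => Θ r P))) +
        (∑' n : ℕ, ∑' r : ℕ, (if 2 ^ (k - 1) < r then mu k n r else 0) *
          sw (Brd n) (fun X => sw (KP1 D I M X r) θ)) +
        ENNReal.ofReal (UU N) * ck D k I M * (∑' r : ℕ, if 2 ^ (e - 1) < r then sw (Irr r) (fun P =>
          sw (QQ j1) (fun Q => Φ (P ++ Q))) else 0)) +
      ck D j1 I M * (ENNReal.ofReal ε * ∑' m : ℕ, ∑' r : ℕ, mu j1 m r * sw (Irr r) (fun P => sw (Brd m) (fun Q =>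
        Φ (P ++ Q)))) := by
  classical
  obtain ⟨T1, hT1⟩ : ∃ T1, T1 = ∑' n : ℕ, ∑' r : ℕ, (if 2 ^ (e - 1) < r ∧ n < 2 ^ (j1 + 1) then (1 : ℝ≥0∞) else 0) *
          sw (Brd n) (fun X => sw (KP1 D I M X r) (fun P => Θ r P)) := ⟨_, rfl⟩
  obtain ⟨T2, hT2⟩ : ∃ T2, T2 = ∑' n : ℕ, ∑' r : ℕ, (if 2 ^ (k - 1) < r then mu k n r else 0) *
          sw (Brd n) (fun X => sw (KP1 D I M X r) θ) := ⟨_, rfl⟩
  obtain ⟨T3, hT3⟩ : ∃ T3, T3 = ENNReal.ofReal (UU N) * ck D k I M * (∑' r : ℕ, if 2 ^ (e - 1) < r then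
    sw (Irr r) (fun P => sw (QQ j1) (fun Q => Φ (P ++ Q))) else 0) := ⟨_, rfl⟩
  rw [← hT1, ← hT2, ← hT3]
  have hpk : (2 : ℕ) ^ (k + 4) = 16 * 2 ^ k := by ring
  have hpj : (2 : ℕ) ^ (j1 + 1) ≤ 2 ^ k := Nat.pow_le_pow_right (by norm_num) (by omega)
  -- fixed out-level
  have hlev : ∀ l2 ∈ Finset.Ico (2 ^ j1) (2 ^ (j1 + 1)), sw (At D N W R (I ++ M)) Φ ≤
      (T1 + T2 + T3) + ck D j1 I M * (ENNReal.ofReal ε * ∑' y : ℕ × ℕ, TN5b_ind l2 y.1 y.2 *
        sw (Irr y.2) (fun P2 => sw (Brd y.1) (fun Q => Φ (P2 ++ Q)))) := by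
    intro l2 hl2
    rw [Finset.mem_Ico] at hl2
    obtain ⟨Ex, hEx⟩ : ∃ Ex : List Bool → Prop, Ex = fun g' => ∃ m r, (m ≤ l2 ∧ l2 < m + r ∧ 2 ^ e < m + r) ∧
      ∃ Z ∈ BU, ∃ P ∈ Irr r, ∃ Q ∈ Brd m, g' = Z ++ (P ++ Q) := ⟨_, rfl⟩
    obtain ⟨E2, hE2⟩ : ∃ E2, E2 = ENNReal.ofReal ε * ∑' y : ℕ × ℕ, TN5b_ind l2 y.1 y.2 *
        sw (Irr y.2) (fun P2 => sw (Brd y.1) (fun Q => Φ (P2 ++ Q))) := ⟨_, rfl⟩
    rw [← hE2]
    have hun : At D N W R (I ++ M) ⊆ {g' | g' ∈ At D N W R (I ++ M) ∧ Ex g'} ∪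
        {g' | g' ∈ At D N W R (I ++ M) ∧ ¬ Ex g'} := by
      intro g' hg'
      by_cases h : Ex g'
      · exact Or.inl ⟨hg', h⟩
      · exact Or.inr ⟨hg', h⟩
    have hA2 : sw {g' | g' ∈ At D N W R (I ++ M) ∧ Ex g'} Φ ≤ T2 + T3 := by
      have h1 := out_giant (D := D) (N := N) (e := e) he (W := W) (R := R) (t := I ++ M) hΦ hl2.2
      rw [hEx]
      refine h1.trans ?_
      have h2 := o1_le (N := N) (e := e) (j1 := j1) (by omega) hD (W := W) hR hI hM Φ θ hθ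
      have h3 := o2_le (D := D) (N := N) (k := k) (e := e) (j1 := j1) (W := W) hR hI hM Φ
      rw [hT2, hT3]
      refine le_trans ?_ (add_le_add h2 h3)
      rw [← ENNReal.tsum_add]
      refine ENNReal.tsum_le_tsum fun r => ?_
      split_ifs
      · rw [← Rec8.sw_add]
        refine Rec8.sw_mono' fun P hP => ?_
        rw [← Rec8.sw_add]
        refine Rec8.sw_mono' fun Q hQ => ?_
        rw [← add_mul]
        exact mul_le_mul_left (in_dec (by omega) hD hP hQ) _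
      · simp
    have hA3 : sw {g' | g' ∈ At D N W R (I ++ M) ∧ ¬ Ex g'} Φ ≤ T1 + ck D j1 I M * E2 := by
      have e1 : sw {g' | g' ∈ At D N W R (I ++ M) ∧ ¬ Ex g'} Φ =
          sw (BrR D N) (fun g' => if g' ∈ At D N W R (I ++ M) ∧ ¬ Ex g' then Φ g' else 0) := by
        have e2 := Rec8.sw_and (BrR D N) (fun g' => g' ∈ At D N W R (I ++ M) ∧ ¬ Ex g') Φ
        refine Eq.trans ?_ (e2.trans ?_)
        · congr 1
          ext g'
          exact ⟨fun h => ⟨h.1.1, h⟩, fun h => h.2⟩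
        · refine Rec8.sw_congr fun g' _ => ?_
          split_ifs <;> rfl
      rw [e1]
      refine (inR (j := j1) (by omega) _).trans ?_
      rw [hT1]
      unfold ck
      rw [← ENNReal.tsum_mul_right, ← ENNReal.tsum_add]
      refine ENNReal.tsum_le_tsum fun n => ?_
      rw [← ENNReal.tsum_mul_right, ← ENNReal.tsum_add]
      refine ENNReal.tsum_le_tsum fun r => ?_
      by_cases hnr : 2 ^ e < n + r
      · refine le_trans ?_ ((in_giant he hek hR hI hM (W := W) hΦ Θ hΘ n r hnr).trans le_self_add)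
        refine mul_le_mul_right (Rec8.sw_mono' fun X _ => Rec8.sw_mono' fun P _ => ?_) _
        rw [Rec8.sw_and BU, Rec8.sw_and BU]
        refine Rec8.sw_mono' fun Z _ => ?_
        by_cases h1 : X ++ (P ++ Z) ∈ At D N W R (I ++ M)
        · rw [if_pos h1.1, if_pos h1]
          split_ifs
          · exact le_rfl
          · exact zero_le
        · rw [if_neg h1]
          split_ifs with h2 h3
          · exact absurd h3.1 h1
          · exact le_rfl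
          · exact le_rfl
      · refine le_trans ?_ le_add_self
        rw [mul_assoc]
        refine mul_le_mul_right ?_ _
        rw [← Rec8.sw_mul_right]
        refine Rec8.sw_mono' fun X hX => ?_
        have h1 : gf {P | P ∈ Irr r ∧ ∃ c : Bool, KRel D I P M ((!c) :: c :: X)} * E2 =
            sw (Irr r) (fun P => if P ∈ KP1 D I M X r then E2 else 0) := by
          rw [← Rec8.sw_one, ← Rec8.sw_mul_right]
          have h2 : {P' | P' ∈ Irr r ∧ ∃ c : Bool, KRel D I P' M ((!c) :: c :: X)} =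
              {P' | P' ∈ Irr r ∧ P' ∈ KP1 D I M X r} := by
            ext P'
            exact ⟨fun h => ⟨h.1, h⟩, fun h => h.2⟩
          rw [h2, Rec8.sw_and]
          refine Rec8.sw_congr fun P _ => ?_
          simp only [one_mul]
        rw [h1]
        refine Rec8.sw_mono' fun P hP => ?_
        by_cases hK : P ∈ KP1 D I M X r
        · rw [if_pos hK]
          have h3 := no_giant (t := I ++ M) (R := R) he hek hD hΦ hW hl2.2 (not_lt.1 hnr) hX hP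
          rw [← hE2] at h3
          refine le_trans ?_ h3
          rw [Rec8.sw_and BU, Rec8.sw_and BU]
          refine Rec8.sw_mono' fun Z _ => ?_
          by_cases h4 : X ++ (P ++ Z) ∈ At D N W R (I ++ M) ∧ ¬ Ex (X ++ (P ++ Z))
          · rw [if_pos h4.1.1, if_pos h4, if_pos]
            refine ⟨h4.1, ?_⟩
            have h5 := h4.2
            rw [hEx] at h5
            exact h5
          · rw [if_neg h4]
            split_ifs <;> exact zero_le
        · rw [if_neg hK]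
          refine le_trans (Rec8.sw_mono' (Ψ := fun _ => 0) ?_) (le_of_eq (Rec8.sw_zero _))
          rintro Z ⟨hZ, -⟩
          rw [if_neg]
          rintro ⟨h4, -⟩
          exact hK (At_K hR hI hM hX hP hZ h4)
    calc sw (At D N W R (I ++ M)) Φ ≤ _ := TN5b_sw_union hun Φ
      _ ≤ (T2 + T3) + (T1 + ck D j1 I M * E2) := add_le_add hA2 hA3
      _ = _ := by ring
  -- average over the out-level
  have h1 : sw (At D N W R (I ++ M)) Φ - (T1 + T2 + T3) ≤
      (∑' x : Unit, mu j1 0 0 * (0 : ℝ≥0∞)) + ∑' y : ℕ × ℕ, mu j1 y.1 y.2 * (ck D j1 I M * (ENNReal.ofReal ε *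
        sw (Irr y.2) (fun P2 => sw (Brd y.1) (fun Q => Φ (P2 ++ Q))))) := by
    refine TN5b_avg j1 _ (fun _ : Unit => 0) (fun _ => 0) (fun _ => 0) (fun y : ℕ × ℕ => y.1) (fun y => y.2) _ ?_
    intro l2 hl2
    rw [tsub_le_iff_left]
    refine (hlev l2 hl2).trans (add_le_add le_rfl (le_trans (le_of_eq ?_) le_add_self))
    rw [← ENNReal.tsum_mul_left, ← ENNReal.tsum_mul_left]
    exact tsum_congr fun y => by ring
  rw [tsub_le_iff_left] at h1
  refine h1.trans (add_le_add le_rfl (le_of_eq ?_))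
  simp only [mul_zero, tsum_zero, zero_add]
  rw [ENNReal.tsum_prod', ← ENNReal.tsum_mul_left, ← ENNReal.tsum_mul_left]
  refine tsum_congr fun m => ?_
  rw [← ENNReal.tsum_mul_left, ← ENNReal.tsum_mul_left]
  exact tsum_congr fun r => by ring

end Fl

end SDN

end HexObs
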