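import Pool.Agent.SDN.Defs
import Pool.Agent.Saw39.MaxMoment

/-!
SDN, W10: the end.
-/

set_option autoImplicit false

namespace HexObs

namespace SDN

open Finset TS

open scoped ENNReal

private lemma w10_gf {S : Set (List Bool)} {n : ℕ} (h : ∀ t ∈ S, t.length = n) :
    gf S = (S.ncard : ℝ≥0∞) * ENNReal.ofReal (xc ^ n) := by
  have hfin : S.Finite := (List.finite_length_eq Bool n).subset h
  haveI := hfin.fintype
  have h1 : gf S = ∑' _ : S, ENNReal.ofReal (xc ^ n) := by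
    unfold gf
    apply tsum_congr
    intro t
    unfold wE
    rw [h t t.2]
  rw [h1, tsum_fintype, Finset.sum_const, Finset.card_univ, nsmul_eq_mul, ← Nat.card_eq_fintype_card,
    Nat.card_coe_set_eq]

private lemma w10_count {e0 c : ℝ} {L n K : ℕ}
    (hA : gf {t | t ∈ WL L ∧ (2 : ℝ) ^ ((2 - e0) * L) ≤ t.length} ≤ ENNReal.ofReal (Real.exp (-(2 : ℝ) ^ (c * L))))
    (hE : ((SawNu.WS SawNu.hexL n).filter (fun l => K * SawNu.S4 SawNu.hexRot l ≤ (4 : ℝ) ^ L)).card ≤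
      3 * {t | t ∈ WL L ∧ t.length = n}.ncard)
    (hC : 1 ≤ ((SawNu.WS SawNu.hexL n).card : ℝ) * xc ^ n) (hn : (2 : ℝ) ^ ((2 - e0) * L) ≤ n) :
    (((SawNu.WS SawNu.hexL n).filter (fun l => K * SawNu.S4 SawNu.hexRot l ≤ (4 : ℝ) ^ L)).card : ℝ) ≤
      3 * Real.exp (-(2 : ℝ) ^ (c * L)) * ((SawNu.WS SawNu.hexL n).card : ℝ) := by
  set S : Set (List Bool) := {t | t ∈ WL L ∧ t.length = n} with hS
  have h1 : gf S ≤ ENNReal.ofReal (Real.exp (-(2 : ℝ) ^ (c * L))) := by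
    refine le_trans ?_ hA
    apply gf_mono
    rintro t ⟨h2, h3⟩
    refine ⟨h2, ?_⟩
    rw [h3]
    exact hn
  rw [w10_gf (n := n) (fun t ht => ht.2)] at h1
  have hxn : 0 < xc ^ n := pow_pos xc_pos n
  have h2 : (S.ncard : ℝ) * xc ^ n ≤ Real.exp (-(2 : ℝ) ^ (c * L)) := by
    have h3 : ((S.ncard : ℝ≥0∞)) = ENNReal.ofReal (S.ncard : ℝ) := (ENNReal.ofReal_natCast _).symm
    rw [h3, ← ENNReal.ofReal_mul (Nat.cast_nonneg _)] at h1
    exact (ENNReal.ofReal_le_ofReal_iff (Real.exp_pos _).le).1 h1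
  have h4 : (((SawNu.WS SawNu.hexL n).filter (fun l => K * SawNu.S4 SawNu.hexRot l ≤ (4 : ℝ) ^ L)).card : ℝ) ≤
      3 * (S.ncard : ℝ) := by exact_mod_cast hE
  have h5 : (S.ncard : ℝ) ≤ Real.exp (-(2 : ℝ) ^ (c * L)) * ((SawNu.WS SawNu.hexL n).card : ℝ) := by
    have h6 : (0 : ℝ) ≤ S.ncard := Nat.cast_nonneg _
    have h7 : (0 : ℝ) ≤ ((SawNu.WS SawNu.hexL n).card : ℝ) := Nat.cast_nonneg _
    calc (S.ncard : ℝ) = (S.ncard : ℝ) * 1 := (mul_one _).symm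
      _ ≤ (S.ncard : ℝ) * (((SawNu.WS SawNu.hexL n).card : ℝ) * xc ^ n) := mul_le_mul_of_nonneg_left hC h6
      _ = ((S.ncard : ℝ) * xc ^ n) * ((SawNu.WS SawNu.hexL n).card : ℝ) := by ring
      _ ≤ _ := mul_le_mul_of_nonneg_right h2 h7
  linarith

/-- almost all walks leave the ball of radius n^(1/2+c): exponential bound -/
theorem ball_exp_of
    (hA : ∃ (e0 c : ℝ) (L0 : ℕ), 0 < e0 ∧ e0 < 1 ∧ 0 < c ∧ ∀ L : ℕ, L0 ≤ L →
      gf {t | t ∈ WL L ∧ (2 : ℝ) ^ ((2 - e0) * L) ≤ t.length} ≤ ENNReal.ofReal (Real.exp (-(2 : ℝ) ^ (c * L))))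
    (hE : ∃ K : ℕ, 1 ≤ K ∧ ∀ n L : ℕ, 1 ≤ n →
      ((SawNu.WS SawNu.hexL n).filter (fun l => K * SawNu.S4 SawNu.hexRot l ≤ (4 : ℝ) ^ L)).card ≤
        3 * {t | t ∈ WL L ∧ t.length = n}.ncard)
    (hC : ∀ n : ℕ, 1 ≤ ((SawNu.WS SawNu.hexL n).card : ℝ) * xc ^ n) :
    ∃ c : ℝ, 0 < c ∧ ∀ n : ℕ, 1 ≤ n →
      (((SawNu.WS SawNu.hexL n).filter (fun l => SawNu.S4 SawNu.hexRot l ≤ c * (n : ℝ) ^ (1 + c))).card : ℝ) ≤
        c⁻¹ * Real.exp (-(n : ℝ) ^ c) * ((SawNu.WS SawNu.hexL n).card : ℝ) := by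
  obtain ⟨e0, c, L0, he0, he1, hc, hA⟩ := hA
  obtain ⟨K, hK, hE⟩ := hE
  set n0 : ℝ := (2 : ℝ) ^ (2 * (L0 : ℝ)) with hn0
  have hn0p : 1 ≤ n0 := Real.one_le_rpow (by norm_num) (by positivity)
  have hKR : (1 : ℝ) ≤ K := by exact_mod_cast hK
  obtain ⟨c', hc'0, hc'1, hc'2, hc'3, hc'4, hc'5, hc'6⟩ : ∃ c' : ℝ, 0 < c' ∧ c' ≤ 1 ∧ c' ≤ e0 / 4 ∧ c' ≤ 1 / (4 * K) ∧
      c' ≤ c / 4 ∧ c' ≤ Real.exp (-n0) ∧ c' ≤ Real.exp (-((2 : ℝ) ^ c / 4)) / 3 := by
    refine ⟨min (min (min 1 (e0 / 4)) (min (1 / (4 * K)) (c / 4)))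
      (min (Real.exp (-n0)) (Real.exp (-((2 : ℝ) ^ c / 4)) / 3)), ?_, ?_, ?_, ?_, ?_, ?_, ?_⟩
    · refine lt_min (lt_min (lt_min one_pos (by positivity)) (lt_min (by positivity) (by positivity)))
        (lt_min (Real.exp_pos _) (by positivity))
    · exact (min_le_left _ _).trans ((min_le_left _ _).trans (min_le_left _ _))
    · exact (min_le_left _ _).trans ((min_le_left _ _).trans (min_le_right _ _))
    · exact (min_le_left _ _).trans ((min_le_right _ _).trans (min_le_left _ _))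
    · exact (min_le_left _ _).trans ((min_le_right _ _).trans (min_le_right _ _))
    · exact (min_le_right _ _).trans (min_le_left _ _)
    · exact (min_le_right _ _).trans (min_le_right _ _)
  refine ⟨c', hc'0, fun n hn => ?_⟩
  have hnR : (1 : ℝ) ≤ n := by exact_mod_cast hn
  have hnR0 : (0 : ℝ) < n := by linarith
  have hN : (0 : ℝ) ≤ ((SawNu.WS SawNu.hexL n).card : ℝ) := Nat.cast_nonneg _
  set s : ℝ := Real.logb 2 n with hs
  have hs0 : 0 ≤ s := Real.logb_nonneg (by norm_num) hnR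
  have hns : (n : ℝ) = (2 : ℝ) ^ s := (Real.rpow_logb (by norm_num) (by norm_num) hnR0).symm
  set p : ℝ := 2 - e0 with hp
  have hp1 : 1 < p := by linarith
  have hp2 : p < 2 := by linarith
  have hp0 : 0 < p := by linarith
  set L : ℕ := ⌊s / p⌋₊ with hL
  have hL1 : (L : ℝ) ≤ s / p := Nat.floor_le (by positivity)
  have hL2 : s / p < L + 1 := Nat.lt_floor_add_one _
  rw [le_div_iff₀ hp0] at hL1
  rw [div_lt_iff₀ hp0] at hL2
  rcases le_or_gt L0 L with hLL | hLL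
  · -- large n
    have h1 : (2 : ℝ) ^ (p * L) ≤ n := by
      rw [hns]
      exact Real.rpow_le_rpow_of_exponent_le (by norm_num) (by linarith)
    have h2 := w10_count (hA L hLL) (hE n L hn) (hC n) h1
    have h3 : ((SawNu.WS SawNu.hexL n).filter (fun l => SawNu.S4 SawNu.hexRot l ≤ c' * (n : ℝ) ^ (1 + c'))).card ≤
        ((SawNu.WS SawNu.hexL n).filter (fun l => K * SawNu.S4 SawNu.hexRot l ≤ (4 : ℝ) ^ L)).card := by
      apply Finset.card_le_card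
      intro l hl
      rw [Finset.mem_filter] at hl ⊢
      refine ⟨hl.1, ?_⟩
      have h4 : (n : ℝ) ^ (1 + c') ≤ 4 * (4 : ℝ) ^ L := by
        have h5 : s * (1 + c') ≤ 2 + 2 * L := by
          have h6 : s * (1 + c') ≤ s * (2 / p) := by
            apply mul_le_mul_of_nonneg_left _ hs0
            rw [le_div_iff₀ hp0]
            nlinarith
          have h7 : s * (2 / p) ≤ 2 * (L + 1) := by
            have h8 : s * (2 / p) = 2 * s / p := by ring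
            rw [h8, div_le_iff₀ hp0]
            linarith
          linarith
        have h9 : (4 : ℝ) * 4 ^ L = (2 : ℝ) ^ (2 + 2 * (L : ℝ)) := by
          rw [Real.rpow_add (by norm_num), Real.rpow_mul (by norm_num), Real.rpow_natCast]
          norm_num
        rw [h9, hns, ← Real.rpow_mul (by norm_num)]
        exact Real.rpow_le_rpow_of_exponent_le (by norm_num) h5
      have h10 : c' * K ≤ 1 / 4 := by
        have h11 := mul_le_mul_of_nonneg_right hc'3 (by linarith : (0 : ℝ) ≤ K)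
        have h12 : 1 / (4 * (K : ℝ)) * K = 1 / 4 := by
          field_simp
        rw [h12] at h11
        exact h11
      have h13 : 0 ≤ (n : ℝ) ^ (1 + c') := by positivity
      calc K * SawNu.S4 SawNu.hexRot l ≤ K * (c' * (n : ℝ) ^ (1 + c')) :=
            mul_le_mul_of_nonneg_left hl.2 (by linarith)
        _ = (c' * K) * (n : ℝ) ^ (1 + c') := by ring
        _ ≤ 1 / 4 * (n : ℝ) ^ (1 + c') := mul_le_mul_of_nonneg_right h10 h13
        _ ≤ 1 / 4 * (4 * (4 : ℝ) ^ L) := mul_le_mul_of_nonneg_left h4 (by norm_num)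
        _ = (4 : ℝ) ^ L := by ring
    have h3' : (((SawNu.WS SawNu.hexL n).filter (fun l => SawNu.S4 SawNu.hexRot l ≤ c' * (n : ℝ) ^ (1 + c'))).card : ℝ) ≤
        (((SawNu.WS SawNu.hexL n).filter (fun l => K * SawNu.S4 SawNu.hexRot l ≤ (4 : ℝ) ^ L)).card : ℝ) := by
      exact_mod_cast h3
    refine h3'.trans (h2.trans ?_)
    apply mul_le_mul_of_nonneg_right _ hN
    -- the exponentials
    set a : ℝ := (n : ℝ) ^ c' with ha
    have h4 : a = (2 : ℝ) ^ (s * c') := by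
      rw [ha, hns, ← Real.rpow_mul (by norm_num)]
    have h2c : (0 : ℝ) < (2 : ℝ) ^ c := by positivity
    have h5 : a ^ 2 ≤ (2 : ℝ) ^ c * (2 : ℝ) ^ (c * L) := by
      rw [h4, ← Real.rpow_natCast, ← Real.rpow_mul (by norm_num), ← Real.rpow_add (by norm_num)]
      apply Real.rpow_le_rpow_of_exponent_le (by norm_num)
      push_cast
      have h6 : s * c' * 2 ≤ s * (c / 2) := by nlinarith
      have h7 : s * (c / 2) ≤ c * (L + 1) := by
        have h8 : s ≤ (L + 1) * 2 := by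
          have : (L + 1 : ℝ) * p ≤ (L + 1) * 2 := by
            apply mul_le_mul_of_nonneg_left hp2.le
            positivity
          linarith
        nlinarith
      linarith
    have h6 : a - (2 : ℝ) ^ c / 4 ≤ (2 : ℝ) ^ (c * L) := by
      have h7 : 0 ≤ (a - (2 : ℝ) ^ c / 2) ^ 2 := sq_nonneg _
      by_contra hcon
      push Not at hcon
      have h8 := mul_lt_mul_of_pos_left hcon h2c
      nlinarith
    have h7 : Real.exp (-(2 : ℝ) ^ (c * L)) ≤ Real.exp (-a) * Real.exp ((2 : ℝ) ^ c / 4) := by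
      rw [← Real.exp_add]
      apply Real.exp_le_exp.2
      linarith
    have h8 : 3 * Real.exp ((2 : ℝ) ^ c / 4) ≤ c'⁻¹ := by
      rw [le_inv_comm₀ (by positivity) hc'0, mul_inv, ← Real.exp_neg]
      linarith
    calc 3 * Real.exp (-(2 : ℝ) ^ (c * L)) ≤ 3 * (Real.exp (-a) * Real.exp ((2 : ℝ) ^ c / 4)) :=
          mul_le_mul_of_nonneg_left h7 (by norm_num)
      _ = (3 * Real.exp ((2 : ℝ) ^ c / 4)) * Real.exp (-a) := by ring
      _ ≤ c'⁻¹ * Real.exp (-a) := mul_le_mul_of_nonneg_right h8 (Real.exp_pos _).le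
  · -- small n
    have h1 : (n : ℝ) ≤ n0 := by
      rw [hns, hn0]
      apply Real.rpow_le_rpow_of_exponent_le (by norm_num)
      have h2 : (L : ℝ) + 1 ≤ L0 := by exact_mod_cast hLL
      have h3 : ((L : ℝ) + 1) * p ≤ (L0 : ℝ) * 2 :=
        mul_le_mul h2 hp2.le hp0.le (by positivity)
      linarith
    have h2 : (n : ℝ) ^ c' ≤ n0 := by
      refine le_trans ?_ h1
      calc (n : ℝ) ^ c' ≤ (n : ℝ) ^ (1 : ℝ) := Real.rpow_le_rpow_of_exponent_le hnR hc'1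
        _ = n := Real.rpow_one _
    have h3 : 1 ≤ c'⁻¹ * Real.exp (-(n : ℝ) ^ c') := by
      have h4 : Real.exp n0 ≤ c'⁻¹ := by
        rw [le_inv_comm₀ (Real.exp_pos _) hc'0, ← Real.exp_neg]
        exact hc'5
      calc (1 : ℝ) = Real.exp n0 * Real.exp (-n0) := by rw [← Real.exp_add]; simp
        _ ≤ c'⁻¹ * Real.exp (-(n : ℝ) ^ c') :=
          mul_le_mul h4 (Real.exp_le_exp.2 (by linarith)) (Real.exp_pos _).le (by positivity)
    have h4 : (((SawNu.WS SawNu.hexL n).filter (fun l => SawNu.S4 SawNu.hexRot l ≤ c' * (n : ℝ) ^ (1 + c'))).card : ℝ) ≤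
        ((SawNu.WS SawNu.hexL n).card : ℝ) := by
      exact_mod_cast Finset.card_le_card (Finset.filter_subset _ _)
    calc _ ≤ ((SawNu.WS SawNu.hexL n).card : ℝ) := h4
      _ = 1 * ((SawNu.WS SawNu.hexL n).card : ℝ) := (one_mul _).symm
      _ ≤ _ := mul_le_mul_of_nonneg_right h3 hN

/-- SUPERDIFFUSIVITY: the mean squared end-to-end distance -/
theorem superdiff_of
    (hB : ∃ c : ℝ, 0 < c ∧ ∀ n : ℕ, 1 ≤ n →
      (((SawNu.WS SawNu.hexL n).filter (fun l => SawNu.S4 SawNu.hexRot l ≤ c * (n : ℝ) ^ (1 + c))).card : ℝ) ≤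
        c⁻¹ * Real.exp (-(n : ℝ) ^ c) * ((SawNu.WS SawNu.hexL n).card : ℝ)) :
    ∃ c : ℝ, 0 < c ∧ ∀ n : ℕ, 1 ≤ n →
      c * (n : ℝ) ^ (1 + c) ≤ (∑ l ∈ SawNu.WS SawNu.hexL n, ‖SawNu.phiTri l.sum‖ ^ 2) /
        ((SawNu.WS SawNu.hexL n).card : ℝ) := by
  obtain ⟨c1, hc1, hB⟩ := hB
  obtain ⟨C, hCp, hmax⟩ := SawNu.max_all SawNu.hexRot (c1 / 2) (by positivity)
  -- n1
  obtain ⟨n1, hn1⟩ : ∃ n1 : ℕ, ∀ n : ℕ, n1 ≤ n → c1⁻¹ * Real.exp (-(n : ℝ) ^ c1) ≤ 1 / 2 := by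
    have h1 : Filter.Tendsto (fun n : ℕ => (n : ℝ) ^ c1) Filter.atTop Filter.atTop :=
      (tendsto_rpow_atTop hc1).comp tendsto_natCast_atTop_atTop
    have h2 : Filter.Tendsto (fun n : ℕ => c1⁻¹ * Real.exp (-(n : ℝ) ^ c1)) Filter.atTop (nhds (c1⁻¹ * 0)) :=
      (Real.tendsto_exp_neg_atTop_nhds_zero.comp h1).const_mul _
    rw [mul_zero] at h2
    have h3 := (h2.eventually (gt_mem_nhds (show (0 : ℝ) < 1 / 2 by norm_num)))
    obtain ⟨n1, hn1⟩ := Filter.eventually_atTop.1 h3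
    exact ⟨n1, fun n hn => (hn1 n hn).le⟩
  obtain ⟨M, hM⟩ : ∃ M : ℝ, M = ∑ m ∈ Finset.range n1, ((SawNu.WS SawNu.hexL m).card : ℝ) := ⟨_, rfl⟩
  have hM0 : 0 ≤ M := by
    rw [hM]
    exact Finset.sum_nonneg (fun _ _ => Nat.cast_nonneg _)
  obtain ⟨c, hc0, hca, hcb, hcc, hcd⟩ : ∃ c : ℝ, 0 < c ∧ c ≤ 1 ∧ c ≤ c1 / 2 ∧ c ≤ c1 / (16 * C) ∧
      c ≤ 1 / (2 * (M + 1)) := by
    refine ⟨min (min 1 (c1 / 2)) (min (c1 / (16 * C)) (1 / (2 * (M + 1)))), ?_, ?_, ?_, ?_, ?_⟩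
    · exact lt_min (lt_min one_pos (half_pos hc1)) (lt_min (div_pos hc1 (by linarith)) (div_pos one_pos (by linarith)))
    · exact (min_le_left _ _).trans (min_le_left _ _)
    · exact (min_le_left _ _).trans (min_le_right _ _)
    · exact (min_le_right _ _).trans (min_le_left _ _)
    · exact (min_le_right _ _).trans (min_le_right _ _)
  refine ⟨c, hc0, fun n hn => ?_⟩
  have hnR : (1 : ℝ) ≤ n := by exact_mod_cast hn
  have hnR0 : (0 : ℝ) < n := by linarith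
  obtain ⟨l₀, hl₀, hl₀h⟩ := SawNu.hexRot.exists_up n
  have hN : (0 : ℝ) < ((SawNu.WS SawNu.hexL n).card : ℝ) := by
    exact_mod_cast Finset.card_pos.mpr ⟨l₀, hl₀⟩
  have hht : (∑ l ∈ SawNu.WS SawNu.hexL n, ((SawNu.ht l : ℤ) : ℝ) ^ 2) / 2 ≤
      ∑ l ∈ SawNu.WS SawNu.hexL n, ‖SawNu.phiTri l.sum‖ ^ 2 := by
    rw [Finset.sum_div]
    apply Finset.sum_le_sum
    intro l _
    exact SawNu.encHex.low l.sum
  rw [le_div_iff₀ hN]
  rcases le_or_gt n1 n with h | h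
  · -- large n
    have h1 := (hB n hn).trans (mul_le_mul_of_nonneg_right (hn1 n h) hN.le)
    have hS4 : ∀ l : List SawNu.Pt, 0 ≤ SawNu.S4 SawNu.hexRot l := by
      intro l
      rw [SawNu.S4]
      positivity
    set F := (SawNu.WS SawNu.hexL n).filter (fun l => SawNu.S4 SawNu.hexRot l ≤ c1 * (n : ℝ) ^ (1 + c1)) with hF
    set F' := (SawNu.WS SawNu.hexL n).filter (fun l => ¬ SawNu.S4 SawNu.hexRot l ≤ c1 * (n : ℝ) ^ (1 + c1)) with hF'
    have h2 : (F.card : ℝ) + F'.card = ((SawNu.WS SawNu.hexL n).card : ℝ) := by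
      have := Finset.card_filter_add_card_filter_not (s := SawNu.WS SawNu.hexL n)
        (fun l => SawNu.S4 SawNu.hexRot l ≤ c1 * (n : ℝ) ^ (1 + c1))
      exact_mod_cast this
    have h3 : (F'.card : ℝ) * (c1 * (n : ℝ) ^ (1 + c1)) ≤ ∑ l ∈ SawNu.WS SawNu.hexL n, SawNu.S4 SawNu.hexRot l := by
      calc (F'.card : ℝ) * (c1 * (n : ℝ) ^ (1 + c1)) = ∑ _l ∈ F', c1 * (n : ℝ) ^ (1 + c1) := by
            rw [Finset.sum_const, nsmul_eq_mul]
        _ ≤ ∑ l ∈ F', SawNu.S4 SawNu.hexRot l := by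
            apply Finset.sum_le_sum
            intro l hl
            exact (not_le.1 (Finset.mem_filter.1 hl).2).le
        _ ≤ _ := Finset.sum_le_sum_of_subset_of_nonneg (Finset.filter_subset _ _) (fun l _ _ => hS4 l)
    have h4 : (1 / 2 : ℝ) * ((SawNu.WS SawNu.hexL n).card : ℝ) ≤ F'.card := by linarith
    have h5 : 0 < c1 * (n : ℝ) ^ (1 + c1) := by positivity
    have h6 := (mul_le_mul_of_nonneg_right h4 h5.le).trans h3
    have h7 := SawNu.sum_S4_le SawNu.hexRot n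
    have h8 := hmax n hn
    have hpw : (n : ℝ) ^ (1 + c1) = (n : ℝ) ^ (1 + c1 / 2) * (n : ℝ) ^ (c1 / 2) := by
      rw [← Real.rpow_add hnR0]
      congr 1
      ring
    have hd0 : 0 < (n : ℝ) ^ (c1 / 2) := by positivity
    have hq0 : 0 < (n : ℝ) ^ (1 + c1 / 2) := by positivity
    have h9 : (1 / 2 : ℝ) * ((SawNu.WS SawNu.hexL n).card : ℝ) * (c1 * (n : ℝ) ^ (1 + c1 / 2)) ≤
        4 * C * ∑ l ∈ SawNu.WS SawNu.hexL n, ((SawNu.ht l : ℤ) : ℝ) ^ 2 := by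
      have h10 : (1 / 2 : ℝ) * ((SawNu.WS SawNu.hexL n).card : ℝ) * (c1 * (n : ℝ) ^ (1 + c1 / 2)) * (n : ℝ) ^ (c1 / 2) ≤
          4 * C * (∑ l ∈ SawNu.WS SawNu.hexL n, ((SawNu.ht l : ℤ) : ℝ) ^ 2) * (n : ℝ) ^ (c1 / 2) := by
        calc _ = 1 / 2 * ((SawNu.WS SawNu.hexL n).card : ℝ) * (c1 * (n : ℝ) ^ (1 + c1)) := by
              rw [hpw]
              ring
          _ ≤ _ := h6
          _ ≤ _ := h7
          _ ≤ 4 * (C * (n : ℝ) ^ (c1 / 2) * ∑ l ∈ SawNu.WS SawNu.hexL n, ((SawNu.ht l : ℤ) : ℝ) ^ 2) :=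
            mul_le_mul_of_nonneg_left h8 (by norm_num)
          _ = _ := by ring
      exact le_of_mul_le_mul_right h10 hd0
    have h11 : c * (n : ℝ) ^ (1 + c) ≤ c1 / (16 * C) * (n : ℝ) ^ (1 + c1 / 2) :=
      mul_le_mul hcc (Real.rpow_le_rpow_of_exponent_le hnR (by linarith)) (by positivity) (by positivity)
    have h12 : c1 / (16 * C) * (n : ℝ) ^ (1 + c1 / 2) * ((SawNu.WS SawNu.hexL n).card : ℝ) ≤
        (∑ l ∈ SawNu.WS SawNu.hexL n, ((SawNu.ht l : ℤ) : ℝ) ^ 2) / 2 := by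
      have h13 : c1 / (16 * C) * (n : ℝ) ^ (1 + c1 / 2) * ((SawNu.WS SawNu.hexL n).card : ℝ) =
          (1 / 2 : ℝ) * ((SawNu.WS SawNu.hexL n).card : ℝ) * (c1 * (n : ℝ) ^ (1 + c1 / 2)) / (8 * C) := by
        field_simp
        ring
      rw [h13, div_le_iff₀ (by positivity)]
      linarith
    calc c * (n : ℝ) ^ (1 + c) * ((SawNu.WS SawNu.hexL n).card : ℝ) ≤
          c1 / (16 * C) * (n : ℝ) ^ (1 + c1 / 2) * ((SawNu.WS SawNu.hexL n).card : ℝ) :=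
          mul_le_mul_of_nonneg_right h11 hN.le
      _ ≤ _ := h12
      _ ≤ _ := hht
  · -- small n
    have h1 : ((n : ℝ)) ^ 2 ≤ ∑ l ∈ SawNu.WS SawNu.hexL n, ((SawNu.ht l : ℤ) : ℝ) ^ 2 := by
      have h2 := Finset.single_le_sum (f := fun l => ((SawNu.ht l : ℤ) : ℝ) ^ 2)
        (fun l _ => sq_nonneg _) hl₀
      simp only [hl₀h] at h2
      exact_mod_cast h2
    have h2 : ((SawNu.WS SawNu.hexL n).card : ℝ) ≤ M := by
      rw [hM]
      exact Finset.single_le_sum (f := fun m => ((SawNu.WS SawNu.hexL m).card : ℝ))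
        (fun _ _ => Nat.cast_nonneg _) (Finset.mem_range.mpr h)
    have h3 : (n : ℝ) ^ (1 + c) ≤ (n : ℝ) ^ 2 := by
      calc (n : ℝ) ^ (1 + c) ≤ (n : ℝ) ^ (2 : ℝ) := Real.rpow_le_rpow_of_exponent_le hnR (by linarith)
        _ = (n : ℝ) ^ 2 := by norm_num
    have h4 : c * ((SawNu.WS SawNu.hexL n).card : ℝ) ≤ 1 / 2 := by
      calc c * ((SawNu.WS SawNu.hexL n).card : ℝ) ≤ 1 / (2 * (M + 1)) * (M + 1) :=
            mul_le_mul hcd (by linarith) hN.le (by positivity)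
        _ = 1 / 2 := by field_simp
    calc c * (n : ℝ) ^ (1 + c) * ((SawNu.WS SawNu.hexL n).card : ℝ) =
          (c * ((SawNu.WS SawNu.hexL n).card : ℝ)) * (n : ℝ) ^ (1 + c) := by ring
      _ ≤ 1 / 2 * (n : ℝ) ^ 2 := mul_le_mul h4 h3 (by positivity) (by norm_num)
      _ ≤ (∑ l ∈ SawNu.WS SawNu.hexL n, ((SawNu.ht l : ℤ) : ℝ) ^ 2) / 2 := by linarith
      _ ≤ _ := hht

end SDN

end HexObs
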