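import Pool.Agent.SDN.MainA
import Pool.Agent.SDN.EncBall
import Pool.Agent.SDN.FinalSD

/-!
SDN: superdiffusivity of the self-avoiding walk on the hexagonal lattice, for all lengths (assembly).
-/

set_option autoImplicit false

namespace HexObs

namespace SDN

/-- almost all walks leave the ball of radius n^(1/2+c): exponential bound -/
theorem ball_exp : ∃ c : ℝ, 0 < c ∧ ∀ n : ℕ, 1 ≤ n →
    (((SawNu.WS SawNu.hexL n).filter (fun l => SawNu.S4 SawNu.hexRot l ≤ c * (n : ℝ) ^ (1 + c))).card : ℝ) ≤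
      c⁻¹ * Real.exp (-(n : ℝ) ^ c) * ((SawNu.WS SawNu.hexL n).card : ℝ) :=
  ball_exp_of main_A enc_ball card_ge

/-- SUPERDIFFUSIVITY: the mean squared end-to-end distance -/
theorem superdiff : ∃ c : ℝ, 0 < c ∧ ∀ n : ℕ, 1 ≤ n →
    c * (n : ℝ) ^ (1 + c) ≤ (∑ l ∈ SawNu.WS SawNu.hexL n, ‖SawNu.phiTri l.sum‖ ^ 2) /
      ((SawNu.WS SawNu.hexL n).card : ℝ) :=
  superdiff_of ball_exp

end SDN

end HexObs
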