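import Pool.Agent.SDN.GeoDefs

/-!
SDN, module G2: row intervals of the leaves.
-/

set_option autoImplicit false

namespace HexObs

namespace SDG

open Finset Classical

theorem rowI_exists (f1 : ℕ → ℤ) (r : ℤ) (e : ℕ → ℕ) (j t : ℕ) (h1 : e j ≤ t) (h2 : t ≤ e (j + 1)) :
    ∃ u v, RowI f1 r e j (f1 t / r) u v ∧ u ≤ t ∧ t ≤ v := by
  set S : Finset ℕ := (Icc (e j) (e (j + 1))).filter (fun i => f1 i / r = f1 t / r) with hS
  have ht : t ∈ S := by
    rw [hS, Finset.mem_filter, Finset.mem_Icc]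
    exact ⟨⟨h1, h2⟩, rfl⟩
  have hne : S.Nonempty := ⟨t, ht⟩
  have hmin := Finset.min'_mem S hne
  have hmax := Finset.max'_mem S hne
  have hm1 := (Finset.mem_filter.1 hmin).2
  have hm2 := (Finset.mem_filter.1 hmax).2
  have hm3 := Finset.mem_Icc.1 (Finset.mem_filter.1 hmin).1
  have hm4 := Finset.mem_Icc.1 (Finset.mem_filter.1 hmax).1
  refine ⟨S.min' hne, S.max' hne, ⟨hm3.1, Finset.min'_le_max' S hne, hm4.2, hm1, hm2, ?_⟩,
    Finset.min'_le S t ht, Finset.le_max' S t ht⟩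
  intro i hi1 hi2 hi3
  have hi : i ∈ S := by
    rw [hS, Finset.mem_filter, Finset.mem_Icc]
    exact ⟨⟨hi1, hi2⟩, hi3⟩
  exact ⟨Finset.min'_le S i hi, Finset.le_max' S i hi⟩

theorem rowI_unique (f1 : ℕ → ℤ) (r : ℤ) (e : ℕ → ℕ) (j : ℕ) (y : ℤ) (u v u' v' : ℕ) (h : RowI f1 r e j y u v)
    (h' : RowI f1 r e j y u' v') : u = u' ∧ v = v' := by
  obtain ⟨a1, a2, a3, a4, a5, a6⟩ := h
  obtain ⟨b1, b2, b3, b4, b5, b6⟩ := h'
  have c1 := a6 u' b1 (by omega) b4
  have c2 := b6 u a1 (by omega) a4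
  have c3 := a6 v' (by omega) b3 b5
  have c4 := b6 v (by omega) a3 a5
  omega

/-- a leaf of height less than a * r has at most a + 1 rows -/
theorem rowI_card (f1 : ℕ → ℤ) (n m : ℕ) (r : ℤ) (hr : 0 < r) (σ : ℕ → ℤ) (e : ℕ → ℕ) (hL : RL f1 n r m σ e) (j : ℕ)
    (hj' : j < m) (a : ℕ) (ha : hj f1 e j < a * r) (Y : Finset ℤ) (hY : ∀ y ∈ Y, ∃ u v, RowI f1 r e j y u v) :
    Y.card ≤ a + 1 := by
  set lo := min (f1 (e j)) (f1 (e (j + 1))) with hlo
  have hin : ∀ i, e j ≤ i → i ≤ e (j + 1) → lo ≤ f1 i ∧ f1 i < lo + a * r := by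
    intro i h1 h2
    have l1 := hL.lo j hj' i h1 h2
    have l2 := hL.hi j hj' i h1 h2
    unfold hj at ha
    rw [abs_lt] at ha
    rcases hL.sgn j with hs | hs
    · rw [hs] at l1 l2
      have hle : f1 (e j) ≤ f1 (e (j + 1)) := by linarith
      rw [hlo, min_eq_left hle]
      constructor
      · linarith
      · linarith
    · rw [hs] at l1 l2
      have hle : f1 (e (j + 1)) ≤ f1 (e j) := by linarith
      rw [hlo, min_eq_right hle]
      constructor
      · linarith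
      · linarith
  have hsub : Y ⊆ Finset.Icc (lo / r) (lo / r + a) := by
    intro y hy
    obtain ⟨u, v, a1, a2, a3, a4, -, -⟩ := hY y hy
    have h2 := hin u a1 (by omega)
    rw [Finset.mem_Icc, ← a4]
    constructor
    · exact Int.ediv_le_ediv hr h2.1
    · have h3 : (lo + a * r) / r = lo / r + a := Int.add_mul_ediv_right _ _ hr.ne'
      rw [← h3]
      exact Int.ediv_le_ediv hr h2.2.le
  calc Y.card ≤ (Finset.Icc (lo / r) (lo / r + a)).card := Finset.card_le_card hsub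
    _ = a + 1 := by
      rw [Int.card_Icc]
      omega

namespace Geo2

theorem e_mono {f1 : ℕ → ℤ} {n m : ℕ} {r : ℤ} {σ : ℕ → ℤ} {e : ℕ → ℕ} (hL : RL f1 n r m σ e) {i k : ℕ}
    (hik : i ≤ k) (hk : k ≤ m) : e i ≤ e k := by
  induction k, hik using Nat.le_induction with
  | base => exact le_rfl
  | succ k _ ih =>
    have h1 := ih (by omega)
    have h2 := hL.lt k (by omega)
    omega

theorem row_lt {x y r : ℤ} (hr : 0 < r) (h : x / r = y) : y * r ≤ x ∧ x < (y + 1) * r := by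
  subst h
  constructor
  · exact Int.ediv_mul_le x hr.ne'
  · exact Int.lt_ediv_add_one_mul_self x hr

/-- rows of one leaf -/
theorem one {f1 : ℕ → ℤ} {n m : ℕ} {r : ℤ} (hr : 0 < r) {σ : ℕ → ℤ} {e : ℕ → ℕ} (hL : RL f1 n r m σ e) {j : ℕ}
    (h1 : j < m) {y y' : ℤ} (hy : y + 2 ≤ y') {u v u' v' : ℕ} (h : RowI f1 r e j y u v)
    (h' : RowI f1 r e j y' u' v') : v ≤ u' ∨ v' ≤ u := by
  obtain ⟨a1, a2, a3, a4, a5, a6⟩ := h
  obtain ⟨b1, b2, b3, b4, b5, b6⟩ := h'
  have q1 := row_lt hr a4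
  have q2 := row_lt hr a5
  have q3 := row_lt hr b4
  have q4 := row_lt hr b5
  have q5 : (y + 2) * r ≤ y' * r := mul_le_mul_of_nonneg_right hy hr.le
  rcases hL.sgn j with hs | hs
  · left
    by_contra hcon
    push Not at hcon
    have := hL.small j h1 u' v b1 hcon.le a3
    rw [hs] at this
    linarith
  · right
    by_contra hcon
    push Not at hcon
    have := hL.small j h1 u v' a1 hcon.le b3
    rw [hs] at this
    linarith

end Geo2

/-- two row intervals of different leaves, or of different rows of the same parity, are disjoint up to end points -/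
theorem rowI_disj (f1 : ℕ → ℤ) (n m : ℕ) (r : ℤ) (hr : 0 < r) (σ : ℕ → ℤ) (e : ℕ → ℕ) (hL : RL f1 n r m σ e) (j j' : ℕ)
    (h1 : j < m) (h2 : j' < m) (y y' : ℤ) (hp : y % 2 = y' % 2) (hne : j ≠ j' ∨ y ≠ y') (u v u' v' : ℕ)
    (h : RowI f1 r e j y u v) (h' : RowI f1 r e j' y' u' v') : v ≤ u' ∨ v' ≤ u := by
  rcases lt_trichotomy j j' with hlt | heq | hlt
  · left
    have := Geo2.e_mono hL (i := j + 1) (k := j') hlt h2.le
    have q1 := h.2.2.1
    have q2 := h'.1
    omega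
  · subst heq
    have hy : y ≠ y' := by
      rcases hne with h3 | h3
      · exact absurd rfl h3
      · exact h3
    rcases lt_or_gt_of_ne hy with h3 | h3
    · exact Geo2.one hr hL h1 (by omega) h h'
    · exact (Geo2.one hr hL h1 (by omega) h' h).symm
  · right
    have := Geo2.e_mono hL (i := j' + 1) (k := j) hlt h1.le
    have q1 := h'.2.2.1
    have q2 := h.1
    omega

end SDG

end HexObs
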