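import Pool.Agent.SDN.Geo2

/-!
SDN, G3: wide rows (helper45).
-/

set_option autoImplicit false

namespace HexObs

namespace SDG

open Finset Classical

namespace Geo3

/-- few values of a function with small oscillation. -/
lemma vals_card (f : ℕ → ℤ) (s : ℤ) (hs : 0 < s) (u v : ℕ) (a : ℕ) (h : ¬ Osc f u v (a * s)) :
    ((Icc u v).image (fun t => f t / s)).card ≤ a + 1 := by
  by_cases huv : u ≤ v
  · obtain ⟨t0, ht0, hmin⟩ := (Icc u v).exists_min_image f ⟨u, mem_Icc.2 ⟨le_rfl, huv⟩⟩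
    rw [mem_Icc] at ht0
    have hsub : (Icc u v).image (fun t => f t / s) ⊆ Icc (f t0 / s) (f t0 / s + a) := by
      intro z hz
      rw [mem_image] at hz
      obtain ⟨t, ht, rfl⟩ := hz
      rw [mem_Icc] at ht ⊢
      constructor
      · exact Int.ediv_le_ediv hs (hmin t (mem_Icc.2 ht))
      · have h1 : f t < f t0 + a * s := by
          by_contra hcon
          push Not at hcon
          exact h ⟨t0, t, ht0.1, ht0.2, ht.1, ht.2, hcon⟩
        have h2 : f t / s ≤ (f t0 + a * s) / s := Int.ediv_le_ediv hs h1.le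
        rw [Int.add_mul_ediv_right _ _ hs.ne'] at h2
        exact h2
    refine (card_le_card hsub).trans ?_
    rw [Int.card_Icc]
    have : f t0 / s + (a : ℤ) + 1 - f t0 / s = ((a + 1 : ℕ) : ℤ) := by push_cast; ring
    rw [this, Int.toNat_natCast]
  · rw [Icc_eq_empty huv, image_empty, card_empty]
    exact Nat.zero_le _

lemma osc_mono {f : ℕ → ℤ} {u v : ℕ} {d d' : ℤ} (h : Osc f u v d) (hd : d' ≤ d) : Osc f u v d' := by
  obtain ⟨s, t, h1, h2, h3, h4, h5⟩ := h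
  exact ⟨s, t, h1, h2, h3, h4, by linarith⟩

/-- layer cake. -/
lemma layer (f : ℕ → ℤ) (b i L : ℕ) (u v : ℕ) (hi : Osc f u v (2 ^ (b + i))) (hL : ¬ Osc f u v (2 ^ (b + L))) :
    ((Icc u v).image (fun t => f t / 2 ^ b)).card ≤
      ∑ j ∈ (Ico i L).filter (fun j => Osc f u v (2 ^ (b + j))), 2 ^ (j + 2) := by
  have hpos : ∀ k : ℕ, (0 : ℤ) < 2 ^ k := fun k => by positivity
  have hex : ∃ J, i ≤ J ∧ J < L ∧ Osc f u v (2 ^ (b + J)) ∧ ¬ Osc f u v (2 ^ (b + (J + 1))) := by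
    have hiL : i < L := by
      by_contra hcon
      push Not at hcon
      exact hL (osc_mono hi (pow_le_pow_right₀ (by norm_num) (by omega)))
    by_contra hcon
    push Not at hcon
    have hall : ∀ k : ℕ, i + k ≤ L → Osc f u v (2 ^ (b + (i + k))) := by
      intro k
      induction k with
      | zero => intro _; simpa using hi
      | succ k ih =>
        intro hk
        exact hcon (i + k) (by omega) (by omega) (ih (by omega))
    have := hall (L - i) (by omega)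
    rw [show i + (L - i) = L by omega] at this
    exact hL this
  obtain ⟨J, h1, h2, h3, h4⟩ := hex
  have h5 : ((Icc u v).image (fun t => f t / 2 ^ b)).card ≤ 2 ^ (J + 1) + 1 := by
    apply vals_card f (2 ^ b) (hpos b) u v (2 ^ (J + 1))
    have e1 : (((2 ^ (J + 1) : ℕ) : ℤ) * 2 ^ b) = 2 ^ (b + (J + 1)) := by
      push_cast
      rw [← pow_add, Nat.add_comm]
    rw [e1]
    exact h4
  refine h5.trans ?_
  have h6 : 2 ^ (J + 1) + 1 ≤ 2 ^ (J + 2) := by
    have : 1 ≤ 2 ^ (J + 1) := Nat.one_le_two_pow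
    rw [pow_succ 2 (J + 1)]
    omega
  refine h6.trans ?_
  exact single_le_sum (f := fun j => 2 ^ (j + 2)) (fun _ _ => Nat.zero_le _)
    (mem_filter.2 ⟨mem_Ico.2 ⟨h1, h2⟩, h3⟩)

/-- the oscillation is bounded. -/
lemma osc_bdd (f : ℕ → ℤ) (n : ℕ) : ∃ L : ℕ, ∀ u v b : ℕ, v ≤ n → ¬ Osc f u v (2 ^ (b + L)) := by
  obtain ⟨M, hM⟩ : ∃ M : ℕ, ∀ t ≤ n, |f t| ≤ M := by
    refine ⟨(∑ t ∈ range (n + 1), |f t|).toNat, ?_⟩
    intro t ht
    have h1 : |f t| ≤ ∑ t ∈ range (n + 1), |f t| :=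
      single_le_sum (f := fun t => |f t|) (fun _ _ => abs_nonneg _) (mem_range.2 (by omega))
    exact h1.trans (Int.self_le_toNat _)
  refine ⟨2 * M + 1, ?_⟩
  rintro u v b hv ⟨s, t, h1, h2, h3, h4, h5⟩
  have hs := hM s (by omega)
  have ht := hM t (by omega)
  have h6 : ((2 * M + 1 : ℕ) : ℤ) < 2 ^ (2 * M + 1) := by
    exact_mod_cast (Nat.lt_two_pow_self (n := 2 * M + 1))
  have h7 : (2 : ℤ) ^ (2 * M + 1) ≤ 2 ^ (b + (2 * M + 1)) := pow_le_pow_right₀ (by norm_num) (by omega)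
  rw [abs_le] at hs ht
  push_cast at h6
  linarith [hs.1, ht.2]

end Geo3

open Geo3 in
/-- the boxes visited in row intervals with f2-oscillation at least 2 ^ (b + i) number at most C (2/θ)^i N -/
theorem wide_card (f1 f2 : ℕ → ℤ) (n b m : ℕ) (σ : ℕ → ℤ) (e : ℕ → ℕ) (A1 θ N : ℝ) (hA1 : 0 ≤ A1) (hN : 0 ≤ N)
    (hθ : 2 < θ) (hL : RL f1 n (2 ^ b) m σ e) (h2 : ∀ j : ℕ, NInt f2 n (2 ^ (b + j + 1)) (A1 * θ⁻¹ ^ j * N)) (i : ℕ)
    (hi : 1 ≤ i) (S : Finset (ℤ × ℤ)) (hS : ∀ Q ∈ S, ∃ j < m, ∃ y u v t, RowI f1 (2 ^ b) e j y u v ∧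
      Osc f2 u v (2 ^ (b + i)) ∧ u ≤ t ∧ t ≤ v ∧ f1 t / 2 ^ b = y ∧ Q = bx f1 f2 (2 ^ b) t) :
    (S.card : ℝ) ≤ 8 * θ * A1 * (2 / θ) ^ i / (1 - 2 / θ) * N := by
  have hb : (0 : ℤ) < 2 ^ b := by positivity
  have hθ0 : 0 < θ := by linarith
  obtain ⟨L, hLb⟩ := osc_bdd f2 n
  choose! j hj y u v t hrow hosc hut htv hty hQ using hS
  have hvn : ∀ Q ∈ S, v Q ≤ n := by
    intro Q hQS
    have h1 := (hrow Q hQS).2.2.1
    have h3 : e (j Q + 1) ≤ e m := Geo2.e_mono hL (by have := hj Q hQS; omega) le_rfl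
    exact h1.trans (h3.trans hL.le)
  have hpos : ∀ k : ℕ, (0 : ℤ) < 2 ^ k := fun k => by positivity
  have hlt : ∀ Q ∈ S, u Q < v Q := by
    intro Q hQS
    obtain ⟨s, s', h1, h2', h3, h4, h5⟩ := hosc Q hQS
    by_contra hcon
    push Not at hcon
    have : s = s' := by omega
    rw [this] at h5
    have := hpos (b + i)
    linarith
  obtain ⟨κ, hκ⟩ : ∃ κ : ℤ × ℤ → ℤ × (ℕ × ℕ), κ = fun Q => (y Q % 2, (u Q, v Q)) := ⟨_, rfl⟩
  have hsame : ∀ Q ∈ S, ∀ Q' ∈ S, κ Q = κ Q' → y Q = y Q' := by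
    intro Q h1 Q' h1' hk
    rw [hκ] at hk
    simp only [Prod.mk.injEq] at hk
    by_contra hne
    rcases rowI_disj f1 n m (2 ^ b) hb σ e hL (j Q) (j Q') (hj Q h1) (hj Q' h1') (y Q) (y Q') hk.1 (Or.inr hne)
      (u Q) (v Q) (u Q') (v Q') (hrow Q h1) (hrow Q' h1') with h | h
    · have := hlt Q h1
      omega
    · have := hlt Q h1
      omega
  have hfib : ∀ k ∈ S.image κ, (S.filter (fun Q => κ Q = k)).card ≤
      ∑ l ∈ (Ico i L).filter (fun l => Osc f2 k.2.1 k.2.2 (2 ^ (b + l))), 2 ^ (l + 2) := by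
    intro k hk
    obtain ⟨Q0, hQ0, rfl⟩ := mem_image.1 hk
    have h1 : (S.filter (fun Q => κ Q = κ Q0)).card ≤
        ((Icc (u Q0) (v Q0)).image (fun t => f2 t / 2 ^ b)).card := by
      refine card_le_card_of_injOn (fun Q => Q.2) ?_ ?_
      · intro Q hQS
        have hQS' := mem_filter.1 (mem_coe.1 hQS)
        have hk' := hQS'.2
        rw [hκ] at hk'
        simp only [Prod.mk.injEq] at hk'
        apply mem_coe.2
        rw [mem_image]
        refine ⟨t Q, mem_Icc.2 ⟨?_, ?_⟩, ?_⟩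
        · rw [← hk'.2.1]
          exact hut Q hQS'.1
        · rw [← hk'.2.2]
          exact htv Q hQS'.1
        · exact (congrArg Prod.snd (hQ Q hQS'.1)).symm
      · intro Q hQS Q' hQS' heq
        have h3 := mem_filter.1 (mem_coe.1 hQS)
        have h4 := mem_filter.1 (mem_coe.1 hQS')
        have h5 : y Q = y Q' := hsame Q h3.1 Q' h4.1 (h3.2.trans h4.2.symm)
        have h6 : Q.1 = y Q := (congrArg Prod.fst (hQ Q h3.1)).trans (hty Q h3.1)
        have h7 : Q'.1 = y Q' := (congrArg Prod.fst (hQ Q' h4.1)).trans (hty Q' h4.1)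
        exact Prod.ext (by rw [h6, h7, h5]) heq
    refine h1.trans ?_
    have h8 := layer f2 b i L (u Q0) (v Q0) (hosc Q0 hQ0) (hLb _ _ _ (hvn Q0 hQ0))
    rw [hκ]
    exact h8
  have hcard : S.card ≤ ∑ k ∈ S.image κ, ∑ l ∈ (Ico i L).filter (fun l => Osc f2 k.2.1 k.2.2 (2 ^ (b + l))), 2 ^ (l + 2) := by
    rw [card_eq_sum_card_image κ S]
    exact sum_le_sum hfib
  have hcount : ∀ l ∈ Ico i L, (((S.image κ).filter (fun k => Osc f2 k.2.1 k.2.2 (2 ^ (b + l)))).card : ℝ) ≤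
      2 * (A1 * θ⁻¹ ^ (l - 1) * N) := by
    intro l hl
    rw [mem_Ico] at hl
    have hpar : ∀ p : ℤ, (((S.image κ).filter (fun k => Osc f2 k.2.1 k.2.2 (2 ^ (b + l)) ∧ k.1 = p)).card : ℝ) ≤
        A1 * θ⁻¹ ^ (l - 1) * N := by
      intro p
      have hinj : ((S.image κ).filter (fun k => Osc f2 k.2.1 k.2.2 (2 ^ (b + l)) ∧ k.1 = p)).card =
          (((S.image κ).filter (fun k => Osc f2 k.2.1 k.2.2 (2 ^ (b + l)) ∧ k.1 = p)).image Prod.snd).card := by
        rw [card_image_of_injOn]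
        intro k hk k' hk' heq
        have h3 := (mem_filter.1 (mem_coe.1 hk)).2.2
        have h4 := (mem_filter.1 (mem_coe.1 hk')).2.2
        exact Prod.ext (h3.trans h4.symm) heq
      rw [hinj]
      have hl1 : b + (l - 1) + 1 = b + l := by omega
      apply h2 (l - 1)
      · intro q hq
        obtain ⟨k, hk, rfl⟩ := mem_image.1 hq
        have hk' := mem_filter.1 hk
        obtain ⟨Q, hQS, hQk⟩ := mem_image.1 hk'.1
        rw [hl1]
        refine ⟨?_, hk'.2.1⟩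
        rw [← hQk, hκ]
        exact hvn Q hQS
      · intro q hq q' hq' hne
        obtain ⟨k, hk, rfl⟩ := mem_image.1 hq
        obtain ⟨k', hk', rfl⟩ := mem_image.1 hq'
        have h3 := mem_filter.1 hk
        have h4 := mem_filter.1 hk'
        obtain ⟨Q, hQS, rfl⟩ := mem_image.1 h3.1
        obtain ⟨Q', hQS', rfl⟩ := mem_image.1 h4.1
        have h5 := h3.2.2.trans h4.2.2.symm
        rw [hκ] at h5 hne ⊢
        simp only at h5 hne ⊢
        apply rowI_disj f1 n m (2 ^ b) hb σ e hL (j Q) (j Q') (hj Q hQS) (hj Q' hQS') (y Q) (y Q') h5 ?_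
          (u Q) (v Q) (u Q') (v Q') (hrow Q hQS) (hrow Q' hQS')
        by_contra hcon
        push Not at hcon
        apply hne
        have h6 := hrow Q hQS
        have h7 := hrow Q' hQS'
        rw [← hcon.1, ← hcon.2] at h7
        obtain ⟨h8, h9⟩ := rowI_unique f1 (2 ^ b) e (j Q) (y Q) _ _ _ _ h6 h7
        rw [h8, h9]
    have hsplit : (S.image κ).filter (fun k => Osc f2 k.2.1 k.2.2 (2 ^ (b + l))) ⊆
        (S.image κ).filter (fun k => Osc f2 k.2.1 k.2.2 (2 ^ (b + l)) ∧ k.1 = 0) ∪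
        (S.image κ).filter (fun k => Osc f2 k.2.1 k.2.2 (2 ^ (b + l)) ∧ k.1 = 1) := by
      intro k hk
      have hk' := mem_filter.1 hk
      obtain ⟨Q, hQS, rfl⟩ := mem_image.1 hk'.1
      have h01 : y Q % 2 = 0 ∨ y Q % 2 = 1 := Int.emod_two_eq_zero_or_one _
      have hk1 : (κ Q).1 = y Q % 2 := by rw [hκ]
      rw [mem_union, mem_filter, mem_filter, hk1]
      rcases h01 with h | h
      · exact Or.inl ⟨hk'.1, hk'.2, h⟩
      · exact Or.inr ⟨hk'.1, hk'.2, h⟩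
    have h8 : (((S.image κ).filter (fun k => Osc f2 k.2.1 k.2.2 (2 ^ (b + l)))).card : ℝ) ≤
        (((S.image κ).filter (fun k => Osc f2 k.2.1 k.2.2 (2 ^ (b + l)) ∧ k.1 = 0)).card : ℝ) +
        (((S.image κ).filter (fun k => Osc f2 k.2.1 k.2.2 (2 ^ (b + l)) ∧ k.1 = 1)).card : ℝ) := by
      exact_mod_cast (card_le_card hsplit).trans (card_union_le _ _)
    have h9 := hpar 0
    have h10 := hpar 1
    linarith
  have hexch : ∑ k ∈ S.image κ, ∑ l ∈ (Ico i L).filter (fun l => Osc f2 k.2.1 k.2.2 (2 ^ (b + l))), 2 ^ (l + 2) =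
      ∑ l ∈ Ico i L, 2 ^ (l + 2) * ((S.image κ).filter (fun k => Osc f2 k.2.1 k.2.2 (2 ^ (b + l)))).card := by
    simp_rw [sum_filter]
    rw [sum_comm]
    refine sum_congr rfl fun l _ => ?_
    rw [← sum_filter, sum_const, smul_eq_mul, mul_comm]
  have hreal : (S.card : ℝ) ≤ ∑ l ∈ Ico i L, (2 : ℝ) ^ (l + 2) * (2 * (A1 * θ⁻¹ ^ (l - 1) * N)) := by
    have h3 : (S.card : ℝ) ≤
        ((∑ l ∈ Ico i L, 2 ^ (l + 2) * ((S.image κ).filter (fun k => Osc f2 k.2.1 k.2.2 (2 ^ (b + l)))).card : ℕ) : ℝ) := by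
      rw [← hexch]
      exact_mod_cast hcard
    refine h3.trans ?_
    push_cast
    refine sum_le_sum fun l hl => ?_
    exact mul_le_mul_of_nonneg_left (hcount l hl) (by positivity)
  refine hreal.trans ?_
  have hρ1 : 2 / θ < 1 := by rw [div_lt_one hθ0]; exact hθ
  have hρ0 : 0 ≤ 2 / θ := by positivity
  have hterm : ∀ l ∈ Ico i L, (2 : ℝ) ^ (l + 2) * (2 * (A1 * θ⁻¹ ^ (l - 1) * N)) = 8 * θ * A1 * N * (2 / θ) ^ l := by
    intro l hl
    rw [mem_Ico] at hl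
    obtain ⟨l', rfl⟩ : ∃ l', l = l' + 1 := ⟨l - 1, by omega⟩
    rw [Nat.add_sub_cancel, div_pow, pow_succ θ l', inv_pow]
    field_simp
    ring
  rw [sum_congr rfl hterm, ← mul_sum]
  have hg := geom_sum_Ico_le_of_lt_one (m := i) (n := L) hρ0 hρ1
  have hc : 0 ≤ 8 * θ * A1 * N := by positivity
  calc 8 * θ * A1 * N * ∑ l ∈ Ico i L, (2 / θ) ^ l ≤ 8 * θ * A1 * N * ((2 / θ) ^ i / (1 - 2 / θ)) :=
        mul_le_mul_of_nonneg_left hg hc
    _ = 8 * θ * A1 * (2 / θ) ^ i / (1 - 2 / θ) * N := by ring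

end SDG

end HexObs
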