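import Pool.Agent.SDN.Geo2

/-!
SDN, module G4: tall leaves.
-/

set_option autoImplicit false

namespace HexObs

namespace SDG

open Finset Classical

namespace Geo4

/-- the cutting times are increasing -/
lemma e_mono {f : ℕ → ℤ} {n m : ℕ} {r : ℤ} {σ : ℕ → ℤ} {e : ℕ → ℕ} (hL : RL f n r m σ e) {i k : ℕ} (h : i ≤ k)
    (hk : k ≤ m) : e i ≤ e k := by
  induction k, h using Nat.le_induction with
  | base => exact le_rfl
  | succ k hik ih => exact (ih (by omega)).trans (hL.lt k (by omega)).le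

lemma e_smono {f : ℕ → ℤ} {n m : ℕ} {r : ℤ} {σ : ℕ → ℤ} {e : ℕ → ℕ} (hL : RL f n r m σ e) {i k : ℕ} (h : i < k)
    (hk : k ≤ m) : e i < e k :=
  lt_of_lt_of_le (hL.lt i (by omega)) (e_mono hL (show i + 1 ≤ k by omega) hk)

/-- the number of leaves of height at least d -/
lemma leaf_card {f : ℕ → ℤ} {n m : ℕ} {r d : ℤ} {σ : ℕ → ℤ} {e : ℕ → ℕ} (hL : RL f n r m σ e) {M : ℝ}
    (h : NInt f n d M) (L : Finset ℕ) (hLm : ∀ j ∈ L, j < m ∧ d ≤ hj f e j) : (L.card : ℝ) ≤ M := by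
  have hinj : ∀ x ∈ L, ∀ y ∈ L, (e x, e (x + 1)) = (e y, e (y + 1)) → x = y := by
    intro x hx y hy hxy
    have h1 := (Prod.mk.injEq _ _ _ _).mp hxy
    rcases lt_trichotomy x y with h2 | h2 | h2
    · have := e_smono hL h2 (hLm y hy).1.le
      omega
    · exact h2
    · have := e_smono hL h2 (hLm x hx).1.le
      omega
  have h1 := h (L.image (fun j => (e j, e (j + 1)))) ?_ ?_
  · rwa [Finset.card_image_of_injOn hinj] at h1
  · intro p hp
    rw [Finset.mem_image] at hp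
    obtain ⟨j, hj0, rfl⟩ := hp
    obtain ⟨h2, h3⟩ := hLm j hj0
    refine ⟨(e_mono hL (show j + 1 ≤ m by omega) le_rfl).trans hL.le, ?_⟩
    have h4 := (hL.lt j h2).le
    unfold hj at h3
    rcases le_total 0 (f (e (j + 1)) - f (e j)) with h5 | h5
    · rw [abs_of_nonneg h5] at h3
      exact ⟨e j, e (j + 1), le_rfl, h4, h4, le_rfl, by linarith⟩
    · rw [abs_of_nonpos h5] at h3
      exact ⟨e (j + 1), e j, h4, le_rfl, le_rfl, h4, by linarith⟩
  · intro p hp q hq hpq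
    rw [Finset.mem_image] at hp hq
    obtain ⟨x, hx, rfl⟩ := hp
    obtain ⟨y, hy, rfl⟩ := hq
    rcases lt_trichotomy x y with h2 | h2 | h2
    · left
      exact e_mono hL (show x + 1 ≤ y by omega) (hLm y hy).1.le
    · exact absurd (by rw [h2]) hpq
    · right
      exact e_mono hL (show y + 1 ≤ x by omega) (hLm x hx).1.le

end Geo4

/-- the number of pairs (leaf of height at least 2 ^ (b + i), row) is at most C (2/θ)^i N -/
theorem tall_rows (f1 : ℕ → ℤ) (n b m : ℕ) (σ : ℕ → ℤ) (e : ℕ → ℕ) (A1 θ N : ℝ) (hA1 : 0 ≤ A1) (hN : 0 ≤ N)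
    (hθ : 2 < θ) (hL : RL f1 n (2 ^ b) m σ e) (h1 : ∀ j : ℕ, NInt f1 n (2 ^ (b + j + 1)) (A1 * θ⁻¹ ^ j * N)) (i : ℕ)
    (hi : 1 ≤ i) (S : Finset (ℕ × ℤ)) (hS : ∀ p ∈ S, p.1 < m ∧ 2 ^ (b + i) ≤ hj f1 e p.1 ∧
      ∃ u v, RowI f1 (2 ^ b) e p.1 p.2 u v) :
    (S.card : ℝ) ≤ 4 * θ * A1 * (2 / θ) ^ i / (1 - 2 / θ) * N := by
  have hθ0 : 0 < θ := by linarith
  -- the leaves and their blocks
  set L : Finset ℕ := S.image Prod.fst with hLdef
  have hLm : ∀ j ∈ L, j < m ∧ (2 : ℤ) ^ (b + i) ≤ hj f1 e j := by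
    intro j hj0
    rw [hLdef, Finset.mem_image] at hj0
    obtain ⟨p, hp, rfl⟩ := hj0
    exact ⟨(hS p hp).1, (hS p hp).2.1⟩
  set J : ℕ → ℕ := fun j => Nat.log 2 (hj f1 e j).toNat - b with hJ
  have hJs : ∀ j ∈ L, i ≤ J j ∧ (2 : ℤ) ^ (b + J j) ≤ hj f1 e j ∧ hj f1 e j < 2 ^ (b + J j + 1) := by
    intro j hj0
    obtain ⟨_, h2⟩ := hLm j hj0
    have h3 : (2 : ℤ) ^ (b + i) = ((2 ^ (b + i) : ℕ) : ℤ) := by push_cast; ring
    have h4 : 2 ^ (b + i) ≤ (hj f1 e j).toNat := by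
      rw [h3] at h2
      omega
    have h5 : (hj f1 e j).toNat ≠ 0 := by
      have : 0 < 2 ^ (b + i) := by positivity
      omega
    have h6 : b + i ≤ Nat.log 2 (hj f1 e j).toNat := Nat.le_log_of_pow_le (by norm_num) h4
    have h7 := Nat.pow_log_le_self 2 h5
    have h8 := Nat.lt_pow_succ_log_self (b := 2) (by norm_num) (hj f1 e j).toNat
    have h9 : b + J j = Nat.log 2 (hj f1 e j).toNat := by
      show b + (Nat.log 2 (hj f1 e j).toNat - b) = _
      omega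
    have h10 : ((hj f1 e j).toNat : ℤ) = hj f1 e j := by omega
    refine ⟨by show i ≤ Nat.log 2 (hj f1 e j).toNat - b; omega, ?_, ?_⟩
    · rw [h9, ← h10]
      exact_mod_cast h7
    · rw [h9, ← h10]
      exact_mod_cast h8
  -- the rows of a leaf
  have hrow : ∀ j ∈ L, (S.filter (fun p => p.1 = j)).card ≤ 2 ^ (J j + 2) := by
    intro j hj0
    obtain ⟨h2, _⟩ := hLm j hj0
    obtain ⟨_, _, h4⟩ := hJs j hj0
    have h5 : ((S.filter (fun p => p.1 = j)).image Prod.snd).card ≤ 2 ^ (J j + 1) + 1 := by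
      apply rowI_card f1 n m (2 ^ b) (by positivity) σ e hL j h2 (2 ^ (J j + 1))
      · push_cast
        rw [← pow_add, show J j + 1 + b = b + J j + 1 by omega]
        exact h4
      · intro y hy
        rw [Finset.mem_image] at hy
        obtain ⟨p, hp, rfl⟩ := hy
        rw [Finset.mem_filter] at hp
        obtain ⟨u, v, huv⟩ := (hS p hp.1).2.2
        rw [hp.2] at huv
        exact ⟨u, v, huv⟩
    rw [Finset.card_image_of_injOn] at h5
    · refine h5.trans ?_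
      have : 1 ≤ 2 ^ (J j + 1) := Nat.one_le_two_pow
      rw [show J j + 2 = (J j + 1) + 1 by omega, pow_succ 2 (J j + 1)]
      omega
    · intro p hp q hq hpq
      rw [Finset.mem_coe, Finset.mem_filter] at hp hq
      exact Prod.ext (hp.2.trans hq.2.symm) hpq
  have hc1 : S.card ≤ ∑ j ∈ L, 2 ^ (J j + 2) := by
    rw [Finset.card_eq_sum_card_image Prod.fst S]
    exact Finset.sum_le_sum hrow
  -- sum over the blocks
  set M : ℕ := L.sup J with hM
  have hc2 : ∑ j ∈ L, 2 ^ (J j + 2) ≤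
      ∑ j0 ∈ Finset.Ico i (M + 1), 2 ^ (j0 + 2) * (L.filter (fun j => j0 ≤ J j)).card := by
    have e1 : ∀ j0 ∈ Finset.Ico i (M + 1), 2 ^ (j0 + 2) * (L.filter (fun j => j0 ≤ J j)).card =
        ∑ j ∈ L, if j0 ≤ J j then 2 ^ (j0 + 2) else 0 := by
      intro j0 _
      rw [← Finset.sum_filter, Finset.sum_const, smul_eq_mul, mul_comm]
    rw [Finset.sum_congr rfl e1, Finset.sum_comm]
    apply Finset.sum_le_sum
    intro j hj0
    have h2 : J j ∈ Finset.Ico i (M + 1) := by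
      rw [Finset.mem_Ico]
      exact ⟨(hJs j hj0).1, Nat.lt_succ_of_le (Finset.le_sup (f := J) hj0)⟩
    refine le_trans ?_ (Finset.single_le_sum (f := fun j0 => if j0 ≤ J j then 2 ^ (j0 + 2) else 0)
      (fun _ _ => Nat.zero_le _) h2)
    simp
  have hc3 : ∀ j0 ∈ Finset.Ico i (M + 1), ((L.filter (fun j => j0 ≤ J j)).card : ℝ) ≤ A1 * θ⁻¹ ^ (j0 - 1) * N := by
    intro j0 hj0
    rw [Finset.mem_Ico] at hj0
    have h2 := h1 (j0 - 1)
    rw [show b + (j0 - 1) + 1 = b + j0 by omega] at h2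
    apply Geo4.leaf_card hL h2
    intro j hj1
    rw [Finset.mem_filter] at hj1
    refine ⟨(hLm j hj1.1).1, le_trans ?_ (hJs j hj1.1).2.1⟩
    exact pow_le_pow_right₀ (by norm_num) (by omega)
  have hx0 : 0 ≤ 2 / θ := by positivity
  have hx1 : 2 / θ < 1 := by
    rw [div_lt_one hθ0]
    exact hθ
  calc (S.card : ℝ) ≤ ((∑ j0 ∈ Finset.Ico i (M + 1), 2 ^ (j0 + 2) * (L.filter (fun j => j0 ≤ J j)).card : ℕ) : ℝ) := by
        exact_mod_cast hc1.trans hc2
    _ = ∑ j0 ∈ Finset.Ico i (M + 1), (2 : ℝ) ^ (j0 + 2) * ((L.filter (fun j => j0 ≤ J j)).card : ℝ) := by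
        push_cast
        rfl
    _ ≤ ∑ j0 ∈ Finset.Ico i (M + 1), (4 * θ * A1 * N) * (2 / θ) ^ j0 := by
        apply Finset.sum_le_sum
        intro j0 hj0
        have h2 := hc3 j0 hj0
        rw [Finset.mem_Ico] at hj0
        have h3 : θ⁻¹ ^ (j0 - 1) = θ * θ⁻¹ ^ j0 := by
          obtain ⟨k, rfl⟩ : ∃ k, j0 = k + 1 := ⟨j0 - 1, by omega⟩
          rw [Nat.add_sub_cancel, pow_succ]
          field_simp
        rw [h3] at h2
        refine (mul_le_mul_of_nonneg_left h2 (by positivity)).trans (le_of_eq ?_)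
        rw [div_eq_mul_inv, mul_pow, pow_add]
        ring
    _ = (4 * θ * A1 * N) * ∑ j0 ∈ Finset.Ico i (M + 1), (2 / θ) ^ j0 := by rw [Finset.mul_sum]
    _ ≤ (4 * θ * A1 * N) * ((2 / θ) ^ i / (1 - 2 / θ)) := by
        apply mul_le_mul_of_nonneg_left (geom_sum_Ico_le_of_lt_one hx0 hx1)
        positivity
    _ = 4 * θ * A1 * (2 / θ) ^ i / (1 - 2 / θ) * N := by ring

end SDG

end HexObs
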