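import Pool.Agent.SDN.Geo1
import Pool.Agent.SDN.Geo2
import Pool.Agent.SDN.Geo3
import Pool.Agent.SDN.Geo4

/-!
SDN, deterministic part, G5: most boxes are nice.
-/

set_option autoImplicit false

namespace HexObs

namespace SDG

open Finset Classical

namespace G5

/-- the boxes visited in the row interval of the leaf `p.1` in the row `p.2`, if the row interval is narrow -/
noncomputable def NB (f1 f2 : ℕ → ℤ) (n b i2 : ℕ) (e : ℕ → ℕ) (p : ℕ × ℤ) : Finset (ℤ × ℤ) :=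
  (Bx f1 f2 (2 ^ b) 0 n).filter (fun Q => ∃ u v t, RowI f1 (2 ^ b) e p.1 p.2 u v ∧
    ¬ Osc f2 u v (2 ^ (b + i2)) ∧ u ≤ t ∧ t ≤ v ∧ f1 t / 2 ^ b = p.2 ∧ Q = bx f1 f2 (2 ^ b) t)

theorem NB_card (f1 f2 : ℕ → ℤ) (n b i2 : ℕ) (e : ℕ → ℕ) (p : ℕ × ℤ) :
    (NB f1 f2 n b i2 e p).card ≤ 2 * (2 ^ i2 + 1) := by
  rcases Finset.eq_empty_or_nonempty (NB f1 f2 n b i2 e p) with h | ⟨Q0, hQ0⟩
  · rw [h, Finset.card_empty]
    exact Nat.zero_le _
  · have hr : (0 : ℤ) < 2 ^ b := by positivity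
    obtain ⟨u, v, t0, hR, hO, -⟩ := (Finset.mem_filter.mp hQ0).2
    have hsub : NB f1 f2 n b i2 e p ⊆ Bx (fun _ => p.2 * 2 ^ b) f2 (2 ^ b) u v := by
      intro Q hQ
      obtain ⟨u', v', t, hR', -, h1, h2, h3, h4⟩ := (Finset.mem_filter.mp hQ).2
      obtain ⟨rfl, rfl⟩ := rowI_unique f1 (2 ^ b) e p.1 p.2 u v u' v' hR hR'
      refine Finset.mem_image.mpr ⟨t, Finset.mem_Icc.mpr ⟨h1, h2⟩, ?_⟩
      rw [h4]
      show ((p.2 * 2 ^ b) / 2 ^ b, f2 t / 2 ^ b) = (f1 t / 2 ^ b, f2 t / 2 ^ b)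
      rw [h3, Int.mul_ediv_cancel _ hr.ne']
    have h1 : ¬ Osc (fun _ => p.2 * 2 ^ b) u v (((1 : ℕ) : ℤ) * 2 ^ b) := by
      rintro ⟨s, t, -, -, -, -, h⟩
      simp only [Nat.cast_one, one_mul] at h
      linarith
    have h2 : ¬ Osc f2 u v (((2 ^ i2 : ℕ) : ℤ) * 2 ^ b) := by
      have h3 : (((2 ^ i2 : ℕ) : ℤ) * 2 ^ b) = 2 ^ (b + i2) := by
        push_cast
        rw [pow_add, mul_comm]
      rw [h3]
      exact hO
    have h3 := bx_card (fun _ => p.2 * 2 ^ b) f2 (2 ^ b) hr u v 1 (2 ^ i2) h1 h2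
    calc (NB f1 f2 n b i2 e p).card ≤ _ := Finset.card_le_card hsub
      _ ≤ _ := h3
      _ = 2 * (2 ^ i2 + 1) := by norm_num

/-- the rows of the leaf number `j` -/
noncomputable def rows (f1 : ℕ → ℤ) (n b : ℕ) (e : ℕ → ℕ) (j : ℕ) : Finset ℤ :=
  ((Icc 0 n).image (fun t => f1 t / 2 ^ b)).filter (fun y => ∃ u v, RowI f1 (2 ^ b) e j y u v)

/-- the boxes visited by the leaf number `j` in narrow rows -/
noncomputable def NBj (f1 f2 : ℕ → ℤ) (n b i2 : ℕ) (e : ℕ → ℕ) (j : ℕ) : Finset (ℤ × ℤ) :=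
  (rows f1 n b e j).biUnion (fun y => NB f1 f2 n b i2 e (j, y))

theorem NBj_card (f1 f2 : ℕ → ℤ) (n b m i0 i2 : ℕ) (σ : ℕ → ℤ) (e : ℕ → ℕ) (hL : RL f1 n (2 ^ b) m σ e) (j : ℕ)
    (hj' : j < m) (ha : hj f1 e j < 2 ^ (b + i0)) :
    (NBj f1 f2 n b i2 e j).card ≤ (2 ^ i0 + 1) * (2 * (2 ^ i2 + 1)) := by
  have hr : (0 : ℤ) < 2 ^ b := by positivity
  have h1 : (rows f1 n b e j).card ≤ 2 ^ i0 + 1 := by
    apply rowI_card f1 n m (2 ^ b) hr σ e hL j hj' (2 ^ i0)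
    · have h3 : (((2 ^ i0 : ℕ) : ℤ) * 2 ^ b) = 2 ^ (b + i0) := by
        push_cast
        rw [pow_add, mul_comm]
      rw [h3]
      exact ha
    · intro y hy
      exact (Finset.mem_filter.mp hy).2
  calc (NBj f1 f2 n b i2 e j).card ≤ ∑ y ∈ rows f1 n b e j, (NB f1 f2 n b i2 e (j, y)).card :=
        Finset.card_biUnion_le
    _ ≤ ∑ _y ∈ rows f1 n b e j, 2 * (2 ^ i2 + 1) := Finset.sum_le_sum fun y _ => NB_card _ _ _ _ _ _ _
    _ = (rows f1 n b e j).card * (2 * (2 ^ i2 + 1)) := by rw [Finset.sum_const, smul_eq_mul]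
    _ ≤ _ := Nat.mul_le_mul_right _ h1

theorem e_le {f : ℕ → ℤ} {n : ℕ} {r : ℤ} {m : ℕ} {σ : ℕ → ℤ} {e : ℕ → ℕ} (hL : RL f n r m σ e) :
    ∀ j, j ≤ m → e j ≤ e m := by
  have h : ∀ k, k ≤ m → ∀ j, j ≤ k → e j ≤ e k := by
    intro k
    induction k with
    | zero =>
      intro _ j hj
      have : j = 0 := by omega
      rw [this]
    | succ k ih =>
      intro hk j hj
      rcases Nat.lt_or_ge k j with h1 | h1
      · have : j = k + 1 := by omega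
        rw [this]
      · exact (ih (by omega) j h1).trans (hL.lt k (by omega)).le
  exact h m le_rfl

theorem exists_leaf {f : ℕ → ℤ} {n : ℕ} {r : ℤ} {m : ℕ} {σ : ℕ → ℤ} {e : ℕ → ℕ} (hL : RL f n r m σ e)
    (t : ℕ) (h0 : e 0 ≤ t) (h1 : t < e m) : ∃ j, j < m ∧ e j ≤ t ∧ t ≤ e (j + 1) := by
  have h : ∀ k, k ≤ m → t < e k → ∃ j, j < k ∧ e j ≤ t ∧ t ≤ e (j + 1) := by
    intro k
    induction k with
    | zero =>
      intro _ h2
      omega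
    | succ k ih =>
      intro hk h2
      rcases Nat.lt_or_ge t (e k) with h3 | h3
      · obtain ⟨j, hj, h4⟩ := ih (by omega) h3
        exact ⟨j, by omega, h4⟩
      · exact ⟨k, by omega, h3, h2.le⟩
  exact h m le_rfl h1

theorem par_bx (f1 f2 : ℕ → ℤ) (b μ : ℕ) (h : μ ≤ b) (t : ℕ) :
    par μ (bx f1 f2 (2 ^ (b - μ)) t) = bx f1 f2 (2 ^ b) t := by
  have h1 : ∀ x : ℤ, x / 2 ^ (b - μ) / 2 ^ μ = x / 2 ^ b := by
    intro x
    rw [Int.ediv_ediv_of_nonneg (by positivity), ← pow_add, Nat.sub_add_cancel h]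
  show (f1 t / 2 ^ (b - μ) / 2 ^ μ, f2 t / 2 ^ (b - μ) / 2 ^ μ) = (f1 t / 2 ^ b, f2 t / 2 ^ b)
  rw [h1, h1]

/-- the choice of the constants -/
theorem exists_i (θ c : ℝ) (hθ : 2 < θ) : ∃ i : ℕ, 1 ≤ i ∧ c * (2 / θ) ^ i ≤ 1 / 32 := by
  have h1 : (2 / θ) < 1 := by
    rw [div_lt_one (by linarith)]
    exact hθ
  have h2 : 0 ≤ 2 / θ := by positivity
  have h3 : Filter.Tendsto (fun i : ℕ => c * (2 / θ) ^ i) Filter.atTop (nhds (c * 0)) :=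
    (tendsto_pow_atTop_nhds_zero_of_lt_one h2 h1).const_mul c
  rw [mul_zero] at h3
  have h4 : ∀ᶠ i : ℕ in Filter.atTop, c * (2 / θ) ^ i < 1 / 32 :=
    h3.eventually (gt_mem_nhds (by norm_num))
  obtain ⟨i, hi⟩ := (h4.and (Filter.eventually_ge_atTop 1)).exists
  exact ⟨i, hi.2, hi.1.le⟩

/-- the boxes visited near the ends -/
theorem end_card (f1 f2 : ℕ → ℤ) (n b u v : ℕ) (X : ℤ) (hv : v ≤ n) (hX : ∀ t ≤ n, |f2 t| ≤ X)
    (h : ∀ i i', u ≤ i → i ≤ v → u ≤ i' → i' ≤ v → f1 i - f1 i' < 2 ^ b) :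
    ((Bx f1 f2 (2 ^ b) u v).card : ℤ) ≤ 6 * (X / 2 ^ b + 1) := by
  have hr : (0 : ℤ) < 2 ^ b := by positivity
  have hX0 : 0 ≤ X := (abs_nonneg _).trans (hX 0 (Nat.zero_le _))
  have hq : 0 ≤ X / 2 ^ b := Int.ediv_nonneg hX0 hr.le
  have h1 : ¬ Osc f1 u v (((1 : ℕ) : ℤ) * 2 ^ b) := by
    rintro ⟨s, t, hs1, hs2, ht1, ht2, h3⟩
    have h4 := h t s ht1 ht2 hs1 hs2
    simp only [Nat.cast_one, one_mul] at h3
    linarith
  have h2 : ¬ Osc f2 u v (((2 * (X / 2 ^ b) + 2).toNat : ℤ) * 2 ^ b) := by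
    rintro ⟨s, t, hs1, hs2, ht1, ht2, h3⟩
    rw [Int.toNat_of_nonneg (by linarith)] at h3
    have h4 := abs_le.mp (hX s (hs2.trans hv))
    have h5 := abs_le.mp (hX t (ht2.trans hv))
    have h6 : X < (X / 2 ^ b + 1) * 2 ^ b := Int.lt_ediv_add_one_mul_self X hr
    nlinarith
  have h3 := bx_card f1 f2 (2 ^ b) hr u v 1 (2 * (X / 2 ^ b) + 2).toNat h1 h2
  have h4 : ((Bx f1 f2 (2 ^ b) u v).card : ℤ) ≤ (1 + 1) * (((2 * (X / 2 ^ b) + 2).toNat : ℤ) + 1) := by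
    exact_mod_cast h3
  rw [Int.toNat_of_nonneg (by linarith)] at h4
  linarith

end G5

open G5

theorem short_main (A A1 θ : ℝ) (hA : 1 ≤ A) (hA1 : 1 ≤ A1) (hθ : 2 < θ) :
    ∃ i0 C3 A' : ℕ, 1 ≤ C3 ∧ 1 ≤ A' ∧ ∀ (f1 f2 : ℕ → ℤ) (n b μ m : ℕ) (σ : ℕ → ℤ) (e : ℕ → ℕ) (X : ℤ), μ ≤ b →
      RL f1 n (2 ^ b) m σ e →
      (m : ℝ) ≤ 4 * A * (Bx f1 f2 (2 ^ b) 0 n).card →
      (∀ j : ℕ, NInt f1 n (2 ^ (b + j + 1)) (A1 * θ⁻¹ ^ j * (Bx f1 f2 (2 ^ b) 0 n).card)) →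
      (∀ j : ℕ, NInt f2 n (2 ^ (b + j + 1)) (A1 * θ⁻¹ ^ j * (Bx f1 f2 (2 ^ b) 0 n).card)) →
      (∀ t ≤ n, |f2 t| ≤ X) → 512 * (X / 2 ^ b + 1) ≤ ((Bx f1 f2 (2 ^ b) 0 n).card : ℤ) →
      ((Bx f1 f2 (2 ^ (b - μ)) 0 n).card : ℝ) ≤ 3 / 8 * 4 ^ μ * (Bx f1 f2 (2 ^ b) 0 n).card +
        4 ^ μ * C3 * ((range m).filter (ShFill f1 f2 b μ i0 A' e)).card := by
  have hθ' : 0 < 1 - 2 / θ := by
    have : 2 / θ < 1 := by
      rw [div_lt_one (by linarith)]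
      exact hθ
    linarith
  obtain ⟨i2, hi2, hc2⟩ := exists_i θ (8 * θ * A1 / (1 - 2 / θ)) hθ
  obtain ⟨i0, hi0, hc0⟩ := exists_i θ ((2 * (2 ^ i2 + 1)) * (4 * θ * A1 / (1 - 2 / θ))) hθ
  set C3 : ℕ := (2 ^ i0 + 1) * (2 * (2 ^ i2 + 1)) with hC3
  obtain ⟨A', hA'⟩ := exists_nat_ge (128 * A * C3)
  have hC31 : 1 ≤ C3 := Nat.succ_le_of_lt (by positivity)
  have hA'1 : 1 ≤ A' := by
    have h1 : (1 : ℝ) ≤ A' := by
      have h2 : (1 : ℝ) ≤ C3 := by exact_mod_cast hC31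
      nlinarith
    exact_mod_cast h1
  refine ⟨i0, C3, A', hC31, hA'1, ?_⟩
  intro f1 f2 n b μ m σ e X hμ hL hm hN1 hN2 hX hXN
  set N : ℕ := (Bx f1 f2 (2 ^ b) 0 n).card with hN
  have hN0 : (0 : ℝ) ≤ N := Nat.cast_nonneg _
  -- the four sets
  set Sa : Finset (ℤ × ℤ) := (Bx f1 f2 (2 ^ b) 0 n).filter (fun Q => ∃ j < m, ∃ y u v t,
    RowI f1 (2 ^ b) e j y u v ∧ Osc f2 u v (2 ^ (b + i2)) ∧ u ≤ t ∧ t ≤ v ∧ f1 t / 2 ^ b = y ∧
      Q = bx f1 f2 (2 ^ b) t) with hSa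
  have hSac : (Sa.card : ℝ) ≤ 1 / 32 * N := by
    have h1 := wide_card f1 f2 n b m σ e A1 θ N (by linarith) hN0 hθ hL hN2 i2 hi2 Sa
      (fun Q hQ => (Finset.mem_filter.mp hQ).2)
    refine h1.trans ?_
    have h2 : 8 * θ * A1 * (2 / θ) ^ i2 / (1 - 2 / θ) = 8 * θ * A1 / (1 - 2 / θ) * (2 / θ) ^ i2 := by
      ring
    rw [h2]
    exact mul_le_mul_of_nonneg_right hc2 hN0
  set T : Finset (ℕ × ℤ) := ((range m) ×ˢ ((Icc 0 n).image (fun t => f1 t / 2 ^ b))).filter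
    (fun p => 2 ^ (b + i0) ≤ hj f1 e p.1 ∧ ∃ u v, RowI f1 (2 ^ b) e p.1 p.2 u v) with hT
  have hTc : (T.card : ℝ) ≤ 4 * θ * A1 / (1 - 2 / θ) * (2 / θ) ^ i0 * N := by
    have h1 := tall_rows f1 n b m σ e A1 θ N (by linarith) hN0 hθ hL hN1 i0 hi0 T (by
      intro p hp
      obtain ⟨h2, h3⟩ := Finset.mem_filter.mp hp
      exact ⟨Finset.mem_range.mp (Finset.mem_product.mp h2).1, h3⟩)
    refine h1.trans (le_of_eq ?_)
    ring
  set Sb : Finset (ℤ × ℤ) := T.biUnion (fun p => NB f1 f2 n b i2 e p) with hSb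
  have hSbc : (Sb.card : ℝ) ≤ 1 / 32 * N := by
    have h1 : Sb.card ≤ T.card * (2 * (2 ^ i2 + 1)) := by
      calc Sb.card ≤ ∑ p ∈ T, (NB f1 f2 n b i2 e p).card := Finset.card_biUnion_le
        _ ≤ ∑ _p ∈ T, 2 * (2 ^ i2 + 1) := Finset.sum_le_sum fun p _ => NB_card _ _ _ _ _ _ _
        _ = _ := by rw [Finset.sum_const, smul_eq_mul]
    have h2 : (Sb.card : ℝ) ≤ T.card * (2 * (2 ^ i2 + 1)) := by exact_mod_cast h1
    have h3 : (T.card : ℝ) * (2 * (2 ^ i2 + 1)) ≤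
        4 * θ * A1 / (1 - 2 / θ) * (2 / θ) ^ i0 * N * (2 * (2 ^ i2 + 1)) :=
      mul_le_mul_of_nonneg_right hTc (by positivity)
    have h4 : 4 * θ * A1 / (1 - 2 / θ) * (2 / θ) ^ i0 * N * (2 * (2 ^ i2 + 1)) =
        (2 * (2 ^ i2 + 1)) * (4 * θ * A1 / (1 - 2 / θ)) * (2 / θ) ^ i0 * N := by ring
    rw [h4] at h3
    exact h2.trans (h3.trans (mul_le_mul_of_nonneg_right hc0 hN0))
  have he0 : e 0 ≤ n := (e_le hL 0 (Nat.zero_le _)).trans hL.le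
  set Sc : Finset (ℤ × ℤ) := Bx f1 f2 (2 ^ b) 0 (e 0) ∪ Bx f1 f2 (2 ^ b) (e m) n with hSc
  have hScc : (Sc.card : ℝ) ≤ 3 / 128 * N := by
    have h1 := end_card f1 f2 n b 0 (e 0) X he0 hX
      (fun i i' _ h2 _ h3 => hL.start i i' h2 h3)
    have h2 := end_card f1 f2 n b (e m) n X le_rfl hX hL.fin
    have h3 : (Sc.card : ℤ) ≤ (Bx f1 f2 (2 ^ b) 0 (e 0)).card + (Bx f1 f2 (2 ^ b) (e m) n).card := by
      exact_mod_cast Finset.card_union_le _ _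
    have h4 : 128 * (Sc.card : ℤ) ≤ 3 * N := by linarith
    have h5 : 128 * (Sc.card : ℝ) ≤ 3 * N := by exact_mod_cast h4
    linarith
  -- the remaining boxes
  have hvis : ∀ Q, Q ∉ Sa → Q ∉ Sb → Q ∉ Sc → ∀ t ≤ n, bx f1 f2 (2 ^ b) t = Q →
      ∃ j, j < m ∧ hj f1 e j < 2 ^ (b + i0) ∧ e j ≤ t ∧ t ≤ e (j + 1) ∧ Q ∈ NBj f1 f2 n b i2 e j := by
    intro Q ha hb hc t ht hQ
    have hQB : Q ∈ Bx f1 f2 (2 ^ b) 0 n :=
      Finset.mem_image.mpr ⟨t, Finset.mem_Icc.mpr ⟨Nat.zero_le _, ht⟩, hQ⟩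
    have h1 : e 0 ≤ t := by
      by_contra h
      apply hc
      exact Finset.mem_union_left _
        (Finset.mem_image.mpr ⟨t, Finset.mem_Icc.mpr ⟨Nat.zero_le _, by omega⟩, hQ⟩)
    have h2 : t < e m := by
      by_contra h
      apply hc
      exact Finset.mem_union_right _
        (Finset.mem_image.mpr ⟨t, Finset.mem_Icc.mpr ⟨by omega, ht⟩, hQ⟩)
    obtain ⟨j, hjm, h3, h4⟩ := exists_leaf hL t h1 h2
    obtain ⟨u, v, hR, h5, h6⟩ := rowI_exists f1 (2 ^ b) e j t h3 h4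
    have h7 : ¬ Osc f2 u v (2 ^ (b + i2)) := by
      intro h
      apply ha
      exact Finset.mem_filter.mpr ⟨hQB, j, hjm, _, u, v, t, hR, h, h5, h6, rfl, hQ.symm⟩
    have h8 : Q ∈ NB f1 f2 n b i2 e (j, f1 t / 2 ^ b) :=
      Finset.mem_filter.mpr ⟨hQB, u, v, t, hR, h7, h5, h6, rfl, hQ.symm⟩
    have h9 : f1 t / 2 ^ b ∈ (Icc 0 n).image (fun t => f1 t / 2 ^ b) :=
      Finset.mem_image.mpr ⟨t, Finset.mem_Icc.mpr ⟨Nat.zero_le _, ht⟩, rfl⟩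
    refine ⟨j, hjm, ?_, h3, h4, ?_⟩
    · by_contra h
      rw [not_lt] at h
      apply hb
      exact Finset.mem_biUnion.mpr ⟨(j, f1 t / 2 ^ b), Finset.mem_filter.mpr
        ⟨Finset.mem_product.mpr ⟨Finset.mem_range.mpr hjm, h9⟩, h, u, v, hR⟩, h8⟩
    · exact Finset.mem_biUnion.mpr ⟨f1 t / 2 ^ b, Finset.mem_filter.mpr ⟨h9, u, v, hR⟩, h8⟩
  -- boxes visited by many leaves
  let Rel : ℕ → ℤ × ℤ → Prop := fun j Q => hj f1 e j < 2 ^ (b + i0) ∧ Q ∈ NBj f1 f2 n b i2 e j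
  set Sd : Finset (ℤ × ℤ) := (Bx f1 f2 (2 ^ b) 0 n).filter
    (fun Q => A' < ((range m).filter (fun j => Rel j Q)).card) with hSd
  have hSdc : (Sd.card : ℝ) ≤ 1 / 32 * N := by
    have h1 : ∑ Q ∈ Sd, ((range m).filter (fun j => Rel j Q)).card =
        ∑ j ∈ range m, (Sd.filter (fun Q => Rel j Q)).card :=
      Finset.sum_card_bipartiteAbove_eq_sum_card_bipartiteBelow (fun Q j => Rel j Q)
    have h2 : ∀ j ∈ range m, (Sd.filter (fun Q => Rel j Q)).card ≤ C3 := by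
      intro j hjm
      by_cases h : hj f1 e j < 2 ^ (b + i0)
      · refine (Finset.card_le_card ?_).trans
          (NBj_card f1 f2 n b m i0 i2 σ e hL j (Finset.mem_range.mp hjm) h)
        intro Q hQ
        exact (Finset.mem_filter.mp hQ).2.2
      · have h3 : Sd.filter (fun Q => Rel j Q) = ∅ := by
          apply Finset.filter_eq_empty_iff.mpr
          intro Q _ h4
          exact h h4.1
        rw [h3, Finset.card_empty]
        exact Nat.zero_le _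
    have h3 : Sd.card * A' ≤ m * C3 := by
      calc Sd.card * A' = ∑ _Q ∈ Sd, A' := by rw [Finset.sum_const, smul_eq_mul]
        _ ≤ ∑ Q ∈ Sd, ((range m).filter (fun j => Rel j Q)).card :=
            Finset.sum_le_sum fun Q hQ => (Finset.mem_filter.mp hQ).2.le
        _ = _ := h1
        _ ≤ ∑ _j ∈ range m, C3 := Finset.sum_le_sum h2
        _ = m * C3 := by rw [Finset.sum_const, smul_eq_mul, Finset.card_range]
    have h4 : (Sd.card : ℝ) * A' ≤ m * C3 := by exact_mod_cast h3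
    have hC3' : (1 : ℝ) ≤ C3 := by exact_mod_cast hC31
    have h5 : (Sd.card : ℝ) * (128 * A * C3) ≤ 4 * A * N * C3 := by
      calc (Sd.card : ℝ) * (128 * A * C3) ≤ Sd.card * A' :=
            mul_le_mul_of_nonneg_left hA' (Nat.cast_nonneg _)
        _ ≤ m * C3 := h4
        _ ≤ 4 * A * N * C3 := mul_le_mul_of_nonneg_right hm (by linarith)
    have h6 : (Sd.card : ℝ) * (128 * A * C3) ≤ (1 / 32 * N) * (128 * A * C3) := by
      refine h5.trans (le_of_eq ?_)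
      ring
    exact le_of_mul_le_mul_right h6 (by positivity)
  -- boxes visited by filling leaves
  set FF : Finset ℕ := (range m).filter (ShFill f1 f2 b μ i0 A' e) with hFF
  set Se : Finset (ℤ × ℤ) := FF.biUnion (fun j => NBj f1 f2 n b i2 e j) with hSe
  have hSec : (Se.card : ℝ) ≤ FF.card * C3 := by
    have h1 : Se.card ≤ FF.card * C3 := by
      calc Se.card ≤ ∑ j ∈ FF, (NBj f1 f2 n b i2 e j).card := Finset.card_biUnion_le
        _ ≤ ∑ _j ∈ FF, C3 := by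
            refine Finset.sum_le_sum fun j hjF => ?_
            obtain ⟨h2, h3⟩ := Finset.mem_filter.mp hjF
            exact NBj_card f1 f2 n b m i0 i2 σ e hL j (Finset.mem_range.mp h2) h3.1
        _ = _ := by rw [Finset.sum_const, smul_eq_mul]
    exact_mod_cast h1
  set S : Finset (ℤ × ℤ) := Sa ∪ Sb ∪ Sc ∪ Sd ∪ Se with hS
  have hfill := bx_fill f1 f2 n b μ hμ S (by
    intro Q hQ hQS
    simp only [hS, Finset.mem_union, not_or] at hQS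
    obtain ⟨⟨⟨⟨ha, hb⟩, hc⟩, hd⟩, he⟩ := hQS
    have hv := hvis Q ha hb hc
    have hcard : ((range m).filter (fun j => Rel j Q)).card ≤ A' := by
      by_contra h
      exact hd (Finset.mem_filter.mpr ⟨hQ, by omega⟩)
    set L : Finset ℕ := (range m).filter (fun j => Rel j Q) with hLdef
    have hsub : (Bx f1 f2 (2 ^ (b - μ)) 0 n).filter (fun p => par μ p = Q) ⊆
        L.biUnion (fun j => (Bx f1 f2 (2 ^ (b - μ)) (e j) (e (j + 1))).filter (fun p => par μ p = Q)) := by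
      intro p hp
      obtain ⟨h1, h2⟩ := Finset.mem_filter.mp hp
      obtain ⟨t, ht, rfl⟩ := Finset.mem_image.mp h1
      have h3 : bx f1 f2 (2 ^ b) t = Q := by
        rw [← par_bx f1 f2 b μ hμ t]
        exact h2
      obtain ⟨j, hjm, h4, h5, h6, h7⟩ := hv t (Finset.mem_Icc.mp ht).2 h3
      exact Finset.mem_biUnion.mpr ⟨j, Finset.mem_filter.mpr ⟨Finset.mem_range.mpr hjm, h4, h7⟩,
        Finset.mem_filter.mpr ⟨Finset.mem_image.mpr ⟨t, Finset.mem_Icc.mpr ⟨h5, h6⟩, rfl⟩, h2⟩⟩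
    by_contra hcon
    rw [not_le] at hcon
    have hall : ∀ j ∈ L, 4 * A' * ((Bx f1 f2 (2 ^ (b - μ)) (e j) (e (j + 1))).filter
        (fun p => par μ p = Q)).card ≤ 4 ^ μ := by
      intro j hjL
      by_contra h
      rw [not_le] at h
      obtain ⟨h1, h2, h3⟩ := Finset.mem_filter.mp hjL
      apply he
      exact Finset.mem_biUnion.mpr ⟨j, Finset.mem_filter.mpr ⟨h1, h2, Q, h.le⟩, h3⟩
    have h1 : 4 * A' * ((Bx f1 f2 (2 ^ (b - μ)) 0 n).filter (fun p => par μ p = Q)).card ≤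
        A' * 4 ^ μ := by
      calc 4 * A' * ((Bx f1 f2 (2 ^ (b - μ)) 0 n).filter (fun p => par μ p = Q)).card
          ≤ 4 * A' * ∑ j ∈ L, ((Bx f1 f2 (2 ^ (b - μ)) (e j) (e (j + 1))).filter
            (fun p => par μ p = Q)).card :=
            Nat.mul_le_mul_left _ ((Finset.card_le_card hsub).trans Finset.card_biUnion_le)
        _ = ∑ j ∈ L, 4 * A' * ((Bx f1 f2 (2 ^ (b - μ)) (e j) (e (j + 1))).filter
            (fun p => par μ p = Q)).card := by rw [Finset.mul_sum]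
        _ ≤ ∑ _j ∈ L, 4 ^ μ := Finset.sum_le_sum hall
        _ = L.card * 4 ^ μ := by rw [Finset.sum_const, smul_eq_mul]
        _ ≤ A' * 4 ^ μ := Nat.mul_le_mul_right _ hcard
    have h2 : A' * (4 * ((Bx f1 f2 (2 ^ (b - μ)) 0 n).filter (fun p => par μ p = Q)).card) ≤
        A' * 4 ^ μ := by
      calc _ = 4 * A' * ((Bx f1 f2 (2 ^ (b - μ)) 0 n).filter (fun p => par μ p = Q)).card := by ring
        _ ≤ _ := h1
    have h3 := Nat.le_of_mul_le_mul_left h2 (by omega)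
    omega)
  have hSc' : (S.card : ℝ) ≤ Sa.card + Sb.card + Sc.card + Sd.card + Se.card := by
    have h1 : S.card ≤ Sa.card + Sb.card + Sc.card + Sd.card + Se.card := by
      have h2 : (Sa ∪ Sb).card ≤ Sa.card + Sb.card := Finset.card_union_le _ _
      have h3 : (Sa ∪ Sb ∪ Sc).card ≤ (Sa ∪ Sb).card + Sc.card := Finset.card_union_le _ _
      have h4 : (Sa ∪ Sb ∪ Sc ∪ Sd).card ≤ (Sa ∪ Sb ∪ Sc).card + Sd.card := Finset.card_union_le _ _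
      have h5 : S.card ≤ (Sa ∪ Sb ∪ Sc ∪ Sd).card + Se.card := Finset.card_union_le _ _
      linarith
    exact_mod_cast h1
  have hf' : 4 * ((Bx f1 f2 (2 ^ (b - μ)) 0 n).card : ℝ) ≤ 4 ^ μ * (4 * S.card + N) := by
    exact_mod_cast hfill
  have h4 : (0 : ℝ) < 4 ^ μ := by positivity
  have h5 : (S.card : ℝ) ≤ 1 / 8 * N + FF.card * C3 := by linarith
  nlinarith

end SDG

end HexObs
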