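import Pool.Agent.TightS.Params
import Pool.Agent.TightN.SNum

/-!
SDN, Peierls 1: choice of the parameters.
-/

set_option autoImplicit false

namespace HexObs

namespace SDN

open Finset TS

open scoped ENNReal

lemma Ub_eq (j : ℕ) : Ub j = UU (2 ^ j) := rfl

lemma Ub_up (k a : ℕ) (h : a ≤ k) : Ub k / Ub (k - a) ≤ 2 ^ a := by
  rw [div_le_iff₀ (Ub_pos _)]
  have h1 := UU_ratio_up (k - a) a
  rw [Nat.sub_add_cancel h] at h1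
  exact h1

/-- a power of 1/2 times a constant is small -/
lemma exists_half_pow (C ε : ℝ) (hε : 0 < ε) : ∃ n : ℕ, C * (1 / 2 : ℝ) ^ n ≤ ε := by
  rcases le_or_gt C 0 with h | h
  · exact ⟨0, by rw [pow_zero, mul_one]; linarith⟩
  · obtain ⟨n, hn⟩ := exists_pow_lt_of_lt_one (div_pos hε h) (by norm_num : (1 / 2 : ℝ) < 1)
    refine ⟨n, ?_⟩
    rw [lt_div_iff₀ h] at hn
    linarith

/-- the same with a real exponent -/
lemma exists_rpow (C ε c : ℝ) (hC : 0 ≤ C) (hε : 0 < ε) (hc : 0 < c) : ∃ n : ℕ, ∀ m : ℕ, n ≤ m →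
    C * (2 : ℝ) ^ (-(c * m)) ≤ ε := by
  obtain ⟨N, hN⟩ := exists_half_pow C ε hε
  obtain ⟨n, hn⟩ := exists_nat_ge ((N : ℝ) / c)
  refine ⟨n, fun m hm => le_trans (mul_le_mul_of_nonneg_left ?_ hC) hN⟩
  have h1 : (N : ℝ) ≤ c * m := by
    rw [div_le_iff₀ hc] at hn
    have : (n : ℝ) ≤ m := by exact_mod_cast hm
    nlinarith
  calc (2 : ℝ) ^ (-(c * m)) ≤ (2 : ℝ) ^ (-(N : ℝ)) := Real.rpow_le_rpow_of_exponent_le (by norm_num) (by linarith)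
    _ = (1 / 2) ^ N := by
        rw [Real.rpow_neg (by norm_num), Real.rpow_natCast, one_div, inv_pow]

/-- choice of k - j1 = a, j1 - j3 = a', K0, k - om = w0 -/
theorem params1 (K c C ε : ℝ) (hK : 1 ≤ K) (hc : 0 < c) (hC : 0 < C) (hε : 0 < ε) :
    ∃ a a' w0 K0 : ℕ, 3 ≤ a ∧ 1 ≤ K0 ∧ ∀ k : ℕ, a + a' + w0 ≤ k →
      2 * K ^ 2 * ((2 : ℝ) ^ (-(c * ((k : ℝ) - (k - a : ℕ)))) + Ub (k - a - a') / Ub (k - a)) +
        C * (K0 * (2 ^ (k - w0) : ℕ) * 2 ^ k / 4 ^ (k - a - a') + 1 / K0) * (K * (Ub k / Ub (k - a))) ^ 2 ≤ ε := by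
  obtain ⟨θ, hθ, hdown⟩ := UU_ratio_down
  obtain ⟨a0, ha0⟩ := exists_rpow (2 * K ^ 2) (ε / 4) c (by positivity) (by linarith) hc
  obtain ⟨a, ha⟩ : ∃ a, a = max a0 3 := ⟨_, rfl⟩
  obtain ⟨a', ha'⟩ := exists_rpow (2 * K ^ 2 * 2) (ε / 4) θ (by positivity) (by linarith) hθ
  obtain ⟨K0, hK0⟩ := exists_nat_ge (max 1 (C * (K * 2 ^ a) ^ 2 / (ε / 4)))
  have hK01 : (1 : ℝ) ≤ K0 := (le_max_left _ _).trans hK0
  have hK02 : C * (K * 2 ^ a) ^ 2 / (ε / 4) ≤ K0 := (le_max_right _ _).trans hK0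
  obtain ⟨w0, hw0⟩ := exists_half_pow (C * K0 * 4 ^ (a + a') * (K * 2 ^ a) ^ 2) (ε / 4) (by linarith)
  refine ⟨a, a', w0, K0, by rw [ha]; exact le_max_right _ _, by exact_mod_cast hK01, fun k hk => ?_⟩
  have hv := Ub_up k a (by omega)
  have hv0 : 0 ≤ Ub k / Ub (k - a) := (div_pos (Ub_pos _) (Ub_pos _)).le
  have e1 : (k : ℝ) - (k - a : ℕ) = a := by
    rw [Nat.cast_sub (by omega)]
    ring
  have t1 : 2 * K ^ 2 * (2 : ℝ) ^ (-(c * ((k : ℝ) - (k - a : ℕ)))) ≤ ε / 4 := by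
    rw [e1]
    exact ha0 a (by rw [ha]; exact le_max_left _ _)
  have t2 : 2 * K ^ 2 * (Ub (k - a - a') / Ub (k - a)) ≤ ε / 4 := by
    have h1 := hdown (k - a - a') a'
    rw [Nat.sub_add_cancel (by omega : a' ≤ k - a)] at h1
    have h2 := ha' a' le_rfl
    calc 2 * K ^ 2 * (Ub (k - a - a') / Ub (k - a)) ≤ 2 * K ^ 2 * (2 * (2 : ℝ) ^ (-(θ * a'))) :=
          mul_le_mul_of_nonneg_left h1 (by positivity)
      _ = 2 * K ^ 2 * 2 * (2 : ℝ) ^ (-(θ * a')) := by ring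
      _ ≤ ε / 4 := h2
  have hsq : (K * (Ub k / Ub (k - a))) ^ 2 ≤ (K * 2 ^ a) ^ 2 := by
    apply pow_le_pow_left₀ (by positivity)
    exact mul_le_mul_of_nonneg_left hv (by linarith)
  have e2 : (K0 : ℝ) * ((2 ^ (k - w0) : ℕ) : ℝ) * 2 ^ k / 4 ^ (k - a - a') = K0 * 4 ^ (a + a') * (1 / 2) ^ w0 := by
    have h1 : (2 : ℝ) ^ k = 2 ^ (k - w0) * 2 ^ w0 := by rw [← pow_add, Nat.sub_add_cancel (by omega)]
    have h2 : (4 : ℝ) ^ k = 4 ^ (k - a - a') * 4 ^ (a + a') := by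
      rw [← pow_add]
      congr 1
      omega
    have h3 : (4 : ℝ) ^ k = 2 ^ k * 2 ^ k := by
      rw [← mul_pow]
      norm_num
    push_cast
    rw [div_eq_iff (by positivity), one_div, inv_pow]
    have h5 : (2 : ℝ) ^ w0 ≠ 0 := by positivity
    have h4 : (2 : ℝ) ^ (k - w0) * 2 ^ k * 2 ^ w0 = 4 ^ (k - a - a') * 4 ^ (a + a') := by
      rw [← h2, h3]
      nth_rewrite 2 [h1]
      ring
    have h6 : (K0 : ℝ) * 2 ^ (k - w0) * 2 ^ k = K0 * (2 ^ (k - w0) * 2 ^ k * 2 ^ w0) * (2 ^ w0)⁻¹ := by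
      field_simp
    rw [h6, h4]
    ring
  have t3 : C * (K0 * (2 ^ (k - w0) : ℕ) * 2 ^ k / 4 ^ (k - a - a')) * (K * (Ub k / Ub (k - a))) ^ 2 ≤ ε / 4 := by
    rw [e2]
    calc C * (K0 * 4 ^ (a + a') * (1 / 2) ^ w0) * (K * (Ub k / Ub (k - a))) ^ 2 ≤
          C * (K0 * 4 ^ (a + a') * (1 / 2) ^ w0) * (K * 2 ^ a) ^ 2 := by gcongr
      _ = C * K0 * 4 ^ (a + a') * (K * 2 ^ a) ^ 2 * (1 / 2) ^ w0 := by ring
      _ ≤ ε / 4 := hw0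
  have t4 : C * (1 / K0) * (K * (Ub k / Ub (k - a))) ^ 2 ≤ ε / 4 := by
    rw [div_le_iff₀ (by linarith)] at hK02
    have hK0p : (0 : ℝ) < K0 := by linarith
    calc C * (1 / K0) * (K * (Ub k / Ub (k - a))) ^ 2 ≤ C * (1 / K0) * (K * 2 ^ a) ^ 2 := by gcongr
      _ = C * (K * 2 ^ a) ^ 2 / K0 := by ring
      _ ≤ ε / 4 := by
          rw [div_le_iff₀ hK0p]
          linarith
  calc 2 * K ^ 2 * ((2 : ℝ) ^ (-(c * ((k : ℝ) - (k - a : ℕ)))) + Ub (k - a - a') / Ub (k - a)) +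
        C * (K0 * (2 ^ (k - w0) : ℕ) * 2 ^ k / 4 ^ (k - a - a') + 1 / K0) * (K * (Ub k / Ub (k - a))) ^ 2 =
      2 * K ^ 2 * (2 : ℝ) ^ (-(c * ((k : ℝ) - (k - a : ℕ)))) + 2 * K ^ 2 * (Ub (k - a - a') / Ub (k - a)) +
        (C * (K0 * (2 ^ (k - w0) : ℕ) * 2 ^ k / 4 ^ (k - a - a')) * (K * (Ub k / Ub (k - a))) ^ 2 +
          C * (1 / K0) * (K * (Ub k / Ub (k - a))) ^ 2) := by ring
    _ ≤ ε := by linarith

end SDN

end HexObs
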