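import Pool.Agent.SDN.ChainA
import Pool.Agent.SDN.Num1
import Pool.Agent.SDN.Split

/-!
SDN, Peierls 1 (crowding): the weight of the walks with m leaves of the scale b, few doublings and few visited cells.
-/

set_option autoImplicit false

namespace HexObs

namespace SDN

open Finset TS

open scoped ENNReal

namespace PE

open Ch

/-- the inputs of both Peierls estimates that come from the norm -/
structure Nrm (K c : ℝ) : Prop where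
  one_le : 1 ≤ K
  pos : 0 < c
  one : ∀ k, xT (2 ^ (k + 4)) k (fun _ => 1) ≤ 2
  tot : ∀ (k N : ℕ) (Φ : List Bool → ℝ≥0∞), Hered Φ →
    sB (BrR (2 ^ (k + 4)) N) (fun g => wE g * (tl (2 ^ (k + 4)) (hgt g) * Φ g)) ≤
      ENNReal.ofReal (K * Ub (k + 4)) * xT (2 ^ (k + 4)) k Φ
  tA : ∀ (k N : ℕ) (Φ : List Bool → ℝ≥0∞), Hered Φ →
    xT (2 ^ (k + 4)) k (tA (2 ^ (k + 4)) N LFold Φ) ≤ ENNReal.ofReal K * xT (2 ^ (k + 4)) k Φ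
  tB : ∀ (k j1 j3 N : ℕ) (Φ : List Bool → ℝ≥0∞), j1 + 3 ≤ k → j3 ≤ j1 → Hered Φ →
    xT (2 ^ (k + 4)) k (tB (2 ^ (k + 4)) N k j1 j3 LFold Φ) ≤
      ENNReal.ofReal (K * ((2 : ℝ) ^ (-(c * ((k : ℝ) - j1))) + Ub j3 / Ub j1)) * xT (2 ^ (k + 4)) k Φ
  tU : ∀ (k j1 j3 N : ℕ) (Φ : List Bool → ℝ≥0∞), j1 + 3 ≤ k → Hered Φ →
    xT (2 ^ (k + 4)) k (tU (2 ^ (k + 4)) N k j1 j3 LFold Φ) ≤
      ENNReal.ofReal (K * (Ub k / Ub j1)) * xT (2 ^ (k + 4)) k Φ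

lemma xT_smul' (D k : ℕ) (c : ℝ≥0∞) (Φ : List Bool → ℝ≥0∞) : xT D k (fun t => c * Φ t) ≤ c * xT D k Φ := by
  unfold xT
  refine iSup_le fun b => iSup_le fun I => ?_
  rw [Rec8.sw_mul_left, mul_div_assoc]
  exact mul_le_mul_right (le_iSup₂ (f := fun (b : Fin (k + 1)) (I : {I : List Bool // ∃ r, I ∈ Irr r}) =>
    Rec8.sw (Fld.BrB b) (fun M => Φ (I.1 ++ M)) / Sw D k b I.1) b I) _

/-- two leaves that are not crowded -/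
lemma two_norm {K c : ℝ} (h : Nrm K c) {k j1 j3 N : ℕ} (h1 : j1 + 3 ≤ k) (h3 : j3 ≤ j1) {κ lam : ℝ} (hκ : 0 ≤ κ)
    (hl : 2 * K ^ 2 * ((2 : ℝ) ^ (-(c * ((k : ℝ) - j1))) + Ub j3 / Ub j1) + κ * (K * (Ub k / Ub j1)) ^ 2 ≤ lam)
    (Φ : List Bool → ℝ≥0∞) (hΦ : Hered Φ) :
    xT (2 ^ (k + 4)) k (fun t => SDN.tB (2 ^ (k + 4)) N k j1 j3 LFold (SDN.tA (2 ^ (k + 4)) N LFold Φ) t +
      SDN.tA (2 ^ (k + 4)) N LFold (SDN.tB (2 ^ (k + 4)) N k j1 j3 LFold Φ) t +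
        ENNReal.ofReal κ * SDN.tU (2 ^ (k + 4)) N k j1 j3 LFold (SDN.tU (2 ^ (k + 4)) N k j1 j3 LFold Φ) t) ≤
      ENNReal.ofReal lam * xT (2 ^ (k + 4)) k Φ := by
  have hK := h.one_le
  have hβ : 0 ≤ (2 : ℝ) ^ (-(c * ((k : ℝ) - j1))) + Ub j3 / Ub j1 := by
    have h5 := Ub_pos j3
    have h6 := Ub_pos j1
    positivity
  have hv : 0 ≤ Ub k / Ub j1 := (div_pos (Ub_pos _) (Ub_pos _)).le
  obtain ⟨β, hβe⟩ : ∃ β, β = (2 : ℝ) ^ (-(c * ((k : ℝ) - j1))) + Ub j3 / Ub j1 := ⟨_, rfl⟩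
  obtain ⟨v, hve⟩ : ∃ v, v = Ub k / Ub j1 := ⟨_, rfl⟩
  have hb := fun Ψ hΨ => h.tB k j1 j3 N Ψ h1 h3 hΨ
  have hu := fun Ψ hΨ => h.tU k j1 j3 N Ψ h1 hΨ
  have ha := fun Ψ hΨ => h.tA k N Ψ hΨ
  rw [← hβe] at hl hb hβ
  rw [← hve] at hl hu hv
  refine (Ch.xT_add _ _ _ _).trans ?_
  refine (add_le_add (Ch.xT_add _ _ _ _) (xT_smul' _ _ _ _)).trans ?_
  have e1 := (hb _ (hered_tA (2 ^ (k + 4)) N LFold Φ)).trans (mul_le_mul_right (ha Φ hΦ) _)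
  have e2 := (ha _ (hered_tB (2 ^ (k + 4)) N k j1 j3 LFold Φ)).trans (mul_le_mul_right (hb Φ hΦ) _)
  have e3 := (hu _ (hered_tU (2 ^ (k + 4)) N k j1 j3 LFold Φ)).trans (mul_le_mul_right (hu Φ hΦ) _)
  refine (add_le_add (add_le_add e1 e2) (mul_le_mul_right e3 _)).trans ?_
  have e4 : ENNReal.ofReal (K * β) * (ENNReal.ofReal K * xT (2 ^ (k + 4)) k Φ) +
      ENNReal.ofReal K * (ENNReal.ofReal (K * β) * xT (2 ^ (k + 4)) k Φ) +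
      ENNReal.ofReal κ * (ENNReal.ofReal (K * v) * (ENNReal.ofReal (K * v) * xT (2 ^ (k + 4)) k Φ)) =
      ENNReal.ofReal (2 * K ^ 2 * β + κ * (K * v) ^ 2) * xT (2 ^ (k + 4)) k Φ := by
    rw [ENNReal.ofReal_add (by positivity) (by positivity), ENNReal.ofReal_mul hκ]
    have e5 : ENNReal.ofReal (2 * K ^ 2 * β) = ENNReal.ofReal (K * β) * ENNReal.ofReal K +
        ENNReal.ofReal (K * β) * ENNReal.ofReal K := by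
      rw [← ENNReal.ofReal_mul (by positivity), ← ENNReal.ofReal_add (by positivity) (by positivity)]
      congr 1
      ring
    have e6 : ENNReal.ofReal ((K * v) ^ 2) = ENNReal.ofReal (K * v) * ENNReal.ofReal (K * v) := by
      rw [sq, ENNReal.ofReal_mul (by positivity)]
    rw [e5, e6]
    ring
  rw [e4]
  exact mul_le_mul_left (ENNReal.ofReal_le_ofReal hl) _

/-- the chain sum with explicit numbers -/
lemma chain_num {K c : ℝ} (h : Nrm K c) {k j1 j3 N w n j : ℕ} (h1 : j1 + 3 ≤ k) (h3 : j3 ≤ j1) {κ lam : ℝ} (hκ : 0 ≤ κ)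
    (hl : 2 * K ^ 2 * ((2 : ℝ) ^ (-(c * ((k : ℝ) - j1))) + Ub j3 / Ub j1) + κ * (K * (Ub k / Ub j1)) ^ 2 ≤ lam)
    (hl0 : 0 ≤ lam) (hl1 : lam ≤ 1) (hP : PairCap (2 ^ (k + 4)) N k j1 j3 w (ENNReal.ofReal κ)) :
    ∑' gs : {gs // gs ∈ C1 (2 ^ (k + 4)) N (k + 2) w n (j + 1)}, wt (2 ^ (k + 4)) gs.1 ≤
      ENNReal.ofReal (K * Ub (k + 4) * (K * (2 * (2 ^ j * K ^ (2 * (n - 1)) * lam ^ (j - (n - 1)))))) := by
  have hK := h.one_le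
  have hK0 : 0 ≤ K := by linarith
  have hU := (Ub_pos (k + 4)).le
  have hC := C1_le (K := ENNReal.ofReal K) (K0 := ENNReal.ofReal (K * Ub (k + 4))) (lam := ENNReal.ofReal lam) hP
    (by rw [← ENNReal.ofReal_one]; exact ENNReal.ofReal_le_ofReal hK)
    (by rw [← ENNReal.ofReal_one]; exact ENNReal.ofReal_le_ofReal hl1)
    (fun Φ hΦ => h.tA k N Φ hΦ) (fun Φ hΦ => two_norm h h1 h3 hκ hl Φ hΦ) (fun Φ hΦ => h.tot k N Φ hΦ) n j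
  refine hC.trans ?_
  have h2 := h.one k
  calc ENNReal.ofReal (K * Ub (k + 4)) * (ENNReal.ofReal K * (xT (2 ^ (k + 4)) k (fun _ => 1) *
        (2 ^ j * ENNReal.ofReal K ^ (2 * (n - 1)) * ENNReal.ofReal lam ^ (j - (n - 1))))) ≤
      ENNReal.ofReal (K * Ub (k + 4)) * (ENNReal.ofReal K * (2 *
        (2 ^ j * ENNReal.ofReal K ^ (2 * (n - 1)) * ENNReal.ofReal lam ^ (j - (n - 1))))) := by gcongr
    _ = _ := by
      have e2 : (2 : ℝ≥0∞) = ENNReal.ofReal 2 := by norm_num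
      rw [e2, ← ENNReal.ofReal_pow (by norm_num), ← ENNReal.ofReal_pow hK0, ← ENNReal.ofReal_pow hl0,
        ← ENNReal.ofReal_mul (by positivity), ← ENNReal.ofReal_mul (by positivity),
        ← ENNReal.ofReal_mul (by positivity), ← ENNReal.ofReal_mul hK0, ← ENNReal.ofReal_mul (by positivity)]

/-- the numbers of the Peierls argument -/
lemma pow_num (Λ : ℕ) {m n j Q : ℕ} {K : ℝ} (hK : 1 ≤ K) (hKQ : K ≤ 2 ^ Q) (hn : 2 * Q * n ≤ m) (hQ : 2 ≤ Q)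
    (hj : j = (m - 4) / 2) (hm : 4 ≤ m) :
    (4 : ℝ) ^ (Λ * m) * (2 ^ j * K ^ (2 * (n - 1)) * ((1 / 2 : ℝ) ^ (4 * (2 * Λ + 6))) ^ (j - (n - 1))) ≤
      2 ^ (10 * (2 * Λ + 6)) / 4 ^ m := by
  have h1 : K ^ (2 * (n - 1)) ≤ 2 ^ m := by
    calc K ^ (2 * (n - 1)) ≤ (2 ^ Q) ^ (2 * (n - 1)) := pow_le_pow_left₀ (by linarith) hKQ _
      _ = 2 ^ (Q * (2 * (n - 1))) := (pow_mul 2 Q _).symm
      _ ≤ 2 ^ m := by
          apply pow_le_pow_right₀ (by norm_num)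
          refine le_trans ?_ hn
          calc Q * (2 * (n - 1)) ≤ Q * (2 * n) := by gcongr; omega
            _ = 2 * Q * n := by ring
  have h4 : 4 * n ≤ m := le_trans (Nat.mul_le_mul_right n (by omega)) hn
  have h2 : m ≤ 4 * (j - (n - 1)) + 10 := by omega
  obtain ⟨r, hr⟩ : ∃ r, r = 2 * Λ + 6 := ⟨_, rfl⟩
  rw [← hr]
  have h5 : ((1 / 2 : ℝ) ^ (4 * r)) ^ (j - (n - 1)) * 2 ^ (r * m) ≤ 2 ^ (10 * r) := by
    rw [← pow_mul, one_div, inv_pow, inv_mul_le_iff₀ (by positivity), ← pow_add]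
    apply pow_le_pow_right₀ (by norm_num)
    calc r * m ≤ r * (4 * (j - (n - 1)) + 10) := Nat.mul_le_mul_left r h2
      _ = 4 * r * (j - (n - 1)) + 10 * r := by ring
  have h6 : (2 : ℝ) ^ j ≤ 2 ^ m := pow_le_pow_right₀ (by norm_num) (by omega)
  rw [le_div_iff₀ (by positivity)]
  have e4 : (4 : ℝ) ^ (Λ * m) = 2 ^ (2 * Λ * m) := by
    rw [show (4 : ℝ) = 2 ^ 2 by norm_num, ← pow_mul]
    congr 1
    ring
  have e5 : (4 : ℝ) ^ m = 2 ^ (2 * m) := by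
    rw [show (4 : ℝ) = 2 ^ 2 by norm_num, ← pow_mul]
  rw [e4, e5]
  calc (2 : ℝ) ^ (2 * Λ * m) * (2 ^ j * K ^ (2 * (n - 1)) * ((1 / 2 : ℝ) ^ (4 * r)) ^ (j - (n - 1))) * 2 ^ (2 * m) ≤
        2 ^ (2 * Λ * m) * (2 ^ m * 2 ^ m * ((1 / 2 : ℝ) ^ (4 * r)) ^ (j - (n - 1))) * 2 ^ (2 * m) := by gcongr
    _ = ((1 / 2 : ℝ) ^ (4 * r)) ^ (j - (n - 1)) * 2 ^ ((2 * Λ + 4) * m) := by
        have : (2 : ℝ) ^ ((2 * Λ + 4) * m) = 2 ^ (2 * Λ * m) * 2 ^ m * 2 ^ m * 2 ^ (2 * m) := by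
          rw [← pow_add, ← pow_add, ← pow_add]
          congr 1
          ring
        rw [this]
        ring
    _ ≤ ((1 / 2 : ℝ) ^ (4 * r)) ^ (j - (n - 1)) * 2 ^ (r * m) := by
        gcongr
        · norm_num
        · omega
    _ ≤ 2 ^ (10 * r) := h5

end PE

open PE Ch in
/-- THE CROWDING ESTIMATE FOR CHAINS: m leaves, at most Λ m doublings, at most m / (2 Q) block pairs -/
theorem crowd_chain' {K c Cs : ℝ} (h : Nrm K c) (hCs : 0 < Cs) (hP : ∀ N k j1 j3 w K0 : ℕ, 1 ≤ w → w ≤ 2 ^ k → 1 ≤ K0 →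
      j1 + 3 ≤ k → j3 ≤ j1 →
      PairCap (2 ^ (k + 4)) N k j1 j3 w (ENNReal.ofReal (Cs * (K0 * w * 2 ^ k / 4 ^ j3 + 1 / K0)))) (Λ : ℕ) :
    ∃ (k0 w0 Q : ℕ) (C : ℝ), w0 ≤ k0 ∧ 2 ≤ Q ∧ 0 < C ∧ ∀ k N m n : ℕ, k0 ≤ k → 4 ≤ m → 2 * Q * n ≤ m →
      ∑' gs : {gs // gs ∈ C1 (2 ^ (k + 4)) N (k + 2) (2 ^ (k - w0)) n ((m - 4) / 2 + 1) ∧
        dbl (2 ^ (k + 4)) gs ≤ Λ * m}, wl gs.1 ≤ ENNReal.ofReal (C * Ub (k + 4) / 4 ^ m) := by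
  have hK := h.one_le
  obtain ⟨r, hr⟩ : ∃ r, r = 2 * Λ + 6 := ⟨_, rfl⟩
  obtain ⟨a, a', w0, K0, ha, hK0, hpar⟩ := params1 K c Cs ((1 / 2) ^ (4 * r)) hK h.pos hCs (by positivity)
  obtain ⟨Q0, hQ0⟩ := pow_unbounded_of_one_lt K (by norm_num : (1 : ℝ) < 2)
  obtain ⟨Q, hQ⟩ : ∃ Q, Q = max Q0 2 := ⟨_, rfl⟩
  have hKQ : K ≤ 2 ^ Q := by
    refine hQ0.le.trans (pow_le_pow_right₀ (by norm_num) ?_)
    rw [hQ]
    exact le_max_left _ _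
  have hQ2 : 2 ≤ Q := by
    rw [hQ]
    exact le_max_right _ _
  refine ⟨a + a' + w0, w0, Q, 2 * K ^ 2 * 2 ^ (10 * r), by omega, hQ2, by positivity, fun k N m n hk hm hn => ?_⟩
  obtain ⟨w, hw⟩ : ∃ w, w = 2 ^ (k - w0) := ⟨_, rfl⟩
  have hw1 : 1 ≤ w := by
    rw [hw]
    exact Nat.one_le_two_pow
  have hw2 : w ≤ 2 ^ k := by
    rw [hw]
    exact Nat.pow_le_pow_right (by norm_num) (by omega)
  rw [← hw]
  have hpar' := hpar k hk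
  have hPC := hP N k (k - a) (k - a - a') w K0 hw1 hw2 hK0 (by omega) (by omega)
  obtain ⟨κ, hκ⟩ : ∃ κ : ℝ, κ = Cs * (K0 * w * 2 ^ k / 4 ^ (k - a - a') + 1 / K0) := ⟨_, rfl⟩
  rw [← hκ] at hPC
  rw [← hw, ← hκ] at hpar'
  have hκ0 : 0 ≤ κ := by
    rw [hκ]
    positivity
  have h1 := chain_num h (N := N) (w := w) (n := n) (j := (m - 4) / 2) (by omega : k - a + 3 ≤ k)
    (by omega : k - a - a' ≤ k - a) hκ0 hpar' (by positivity)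
    (pow_le_one₀ (by norm_num) (by norm_num)) hPC
  refine (untilt (2 ^ (k + 4)) (Λ * m) (C1 (2 ^ (k + 4)) N (k + 2) w n ((m - 4) / 2 + 1))).trans ?_
  have e4 : (4 : ℝ≥0∞) ^ (Λ * m) = ENNReal.ofReal (4 ^ (Λ * m)) := by
    rw [ENNReal.ofReal_pow (by norm_num)]
    norm_num
  rw [e4]
  refine (mul_le_mul_right h1 _).trans ?_
  rw [← ENNReal.ofReal_mul (by positivity)]
  apply ENNReal.ofReal_le_ofReal
  have h2 := pow_num Λ (j := (m - 4) / 2) hK hKQ hn hQ2 rfl hm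
  rw [← hr] at h2
  have hU := (Ub_pos (k + 4)).le
  calc (4 : ℝ) ^ (Λ * m) * (K * Ub (k + 4) * (K * (2 * (2 ^ ((m - 4) / 2) * K ^ (2 * (n - 1)) *
        ((1 / 2 : ℝ) ^ (4 * r)) ^ ((m - 4) / 2 - (n - 1)))))) =
      2 * K ^ 2 * Ub (k + 4) * ((4 : ℝ) ^ (Λ * m) * (2 ^ ((m - 4) / 2) * K ^ (2 * (n - 1)) *
        ((1 / 2 : ℝ) ^ (4 * r)) ^ ((m - 4) / 2 - (n - 1)))) := by ring
    _ ≤ 2 * K ^ 2 * Ub (k + 4) * (2 ^ (10 * r) / 4 ^ m) := by gcongr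
    _ = 2 * K ^ 2 * 2 ^ (10 * r) * Ub (k + 4) / 4 ^ m := by ring

open PE Ch in
/-- THE CROWDING ESTIMATE FOR CHAINS: m leaves, at most 12 m doublings, at most m / (2 Q) block pairs -/
theorem crowd_chain {K c Cs : ℝ} (h : Nrm K c) (hCs : 0 < Cs) (hP : ∀ N k j1 j3 w K0 : ℕ, 1 ≤ w → w ≤ 2 ^ k → 1 ≤ K0 →
      j1 + 3 ≤ k → j3 ≤ j1 →
      PairCap (2 ^ (k + 4)) N k j1 j3 w (ENNReal.ofReal (Cs * (K0 * w * 2 ^ k / 4 ^ j3 + 1 / K0)))) :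
    ∃ (k0 w0 Q : ℕ) (C : ℝ), w0 ≤ k0 ∧ 2 ≤ Q ∧ 0 < C ∧ ∀ k N m n : ℕ, k0 ≤ k → 4 ≤ m → 2 * Q * n ≤ m →
      ∑' gs : {gs // gs ∈ C1 (2 ^ (k + 4)) N (k + 2) (2 ^ (k - w0)) n ((m - 4) / 2 + 1) ∧
        dbl (2 ^ (k + 4)) gs ≤ 12 * m}, wl gs.1 ≤ ENNReal.ofReal (C * Ub (k + 4) / 4 ^ m) :=
  crowd_chain' h hCs hP 12

end SDN

end HexObs
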