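import Pool.Agent.SDN.XT
import Pool.Agent.SDN.Peierls1

/-!
SDN: the inputs of the Peierls estimates from the norm.
-/

set_option autoImplicit false

namespace HexObs

namespace SDN

open Finset TS

open scoped ENNReal

theorem nrm_exists : ∃ K c : ℝ, PE.Nrm K c := by
  obtain ⟨K1, hK1, h1⟩ := x_tot
  obtain ⟨K2, hK2, h2⟩ := x_tA
  obtain ⟨K3, c, hK3, hc, h3⟩ := x_tB
  obtain ⟨K4, hK4, h4⟩ := x_tU
  refine ⟨K1 + K2 + K3 + K4, c, by linarith, hc, fun k => Ch.xT_one _ _, ?_, ?_, ?_, ?_⟩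
  · intro k N Φ hΦ
    refine (h1 k N Φ hΦ).trans (mul_le_mul_left (ENNReal.ofReal_le_ofReal ?_) _)
    exact mul_le_mul_of_nonneg_right (by linarith) (Ub_pos _).le
  · intro k N Φ hΦ
    refine (h2 k N Φ hΦ).trans (mul_le_mul_left (ENNReal.ofReal_le_ofReal ?_) _)
    linarith
  · intro k j1 j3 N Φ a1 a2 hΦ
    refine (h3 k j1 j3 N Φ a1 a2 hΦ).trans (mul_le_mul_left (ENNReal.ofReal_le_ofReal ?_) _)
    have h5 := Ub_pos j3
    have h6 := Ub_pos j1
    exact mul_le_mul_of_nonneg_right (by linarith) (by positivity)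
  · intro k j1 j3 N Φ a1 hΦ
    refine (h4 k j1 j3 N Φ a1 hΦ).trans (mul_le_mul_left (ENNReal.ofReal_le_ofReal ?_) _)
    have h5 := Ub_pos k
    have h6 := Ub_pos j1
    exact mul_le_mul_of_nonneg_right (by linarith) (by positivity)

end SDN

end HexObs
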