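import Pool.Agent.SDN.Defs
import Pool.Agent.TightS.PairStep
import Pool.Agent.Tight.LatT

/-!
SDN, module PairLoc: the pairs of a non-crossing set between two sets of blocks, and the weight of the pairs of bridges whose
lateral steps fall into a pair of blocks of a non-crossing set.
-/

set_option autoImplicit false

namespace HexObs

namespace SDN

open Finset TS

open scoped ENNReal

open Rec8 (sw)

namespace PL_aux

lemma inter_swap (p q : ℤ × ℤ) : Inter p.swap q.swap ↔ Inter p q := by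
  unfold Inter
  rw [Prod.fst_swap, Prod.snd_swap, Prod.fst_swap, Prod.snd_swap, min_comm p.2, max_comm p.2, min_comm q.2,
    max_comm q.2]

/-- increasing pairs -/
lemma card_lt {E : Finset (ℤ × ℤ)} (hE : ∀ p ∈ E, ∀ q ∈ E, ¬ Inter p q) {A B : Finset ℤ}
    (h1 : ∀ p ∈ E, p.1 ∈ A ∧ p.2 ∈ B) (h2 : ∀ p ∈ E, p.1 < p.2) : E.card ≤ A.card + B.card := by
  classical
  obtain ⟨A', hA'⟩ : ∃ A', A' = E.filter (fun p => ∀ q ∈ E, q.1 = p.1 → q.2 ≤ p.2) := ⟨_, rfl⟩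
  obtain ⟨B', hB'⟩ : ∃ B', B' = E.filter (fun p => ∀ q ∈ E, q.2 = p.2 → p.1 ≤ q.1) := ⟨_, rfl⟩
  have hcov : E ⊆ A' ∪ B' := by
    intro p hp
    by_contra hc
    rw [hA', hB'] at hc
    simp only [mem_union, mem_filter, not_or, not_and] at hc
    obtain ⟨h3, h4⟩ := hc
    have h3 := h3 hp
    have h4 := h4 hp
    push Not at h3 h4
    obtain ⟨q, hq, hq1, hq2⟩ := h3
    obtain ⟨r, hr, hr1, hr2⟩ := h4
    have e1 := h2 p hp
    have e2 := h2 q hq
    have e3 := h2 r hr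
    refine hE r hr q hq ⟨?_, ?_, ?_⟩
    · rw [min_eq_left e3.le, min_eq_left e2.le, hq1]
      exact hr2
    · rw [min_eq_left e2.le, max_eq_right e3.le, hq1, hr1]
      exact e1
    · rw [max_eq_right e3.le, max_eq_right e2.le, hr1]
      exact hq2
  have cA : A'.card ≤ A.card := by
    refine card_le_card_of_injOn Prod.fst (fun p hp => ?_) ?_
    · rw [hA'] at hp
      exact (h1 p (mem_filter.1 (Finset.mem_coe.1 hp)).1).1
    · intro p hp q hq hpq
      rw [hA'] at hp hq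
      have hp' := mem_filter.1 (Finset.mem_coe.1 hp)
      have hq' := mem_filter.1 (Finset.mem_coe.1 hq)
      exact Prod.ext hpq (le_antisymm (hq'.2 p hp'.1 hpq) (hp'.2 q hq'.1 hpq.symm))
  have cB : B'.card ≤ B.card := by
    refine card_le_card_of_injOn Prod.snd (fun p hp => ?_) ?_
    · rw [hB'] at hp
      exact (h1 p (mem_filter.1 (Finset.mem_coe.1 hp)).1).2
    · intro p hp q hq hpq
      rw [hB'] at hp hq
      have hp' := mem_filter.1 (Finset.mem_coe.1 hp)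
      have hq' := mem_filter.1 (Finset.mem_coe.1 hq)
      exact Prod.ext (le_antisymm (hp'.2 q hq'.1 hpq.symm) (hq'.2 p hp'.1 hpq)) hpq
  have h3 := card_le_card hcov
  have h4 := card_union_le A' B'
  omega

end PL_aux

/-- a non-crossing set has at most 3 |A| + 2 |B| pairs between A and B -/
theorem nc_card_prod {G : Finset (ℤ × ℤ)} (hG : ∀ p ∈ G, ∀ q ∈ G, ¬ Inter p q) (A B : Finset ℤ) :
    (G.filter fun p => p.1 ∈ A ∧ p.2 ∈ B).card ≤ 3 * A.card + 2 * B.card := by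
  classical
  obtain ⟨E, hE⟩ : ∃ E, E = G.filter (fun p => p.1 ∈ A ∧ p.2 ∈ B) := ⟨_, rfl⟩
  have hEG : ∀ p ∈ E, p ∈ G ∧ p.1 ∈ A ∧ p.2 ∈ B := fun p hp => by
    rw [hE, mem_filter] at hp
    exact hp
  have hcov : E ⊆ (E.filter (fun p => p.1 < p.2) ∪ E.filter (fun p => p.1 = p.2)) ∪ E.filter (fun p => p.2 < p.1) := by
    intro p hp
    rcases lt_trichotomy p.1 p.2 with h | h | h
    · exact mem_union_left _ (mem_union_left _ (mem_filter.2 ⟨hp, h⟩))
    · exact mem_union_left _ (mem_union_right _ (mem_filter.2 ⟨hp, h⟩))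
    · exact mem_union_right _ (mem_filter.2 ⟨hp, h⟩)
  have c1 : (E.filter (fun p => p.1 < p.2)).card ≤ A.card + B.card := by
    refine PL_aux.card_lt (fun p hp q hq => ?_) (fun p hp => ?_) (fun p hp => (mem_filter.1 hp).2)
    · exact hG p (hEG p (mem_filter.1 hp).1).1 q (hEG q (mem_filter.1 hq).1).1
    · exact (hEG p (mem_filter.1 hp).1).2
  have c2 : (E.filter (fun p => p.1 = p.2)).card ≤ A.card := by
    refine card_le_card_of_injOn Prod.fst (fun p hp => ?_) ?_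
    · exact (hEG p (mem_filter.1 (Finset.mem_coe.1 hp)).1).2.1
    · intro p hp q hq hpq
      have hp' := mem_filter.1 (Finset.mem_coe.1 hp)
      have hq' := mem_filter.1 (Finset.mem_coe.1 hq)
      exact Prod.ext hpq (by rw [← hp'.2, ← hq'.2]; exact hpq)
  have c3 : (E.filter (fun p => p.2 < p.1)).card ≤ B.card + A.card := by
    have h1 : (E.filter (fun p => p.2 < p.1)).card = ((E.filter (fun p => p.2 < p.1)).image Prod.swap).card :=
      (card_image_of_injective _ Prod.swap_injective).symm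
    rw [h1]
    refine PL_aux.card_lt (fun p hp q hq => ?_) (fun p hp => ?_) (fun p hp => ?_)
    · obtain ⟨p', hp', rfl⟩ := mem_image.1 hp
      obtain ⟨q', hq', rfl⟩ := mem_image.1 hq
      rw [PL_aux.inter_swap]
      exact hG p' (hEG p' (mem_filter.1 hp').1).1 q' (hEG q' (mem_filter.1 hq').1).1
    · obtain ⟨p', hp', rfl⟩ := mem_image.1 hp
      exact ⟨(hEG p' (mem_filter.1 hp').1).2.2, (hEG p' (mem_filter.1 hp').1).2.1⟩
    · obtain ⟨p', hp', rfl⟩ := mem_image.1 hp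
      exact (mem_filter.1 hp').2
  rw [← hE]
  have h3 := card_le_card hcov
  have h4 := card_union_le (E.filter (fun p => p.1 < p.2) ∪ E.filter (fun p => p.1 = p.2)) (E.filter (fun p => p.2 < p.1))
  have h5 := card_union_le (E.filter (fun p => p.1 < p.2)) (E.filter (fun p => p.1 = p.2))
  omega

/-- the pairs of a slice of a non-crossing set between A and B -/
theorem ncb_card {G : Finset (ℤ × ℤ × ℤ)} (hG : NCB G) (c : ℤ) (A B : Finset ℤ) :
    (G.filter fun x => x.1 = c ∧ x.2.1 ∈ A ∧ x.2.2 ∈ B).card ≤ 3 * A.card + 2 * B.card := by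
  classical
  obtain ⟨H, hH⟩ : ∃ H : Finset (ℤ × ℤ), H = (G.filter (fun x => x.1 = c)).image Prod.snd := ⟨_, rfl⟩
  have h1 : ∀ p ∈ H, (c, p) ∈ G := by
    intro p hp
    rw [hH] at hp
    obtain ⟨x, hx, rfl⟩ := mem_image.1 hp
    obtain ⟨hx1, hx2⟩ := mem_filter.1 hx
    rw [← hx2]
    exact hx1
  refine le_trans ?_ (nc_card_prod (G := H) (fun p hp q hq => hG _ (h1 p hp) _ (h1 q hq) rfl) A B)
  refine card_le_card_of_injOn Prod.snd (fun x hx => ?_) ?_
  · obtain ⟨hx1, hx2, hx3, hx4⟩ := mem_filter.1 (Finset.mem_coe.1 hx)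
    rw [hH]
    exact Finset.mem_coe.2 (mem_filter.2 ⟨mem_image.2 ⟨x, mem_filter.2 ⟨hx1, hx2⟩, rfl⟩, hx3, hx4⟩)
  · intro x hx y hy hxy
    obtain ⟨hx1, hx2, -⟩ := mem_filter.1 (Finset.mem_coe.1 hx)
    obtain ⟨hy1, hy2, -⟩ := mem_filter.1 (Finset.mem_coe.1 hy)
    exact Prod.ext (hx2.trans hy2.symm) hxy

/-- the slices of a non-crossing set -/
theorem NCB.slice {G : Finset (ℤ × ℤ × ℤ)} (hG : NCB G) (c : ℤ) :
    ∀ p ∈ (G.filter (fun x => x.1 = c)).image Prod.snd, ∀ q ∈ (G.filter (fun x => x.1 = c)).image Prod.snd,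
      ¬ Inter p q := by
  intro p hp q hq
  obtain ⟨x, hx, rfl⟩ := mem_image.1 hp
  obtain ⟨y, hy, rfl⟩ := mem_image.1 hq
  obtain ⟨hx1, hx2⟩ := mem_filter.1 hx
  obtain ⟨hy1, hy2⟩ := mem_filter.1 hy
  exact hG x hx1 y hy1 (hx2.trans hy2.symm)

theorem mem_slice {G : Finset (ℤ × ℤ × ℤ)} {c : ℤ} {p : ℤ × ℤ} :
    p ∈ (G.filter (fun x => x.1 = c)).image Prod.snd ↔ (c, p) ∈ G := by
  constructor
  · intro hp
    obtain ⟨x, hx, rfl⟩ := mem_image.1 hp
    obtain ⟨hx1, hx2⟩ := mem_filter.1 hx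
    rw [← hx2]
    exact hx1
  · intro hp
    exact mem_image.2 ⟨(c, p), mem_filter.2 ⟨hp, rfl⟩, rfl⟩

namespace PL_aux

lemma gf_Brd_uu {h : ℕ} (hh : 1 ≤ h) : gf (Brd h) = ENNReal.ofReal (uu h) := by
  rw [gf_Brd]
  unfold uu
  rw [ENNReal.ofReal_toReal (BT_ne_top hh)]

/-- lateral tail of the end points -/
lemma lat_tail : ∃ C : ℝ, 0 < C ∧ ∀ h k K0 : ℕ, 1 ≤ h → h < 2 ^ (k + 1) → 1 ≤ K0 →
    gf {V | V ∈ Brd h ∧ ((K0 * 2 ^ k : ℕ) : ℤ) < |latE V|} ≤ ENNReal.ofReal (C / K0) * gf (Brd h) := by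
  obtain ⟨C, c, hc, hC⟩ := latTail
  refine ⟨2 * |C| * Real.exp c / c + 1, by positivity, fun h k K0 hh hk hK => ?_⟩
  obtain ⟨M, hM⟩ : ∃ M, M = K0 * 2 ^ k / h := ⟨_, rfl⟩
  have hMh : M * h ≤ K0 * 2 ^ k := by
    rw [hM]
    exact Nat.div_mul_le_self _ _
  have hM1 : K0 * 2 ^ k < (M + 1) * h := by
    rw [hM]
    have := Nat.lt_div_mul_add (a := K0 * 2 ^ k) hh
    calc K0 * 2 ^ k < K0 * 2 ^ k / h * h + h := this
      _ = (K0 * 2 ^ k / h + 1) * h := by ring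
  have hM2 : K0 < 2 * (M + 1) := by
    have h1 : K0 * 2 ^ k < 2 * (M + 1) * 2 ^ k := by
      calc K0 * 2 ^ k < (M + 1) * h := hM1
        _ ≤ (M + 1) * 2 ^ (k + 1) := Nat.mul_le_mul_left _ hk.le
        _ = 2 * (M + 1) * 2 ^ k := by ring
    exact lt_of_mul_lt_mul_right h1 (Nat.zero_le _)
  have hKr : (0 : ℝ) < K0 := by exact_mod_cast hK
  have hM3 : (K0 : ℝ) / 2 - 1 ≤ M := by
    have : (K0 : ℝ) < 2 * (M + 1) := by exact_mod_cast hM2
    linarith
  have h1 : gf {V | V ∈ Brd h ∧ ((K0 * 2 ^ k : ℕ) : ℤ) < |latE V|} ≤ gf {g | g ∈ Brd h ∧ ¬ InBox g (M * h)} := by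
    refine gf_mono ?_
    rintro V ⟨hV, hl⟩
    refine ⟨hV, fun hb => ?_⟩
    have h2 : |latE V| ≤ ((M * h : ℕ) : ℤ) := hb V.length le_rfl
    have h3 : ((M * h : ℕ) : ℤ) ≤ ((K0 * 2 ^ k : ℕ) : ℤ) := by exact_mod_cast hMh
    exact absurd (lt_of_lt_of_le hl (h2.trans h3)) (lt_irrefl _)
  refine h1.trans ((hC h M hh).trans ?_)
  rw [gf_Brd_uu hh, ← ENNReal.ofReal_mul (by positivity)]
  apply ENNReal.ofReal_le_ofReal
  apply mul_le_mul_of_nonneg_right _ (uu_pos h).le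
  have h2 : Real.exp (-(c * M)) ≤ Real.exp c * (2 / (c * K0)) := by
    have h3 : -(c * M) ≤ c + -(c * (K0 / 2)) := by nlinarith
    have h4 : Real.exp (-(c * M)) ≤ Real.exp c * Real.exp (-(c * (K0 / 2))) := by
      rw [← Real.exp_add]
      exact Real.exp_le_exp.2 h3
    refine h4.trans (mul_le_mul_of_nonneg_left ?_ (Real.exp_pos c).le)
    have h5 : c * (K0 / 2) ≤ Real.exp (c * (K0 / 2)) := by
      have := Real.add_one_le_exp (c * ((K0 : ℝ) / 2))
      linarith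
    rw [Real.exp_neg]
    have h6 : (0 : ℝ) < c * (K0 / 2) := by positivity
    calc (Real.exp (c * (K0 / 2)))⁻¹ ≤ (c * ((K0 : ℝ) / 2))⁻¹ := inv_anti₀ h6 h5
      _ = 2 / (c * K0) := by
          field_simp
  calc C * Real.exp (-(c * M)) ≤ |C| * Real.exp (-(c * M)) :=
        mul_le_mul_of_nonneg_right (le_abs_self C) (Real.exp_pos _).le
    _ ≤ |C| * (Real.exp c * (2 / (c * K0))) := mul_le_mul_of_nonneg_left h2 (abs_nonneg C)
    _ = 2 * |C| * Real.exp c / c / K0 := by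
        field_simp
    _ ≤ (2 * |C| * Real.exp c / c + 1) / K0 := by
        apply div_le_div_of_nonneg_right _ hKr.le
        linarith

/-- number of blocks of length w that meet the interval [x - m, x + m] -/
lemma card_blocks (x : ℤ) (m w : ℕ) (hw : 1 ≤ w) :
    ((Icc ((x - m) / w) ((x + m) / w)).card : ℝ) ≤ 2 * m / w + 2 := by
  have hw0 : (0 : ℤ) < w := by exact_mod_cast hw
  have hw1 : (0 : ℝ) < w := by exact_mod_cast hw
  have h1 := Int.emod_add_mul_ediv (x + m) w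
  have h2 := Int.emod_add_mul_ediv (x - m) w
  have h3 := Int.emod_nonneg (x + m) hw0.ne'
  have h4 := Int.emod_lt_of_pos (x - m) hw0
  rw [Int.card_Icc]
  have h5 : (((x + m) / w + 1 - (x - m) / w).toNat : ℝ) ≤ max (((x + m) / w : ℤ) + 1 - ((x - m) / w : ℤ) : ℝ) 0 := by
    have : ((((x + m) / w + 1 - (x - m) / w).toNat : ℤ) : ℝ) = ((max ((x + m) / w + 1 - (x - m) / w) 0 : ℤ) : ℝ) := by
      rw [Int.toNat_eq_max]
    push_cast at this
    rw [this]
  refine h5.trans (max_le ?_ (by positivity))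
  have h6 : (w : ℝ) * ((((x + m) / w : ℤ) : ℝ) - (((x - m) / w : ℤ) : ℝ)) ≤ 2 * m + w := by
    have h7 : (w : ℤ) * ((x + m) / w - (x - m) / w) ≤ 2 * m + w := by
      rw [mul_sub]
      linarith
    exact_mod_cast h7
  have h8 : (((x + m) / w : ℤ) : ℝ) - (((x - m) / w : ℤ) : ℝ) ≤ (2 * m + w) / w := by
    rw [le_div_iff₀ hw1]
    linarith
  have h9 : (2 * (m : ℝ) + w) / w = 2 * m / w + 1 := by
    field_simp
  linarith

lemma sw_if (A : Set (List Bool)) (R : List Bool → Prop) [DecidablePred R] :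
    sw A (fun t => if R t then 1 else 0) = gf {t | t ∈ A ∧ R t} := by
  have h := Rec8.sw_and A R (fun _ => 1)
  rw [Rec8.sw_one] at h
  rw [h]
  refine Rec8.sw_congr fun t _ => ?_
  by_cases hr : R t
  · rw [if_pos hr, if_pos hr]
  · rw [if_neg hr, if_neg hr]

lemma mem_block {x m z : ℤ} {w : ℕ} (hw : 1 ≤ w) (h : |z - x| ≤ m) : z / w ∈ Icc ((x - m) / w) ((x + m) / w) := by
  have hw0 : (0 : ℤ) < w := by exact_mod_cast hw
  obtain ⟨h1, h2⟩ := abs_le.1 h
  rw [mem_Icc]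
  exact ⟨Int.ediv_le_ediv hw0 (by linarith), Int.ediv_le_ediv hw0 (by linarith)⟩

end PL_aux

/-- weight of the pairs of bridges whose lateral steps fall into a pair of blocks of a non-crossing set -/
theorem pair_loc : ∃ C : ℝ, 0 < C ∧ ∀ (k j3 w K0 : ℕ) (G : Finset (ℤ × ℤ)) (s1 s2 s3 x y : ℤ) (h1 h2 : ℕ),
    1 ≤ w → w ≤ 2 ^ k → 1 ≤ K0 → (∀ p ∈ G, ∀ q ∈ G, ¬ Inter p q) → (s1 = 1 ∨ s1 = -1) → (s2 = 1 ∨ s2 = -1) →
    (s3 = 1 ∨ s3 = -1) → 2 ^ j3 ≤ h1 → h1 < 2 ^ (k + 1) → 2 ^ j3 ≤ h2 → h2 < 2 ^ (k + 1) →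
    sw (Brd h1) (fun V1 => sw (Brd h2) (fun V2 =>
      if ((x + s1 * latE V1) / (w : ℤ), (y + s2 * latE V1 + s3 * latE V2) / (w : ℤ)) ∈ G then 1 else 0)) ≤
      ENNReal.ofReal (C * (K0 * w * 2 ^ k / 4 ^ j3 + 1 / K0)) * (gf (Brd h1) * gf (Brd h2)) := by
  obtain ⟨C1, hC1, hblk⟩ := gf_block
  obtain ⟨C2, hC2, htl⟩ := PL_aux.lat_tail
  refine ⟨24 * C1 ^ 2 + 2 * C2, by positivity, ?_⟩
  intro k j3 w K0 G s1 s2 s3 x y h1 h2 hw hwk hK hG hs1 hs2 hs3 hj1 hk1 hj2 hk2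
  have hh1 : 1 ≤ h1 := le_trans Nat.one_le_two_pow hj1
  have hh2 : 1 ≤ h2 := le_trans Nat.one_le_two_pow hj2
  obtain ⟨L, hL⟩ : ∃ L, L = K0 * 2 ^ k := ⟨_, rfl⟩
  have hwL : w ≤ L := by
    rw [hL]
    calc w ≤ 1 * 2 ^ k := by rw [one_mul]; exact hwk
      _ ≤ K0 * 2 ^ k := Nat.mul_le_mul_right _ hK
  obtain ⟨A, hA⟩ : ∃ A : Finset ℤ, A = Icc ((x - (L : ℕ)) / w) ((x + (L : ℕ)) / w) := ⟨_, rfl⟩
  obtain ⟨B, hB⟩ : ∃ B : Finset ℤ, B = Icc ((y - ((2 * L : ℕ) : ℤ)) / w) ((y + ((2 * L : ℕ) : ℤ)) / w) := ⟨_, rfl⟩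
  obtain ⟨G', hG'⟩ : ∃ G' : Finset (ℤ × ℤ), G' = G.filter (fun p => p.1 ∈ A ∧ p.2 ∈ B) := ⟨_, rfl⟩
  have hw0 : (0 : ℝ) < w := by exact_mod_cast hw
  have hL0 : (0 : ℝ) < L := lt_of_lt_of_le hw0 (by exact_mod_cast hwL)
  have hLw : (1 : ℝ) ≤ L / w := by
    rw [le_div_iff₀ hw0, one_mul]
    exact_mod_cast hwL
  have cG : (G'.card : ℝ) ≤ 24 * (L / w) := by
    have h3 := nc_card_prod hG A B
    rw [← hG'] at h3
    have h4 : (G'.card : ℝ) ≤ 3 * A.card + 2 * B.card := by exact_mod_cast h3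
    have h5 := PL_aux.card_blocks x L w hw
    have h6 := PL_aux.card_blocks y (2 * L) w hw
    rw [← hA] at h5
    rw [← hB] at h6
    push_cast at h6
    have e1 : 2 * (L : ℝ) / w = 2 * (L / w) := by ring
    have e2 : 2 * (2 * (L : ℝ)) / w = 4 * (L / w) := by ring
    rw [e1] at h5
    rw [e2] at h6
    linarith
  -- pointwise
  have hpt : ∀ V1 V2 : List Bool,
      (if ((x + s1 * latE V1) / w, (y + s2 * latE V1 + s3 * latE V2) / w) ∈ G then (1 : ℝ≥0∞) else 0) ≤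
      ((if (L : ℤ) < |latE V1| then (1 : ℝ≥0∞) else 0) + (if (L : ℤ) < |latE V2| then (1 : ℝ≥0∞) else 0)) +
      ∑ p ∈ G', (if (x + s1 * latE V1) / w = p.1 then (1 : ℝ≥0∞) else 0) *
        (if (y + s2 * latE V1 + s3 * latE V2) / w = p.2 then (1 : ℝ≥0∞) else 0) := by
    intro V1 V2
    by_cases hm : ((x + s1 * latE V1) / w, (y + s2 * latE V1 + s3 * latE V2) / w) ∈ G
    · rw [if_pos hm]
      by_cases h3 : (L : ℤ) < |latE V1|
      · rw [if_pos h3, add_assoc]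
        exact le_self_add
      by_cases h4 : (L : ℤ) < |latE V2|
      · rw [if_pos h4]
        exact le_add_self.trans le_self_add
      rw [not_lt] at h3 h4
      have a1 : ∀ s : ℤ, (s = 1 ∨ s = -1) → ∀ z : ℤ, |s * z| = |z| := by
        rintro s (rfl | rfl) z
        · rw [one_mul]
        · rw [neg_one_mul, abs_neg]
      have h5 : ((x + s1 * latE V1) / w, (y + s2 * latE V1 + s3 * latE V2) / w) ∈ G' := by
        rw [hG', mem_filter]
        refine ⟨hm, ?_, ?_⟩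
        · rw [hA]
          refine PL_aux.mem_block hw ?_
          rw [add_sub_cancel_left, a1 s1 hs1]
          exact h3
        · rw [hB]
          refine PL_aux.mem_block hw ?_
          have e1 : y + s2 * latE V1 + s3 * latE V2 - y = s2 * latE V1 + s3 * latE V2 := by ring
          rw [e1]
          refine (abs_add_le _ _).trans ?_
          rw [a1 s2 hs2, a1 s3 hs3]
          push_cast
          linarith
      refine le_trans ?_ le_add_self
      refine le_trans (le_of_eq ?_) (Finset.single_le_sum (fun p _ => zero_le) h5)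
      rw [if_pos rfl, if_pos rfl, one_mul]
    · rw [if_neg hm]
      exact zero_le
  -- the inner sums
  have hin : ∀ V1 : List Bool, sw (Brd h2) (fun V2 =>
      if ((x + s1 * latE V1) / w, (y + s2 * latE V1 + s3 * latE V2) / w) ∈ G then (1 : ℝ≥0∞) else 0) ≤
      ((if (L : ℤ) < |latE V1| then (1 : ℝ≥0∞) else 0) * gf (Brd h2) + ENNReal.ofReal (C2 / K0) * gf (Brd h2)) +
      ∑ p ∈ G', (if (x + s1 * latE V1) / w = p.1 then (1 : ℝ≥0∞) else 0) *
        (ENNReal.ofReal (C1 * w / 2 ^ j3) * gf (Brd h2)) := by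
    intro V1
    refine (Rec8.sw_mono' (fun V2 _ => hpt V1 V2)).trans ?_
    rw [Rec8.sw_add, Rec8.sw_add, Rec8.sw_sum]
    refine add_le_add (add_le_add ?_ ?_) (Finset.sum_le_sum fun p _ => ?_)
    · have e1 : sw (Brd h2) (fun _ => if (L : ℤ) < |latE V1| then (1 : ℝ≥0∞) else 0) =
          (if (L : ℤ) < |latE V1| then (1 : ℝ≥0∞) else 0) * sw (Brd h2) (fun _ => 1) := by
        rw [← Rec8.sw_mul_left]
        simp only [mul_one]
      rw [e1, Rec8.sw_one]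
    · rw [PL_aux.sw_if (Brd h2) (fun V => (L : ℤ) < |latE V|), hL]
      exact htl h2 k K0 hh2 hk2 hK
    · rw [Rec8.sw_mul_left]
      refine mul_le_mul_right ?_ _
      rw [PL_aux.sw_if (Brd h2) (fun V => (y + s2 * latE V1 + s3 * latE V) / w = p.2)]
      exact hblk h2 j3 s3 (y + s2 * latE V1) p.2 w hj2 hw hs3
  refine (Rec8.sw_mono' (fun V1 _ => hin V1)).trans ?_
  rw [Rec8.sw_add, Rec8.sw_add, Rec8.sw_sum]
  have b1 : sw (Brd h1) (fun V1 => (if (L : ℤ) < |latE V1| then (1 : ℝ≥0∞) else 0) * gf (Brd h2)) ≤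
      ENNReal.ofReal (C2 / K0) * (gf (Brd h1) * gf (Brd h2)) := by
    rw [Rec8.sw_mul_right, ← mul_assoc]
    refine mul_le_mul_left ?_ _
    rw [PL_aux.sw_if (Brd h1) (fun V => (L : ℤ) < |latE V|), hL]
    exact htl h1 k K0 hh1 hk1 hK
  have b2 : sw (Brd h1) (fun _ => ENNReal.ofReal (C2 / K0) * gf (Brd h2)) ≤
      ENNReal.ofReal (C2 / K0) * (gf (Brd h1) * gf (Brd h2)) := by
    have e1 : sw (Brd h1) (fun _ => ENNReal.ofReal (C2 / K0) * gf (Brd h2)) =
        (ENNReal.ofReal (C2 / K0) * gf (Brd h2)) * sw (Brd h1) (fun _ => 1) := by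
      rw [← Rec8.sw_mul_left]
      simp only [mul_one]
    rw [e1, Rec8.sw_one]
    exact le_of_eq (by ring)
  have b3 : ∑ p ∈ G', sw (Brd h1) (fun V1 => (if (x + s1 * latE V1) / w = p.1 then (1 : ℝ≥0∞) else 0) *
        (ENNReal.ofReal (C1 * w / 2 ^ j3) * gf (Brd h2))) ≤
      ENNReal.ofReal (24 * C1 ^ 2 * (K0 * w * 2 ^ k / 4 ^ j3)) * (gf (Brd h1) * gf (Brd h2)) := by
    have b4 : ∀ p ∈ G', sw (Brd h1) (fun V1 => (if (x + s1 * latE V1) / w = p.1 then (1 : ℝ≥0∞) else 0) *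
        (ENNReal.ofReal (C1 * w / 2 ^ j3) * gf (Brd h2))) ≤
        ENNReal.ofReal ((C1 * w / 2 ^ j3) ^ 2) * (gf (Brd h1) * gf (Brd h2)) := by
      intro p _
      rw [Rec8.sw_mul_right]
      rw [PL_aux.sw_if (Brd h1) (fun V => (x + s1 * latE V) / w = p.1)]
      refine (mul_le_mul_left (hblk h1 j3 s1 x p.1 w hj1 hw hs1) _).trans (le_of_eq ?_)
      rw [sq, ENNReal.ofReal_mul (by positivity)]
      ring
    refine (Finset.sum_le_sum b4).trans ?_
    rw [Finset.sum_const, nsmul_eq_mul, ← mul_assoc]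
    refine mul_le_mul_left ?_ _
    rw [← ENNReal.ofReal_natCast, ← ENNReal.ofReal_mul (by positivity)]
    apply ENNReal.ofReal_le_ofReal
    have e2 : (4 : ℝ) ^ j3 = (2 ^ j3) ^ 2 := by
      rw [← pow_mul, mul_comm, pow_mul]
      norm_num
    calc (G'.card : ℝ) * (C1 * w / 2 ^ j3) ^ 2 ≤ 24 * (L / w) * (C1 * w / 2 ^ j3) ^ 2 :=
          mul_le_mul_of_nonneg_right cG (by positivity)
      _ = 24 * C1 ^ 2 * (K0 * w * 2 ^ k / 4 ^ j3) := by
          rw [hL, e2]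
          push_cast
          field_simp
  refine (add_le_add (add_le_add b1 b2) b3).trans ?_
  rw [← add_mul, ← add_mul]
  refine mul_le_mul_left ?_ _
  rw [← ENNReal.ofReal_add (by positivity) (by positivity), ← ENNReal.ofReal_add (by positivity) (by positivity)]
  apply ENNReal.ofReal_le_ofReal
  have hK0 : (0 : ℝ) < K0 := by exact_mod_cast hK
  have e3 : (0 : ℝ) ≤ K0 * w * 2 ^ k / 4 ^ j3 := by positivity
  have e4 : (0 : ℝ) ≤ 1 / (K0 : ℝ) := by positivity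
  have e5 : C2 / (K0 : ℝ) = C2 * (1 / K0) := by ring
  rw [e5]
  nlinarith [mul_nonneg hC2.le e3, mul_nonneg (sq_nonneg C1) e4]

end SDN

end HexObs
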