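import Pool.Agent.SDN.DimDefs
import Pool.Agent.TightD.Embed

/-!
SDN, limit version, module M5a: the geometry of the embedded walk.
-/

set_option autoImplicit false

namespace HexObs

namespace SDN

open Finset TS

section Blocks

variable {K S : ℕ}

lemma lat_zero' (t : List Bool) : lat t 0 = 0 := by
  unfold lat
  show -(cross up oo) = 0
  decide

/-- geometry of a chain of good words -/
theorem vv_props {q : ℕ} {v : List Bool} (hv : v ∈ VV K S q) :
    ∃ h : ℕ, q * S ≤ h ∧ h ≤ q * (K * S) ∧ v ∈ Brd h ∧ 0 ≤ latE v ∧ latE v ≤ ((q * (K * S) : ℕ) : ℤ) ∧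
      (∀ i, i ≤ v.length → -((K * S : ℕ) : ℤ) ≤ lat v i) ∧
      (∀ i i', i ≤ i' → i' ≤ v.length → lev v i - lev v i' ≤ 3 * ((K * S : ℕ) : ℤ)) ∧
      ∀ i i', i ≤ i' → i' ≤ v.length → lat v i - lat v i' ≤ 2 * ((K * S : ℕ) : ℤ) := by
  obtain ⟨M, hM⟩ : ∃ M, M = K * S := ⟨_, rfl⟩
  induction q generalizing v with
  | zero =>
    have hV0 : v = [] := hv
    subst hV0
    have hE : latE ([] : List Bool) = 0 := lat_zero' []
    refine ⟨0, by omega, by omega, ?_, ?_, ?_, ?_, ?_, ?_⟩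
    · rw [Brd_zero]
      rfl
    · rw [hE]
    · rw [hE]
      positivity
    · intro i hi
      have : i = 0 := by simpa using hi
      rw [this, lat_zero']
      have : (0 : ℤ) ≤ ((K * S : ℕ) : ℤ) := Nat.cast_nonneg _
      omega
    · intro i i' h1 h2
      have h3 : i' = 0 := by simpa using h2
      have h4 : i = 0 := by omega
      rw [h3, h4, sub_self]
      positivity
    · intro i i' h1 h2
      have h3 : i' = 0 := by simpa using h2
      have h4 : i = 0 := by omega
      rw [h3, h4, sub_self]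
      positivity
  | succ q ih =>
    obtain ⟨b, ⟨j, j1, j2, j3, j4, j5⟩, y, hy, rfl⟩ := hv
    obtain ⟨h, h1, h2, h3, h4, h5, h6, h7, h8⟩ := ih hy
    rw [← hM] at j2 j4 h2 h5 h6 h7 h8 ⊢
    have hbB := j3.1
    obtain ⟨b1, b2, b3, b4⟩ := mem_Brd.1 hbB
    have hl : |latE b| ≤ M := j4 b.length le_rfl
    rw [abs_le] at hl
    have hbi : ∀ i, i ≤ b.length → -(M : ℤ) ≤ lat b i ∧ lat b i ≤ M := fun i hi => abs_le.1 (j4 i hi)
    have c1 : ∀ i, i ≤ b.length → 0 ≤ lev b i ∧ lev b i ≤ 3 * j := by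
      intro i hi
      rcases Nat.eq_zero_or_pos i with h0 | h0
      · rw [h0, lev_zero]
        constructor <;> omega
      · have := b1 i h0 hi
        constructor <;> omega
    have c2 : ∀ i, i ≤ y.length → 0 ≤ lev y i := by
      intro i hi
      rcases Nat.eq_zero_or_pos i with h0 | h0
      · rw [h0, lev_zero]
      · exact ((mem_Brd.1 h3).1 i h0 hi).1.le
    have hjM : (j : ℤ) ≤ M := by exact_mod_cast j2
    refine ⟨j + h, ?_, ?_, Brd_append hbB h3, ?_, ?_, ?_, ?_, ?_⟩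
    · rw [add_mul, one_mul]
      omega
    · rw [add_mul, one_mul]
      omega
    · rw [latE_cat b3]
      omega
    · rw [latE_cat b3, add_mul, one_mul]
      push_cast at h5 ⊢
      linarith [hl.2]
    · intro i hi
      by_cases hib : i ≤ b.length
      · rw [lat_append (by omega)]
        exact (hbi i hib).1
      · obtain ⟨k, rfl⟩ : ∃ k, i = b.length + k := ⟨i - b.length, by omega⟩
        rw [List.length_append] at hi
        rw [lat_cat b3]
        have := h6 k (by omega)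
        show -(M : ℤ) ≤ latE b + lat y k
        omega
    · intro i i' hi hi'
      rw [List.length_append] at hi'
      by_cases hib : i' ≤ b.length
      · rw [lev_append (by omega), lev_append (by omega)]
        have a1 := c1 i (by omega)
        have a2 := c1 i' hib
        omega
      · obtain ⟨k, rfl⟩ : ∃ k, i' = b.length + k := ⟨i' - b.length, by omega⟩
        rw [lev_cat b3]
        by_cases hib2 : i ≤ b.length
        · rw [lev_append (by omega), b4]
          have a1 := c1 i hib2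
          have a2 := c2 k (by omega)
          omega
        · obtain ⟨l, rfl⟩ : ∃ k, i = b.length + k := ⟨i - b.length, by omega⟩
          rw [lev_cat b3]
          have := h7 l k (by omega) (by omega)
          omega
    · intro i i' hi hi'
      rw [List.length_append] at hi'
      by_cases hib : i' ≤ b.length
      · rw [lat_append (by omega), lat_append (by omega)]
        have a1 := hbi i (by omega)
        have a2 := hbi i' hib
        omega
      · obtain ⟨k, rfl⟩ : ∃ k, i' = b.length + k := ⟨i' - b.length, by omega⟩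
        rw [lat_cat b3]
        by_cases hib2 : i ≤ b.length
        · rw [lat_append (by omega)]
          have a1 := hbi i hib2
          have a2 := h6 k (by omega)
          show lat b i - (latE b + lat y k) ≤ 2 * (M : ℤ)
          omega
        · obtain ⟨l, rfl⟩ : ∃ k, i = b.length + k := ⟨i - b.length, by omega⟩
          rw [lat_cat b3]
          have := h8 l k (by omega) (by omega)
          omega

end Blocks

/-- the bounds used for a tube v: lower bound of the height, upper bound of the height, size of the blocks -/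
structure Tb (A B M : ℤ) (v : List Bool) : Prop where
  dir : dx up v v.length = up
  e1 : 3 * A ≤ 2 * lev2 v v.length
  e2 : 2 * lev2 v v.length ≤ 6 * B
  lo : ∀ i, i ≤ v.length → -(6 * M) ≤ 2 * lev2 v i
  mo : ∀ i i', i ≤ i' → i' ≤ v.length → 2 * (lev2 v i - lev2 v i') ≤ 9 * M

/-- the tube in front -/
lemma tb_front {K S q : ℕ} {v : List Bool} (hv : v ∈ VV K S q) :
    Tb ((q * S : ℕ) : ℤ) ((q * (K * S) : ℕ) : ℤ) ((K * S : ℕ) : ℤ) v := by
  obtain ⟨h, h1, h2, h3, h4, h5, h6, h7, h8⟩ := vv_props hv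
  have hB := mem_Brd.1 h3
  have hend := lev2_eq v v.length
  rw [hB.2.2.2] at hend
  have hlE : lat v v.length = latE v := rfl
  rw [hlE] at hend
  have h1' : ((q * S : ℕ) : ℤ) ≤ h := by exact_mod_cast h1
  have h2' : (h : ℤ) ≤ ((q * (K * S) : ℕ) : ℤ) := by exact_mod_cast h2
  refine ⟨hB.2.2.1, by omega, by omega, ?_, ?_⟩
  · intro i hi
    have a1 := lev2_eq v i
    have a2 := h6 i hi
    have a3 : 0 ≤ lev v i := by
      rcases Nat.eq_zero_or_pos i with h0 | h0
      · rw [h0, lev_zero]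
      · exact (hB.1 i h0 hi).1.le
    omega
  · intro i i' i1 i2
    have a1 := lev2_eq v i
    have a2 := lev2_eq v i'
    have a3 := h7 i i' i1 i2
    have a4 := h8 i i' i1 i2
    omega

/-- the tube behind -/
lemma tb_back {K S q : ℕ} {v : List Bool} (hv : rev v ∈ VV K S q) :
    (∃ h : ℕ, h ≤ q * (K * S) ∧ v ∈ Brd h) ∧
    Tb ((q * S : ℕ) : ℤ) ((q * (K * S) : ℕ) : ℤ) ((K * S : ℕ) : ℤ) v ∧
    ∀ i, i ≤ v.length → 2 * lev2 v i ≤ 2 * lev2 v v.length + 9 * ((K * S : ℕ) : ℤ) := by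
  obtain ⟨h, h1, h2, h3, h4, h5, h6, h7, h8⟩ := vv_props hv
  obtain ⟨w, hw⟩ : ∃ w, w = rev v := ⟨_, rfl⟩
  have hv' : v = rev w := by rw [hw, rev_rev]
  rw [← hw] at h3 h4 h5 h6 h7 h8
  subst hv'
  have hB := mem_Brd.1 h3
  have hB' := mem_Brd.1 (Brd_rev h3)
  have htop := lev_top h3
  have hE := TD.latE_rev' h3
  have hlen : (rev w).length = w.length := rev_length w
  have hend := lev2_eq (rev w) (rev w).length
  rw [hB'.2.2.2] at hend
  have hlE : lat (rev w) (rev w).length = latE (rev w) := rfl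
  rw [hlE, hE] at hend
  have h1' : ((q * S : ℕ) : ℤ) ≤ h := by exact_mod_cast h1
  have h2' : (h : ℤ) ≤ ((q * (K * S) : ℕ) : ℤ) := by exact_mod_cast h2
  have key : ∀ i, i ≤ w.length → lev (rev w) i = 3 * h + 2 - lev w (w.length + 1 - i) ∧
      lat (rev w) i = latE w - lat w (w.length + 1 - i) := by
    intro i hi
    refine ⟨?_, TD.lat_rev' h3 hi⟩
    rw [lev_rot hB.2.2.1 (by omega), htop]
  have hM0 : (0 : ℤ) ≤ ((K * S : ℕ) : ℤ) := Nat.cast_nonneg _
  have hmo : ∀ i i', i ≤ i' → i' ≤ (rev w).length → 2 * (lev2 (rev w) i - lev2 (rev w) i') ≤ 9 * ((K * S : ℕ) : ℤ) := by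
    intro i i' i1 i2
    rw [hlen] at i2
    rcases Nat.eq_zero_or_pos i with h0 | h0
    · subst h0
      have a0 := lev2_eq (rev w) 0
      rw [lev_zero, lat_zero'] at a0
      have a1 := lev2_eq (rev w) i'
      rcases Nat.eq_zero_or_pos i' with h0 | h0
      · rw [h0]
        omega
      · obtain ⟨k1, k2⟩ := key i' i2
        have a2 := h8 (w.length + 1 - i') w.length (by omega) le_rfl
        rw [show lat w w.length = latE w from rfl] at a2
        have a3 := (hB'.1 i' h0 (by omega)).1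
        omega
    · obtain ⟨k1, k2⟩ := key i (by omega)
      obtain ⟨k3, k4⟩ := key i' i2
      have a1 := lev2_eq (rev w) i
      have a2 := lev2_eq (rev w) i'
      have a3 := h7 (w.length + 1 - i') (w.length + 1 - i) (by omega) (by omega)
      have a4 := h8 (w.length + 1 - i') (w.length + 1 - i) (by omega) (by omega)
      omega
  refine ⟨⟨h, h2, Brd_rev h3⟩, ⟨hB'.2.2.1, by omega, by omega, ?_, hmo⟩, ?_⟩
  · intro i hi
    have a0 := lev2_eq (rev w) 0
    rw [lev_zero, lat_zero'] at a0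
    have a1 := lev2_eq (rev w) i
    rcases Nat.eq_zero_or_pos i with h0 | h0
    · rw [h0]
      omega
    · rw [hlen] at hi
      obtain ⟨k1, k2⟩ := key i hi
      have a2 := h8 (w.length + 1 - i) w.length (by omega) le_rfl
      rw [show lat w w.length = latE w from rfl] at a2
      have a3 := (hB'.1 i h0 (by omega)).1
      omega
  · intro i hi
    have := hmo i (rev w).length hi le_rfl
    omega

/-- bounds for t -/
lemma bl_bounds {L : ℕ} {t : List Bool} (ht : t ∈ BL L) : ∃ n : ℕ, (n : ℤ) ≤ 2 ^ L ∧ t ∈ Brd n ∧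
    (∀ i, i ≤ t.length → -(3 * 2 ^ L) - 3 < lev2 t i ∧ lev2 t i ≤ 3 * 2 ^ L) ∧
    ∀ i, i ≤ t.length → |lat t i| ≤ 3 * 2 ^ L + 2 := by
  obtain ⟨⟨n, hn⟩, _, hw⟩ := ht
  have hB := mem_Brd.1 hn
  have hlev : lvl false (vx oo up t t.length) = 3 * n := hB.2.2.2
  have h1 := hw t.length le_rfl false
  unfold row at h1
  rw [hlev, abs_le] at h1
  have hn' : (n : ℤ) ≤ 2 ^ L := by omega
  have h2 : ∀ i, i ≤ t.length → -(3 * 2 ^ L) - 3 < lev2 t i ∧ lev2 t i ≤ 3 * 2 ^ L := by
    intro i hi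
    have h3 := hw i hi true
    unfold row at h3
    have h4 : lvl true (vx oo up t i) = -lev2 t i := by
      unfold lvl hd lev2 ip rotR up
      simp only [if_true]
      ring
    rw [h4, abs_le] at h3
    obtain ⟨N, hN⟩ : ∃ N : ℤ, N = 2 ^ L := ⟨_, rfl⟩
    rw [← hN] at h3 ⊢
    omega
  refine ⟨n, hn', hn, h2, ?_⟩
  intro i hi
  have a1 := h2 i hi
  have a2 := lev2_eq t i
  have a3 : 0 ≤ lev t i ∧ lev t i ≤ 3 * n := by
    rcases Nat.eq_zero_or_pos i with h0 | h0
    · rw [h0, lev_zero]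
      constructor <;> omega
    · have := hB.1 i h0 hi
      constructor <;> omega
  obtain ⟨N, hN⟩ : ∃ N : ℤ, N = 2 ^ L := ⟨_, rfl⟩
  rw [← hN] at a1 hn' ⊢
  rw [abs_le]
  constructor <;> omega

/-- module M5a -/
theorem tube_geo_a : ∀ K : ℕ, 1 ≤ K → ∃ c1 : ℕ, ∀ c0 : ℕ, c1 ≤ c0 → ∃ C1 : ℕ, ∀ C0 : ℕ, C1 ≤ C0 →
    ∀ (L b q : ℕ) (z1 v1 t v2 z2 : List Bool), c0 ≤ b → b ≤ L + 2 →
    q = C0 * 2 ^ (L + 3 - b) → z1 ∈ TD.T1 ((4 * K + 4) * 2 ^ (b - c0)) (2 ^ (b - c0)) → v1 ∈ VV K (2 ^ (b - c0)) q →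
    t ∈ BL L → rev v2 ∈ VV K (2 ^ (b - c0)) q → rev z2 ∈ TD.T1 ((4 * K + 4) * 2 ^ (b - c0)) (2 ^ (b - c0)) →
    z1 ++ ((v1 ++ (t ++ v2)) ++ z2) ∈ BL (L + C0) ∧
      Emb b t (z1 ++ ((v1 ++ (t ++ v2)) ++ z2)) (z1.length + v1.length) := by
  intro K hK
  refine ⟨K + 7, fun c0 hc0 => ⟨2 ^ c0 + 8, ?_⟩⟩
  intro C0 hC0 L b q z1 v1 t v2 z2 hcb hbL hq hz1 hv1 ht hv2 hz2
  -- the constants
  obtain ⟨Z, hZ⟩ : ∃ Z : ℕ, Z = 2 ^ c0 := ⟨_, rfl⟩
  obtain ⟨S, hS⟩ : ∃ S : ℕ, S = 2 ^ (b - c0) := ⟨_, rfl⟩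
  obtain ⟨N, hN⟩ : ∃ N : ℕ, N = 2 ^ L := ⟨_, rfl⟩
  have hS1 : 1 ≤ S := by
    rw [hS]
    exact Nat.one_le_two_pow
  have hN1 : 1 ≤ N := by
    rw [hN]
    exact Nat.one_le_two_pow
  have hZK : 64 * (K + 1) ≤ Z := by
    rw [hZ]
    calc 64 * (K + 1) ≤ 64 * 2 ^ (K + 1) := Nat.mul_le_mul_left 64 Nat.lt_two_pow_self.le
      _ = 2 ^ (K + 7) := by ring
      _ ≤ 2 ^ c0 := Nat.pow_le_pow_right (by norm_num) hc0
  have hb2 : 2 ^ b = Z * S := by
    rw [hZ, hS, ← pow_add]
    congr 1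
    omega
  have hZS : Z * S ≤ 4 * N := by
    rw [← hb2, hN]
    calc 2 ^ b ≤ 2 ^ (L + 2) := Nat.pow_le_pow_right (by norm_num) hbL
      _ = 4 * 2 ^ L := by ring
  have hqS : q * S * Z = 8 * C0 * N := by
    rw [hq, hS, hZ, hN]
    have e1 : 2 ^ (L + 3 - b) * 2 ^ (b - c0) * 2 ^ c0 = 2 ^ (L + 3) := by
      rw [← pow_add, ← pow_add]
      congr 1
      omega
    calc C0 * 2 ^ (L + 3 - b) * 2 ^ (b - c0) * 2 ^ c0 = C0 * (2 ^ (L + 3 - b) * 2 ^ (b - c0) * 2 ^ c0) := by ring
      _ = C0 * 2 ^ (L + 3) := by rw [e1]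
      _ = 8 * C0 * 2 ^ L := by ring
  obtain ⟨M, hM⟩ : ∃ M : ℕ, M = K * S := ⟨_, rfl⟩
  obtain ⟨R, hR⟩ : ∃ R : ℕ, R = (4 * K + 4) * S := ⟨_, rfl⟩
  have hRM : R = 4 * M + 4 * S := by
    rw [hR, hM]
    ring
  have hZM : 64 * M + 64 * S ≤ Z * S := by
    calc 64 * M + 64 * S = 64 * (K + 1) * S := by rw [hM]; ring
      _ ≤ Z * S := Nat.mul_le_mul_right S hZK
  have hZ0 : 0 < Z := by omega
  have hA : 8 * N ≤ q * S := by
    have h1 : 8 * N * Z ≤ q * S * Z := by
      rw [hqS]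
      calc 8 * N * Z ≤ 8 * N * C0 := Nat.mul_le_mul_left _ (by omega)
        _ = 8 * C0 * N := by ring
    exact Nat.le_of_mul_le_mul_right h1 hZ0
  have hBq : q * (K * S) ≤ C0 * N := by
    have h1 : q * (K * S) * Z ≤ C0 * N * Z := by
      calc q * (K * S) * Z = K * (q * S * Z) := by ring
        _ = 8 * K * (C0 * N) := by rw [hqS]; ring
        _ ≤ Z * (C0 * N) := Nat.mul_le_mul_right _ (by omega)
        _ = C0 * N * Z := by ring
    exact Nat.le_of_mul_le_mul_right h1 hZ0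
  rw [← hS] at hz1 hv1 hv2 hz2
  rw [← hR] at hz1 hz2
  -- the triangle words
  obtain ⟨r2, z2', q0, q1, q2, q3, q4⟩ := hz2.1
  have hzz : z2' = z2 := by rw [← rev_rev z2, q4, rev_rev]
  rw [hzz] at q3
  obtain ⟨r1, z1', p0, p1, p2, p3, rfl⟩ := hz1.1
  have h1 := TD.tri_props p0 p3
  have h2 := TD.tri_props q0 q3
  -- the tubes and t
  have f1 := tb_front hv1
  obtain ⟨g1, hg0, hg1, hg2, -⟩ := vv_props hv1
  obtain ⟨⟨g2, hg3, hg4⟩, f2, f3⟩ := tb_back hv2
  obtain ⟨n, hn1, hn2, hn3, hn4⟩ := bl_bounds ht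
  have htd := (mem_Brd.1 hn2).2.2.1
  rw [← hM] at f1 f2 f3
  have hBq' : ((q * M : ℕ) : ℤ) ≤ ((C0 * N : ℕ) : ℤ) := by
    rw [hM]
    exact_mod_cast hBq
  have hA' : 8 * (N : ℤ) ≤ ((q * S : ℕ) : ℤ) := by exact_mod_cast hA
  obtain ⟨A, hAd⟩ : ∃ A : ℤ, A = ((q * S : ℕ) : ℤ) := ⟨_, rfl⟩
  obtain ⟨B, hBd⟩ : ∃ B : ℤ, B = ((q * M : ℕ) : ℤ) := ⟨_, rfl⟩
  obtain ⟨D, hDd⟩ : ∃ D : ℤ, D = ((C0 * N : ℕ) : ℤ) := ⟨_, rfl⟩
  rw [← hAd, ← hBd] at f1 f2
  rw [← hAd] at hA'
  rw [← hBd, ← hDd] at hBq'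
  have hN' : ((2 : ℤ) ^ L) = N := by
    rw [hN]
    push_cast
    rfl
  rw [hN'] at hn1 hn3 hn4
  obtain ⟨X1, hX1⟩ : ∃ X, X = lev2 v1 v1.length := ⟨_, rfl⟩
  obtain ⟨XT, hXT⟩ : ∃ X, X = lev2 t t.length := ⟨_, rfl⟩
  obtain ⟨X2, hX2⟩ : ∃ X, X = lev2 v2 v2.length := ⟨_, rfl⟩
  have fe1 := f1.e1
  have fe2 := f1.e2
  have fe3 := f2.e1
  have fe4 := f2.e2
  rw [← hX1] at fe1 fe2
  rw [← hX2] at fe3 fe4
  have ft := hn3 t.length le_rfl
  rw [← hXT] at ft
  obtain ⟨v, hvd⟩ : ∃ v, v = v1 ++ (t ++ v2) := ⟨_, rfl⟩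
  have hvB : v ∈ Brd (g1 + (n + g2)) := by
    rw [hvd]
    exact Brd_append hg2 (Brd_append hn2 hg4)
  have hvl : v.length = v1.length + (t.length + v2.length) := by
    rw [hvd, List.length_append, List.length_append]
  have lA : ∀ i, i ≤ v1.length → lev2 v i = lev2 v1 i := by
    intro i hi
    rw [hvd, TD.lev2_append (by omega)]
  have lB : ∀ i, i ≤ t.length → lev2 v (v1.length + i) = X1 + lev2 t i := by
    intro i hi
    rw [hvd, TD.lev2_cat f1.dir, TD.lev2_append (by omega), ← hX1]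
  have lC : ∀ i, lev2 v (v1.length + (t.length + i)) = X1 + XT + lev2 v2 i := by
    intro i
    rw [hvd, TD.lev2_cat f1.dir, TD.lev2_cat htd, ← hX1, ← hXT]
    ring
  have hvE : lev2 v v.length = X1 + XT + X2 := by
    rw [hvl, lC, ← hX2]
  obtain ⟨E, hE⟩ : ∃ E : ℤ, lev2 v v.length = 3 * E := by
    have a1 := lev2_eq v v.length
    rw [(mem_Brd.1 hvB).2.2.2] at a1
    exact ⟨lev2 v v.length / 3, by omega⟩
  have hEX : 3 * E = X1 + XT + X2 := by rw [← hE, hvE]
  have hZS' : 64 * (M : ℤ) + 64 * S ≤ 4 * N := by exact_mod_cast hZM.trans hZS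
  have hR' : (R : ℤ) = 4 * M + 4 * S := by exact_mod_cast hRM
  have hS1' : (1 : ℤ) ≤ S := by exact_mod_cast hS1
  have hM0 : (0 : ℤ) ≤ M := Nat.cast_nonneg M
  have hN1' : (1 : ℤ) ≤ N := by exact_mod_cast hN1
  have p1' : (R : ℤ) ≤ r1 := by exact_mod_cast p1
  have p2' : (r1 : ℤ) < R + S := by exact_mod_cast p2
  have q1' : (R : ℤ) ≤ r2 := by exact_mod_cast q1
  have q2' : (r2 : ℤ) < R + S := by exact_mod_cast q2
  have cases3 : ∀ i, i ≤ v.length → i ≤ v1.length ∨ (∃ j, j ≤ t.length ∧ i = v1.length + j) ∨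
      ∃ j, j ≤ v2.length ∧ i = v1.length + (t.length + j) := by
    intro i hi
    rw [hvl] at hi
    by_cases c1 : i ≤ v1.length
    · exact Or.inl c1
    · by_cases c2 : i ≤ v1.length + t.length
      · exact Or.inr (Or.inl ⟨i - v1.length, by omega, by omega⟩)
      · exact Or.inr (Or.inr ⟨i - v1.length - t.length, by omega, by omega⟩)
  have hlow : ∀ i, i ≤ v.length → -(3 * (r1 : ℤ)) + 1 < lev2 v i := by
    intro i hi
    rcases cases3 i hi with c | ⟨j, j1, rfl⟩ | ⟨j, j1, rfl⟩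
    · rw [lA i c]
      have := f1.lo i c
      omega
    · rw [lB j j1]
      have := hn3 j j1
      omega
    · rw [lC j]
      have := f2.lo j j1
      omega
  have hup : ∀ i, i ≤ v.length → lev2 v i + 2 ≤ 3 * E + 3 * r2 := by
    intro i hi
    rcases cases3 i hi with c | ⟨j, j1, rfl⟩ | ⟨j, j1, rfl⟩
    · rw [lA i c]
      have := f1.mo i v1.length c le_rfl
      rw [← hX1] at this
      omega
    · rw [lB j j1]
      have := hn3 j j1
      omega
    · rw [lC j]
      have := f3 j j1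
      rw [← hX2] at this
      omega
  obtain ⟨H, hH, hbr⟩ := TD.cat_Brd h1 hvB h2 hE hlow hup (by omega) (by omega)
  rw [← hvd]
  obtain ⟨w, hw⟩ : ∃ w, w = rev z1' ++ (v ++ z2) := ⟨_, rfl⟩
  rw [← hw] at hbr ⊢
  have hwl : w.length = z1'.length + (v.length + z2.length) := by
    rw [hw, List.length_append, List.length_append, rev_length]
  have hwB := mem_Brd.1 hbr
  -- levels of w
  have wA : ∀ i, i ≤ z1'.length → 0 ≤ lev w i ∧ lev w i ≤ 6 * r1 := by
    intro i hi
    rw [hw, TD.lev_fst h1 hi]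
    rcases Nat.eq_zero_or_pos i with h0 | h0
    · rw [h0, Nat.sub_zero, h1.tip2]
      constructor <;> omega
    · have a1 := h1.rt (z1'.length + 1 - i) (by omega) (by omega)
      have a2 := h1.lt (z1'.length + 1 - i) (by omega) (by omega)
      have a3 := h1.pos (z1'.length + 1 - i) (by omega) (by omega)
      constructor <;> omega
  have wB : ∀ j, j ≤ v.length → lev w (z1'.length + j) = 3 * r1 - 1 + lev2 v j := by
    intro j hj
    rw [hw, TD.lev_snd h1, TD.lev2_append (by omega)]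
  have wC : ∀ j, lev w (z1'.length + (v.length + j)) = 3 * r1 - 1 + (3 * E + lev2 z2 j) := by
    intro j
    rw [hw, TD.lev_snd h1, TD.lev2_cat (mem_Brd.1 hvB).2.2.1, hE]
  refine ⟨⟨⟨H, hbr⟩, ⟨fun _ _ _ => Set.mem_univ _, hwB.2.1⟩, ?_⟩, ?_, ?_, ?_, ?_⟩
  · -- the box
    have hvbox : InBox v (6 * (C0 * N) + 6 * N) := by
      intro i hi
      have a1 := lev2_eq v i
      have a2 : 0 ≤ lev v i ∧ lev v i ≤ 3 * ((g1 + (n + g2) : ℕ) : ℤ) := by
        rcases Nat.eq_zero_or_pos i with h0 | h0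
        · rw [h0, lev_zero]
          constructor <;> omega
        · have := (mem_Brd.1 hvB).1 i h0 hi
          constructor <;> omega
      have a3 : ((g1 : ℕ) : ℤ) ≤ B := by
        rw [hBd, hM]
        exact_mod_cast hg1
      have a4 : ((g2 : ℕ) : ℤ) ≤ B := by
        rw [hBd, hM]
        exact_mod_cast hg3
      have a5 : -(3 * (M : ℤ)) ≤ lev2 v i ∧ lev2 v i ≤ 3 * B + 3 * B + 3 * N + 5 * M := by
        rcases cases3 i hi with c | ⟨j, j1, rfl⟩ | ⟨j, j1, rfl⟩
        · rw [lA i c]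
          have b1 := f1.lo i c
          have b2 := f1.mo i v1.length c le_rfl
          rw [← hX1] at b2
          constructor <;> omega
        · rw [lB j j1]
          have := hn3 j j1
          constructor <;> omega
        · rw [lC j]
          have b1 := f2.lo j j1
          have b2 := f3 j j1
          rw [← hX2] at b2
          constructor <;> omega
      rw [abs_le]
      push_cast at hDd a2 ⊢
      rw [← hDd]
      constructor <;> omega
    have hbox := TD.cat_box h1 hvB h2 hvbox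
    rw [← hw] at hbox
    have a3 : ((g1 : ℕ) : ℤ) ≤ B := by
      rw [hBd, hM]
      exact_mod_cast hg1
    have a4 : ((g2 : ℕ) : ℤ) ≤ B := by
      rw [hBd, hM]
      exact_mod_cast hg3
    have hfin : 32 * D ≤ 2 ^ (L + C0) := by
      have e1 : ∀ k : ℕ, 8 ≤ k → 32 * k ≤ 2 ^ k := by
        intro k hk
        induction k, hk using Nat.le_induction with
        | base => norm_num
        | succ k hk ih =>
          rw [pow_succ]
          omega
      have e2 := e1 C0 (by omega)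
      have e3 : 32 * (C0 * N) ≤ 2 ^ (L + C0) := by
        rw [pow_add, ← hN]
        calc 32 * (C0 * N) = N * (32 * C0) := by ring
          _ ≤ N * 2 ^ C0 := Nat.mul_le_mul_left N e2
      rw [hDd]
      exact_mod_cast e3
    have hDN : 8 * (N : ℤ) ≤ D := by
      rw [hDd]
      have : 8 * N ≤ C0 * N := Nat.mul_le_mul_right N (by omega)
      exact_mod_cast this
    intro i hi dir
    have b1 : 0 ≤ lev w i ∧ lev w i ≤ 3 * H := by
      rcases Nat.eq_zero_or_pos i with h0 | h0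
      · rw [h0, lev_zero]
        constructor <;> omega
      · have := hwB.1 i h0 hi
        constructor <;> omega
    have b2 := hbox i hi
    have b3 := lev2_eq w i
    rw [abs_le] at b2
    push_cast at b2 hDd
    rw [← hDd] at b2
    obtain ⟨Y, hY⟩ : ∃ Y : ℤ, Y = 2 ^ (L + C0) := ⟨_, rfl⟩
    rw [← hY] at hfin ⊢
    unfold row
    cases dir
    · have e1 : lvl false (vx oo up w i) = lev w i := rfl
      rw [e1, abs_le]
      constructor <;> omega
    · have e1 : lvl true (vx oo up w i) = -lev2 w i := by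
        unfold lvl hd lev2 ip rotR up
        simp only [if_true]
        ring
      rw [e1, abs_le]
      constructor <;> omega
  · -- le
    rw [rev_length, hwl, hvl]
    omega
  · -- rel
    refine ⟨3 * r1 - 1 + X1, ?_⟩
    intro i hi
    have e1 : lvl true (vx oo up t i) = -lev2 t i := by
      unfold lvl hd lev2 ip rotR up
      simp only [if_true]
      ring
    have e2 : lvl false (vx oo up w ((rev z1').length + v1.length + i)) = lev w (z1'.length + (v1.length + i)) := by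
      rw [rev_length, add_assoc]
      rfl
    rw [e2, wB _ (by omega), lB i hi, e1]
    ring
  · -- pre
    intro i i' h5 h6
    rw [rev_length] at h6
    show lev w i - lev w i' < RR b
    unfold RR
    have e0 : ((2 : ℤ) ^ b) = (Z * S : ℕ) := by
      rw [← hb2]
      push_cast
      rfl
    rw [e0]
    have e1 : 64 * (M : ℤ) + 64 * S ≤ ((Z * S : ℕ) : ℤ) := by exact_mod_cast hZM
    by_cases c1 : i' ≤ z1'.length
    · have b1 := wA i (by omega)
      have b2 := wA i' c1
      omega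
    · obtain ⟨j', rfl⟩ : ∃ j', i' = z1'.length + j' := ⟨i' - z1'.length, by omega⟩
      rw [wB j' (by omega), lA j' (by omega)]
      by_cases c2 : i ≤ z1'.length
      · have b1 := wA i c2
        have b2 := f1.lo j' (by omega)
        omega
      · obtain ⟨j, rfl⟩ : ∃ j, i = z1'.length + j := ⟨i - z1'.length, by omega⟩
        rw [wB j (by omega), lA j (by omega)]
        have b2 := f1.mo j j' (by omega) (by omega)
        omega
  · -- post
    intro i i' h5 h6 h7
    rw [rev_length] at h5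
    rw [hwl] at h7
    show lev w i - lev w i' < RR b
    unfold RR
    have e0 : ((2 : ℤ) ^ b) = (Z * S : ℕ) := by
      rw [← hb2]
      push_cast
      rfl
    rw [e0]
    have e1 : 64 * (M : ℤ) + 64 * S ≤ ((Z * S : ℕ) : ℤ) := by exact_mod_cast hZM
    have hz : ∀ k, 1 ≤ k → k ≤ z2.length → -(3 * (r2 : ℤ)) ≤ lev2 z2 k ∧ lev2 z2 k ≤ 3 * r2 := by
      intro k k1 k2
      have a1 := h2.rt k k1 k2
      have a2 := h2.lt k k1 k2
      have a3 := h2.pos k k1 k2
      constructor <;> omega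
    have split : ∀ i, z1'.length + v1.length + t.length ≤ i → i ≤ z1'.length + (v.length + z2.length) →
        (∃ j, j ≤ v2.length ∧ i = z1'.length + (v1.length + (t.length + j))) ∨
          ∃ j, 1 ≤ j ∧ j ≤ z2.length ∧ i = z1'.length + (v.length + j) := by
      intro i c1 c2
      by_cases c3 : i ≤ z1'.length + v.length
      · left
        refine ⟨i - z1'.length - v1.length - t.length, by omega, by omega⟩
      · right
        refine ⟨i - z1'.length - v.length, by omega, by omega, by omega⟩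
    rcases split i' (by omega) h7 with ⟨j', j1, rfl⟩ | ⟨j', j1, j2, rfl⟩
    · rcases split i (by omega) (by omega) with ⟨j, k1, rfl⟩ | ⟨j, k1, k2, rfl⟩
      · rw [wB _ (by omega), wB _ (by omega), lC, lC]
        have := f2.mo j j' (by omega) j1
        omega
      · exfalso
        omega
    · rw [wC j']
      have b1 := hz j' j1 j2
      rcases split i (by omega) (by omega) with ⟨j, k1, rfl⟩ | ⟨j, k1, k2, rfl⟩
      · rw [wB _ (by omega), lC]
        have := f3 j k1
        rw [← hX2] at this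
        omega
      · rw [wC j]
        have b2 := hz j k1 k2
        omega

end SDN

end HexObs
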